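import Pool.Agent.W_b58c63_h44.Df

/-!
# Selberg's weights
-/

set_option autoImplicit false

noncomputable section

open Finset

namespace Pool.Agent.PSG

/-- `∏_{p ∣ d} h p / (1 - h p)`. -/
def gg (h : ℕ → ℝ) (d : ℕ) : ℝ := pp (fun p => h p / (1 - h p)) d

/-- The squarefree numbers up to `z`. -/
def SF (z : ℝ) : Finset ℕ := (Icc 1 ⌊z⌋₊).filter Squarefree

/-- `∑_{d ≤ z} μ(d) ^ 2 g(d)`. -/
def GG (h : ℕ → ℝ) (z : ℝ) : ℝ := ∑ d ∈ SF z, gg h d

theorem Sel_mem {z : ℝ} {d : ℕ} : d ∈ SF z ↔ 1 ≤ d ∧ (d : ℝ) ≤ z ∧ Squarefree d := by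
  unfold SF
  rw [mem_filter, mem_Icc]
  constructor
  · rintro ⟨⟨h1, h2⟩, h3⟩
    exact ⟨h1, (Nat.le_floor_iff' (by omega)).1 h2, h3⟩
  · rintro ⟨h1, h2, h3⟩
    exact ⟨⟨h1, (Nat.le_floor_iff' (by omega)).2 h2⟩, h3⟩

theorem Sel_dvd {z : ℝ} {d f : ℕ} (hd : d ∈ SF z) (hf : f ∣ d) : f ∈ SF z := by
  rw [Sel_mem] at hd ⊢
  obtain ⟨h1, h2, h3⟩ := hd
  refine ⟨Nat.pos_of_dvd_of_pos hf h1, le_trans ?_ h2, h3.squarefree_of_dvd hf⟩
  exact_mod_cast Nat.le_of_dvd h1 hf

theorem Sel_pp_mul (h : ℕ → ℝ) {d e : ℕ} (hde : Nat.Coprime d e) : pp h (d * e) = pp h d * pp h e := by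
  unfold pp
  rw [hde.primeFactors_mul, Finset.prod_union hde.disjoint_primeFactors]

theorem Sel_pp_pos (h : ℕ → ℝ) (hh : ∀ p : ℕ, p.Prime → 0 < h p) (d : ℕ) : 0 < pp h d := by
  unfold pp
  exact Finset.prod_pos fun p hp => hh p (Nat.prime_of_mem_primeFactors hp)

theorem Sel_gg_pos (h : ℕ → ℝ) (hh : ∀ p : ℕ, p.Prime → 0 < h p ∧ h p < 1) (d : ℕ) : 0 < gg h d := by
  refine Sel_pp_pos _ (fun p hp => ?_) d
  have := hh p hp
  exact div_pos this.1 (by linarith)

theorem Sel_pp_one (h : ℕ → ℝ) : pp h 1 = 1 := by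
  simp [pp]

theorem Sel_gg_one (h : ℕ → ℝ) : gg h 1 = 1 := Sel_pp_one _

theorem Sel_gg_mul (h : ℕ → ℝ) {d e : ℕ} (hde : Nat.Coprime d e) : gg h (d * e) = gg h d * gg h e :=
  Sel_pp_mul _ hde

/-- `∑_{f ∣ n} ∏_{p ∣ f} k p = ∏_{p ∣ n} (1 + k p)` for squarefree `n`. -/
theorem Sel_sum_div (k : ℕ → ℝ) {n : ℕ} (hn : Squarefree n) :
    ∑ f ∈ n.divisors, pp k f = ∏ p ∈ n.primeFactors, (1 + k p) := by
  rw [Finset.prod_one_add]
  have hn0 : n ≠ 0 := hn.ne_zero
  refine Finset.sum_nbij' (i := fun f => f.primeFactors) (j := fun t => ∏ p ∈ t, p) ?_ ?_ ?_ ?_ ?_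
  · intro f hf
    rw [Finset.mem_powerset]
    exact Nat.primeFactors_mono (Nat.dvd_of_mem_divisors hf) hn0
  · intro t ht
    rw [Finset.mem_powerset] at ht
    rw [Nat.mem_divisors]
    refine ⟨?_, hn0⟩
    conv_rhs => rw [← Nat.prod_primeFactors_of_squarefree hn]
    exact Finset.prod_dvd_prod_of_subset _ _ _ ht
  · intro f hf
    exact Nat.prod_primeFactors_of_squarefree (hn.squarefree_of_dvd (Nat.dvd_of_mem_divisors hf))
  · intro t ht
    rw [Finset.mem_powerset] at ht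
    exact Nat.primeFactors_prod fun p hp => Nat.prime_of_mem_primeFactors (ht hp)
  · intro f hf
    rfl

theorem Sel_inv (h : ℕ → ℝ) (hh : ∀ p : ℕ, p.Prime → 0 < h p ∧ h p < 1) {n : ℕ} (hn : Squarefree n) :
    1 / pp h n = ∑ f ∈ n.divisors, 1 / gg h f := by
  have h1 : ∀ f, 1 / gg h f = pp (fun p => (1 - h p) / h p) f := by
    intro f
    unfold gg pp
    rw [one_div, ← Finset.prod_inv_distrib]
    exact Finset.prod_congr rfl fun p _ => inv_div _ _
  simp only [h1]
  rw [Sel_sum_div _ hn]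
  unfold pp
  rw [one_div, ← Finset.prod_inv_distrib]
  refine Finset.prod_congr rfl fun p hp => ?_
  have := hh p (Nat.prime_of_mem_primeFactors hp)
  have h0 : h p ≠ 0 := this.1.ne'
  field_simp
  ring

theorem Sel_ratio (h : ℕ → ℝ) (hh : ∀ p : ℕ, p.Prime → 0 < h p ∧ h p < 1) {n : ℕ} (hn : Squarefree n) :
    gg h n / pp h n = ∑ l ∈ n.divisors, gg h l := by
  unfold gg
  rw [Sel_sum_div _ hn]
  unfold pp
  rw [← Finset.prod_div_distrib]
  refine Finset.prod_congr rfl fun p hp => ?_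
  have := hh p (Nat.prime_of_mem_primeFactors hp)
  have h0 : h p ≠ 0 := this.1.ne'
  have h2 : 1 - h p ≠ 0 := by linarith [this.2]
  field_simp
  ring

theorem Sel_lcm (h : ℕ → ℝ) {d e : ℕ} (hd : d ≠ 0) (he : e ≠ 0) :
    pp h (Nat.lcm d e) * pp h (Nat.gcd d e) = pp h d * pp h e := by
  have h1 : (Nat.lcm d e).primeFactors = d.primeFactors ∪ e.primeFactors := by
    ext p
    simp only [Nat.mem_primeFactors, Finset.mem_union]
    constructor
    · rintro ⟨hp, h1, -⟩
      rcases (Nat.Prime.dvd_lcm hp).1 h1 with h | h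
      · exact Or.inl ⟨hp, h, hd⟩
      · exact Or.inr ⟨hp, h, he⟩
    · rintro (⟨hp, h, -⟩ | ⟨hp, h, -⟩)
      · exact ⟨hp, h.trans (Nat.dvd_lcm_left _ _), Nat.lcm_ne_zero hd he⟩
      · exact ⟨hp, h.trans (Nat.dvd_lcm_right _ _), Nat.lcm_ne_zero hd he⟩
  unfold pp
  rw [h1, Nat.primeFactors_gcd hd he, Finset.prod_union_inter]

/-- The pairs `(d, m)` with `d m ≤ z` and the pairs `(n, d)` with `d ∣ n`. -/
theorem Sel_swap (z : ℝ) (P : ℕ → Prop) [DecidablePred P] (F : ℕ → ℕ → ℝ) :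
    ∑ d ∈ (SF z).filter P, ∑ m ∈ (SF (z / d)).filter (fun m => Nat.Coprime m d), F d m =
      ∑ n ∈ SF z, ∑ d ∈ n.divisors.filter P, F d (n / d) := by
  rw [Finset.sum_sigma', Finset.sum_sigma']
  refine Finset.sum_nbij' (i := fun x => ⟨x.1 * x.2, x.1⟩) (j := fun x => ⟨x.2, x.1 / x.2⟩) ?_ ?_ ?_ ?_ ?_
  · rintro ⟨d, m⟩ hx
    simp only [Finset.mem_sigma, Finset.mem_filter, Sel_mem, Nat.mem_divisors] at hx ⊢
    obtain ⟨⟨⟨h1, h2, h3⟩, h4⟩, ⟨h5, h6, h7⟩, h8⟩ := hx
    have hd : (0 : ℝ) < d := by exact_mod_cast h1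
    refine ⟨⟨Nat.mul_pos h1 h5, ?_, ?_⟩, ⟨dvd_mul_right _ _, ?_⟩, h4⟩
    · push_cast
      rw [le_div_iff₀ hd] at h6
      linarith
    · exact (Nat.squarefree_mul h8.symm).2 ⟨h3, h7⟩
    · exact (Nat.mul_pos h1 h5).ne'
  · rintro ⟨n, d⟩ hx
    simp only [Finset.mem_sigma, Finset.mem_filter, Sel_mem, Nat.mem_divisors] at hx ⊢
    obtain ⟨⟨h1, h2, h3⟩, ⟨⟨m, hm⟩, h5⟩, h4⟩ := hx
    subst hm
    have hd0 : 0 < d := Nat.pos_of_ne_zero fun h => by subst h; simp at h1
    have hm0 : 0 < m := Nat.pos_of_ne_zero fun h => by subst h; simp at h1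
    have hd : (0 : ℝ) < d := by exact_mod_cast hd0
    rw [Nat.mul_div_cancel_left _ hd0]
    have hc : Nat.Coprime d m := Nat.coprime_of_squarefree_mul h3
    push_cast at h2
    refine ⟨⟨⟨hd0, ?_, h3.squarefree_of_dvd (dvd_mul_right _ _)⟩, h4⟩, ⟨hm0, ?_, h3.squarefree_of_dvd (dvd_mul_left _ _)⟩, hc.symm⟩
    · have : (1 : ℝ) ≤ m := by exact_mod_cast hm0
      nlinarith
    · rw [le_div_iff₀ hd]
      linarith
  · rintro ⟨d, m⟩ hx
    simp only [Finset.mem_sigma, Finset.mem_filter, Sel_mem] at hx ⊢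
    have hd0 : 0 < d := hx.1.1.1
    simp [Nat.mul_div_cancel_left _ hd0]
  · rintro ⟨n, d⟩ hx
    simp only [Finset.mem_sigma, Finset.mem_filter, Sel_mem, Nat.mem_divisors] at hx ⊢
    simp [Nat.mul_div_cancel' hx.2.1.1]
  · rintro ⟨d, m⟩ hx
    simp only [Finset.mem_sigma, Finset.mem_filter, Sel_mem] at hx ⊢
    have hd0 : 0 < d := hx.1.1.1
    simp [Nat.mul_div_cancel_left _ hd0]

/-- `∑_{f ∣ d ∣ n} μ(d)`. -/
theorem Sel_moebius {n f : ℕ} (hn : Squarefree n) (hf : 0 < f) :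
    ∑ d ∈ n.divisors.filter (fun d => f ∣ d), (ArithmeticFunction.moebius d : ℝ) =
      if n = f then (ArithmeticFunction.moebius f : ℝ) else 0 := by
  have hn0 : n ≠ 0 := hn.ne_zero
  by_cases hfn : f ∣ n
  · obtain ⟨m, rfl⟩ := hfn
    have hm0 : m ≠ 0 := by
      rintro rfl
      simp at hn0
    have hmul : ∀ e ∈ m.divisors, (ArithmeticFunction.moebius (f * e) : ℝ) =
        (ArithmeticFunction.moebius f : ℝ) * (ArithmeticFunction.moebius e : ℝ) := by
      intro e he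
      have he' := Nat.dvd_of_mem_divisors he
      have hc : Nat.Coprime f e := Nat.coprime_of_squarefree_mul
        (hn.squarefree_of_dvd (Nat.mul_dvd_mul_left f he'))
      have := ArithmeticFunction.isMultiplicative_moebius.map_mul_of_coprime hc
      exact_mod_cast this
    have h1 : ∑ d ∈ (f * m).divisors.filter (fun d => f ∣ d), (ArithmeticFunction.moebius d : ℝ) =
        ∑ e ∈ m.divisors, (ArithmeticFunction.moebius (f * e) : ℝ) := by
      refine Finset.sum_nbij' (i := fun d => d / f) (j := fun e => f * e) ?_ ?_ ?_ ?_ ?_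
      · intro d hd
        rw [Finset.mem_filter, Nat.mem_divisors] at hd
        obtain ⟨⟨h1, -⟩, e, rfl⟩ := hd
        rw [Nat.mul_div_cancel_left _ hf, Nat.mem_divisors]
        exact ⟨Nat.dvd_of_mul_dvd_mul_left hf h1, hm0⟩
      · intro e he
        rw [Nat.mem_divisors] at he
        rw [Finset.mem_filter, Nat.mem_divisors]
        exact ⟨⟨Nat.mul_dvd_mul_left f he.1, hn0⟩, dvd_mul_right _ _⟩
      · intro d hd
        rw [Finset.mem_filter] at hd
        exact Nat.mul_div_cancel' hd.2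
      · intro e he
        exact Nat.mul_div_cancel_left _ hf
      · intro d hd
        rw [Finset.mem_filter] at hd
        rw [Nat.mul_div_cancel' hd.2]
    rw [h1, Finset.sum_congr rfl hmul, ← Finset.mul_sum]
    have h2 : ∑ e ∈ m.divisors, (ArithmeticFunction.moebius e : ℝ) = if m = 1 then 1 else 0 := by
      have h3 := congrArg (fun F : ArithmeticFunction ℤ => F m) ArithmeticFunction.moebius_mul_coe_zeta
      simp only [ArithmeticFunction.coe_mul_zeta_apply, ArithmeticFunction.one_apply] at h3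
      exact_mod_cast h3
    rw [h2]
    by_cases hm : m = 1
    · simp [hm]
    · rw [if_neg hm, if_neg, mul_zero]
      intro h
      apply hm
      exact Nat.eq_of_mul_eq_mul_left hf (by rw [h, mul_one])
  · rw [if_neg (fun h => hfn (by rw [h])), Finset.sum_eq_zero]
    intro d hd
    rw [Finset.mem_filter] at hd
    exact absurd (hd.2.trans (Nat.dvd_of_mem_divisors hd.1)) hfn

/-- **Selberg's weights.**

Proof. Write `H d = pp h d`, `g d = gg h d > 0`, `G = GG h z ≥ g 1 = 1`, and for `d ∈ SF z` let `G_d = ∑_{m ∈ SF (z / d), (m, d) = 1} g m`,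
`lam d = μ(d) (g d / H d) G_d / G`, and `lam d = 0` for the other `d`. `lam 1 = 1`. `g d / H d = ∏_{p ∣ d} 1 / (1 - h p) = ∏_{p ∣ d} (1 + g p) = ∑_{l ∣ d} g l`.
`|lam d| ≤ 1`: group the `n ∈ SF z` by `l = gcd(n, d)`, `n = l m`, `(m, d) = 1`, `m ≤ z / l`: `G = ∑_{l ∣ d} g l ∑_{m ∈ SF (z/l), (m, d) = 1} g m ≥ (∑_{l ∣ d} g l) G_d`, because `z / l ≥ z / d`.
Last claim: for squarefree `f ≤ z`: `∑_{f ∣ d ≤ z} lam d H d = (1 / G) ∑_{f ∣ d} μ(d) g d ∑_{m ≤ z / d, (m, d) = 1} g m = (1 / G) ∑_{n ∈ SF z} g n ∑_{d : f ∣ d ∣ n} μ(d)` (`n = d m`; the pairs `(d, m)` with `d m ≤ z`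
squarefree correspond to the pairs `(n, d)`, `d ∣ n`), and for squarefree `n` the inner sum is `0` unless `n = f` (for `f ∣ n`, it is `μ(f) ∑_{e ∣ n / f} μ(e)`), where it is `μ(f)`. So the value is `μ(f) g f / G`. -/
theorem selberg_exists (h : ℕ → ℝ) (hh : ∀ p : ℕ, p.Prime → 0 < h p ∧ h p < 1) (z : ℝ) (hz : 1 ≤ z) :
    ∃ lam : ℕ → ℝ, lam 1 = 1 ∧ (∀ d, |lam d| ≤ 1) ∧ (∀ d, d ∉ SF z → lam d = 0) ∧
      ∀ f ∈ SF z, ∑ d ∈ (SF z).filter (fun d => f ∣ d), lam d * pp h d =
        (ArithmeticFunction.moebius f : ℝ) * gg h f / GG h z := by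
  classical
  have hg := Sel_gg_pos h hh
  have hH := Sel_pp_pos h (fun p hp => (hh p hp).1)
  have h1mem : 1 ∈ SF z := Sel_mem.2 ⟨le_rfl, by exact_mod_cast hz, squarefree_one⟩
  have hG : 0 < GG h z := Finset.sum_pos (fun d _ => hg d) ⟨1, h1mem⟩
  set Gd : ℕ → ℝ := fun d => ∑ m ∈ (SF (z / d)).filter (fun m => Nat.Coprime m d), gg h m with hGd
  have hGd0 : ∀ d, 0 ≤ Gd d := fun d => Finset.sum_nonneg fun m _ => (hg m).le
  refine ⟨fun d => if d ∈ SF z then (ArithmeticFunction.moebius d : ℝ) * (gg h d / pp h d) * Gd d / GG h z else 0,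
    ?_, ?_, ?_, ?_⟩
  · simp only [if_pos h1mem, hGd, Sel_gg_one, Sel_pp_one, ArithmeticFunction.moebius_apply_one, Nat.cast_one, div_one,
      Nat.coprime_one_right_eq_true, Finset.filter_true]
    simp only [Int.cast_one, mul_one, one_mul]
    exact div_self hG.ne'
  · intro d
    by_cases hd : d ∈ SF z
    · simp only [if_pos hd]
      have hd' := Sel_mem.1 hd
      obtain ⟨hd1, hd2, hd3⟩ := hd'
      rw [abs_div, abs_mul, abs_mul, abs_of_pos hG, abs_of_nonneg (hGd0 d), abs_of_pos (div_pos (hg d) (hH d))]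
      have hmu : |(ArithmeticFunction.moebius d : ℝ)| ≤ 1 := by
        have := ArithmeticFunction.abs_moebius_le_one (n := d)
        exact_mod_cast this
      rw [div_le_one hG]
      have hkey : (gg h d / pp h d) * Gd d ≤ GG h z := by
        rw [Sel_ratio h hh hd3, Finset.sum_mul_sum, ← Finset.sum_product']
        have hinj : Set.InjOn (fun x : ℕ × ℕ => x.1 * x.2)
            (d.divisors ×ˢ (SF (z / d)).filter (fun m => Nat.Coprime m d) : Finset (ℕ × ℕ)) := by
          rintro ⟨l, m⟩ hx ⟨l', m'⟩ hx' heq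
          simp only [Finset.coe_product, Set.mem_prod, Finset.mem_coe, Nat.mem_divisors, Finset.mem_filter] at hx hx' heq
          have e1 : Nat.gcd (l * m) d = l := by
            rw [Nat.Coprime.gcd_mul_right_cancel _ hx.2.2]
            exact Nat.gcd_eq_left hx.1.1
          have e2 : Nat.gcd (l' * m') d = l' := by
            rw [Nat.Coprime.gcd_mul_right_cancel _ hx'.2.2]
            exact Nat.gcd_eq_left hx'.1.1
          have e3 : l = l' := by rw [← e1, ← e2, heq]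
          subst e3
          have hl : 0 < l := Nat.pos_of_dvd_of_pos hx.1.1 hd1
          have : m = m' := Nat.eq_of_mul_eq_mul_left hl heq
          rw [this]
        have hsub : (d.divisors ×ˢ (SF (z / d)).filter (fun m => Nat.Coprime m d)).image (fun x : ℕ × ℕ => x.1 * x.2) ⊆
            SF z := by
          intro n hn
          rw [Finset.mem_image] at hn
          obtain ⟨⟨l, m⟩, hx, rfl⟩ := hn
          simp only [Finset.mem_product, Nat.mem_divisors, Finset.mem_filter, Sel_mem] at hx ⊢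
          obtain ⟨⟨hl, -⟩, ⟨hm1, hm2, hm3⟩, hm4⟩ := hx
          have hl0 : 0 < l := Nat.pos_of_dvd_of_pos hl hd1
          have hdR : (0 : ℝ) < d := by exact_mod_cast hd1
          refine ⟨Nat.mul_pos hl0 hm1, ?_, ?_⟩
          · rw [le_div_iff₀ hdR] at hm2
            have h1 : (l : ℝ) ≤ d := by exact_mod_cast Nat.le_of_dvd hd1 hl
            have h2 : (0 : ℝ) ≤ m := Nat.cast_nonneg _
            push_cast
            nlinarith
          · exact (Nat.squarefree_mul (Nat.Coprime.coprime_dvd_right hl hm4).symm).2 ⟨hd3.squarefree_of_dvd hl, hm3⟩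
        calc ∑ x ∈ d.divisors ×ˢ (SF (z / d)).filter (fun m => Nat.Coprime m d), gg h x.1 * gg h x.2
            = ∑ x ∈ d.divisors ×ˢ (SF (z / d)).filter (fun m => Nat.Coprime m d), gg h (x.1 * x.2) := by
              refine Finset.sum_congr rfl fun x hx => ?_
              simp only [Finset.mem_product, Nat.mem_divisors, Finset.mem_filter, Sel_mem] at hx
              exact (Sel_gg_mul h (Nat.Coprime.coprime_dvd_right hx.1.1 hx.2.2).symm).symm
          _ = ∑ n ∈ (d.divisors ×ˢ (SF (z / d)).filter (fun m => Nat.Coprime m d)).image (fun x : ℕ × ℕ => x.1 * x.2),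
                gg h n := by
              rw [Finset.sum_image hinj]
          _ ≤ GG h z := Finset.sum_le_sum_of_subset_of_nonneg hsub fun n _ _ => (hg n).le
      calc |(ArithmeticFunction.moebius d : ℝ)| * (gg h d / pp h d) * Gd d
          = |(ArithmeticFunction.moebius d : ℝ)| * ((gg h d / pp h d) * Gd d) := by ring
        _ ≤ 1 * ((gg h d / pp h d) * Gd d) :=
            mul_le_mul_of_nonneg_right hmu (mul_nonneg (div_pos (hg d) (hH d)).le (hGd0 d))
        _ ≤ GG h z := by rw [one_mul]; exact hkey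
    · simp [if_neg hd]
  · intro d hd
    simp [if_neg hd]
  · intro f hf
    have hf' := Sel_mem.1 hf
    have h1 : ∑ d ∈ (SF z).filter (fun d => f ∣ d), (if d ∈ SF z then
        (ArithmeticFunction.moebius d : ℝ) * (gg h d / pp h d) * Gd d / GG h z else 0) * pp h d =
        (∑ d ∈ (SF z).filter (fun d => f ∣ d), ∑ m ∈ (SF (z / d)).filter (fun m => Nat.Coprime m d),
          (ArithmeticFunction.moebius d : ℝ) * gg h (d * m)) / GG h z := by
      rw [Finset.sum_div]
      refine Finset.sum_congr rfl fun d hd => ?_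
      rw [Finset.mem_filter] at hd
      rw [if_pos hd.1]
      have h2 : ∑ m ∈ (SF (z / d)).filter (fun m => Nat.Coprime m d), (ArithmeticFunction.moebius d : ℝ) * gg h (d * m) =
          (ArithmeticFunction.moebius d : ℝ) * gg h d * Gd d := by
        rw [hGd, Finset.mul_sum]
        refine Finset.sum_congr rfl fun m hm => ?_
        rw [Finset.mem_filter] at hm
        rw [Sel_gg_mul h hm.2.symm]
        ring
      rw [h2]
      have := (hH d).ne'
      field_simp
    rw [h1, Sel_swap z (fun d => f ∣ d) (fun d m => (ArithmeticFunction.moebius d : ℝ) * gg h (d * m))]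
    congr 1
    calc ∑ n ∈ SF z, ∑ d ∈ n.divisors.filter (fun d => f ∣ d), (ArithmeticFunction.moebius d : ℝ) * gg h (d * (n / d))
        = ∑ n ∈ SF z, gg h n * ∑ d ∈ n.divisors.filter (fun d => f ∣ d), (ArithmeticFunction.moebius d : ℝ) := by
          refine Finset.sum_congr rfl fun n hn => ?_
          rw [Finset.mul_sum]
          refine Finset.sum_congr rfl fun d hd => ?_
          rw [Finset.mem_filter] at hd
          rw [Nat.mul_div_cancel' (Nat.dvd_of_mem_divisors hd.1), mul_comm]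
      _ = ∑ n ∈ SF z, gg h n * (if n = f then (ArithmeticFunction.moebius f : ℝ) else 0) := by
          refine Finset.sum_congr rfl fun n hn => ?_
          rw [Sel_moebius (Sel_mem.1 hn).2.2 hf'.1]
      _ = (ArithmeticFunction.moebius f : ℝ) * gg h f := by
          simp only [mul_ite, mul_zero]
          rw [Finset.sum_ite_eq' (SF z) f (fun n => gg h n * (ArithmeticFunction.moebius f : ℝ)), if_pos hf, mul_comm]

/-- **Diagonalization.**

Proof. For squarefree `d, e`: `H (lcm d e) = H d H e / H (gcd d e)` and `1 / H n = ∏_{p ∣ n} (1 + 1 / g p) = ∑_{f ∣ n} 1 / g f` for squarefree `n` (`1 + (1 - h) / h = 1 / h`). So the left side is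
`∑_{d, e} lam d lam e H d H e ∑_{f ∣ d, f ∣ e} 1 / g f`, exchange the sums. All the divisors of elements of `SF z` are in `SF z`. -/
theorem selberg_diag (h : ℕ → ℝ) (hh : ∀ p : ℕ, p.Prime → 0 < h p ∧ h p < 1) (z : ℝ) (D : Finset ℕ) (hD : D ⊆ SF z)
    (lam : ℕ → ℝ) : ∑ d ∈ D, ∑ e ∈ D, lam d * lam e * pp h (Nat.lcm d e) =
      ∑ f ∈ SF z, (1 / gg h f) * (∑ d ∈ D.filter (fun d => f ∣ d), lam d * pp h d) ^ 2 := by
  classical
  have hH := Sel_pp_pos h (fun p hp => (hh p hp).1)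
  have key : ∀ d ∈ D, ∀ e ∈ D, lam d * lam e * pp h (Nat.lcm d e) =
      ∑ f ∈ SF z, (1 / gg h f) * ((if f ∣ d then lam d * pp h d else 0) * (if f ∣ e then lam e * pp h e else 0)) := by
    intro d hd e he
    have hd' := Sel_mem.1 (hD hd)
    have he' := Sel_mem.1 (hD he)
    have hd0 : d ≠ 0 := by omega
    have he0 : e ≠ 0 := by omega
    have hgsq : Squarefree (Nat.gcd d e) := hd'.2.2.squarefree_of_dvd (Nat.gcd_dvd_left d e)
    have h1 := Sel_lcm h hd0 he0
    have h2 := Sel_inv h hh hgsq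
    have h3 : ∑ f ∈ (Nat.gcd d e).divisors, 1 / gg h f =
        ∑ f ∈ SF z, if f ∣ d ∧ f ∣ e then 1 / gg h f else 0 := by
      rw [← Finset.sum_filter]
      refine Finset.sum_congr ?_ fun _ _ => rfl
      ext f
      rw [Nat.mem_divisors, Finset.mem_filter, Nat.dvd_gcd_iff]
      constructor
      · rintro ⟨h4, -⟩
        exact ⟨Sel_dvd (hD hd) h4.1, h4⟩
      · rintro ⟨-, h4⟩
        exact ⟨h4, hgsq.ne_zero⟩
    have h4 : pp h (Nat.lcm d e) = pp h d * pp h e * (1 / pp h (Nat.gcd d e)) := by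
      rw [← h1]
      have := (hH (Nat.gcd d e)).ne'
      field_simp
    rw [h4, h2, h3, Finset.mul_sum, Finset.mul_sum]
    refine Finset.sum_congr rfl fun f _ => ?_
    by_cases hfd : f ∣ d <;> by_cases hfe : f ∣ e <;> simp [hfd, hfe]
    ring
  rw [Finset.sum_congr rfl fun d hd => Finset.sum_congr rfl fun e he => key d hd e he]
  have h5 : ∀ d ∈ D, ∑ e ∈ D, ∑ f ∈ SF z, (1 / gg h f) * ((if f ∣ d then lam d * pp h d else 0) *
      (if f ∣ e then lam e * pp h e else 0)) = ∑ f ∈ SF z, ∑ e ∈ D, (1 / gg h f) * ((if f ∣ d then lam d * pp h d else 0) *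
      (if f ∣ e then lam e * pp h e else 0)) := fun d _ => Finset.sum_comm
  rw [Finset.sum_congr rfl h5, Finset.sum_comm]
  refine Finset.sum_congr rfl fun f _ => ?_
  rw [pow_two, Finset.sum_filter, Finset.sum_mul_sum, Finset.mul_sum]
  refine Finset.sum_congr rfl fun d _ => ?_
  rw [Finset.mul_sum]

/-- The value of the quadratic form.

Proof. `selberg_diag` with `D = SF z`: `∑_f (1 / g f) (μ(f) g f / G) ^ 2 = ∑_f g f / G ^ 2 = 1 / G`. -/
theorem selberg_value (h : ℕ → ℝ) (hh : ∀ p : ℕ, p.Prime → 0 < h p ∧ h p < 1) (z : ℝ) (hz : 1 ≤ z) (lam : ℕ → ℝ)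
    (hl : ∀ f ∈ SF z, ∑ d ∈ (SF z).filter (fun d => f ∣ d), lam d * pp h d =
        (ArithmeticFunction.moebius f : ℝ) * gg h f / GG h z) :
    ∑ d ∈ SF z, ∑ e ∈ SF z, lam d * lam e * pp h (Nat.lcm d e) = 1 / GG h z := by
  have hg := Sel_gg_pos h hh
  have h1mem : 1 ∈ SF z := Sel_mem.2 ⟨le_rfl, by exact_mod_cast hz, squarefree_one⟩
  have hG : 0 < GG h z := Finset.sum_pos (fun d _ => hg d) ⟨1, h1mem⟩
  rw [selberg_diag h hh z (SF z) (Finset.Subset.refl _) lam]
  have h1 : ∀ f ∈ SF z, (1 / gg h f) * (∑ d ∈ (SF z).filter (fun d => f ∣ d), lam d * pp h d) ^ 2 =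
      gg h f * (1 / GG h z ^ 2) := by
    intro f hf
    rw [hl f hf]
    have hmu : (ArithmeticFunction.moebius f : ℝ) ^ 2 = 1 := by
      have := ArithmeticFunction.moebius_sq_eq_one_of_squarefree (Sel_mem.1 hf).2.2
      exact_mod_cast this
    have := (hg f).ne'
    have := hG.ne'
    rw [div_pow, mul_pow, hmu]
    field_simp
  rw [Finset.sum_congr rfl h1, ← Finset.sum_mul]
  change GG h z * (1 / GG h z ^ 2) = 1 / GG h z
  have := hG.ne'
  field_simp

end Pool.Agent.PSG
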