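import Pool.Agent.W_b58c63_h44.SG

/-!
# The coefficients of the main terms
-/

set_option autoImplicit false

noncomputable section

open Finset Complex

namespace Pool.Agent.PSG

open Pool.Agent.Wb58c63 (prim ee)

/-- The coefficient of a pair of characters. -/
def AC (Q : ℕ) {r r₂ : ℕ} (χ : DirichletCharacter ℂ r) (ψ : DirichletCharacter ℂ r₂) (N : ℕ) : ℂ :=
  ∑ k ∈ (KK Q r).filter (fun k => r₂ ∣ r * k), (cW r k : ℂ) * (1 / ((r * k).totient : ℂ)) * Tk k χ ψ N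

theorem AC_mem_KK {Q r k : ℕ} (hk : k ∈ KK Q r) : Squarefree k ∧ k.Coprime r := by
  unfold KK at hk
  exact (Finset.mem_filter.1 hk).2

theorem AC_mu_sq {k : ℕ} (hk : Squarefree k) :
    (ArithmeticFunction.moebius k : ℤ) * ArithmeticFunction.moebius k = 1 := by
  rw [← sq, ArithmeticFunction.moebius_sq_eq_one_of_squarefree hk]

theorem AC_totient_pos {k : ℕ} (hk : Squarefree k) : (0 : ℝ) < k.totient := by
  exact_mod_cast Nat.totient_pos.2 (Nat.pos_of_ne_zero hk.ne_zero)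

theorem AC_cW_norm {r k : ℕ} (hk : Squarefree k) :
    ‖(cW r k : ℂ)‖ = (r : ℝ) / r.totient * (1 / k.totient) := by
  rw [Complex.norm_real, Real.norm_eq_abs]
  unfold cW
  have h1 : |(ArithmeticFunction.moebius k : ℝ)| = 1 := by
    have h2 : |(ArithmeticFunction.moebius k : ℤ)| = 1 := by
      rw [ArithmeticFunction.abs_moebius_eq_one_of_squarefree hk]
    rw [← Int.cast_abs, h2, Int.cast_one]
  rw [abs_mul, abs_div, abs_div, h1, Nat.abs_cast, Nat.abs_cast, Nat.abs_cast]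

/-- The case of a conductor which divides `r`. -/
theorem AC_dvd (Q : ℕ) {r r₂ : ℕ} (hr : 1 ≤ r) (h : r₂ ∣ r) (χ : DirichletCharacter ℂ r)
    (ψ : DirichletCharacter ℂ r₂) (N : ℕ) :
    AC Q χ ψ N = (((r : ℝ) / (r.totient : ℝ) ^ 2 : ℝ) : ℂ) * Tk 1 χ ψ N * (sgl Q r N : ℂ) := by
  unfold AC sgl
  have h1 : (KK Q r).filter (fun k => r₂ ∣ r * k) = KK Q r :=
    Finset.filter_true_of_mem fun k _ => h.mul_right k
  rw [h1, Complex.ofReal_sum, Finset.mul_sum]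
  refine Finset.sum_congr rfl fun k hk => ?_
  obtain ⟨hk, hrk⟩ := AC_mem_KK hk
  have hr0 : (r.totient : ℂ) ≠ 0 := by
    exact_mod_cast (Nat.totient_pos.2 hr).ne'
  have hk0 : (k.totient : ℂ) ≠ 0 := by
    exact_mod_cast (AC_totient_pos hk).ne'
  have hmu : (ArithmeticFunction.moebius k : ℂ) * (ArithmeticFunction.moebius k : ℂ) = 1 := by
    exact_mod_cast congrArg (fun z : ℤ => (z : ℂ)) (AC_mu_sq hk)
  rw [Tk_dvd hr h k hk hrk χ ψ N, Nat.totient_mul hrk.symm]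
  unfold cW
  push_cast
  calc (r : ℂ) / r.totient * ((ArithmeticFunction.moebius k : ℂ) / k.totient) *
        (1 / (r.totient * k.totient)) *
        (Tk 1 χ ψ N * ((ArithmeticFunction.moebius k : ℂ) * (cR k N : ℂ)))
      = (r : ℂ) / r.totient * (1 / k.totient) * (1 / (r.totient * k.totient)) *
        (Tk 1 χ ψ N * (cR k N : ℂ)) *
        ((ArithmeticFunction.moebius k : ℂ) * (ArithmeticFunction.moebius k : ℂ)) := by ring
    _ = (r : ℂ) / (r.totient : ℂ) ^ 2 * Tk 1 χ ψ N * ((cR k N : ℂ) / (k.totient : ℂ) ^ 2) := by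
        rw [hmu]
        field_simp

theorem AC_cnt_div {r : ℕ} (N : ℕ) (hr : 1 ≤ r) :
    (r : ℝ) / (r.totient : ℝ) ^ 2 * (cnt r N : ℝ) = ∏ p ∈ r.primeFactors, sp N p := by
  have h1 := cnt_eq r N hr
  have hr0 : (r.totient : ℝ) ≠ 0 := by
    exact_mod_cast (Nat.totient_pos.2 hr).ne'
  rw [div_mul_eq_mul_div, mul_comm (r : ℝ), h1]
  field_simp

theorem AC_gen : ∃ C : ℝ, 1 ≤ C ∧ ∀ (Q r r₂ N : ℕ), 1 ≤ r → 1 ≤ r₂ → 1 ≤ N →
    ∀ (χ : DirichletCharacter ℂ r) (ψ : DirichletCharacter ℂ r₂), ψ.IsPrimitive →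
    ‖AC Q χ ψ N‖ ≤ ((r₂ / Nat.gcd r₂ r : ℕ) : ℝ) *
      (C * ((N : ℝ) / N.totient) / ((r₂ / Nat.gcd r₂ r).totient : ℝ) ^ 2) := by
  obtain ⟨C, hC, hab⟩ := abs_sum
  refine ⟨C, hC, fun Q r r₂ N hr hr₂ hN χ ψ hψ => ?_⟩
  obtain ⟨s, hs⟩ : ∃ s, s = r₂ / Nat.gcd r₂ r := ⟨_, rfl⟩
  rw [← hs]
  have hs1 : 1 ≤ s := by
    rw [hs]
    exact Nat.div_pos (Nat.gcd_le_left _ hr₂) (Nat.gcd_pos_of_pos_left _ hr₂)
  have hprod : 0 ≤ ∏ p ∈ r.primeFactors, sp N p := (prod_sp r N hN).1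
  have hterm : ∀ k ∈ (KK Q r).filter (fun k => r₂ ∣ r * k),
      ‖(cW r k : ℂ) * (1 / ((r * k).totient : ℂ)) * Tk k χ ψ N‖ ≤
        (s : ℝ) * ((∏ p ∈ r.primeFactors, sp N p) *
          (((Nat.gcd (k / s) N).totient : ℝ) / (k.totient : ℝ) ^ 2)) := by
    intro k hk
    rw [Finset.mem_filter] at hk
    obtain ⟨hk, hdvd⟩ := hk
    obtain ⟨hk, hrk⟩ := AC_mem_KK hk
    have hT := (Tk_le hr k hk hrk hdvd χ ψ hψ N).2
    rw [← hs] at hT
    have hr0 : (0 : ℝ) < r.totient := by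
      exact_mod_cast Nat.totient_pos.2 hr
    have hk0 := AC_totient_pos hk
    have h2 : ‖(1 / ((r * k).totient : ℂ))‖ = 1 / (r.totient * k.totient : ℝ) := by
      rw [Nat.totient_mul hrk.symm, norm_div, norm_one, Complex.norm_natCast]
      push_cast
      rfl
    rw [norm_mul, norm_mul, AC_cW_norm hk, h2]
    calc (r : ℝ) / r.totient * (1 / k.totient) * (1 / (r.totient * k.totient : ℝ)) *
          ‖Tk k χ ψ N‖
        ≤ (r : ℝ) / r.totient * (1 / k.totient) * (1 / (r.totient * k.totient : ℝ)) *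
          ((cnt r N : ℝ) * ((s : ℝ) * ((Nat.gcd (k / s) N).totient : ℝ))) := by
          gcongr
      _ = (s : ℝ) * (((r : ℝ) / (r.totient : ℝ) ^ 2 * (cnt r N : ℝ)) *
          (((Nat.gcd (k / s) N).totient : ℝ) / (k.totient : ℝ) ^ 2)) := by
          field_simp
      _ = _ := by rw [AC_cnt_div N hr]
  have hsub : (KK Q r).filter (fun k => r₂ ∣ r * k) ⊆ (KK Q r).filter (fun k => s ∣ k) := by
    intro k hk
    rw [Finset.mem_filter] at hk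
    obtain ⟨hk, hdvd⟩ := hk
    obtain ⟨hk', hrk⟩ := AC_mem_KK hk
    rw [Finset.mem_filter]
    refine ⟨hk, ?_⟩
    rw [hs]
    exact (Tk_le hr k hk' hrk hdvd χ ψ hψ N).1
  unfold AC
  refine (norm_sum_le _ _).trans ((Finset.sum_le_sum hterm).trans ?_)
  rw [← Finset.mul_sum, ← Finset.mul_sum]
  refine mul_le_mul_of_nonneg_left ?_ (Nat.cast_nonneg s)
  refine le_trans ?_ (hab Q r s N hr hs1 hN)
  refine mul_le_mul_of_nonneg_left ?_ hprod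
  exact Finset.sum_le_sum_of_subset_of_nonneg hsub fun k _ _ => by positivity

theorem AC_empty (Q : ℕ) {r r₂ : ℕ} (hr : 1 ≤ r) (χ : DirichletCharacter ℂ r)
    (ψ : DirichletCharacter ℂ r₂) (hψ : ψ.IsPrimitive) (N : ℕ)
    (h : ¬ Squarefree (r₂ / Nat.gcd r₂ r)) : AC Q χ ψ N = 0 := by
  unfold AC
  refine Finset.sum_eq_zero fun k hk => ?_
  rw [Finset.mem_filter] at hk
  obtain ⟨hk, hdvd⟩ := hk
  obtain ⟨hk', hrk⟩ := AC_mem_KK hk
  exact absurd (Squarefree.squarefree_of_dvd (Tk_le hr k hk' hrk hdvd χ ψ hψ N).1 hk') h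

theorem AC_low : ∃ C : ℝ, 1 ≤ C ∧ ∀ r : ℕ, 1 ≤ r →
    (r : ℝ) / (r.totient : ℝ) ^ 2 ≤ C * (r : ℝ) ^ (-(1 / 2) : ℝ) := by
  obtain ⟨C, hC, h⟩ := totient_low
  refine ⟨C ^ 2, one_le_pow₀ hC, fun r hr => ?_⟩
  have h1 := h r hr
  have hr1 : (1 : ℝ) ≤ r := by exact_mod_cast hr
  have hr0 : (0 : ℝ) < r := by linarith
  have h2 : (r : ℝ) / (r.totient : ℝ) ^ 2 = (Real.sqrt r / r.totient) ^ 2 := by
    rw [div_pow, Real.sq_sqrt hr0.le]
  rw [h2]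
  calc (Real.sqrt r / r.totient) ^ 2 ≤ (C * (r : ℝ) ^ (-(2 / 5) : ℝ)) ^ 2 :=
        pow_le_pow_left₀ (by positivity) h1 2
    _ = C ^ 2 * (r : ℝ) ^ (-(4 / 5) : ℝ) := by
        rw [mul_pow, ← Real.rpow_natCast ((r : ℝ) ^ (-(2 / 5) : ℝ)) 2, ← Real.rpow_mul hr0.le]
        norm_num
    _ ≤ C ^ 2 * (r : ℝ) ^ (-(1 / 2) : ℝ) := by
        refine mul_le_mul_of_nonneg_left ?_ (sq_nonneg C)
        exact Real.rpow_le_rpow_of_exponent_le hr1 (by norm_num)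

/-- **The general bound.**

Proof. `Tk_le`, `cnt_eq`: with `s = r₂ / gcd(r₂, r)`, `|AC| ≤ ∑_{k, s ∣ k} (r / φ(r)) (1 / φ(k)) (1 / (φ(r) φ(k))) (φ(r) ^ 2 / r) ∏_{p ∣ r} sp N p s φ(gcd(k / s, N)) = ∏ sp ∑ s φ(gcd(k/s, N)) / φ(k) ^ 2`, then `abs_sum` and `s / φ(s) ^ 2 ≤ 2` (`s` squarefree; `ArA_sq_le` of `ArA.lean`). -/
theorem AC_le : ∃ C : ℝ, 1 ≤ C ∧ ∀ (Q r r₂ N : ℕ), 1 ≤ r → 1 ≤ r₂ → 1 ≤ N → ∀ (χ : DirichletCharacter ℂ r) (ψ : DirichletCharacter ℂ r₂), ψ.IsPrimitive →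
    ‖AC Q χ ψ N‖ ≤ C * ((N : ℝ) / N.totient) := by
  obtain ⟨C, hC, h⟩ := AC_gen
  refine ⟨2 * C, by linarith, fun Q r r₂ N hr hr₂ hN χ ψ hψ => ?_⟩
  have hNn : (0 : ℝ) ≤ (N : ℝ) / N.totient := by positivity
  by_cases hs : Squarefree (r₂ / Nat.gcd r₂ r)
  · have h1 := h Q r r₂ N hr hr₂ hN χ ψ hψ
    have h2 := Pool.Agent.Wb58c63.ArA_sq_le _ hs
    have h3 : (0 : ℝ) < ((r₂ / Nat.gcd r₂ r).totient : ℝ) ^ 2 := by
      have := AC_totient_pos hs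
      positivity
    refine h1.trans ?_
    rw [mul_div_assoc', div_le_iff₀ h3]
    have h4 : 0 ≤ C * ((N : ℝ) / N.totient) := by positivity
    nlinarith
  · rw [AC_empty Q hr χ ψ hψ N hs, norm_zero]
    positivity

/-- The principal pair.

Proof. `Tk_dvd` with `r = r₂ = 1`, `Tk 1 = 1` (the only residue is `0`, and the characters modulo `1` have all values `1`), `μ(k) ^ 2 = 1`. -/
theorem AC_one (Q N : ℕ) (χ ψ : DirichletCharacter ℂ 1) : AC Q χ ψ N = (sgl Q 1 N : ℂ) := by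
  rw [AC_dvd Q le_rfl (dvd_refl 1) χ ψ N]
  have h1 : Tk 1 χ ψ N = 1 := by
    unfold Tk
    have h2 : (range (1 * 1)).filter (fun b => b.Coprime (1 * 1)) = {0} := by
      decide
    rw [h2, Finset.sum_singleton]
    have h3 : ∀ x : ZMod 1, χ x = 1 := fun x => by
      rw [Subsingleton.elim x 1, map_one]
    have h4 : ∀ x : ZMod 1, ψ x = 1 := fun x => by
      rw [Subsingleton.elim x 1, map_one]
    have h5 : ∀ x : ℤ, cR 1 x = 1 := fun x => by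
      unfold cR
      rw [Nat.divisors_one, Finset.sum_filter, Finset.sum_singleton]
      simp
    rw [h3, h4, h5, map_one, Complex.ofReal_one, mul_one, mul_one]
  rw [h1]
  simp

/-- Characters with the same modulus.

Proof. `Tk_dvd`: `AC = (r / φ(r) ^ 2) Tk 1 χ ψ N ∑_k μ(k) ^ 2 cR k N / φ(k) ^ 2`; `Tk_one_le`, `cnt_eq`. -/
theorem AC_same (Q r N : ℕ) (hr : 1 ≤ r) (χ ψ : DirichletCharacter ℂ r) :
    ‖AC Q χ ψ N‖ ≤ (∏ p ∈ r.primeFactors, sp N p) * |sgl Q r N| := by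
  rw [AC_dvd Q hr (dvd_refl r) χ ψ N, norm_mul, norm_mul, Complex.norm_real, Complex.norm_real,
    Real.norm_eq_abs, Real.norm_eq_abs, abs_of_nonneg (by positivity)]
  refine mul_le_mul_of_nonneg_right ?_ (abs_nonneg _)
  rw [← AC_cnt_div N hr]
  exact mul_le_mul_of_nonneg_left (Tk_one_le hr χ ψ N) (by positivity)

/-- Mixed pairs.

Proof. First: `Tk_dvd` (`1 ∣ r`) and `Tk_triv`: `|AC| ≤ (r / φ(r) ^ 2) |sgl Q r N|`, and `|sgl Q r N| ≤ ∑ φ(gcd(k, N)) / φ(k) ^ 2 ≤ C N / φ(N)` (`abs_sum` with `r = 1`, `s = 1`, more terms). Second: `r = 1`, `s = r₂` in `Tk_le` (`cnt 1 N = 1`), `abs_sum`: `|AC| ≤ r₂ C (N / φ(N)) / φ(r₂) ^ 2`.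
Finally `r / φ(r) ^ 2 ≤ C r ^ (-1/2)` (`totient_low`). -/
theorem AC_mixed : ∃ C : ℝ, 1 ≤ C ∧ ∀ (Q r N : ℕ), 1 < r → 1 ≤ N → ∀ (χ : DirichletCharacter ℂ r), χ.IsPrimitive → ∀ (ψ : DirichletCharacter ℂ 1),
    ‖AC Q χ ψ N‖ ≤ C * (r : ℝ) ^ (-(1 / 2) : ℝ) * ((N : ℝ) / N.totient) ∧ ‖AC Q ψ χ N‖ ≤ C * (r : ℝ) ^ (-(1 / 2) : ℝ) * ((N : ℝ) / N.totient) := by
  obtain ⟨C₁, hC₁, hgen⟩ := AC_gen
  obtain ⟨C₂, hC₂, hlow⟩ := AC_low
  obtain ⟨C₃, hC₃, hab⟩ := abs_sum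
  refine ⟨C₂ * (C₁ * C₃), by nlinarith [mul_le_mul hC₁ hC₃ (by norm_num) (by linarith)], ?_⟩
  intro Q r N hr hN χ hχ ψ
  have hr1 : 1 ≤ r := hr.le
  have hr0 : (0 : ℝ) < r := by exact_mod_cast hr1
  have hl := hlow r hr1
  have hNn : (0 : ℝ) ≤ (N : ℝ) / N.totient := by positivity
  have hrp : (0 : ℝ) ≤ (r : ℝ) ^ (-(1 / 2) : ℝ) := by positivity
  constructor
  · rw [AC_dvd Q hr1 (one_dvd r) χ ψ N, norm_mul, norm_mul, Complex.norm_real, Complex.norm_real,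
      Real.norm_eq_abs, Real.norm_eq_abs, abs_of_nonneg (by positivity)]
    have hT := Tk_triv hr χ hχ ψ N
    have hs : |sgl Q r N| ≤ C₃ * ((N : ℝ) / N.totient) := by
      have h1 := hab Q 1 1 N le_rfl le_rfl hN
      rw [Nat.primeFactors_one, Finset.prod_empty, one_mul, Nat.totient_one, Nat.cast_one, one_pow,
        div_one] at h1
      refine le_trans ?_ h1
      unfold sgl
      refine (Finset.abs_sum_le_sum_abs _ _).trans ?_
      have h2 : ∀ k ∈ KK Q r, |cR k N / (k.totient : ℝ) ^ 2| ≤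
          ((Nat.gcd (k / 1) N).totient : ℝ) / (k.totient : ℝ) ^ 2 := by
        intro k hk
        obtain ⟨hk', _⟩ := AC_mem_KK hk
        rw [abs_div, cR_abs k hk', abs_of_nonneg (by positivity : (0 : ℝ) ≤ (k.totient : ℝ) ^ 2),
          Int.gcd_natCast_natCast, Nat.div_one]
      refine (Finset.sum_le_sum h2).trans ?_
      refine Finset.sum_le_sum_of_subset_of_nonneg ?_ fun k _ _ => by positivity
      intro k hk
      rw [Finset.mem_filter]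
      refine ⟨?_, one_dvd k⟩
      unfold KK at hk ⊢
      rw [Finset.mem_filter] at hk ⊢
      exact ⟨hk.1, hk.2.1, Nat.coprime_one_right k⟩
    calc (r : ℝ) / (r.totient : ℝ) ^ 2 * ‖Tk 1 χ ψ N‖ * |sgl Q r N|
        ≤ (C₂ * (r : ℝ) ^ (-(1 / 2) : ℝ)) * 1 * (C₃ * ((N : ℝ) / N.totient)) := by
          gcongr
      _ ≤ C₂ * (C₁ * C₃) * (r : ℝ) ^ (-(1 / 2) : ℝ) * ((N : ℝ) / N.totient) := by
          have h3 : C₃ ≤ C₁ * C₃ := by nlinarith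
          have h4 : 0 ≤ C₂ * (r : ℝ) ^ (-(1 / 2) : ℝ) * ((N : ℝ) / N.totient) := by positivity
          nlinarith [mul_le_mul_of_nonneg_left h3 h4]
  · have h1 := hgen Q 1 r N le_rfl hr1 hN ψ χ hχ
    rw [Nat.gcd_one_right, Nat.div_one] at h1
    refine h1.trans ?_
    calc (r : ℝ) * (C₁ * ((N : ℝ) / N.totient) / (r.totient : ℝ) ^ 2)
        = (r : ℝ) / (r.totient : ℝ) ^ 2 * (C₁ * ((N : ℝ) / N.totient)) := by ring
      _ ≤ (C₂ * (r : ℝ) ^ (-(1 / 2) : ℝ)) * (C₁ * ((N : ℝ) / N.totient)) := by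
          gcongr
      _ ≤ C₂ * (C₁ * C₃) * (r : ℝ) ^ (-(1 / 2) : ℝ) * ((N : ℝ) / N.totient) := by
          have h3 : C₁ ≤ C₁ * C₃ := by nlinarith
          have h4 : 0 ≤ C₂ * (r : ℝ) ^ (-(1 / 2) : ℝ) * ((N : ℝ) / N.totient) := by positivity
          nlinarith [mul_le_mul_of_nonneg_left h3 h4]

end Pool.Agent.PSG
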