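import Pool.Agent.W_b58c63_h44.Dg
import Pool.Agent.W_b58c63_h68.ArA
import Pool.Agent.W_b58c63_h68.LSa
import Pool.Agent.W_fd120a_h34.Div

/-!
# Ramanujan sums and the totient function
-/

set_option autoImplicit false

noncomputable section

open Finset Complex

namespace Pool.Agent.PSG

open Pool.Agent.Wb58c63 (prim ee)

/-- The function `d [d ∣ x]`. -/
def AR_f (x : ℤ) : ArithmeticFunction ℝ := ⟨fun d => if (d : ℤ) ∣ x then (d : ℝ) else 0, by simp⟩

theorem AR_f_apply (x : ℤ) (d : ℕ) : AR_f x d = if (d : ℤ) ∣ x then (d : ℝ) else 0 := rfl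

theorem AR_cR (k : ℕ) (x : ℤ) :
    cR k x = (AR_f x * (ArithmeticFunction.moebius : ArithmeticFunction ℝ)) k := by
  rw [ArithmeticFunction.mul_apply, Nat.sum_divisorsAntidiagonal
    (f := fun a b => AR_f x a * (ArithmeticFunction.moebius : ArithmeticFunction ℝ) b), cR,
    Finset.sum_filter]
  refine Finset.sum_congr rfl fun d _ => ?_
  rw [AR_f_apply, ArithmeticFunction.intCoe_apply]
  split_ifs
  · rfl
  · rw [zero_mul]

theorem AR_mult (x : ℤ) : (AR_f x).IsMultiplicative := by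
  constructor
  · rw [AR_f_apply]
    simp
  · intro m n hmn
    rw [AR_f_apply, AR_f_apply, AR_f_apply]
    have h : ((m * n : ℕ) : ℤ) ∣ x ↔ (m : ℤ) ∣ x ∧ (n : ℤ) ∣ x := by
      constructor
      · intro h
        rw [Nat.cast_mul] at h
        exact ⟨(dvd_mul_right _ _).trans h, (dvd_mul_left _ _).trans h⟩
      · rintro ⟨h1, h2⟩
        rw [Nat.cast_mul]
        exact (Nat.isCoprime_iff_coprime.2 hmn).mul_dvd h1 h2
    by_cases h1 : (m : ℤ) ∣ x
    · by_cases h2 : (n : ℤ) ∣ x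
      · rw [if_pos (h.2 ⟨h1, h2⟩), if_pos h1, if_pos h2, Nat.cast_mul]
      · rw [if_neg fun h3 => h2 (h.1 h3).2, if_neg h2, mul_zero]
    · rw [if_neg fun h3 => h1 (h.1 h3).1, if_neg h1, zero_mul]

theorem AR_gcd (k : ℕ) (x : ℤ) : Int.gcd k x = Nat.gcd k x.natAbs := by
  rw [Int.gcd_def, Int.natAbs_natCast]

theorem AR_mem_prim {r : ℕ} (χ : DirichletCharacter ℂ r) : χ ∈ prim r ↔ χ.IsPrimitive := by
  classical
  unfold Pool.Agent.Wb58c63.prim
  rw [Finset.mem_filter]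
  exact ⟨fun h => h.2, fun h => ⟨Finset.mem_univ _, h⟩⟩

/-- The full exponential sum. -/
theorem AR_geom (m : ℕ) (hm : 1 ≤ m) (x : ℤ) :
    ∑ j ∈ range m, ee (x * ((j : ℝ) / m)) = if (m : ℤ) ∣ x then (m : ℂ) else 0 := by
  have hm0 : (m : ℝ) ≠ 0 := by
    have : m ≠ 0 := by omega
    exact_mod_cast this
  have hre : ∀ j : ℕ, (x : ℝ) * ((j : ℝ) / m) = j * ((x : ℝ) / m) := fun j => by ring
  simp only [hre]
  split_ifs with h
  · obtain ⟨y, rfl⟩ := h
    have h1 : ∀ j : ℕ, ee ((j : ℝ) * (((m * y : ℤ) : ℝ) / m)) = 1 := by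
      intro j
      have e : (j : ℝ) * (((m * y : ℤ) : ℝ) / m) = ((j * y : ℤ) : ℝ) := by
        push_cast
        field_simp
      rw [e, Pool.Agent.Wb58c63.ee_int]
    simp only [h1]
    simp
  · have h1 := Pool.Agent.Wb58c63.LSa_geom m ((x : ℝ) / m)
    have h2 : (m : ℝ) * ((x : ℝ) / m) = (x : ℤ) := by field_simp
    rw [h2, Pool.Agent.Wb58c63.ee_int, sub_self, mul_eq_zero] at h1
    rcases h1 with h1 | h1
    · exact h1
    · exfalso
      apply h
      rw [sub_eq_zero] at h1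
      unfold Pool.Agent.Wb58c63.ee at h1
      rw [Complex.exp_eq_one_iff] at h1
      obtain ⟨n, hn⟩ := h1
      have hpi : (2 * Real.pi * Complex.I : ℂ) ≠ 0 := Complex.two_pi_I_ne_zero
      have h3 : (((x : ℝ) / m : ℝ) : ℂ) = ((n : ℝ) : ℂ) := by
        have h4 : (2 * Real.pi * Complex.I : ℂ) * (((x : ℝ) / m : ℝ) : ℂ) =
            (2 * Real.pi * Complex.I : ℂ) * ((n : ℝ) : ℂ) := by
          rw [hn]
          push_cast
          ring
        exact mul_left_cancel₀ hpi h4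
      have h5 : (x : ℝ) / m = n := by exact_mod_cast h3
      rw [div_eq_iff hm0] at h5
      refine ⟨n, ?_⟩
      have h6 : (x : ℝ) = ((m * n : ℤ) : ℝ) := by
        rw [h5]
        push_cast
        ring
      exact_mod_cast h6

theorem AR_moebius (n : ℕ) : ∑ d ∈ n.divisors, (ArithmeticFunction.moebius d : ℂ) =
    if n = 1 then 1 else 0 := by
  have h := congrArg (fun f : ArithmeticFunction ℤ => f n) ArithmeticFunction.moebius_mul_coe_zeta
  simp only [ArithmeticFunction.coe_mul_zeta_apply, ArithmeticFunction.one_apply] at h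
  have h2 : ((∑ d ∈ n.divisors, ArithmeticFunction.moebius d : ℤ) : ℂ) =
      ((if n = 1 then 1 else 0 : ℤ) : ℂ) := congrArg _ h
  push_cast at h2
  exact h2

/-- Proof. Every divisor of `k` divides `k`. -/
theorem cR_per (k : ℕ) (x : ℤ) : cR k (x + k) = cR k x := by
  unfold cR
  refine Finset.sum_congr (Finset.filter_congr fun d hd => ?_) fun _ _ => rfl
  have h : (d : ℤ) ∣ k := by exact_mod_cast (Nat.mem_divisors.1 hd).1
  exact dvd_add_left h

/-- Periodicity modulo multiples of `k`.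

Proof. `d ∣ k ∣ m`, `x ≡ y` modulo `m`. -/
theorem cR_congr (k m : ℕ) (hm : k ∣ m) (x y : ℤ) (h : (m : ℤ) ∣ x - y) : cR k x = cR k y := by
  unfold cR
  refine Finset.sum_congr (Finset.filter_congr fun d hd => ?_) fun _ _ => rfl
  have h1 : (d : ℤ) ∣ x - y := by
    have h2 : (d : ℤ) ∣ m := by exact_mod_cast (Nat.mem_divisors.1 hd).1.trans hm
    exact h2.trans h
  constructor
  · intro h2
    have := dvd_sub h2 h1
    rwa [sub_sub_cancel] at this
  · intro h2
    have := dvd_add h2 h1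
    rwa [add_sub_cancel] at this

/-- Multiplicativity.

Proof. The divisors of `k l` are the products `d e`, `d ∣ k`, `e ∣ l`; `d e ∣ x` iff `d ∣ x` and `e ∣ x`; `μ` is multiplicative. -/
theorem cR_mul (k l : ℕ) (h : k.Coprime l) (x : ℤ) : cR (k * l) x = cR k x * cR l x := by
  rw [AR_cR, AR_cR, AR_cR]
  exact ((AR_mult x).mul ArithmeticFunction.isMultiplicative_moebius.intCast).map_mul_of_coprime h

/-- Proof. The divisors of `p` are `1` and `p`. -/
theorem cR_prime (p : ℕ) (hp : p.Prime) (x : ℤ) : cR p x = if (p : ℤ) ∣ x then (p : ℝ) - 1 else -1 := by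
  unfold cR
  rw [Finset.sum_filter, hp.divisors, Finset.sum_pair hp.one_lt.ne, Nat.div_one,
    Nat.div_self hp.pos, ArithmeticFunction.moebius_apply_prime hp,
    ArithmeticFunction.moebius_apply_one]
  have h1 : ((1 : ℕ) : ℤ) ∣ x := by simp
  rw [if_pos h1]
  split_ifs
  · push_cast
    ring
  · push_cast
    ring

/-- Proof. `cR_mul`, `cR_prime`: `|cR p x|` is `φ(p)` if `p ∣ x` and `1` otherwise. -/
theorem cR_abs (k : ℕ) (hk : Squarefree k) (x : ℤ) : |cR k x| = ((Int.gcd k x).totient : ℝ) := by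
  induction k using Nat.recOnPosPrimePosCoprime with
  | prime_pow p n hp hn =>
    have h1 : n = 1 := ((Nat.squarefree_pow_iff hp.ne_one hn.ne').1 hk).2
    rw [h1, pow_one, cR_prime p hp, AR_gcd]
    split_ifs with h
    · have h2 : p ∣ x.natAbs := Int.natCast_dvd.1 h
      rw [Nat.gcd_eq_left h2, Nat.totient_prime hp, Nat.cast_sub hp.one_lt.le, Nat.cast_one,
        abs_of_nonneg]
      have : (1 : ℝ) ≤ p := by exact_mod_cast hp.one_lt.le
      linarith
    · have h2 : ¬ p ∣ x.natAbs := fun h3 => h (Int.natCast_dvd.2 h3)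
      have h3 : Nat.gcd p x.natAbs = 1 := (Nat.Prime.coprime_iff_not_dvd hp).2 h2
      rw [h3, Nat.totient_one]
      norm_num
  | zero => exact absurd hk not_squarefree_zero
  | one =>
    rw [AR_gcd, Nat.gcd_one_left, Nat.totient_one]
    have h1 : cR 1 x = 1 := by
      unfold cR
      rw [Finset.sum_filter, Nat.divisors_one, Finset.sum_singleton]
      simp
    rw [h1]
    norm_num
  | coprime a b ha hb hab iha ihb =>
    have h1 := iha (hk.of_mul_left)
    have h2 := ihb (hk.of_mul_right)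
    rw [cR_mul a b hab, abs_mul, h1, h2, AR_gcd, AR_gcd, AR_gcd, ← Nat.cast_mul,
      Nat.gcd_comm (a * b), hab.gcd_mul, Nat.totient_mul, Nat.gcd_comm x.natAbs a,
      Nat.gcd_comm x.natAbs b]
    exact Nat.Coprime.coprime_dvd_left (Nat.gcd_dvd_right _ _)
      (Nat.Coprime.coprime_dvd_right (Nat.gcd_dvd_right _ _) hab)

/-- Proof. Trivial from `cR_abs`: `φ(gcd(k, x)) ≤ k`. -/
theorem cR_le (k : ℕ) (hk : Squarefree k) (x : ℤ) : |cR k x| ≤ k := by
  rw [cR_abs k hk x, AR_gcd]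
  have hk0 : 0 < k := Nat.pos_of_ne_zero hk.ne_zero
  have h1 : (Nat.gcd k x.natAbs).totient ≤ k :=
    (Nat.totient_le _).trans (Nat.gcd_le_left _ hk0)
  exact_mod_cast h1

/-- Ramanujan sums as exponential sums.

Proof. `∑_{d ∣ k, d ∣ x} d μ(k / d) = ∑_{d ∣ k} μ(k / d) ∑_{j < d} ee (x j / d)`, and the fractions `j / d` are the `i / k` with `(k / d) ∣ i`; the sum over `d` of `μ(k / d) [(k/d) ∣ i]` is `[(i, k) = 1]`. -/
theorem cR_exp (k : ℕ) (hk : 1 ≤ k) (x : ℤ) :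
    (cR k x : ℂ) = ∑ i ∈ (range k).filter (fun i => i.Coprime k), ee (x * ((i : ℝ) / k)) := by
  have hk0 : k ≠ 0 := by omega
  have hkr : (k : ℝ) ≠ 0 := by exact_mod_cast hk0
  have h1 : ∑ i ∈ (range k).filter (fun i => i.Coprime k), ee (x * ((i : ℝ) / k)) =
      ∑ i ∈ range k, ∑ d ∈ k.divisors, if d ∣ i then
        (ArithmeticFunction.moebius d : ℂ) * ee (x * ((i : ℝ) / k)) else 0 := by
    rw [Finset.sum_filter]
    refine Finset.sum_congr rfl fun i _ => ?_
    have h2 : (Nat.gcd i k).divisors = k.divisors.filter (fun d => d ∣ i) := by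
      ext d
      rw [Nat.mem_divisors, Finset.mem_filter, Nat.mem_divisors, Nat.dvd_gcd_iff]
      have : Nat.gcd i k ≠ 0 := fun h => hk0 (Nat.eq_zero_of_gcd_eq_zero_right h)
      tauto
    have h3 := AR_moebius (Nat.gcd i k)
    rw [h2, Finset.sum_filter] at h3
    have h4 : ∑ d ∈ k.divisors, (if d ∣ i then
        (ArithmeticFunction.moebius d : ℂ) * ee (x * ((i : ℝ) / k)) else 0) =
        (∑ d ∈ k.divisors, if d ∣ i then (ArithmeticFunction.moebius d : ℂ) else 0) *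
          ee (x * ((i : ℝ) / k)) := by
      rw [Finset.sum_mul]
      refine Finset.sum_congr rfl fun d _ => ?_
      split_ifs
      · rfl
      · rw [zero_mul]
    rw [h4, h3]
    by_cases h5 : i.Coprime k
    · rw [if_pos h5, if_pos h5, one_mul]
    · rw [if_neg h5, if_neg h5, zero_mul]
  have h2 : ∀ d ∈ k.divisors, ∑ i ∈ range k, (if d ∣ i then
      (ArithmeticFunction.moebius d : ℂ) * ee (x * ((i : ℝ) / k)) else 0) =
      (ArithmeticFunction.moebius d : ℂ) *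
        if ((k / d : ℕ) : ℤ) ∣ x then ((k / d : ℕ) : ℂ) else 0 := by
    intro d hd
    obtain ⟨m, rfl⟩ := (Nat.mem_divisors.1 hd).1
    have hd0 : d ≠ 0 := fun h => hk0 (by rw [h, zero_mul])
    have hm0 : m ≠ 0 := fun h => hk0 (by rw [h, mul_zero])
    rw [Nat.mul_div_cancel_left m (Nat.pos_of_ne_zero hd0), ← AR_geom m (by omega), Finset.mul_sum,
      ← Finset.sum_filter]
    symm
    refine Finset.sum_nbij' (fun j => d * j) (fun i => i / d) ?_ ?_ ?_ ?_ ?_
    · intro j hj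
      rw [Finset.mem_filter, Finset.mem_range]
      exact ⟨Nat.mul_lt_mul_of_pos_left (Finset.mem_range.1 hj) (Nat.pos_of_ne_zero hd0),
        dvd_mul_right _ _⟩
    · intro i hi
      rw [Finset.mem_filter, Finset.mem_range] at hi
      rw [Finset.mem_range]
      exact Nat.div_lt_of_lt_mul hi.1
    · intro j _
      exact Nat.mul_div_cancel_left j (Nat.pos_of_ne_zero hd0)
    · intro i hi
      rw [Finset.mem_filter] at hi
      exact Nat.mul_div_cancel' hi.2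
    · intro j _
      have hdr : (d : ℝ) ≠ 0 := by exact_mod_cast hd0
      have hmr : (m : ℝ) ≠ 0 := by exact_mod_cast hm0
      congr 2
      push_cast
      field_simp
  rw [h1, Finset.sum_comm, Finset.sum_congr rfl h2]
  have h3 := Nat.sum_div_divisors k (fun d : ℕ => (ArithmeticFunction.moebius (k / d) : ℂ) *
    if (d : ℤ) ∣ x then (d : ℂ) else 0)
  have h4 : ∑ d ∈ k.divisors, ((ArithmeticFunction.moebius d : ℂ) *
      if ((k / d : ℕ) : ℤ) ∣ x then ((k / d : ℕ) : ℂ) else 0) =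
      ∑ d ∈ k.divisors, (fun d : ℕ => (ArithmeticFunction.moebius (k / d) : ℂ) *
        if (d : ℤ) ∣ x then (d : ℂ) else 0) (k / d) := by
    refine Finset.sum_congr rfl fun d hd => ?_
    have h5 : k / (k / d) = d := Nat.div_div_self (Nat.mem_divisors.1 hd).1 hk0
    beta_reduce
    rw [h5]
  rw [h4, h3, cR, Finset.sum_filter, Complex.ofReal_sum]
  refine Finset.sum_congr rfl fun d _ => ?_
  split_ifs
  · push_cast
    ring
  · simp

/-- A lower bound for the totient function.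

Proof. `q / φ(q) = ∏_{p ∣ q} p / (p - 1) ≤ 2 ^ ω(q) ≤ d(q) ≤ C q ^ (1/10)` (divisor bound, `Pool/Agent/W_fd120a_h34/Div.lean`; or directly: the function `q / φ(q)` is at most `C (1 + log q)`). -/
theorem totient_low : ∃ C : ℝ, 1 ≤ C ∧ ∀ q : ℕ, 1 ≤ q → Real.sqrt q / q.totient ≤ C * (q : ℝ) ^ (-(2 / 5) : ℝ) := by
  obtain ⟨C, hC, hdiv⟩ := FD120.divisor_bound (1 / 10) (by norm_num)
  refine ⟨max C 1, le_max_right _ _, fun q hq => ?_⟩
  have hq0 : (0 : ℝ) < q := by exact_mod_cast hq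
  have ht : (0 : ℝ) < q.totient := by exact_mod_cast Nat.totient_pos.2 hq
  have h1 := Pool.Agent.Wb58c63.inv_totient q hq
  have h2 : ∑ d ∈ q.divisors.filter Squarefree, (1 : ℝ) / d.totient ≤ C * (q : ℝ) ^ (1 / 10 : ℝ) := by
    calc ∑ d ∈ q.divisors.filter Squarefree, (1 : ℝ) / d.totient ≤
          ∑ _d ∈ q.divisors.filter Squarefree, (1 : ℝ) := by
          refine Finset.sum_le_sum fun d hd => ?_
          have hd' := (Finset.mem_filter.1 hd).1
          have hd0 : 0 < d := Nat.pos_of_mem_divisors hd'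
          have h3 : (1 : ℝ) ≤ d.totient := by exact_mod_cast Nat.totient_pos.2 hd0
          rw [div_le_one (by linarith)]
          exact h3
      _ = ((q.divisors.filter Squarefree).card : ℝ) := by simp
      _ ≤ (q.divisors.card : ℝ) := by exact_mod_cast Finset.card_filter_le _ _
      _ ≤ C * (q : ℝ) ^ (1 / 10 : ℝ) := hdiv q hq
  have h3 : (1 : ℝ) / q.totient ≤ 1 / q * (C * (q : ℝ) ^ (1 / 10 : ℝ)) := by
    rw [h1]
    exact mul_le_mul_of_nonneg_left h2 (by positivity)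
  calc Real.sqrt q / q.totient = Real.sqrt q * (1 / q.totient) := by ring
    _ ≤ Real.sqrt q * (1 / q * (C * (q : ℝ) ^ (1 / 10 : ℝ))) :=
        mul_le_mul_of_nonneg_left h3 (Real.sqrt_nonneg _)
    _ = C * ((q : ℝ) ^ (1 / 2 : ℝ) * ((q : ℝ) ^ (-1 : ℝ) * (q : ℝ) ^ (1 / 10 : ℝ))) := by
        rw [Real.sqrt_eq_rpow, Real.rpow_neg_one]
        ring
    _ = C * (q : ℝ) ^ (-(2 / 5) : ℝ) := by
        rw [← Real.rpow_add hq0, ← Real.rpow_add hq0]
        norm_num
    _ ≤ max C 1 * (q : ℝ) ^ (-(2 / 5) : ℝ) :=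
        mul_le_mul_of_nonneg_right (le_max_left _ _) (by positivity)

/-- The weights of the primitive characters up to `X ^ ε` sum up to `1 + Wr`.

Proof. The only principal primitive character with modulus `≥ 1` is the one modulo `1` (`DirichletCharacter.conductor_one`, `IsPrimitive`). -/
theorem sum_wx (ε δ X : ℝ) (hX : 1 ≤ X) (hε : 0 < ε) :
    ∑ r ∈ Icc 1 ⌊X ^ ε⌋₊, ∑ χ ∈ prim r, wx δ X χ = 1 + Wr ε δ X := by
  have h1 : ∑ r ∈ Icc 1 ⌊X ^ ε⌋₊, ∑ χ ∈ prim r, dl χ = 1 := by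
    rw [Finset.sum_eq_single 1]
    · have h2 : prim 1 = {(1 : DirichletCharacter ℂ 1)} := by
        ext χ
        rw [Finset.mem_singleton]
        refine ⟨fun _ => DirichletCharacter.level_one χ, fun h => ?_⟩
        rw [h, AR_mem_prim]
        exact DirichletCharacter.isPrimitive_one_level_one
      rw [h2, Finset.sum_singleton]
      exact if_pos rfl
    · intro r hr hr1
      refine Finset.sum_eq_zero fun χ hχ => ?_
      refine if_neg fun h => hr1 ?_
      have hr0 : NeZero r := ⟨by have := (Finset.mem_Icc.1 hr).1; omega⟩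
      rw [AR_mem_prim] at hχ
      have h3 := (DirichletCharacter.isPrimitive_def χ).1 hχ
      rw [h, DirichletCharacter.conductor_one] at h3
      exact h3.symm
    · intro h
      exfalso
      apply h
      rw [Finset.mem_Icc]
      refine ⟨le_rfl, ?_⟩
      rw [Nat.one_le_floor_iff]
      exact Real.one_le_rpow hX hε.le
  unfold wx Wr
  simp only [Finset.sum_add_distrib]
  rw [h1]

/-- Monotonicity of the weights.

Proof. More characters, more zeros (`mem_ZR`), nonnegative terms. -/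
theorem Wr_mono (ε ε' δ δ' X : ℝ) (hX : 1 ≤ X) (hε : ε ≤ ε') (hδ : δ ≤ δ') : Wr ε δ X ≤ Wr ε' δ' X := by
  unfold Wr
  have hX0 : 0 < X := by linarith
  have hnn : ∀ (r : ℕ) (χ : DirichletCharacter ℂ r) (κ : ℝ), 0 ≤ ∑ ρ ∈ ZR (EF χ) κ X,
      (mz (EF χ) ρ : ℝ) * X ^ (-((1 - ρ.re) / 4)) := fun r χ κ =>
    Finset.sum_nonneg fun ρ _ => by positivity
  have h1 : Icc 1 ⌊X ^ ε⌋₊ ⊆ Icc 1 ⌊X ^ ε'⌋₊ :=
    Finset.Icc_subset_Icc le_rfl (Nat.floor_mono (Real.rpow_le_rpow_of_exponent_le hX hε))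
  refine (Finset.sum_le_sum fun r _ => Finset.sum_le_sum fun χ _ => ?_).trans
    (Finset.sum_le_sum_of_subset_of_nonneg h1 fun r _ _ => Finset.sum_nonneg fun χ _ => hnn r χ δ')
  have hnz : ∃ s, EF χ s ≠ 0 := ⟨1, EF_ne_zero χ 1 (by simp)⟩
  refine Finset.sum_le_sum_of_subset_of_nonneg (fun ρ hρ => ?_) fun ρ _ _ => by positivity
  rw [mem_ZR (EF χ) (EF_diff χ) hnz] at hρ ⊢
  exact ⟨hρ.1, by linarith [hρ.2.1], hρ.2.2⟩

/-- The number of the zeros from the weights.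

Proof. `X ^ (-(1 - β) / 4) ≥ X ^ (-δ / 4)` for `β ≥ 1 - δ`. -/
theorem count_of_Wr (ε δ X : ℝ) (hX : 1 ≤ X) (h : Wr ε δ X ≤ 2) (r : ℕ) (hr : 1 ≤ r) (hr2 : (r : ℝ) ≤ X ^ ε)
    (χ : DirichletCharacter ℂ r) (hχ : χ.IsPrimitive) : ∑ ρ ∈ ZR (EF χ) δ X, (mz (EF χ) ρ : ℝ) ≤ 2 * X ^ (δ / 4) := by
  have hX0 : 0 < X := by linarith
  have hnn : ∀ (r : ℕ) (χ : DirichletCharacter ℂ r), 0 ≤ ∑ ρ ∈ ZR (EF χ) δ X,
      (mz (EF χ) ρ : ℝ) * X ^ (-((1 - ρ.re) / 4)) := fun r χ =>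
    Finset.sum_nonneg fun ρ _ => by positivity
  have hmem : χ ∈ prim r := (AR_mem_prim χ).2 hχ
  have hrm : r ∈ Icc 1 ⌊X ^ ε⌋₊ := Finset.mem_Icc.2 ⟨hr, Nat.le_floor hr2⟩
  have h1 : ∑ ρ ∈ ZR (EF χ) δ X, (mz (EF χ) ρ : ℝ) * X ^ (-((1 - ρ.re) / 4)) ≤ 2 := by
    refine le_trans ?_ h
    unfold Wr
    refine le_trans ?_ (Finset.single_le_sum (f := fun r => ∑ χ ∈ prim r, ∑ ρ ∈ ZR (EF χ) δ X,
      (mz (EF χ) ρ : ℝ) * X ^ (-((1 - ρ.re) / 4))) (fun r _ => Finset.sum_nonneg fun χ _ => hnn r χ)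
      hrm)
    exact Finset.single_le_sum (f := fun χ : DirichletCharacter ℂ r => ∑ ρ ∈ ZR (EF χ) δ X,
      (mz (EF χ) ρ : ℝ) * X ^ (-((1 - ρ.re) / 4))) (fun χ _ => hnn r χ) hmem
  have hnz : ∃ s, EF χ s ≠ 0 := ⟨1, EF_ne_zero χ 1 (by simp)⟩
  have h2 : (∑ ρ ∈ ZR (EF χ) δ X, (mz (EF χ) ρ : ℝ)) * X ^ (-(δ / 4)) ≤ 2 := by
    refine le_trans ?_ h1
    rw [Finset.sum_mul]
    refine Finset.sum_le_sum fun ρ hρ => ?_
    rw [mem_ZR (EF χ) (EF_diff χ) hnz] at hρ
    refine mul_le_mul_of_nonneg_left ?_ (Nat.cast_nonneg _)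
    exact Real.rpow_le_rpow_of_exponent_le hX (by linarith [hρ.2.1])
  have h3 : X ^ (-(δ / 4)) * X ^ (δ / 4) = 1 := by
    rw [← Real.rpow_add hX0]
    simp
  have h4 : 0 < X ^ (δ / 4) := Real.rpow_pos_of_pos hX0 _
  calc ∑ ρ ∈ ZR (EF χ) δ X, (mz (EF χ) ρ : ℝ) =
      ((∑ ρ ∈ ZR (EF χ) δ X, (mz (EF χ) ρ : ℝ)) * X ^ (-(δ / 4))) * X ^ (δ / 4) := by
        rw [mul_assoc, h3, mul_one]
    _ ≤ 2 * X ^ (δ / 4) := mul_le_mul_of_nonneg_right h2 h4.le

end Pool.Agent.PSG
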