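import Pool.Agent.W_b58c63_h44.Dg

/-!
# Oscillatory integrals, and the Fourier transform of the smooth part of the model
-/

set_option autoImplicit false

noncomputable section

open Finset Complex MeasureTheory

namespace Pool.Agent.PSG

open Pool.Agent.Wb58c63 (prim ee)

/-- the oscillating factor -/
def CI_E (γ b x : ℝ) : ℂ := Complex.exp (Complex.I * ((γ * Real.log x + 2 * Real.pi * b * x : ℝ) : ℂ))

/-- the derivative of the phase -/
def CI_p (γ b x : ℝ) : ℝ := γ / x + 2 * Real.pi * b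

theorem CI_E_norm (γ b x : ℝ) : ‖CI_E γ b x‖ = 1 := by
  unfold CI_E
  rw [mul_comm, Complex.norm_exp_ofReal_mul_I]

theorem CI_E_deriv (γ b x : ℝ) (hx : 0 < x) :
    HasDerivAt (CI_E γ b) (CI_E γ b x * (Complex.I * (CI_p γ b x : ℂ))) x := by
  have h1 : HasDerivAt (fun x : ℝ => γ * Real.log x + 2 * Real.pi * b * x) (CI_p γ b x) x := by
    have h2 := ((Real.hasDerivAt_log hx.ne').const_mul γ).add ((hasDerivAt_id x).const_mul (2 * Real.pi * b))
    have e : γ * x⁻¹ + 2 * Real.pi * b * 1 = CI_p γ b x := by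
      unfold CI_p
      rw [mul_one, div_eq_mul_inv]
    rw [e] at h2
    exact h2
  have h3 := (h1.ofReal_comp.const_mul Complex.I).cexp
  exact h3

theorem CI_E_cont (γ b : ℝ) : ContinuousOn (CI_E γ b) (Set.Ioi 0) := fun x hx =>
  (CI_E_deriv γ b x hx).continuousAt.continuousWithinAt

theorem CI_E_meas (γ b : ℝ) : Measurable (CI_E γ b) := by
  unfold CI_E
  fun_prop

theorem CI_E_int (γ b c d : ℝ) (hc : 1 ≤ c) (hd : 1 ≤ d) : IntervalIntegrable (CI_E γ b) volume c d := by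
  refine ContinuousOn.intervalIntegrable ((CI_E_cont γ b).mono fun x hx => ?_)
  have : (1 : ℝ) ≤ x := le_trans (le_min hc hd) hx.1
  exact lt_of_lt_of_le one_pos this

theorem CI_p_deriv (γ b x : ℝ) (hx : 0 < x) : HasDerivAt (CI_p γ b) (-γ / x ^ 2) x := by
  have h := ((hasDerivAt_id x).inv hx.ne').const_mul γ
  have h2 := h.add_const (2 * Real.pi * b)
  have e : γ * (-1 / id x ^ 2) = -γ / x ^ 2 := by
    simp only [id]
    ring
  rw [e] at h2
  exact h2.congr_of_eventuallyEq (Filter.Eventually.of_forall fun y => by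
    simp [CI_p, div_eq_mul_inv])

/-- the first derivative test -/
theorem CI_first (γ b c d μ : ℝ) (hc : 1 ≤ c) (hcd : c ≤ d) (hμ : 0 < μ)
    (h : ∀ x ∈ Set.Icc c d, μ ≤ |CI_p γ b x|) : ‖∫ x in c..d, CI_E γ b x‖ ≤ 4 / μ := by
  have hu : Set.uIcc c d = Set.Icc c d := Set.uIcc_of_le hcd
  have hx0 : ∀ x ∈ Set.Icc c d, 0 < x := fun x hx => by linarith [hx.1]
  have hp0 : ∀ x ∈ Set.Icc c d, CI_p γ b x ≠ 0 := fun x hx h0 => by
    have := h x hx
    rw [h0, abs_zero] at this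
    linarith
  set W : ℝ → ℝ := fun x => 1 / (x ^ 2 * CI_p γ b x ^ 2) with hW
  have hWc : ContinuousOn W (Set.Icc c d) := by
    intro x hx
    refine ContinuousAt.continuousWithinAt ?_
    refine ContinuousAt.div continuousAt_const ?_ ?_
    · exact (continuousAt_id.pow 2).mul ((CI_p_deriv γ b x (hx0 x hx)).continuousAt.pow 2)
    · have := hp0 x hx
      have := hx0 x hx
      positivity
  have hEc : ContinuousOn (CI_E γ b) (Set.Icc c d) := (CI_E_cont γ b).mono fun x hx => hx0 x hx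
  have hWi : IntervalIntegrable W volume c d := by
    refine ContinuousOn.intervalIntegrable ?_
    rw [hu]
    exact hWc
  -- the real identity
  have hV : ∫ x in c..d, γ * W x = 1 / CI_p γ b d - 1 / CI_p γ b c := by
    have hd : ∀ x ∈ Set.uIcc c d, HasDerivAt (fun x => 1 / CI_p γ b x) (γ * W x) x := by
      intro x hx
      rw [hu] at hx
      have h1 := (CI_p_deriv γ b x (hx0 x hx)).inv (hp0 x hx)
      have e : -(-γ / x ^ 2) / CI_p γ b x ^ 2 = γ * W x := by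
        have := hp0 x hx
        have := (hx0 x hx).ne'
        rw [hW]
        field_simp
      rw [e] at h1
      exact h1.congr_of_eventuallyEq (Filter.Eventually.of_forall fun y => by
        simp)
    exact intervalIntegral.integral_eq_sub_of_hasDerivAt hd (hWi.const_mul γ)
  have hW0 : 0 ≤ ∫ x in c..d, W x :=
    intervalIntegral.integral_nonneg hcd fun x hx => by rw [hW]; positivity
  have hinv : ∀ x ∈ Set.Icc c d, |1 / CI_p γ b x| ≤ 1 / μ := fun x hx => by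
    rw [abs_div, abs_one]
    exact one_div_le_one_div_of_le hμ (h x hx)
  have hJ : |γ| * ∫ x in c..d, W x ≤ 2 / μ := by
    have e : |γ| * (∫ x in c..d, W x) = |∫ x in c..d, γ * W x| := by
      rw [intervalIntegral.integral_const_mul, abs_mul, abs_of_nonneg hW0]
    rw [e, hV]
    have h1 := hinv d ⟨hcd, le_rfl⟩
    have h2 := hinv c ⟨le_rfl, hcd⟩
    have h3 := abs_sub (1 / CI_p γ b d) (1 / CI_p γ b c)
    have e2 : 2 / μ = 1 / μ + 1 / μ := by ring
    rw [e2]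
    linarith
  -- the complex identity
  have hU : ∫ x in c..d, CI_E γ b x * (1 - Complex.I * ((γ * W x : ℝ) : ℂ)) =
      CI_E γ b d / (Complex.I * (CI_p γ b d : ℂ)) - CI_E γ b c / (Complex.I * (CI_p γ b c : ℂ)) := by
    have hd : ∀ x ∈ Set.uIcc c d, HasDerivAt (fun x => CI_E γ b x / (Complex.I * (CI_p γ b x : ℂ)))
        (CI_E γ b x * (1 - Complex.I * ((γ * W x : ℝ) : ℂ))) x := by
      intro x hx
      rw [hu] at hx
      have hp := hp0 x hx
      have hx' := (hx0 x hx).ne'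
      have hpc : (CI_p γ b x : ℂ) ≠ 0 := by exact_mod_cast hp
      have hxc : (x : ℂ) ≠ 0 := by exact_mod_cast hx'
      have h1 := (CI_E_deriv γ b x (hx0 x hx)).div
        ((CI_p_deriv γ b x (hx0 x hx)).ofReal_comp.const_mul Complex.I)
        (mul_ne_zero Complex.I_ne_zero hpc)
      have e : (CI_E γ b x * (Complex.I * (CI_p γ b x : ℂ)) * (Complex.I * (CI_p γ b x : ℂ)) -
          CI_E γ b x * (Complex.I * ((-γ / x ^ 2 : ℝ) : ℂ))) / (Complex.I * (CI_p γ b x : ℂ)) ^ 2 =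
          CI_E γ b x * (1 - Complex.I * ((γ * W x : ℝ) : ℂ)) := by
        rw [hW]
        push_cast
        have hI : Complex.I ^ 2 = -1 := Complex.I_sq
        field_simp
        ring_nf
        simp only [hI]
        ring
      rw [e] at h1
      exact h1
    refine intervalIntegral.integral_eq_sub_of_hasDerivAt hd ?_
    refine ContinuousOn.intervalIntegrable ?_
    rw [hu]
    refine hEc.mul (continuousOn_const.sub (continuousOn_const.mul ?_))
    exact Complex.continuous_ofReal.comp_continuousOn (continuousOn_const.mul hWc)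
  have hsplit : ∫ x in c..d, CI_E γ b x = (∫ x in c..d, CI_E γ b x * (1 - Complex.I * ((γ * W x : ℝ) : ℂ))) +
      ∫ x in c..d, CI_E γ b x * (Complex.I * ((γ * W x : ℝ) : ℂ)) := by
    rw [← intervalIntegral.integral_add]
    · refine intervalIntegral.integral_congr fun x _ => ?_
      ring
    · refine ContinuousOn.intervalIntegrable ?_
      rw [hu]
      refine hEc.mul (continuousOn_const.sub (continuousOn_const.mul ?_))
      exact Complex.continuous_ofReal.comp_continuousOn (continuousOn_const.mul hWc)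
    · refine ContinuousOn.intervalIntegrable ?_
      rw [hu]
      refine hEc.mul (continuousOn_const.mul ?_)
      exact Complex.continuous_ofReal.comp_continuousOn (continuousOn_const.mul hWc)
  have hUn : ∀ x ∈ Set.Icc c d, ‖CI_E γ b x / (Complex.I * (CI_p γ b x : ℂ))‖ ≤ 1 / μ := by
    intro x hx
    rw [norm_div, CI_E_norm, norm_mul, Complex.norm_I, one_mul, Complex.norm_real, Real.norm_eq_abs]
    exact one_div_le_one_div_of_le hμ (h x hx)
  have hlast : ‖∫ x in c..d, CI_E γ b x * (Complex.I * ((γ * W x : ℝ) : ℂ))‖ ≤ |γ| * ∫ x in c..d, W x := by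
    rw [← intervalIntegral.integral_const_mul]
    refine intervalIntegral.norm_integral_le_of_norm_le hcd ?_ (hWi.const_mul _)
    refine Filter.Eventually.of_forall fun x _ => ?_
    rw [norm_mul, CI_E_norm, one_mul, norm_mul, Complex.norm_I, one_mul, Complex.norm_real,
      Real.norm_eq_abs, abs_mul]
    refine mul_le_mul_of_nonneg_left (le_of_eq (abs_of_nonneg ?_)) (abs_nonneg _)
    rw [hW]
    positivity
  rw [hsplit, hU]
  have h1 := hUn d ⟨hcd, le_rfl⟩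
  have h2 := hUn c ⟨le_rfl, hcd⟩
  refine (norm_add_le _ _).trans ?_
  have h3 := norm_sub_le (CI_E γ b d / (Complex.I * (CI_p γ b d : ℂ))) (CI_E γ b c / (Complex.I * (CI_p γ b c : ℂ)))
  have e4 : 4 / μ = 1 / μ + 1 / μ + 2 / μ := by ring
  rw [e4]
  linarith

/-- the second derivative test -/
theorem CI_second (γ b c d : ℝ) (hγ : 1 ≤ |γ|) (hc : 1 ≤ c) (hcd : c ≤ d) (hd : d ≤ 4) :
    ‖∫ x in c..d, CI_E γ b x‖ ≤ 258 * |γ| ^ (-(1 / 2) : ℝ) := by
  have hγ0 : 0 < |γ| := by linarith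
  set h : ℝ := |γ| ^ (-(1 / 2) : ℝ) with hh
  have hh0 : 0 < h := Real.rpow_pos_of_pos hγ0 _
  have hhγ : |γ| * h * h = 1 := by
    rw [hh, mul_assoc, ← Real.rpow_add hγ0]
    norm_num
    rw [Real.rpow_neg_one]
    exact mul_inv_cancel₀ hγ0.ne'
  have hx0 : ∀ x ∈ Set.Icc c d, 0 < x := fun x hx => by linarith [hx.1]
  have hpc : ContinuousOn (fun x => |CI_p γ b x|) (Set.Icc c d) := fun x hx =>
    (CI_p_deriv γ b x (hx0 x hx)).continuousAt.abs.continuousWithinAt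
  obtain ⟨x0, hx0m, hmin⟩ := isCompact_Icc.exists_isMinOn (Set.nonempty_Icc.2 hcd) hpc
  have hmin' : ∀ x ∈ Set.Icc c d, |CI_p γ b x0| ≤ |CI_p γ b x| := fun x hx => hmin hx
  have hfar : ∀ x ∈ Set.Icc c d, h ≤ |x - x0| → |γ| * h / 32 ≤ |CI_p γ b x| := by
    intro x hx hxx
    have h1 : CI_p γ b x - CI_p γ b x0 = γ * (x0 - x) / (x * x0) := by
      have := (hx0 x hx).ne'
      have := (hx0 x0 hx0m).ne'
      unfold CI_p
      field_simp
      ring
    have h2 : |γ| * h / 16 ≤ |CI_p γ b x - CI_p γ b x0| := by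
      have hxp := hx0 x hx
      have hxp0 := hx0 x0 hx0m
      rw [h1, abs_div, abs_mul, abs_of_pos (mul_pos hxp hxp0), abs_sub_comm,
        le_div_iff₀ (mul_pos hxp hxp0)]
      have h3 : x * x0 ≤ 16 := by nlinarith [hx.2, hx0m.2]
      have h4 : |γ| * h ≤ |γ| * |x - x0| := mul_le_mul_of_nonneg_left hxx hγ0.le
      calc |γ| * h / 16 * (x * x0) ≤ |γ| * h / 16 * 16 :=
            mul_le_mul_of_nonneg_left h3 (by positivity)
        _ = |γ| * h := by ring
        _ ≤ _ := h4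
    have h5 := abs_sub (CI_p γ b x) (CI_p γ b x0)
    have h6 := hmin' x hx
    linarith
  have hμ : 0 < |γ| * h / 32 := by positivity
  have hμ4 : 4 / (|γ| * h / 32) = 128 * h := by
    rw [div_eq_iff hμ.ne']
    linear_combination -4 * hhγ
  set c' := max c (x0 - h) with hc'
  set d' := min d (x0 + h) with hd'
  have hcc' : c ≤ c' := le_max_left _ _
  have hd'd : d' ≤ d := min_le_left _ _
  have hc'x : c' ≤ x0 := max_le hx0m.1 (by linarith)
  have hxd' : x0 ≤ d' := le_min hx0m.2 (by linarith)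
  have hA : ‖∫ x in c..c', CI_E γ b x‖ ≤ 128 * h := by
    rcases le_or_gt (x0 - h) c with h1 | h1
    · rw [hc', max_eq_left h1, intervalIntegral.integral_same, norm_zero]
      positivity
    · have e : c' = x0 - h := max_eq_right h1.le
      rw [← hμ4]
      refine CI_first γ b c c' _ hc hcc' hμ fun x hx => ?_
      refine hfar x ⟨hx.1, by linarith [hx.2, hx0m.2]⟩ ?_
      rw [e] at hx
      rw [abs_sub_comm]
      exact le_trans (by linarith [hx.2]) (le_abs_self _)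
  have hB : ‖∫ x in d'..d, CI_E γ b x‖ ≤ 128 * h := by
    rcases le_or_gt d (x0 + h) with h1 | h1
    · rw [hd', min_eq_left h1, intervalIntegral.integral_same, norm_zero]
      positivity
    · have e : d' = x0 + h := min_eq_right h1.le
      rw [← hμ4]
      refine CI_first γ b d' d _ (by linarith [hx0m.1]) hd'd hμ fun x hx => ?_
      refine hfar x ⟨by linarith [hx.1, hx0m.1], hx.2⟩ ?_
      rw [e] at hx
      exact le_trans (by linarith [hx.1]) (le_abs_self _)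
  have hM : ‖∫ x in c'..d', CI_E γ b x‖ ≤ 2 * h := by
    have h1 := intervalIntegral.norm_integral_le_of_norm_le_const (a := c') (b := d') (C := 1)
      (f := CI_E γ b) fun x _ => (CI_E_norm γ b x).le
    refine h1.trans ?_
    rw [one_mul, abs_of_nonneg (by linarith)]
    have h2 : x0 - h ≤ c' := le_max_right _ _
    have h3 : d' ≤ x0 + h := min_le_right _ _
    linarith
  have hsum : ∫ x in c..d, CI_E γ b x = (∫ x in c..c', CI_E γ b x) + (∫ x in c'..d', CI_E γ b x) +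
      ∫ x in d'..d, CI_E γ b x := by
    rw [intervalIntegral.integral_add_adjacent_intervals (CI_E_int γ b c c' hc (by linarith))
      (CI_E_int γ b c' d' (by linarith) (by linarith [hx0m.1])),
      intervalIntegral.integral_add_adjacent_intervals (CI_E_int γ b c d' hc (by linarith [hx0m.1]))
      (CI_E_int γ b d' d (by linarith [hx0m.1]) (by linarith))]
  rw [hsum]
  refine (norm_add_le _ _).trans ?_
  have := norm_add_le (∫ x in c..c', CI_E γ b x) (∫ x in c'..d', CI_E γ b x)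
  linarith

/-- the second derivative test with an amplitude vanishing at the right end -/
theorem CI_amp (γ b M : ℝ) (hγ : 1 ≤ |γ|) (G G' : ℝ → ℝ) (hG : ∀ x, 0 < x → HasDerivAt G (G' x) x)
    (hG'c : ContinuousOn G' (Set.Icc 1 4)) (h4 : G 4 = 0) (hM : ∀ x ∈ Set.Icc (1 : ℝ) 4, |G' x| ≤ M) :
    ‖∫ x in (1 : ℝ)..4, (G x : ℂ) * CI_E γ b x‖ ≤ 3 * M * (258 * |γ| ^ (-(1 / 2) : ℝ)) := by
  have h14 : (1 : ℝ) ≤ 4 := by norm_num
  have hu : Set.uIcc (1 : ℝ) 4 = Set.Icc 1 4 := Set.uIcc_of_le h14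
  have hγ0 : 0 < |γ| := by linarith
  have hh0 : 0 < |γ| ^ (-(1 / 2) : ℝ) := Real.rpow_pos_of_pos hγ0 _
  have hv : ∀ x ∈ Set.uIcc (1 : ℝ) 4, HasDerivAt (fun t => ∫ y in (1 : ℝ)..t, CI_E γ b y) (CI_E γ b x) x := by
    intro x hx
    rw [hu] at hx
    refine intervalIntegral.integral_hasDerivAt_right (CI_E_int γ b 1 x le_rfl hx.1) ?_ ?_
    · exact (CI_E_meas γ b).stronglyMeasurable.stronglyMeasurableAtFilter
    · exact (CI_E_deriv γ b x (by linarith [hx.1])).continuousAt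
  have hu' : ∀ x ∈ Set.uIcc (1 : ℝ) 4, HasDerivAt (fun x => (G x : ℂ)) ((G' x : ℂ)) x := by
    intro x hx
    rw [hu] at hx
    exact (hG x (by linarith [hx.1])).ofReal_comp
  have hi : IntervalIntegrable (fun x => (G' x : ℂ)) volume 1 4 := by
    refine ContinuousOn.intervalIntegrable ?_
    rw [hu]
    exact Complex.continuous_ofReal.comp_continuousOn hG'c
  rw [intervalIntegral.integral_mul_deriv_eq_deriv_mul hu' hv hi (CI_E_int γ b 1 4 le_rfl h14)]
  simp only [h4, Complex.ofReal_zero, zero_mul, intervalIntegral.integral_same, mul_zero, sub_zero,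
    zero_sub, norm_neg]
  have h1 := intervalIntegral.norm_integral_le_of_norm_le_const (a := 1) (b := 4)
    (C := M * (258 * |γ| ^ (-(1 / 2) : ℝ)))
    (f := fun x => (G' x : ℂ) * ∫ y in (1 : ℝ)..x, CI_E γ b y) fun x hx => by
      rw [Set.uIoc_of_le h14] at hx
      have hx' : x ∈ Set.Icc (1 : ℝ) 4 := ⟨hx.1.le, hx.2⟩
      rw [norm_mul, Complex.norm_real, Real.norm_eq_abs]
      have hM0 : 0 ≤ M := (abs_nonneg _).trans (hM x hx')
      exact mul_le_mul (hM x hx') (CI_second γ b 1 x hγ le_rfl hx'.1 hx'.2) (norm_nonneg _) hM0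
  refine h1.trans (le_of_eq ?_)
  norm_num
  ring

theorem CI_g0_int (f : ℝ → ℂ) (hf : ∀ x, x ∉ Set.Icc (3 / 2 : ℝ) (39 / 10) → f x = 0) :
    ∫ x : ℝ, f x = ∫ x in (1 : ℝ)..4, f x := by
  rw [intervalIntegral.integral_of_le (by norm_num)]
  refine (MeasureTheory.setIntegral_eq_integral_of_forall_compl_eq_zero fun x hx => ?_).symm
  refine hf x fun h => hx ⟨?_, ?_⟩
  · linarith [h.1]
  · linarith [h.2]

theorem CI_factor (ρ : ℂ) (b x : ℝ) (hx : 0 < x) :
    (g0 x : ℂ) * (x : ℂ) ^ (ρ - 1) * ee (x * b) = ((g0 x * x ^ (ρ.re - 1) : ℝ) : ℂ) * CI_E ρ.im b x := by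
  have hxc : (x : ℂ) ≠ 0 := by exact_mod_cast hx.ne'
  have h1 : (x : ℂ) ^ (ρ - 1) = ((x ^ (ρ.re - 1) : ℝ) : ℂ) * Complex.exp (Complex.I * ((ρ.im * Real.log x : ℝ) : ℂ)) := by
    rw [Complex.cpow_def_of_ne_zero hxc, Real.rpow_def_of_pos hx, Complex.ofReal_exp, ← Complex.exp_add,
      ← Complex.ofReal_log hx.le]
    congr 1
    apply Complex.ext
    · simp
    · simp
      ring
  have h2 : CI_E ρ.im b x = Complex.exp (Complex.I * ((ρ.im * Real.log x : ℝ) : ℂ)) * ee (x * b) := by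
    unfold CI_E ee
    rw [← Complex.exp_add]
    congr 1
    push_cast
    ring
  rw [h1, h2]
  push_cast
  ring

/-- **The second derivative test.**

Proof. `g0 x x ^ (ρ - 1) ee (x b) = G x exp (i φ x)`, `G x = g0 x x ^ (β - 1)`, `φ x = γ log x + 2 π b x`, on `[3/2, 39/10]`, where `0 ≤ G ≤ 1`, `G` has bounded variation (`∫ |G'| ≤ C`). `φ' x = γ / x + 2 π b` is monotone with `|φ''| = |γ| / x ^ 2 ≥ |γ| / 16`. Let `h = |γ| ^ (-1/2) ≤ 1`. The set of `x` in the interval with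
`|φ' x| < h |γ| / 16` is an interval of length at most `2 h`; it contributes at most `2 h`. On each of the (at most two) remaining intervals `[c, d]` integrate by parts: `∫ G e^{i φ} = [G e^{i φ} / (i φ')] - ∫ (G / (i φ'))' e^{i φ}`, at most `2 · 16 / (h |γ|) + ∫ |G'| / |φ'| + ∫ |(1 / φ')'| ≤ C / (h |γ|)`, as `1 / φ'` is monotone on the interval.
`h |γ| = |γ| ^ (1/2)`. -/
theorem osc : ∃ C : ℝ, 1 ≤ C ∧ ∀ (ρ : ℂ), 0 ≤ ρ.re → ρ.re ≤ 1 → 1 ≤ |ρ.im| → ∀ b : ℝ,
    ‖∫ x : ℝ, (g0 x : ℂ) * (x : ℂ) ^ (ρ - 1) * ee (x * b)‖ ≤ C * |ρ.im| ^ (-(1 / 2) : ℝ) := by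
  obtain ⟨hg1, hg2, hg3, hg4⟩ := g0_facts
  have hgd : ∀ x, HasDerivAt g0 (deriv g0 x) x := fun x =>
    ((hg4.differentiable (by simp)) x).hasDerivAt
  have hgc : Continuous (deriv g0) := hg4.continuous_deriv (by simp)
  obtain ⟨M, hM⟩ := (isCompact_Icc (a := (1 : ℝ)) (b := 4)).exists_bound_of_continuousOn
    hgc.continuousOn
  have hM0 : 0 ≤ M := (norm_nonneg _).trans (hM 1 ⟨le_rfl, by norm_num⟩)
  refine ⟨3 * (M + 1) * 258, by nlinarith, fun ρ hρ0 hρ1 hγ b => ?_⟩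
  have hz : ∀ x, x ∉ Set.Icc (3 / 2 : ℝ) (39 / 10) → (g0 x : ℂ) * (x : ℂ) ^ (ρ - 1) * ee (x * b) = 0 := by
    intro x hx
    rw [hg2 x hx, Complex.ofReal_zero, zero_mul, zero_mul]
  rw [CI_g0_int _ hz]
  have e1 : ∫ x in (1 : ℝ)..4, (g0 x : ℂ) * (x : ℂ) ^ (ρ - 1) * ee (x * b) =
      ∫ x in (1 : ℝ)..4, ((g0 x * x ^ (ρ.re - 1) : ℝ) : ℂ) * CI_E ρ.im b x := by
    refine intervalIntegral.integral_congr fun x hx => ?_
    rw [Set.uIcc_of_le (by norm_num)] at hx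
    exact CI_factor ρ b x (by linarith [hx.1])
  rw [e1]
  have hd : ∀ x : ℝ, 0 < x → HasDerivAt (fun x => g0 x * x ^ (ρ.re - 1))
      (deriv g0 x * x ^ (ρ.re - 1) + g0 x * ((ρ.re - 1) * x ^ (ρ.re - 1 - 1))) x := fun x hx =>
    (hgd x).mul (Real.hasDerivAt_rpow_const (Or.inl hx.ne'))
  have hrc : ∀ a : ℝ, ContinuousOn (fun x : ℝ => x ^ a) (Set.Icc 1 4) := fun a x hx =>
    (Real.continuousAt_rpow_const _ _ (Or.inl (by linarith [hx.1]))).continuousWithinAt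
  have h := CI_amp ρ.im b (M + 1) hγ (fun x => g0 x * x ^ (ρ.re - 1))
    (fun x => deriv g0 x * x ^ (ρ.re - 1) + g0 x * ((ρ.re - 1) * x ^ (ρ.re - 1 - 1))) hd
    ((hgc.continuousOn.mul (hrc _)).add (hg4.continuous.continuousOn.mul
      (continuousOn_const.mul (hrc _)))) (by
      show g0 4 * _ = 0
      rw [hg2 4 (fun h => by linarith [h.2]), zero_mul]) (by
      intro x hx
      have hx0 : 0 < x := by linarith [hx.1]
      have hp : ∀ a : ℝ, a ≤ 0 → |x ^ a| ≤ 1 := fun a ha => by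
        rw [abs_of_nonneg (Real.rpow_nonneg hx0.le _)]
        exact Real.rpow_le_one_of_one_le_of_nonpos hx.1 ha
      refine (abs_add_le _ _).trans ?_
      refine add_le_add ?_ ?_
      · rw [abs_mul]
        have h1 := hM x hx
        rw [Real.norm_eq_abs] at h1
        calc |deriv g0 x| * |x ^ (ρ.re - 1)| ≤ M * 1 :=
              mul_le_mul h1 (hp _ (by linarith)) (abs_nonneg _) hM0
          _ = M := mul_one M
      · rw [abs_mul, abs_mul]
        have h1 : |g0 x| ≤ 1 := by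
          rw [abs_of_nonneg (hg1 x).1]
          exact (hg1 x).2
        have h2 : |ρ.re - 1| ≤ 1 := abs_le.2 ⟨by linarith, by linarith⟩
        have h3 := hp (ρ.re - 1 - 1) (by linarith)
        exact mul_le_one₀ h1 (by positivity) (mul_le_one₀ h2 (abs_nonneg _) h3))
  refine h.trans (le_of_eq ?_)
  ring

theorem CI_ne {r : ℕ} (χ : DirichletCharacter ℂ r) : ∃ s, EF χ s ≠ 0 := ⟨1, EF_ne_zero χ 1 (by simp)⟩

theorem CI_sqrt_pow (X : ℝ) (hX : 1 ≤ X) (ρ : ℂ) (hρ : ρ.re ≤ 1) :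
    ‖((Real.sqrt X : ℝ) : ℂ) ^ (ρ - 1)‖ ≤ X ^ (-((1 - ρ.re) / 4)) := by
  have hX0 : 0 < X := by linarith
  rw [Complex.norm_cpow_eq_rpow_re_of_pos (Real.sqrt_pos.2 hX0), Real.sqrt_eq_rpow, ← Real.rpow_mul hX0.le]
  refine Real.rpow_le_rpow_of_exponent_le hX ?_
  simp only [Complex.sub_re, Complex.one_re]
  linarith

theorem CI_wx_nonneg (δ X : ℝ) (hX : 0 ≤ X) {r : ℕ} (χ : DirichletCharacter ℂ r) :
    0 ≤ ∑ ρ ∈ ZR (EF χ) δ X, (mz (EF χ) ρ : ℝ) * X ^ (-((1 - ρ.re) / 4)) :=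
  Finset.sum_nonneg fun ρ _ => mul_nonneg (Nat.cast_nonneg _) (Real.rpow_nonneg hX _)

theorem CI_dl {r : ℕ} (χ : DirichletCharacter ℂ r) : 0 ≤ dl χ := by
  unfold dl
  split_ifs <;> norm_num

theorem CI_wx0 (δ X : ℝ) (hX : 0 ≤ X) {r : ℕ} (χ : DirichletCharacter ℂ r) : 0 ≤ wx δ X χ :=
  add_nonneg (CI_dl χ) (CI_wx_nonneg δ X hX χ)

theorem CI_sub (δ T X : ℝ) (hT : T ≤ X) {r : ℕ} (χ : DirichletCharacter ℂ r) :
    ZR (EF χ) δ T ⊆ ZR (EF χ) δ X := by
  intro ρ hρ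
  rw [mem_ZR _ (EF_diff χ) (CI_ne χ)] at hρ ⊢
  exact ⟨hρ.1, hρ.2.1, hρ.2.2.1, hρ.2.2.2.trans hT⟩

/-- Pointwise bound.

Proof. On the support of `g0`: `x ≥ 3/2`, `√X x ≥ X ^ (1/2)`, `‖(√X x) ^ (ρ - 1)‖ = (√X x) ^ (-(1 - β)) ≤ X ^ (-(1 - β) / 4)` (`β ≤ 1`); `ZR (EF χ) δ T ⊆ ZR (EF χ) δ X`. -/
theorem gx_le (δ T X : ℝ) (hX : 1 ≤ X) (hT : T ≤ X) {r : ℕ} (hr : 1 ≤ r) (χ : DirichletCharacter ℂ r) (x : ℝ) :
    ‖gx δ T X χ x‖ ≤ g0 x * wx δ X χ := by
  have hX0 : 0 < X := by linarith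
  have hg := g0_facts
  unfold gx
  rw [norm_mul, Complex.norm_real, Real.norm_eq_abs, abs_of_nonneg (hg.1 x).1]
  by_cases hx : x ∈ Set.Icc (3 / 2 : ℝ) (39 / 10)
  · refine mul_le_mul_of_nonneg_left ?_ (hg.1 x).1
    refine (norm_sub_le _ _).trans ?_
    unfold wx
    refine add_le_add ?_ ?_
    · rw [Complex.norm_real, Real.norm_eq_abs, abs_of_nonneg (CI_dl χ)]
    · refine (norm_sum_le _ _).trans ?_
      refine le_trans ?_ (Finset.sum_le_sum_of_subset_of_nonneg (CI_sub δ T X hT χ)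
        fun ρ _ _ => mul_nonneg (Nat.cast_nonneg _) (Real.rpow_nonneg hX0.le _))
      refine Finset.sum_le_sum fun ρ hρ => ?_
      rw [mem_ZR _ (EF_diff χ) (CI_ne χ)] at hρ
      rw [norm_mul, Complex.norm_natCast]
      refine mul_le_mul_of_nonneg_left ?_ (Nat.cast_nonneg _)
      have hx0 : 0 < x := by linarith [hx.1]
      have hsx : 0 < Real.sqrt X := Real.sqrt_pos.2 hX0
      rw [Complex.norm_cpow_eq_rpow_re_of_pos (mul_pos hsx hx0)]
      have h1 := CI_sqrt_pow X hX ρ hρ.2.2.1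
      rw [Complex.norm_cpow_eq_rpow_re_of_pos hsx] at h1
      refine le_trans ?_ h1
      refine Real.rpow_le_rpow_of_nonpos hsx ?_ ?_
      · have := hx.1
        nlinarith
      · simp only [Complex.sub_re, Complex.one_re]
        linarith [hρ.2.2.1]
  · rw [hg.2.1 x hx, zero_mul, zero_mul]

theorem CI_gx_eq (δ T X : ℝ) (hX : 1 ≤ X) {r : ℕ} (χ : DirichletCharacter ℂ r) (x : ℝ) :
    gx δ T X χ x = (dl χ : ℂ) * (g0 x : ℂ) + ∑ ρ ∈ ZR (EF χ) δ T,
      (-((mz (EF χ) ρ : ℂ) * ((Real.sqrt X : ℝ) : ℂ) ^ (ρ - 1))) * ((g0 x : ℂ) * (x : ℂ) ^ (ρ - 1)) := by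
  unfold gx
  by_cases hx : x ∈ Set.Icc (3 / 2 : ℝ) (39 / 10)
  · have hx0 : 0 ≤ x := by linarith [hx.1]
    rw [mul_sub, Finset.mul_sum, mul_comm (g0 x : ℂ) (dl χ : ℂ), sub_eq_add_neg, ← Finset.sum_neg_distrib]
    congr 1
    refine Finset.sum_congr rfl fun ρ _ => ?_
    have e : ((Real.sqrt X * x : ℝ) : ℂ) ^ (ρ - 1) = ((Real.sqrt X : ℝ) : ℂ) ^ (ρ - 1) * (x : ℂ) ^ (ρ - 1) := by
      rw [Complex.ofReal_mul, Complex.mul_cpow_ofReal_nonneg (Real.sqrt_nonneg X) hx0]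
    rw [e]
    ring
  · rw [g0_facts.2.1 x hx]
    simp

/-- The smooth part is a weight.

Proof. `gx x = dl g0 x - ∑_ρ mz (√X) ^ (ρ - 1) g0 x x ^ (ρ - 1)` for `x > 0`, and both sides vanish for `x ≤ 0`. `isW_fixed`, `isW_cpow` (`‖ρ - 1‖ ≤ 1 + T`, `|Re (ρ - 1)| ≤ 1`), `isW_sum`, `isW_smul`, with `‖(√X) ^ (ρ - 1)‖ = X ^ (-(1 - β) / 2) ≤ X ^ (-(1 - β) / 4)`. The exponential twist by `isW_ee`. -/
theorem isW_gx (J : ℕ) : ∃ C : ℝ, 1 ≤ C ∧ ∀ (δ T X : ℝ), 0 < δ → δ ≤ 1 / 16 → 1 ≤ X → 0 ≤ T → T ≤ X → ∀ {r : ℕ}, 1 ≤ r → ∀ (χ : DirichletCharacter ℂ r),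
    IsW J (C * wx δ X χ) (C * (1 + T)) (gx δ T X χ) ∧
    ∀ b : ℝ, IsW J (C * wx δ X χ) (C * (1 + T + |b|)) (fun x => gx δ T X χ x * ee (x * b)) := by
  obtain ⟨A, hA1, _, _, hA, _⟩ := isW_fixed J
  have hJ : (0 : ℝ) ≤ J := Nat.cast_nonneg J
  refine ⟨256 * A + 5 + 4 * J + 2 * Real.pi, by have := Real.pi_pos; linarith, fun δ T X hδ hδ1 hX hT hTX r hr χ => ?_⟩
  set C : ℝ := 256 * A + 5 + 4 * J + 2 * Real.pi with hC
  have hpi := Real.pi_pos
  have hX0 : 0 < X := by linarith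
  have hCA : 256 * A ≤ C := by linarith
  have hwx := CI_wx0 δ X hX0.le χ
  have hB0 : 0 ≤ 1 + 4 * (1 + T + J) := by positivity
  have h1 : ∀ ρ ∈ ZR (EF χ) δ T, IsW J (((mz (EF χ) ρ : ℝ) * X ^ (-((1 - ρ.re) / 4))) * (256 * A)) (1 + 4 * (1 + T + J))
      (fun x => (-((mz (EF χ) ρ : ℂ) * ((Real.sqrt X : ℝ) : ℂ) ^ (ρ - 1))) * ((g0 x : ℂ) * (x : ℂ) ^ (ρ - 1))) := by
    intro ρ hρ
    rw [mem_ZR _ (EF_diff χ) (CI_ne χ)] at hρ
    obtain ⟨_, hρ1, hρ2, hρ3⟩ := hρ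
    have h2 := isW_cpow hA zero_le_one (ρ - 1) (by
      simp only [Complex.sub_re, Complex.one_re]
      rw [abs_le]
      exact ⟨by linarith, by linarith⟩)
    have hn : ‖ρ - 1‖ ≤ 1 + T := by
      refine (Complex.norm_le_abs_re_add_abs_im _).trans ?_
      simp only [Complex.sub_re, Complex.one_re, Complex.sub_im, Complex.one_im, sub_zero]
      refine add_le_add ?_ hρ3
      rw [abs_le]
      exact ⟨by linarith, by linarith⟩
    have h3 := isW_mono h2 le_rfl (by positivity) (le_refl (256 * A))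
      (show 1 + 4 * (‖ρ - 1‖ + J) ≤ 1 + 4 * (1 + T + J) by linarith)
    have h4 := isW_smul h3 (-((mz (EF χ) ρ : ℂ) * ((Real.sqrt X : ℝ) : ℂ) ^ (ρ - 1)))
    refine isW_mono h4 le_rfl hB0 ?_ le_rfl
    rw [norm_neg, norm_mul, Complex.norm_natCast]
    exact mul_le_mul_of_nonneg_right (mul_le_mul_of_nonneg_left (CI_sqrt_pow X hX ρ hρ2)
      (Nat.cast_nonneg _)) (by positivity)
  have h2 := isW_sum _ _ _ h1
  have h3 := isW_mono (isW_smul hA (dl χ : ℂ)) le_rfl zero_le_one (le_refl (‖(dl χ : ℂ)‖ * A))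
    (show (1 : ℝ) ≤ 1 + 4 * (1 + T + J) by nlinarith)
  have h4 := isW_add h3 h2
  have e : (fun x => (dl χ : ℂ) * (g0 x : ℂ) + ∑ ρ ∈ ZR (EF χ) δ T,
      (-((mz (EF χ) ρ : ℂ) * ((Real.sqrt X : ℝ) : ℂ) ^ (ρ - 1))) * ((g0 x : ℂ) * (x : ℂ) ^ (ρ - 1))) = gx δ T X χ := by
    funext x
    exact (CI_gx_eq δ T X hX χ x).symm
  rw [e] at h4
  have hAle : ‖(dl χ : ℂ)‖ * A + ∑ ρ ∈ ZR (EF χ) δ T, ((mz (EF χ) ρ : ℝ) * X ^ (-((1 - ρ.re) / 4))) * (256 * A) ≤
      C * wx δ X χ := by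
    rw [Complex.norm_real, Real.norm_eq_abs, abs_of_nonneg (CI_dl χ), ← Finset.sum_mul]
    have h5 : ∑ ρ ∈ ZR (EF χ) δ T, (mz (EF χ) ρ : ℝ) * X ^ (-((1 - ρ.re) / 4)) ≤
        ∑ ρ ∈ ZR (EF χ) δ X, (mz (EF χ) ρ : ℝ) * X ^ (-((1 - ρ.re) / 4)) :=
      Finset.sum_le_sum_of_subset_of_nonneg (CI_sub δ T X hTX χ)
        fun ρ _ _ => mul_nonneg (Nat.cast_nonneg _) (Real.rpow_nonneg hX0.le _)
    have h6 := CI_dl χ
    calc dl χ * A + (∑ ρ ∈ ZR (EF χ) δ T, (mz (EF χ) ρ : ℝ) * X ^ (-((1 - ρ.re) / 4))) * (256 * A) ≤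
          dl χ * (256 * A) + (∑ ρ ∈ ZR (EF χ) δ X, (mz (EF χ) ρ : ℝ) * X ^ (-((1 - ρ.re) / 4))) * (256 * A) :=
          add_le_add (mul_le_mul_of_nonneg_left (by linarith) h6)
            (mul_le_mul_of_nonneg_right h5 (by positivity))
      _ = (256 * A) * wx δ X χ := by
          unfold wx
          ring
      _ ≤ C * wx δ X χ := mul_le_mul_of_nonneg_right hCA hwx
  have hBle : 1 + 4 * (1 + T + J) ≤ (256 * A + 5 + 4 * J) * (1 + T) := by nlinarith
  have hBC : (256 * A + 5 + 4 * J) * (1 + T) ≤ C * (1 + T) :=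
    mul_le_mul_of_nonneg_right (by linarith) (by linarith)
  refine ⟨isW_mono h4 le_rfl hB0 hAle (hBle.trans hBC), fun b => ?_⟩
  have h5 := isW_ee (isW_mono h4 le_rfl hB0 hAle hBle) (by positivity) b
  refine isW_mono h5 le_rfl (by positivity) le_rfl ?_
  have hb := abs_nonneg b
  rw [hC]
  nlinarith [mul_nonneg hJ hb, mul_nonneg hpi.le hT, mul_nonneg (show (0 : ℝ) ≤ A by linarith) hb]

theorem CI_g0_integrable : Integrable (fun x : ℝ => g0 x) := by
  have hg := g0_facts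
  refine (hg.2.2.2.continuous).integrable_of_hasCompactSupport ?_
  refine HasCompactSupport.of_support_subset_isCompact (isCompact_Icc (a := (3 / 2 : ℝ)) (b := 39 / 10)) ?_
  intro x hx
  by_contra h
  exact hx (hg.2.1 x h)

theorem CI_g0_le : ∫ x : ℝ, g0 x ≤ 3 := by
  have hg := g0_facts
  have h1 : ∫ x : ℝ, g0 x = ∫ x in Set.Icc (3 / 2 : ℝ) (39 / 10), g0 x :=
    (MeasureTheory.setIntegral_eq_integral_of_forall_compl_eq_zero fun x hx => hg.2.1 x hx).symm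
  rw [h1]
  have h2 : ∫ x in Set.Icc (3 / 2 : ℝ) (39 / 10), g0 x ≤ ∫ x in Set.Icc (3 / 2 : ℝ) (39 / 10), (1 : ℝ) := by
    refine MeasureTheory.setIntegral_mono CI_g0_integrable.integrableOn ?_ fun x => (hg.1 x).2
    exact MeasureTheory.integrableOn_const (by simp)
  refine h2.trans ?_
  simp
  norm_num

theorem CI_gx_cont (δ T X : ℝ) (hX : 1 ≤ X) {r : ℕ} (χ : DirichletCharacter ℂ r) (a : ℝ) :
    Continuous (fun x : ℝ => gx δ T X χ x * ee (x * a)) ∧
    Integrable (fun x : ℝ => gx δ T X χ x * ee (x * a)) := by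
  have hg := g0_facts
  have hee : Continuous fun x : ℝ => ee (x * a) := by
    unfold ee
    fun_prop
  have hc : Continuous (gx δ T X χ) := by
    rw [continuous_iff_continuousAt]
    intro x
    rcases lt_or_ge 1 x with hx | hx
    · unfold gx
      refine ContinuousAt.mul (Complex.continuous_ofReal.continuousAt.comp hg.2.2.2.continuous.continuousAt) ?_
      refine continuousAt_const.sub ?_
      refine tendsto_finsetSum _ fun ρ _ => ?_
      refine ContinuousAt.mul continuousAt_const ?_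
      refine ContinuousAt.cpow (Complex.continuous_ofReal.continuousAt.comp
        (continuousAt_const.mul continuousAt_id)) continuousAt_const ?_
      left
      have : 0 < Real.sqrt X * x := mul_pos (Real.sqrt_pos.2 (by linarith)) (by linarith)
      simpa using this
    · have h1 : gx δ T X χ =ᶠ[nhds x] fun _ => (0 : ℂ) := by
        filter_upwards [Iio_mem_nhds (show x < 3 / 2 by linarith)] with y hy
        unfold gx
        rw [hg.2.1 y fun h => absurd h.1 (not_le.2 hy), Complex.ofReal_zero, zero_mul]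
      exact continuousAt_const.congr h1.symm
  refine ⟨hc.mul hee, (hc.mul hee).integrable_of_hasCompactSupport ?_⟩
  refine HasCompactSupport.of_support_subset_isCompact (isCompact_Icc (a := (3 / 2 : ℝ)) (b := 39 / 10)) ?_
  intro x hx
  by_contra h
  refine hx ?_
  show gx δ T X χ x * ee (x * a) = 0
  unfold gx
  rw [hg.2.1 x h, Complex.ofReal_zero, zero_mul, zero_mul]

/-- Proof. `gx_le`; `∫ g0 ≤ 12/5`. -/
theorem HH_le (δ T X : ℝ) (hX : 1 ≤ X) (hT : T ≤ X) {r : ℕ} (hr : 1 ≤ r) (χ : DirichletCharacter ℂ r) (β : ℝ) :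
    ‖HH δ T X χ β‖ ≤ 3 * Real.sqrt X * wx δ X χ := by
  have hwx := CI_wx0 δ X (by linarith) χ
  unfold HH
  rw [norm_mul, Complex.norm_real, Real.norm_eq_abs, abs_of_nonneg (Real.sqrt_nonneg X)]
  have h1 : ‖∫ x : ℝ, gx δ T X χ x * ee (x * (Real.sqrt X * β))‖ ≤ 3 * wx δ X χ := by
    have h2 := MeasureTheory.norm_integral_le_of_norm_le (f := fun x : ℝ => gx δ T X χ x * ee (x * (Real.sqrt X * β)))
      (g := fun x => g0 x * wx δ X χ) (CI_g0_integrable.mul_const _) (Filter.Eventually.of_forall fun x => by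
        rw [norm_mul, Wb58c63.norm_ee, mul_one]
        exact gx_le δ T X hX hT hr χ x)
    refine h2.trans ?_
    rw [MeasureTheory.integral_mul_const]
    exact mul_le_mul_of_nonneg_right CI_g0_le hwx
  calc Real.sqrt X * ‖∫ x : ℝ, gx δ T X χ x * ee (x * (Real.sqrt X * β))‖ ≤ Real.sqrt X * (3 * wx δ X χ) :=
        mul_le_mul_of_nonneg_left h1 (Real.sqrt_nonneg X)
    _ = _ := by ring

/-- **Zeros with large ordinates do not matter.**

Proof. The difference is `-√X ∑_{ρ ∈ ZR X \ ZR T} mz (√X) ^ (ρ - 1) ∫ g0 x x ^ (ρ - 1) ee (x √X β)`, the zeros have `|γ| > T ≥ 1`; `osc`. -/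
theorem HH_trunc : ∃ C : ℝ, 1 ≤ C ∧ ∀ (δ T X : ℝ), 0 < δ → δ ≤ 1 / 16 → 1 ≤ X → 1 ≤ T → T ≤ X → ∀ {r : ℕ}, 1 ≤ r → ∀ (χ : DirichletCharacter ℂ r) (β : ℝ),
    ‖HH δ X X χ β - HH δ T X χ β‖ ≤ C * Real.sqrt X * T ^ (-(1 / 2) : ℝ) * wx δ X χ := by
  obtain ⟨C, hC, hosc⟩ := osc
  refine ⟨C, hC, fun δ T X hδ hδ1 hX hT1 hTX r hr χ β => ?_⟩
  have hX0 : 0 < X := by linarith
  have hT0 : 0 < T := by linarith
  set b := Real.sqrt X * β with hb
  have hgc : ∀ ρ : ℂ, Integrable (fun x : ℝ => (g0 x : ℂ) * (x : ℂ) ^ (ρ - 1) * ee (x * b)) := by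
    intro ρ
    have hg := g0_facts
    have hee : Continuous fun x : ℝ => ee (x * b) := by
      unfold ee
      fun_prop
    have hc : Continuous (fun x : ℝ => (g0 x : ℂ) * (x : ℂ) ^ (ρ - 1)) := by
      rw [continuous_iff_continuousAt]
      intro x
      rcases lt_or_ge 1 x with hx | hx
      · refine ContinuousAt.mul (Complex.continuous_ofReal.continuousAt.comp hg.2.2.2.continuous.continuousAt) ?_
        refine ContinuousAt.cpow Complex.continuous_ofReal.continuousAt continuousAt_const ?_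
        left
        simp
        linarith
      · have h1 : (fun x : ℝ => (g0 x : ℂ) * (x : ℂ) ^ (ρ - 1)) =ᶠ[nhds x] fun _ => (0 : ℂ) := by
          filter_upwards [Iio_mem_nhds (show x < 3 / 2 by linarith)] with y hy
          rw [hg.2.1 y fun h => absurd h.1 (not_le.2 hy), Complex.ofReal_zero, zero_mul]
        exact continuousAt_const.congr h1.symm
    refine (hc.mul hee).integrable_of_hasCompactSupport ?_
    refine HasCompactSupport.of_support_subset_isCompact (isCompact_Icc (a := (3 / 2 : ℝ)) (b := 39 / 10)) ?_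
    intro x hx
    by_contra h
    refine hx ?_
    show (g0 x : ℂ) * (x : ℂ) ^ (ρ - 1) * ee (x * b) = 0
    rw [hg.2.1 x h, Complex.ofReal_zero, zero_mul, zero_mul]
  have hdiff : (∫ x : ℝ, gx δ X X χ x * ee (x * b)) - ∫ x : ℝ, gx δ T X χ x * ee (x * b) =
      ∑ ρ ∈ ZR (EF χ) δ X \ ZR (EF χ) δ T, (-((mz (EF χ) ρ : ℂ) * ((Real.sqrt X : ℝ) : ℂ) ^ (ρ - 1))) *
        ∫ x : ℝ, (g0 x : ℂ) * (x : ℂ) ^ (ρ - 1) * ee (x * b) := by
    rw [← MeasureTheory.integral_sub (CI_gx_cont δ X X hX χ b).2 (CI_gx_cont δ T X hX χ b).2]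
    simp_rw [← MeasureTheory.integral_const_mul]
    rw [← MeasureTheory.integral_finsetSum _ fun ρ _ => (hgc ρ).const_mul _]
    refine MeasureTheory.integral_congr_ae (Filter.Eventually.of_forall fun x => ?_)
    show gx δ X X χ x * ee (x * b) - gx δ T X χ x * ee (x * b) = _
    rw [CI_gx_eq δ X X hX χ x, CI_gx_eq δ T X hX χ x, ← Finset.sum_sdiff (CI_sub δ T X hTX χ)]
    rw [add_mul, add_mul, add_mul, Finset.sum_mul]
    have : ∀ A B D : ℂ, A + (B + D) - (A + D) = B := fun A B D => by ring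
    rw [this]
    refine Finset.sum_congr rfl fun ρ _ => ?_
    ring
  unfold HH
  rw [← mul_sub, hdiff, norm_mul, Complex.norm_real, Real.norm_eq_abs, abs_of_nonneg (Real.sqrt_nonneg X)]
  have hT2 : 0 < T ^ (-(1 / 2) : ℝ) := Real.rpow_pos_of_pos hT0 _
  have hsum : ‖∑ ρ ∈ ZR (EF χ) δ X \ ZR (EF χ) δ T, (-((mz (EF χ) ρ : ℂ) * ((Real.sqrt X : ℝ) : ℂ) ^ (ρ - 1))) *
        ∫ x : ℝ, (g0 x : ℂ) * (x : ℂ) ^ (ρ - 1) * ee (x * b)‖ ≤ C * T ^ (-(1 / 2) : ℝ) * wx δ X χ := by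
    refine (norm_sum_le _ _).trans ?_
    have h1 : ∀ ρ ∈ ZR (EF χ) δ X \ ZR (EF χ) δ T, ‖(-((mz (EF χ) ρ : ℂ) * ((Real.sqrt X : ℝ) : ℂ) ^ (ρ - 1))) *
        ∫ x : ℝ, (g0 x : ℂ) * (x : ℂ) ^ (ρ - 1) * ee (x * b)‖ ≤
        C * T ^ (-(1 / 2) : ℝ) * ((mz (EF χ) ρ : ℝ) * X ^ (-((1 - ρ.re) / 4))) := by
      intro ρ hρ
      rw [Finset.mem_sdiff, mem_ZR _ (EF_diff χ) (CI_ne χ), mem_ZR _ (EF_diff χ) (CI_ne χ)] at hρ
      obtain ⟨⟨h0, h1, h2, h3⟩, h4⟩ := hρ
      have h5 : T < |ρ.im| := by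
        by_contra h
        exact h4 ⟨h0, h1, h2, not_lt.1 h⟩
      have h6 := hosc ρ (by linarith) h2 (by linarith) b
      have h7 : |ρ.im| ^ (-(1 / 2) : ℝ) ≤ T ^ (-(1 / 2) : ℝ) :=
        Real.rpow_le_rpow_of_nonpos hT0 h5.le (by norm_num)
      have h8 := h6.trans (mul_le_mul_of_nonneg_left h7 (by linarith))
      rw [norm_mul, norm_neg, norm_mul, Complex.norm_natCast]
      have h9 := CI_sqrt_pow X hX ρ h2
      calc (mz (EF χ) ρ : ℝ) * ‖((Real.sqrt X : ℝ) : ℂ) ^ (ρ - 1)‖ *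
            ‖∫ x : ℝ, (g0 x : ℂ) * (x : ℂ) ^ (ρ - 1) * ee (x * b)‖ ≤
            (mz (EF χ) ρ : ℝ) * X ^ (-((1 - ρ.re) / 4)) * (C * T ^ (-(1 / 2) : ℝ)) :=
            mul_le_mul (mul_le_mul_of_nonneg_left h9 (Nat.cast_nonneg _)) h8 (norm_nonneg _)
              (mul_nonneg (Nat.cast_nonneg _) (Real.rpow_nonneg hX0.le _))
        _ = _ := by ring
    refine (Finset.sum_le_sum h1).trans ?_
    rw [← Finset.mul_sum]
    refine mul_le_mul_of_nonneg_left ?_ (by positivity)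
    have h2 : ∑ ρ ∈ ZR (EF χ) δ X \ ZR (EF χ) δ T, (mz (EF χ) ρ : ℝ) * X ^ (-((1 - ρ.re) / 4)) ≤
        ∑ ρ ∈ ZR (EF χ) δ X, (mz (EF χ) ρ : ℝ) * X ^ (-((1 - ρ.re) / 4)) :=
      Finset.sum_le_sum_of_subset_of_nonneg Finset.sdiff_subset
        fun ρ _ _ => mul_nonneg (Nat.cast_nonneg _) (Real.rpow_nonneg hX0.le _)
    have h3 := CI_dl χ
    unfold wx
    linarith
  calc Real.sqrt X * _ ≤ Real.sqrt X * (C * T ^ (-(1 / 2) : ℝ) * wx δ X χ) :=
        mul_le_mul_of_nonneg_left hsum (Real.sqrt_nonneg X)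
    _ = _ := by ring

end Pool.Agent.PSG
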