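import Pool.Agent.W_b58c63_h68.LSa

/-!
# Convolutions in mean square
-/

set_option autoImplicit false

noncomputable section

open Finset Complex MeasureTheory

namespace Pool.Agent.PSG

open Pool.Agent.Wb58c63 (ee)

theorem CL_ee_nat (x : ℝ) (j : ℕ) : ee (j * x) = ee x ^ j := by
  unfold ee
  rw [← Complex.exp_nat_mul]
  congr 1
  push_cast
  ring

theorem CL_ee_conj (x : ℝ) : (starRingEnd ℂ) (ee x) = ee (-x) := by
  unfold ee
  rw [← Complex.exp_conj]
  congr 1
  simp only [map_mul, Complex.conj_ofReal, Complex.conj_I, map_ofNat]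
  push_cast
  ring

/-- Orthogonality on the points `j / M`. -/
theorem CL_orth (M : ℕ) (hM : 0 < M) (n m : ℕ) (hn : n < M) (hm : m < M) :
    ∑ j ∈ range M, ee (n * ((j : ℝ) / M)) * (starRingEnd ℂ) (ee (m * ((j : ℝ) / M))) =
      if n = m then (M : ℂ) else 0 := by
  have hM' : (M : ℝ) ≠ 0 := by positivity
  have h1 : ∀ j ∈ range M, ee (n * ((j : ℝ) / M)) * (starRingEnd ℂ) (ee (m * ((j : ℝ) / M))) =
      ee (((n : ℝ) - m) / M) ^ j := by
    intro j _
    rw [CL_ee_conj, ← Pool.Agent.Wb58c63.ee_add, ← CL_ee_nat]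
    congr 1
    field_simp
    ring
  rw [Finset.sum_congr rfl h1]
  split_ifs with h
  · subst h
    rw [sub_self, zero_div, Pool.Agent.Wb58c63.ee_zero]
    simp
  · have h2 : ee (((n : ℝ) - m) / M) ≠ 1 := by
      intro h3
      unfold ee at h3
      rw [Complex.exp_eq_one_iff] at h3
      obtain ⟨z, hz⟩ := h3
      have h4 : (((n : ℝ) - m) / M : ℝ) = z := by
        have h5 : (2 * Real.pi * Complex.I : ℂ) ≠ 0 := Complex.two_pi_I_ne_zero
        have h6 : (2 * Real.pi * Complex.I : ℂ) * ((((n : ℝ) - m) / M : ℝ) : ℂ) =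
            (2 * Real.pi * Complex.I : ℂ) * (z : ℂ) := by
          rw [hz]
          ring
        have h7 := mul_left_cancel₀ h5 h6
        exact_mod_cast h7
      have h5 : ((n : ℤ) - m) = z * M := by
        have h6 : ((n : ℝ) - m) = z * M := by
          rw [← h4]
          field_simp
        exact_mod_cast h6
      have hz0 : z = 0 := by
        by_contra hne
        have h7 : (M : ℤ) ≤ |z * M| := by
          rw [abs_mul]
          have h8 : 1 ≤ |z| := Int.one_le_abs hne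
          have h9 : |(M : ℤ)| = M := abs_of_nonneg (by omega)
          rw [h9]
          nlinarith
        rw [← h5] at h7
        have h8 : |(n : ℤ) - m| < M := by
          rw [abs_lt]
          omega
        omega
      rw [hz0, zero_mul] at h5
      exact h (by omega)
    have h3 : ee (((n : ℝ) - m) / M) ^ M = 1 := by
      rw [← CL_ee_nat]
      have h4 : (M : ℝ) * (((n : ℝ) - m) / M) = (((n : ℤ) - m : ℤ) : ℝ) := by
        push_cast
        field_simp
      rw [h4, Pool.Agent.Wb58c63.ee_int]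
    rw [geom_sum_eq h2, h3, sub_self, zero_div]

/-- Parseval. -/
theorem CL_pars (M : ℕ) (hM : 0 < M) (f : ℕ → ℂ) :
    ∑ j ∈ range M, ‖∑ n ∈ range M, f n * ee (n * ((j : ℝ) / M))‖ ^ 2 =
      M * ∑ n ∈ range M, ‖f n‖ ^ 2 := by
  have h1 : ((∑ j ∈ range M, ‖∑ n ∈ range M, f n * ee (n * ((j : ℝ) / M))‖ ^ 2 : ℝ) : ℂ) =
      ((M * ∑ n ∈ range M, ‖f n‖ ^ 2 : ℝ) : ℂ) := by
    push_cast
    have h2 : ∀ z : ℂ, ((‖z‖ : ℝ) : ℂ) ^ 2 = z * (starRingEnd ℂ) z := by
      intro z
      rw [Complex.mul_conj, Complex.normSq_eq_norm_sq]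
      push_cast
      rfl
    simp only [h2, map_sum, map_mul, Finset.sum_mul_sum]
    rw [Finset.sum_comm]
    have h3 : ∀ n ∈ range M, ∑ j ∈ range M, ∑ m ∈ range M,
        f n * ee (n * ((j : ℝ) / M)) * ((starRingEnd ℂ) (f m) *
          (starRingEnd ℂ) (ee (m * ((j : ℝ) / M)))) = M * (f n * (starRingEnd ℂ) (f n)) := by
      intro n hn
      rw [Finset.sum_comm]
      have h4 : ∀ m ∈ range M, ∑ j ∈ range M, f n * ee (n * ((j : ℝ) / M)) *
          ((starRingEnd ℂ) (f m) * (starRingEnd ℂ) (ee (m * ((j : ℝ) / M)))) =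
          f n * (starRingEnd ℂ) (f m) * (if n = m then (M : ℂ) else 0) := by
        intro m hm
        rw [← CL_orth M hM n m (Finset.mem_range.1 hn) (Finset.mem_range.1 hm), Finset.mul_sum]
        exact Finset.sum_congr rfl fun j _ => by ring
      rw [Finset.sum_congr rfl h4, Finset.sum_eq_single n]
      · rw [if_pos rfl]
        ring
      · intro m _ hne
        rw [if_neg (Ne.symm hne), mul_zero]
      · intro h
        exact absurd hn h
    rw [Finset.sum_congr rfl h3, Finset.mul_sum]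
  exact_mod_cast h1

/-- **Convolutions in mean square.**

Proof. Let `A(α) = ∑_{n ≤ L} a n ee (n α)`, `B(α) = ∑_{m ≤ K} b m ee (m α)`. The coefficients `c N` of `A B` are `∑_{m ≤ K} b m a (N - m)` (over `m < N`, as `a` is supported in `[1, L]`), which for `N ≤ K` is the inner sum on the left. By Parseval (orthogonality on `[0, 1]`) `∑_N ‖c N‖ ^ 2 = ∫_0^1 ‖A B‖ ^ 2 ≤ S ^ 2 ∫_0^1 ‖B‖ ^ 2 = S ^ 2 ∑ ‖b m‖ ^ 2`.
The integrals may be replaced by means over the points `j / M`, `M > K + L`. -/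
theorem conv_l2 (L K : ℕ) (a b : ℕ → ℂ) (ha0 : a 0 = 0) (ha : ∀ n, L < n → a n = 0) (S : ℝ)
    (hS : ∀ α : ℝ, ‖∑ n ∈ Icc 1 L, a n * ee (n * α)‖ ≤ S) :
    ∑ N ∈ Icc 1 K, ‖∑ m ∈ Icc 1 N, b m * a (N - m)‖ ^ 2 ≤ S ^ 2 * ∑ m ∈ Icc 1 K, ‖b m‖ ^ 2 := by
  classical
  obtain ⟨M, hMd⟩ : ∃ M, M = K + L + 1 := ⟨_, rfl⟩
  have hM : 0 < M := by omega
  have hMr : (0 : ℝ) < M := by exact_mod_cast hM
  have hS0 : 0 ≤ S := (norm_nonneg _).trans (hS 0)
  -- the coefficients of the product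
  obtain ⟨c, hc⟩ : ∃ c : ℕ → ℂ, ∀ N, c N = ∑ q ∈ (Icc 1 L ×ˢ Icc 1 K).filter
      (fun q => q.1 + q.2 = N), a q.1 * b q.2 := ⟨_, fun _ => rfl⟩
  obtain ⟨b', hb'⟩ : ∃ b' : ℕ → ℂ, ∀ m, b' m = if m ∈ Icc 1 K then b m else 0 := ⟨_, fun _ => rfl⟩
  have hB : ∀ α : ℝ, ∑ n ∈ range M, b' n * ee (n * α) = ∑ m ∈ Icc 1 K, b m * ee (m * α) := by
    intro α
    have hsub : Icc 1 K ⊆ range M := by
      intro m hm
      rw [Finset.mem_Icc] at hm
      rw [Finset.mem_range]
      omega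
    rw [← Finset.sum_subset hsub]
    · refine Finset.sum_congr rfl fun m hm => ?_
      rw [hb', if_pos hm]
    · intro m _ hm
      rw [hb', if_neg hm, zero_mul]
  have hBn : ∑ n ∈ range M, ‖b' n‖ ^ 2 = ∑ m ∈ Icc 1 K, ‖b m‖ ^ 2 := by
    have hsub : Icc 1 K ⊆ range M := by
      intro m hm
      rw [Finset.mem_Icc] at hm
      rw [Finset.mem_range]
      omega
    rw [← Finset.sum_subset hsub]
    · refine Finset.sum_congr rfl fun m hm => ?_
      rw [hb', if_pos hm]
    · intro m _ hm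
      rw [hb', if_neg hm, norm_zero]
      norm_num
  have hC : ∀ α : ℝ, ∑ N ∈ range M, c N * ee (N * α) =
      (∑ n ∈ Icc 1 L, a n * ee (n * α)) * ∑ m ∈ Icc 1 K, b m * ee (m * α) := by
    intro α
    rw [Finset.sum_mul_sum, ← Finset.sum_product',
      ← Finset.sum_fiberwise_of_maps_to (s := Icc 1 L ×ˢ Icc 1 K) (t := range M)
        (g := fun q => q.1 + q.2)]
    · refine Finset.sum_congr rfl fun N _ => ?_
      rw [hc, Finset.sum_mul]
      refine Finset.sum_congr rfl fun q hq => ?_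
      rw [Finset.mem_filter] at hq
      have h1 : ee (N * α) = ee (q.1 * α) * ee (q.2 * α) := by
        rw [← Pool.Agent.Wb58c63.ee_add, ← hq.2]
        congr 1
        push_cast
        ring
      rw [h1]
      ring
    · intro q hq
      rw [Finset.mem_product, Finset.mem_Icc, Finset.mem_Icc] at hq
      rw [Finset.mem_range]
      omega
  have hcN : ∀ N ∈ Icc 1 K, c N = ∑ m ∈ Icc 1 N, b m * a (N - m) := by
    intro N hN
    rw [Finset.mem_Icc] at hN
    rw [hc, ← Finset.sum_filter_add_sum_filter_not (Icc 1 N) (fun m => 1 ≤ N - m ∧ N - m ≤ L)]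
    have h0 : ∑ m ∈ (Icc 1 N).filter (fun m => ¬ (1 ≤ N - m ∧ N - m ≤ L)), b m * a (N - m) = 0 := by
      refine Finset.sum_eq_zero fun m hm => ?_
      rw [Finset.mem_filter, not_and_or, not_le, not_le] at hm
      rcases hm.2 with h | h
      · rw [show N - m = 0 by omega, ha0, mul_zero]
      · rw [ha _ h, mul_zero]
    rw [h0, add_zero]
    refine Finset.sum_bij (fun q _ => q.2) ?_ ?_ ?_ ?_
    · intro q hq
      rw [Finset.mem_filter, Finset.mem_product, Finset.mem_Icc, Finset.mem_Icc] at hq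
      rw [Finset.mem_filter, Finset.mem_Icc]
      omega
    · intro q hq q' hq' h
      rw [Finset.mem_filter] at hq hq'
      have h' : q.2 = q'.2 := h
      exact Prod.ext (by omega) h'
    · intro m hm
      rw [Finset.mem_filter, Finset.mem_Icc] at hm
      refine ⟨(N - m, m), ?_, rfl⟩
      rw [Finset.mem_filter, Finset.mem_product, Finset.mem_Icc, Finset.mem_Icc]
      simp only
      omega
    · intro q hq
      rw [Finset.mem_filter] at hq
      rw [show N - q.2 = q.1 by omega]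
      ring
  have h1 := CL_pars M hM c
  have h2 := CL_pars M hM b'
  rw [hBn] at h2
  have h3 : ∑ j ∈ range M, ‖∑ n ∈ range M, c n * ee (n * ((j : ℝ) / M))‖ ^ 2 ≤
      S ^ 2 * ∑ j ∈ range M, ‖∑ n ∈ range M, b' n * ee (n * ((j : ℝ) / M))‖ ^ 2 := by
    rw [Finset.mul_sum]
    refine Finset.sum_le_sum fun j _ => ?_
    rw [hC, hB, norm_mul, mul_pow]
    exact mul_le_mul_of_nonneg_right (pow_le_pow_left₀ (norm_nonneg _) (hS _) 2) (by positivity)
  rw [h1, h2] at h3
  have h4 : ∑ n ∈ range M, ‖c n‖ ^ 2 ≤ S ^ 2 * ∑ m ∈ Icc 1 K, ‖b m‖ ^ 2 := by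
    have h5 : (M : ℝ) * ∑ n ∈ range M, ‖c n‖ ^ 2 ≤ M * (S ^ 2 * ∑ m ∈ Icc 1 K, ‖b m‖ ^ 2) := by
      linarith
    exact le_of_mul_le_mul_left h5 hMr
  refine le_trans ?_ h4
  have hsub : Icc 1 K ⊆ range M := by
    intro m hm
    rw [Finset.mem_Icc] at hm
    rw [Finset.mem_range]
    omega
  rw [Finset.sum_congr rfl fun N hN => by rw [← hcN N hN]]
  exact Finset.sum_le_sum_of_subset_of_nonneg hsub fun _ _ _ => by positivity

end Pool.Agent.PSG
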