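import Pool.Agent.W_b58c63_h44.Df

/-!
# Basic facts on `EF`, `zb`, `ZR`, `mz`
-/

set_option autoImplicit false

noncomputable section

open Finset Complex

namespace Pool.Agent.PSG

theorem EFb_cases {q : ℕ} (χ : DirichletCharacter ℂ q) :
    (q = 0 ∧ EF χ = fun _ => 1) ∨ ∃ _ : NeZero q,
      ((χ = 1 ∧ EF χ = DirichletCharacter.LFunctionTrivChar₁ q) ∨
      (χ ≠ 1 ∧ EF χ = DirichletCharacter.LFunction χ)) := by
  classical
  by_cases h : q = 0
  · left
    refine ⟨h, ?_⟩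
    unfold EF
    rw [dif_pos h]
  · right
    refine ⟨⟨h⟩, ?_⟩
    by_cases h1 : χ = 1
    · left
      refine ⟨h1, ?_⟩
      unfold EF
      rw [dif_neg h, if_pos h1]
    · right
      refine ⟨h1, ?_⟩
      unfold EF
      rw [dif_neg h, if_neg h1]

/-- Proof. `differentiable_LFunctionTrivChar₁`, `DirichletCharacter.differentiable_LFunction`. -/
theorem EF_diff {q : ℕ} (χ : DirichletCharacter ℂ q) : Differentiable ℂ (EF χ) := by
  rcases EFb_cases χ with ⟨_, h⟩ | ⟨hn, ⟨_, h⟩ | ⟨h1, h⟩⟩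
  · rw [h]; exact differentiable_const _
  · rw [h]; exact DirichletCharacter.differentiable_LFunctionTrivChar₁ q
  · rw [h]; exact DirichletCharacter.differentiable_LFunction h1

/-- Proof. Definition of `EF`. -/
theorem EFb_eq_of_ne {q : ℕ} [NeZero q] (χ : DirichletCharacter ℂ q) (hχ : χ ≠ 1) : EF χ = DirichletCharacter.LFunction χ := by
  rcases EFb_cases χ with ⟨h0, _⟩ | ⟨hn, ⟨h1, h⟩ | ⟨h1, h⟩⟩
  · exact absurd h0 (NeZero.ne q)
  · exact absurd h1 hχ
  · rw [h]

theorem EFb_eq_one {q : ℕ} [NeZero q] (χ : DirichletCharacter ℂ q) (hχ : χ = 1) (s : ℂ) (hs : s ≠ 1) :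
    EF χ s = (s - 1) * DirichletCharacter.LFunction χ s := by
  rcases EFb_cases χ with ⟨h0, _⟩ | ⟨hn, ⟨h1, h⟩ | ⟨h1, h⟩⟩
  · exact absurd h0 (NeZero.ne q)
  · rw [h, DirichletCharacter.LFunctionTrivChar₁, Function.update_of_ne hs, hχ]
  · exact absurd hχ h1

/-- Proof. `LFunction_ne_zero_of_one_le_re`, `LFunctionTrivChar₁_apply_one_ne_zero`. -/
theorem EF_ne_zero {q : ℕ} (χ : DirichletCharacter ℂ q) (s : ℂ) (hs : 1 ≤ s.re) : EF χ s ≠ 0 := by
  rcases EFb_cases χ with ⟨_, h⟩ | ⟨hn, ⟨h1, h⟩ | ⟨h1, h⟩⟩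
  · rw [h]; exact one_ne_zero
  · by_cases hs1 : s = 1
    · rw [h, hs1]; exact DirichletCharacter.LFunctionTrivChar₁_apply_one_ne_zero q
    · rw [EFb_eq_one χ h1 s hs1]
      exact mul_ne_zero (sub_ne_zero.mpr hs1)
        (DirichletCharacter.LFunction_ne_zero_of_one_le_re χ (Or.inr hs1) hs)
  · rw [h]
    exact DirichletCharacter.LFunction_ne_zero_of_one_le_re χ (Or.inl h1) hs

/-- Proof. Definition of `EF`. -/
theorem EF_eq_of_ne {q : ℕ} [NeZero q] (χ : DirichletCharacter ℂ q) (hχ : χ ≠ 1) : EF χ = DirichletCharacter.LFunction χ :=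
  EFb_eq_of_ne χ hχ

/-- Proof. Definition of `EF`, `Function.update_of_ne`. -/
theorem EF_eq_one {q : ℕ} [NeZero q] (χ : DirichletCharacter ℂ q) (hχ : χ = 1) (s : ℂ) (hs : s ≠ 1) :
    EF χ s = (s - 1) * DirichletCharacter.LFunction χ s :=
  EFb_eq_one χ hχ s hs

theorem EFb_analytic (F : ℂ → ℂ) (hF : Differentiable ℂ F) : AnalyticOnNhd ℂ F Set.univ :=
  hF.differentiableOn.analyticOnNhd isOpen_univ

theorem EFb_ne_near (F : ℂ → ℂ) (hF : Differentiable ℂ F) (h : ∃ s, F s ≠ 0) (z : ℂ) :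
    ∀ᶠ w in nhdsWithin z {z}ᶜ, F w ≠ 0 := by
  rcases (EFb_analytic F hF z (Set.mem_univ z)).eventually_eq_zero_or_eventually_ne_zero with h1 | h1
  · exfalso
    obtain ⟨s, hs⟩ := h
    have h2 := (EFb_analytic F hF).eqOn_zero_of_preconnected_of_eventuallyEq_zero
      isPreconnected_univ (Set.mem_univ z) h1
    exact hs (h2 (Set.mem_univ s))
  · exact h1

/-- The zeros of a nonzero entire function in a compact set are finitely many.

Proof. If `F` is not identically zero its zeros are isolated (`AnalyticOnNhd.eqOn_zero_or_eventually_ne_zero_of_preconnected`,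
`preimage_zero_mem_codiscrete`), and a closed discrete subset of a compact set is finite. -/
theorem zeros_finite (F : ℂ → ℂ) (hF : Differentiable ℂ F) (h : ∃ s, F s ≠ 0) (K : Set ℂ) (hK : IsCompact K) :
    {ρ : ℂ | F ρ = 0 ∧ ρ ∈ K}.Finite := by
  by_contra hinf
  have hinf' : {ρ : ℂ | F ρ = 0 ∧ ρ ∈ K}.Infinite := hinf
  obtain ⟨z, _, hz⟩ := hinf'.exists_accPt_of_subset_isCompact hK (fun ρ hρ => hρ.2)
  have h1 := EFb_ne_near F hF h z
  rw [accPt_iff_frequently] at hz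
  apply hz
  rw [eventually_nhdsWithin_iff] at h1
  filter_upwards [h1] with w hw hw2
  exact hw hw2.1 hw2.2.1

/-- Proof. `zeros_finite` with the closed ball. -/
theorem mem_zb (F : ℂ → ℂ) (hF : Differentiable ℂ F) (h : ∃ s, F s ≠ 0) (s : ℂ) (R : ℝ) (ρ : ℂ) :
    ρ ∈ zb F s R ↔ F ρ = 0 ∧ ‖ρ - s‖ ≤ R := by
  have h1 : {ρ : ℂ | F ρ = 0 ∧ ‖ρ - s‖ ≤ R}.Finite := by
    have := zeros_finite F hF h (Metric.closedBall s R) (isCompact_closedBall s R)
    refine this.subset ?_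
    rintro ρ ⟨h1, h2⟩
    exact ⟨h1, by rwa [Metric.mem_closedBall, dist_eq_norm]⟩
  unfold zb
  rw [dif_pos h1, Set.Finite.mem_toFinset]
  exact Iff.rfl

/-- Proof. `zeros_finite` with the compact box `[1 - κ, 1] × [-T, T]`. -/
theorem mem_ZR (F : ℂ → ℂ) (hF : Differentiable ℂ F) (h : ∃ s, F s ≠ 0) (κ T : ℝ) (ρ : ℂ) :
    ρ ∈ ZR F κ T ↔ F ρ = 0 ∧ 1 - κ ≤ ρ.re ∧ ρ.re ≤ 1 ∧ |ρ.im| ≤ T := by
  have h1 : {ρ : ℂ | F ρ = 0 ∧ 1 - κ ≤ ρ.re ∧ ρ.re ≤ 1 ∧ |ρ.im| ≤ T}.Finite := by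
    have := zeros_finite F hF h (Set.Icc (1 - κ) 1 ×ℂ Set.Icc (-T) T)
      (isCompact_Icc.reProdIm isCompact_Icc)
    refine this.subset ?_
    rintro ρ ⟨h1, h2, h3, h4⟩
    refine ⟨h1, ?_⟩
    rw [Complex.mem_reProdIm]
    exact ⟨⟨h2, h3⟩, abs_le.mp h4⟩
  unfold ZR
  rw [dif_pos h1, Set.Finite.mem_toFinset]
  exact Iff.rfl

/-- Proof. The order of an analytic function, not identically zero near `ρ`, at a zero is finite and at least one
(`AnalyticAt.analyticOrderAt_ne_zero`, identity theorem for finiteness). -/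
theorem mz_pos (F : ℂ → ℂ) (hF : Differentiable ℂ F) (h : ∃ s, F s ≠ 0) (ρ : ℂ) (hρ : F ρ = 0) : 1 ≤ mz F ρ := by
  have ha := EFb_analytic F hF ρ (Set.mem_univ ρ)
  have h0 : analyticOrderAt F ρ ≠ 0 := ha.analyticOrderAt_ne_zero.mpr hρ
  have ht : analyticOrderAt F ρ ≠ ⊤ := by
    intro ht
    rw [analyticOrderAt_eq_top] at ht
    obtain ⟨s, hs⟩ := h
    have h2 := (EFb_analytic F hF).eqOn_zero_of_preconnected_of_eventuallyEq_zero
      isPreconnected_univ (Set.mem_univ ρ) ht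
    exact hs (h2 (Set.mem_univ s))
  unfold mz
  have h3 := Nat.cast_analyticOrderNatAt ht
  rcases Nat.eq_zero_or_pos (analyticOrderNatAt F ρ) with h4 | h4
  · rw [h4] at h3
    exact absurd h3.symm h0
  · exact h4

/-- For `χ` modulo `q` every zero of `EF χ` in `Re s > 0` which belongs to the principal character is a zero of the zeta function.

Proof. For `s ≠ 1`: `EF 1 s = (s - 1) ζ(s) ∏_{p ∣ q} (1 - p ^ (-s))` (`LFunctionTrivChar_eq_mul_riemannZeta`) and `p ^ (-s) ≠ 1` for `Re s > 0`;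
`EF 1 1 ≠ 0`. -/
theorem EF_zero_one {q : ℕ} [NeZero q] (s : ℂ) (hs : 0 < s.re) (h : EF (1 : DirichletCharacter ℂ q) s = 0) :
    riemannZeta s = 0 ∧ s ≠ 1 := by
  have hs1 : s ≠ 1 := by
    rintro rfl
    exact EF_ne_zero (1 : DirichletCharacter ℂ q) 1 (by simp) h
  refine ⟨?_, hs1⟩
  rw [EF_eq_one 1 rfl s hs1] at h
  have h1 : DirichletCharacter.LFunction (1 : DirichletCharacter ℂ q) s = 0 := by
    rcases mul_eq_zero.mp h with h | h
    · exact absurd (sub_eq_zero.mp h) hs1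
    · exact h
  have h2 := DirichletCharacter.LFunctionTrivChar_eq_mul_riemannZeta (N := q) hs1
  rw [DirichletCharacter.LFunctionTrivChar, h1] at h2
  rcases mul_eq_zero.mp h2.symm with h3 | h3
  · exfalso
    rw [Finset.prod_eq_zero_iff] at h3
    obtain ⟨p, hp, hp0⟩ := h3
    have hpp := Nat.prime_of_mem_primeFactors hp
    have h4 : ((p : ℂ) ^ (-s)) = 1 := (sub_eq_zero.mp hp0).symm
    have h5 : ‖((p : ℂ) ^ (-s))‖ = (p : ℝ) ^ (-s).re :=
      Complex.norm_natCast_cpow_of_pos hpp.pos _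
    rw [h4, norm_one, Complex.neg_re] at h5
    have h6 : (p : ℝ) ^ (-s.re) < 1 :=
      Real.rpow_lt_one_of_one_lt_of_neg (by exact_mod_cast hpp.one_lt) (by linarith)
    linarith
  · exact h3

/-- The zeta function has no zeros close to `1`.

Proof. `(s - 1) ζ(s)` extended by `1` at `s = 1` is entire (`LFunctionTrivChar₁ 1`) and nonzero at `1`, hence near `1` by continuity. -/
theorem zeta_near_one : ∃ r₁ : ℝ, 0 < r₁ ∧ r₁ ≤ 1 / 4 ∧ ∀ s : ℂ, ‖s - 1‖ ≤ 2 * r₁ → s ≠ 1 → riemannZeta s ≠ 0 := by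
  have h1 : EF (1 : DirichletCharacter ℂ 1) 1 ≠ 0 := EF_ne_zero _ 1 (by simp)
  have h2 : ContinuousAt (EF (1 : DirichletCharacter ℂ 1)) 1 :=
    (EF_diff (1 : DirichletCharacter ℂ 1)).continuous.continuousAt
  have h3 := h2.eventually_ne h1
  rw [Metric.eventually_nhds_iff] at h3
  obtain ⟨ε, hε, hh⟩ := h3
  refine ⟨min (ε / 4) (1 / 4), by positivity, min_le_right _ _, fun s hs hs1 hz => ?_⟩
  have h4 : dist s 1 < ε := by
    rw [dist_eq_norm]
    have := min_le_left (ε / 4) (1 / 4 : ℝ)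
    linarith
  apply hh h4
  rw [EF_eq_one 1 rfl s hs1, DirichletCharacter.LFunction_modOne_eq, hz, mul_zero]

theorem EFb_conj_val {q : ℕ} (χ : DirichletCharacter ℂ q) (h2 : χ ^ 2 = 1) (a : ZMod q) :
    (starRingEnd ℂ) (χ a) = χ a := by
  by_cases ha : IsUnit a
  · have h3 : (χ a) ^ 2 = 1 := by
      have := congrArg (fun ψ : DirichletCharacter ℂ q => ψ a) h2
      simpa [MulChar.pow_apply' χ (by norm_num : (2 : ℕ) ≠ 0), MulChar.one_apply ha] using this
    have h4 : (χ a - 1) * (χ a + 1) = 0 := by linear_combination h3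
    rcases mul_eq_zero.mp h4 with h | h
    · rw [sub_eq_zero.mp h, map_one]
    · rw [eq_neg_of_add_eq_zero_left h, map_neg, map_one]
  · rw [MulChar.map_nonunit χ ha, map_zero]

/-- Zeros of real characters are symmetric.

Proof. `χ ^ 2 = 1` gives `χ` real valued; `LFunction χ (conj s) = conj (LFunction χ s)` for `Re s > 1` by the series and everywhere by the
identity theorem (see `Pool.Agent.Wb58c63.sw_real` for a similar argument with partial sums in `Re s > 0`). -/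
theorem EF_conj {q : ℕ} (χ : DirichletCharacter ℂ q) (h2 : χ ^ 2 = 1) (s : ℂ) :
    EF χ ((starRingEnd ℂ) s) = (starRingEnd ℂ) (EF χ s) := by
  rcases Nat.eq_zero_or_pos q with h0 | h0
  · have : EF χ = fun _ => 1 := by
      unfold EF
      rw [dif_pos h0]
    rw [this]
    simp
  have : NeZero q := ⟨by omega⟩
  -- both sides entire
  let G : ℂ → ℂ := fun s => (starRingEnd ℂ) (EF χ ((starRingEnd ℂ) s))
  have hG : Differentiable ℂ G := by
    intro z
    have := (EF_diff χ ((starRingEnd ℂ) z)).conj_conj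
    rw [Complex.conj_conj] at this
    exact this
  have hL : ∀ z : ℂ, 1 < z.re → DirichletCharacter.LFunction χ ((starRingEnd ℂ) z) =
      (starRingEnd ℂ) (DirichletCharacter.LFunction χ z) := by
    intro z hz
    rw [DirichletCharacter.LFunction_eq_LSeries χ hz,
      DirichletCharacter.LFunction_eq_LSeries χ (by simpa using hz)]
    unfold LSeries
    rw [Complex.conj_tsum]
    apply tsum_congr
    intro n
    rcases Nat.eq_zero_or_pos n with hn | hn
    · subst hn; simp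
    · rw [LSeries.term_of_ne_zero (by omega), LSeries.term_of_ne_zero (by omega), map_div₀,
        EFb_conj_val χ h2]
      congr 1
      have harg : Complex.arg (n : ℂ) ≠ Real.pi := by
        rw [Complex.natCast_arg]
        exact Real.pi_ne_zero.symm
      rw [Complex.cpow_conj _ _ harg]
      simp
  have hE : ∀ z : ℂ, 1 < z.re → G z = EF χ z := by
    intro z hz
    have hz1 : z ≠ 1 := by rintro rfl; simp at hz
    have hz1' : (starRingEnd ℂ) z ≠ 1 := by
      intro h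
      apply hz1
      have := congrArg (starRingEnd ℂ) h
      simpa using this
    show (starRingEnd ℂ) (EF χ ((starRingEnd ℂ) z)) = EF χ z
    by_cases hχ : χ = 1
    · rw [EF_eq_one χ hχ z hz1, EF_eq_one χ hχ _ hz1', hL z hz]
      simp
    · rw [EF_eq_of_ne χ hχ, hL z hz]
      simp
  have h3 : G = EF χ := by
    apply AnalyticOnNhd.eq_of_eventuallyEq (𝕜 := ℂ) (z₀ := 2)
      (EFb_analytic G hG) (EFb_analytic _ (EF_diff χ))
    have : {z : ℂ | 1 < z.re} ∈ nhds (2 : ℂ) :=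
      (isOpen_lt continuous_const Complex.continuous_re).mem_nhds (by simp)
    filter_upwards [this] with z hz
    exact hE z hz
  have h4 := congrFun h3 s
  have h5 := congrArg (starRingEnd ℂ) h4
  simpa [G] using h5

end Pool.Agent.PSG
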