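import Pool.Agent.W_b58c63_h44.Wv
import Pool.Agent.W_b58c63_h44.EFb
import Pool.Agent.W_b58c63_h68.SgA
import Pool.Agent.W_b58c63_h68.SgAs

/-!
# Deuring-Heilbronn: the Dirichlet series of `1 * χ` twisted and restricted to multiples
-/

set_option autoImplicit false

noncomputable section

open Finset Complex MeasureTheory

namespace Pool.Agent.PSG

open Pool.Agent.Wb58c63 (chi12)

/-- The local density factor of the multiples of `D` in `ζ(s)`-type products `L(s, ψ) L(s, ψ χ)`. -/
def hD {r q : ℕ} (χ : DirichletCharacter ℂ r) (ψ : DirichletCharacter ℂ q) (D : ℕ) (s : ℂ) : ℂ :=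
  ∏ p ∈ D.primeFactors, (1 - (1 - ψ (p : ZMod q) * (p : ℂ) ^ (-s)) *
    (1 - ψ (p : ZMod q) * χ (p : ZMod r) * (p : ℂ) ^ (-s)))

/-- The smoothed sum of `(1 * χ)(n) ψ(n) n ^ (-s)` over the multiples of `D`. -/
def SS {r q : ℕ} (χ : DirichletCharacter ℂ r) (ψ : DirichletCharacter ℂ q) (s : ℂ) (D : ℕ) (Z : ℝ) : ℂ :=
  ∑ n ∈ Icc 1 ⌊2 * Z⌋₊, if D ∣ n then χ.zetaMul n * ψ (n : ZMod q) * (n : ℂ) ^ (-s) * (ww (n / Z) : ℂ) else 0

theorem DHa_pmul {r q : ℕ} (χ : DirichletCharacter ℂ r) (ψ : DirichletCharacter ℂ q) :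
    ArithmeticFunction.pmul (toArithmeticFunction (fun n : ℕ => ψ (n : ZMod q))) χ.zetaMul
      = toArithmeticFunction (fun n : ℕ => ψ (n : ZMod q))
        * toArithmeticFunction (fun n : ℕ => chi12 ψ χ (n : ZMod (q * r))) := by
  rw [Pool.Agent.Wb58c63.SgAs_pmul]
  congr 2
  funext n
  rw [Pool.Agent.Wb58c63.chi12_apply, Pool.Agent.Wb58c63.chi12_apply, mul_comm]

theorem DHa_term {r q : ℕ} (χ : DirichletCharacter ℂ r) (ψ : DirichletCharacter ℂ q) (s : ℂ) (n : ℕ) :
    LSeries.term (ArithmeticFunction.pmul (toArithmeticFunction (fun n : ℕ => ψ (n : ZMod q))) χ.zetaMul) s n =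
    χ.zetaMul n * ψ (n : ZMod q) * (n : ℂ) ^ (-s) := by
  rw [LSeries.term_def₀ (by simp)]
  rcases eq_or_ne n 0 with rfl | hn
  · simp
  rw [ArithmeticFunction.pmul_apply, Pool.Agent.Wb58c63.SgAs_toAF ψ hn]
  ring

theorem DHa_one {r q : ℕ} [NeZero r] [NeZero q] (χ : DirichletCharacter ℂ r) (ψ : DirichletCharacter ℂ q)
    (s : ℂ) (hs : 1 < s.re) :
    HasSum (fun n : ℕ => χ.zetaMul n * ψ (n : ZMod q) * (n : ℂ) ^ (-s))
      (DirichletCharacter.LFunction ψ s * DirichletCharacter.LFunction (chi12 ψ χ) s) := by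
  have : NeZero (q * r) := ⟨mul_ne_zero (NeZero.ne q) (NeZero.ne r)⟩
  have hψ := Pool.Agent.Wb58c63.SgAs_char ψ hs
  have h12 := Pool.Agent.Wb58c63.SgAs_char (chi12 ψ χ) hs
  have hsum := ArithmeticFunction.LSeriesSummable_mul hψ.1 h12.1
  have hval := ArithmeticFunction.LSeries_mul' hψ.1 h12.1
  rw [← DHa_pmul] at hsum hval
  rw [hψ.2, h12.2] at hval
  have h : HasSum (LSeries.term _ s) (LSeries _ s) := hsum.hasSum
  rw [hval] at h
  have e : LSeries.term (ArithmeticFunction.pmul (toArithmeticFunction (fun n : ℕ => ψ (n : ZMod q))) χ.zetaMul) s =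
      fun n : ℕ => χ.zetaMul n * ψ (n : ZMod q) * (n : ℂ) ^ (-s) := funext fun n => DHa_term χ ψ s n
  rwa [e] at h

theorem DHa_level {N : ℕ} [NeZero N] (ψ : DirichletCharacter ℂ N) (p M : ℕ) (hp : p.Prime) [NeZero M] (hM : N ∣ M)
    (hM2 : ∀ l, l.Prime → l ∣ M → l = p ∨ l ∣ N) (hpM : p ∣ M) (s : ℂ) (hs : s ≠ 1) :
    DirichletCharacter.LFunction (DirichletCharacter.changeLevel hM ψ) s =
      DirichletCharacter.LFunction ψ s * (1 - ψ (p : ZMod N) * (p : ℂ) ^ (-s)) := by
  rw [DirichletCharacter.LFunction_changeLevel hM ψ (Or.inr hs)]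
  congr 1
  rw [Finset.prod_eq_single p]
  · intro l hl hlp
    have hl' := Nat.prime_of_mem_primeFactors hl
    rcases hM2 l hl' (Nat.dvd_of_mem_primeFactors hl) with h | h
    · exact absurd h hlp
    · have : ψ (l : ZMod N) = 0 := by
        apply ψ.map_nonunit
        rw [ZMod.isUnit_iff_coprime]
        intro hc
        have := Nat.Coprime.eq_one_of_dvd hc h
        exact hl'.one_lt.ne' this
      rw [this, zero_mul, sub_zero]
  · intro h
    exact absurd (Nat.mem_primeFactors.2 ⟨hp, hpM, NeZero.ne M⟩) h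

theorem DHa_chval {q : ℕ} (ψ : DirichletCharacter ℂ q) (p : ℕ) (hp : p.Prime) (n : ℕ) :
    DirichletCharacter.changeLevel (dvd_mul_right q p) ψ (n : ZMod (q * p)) = if p ∣ n then 0 else ψ (n : ZMod q) := by
  split_ifs with h
  · apply MulChar.map_nonunit
    rw [ZMod.isUnit_iff_coprime, Nat.coprime_mul_iff_right, not_and_or]
    right
    intro hc
    have := Nat.Coprime.eq_one_of_dvd hc.symm h
    exact hp.one_lt.ne' this
  · have hpn : Nat.Coprime n p := ((Nat.Prime.coprime_iff_not_dvd hp).2 h).symm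
    by_cases hc : Nat.Coprime n q
    · have hi : IsCoprime (n : ℤ) ((q * p : ℕ) : ℤ) := Nat.isCoprime_iff_coprime.mpr (Nat.Coprime.mul_right hc hpn)
      have e1 := DirichletCharacter.changeLevel_eq_cast_of_dvd' (χ := ψ) (dvd_mul_right q p) hi
      simpa only [Int.cast_natCast] using e1
    · rw [ψ.map_nonunit (by rwa [ZMod.isUnit_iff_coprime])]
      apply MulChar.map_nonunit
      rw [ZMod.isUnit_iff_coprime, Nat.coprime_mul_iff_right, not_and_or]
      exact Or.inl hc

theorem DHa_chi12 {r q : ℕ} (χ : DirichletCharacter ℂ r) (ψ : DirichletCharacter ℂ q) (p : ℕ)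
    (h : q * r ∣ q * p * r) :
    chi12 (DirichletCharacter.changeLevel (dvd_mul_right q p) ψ) χ = DirichletCharacter.changeLevel h (chi12 ψ χ) := by
  unfold Pool.Agent.Wb58c63.chi12
  rw [map_mul]
  congr 1
  · rw [← DirichletCharacter.changeLevel_trans, ← DirichletCharacter.changeLevel_trans]
  · rw [← DirichletCharacter.changeLevel_trans]

/-- **The Dirichlet series over the multiples of `D`.**

Proof. For `k ∣ D`: the sum over the `n` prime to `k` is the product of the series of `ψ(n) [(n, k) = 1]` and `ψ(n) χ(n) [(n, k) = 1]` (Dirichlet convolution of completely multiplicative functions; `LSeries_convolution`), which is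
`L(s, ψ) L(s, ψ χ) ∏_{p ∣ k} (1 - ψ(p) p ^ (-s)) (1 - ψ(p) χ(p) p ^ (-s))` (Euler factors: `DirichletCharacter.LFunction_changeLevel` or `LSeries_changeLevel`; or directly by inclusion-exclusion on the absolutely convergent series). For squarefree `D`,
`[D ∣ n] = ∑_{k ∣ D} μ(k) [(n, k) = 1]` and `∏_{p ∣ D} (1 - E_p) = ∑_{k ∣ D} μ(k) ∏_{p ∣ k} E_p` (`Finset.prod_one_sub`-type expansion, `Nat.Coprime` and divisors of squarefree numbers = products of subsets of the prime factors). The values of `chi12 ψ χ` are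
`chi12_apply`. -/
theorem dh_series {r q : ℕ} [NeZero r] [NeZero q] (χ : DirichletCharacter ℂ r) (ψ : DirichletCharacter ℂ q) (D : ℕ) (hD' : Squarefree D)
    (s : ℂ) (hs : 1 < s.re) :
    HasSum (fun n : ℕ => if D ∣ n then χ.zetaMul n * ψ (n : ZMod q) * (n : ℂ) ^ (-s) else 0)
      (DirichletCharacter.LFunction ψ s * DirichletCharacter.LFunction (chi12 ψ χ) s * hD χ ψ D s) := by
  have hs1 : s ≠ 1 := by rintro rfl; simp at hs
  induction D using Nat.strong_induction_on generalizing q ψ with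
  | _ D ih =>
    by_cases h1 : D = 1
    · subst h1
      unfold hD
      simp only [isUnit_one, IsUnit.dvd, if_true, Nat.primeFactors_one, Finset.prod_empty, mul_one]
      exact DHa_one χ ψ s hs
    · set p := D.minFac with hpdef
      have hp : p.Prime := Nat.minFac_prime h1
      obtain ⟨D', hD'e⟩ : p ∣ D := Nat.minFac_dvd D
      have hD0 : D ≠ 0 := hD'.ne_zero
      have hD'0 : D' ≠ 0 := by rintro rfl; simp at hD'e; exact hD0 hD'e
      have hcop : Nat.Coprime p D' := by
        rw [hD'e] at hD'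
        exact Nat.coprime_of_squarefree_mul hD'
      have hsq : Squarefree D' := by
        rw [hD'e] at hD'
        exact hD'.of_mul_right
      have hlt : D' < D := by
        rw [hD'e]
        have := hp.two_le
        nlinarith [Nat.pos_of_ne_zero hD'0]
      have : NeZero p := ⟨hp.ne_zero⟩
      have : NeZero (q * p) := ⟨mul_ne_zero (NeZero.ne q) (NeZero.ne p)⟩
      have : NeZero (q * r) := ⟨mul_ne_zero (NeZero.ne q) (NeZero.ne r)⟩
      have : NeZero (q * p * r) := ⟨mul_ne_zero (NeZero.ne (q * p)) (NeZero.ne r)⟩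
      have ha := ih D' hlt ψ hsq
      have hb := ih D' hlt (DirichletCharacter.changeLevel (dvd_mul_right q p) ψ) hsq
      have hdv : q * r ∣ q * p * r := ⟨p, by ring⟩
      have hL1 : DirichletCharacter.LFunction (DirichletCharacter.changeLevel (dvd_mul_right q p) ψ) s =
          DirichletCharacter.LFunction ψ s * (1 - ψ (p : ZMod q) * (p : ℂ) ^ (-s)) := by
        refine DHa_level ψ p (q * p) hp _ ?_ (dvd_mul_left p q) s hs1
        intro l hl hlM
        rcases (Nat.Prime.dvd_mul hl).1 hlM with h | h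
        · exact Or.inr h
        · exact Or.inl ((Nat.prime_dvd_prime_iff_eq hl hp).1 h)
      have hL2 : DirichletCharacter.LFunction (chi12 (DirichletCharacter.changeLevel (dvd_mul_right q p) ψ) χ) s =
          DirichletCharacter.LFunction (chi12 ψ χ) s * (1 - ψ (p : ZMod q) * χ (p : ZMod r) * (p : ℂ) ^ (-s)) := by
        rw [DHa_chi12 χ ψ p hdv, ← Pool.Agent.Wb58c63.chi12_apply]
        refine DHa_level (chi12 ψ χ) p (q * p * r) hp _ ?_ (Dvd.dvd.mul_right (dvd_mul_left p q) r) s hs1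
        intro l hl hlM
        rcases (Nat.Prime.dvd_mul hl).1 hlM with h | h
        · rcases (Nat.Prime.dvd_mul hl).1 h with h | h
          · exact Or.inr (Dvd.dvd.mul_right h r)
          · exact Or.inl ((Nat.prime_dvd_prime_iff_eq hl hp).1 h)
        · exact Or.inr (Dvd.dvd.mul_left h q)
      have hh : hD χ (DirichletCharacter.changeLevel (dvd_mul_right q p) ψ) D' s = hD χ ψ D' s := by
        unfold hD
        refine Finset.prod_congr rfl fun l hl => ?_
        have hl' := Nat.prime_of_mem_primeFactors hl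
        have hne : ¬ p ∣ l := by
          intro hc
          have e := (Nat.prime_dvd_prime_iff_eq hp hl').1 hc
          have h3 := Nat.dvd_of_mem_primeFactors hl
          rw [← e] at h3
          exact hp.one_lt.ne' (Nat.Coprime.eq_one_of_dvd hcop h3)
        rw [DHa_chval ψ p hp l, if_neg hne]
      have hprod : hD χ ψ D s = (1 - (1 - ψ (p : ZMod q) * (p : ℂ) ^ (-s)) *
          (1 - ψ (p : ZMod q) * χ (p : ZMod r) * (p : ℂ) ^ (-s))) * hD χ ψ D' s := by
        unfold hD
        rw [hD'e, Nat.Coprime.primeFactors_mul hcop, hp.primeFactors, Finset.prod_union, Finset.prod_singleton]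
        rw [← hp.primeFactors]
        exact Nat.Coprime.disjoint_primeFactors hcop
      have hsub := ha.sub hb
      rw [hL1, hL2, hh] at hsub
      rw [hprod]
      have hv : DirichletCharacter.LFunction ψ s * DirichletCharacter.LFunction (chi12 ψ χ) s * hD χ ψ D' s -
          DirichletCharacter.LFunction ψ s * (1 - ψ (p : ZMod q) * (p : ℂ) ^ (-s)) *
          (DirichletCharacter.LFunction (chi12 ψ χ) s * (1 - ψ (p : ZMod q) * χ (p : ZMod r) * (p : ℂ) ^ (-s))) *
          hD χ ψ D' s = DirichletCharacter.LFunction ψ s * DirichletCharacter.LFunction (chi12 ψ χ) s *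
          ((1 - (1 - ψ (p : ZMod q) * (p : ℂ) ^ (-s)) *
          (1 - ψ (p : ZMod q) * χ (p : ZMod r) * (p : ℂ) ^ (-s))) * hD χ ψ D' s) := by ring
      rw [hv] at hsub
      have e : (fun n : ℕ => if D ∣ n then χ.zetaMul n * ψ (n : ZMod q) * (n : ℂ) ^ (-s) else 0) =
          fun n : ℕ => (if D' ∣ n then χ.zetaMul n * ψ (n : ZMod q) * (n : ℂ) ^ (-s) else 0) -
            (if D' ∣ n then χ.zetaMul n * DirichletCharacter.changeLevel (dvd_mul_right q p) ψ (n : ZMod (q * p)) *
              (n : ℂ) ^ (-s) else 0) := by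
        funext n
        rw [DHa_chval ψ p hp n]
        have hdiv : D ∣ n ↔ p ∣ n ∧ D' ∣ n := by
          constructor
          · intro h
            rw [hD'e] at h
            exact ⟨dvd_of_mul_right_dvd h, dvd_of_mul_left_dvd h⟩
          · intro h
            rw [hD'e]
            exact hcop.mul_dvd_of_dvd_of_dvd h.1 h.2
        by_cases h1 : D' ∣ n <;> by_cases h2 : p ∣ n <;> simp [hdiv, h1, h2]
      rw [e]
      exact hsub

/-- The bound of the local factors.

Proof. Every factor is `x + y - x y` with `‖x‖, ‖y‖ ≤ p ^ (-σ) ≤ 1`, at most `3 p ^ (-σ)`. -/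
theorem hD_le {r q : ℕ} (χ : DirichletCharacter ℂ r) (ψ : DirichletCharacter ℂ q) (D : ℕ) (hD' : Squarefree D)
    (s : ℂ) (hs : 0 ≤ s.re) : ‖hD χ ψ D s‖ ≤ 3 ^ D.primeFactors.card * (D : ℝ) ^ (-s.re) := by
  unfold hD
  have h1 : (D : ℝ) ^ (-s.re) = ∏ p ∈ D.primeFactors, (p : ℝ) ^ (-s.re) := by
    rw [Real.finsetProd_rpow _ _ (fun p _ => Nat.cast_nonneg p)]
    congr 1
    rw [← Nat.cast_prod, Nat.prod_primeFactors_of_squarefree hD']
  rw [h1, ← Finset.prod_const, ← Finset.prod_mul_distrib, norm_prod]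
  refine Finset.prod_le_prod (fun _ _ => norm_nonneg _) fun p hp => ?_
  have hp' := Nat.prime_of_mem_primeFactors hp
  have hp1 : (1 : ℝ) ≤ p := by exact_mod_cast hp'.one_lt.le
  have hn : ‖(p : ℂ) ^ (-s)‖ = (p : ℝ) ^ (-s.re) := by
    rw [Complex.norm_natCast_cpow_of_pos hp'.pos, neg_re]
  have hle : (p : ℝ) ^ (-s.re) ≤ 1 := Real.rpow_le_one_of_one_le_of_nonpos hp1 (by linarith)
  have hpos : 0 ≤ (p : ℝ) ^ (-s.re) := by positivity
  set x := ψ (p : ZMod q) * (p : ℂ) ^ (-s) with hx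
  set y := ψ (p : ZMod q) * χ (p : ZMod r) * (p : ℂ) ^ (-s) with hy
  have hxn : ‖x‖ ≤ (p : ℝ) ^ (-s.re) := by
    rw [hx, norm_mul, hn]
    exact mul_le_of_le_one_left hpos (DirichletCharacter.norm_le_one _ _)
  have hyn : ‖y‖ ≤ (p : ℝ) ^ (-s.re) := by
    rw [hy, norm_mul, norm_mul, hn]
    exact mul_le_of_le_one_left hpos (mul_le_one₀ (DirichletCharacter.norm_le_one _ _) (norm_nonneg _)
      (DirichletCharacter.norm_le_one _ _))
  have e : 1 - (1 - x) * (1 - y) = x + y - x * y := by ring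
  rw [e]
  calc ‖x + y - x * y‖ ≤ ‖x‖ + ‖y‖ + ‖x‖ * ‖y‖ := by
        refine (norm_sub_le _ _).trans ?_
        rw [norm_mul]
        linarith [norm_add_le x y]
    _ ≤ 3 * (p : ℝ) ^ (-s.re) := by
        have : ‖x‖ * ‖y‖ ≤ (p : ℝ) ^ (-s.re) * 1 := mul_le_mul hxn (hyn.trans hle) (norm_nonneg _) hpos
        linarith

theorem DHa_int : Integrable (fun y : ℝ => VV (1 + y * I) / (1 + y * I)) := by
  obtain ⟨A, _, hA⟩ := vv_isW 2
  have h := mellin_vert A 1 _ hA 1 (by norm_num) (by norm_num)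
  have h' : Integrable (fun y : ℝ => VV (1 + y * I)) := by
    have e : (fun y : ℝ => VV (1 + y * I)) = fun y : ℝ => mellin (fun x : ℝ => (vv x : ℂ)) (((1 : ℝ) : ℂ) + y * I) := by
      funext y; unfold VV; push_cast; rfl
    rw [e]; exact h
  have e : (fun y : ℝ => VV (1 + y * I) / (1 + y * I)) = fun y : ℝ => VV (1 + y * I) * (1 / (1 + y * I)) := by
    funext y; ring
  have hre : ∀ y : ℝ, ((1 : ℂ) + y * I).re = 1 := fun y => by simp
  rw [e]
  refine h'.mul_bdd (c := 1) ?_ ?_
  · refine (Continuous.div continuous_const (by fun_prop) fun y hy => ?_).aestronglyMeasurable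
    have := hre y
    rw [hy] at this
    simp at this
  · refine Filter.Eventually.of_forall fun y => ?_
    rw [norm_div, norm_one]
    have h2 := Complex.abs_re_le_norm ((1 : ℂ) + y * I)
    rw [hre y, abs_one] at h2
    rw [div_le_one (by linarith)]
    exact h2

theorem DHa_cpow (Z : ℝ) (hZ : 0 < Z) (n : ℕ) (hn : 1 ≤ n) (z : ℂ) :
    (((Z / n : ℝ) : ℂ)) ^ z = (Z : ℂ) ^ z * (n : ℂ) ^ (-z) := by
  have hn0 : (0 : ℝ) < n := by exact_mod_cast hn
  have e1 : ((Z / n : ℝ) : ℂ) = (Z : ℂ) * (((n : ℝ)⁻¹ : ℝ) : ℂ) := by push_cast; rfl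
  rw [e1, Complex.mul_cpow_ofReal_nonneg hZ.le (by positivity)]
  congr 1
  have e2 : (((n : ℝ)⁻¹ : ℝ) : ℂ) = (n : ℂ)⁻¹ := by push_cast; rfl
  rw [e2, Complex.inv_cpow, Complex.cpow_neg]
  rw [Complex.natCast_arg]
  exact Real.pi_pos.ne

/-- **The contour integral.**

Proof. `ww (n / Z) = (1 / 2 π) ∫ (Z / n) ^ z VV z / z dy`, `z = 1 + i y` (`ww_mellin` with `T = Z / n`); exchange sum and integral (for `Re (s + z) > 1` the series of `dh_series` at `s + z` converges absolutely, uniformly in `y`, and `VV z / z` is integrable on the line); the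
terms `n > 2 Z` vanish on the left because `ww (n / Z) = 0`. -/
theorem SS_int {r q : ℕ} [NeZero r] [NeZero q] (χ : DirichletCharacter ℂ r) (ψ : DirichletCharacter ℂ q) (D : ℕ) (hD' : Squarefree D)
    (s : ℂ) (hs : 1 / 2 ≤ s.re) (Z : ℝ) (hZ : 1 ≤ Z) :
    SS χ ψ s D Z = (1 / (2 * Real.pi) : ℂ) * ∫ y : ℝ, DirichletCharacter.LFunction ψ (s + (1 + y * I)) *
      DirichletCharacter.LFunction (chi12 ψ χ) (s + (1 + y * I)) * hD χ ψ D (s + (1 + y * I)) *
      (Z : ℂ) ^ ((1 : ℂ) + y * I) * VV (1 + y * I) / (1 + y * I) := by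
  have hZ0 : 0 < Z := by linarith
  set c : ℕ → ℂ := fun n => if D ∣ n then χ.zetaMul n * ψ (n : ZMod q) * (n : ℂ) ^ (-s) else 0 with hc
  have hc0 : c 0 = 0 := by
    rw [hc]; simp
  set F : ℕ → ℝ → ℂ := fun n y => c n * ((((Z / n : ℝ) : ℂ)) ^ ((1 : ℂ) + y * I) * (VV (1 + y * I) / (1 + y * I))) with hF
  have hnorm : ∀ n : ℕ, 1 ≤ n → ∀ y : ℝ, ‖(((Z / n : ℝ) : ℂ)) ^ ((1 : ℂ) + y * I)‖ = Z / n := by
    intro n hn y
    have hn0 : (0 : ℝ) < n := by exact_mod_cast hn
    rw [Complex.norm_cpow_eq_rpow_re_of_pos (by positivity)]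
    simp
  have hint : ∀ n, Integrable (F n) := by
    intro n
    rcases Nat.eq_zero_or_pos n with rfl | hn
    · have : F 0 = fun _ => 0 := by funext y; rw [hF]; simp [hc0]
      rw [this]; exact integrable_zero _ _ _
    · have hn0 : (0 : ℝ) < n := by exact_mod_cast hn
      refine Integrable.const_mul ?_ _
      refine DHa_int.bdd_mul (c := Z / n) ?_ ?_
      · have hne : (((Z / n : ℝ) : ℂ)) ≠ 0 := by
          have : Z / (n : ℝ) ≠ 0 := by positivity
          exact_mod_cast this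
        have hcont : Continuous (fun y : ℝ => (((Z / n : ℝ) : ℂ)) ^ ((1 : ℂ) + y * I)) :=
          Continuous.const_cpow (by fun_prop) (Or.inl hne)
        exact hcont.aestronglyMeasurable
      · exact Filter.Eventually.of_forall fun y => (hnorm n hn y).le
  have hsumm : Summable (fun n => ∫ y, ‖F n y‖) := by
    have h1 := (DHa_one χ ψ (s + 1) (by simp; linarith)).summable.norm
    have h2 : Summable (fun n : ℕ => ‖χ.zetaMul n * ψ (n : ZMod q) * (n : ℂ) ^ (-(s + 1))‖ *
        (Z * ∫ y : ℝ, ‖VV (1 + y * I) / (1 + y * I)‖)) := h1.mul_right _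
    refine Summable.of_nonneg_of_le (fun n => integral_nonneg fun y => norm_nonneg _) (fun n => ?_) h2
    rcases Nat.eq_zero_or_pos n with rfl | hn
    · have : ∀ y, F 0 y = 0 := fun y => by rw [hF]; simp [hc0]
      simp only [this, norm_zero, integral_zero]
      have : 0 ≤ ∫ y : ℝ, ‖VV (1 + y * I) / (1 + y * I)‖ := integral_nonneg fun y => norm_nonneg _
      positivity
    · have hn0 : (0 : ℝ) < n := by exact_mod_cast hn
      have hn0' : (n : ℂ) ≠ 0 := by exact_mod_cast hn0.ne'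
      have e : ∀ y : ℝ, ‖F n y‖ = ‖c n‖ * (Z / n) * ‖VV (1 + y * I) / (1 + y * I)‖ := by
        intro y
        rw [hF]
        simp only
        rw [norm_mul, norm_mul, hnorm n hn y]
        ring
      simp only [e]
      rw [integral_const_mul]
      have hcn : ‖c n‖ * (1 / n) ≤ ‖χ.zetaMul n * ψ (n : ZMod q) * (n : ℂ) ^ (-(s + 1))‖ := by
        have e3 : (n : ℂ) ^ (-(s + 1)) = (n : ℂ) ^ (-s) * (n : ℂ)⁻¹ := by
          rw [neg_add, cpow_add _ _ hn0', cpow_neg_one]
        rw [e3, ← mul_assoc, norm_mul, norm_inv, norm_natCast, one_div]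
        refine mul_le_mul_of_nonneg_right ?_ (by positivity)
        rw [hc]
        simp only
        split_ifs
        · exact le_rfl
        · rw [norm_zero]; exact norm_nonneg _
      have hJ : 0 ≤ ∫ y : ℝ, ‖VV (1 + y * I) / (1 + y * I)‖ := integral_nonneg fun y => norm_nonneg _
      calc ‖c n‖ * (Z / n) * ∫ y : ℝ, ‖VV (1 + y * I) / (1 + y * I)‖
          = (‖c n‖ * (1 / n)) * (Z * ∫ y : ℝ, ‖VV (1 + y * I) / (1 + y * I)‖) := by ring
        _ ≤ _ := mul_le_mul_of_nonneg_right hcn (by positivity)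
  have hmain := hasSum_integral_of_summable_integral_norm hint hsumm
  have hpi : (Real.pi : ℂ) ≠ 0 := by exact_mod_cast Real.pi_ne_zero
  have hFint : ∀ n : ℕ, ∫ y, F n y = c n * (2 * Real.pi * (ww (n / Z) : ℂ)) := by
    intro n
    rcases Nat.eq_zero_or_pos n with rfl | hn
    · have : ∀ y, F 0 y = 0 := fun y => by rw [hF]; simp [hc0]
      simp only [this, integral_zero, hc0, zero_mul]
    · have hn0 : (0 : ℝ) < n := by exact_mod_cast hn
      rw [hF]
      simp only
      rw [integral_const_mul]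
      congr 1
      have h := ww_mellin 1 one_pos (by norm_num) (Z / n) (by positivity)
      rw [one_div_div] at h
      rw [← h, ofReal_one]
      have e : ∀ y : ℝ, (((Z / n : ℝ) : ℂ)) ^ ((1 : ℂ) + y * I) * (VV (1 + y * I) / (1 + y * I)) =
        (((Z / n : ℝ) : ℂ)) ^ ((1 : ℂ) + y * I) * VV (1 + y * I) / (1 + y * I) := fun y => by ring
      simp only [e]
      rw [← mul_assoc, mul_one_div_cancel (mul_ne_zero two_ne_zero hpi), one_mul]
  have htsum : ∀ y : ℝ, ∑' n, F n y = DirichletCharacter.LFunction ψ (s + (1 + y * I)) *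
      DirichletCharacter.LFunction (chi12 ψ χ) (s + (1 + y * I)) * hD χ ψ D (s + (1 + y * I)) *
      (Z : ℂ) ^ ((1 : ℂ) + y * I) * VV (1 + y * I) / (1 + y * I) := by
    intro y
    have h := (dh_series χ ψ D hD' (s + (1 + y * I)) (by simp; linarith)).mul_right
      ((Z : ℂ) ^ ((1 : ℂ) + y * I) * (VV (1 + y * I) / (1 + y * I)))
    have e : (fun n : ℕ => (if D ∣ n then χ.zetaMul n * ψ (n : ZMod q) * (n : ℂ) ^ (-(s + (1 + y * I))) else 0) *
        ((Z : ℂ) ^ ((1 : ℂ) + y * I) * (VV (1 + y * I) / (1 + y * I)))) = fun n => F n y := by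
      funext n
      rcases Nat.eq_zero_or_pos n with rfl | hn
      · rw [hF]; simp [hc0]
      · have hn0' : (n : ℂ) ≠ 0 := by exact_mod_cast (by omega : n ≠ 0)
        rw [hF, hc]
        simp only
        rw [DHa_cpow Z hZ0 n hn, neg_add, cpow_add _ _ hn0']
        split_ifs
        · ring
        · ring
    rw [e] at h
    rw [h.tsum_eq]
    ring
  simp only [htsum, hFint] at hmain
  have hfin : HasSum (fun n : ℕ => c n * (2 * Real.pi * (ww (n / Z) : ℂ)))
      (∑ n ∈ Icc 1 ⌊2 * Z⌋₊, c n * (2 * Real.pi * (ww (n / Z) : ℂ))) := by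
    refine hasSum_sum_of_ne_finset_zero fun n hn => ?_
    rcases Nat.eq_zero_or_pos n with rfl | hn0
    · rw [hc0, zero_mul]
    · have h2 : ⌊2 * Z⌋₊ < n := by
        by_contra hcon
        exact hn (Finset.mem_Icc.2 ⟨hn0, not_lt.1 hcon⟩)
      have h3 : 2 * Z < n := (Nat.floor_lt (by positivity)).1 h2
      have h4 : ww (n / Z) = 0 := ww_facts.2.2 _ (by rw [le_div_iff₀ hZ0]; exact h3.le)
      rw [h4]; simp
  rw [← hfin.unique hmain]
  unfold SS
  rw [Finset.mul_sum]
  refine Finset.sum_congr rfl fun n _ => ?_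
  rw [hc]
  simp only
  split_ifs
  · field_simp
  · simp

end Pool.Agent.PSG
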