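import Pool.Agent.W_b58c63_h44.Df
import Pool.Agent.W_b58c63_h68.SUbB

/-!
# Partial sums of L-series in the half plane `Re s > 0`
-/

set_option autoImplicit false

noncomputable section

open Finset Complex

namespace Pool.Agent.PSG

/-! ### Auxiliary statements -/

/-- Mean value inequality for complex powers. -/
theorem LTend_mv (r : ℂ) (hr : r.re ≤ 1) {x y : ℝ} (hx : 0 < x) (hxy : x ≤ y) :
    ‖(y : ℂ) ^ r - (x : ℂ) ^ r‖ ≤ ‖r‖ * x ^ (r.re - 1) * (y - x) := by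
  by_cases hr0 : r = 0
  · rw [hr0]
    simp
  have h := Convex.norm_image_sub_le_of_norm_hasDerivWithin_le
    (f := fun y : ℝ => (y : ℂ) ^ r) (f' := fun y : ℝ => r * (y : ℂ) ^ (r - 1))
    (C := ‖r‖ * x ^ (r.re - 1)) (s := Set.Icc x y) (x := x) (y := y)
    (fun z hz => (hasDerivAt_ofReal_cpow_const (lt_of_lt_of_le hx hz.1).ne' hr0).hasDerivWithinAt)
    (fun z hz => by
      have hz0 : 0 < z := lt_of_lt_of_le hx hz.1
      rw [norm_mul, Complex.norm_cpow_eq_rpow_re_of_pos hz0]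
      refine mul_le_mul_of_nonneg_left ?_ (norm_nonneg _)
      rw [Complex.sub_re, Complex.one_re]
      exact Real.rpow_le_rpow_of_nonpos hx hz.1 (by linarith))
    (convex_Icc _ _) ⟨le_rfl, hxy⟩ ⟨hxy, le_rfl⟩
  rw [Real.norm_of_nonneg (sub_nonneg.2 hxy)] at h
  exact h

/-- The terms of the series for `(s - 1) ζ(s)`. -/
def LTend_F (n : ℕ) (s : ℂ) : ℂ :=
  (s - 1) * ((n + 2 : ℕ) : ℂ) ^ (-s) + ((n + 2 : ℕ) : ℂ) ^ (1 - s) - ((n + 1 : ℕ) : ℂ) ^ (1 - s)

theorem LTend_F_bd (n : ℕ) {s : ℂ} (hs : 0 < s.re) :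
    ‖LTend_F n s‖ ≤ ‖s - 1‖ * ‖s‖ * ((n + 1 : ℕ) : ℝ) ^ (-s.re - 1) := by
  by_cases h1 : s = 1
  · rw [h1]
    unfold LTend_F
    simp
  have hn : (0 : ℝ) < ((n + 1 : ℕ) : ℝ) := by positivity
  have hr1 : (1 : ℂ) - s ≠ 0 := by
    intro h
    exact h1 (by linear_combination -h)
  set b : ℂ := ((n + 2 : ℕ) : ℂ) ^ (-s) with hb
  have hder : ∀ y ∈ Set.Icc ((n + 1 : ℕ) : ℝ) ((n + 2 : ℕ) : ℝ), HasDerivWithinAt
      (fun y : ℝ => (y : ℂ) * ((s - 1) * b) + (y : ℂ) ^ (1 - s))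
      (1 * ((s - 1) * b) + (1 - s) * (y : ℂ) ^ (1 - s - 1))
      (Set.Icc ((n + 1 : ℕ) : ℝ) ((n + 2 : ℕ) : ℝ)) y := by
    intro y hy
    have hy0 : 0 < y := lt_of_lt_of_le hn hy.1
    have h2 : HasDerivAt (fun y : ℝ => (y : ℂ)) 1 y := Complex.ofRealCLM.hasDerivAt
    exact ((h2.mul_const _).add (hasDerivAt_ofReal_cpow_const hy0.ne' hr1)).hasDerivWithinAt
  have hle : ((n + 1 : ℕ) : ℝ) ≤ ((n + 2 : ℕ) : ℝ) := by
    push_cast
    linarith
  have h := Convex.norm_image_sub_le_of_norm_hasDerivWithin_le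
    (C := ‖s - 1‖ * ‖s‖ * ((n + 1 : ℕ) : ℝ) ^ (-s.re - 1)) (x := ((n + 1 : ℕ) : ℝ))
    (y := ((n + 2 : ℕ) : ℝ)) hder
    (fun y hy => by
      have hy0 : 0 < y := lt_of_lt_of_le hn hy.1
      have e1 : 1 * ((s - 1) * b) + (1 - s) * (y : ℂ) ^ (1 - s - 1)
          = (s - 1) * (((((n + 2 : ℕ) : ℝ) : ℂ)) ^ (-s) - (y : ℂ) ^ (-s)) := by
        rw [hb, Complex.ofReal_natCast, show (1 : ℂ) - s - 1 = -s by ring]
        ring
      rw [e1, norm_mul, mul_assoc]
      refine mul_le_mul_of_nonneg_left ?_ (norm_nonneg _)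
      refine (LTend_mv (-s) (by rw [Complex.neg_re]; linarith) hy0 hy.2).trans ?_
      rw [norm_neg, Complex.neg_re, mul_assoc]
      refine mul_le_mul_of_nonneg_left ?_ (norm_nonneg _)
      have e2 : ((n + 2 : ℕ) : ℝ) - y ≤ 1 := by
        have h3 := hy.1
        push_cast at h3 ⊢
        linarith
      have e3 : y ^ (-s.re - 1) ≤ ((n + 1 : ℕ) : ℝ) ^ (-s.re - 1) :=
        Real.rpow_le_rpow_of_nonpos hn hy.1 (by linarith)
      have e4 : 0 ≤ y ^ (-s.re - 1) := Real.rpow_nonneg hy0.le _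
      calc y ^ (-s.re - 1) * (((n + 2 : ℕ) : ℝ) - y) ≤ y ^ (-s.re - 1) * 1 :=
            mul_le_mul_of_nonneg_left e2 e4
        _ = y ^ (-s.re - 1) := mul_one _
        _ ≤ _ := e3)
    (convex_Icc _ _) ⟨le_rfl, hle⟩ ⟨hle, le_rfl⟩
  have e5 : ‖((n + 2 : ℕ) : ℝ) - ((n + 1 : ℕ) : ℝ)‖ = 1 := by
    push_cast
    norm_num
  rw [e5, mul_one] at h
  refine le_trans (le_of_eq ?_) h
  congr 1
  unfold LTend_F
  rw [Complex.ofReal_natCast, Complex.ofReal_natCast, ← hb]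
  push_cast
  ring

theorem LTend_F_diff (n : ℕ) : Differentiable ℂ (LTend_F n) := by
  intro s
  unfold LTend_F
  have h1 : ∀ m : ℕ, DifferentiableAt ℂ (fun s : ℂ => ((m + 1 : ℕ) : ℂ) ^ (1 - s)) s := fun m =>
    DifferentiableAt.const_cpow ((differentiableAt_const _).sub differentiableAt_id)
      (Or.inl (Nat.cast_ne_zero.2 (Nat.succ_ne_zero m)))
  have h2 : DifferentiableAt ℂ (fun s : ℂ => ((n + 2 : ℕ) : ℂ) ^ (-s)) s :=
    DifferentiableAt.const_cpow differentiableAt_id.neg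
      (Or.inl (Nat.cast_ne_zero.2 (Nat.succ_ne_zero (n + 1))))
  exact (((differentiableAt_id.sub_const 1).mul h2).add (h1 (n + 1))).sub (h1 n)

theorem LTend_sum {δ : ℝ} (hδ : 0 < δ) (c : ℝ) :
    Summable (fun n : ℕ => c * ((n + 1 : ℕ) : ℝ) ^ (-δ - 1)) := by
  refine Summable.mul_left c ?_
  have h := Real.summable_nat_rpow.2 (show -δ - 1 < -1 by linarith)
  exact (summable_nat_add_iff 1).2 h

theorem LTend_F_sum {s : ℂ} (hs : 0 < s.re) : Summable (fun n : ℕ => LTend_F n s) :=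
  Summable.of_norm_bounded (LTend_sum hs (‖s - 1‖ * ‖s‖)) (fun n => LTend_F_bd n hs)

/-- The sum `(s - 1) ζ(s)`. -/
def LTend_G (s : ℂ) : ℂ := s + ∑' n : ℕ, LTend_F n s

theorem LTend_G_diff : DifferentiableOn ℂ LTend_G {s : ℂ | 0 < s.re} := by
  intro s0 hs0
  have hs0' : 0 < s0.re := hs0
  set U : Set ℂ := {s : ℂ | s0.re / 2 < s.re ∧ ‖s‖ < ‖s0‖ + 1} with hU
  have hUo : IsOpen U := (isOpen_lt continuous_const Complex.continuous_re).inter
    (isOpen_lt continuous_norm continuous_const)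
  have hmem : s0 ∈ U := ⟨by linarith, by linarith⟩
  have hd : DifferentiableOn ℂ (fun s : ℂ => ∑' n : ℕ, LTend_F n s) U := by
    refine differentiableOn_tsum_of_summable_norm
      (LTend_sum (half_pos hs0') ((‖s0‖ + 1 + 1) * (‖s0‖ + 1)))
      (fun n => (LTend_F_diff n).differentiableOn) hUo ?_
    intro n w hw
    have hw0 : 0 < w.re := by linarith [hw.1]
    refine (LTend_F_bd n hw0).trans ?_
    have h1 : ‖w - 1‖ ≤ ‖s0‖ + 1 + 1 := by
      refine (norm_sub_le _ _).trans ?_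
      rw [norm_one]
      linarith [hw.2]
    have h2 : ((n + 1 : ℕ) : ℝ) ^ (-w.re - 1) ≤ ((n + 1 : ℕ) : ℝ) ^ (-(s0.re / 2) - 1) := by
      refine Real.rpow_le_rpow_of_exponent_le ?_ (by linarith [hw.1])
      push_cast
      have : (0 : ℝ) ≤ (n : ℝ) := Nat.cast_nonneg n
      linarith
    have h3 := norm_nonneg s0
    refine mul_le_mul (mul_le_mul h1 hw.2.le (norm_nonneg _) (by linarith)) h2
      (Real.rpow_nonneg (Nat.cast_nonneg _) _) (by positivity)
  have h4 : DifferentiableAt ℂ (fun s : ℂ => ∑' n : ℕ, LTend_F n s) s0 :=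
    (hd s0 hmem).differentiableAt (hUo.mem_nhds hmem)
  exact (differentiableAt_id.add h4).differentiableWithinAt

theorem LTend_partial (s : ℂ) (N : ℕ) :
    (s - 1) * (∑ n ∈ Icc 1 (N + 1), (n : ℂ) ^ (-s)) + ((N + 1 : ℕ) : ℂ) ^ (1 - s)
      = s + ∑ n ∈ range N, LTend_F n s := by
  induction N with
  | zero => simp
  | succ N ih =>
    rw [Finset.sum_range_succ, ← add_assoc, ← ih, Finset.sum_Icc_succ_top (by omega)]
    unfold LTend_F
    ring

theorem LTend_lim {s : ℂ} (hs : 0 < s.re) :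
    Filter.Tendsto (fun N : ℕ => (s - 1) * (∑ n ∈ Icc 1 N, (n : ℂ) ^ (-s)) + (N : ℂ) ^ (1 - s))
      Filter.atTop (nhds (LTend_G s)) := by
  rw [← Filter.tendsto_add_atTop_iff_nat 1]
  have h1 := ((LTend_F_sum hs).hasSum.tendsto_sum_nat).const_add s
  refine h1.congr fun N => ?_
  exact (LTend_partial s N).symm

/-- The function `(s - 1) ζ(s)`. -/
def LTend_Z : ℂ → ℂ := Function.update (fun s : ℂ => (s - 1) * riemannZeta s) 1 1

theorem LTend_Z_diff : Differentiable ℂ LTend_Z := by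
  have hne : ∀ s : ℂ, s ≠ 1 → DifferentiableAt ℂ LTend_Z s := by
    intro s hs
    apply DifferentiableAt.congr_of_eventuallyEq (f := fun s : ℂ => (s - 1) * riemannZeta s)
    · exact ((differentiableAt_id).sub_const 1).mul (differentiableAt_riemannZeta hs)
    · filter_upwards [eventually_ne_nhds hs] with t ht using Function.update_of_ne ht ..
  intro s
  rcases ne_or_eq s 1 with hs | rfl
  · exact hne s hs
  · refine (Complex.analyticAt_of_differentiable_on_punctured_nhds_of_continuousAt ?_ ?_).differentiableAt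
    · filter_upwards [self_mem_nhdsWithin] with t ht
      exact hne t ht
    · simpa only [LTend_Z, continuousAt_update_same] using riemannZeta_residue_one

theorem LTend_Z_ne {s : ℂ} (hs : s ≠ 1) : LTend_Z s = (s - 1) * riemannZeta s :=
  Function.update_of_ne hs ..

theorem LTend_pow_zero {s : ℂ} (hs : 1 < s.re) :
    Filter.Tendsto (fun N : ℕ => (N : ℂ) ^ (1 - s)) Filter.atTop (nhds 0) := by
  rw [tendsto_zero_iff_norm_tendsto_zero]
  have h1 : Filter.Tendsto (fun x : ℝ => x ^ (-(s.re - 1))) Filter.atTop (nhds 0) :=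
    tendsto_rpow_neg_atTop (by linarith)
  have h2 := h1.comp (tendsto_natCast_atTop_atTop (R := ℝ))
  refine Filter.Tendsto.congr' ?_ h2
  filter_upwards [Filter.eventually_gt_atTop 0] with N hN
  rw [Complex.norm_natCast_cpow_of_pos hN, Complex.sub_re, Complex.one_re]
  simp only [Function.comp]
  rw [neg_sub]

theorem LTend_G_eq_one_lt {s : ℂ} (hs : 1 < s.re) : LTend_G s = LTend_Z s := by
  have hs1 : s ≠ 1 := by
    rintro rfl
    simp at hs
  have hs0 : s ≠ 0 := by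
    rintro rfl
    simp at hs
    linarith
  have hsum : HasSum (fun n : ℕ => 1 / (n : ℂ) ^ s) (riemannZeta s) := by
    rw [zeta_eq_tsum_one_div_nat_cpow hs]
    exact (Complex.summable_one_div_nat_cpow.2 hs).hasSum
  have h1 := hsum.tendsto_sum_nat
  rw [← Filter.tendsto_add_atTop_iff_nat 1] at h1
  have h2 : Filter.Tendsto (fun N : ℕ => ∑ n ∈ Icc 1 N, (n : ℂ) ^ (-s)) Filter.atTop
      (nhds (riemannZeta s)) := by
    refine h1.congr fun N => ?_
    rw [Finset.range_eq_Ico, ← Finset.sum_Ioo_add_eq_sum_Ico (by omega : 0 < N + 1),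
      Nat.cast_zero, Complex.zero_cpow hs0, div_zero, add_zero]
    have h3 : Finset.Ioo 0 (N + 1) = Icc 1 N := by
      ext k
      simp only [Finset.mem_Ioo, Finset.mem_Icc]
      omega
    rw [h3]
    refine Finset.sum_congr rfl fun n _ => ?_
    rw [Complex.cpow_neg, one_div]
  have h4 := (h2.const_mul (s - 1)).add (LTend_pow_zero hs)
  rw [add_zero] at h4
  rw [LTend_Z_ne hs1]
  exact tendsto_nhds_unique (LTend_lim (by linarith)) h4

theorem LTend_G_eq {s : ℂ} (hs : 0 < s.re) : LTend_G s = LTend_Z s := by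
  have hU : IsOpen {s : ℂ | 0 < s.re} := isOpen_lt continuous_const Complex.continuous_re
  have h3 : IsPreconnected {s : ℂ | 0 < s.re} := (convex_halfSpace_re_gt 0).isPreconnected
  have h4 : (2 : ℂ) ∈ {s : ℂ | 0 < s.re} := by
    change 0 < (2 : ℂ).re
    norm_num
  refine (LTend_G_diff.analyticOnNhd hU).eqOn_of_preconnected_of_eventuallyEq
    (LTend_Z_diff.differentiableOn.analyticOnNhd hU) h3 h4 ?_ hs
  have h5 : {z : ℂ | 1 < z.re} ∈ nhds (2 : ℂ) :=
    (isOpen_lt continuous_const Complex.continuous_re).mem_nhds (by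
      change 1 < (2 : ℂ).re
      norm_num)
  filter_upwards [h5] with z hz
  exact LTend_G_eq_one_lt hz

/-- The zeta function.

Proof. For `Re s > 0`, `s ≠ 1`, let `a_n(s) = n ^ (-s) - ∫_n^{n+1} x ^ (-s) dx = ∫_n^{n+1} (n ^ (-s) - x ^ (-s)) dx`, of norm at most
`|s| n ^ (-σ - 1)`. So `A(s) = ∑_{n ≥ 1} a_n(s)` converges locally uniformly in `Re s > 0` and is analytic there
(`differentiableOn_tsum_of_summable_norm`; `a_n(s) = n ^ (-s) - ((n+1) ^ (1-s) - n ^ (1-s)) / (1 - s)` for `s ≠ 1`, and `s ↦ ∫_n^{n+1} x ^ (-s) dx`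
is analytic; one can also work on `{Re s > 0} \ {1}` only, which is open and preconnected). For `Re s > 1`
`A(s) = ζ(s) - ∫_1^∞ x ^ (-s) dx = ζ(s) - 1 / (s - 1)`. By the identity theorem `ζ(s) = 1 / (s - 1) + A(s)` for `Re s > 0`, `s ≠ 1`
(`riemannZeta` is differentiable off `1`; the set `{Re s > 0, s ≠ 1}` is preconnected: `IsPreconnected` of the complement
of a countable set in a convex open set, or `isPreconnected_compl_singleton_of_one_lt_rank`-type lemmas). Finally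
`∑_{1 ≤ n ≤ N} a_n(s) = ∑_{n ≤ N} n ^ (-s) - (1 - (N+1) ^ (1-s)) / (s - 1)`, so
`∑_{n ≤ N} n ^ (-s) + (N+1) ^ (1-s) / (s - 1) · (-1) ...`: precisely
`ζ(s) = lim (∑_{n ≤ N} n ^ (-s) + (N+1) ^ (1-s) / (s - 1))`, and `(N+1) ^ (1-s) - N ^ (1-s) → 0` (norm at most `|1 - s| N ^ (-σ)`). -/
theorem zeta_tendsto (s : ℂ) (hs : 0 < s.re) (h1 : s ≠ 1) :
    Filter.Tendsto (fun N : ℕ => ∑ n ∈ Icc 1 N, (n : ℂ) ^ (-s) + (N : ℂ) ^ (1 - s) / (s - 1)) Filter.atTop
      (nhds (riemannZeta s)) := by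
  have hne : s - 1 ≠ 0 := sub_ne_zero.2 h1
  have h2 := (LTend_lim hs).div_const (s - 1)
  rw [LTend_G_eq hs, LTend_Z_ne h1, mul_div_cancel_left₀ _ hne] at h2
  refine h2.congr fun N => ?_
  rw [add_div, mul_div_cancel_left₀ _ hne]

theorem LTend_floor {p : ℕ} (hp : 0 < p) {s : ℂ} (hs : 0 < s.re) :
    Filter.Tendsto (fun N : ℕ => (p : ℂ) ^ (-s) * ((N / p : ℕ) : ℂ) ^ (1 - s)
      - (p : ℂ)⁻¹ * (N : ℂ) ^ (1 - s)) Filter.atTop (nhds 0) := by
  rw [tendsto_zero_iff_norm_tendsto_zero]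
  have hdiv : Filter.Tendsto (fun N : ℕ => N / p) Filter.atTop Filter.atTop :=
    Nat.tendsto_div_const_atTop hp.ne'
  have h1 : Filter.Tendsto (fun N : ℕ => ‖(p : ℂ) ^ (-s)‖ * ‖1 - s‖ * ((N / p : ℕ) : ℝ) ^ (-s.re))
      Filter.atTop (nhds 0) := by
    have h2 := ((tendsto_rpow_neg_atTop hs).comp
      (tendsto_natCast_atTop_atTop.comp hdiv)).const_mul (‖(p : ℂ) ^ (-s)‖ * ‖1 - s‖)
    rw [mul_zero] at h2
    exact h2
  refine squeeze_zero' (Filter.Eventually.of_forall fun N => norm_nonneg _) ?_ h1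
  filter_upwards [hdiv.eventually_gt_atTop 0] with N hN
  have hp0 : (0 : ℝ) < p := by exact_mod_cast hp
  have hpc : (p : ℂ) ≠ 0 := by exact_mod_cast hp.ne'
  have hm : (0 : ℝ) < ((N / p : ℕ) : ℝ) := by exact_mod_cast hN
  have hle : ((N / p : ℕ) : ℝ) ≤ (N : ℝ) / p := Nat.cast_div_le
  have hlt : (N : ℝ) / p - ((N / p : ℕ) : ℝ) ≤ 1 := by
    have h3 : N < (N / p + 1) * p := by
      have := Nat.lt_div_mul_add hp (a := N)
      nlinarith
    have h4 : (N : ℝ) < (((N / p : ℕ) : ℝ) + 1) * p := by exact_mod_cast h3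
    have h5 : (N : ℝ) / p < ((N / p : ℕ) : ℝ) + 1 := by
      rw [div_lt_iff₀ hp0]
      exact h4
    linarith
  have h6 := LTend_mv (1 - s) (by rw [Complex.sub_re, Complex.one_re]; linarith) hm hle
  have h7 : (p : ℂ) ^ (-s) * ((((N : ℝ) / p : ℝ)) : ℂ) ^ (1 - s) = (p : ℂ)⁻¹ * (N : ℂ) ^ (1 - s) := by
    have h8 : (N : ℂ) ^ (1 - s) = (p : ℂ) ^ (1 - s) * ((((N : ℝ) / p : ℝ)) : ℂ) ^ (1 - s) := by
      have h9 : (N : ℂ) = ((p : ℝ) : ℂ) * ((((N : ℝ) / p : ℝ)) : ℂ) := by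
        push_cast
        field_simp
      rw [h9, Complex.mul_cpow_ofReal_nonneg hp0.le (by positivity), Complex.ofReal_natCast]
    rw [h8, ← mul_assoc]
    congr 1
    rw [sub_eq_add_neg, Complex.cpow_add _ _ hpc, Complex.cpow_one]
    field_simp
  rw [← h7, ← mul_sub, norm_mul, norm_sub_rev, mul_assoc]
  refine mul_le_mul_of_nonneg_left ?_ (norm_nonneg _)
  rw [Complex.ofReal_natCast] at h6
  refine h6.trans ?_
  rw [Complex.sub_re, Complex.one_re, mul_assoc]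
  refine mul_le_mul_of_nonneg_left ?_ (norm_nonneg _)
  have h10 : (1 : ℝ) - s.re - 1 = -s.re := by ring
  rw [h10]
  have h11 : (0 : ℝ) ≤ ((N / p : ℕ) : ℝ) ^ (-s.re) := Real.rpow_nonneg hm.le _
  calc ((N / p : ℕ) : ℝ) ^ (-s.re) * ((N : ℝ) / p - ((N / p : ℕ) : ℝ))
      ≤ ((N / p : ℕ) : ℝ) ^ (-s.re) * 1 := mul_le_mul_of_nonneg_left hlt h11
    _ = _ := mul_one _

open Classical in
/-- The indicator function of the integers free of the primes of `S`. -/
def LTend_f (S : Finset ℕ) (n : ℕ) : ℂ := if ∀ p ∈ S, ¬ p ∣ n then 1 else 0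

theorem LTend_insert (S : Finset ℕ) (p : ℕ) (hS : ∀ r ∈ S, r.Prime) (hp : p.Prime) (hpS : p ∉ S)
    (s : ℂ) (N : ℕ) :
    ∑ n ∈ Icc 1 N, LTend_f (insert p S) n * (n : ℂ) ^ (-s) =
      ∑ n ∈ Icc 1 N, LTend_f S n * (n : ℂ) ^ (-s) -
        (p : ℂ) ^ (-s) * ∑ n ∈ Icc 1 (N / p), LTend_f S n * (n : ℂ) ^ (-s) := by
  classical
  have h1 : ∀ n : ℕ, LTend_f (insert p S) n * (n : ℂ) ^ (-s) =
      LTend_f S n * (n : ℂ) ^ (-s) - if p ∣ n then LTend_f S n * (n : ℂ) ^ (-s) else 0 := by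
    intro n
    by_cases h : p ∣ n
    · rw [if_pos h, sub_self]
      have h2 : LTend_f (insert p S) n = 0 := by
        unfold LTend_f
        rw [if_neg]
        intro h3
        exact h3 p (Finset.mem_insert_self p S) h
      rw [h2, zero_mul]
    · rw [if_neg h, sub_zero]
      congr 1
      unfold LTend_f
      congr 1
      rw [eq_iff_iff]
      constructor
      · intro h3 r hr
        exact h3 r (Finset.mem_insert_of_mem hr)
      · intro h3 r hr
        rcases Finset.mem_insert.1 hr with rfl | hr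
        · exact h
        · exact h3 r hr
  rw [Finset.sum_congr rfl (fun n _ => h1 n), Finset.sum_sub_distrib]
  congr 1
  rw [← Finset.sum_filter, Finset.mul_sum]
  symm
  refine Finset.sum_bij (fun m _ => p * m) ?_ ?_ ?_ ?_
  · intro m hm
    rw [Finset.mem_Icc] at hm
    rw [Finset.mem_filter, Finset.mem_Icc]
    refine ⟨⟨Nat.mul_pos hp.pos hm.1, ?_⟩, dvd_mul_right p m⟩
    have := (Nat.le_div_iff_mul_le hp.pos).1 hm.2
    rwa [mul_comm] at this
  · intro a _ b _ hab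
    exact Nat.eq_of_mul_eq_mul_left hp.pos hab
  · intro n hn
    rw [Finset.mem_filter, Finset.mem_Icc] at hn
    obtain ⟨⟨h2, h3⟩, m, rfl⟩ := hn
    refine ⟨m, ?_, rfl⟩
    rw [Finset.mem_Icc]
    refine ⟨Nat.pos_of_ne_zero (by rintro rfl; omega), ?_⟩
    rw [Nat.le_div_iff_mul_le hp.pos, mul_comm]
    exact h3
  · intro m _
    have h2 : LTend_f S (p * m) = LTend_f S m := by
      unfold LTend_f
      congr 1
      rw [eq_iff_iff]
      have h3 : ∀ r ∈ S, (r ∣ p * m ↔ r ∣ m) := by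
        intro r hr
        have hcop : Nat.Coprime r p := by
          rw [Nat.coprime_primes (hS r hr) hp]
          rintro rfl
          exact hpS hr
        exact hcop.dvd_mul_left
      constructor
      · intro h4 r hr h5
        exact h4 r hr ((h3 r hr).2 h5)
      · intro h4 r hr h5
        exact h4 r hr ((h3 r hr).1 h5)
    rw [h2, Nat.cast_mul, Complex.natCast_mul_natCast_cpow]
    ring

theorem LTend_prime (S : Finset ℕ) (hS : ∀ r ∈ S, r.Prime) (s : ℂ) (hs : 0 < s.re) (h1 : s ≠ 1) :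
    Filter.Tendsto (fun N : ℕ => ∑ n ∈ Icc 1 N, LTend_f S n * (n : ℂ) ^ (-s) +
      (∏ p ∈ S, (1 - (p : ℂ)⁻¹)) * (N : ℂ) ^ (1 - s) / (s - 1)) Filter.atTop
      (nhds ((∏ p ∈ S, (1 - (p : ℂ) ^ (-s))) * riemannZeta s)) := by
  classical
  induction S using Finset.induction_on with
  | empty =>
    refine (by simpa using zeta_tendsto s hs h1 : Filter.Tendsto (fun N : ℕ =>
      ∑ n ∈ Icc 1 N, (n : ℂ) ^ (-s) + (N : ℂ) ^ (1 - s) / (s - 1)) Filter.atTop
      (nhds ((∏ p ∈ (∅ : Finset ℕ), (1 - (p : ℂ) ^ (-s))) * riemannZeta s))).congr fun N => ?_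
    rw [Finset.prod_empty, one_mul]
    congr 1
    refine Finset.sum_congr rfl fun n _ => ?_
    unfold LTend_f
    simp
  | insert p S hpS ih =>
    have hS' : ∀ r ∈ S, r.Prime := fun r hr => hS r (Finset.mem_insert_of_mem hr)
    have hp : p.Prime := hS p (Finset.mem_insert_self p S)
    have h2 := ih hS'
    have h3 := h2.comp (Nat.tendsto_div_const_atTop hp.ne_zero)
    have h4 := (LTend_floor hp.pos hs).const_mul ((∏ p ∈ S, (1 - (p : ℂ)⁻¹)) / (s - 1))
    rw [mul_zero] at h4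
    have h5 := (h2.sub (h3.const_mul ((p : ℂ) ^ (-s)))).add h4
    rw [Finset.prod_insert hpS, Finset.prod_insert hpS]
    have e1 : (∏ p ∈ S, (1 - (p : ℂ) ^ (-s))) * riemannZeta s -
        (p : ℂ) ^ (-s) * ((∏ p ∈ S, (1 - (p : ℂ) ^ (-s))) * riemannZeta s) + 0 =
        (1 - (p : ℂ) ^ (-s)) * (∏ p ∈ S, (1 - (p : ℂ) ^ (-s))) * riemannZeta s := by ring
    rw [e1] at h5
    refine h5.congr fun N => ?_
    simp only [Function.comp]
    rw [LTend_insert S p hS' hp hpS]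
    ring

/-- Partial sums for all Dirichlet characters.

Proof. `χ ≠ 1`: `dl χ = 0` and this is `Pool.Agent.Wb58c63.SUbB_tendsto` with `SUbB_eq` (the sum over `range (N + 1)`; the term `n = 0` is `χ 0 * 0 ^ (-s)`,
and `0 ^ (-s) = 0` as `s ≠ 0`), or `sw_approx`, whose right side tends to `0`. `χ = 1`: `LFunction 1 s = LFunctionTrivChar q s = ζ(s) ∏_{p ∣ q} (1 - p ^ (-s))`
(`LFunctionTrivChar_eq_mul_riemannZeta`) `= ζ(s) ∑_{d ∣ q} μ(d) d ^ (-s)`; and `∑_{n ≤ N, (n, q) = 1} n ^ (-s) = ∑_{d ∣ q} μ(d) d ^ (-s) ∑_{m ≤ N / d} m ^ (-s)`;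
by `zeta_tendsto` (at `⌊N / d⌋`) the inner sum is `ζ(s) - ⌊N/d⌋ ^ (1-s) / (s - 1) + o(1)`, and `⌊N/d⌋ ^ (1-s) - (N/d) ^ (1-s) → 0`. So the sum over `n` is
`L(s) - ∑_{d ∣ q} μ(d) d ^ (-s) (N/d) ^ (1-s) / (s - 1) + o(1) = L(s) - (∑_{d ∣ q} μ(d) / d) N ^ (1-s) / (s - 1) + o(1)`, and `∑_{d ∣ q} μ(d) / d = φ(q) / q`. -/
theorem L_tendsto {q : ℕ} [NeZero q] (χ : DirichletCharacter ℂ q) (s : ℂ) (hs : 0 < s.re) (h1 : s ≠ 1) :
    Filter.Tendsto (fun N : ℕ => ∑ n ∈ Icc 1 N, χ (n : ZMod q) * (n : ℂ) ^ (-s) +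
      (dl χ : ℂ) * ((q.totient : ℂ) / (q : ℂ)) * (N : ℂ) ^ (1 - s) / (s - 1)) Filter.atTop
      (nhds (DirichletCharacter.LFunction χ s)) := by
  classical
  have hs0 : s ≠ 0 := by
    rintro rfl
    simp at hs
  by_cases hχ : χ = 1
  · subst hχ
    have hq : q ≠ 0 := NeZero.ne q
    have hqc : (q : ℂ) ≠ 0 := by exact_mod_cast hq
    have h2 := LTend_prime q.primeFactors (fun r hr => Nat.prime_of_mem_primeFactors hr) s hs h1
    have e1 : DirichletCharacter.LFunction (1 : DirichletCharacter ℂ q) s =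
        (∏ p ∈ q.primeFactors, (1 - (p : ℂ) ^ (-s))) * riemannZeta s :=
      DirichletCharacter.LFunctionTrivChar_eq_mul_riemannZeta h1
    have e2 : (q.totient : ℂ) / (q : ℂ) = ∏ p ∈ q.primeFactors, (1 - (p : ℂ)⁻¹) := by
      have h3 := congrArg (fun t : ℚ => (t : ℂ)) (Nat.totient_eq_mul_prod_factors q)
      push_cast at h3
      rw [h3]
      field_simp
    have e3 : (dl (1 : DirichletCharacter ℂ q) : ℂ) = 1 := by
      unfold dl
      simp
    rw [e1]
    refine h2.congr fun N => ?_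
    rw [e3, e2, one_mul]
    congr 1
    refine Finset.sum_congr rfl fun n hn => ?_
    congr 1
    unfold LTend_f
    by_cases hc : Nat.Coprime n q
    · rw [if_pos]
      · rw [MulChar.one_apply ((ZMod.isUnit_iff_coprime n q).2 hc)]
      · intro p hp hpn
        have hpp := Nat.prime_of_mem_primeFactors hp
        have h4 := Nat.dvd_gcd hpn (Nat.dvd_of_mem_primeFactors hp)
        rw [hc] at h4
        exact hpp.one_lt.ne' (Nat.dvd_one.1 h4)
    · rw [if_neg]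
      · symm
        exact MulChar.map_nonunit _ (fun h => hc ((ZMod.isUnit_iff_coprime n q).1 h))
      · intro h
        apply hc
        rw [Nat.coprime_iff_gcd_eq_one]
        by_contra hg
        obtain ⟨p, hp, hpg⟩ := Nat.exists_prime_and_dvd hg
        refine h p ?_ (hpg.trans (Nat.gcd_dvd_left n q))
        exact Nat.mem_primeFactors.2 ⟨hp, hpg.trans (Nat.gcd_dvd_right n q), hq⟩
  · have e3 : (dl χ : ℂ) = 0 := by
      unfold dl
      rw [if_neg hχ]
      simp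
    have h2 := Pool.Agent.Wb58c63.SUbB_tendsto χ hχ hs
    rw [Pool.Agent.Wb58c63.SUbB_eq χ hχ hs, ← Filter.tendsto_add_atTop_iff_nat 1] at h2
    refine h2.congr fun N => ?_
    rw [e3]
    unfold Pool.Agent.Wb58c63.SUbB_A
    rw [Finset.range_eq_Ico, ← Finset.sum_Ioo_add_eq_sum_Ico (by omega : 0 < N + 1),
      Pool.Agent.Wb58c63.SUbB_zero χ hχ]
    have h3 : Finset.Ioo 0 (N + 1) = Icc 1 N := by
      ext k
      simp only [Finset.mem_Ioo, Finset.mem_Icc]
      omega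
    rw [h3]
    ring

end Pool.Agent.PSG
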