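import Pool.Agent.W_b58c63_h44.WI
import Pool.Agent.W_b58c63_h44.LTend
import Pool.Agent.W_b58c63_h68.SZeA
import Pool.Agent.W_b58c63_h68.LSc

/-!
# Approximation and bounds for L-functions near `Re s = 1`
-/

set_option autoImplicit false

noncomputable section

open Finset Complex

namespace Pool.Agent.PSG

/-- The mean of a character.

Proof. `∑_{a < q} χ a` is the sum over `ZMod q`, `0` for `χ ≠ 1` (`MulChar.sum_eq_zero_of_ne_one`) and `φ(q)` for `χ = 1` (`MulChar.sum_one_eq_card_units`,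
`ZMod.card_units_eq_totient`). `Pool.Agent.Wb58c63.LSc_sum` rewrites the sum over `range q`. -/
theorem mean_char {q : ℕ} [NeZero q] (χ : DirichletCharacter ℂ q) :
    mean q (fun n => χ (n : ZMod q)) = (dl χ : ℂ) * ((q.totient : ℂ) / (q : ℂ)) := by
  classical
  unfold mean dl
  rw [Pool.Agent.Wb58c63.LSc_sum (fun a => χ a)]
  by_cases h : χ = 1
  · rw [if_pos h, h, MulChar.sum_one_eq_card_units, ZMod.card_units_eq_totient]
    push_cast
    ring
  · rw [if_neg h, MulChar.sum_eq_zero_of_ne_one h]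
    simp

/-- **Approximation of L-functions** by Dirichlet polynomials of length `X ^ θ`.

Proof. Take `c, C` from `weyl_tail θ` and apply it to `f n = χ n` (`mean_char`): for all integers `N ≥ Z`,
`‖∑_{Z < n ≤ N} χ n n ^ (-s) - dl χ (φ q / q) ∫_Z^N x ^ (-s) dx‖ ≤ C q ^ 2 Z ^ (1 - σ - c)`. `∫_Z^N x ^ (-s) dx = (Z ^ (1-s) - N ^ (1-s)) / (s - 1)`
(`integral_cpow`). Add `∑_{n ≤ Z}` and let `N → ∞` (`L_tendsto`; `Icc 1 N = Icc 1 ⌊Z⌋₊ ∪ Ioc ⌊Z⌋₊ N`). -/
theorem L_approx [WI] (θ : ℝ) (hθ : 0 < θ) (hθ1 : θ ≤ 1) : ∃ c C : ℝ, 0 < c ∧ c ≤ 1 / 4 ∧ 0 < C ∧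
    ∀ X : ℝ, 1 ≤ X → ∀ (q : ℕ) [NeZero q] (χ : DirichletCharacter ℂ q), ∀ s : ℂ, 1 - c / 2 ≤ s.re → s.re ≤ 3 →
    |s.im| ≤ X → s ≠ 1 → ∀ Z : ℝ, 1 ≤ Z → X ^ θ ≤ Z →
    ‖DirichletCharacter.LFunction χ s - ∑ n ∈ Icc 1 ⌊Z⌋₊, χ (n : ZMod q) * (n : ℂ) ^ (-s) -
      (dl χ : ℂ) * ((q.totient : ℂ) / (q : ℂ)) * (Z : ℂ) ^ (1 - s) / (s - 1)‖ ≤ C * (q : ℝ) ^ 2 * Z ^ (1 - s.re - c) := by
  obtain ⟨c, C, hc, hc4, hC, h⟩ := WI.weyl_tail θ hθ hθ1
  refine ⟨c, C, hc, hc4, hC, fun X hX q _ χ s hs1 hs3 him hne Z hZ hXZ => ?_⟩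
  have hs0 : 0 < s.re := by linarith
  have hlim := L_tendsto χ s hs0 hne
  have hlim2 := (hlim.sub_const (∑ n ∈ Icc 1 ⌊Z⌋₊, χ (n : ZMod q) * (n : ℂ) ^ (-s))).sub_const
    ((dl χ : ℂ) * ((q.totient : ℂ) / (q : ℂ)) * (Z : ℂ) ^ (1 - s) / (s - 1))
  refine le_of_tendsto hlim2.norm ?_
  filter_upwards [Filter.eventually_ge_atTop ⌈Z⌉₊] with N hN
  have hZN : Z ≤ (N : ℝ) := (Nat.le_ceil Z).trans (by exact_mod_cast hN)
  have h1 := h X hX q (Nat.pos_of_ne_zero (NeZero.ne q)) (fun n => χ (n : ZMod q))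
    (fun n => by simp) (fun n => χ.norm_le_one _) s hs1 hs3 him Z N hZ hXZ hZN
  rw [mean_char] at h1
  have hint : ∫ u in Z..N, (u : ℂ) ^ (-s) = ((Z : ℂ) ^ (1 - s) - (N : ℂ) ^ (1 - s)) / (s - 1) := by
    have h2 := integral_cpow (a := Z) (b := (N : ℝ)) (r := -s) (Or.inr ⟨by
      intro h3
      apply hne
      have := congrArg (fun z => -z) h3
      simpa using this, by
      rw [Set.uIcc_of_le hZN]
      intro h0
      have := h0.1
      linarith⟩)
    rw [h2, Complex.ofReal_natCast, show -s + 1 = 1 - s by ring]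
    have h4 : s - 1 ≠ 0 := sub_ne_zero.mpr hne
    have h5 : (1 : ℂ) - s ≠ 0 := fun h6 => h4 (by linear_combination -h6)
    field_simp
    ring
  rw [hint] at h1
  have hsplit : ∑ n ∈ Icc 1 N, χ (n : ZMod q) * (n : ℂ) ^ (-s) =
      ∑ n ∈ Icc 1 ⌊Z⌋₊, χ (n : ZMod q) * (n : ℂ) ^ (-s) +
      ∑ n ∈ Ioc ⌊Z⌋₊ N, χ (n : ZMod q) * (n : ℂ) ^ (-s) := by
    have hfl : ⌊Z⌋₊ ≤ N := by
      have : (⌊Z⌋₊ : ℝ) ≤ N := (Nat.floor_le (by linarith)).trans hZN
      exact_mod_cast this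
    have e1 : ∀ M : ℕ, Icc 1 M = Ioc 0 M := by
      intro M
      ext k
      simp only [Finset.mem_Icc, Finset.mem_Ioc]
      omega
    rw [e1, e1, Finset.sum_Ioc_consecutive _ (Nat.zero_le _) hfl]
  refine le_trans (le_of_eq ?_) h1
  congr 1
  rw [hsplit]
  ring

theorem LApp_sum (Z : ℝ) (hZ : 1 ≤ Z) {q : ℕ} (χ : DirichletCharacter ℂ q) (s : ℂ) :
    ‖∑ n ∈ Icc 1 ⌊Z⌋₊, χ (n : ZMod q) * (n : ℂ) ^ (-s)‖ ≤ Z ^ (max (1 - s.re) 0) * (1 + Real.log Z) := by
  have hZ0 : 0 < Z := by linarith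
  have h1 : ‖∑ n ∈ Icc 1 ⌊Z⌋₊, χ (n : ZMod q) * (n : ℂ) ^ (-s)‖ ≤
      ∑ n ∈ Icc 1 ⌊Z⌋₊, Z ^ (max (1 - s.re) 0) * ((n : ℝ)⁻¹) := by
    refine (norm_sum_le _ _).trans (Finset.sum_le_sum fun n hn => ?_)
    rw [Finset.mem_Icc] at hn
    have hn0 : (0 : ℝ) < n := by exact_mod_cast hn.1
    have hn1 : (1 : ℝ) ≤ n := by exact_mod_cast hn.1
    have hnZ : (n : ℝ) ≤ Z := (by exact_mod_cast hn.2 : (n : ℝ) ≤ ⌊Z⌋₊).trans (Nat.floor_le hZ0.le)
    rw [norm_mul, Complex.norm_natCast_cpow_of_pos (by omega), Complex.neg_re]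
    have h2 : (n : ℝ) ^ (-s.re) = (n : ℝ) ^ (1 - s.re) * (n : ℝ)⁻¹ := by
      rw [show -s.re = (1 - s.re) + (-1) by ring, Real.rpow_add hn0, Real.rpow_neg_one]
    have h3 : (n : ℝ) ^ (1 - s.re) ≤ Z ^ (max (1 - s.re) 0) :=
      (Real.rpow_le_rpow_of_exponent_le hn1 (le_max_left _ _)).trans
        (Real.rpow_le_rpow hn0.le hnZ (le_max_right _ _))
    calc ‖χ (n : ZMod q)‖ * (n : ℝ) ^ (-s.re) ≤ 1 * (n : ℝ) ^ (-s.re) :=
          mul_le_mul_of_nonneg_right (χ.norm_le_one _) (Real.rpow_nonneg hn0.le _)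
      _ = (n : ℝ) ^ (1 - s.re) * (n : ℝ)⁻¹ := by rw [one_mul, h2]
      _ ≤ _ := mul_le_mul_of_nonneg_right h3 (by positivity)
  refine h1.trans ?_
  rw [← Finset.mul_sum]
  refine mul_le_mul_of_nonneg_left ?_ (Real.rpow_nonneg hZ0.le _)
  have h4 := harmonic_le_one_add_log ⌊Z⌋₊
  have h5 : ((harmonic ⌊Z⌋₊ : ℚ) : ℝ) = ∑ n ∈ Icc 1 ⌊Z⌋₊, (n : ℝ)⁻¹ := by
    rw [harmonic_eq_sum_Icc]
    push_cast
    rfl
  rw [← h5]
  refine h4.trans ?_
  have h6 : (1 : ℝ) ≤ ⌊Z⌋₊ := by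
    have : 1 ≤ ⌊Z⌋₊ := Nat.le_floor (by exact_mod_cast hZ)
    exact_mod_cast this
  have h7 := Real.log_le_log (by linarith) (Nat.floor_le hZ0.le)
  linarith

open Classical in
/-- **The bound for `EF χ`** at heights up to `X ^ 2`: the conductor is effectively `X ^ θ`.

Proof. Apply `L_approx (θ / 2)` with `X ^ 2` in place of `X` and `Z = X ^ θ = (X ^ 2) ^ (θ / 2)`; let `c, C` be its constants. For
`1 - c / 2 ≤ σ ≤ 3`: `‖∑_{n ≤ Z} χ n n ^ (-s)‖ ≤ ∑_{n ≤ Z} n ^ (-σ) ≤ Z ^ (max (1 - σ) 0) ∑_{n ≤ Z} 1 / n ≤ Z ^ (max (1-σ) 0) (1 + log Z)` and the error is at most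
`C q ^ 2 Z ^ (1 - σ - c) ≤ C Z ^ (c / 2) Z ^ (1 - σ - c) ≤ C Z ^ (1 - σ - c / 2) ≤ C` (as `q ≤ Z ^ (c / 4)` and `1 - σ ≤ c / 2`). With `log Z = θ log X ≤ log X` and
`log X ≥ 1` the case `χ ≠ 1` follows (constant `2 + C`). For `χ = 1` multiply by `s - 1`: `‖(s - 1) ∑‖ ≤ ‖s - 1‖ (...)`, and the pole term becomes `(φ q / q) Z ^ (1-s)`,
of norm at most `Z ^ (max (1 - σ) 0)`. `EF 1 s = (s - 1) LFunction 1 s` for `s ≠ 1` (`Function.update_of_ne`), and at `s = 1` by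
continuity (`differentiable_LFunctionTrivChar₁`) or directly, the product over `p ∣ q` is at most `1`. -/
theorem EF_bound [WI] (θ : ℝ) (hθ : 0 < θ) (hθ1 : θ ≤ 1) : ∃ c C X₀ : ℝ, 0 < c ∧ c ≤ 1 / 4 ∧ 0 < C ∧ 3 ≤ X₀ ∧
    ∀ X : ℝ, X₀ ≤ X → ∀ q : ℕ, 1 ≤ q → (q : ℝ) ≤ X ^ (θ * c / 4) → ∀ χ : DirichletCharacter ℂ q,
    ∀ s : ℂ, 1 - c / 2 ≤ s.re → s.re ≤ 3 → |s.im| ≤ X ^ 2 →
    ‖EF χ s‖ ≤ C * (if χ = 1 then 1 + ‖s - 1‖ else 1) * X ^ (θ * max (1 - s.re) 0) * Real.log X := by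
  obtain ⟨c, C, hc, hc4, hC, h⟩ := L_approx (θ / 2) (by positivity) (by linarith)
  refine ⟨c, 2 + C, 3, hc, hc4, by positivity, le_refl _, fun X hX q hq hqX χ => ?_⟩
  have hX0 : 0 < X := by linarith
  have hX1 : 1 ≤ X := by linarith
  have hlogX : 1 ≤ Real.log X := by
    rw [Real.le_log_iff_exp_le hX0]
    have := Real.exp_one_lt_d9
    linarith
  have hqn : NeZero q := ⟨by omega⟩
  obtain ⟨Z, hZdef⟩ : ∃ Z : ℝ, Z = X ^ θ := ⟨_, rfl⟩
  have hZ1 : 1 ≤ Z := by rw [hZdef]; exact Real.one_le_rpow hX1 hθ.le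
  have hZ0 : 0 < Z := by linarith
  have hZX : (X ^ 2) ^ (θ / 2) ≤ Z := by
    rw [hZdef, ← Real.rpow_natCast X 2, ← Real.rpow_mul hX0.le]
    apply le_of_eq
    congr 1
    push_cast
    ring
  have hlogZ : Real.log Z ≤ Real.log X := by
    rw [hZdef, Real.log_rpow hX0]
    nlinarith
  obtain ⟨K, hK⟩ : ∃ K : ℂ → ℝ, K = fun s => @ite ℝ (χ = 1) (propDecidable _) (1 + ‖s - 1‖) 1 :=
    ⟨_, rfl⟩
  have hK1 : χ = 1 → ∀ s, K s = 1 + ‖s - 1‖ := fun hχ s => by rw [hK]; exact if_pos hχ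
  have hK0 : χ ≠ 1 → ∀ s, K s = 1 := fun hχ s => by rw [hK]; exact if_neg hχ
  -- the main case
  have main : ∀ s : ℂ, 1 - c / 2 ≤ s.re → s.re ≤ 3 → |s.im| ≤ X ^ 2 → s ≠ 1 →
      ‖EF χ s‖ ≤ (2 + C) * K s * X ^ (θ * max (1 - s.re) 0) * Real.log X := by
    intro s hs1 hs3 him hne
    have h1 := h (X ^ 2) (by nlinarith) q χ s hs1 hs3 him hne Z hZ1 hZX
    have hZm : X ^ (θ * max (1 - s.re) 0) = Z ^ (max (1 - s.re) 0) := by
      rw [hZdef, ← Real.rpow_mul hX0.le]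
    rw [hZm]
    have hZm1 : 1 ≤ Z ^ (max (1 - s.re) 0) := Real.one_le_rpow hZ1 (le_max_right _ _)
    have hsum := LApp_sum Z hZ1 χ s
    have herr : C * (q : ℝ) ^ 2 * Z ^ (1 - s.re - c) ≤ C := by
      have h2 : (q : ℝ) ^ 2 ≤ Z ^ (c / 2) := by
        have h3 : X ^ (θ * c / 4) = Z ^ (c / 4) := by
          rw [hZdef, ← Real.rpow_mul hX0.le]
          congr 1
          ring
        rw [h3] at hqX
        calc (q : ℝ) ^ 2 ≤ (Z ^ (c / 4)) ^ 2 := by
              apply pow_le_pow_left₀ (Nat.cast_nonneg _) hqX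
          _ = Z ^ (c / 2) := by
              rw [← Real.rpow_natCast, ← Real.rpow_mul hZ0.le]
              congr 1
              push_cast
              ring
      have h4 : Z ^ (c / 2) * Z ^ (1 - s.re - c) ≤ 1 := by
        rw [← Real.rpow_add hZ0]
        exact Real.rpow_le_one_of_one_le_of_nonpos hZ1 (by linarith)
      calc C * (q : ℝ) ^ 2 * Z ^ (1 - s.re - c) = C * ((q : ℝ) ^ 2 * Z ^ (1 - s.re - c)) := by ring
        _ ≤ C * (Z ^ (c / 2) * Z ^ (1 - s.re - c)) := by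
            apply mul_le_mul_of_nonneg_left _ hC.le
            exact mul_le_mul_of_nonneg_right h2 (Real.rpow_nonneg hZ0.le _)
        _ ≤ C * 1 := mul_le_mul_of_nonneg_left h4 hC.le
        _ = C := mul_one C
    have hA : Z ^ (max (1 - s.re) 0) * (1 + Real.log Z) + C ≤
        (2 + C) * Z ^ (max (1 - s.re) 0) * Real.log X := by
      have h5 : Z ^ (max (1 - s.re) 0) * (1 + Real.log Z) ≤ Z ^ (max (1 - s.re) 0) * (2 * Real.log X) := by
        apply mul_le_mul_of_nonneg_left _ (by linarith)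
        linarith
      have h6 : C ≤ C * (Z ^ (max (1 - s.re) 0) * Real.log X) := by
        have : 1 ≤ Z ^ (max (1 - s.re) 0) * Real.log X := one_le_mul_of_one_le_of_one_le hZm1 hlogX
        nlinarith
      linarith
    by_cases hχ : χ = 1
    · rw [hK1 hχ]
      have hEF : EF χ s = (s - 1) * DirichletCharacter.LFunction χ s := by
        unfold EF
        rw [dif_neg (by omega), if_pos hχ, DirichletCharacter.LFunctionTrivChar₁,
          Function.update_of_ne hne, hχ]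
      have hdl : (dl χ : ℂ) = 1 := by
        unfold dl
        rw [if_pos hχ]
        simp
      rw [hdl, one_mul] at h1
      have hne' : s - 1 ≠ 0 := sub_ne_zero.mpr hne
      have e1 : EF χ s = (s - 1) * (DirichletCharacter.LFunction χ s
          - ∑ n ∈ Icc 1 ⌊Z⌋₊, χ (n : ZMod q) * (n : ℂ) ^ (-s)
          - ((q.totient : ℂ) / (q : ℂ)) * (Z : ℂ) ^ (1 - s) / (s - 1))
          + (s - 1) * ∑ n ∈ Icc 1 ⌊Z⌋₊, χ (n : ZMod q) * (n : ℂ) ^ (-s)
          + ((q.totient : ℂ) / (q : ℂ)) * (Z : ℂ) ^ (1 - s) := by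
        rw [hEF]
        field_simp
        ring
      have hpole : ‖((q.totient : ℂ) / (q : ℂ)) * (Z : ℂ) ^ (1 - s)‖ ≤ Z ^ (max (1 - s.re) 0) := by
        rw [norm_mul, Complex.norm_cpow_eq_rpow_re_of_pos hZ0, norm_div, Complex.norm_natCast,
          Complex.norm_natCast, Complex.sub_re, Complex.one_re]
        have h7 : (q.totient : ℝ) / (q : ℝ) ≤ 1 := by
          apply div_le_one_of_le₀ _ (Nat.cast_nonneg _)
          exact_mod_cast Nat.totient_le q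
        have h8 : Z ^ (1 - s.re) ≤ Z ^ (max (1 - s.re) 0) :=
          Real.rpow_le_rpow_of_exponent_le hZ1 (le_max_left _ _)
        calc (q.totient : ℝ) / (q : ℝ) * Z ^ (1 - s.re) ≤ 1 * Z ^ (max (1 - s.re) 0) :=
              mul_le_mul h7 h8 (Real.rpow_nonneg hZ0.le _) zero_le_one
          _ = _ := one_mul _
      rw [e1]
      have hb1 : ‖(s - 1) * (DirichletCharacter.LFunction χ s
          - ∑ n ∈ Icc 1 ⌊Z⌋₊, χ (n : ZMod q) * (n : ℂ) ^ (-s)
          - ((q.totient : ℂ) / (q : ℂ)) * (Z : ℂ) ^ (1 - s) / (s - 1))‖ ≤ ‖s - 1‖ * C := by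
        rw [norm_mul]
        exact mul_le_mul_of_nonneg_left (h1.trans herr) (norm_nonneg _)
      have hb2 : ‖(s - 1) * ∑ n ∈ Icc 1 ⌊Z⌋₊, χ (n : ZMod q) * (n : ℂ) ^ (-s)‖ ≤
          ‖s - 1‖ * (Z ^ (max (1 - s.re) 0) * (1 + Real.log Z)) := by
        rw [norm_mul]
        exact mul_le_mul_of_nonneg_left hsum (norm_nonneg _)
      have hb3 := norm_add₃_le (a := (s - 1) * (DirichletCharacter.LFunction χ s
          - ∑ n ∈ Icc 1 ⌊Z⌋₊, χ (n : ZMod q) * (n : ℂ) ^ (-s)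
          - ((q.totient : ℂ) / (q : ℂ)) * (Z : ℂ) ^ (1 - s) / (s - 1)))
          (b := (s - 1) * ∑ n ∈ Icc 1 ⌊Z⌋₊, χ (n : ZMod q) * (n : ℂ) ^ (-s))
          (c := ((q.totient : ℂ) / (q : ℂ)) * (Z : ℂ) ^ (1 - s))
      have hb4 : ‖s - 1‖ * (Z ^ (max (1 - s.re) 0) * (1 + Real.log Z)) + ‖s - 1‖ * C ≤
          ‖s - 1‖ * ((2 + C) * Z ^ (max (1 - s.re) 0) * Real.log X) := by
        rw [← mul_add]
        exact mul_le_mul_of_nonneg_left hA (norm_nonneg _)
      have hb5 : Z ^ (max (1 - s.re) 0) ≤ (2 + C) * Z ^ (max (1 - s.re) 0) * Real.log X := by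
        have h9 : Z ^ (max (1 - s.re) 0) ≤ Z ^ (max (1 - s.re) 0) * Real.log X :=
          le_mul_of_one_le_right (by linarith) hlogX
        have h10 : 0 ≤ Z ^ (max (1 - s.re) 0) * Real.log X := by positivity
        nlinarith
      calc _ ≤ _ := hb3
        _ ≤ ‖s - 1‖ * C + ‖s - 1‖ * (Z ^ (max (1 - s.re) 0) * (1 + Real.log Z)) +
            Z ^ (max (1 - s.re) 0) := by linarith
        _ ≤ (2 + C) * (1 + ‖s - 1‖) * Z ^ (max (1 - s.re) 0) * Real.log X := by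
            have : (2 + C) * (1 + ‖s - 1‖) * Z ^ (max (1 - s.re) 0) * Real.log X =
              (2 + C) * Z ^ (max (1 - s.re) 0) * Real.log X +
              ‖s - 1‖ * ((2 + C) * Z ^ (max (1 - s.re) 0) * Real.log X) := by ring
            rw [this]
            linarith
    · rw [hK0 hχ, mul_one]
      have hEF : EF χ s = DirichletCharacter.LFunction χ s := by
        unfold EF
        rw [dif_neg (by omega), if_neg hχ]
      have hdl : (dl χ : ℂ) = 0 := by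
        unfold dl
        rw [if_neg hχ]
        simp
      rw [hdl, zero_mul, zero_mul, zero_div, sub_zero] at h1
      rw [hEF]
      have h11 := norm_sub_norm_le (DirichletCharacter.LFunction χ s)
        (∑ n ∈ Icc 1 ⌊Z⌋₊, χ (n : ZMod q) * (n : ℂ) ^ (-s))
      linarith
  intro s hs1 hs3 him
  suffices hsuff : ‖EF χ s‖ ≤ (2 + C) * K s * X ^ (θ * max (1 - s.re) 0) * Real.log X by
    rw [hK] at hsuff
    exact hsuff
  by_cases hne : s = 1
  · subst hne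
    -- continuity
    have hdiff : Differentiable ℂ (EF χ) := by
      unfold EF
      rw [dif_neg (by omega)]
      by_cases hχ : χ = 1
      · rw [if_pos hχ]; exact DirichletCharacter.differentiable_LFunctionTrivChar₁ q
      · rw [if_neg hχ]; exact DirichletCharacter.differentiable_LFunction hχ
    let g : ℝ → ℂ := fun ε => 1 + (ε : ℂ)
    have hg : Continuous g := continuous_const.add Complex.continuous_ofReal
    have hg0 : g 0 = 1 := by simp [g]
    have hL : Filter.Tendsto (fun ε : ℝ => ‖EF χ (g ε)‖) (nhdsWithin 0 (Set.Ioi 0)) (nhds ‖EF χ 1‖) := by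
      have : Continuous fun ε : ℝ => ‖EF χ (g ε)‖ := (hdiff.continuous.comp hg).norm
      have h2 := (this.tendsto 0).mono_left (nhdsWithin_le_nhds (s := Set.Ioi (0 : ℝ)))
      simp only [hg0] at h2
      exact h2
    have hR : Filter.Tendsto (fun ε : ℝ => (2 + C) * K (g ε) *
        X ^ (θ * max (1 - (g ε).re) 0) * Real.log X) (nhdsWithin 0 (Set.Ioi 0))
        (nhds ((2 + C) * K 1 *
        X ^ (θ * max (1 - (1 : ℂ).re) 0) * Real.log X)) := by
      have hcont : Continuous fun ε : ℝ => (2 + C) * K (g ε) *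
          X ^ (θ * max (1 - (g ε).re) 0) * Real.log X := by
        have c1 : Continuous fun ε : ℝ => K (g ε) := by
          by_cases hχ : χ = 1
          · simp only [hK1 hχ]
            exact continuous_const.add (hg.sub continuous_const).norm
          · simp only [hK0 hχ]
            exact continuous_const
        have c2 : Continuous fun ε : ℝ => X ^ (θ * max (1 - (g ε).re) 0) := by
          apply Continuous.rpow continuous_const
          · exact continuous_const.mul ((continuous_const.sub (Complex.continuous_re.comp hg)).max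
              continuous_const)
          · intro _
            exact Or.inl hX0.ne'
        exact ((continuous_const.mul c1).mul c2).mul continuous_const
      have h2 := (hcont.tendsto 0).mono_left (nhdsWithin_le_nhds (s := Set.Ioi (0 : ℝ)))
      simp only [hg0] at h2
      exact h2
    refine le_of_tendsto_of_tendsto hL hR ?_
    have hmem : Set.Ioo (0 : ℝ) 1 ∈ nhdsWithin (0 : ℝ) (Set.Ioi 0) :=
      Ioo_mem_nhdsGT one_pos
    filter_upwards [hmem] with ε hε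
    apply main
    · simp [g]; linarith [hε.1]
    · simp [g]; linarith [hε.2]
    · simp [g]; positivity
    · intro h0
      have h1 := congrArg Complex.re h0
      simp [g] at h1
      linarith [hε.1]
  · exact main s hs1 hs3 him hne

open Classical in
/-- The trivial lower bound.

Proof. `Pool.Agent.Wb58c63.sw_triv_ge`: `(σ - 1) / σ ≤ ‖LFunction χ s‖`, and `σ ≤ 3`. For `χ = 1`, `EF χ s = (s - 1) LFunction χ s` (`s ≠ 1`). -/
theorem EF_lower {q : ℕ} (hq : 1 ≤ q) (χ : DirichletCharacter ℂ q) (s : ℂ) (h1 : 1 < s.re) (h3 : s.re ≤ 3) :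
    (s.re - 1) / 3 * (if χ = 1 then ‖s - 1‖ else 1) ≤ ‖EF χ s‖ := by
  have hqn : NeZero q := ⟨by omega⟩
  have hne : s ≠ 1 := by
    rintro rfl
    simp at h1
  have h4 := Pool.Agent.Wb58c63.sw_triv_ge χ h1
  have h5 : (s.re - 1) / 3 ≤ (s.re - 1) / s.re :=
    div_le_div_of_nonneg_left (by linarith) (by linarith) h3
  have h6 := h5.trans h4
  by_cases hχ : χ = 1
  · rw [if_pos hχ]
    have hEF : EF χ s = (s - 1) * DirichletCharacter.LFunction χ s := by
      unfold EF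
      rw [dif_neg (by omega), if_pos hχ, DirichletCharacter.LFunctionTrivChar₁,
        Function.update_of_ne hne, hχ]
    rw [hEF, norm_mul, mul_comm]
    exact mul_le_mul_of_nonneg_left h6 (norm_nonneg _)
  · rw [if_neg hχ, mul_one]
    have hEF : EF χ s = DirichletCharacter.LFunction χ s := by
      unfold EF
      rw [dif_neg (by omega), if_neg hχ]
    rw [hEF]
    exact h6

end Pool.Agent.PSG
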