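import Pool.Agent.W_b58c63_h44.DHa
import Pool.Agent.W_b58c63_h44.LApp

/-!
# Deuring-Heilbronn: evaluation of the smoothed sums
-/

set_option autoImplicit false

noncomputable section

open Finset Complex MeasureTheory

namespace Pool.Agent.PSG

open Pool.Agent.Wb58c63 (chi12)

/-- decay of `VV` -/
theorem DHb_VV : ∃ K : ℝ, 1 ≤ K ∧
    (∀ z : ℂ, -1 ≤ z.re → z.re ≤ 3 → ‖VV z‖ ≤ K * (1 + z.im ^ 2)⁻¹) ∧
    (∀ (z : ℂ) (T : ℝ), 1 ≤ T → -1 ≤ z.re → z.re ≤ 3 → T ≤ |z.im| →
      ‖VV z‖ ≤ K * (1 / T) ^ 8 * (1 + z.im ^ 2)⁻¹) := by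
  obtain ⟨C, hC1, hC⟩ := mellin_decay 10
  obtain ⟨A, hA1, hA⟩ := vv_isW 10
  have hCA : 1 ≤ C * A := one_le_mul_of_one_le_of_one_le hC1 hA1
  have hlarge : ∀ z : ℂ, 1 ≤ |z.im| → (1 / |z.im|) ^ 2 ≤ 2 * (1 + z.im ^ 2)⁻¹ := by
    intro z hz
    have h1 : (1 : ℝ) ≤ z.im ^ 2 := by
      rw [← sq_abs]
      nlinarith
    rw [div_pow, one_pow, sq_abs, ← div_eq_mul_inv, div_le_div_iff₀ (by linarith) (by linarith)]
    linarith
  refine ⟨2 * (C * A), by linarith, ?_, ?_⟩
  · intro z h1 h3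
    obtain ⟨b1, b2⟩ := hC A 1 _ (by linarith) le_rfl hA z h1 h3
    have hz0 : 0 < 1 + z.im ^ 2 := by positivity
    rcases le_or_gt 1 |z.im| with h | h
    · refine (b2 h).trans ?_
      have h4 : 0 < |z.im| := by linarith
      have h5 : 1 / |z.im| ≤ 1 := by rw [div_le_one h4]; exact h
      have h6 : (1 / |z.im|) ^ 10 ≤ (1 / |z.im|) ^ 2 :=
        pow_le_pow_of_le_one (by positivity) h5 (by norm_num)
      calc C * A * (1 / |z.im|) ^ 10 ≤ C * A * (2 * (1 + z.im ^ 2)⁻¹) :=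
            mul_le_mul_of_nonneg_left (h6.trans (hlarge z h)) (by linarith)
        _ = 2 * (C * A) * (1 + z.im ^ 2)⁻¹ := by ring
    · refine b1.trans ?_
      have h4 : z.im ^ 2 ≤ 1 := by
        rw [← sq_abs]
        nlinarith [abs_nonneg z.im]
      have h5 : (1 / 2 : ℝ) ≤ (1 + z.im ^ 2)⁻¹ := by
        rw [one_div]
        exact inv_anti₀ hz0 (by linarith)
      nlinarith
  · intro z T hT h1 h3 hz
    obtain ⟨b1, b2⟩ := hC A 1 _ (by linarith) le_rfl hA z h1 h3
    have h4 : 0 < |z.im| := by linarith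
    refine (b2 (hT.trans hz)).trans ?_
    have h5 : (1 / |z.im|) ^ 8 ≤ (1 / T) ^ 8 :=
      pow_le_pow_left₀ (by positivity) (one_div_le_one_div_of_le (by linarith) hz) 8
    have h6 : (1 / |z.im|) ^ 10 = (1 / |z.im|) ^ 8 * (1 / |z.im|) ^ 2 := by rw [← pow_add]
    rw [h6]
    calc C * A * ((1 / |z.im|) ^ 8 * (1 / |z.im|) ^ 2)
        ≤ C * A * ((1 / T) ^ 8 * (2 * (1 + z.im ^ 2)⁻¹)) := by
          refine mul_le_mul_of_nonneg_left ?_ (by linarith)
          exact mul_le_mul h5 (hlarge z (hT.trans hz)) (by positivity) (by positivity)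
      _ = 2 * (C * A) * (1 / T) ^ 8 * (1 + z.im ^ 2)⁻¹ := by ring

/-- the shift of the contour for `R z Z ^ z VV z`, `R` entire -/
theorem DHb_main : ∃ K₀ : ℝ, 1 ≤ K₀ ∧ ∀ (c X Z M : ℝ) (R : ℂ → ℂ), 0 < c → c ≤ 1 → 1 ≤ X →
    1 ≤ Z → Z ≤ X → 0 ≤ M → Differentiable ℂ R →
    (∀ z : ℂ, -c ≤ z.re → z.re ≤ 1 → |z.im| ≤ 2 * X → (z.re = -c ∨ |z.im| = 2 * X) →
      ‖R z‖ ≤ M) →
    (∀ z : ℂ, z.re = 1 → 2 * X ≤ |z.im| → ‖R z‖ ≤ M) →
    Integrable (fun y : ℝ => R (1 + y * I) * (Z : ℂ) ^ ((1 : ℂ) + y * I) * VV (1 + y * I)) ∧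
    ‖(1 / (2 * Real.pi) : ℂ) * ∫ y : ℝ, R (1 + y * I) * (Z : ℂ) ^ ((1 : ℂ) + y * I) *
      VV (1 + y * I)‖ ≤ K₀ * M * Z ^ (-c) := by
  obtain ⟨K, hK1, hKa, hKb⟩ := DHb_VV
  refine ⟨2 * K, by linarith, ?_⟩
  intro c X Z M R hc hc1 hX hZ hZX hM hR hR1 hR2
  have hpi := Real.pi_pos
  have hZ0 : 0 < Z := by linarith
  have hX0 : 0 < X := by linarith
  have hK0 : 0 ≤ K := by linarith
  obtain ⟨T, hT⟩ : ∃ T : ℝ, T = 2 * X := ⟨_, rfl⟩
  have hT1 : 1 ≤ T := by linarith
  rw [← hT] at hR1 hR2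
  obtain ⟨F, hF⟩ : ∃ F : ℂ → ℂ, F = fun z => R z * (Z : ℂ) ^ z * VV z := ⟨_, rfl⟩
  have hFd : Differentiable ℂ F := by
    rw [hF]
    exact (hR.mul (differentiable_id.const_cpow (Or.inl (by exact_mod_cast hZ0.ne')))).mul
      VV_facts.2.1
  have hFn : ∀ z, ‖F z‖ = ‖R z‖ * Z ^ z.re * ‖VV z‖ := by
    intro z
    rw [hF]
    simp only [norm_mul]
    rw [Complex.norm_cpow_eq_rpow_re_of_pos hZ0]
  have hZc : 0 < Z ^ (-c) := Real.rpow_pos_of_pos hZ0 _
  -- small quantity
  have hsmall : Z * (1 / T) ^ 8 ≤ Z ^ (-c) := by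
    have h1 : (1 / T) ^ 8 ≤ (1 / X) ^ 8 :=
      pow_le_pow_left₀ (by positivity) (one_div_le_one_div_of_le hX0 (by linarith)) 8
    have h2 : Z * (1 / T) ^ 8 ≤ X * (1 / X) ^ 8 :=
      mul_le_mul hZX h1 (by positivity) hX0.le
    have h3 : X * (1 / X) ^ 8 = (1 / X) ^ 7 := by field_simp
    have h4 : (1 / X) ^ 7 ≤ (1 / X) ^ 1 :=
      pow_le_pow_of_le_one (by positivity) (by rw [div_le_one hX0]; exact hX) (by norm_num)
    have h5 : (1 / X) ^ 1 = X ^ (-1 : ℝ) := by rw [pow_one, Real.rpow_neg_one, one_div]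
    have h6 : X ^ (-1 : ℝ) ≤ X ^ (-c) := Real.rpow_le_rpow_of_exponent_le hX (by linarith)
    have h7 : X ^ (-c) ≤ Z ^ (-c) := Real.rpow_le_rpow_of_nonpos hZ0 hZX (by linarith)
    linarith
  -- the left side
  have hleft : ∀ y : ℝ, |y| ≤ T → ‖F (((-c : ℝ) : ℂ) + y * I)‖ ≤
      M * Z ^ (-c) * K * (1 + y ^ 2)⁻¹ := by
    intro y hy
    have e1 : (((-c : ℝ) : ℂ) + y * I).re = -c := by simp
    have e2 : (((-c : ℝ) : ℂ) + y * I).im = y := by simp
    rw [hFn, e1]
    have h1 := hR1 (((-c : ℝ) : ℂ) + y * I) (by rw [e1]) (by rw [e1]; linarith)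
      (by rw [e2]; exact hy) (Or.inl e1)
    have h2 := hKa (((-c : ℝ) : ℂ) + y * I) (by rw [e1]; linarith) (by rw [e1]; linarith)
    rw [e2] at h2
    calc ‖R (((-c : ℝ) : ℂ) + y * I)‖ * Z ^ (-c) * ‖VV (((-c : ℝ) : ℂ) + y * I)‖
        ≤ M * Z ^ (-c) * (K * (1 + y ^ 2)⁻¹) :=
          mul_le_mul (mul_le_mul_of_nonneg_right h1 hZc.le) h2 (norm_nonneg _) (by positivity)
      _ = M * Z ^ (-c) * K * (1 + y ^ 2)⁻¹ := by ring
  -- points of height at least `T`
  have hhigh : ∀ z : ℂ, -c ≤ z.re → z.re ≤ 1 → T ≤ |z.im| → ‖R z‖ ≤ M →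
      ‖F z‖ ≤ M * K * Z ^ (-c) * (1 + z.im ^ 2)⁻¹ := by
    intro z h1 h2 h3 h4
    rw [hFn]
    have h5 := hKb z T hT1 (by linarith) (by linarith) h3
    have h6 : Z ^ z.re ≤ Z := by
      calc Z ^ z.re ≤ Z ^ (1 : ℝ) := Real.rpow_le_rpow_of_exponent_le hZ h2
        _ = Z := Real.rpow_one Z
    calc ‖R z‖ * Z ^ z.re * ‖VV z‖ ≤ M * Z * (K * (1 / T) ^ 8 * (1 + z.im ^ 2)⁻¹) :=
          mul_le_mul (mul_le_mul h4 h6 (by positivity) hM) h5 (norm_nonneg _) (by positivity)
      _ = M * K * (Z * (1 / T) ^ 8) * (1 + z.im ^ 2)⁻¹ := by ring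
      _ ≤ M * K * Z ^ (-c) * (1 + z.im ^ 2)⁻¹ := by
        refine mul_le_mul_of_nonneg_right ?_ (by positivity)
        exact mul_le_mul_of_nonneg_left hsmall (by positivity)
  have hhor : ∀ (x : ℝ) (T' : ℝ), |T'| = T → -c ≤ x → x ≤ 1 →
      ‖F ((x : ℂ) + (T' : ℂ) * I)‖ ≤ M * K * Z ^ (-c) := by
    intro x T' hT' h1 h2
    have e1 : ((x : ℂ) + (T' : ℂ) * I).re = x := by simp
    have e2 : ((x : ℂ) + (T' : ℂ) * I).im = T' := by simp
    have h3 := hhigh ((x : ℂ) + (T' : ℂ) * I) (by rw [e1]; exact h1) (by rw [e1]; exact h2)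
      (by rw [e2, hT']) (hR1 _ (by rw [e1]; exact h1) (by rw [e1]; exact h2)
        (by rw [e2, hT']) (Or.inr (by rw [e2]; exact hT')))
    refine h3.trans ?_
    have h4 : (1 + ((x : ℂ) + (T' : ℂ) * I).im ^ 2)⁻¹ ≤ 1 := by
      apply inv_le_one_of_one_le₀
      nlinarith only [sq_nonneg ((x : ℂ) + (T' : ℂ) * I).im]
    calc M * K * Z ^ (-c) * (1 + ((x : ℂ) + (T' : ℂ) * I).im ^ 2)⁻¹
        ≤ M * K * Z ^ (-c) * 1 := mul_le_mul_of_nonneg_left h4 (by positivity)
      _ = M * K * Z ^ (-c) := mul_one _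
  -- the right side
  obtain ⟨g, hg⟩ : ∃ g : ℝ → ℂ, g = fun y : ℝ => F (1 + y * I) := ⟨_, rfl⟩
  have hgc : Continuous g := by
    rw [hg]
    exact hFd.continuous.comp (by fun_prop)
  have hgb : ∀ y : ℝ, T ≤ |y| → ‖g y‖ ≤ M * K * Z ^ (-c) * (1 + y ^ 2)⁻¹ := by
    intro y hy
    rw [hg]
    have e1 : ((1 : ℂ) + y * I).re = 1 := by simp
    have e2 : ((1 : ℂ) + y * I).im = y := by simp
    have h3 := hhigh ((1 : ℂ) + y * I) (by rw [e1]; linarith) (by rw [e1]) (by rw [e2]; exact hy)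
      (hR2 _ e1 (by rw [e2]; exact hy))
    rw [e2] at h3
    exact h3
  have hgi : Integrable g := by
    obtain ⟨B, hB⟩ := (isCompact_Icc (a := -T) (b := T)).exists_bound_of_continuousOn
      hgc.continuousOn
    have hB0 : 0 ≤ B := (norm_nonneg _).trans (hB 0 ⟨by linarith, by linarith⟩)
    refine (integrable_inv_one_add_sq.const_mul (B * (1 + T ^ 2) + M * K * Z ^ (-c))).mono'
      hgc.aestronglyMeasurable (Filter.Eventually.of_forall fun y => ?_)
    have hy0 : 0 < (1 + y ^ 2)⁻¹ := by positivity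
    rcases le_or_gt |y| T with h | h
    · have h1 := hB y (abs_le.1 h)
      have h2 : 1 ≤ (1 + T ^ 2) * (1 + y ^ 2)⁻¹ := by
        rw [← div_eq_mul_inv, one_le_div (by positivity)]
        have : y ^ 2 ≤ T ^ 2 := by
          rw [← sq_abs y]
          exact pow_le_pow_left₀ (abs_nonneg y) h 2
        linarith
      have h3 : B ≤ B * ((1 + T ^ 2) * (1 + y ^ 2)⁻¹) := le_mul_of_one_le_right hB0 h2
      have h4 : 0 ≤ M * K * Z ^ (-c) * (1 + y ^ 2)⁻¹ := by positivity
      have h5 : (B * (1 + T ^ 2) + M * K * Z ^ (-c)) * (1 + y ^ 2)⁻¹ =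
          B * ((1 + T ^ 2) * (1 + y ^ 2)⁻¹) + M * K * Z ^ (-c) * (1 + y ^ 2)⁻¹ := by ring
      rw [h5]
      linarith
    · refine (hgb y h.le).trans ?_
      refine mul_le_mul_of_nonneg_right ?_ hy0.le
      have : 0 ≤ B * (1 + T ^ 2) := by positivity
      linarith
  have hgF : g = fun y : ℝ => R (1 + y * I) * (Z : ℂ) ^ ((1 : ℂ) + y * I) * VV (1 + y * I) := by
    rw [hg, hF]
  rw [← hgF]
  refine ⟨hgi, ?_⟩
  change ‖(1 / (2 * Real.pi) : ℂ) * ∫ y : ℝ, g y‖ ≤ 2 * K * M * Z ^ (-c)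
  -- the segment
  have hseg : ‖∫ y in (-T)..T, g y‖ ≤ Real.pi * (M * K * Z ^ (-c)) + 4 * (M * K * Z ^ (-c)) := by
    have h1 := shift_rect F (-c) 1 (-T) T (by linarith) (by linarith) hFd.differentiableOn
    have h2 : ∫ y in (-T)..T, g y = ∫ y in (-T)..T, F (((1 : ℝ) : ℂ) + y * I) := by
      rw [hg, Complex.ofReal_one]
    rw [h2]
    refine h1.trans ?_
    have h3 : ∫ y in (-T)..T, ‖F (((-c : ℝ) : ℂ) + y * I)‖ ≤ Real.pi * (M * K * Z ^ (-c)) := by
      have h4 : ∫ y in (-T)..T, ‖F (((-c : ℝ) : ℂ) + y * I)‖ ≤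
          ∫ y in (-T)..T, M * Z ^ (-c) * K * (1 + y ^ 2)⁻¹ := by
        refine intervalIntegral.integral_mono_on (by linarith) ?_ ?_ ?_
        · exact (hFd.continuous.comp (by fun_prop)).norm.intervalIntegrable _ _
        · refine Continuous.intervalIntegrable ?_ _ _
          refine continuous_const.mul (Continuous.inv₀ (by fun_prop) fun y => ?_)
          positivity
        · intro y hy
          exact hleft y (abs_le.2 hy)
      refine h4.trans ?_
      rw [intervalIntegral.integral_const_mul, integral_inv_one_add_sq]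
      have h5 := Real.arctan_lt_pi_div_two T
      have h6 := Real.neg_pi_div_two_lt_arctan (-T)
      calc M * Z ^ (-c) * K * (Real.arctan T - Real.arctan (-T))
          ≤ M * Z ^ (-c) * K * Real.pi :=
            mul_le_mul_of_nonneg_left (by linarith) (by positivity)
        _ = Real.pi * (M * K * Z ^ (-c)) := by ring
    have h7 : ∀ T' : ℝ, |T'| = T → ∫ x in (-c)..1, ‖F ((x : ℂ) + (T' : ℂ) * I)‖ ≤
        2 * (M * K * Z ^ (-c)) := by
      intro T' hT'
      have h8 : ‖∫ x in (-c)..1, ‖F ((x : ℂ) + (T' : ℂ) * I)‖‖ ≤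
          (M * K * Z ^ (-c)) * |1 - (-c)| := by
        refine intervalIntegral.norm_integral_le_of_norm_le_const ?_
        intro x hx
        rw [Set.uIoc_of_le (by linarith)] at hx
        rw [norm_norm]
        exact hhor x T' hT' hx.1.le hx.2
      have h9 : |1 - (-c)| ≤ 2 := by
        rw [abs_of_nonneg (by linarith)]
        linarith
      calc ∫ x in (-c)..1, ‖F ((x : ℂ) + (T' : ℂ) * I)‖
          ≤ ‖∫ x in (-c)..1, ‖F ((x : ℂ) + (T' : ℂ) * I)‖‖ := Real.le_norm_self _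
        _ ≤ (M * K * Z ^ (-c)) * |1 - (-c)| := h8
        _ ≤ (M * K * Z ^ (-c)) * 2 := mul_le_mul_of_nonneg_left h9 (by positivity)
        _ = 2 * (M * K * Z ^ (-c)) := by ring
    have h10 := h7 T (abs_of_nonneg (by linarith))
    have h11 := h7 (-T) (by rw [abs_neg]; exact abs_of_nonneg (by linarith))
    linarith
  -- the rest of the line
  have hrest : ‖∫ y in (Set.Ioc (-T) T)ᶜ, g y‖ ≤ Real.pi * (M * K * Z ^ (-c)) := by
    have hbi : Integrable fun y : ℝ => M * K * Z ^ (-c) * (1 + y ^ 2)⁻¹ :=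
      integrable_inv_one_add_sq.const_mul _
    have h1 : ∫ y in (Set.Ioc (-T) T)ᶜ, ‖g y‖ ≤
        ∫ y in (Set.Ioc (-T) T)ᶜ, M * K * Z ^ (-c) * (1 + y ^ 2)⁻¹ := by
      refine setIntegral_mono_on hgi.norm.integrableOn hbi.integrableOn
        measurableSet_Ioc.compl ?_
      intro y hy
      refine hgb y ?_
      rw [Set.mem_compl_iff, Set.mem_Ioc, not_and_or, not_lt, not_le] at hy
      rcases hy with h | h
      · rw [abs_of_nonpos (by linarith)]
        linarith
      · exact h.le.trans (le_abs_self y)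
    have h2 : ∫ y in (Set.Ioc (-T) T)ᶜ, M * K * Z ^ (-c) * (1 + y ^ 2)⁻¹ ≤
        ∫ y : ℝ, M * K * Z ^ (-c) * (1 + y ^ 2)⁻¹ :=
      setIntegral_le_integral hbi (Filter.Eventually.of_forall fun y => by positivity)
    have h3 : ∫ y : ℝ, M * K * Z ^ (-c) * (1 + y ^ 2)⁻¹ = M * K * Z ^ (-c) * Real.pi := by
      rw [integral_const_mul, integral_univ_inv_one_add_sq]
    rw [h3] at h2
    refine (norm_integral_le_integral_norm _).trans ?_
    linarith
  have htot : ∫ y : ℝ, g y = (∫ y in (-T)..T, g y) + ∫ y in (Set.Ioc (-T) T)ᶜ, g y := by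
    rw [intervalIntegral.integral_of_le (by linarith)]
    exact (integral_add_compl measurableSet_Ioc hgi).symm
  rw [norm_mul, htot]
  have hn : ‖(1 / (2 * Real.pi) : ℂ)‖ = 1 / (2 * Real.pi) := by
    rw [norm_div, norm_mul, Complex.norm_real, Real.norm_of_nonneg hpi.le]
    simp
  rw [hn]
  have hsum : ‖(∫ y in (-T)..T, g y) + ∫ y in (Set.Ioc (-T) T)ᶜ, g y‖ ≤
      (2 * Real.pi + 4) * (M * K * Z ^ (-c)) := by
    refine (norm_add_le _ _).trans ?_
    linarith
  have hpi3 := Real.pi_gt_three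
  calc 1 / (2 * Real.pi) * ‖(∫ y in (-T)..T, g y) + ∫ y in (Set.Ioc (-T) T)ᶜ, g y‖
      ≤ 1 / (2 * Real.pi) * ((2 * Real.pi + 4) * (M * K * Z ^ (-c))) :=
        mul_le_mul_of_nonneg_left hsum (by positivity)
    _ ≤ 1 / (2 * Real.pi) * ((4 * Real.pi) * (M * K * Z ^ (-c))) := by
        refine mul_le_mul_of_nonneg_left ?_ (by positivity)
        exact mul_le_mul_of_nonneg_right (by linarith) (by positivity)
    _ = 2 * K * M * Z ^ (-c) := by
        field_simp
        ring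

/-- The common error term. -/
def Edh (c θ X Z : ℝ) (D : ℕ) : ℝ :=
  Z ^ (-c) * X ^ (4 * θ * c) * Real.log X ^ 2 * (3 ^ D.primeFactors.card * (D : ℝ) ^ (-1 + 2 * c))

theorem DHb_hD {r q : ℕ} (χ : DirichletCharacter ℂ r) (ψ : DirichletCharacter ℂ q) (D : ℕ) :
    Differentiable ℂ (hD χ ψ D) := by
  unfold hD
  refine Differentiable.fun_finsetProd fun p hp => ?_
  have hp0 : (p : ℂ) ≠ 0 := by
    exact_mod_cast (Nat.prime_of_mem_primeFactors hp).ne_zero
  have h1 : Differentiable ℂ fun s : ℂ => (p : ℂ) ^ (-s) :=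
    (differentiable_id.neg).const_cpow (Or.inl hp0)
  fun_prop

/-- characters with the same values at the natural numbers -/
theorem DHb_L {r m : ℕ} [NeZero r] [NeZero m] (hm : m = r) (χ : DirichletCharacter ℂ r)
    (χ' : DirichletCharacter ℂ m) (h : ∀ n : ℕ, χ' (n : ZMod m) = χ (n : ZMod r)) :
    DirichletCharacter.LFunction χ' = DirichletCharacter.LFunction χ := by
  subst hm
  have h1 : χ' = χ := by
    ext a
    have h2 := h (a : ZMod m).val
    rwa [ZMod.natCast_zmod_val] at h2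
  funext s
  rw [h1]

theorem DHb_E1 : EF (1 : DirichletCharacter ℂ 1) 1 = 1 := by
  unfold EF
  rw [dif_neg one_ne_zero, if_pos rfl]
  simp [DirichletCharacter.LFunctionTrivChar₁]

/-- double removal of the zeros `0` and `a` -/
theorem DHb_slope (H : ℂ → ℂ) (hH : Differentiable ℂ H) (h0 : H 0 = 0) (a : ℂ) (ha : a ≠ 0)
    (hHa : H a = 0) : ∃ R : ℂ → ℂ, Differentiable ℂ R ∧
      ∀ z, z ≠ 0 → z ≠ a → R z = H z / ((z - a) * z) := by
  have key : ∀ (G : ℂ → ℂ) (b : ℂ), Differentiable ℂ G → Differentiable ℂ (dslope G b) := by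
    intro G b hG
    rw [← differentiableOn_univ]
    exact (Complex.differentiableOn_dslope Filter.univ_mem).2 hG.differentiableOn
  refine ⟨dslope (dslope H 0) a, key _ _ (key _ _ hH), ?_⟩
  intro z hz hza
  rw [dslope_of_ne _ hza, slope_def_field, dslope_of_ne _ hz, dslope_of_ne _ ha, slope_def_field,
    slope_def_field, h0, hHa]
  have hza' : z - a ≠ 0 := sub_ne_zero.2 hza
  simp only [sub_zero, zero_div]
  field_simp

theorem DHb_slope1 (H : ℂ → ℂ) (hH : Differentiable ℂ H) (h0 : H 0 = 0) :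
    ∃ R : ℂ → ℂ, Differentiable ℂ R ∧ ∀ z, z ≠ 0 → R z = H z / z := by
  refine ⟨dslope H 0, ?_, ?_⟩
  · rw [← differentiableOn_univ]
    exact (Complex.differentiableOn_dslope Filter.univ_mem).2 hH.differentiableOn
  · intro z hz
    rw [dslope_of_ne _ hz, slope_def_field, h0]
    simp

/-- **Evaluation of the smoothed sums.**

Proof. Let `c_b, C_b` be the constants of `EF_bound θ`, `c = c_b / 8`, `ε` with `X ^ (2 ε) ≤ X ^ (θ c_b / 4)`. All the characters `ψ`, `χ`, `chi12 ψ χ` have moduli at most `X ^ (2 ε)`.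
Part 1. Let `f z = LFunction ψ (s + z) LFunction (chi12 ψ χ) (s + z) hD χ ψ D (s + z) Z ^ z VV z / z`, where at `z = 0` the numerator vanishes, so `f` (with the right value at `0`: use `dslope`) is differentiable for `-c ≤ Re z ≤ 1`. `SS_int`: `SS = (1/2π) ∫ f (1 + i y) dy`.
On `|y| ≥ X`: `‖LFunction‖ ≤ 3` each (`Pool.Agent.Wb58c63.sw_triv_le`, `Re (s + z) ≥ 3/2`), `‖hD‖ ≤ 3 ^ ω D ^ (-3/2+...)  ≤ 3 ^ ω D ^ (-1 + 2 c)` (`hD_le`), `‖Z ^ z‖ = Z ≤ X`, and `‖VV z‖ ≤ C / |y| ^ 10` (`mellin_decay`, `vv_isW`): the integral over `|y| ≥ X` is at most `C X ^ (-8) 3 ^ ω D ^ (-1+2c)`. On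
`|y| ≤ X` use `shift_rect` with `a = -c`, `b = 1`. On the left side `Re (s + z) ≥ 1 - 2 c ≥ 1 - c_b / 2`, `|Im (s + z)| ≤ 2 X ≤ X ^ 2`, so `EF_bound` gives `‖LFunction‖ ≤ C_b X ^ (2 θ c) log X` for both (not principal), `‖Z ^ z‖ = Z ^ (-c)`,
`‖1 / z‖ ≤ 1 / c`, `‖hD‖ ≤ 3 ^ ω D ^ (-1 + 2 c)`, `∫ ‖VV (-c + i y)‖ dy ≤ C`. On the horizontal sides `|Im z| = X`: `EF_bound` again, `‖Z ^ z‖ ≤ Z ≤ X`, `‖VV z‖ ≤ C X ^ (-10)`. Everything is at most `C Edh`, since
`X ^ (-5) ≤ Z ^ (-c) X ^ (4 θ c)` (`Z ≤ X`, `c ≤ 1`).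
Part 2. The same with `ψ = 1` modulo `1`: `LFunction 1 = riemannZeta`, `hD χ 1 D`. With `E = EF (1 : DirichletCharacter ℂ 1)`, `E w = (w - 1) ζ(w)`, `E 1 = 1`: let `P z = E (s + z) LFunction χ (s + z) hD χ 1 D (s + z)` and `a = 1 - s`, `Res = LFunction χ 1 hD χ 1 D 1 / (1 - s)`.
`f z = (P z / ((z - a) z) - Res / (z - a)) Z ^ z VV z`, differentiable in the strip after removing the singularities at `z = a` (`P a / a = Res`) and at `z = 0` (`P 0 = (s - 1) ζ(s) LFunction χ s hD = 0`). By `mellin_pole` and `mellin_pole_val` (`Re a ≤ c < 1`, `Z ≥ 4`) the subtracted term contributes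
`Res Z ^ a VV a`. (`LFunction (chi12 1 χ) = LFunction χ`: the two characters have the same values, moduli `1 * r` and `r`; only the values matter, or use the series in `Re s > 1` and the identity theorem.) On the sides `‖z - a‖ ≥ c'`: on the left `Re (z - a) = -c - Re a ≤ -c`; on the right and on the horizontal sides
it is at least `1 - c`, resp. `X - |Im a| `; if `|Im s|` is close to `X` the horizontal side may be close to `a`, so take the rectangle of height `2 X` (heights `≤ 3 X ≤ X ^ 2`). `‖E w / (w - 1)‖ ≤ C_b (1 + ‖w - 1‖) / ‖w - 1‖ X ^ (2 θ c) log X`. `‖Res‖ ≤ ‖LFunction χ 1‖ 3 ^ ω D ^ (-1) / ‖1 - s‖ ≤ C log X 3 ^ ω D ^ (-1) / ‖1 - s‖`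
(`EF_bound` at `1`). -/
theorem SS_est [WI] (θ : ℝ) (hθ : 0 < θ) (hθ1 : θ ≤ 1) : ∃ c ε C X₀ : ℝ, 0 < c ∧ c ≤ 1 / 16 ∧ 0 < ε ∧ ε ≤ 1 ∧ 0 < C ∧ 3 ≤ X₀ ∧
    ∀ X : ℝ, X₀ ≤ X → ∀ (r q : ℕ) [NeZero r] [NeZero q], (r : ℝ) ≤ X ^ ε → (q : ℝ) ≤ X ^ ε →
    ∀ (χ : DirichletCharacter ℂ r) (ψ : DirichletCharacter ℂ q), χ ≠ 1 → ∀ D : ℕ, Squarefree D → ∀ Z : ℝ, 4 ≤ Z → Z ≤ X →
    (ψ ≠ 1 → chi12 ψ χ ≠ 1 → ∀ s : ℂ, 1 - c ≤ s.re → s.re ≤ 1 → |s.im| ≤ X →
      DirichletCharacter.LFunction ψ s * DirichletCharacter.LFunction (chi12 ψ χ) s = 0 →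
      ‖SS χ ψ s D Z‖ ≤ C * Edh c θ X Z D) ∧
    (∀ s : ℂ, 1 - c ≤ s.re → s.re ≤ 1 → |s.im| ≤ X → s ≠ 1 → riemannZeta s * DirichletCharacter.LFunction χ s = 0 →
      ‖SS χ (1 : DirichletCharacter ℂ 1) s D Z - DirichletCharacter.LFunction χ 1 * hD χ (1 : DirichletCharacter ℂ 1) D 1 *
        (Z : ℂ) ^ (1 - s) * VV (1 - s) / (1 - s)‖ ≤ C * (1 + 1 / ‖1 - s‖) * Edh c θ X Z D) := by
  classical
  obtain ⟨cb, Cb, Xb, hcb, hcb4, hCb, hXb, hEF⟩ := EF_bound θ hθ hθ1
  obtain ⟨K₀, hK₀, hmain⟩ := DHb_main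
  have hpi := Real.pi_pos
  obtain ⟨c, hc⟩ : ∃ c : ℝ, c = cb / 8 := ⟨_, rfl⟩
  obtain ⟨ε, hε⟩ : ∃ ε : ℝ, ε = θ * cb / 8 := ⟨_, rfl⟩
  have hc0 : 0 < c := by rw [hc]; positivity
  have hc16 : c ≤ 1 / 16 := by rw [hc]; linarith
  have hε0 : 0 < ε := by rw [hε]; positivity
  have hε1 : ε ≤ 1 := by
    rw [hε]
    have : θ * cb ≤ 1 * (1 / 4) := mul_le_mul hθ1 hcb4 hcb.le zero_le_one
    linarith
  obtain ⟨C₂, hC₂⟩ : ∃ C₂ : ℝ, C₂ = Cb ^ 2 * (1 + 1 / c) / c + Cb / c + 9 := ⟨_, rfl⟩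
  have hC₂0 : 0 < C₂ := by rw [hC₂]; positivity
  refine ⟨c, ε, K₀ * C₂, max Xb 3, hc0, hc16, hε0, hε1, by positivity, le_max_right _ _, ?_⟩
  intro X hX r q _ _ hr hq χ ψ hχ D hD' Z hZ4 hZX
  have hXb' : Xb ≤ X := (le_max_left _ _).trans hX
  have hX3 : 3 ≤ X := (le_max_right _ _).trans hX
  have hX1 : 1 ≤ X := by linarith
  have hX0 : 0 < X := by linarith
  have hZ0 : 0 < Z := by linarith
  have hD0 : D ≠ 0 := hD'.ne_zero
  have hD1 : (1 : ℝ) ≤ D := by exact_mod_cast Nat.one_le_iff_ne_zero.2 hD0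
  have hlog : 1 ≤ Real.log X := by
    rw [Real.le_log_iff_exp_le hX0]
    have := Real.exp_one_lt_d9
    linarith
  -- `L` and `W`
  obtain ⟨L, hL⟩ : ∃ L : ℝ, L = X ^ (2 * θ * c) * Real.log X := ⟨_, rfl⟩
  have hXp : 1 ≤ X ^ (2 * θ * c) := Real.one_le_rpow hX1 (by positivity)
  have hL1 : 1 ≤ L := by rw [hL]; exact one_le_mul_of_one_le_of_one_le hXp hlog
  have hLlog : Real.log X ≤ L := by rw [hL]; exact le_mul_of_one_le_left (by linarith) hXp
  obtain ⟨W, hW⟩ : ∃ W : ℝ, W = 3 ^ D.primeFactors.card * (D : ℝ) ^ (-1 + 2 * c) := ⟨_, rfl⟩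
  have hW0 : 0 < W := by
    rw [hW]
    have : (0 : ℝ) < D := by linarith
    positivity
  have hEdh : Edh c θ X Z D = L ^ 2 * W * Z ^ (-c) := by
    unfold Edh
    rw [← hW, hL, mul_pow]
    have e1 : (X ^ (2 * θ * c)) ^ 2 = X ^ (4 * θ * c) := by
      rw [← Real.rpow_natCast, ← Real.rpow_mul hX0.le]
      congr 1
      push_cast
      ring
    rw [e1]
    ring
  have hL2 : L ≤ L ^ 2 := by nlinarith only [hL1]
  have hL21 : 1 ≤ L ^ 2 := by nlinarith only [hL1, hL2]
  -- moduli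
  have hqX : (q : ℝ) ≤ X ^ (θ * cb / 4) :=
    hq.trans (Real.rpow_le_rpow_of_exponent_le hX1 (by rw [hε]; nlinarith only [mul_pos hθ hcb, hε, hε0]))
  have hrX : (r : ℝ) ≤ X ^ (θ * cb / 4) :=
    hr.trans (Real.rpow_le_rpow_of_exponent_le hX1 (by rw [hε]; nlinarith only [mul_pos hθ hcb, hε, hε0]))
  have hqrX : ((q * r : ℕ) : ℝ) ≤ X ^ (θ * cb / 4) := by
    push_cast
    calc (q : ℝ) * r ≤ X ^ ε * X ^ ε := mul_le_mul hq hr (by positivity) (by positivity)
      _ = X ^ (θ * cb / 4) := by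
        rw [← Real.rpow_add hX0]
        congr 1
        rw [hε]
        ring
  have h1X : ((1 : ℕ) : ℝ) ≤ X ^ (θ * cb / 4) := by
    rw [Nat.cast_one]
    exact Real.one_le_rpow hX1 (by positivity)
  -- the bounds in the critical region
  have hEFL : ∀ (m : ℕ), 1 ≤ m → (m : ℝ) ≤ X ^ (θ * cb / 4) → ∀ φ : DirichletCharacter ℂ m,
      ∀ w : ℂ, 1 - 2 * c ≤ w.re → w.re ≤ 3 → |w.im| ≤ X ^ 2 →
      ‖EF φ w‖ ≤ Cb * (if φ = 1 then 1 + ‖w - 1‖ else 1) * L := by
    intro m hm1 hm φ w h1 h2 h3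
    have h4 := hEF X hXb' m hm1 hm φ w (by rw [hc] at h1; linarith) h2 h3
    refine h4.trans ?_
    have h5 : X ^ (θ * max (1 - w.re) 0) ≤ X ^ (2 * θ * c) := by
      refine Real.rpow_le_rpow_of_exponent_le hX1 ?_
      have h6 : max (1 - w.re) 0 ≤ 2 * c := max_le (by linarith) (by linarith)
      nlinarith only [hθ, h6]
    have h7 : 0 ≤ Cb * (if φ = 1 then 1 + ‖w - 1‖ else 1) := by
      split_ifs <;> positivity
    rw [hL, mul_assoc]
    refine mul_le_mul_of_nonneg_left (mul_le_mul_of_nonneg_right h5 (by linarith)) h7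
  have hLL : ∀ (m : ℕ) [NeZero m], (m : ℝ) ≤ X ^ (θ * cb / 4) → ∀ φ : DirichletCharacter ℂ m,
      φ ≠ 1 → ∀ w : ℂ, 1 - 2 * c ≤ w.re → w.re ≤ 3 → |w.im| ≤ X ^ 2 →
      ‖DirichletCharacter.LFunction φ w‖ ≤ Cb * L := by
    intro m _ hm φ hφ w h1 h2 h3
    have h4 := hEFL m (Nat.one_le_iff_ne_zero.2 (NeZero.ne m)) hm φ w h1 h2 h3
    rwa [if_neg hφ, mul_one, EF_eq_of_ne φ hφ] at h4
  have hhD : ∀ (m : ℕ) (φ : DirichletCharacter ℂ m) (w : ℂ), 1 - 2 * c ≤ w.re →
      ‖hD χ φ D w‖ ≤ W := by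
    intro m φ w h1
    refine (hD_le χ φ D hD' w (by linarith)).trans ?_
    rw [hW]
    refine mul_le_mul_of_nonneg_left ?_ (by positivity)
    exact Real.rpow_le_rpow_of_exponent_le hD1 (by linarith)
  have htriv : ∀ (m : ℕ) [NeZero m] (φ : DirichletCharacter ℂ m) (w : ℂ), 3 / 2 ≤ w.re →
      ‖DirichletCharacter.LFunction φ w‖ ≤ 3 := by
    intro m _ φ w h1
    refine (Pool.Agent.Wb58c63.sw_triv_le φ (by linarith)).trans ?_
    rw [div_le_iff₀ (by linarith)]
    linarith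
  have hsq : 3 * X ≤ X ^ 2 := by nlinarith only [hZX, hZ4]
  -- positions
  have hpos : ∀ s z : ℂ, 1 - c ≤ s.re → s.re ≤ 1 → |s.im| ≤ X → -c ≤ z.re → z.re ≤ 1 →
      |z.im| ≤ 2 * X → 1 - 2 * c ≤ (s + z).re ∧ (s + z).re ≤ 3 ∧ |(s + z).im| ≤ X ^ 2 := by
    intro s z h1 h2 h3 h4 h5 h6
    rw [Complex.add_re, Complex.add_im]
    refine ⟨by linarith, by linarith, ?_⟩
    refine (abs_add_le _ _).trans ?_
    linarith
  have hnz : ∀ z : ℂ, (z.re = -c ∨ |z.im| = 2 * X) → c ≤ ‖z‖ := by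
    intro z hz
    rcases hz with h | h
    · have := Complex.abs_re_le_norm z
      rw [h, abs_neg, abs_of_pos hc0] at this
      exact this
    · have := Complex.abs_im_le_norm z
      linarith
  constructor
  · -- first part
    intro hψ hψχ s hs1 hs2 hs3 hzero
    obtain ⟨P, hP⟩ : ∃ P : ℂ → ℂ, P = fun z => DirichletCharacter.LFunction ψ (s + z) *
        DirichletCharacter.LFunction (chi12 ψ χ) (s + z) * hD χ ψ D (s + z) := ⟨_, rfl⟩
    have hPd : Differentiable ℂ P := by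
      rw [hP]
      have e1 : Differentiable ℂ fun z : ℂ => s + z := by fun_prop
      exact (((DirichletCharacter.differentiable_LFunction hψ).comp e1).mul
        ((DirichletCharacter.differentiable_LFunction hψχ).comp e1)).mul
        ((DHb_hD χ ψ D).comp e1)
    have hP0 : P 0 = 0 := by
      rw [hP]
      simp only [add_zero]
      rw [hzero, zero_mul]
    obtain ⟨R, hRd, hR⟩ := DHb_slope1 P hPd hP0
    have hPb : ∀ z : ℂ, -c ≤ z.re → z.re ≤ 1 → |z.im| ≤ 2 * X → ‖P z‖ ≤ Cb ^ 2 * (L ^ 2 * W) := by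
      intro z h1 h2 h3
      obtain ⟨p1, p2, p3⟩ := hpos s z hs1 hs2 hs3 h1 h2 h3
      rw [hP]
      simp only [norm_mul]
      have b1 := hLL q hqX ψ hψ (s + z) p1 p2 p3
      have b2 := hLL (q * r) hqrX (chi12 ψ χ) hψχ (s + z) p1 p2 p3
      have b3 := hhD q ψ (s + z) p1
      calc ‖DirichletCharacter.LFunction ψ (s + z)‖ *
            ‖DirichletCharacter.LFunction (chi12 ψ χ) (s + z)‖ * ‖hD χ ψ D (s + z)‖
          ≤ (Cb * L) * (Cb * L) * W :=
            mul_le_mul (mul_le_mul b1 b2 (norm_nonneg _) (by positivity)) b3 (norm_nonneg _)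
              (by positivity)
        _ = Cb ^ 2 * (L ^ 2 * W) := by ring
    have hM0 : 0 ≤ C₂ * (L ^ 2 * W) := by positivity
    have hmm := hmain c X Z (C₂ * (L ^ 2 * W)) R hc0 (by linarith) hX1 (by linarith) hZX
      hM0 hRd ?_ ?_
    · obtain ⟨-, hfin⟩ := hmm
      rw [SS_int χ ψ D hD' s (by linarith) Z (by linarith)]
      have hint : ∫ y : ℝ, DirichletCharacter.LFunction ψ (s + (1 + y * I)) *
          DirichletCharacter.LFunction (chi12 ψ χ) (s + (1 + y * I)) *
          hD χ ψ D (s + (1 + y * I)) * (Z : ℂ) ^ ((1 : ℂ) + y * I) * VV (1 + y * I) /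
          (1 + y * I) = ∫ y : ℝ, R (1 + y * I) * (Z : ℂ) ^ ((1 : ℂ) + y * I) * VV (1 + y * I) := by
        refine integral_congr_ae (Filter.Eventually.of_forall fun y => ?_)
        simp only
        have hne : (1 : ℂ) + y * I ≠ 0 := by
          intro h
          have := congrArg Complex.re h
          simp at this
        rw [hR _ hne, hP]
        ring
      rw [hint]
      refine hfin.trans (le_of_eq ?_)
      rw [hEdh]
      ring
    · intro z h1 h2 h3 h4
      have h5 := hnz z h4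
      have hz0 : z ≠ 0 := by
        intro h
        rw [h, norm_zero] at h5
        linarith
      rw [hR z hz0, norm_div]
      have h6 := hPb z h1 h2 h3
      calc ‖P z‖ / ‖z‖ ≤ Cb ^ 2 * (L ^ 2 * W) / c :=
            div_le_div₀ (by positivity) h6 hc0 h5
        _ = (Cb ^ 2 * 1 / c) * (L ^ 2 * W) := by ring
        _ ≤ C₂ * (L ^ 2 * W) := by
          refine mul_le_mul_of_nonneg_right ?_ (by positivity)
          rw [hC₂]
          have e1 : Cb ^ 2 * 1 / c ≤ Cb ^ 2 * (1 + 1 / c) / c := by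
            refine div_le_div_of_nonneg_right ?_ hc0.le
            refine mul_le_mul_of_nonneg_left ?_ (by positivity)
            have : 0 < 1 / c := by positivity
            linarith
          have e2 : 0 < Cb / c := by positivity
          linarith
    · intro z h1 h2
      have hz0 : z ≠ 0 := by
        intro h
        rw [h, Complex.zero_re] at h1
        norm_num at h1
      have h5 : 1 ≤ ‖z‖ := by
        have := Complex.abs_re_le_norm z
        rw [h1, abs_one] at this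
        exact this
      have hre : 3 / 2 ≤ (s + z).re := by
        rw [Complex.add_re, h1]
        linarith
      rw [hR z hz0, norm_div]
      have h6 : ‖P z‖ ≤ 9 * W := by
        rw [hP]
        simp only [norm_mul]
        calc ‖DirichletCharacter.LFunction ψ (s + z)‖ *
              ‖DirichletCharacter.LFunction (chi12 ψ χ) (s + z)‖ * ‖hD χ ψ D (s + z)‖
            ≤ 3 * 3 * W :=
              mul_le_mul (mul_le_mul (htriv q ψ _ hre) (htriv (q * r) _ _ hre) (norm_nonneg _)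
                (by norm_num)) (hhD q ψ _ (by linarith)) (norm_nonneg _) (by norm_num)
          _ = 9 * W := by ring
      calc ‖P z‖ / ‖z‖ ≤ ‖P z‖ := div_le_self (norm_nonneg _) h5
        _ ≤ 9 * W := h6
        _ ≤ 9 * (L ^ 2 * W) := by
          refine mul_le_mul_of_nonneg_left ?_ (by norm_num)
          exact le_mul_of_one_le_left hW0.le hL21
        _ ≤ C₂ * (L ^ 2 * W) := by
          refine mul_le_mul_of_nonneg_right ?_ (by positivity)
          rw [hC₂]
          have e1 : 0 < Cb ^ 2 * (1 + 1 / c) / c := by positivity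
          have e2 : 0 < Cb / c := by positivity
          linarith
  · -- second part
    intro s hs1 hs2 hs3 hs hzero
    obtain ⟨a, ha⟩ : ∃ a : ℂ, a = 1 - s := ⟨_, rfl⟩
    have ha0 : a ≠ 0 := by rw [ha]; exact sub_ne_zero.2 (Ne.symm hs)
    have hare : a.re = 1 - s.re := by rw [ha]; simp
    have haim : a.im = -s.im := by rw [ha]; simp
    have hsa : s + a = 1 := by rw [ha]; ring
    have hna : 0 < ‖a‖ := norm_pos_iff.2 ha0
    have hLc : DirichletCharacter.LFunction (chi12 (1 : DirichletCharacter ℂ 1) χ) =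
        DirichletCharacter.LFunction χ := by
      refine DHb_L (one_mul r) χ _ fun n => ?_
      rw [Pool.Agent.Wb58c63.chi12_apply]
      have h1 : (1 : DirichletCharacter ℂ 1) (n : ZMod 1) = 1 := by
        have h2 : (n : ZMod 1) = 1 := Subsingleton.elim _ _
        rw [h2, map_one]
      rw [h1, one_mul]
    obtain ⟨P, hP⟩ : ∃ P : ℂ → ℂ, P = fun z => EF (1 : DirichletCharacter ℂ 1) (s + z) *
        DirichletCharacter.LFunction χ (s + z) * hD χ (1 : DirichletCharacter ℂ 1) D (s + z) :=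
      ⟨_, rfl⟩
    have hPd : Differentiable ℂ P := by
      rw [hP]
      have e1 : Differentiable ℂ fun z : ℂ => s + z := by fun_prop
      exact (((EF_diff _).comp e1).mul
        ((DirichletCharacter.differentiable_LFunction hχ).comp e1)).mul
        ((DHb_hD χ _ D).comp e1)
    obtain ⟨Res, hRes⟩ : ∃ Res : ℂ, Res = DirichletCharacter.LFunction χ 1 *
        hD χ (1 : DirichletCharacter ℂ 1) D 1 / a := ⟨_, rfl⟩
    have hEne : ∀ w : ℂ, w ≠ 1 → EF (1 : DirichletCharacter ℂ 1) w = (w - 1) * riemannZeta w := by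
      intro w hw
      rw [EF_eq_one _ rfl w hw, DirichletCharacter.LFunction_modOne_eq]
    have hP0 : P 0 = 0 := by
      rw [hP]
      simp only [add_zero]
      rw [hEne s hs]
      have : (s - 1) * riemannZeta s * DirichletCharacter.LFunction χ s =
          (s - 1) * (riemannZeta s * DirichletCharacter.LFunction χ s) := by ring
      rw [this, hzero, mul_zero, zero_mul]
    have hPa : P a = Res * a := by
      rw [hP, hRes]
      simp only
      rw [hsa, DHb_E1, one_mul, div_mul_cancel₀ _ ha0]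
    obtain ⟨R, hRd, hR⟩ := DHb_slope (fun z => P z - Res * z)
      (hPd.sub ((differentiable_const _).mul differentiable_id))
      (by simp only [mul_zero, sub_zero]; exact hP0) a ha0 (by rw [hPa, sub_self])
    -- the residue
    have hResb : ‖Res‖ ≤ Cb * (L ^ 2 * W) / ‖a‖ := by
      rw [hRes, norm_div, norm_mul]
      refine div_le_div_of_nonneg_right ?_ hna.le
      have b1 := hLL r hrX χ hχ 1 (by rw [Complex.one_re]; linarith)
        (by rw [Complex.one_re]; norm_num) (by rw [Complex.one_im, abs_zero]; positivity)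
      have b2 := hhD 1 (1 : DirichletCharacter ℂ 1) 1 (by rw [Complex.one_re]; linarith)
      calc ‖DirichletCharacter.LFunction χ 1‖ * ‖hD χ (1 : DirichletCharacter ℂ 1) D 1‖
          ≤ (Cb * L) * W := mul_le_mul b1 b2 (norm_nonneg _) (by positivity)
        _ ≤ (Cb * L ^ 2) * W := by
          refine mul_le_mul_of_nonneg_right ?_ hW0.le
          exact mul_le_mul_of_nonneg_left hL2 hCb.le
        _ = Cb * (L ^ 2 * W) := by ring
    -- the bound of `R`
    have hRb : ∀ z : ℂ, c ≤ ‖z - a‖ → z ≠ 0 → ∀ B : ℝ, ‖P z / ((z - a) * z)‖ ≤ B * (L ^ 2 * W) →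
        0 ≤ B → B + Cb / c ≤ C₂ → ‖R z‖ ≤ C₂ * (1 + 1 / ‖a‖) * (L ^ 2 * W) := by
      intro z h1 hz0 B h2 hB hBC
      have hza : z - a ≠ 0 := by
        intro h
        rw [h, norm_zero] at h1
        linarith
      have e1 : R z = P z / ((z - a) * z) - Res / (z - a) := by
        rw [hR z hz0 (sub_ne_zero.1 hza)]
        field_simp
      rw [e1]
      refine (norm_sub_le _ _).trans ?_
      have h3 : ‖Res / (z - a)‖ ≤ (Cb / c) * (1 / ‖a‖) * (L ^ 2 * W) := by
        rw [norm_div]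
        calc ‖Res‖ / ‖z - a‖ ≤ (Cb * (L ^ 2 * W) / ‖a‖) / c :=
              div_le_div₀ (by positivity) hResb hc0 h1
          _ = (Cb / c) * (1 / ‖a‖) * (L ^ 2 * W) := by ring
      have h4 : 0 ≤ 1 / ‖a‖ := by positivity
      have h5 : 0 ≤ Cb / c := by positivity
      calc ‖P z / ((z - a) * z)‖ + ‖Res / (z - a)‖
          ≤ B * (L ^ 2 * W) + (Cb / c) * (1 / ‖a‖) * (L ^ 2 * W) := add_le_add h2 h3
        _ = (B + (Cb / c) * (1 / ‖a‖)) * (L ^ 2 * W) := by ring
        _ ≤ C₂ * (1 + 1 / ‖a‖) * (L ^ 2 * W) := by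
          refine mul_le_mul_of_nonneg_right ?_ (by positivity)
          have h6 : (B + Cb / c) * (1 + 1 / ‖a‖) ≤ C₂ * (1 + 1 / ‖a‖) :=
            mul_le_mul_of_nonneg_right hBC (by positivity)
          have h7 : 0 ≤ B * (1 / ‖a‖) := by positivity
          nlinarith only [h7, h5, h6]
    have hM0 : 0 ≤ C₂ * (1 + 1 / ‖a‖) * (L ^ 2 * W) := by positivity
    have hmm := hmain c X Z (C₂ * (1 + 1 / ‖a‖) * (L ^ 2 * W)) R hc0 (by linarith) hX1
      (by linarith) hZX hM0 hRd ?_ ?_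
    · -- the integral with the pole
      obtain ⟨hfi, hfin⟩ := hmm
      obtain ⟨A, _, hA⟩ := vv_isW 2
      have hpole := mellin_pole A 1 _ hA 1 (by norm_num) (by norm_num) Z hZ0 a
        (by rw [hare]; linarith)
      rw [mellin_pole_val A 1 _ hA Z hZ4 a] at hpole
      have hVi := mellin_vert A 1 _ hA 1 (by norm_num) (by norm_num)
      have hVi' : Integrable (fun y : ℝ => VV (1 + y * I)) := by
        refine hVi.congr (Filter.Eventually.of_forall fun y => ?_)
        simp only [Complex.ofReal_one]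
        rfl
      have hcd : ∀ y : ℝ, 1 - c ≤ ‖(1 : ℂ) + y * I - a‖ := by
        intro y
        have h1 := Complex.abs_re_le_norm ((1 : ℂ) + y * I - a)
        have h2 : ((1 : ℂ) + y * I - a).re = 1 - a.re := by simp
        rw [h2, hare] at h1
        have h3 := le_abs_self (1 - (1 - s.re))
        linarith
      have hne : ∀ y : ℝ, (1 : ℂ) + y * I - a ≠ 0 := by
        intro y h
        have := hcd y
        rw [h, norm_zero] at this
        linarith
      have hBi : Integrable (fun y : ℝ => Res * ((Z : ℂ) ^ ((1 : ℂ) + y * I) * VV (1 + y * I) /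
          ((1 : ℂ) + y * I - a))) := by
        refine Integrable.const_mul ?_ _
        have e1 : (fun y : ℝ => (Z : ℂ) ^ ((1 : ℂ) + y * I) * VV (1 + y * I) /
            ((1 : ℂ) + y * I - a)) = fun y : ℝ => ((Z : ℂ) ^ ((1 : ℂ) + y * I) /
            ((1 : ℂ) + y * I - a)) * VV (1 + y * I) := by
          funext y
          ring
        rw [e1]
        refine Integrable.bdd_mul (c := Z / (1 - c)) hVi' ?_ ?_
        · refine Continuous.aestronglyMeasurable ?_
          refine Continuous.div ?_ (by fun_prop) hne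
          refine Continuous.const_cpow (by fun_prop) (Or.inl ?_)
          exact_mod_cast hZ0.ne'
        · refine Filter.Eventually.of_forall fun y => ?_
          rw [norm_div, Complex.norm_cpow_eq_rpow_re_of_pos hZ0]
          have e2 : ((1 : ℂ) + y * I).re = 1 := by simp
          rw [e2, Real.rpow_one]
          exact div_le_div_of_nonneg_left hZ0.le (by linarith) (hcd y)
      have hint : ∫ y : ℝ, DirichletCharacter.LFunction (1 : DirichletCharacter ℂ 1)
          (s + (1 + y * I)) * DirichletCharacter.LFunction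
          (chi12 (1 : DirichletCharacter ℂ 1) χ) (s + (1 + y * I)) *
          hD χ (1 : DirichletCharacter ℂ 1) D (s + (1 + y * I)) *
          (Z : ℂ) ^ ((1 : ℂ) + y * I) * VV (1 + y * I) / (1 + y * I) =
          (∫ y : ℝ, R (1 + y * I) * (Z : ℂ) ^ ((1 : ℂ) + y * I) * VV (1 + y * I)) +
          ∫ y : ℝ, Res * ((Z : ℂ) ^ ((1 : ℂ) + y * I) * VV (1 + y * I) /
            ((1 : ℂ) + y * I - a)) := by
        rw [← integral_add hfi hBi]
        refine integral_congr_ae (Filter.Eventually.of_forall fun y => ?_)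
        simp only
        have hne0 : (1 : ℂ) + y * I ≠ 0 := by
          intro h
          have := congrArg Complex.re h
          simp at this
        have hne1 := hne y
        have hne2 : s + (1 + y * I) ≠ 1 := by
          intro h
          apply hne1
          rw [ha]
          linear_combination h
        rw [hR _ hne0 (sub_ne_zero.1 hne1), hP, hLc, DirichletCharacter.LFunction_modOne_eq]
        simp only
        rw [hEne _ hne2]
        have e3 : s + (1 + y * I) - 1 = (1 : ℂ) + y * I - a := by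
          rw [ha]
          ring
        rw [e3]
        field_simp
        ring
      have hres : (1 / (2 * Real.pi) : ℂ) * ∫ y : ℝ, Res * ((Z : ℂ) ^ ((1 : ℂ) + y * I) *
          VV (1 + y * I) / ((1 : ℂ) + y * I - a)) = Res * ((Z : ℂ) ^ a * VV a) := by
        rw [integral_const_mul]
        have e4 : (1 / (2 * Real.pi) : ℂ) * ∫ y : ℝ, (Z : ℂ) ^ ((1 : ℂ) + y * I) *
            VV (1 + y * I) / ((1 : ℂ) + y * I - a) = (Z : ℂ) ^ a * VV a := by
          have e5 : (Z : ℂ) ^ a * VV a = (Z : ℂ) ^ a * mellin (fun x : ℝ => (vv x : ℂ)) a := rfl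
          rw [e5, ← hpole]
          simp only [Complex.ofReal_one]
          rfl
        rw [← e4]
        ring
      have hSS : SS χ (1 : DirichletCharacter ℂ 1) s D Z - DirichletCharacter.LFunction χ 1 *
          hD χ (1 : DirichletCharacter ℂ 1) D 1 * (Z : ℂ) ^ (1 - s) * VV (1 - s) / (1 - s) =
          (1 / (2 * Real.pi) : ℂ) * ∫ y : ℝ, R (1 + y * I) * (Z : ℂ) ^ ((1 : ℂ) + y * I) *
            VV (1 + y * I) := by
        rw [SS_int χ _ D hD' s (by linarith only [hcb4, hcb, hc, hs1]) Z (by linarith), hint, mul_add, hres, hRes, ← ha]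
        ring
      rw [hSS, ← ha]
      refine hfin.trans (le_of_eq ?_)
      rw [hEdh]
      ring
    · intro z h1 h2 h3 h4
      obtain ⟨p1, p2, p3⟩ := hpos s z hs1 hs2 hs3 h1 h2 h3
      have h5 := hnz z h4
      have hz0 : z ≠ 0 := by
        intro h
        rw [h, norm_zero] at h5
        linarith
      have h6 : c ≤ ‖z - a‖ := by
        rcases h4 with h | h
        · have h7 := Complex.abs_re_le_norm (z - a)
          rw [Complex.sub_re, h, hare] at h7
          have h8 := neg_abs_le (-c - (1 - s.re))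
          linarith
        · have h7 := Complex.abs_im_le_norm (z - a)
          rw [Complex.sub_im, haim] at h7
          have h8 : |z.im| ≤ |z.im - -s.im| + |s.im| := by
            have := abs_sub_abs_le_abs_sub z.im (-s.im)
            rw [abs_neg] at this
            linarith
          linarith
      refine hRb z h6 hz0 (Cb ^ 2 * (1 + 1 / c) / c) ?_ (by positivity) (by rw [hC₂]; linarith only [])
      have hza : z - a ≠ 0 := by
        intro h
        rw [h, norm_zero] at h6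
        linarith only [h6, hc0]
      have hzap : 0 < ‖z - a‖ := by linarith
      rw [norm_div, norm_mul, hP]
      simp only [norm_mul]
      have b1 := hEFL 1 le_rfl h1X (1 : DirichletCharacter ℂ 1) (s + z) p1 p2 p3
      rw [if_pos rfl] at b1
      have e1 : s + z - 1 = z - a := by rw [ha]; ring
      rw [e1] at b1
      have b2 := hLL r hrX χ hχ (s + z) p1 p2 p3
      have b3 := hhD 1 (1 : DirichletCharacter ℂ 1) (s + z) p1
      have h9 : ‖EF (1 : DirichletCharacter ℂ 1) (s + z)‖ *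
          ‖DirichletCharacter.LFunction χ (s + z)‖ * ‖hD χ (1 : DirichletCharacter ℂ 1) D (s + z)‖
          ≤ (Cb * (1 + ‖z - a‖) * L) * (Cb * L) * W :=
        mul_le_mul (mul_le_mul b1 b2 (norm_nonneg _) (by positivity)) b3 (norm_nonneg _)
          (by positivity)
      have h10 : (1 + ‖z - a‖) / ‖z - a‖ ≤ 1 + 1 / c := by
        rw [add_div, div_self hzap.ne', add_comm]
        have := one_div_le_one_div_of_le hc0 h6
        linarith
      calc ‖EF (1 : DirichletCharacter ℂ 1) (s + z)‖ *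
            ‖DirichletCharacter.LFunction χ (s + z)‖ *
            ‖hD χ (1 : DirichletCharacter ℂ 1) D (s + z)‖ / (‖z - a‖ * ‖z‖)
          ≤ (Cb * (1 + ‖z - a‖) * L) * (Cb * L) * W / (‖z - a‖ * c) := by
            refine div_le_div₀ (by positivity) h9 (by positivity) ?_
            exact mul_le_mul_of_nonneg_left h5 hzap.le
        _ = Cb ^ 2 * ((1 + ‖z - a‖) / ‖z - a‖) / c * (L ^ 2 * W) := by
            field_simp
        _ ≤ Cb ^ 2 * (1 + 1 / c) / c * (L ^ 2 * W) := by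
            refine mul_le_mul_of_nonneg_right ?_ (by positivity)
            refine div_le_div_of_nonneg_right ?_ hc0.le
            exact mul_le_mul_of_nonneg_left h10 (by positivity)
    · intro z h1 h2
      have hz0 : z ≠ 0 := by
        intro h
        rw [h, Complex.zero_re] at h1
        norm_num at h1
      have h5 : 1 ≤ ‖z‖ := by
        have := Complex.abs_re_le_norm z
        rw [h1, abs_one] at this
        exact this
      have h6 : c ≤ ‖z - a‖ := by
        have h7 := Complex.abs_re_le_norm (z - a)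
        rw [Complex.sub_re, h1, hare] at h7
        have h8 := le_abs_self (1 - (1 - s.re))
        linarith
      refine hRb z h6 hz0 9 ?_ (by norm_num) (by
        rw [hC₂]
        have : 0 < Cb ^ 2 * (1 + 1 / c) / c := by positivity
        linarith)
      have hza : z - a ≠ 0 := by
        intro h
        rw [h, norm_zero] at h6
        linarith
      have hre : 3 / 2 ≤ (s + z).re := by
        rw [Complex.add_re, h1]
        linarith
      have hne2 : s + z ≠ 1 := by
        intro h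
        apply hza
        rw [ha]
        linear_combination h
      have e1 : P z / ((z - a) * z) = DirichletCharacter.LFunction (1 : DirichletCharacter ℂ 1)
          (s + z) * DirichletCharacter.LFunction χ (s + z) *
          hD χ (1 : DirichletCharacter ℂ 1) D (s + z) / z := by
        rw [hP, DirichletCharacter.LFunction_modOne_eq]
        simp only
        rw [hEne _ hne2]
        have e3 : s + z - 1 = z - a := by rw [ha]; ring
        rw [e3]
        field_simp
      rw [e1, norm_div]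
      have h9 : ‖DirichletCharacter.LFunction (1 : DirichletCharacter ℂ 1)
          (s + z) * DirichletCharacter.LFunction χ (s + z) *
          hD χ (1 : DirichletCharacter ℂ 1) D (s + z)‖ ≤ 9 * W := by
        simp only [norm_mul]
        calc ‖DirichletCharacter.LFunction (1 : DirichletCharacter ℂ 1) (s + z)‖ *
              ‖DirichletCharacter.LFunction χ (s + z)‖ *
              ‖hD χ (1 : DirichletCharacter ℂ 1) D (s + z)‖
            ≤ 3 * 3 * W :=
              mul_le_mul (mul_le_mul (htriv 1 _ _ hre) (htriv r _ _ hre) (norm_nonneg _)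
                (by norm_num)) (hhD 1 _ _ (by linarith)) (norm_nonneg _) (by norm_num)
          _ = 9 * W := by ring
      refine (div_le_self (norm_nonneg _) h5).trans (h9.trans ?_)
      refine mul_le_mul_of_nonneg_left ?_ (by norm_num)
      exact le_mul_of_one_le_left hW0.le hL21

end Pool.Agent.PSG
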