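import Pool.Agent.W_b58c63_h44.Df

/-!
# Interface: the two Weyl estimates of `WTail.lean`

The modules which use them take them as the class `WI`, so that they compile in parallel with `WTail.lean`; the
instance is given in `Res.lean`.
-/

set_option autoImplicit false

noncomputable section

open Finset Complex

namespace Pool.Agent.PSG

/-- The statements of `weyl_tail` and `weyl_wt`. -/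
class WI : Prop where
  weyl_tail : ∀ (θ : ℝ) (hθ : 0 < θ) (hθ1 : θ ≤ 1), ∃ c C : ℝ, 0 < c ∧ c ≤ 1 / 4 ∧ 0 < C ∧
      ∀ X : ℝ, 1 ≤ X → ∀ q : ℕ, 1 ≤ q → ∀ f : ℕ → ℂ, (∀ n, f (n + q) = f n) → (∀ n, ‖f n‖ ≤ 1) →
      ∀ s : ℂ, 1 - c / 2 ≤ s.re → s.re ≤ 3 → |s.im| ≤ X → ∀ (Z : ℝ) (N : ℕ), 1 ≤ Z → X ^ θ ≤ Z → Z ≤ N →
      ‖∑ n ∈ Ioc ⌊Z⌋₊ N, f n * (n : ℂ) ^ (-s) - mean q f * ∫ u in Z..N, (u : ℂ) ^ (-s)‖ ≤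
        C * (q : ℝ) ^ 2 * Z ^ (1 - s.re - c)
  weyl_wt : ∀ (θ : ℝ) (hθ : 0 < θ) (hθ1 : θ ≤ 1), ∃ c C : ℝ, 0 < c ∧ c ≤ 1 / 4 ∧ 0 < C ∧
      ∀ X : ℝ, 1 ≤ X → ∀ t : ℝ, |t| ≤ X → ∀ q : ℕ, 1 ≤ q → ∀ f : ℕ → ℂ, (∀ n, f (n + q) = f n) → (∀ n, ‖f n‖ ≤ 1) →
      ∀ (M₀ M₁ A : ℝ) (Φ : ℝ → ℂ), 1 ≤ M₀ → X ^ θ ≤ M₀ → M₀ ≤ M₁ → 0 ≤ A → ContDiff ℝ 1 Φ → (∀ x, x ≤ M₀ → Φ x = 0) →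
      (∀ x, M₁ ≤ x → Φ x = 0) → (∀ x, 0 < x → ‖Φ x‖ ≤ A / x) → (∀ x, 0 < x → ‖deriv Φ x‖ ≤ A / x ^ 2) →
      ‖∑ n ∈ Icc 1 ⌊M₁⌋₊, f n * (n : ℂ) ^ (-(t * I)) * Φ n - mean q f * ∫ x in M₀..M₁, (x : ℂ) ^ (-(t * I)) * Φ x‖ ≤
        C * A * (q : ℝ) ^ 2 * M₀ ^ (-c)

end Pool.Agent.PSG
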