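import Pool.Agent.W_b58c63_h44.SelQ
import Pool.Agent.W_b58c63_h44.WI

/-!
# The kernels of the large values theorem
-/

set_option autoImplicit false

noncomputable section

open Finset Complex

namespace Pool.Agent.PSG

/-- The square of a divisor sum. -/
def nu (lam : ℕ → ℝ) (n : ℕ) : ℝ := (∑ d ∈ n.divisors, lam d) ^ 2

/-- The weight of the majorant. -/
def bV (lam : ℕ → ℝ) (V : ℝ → ℝ) (L : ℝ) (n : ℕ) : ℝ := nu lam n / n * V (Real.log n / L)

/-- Smooth bumps on `[ca / 2, 2 Ca]`. -/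
def IsBump (ca Ca : ℝ) (V : ℝ → ℝ) : Prop :=
  ContDiff ℝ (⊤ : ℕ∞) V ∧ (∀ x, 0 ≤ V x ∧ V x ≤ 1) ∧ (∀ x, x ≤ ca / 2 → V x = 0) ∧ (∀ x, 2 * Ca ≤ x → V x = 0) ∧
    ∀ x, ca ≤ x → x ≤ Ca → V x = 1

/-- Existence.

Proof. `exists_contMDiff...` or `ContDiffBump` centred at `(ca + Ca) / 2`, or `Real.smoothTransition`: `V x = smoothTransition ((x - ca/2) / (ca/2)) * smoothTransition ((2 Ca - x) / Ca)`. -/
theorem exists_bump (ca Ca : ℝ) (h1 : 0 < ca) (h2 : ca < Ca) : ∃ V : ℝ → ℝ, IsBump ca Ca V := by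
  have hCa : 0 < Ca := h1.trans h2
  refine ⟨fun x => Real.smoothTransition ((x - ca / 2) / (ca / 2)) * Real.smoothTransition ((2 * Ca - x) / Ca),
    ?_, ?_, ?_, ?_, ?_⟩
  · refine ContDiff.mul ?_ ?_
    · exact Real.smoothTransition.contDiff.comp (by fun_prop)
    · exact Real.smoothTransition.contDiff.comp (by fun_prop)
  · intro x
    refine ⟨mul_nonneg (Real.smoothTransition.nonneg _) (Real.smoothTransition.nonneg _),
      mul_le_one₀ (Real.smoothTransition.le_one _) (Real.smoothTransition.nonneg _)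
        (Real.smoothTransition.le_one _)⟩
  · intro x hx
    have : Real.smoothTransition ((x - ca / 2) / (ca / 2)) = 0 :=
      Real.smoothTransition.zero_of_nonpos (div_nonpos_of_nonpos_of_nonneg (by linarith) (by linarith))
    simp only [this, zero_mul]
  · intro x hx
    have : Real.smoothTransition ((2 * Ca - x) / Ca) = 0 :=
      Real.smoothTransition.zero_of_nonpos (div_nonpos_of_nonpos_of_nonneg (by linarith) (by linarith))
    simp only [this, mul_zero]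
  · intro x hx1 hx2
    have e1 : Real.smoothTransition ((x - ca / 2) / (ca / 2)) = 1 :=
      Real.smoothTransition.one_of_one_le (by rw [le_div_iff₀ (by linarith)]; linarith)
    have e2 : Real.smoothTransition ((2 * Ca - x) / Ca) = 1 :=
      Real.smoothTransition.one_of_one_le (by rw [le_div_iff₀ (by linarith)]; linarith)
    simp only [e1, e2, mul_one]

theorem ker_harm (z : ℝ) (hz : 1 ≤ z) : ∑ d ∈ Icc 1 ⌊z⌋₊, 1 / (d : ℝ) ≤ 1 + Real.log z := by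
  have h := harmonic_floor_le_one_add_log z hz
  rw [harmonic_eq_sum_Icc] at h
  push_cast at h
  simpa [one_div] using h

theorem ker_harm_dvd (z : ℝ) (hz : 1 ≤ z) (g : ℕ) (hg : 1 ≤ g) :
    ∑ d ∈ (Icc 1 ⌊z⌋₊).filter (fun d => g ∣ d), 1 / (d : ℝ) ≤ 1 / g * (1 + Real.log z) := by
  have hg' : (0 : ℝ) < g := by exact_mod_cast hg
  have h1 : ∑ d ∈ (Icc 1 ⌊z⌋₊).filter (fun d => g ∣ d), 1 / (d : ℝ) ≤
      ∑ m ∈ Icc 1 ⌊z⌋₊, 1 / ((g * m : ℕ) : ℝ) := by
    have h2 : (Icc 1 ⌊z⌋₊).filter (fun d => g ∣ d) ⊆ (Icc 1 ⌊z⌋₊).image (fun m => g * m) := by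
      intro d hd
      rw [mem_filter, mem_Icc] at hd
      obtain ⟨⟨hd1, hd2⟩, m, rfl⟩ := hd
      rw [mem_image]
      have hm : 1 ≤ m := by
        rcases Nat.eq_zero_or_pos m with rfl | h
        · simp at hd1
        · exact h
      refine ⟨m, ?_, rfl⟩
      rw [mem_Icc]
      exact ⟨hm, le_trans (Nat.le_mul_of_pos_left m hg) hd2⟩
    refine (Finset.sum_le_sum_of_subset_of_nonneg h2 fun i _ _ => by positivity).trans ?_
    rw [Finset.sum_image]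
    intro a _ b _ hab
    exact Nat.eq_of_mul_eq_mul_left hg hab
  refine h1.trans ?_
  have h3 : ∑ m ∈ Icc 1 ⌊z⌋₊, 1 / ((g * m : ℕ) : ℝ) = 1 / g * ∑ m ∈ Icc 1 ⌊z⌋₊, 1 / (m : ℝ) := by
    rw [Finset.mul_sum]
    refine Finset.sum_congr rfl fun m _ => ?_
    push_cast
    rw [one_div_mul_one_div]
  rw [h3]
  exact mul_le_mul_of_nonneg_left (ker_harm z hz) (by positivity)

/-- Sums over pairs of `1 / lcm`.

Proof. `1 / lcm d e = gcd d e / (d e)`; group by `g = gcd d e`, `d = g d'`, `e = g e'`: `∑ ≤ ∑_{g ≤ z} (1 / g) (∑_{d' ≤ z} 1 / d') ^ 2 ≤ (1 + log z) ^ 3`. Or `gcd d e ≤ ∑_{g ∣ d, g ∣ e} g`. -/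
theorem sum_lcm (z : ℝ) (hz : 1 ≤ z) :
    ∑ d ∈ Icc 1 ⌊z⌋₊, ∑ e ∈ Icc 1 ⌊z⌋₊, 1 / (Nat.lcm d e : ℝ) ≤ (1 + Real.log z) ^ 3 := by
  have hlog : 0 ≤ 1 + Real.log z := by linarith [Real.log_nonneg hz]
  set N := ⌊z⌋₊ with hN
  have key : ∀ d ∈ Icc 1 N, ∀ e ∈ Icc 1 N, 1 / (Nat.lcm d e : ℝ) ≤
      ∑ g ∈ Icc 1 N, (g : ℝ) * ((if g ∣ d then 1 / (d : ℝ) else 0) * (if g ∣ e then 1 / (e : ℝ) else 0)) := by
    intro d hd e he
    rw [mem_Icc] at hd he
    have hd0 : 0 < d := by omega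
    have he0 : 0 < e := by omega
    have hgcd : 0 < Nat.gcd d e := Nat.gcd_pos_of_pos_left _ hd0
    have hmem : Nat.gcd d e ∈ Icc 1 N := by
      rw [mem_Icc]
      exact ⟨hgcd, (Nat.gcd_le_left e hd0).trans hd.2⟩
    have hge := Finset.single_le_sum (f := fun g : ℕ => (g : ℝ) *
      ((if g ∣ d then 1 / (d : ℝ) else 0) * (if g ∣ e then 1 / (e : ℝ) else 0)))
      (fun i _ => by positivity) hmem
    refine le_trans (le_of_eq ?_) hge
    simp only [Nat.gcd_dvd_left, Nat.gcd_dvd_right, if_true]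
    have h1 : (Nat.gcd d e : ℝ) * (Nat.lcm d e : ℝ) = d * e := by
      exact_mod_cast Nat.gcd_mul_lcm d e
    have hd' : (0 : ℝ) < d := by exact_mod_cast hd0
    have he' : (0 : ℝ) < e := by exact_mod_cast he0
    have hl' : (0 : ℝ) < Nat.lcm d e := by exact_mod_cast Nat.lcm_pos hd0 he0
    rw [one_div_mul_one_div, ← h1]
    have hg' : (0 : ℝ) < Nat.gcd d e := by exact_mod_cast hgcd
    field_simp
  calc ∑ d ∈ Icc 1 N, ∑ e ∈ Icc 1 N, 1 / (Nat.lcm d e : ℝ)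
      ≤ ∑ d ∈ Icc 1 N, ∑ e ∈ Icc 1 N, ∑ g ∈ Icc 1 N, (g : ℝ) *
        ((if g ∣ d then 1 / (d : ℝ) else 0) * (if g ∣ e then 1 / (e : ℝ) else 0)) :=
        Finset.sum_le_sum fun d hd => Finset.sum_le_sum fun e he => key d hd e he
    _ = ∑ g ∈ Icc 1 N, (g : ℝ) * ((∑ d ∈ (Icc 1 N).filter (fun d => g ∣ d), 1 / (d : ℝ)) *
          ∑ e ∈ (Icc 1 N).filter (fun e => g ∣ e), 1 / (e : ℝ)) := by
        have hswap : ∀ d ∈ Icc 1 N, (∑ e ∈ Icc 1 N, ∑ g ∈ Icc 1 N, (g : ℝ) *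
            ((if g ∣ d then 1 / (d : ℝ) else 0) * (if g ∣ e then 1 / (e : ℝ) else 0))) =
            ∑ g ∈ Icc 1 N, (g : ℝ) * ((if g ∣ d then 1 / (d : ℝ) else 0) *
              ∑ e ∈ Icc 1 N, (if g ∣ e then 1 / (e : ℝ) else 0)) := by
          intro d _
          rw [Finset.sum_comm]
          refine Finset.sum_congr rfl fun g _ => ?_
          rw [Finset.mul_sum, Finset.mul_sum]
        rw [Finset.sum_congr rfl hswap, Finset.sum_comm]
        refine Finset.sum_congr rfl fun g _ => ?_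
        rw [Finset.sum_filter, Finset.sum_mul, Finset.mul_sum]
    _ ≤ ∑ g ∈ Icc 1 N, (g : ℝ) * ((1 / g * (1 + Real.log z)) * (1 / g * (1 + Real.log z))) := by
        refine Finset.sum_le_sum fun g hg => ?_
        rw [mem_Icc] at hg
        have h := ker_harm_dvd z hz g hg.1
        have h0 : 0 ≤ ∑ d ∈ (Icc 1 N).filter (fun d => g ∣ d), 1 / (d : ℝ) :=
          Finset.sum_nonneg fun _ _ => by positivity
        refine mul_le_mul_of_nonneg_left ?_ (by positivity)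
        exact mul_le_mul h h h0 (by positivity)
    _ = (∑ g ∈ Icc 1 N, 1 / (g : ℝ)) * (1 + Real.log z) ^ 2 := by
        rw [Finset.sum_mul]
        refine Finset.sum_congr rfl fun g hg => ?_
        rw [mem_Icc] at hg
        have : (0 : ℝ) < g := by exact_mod_cast hg.1
        field_simp
    _ ≤ (1 + Real.log z) * (1 + Real.log z) ^ 2 :=
        mul_le_mul_of_nonneg_right (ker_harm z hz) (by positivity)
    _ = _ := by ring

theorem ker_sum_dvd (M D : ℕ) (hD : 1 ≤ D) (g : ℕ → ℂ) :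
    ∑ n ∈ (Icc 1 M).filter (fun n => D ∣ n), g n = ∑ m ∈ Icc 1 (M / D), g (D * m) := by
  symm
  refine Finset.sum_bij (fun m _ => D * m) ?_ ?_ ?_ ?_
  · intro m hm
    rw [mem_Icc] at hm
    rw [mem_filter, mem_Icc]
    refine ⟨⟨Nat.mul_pos hD hm.1, ?_⟩, Dvd.intro m rfl⟩
    have := (Nat.le_div_iff_mul_le hD).1 hm.2
    rwa [mul_comm] at this
  · intro a _ b _ h
    exact Nat.eq_of_mul_eq_mul_left hD h
  · intro n hn
    rw [mem_filter, mem_Icc] at hn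
    obtain ⟨⟨h1, h2⟩, m, rfl⟩ := hn
    refine ⟨m, ?_, rfl⟩
    rw [mem_Icc]
    refine ⟨?_, ?_⟩
    · rcases Nat.eq_zero_or_pos m with rfl | h
      · simp at h1
      · exact h
    · rw [Nat.le_div_iff_mul_le hD, mul_comm]; exact h2
  · intro m _; rfl

/-- Expansion of the majorant.

Proof. `nu lam n = ∑_{d, e ∣ n} lam d lam e`, and `d ∣ n, e ∣ n` iff `lcm d e ∣ n`; `lam` vanishes off `SF z`. Put `n = D m`, `D = lcm d e`. -/
theorem nu_expand (lam : ℕ → ℝ) (z : ℝ) (hl : ∀ d, d ∉ SF z → lam d = 0) (M : ℕ) (g : ℕ → ℂ) :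
    ∑ n ∈ Icc 1 M, (nu lam n : ℂ) * g n = ∑ d ∈ SF z, ∑ e ∈ SF z, (lam d : ℂ) * (lam e : ℂ) *
      ∑ m ∈ Icc 1 (M / Nat.lcm d e), g (Nat.lcm d e * m) := by
  have h1 : ∀ n ∈ Icc 1 M, (∑ d ∈ n.divisors, lam d) = ∑ d ∈ SF z, if d ∣ n then lam d else 0 := by
    intro n hn
    rw [mem_Icc] at hn
    rw [← Finset.sum_filter]
    have h2 : ∑ d ∈ n.divisors, lam d = ∑ d ∈ n.divisors.filter (fun d => d ∈ SF z), lam d := by
      rw [Finset.sum_filter]
      refine Finset.sum_congr rfl fun d _ => ?_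
      split_ifs with h
      · rfl
      · exact hl d h
    rw [h2]
    refine Finset.sum_congr ?_ fun _ _ => rfl
    ext d
    simp only [mem_filter, Nat.mem_divisors]
    constructor
    · rintro ⟨⟨h3, _⟩, h4⟩; exact ⟨h4, h3⟩
    · rintro ⟨h3, h4⟩; exact ⟨⟨h4, by omega⟩, h3⟩
  have h2 : ∀ n ∈ Icc 1 M, (nu lam n : ℂ) * g n = ∑ d ∈ SF z, ∑ e ∈ SF z, (lam d : ℂ) * (lam e : ℂ) *
      (if Nat.lcm d e ∣ n then g n else 0) := by
    intro n hn
    unfold nu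
    rw [h1 n hn, sq, Finset.sum_mul_sum]
    push_cast
    rw [Finset.sum_mul]
    refine Finset.sum_congr rfl fun d _ => ?_
    rw [Finset.sum_mul]
    refine Finset.sum_congr rfl fun e _ => ?_
    by_cases hd : d ∣ n
    · by_cases he : e ∣ n
      · have : Nat.lcm d e ∣ n := Nat.lcm_dvd hd he
        simp [hd, he, this]
      · have : ¬ Nat.lcm d e ∣ n := fun h => he ((Nat.dvd_lcm_right d e).trans h)
        simp [hd, he, this]
    · have : ¬ Nat.lcm d e ∣ n := fun h => hd ((Nat.dvd_lcm_left d e).trans h)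
      simp [hd, this]
  rw [Finset.sum_congr rfl h2, Finset.sum_comm]
  refine Finset.sum_congr rfl fun d hd => ?_
  rw [Finset.sum_comm]
  refine Finset.sum_congr rfl fun e he => ?_
  rw [← Finset.mul_sum, ← Finset.sum_filter, ker_sum_dvd]
  have hd1 : 1 ≤ d := by
    unfold SF at hd; rw [mem_filter, mem_Icc] at hd; exact hd.1.1
  have he1 : 1 ≤ e := by
    unfold SF at he; rw [mem_filter, mem_Icc] at he; exact he.1.1
  exact Nat.lcm_pos hd1 he1


/-- The Fourier transform of the bump. -/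
def Fh (V : ℝ → ℝ) (ξ : ℝ) : ℂ := ∫ v : ℝ, (V v : ℂ) * Complex.exp (-(ξ * v * I))

theorem ker_compact (ca Ca : ℝ) (V : ℝ → ℝ) (hV : IsBump ca Ca V) : HasCompactSupport V := by
  refine HasCompactSupport.of_support_subset_isCompact (isCompact_Icc (a := ca / 2) (b := 2 * Ca)) ?_
  intro x hx
  rw [Function.mem_support] at hx
  refine ⟨?_, ?_⟩
  · by_contra h
    exact hx (hV.2.2.1 x (by linarith))
  · by_contra h
    exact hx (hV.2.2.2.1 x (by linarith))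

/-- The Fourier transform of the bump.

Proof. Twice integration by parts; `V` is smooth with compact support. -/
theorem bump_fourier (ca Ca : ℝ) (V : ℝ → ℝ) (hV : IsBump ca Ca V) : ∃ C : ℝ, 0 < C ∧ ∀ ξ : ℝ,
    ‖∫ v : ℝ, (V v : ℂ) * Complex.exp (-(ξ * v * I))‖ ≤ C / (1 + ξ ^ 2) := by
  have hVs : ContDiff ℝ 2 V := hV.1.of_le (by norm_cast)
  have hVc := ker_compact ca Ca V hV
  set f : ℝ → ℂ := fun v => (V v : ℂ) with hf
  have hfs : ContDiff ℝ 2 f := Complex.ofRealCLM.contDiff.comp hVs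
  have hfc : HasCompactSupport f := hVc.comp_left (g := fun x : ℝ => (x : ℂ)) (by simp)
  have hd1 : ContDiff ℝ 1 (deriv f) := (contDiff_succ_iff_deriv.1 (by exact_mod_cast hfs)).2.2
  have hd2 : Continuous (deriv (deriv f)) := hd1.continuous_deriv le_rfl
  have hc1 : HasCompactSupport (deriv f) := hfc.deriv
  have hc2 : HasCompactSupport (deriv (deriv f)) := hc1.deriv
  have hi0 : MeasureTheory.Integrable f := hfs.continuous.integrable_of_hasCompactSupport hfc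
  have hi1 : MeasureTheory.Integrable (deriv f) := hd1.continuous.integrable_of_hasCompactSupport hc1
  have hi2 : MeasureTheory.Integrable (deriv (deriv f)) := hd2.integrable_of_hasCompactSupport hc2
  set C1 := ∫ v, ‖f v‖ with hC1
  set C2 := ∫ v, ‖deriv (deriv f) v‖ with hC2
  have hC1n : 0 ≤ C1 := MeasureTheory.integral_nonneg fun _ => norm_nonneg _
  have hC2n : 0 ≤ C2 := MeasureTheory.integral_nonneg fun _ => norm_nonneg _
  refine ⟨C1 + C2 + 1, by linarith, fun ξ => ?_⟩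
  have hE : ∀ v : ℝ, ‖Complex.exp (-(ξ * v * I))‖ = 1 := by
    intro v
    have : (-(ξ * v * I) : ℂ) = ((-(ξ * v) : ℝ) : ℂ) * I := by push_cast; ring
    rw [this, Complex.norm_exp_ofReal_mul_I]
  have hb1 : ‖∫ v : ℝ, f v * Complex.exp (-(ξ * v * I))‖ ≤ C1 := by
    refine (MeasureTheory.norm_integral_le_integral_norm _).trans (le_of_eq ?_)
    congr 1
    funext v
    rw [norm_mul, hE, mul_one]
  have hEd : ∀ v : ℝ, HasDerivAt (fun v : ℝ => Complex.exp (-(ξ * v * I))) (-(ξ * I) * Complex.exp (-(ξ * v * I))) v := by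
    intro v
    have h1 : HasDerivAt (fun v : ℝ => (-(ξ * v * I) : ℂ)) (-(ξ * I)) v := by
      have h2 : HasDerivAt (fun v : ℝ => (v : ℂ)) 1 v := Complex.ofRealCLM.hasDerivAt
      have h3 := ((h2.const_mul (ξ : ℂ)).mul_const I).neg
      rw [mul_one] at h3
      exact h3
    have h2 := h1.cexp
    rw [mul_comm]
    exact h2
  have hEc : Continuous (fun v : ℝ => Complex.exp (-(ξ * v * I))) := by fun_prop
  -- integration by parts
  have hparts : ∀ g : ℝ → ℂ, ContDiff ℝ 1 g → HasCompactSupport g →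
      (ξ * I : ℂ) * ∫ v : ℝ, g v * Complex.exp (-(ξ * v * I)) = ∫ v : ℝ, deriv g v * Complex.exp (-(ξ * v * I)) := by
    intro g hg hgc
    have h1 := MeasureTheory.integral_mul_deriv_eq_deriv_mul_of_integrable (u := g)
      (v := fun v : ℝ => Complex.exp (-(ξ * v * I))) (u' := deriv g)
      (v' := fun v : ℝ => -(ξ * I) * Complex.exp (-(ξ * v * I)))
      (fun x _ => (hg.differentiable one_ne_zero x).hasDerivAt) (fun x _ => hEd x)
      ((hg.continuous.mul (continuous_const.mul hEc)).integrable_of_hasCompactSupport (hgc.mul_right))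
      (((hg.continuous_deriv le_rfl).mul hEc).integrable_of_hasCompactSupport (hgc.deriv.mul_right))
      ((hg.continuous.mul hEc).integrable_of_hasCompactSupport (hgc.mul_right))
    have h2 : (∫ v : ℝ, g v * (-(ξ * I) * Complex.exp (-(ξ * v * I)))) =
        -(ξ * I) * ∫ v : ℝ, g v * Complex.exp (-(ξ * v * I)) := by
      rw [← MeasureTheory.integral_const_mul]
      congr 1
      funext v
      ring
    rw [h2] at h1
    linear_combination -h1
  have hb2 : ξ ^ 2 * ‖∫ v : ℝ, f v * Complex.exp (-(ξ * v * I))‖ ≤ C2 := by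
    have h1 := hparts f (hfs.of_le (by norm_num)) hfc
    have h2 := hparts (deriv f) hd1 hc1
    rw [← h1] at h2
    have h3 : ξ ^ 2 * ‖∫ v : ℝ, f v * Complex.exp (-(ξ * v * I))‖ =
        ‖∫ v : ℝ, deriv (deriv f) v * Complex.exp (-(ξ * v * I))‖ := by
      rw [← h2]
      simp only [norm_mul, Complex.norm_I, Complex.norm_real, Real.norm_eq_abs, mul_one]
      rw [← mul_assoc, abs_mul_abs_self, sq]
    rw [h3]
    refine (MeasureTheory.norm_integral_le_integral_norm _).trans (le_of_eq ?_)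
    congr 1
    funext v
    rw [norm_mul, hE, mul_one]
  rw [le_div_iff₀ (by positivity)]
  nlinarith


/-- The smooth weight `V(log (D x) / L) / x`, extended by zero. -/
def Ph (V : ℝ → ℝ) (L : ℝ) (D : ℕ) (x : ℝ) : ℂ :=
  if x ≤ 0 then 0 else ((V (Real.log (D * x) / L) / x : ℝ) : ℂ)

theorem Ph_pos (V : ℝ → ℝ) (L : ℝ) (D : ℕ) (x : ℝ) (hx : 0 < x) :
    Ph V L D x = ((V (Real.log (D * x) / L) / x : ℝ) : ℂ) := by
  unfold Ph
  rw [if_neg (not_le.2 hx)]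

theorem Ph_lo (ca Ca : ℝ) (V : ℝ → ℝ) (hV : IsBump ca Ca V) (L : ℝ) (hL : 1 ≤ L) (D : ℕ) (hD : 1 ≤ D) (x : ℝ)
    (hx : x ≤ Real.exp (ca * L / 2) / D) : Ph V L D x = 0 := by
  have hD' : (0 : ℝ) < D := by exact_mod_cast hD
  by_cases h : x ≤ 0
  · unfold Ph; rw [if_pos h]
  · rw [not_le] at h
    rw [Ph_pos V L D x h]
    have h1 : (D : ℝ) * x ≤ Real.exp (ca * L / 2) := by
      rw [le_div_iff₀ hD'] at hx; linarith
    have h2 : Real.log (D * x) ≤ ca * L / 2 := by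
      rw [Real.log_le_iff_le_exp (by positivity)]; exact h1
    have h3 : V (Real.log (D * x) / L) = 0 := by
      refine hV.2.2.1 _ ?_
      rw [div_le_iff₀ (by linarith)]; linarith
    rw [h3]; simp

theorem Ph_hi (ca Ca : ℝ) (V : ℝ → ℝ) (hV : IsBump ca Ca V) (L : ℝ) (hL : 1 ≤ L) (D : ℕ) (hD : 1 ≤ D) (x : ℝ)
    (hx : Real.exp (2 * Ca * L) / D ≤ x) : Ph V L D x = 0 := by
  have hD' : (0 : ℝ) < D := by exact_mod_cast hD
  have hx0 : 0 < x := lt_of_lt_of_le (by positivity) hx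
  rw [Ph_pos V L D x hx0]
  have h1 : Real.exp (2 * Ca * L) ≤ (D : ℝ) * x := by
    rw [div_le_iff₀ hD'] at hx; linarith
  have h2 : 2 * Ca * L ≤ Real.log (D * x) := by
    rw [Real.le_log_iff_exp_le (by positivity)]; exact h1
  have h3 : V (Real.log (D * x) / L) = 0 := by
    refine hV.2.2.2.1 _ ?_
    rw [le_div_iff₀ (by linarith)]; linarith
  rw [h3]; simp

theorem Ph_hasDerivAt (ca Ca : ℝ) (V : ℝ → ℝ) (hV : IsBump ca Ca V) (L : ℝ) (hL : 1 ≤ L) (D : ℕ) (hD : 1 ≤ D)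
    (x : ℝ) (hx : 0 < x) :
    HasDerivAt (Ph V L D) (((deriv V (Real.log (D * x) / L) / L - V (Real.log (D * x) / L)) / x ^ 2 : ℝ) : ℂ) x := by
  have hD' : (0 : ℝ) < D := by exact_mod_cast hD
  have hVd : Differentiable ℝ V := hV.1.differentiable (by norm_num)
  have h1 : HasDerivAt (fun y : ℝ => Real.log (D * y) / L) ((1 / x) / L) x := by
    have h2 : HasDerivAt (fun y : ℝ => (D : ℝ) * y) (D : ℝ) x := by
      simpa using (hasDerivAt_id x).const_mul (D : ℝ)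
    have h3 := (h2.log (by positivity)).div_const L
    refine h3.congr_deriv ?_
    field_simp
  have h2 : HasDerivAt (fun y : ℝ => V (Real.log (D * y) / L)) (deriv V (Real.log (D * x) / L) * ((1 / x) / L)) x :=
    HasDerivAt.comp x (hVd _).hasDerivAt h1
  have h3 : HasDerivAt (fun y : ℝ => V (Real.log (D * y) / L) / y)
      ((deriv V (Real.log (D * x) / L) / L - V (Real.log (D * x) / L)) / x ^ 2) x := by
    have h4 := h2.div (hasDerivAt_id x) hx.ne'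
    refine h4.congr_deriv ?_
    simp only [id]
    have : L ≠ 0 := by linarith
    field_simp
  have h4 := h3.ofReal_comp
  refine h4.congr_of_eventuallyEq ?_
  filter_upwards [lt_mem_nhds hx] with y hy
  exact Ph_pos V L D y hy

theorem Ph_contDiff (ca Ca : ℝ) (V : ℝ → ℝ) (hV : IsBump ca Ca V) (L : ℝ) (hL : 1 ≤ L) (D : ℕ) (hD : 1 ≤ D) :
    ContDiff ℝ 1 (Ph V L D) := by
  have hD' : (0 : ℝ) < D := by exact_mod_cast hD
  rw [contDiff_iff_contDiffAt]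
  intro x
  by_cases hx : 0 < x
  · have h1 : ContDiffAt ℝ 1 (fun y : ℝ => ((V (Real.log (D * y) / L) / y : ℝ) : ℂ)) x := by
      refine Complex.ofRealCLM.contDiff.contDiffAt.comp x ?_
      refine ContDiffAt.div ?_ contDiffAt_id hx.ne'
      refine (hV.1.of_le (by norm_cast)).contDiffAt.comp x ?_
      refine ContDiffAt.div_const ?_ L
      refine ContDiffAt.log (by fun_prop) (by positivity)
    refine h1.congr_of_eventuallyEq ?_
    filter_upwards [lt_mem_nhds hx] with y hy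
    exact Ph_pos V L D y hy
  · rw [not_lt] at hx
    have h2 : x < Real.exp (ca * L / 2) / D := lt_of_le_of_lt hx (by positivity)
    have h1 : ContDiffAt ℝ 1 (fun _ : ℝ => (0 : ℂ)) x := contDiffAt_const
    refine h1.congr_of_eventuallyEq ?_
    filter_upwards [gt_mem_nhds h2] with y hy
    exact Ph_lo ca Ca V hV L hL D hD y hy.le

/-- The substitution `x = exp (L v) / D`. -/
theorem Ph_integral (ca Ca : ℝ) (V : ℝ → ℝ) (hV : IsBump ca Ca V) (L : ℝ) (hL : 1 ≤ L)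
    (D : ℕ) (hD : 1 ≤ D) (τ : ℝ) :
    ∫ x in (Real.exp (ca * L / 2) / D)..(Real.exp (2 * Ca * L) / D), (x : ℂ) ^ (-(τ * I)) * Ph V L D x =
      (D : ℂ) ^ (τ * I) * ((L : ℂ) * Fh V (τ * L)) := by
  have hD' : (0 : ℝ) < D := by exact_mod_cast hD
  have hL0 : 0 < L := by linarith
  have hsub : ∫ v in (ca / 2)..(2 * Ca),
      ((fun x : ℝ => (x : ℂ) ^ (-(τ * I)) * Ph V L D x) ∘ (fun v : ℝ => Real.exp (L * v) / D)) v *
        ((L * Real.exp (L * v) / D : ℝ) : ℂ) =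
      ∫ x in (Real.exp (L * (ca / 2)) / D)..(Real.exp (L * (2 * Ca)) / D), (x : ℂ) ^ (-(τ * I)) * Ph V L D x := by
    have := intervalIntegral.integral_deriv_smul_comp'' (a := ca / 2) (b := 2 * Ca)
      (f := fun v : ℝ => Real.exp (L * v) / D) (f' := fun v : ℝ => L * Real.exp (L * v) / D)
      (g := fun x : ℝ => (x : ℂ) ^ (-(τ * I)) * Ph V L D x) (by fun_prop) ?_ ?_ ?_
    · rw [← this]
      refine intervalIntegral.integral_congr fun v _ => ?_
      simp only [Function.comp, Complex.real_smul]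
      ring
    · intro x _
      refine HasDerivAt.hasDerivWithinAt ?_
      have h3 : HasDerivAt (fun v : ℝ => L * v) L x := by
        simpa using (hasDerivAt_id x).const_mul L
      have h4 := (h3.exp).div_const (D : ℝ)
      refine h4.congr_deriv ?_
      ring
    · fun_prop
    · intro x hx
      obtain ⟨v, _, rfl⟩ := hx
      refine ContinuousAt.continuousWithinAt ?_
      refine ContinuousAt.mul ?_ ?_
      · have hpos : (0 : ℝ) < Real.exp (L * v) / D := by positivity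
        have hsl : (((Real.exp (L * v) / D : ℝ)) : ℂ) ∈ Complex.slitPlane :=
          Complex.ofReal_mem_slitPlane.2 hpos
        exact ContinuousAt.comp (f := fun x : ℝ => (x : ℂ)) (continuousAt_cpow_const hsl) (by fun_prop)
      · exact (Ph_contDiff ca Ca V hV L hL D hD).continuous.continuousAt
  have e1 : L * (ca / 2) = ca * L / 2 := by ring
  have e2 : L * (2 * Ca) = 2 * Ca * L := by ring
  rw [e1, e2] at hsub
  rw [← hsub]
  have hF : Fh V (τ * L) = ∫ v in (ca / 2)..(2 * Ca), (V v : ℂ) * Complex.exp (-((τ * L : ℝ) * v * I)) := by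
    unfold Fh
    rw [intervalIntegral.integral_eq_integral_of_support_subset]
    intro v hv
    rw [Function.mem_support] at hv
    refine ⟨?_, ?_⟩
    · by_contra h
      rw [not_lt] at h
      apply hv
      rw [hV.2.2.1 v h]; simp
    · by_contra h
      rw [not_le] at h
      apply hv
      rw [hV.2.2.2.1 v h.le]; simp
  rw [hF, ← mul_assoc, ← intervalIntegral.integral_const_mul]
  refine intervalIntegral.integral_congr fun v _ => ?_
  simp only [Function.comp]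
  have hx0 : 0 < Real.exp (L * v) / D := by positivity
  rw [Ph_pos V L D _ hx0]
  have e3 : (D : ℝ) * (Real.exp (L * v) / D) = Real.exp (L * v) := by field_simp
  rw [e3, Real.log_exp]
  have e4 : L * v / L = v := by field_simp
  rw [e4]
  have e5 : ((Real.exp (L * v) / D : ℝ) : ℂ) ^ (-(τ * I)) =
      (D : ℂ) ^ (τ * I) * Complex.exp (-((τ * L : ℝ) * v * I)) := by
    rw [Complex.cpow_def_of_ne_zero (by exact_mod_cast hx0.ne'),
      Complex.cpow_def_of_ne_zero (by exact_mod_cast hD'.ne'), ← Complex.exp_add]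
    congr 1
    rw [← Complex.ofReal_log hx0.le, Real.log_div (Real.exp_pos _).ne' hD'.ne', Real.log_exp, ← Complex.natCast_log]
    push_cast
    ring
  rw [e5]
  push_cast
  have hD'' : (D : ℂ) ≠ 0 := by exact_mod_cast hD'.ne'
  have hE : Complex.exp ((L : ℂ) * v) ≠ 0 := Complex.exp_ne_zero _
  field_simp


theorem ker_norm_cpow (D : ℕ) (hD : 1 ≤ D) (τ : ℝ) : ‖(D : ℂ) ^ (-(τ * I))‖ = 1 := by
  rw [Complex.norm_natCast_cpow_of_pos hD]
  simp

theorem ker_sf (z : ℝ) (d : ℕ) (hd : d ∈ SF z) : 1 ≤ d ∧ d ≤ ⌊z⌋₊ := by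
  unfold SF at hd
  rw [mem_filter, mem_Icc] at hd
  exact hd.1

/-- One term of the expansion. -/
theorem ker_term [WI] (ca Ca : ℝ) (h1 : 0 < ca) (h1' : ca < 1) (h2 : 1 < Ca) (V : ℝ → ℝ) (hV : IsBump ca Ca V)
    (θ : ℝ) (hθ : 0 < θ) (hθ1 : θ ≤ 1) : ∃ c C : ℝ, 0 < c ∧ c ≤ 1 / 4 ∧ 0 < C ∧ ∀ X : ℝ, 1 ≤ X → ∀ L : ℝ, 1 ≤ L →
    4 * (θ * Real.log X) / ca ≤ L → ∀ (q : ℕ), 1 ≤ q → ∀ f : ℕ → ℂ, (∀ n, f (n + q) = f n) → (∀ n, ‖f n‖ ≤ 1) →
    (∀ m n, f (m * n) = f m * f n) → ∀ τ : ℝ, |τ| ≤ X → ∀ D : ℕ, 1 ≤ D → (D : ℝ) ≤ Real.exp (ca * L / 4) →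
    ‖∑ m ∈ Icc 1 (⌊Real.exp (2 * Ca * L)⌋₊ / D), (1 / ((D * m : ℕ) : ℂ)) * ((V (Real.log ((D * m : ℕ) : ℝ) / L) : ℝ) : ℂ) *
        (f (D * m) * ((D * m : ℕ) : ℂ) ^ (-(τ * I))) -
      mean q f * ((L : ℂ) * Fh V (τ * L)) * (f D / (D : ℂ))‖ ≤
      1 / (D : ℝ) * (C * (q : ℝ) ^ 2 * Real.exp (-(c * (ca * L / 4)))) := by
  obtain ⟨c₀, C₀, hc₀, hc₀', hC₀, hw⟩ := WI.weyl_wt θ hθ hθ1
  have hVc := ker_compact ca Ca V hV
  obtain ⟨A', hA'⟩ := hVc.deriv.exists_bound_of_continuous (hV.1.continuous_deriv (by norm_cast))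
  have hA'0 : 0 ≤ A' := (norm_nonneg _).trans (hA' 0)
  refine ⟨c₀, C₀ * (1 + A'), hc₀, hc₀', by positivity, ?_⟩
  intro X hX L hL hXL q hq f hf1 hf2 hf3 τ hτ D hD hDz
  have hD' : (0 : ℝ) < D := by exact_mod_cast hD
  have hL0 : 0 < L := by linarith
  set M₀ := Real.exp (ca * L / 2) / D with hM₀
  set M₁ := Real.exp (2 * Ca * L) / D with hM₁
  have hM₀l : Real.exp (ca * L / 4) ≤ M₀ := by
    rw [hM₀, le_div_iff₀ hD']
    calc Real.exp (ca * L / 4) * D ≤ Real.exp (ca * L / 4) * Real.exp (ca * L / 4) :=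
          mul_le_mul_of_nonneg_left hDz (Real.exp_pos _).le
      _ = Real.exp (ca * L / 2) := by rw [← Real.exp_add]; congr 1; ring
  have hXθ : X ^ θ ≤ Real.exp (ca * L / 4) := by
    rw [Real.rpow_def_of_pos (by linarith)]
    refine Real.exp_le_exp.2 ?_
    rw [div_le_iff₀ h1] at hXL
    linarith
  have h1M : 1 ≤ Real.exp (ca * L / 4) := Real.one_le_exp (by positivity)
  have hM01 : M₀ ≤ M₁ := by
    rw [hM₀, hM₁]
    refine div_le_div_of_nonneg_right (Real.exp_le_exp.2 ?_) hD'.le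
    nlinarith
  have hmain := hw X hX τ hτ q hq f hf1 hf2 M₀ M₁ (1 + A') (Ph V L D) (h1M.trans hM₀l) (hXθ.trans hM₀l) hM01
    (by linarith) (Ph_contDiff ca Ca V hV L hL D hD) (fun x hx => Ph_lo ca Ca V hV L hL D hD x hx)
    (fun x hx => Ph_hi ca Ca V hV L hL D hD x hx) ?_ ?_
  · rw [Ph_integral ca Ca V hV L hL D hD τ] at hmain
    have hfl : ⌊M₁⌋₊ = ⌊Real.exp (2 * Ca * L)⌋₊ / D := by
      rw [hM₁]; exact Nat.floor_div_natCast _ _
    rw [hfl] at hmain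
    have hDc : (D : ℂ) ≠ 0 := by exact_mod_cast hD'.ne'
    have hsum : ∑ m ∈ Icc 1 (⌊Real.exp (2 * Ca * L)⌋₊ / D), (1 / ((D * m : ℕ) : ℂ)) *
        ((V (Real.log ((D * m : ℕ) : ℝ) / L) : ℝ) : ℂ) * (f (D * m) * ((D * m : ℕ) : ℂ) ^ (-(τ * I))) =
        (f D / D * (D : ℂ) ^ (-(τ * I))) * ∑ m ∈ Icc 1 (⌊Real.exp (2 * Ca * L)⌋₊ / D),
          f m * (m : ℂ) ^ (-(τ * I)) * Ph V L D m := by
      rw [Finset.mul_sum]
      refine Finset.sum_congr rfl fun m hm => ?_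
      rw [mem_Icc] at hm
      have hm' : (0 : ℝ) < m := by exact_mod_cast hm.1
      have hmc : (m : ℂ) ≠ 0 := by exact_mod_cast hm'.ne'
      rw [Ph_pos V L D m hm', hf3, Nat.cast_mul, Nat.cast_mul, Complex.natCast_mul_natCast_cpow]
      push_cast
      field_simp
    have hcp : (D : ℂ) ^ (-(τ * I)) * (D : ℂ) ^ (τ * I) = 1 := by
      rw [← Complex.cpow_add _ _ hDc]; simp
    have hrw : (f D / D * (D : ℂ) ^ (-(τ * I))) * (∑ m ∈ Icc 1 (⌊Real.exp (2 * Ca * L)⌋₊ / D),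
          f m * (m : ℂ) ^ (-(τ * I)) * Ph V L D m) - mean q f * ((L : ℂ) * Fh V (τ * L)) * (f D / (D : ℂ)) =
        (f D / D * (D : ℂ) ^ (-(τ * I))) * ((∑ m ∈ Icc 1 (⌊Real.exp (2 * Ca * L)⌋₊ / D),
          f m * (m : ℂ) ^ (-(τ * I)) * Ph V L D m) - mean q f * ((D : ℂ) ^ (τ * I) * ((L : ℂ) * Fh V (τ * L)))) := by
      linear_combination (mean q f * ((L : ℂ) * Fh V (τ * L)) * (f D / (D : ℂ))) * hcp
    rw [hsum, hrw, norm_mul, norm_mul, ker_norm_cpow D hD τ, mul_one, norm_div]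
    have hb1 : ‖f D‖ / ‖(D : ℂ)‖ ≤ 1 / D := by
      rw [Complex.norm_natCast]
      exact div_le_div_of_nonneg_right (hf2 D) hD'.le
    have hb2 : M₀ ^ (-c₀) ≤ Real.exp (-(c₀ * (ca * L / 4))) := by
      calc M₀ ^ (-c₀) ≤ (Real.exp (ca * L / 4)) ^ (-c₀) :=
            Real.rpow_le_rpow_of_nonpos (Real.exp_pos _) hM₀l (by linarith)
        _ = _ := by rw [← Real.exp_mul]; congr 1; ring
    refine mul_le_mul hb1 (hmain.trans ?_) (norm_nonneg _) (by positivity)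
    exact mul_le_mul_of_nonneg_left hb2 (by positivity)
  · intro x hx
    rw [Ph_pos V L D x hx, Complex.norm_real, Real.norm_eq_abs, abs_div, abs_of_pos hx]
    refine div_le_div_of_nonneg_right ?_ hx.le
    rw [abs_of_nonneg (hV.2.1 _).1]
    linarith [(hV.2.1 (Real.log (D * x) / L)).2]
  · intro x hx
    rw [(Ph_hasDerivAt ca Ca V hV L hL D hD x hx).deriv, Complex.norm_real, Real.norm_eq_abs, abs_div,
      abs_of_pos (by positivity : 0 < x ^ 2)]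
    refine div_le_div_of_nonneg_right ?_ (by positivity)
    have hb1 : |deriv V (Real.log (D * x) / L) / L| ≤ A' := by
      rw [abs_div, abs_of_pos hL0, div_le_iff₀ hL0]
      have := hA' (Real.log (D * x) / L)
      rw [Real.norm_eq_abs] at this
      nlinarith
    have hb2 : |V (Real.log (D * x) / L)| ≤ 1 := by
      rw [abs_of_nonneg (hV.2.1 _).1]; exact (hV.2.1 _).2
    have := abs_sub (deriv V (Real.log (D * x) / L) / L) (V (Real.log (D * x) / L))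
    linarith


theorem ker_lcm_le (y : ℝ) (d e : ℕ) (hd : d ∈ SF (Real.exp y)) (he : e ∈ SF (Real.exp y)) :
    1 ≤ Nat.lcm d e ∧ (Nat.lcm d e : ℝ) ≤ Real.exp (2 * y) := by
  obtain ⟨hd1, hd2⟩ := ker_sf _ d hd
  obtain ⟨he1, he2⟩ := ker_sf _ e he
  refine ⟨Nat.lcm_pos hd1 he1, ?_⟩
  have h3 : (d : ℝ) ≤ Real.exp y :=
    (Nat.cast_le.2 hd2).trans (Nat.floor_le (Real.exp_pos _).le)
  have h4 : (e : ℝ) ≤ Real.exp y :=
    (Nat.cast_le.2 he2).trans (Nat.floor_le (Real.exp_pos _).le)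
  have h5 : (Nat.lcm d e : ℝ) ≤ d * e := by
    exact_mod_cast Nat.le_of_dvd (Nat.mul_pos hd1 he1) (Nat.lcm_dvd_mul d e)
  calc (Nat.lcm d e : ℝ) ≤ d * e := h5
    _ ≤ Real.exp y * Real.exp y := mul_le_mul h3 h4 (by positivity) (Real.exp_pos _).le
    _ = _ := by rw [← Real.exp_add]; congr 1; ring

theorem ker_poly (c₀ y : ℝ) (hc : 0 < c₀) (hc' : c₀ ≤ 1 / 4) (hy : 0 ≤ y) :
    (1 + y) ^ 3 * Real.exp (-(2 * c₀ * y)) ≤ 27 / c₀ ^ 3 * Real.exp (-(c₀ * y)) := by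
  have h1 : c₀ / 3 * (1 + y) ≤ Real.exp (c₀ * y / 3) := by
    have := Real.add_one_le_exp (c₀ * y / 3)
    nlinarith
  have h2 : 1 + y ≤ 3 / c₀ * Real.exp (c₀ * y / 3) := by
    rw [div_mul_eq_mul_div, le_div_iff₀ hc]; linarith
  have h3 : (1 + y) ^ 3 ≤ (3 / c₀ * Real.exp (c₀ * y / 3)) ^ 3 := pow_le_pow_left₀ (by linarith) h2 3
  have h4 : (3 / c₀ * Real.exp (c₀ * y / 3)) ^ 3 = 27 / c₀ ^ 3 * Real.exp (c₀ * y) := by
    rw [mul_pow, div_pow, ← Real.exp_nat_mul]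
    congr 1
    · norm_num
    · congr 1; push_cast; ring
  rw [h4] at h3
  calc (1 + y) ^ 3 * Real.exp (-(2 * c₀ * y)) ≤ (27 / c₀ ^ 3 * Real.exp (c₀ * y)) * Real.exp (-(2 * c₀ * y)) :=
        mul_le_mul_of_nonneg_right h3 (Real.exp_pos _).le
    _ = 27 / c₀ ^ 3 * (Real.exp (c₀ * y) * Real.exp (-(2 * c₀ * y))) := by ring
    _ = _ := by rw [← Real.exp_add]; congr 2; ring

theorem ker_gen [WI] (ca Ca : ℝ) (h1 : 0 < ca) (h1' : ca < 1) (h2 : 1 < Ca) (V : ℝ → ℝ) (hV : IsBump ca Ca V)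
    (θ : ℝ) (hθ : 0 < θ) (hθ1 : θ ≤ 1) : ∃ c C : ℝ, 0 < c ∧ 0 < C ∧ ∀ X : ℝ, 1 ≤ X → ∀ L : ℝ, 1 ≤ L →
    4 * (θ * Real.log X) / ca ≤ L → ∀ (q : ℕ), 1 ≤ q → ∀ f : ℕ → ℂ, (∀ n, f (n + q) = f n) → (∀ n, ‖f n‖ ≤ 1) →
    (∀ m n, f (m * n) = f m * f n) → ∀ τ : ℝ, |τ| ≤ X → ∀ lam : ℕ → ℝ, (∀ d, |lam d| ≤ 1) →
    (∀ d, d ∉ SF (Real.exp (ca * L / 8)) → lam d = 0) →
    ‖∑ n ∈ Icc 1 ⌊Real.exp (2 * Ca * L)⌋₊, (bV lam V L n : ℂ) * (f n * (n : ℂ) ^ (-(τ * I))) -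
      mean q f * ((L : ℂ) * Fh V (τ * L)) * ∑ d ∈ SF (Real.exp (ca * L / 8)), ∑ e ∈ SF (Real.exp (ca * L / 8)),
        (lam d : ℂ) * (lam e : ℂ) * (f (Nat.lcm d e) / (Nat.lcm d e : ℂ))‖ ≤
      C * (q : ℝ) ^ 2 * Real.exp (-(c * L)) := by
  obtain ⟨c₀, C₀, hc₀, hc₀', hC₀, hterm⟩ := ker_term ca Ca h1 h1' h2 V hV θ hθ hθ1
  refine ⟨c₀ * ca / 8, C₀ * (27 / c₀ ^ 3), by positivity, by positivity, ?_⟩
  intro X hX L hL hXL q hq f hf1 hf2 hf3 τ hτ lam hlam hlam0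
  set z := Real.exp (ca * L / 8) with hz
  set M := ⌊Real.exp (2 * Ca * L)⌋₊ with hM
  have hz1 : 1 ≤ z := Real.one_le_exp (by positivity)
  set E := C₀ * (q : ℝ) ^ 2 * Real.exp (-(c₀ * (ca * L / 4))) with hE
  have hE0 : 0 ≤ E := by positivity
  have hexp := nu_expand lam z hlam0 M (fun n => (1 / (n : ℂ)) * ((V (Real.log (n : ℝ) / L) : ℝ) : ℂ) *
    (f n * (n : ℂ) ^ (-(τ * I))))
  have hlhs : ∑ n ∈ Icc 1 M, (bV lam V L n : ℂ) * (f n * (n : ℂ) ^ (-(τ * I))) =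
      ∑ n ∈ Icc 1 M, (nu lam n : ℂ) * ((1 / (n : ℂ)) * ((V (Real.log (n : ℝ) / L) : ℝ) : ℂ) *
    (f n * (n : ℂ) ^ (-(τ * I)))) := by
    refine Finset.sum_congr rfl fun n _ => ?_
    unfold bV
    push_cast
    ring
  rw [hlhs, hexp, Finset.mul_sum, ← Finset.sum_sub_distrib]
  have hkey : ∀ d ∈ SF z, ∀ e ∈ SF z,
      ‖(lam d : ℂ) * (lam e : ℂ) * (∑ m ∈ Icc 1 (M / Nat.lcm d e), (1 / ((Nat.lcm d e * m : ℕ) : ℂ)) *
        ((V (Real.log ((Nat.lcm d e * m : ℕ) : ℝ) / L) : ℝ) : ℂ) *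
        (f (Nat.lcm d e * m) * ((Nat.lcm d e * m : ℕ) : ℂ) ^ (-(τ * I)))) -
      mean q f * ((L : ℂ) * Fh V (τ * L)) * ((lam d : ℂ) * (lam e : ℂ) * (f (Nat.lcm d e) / (Nat.lcm d e : ℂ)))‖ ≤
      1 / (Nat.lcm d e : ℝ) * E := by
    intro d hd e he
    obtain ⟨hD1, hD2⟩ := ker_lcm_le _ d e hd he
    have hD3 : (Nat.lcm d e : ℝ) ≤ Real.exp (ca * L / 4) := hD2.trans (le_of_eq (by congr 1; ring))
    have ht := hterm X hX L hL hXL q hq f hf1 hf2 hf3 τ hτ (Nat.lcm d e) hD1 hD3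
    rw [← hM] at ht
    have hrw : (lam d : ℂ) * (lam e : ℂ) * (∑ m ∈ Icc 1 (M / Nat.lcm d e), (1 / ((Nat.lcm d e * m : ℕ) : ℂ)) *
        ((V (Real.log ((Nat.lcm d e * m : ℕ) : ℝ) / L) : ℝ) : ℂ) *
        (f (Nat.lcm d e * m) * ((Nat.lcm d e * m : ℕ) : ℂ) ^ (-(τ * I)))) -
      mean q f * ((L : ℂ) * Fh V (τ * L)) * ((lam d : ℂ) * (lam e : ℂ) * (f (Nat.lcm d e) / (Nat.lcm d e : ℂ))) =
      (lam d : ℂ) * (lam e : ℂ) * ((∑ m ∈ Icc 1 (M / Nat.lcm d e), (1 / ((Nat.lcm d e * m : ℕ) : ℂ)) *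
        ((V (Real.log ((Nat.lcm d e * m : ℕ) : ℝ) / L) : ℝ) : ℂ) *
        (f (Nat.lcm d e * m) * ((Nat.lcm d e * m : ℕ) : ℂ) ^ (-(τ * I)))) -
        mean q f * ((L : ℂ) * Fh V (τ * L)) * (f (Nat.lcm d e) / (Nat.lcm d e : ℂ))) := by ring
    rw [hrw, norm_mul, norm_mul, Complex.norm_real, Complex.norm_real, Real.norm_eq_abs, Real.norm_eq_abs]
    have hl : |lam d| * |lam e| ≤ 1 := mul_le_one₀ (hlam d) (abs_nonneg _) (hlam e)
    calc _ ≤ 1 * (1 / (Nat.lcm d e : ℝ) * E) := mul_le_mul hl ht (norm_nonneg _) (by norm_num)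
      _ = _ := one_mul _
  have hsub : SF z ⊆ Icc 1 ⌊z⌋₊ := by
    unfold SF; exact Finset.filter_subset _ _
  calc _ ≤ ∑ d ∈ SF z, ∑ e ∈ SF z, 1 / (Nat.lcm d e : ℝ) * E := by
        refine (norm_sum_le _ _).trans (Finset.sum_le_sum fun d hd => ?_)
        rw [Finset.mul_sum, ← Finset.sum_sub_distrib]
        refine (norm_sum_le _ _).trans (Finset.sum_le_sum fun e he => ?_)
        exact hkey d hd e he
    _ = (∑ d ∈ SF z, ∑ e ∈ SF z, 1 / (Nat.lcm d e : ℝ)) * E := by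
        rw [Finset.sum_mul]
        refine Finset.sum_congr rfl fun d _ => ?_
        rw [Finset.sum_mul]
    _ ≤ (∑ d ∈ Icc 1 ⌊z⌋₊, ∑ e ∈ Icc 1 ⌊z⌋₊, 1 / (Nat.lcm d e : ℝ)) * E := by
        refine mul_le_mul_of_nonneg_right ?_ hE0
        calc ∑ d ∈ SF z, ∑ e ∈ SF z, 1 / (Nat.lcm d e : ℝ) ≤ ∑ d ∈ SF z, ∑ e ∈ Icc 1 ⌊z⌋₊, 1 / (Nat.lcm d e : ℝ) :=
              Finset.sum_le_sum fun d _ => Finset.sum_le_sum_of_subset_of_nonneg hsub fun _ _ _ => by positivity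
          _ ≤ _ := Finset.sum_le_sum_of_subset_of_nonneg hsub fun _ _ _ => Finset.sum_nonneg fun _ _ => by positivity
    _ ≤ (1 + Real.log z) ^ 3 * E := mul_le_mul_of_nonneg_right (sum_lcm z hz1) hE0
    _ = C₀ * (q : ℝ) ^ 2 * ((1 + ca * L / 8) ^ 3 * Real.exp (-(2 * c₀ * (ca * L / 8)))) := by
        rw [hz, Real.log_exp, hE]
        have : c₀ * (ca * L / 4) = 2 * c₀ * (ca * L / 8) := by ring
        rw [this]; ring
    _ ≤ C₀ * (q : ℝ) ^ 2 * (27 / c₀ ^ 3 * Real.exp (-(c₀ * (ca * L / 8)))) :=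
        mul_le_mul_of_nonneg_left (ker_poly c₀ _ hc₀ hc₀' (by positivity)) (by positivity)
    _ = _ := by
        have : c₀ * (ca * L / 8) = c₀ * ca / 8 * L := by ring
        rw [this]; ring

/-- **The kernel for two different characters.**

Proof. Let `c₀, C₀` be from `weyl_wt θ`, `A = 1 + sup |V'|` (`V` has compact support, `L ≥ 1`). `z = exp (ca L / 8)`. By `nu_expand` with `g n = (1 / n) V(log n / L) f n n ^ (-i τ)`, `M = ⌊exp (2 Ca L)⌋₊`, the sum is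
`∑_{d, e} lam d lam e ∑_m (D m) ^ (-1 - i τ) V(log (D m) / L) f D f m`, `D = lcm d e ≤ z ^ 2 = exp (ca L / 4)`. For fixed `d, e` apply `weyl_wt` to `f` and `Φ x = V(log (D x) / L) / x` (`Φ x = 0` for `x ≤ 0`), which
vanishes for `x ≤ M₀ := exp (ca L / 2) / D` and for `x ≥ M₁ := exp (2 Ca L) / D`, and satisfies `|Φ x| ≤ 1 / x`, `|Φ' x| ≤ A / x ^ 2`. Here `M₀ ≥ exp (ca L / 4) ≥ X ^ θ` by hypothesis, and the mean of `f` is `0`. So the inner sum over
`m` is at most `D ^ (-1) C₀ A q ^ 2 exp (-c₀ ca L / 4)` (the terms `m` up to `⌊M₁⌋₊ = M / D`: `Nat.floor_div_natCast`). Add over `d, e` (`sum_lcm`, `|lam| ≤ 1`): `≤ C₀ A q ^ 2 (1 + ca L / 8) ^ 3 exp (-c₀ ca L / 4) ≤ C q ^ 2 exp (-c L)` with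
`c = c₀ ca / 8`. -/
theorem kernel_off [WI] (ca Ca : ℝ) (h1 : 0 < ca) (h1' : ca < 1) (h2 : 1 < Ca) (V : ℝ → ℝ) (hV : IsBump ca Ca V) :
    ∀ θ : ℝ, 0 < θ → θ ≤ 1 → ∃ c C : ℝ, 0 < c ∧ 0 < C ∧ ∀ X : ℝ, 1 ≤ X → ∀ L : ℝ, 1 ≤ L → 4 * (θ * Real.log X) / ca ≤ L →
    ∀ (q : ℕ), 1 ≤ q → ∀ f : ℕ → ℂ, (∀ n, f (n + q) = f n) → (∀ n, ‖f n‖ ≤ 1) → (∀ m n, f (m * n) = f m * f n) →
    mean q f = 0 → ∀ τ : ℝ, |τ| ≤ X → ∀ lam : ℕ → ℝ, (∀ d, |lam d| ≤ 1) → (∀ d, d ∉ SF (Real.exp (ca * L / 8)) → lam d = 0) →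
    ‖∑ n ∈ Icc 1 ⌊Real.exp (2 * Ca * L)⌋₊, (bV lam V L n : ℂ) * (f n * (n : ℂ) ^ (-(τ * I)))‖ ≤
      C * (q : ℝ) ^ 2 * Real.exp (-(c * L)) := by
  intro θ hθ hθ1
  obtain ⟨c, C, hc, hC, h⟩ := ker_gen ca Ca h1 h1' h2 V hV θ hθ hθ1
  refine ⟨c, C, hc, hC, ?_⟩
  intro X hX L hL hXL q hq f hf1 hf2 hf3 hmean τ hτ lam hlam hlam0
  have := h X hX L hL hXL q hq f hf1 hf2 hf3 τ hτ lam hlam hlam0
  rw [hmean, zero_mul, zero_mul, sub_zero] at this
  exact this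

/-- **The kernel for one character.** The constant `C₀` does not depend on `θ`.

Proof. As in `kernel_off`, with `f n = [(n, q) = 1]`, which is periodic and completely multiplicative, with mean `φ(q) / q`. The pairs `d, e` with `lcm d e` not prime to `q` contribute nothing. For the others the main term of `weyl_wt`
is `(φ q / q) D ^ (-1 - i τ) ∫ x ^ (-i τ) V(log (D x) / L) dx / x`, and with `v = log (D x) / L` the integral is `D ^ (i τ) L ∫ V(v) e ^ (- i τ L v) dv`. So the total main term is `(φ q / q) (∑_{d, e prime to q} lam d lam e / lcm d e) L ∫ V(v) e ^ (-i τ L v) dv`,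
of norm at most `(φ q / q) C (q / φ q) / log z L C' / (1 + (τ L) ^ 2) = 8 C C' / (ca (1 + (τ L) ^ 2))` by `sel_q` (for `z = exp (ca L / 8)`, `log z = ca L / 8`; `q ≤ z`, `z ≥ 2`) and `bump_fourier`. The error terms are as in `kernel_off`. -/
theorem kernel_same [WI] (ca Ca : ℝ) (h1 : 0 < ca) (h1' : ca < 1) (h2 : 1 < Ca) (V : ℝ → ℝ) (hV : IsBump ca Ca V) :
    ∃ C₀ : ℝ, 0 < C₀ ∧ ∀ θ : ℝ, 0 < θ → θ ≤ 1 → ∃ c C : ℝ, 0 < c ∧ 0 < C ∧
    ∀ X : ℝ, 1 ≤ X → ∀ L : ℝ, 1 ≤ L → 4 * (θ * Real.log X) / ca ≤ L → 8 / ca ≤ L →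
    ∀ (q : ℕ), 1 ≤ q → (q : ℝ) ≤ Real.exp (ca * L / 8) → ∀ τ : ℝ, |τ| ≤ X → ∀ lam : ℕ → ℝ, (∀ d, |lam d| ≤ 1) →
    (∀ d, d ∉ SF (Real.exp (ca * L / 8)) → lam d = 0) →
    (∀ f ∈ SF (Real.exp (ca * L / 8)), ∑ d ∈ (SF (Real.exp (ca * L / 8))).filter (fun d => f ∣ d), lam d * pp hin d =
        (ArithmeticFunction.moebius f : ℝ) * gg hin f / GG hin (Real.exp (ca * L / 8))) →
    ‖∑ n ∈ (Icc 1 ⌊Real.exp (2 * Ca * L)⌋₊).filter (fun n => n.Coprime q), (bV lam V L n : ℂ) * (n : ℂ) ^ (-(τ * I))‖ ≤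
      C₀ / (1 + (τ * L) ^ 2) + C * (q : ℝ) ^ 2 * Real.exp (-(c * L)) := by
  obtain ⟨CF, hCF, hF⟩ := bump_fourier ca Ca V hV
  obtain ⟨CS, hCS, hS⟩ := sel_q
  refine ⟨8 * CS * CF / ca, by positivity, ?_⟩
  intro θ hθ hθ1
  obtain ⟨c, C, hc, hC, h⟩ := ker_gen ca Ca h1 h1' h2 V hV θ hθ hθ1
  refine ⟨c, C, hc, hC, ?_⟩
  intro X hX L hL hXL hL8 q hq hqz τ hτ lam hlam hlam0 hsel
  set f : ℕ → ℂ := fun n => if n.Coprime q then 1 else 0 with hf
  have hf1 : ∀ n, f (n + q) = f n := by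
    intro n
    simp only [hf, Nat.coprime_add_self_left]
  have hf2 : ∀ n, ‖f n‖ ≤ 1 := by
    intro n
    simp only [hf]
    split_ifs <;> simp
  have hf3 : ∀ m n, f (m * n) = f m * f n := by
    intro m n
    simp only [hf, Nat.coprime_mul_iff_left]
    by_cases hm : m.Coprime q
    · by_cases hn : n.Coprime q
      · rw [if_pos ⟨hm, hn⟩, if_pos hm, if_pos hn, mul_one]
      · rw [if_neg (fun h => hn h.2), if_neg hn, mul_zero]
    · rw [if_neg (fun h => hm h.1), if_neg hm, zero_mul]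
  have hq0 : (0 : ℝ) < q := by exact_mod_cast hq
  have hmean : mean q f = ((q.totient : ℝ) / q : ℝ) := by
    unfold mean
    simp only [hf]
    rw [Finset.sum_boole, Nat.totient_eq_card_coprime]
    push_cast
    congr 3
    ext a
    simp only [mem_filter, Nat.coprime_comm]
  have hg := h X hX L hL hXL q hq f hf1 hf2 hf3 τ hτ lam hlam hlam0
  set z := Real.exp (ca * L / 8) with hz
  have hz2 : 2 ≤ z := by
    have h3 : 1 ≤ ca * L / 8 := by
      rw [div_le_iff₀ h1] at hL8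
      rw [le_div_iff₀ (by norm_num)]
      linarith
    have := Real.add_one_le_exp (ca * L / 8)
    linarith
  obtain ⟨hs0, hs1⟩ := hS z hz2 lam hsel q hq hqz
  set QS := ∑ d ∈ (SF z).filter (fun d => d.Coprime q), ∑ e ∈ (SF z).filter (fun e => e.Coprime q),
        lam d * lam e / (Nat.lcm d e : ℝ) with hQS
  have hQSc : ∑ d ∈ SF z, ∑ e ∈ SF z, (lam d : ℂ) * (lam e : ℂ) * (f (Nat.lcm d e) / (Nat.lcm d e : ℂ)) = (QS : ℂ) := by
    rw [hQS]
    push_cast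
    rw [Finset.sum_filter]
    refine Finset.sum_congr rfl fun d _ => ?_
    rw [Finset.sum_filter]
    by_cases hd : d.Coprime q
    · rw [if_pos hd]
      refine Finset.sum_congr rfl fun e _ => ?_
      by_cases he : e.Coprime q
      · have : (Nat.lcm d e).Coprime q :=
          Nat.Coprime.of_dvd_left (Nat.lcm_dvd_mul d e) (Nat.Coprime.mul_left hd he)
        simp only [hf, if_pos this, if_pos he]
        ring
      · have : ¬ (Nat.lcm d e).Coprime q := fun h => he (Nat.Coprime.of_dvd_left (Nat.dvd_lcm_right d e) h)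
        simp only [hf, if_neg this, if_neg he]
        ring
    · rw [if_neg hd]
      refine Finset.sum_eq_zero fun e _ => ?_
      have : ¬ (Nat.lcm d e).Coprime q := fun h => hd (Nat.Coprime.of_dvd_left (Nat.dvd_lcm_left d e) h)
      simp only [hf, if_neg this]
      ring
  rw [hmean, hQSc] at hg
  have hsumeq : ∑ n ∈ (Icc 1 ⌊Real.exp (2 * Ca * L)⌋₊).filter (fun n => n.Coprime q),
      (bV lam V L n : ℂ) * (n : ℂ) ^ (-(τ * I)) =
      ∑ n ∈ Icc 1 ⌊Real.exp (2 * Ca * L)⌋₊, (bV lam V L n : ℂ) * (f n * (n : ℂ) ^ (-(τ * I))) := by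
    rw [Finset.sum_filter]
    refine Finset.sum_congr rfl fun n _ => ?_
    simp only [hf]
    split_ifs <;> ring
  rw [hsumeq]
  have htot : (0 : ℝ) < q.totient := by exact_mod_cast Nat.totient_pos.2 hq
  have hmain : ‖((((q.totient : ℝ) / q : ℝ) : ℂ)) * ((L : ℂ) * Fh V (τ * L)) * (QS : ℂ)‖ ≤
      8 * CS * CF / ca / (1 + (τ * L) ^ 2) := by
    rw [norm_mul, norm_mul, norm_mul, Complex.norm_real, Complex.norm_real, Complex.norm_real, Real.norm_eq_abs,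
      Real.norm_eq_abs, Real.norm_eq_abs, abs_of_nonneg hs0, abs_of_pos (by linarith : (0:ℝ) < L),
      abs_of_pos (by positivity : 0 < (q.totient : ℝ) / q)]
    have hFh : ‖Fh V (τ * L)‖ ≤ CF / (1 + (τ * L) ^ 2) := hF (τ * L)
    have hlogz : Real.log z = ca * L / 8 := by rw [hz, Real.log_exp]
    rw [hlogz] at hs1
    have hL0 : 0 < L := by linarith
    calc (q.totient : ℝ) / q * (L * ‖Fh V (τ * L)‖) * QS ≤
        (q.totient : ℝ) / q * (L * (CF / (1 + (τ * L) ^ 2))) * (CS * ((q : ℝ) / q.totient) / (ca * L / 8)) := by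
          refine mul_le_mul ?_ hs1 hs0 (by positivity)
          refine mul_le_mul_of_nonneg_left ?_ (by positivity)
          exact mul_le_mul_of_nonneg_left hFh hL0.le
      _ = _ := by
          field_simp
  calc _ ≤ ‖((((q.totient : ℝ) / q : ℝ) : ℂ)) * ((L : ℂ) * Fh V (τ * L)) * (QS : ℂ)‖ +
      C * (q : ℝ) ^ 2 * Real.exp (-(c * L)) := by
        have := norm_sub_norm_le (∑ n ∈ Icc 1 ⌊Real.exp (2 * Ca * L)⌋₊, (bV lam V L n : ℂ) * (f n * (n : ℂ) ^ (-(τ * I))))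
          (((((q.totient : ℝ) / q : ℝ) : ℂ)) * ((L : ℂ) * Fh V (τ * L)) * (QS : ℂ))
        linarith
    _ ≤ _ := by linarith

end Pool.Agent.PSG
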