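import Pool.Agent.W_b58c63_h44.DHa
import Pool.Agent.W_b58c63_h44.Ker
import Pool.Agent.W_b58c63_h68.SgD
import Pool.Agent.W_b58c63_h68.SgE

/-!
# Deuring-Heilbronn: arithmetic lemmas
-/

set_option autoImplicit false

noncomputable section

open Finset Complex

namespace Pool.Agent.PSG

/-- The density of the multiples of `p` for `1 * χ`. -/
def hx {r : ℕ} (χ : DirichletCharacter ℂ r) (p : ℕ) : ℝ := 1 - (1 - 1 / (p : ℝ)) * (1 - (χ (p : ZMod r)).re / p)

theorem DHc_re {r : ℕ} (χ : DirichletCharacter ℂ r) (a : ZMod r) : -1 ≤ (χ a).re ∧ (χ a).re ≤ 1 := by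
  have h := (Complex.abs_re_le_norm (χ a)).trans (χ.norm_le_one a)
  exact abs_le.mp h

/-- Proof. `χ p ∈ {0, 1, -1}` (`χ ^ 2 = 1`): `hx = 1 / p`, `2 / p - 1 / p ^ 2`, `1 / p ^ 2`. -/
theorem hx_bounds {r : ℕ} (χ : DirichletCharacter ℂ r) (h2 : χ ^ 2 = 1) (p : ℕ) (hp : p.Prime) :
    0 < hx χ p ∧ hx χ p < 1 := by
  have _ := h2
  have hp2 : (2 : ℝ) ≤ p := by exact_mod_cast hp.two_le
  obtain ⟨h1, h3⟩ := DHc_re χ (p : ZMod r)
  obtain ⟨x, hx'⟩ : ∃ x, x = (χ (p : ZMod r)).re := ⟨_, rfl⟩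
  rw [← hx'] at h1 h3
  obtain ⟨u, hu⟩ : ∃ u : ℝ, u = 1 / (p : ℝ) := ⟨_, rfl⟩
  have hu0 : 0 < u := by rw [hu]; positivity
  have hu1 : u ≤ 1 / 2 := by
    rw [hu]
    exact one_div_le_one_div_of_le two_pos hp2
  have e : hx χ p = 1 - (1 - u) * (1 - x * u) := by
    unfold hx
    rw [← hx', hu]
    ring
  rw [e]
  have a1 : -u ≤ x * u := by nlinarith
  have a2 : x * u ≤ u := by nlinarith
  constructor
  · nlinarith
  · have : 0 < (1 - u) * (1 - x * u) := mul_pos (by linarith) (by linarith)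
    linarith

/-- Proof. `ψ = 1` modulo `1` has all values `1`; `χ p` is real; `p ^ (-1) = 1 / p`. -/
theorem hD_one {r : ℕ} (χ : DirichletCharacter ℂ r) (h2 : χ ^ 2 = 1) (D : ℕ) :
    hD χ (1 : DirichletCharacter ℂ 1) D 1 = (pp (hx χ) D : ℂ) := by
  unfold hD pp
  push_cast
  refine Finset.prod_congr rfl fun p _ => ?_
  have h1 : (1 : DirichletCharacter ℂ 1) (p : ZMod 1) = 1 :=
    MulChar.one_apply (isUnit_of_subsingleton _)
  have h3 : ((χ (p : ZMod r)).re : ℂ) = χ (p : ZMod r) :=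
    Complex.conj_eq_iff_re.mp (EFb_conj_val χ h2 _)
  rw [h1]
  unfold hx
  push_cast
  rw [h3, Complex.cpow_neg_one]
  ring

/-- Proof. `DirichletCharacter.zetaMul_nonneg`, multiplicativity; `zetaMul 1 = 1`. -/
theorem zm_facts {r : ℕ} (χ : DirichletCharacter ℂ r) (h2 : χ ^ 2 = 1) :
    (∀ n, 0 ≤ (χ.zetaMul n).re ∧ (χ.zetaMul n).im = 0) ∧ χ.zetaMul 1 = 1 := by
  refine ⟨fun n => ?_, χ.isMultiplicative_zetaMul.map_one⟩
  open scoped ComplexOrder in
  have h := DirichletCharacter.zetaMul_nonneg h2 n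
  rw [Complex.le_def] at h
  simp only [Complex.zero_re, Complex.zero_im] at h
  exact ⟨h.1, h.2.symm⟩

theorem DHc_pow {r : ℕ} (χ : DirichletCharacter ℂ r) (h2 : χ ^ 2 = 1) {p : ℕ} (hp : p.Prime) (k : ℕ) :
    (χ.zetaMul (p ^ k)).re = ∑ i ∈ range (k + 1), ((χ (p : ZMod r)).re) ^ i := by
  obtain ⟨x, hx'⟩ : ∃ x, x = (χ (p : ZMod r)).re := ⟨_, rfl⟩
  have h3 : χ (p : ZMod r) = (x : ℂ) := by
    rw [hx']
    exact (Complex.conj_eq_iff_re.mp (EFb_conj_val χ h2 _)).symm
  rw [← hx']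
  have h5 : χ.zetaMul (p ^ k) = ∑ d ∈ (p ^ k).divisors, (toArithmeticFunction (fun n : ℕ => χ (n : ZMod r))) d :=
    ArithmeticFunction.coe_zeta_mul_apply
  rw [Nat.sum_divisors_prime_pow hp] at h5
  have h6 : ∀ i : ℕ, (toArithmeticFunction (fun n : ℕ => χ (n : ZMod r))) (p ^ i) = ((x ^ i : ℝ) : ℂ) := by
    intro i
    show (if p ^ i = 0 then (0 : ℂ) else χ ((p ^ i : ℕ) : ZMod r)) = _
    rw [if_neg (pow_ne_zero _ hp.ne_zero)]
    push_cast
    rw [map_pow, h3]
  rw [h5]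
  simp only [h6]
  rw [← Complex.ofReal_sum, Complex.ofReal_re]

/-- local factor -/
theorem DHc_local {r : ℕ} (χ : DirichletCharacter ℂ r) (h2 : χ ^ 2 = 1) {p : ℕ} (hp : p.Prime) (K : ℕ) :
    ∑ k ∈ range K, (χ.zetaMul (p ^ (k + 1))).re / ((p ^ (k + 1) : ℕ) : ℝ) ≤ hx χ p / (1 - hx χ p) := by
  have hp2 : (2 : ℝ) ≤ p := by exact_mod_cast hp.two_le
  obtain ⟨h1, h3⟩ := DHc_re χ (p : ZMod r)
  have hpw := DHc_pow χ h2 hp
  have hnn : ∀ n, 0 ≤ (χ.zetaMul n).re := fun n => ((zm_facts χ h2).1 n).1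
  obtain ⟨x, hx'⟩ : ∃ x, x = (χ (p : ZMod r)).re := ⟨_, rfl⟩
  rw [← hx'] at h1 h3 hpw
  obtain ⟨u, hu⟩ : ∃ u : ℝ, u = 1 / (p : ℝ) := ⟨_, rfl⟩
  have hu0 : 0 < u := by rw [hu]; positivity
  have hu1 : u ≤ 1 / 2 := by
    rw [hu]
    exact one_div_le_one_div_of_le two_pos hp2
  have a1 : -u ≤ x * u := by nlinarith
  have a2 : x * u ≤ u := by nlinarith
  have e : hx χ p = 1 - (1 - u) * (1 - x * u) := by
    unfold hx
    rw [← hx', hu]
    ring
  have hterm : ∀ k : ℕ, (χ.zetaMul (p ^ k)).re / ((p ^ k : ℕ) : ℝ) =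
      ∑ i ∈ range (k + 1), (x * u) ^ i * u ^ (k - i) := by
    intro k
    rw [hpw k, div_eq_mul_inv, Finset.sum_mul]
    refine Finset.sum_congr rfl fun i hi => ?_
    rw [Finset.mem_range] at hi
    have : ((p ^ k : ℕ) : ℝ)⁻¹ = u ^ i * u ^ (k - i) := by
      rw [← pow_add, Nat.add_sub_cancel' (by omega), hu]
      push_cast
      rw [one_div, inv_pow]
    rw [this, mul_pow]
    ring
  have s1 : Summable fun i : ℕ => ‖(x * u) ^ i‖ := by
    simp only [norm_pow]
    apply summable_geometric_of_lt_one (norm_nonneg _)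
    rw [Real.norm_eq_abs, abs_lt]
    constructor <;> linarith
  have s2 : Summable fun i : ℕ => ‖u ^ i‖ := by
    simp only [norm_pow]
    apply summable_geometric_of_lt_one (norm_nonneg _)
    rw [Real.norm_eq_abs, abs_lt]
    constructor <;> linarith
  have hprod := tsum_mul_tsum_eq_tsum_sum_range_of_summable_norm s1 s2
  have hsum := (summable_norm_sum_mul_range_of_summable_norm s1 s2).of_norm
  rw [tsum_geometric_of_abs_lt_one (by rw [abs_lt]; constructor <;> linarith),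
    tsum_geometric_of_abs_lt_one (by rw [abs_lt]; constructor <;> linarith)] at hprod
  have hle := hsum.sum_le_tsum (range (K + 1)) (fun k _ => by
    rw [← hterm k]
    exact div_nonneg (hnn _) (Nat.cast_nonneg _))
  rw [← hprod, Finset.sum_range_succ'] at hle
  simp only [← hterm] at hle
  have h0 : (χ.zetaMul (p ^ 0)).re / ((p ^ 0 : ℕ) : ℝ) = 1 := by
    rw [pow_zero, (zm_facts χ h2).2]
    simp
  rw [h0] at hle
  have hpos : 0 < (1 - u) * (1 - x * u) := mul_pos (by linarith) (by linarith)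
  have e2 : hx χ p / (1 - hx χ p) = (1 - x * u)⁻¹ * (1 - u)⁻¹ - 1 := by
    rw [e]
    have b1 : (1 - u) ≠ 0 := by linarith
    have b2 : (1 - x * u) ≠ 0 := by linarith
    have b3 : 1 - (1 - (1 - u) * (1 - x * u)) = (1 - u) * (1 - x * u) := by ring
    rw [b3, sub_div, div_self (mul_ne_zero b1 b2), one_div, mul_inv]
    ring
  rw [e2]
  linarith

/-- numbers with a given set of prime factors -/
theorem DHc_fiber {r : ℕ} (χ : DirichletCharacter ℂ r) (h2 : χ ^ 2 = 1) (M : ℕ) (P : Finset ℕ) :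
    (∀ p ∈ P, p.Prime) → ∑ n ∈ (Icc 1 M).filter (fun n => n.primeFactors = P), (χ.zetaMul n).re / n ≤
      ∏ p ∈ P, (hx χ p / (1 - hx χ p)) := by
  have hnn : ∀ n, 0 ≤ (χ.zetaMul n).re := fun n => ((zm_facts χ h2).1 n).1
  have him : ∀ n, (χ.zetaMul n).im = 0 := fun n => ((zm_facts χ h2).1 n).2
  induction P using Finset.induction_on with
  | empty =>
    intro _
    rw [Finset.prod_empty]
    calc ∑ n ∈ (Icc 1 M).filter (fun n => n.primeFactors = ∅), (χ.zetaMul n).re / n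
        ≤ ∑ n ∈ ({1} : Finset ℕ), (χ.zetaMul n).re / n := by
          apply Finset.sum_le_sum_of_subset_of_nonneg
          · intro n hn
            rw [Finset.mem_filter, Finset.mem_Icc, Nat.primeFactors_eq_empty] at hn
            rw [Finset.mem_singleton]
            omega
          · intro n _ _
            exact div_nonneg (hnn n) (Nat.cast_nonneg _)
      _ = 1 := by
          rw [Finset.sum_singleton, (zm_facts χ h2).2]
          simp
      _ ≤ 1 := le_refl _
  | insert p P hpP ih =>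
    intro hP
    have hp : p.Prime := hP p (Finset.mem_insert_self p P)
    have hP' : ∀ q ∈ P, q.Prime := fun q hq => hP q (Finset.mem_insert_of_mem hq)
    have ih' := ih hP'
    rw [Finset.prod_insert hpP]
    have hloc := DHc_local χ h2 hp M
    have hg0 : 0 ≤ ∑ n ∈ (Icc 1 M).filter (fun n => n.primeFactors = P), (χ.zetaMul n).re / n :=
      Finset.sum_nonneg fun n _ => div_nonneg (hnn n) (Nat.cast_nonneg _)
    have hb := hx_bounds χ h2 p hp
    have hg1 : 0 ≤ hx χ p / (1 - hx χ p) := div_nonneg hb.1.le (by linarith [hb.2])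
    refine le_trans ?_ (mul_le_mul hloc ih' hg0 hg1)
    rw [Finset.sum_mul_sum, ← Finset.sum_product']
    -- injection n ↦ (factorization - 1, ordCompl)
    let F : ℕ → ℕ × ℕ := fun n => (n.factorization p - 1, n / p ^ n.factorization p)
    have hfac : ∀ n ∈ (Icc 1 M).filter (fun n => n.primeFactors = insert p P),
        1 ≤ n.factorization p ∧ n ≠ 0 ∧ p ^ n.factorization p * (n / p ^ n.factorization p) = n ∧
        (n / p ^ n.factorization p).primeFactors = P ∧
        Nat.Coprime (p ^ n.factorization p) (n / p ^ n.factorization p) := by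
      intro n hn
      rw [Finset.mem_filter, Finset.mem_Icc] at hn
      have hn0 : n ≠ 0 := by omega
      have hpn : p ∈ n.primeFactors := by rw [hn.2]; exact Finset.mem_insert_self p P
      have hpd : p ∣ n := Nat.dvd_of_mem_primeFactors hpn
      refine ⟨(hp.dvd_iff_one_le_factorization hn0).mp hpd, hn0, Nat.ordProj_mul_ordCompl_eq_self n p, ?_, ?_⟩
      · rw [← Nat.support_factorization, Nat.factorization_ordCompl, Finsupp.support_erase,
          Nat.support_factorization, hn.2, Finset.erase_insert hpP]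
      · exact Nat.Coprime.pow_left _ ((Nat.coprime_ordCompl hp hn0))
    have hinj : Set.InjOn F ((Icc 1 M).filter (fun n => n.primeFactors = insert p P)) := by
      intro a ha b hb hab
      obtain ⟨a1, _, a3, _, _⟩ := hfac a ha
      obtain ⟨b1, _, b3, _, _⟩ := hfac b hb
      have e1 : a.factorization p - 1 = b.factorization p - 1 := congrArg Prod.fst hab
      have e2 : a / p ^ a.factorization p = b / p ^ b.factorization p := congrArg Prod.snd hab
      have e3 : a.factorization p = b.factorization p := by omega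
      rw [← a3, ← b3, e2, e3]
    have hsumF : ∑ n ∈ (Icc 1 M).filter (fun n => n.primeFactors = insert p P), (χ.zetaMul n).re / n =
        ∑ x ∈ ((Icc 1 M).filter (fun n => n.primeFactors = insert p P)).image F,
          (χ.zetaMul (p ^ (x.1 + 1))).re / ((p ^ (x.1 + 1) : ℕ) : ℝ) * ((χ.zetaMul x.2).re / x.2) := by
      rw [Finset.sum_image hinj]
      refine Finset.sum_congr rfl fun n hn => ?_
      obtain ⟨a1, a2, a3, a4, a5⟩ := hfac n hn
      show _ = (χ.zetaMul (p ^ (n.factorization p - 1 + 1))).re /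
        ((p ^ (n.factorization p - 1 + 1) : ℕ) : ℝ) *
        ((χ.zetaMul (n / p ^ n.factorization p)).re / ((n / p ^ n.factorization p : ℕ) : ℝ))
      rw [Nat.sub_add_cancel a1]
      have h5 := χ.isMultiplicative_zetaMul.map_mul_of_coprime a5
      rw [a3] at h5
      have h6 : (χ.zetaMul n).re = (χ.zetaMul (p ^ n.factorization p)).re *
          (χ.zetaMul (n / p ^ n.factorization p)).re := by
        rw [h5, Complex.mul_re, him, him]
        ring
      rw [h6, div_mul_div_comm]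
      congr 1
      have h7 : (((p ^ n.factorization p) * (n / p ^ n.factorization p) : ℕ) : ℝ) = (n : ℝ) := by
        rw [a3]
      rw [← h7]
      push_cast
      ring
    rw [hsumF]
    apply Finset.sum_le_sum_of_subset_of_nonneg
    · intro x hx'
      rw [Finset.mem_image] at hx'
      obtain ⟨n, hn, rfl⟩ := hx'
      obtain ⟨a1, a2, a3, a4, a5⟩ := hfac n hn
      rw [Finset.mem_filter, Finset.mem_Icc] at hn
      rw [Finset.mem_product, Finset.mem_range, Finset.mem_filter, Finset.mem_Icc]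
      refine ⟨?_, ⟨?_, ?_⟩, a4⟩
      · show n.factorization p - 1 < M
        have h8 : n.factorization p < n := Nat.factorization_lt p a2
        omega
      · show 1 ≤ n / p ^ n.factorization p
        exact Nat.one_le_iff_ne_zero.mpr (fun h0 => by rw [h0, mul_zero] at a3; exact a2 a3.symm)
      · show n / p ^ n.factorization p ≤ M
        exact (Nat.div_le_self _ _).trans hn.1.2
    · intro x _ _
      exact mul_nonneg (div_nonneg (hnn _) (Nat.cast_nonneg _)) (div_nonneg (hnn _) (Nat.cast_nonneg _))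

/-- `∑_{n ≤ z} a(n) / n ≤ G(z)`.

Proof. `1 / (1 - hx p) = 1 / ((1 - 1/p) (1 - χ p / p)) = ∑_{k ≥ 0} a(p ^ k) p ^ (-k)`, `a = 1 * χ` (product of two geometric series, `a(p ^ k) = ∑_{i ≤ k} χ(p) ^ i`), so `hx p / (1 - hx p) = ∑_{k ≥ 1} a(p ^ k) p ^ (-k)`. For squarefree `d`, `gg (hx χ) d` is the product
of these series over `p ∣ d`, at least the sum of `a(n) / n` over any finite set of `n` with the set of prime factors equal to that of `d` (`a ≥ 0` multiplicative; expand the product of the finite partial sums `k ≤ K`). Group the `n ≤ z` by their squarefree kernel `d ≤ z`. -/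
theorem GG_hx_ge {r : ℕ} (χ : DirichletCharacter ℂ r) (h2 : χ ^ 2 = 1) (z : ℝ) (hz : 1 ≤ z) :
    ∑ n ∈ Icc 1 ⌊z⌋₊, (χ.zetaMul n).re / n ≤ GG (hx χ) z := by
  have _ := hz
  unfold GG
  have hmaps : ∀ n ∈ Icc 1 ⌊z⌋₊, (∏ p ∈ n.primeFactors, p) ∈ SF z := by
    intro n hn
    rw [Finset.mem_Icc] at hn
    unfold SF
    rw [Finset.mem_filter, Finset.mem_Icc]
    have h1 : (∏ p ∈ n.primeFactors, p) ∣ n := Nat.prod_primeFactors_dvd n
    have h3 : (∏ p ∈ n.primeFactors, p) ≤ n := Nat.le_of_dvd (by omega) h1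
    refine ⟨⟨?_, by omega⟩, ?_⟩
    · exact Nat.pos_of_ne_zero (fun h0 => by
        rw [h0] at h1
        have := Nat.eq_zero_of_zero_dvd h1
        omega)
    · exact Finset.squarefree_prod_of_pairwise_isCoprime (by
        intro a ha b hb hab
        simp only [Function.onFun]
        rw [← Nat.coprime_iff_isRelPrime]
        exact (Nat.coprime_primes (Nat.prime_of_mem_primeFactors ha)
          (Nat.prime_of_mem_primeFactors hb)).mpr hab)
        (fun p hp => (Nat.prime_of_mem_primeFactors hp).prime.squarefree)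
  rw [← Finset.sum_fiberwise_of_maps_to hmaps]
  refine Finset.sum_le_sum fun d hd => ?_
  have h3 := DHc_fiber χ h2 ⌊z⌋₊ d.primeFactors (fun p hp => Nat.prime_of_mem_primeFactors hp)
  unfold gg pp
  refine le_trans (Finset.sum_le_sum_of_subset_of_nonneg ?_ ?_) h3
  · intro n hn
    rw [Finset.mem_filter] at hn ⊢
    refine ⟨hn.1, ?_⟩
    rw [← hn.2, Nat.primeFactors_prod (fun p hp => Nat.prime_of_mem_primeFactors hp)]
  · intro n _ _
    exact div_nonneg ((zm_facts χ h2).1 n).1 (Nat.cast_nonneg _)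

theorem DHc_omega (ε : ℝ) (hε : 0 < ε) : ∃ C : ℝ, 0 < C ∧ ∀ n : ℕ, 1 ≤ n →
    (3 : ℝ) ^ n.primeFactors.card ≤ C * (n : ℝ) ^ ε := by
  obtain ⟨P, hP⟩ : ∃ P : ℕ, (3 : ℝ) ^ (1 / ε) ≤ P := exists_nat_ge _
  refine ⟨3 ^ P, by positivity, fun n hn => ?_⟩
  have h1 : ∀ p ∈ n.primeFactors, (3 : ℝ) ≤ (if p < P then 3 else 1) * (p : ℝ) ^ ε := by
    intro p hp
    have hp1 : (1 : ℝ) ≤ p := by exact_mod_cast (Nat.prime_of_mem_primeFactors hp).one_lt.le
    by_cases h : p < P
    · rw [if_pos h]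
      have := Real.one_le_rpow hp1 hε.le
      linarith
    · rw [if_neg h, one_mul]
      have h2 : (3 : ℝ) ^ (1 / ε) ≤ p := hP.trans (by exact_mod_cast Nat.le_of_not_lt h)
      calc (3 : ℝ) = ((3 : ℝ) ^ (1 / ε)) ^ ε := by
            rw [← Real.rpow_mul (by norm_num), one_div, inv_mul_cancel₀ hε.ne', Real.rpow_one]
        _ ≤ (p : ℝ) ^ ε := Real.rpow_le_rpow (by positivity) h2 hε.le
  have h2 : (3 : ℝ) ^ n.primeFactors.card ≤ ∏ p ∈ n.primeFactors, ((if p < P then 3 else 1) * (p : ℝ) ^ ε) := by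
    rw [← Finset.prod_const]
    exact Finset.prod_le_prod (fun _ _ => by norm_num) h1
  rw [Finset.prod_mul_distrib] at h2
  refine h2.trans (mul_le_mul ?_ ?_ (Finset.prod_nonneg fun p _ => by positivity) (by positivity))
  · rw [Finset.prod_ite, Finset.prod_const, Finset.prod_const_one, mul_one]
    apply pow_le_pow_right₀ (by norm_num)
    calc (n.primeFactors.filter (fun p => p < P)).card ≤ (range P).card := by
          apply Finset.card_le_card
          intro p hp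
          rw [Finset.mem_filter] at hp
          exact Finset.mem_range.mpr hp.2
      _ = P := Finset.card_range P
  · have h3 : ∏ p ∈ n.primeFactors, (p : ℝ) ^ ε = ((∏ p ∈ n.primeFactors, p : ℕ) : ℝ) ^ ε := by
      push_cast
      rw [← Real.finsetProd_rpow]
      intro p _
      positivity
    rw [h3]
    apply Real.rpow_le_rpow (Nat.cast_nonneg _) _ hε.le
    exact_mod_cast Nat.le_of_dvd (by omega) (Nat.prod_primeFactors_dvd n)

/-- Proof. `3 ^ ω(n) ≤ C n ^ (c / 4)` (the number of divisors is `≤ C n ^ ε`: `2 ^ ω(n) ≤ d(n)`, `3 ^ ω ≤ d(n) ^ 2`; the divisor bound is in `Pool/Agent/W_fd120a_h34/Div.lean`). With `D = lcm d e ≤ z ^ 2`: `3 ^ ω(D) D ^ (2 c) ≤ C z ^ (c / 2) z ^ (4 c)`, and `∑ 1 / D ≤ (1 + log z) ^ 3 ≤ C z ^ (c / 2)` (`sum_lcm`). -/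
theorem sum_lcm_pow (c : ℝ) (hc : 0 < c) (hc1 : c ≤ 1 / 8) : ∃ C : ℝ, 0 < C ∧ ∀ z : ℝ, 1 ≤ z →
    ∑ d ∈ SF z, ∑ e ∈ SF z, (3 : ℝ) ^ (Nat.lcm d e).primeFactors.card * (Nat.lcm d e : ℝ) ^ (-1 + 2 * c) ≤ C * z ^ (5 * c) := by
  have _ := hc1
  obtain ⟨C, hC, hom⟩ := DHc_omega (c / 4) (by positivity)
  refine ⟨C * (1 + 6 / c) ^ 3, by positivity, fun z hz => ?_⟩
  have hz0 : 0 < z := by linarith
  have hlog : 1 + Real.log z ≤ (1 + 6 / c) * z ^ (c / 6) := by
    have h1 := Real.log_le_rpow_div hz0.le (by positivity : 0 < c / 6)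
    have h2 : 1 ≤ z ^ (c / 6) := Real.one_le_rpow hz (by positivity)
    have h3 : z ^ (c / 6) / (c / 6) = (6 / c) * z ^ (c / 6) := by
      field_simp
    rw [h3] at h1
    linarith
  have hlog3 : (1 + Real.log z) ^ 3 ≤ (1 + 6 / c) ^ 3 * z ^ (c / 2) := by
    have h1 : 0 ≤ 1 + Real.log z := by linarith [Real.log_nonneg hz]
    calc (1 + Real.log z) ^ 3 ≤ ((1 + 6 / c) * z ^ (c / 6)) ^ 3 := pow_le_pow_left₀ h1 hlog 3
      _ = (1 + 6 / c) ^ 3 * z ^ (c / 2) := by
        rw [mul_pow, ← Real.rpow_natCast (z ^ (c / 6)), ← Real.rpow_mul hz0.le]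
        congr 2
        push_cast
        ring
  have hterm : ∀ d ∈ SF z, ∀ e ∈ SF z, (3 : ℝ) ^ (Nat.lcm d e).primeFactors.card *
      (Nat.lcm d e : ℝ) ^ (-1 + 2 * c) ≤ C * z ^ (c / 2) * z ^ (4 * c) * (1 / (Nat.lcm d e : ℝ)) := by
    intro d hd e he
    unfold SF at hd he
    rw [Finset.mem_filter, Finset.mem_Icc] at hd he
    have hD0 : 0 < Nat.lcm d e := Nat.lcm_pos (by omega) (by omega)
    have hDR : (0 : ℝ) < Nat.lcm d e := by exact_mod_cast hD0
    have hDz : (Nat.lcm d e : ℝ) ≤ z ^ 2 := by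
      have h1 : Nat.lcm d e ≤ d * e := Nat.le_of_dvd (Nat.mul_pos (by omega) (by omega)) (Nat.lcm_dvd_mul d e)
      have hdz : (d : ℝ) ≤ z := (by exact_mod_cast hd.1.2 : (d : ℝ) ≤ ⌊z⌋₊).trans (Nat.floor_le hz0.le)
      have hez : (e : ℝ) ≤ z := (by exact_mod_cast he.1.2 : (e : ℝ) ≤ ⌊z⌋₊).trans (Nat.floor_le hz0.le)
      calc (Nat.lcm d e : ℝ) ≤ (d : ℝ) * e := by exact_mod_cast h1
        _ ≤ z * z := mul_le_mul hdz hez (Nat.cast_nonneg _) hz0.le
        _ = z ^ 2 := by ring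
    have h3 := hom (Nat.lcm d e) hD0
    have h4 : (Nat.lcm d e : ℝ) ^ (-1 + 2 * c) = (1 / (Nat.lcm d e : ℝ)) * (Nat.lcm d e : ℝ) ^ (2 * c) := by
      rw [Real.rpow_add hDR, Real.rpow_neg_one, one_div]
    rw [h4]
    have hpw : ∀ b : ℝ, 0 ≤ b → (Nat.lcm d e : ℝ) ^ b ≤ z ^ (2 * b) := by
      intro b hb
      calc (Nat.lcm d e : ℝ) ^ b ≤ (z ^ 2) ^ b := Real.rpow_le_rpow hDR.le hDz hb
        _ = z ^ (2 * b) := by
          rw [← Real.rpow_natCast, ← Real.rpow_mul hz0.le]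
          norm_num
    have h5 : (3 : ℝ) ^ (Nat.lcm d e).primeFactors.card ≤ C * z ^ (c / 2) := by
      refine h3.trans (mul_le_mul_of_nonneg_left ?_ hC.le)
      have := hpw (c / 4) (by positivity)
      rwa [show 2 * (c / 4) = c / 2 by ring] at this
    have h6 : (Nat.lcm d e : ℝ) ^ (2 * c) ≤ z ^ (4 * c) := by
      have := hpw (2 * c) (by positivity)
      rwa [show 2 * (2 * c) = 4 * c by ring] at this
    calc (3 : ℝ) ^ (Nat.lcm d e).primeFactors.card * ((1 / (Nat.lcm d e : ℝ)) * (Nat.lcm d e : ℝ) ^ (2 * c))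
        ≤ (C * z ^ (c / 2)) * ((1 / (Nat.lcm d e : ℝ)) * z ^ (4 * c)) := by
          apply mul_le_mul h5 _ (by positivity) (by positivity)
          exact mul_le_mul_of_nonneg_left h6 (by positivity)
      _ = _ := by ring
  have hsum := sum_lcm z hz
  have hsub : ∑ d ∈ SF z, ∑ e ∈ SF z, 1 / (Nat.lcm d e : ℝ) ≤
      ∑ d ∈ Icc 1 ⌊z⌋₊, ∑ e ∈ Icc 1 ⌊z⌋₊, 1 / (Nat.lcm d e : ℝ) := by
    have hss : SF z ⊆ Icc 1 ⌊z⌋₊ := Finset.filter_subset _ _
    calc ∑ d ∈ SF z, ∑ e ∈ SF z, 1 / (Nat.lcm d e : ℝ)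
        ≤ ∑ d ∈ SF z, ∑ e ∈ Icc 1 ⌊z⌋₊, 1 / (Nat.lcm d e : ℝ) :=
          Finset.sum_le_sum fun d _ => Finset.sum_le_sum_of_subset_of_nonneg hss
            (fun _ _ _ => by positivity)
      _ ≤ _ := Finset.sum_le_sum_of_subset_of_nonneg hss
            (fun _ _ _ => Finset.sum_nonneg fun _ _ => by positivity)
  calc ∑ d ∈ SF z, ∑ e ∈ SF z, (3 : ℝ) ^ (Nat.lcm d e).primeFactors.card * (Nat.lcm d e : ℝ) ^ (-1 + 2 * c)
      ≤ ∑ d ∈ SF z, ∑ e ∈ SF z, C * z ^ (c / 2) * z ^ (4 * c) * (1 / (Nat.lcm d e : ℝ)) :=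
        Finset.sum_le_sum fun d hd => Finset.sum_le_sum fun e he => hterm d hd e he
    _ = C * z ^ (c / 2) * z ^ (4 * c) * ∑ d ∈ SF z, ∑ e ∈ SF z, 1 / (Nat.lcm d e : ℝ) := by
        rw [Finset.mul_sum]
        refine Finset.sum_congr rfl fun d _ => ?_
        rw [Finset.mul_sum]
    _ ≤ C * z ^ (c / 2) * z ^ (4 * c) * ((1 + 6 / c) ^ 3 * z ^ (c / 2)) := by
        apply mul_le_mul_of_nonneg_left _ (by positivity)
        exact (hsub.trans hsum).trans hlog3
    _ = C * (1 + 6 / c) ^ 3 * z ^ (5 * c) := by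
        have : z ^ (5 * c) = z ^ (c / 2) * z ^ (4 * c) * z ^ (c / 2) := by
          rw [← Real.rpow_add hz0, ← Real.rpow_add hz0]
          congr 1
          ring
        rw [this]
        ring

/-- **Real zeros are not too close to `1`.**

Proof. It is enough to treat small `ε ≤ 1/2`. If `1 - β ≥ ε / 4` this is clear (with `c ≤ ε / 4`). Otherwise `LFunction χ 1 = LFunction χ 1 - LFunction χ β`, at most `(1 - β)` times the maximum of `‖L'‖` on `[β, 1]` (mean value inequality). By Cauchy's estimate on circles of radius `ε / 8` (`sw_eps (ε / 2)`: `‖LFunction χ s‖ ≤ C QQ r (Im s) ^ ε`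
for `Re s ≥ 1 - ε / 2`), `‖L'‖ ≤ C' r ^ ε`. With Siegel's theorem `Pool.Agent.Wb58c63.siegel ε`: `c r ^ (-ε) ≤ ‖LFunction χ 1‖ ≤ (1 - β) C' r ^ ε`. So `1 - β ≥ c' r ^ (-2 ε)`. (For `r = 1` there is no primitive `χ ≠ 1`.) File `SgE.lean` of `W_b58c63_h68` contains `siegel`. -/
theorem beta_lower (ε : ℝ) (hε : 0 < ε) : ∃ c : ℝ, 0 < c ∧ ∀ (r : ℕ) (χ : DirichletCharacter ℂ r), 1 ≤ r →
    χ.IsPrimitive → χ ≠ 1 → χ ^ 2 = 1 → ∀ β : ℝ, 1 / 2 ≤ β → β < 1 → EF χ (β : ℂ) = 0 → c * (r : ℝ) ^ (-ε) ≤ 1 - β := by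
  obtain ⟨η, hη⟩ : ∃ η : ℝ, η = min (ε / 4) (1 / 4) := ⟨_, rfl⟩
  have hη0 : 0 < η := by rw [hη]; positivity
  have hηε : 4 * η ≤ ε := by
    have := min_le_left (ε / 4) (1 / 4 : ℝ)
    rw [← hη] at this
    linarith
  have hη4 : η ≤ 1 / 4 := by rw [hη]; exact min_le_right _ _
  obtain ⟨C, hC1, hC⟩ := Pool.Agent.Wb58c63.sw_eps η hη0 (by linarith)
  obtain ⟨c, hc, hcs⟩ := Pool.Agent.Wb58c63.siegel (2 * η) (by positivity)
  have hC0 : 0 < C := by linarith
  refine ⟨min (η / 2) (c * η / (2 * C * 3 ^ (2 * η))), by positivity, ?_⟩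
  intro r χ hr hprim hχ h2 β hβ hβ1 hz
  have hrn : NeZero r := ⟨by omega⟩
  have hr1 : 1 < r := by
    rcases Nat.lt_or_ge 1 r with h | h
    · exact h
    · exfalso
      have hr1 : r = 1 := by omega
      subst hr1
      exact hχ (Subsingleton.elim _ _)
  have hrR : (1 : ℝ) ≤ r := by exact_mod_cast hr
  have hr0 : (0 : ℝ) < r := by linarith
  have hLz : DirichletCharacter.LFunction χ (β : ℂ) = 0 := by
    rw [← EF_eq_of_ne χ hχ]
    exact hz
  have hrε : (r : ℝ) ^ (-ε) ≤ 1 := Real.rpow_le_one_of_one_le_of_nonpos hrR (by linarith)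
  rcases le_or_gt (η / 2) (1 - β) with hb | hb
  · calc min (η / 2) (c * η / (2 * C * 3 ^ (2 * η))) * (r : ℝ) ^ (-ε) ≤ (η / 2) * 1 :=
        mul_le_mul (min_le_left _ _) hrε (Real.rpow_nonneg hr0.le _) (by positivity)
      _ ≤ 1 - β := by linarith
  · -- derivative bound
    obtain ⟨K, hK⟩ : ∃ K : ℝ, K = C * (3 * r) ^ (2 * η) / (η / 2) := ⟨_, rfl⟩
    have hdiff := DirichletCharacter.differentiable_LFunction hχ
    have hder : ∀ w ∈ Metric.closedBall (1 : ℂ) (η / 2), ‖deriv (DirichletCharacter.LFunction χ) w‖ ≤ K := by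
      intro w hw
      rw [hK]
      apply Complex.norm_deriv_le_of_forall_mem_sphere_norm_le (by positivity)
        hdiff.diffContOnCl
      intro s hs
      rw [Metric.mem_closedBall, dist_eq_norm] at hw
      rw [mem_sphere_iff_norm] at hs
      have h1 : ‖s - 1‖ ≤ η := by
        calc ‖s - 1‖ = ‖(s - w) + (w - 1)‖ := by congr 1; ring
          _ ≤ ‖s - w‖ + ‖w - 1‖ := norm_add_le _ _
          _ ≤ η := by linarith
      have h3 : |s.re - 1| ≤ η := by
        have := (Complex.abs_re_le_norm (s - 1)).trans h1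
        simpa using this
      have h4 : |s.im| ≤ η := by
        have := (Complex.abs_im_le_norm (s - 1)).trans h1
        simpa using this
      rw [abs_le] at h3
      have h5 := hC r χ hχ s (by linarith) (by linarith)
      refine h5.trans (mul_le_mul_of_nonneg_left ?_ hC0.le)
      unfold Pool.Agent.Wb58c63.QQ
      apply Real.rpow_le_rpow (by positivity) _ (by positivity)
      nlinarith [abs_nonneg s.im]
    have hmv := Convex.norm_image_sub_le_of_norm_deriv_le (𝕜 := ℂ)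
      (fun w _ => hdiff w) hder (convex_closedBall (1 : ℂ) (η / 2))
      (x := (β : ℂ)) (y := 1) (by
        rw [Metric.mem_closedBall, dist_eq_norm]
        have : ((β : ℂ) - 1) = ((β - 1 : ℝ) : ℂ) := by push_cast; ring
        rw [this, Complex.norm_real, Real.norm_eq_abs, abs_of_nonpos (by linarith)]
        linarith) (Metric.mem_closedBall_self (by positivity))
    rw [hLz, sub_zero] at hmv
    have hn : ‖(1 : ℂ) - (β : ℂ)‖ = 1 - β := by
      have : ((1 : ℂ) - (β : ℂ)) = ((1 - β : ℝ) : ℂ) := by push_cast; ring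
      rw [this, Complex.norm_real, Real.norm_eq_abs, abs_of_pos (by linarith)]
    rw [hn] at hmv
    have hsg := hcs r χ hr1 hprim h2
    have hmain : c * (r : ℝ) ^ (-(2 * η)) ≤ K * (1 - β) := hsg.trans hmv
    have hKe : K = 2 * C * 3 ^ (2 * η) / η * (r : ℝ) ^ (2 * η) := by
      rw [hK, Real.mul_rpow (by norm_num) hr0.le]
      field_simp
    have hrr : (r : ℝ) ^ (2 * η) * (r : ℝ) ^ (-(2 * η)) = 1 := by
      rw [← Real.rpow_add hr0]
      simp
    have h6 : c * η / (2 * C * 3 ^ (2 * η)) * (r : ℝ) ^ (-(4 * η)) ≤ 1 - β := by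
      have e1 : (r : ℝ) ^ (-(4 * η)) = (r : ℝ) ^ (-(2 * η)) * (r : ℝ) ^ (-(2 * η)) := by
        rw [← Real.rpow_add hr0]
        congr 1
        ring
      have hA : 0 < η / (2 * C * 3 ^ (2 * η)) * (r : ℝ) ^ (-(2 * η)) := by positivity
      have h7 := mul_le_mul_of_nonneg_left hmain hA.le
      have e2 : η / (2 * C * 3 ^ (2 * η)) * (r : ℝ) ^ (-(2 * η)) * (K * (1 - β)) = 1 - β := by
        rw [hKe]
        calc η / (2 * C * 3 ^ (2 * η)) * (r : ℝ) ^ (-(2 * η)) *
              (2 * C * 3 ^ (2 * η) / η * (r : ℝ) ^ (2 * η) * (1 - β))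
            = (η / (2 * C * 3 ^ (2 * η)) * (2 * C * 3 ^ (2 * η) / η)) *
              ((r : ℝ) ^ (2 * η) * (r : ℝ) ^ (-(2 * η))) * (1 - β) := by ring
          _ = 1 - β := by
            rw [hrr]
            have : η / (2 * C * 3 ^ (2 * η)) * (2 * C * 3 ^ (2 * η) / η) = 1 := by
              field_simp
            rw [this]
            ring
      rw [e2] at h7
      rw [e1]
      refine le_trans (le_of_eq ?_) h7
      ring
    have h8 : (r : ℝ) ^ (-ε) ≤ (r : ℝ) ^ (-(4 * η)) :=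
      Real.rpow_le_rpow_of_exponent_le hrR (by linarith)
    calc min (η / 2) (c * η / (2 * C * 3 ^ (2 * η))) * (r : ℝ) ^ (-ε)
        ≤ c * η / (2 * C * 3 ^ (2 * η)) * (r : ℝ) ^ (-(4 * η)) :=
          mul_le_mul (min_le_right _ _) h8 (Real.rpow_nonneg hr0.le _) (by positivity)
      _ ≤ 1 - β := h6

end Pool.Agent.PSG
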