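import Pool.Agent.W_b58c63_h44.DHb
import Pool.Agent.W_b58c63_h44.DHc

/-!
# Deuring-Heilbronn: the mass
-/

set_option autoImplicit false

noncomputable section

open Finset Complex

namespace Pool.Agent.PSG

open Pool.Agent.Wb58c63 (chi12)

/-- Auxiliary: a divisor sum as a sum over `SF z`. -/
theorem DHd_sum (z : ℝ) (lam : ℕ → ℝ) (hl : ∀ d, d ∉ SF z → lam d = 0) {n : ℕ} (hn : n ≠ 0) :
    ∑ d ∈ n.divisors, lam d = ∑ d ∈ SF z, if d ∣ n then lam d else 0 := by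
  rw [← Finset.sum_filter]
  symm
  apply Finset.sum_subset_zero_on_sdiff
  · intro d hd
    rw [Finset.mem_filter] at hd
    exact Nat.mem_divisors.2 ⟨hd.2, hn⟩
  · intro d hd
    rw [Finset.mem_sdiff, Finset.mem_filter] at hd
    apply hl
    intro h
    exact hd.2 ⟨h, (Nat.mem_divisors.1 hd.1).1⟩
  · intro d _
    rfl

theorem DHd_nu (z : ℝ) (lam : ℕ → ℝ) (hl : ∀ d, d ∉ SF z → lam d = 0) {n : ℕ} (hn : n ≠ 0) :
    (nu lam n : ℂ) = ∑ d ∈ SF z, ∑ e ∈ SF z, (lam d : ℂ) * (lam e : ℂ) *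
      (if Nat.lcm d e ∣ n then 1 else 0) := by
  rw [nu, DHd_sum z lam hl hn, sq, Finset.sum_mul_sum]
  push_cast
  refine Finset.sum_congr rfl fun d _ => Finset.sum_congr rfl fun e _ => ?_
  by_cases h1 : d ∣ n
  · by_cases h2 : e ∣ n
    · rw [if_pos h1, if_pos h2, if_pos (Nat.lcm_dvd h1 h2), mul_one]
    · rw [if_neg h2, if_neg (fun h => h2 ((Nat.dvd_lcm_right d e).trans h))]
      simp
  · rw [if_neg h1, if_neg (fun h => h1 ((Nat.dvd_lcm_left d e).trans h))]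
    simp

/-- The sifted sums as combinations of `SS`.

Proof. `nu lam n = ∑_{d, e ∣ n} lam d lam e`, `d, e ∣ n ↔ lcm d e ∣ n`; `lam` vanishes off `SF z`. As `nu_expand`. -/
theorem SS_expand {r q : ℕ} (χ : DirichletCharacter ℂ r) (ψ : DirichletCharacter ℂ q) (s : ℂ) (Z z : ℝ) (lam : ℕ → ℝ)
    (hl : ∀ d, d ∉ SF z → lam d = 0) :
    ∑ n ∈ Icc 1 ⌊2 * Z⌋₊, (nu lam n : ℂ) * (χ.zetaMul n * ψ (n : ZMod q) * (n : ℂ) ^ (-s) * (ww (n / Z) : ℂ)) =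
      ∑ d ∈ SF z, ∑ e ∈ SF z, (lam d : ℂ) * (lam e : ℂ) * SS χ ψ s (Nat.lcm d e) Z := by
  have h1 : ∀ n ∈ Icc 1 ⌊2 * Z⌋₊, (nu lam n : ℂ) * (χ.zetaMul n * ψ (n : ZMod q) * (n : ℂ) ^ (-s) *
      (ww (n / Z) : ℂ)) = ∑ d ∈ SF z, ∑ e ∈ SF z, (lam d : ℂ) * (lam e : ℂ) *
        (if Nat.lcm d e ∣ n then χ.zetaMul n * ψ (n : ZMod q) * (n : ℂ) ^ (-s) * (ww (n / Z) : ℂ)
          else 0) := by
    intro n hn
    have hn0 : n ≠ 0 := by
      have := (Finset.mem_Icc.1 hn).1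
      omega
    rw [DHd_nu z lam hl hn0, Finset.sum_mul]
    refine Finset.sum_congr rfl fun d _ => ?_
    rw [Finset.sum_mul]
    refine Finset.sum_congr rfl fun e _ => ?_
    split_ifs <;> ring
  rw [Finset.sum_congr rfl h1, Finset.sum_comm]
  refine Finset.sum_congr rfl fun d _ => ?_
  rw [Finset.sum_comm]
  refine Finset.sum_congr rfl fun e _ => ?_
  rw [SS, Finset.mul_sum]

theorem DHd_sqf {d e : ℕ} (hd : Squarefree d) (he : Squarefree e) : Squarefree (Nat.lcm d e) := by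
  have hd0 := hd.ne_zero
  have he0 := he.ne_zero
  rw [Nat.squarefree_iff_factorization_le_one (Nat.lcm_ne_zero hd0 he0)]
  intro p
  rw [Nat.factorization_lcm hd0 he0]
  have h1 := (Nat.squarefree_iff_factorization_le_one hd0).1 hd p
  have h2 := (Nat.squarefree_iff_factorization_le_one he0).1 he p
  exact sup_le h1 h2

theorem DHd_log (a K : ℝ) (ha : 0 < a) : ∃ X₀ : ℝ, 3 ≤ X₀ ∧ ∀ X : ℝ, X₀ ≤ X →
    K * Real.log X ^ 2 ≤ X ^ a := by
  have h1 := (isLittleO_log_rpow_rpow_atTop (s := a) 2 ha).bound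
    (c := 1 / (|K| + 1)) (by positivity)
  obtain ⟨X₁, hX₁⟩ := Filter.eventually_atTop.1 h1
  refine ⟨max X₁ 3, le_max_right _ _, fun X hX => ?_⟩
  have h3 : (3 : ℝ) ≤ X := (le_max_right _ _).trans hX
  have h4 := hX₁ X ((le_max_left _ _).trans hX)
  have hl : 0 ≤ Real.log X := Real.log_nonneg (by linarith)
  rw [Real.norm_of_nonneg (Real.rpow_nonneg hl _), Real.norm_of_nonneg (Real.rpow_nonneg (by linarith) _),
    Real.rpow_two] at h4
  have hK : K ≤ |K| + 1 := by linarith [le_abs_self K]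
  have hK0 : 0 < |K| + 1 := by positivity
  calc K * Real.log X ^ 2 ≤ (|K| + 1) * Real.log X ^ 2 := by gcongr
    _ ≤ (|K| + 1) * (1 / (|K| + 1) * X ^ a) := by gcongr
    _ = X ^ a := by field_simp

/-- The sum of the error terms. -/
theorem DHd_err (c C' θ X : ℝ) (hX : 3 ≤ X)
    (HS : ∀ z : ℝ, 1 ≤ z → ∑ d ∈ SF z, ∑ e ∈ SF z, (3 : ℝ) ^ (Nat.lcm d e).primeFactors.card *
      (Nat.lcm d e : ℝ) ^ (-1 + 2 * c) ≤ C' * z ^ (5 * c)) (hθ : 0 < θ) :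
    ∑ d ∈ SF (X ^ (8 * θ)), ∑ e ∈ SF (X ^ (8 * θ)), Edh c θ X (X ^ (64 * θ)) (Nat.lcm d e) ≤
      C' * Real.log X ^ 2 * X ^ (-(20 * (θ * c))) := by
  have hX0 : 0 < X := by linarith
  unfold Edh
  simp_rw [← Finset.mul_sum]
  have h1 := HS (X ^ (8 * θ)) (Real.one_le_rpow (by linarith) (by linarith))
  have h2 : 0 ≤ (X ^ (64 * θ)) ^ (-c) * X ^ (4 * θ * c) * Real.log X ^ 2 := by positivity
  refine (mul_le_mul_of_nonneg_left h1 h2).trans (le_of_eq ?_)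
  rw [← Real.rpow_mul hX0.le, ← Real.rpow_mul hX0.le]
  have h3 : X ^ (-(20 * (θ * c))) = X ^ (64 * θ * -c) * X ^ (4 * θ * c) * X ^ (8 * θ * (5 * c)) := by
    rw [← Real.rpow_add hX0, ← Real.rpow_add hX0]
    congr 1
    ring
  rw [h3]
  ring

/-- Bound for a double sum. -/
theorem DHd_dbl {z : ℝ} {lam : ℕ → ℝ} (hlam : ∀ d, |lam d| ≤ 1) (F : ℕ → ℂ) (E : ℕ → ℝ)
    (h : ∀ d ∈ SF z, ∀ e ∈ SF z, ‖F (Nat.lcm d e)‖ ≤ E (Nat.lcm d e)) :
    ‖∑ d ∈ SF z, ∑ e ∈ SF z, (lam d : ℂ) * (lam e : ℂ) * F (Nat.lcm d e)‖ ≤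
      ∑ d ∈ SF z, ∑ e ∈ SF z, E (Nat.lcm d e) := by
  refine (norm_sum_le _ _).trans (Finset.sum_le_sum fun d hd => ?_)
  refine (norm_sum_le _ _).trans (Finset.sum_le_sum fun e he => ?_)
  rw [norm_mul, norm_mul, Complex.norm_real, Complex.norm_real, Real.norm_eq_abs, Real.norm_eq_abs]
  have h1 := hlam d
  have h2 := hlam e
  have h3 := h d hd e he
  have h4 : |lam d| * |lam e| ≤ 1 := mul_le_one₀ h1 (abs_nonneg _) h2
  calc |lam d| * |lam e| * ‖F (Nat.lcm d e)‖ ≤ 1 * ‖F (Nat.lcm d e)‖ := by gcongr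
    _ ≤ E (Nat.lcm d e) := by rw [one_mul]; exact h3

theorem DHd_mem {z : ℝ} {d : ℕ} (hd : d ∈ SF z) : Squarefree d := (Finset.mem_filter.1 hd).2


/-- The conclusion of `SS_est`. -/
def DHdH (c ε C θ X : ℝ) : Prop :=
    ∀ (r q : ℕ) [NeZero r] [NeZero q], (r : ℝ) ≤ X ^ ε → (q : ℝ) ≤ X ^ ε →
    ∀ (χ : DirichletCharacter ℂ r) (ψ : DirichletCharacter ℂ q), χ ≠ 1 → ∀ D : ℕ, Squarefree D → ∀ Z : ℝ, 4 ≤ Z → Z ≤ X →
    (ψ ≠ 1 → chi12 ψ χ ≠ 1 → ∀ s : ℂ, 1 - c ≤ s.re → s.re ≤ 1 → |s.im| ≤ X →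
      DirichletCharacter.LFunction ψ s * DirichletCharacter.LFunction (chi12 ψ χ) s = 0 →
      ‖SS χ ψ s D Z‖ ≤ C * Edh c θ X Z D) ∧
    (∀ s : ℂ, 1 - c ≤ s.re → s.re ≤ 1 → |s.im| ≤ X → s ≠ 1 → riemannZeta s * DirichletCharacter.LFunction χ s = 0 →
      ‖SS χ (1 : DirichletCharacter ℂ 1) s D Z - DirichletCharacter.LFunction χ 1 * hD χ (1 : DirichletCharacter ℂ 1) D 1 *
        (Z : ℂ) ^ (1 - s) * VV (1 - s) / (1 - s)‖ ≤ C * (1 + 1 / ‖1 - s‖) * Edh c θ X Z D)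

theorem DHd_one_apply (n : ℕ) : (1 : DirichletCharacter ℂ 1) (n : ZMod 1) = 1 := by
  rw [Subsingleton.elim (n : ZMod 1) 1, map_one]

/-- The sum with `ψ = 1`. -/
theorem DHd_SSone {r : ℕ} (χ : DirichletCharacter ℂ r) (s : ℂ) (D : ℕ) (Z : ℝ) :
    SS χ (1 : DirichletCharacter ℂ 1) s D Z = ∑ n ∈ Icc 1 ⌊2 * Z⌋₊, if D ∣ n then
      χ.zetaMul n * (n : ℂ) ^ (-s) * (ww (n / Z) : ℂ) else 0 := by
  rw [SS]
  refine Finset.sum_congr rfl fun n _ => ?_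
  rw [DHd_one_apply, mul_one]

/-- Second part of `dh_mass`. -/
theorem DHd_b {c ε C C' θ X K : ℝ} (hX : 3 ≤ X) (hc : 0 < c) (hε : 0 < ε) (hθ : 0 < θ)
    (hθ1 : θ ≤ 1 / 64) (hC : 0 < C) (hC' : 0 < C')
    (H : DHdH c ε C θ X)
    (HS : ∀ z : ℝ, 1 ≤ z → ∑ d ∈ SF z, ∑ e ∈ SF z, (3 : ℝ) ^ (Nat.lcm d e).primeFactors.card *
      (Nat.lcm d e : ℝ) ^ (-1 + 2 * c) ≤ C' * z ^ (5 * c))
    (hK : K = 100 + 16 * (C * C') + 16 * C) (HK : K * Real.log X ^ 2 ≤ X ^ (θ * c / 2))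
    (hZ4 : 4 ≤ X ^ (64 * θ)) (hZX : X ^ (64 * θ) ≤ X)
    (r : ℕ) [NeZero r] (hr : (r : ℝ) ≤ X ^ ε) (χ : DirichletCharacter ℂ r) (hχ : χ ≠ 1)
    (lam : ℕ → ℝ) (hlam : ∀ d, |lam d| ≤ 1) (hl : ∀ d, d ∉ SF (X ^ (8 * θ)) → lam d = 0)
    (h2 : χ ^ 2 = 1) (hf : ∀ f ∈ SF (X ^ (8 * θ)), ∑ d ∈ (SF (X ^ (8 * θ))).filter (fun d => f ∣ d), lam d * pp (hx χ) d =
        (ArithmeticFunction.moebius f : ℝ) * gg (hx χ) f / GG (hx χ) (X ^ (8 * θ)))
    (s : ℂ) (hs : 1 - c ≤ s.re) (hs1 : s.re ≤ 1) (hsi : |s.im| ≤ X) (hsX : X ^ (-(θ * c / 8)) ≤ ‖1 - s‖)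
    (hs0 : riemannZeta s * DirichletCharacter.LFunction χ s = 0) :
    ‖(∑ n ∈ Icc 1 ⌊2 * X ^ (64 * θ)⌋₊, (nu lam n : ℂ) * (χ.zetaMul n * (n : ℂ) ^ (-s) * (ww (n / X ^ (64 * θ)) : ℂ))) -
          DirichletCharacter.LFunction χ 1 * ((X ^ (64 * θ) : ℝ) : ℂ) ^ (1 - s) * VV (1 - s) / ((1 - s) * (GG (hx χ) (X ^ (8 * θ)) : ℂ))‖ ≤
            X ^ (-(10 * θ * c)) := by
  have hX0 : 0 < X := by linarith
  have hX1 : 1 ≤ X := by linarith
  have hlog : 1 ≤ Real.log X := by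
    rw [Real.le_log_iff_exp_le hX0]
    exact (Real.exp_one_lt_d9.le.trans (by norm_num)).trans hX
  have hθc : 0 < θ * c := mul_pos hθ hc
  have hpos : 0 < ‖1 - s‖ := lt_of_lt_of_le (Real.rpow_pos_of_pos hX0 _) hsX
  have hs_ne : s ≠ 1 := by
    rintro rfl
    rw [sub_self, norm_zero] at hpos
    exact lt_irrefl _ hpos
  have hq1 : ((1 : ℕ) : ℝ) ≤ X ^ ε := by
    rw [Nat.cast_one]
    exact Real.one_le_rpow hX1 hε.le
  -- the sum as a combination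
  have e1 : (∑ n ∈ Icc 1 ⌊2 * X ^ (64 * θ)⌋₊, (nu lam n : ℂ) * (χ.zetaMul n * (n : ℂ) ^ (-s) *
      (ww (n / X ^ (64 * θ)) : ℂ))) = ∑ d ∈ SF (X ^ (8 * θ)), ∑ e ∈ SF (X ^ (8 * θ)),
        (lam d : ℂ) * (lam e : ℂ) * SS χ (1 : DirichletCharacter ℂ 1) s (Nat.lcm d e) (X ^ (64 * θ)) := by
    rw [← SS_expand χ (1 : DirichletCharacter ℂ 1) s (X ^ (64 * θ)) (X ^ (8 * θ)) lam hl]
    refine Finset.sum_congr rfl fun n _ => ?_
    rw [DHd_one_apply, mul_one]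
  -- the main term as a combination
  have hGG := selberg_value (hx χ) (fun p hp => hx_bounds χ h2 p hp) (X ^ (8 * θ))
    (Real.one_le_rpow hX1 (by linarith)) lam hf
  have e2 : DirichletCharacter.LFunction χ 1 * ((X ^ (64 * θ) : ℝ) : ℂ) ^ (1 - s) * VV (1 - s) /
      ((1 - s) * (GG (hx χ) (X ^ (8 * θ)) : ℂ)) = ∑ d ∈ SF (X ^ (8 * θ)), ∑ e ∈ SF (X ^ (8 * θ)),
        (lam d : ℂ) * (lam e : ℂ) * (DirichletCharacter.LFunction χ 1 *
          hD χ (1 : DirichletCharacter ℂ 1) (Nat.lcm d e) 1 * ((X ^ (64 * θ) : ℝ) : ℂ) ^ (1 - s) *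
            VV (1 - s) / (1 - s)) := by
    have e3 : ((1 / GG (hx χ) (X ^ (8 * θ)) : ℝ) : ℂ) = ∑ d ∈ SF (X ^ (8 * θ)), ∑ e ∈ SF (X ^ (8 * θ)),
        (lam d : ℂ) * (lam e : ℂ) * hD χ (1 : DirichletCharacter ℂ 1) (Nat.lcm d e) 1 := by
      rw [← hGG]
      push_cast
      refine Finset.sum_congr rfl fun d _ => Finset.sum_congr rfl fun e _ => ?_
      rw [hD_one χ h2]
    have e4 : DirichletCharacter.LFunction χ 1 * ((X ^ (64 * θ) : ℝ) : ℂ) ^ (1 - s) * VV (1 - s) /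
      ((1 - s) * (GG (hx χ) (X ^ (8 * θ)) : ℂ)) = (DirichletCharacter.LFunction χ 1 *
        ((X ^ (64 * θ) : ℝ) : ℂ) ^ (1 - s) * VV (1 - s) / (1 - s)) * ((1 / GG (hx χ) (X ^ (8 * θ)) : ℝ) : ℂ) := by
      push_cast
      rw [mul_one_div, div_div]
    rw [e4, e3, Finset.mul_sum]
    refine Finset.sum_congr rfl fun d _ => ?_
    rw [Finset.mul_sum]
    refine Finset.sum_congr rfl fun e _ => ?_
    ring
  rw [e1, e2, ← Finset.sum_sub_distrib]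
  simp_rw [← Finset.sum_sub_distrib, ← mul_sub]
  refine (DHd_dbl hlam (fun D => SS χ (1 : DirichletCharacter ℂ 1) s D (X ^ (64 * θ)) -
    DirichletCharacter.LFunction χ 1 * hD χ (1 : DirichletCharacter ℂ 1) D 1 *
      ((X ^ (64 * θ) : ℝ) : ℂ) ^ (1 - s) * VV (1 - s) / (1 - s))
    (fun D => C * (1 + 1 / ‖1 - s‖) * Edh c θ X (X ^ (64 * θ)) D) ?_).trans ?_
  · intro d hd e he
    exact (H r 1 hr hq1 χ (1 : DirichletCharacter ℂ 1) hχ (Nat.lcm d e)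
      (DHd_sqf (DHd_mem hd) (DHd_mem he)) (X ^ (64 * θ)) hZ4 hZX).2 s hs hs1 hsi hs_ne hs0
  · simp_rw [← Finset.mul_sum]
    have h5 := DHd_err c C' θ X hX HS hθ
    have h6 : C * (1 + 1 / ‖1 - s‖) ≤ 2 * C * X ^ (θ * c / 8) := by
      have h7 : 1 / ‖1 - s‖ ≤ X ^ (θ * c / 8) := by
        rw [div_le_iff₀ hpos]
        calc (1 : ℝ) = X ^ (θ * c / 8) * X ^ (-(θ * c / 8)) := by
              rw [← Real.rpow_add hX0, add_neg_cancel, Real.rpow_zero]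
          _ ≤ X ^ (θ * c / 8) * ‖1 - s‖ := by gcongr
      have h8 : 1 ≤ X ^ (θ * c / 8) := Real.one_le_rpow hX1 (by positivity)
      nlinarith only [hθ, hθ1, h8, hC, h7]
    have h9 : 0 ≤ C' * Real.log X ^ 2 * X ^ (-(20 * (θ * c))) := by positivity
    have h10 : 0 ≤ C * (1 + 1 / ‖1 - s‖) := by positivity
    refine (mul_le_mul_of_nonneg_left h5 h10).trans ((mul_le_mul_of_nonneg_right h6 h9).trans ?_)
    have h11 : 2 * (C * C') * Real.log X ^ 2 ≤ X ^ (θ * c / 2) := by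
      refine le_trans ?_ HK
      have : 2 * (C * C') ≤ K := by
        rw [hK]
        linarith only [mul_pos hC hC', hC]
      exact mul_le_mul_of_nonneg_right this (by positivity)
    calc 2 * C * X ^ (θ * c / 8) * (C' * Real.log X ^ 2 * X ^ (-(20 * (θ * c)))) =
        (2 * (C * C') * Real.log X ^ 2) * (X ^ (θ * c / 8) * X ^ (-(20 * (θ * c)))) := by ring
      _ ≤ X ^ (θ * c / 2) * (X ^ (θ * c / 8) * X ^ (-(20 * (θ * c)))) := by gcongr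
      _ = X ^ (θ * c / 2 + (θ * c / 8 + -(20 * (θ * c)))) := by
        rw [Real.rpow_add hX0, Real.rpow_add hX0]
      _ ≤ X ^ (-(10 * θ * c)) := by
        apply Real.rpow_le_rpow_of_exponent_le hX1
        nlinarith only [hθc]


/-- The sum at a real point as a real sum. -/
theorem DHd_real {r : ℕ} (χ : DirichletCharacter ℂ r) (h2 : χ ^ 2 = 1) (β : ℝ) (Y : ℝ) :
    SS χ (1 : DirichletCharacter ℂ 1) (β : ℂ) 1 Y =
      ((∑ n ∈ Icc 1 ⌊2 * Y⌋₊, (χ.zetaMul n).re * (n : ℝ) ^ (-β) * ww (n / Y) : ℝ) : ℂ) := by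
  rw [DHd_SSone]
  push_cast
  refine Finset.sum_congr rfl fun n _ => ?_
  rw [if_pos (one_dvd n)]
  have h3 : χ.zetaMul n = ((χ.zetaMul n).re : ℂ) :=
    Complex.ext rfl (by rw [Complex.ofReal_im]; exact ((zm_facts χ h2).1 n).2)
  have h4 : (n : ℂ) ^ (-(β : ℂ)) = (((n : ℝ) ^ (-β) : ℝ) : ℂ) := by
    rw [Complex.ofReal_cpow (Nat.cast_nonneg n)]
    push_cast
    rfl
  rw [h4]
  nth_rewrite 1 [h3]
  rfl

/-- Main estimate at the real zero. -/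
theorem DHd_key {c ε C θ X K : ℝ} (hX : 3 ≤ X) (hc : 0 < c) (hc1 : c ≤ 1 / 16) (hε : 0 < ε) (hθ : 0 < θ)
    (hθ1 : θ ≤ 1 / 64) (hC : 0 < C) (H : DHdH c ε C θ X)
    (hK : 100 + 16 * C ≤ K) (HK : K * Real.log X ^ 2 ≤ X ^ (θ * c / 2))
    (r : ℕ) [NeZero r] (hr : (r : ℝ) ≤ X ^ ε) (χ : DirichletCharacter ℂ r) (hχ : χ ≠ 1) (h2 : χ ^ 2 = 1)
    (β : ℝ) (hβ : 1 - c ≤ β) (hβ1 : β < 1) (hβ0 : DirichletCharacter.LFunction χ (β : ℂ) = 0)
    (hβX : X ^ (-(θ * c / 8)) ≤ 1 - β) :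
    0 < (DirichletCharacter.LFunction χ 1).re ∧ 0 < GG (hx χ) (X ^ (8 * θ)) ∧
    (DirichletCharacter.LFunction χ 1).re * (VV ((1 - β : ℝ) : ℂ)).re / (1 - β) ≤
      GG (hx χ) (X ^ (8 * θ)) * 2 ^ (1 - β) * (1 + 4 * X ^ (-(3 * (θ * c)))) := by
  have hX0 : 0 < X := by linarith
  have hX1 : 1 ≤ X := by linarith
  have hlog : 1 ≤ Real.log X := by
    rw [Real.le_log_iff_exp_le hX0]
    exact (Real.exp_one_lt_d9.le.trans (by norm_num)).trans hX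
  have hθc : 0 < θ * c := mul_pos hθ hc
  have hK100 : 100 ≤ X ^ (θ * c / 2) := by
    refine le_trans ?_ HK
    have h1 : (1 : ℝ) ≤ Real.log X ^ 2 := one_le_pow₀ hlog
    nlinarith only [hK, hC, h1]
  have hz100 : 100 ≤ X ^ (8 * θ) := by
    refine hK100.trans (Real.rpow_le_rpow_of_exponent_le hX1 ?_)
    nlinarith only [hθ, hc1]
  have hzX : X ^ (8 * θ) ≤ X := by
    conv_rhs => rw [← Real.rpow_one X]
    exact Real.rpow_le_rpow_of_exponent_le hX1 (by linarith)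
  have hq1 : ((1 : ℕ) : ℝ) ≤ X ^ ε := by
    rw [Nat.cast_one]
    exact Real.one_le_rpow hX1 hε.le
  set z : ℝ := X ^ (8 * θ) with hz
  set δ : ℝ := 1 - β with hδ
  have hδ0 : 0 < δ := by linarith
  have hδ1 : δ ≤ 1 / 16 := by linarith
  have hnorm : ‖(1 : ℂ) - (β : ℂ)‖ = δ := by
    rw [← Complex.ofReal_one, ← Complex.ofReal_sub, Complex.norm_real, Real.norm_of_nonneg hδ0.le]
  have hmain := (H r 1 hr hq1 χ (1 : DirichletCharacter ℂ 1) hχ 1 squarefree_one (z / 2)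
    (by linarith) (by linarith)).2 (β : ℂ) (by rw [Complex.ofReal_re]; exact hβ)
    (by rw [Complex.ofReal_re]; exact hβ1.le) (by rw [Complex.ofReal_im, abs_zero]; exact hX0.le)
    (by
      intro h
      have h' : (β : ℂ) = ((1 : ℝ) : ℂ) := by rw [Complex.ofReal_one]; exact h
      have := Complex.ofReal_injective h'
      linarith)
    (by rw [hβ0, mul_zero])
  rw [DHd_real χ h2, hnorm] at hmain
  set S : ℝ := ∑ n ∈ Icc 1 ⌊2 * (z / 2)⌋₊, (χ.zetaMul n).re * (n : ℝ) ^ (-β) * ww (n / (z / 2)) with hS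
  have hL : DirichletCharacter.LFunction χ 1 = ((DirichletCharacter.LFunction χ 1).re : ℂ) := by
    refine Complex.ext rfl ?_
    rw [Complex.ofReal_im]
    have := Pool.Agent.Wb58c63.sw_real χ hχ h2 (x := 1) one_pos
    rwa [Complex.ofReal_one] at this
  obtain ⟨hV0, hV1, hV2⟩ := VV_facts.2.2.2 δ hδ0.le (by linarith)
  have hV : VV (δ : ℂ) = ((VV (δ : ℂ)).re : ℂ) := by
    refine Complex.ext rfl ?_
    rw [Complex.ofReal_im]
    exact hV0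
  set l : ℝ := (DirichletCharacter.LFunction χ 1).re with hl
  set v : ℝ := (VV (δ : ℂ)).re with hv
  have hmainterm : DirichletCharacter.LFunction χ 1 * hD χ (1 : DirichletCharacter ℂ 1) 1 1 *
        ((z / 2 : ℝ) : ℂ) ^ (1 - (β : ℂ)) * VV (1 - (β : ℂ)) / (1 - (β : ℂ)) =
      ((l * v / δ * (z / 2) ^ δ : ℝ) : ℂ) := by
    have e1 : hD χ (1 : DirichletCharacter ℂ 1) 1 1 = 1 := by
      rw [hD, Nat.primeFactors_one, Finset.prod_empty]
    have e2 : (1 : ℂ) - (β : ℂ) = (δ : ℂ) := by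
      rw [hδ]
      push_cast
      rfl
    rw [e1, e2, hV, hL, ← Complex.ofReal_cpow (by linarith)]
    push_cast
    ring
  rw [hmainterm, ← Complex.ofReal_sub, Complex.norm_real, Real.norm_eq_abs] at hmain
  -- the error
  have herr : C * (1 + 1 / δ) * Edh c θ X (z / 2) 1 ≤ X ^ (-(3 * (θ * c))) := by
    have e1 : Edh c θ X (z / 2) 1 = (z / 2) ^ (-c) * X ^ (4 * θ * c) * Real.log X ^ 2 := by
      rw [Edh]
      simp
    have e2 : (z / 2) ^ (-c) ≤ 2 * X ^ (-(8 * (θ * c))) := by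
      rw [Real.div_rpow (by linarith) (by norm_num), hz, ← Real.rpow_mul hX0.le]
      have h5 : (2 : ℝ) ^ (-c) = (2 ^ c)⁻¹ := Real.rpow_neg (by norm_num) c
      rw [h5, div_inv_eq_mul, mul_comm]
      have h6 : (2 : ℝ) ^ c ≤ 2 := by
        conv_rhs => rw [← Real.rpow_one 2]
        exact Real.rpow_le_rpow_of_exponent_le (by norm_num) (by linarith)
      have h7 : 8 * θ * -c = -(8 * (θ * c)) := by ring
      rw [h7]
      gcongr
    have e3 : 1 + 1 / δ ≤ 2 * X ^ (θ * c / 8) := by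
      have h7 : 1 / δ ≤ X ^ (θ * c / 8) := by
        rw [div_le_iff₀ hδ0]
        calc (1 : ℝ) = X ^ (θ * c / 8) * X ^ (-(θ * c / 8)) := by
              rw [← Real.rpow_add hX0, add_neg_cancel, Real.rpow_zero]
          _ ≤ X ^ (θ * c / 8) * δ := by gcongr
      have h8 : 1 ≤ X ^ (θ * c / 8) := Real.one_le_rpow hX1 (by positivity)
      linarith
    have e4 : 4 * C * Real.log X ^ 2 ≤ X ^ (θ * c / 2) := by
      refine le_trans ?_ HK
      have : 4 * C ≤ K := by linarith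
      exact mul_le_mul_of_nonneg_right this (by positivity)
    rw [e1]
    calc C * (1 + 1 / δ) * ((z / 2) ^ (-c) * X ^ (4 * θ * c) * Real.log X ^ 2) ≤
        C * (2 * X ^ (θ * c / 8)) * ((2 * X ^ (-(8 * (θ * c)))) * X ^ (4 * θ * c) * Real.log X ^ 2) := by
          gcongr
      _ = (4 * C * Real.log X ^ 2) * (X ^ (θ * c / 8) * (X ^ (-(8 * (θ * c))) * X ^ (4 * θ * c))) := by ring
      _ ≤ X ^ (θ * c / 2) * (X ^ (θ * c / 8) * (X ^ (-(8 * (θ * c))) * X ^ (4 * θ * c))) := by gcongr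
      _ = X ^ (θ * c / 2 + (θ * c / 8 + (-(8 * (θ * c)) + 4 * θ * c))) := by
        rw [Real.rpow_add hX0, Real.rpow_add hX0, Real.rpow_add hX0]
      _ ≤ X ^ (-(3 * (θ * c))) := by
        apply Real.rpow_le_rpow_of_exponent_le hX1
        nlinarith only [hθc]
  set η : ℝ := X ^ (-(3 * (θ * c))) with hη
  have hη0 : 0 < η := Real.rpow_pos_of_pos hX0 _
  have hη8 : η ≤ 1 / 8 := by
    have h5 : η * X ^ (θ * c / 2) ≤ 1 := by
      rw [hη, ← Real.rpow_add hX0]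
      exact Real.rpow_le_one_of_one_le_of_nonpos hX1 (by nlinarith only [hθc])
    nlinarith only [hθ, h5, hη0, hθ1, hK100]
  set A : ℝ := l * v / δ with hA
  have habs := hmain.trans herr
  rw [abs_le] at habs
  -- the sum is at least one
  have hterm : ∀ n ∈ Icc 1 ⌊2 * (z / 2)⌋₊, 0 ≤ (χ.zetaMul n).re * (n : ℝ) ^ (-β) * ww (n / (z / 2)) := by
    intro n _
    exact mul_nonneg (mul_nonneg ((zm_facts χ h2).1 n).1 (Real.rpow_nonneg (Nat.cast_nonneg n) _))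
      (ww_facts.1 _).1
  have hS1 : 1 ≤ S := by
    have h5 := Finset.single_le_sum hterm (show 1 ∈ Icc 1 ⌊2 * (z / 2)⌋₊ from by
      rw [Finset.mem_Icc]
      exact ⟨le_rfl, Nat.le_floor (by push_cast; linarith)⟩)
    have h6 : (χ.zetaMul 1).re * ((1 : ℕ) : ℝ) ^ (-β) * ww ((1 : ℕ) / (z / 2)) = 1 := by
      rw [(zm_facts χ h2).2, Nat.cast_one, Real.one_rpow, ww_facts.2.1 _ (by
        rw [div_le_one (by linarith)]
        linarith)]
      simp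
    rw [h6] at h5
    exact h5
  have hAz : 1 - η ≤ A * (z / 2) ^ δ := by linarith
  have hzd : 0 < (z / 2) ^ δ := Real.rpow_pos_of_pos (by linarith) _
  have hApos : 0 < A := by
    by_contra hcon
    have : A * (z / 2) ^ δ ≤ 0 := mul_nonpos_of_nonpos_of_nonneg (not_lt.1 hcon) hzd.le
    linarith only [hθ, habs, hη8, hS1, hθ1, this]
  have hlpos : 0 < l := by
    by_contra hcon
    have : A ≤ 0 := by
      rw [hA]
      exact div_nonpos_of_nonpos_of_nonneg (mul_nonpos_of_nonpos_of_nonneg (not_lt.1 hcon)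
        (by linarith)) hδ0.le
    linarith only [hApos, this]
  -- GG from below
  have hGG := GG_hx_ge χ h2 z (by linarith only [hz100, hθ, hθ1])
  have hGG2 : z ^ (-δ) * S ≤ ∑ n ∈ Icc 1 ⌊z⌋₊, (χ.zetaMul n).re / n := by
    rw [hS, Finset.mul_sum]
    have e1 : 2 * (z / 2) = z := by ring
    rw [e1]
    refine Finset.sum_le_sum fun n hn => ?_
    rw [Finset.mem_Icc] at hn
    have hn0 : (0 : ℝ) < n := by exact_mod_cast hn.1
    have hnz : (n : ℝ) ≤ z := (Nat.le_floor_iff (by linarith only [hz100, hθ, hθ1])).1 hn.2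
    have h5 : z ^ (-δ) ≤ (n : ℝ) ^ (-δ) := Real.rpow_le_rpow_of_nonpos hn0 hnz (by linarith)
    have h6 : (n : ℝ) ^ (-β) * (n : ℝ) ^ (-δ) = (n : ℝ)⁻¹ := by
      rw [← Real.rpow_add hn0, ← Real.rpow_neg_one]
      congr 1
      rw [hδ]
      ring
    have h7 := ((zm_facts χ h2).1 n).1
    have h8 := (ww_facts.1 ((n : ℝ) / (z / 2))).1
    have h9 := (ww_facts.1 ((n : ℝ) / (z / 2))).2
    calc z ^ (-δ) * ((χ.zetaMul n).re * (n : ℝ) ^ (-β) * ww ((n : ℝ) / (z / 2))) ≤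
        (n : ℝ) ^ (-δ) * ((χ.zetaMul n).re * (n : ℝ) ^ (-β) * 1) := by gcongr
      _ = (χ.zetaMul n).re * ((n : ℝ) ^ (-β) * (n : ℝ) ^ (-δ)) := by ring
      _ = (χ.zetaMul n).re / n := by rw [h6]; rfl
  have hz0 : 0 < z := by linarith only [hz100, hθ, hθ1]
  have hzmd : 0 < z ^ (-δ) := Real.rpow_pos_of_pos hz0 _
  have hGG3 : z ^ (-δ) * (A * (z / 2) ^ δ * (1 - 2 * η)) ≤ GG (hx χ) z := by
    refine le_trans (mul_le_mul_of_nonneg_left ?_ hzmd.le) (hGG2.trans hGG)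
    have : A * (z / 2) ^ δ * (1 - 2 * η) = A * (z / 2) ^ δ - 2 * η * (A * (z / 2) ^ δ) := by ring
    rw [this]
    have h5 : η ≤ 2 * η * (A * (z / 2) ^ δ) := by nlinarith only [hθ, habs, hη8, hS1, hη0, hθ1]
    linarith only [habs, h5]
  have hzz : z ^ (-δ) * (z / 2) ^ δ = (2 ^ δ)⁻¹ := by
    rw [Real.div_rpow hz0.le (by norm_num), Real.rpow_neg hz0.le]
    field_simp
  have h2d : 0 < (2 : ℝ) ^ δ := Real.rpow_pos_of_pos (by norm_num) _
  have hGG4 : A * (1 - 2 * η) ≤ GG (hx χ) z * 2 ^ δ := by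
    have e1 : z ^ (-δ) * (A * (z / 2) ^ δ * (1 - 2 * η)) = (A * (1 - 2 * η)) * (2 ^ δ)⁻¹ := by
      rw [← hzz]
      ring
    rw [e1, ← div_eq_mul_inv, div_le_iff₀ h2d] at hGG3
    exact hGG3
  have hGpos : 0 < GG (hx χ) z := by
    by_contra hcon
    have h5 : GG (hx χ) z * 2 ^ δ ≤ 0 := mul_nonpos_of_nonpos_of_nonneg (not_lt.1 hcon) h2d.le
    have h6 : 0 < A * (1 - 2 * η) := mul_pos hApos (by linarith only [hθ, hη8, hθ1])
    linarith
  refine ⟨hlpos, hGpos, ?_⟩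
  have h5 : 1 ≤ (1 - 2 * η) * (1 + 4 * η) := by nlinarith only [hθ, hη8, hη0, hθ1]
  calc A = A * 1 := (mul_one A).symm
    _ ≤ A * ((1 - 2 * η) * (1 + 4 * η)) := by gcongr
    _ = (A * (1 - 2 * η)) * (1 + 4 * η) := by ring
    _ ≤ (GG (hx χ) z * 2 ^ δ) * (1 + 4 * η) := by gcongr


/-- The mass of the sifted sum at the real zero `β`. -/
def mass {r : ℕ} (χ : DirichletCharacter ℂ r) (lam : ℕ → ℝ) (β Z : ℝ) : ℝ :=
  ∑ n ∈ Icc 1 ⌊2 * Z⌋₊, nu lam n * (χ.zetaMul n).re * (n : ℝ) ^ (-β) * ww (n / Z)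

/-- **The mass is close to `1`.** Here `z = X ^ (8 θ)`, `Z = X ^ (64 θ)`, `δ = 1 - β`.

Proof. Let `c, ε, C` be from `SS_est θ`. Let `A = LFunction χ 1 VV δ / δ`, a positive real number (`LFunction χ 1` is real; positivity follows from (1) below). `lam` is from `selberg_exists (hx χ) z` (`hx_bounds`), `G = GG (hx χ) z`.
(1) `SS_est` part 2 with `s = β`, `D = 1`, `Z := z / 2`: `a n = zetaMul n`, `∑ a(n) n ^ (-β) ww (2 n / z) = A (z / 2) ^ δ + O(C (1 + 1/δ) Edh c θ X (z/2) 1)`, and the error is at most `C (1 + X ^ (θ c / 8)) 2 X ^ (-8 θ c) X ^ (4 θ c) log X ^ 2 ≤ X ^ (-3 θ c)`. The left side is at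
least its term `n = 1`, which is `1`. So `A (z / 2) ^ δ ≥ 1 - X ^ (-3 θ c) ≥ 1 / 2`.
(2) `G ≥ ∑_{n ≤ z} a(n) / n` (`GG_hx_ge`) `≥ z ^ (-δ) ∑_{n ≤ z} a(n) n ^ (-β) ww (2 n / z) ≥ z ^ (-δ) (A (z / 2) ^ δ - X ^ (-3 θ c)) ≥ z ^ (-δ) (A (z/2) ^ δ) (1 - 2 X ^ (-3 θ c)) = A 2 ^ (-δ) (1 - 2 X ^ (-3 θ c))`. Hence `A / G ≤ 2 ^ δ (1 + 4 X ^ (-3 θ c)) ≤ 3`, and as `(VV δ).re ≥ 1`:
`‖LFunction χ 1‖ / δ ≤ A`, the first claim.
(3) By `SS_expand` (`ψ = 1`), `SS_est` part 2 at `s = β` for `D = lcm d e` (squarefree) and `hD_one`: `mass = A Z ^ δ ∑_{d, e} lam d lam e pp (hx χ) (lcm d e) + Err = A Z ^ δ / G + Err` (`selberg_value`), with `|Err| ≤ C (1 + 1/δ) Z ^ (-c) X ^ (4 θ c) log X ^ 2 ∑ 3 ^ ω D ^ (-1 + 2 c)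
≤ C' X ^ (θ c / 8 - 64 θ c + 4 θ c + 40 θ c) log X ^ 2 ≤ X ^ (-10 θ c)` (`sum_lcm_pow`, `z ^ (5 c) = X ^ (40 θ c)`).
(4) So `mass ≤ (2 Z) ^ δ (1 + 4 X ^ (-3 θ c)) + X ^ (-10 θ c)`, and with `x = δ log (2 Z) ≤ 1`: `(2 Z) ^ δ = e ^ x ≤ 1 + 2 x`; since `X ^ (-3 θ c) ≤ δ X ^ (-2 θ c)`, the rest is at most `δ`. So `mass ≤ 1 + 3 δ log (4 Z)`. -/
theorem dh_mass [WI] (θ : ℝ) (hθ : 0 < θ) (hθ1 : θ ≤ 1 / 64) : ∃ c ε C X₀ : ℝ, 0 < c ∧ c ≤ 1 / 16 ∧ 0 < ε ∧ ε ≤ 1 ∧ 0 < C ∧ 3 ≤ X₀ ∧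
    ∀ X : ℝ, X₀ ≤ X →
    (∀ (r q : ℕ) [NeZero r] [NeZero q], (r : ℝ) ≤ X ^ ε → (q : ℝ) ≤ X ^ ε →
      ∀ (χ : DirichletCharacter ℂ r) (ψ : DirichletCharacter ℂ q), χ ≠ 1 → ∀ lam : ℕ → ℝ, (∀ d, |lam d| ≤ 1) →
      (∀ d, d ∉ SF (X ^ (8 * θ)) → lam d = 0) →
      (ψ ≠ 1 → chi12 ψ χ ≠ 1 → ∀ s : ℂ, 1 - c ≤ s.re → s.re ≤ 1 → |s.im| ≤ X →
        DirichletCharacter.LFunction ψ s * DirichletCharacter.LFunction (chi12 ψ χ) s = 0 →
        ‖∑ n ∈ Icc 1 ⌊2 * X ^ (64 * θ)⌋₊, (nu lam n : ℂ) *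
          (χ.zetaMul n * ψ (n : ZMod q) * (n : ℂ) ^ (-s) * (ww (n / X ^ (64 * θ)) : ℂ))‖ ≤ 1 / 8) ∧
      (∀ (h2 : χ ^ 2 = 1), (∀ f ∈ SF (X ^ (8 * θ)), ∑ d ∈ (SF (X ^ (8 * θ))).filter (fun d => f ∣ d), lam d * pp (hx χ) d =
        (ArithmeticFunction.moebius f : ℝ) * gg (hx χ) f / GG (hx χ) (X ^ (8 * θ))) →
        ∀ s : ℂ, 1 - c ≤ s.re → s.re ≤ 1 → |s.im| ≤ X → X ^ (-(θ * c / 8)) ≤ ‖1 - s‖ → riemannZeta s * DirichletCharacter.LFunction χ s = 0 →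
        ‖(∑ n ∈ Icc 1 ⌊2 * X ^ (64 * θ)⌋₊, (nu lam n : ℂ) * (χ.zetaMul n * (n : ℂ) ^ (-s) * (ww (n / X ^ (64 * θ)) : ℂ))) -
          DirichletCharacter.LFunction χ 1 * ((X ^ (64 * θ) : ℝ) : ℂ) ^ (1 - s) * VV (1 - s) / ((1 - s) * (GG (hx χ) (X ^ (8 * θ)) : ℂ))‖ ≤
            X ^ (-(10 * θ * c)))) ∧
    (∀ (r : ℕ) [NeZero r] (χ : DirichletCharacter ℂ r), (r : ℝ) ≤ X ^ ε → χ ≠ 1 → χ ^ 2 = 1 → ∀ β : ℝ, 1 - c ≤ β → β < 1 →
      DirichletCharacter.LFunction χ (β : ℂ) = 0 → X ^ (-(θ * c / 8)) ≤ 1 - β → (1 - β) * Real.log (4 * X ^ (64 * θ)) ≤ 1 →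
      ‖DirichletCharacter.LFunction χ 1‖ ≤ 3 * (1 - β) * GG (hx χ) (X ^ (8 * θ)) ∧
      ∀ lam : ℕ → ℝ, lam 1 = 1 → (∀ d, |lam d| ≤ 1) → (∀ d, d ∉ SF (X ^ (8 * θ)) → lam d = 0) →
      (∀ f ∈ SF (X ^ (8 * θ)), ∑ d ∈ (SF (X ^ (8 * θ))).filter (fun d => f ∣ d), lam d * pp (hx χ) d =
        (ArithmeticFunction.moebius f : ℝ) * gg (hx χ) f / GG (hx χ) (X ^ (8 * θ))) →
      mass χ lam β (X ^ (64 * θ)) ≤ 1 + 3 * ((1 - β) * Real.log (4 * X ^ (64 * θ)))) := by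
  obtain ⟨c, ε, C, X₀, hc, hc1, hε, hε1, hC, hX₀, H⟩ := SS_est θ hθ (by linarith)
  obtain ⟨C', hC', HS⟩ := sum_lcm_pow c hc (by linarith)
  have hθc : 0 < θ * c := mul_pos hθ hc
  obtain ⟨X₁, hX₁, HX⟩ := DHd_log (θ * c / 2) (100 + 16 * (C * C') + 16 * C) (by positivity)
  have hCC : 0 < C * C' := mul_pos hC hC'
  refine ⟨c, ε, C, max X₀ X₁, hc, hc1, hε, hε1, hC, hX₀.trans (le_max_left _ _), fun X hXX => ?_⟩
  have hX : 3 ≤ X := hX₀.trans ((le_max_left _ _).trans hXX)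
  have HK := HX X ((le_max_right _ _).trans hXX)
  have HH : DHdH c ε C θ X := H X ((le_max_left _ _).trans hXX)
  have hX0 : 0 < X := by linarith
  have hX1 : 1 ≤ X := by linarith
  have hlog : 1 ≤ Real.log X := by
    rw [Real.le_log_iff_exp_le hX0]
    exact (Real.exp_one_lt_d9.le.trans (by norm_num)).trans hX
  have hK100 : 100 ≤ X ^ (θ * c / 2) := by
    refine le_trans ?_ HK
    have h1 : (1 : ℝ) ≤ Real.log X ^ 2 := one_le_pow₀ hlog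
    nlinarith only [hCC, hC, h1]
  have hZ100 : 100 ≤ X ^ (64 * θ) := by
    refine hK100.trans (Real.rpow_le_rpow_of_exponent_le hX1 ?_)
    nlinarith only [hθ1, hc1, hθ]
  have hZX : X ^ (64 * θ) ≤ X := by
    conv_rhs => rw [← Real.rpow_one X]
    exact Real.rpow_le_rpow_of_exponent_le hX1 (by linarith)
  refine ⟨?_, ?_⟩
  · intro r q _ _ hr hq χ ψ hχ lam hlam hl
    refine ⟨?_, ?_⟩
    · intro hψ hψχ s hs hs1 hsi hs0
      rw [SS_expand χ ψ s (X ^ (64 * θ)) (X ^ (8 * θ)) lam hl]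
      refine (DHd_dbl hlam (fun D => SS χ ψ s D (X ^ (64 * θ)))
        (fun D => C * Edh c θ X (X ^ (64 * θ)) D) ?_).trans ?_
      · intro d hd e he
        exact (HH r q hr hq χ ψ hχ (Nat.lcm d e) (DHd_sqf (DHd_mem hd) (DHd_mem he)) (X ^ (64 * θ))
          (by linarith) hZX).1 hψ hψχ s hs hs1 hsi hs0
      · simp_rw [← Finset.mul_sum]
        have h5 := DHd_err c C' θ X hX HS hθ
        refine (mul_le_mul_of_nonneg_left h5 hC.le).trans ?_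
        have h6 : C * C' * Real.log X ^ 2 ≤ (1 / 8) * X ^ (θ * c / 2) := by
          have h7 : 8 * (C * C') * Real.log X ^ 2 ≤ X ^ (θ * c / 2) := by
            refine le_trans ?_ HK
            exact mul_le_mul_of_nonneg_right (by linarith) (by positivity)
          linarith
        calc C * (C' * Real.log X ^ 2 * X ^ (-(20 * (θ * c)))) =
            (C * C' * Real.log X ^ 2) * X ^ (-(20 * (θ * c))) := by ring
          _ ≤ ((1 / 8) * X ^ (θ * c / 2)) * X ^ (-(20 * (θ * c))) := by gcongr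
          _ = (1 / 8) * X ^ (θ * c / 2 + -(20 * (θ * c))) := by
            rw [Real.rpow_add hX0]
            ring
          _ ≤ (1 / 8) * 1 := by
            gcongr
            exact Real.rpow_le_one_of_one_le_of_nonpos hX1 (by nlinarith only [hθc])
          _ = 1 / 8 := by ring
    · intro h2 hf s hs hs1 hsi hsX hs0
      exact DHd_b hX hc hε hθ hθ1 hC hC' HH HS rfl HK (by linarith) hZX r hr χ hχ lam hlam hl h2 hf s
        hs hs1 hsi hsX hs0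
  · intro r _ χ hr hχ h2 β hβ hβ1 hβ0 hβX hβL
    obtain ⟨hl0, hG0, hkey⟩ := DHd_key hX hc hc1 hε hθ hθ1 hC HH (by linarith) HK r hr χ hχ h2 β hβ hβ1
      hβ0 hβX
    set G : ℝ := GG (hx χ) (X ^ (8 * θ)) with hG
    set δ : ℝ := 1 - β with hδ
    set l : ℝ := (DirichletCharacter.LFunction χ 1).re with hl
    set v : ℝ := (VV ((δ : ℝ) : ℂ)).re with hv
    set η : ℝ := X ^ (-(3 * (θ * c))) with hη
    have hδ0 : 0 < δ := by linarith
    have hδ1 : δ ≤ 1 / 16 := by linarith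
    obtain ⟨hV0, hV1, hV2⟩ := VV_facts.2.2.2 δ hδ0.le (by linarith)
    have hL : DirichletCharacter.LFunction χ 1 = (l : ℂ) := by
      refine Complex.ext rfl ?_
      rw [Complex.ofReal_im]
      have := Pool.Agent.Wb58c63.sw_real χ hχ h2 (x := 1) one_pos
      rwa [Complex.ofReal_one] at this
    have hV : VV (δ : ℂ) = (v : ℂ) := by
      refine Complex.ext rfl ?_
      rw [Complex.ofReal_im]
      exact hV0
    have hη0 : 0 < η := Real.rpow_pos_of_pos hX0 _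
    have hηδ : 100 * η ≤ δ := by
      calc 100 * η ≤ X ^ (θ * c / 2) * η := by gcongr
        _ = X ^ (θ * c / 2 + -(3 * (θ * c))) := by rw [hη, Real.rpow_add hX0]
        _ ≤ X ^ (-(θ * c / 8)) := Real.rpow_le_rpow_of_exponent_le hX1 (by nlinarith only [hθc])
        _ ≤ δ := hβX
    have hη8 : η ≤ 1 / 8 := by linarith
    have hA0 : 0 < l * v / δ := div_pos (mul_pos hl0 (by linarith)) hδ0
    refine ⟨?_, ?_⟩
    · rw [hL, Complex.norm_real, Real.norm_of_nonneg hl0.le]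
      have h2d : (2 : ℝ) ^ δ ≤ 2 := by
        conv_rhs => rw [← Real.rpow_one 2]
        exact Real.rpow_le_rpow_of_exponent_le (by norm_num) (by linarith)
      have h5 : l * v / δ ≤ G * 2 * (3 / 2) := by
        refine hkey.trans ?_
        gcongr
        linarith
      rw [div_le_iff₀ hδ0] at h5
      nlinarith only [hl0, hθ1, hV1, hθ, h5]
    · intro lam hlam1 hlam hll hf
      have hb := DHd_b hX hc hε hθ hθ1 hC hC' HH HS rfl HK (by linarith) hZX r hr χ hχ lam hlam hll h2 hf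
        (β : ℂ) (by rw [Complex.ofReal_re]; exact hβ) (by rw [Complex.ofReal_re]; exact hβ1.le)
        (by rw [Complex.ofReal_im, abs_zero]; exact hX0.le)
        (by
          rw [← Complex.ofReal_one, ← Complex.ofReal_sub, Complex.norm_real, Real.norm_of_nonneg hδ0.le]
          exact hβX)
        (by rw [hβ0, mul_zero])
      have e1 : (∑ n ∈ Icc 1 ⌊2 * X ^ (64 * θ)⌋₊, (nu lam n : ℂ) * (χ.zetaMul n * (n : ℂ) ^ (-(β : ℂ)) *
          (ww (n / X ^ (64 * θ)) : ℂ))) = (mass χ lam β (X ^ (64 * θ)) : ℂ) := by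
        rw [mass]
        push_cast
        refine Finset.sum_congr rfl fun n _ => ?_
        have h3 : χ.zetaMul n = ((χ.zetaMul n).re : ℂ) :=
          Complex.ext rfl (by rw [Complex.ofReal_im]; exact ((zm_facts χ h2).1 n).2)
        have h4 : (n : ℂ) ^ (-(β : ℂ)) = (((n : ℝ) ^ (-β) : ℝ) : ℂ) := by
          rw [Complex.ofReal_cpow (Nat.cast_nonneg n)]
          push_cast
          rfl
        rw [h4]
        nth_rewrite 1 [h3]
        ring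
      have e2 : DirichletCharacter.LFunction χ 1 * ((X ^ (64 * θ) : ℝ) : ℂ) ^ (1 - (β : ℂ)) *
          VV (1 - (β : ℂ)) / ((1 - (β : ℂ)) * (GG (hx χ) (X ^ (8 * θ)) : ℂ)) =
          ((l * v / δ * (X ^ (64 * θ)) ^ δ / G : ℝ) : ℂ) := by
        have e3 : (1 : ℂ) - (β : ℂ) = (δ : ℂ) := by
          rw [hδ]
          push_cast
          rfl
        rw [e3, hV, hL, ← Complex.ofReal_cpow (by linarith), ← hG]
        push_cast
        rw [div_mul_eq_div_div]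
        ring
      rw [e1, e2, ← Complex.ofReal_sub, Complex.norm_real, Real.norm_eq_abs, abs_le] at hb
      have hZ0 : 0 < X ^ (64 * θ) := by linarith
      have hZd : 0 < (X ^ (64 * θ)) ^ δ := Real.rpow_pos_of_pos hZ0 _
      have h5 : l * v / δ * (X ^ (64 * θ)) ^ δ / G ≤ (2 * X ^ (64 * θ)) ^ δ * (1 + 4 * η) := by
        rw [div_le_iff₀ hG0, Real.mul_rpow (by norm_num) hZ0.le]
        calc l * v / δ * (X ^ (64 * θ)) ^ δ ≤ (G * 2 ^ δ * (1 + 4 * η)) * (X ^ (64 * θ)) ^ δ := by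
              gcongr
          _ = 2 ^ δ * (X ^ (64 * θ)) ^ δ * (1 + 4 * η) * G := by ring
      have hlog2 : Real.log (4 * X ^ (64 * θ)) = Real.log 2 + Real.log (2 * X ^ (64 * θ)) := by
        rw [← Real.log_mul (by norm_num) (by positivity)]
        congr 1
        ring
      have hl2 := Real.log_two_gt_d9
      set x : ℝ := δ * Real.log (2 * X ^ (64 * θ)) with hx
      have hx0 : 0 ≤ x := mul_nonneg hδ0.le (Real.log_nonneg (by linarith only [hηδ, hη0, hc1, hZ100, hβ]))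
      have hxeq : (2 * X ^ (64 * θ)) ^ δ = Real.exp x := by
        rw [Real.rpow_def_of_pos (by linarith only [hηδ, hη0, hc1, hZ100, hβ]), hx]
        congr 1
        ring
      have hx1 : δ * Real.log 2 + x ≤ 1 := by
        rw [hx, ← mul_add, ← hlog2]
        exact hβL
      have hδl : 0 < δ * Real.log 2 := mul_pos hδ0 (by linarith)
      have hexp : Real.exp x ≤ 1 + 2 * x := by
        have h6 := Real.abs_exp_sub_one_sub_id_le (x := x) (by rw [abs_of_nonneg hx0]; linarith only [hδl, hx1])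
        rw [abs_le] at h6
        nlinarith only [h6.2, hδl, hx0, hx1]
      have h7 : X ^ (-(10 * θ * c)) ≤ η := by
        rw [hη]
        exact Real.rpow_le_rpow_of_exponent_le hX1 (by nlinarith only [hθc])
      rw [hxeq] at h5
      have h8 : Real.exp x * (1 + 4 * η) ≤ (1 + 2 * x) * (1 + 4 * η) :=
        mul_le_mul_of_nonneg_right hexp (by linarith only [hηδ, hη0, hc1, hβ])
      rw [hlog2, mul_add, ← hx]
      nlinarith only [hηδ, hl2, h5, hb, h8, hθ1, hη0, hc1, hδl, hβ, hθ, h7, hx0, hx1, hβ1]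

end Pool.Agent.PSG
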