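import Pool.Agent.W_b58c63_h44.Df

/-!
# Smooth sums of the von Mangoldt function with characters: definitions
-/

set_option autoImplicit false

noncomputable section

open Finset Complex MeasureTheory

namespace Pool.Agent.PSG

/-- The smooth sum `∑ Λ(n) χ(n) n ^ (-i t) w(n / Z)`. -/
def DS {q : ℕ} (χ : DirichletCharacter ℂ q) (w : ℝ → ℂ) (Z t : ℝ) : ℂ :=
  ∑ n ∈ Icc 1 ⌊16 * Z⌋₊, (ArithmeticFunction.vonMangoldt n : ℂ) * χ (n : ZMod q) * (n : ℂ) ^ (-(t * I)) * w (n / Z)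

/-- The main terms of the explicit formula for `DS χ w Z t`. -/
def MM (δ X : ℝ) {q : ℕ} (χ : DirichletCharacter ℂ q) (w : ℝ → ℂ) (Z t : ℝ) : ℂ :=
  (dl χ : ℂ) * ((Z : ℂ) ^ (1 - t * I) * mellin w (1 - t * I)) -
    ∑ ρ ∈ ZR (EF χ) δ X, (mz (EF χ) ρ : ℂ) * ((Z : ℂ) ^ (ρ - t * I) * mellin w (ρ - t * I))

end Pool.Agent.PSG
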