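import Pool.Agent.W_b58c63_h44.Dg
import Pool.Agent.W_b58c63_h44.EIdef

/-!
# Interfaces

The modules which use the theorems `smooth_explicit`, `detect_primes`, `mean_diff`, `zero_package`, `F_sup` take them as
classes, so that they compile in parallel with the modules which prove them; the instances are given in `Res.lean`.
-/

set_option autoImplicit false

noncomputable section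

open Finset Complex MeasureTheory

namespace Pool.Agent.PSG

open Pool.Agent.Wb58c63 (prim ee)

/-- The primes `p` with `ca k ≤ η log p ≤ Ca k`. -/
def PR (ca Ca : ℝ) (k : ℕ) (η : ℝ) : Finset ℕ :=
  (range (⌈Real.exp (Ca * k / η)⌉₊ + 1)).filter fun p => p.Prime ∧ ca * k ≤ η * Real.log p ∧ η * Real.log p ≤ Ca * k

theorem MS_big (c K : ℝ) (hc : 0 < c) : ∃ X₁ : ℝ, ∀ X : ℝ, X₁ ≤ X → K ≤ X ^ c :=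
  Filter.eventually_atTop.1 ((tendsto_rpow_atTop hc).eventually_ge_atTop K)

theorem MS_log (c : ℝ) (hc : 0 < c) : ∃ X₁ : ℝ, ∀ X : ℝ, X₁ ≤ X → Real.log X ≤ X ^ c := by
  have h1 := (isLittleO_log_rpow_atTop hc).bound (show (0 : ℝ) < 1 by norm_num)
  obtain ⟨a, ha⟩ := Filter.eventually_atTop.1 h1
  refine ⟨max a 1, fun X hX => ?_⟩
  have h2 := ha X ((le_max_left _ _).trans hX)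
  have h3 : 1 ≤ X := (le_max_right _ _).trans hX
  rw [one_mul, Real.norm_eq_abs, Real.norm_eq_abs, abs_of_nonneg (Real.rpow_nonneg (by linarith) _)] at h2
  exact (le_abs_self _).trans h2

/-- The statement of `smooth_explicit` (`EX.lean`). -/
class SEI : Prop where
  smooth_explicit : ∃ κ₁ ε₁ : ℝ, 0 < κ₁ ∧ κ₁ ≤ 1 / 16 ∧ 0 < ε₁ ∧ ε₁ ≤ 1 ∧ ∀ δ : ℝ, 0 < δ → δ ≤ κ₁ → ∀ ε₄ : ℝ, 0 < ε₄ → ε₄ ≤ 1 →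
      ∃ (J : ℕ) (C X₀ : ℝ), 2 ≤ J ∧ 1 ≤ C ∧ 3 ≤ X₀ ∧ ∀ X : ℝ, X₀ ≤ X → ∀ (q : ℕ) [NeZero q], (q : ℝ) ≤ X ^ ε₁ →
      ∀ (χ : DirichletCharacter ℂ q) (A B : ℝ) (w : ℝ → ℂ), 1 ≤ B → IsW J A B w → ∀ Z : ℝ, 4 ≤ Z → Z ≤ X ^ 2 →
      ∀ t : ℝ, |t| ≤ X / 4 → ‖DS χ w Z t - MM δ X χ w Z t‖ ≤ C * A * B ^ 3 * Z ^ (1 - δ) * X ^ ε₄

/-- The statement of `detect_primes` (`DetP.lean`). -/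
class DTI : Prop where
  detect_primes : ∃ B ca Ca K₀ : ℝ, 1 ≤ B ∧ 0 < ca ∧ ca < 1 ∧ 1 < Ca ∧ 1 ≤ K₀ ∧
      ∀ K₁ : ℝ, K₀ ≤ K₁ → ∀ θ : ℝ, 0 < θ → θ ≤ 1 → ∃ ε κ X₀ : ℝ, 0 < ε ∧ 0 < κ ∧ κ ≤ 1 / 16 ∧ 3 ≤ X₀ ∧
      ∀ X : ℝ, X₀ ≤ X → ∀ (q : ℕ), 1 ≤ q → (q : ℝ) ≤ X ^ ε → ∀ χ : DirichletCharacter ℂ q,
      ∀ η : ℝ, 1 / (θ * Real.log X) ≤ η → η ≤ κ → ∀ ρ : ℂ, EF χ ρ = 0 → 1 - η ≤ ρ.re → |ρ.im| ≤ X →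
      ∃ k : ℕ, K₁ * (1 + η * (θ * Real.log X)) ≤ k ∧ (k : ℝ) ≤ 4 * K₁ * (1 + η * (θ * Real.log X)) ∧
        B ^ (-(k : ℝ)) ≤ ‖∑ p ∈ PR ca Ca k η, ((Real.log p * (1 / p) * (η * jk (k - 1) (η * Real.log p)) : ℝ) : ℂ) *
          (χ (p : ZMod q) * (p : ℂ) ^ (-(ρ.im * I)))‖

/-- The statement of `mean_diff` (`MS.lean`). -/
class MDI : Prop where
  mean_diff : ∃ κ₁ : ℝ, 0 < κ₁ ∧ κ₁ ≤ 1 / 16 ∧ ∀ δ : ℝ, 0 < δ → δ ≤ κ₁ → ∃ ε c X₀ : ℝ, 0 < ε ∧ 0 < c ∧ 3 ≤ X₀ ∧ ∀ X : ℝ, X₀ ≤ X →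
      ∀ (q : ℕ) [NeZero q], (q : ℝ) ≤ X ^ ε → ∀ χ : DirichletCharacter ℂ q, χ.IsPrimitive →
      ∑ ρ ∈ ZR (EF χ) δ X, (mz (EF χ) ρ : ℝ) ≤ 2 * X ^ (δ / 4) →
      ∫ t in (-(X ^ (1 / 2 + δ / 32)))..(X ^ (1 / 2 + δ / 32)),
        ‖DS χ (fun x => (Wm x : ℂ)) X t - MM δ X χ (fun x => (Wm x : ℂ)) X t‖ ^ 2 ≤ X ^ (2 - c)

/-- The statement of `zero_package` (`ZP.lean`). -/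
class ZPI : Prop where
  zero_package : ∀ (η : ℝ) (hη : 0 < η), ∃ ε κ K X₀ : ℝ, 0 < ε ∧ ε ≤ 1 ∧ 0 < κ ∧ κ ≤ 1 / 16 ∧ 0 < K ∧ 3 ≤ X₀ ∧ ∀ X : ℝ, X₀ ≤ X →
      (Wr ε κ X ≤ η ∨ ∃ (r : ℕ) (χ : DirichletCharacter ℂ r) (β : ℝ), 1 < r ∧ (r : ℝ) ≤ X ^ ε ∧ χ.IsPrimitive ∧ χ ≠ 1 ∧
        χ ^ 2 = 1 ∧ 1 - κ ≤ β ∧ β < 1 ∧ EF χ (β : ℂ) = 0 ∧ mz (EF χ) (β : ℂ) = 1 ∧
        (1 - β) * Real.log X ≤ K ∧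
        Wr ε κ X - X ^ (-((1 - β) / 4)) ≤ η * min 1 ((1 - β) * Real.log X))

/-- The statement of `F_sup` (`FS.lean`). -/
class FSI : Prop where
  F_sup : ∃ κ₁ : ℝ, 0 < κ₁ ∧ κ₁ ≤ 1 / 16 ∧ ∀ δ : ℝ, 0 < δ → δ ≤ κ₁ → ∃ ε₂ : ℝ, 0 < ε₂ ∧ ε₂ ≤ 1 / 100 ∧ ∀ ε₁ : ℝ, 0 < ε₁ → ε₁ ≤ ε₂ → ∃ X₀ : ℝ, 3 ≤ X₀ ∧
      ∀ X : ℝ, X₀ ≤ X → Wr (2 * ε₁) δ X ≤ 2 → ∀ α : ℝ,
      ‖∑ n ∈ Icc 1 ⌊16 * Real.sqrt X⌋₊, (fP X n - fM δ (X ^ (2 * ε₁)) X ⌊X ^ ε₁⌋₊ n) * ee (n * α)‖ ≤ Real.sqrt X * X ^ (-(ε₁ / 4))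

end Pool.Agent.PSG
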