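import Pool.Agent.W_b58c63_h44.LA

/-!
# Logarithmic derivatives: trivial bounds and positivity
-/

set_option autoImplicit false

noncomputable section

open Finset Complex

namespace Pool.Agent.PSG

theorem LD_series {q : ℕ} [NeZero q] (χ : DirichletCharacter ℂ q) (s : ℂ) (hs : 1 < s.re) :
    HasSum (fun n : ℕ => (ArithmeticFunction.vonMangoldt n : ℂ) * χ (n : ZMod q) * (n : ℂ) ^ (-s))
      (-(deriv (DirichletCharacter.LFunction χ) s / DirichletCharacter.LFunction χ s)) := by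
  have h1 := (DirichletCharacter.LSeriesSummable_twist_vonMangoldt χ hs).hasSum
  have h2 := DirichletCharacter.LSeries_twist_vonMangoldt_eq χ hs
  rw [← DirichletCharacter.deriv_LFunction_eq_deriv_LSeries χ hs,
    ← DirichletCharacter.LFunction_eq_LSeries χ hs] at h2
  rw [← neg_div, ← h2]
  refine h1.congr_fun ?_
  intro n
  rcases Nat.eq_zero_or_pos n with hn | hn
  · subst hn
    simp
  · rw [LSeries.term_of_ne_zero (by omega), Complex.cpow_neg, div_eq_mul_inv, Pi.mul_apply,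
      mul_comm (χ (n : ZMod q))]

theorem LD_EF_ld {q : ℕ} [NeZero q] (χ : DirichletCharacter ℂ q) (s : ℂ) (hs : 1 < s.re) :
    deriv (EF χ) s / EF χ s = deriv (DirichletCharacter.LFunction χ) s / DirichletCharacter.LFunction χ s +
      (dl χ : ℂ) / (s - 1) := by
  have hs1 : s ≠ 1 := by
    rintro rfl
    simp at hs
  by_cases hχ : χ = 1
  · have h0 : DirichletCharacter.LFunction χ s ≠ 0 :=
      DirichletCharacter.LFunction_ne_zero_of_one_le_re χ (Or.inr hs1) hs.le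
    have h1 : EF χ =ᶠ[nhds s] fun z => (z - 1) * DirichletCharacter.LFunction χ z := by
      filter_upwards [isOpen_ne.mem_nhds hs1] with z hz
      exact EF_eq_one χ hχ z hz
    have hd := DirichletCharacter.differentiableAt_LFunction χ s (Or.inl hs1)
    have h2 : deriv (EF χ) s = DirichletCharacter.LFunction χ s +
        (s - 1) * deriv (DirichletCharacter.LFunction χ) s := by
      rw [h1.deriv_eq]
      have h3 : HasDerivAt (fun z : ℂ => (z - 1) * DirichletCharacter.LFunction χ z)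
          (1 * DirichletCharacter.LFunction χ s +
            (s - 1) * deriv (DirichletCharacter.LFunction χ) s) s :=
        ((hasDerivAt_id s).sub_const (1 : ℂ)).mul hd.hasDerivAt
      rw [h3.deriv, one_mul]
    have h5 : dl χ = 1 := by
      unfold dl
      rw [if_pos hχ]
    have h6 : s - 1 ≠ 0 := sub_ne_zero.2 hs1
    rw [h2, EF_eq_one χ hχ s hs1, h5]
    push_cast
    field_simp
    ring
  · have h5 : dl χ = 0 := by
      unfold dl
      rw [if_neg hχ]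
    rw [EF_eq_of_ne χ hχ, h5]
    simp

theorem LD_re_cpow (n : ℕ) (σ : ℝ) : (n : ℂ) ^ (-(σ : ℂ)) = (((n : ℝ) ^ (-σ) : ℝ) : ℂ) := by
  rw [Complex.ofReal_cpow (Nat.cast_nonneg n)]
  push_cast
  rfl

theorem LD_341 (z : ℂ) (hz : ‖z‖ ≤ 1) : 0 ≤ 3 + 4 * z.re + (z ^ 2).re := by
  have h1 : z.re ^ 2 + z.im ^ 2 ≤ 1 := by
    have h2 := Complex.sq_norm z
    rw [Complex.normSq_apply] at h2
    have h3 : ‖z‖ ^ 2 ≤ 1 := by
      have := norm_nonneg z
      nlinarith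
    nlinarith
  have h4 : (z ^ 2).re = z.re ^ 2 - z.im ^ 2 := by
    rw [pow_two, Complex.mul_re]
    ring
  rw [h4]
  nlinarith [sq_nonneg (1 + z.re)]

/-- `∑ Λ(n) n ^ (-σ) ≤ 1 / (σ - 1) + C`.

Proof. `ζ(s) (s - 1)` is entire and nonzero on the segment `[1, 3]`, so its logarithmic derivative `ζ'/ζ(s) + 1 / (s - 1)` is bounded on `(1, 3]`; and
`∑ Λ(n) n ^ (-σ) = -ζ'/ζ(σ)` (`ArithmeticFunction.LSeries_vonMangoldt_eq_deriv_riemannZeta_div`). -/
theorem vm_sum : ∃ C : ℝ, 1 ≤ C ∧ ∀ σ : ℝ, 1 < σ → σ ≤ 3 →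
    Summable (fun n : ℕ => ArithmeticFunction.vonMangoldt n * (n : ℝ) ^ (-σ)) ∧
    ∑' n : ℕ, ArithmeticFunction.vonMangoldt n * (n : ℝ) ^ (-σ) ≤ 1 / (σ - 1) + C := by
  have hF := EF_diff (1 : DirichletCharacter ℂ 1)
  have hc : Continuous (deriv (EF (1 : DirichletCharacter ℂ 1))) :=
    (hF.contDiff (n := 1)).continuous_deriv le_rfl
  have hcont : ContinuousOn (fun σ : ℝ => deriv (EF (1 : DirichletCharacter ℂ 1)) (σ : ℂ) /
      EF (1 : DirichletCharacter ℂ 1) (σ : ℂ)) (Set.Icc 1 3) := by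
    apply ContinuousOn.div
    · exact (hc.comp Complex.continuous_ofReal).continuousOn
    · exact (hF.continuous.comp Complex.continuous_ofReal).continuousOn
    · intro σ hσ
      exact EF_ne_zero _ _ (by simpa using hσ.1)
  obtain ⟨C, hC⟩ := isCompact_Icc.exists_bound_of_continuousOn hcont
  refine ⟨max C 1, le_max_right _ _, ?_⟩
  intro σ h1 h3
  have hs : 1 < ((σ : ℝ) : ℂ).re := by simpa using h1
  have h := Complex.hasSum_re (LD_series (1 : DirichletCharacter ℂ 1) (σ : ℂ) hs)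
  have hterm : (fun n : ℕ => ((ArithmeticFunction.vonMangoldt n : ℂ) *
      (1 : DirichletCharacter ℂ 1) (n : ZMod 1) * (n : ℂ) ^ (-(σ : ℂ))).re) =
      fun n : ℕ => ArithmeticFunction.vonMangoldt n * (n : ℝ) ^ (-σ) := by
    funext n
    rw [MulChar.one_apply (isUnit_of_subsingleton _), mul_one, LD_re_cpow, ← Complex.ofReal_mul,
      Complex.ofReal_re]
  rw [hterm] at h
  refine ⟨h.summable, ?_⟩
  rw [h.tsum_eq]
  have h4 := LD_EF_ld (1 : DirichletCharacter ℂ 1) (σ : ℂ) hs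
  have h5 : dl (1 : DirichletCharacter ℂ 1) = 1 := by
    unfold dl
    rw [if_pos rfl]
  rw [h5] at h4
  have h6 : -(deriv (DirichletCharacter.LFunction (1 : DirichletCharacter ℂ 1)) (σ : ℂ) /
      DirichletCharacter.LFunction (1 : DirichletCharacter ℂ 1) (σ : ℂ)) =
      ((1 / (σ - 1) : ℝ) : ℂ) - deriv (EF (1 : DirichletCharacter ℂ 1)) (σ : ℂ) /
      EF (1 : DirichletCharacter ℂ 1) (σ : ℂ) := by
    rw [h4]
    push_cast
    ring
  rw [h6, Complex.sub_re, Complex.ofReal_re]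
  have h7 := hC σ ⟨h1.le, h3⟩
  have h8 := (abs_le.1 ((Complex.abs_re_le_norm _).trans h7)).1
  have h9 := le_max_left C 1
  linarith

/-- The series of the logarithmic derivative.

Proof. `DirichletCharacter.LSeries_twist_vonMangoldt_eq` and `LFunction_eq_LSeries` (also for the derivative, equality on the open half plane);
`LSeries.term` is `Λ(n) χ(n) / n ^ s`, for `n = 0` both sides are `0` (`Λ 0 = 0`). -/
theorem ld_series {q : ℕ} [NeZero q] (χ : DirichletCharacter ℂ q) (s : ℂ) (hs : 1 < s.re) :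
    HasSum (fun n : ℕ => (ArithmeticFunction.vonMangoldt n : ℂ) * χ (n : ZMod q) * (n : ℂ) ^ (-s))
      (-(deriv (DirichletCharacter.LFunction χ) s / DirichletCharacter.LFunction χ s)) := by
  exact LD_series χ s hs

/-- `EF'/EF = L'/L + dl χ / (s - 1)`.

Proof. For `χ = 1`, `EF χ = (s - 1) LFunction χ s` near `s ≠ 1`; `logDeriv_mul`. `LFunction χ s ≠ 0` for `1 < s.re`. -/
theorem EF_ld {q : ℕ} [NeZero q] (χ : DirichletCharacter ℂ q) (s : ℂ) (hs : 1 < s.re) :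
    deriv (EF χ) s / EF χ s = deriv (DirichletCharacter.LFunction χ) s / DirichletCharacter.LFunction χ s +
      (dl χ : ℂ) / (s - 1) := by
  exact LD_EF_ld χ s hs

/-- The trivial bound.

Proof. `ld_series` and `vm_sum`, `‖χ n‖ ≤ 1`. -/
theorem ld_triv : ∃ C : ℝ, 1 ≤ C ∧ ∀ (q : ℕ) [NeZero q] (χ : DirichletCharacter ℂ q) (s : ℂ), 1 < s.re → s.re ≤ 3 →
    ‖deriv (DirichletCharacter.LFunction χ) s / DirichletCharacter.LFunction χ s‖ ≤ 1 / (s.re - 1) + C := by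
  obtain ⟨C, hC, h⟩ := vm_sum
  refine ⟨C, hC, ?_⟩
  intro q _ χ s hs hs3
  obtain ⟨h1, h2⟩ := h s.re hs hs3
  have h3 := (ld_series χ s hs).norm_le_of_bounded h1.hasSum ?_
  · rw [norm_neg] at h3
    exact h3.trans h2
  · intro n
    rcases Nat.eq_zero_or_pos n with hn | hn
    · subst hn
      simp
    · rw [norm_mul, norm_mul, Complex.norm_natCast_cpow_of_pos hn, Complex.norm_real,
        Real.norm_of_nonneg ArithmeticFunction.vonMangoldt_nonneg, Complex.neg_re]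
      have h4 := DirichletCharacter.norm_le_one χ (n : ZMod q)
      have h5 : 0 ≤ ArithmeticFunction.vonMangoldt n := ArithmeticFunction.vonMangoldt_nonneg
      have h6 : 0 ≤ (n : ℝ) ^ (-s.re) := Real.rpow_nonneg (Nat.cast_nonneg n) _
      have h7 : ArithmeticFunction.vonMangoldt n * ‖χ (n : ZMod q)‖ ≤
          ArithmeticFunction.vonMangoldt n := mul_le_of_le_one_right h5 h4
      exact mul_le_mul_of_nonneg_right h7 h6

/-- **The inequality of Mertens**, for `EF`.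

Proof. Let `A = ∑ Λ(n) |χ₀(n)| n ^ (-σ) ≤ 1 / (σ - 1) + C` (`vm_sum`). By `ld_series`, with `χ(n) n ^ (-i t) = e ^ (i φ_n)` for `(n, q) = 1`:
`3 A + 4 Re (-L'/L(σ + i t, χ)) + Re (-L'/L(σ + 2 i t, χ ^ 2)) = ∑_{(n, q) = 1} Λ(n) n ^ (-σ) (3 + 4 cos φ_n + cos (2 φ_n)) ≥ 0` (`3 + 4 cos φ + cos 2 φ = 2 (1 + cos φ) ^ 2`; for
`z = χ(n) n ^ (-i t)`, `‖z‖ = 1`: `3 + 4 Re z + Re z ^ 2 ≥ 0`). Then use `EF_ld`. -/
theorem mertens341 : ∃ C : ℝ, 1 ≤ C ∧ ∀ (q : ℕ) [NeZero q] (χ : DirichletCharacter ℂ q) (σ t : ℝ), 1 < σ → σ ≤ 3 →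
    4 * (deriv (EF χ) (σ + t * I) / EF χ (σ + t * I)).re +
      (deriv (EF (χ ^ 2)) (σ + (2 * t : ℝ) * I) / EF (χ ^ 2) (σ + (2 * t : ℝ) * I)).re ≤
    3 / (σ - 1) + C + 4 * dl χ * (1 / ((σ : ℂ) + t * I - 1)).re +
      dl (χ ^ 2) * (1 / ((σ : ℂ) + (2 * t : ℝ) * I - 1)).re := by
  obtain ⟨C, hC, h⟩ := vm_sum
  refine ⟨3 * C, by linarith, ?_⟩
  intro q _ χ σ t hσ hσ3
  obtain ⟨h1, h2⟩ := h σ hσ hσ3
  have hs1 : 1 < ((σ : ℂ) + t * I).re := by simpa using hσ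
  have hs2 : 1 < ((σ : ℂ) + (2 * t : ℝ) * I).re := by simpa using hσ
  have e1 := ld_series χ _ hs1
  have e2 := ld_series (χ ^ 2) _ hs2
  have e3 := ((h1.hasSum.mul_left 3).add ((Complex.hasSum_re e1).mul_left 4)).add
    (Complex.hasSum_re e2)
  have e4 := HasSum.nonneg (fun n : ℕ => ?_) e3
  · have f1 := congrArg Complex.re (EF_ld χ _ hs1)
    have f2 := congrArg Complex.re (EF_ld (χ ^ 2) _ hs2)
    rw [Complex.add_re] at f1 f2
    have f3 : ∀ (r : ℝ) (w : ℂ), ((r : ℂ) / w).re = r * (1 / w).re := by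
      intro r w
      rw [div_eq_mul_one_div, Complex.re_ofReal_mul]
    rw [f3] at f1 f2
    rw [f1, f2]
    rw [Complex.neg_re, Complex.neg_re] at e4
    have f4 : 3 / (σ - 1) = 3 * (1 / (σ - 1)) := by ring
    rw [f4]
    linarith
  · rcases Nat.eq_zero_or_pos n with hn | hn
    · subst hn
      simp
    · have hn0 : (n : ℂ) ≠ 0 := by exact_mod_cast hn.ne'
      obtain ⟨w, hw⟩ : ∃ w : ℂ, w = (n : ℂ) ^ (-((t : ℂ) * I)) := ⟨_, rfl⟩
      have hw1 : ‖w‖ = 1 := by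
        rw [hw, Complex.norm_natCast_cpow_of_pos hn]
        simp
      have g1 : (n : ℂ) ^ (-((σ : ℂ) + t * I)) = (((n : ℝ) ^ (-σ) : ℝ) : ℂ) * w := by
        rw [hw, ← LD_re_cpow, ← Complex.cpow_add _ _ hn0]
        congr 1
        ring
      have g2 : (n : ℂ) ^ (-((σ : ℂ) + (2 * t : ℝ) * I)) = (((n : ℝ) ^ (-σ) : ℝ) : ℂ) * w ^ 2 := by
        rw [hw, ← LD_re_cpow, ← Complex.cpow_nat_mul, ← Complex.cpow_add _ _ hn0]
        congr 1
        push_cast
        ring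
      have g3 : (χ ^ 2) (n : ZMod q) = χ (n : ZMod q) ^ 2 :=
        MulChar.pow_apply' χ (by norm_num : (2 : ℕ) ≠ 0) _
      rw [g1, g2, g3]
      have g4 : (ArithmeticFunction.vonMangoldt n : ℂ) * χ (n : ZMod q) *
          ((((n : ℝ) ^ (-σ) : ℝ) : ℂ) * w) =
          ((ArithmeticFunction.vonMangoldt n * (n : ℝ) ^ (-σ) : ℝ) : ℂ) * (χ (n : ZMod q) * w) := by
        push_cast
        ring
      have g5 : (ArithmeticFunction.vonMangoldt n : ℂ) * χ (n : ZMod q) ^ 2 *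
          ((((n : ℝ) ^ (-σ) : ℝ) : ℂ) * w ^ 2) =
          ((ArithmeticFunction.vonMangoldt n * (n : ℝ) ^ (-σ) : ℝ) : ℂ) *
            (χ (n : ZMod q) * w) ^ 2 := by
        push_cast
        ring
      rw [g4, g5, Complex.re_ofReal_mul, Complex.re_ofReal_mul]
      have g6 : 0 ≤ ArithmeticFunction.vonMangoldt n * (n : ℝ) ^ (-σ) :=
        mul_nonneg ArithmeticFunction.vonMangoldt_nonneg (Real.rpow_nonneg (Nat.cast_nonneg n) _)
      have g7 : ‖χ (n : ZMod q) * w‖ ≤ 1 := by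
        rw [norm_mul, hw1, mul_one]
        exact DirichletCharacter.norm_le_one χ _
      have g8 := mul_nonneg g6 (LD_341 _ g7)
      linarith

/-- The lower bound for the real part of the logarithmic derivative from the local lemma.

Proof. `LAat` gives `EF'/EF(s) = ∑_{zb} m / (s - ρ) + H s`, `‖H s‖ ≤ C₁ θ log X`; `EF χ s ≠ 0` (`EF_ne_zero`); every `ρ` in `zb` has `Re ρ < 1 < Re s`
(`EF_ne_zero`, `mem_zb`), so `Re (1 / (s - ρ)) > 0` and the terms outside of `S` can be dropped. -/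
theorem LA_re {C₁ θ R₀ X : ℝ} {q : ℕ} (hq : 1 ≤ q) (χ : DirichletCharacter ℂ q) (t : ℝ) (h : LAat C₁ θ R₀ X χ t)
    (hR : 0 < R₀) (s : ℂ) (hs : ‖s - cen θ X t‖ ≤ R₀ / 4) (hs1 : 1 < s.re) (S : Finset ℂ)
    (hS : S ⊆ zb (EF χ) (cen θ X t) (R₀ / 2)) :
    ∑ ρ ∈ S, (mz (EF χ) ρ : ℝ) * (1 / (s - ρ)).re - C₁ * (θ * Real.log X) ≤ (deriv (EF χ) s / EF χ s).re := by
  have hb : s ∈ Metric.ball (cen θ X t) (R₀ / 2) := by
    rw [Metric.mem_ball, dist_eq_norm]
    linarith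
  obtain ⟨_, H, _, hH, hEF⟩ := h
  have h1 := hEF s hb (EF_ne_zero χ s hs1.le)
  have h2 := hH s hs
  have h3 := (abs_le.1 ((Complex.abs_re_le_norm _).trans h2)).1
  rw [h1, Complex.add_re, Complex.re_sum]
  have hne : ∃ z, EF χ z ≠ 0 := ⟨s, EF_ne_zero χ s hs1.le⟩
  have hterm : ∀ ρ : ℂ, ((mz (EF χ) ρ : ℂ) / (s - ρ)).re = (mz (EF χ) ρ : ℝ) * (1 / (s - ρ)).re := by
    intro ρ
    rw [div_eq_mul_one_div, ← Complex.ofReal_natCast, Complex.re_ofReal_mul]
  have h4 : ∑ ρ ∈ S, (mz (EF χ) ρ : ℝ) * (1 / (s - ρ)).re ≤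
      ∑ ρ ∈ zb (EF χ) (cen θ X t) (R₀ / 2), ((mz (EF χ) ρ : ℂ) / (s - ρ)).re := by
    have h5 : ∑ ρ ∈ zb (EF χ) (cen θ X t) (R₀ / 2), ((mz (EF χ) ρ : ℂ) / (s - ρ)).re =
        ∑ ρ ∈ zb (EF χ) (cen θ X t) (R₀ / 2), (mz (EF χ) ρ : ℝ) * (1 / (s - ρ)).re :=
      sum_congr rfl fun ρ _ => hterm ρ
    rw [h5]
    apply sum_le_sum_of_subset_of_nonneg hS
    intro ρ hρ _
    apply mul_nonneg (Nat.cast_nonneg _)
    have h6 := ((mem_zb (EF χ) (EF_diff χ) hne _ _ ρ).1 hρ).1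
    have h7 : ρ.re < 1 := by
      by_contra h8
      push Not at h8
      exact EF_ne_zero χ ρ h8 h6
    rw [one_div, Complex.inv_re]
    apply div_nonneg
    · rw [Complex.sub_re]
      linarith
    · exact Complex.normSq_nonneg _
  linarith

end Pool.Agent.PSG
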