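import Pool.Agent.W_b58c63_h44.Ker
import Pool.Agent.W_b58c63_h44.Itf
import Pool.Agent.W_b58c63_h44.LD
import Pool.Agent.W_b58c63_h68.SgA

/-!
# The large values theorem
-/

set_option autoImplicit false

noncomputable section

open Finset Complex

namespace Pool.Agent.PSG

/-- **Duality** (Halasz).

Proof. Choose `ε_i` of norm one with `ε_i ∑_p a p F i p = ‖∑_p a p F i p‖`. Then `∑_i ‖...‖ = ∑_p a p ∑_i ε_i F i p ≤ (∑_p a p ^ 2 / b p) ^ (1/2) (∑_{p ∈ P} b p ‖∑_i ε_i F i p‖ ^ 2) ^ (1/2)` (Cauchy-Schwarz), and the last sum is at most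
`∑_{n ∈ N} b n ‖∑_i ε_i F i n‖ ^ 2 = ∑_{i, j} ε_i conj ε_j ∑_n b n F i n conj (F j n)`. -/
theorem halasz {ι : Type*} (S : Finset ι) (P N : Finset ℕ) (hPN : P ⊆ N) (a b : ℕ → ℝ) (hb : ∀ n ∈ N, 0 ≤ b n)
    (hbP : ∀ p ∈ P, 0 < b p) (F : ι → ℕ → ℂ) :
    (∑ i ∈ S, ‖∑ p ∈ P, (a p : ℂ) * F i p‖) ^ 2 ≤ (∑ p ∈ P, a p ^ 2 / b p) *
      ∑ i ∈ S, ∑ j ∈ S, ‖∑ n ∈ N, (b n : ℂ) * (F i n * (starRingEnd ℂ) (F j n))‖ := by
  classical
  have hex : ∀ z : ℂ, ∃ e : ℂ, ‖e‖ = 1 ∧ e * z = (‖z‖ : ℂ) := by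
    intro z
    by_cases hz : z = 0
    · exact ⟨1, by simp, by simp [hz]⟩
    · refine ⟨(starRingEnd ℂ) z / ‖z‖, ?_, ?_⟩
      · have : ‖z‖ ≠ 0 := norm_ne_zero_iff.2 hz
        rw [norm_div, RCLike.norm_conj, norm_real, norm_norm, div_self this]
      · have h0 : (‖z‖ : ℂ) ≠ 0 := by exact_mod_cast norm_ne_zero_iff.2 hz
        rw [div_mul_eq_mul_div, div_eq_iff h0, mul_comm, Complex.mul_conj, Complex.normSq_eq_norm_sq]
        push_cast; ring
  choose e he1 he2 using hex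
  set z : ι → ℂ := fun i => ∑ p ∈ P, (a p : ℂ) * F i p with hz
  set A : ℕ → ℂ := fun n => ∑ i ∈ S, e (z i) * F i n with hA
  have h1 : ((∑ i ∈ S, ‖z i‖ : ℝ) : ℂ) = ∑ p ∈ P, (a p : ℂ) * A p := by
    push_cast
    calc ∑ i ∈ S, (‖z i‖ : ℂ) = ∑ i ∈ S, e (z i) * z i := Finset.sum_congr rfl fun i _ => (he2 _).symm
      _ = ∑ i ∈ S, ∑ p ∈ P, e (z i) * ((a p : ℂ) * F i p) := Finset.sum_congr rfl fun i _ => by
          rw [Finset.mul_sum]
      _ = ∑ p ∈ P, ∑ i ∈ S, e (z i) * ((a p : ℂ) * F i p) := Finset.sum_comm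
      _ = ∑ p ∈ P, (a p : ℂ) * A p := Finset.sum_congr rfl fun p _ => by
          rw [hA]; simp only [Finset.mul_sum]; exact Finset.sum_congr rfl fun i _ => by ring
  have h2 : ∑ i ∈ S, ‖z i‖ ≤ ∑ p ∈ P, |a p| * ‖A p‖ := by
    have hnn : 0 ≤ ∑ i ∈ S, ‖z i‖ := Finset.sum_nonneg fun i _ => norm_nonneg _
    have : ∑ i ∈ S, ‖z i‖ = ‖((∑ i ∈ S, ‖z i‖ : ℝ) : ℂ)‖ := by
      rw [norm_real, Real.norm_of_nonneg hnn]
    rw [this, h1]
    refine (norm_sum_le _ _).trans (Finset.sum_le_sum fun p _ => ?_)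
    rw [norm_mul, norm_real, Real.norm_eq_abs]
  have h3 : (∑ p ∈ P, |a p| * ‖A p‖) ^ 2 ≤ (∑ p ∈ P, a p ^ 2 / b p) * ∑ p ∈ P, b p * ‖A p‖ ^ 2 := by
    refine Finset.sum_sq_le_sum_mul_sum_of_sq_eq_mul P (fun p hp => by have := hbP p hp; positivity)
      (fun p hp => by have := hbP p hp; positivity) (fun p hp => ?_)
    have := (hbP p hp).ne'
    rw [mul_pow, sq_abs]; field_simp
  have h4 : ∑ p ∈ P, b p * ‖A p‖ ^ 2 ≤ ∑ n ∈ N, b n * ‖A n‖ ^ 2 :=
    Finset.sum_le_sum_of_subset_of_nonneg hPN fun n hn _ => mul_nonneg (hb n hn) (by positivity)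
  have h5 : ((∑ n ∈ N, b n * ‖A n‖ ^ 2 : ℝ) : ℂ) =
      ∑ i ∈ S, ∑ j ∈ S, e (z i) * (starRingEnd ℂ) (e (z j)) *
        ∑ n ∈ N, (b n : ℂ) * (F i n * (starRingEnd ℂ) (F j n)) := by
    push_cast
    have : ∀ n, ((‖A n‖ : ℂ)) ^ 2 = A n * (starRingEnd ℂ) (A n) := fun n => by
      rw [Complex.mul_conj, Complex.normSq_eq_norm_sq]; push_cast; ring
    simp only [this]
    have h6 : ∀ n ∈ N, (b n : ℂ) * (A n * (starRingEnd ℂ) (A n)) = ∑ i ∈ S, ∑ j ∈ S,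
        e (z i) * (starRingEnd ℂ) (e (z j)) * ((b n : ℂ) * (F i n * (starRingEnd ℂ) (F j n))) := by
      intro n _
      rw [hA]
      simp only [map_sum, map_mul]
      rw [Finset.sum_mul_sum, Finset.mul_sum]
      refine Finset.sum_congr rfl fun i _ => ?_
      rw [Finset.mul_sum]
      exact Finset.sum_congr rfl fun j _ => by ring
    rw [Finset.sum_congr rfl h6, Finset.sum_comm]
    refine Finset.sum_congr rfl fun i _ => ?_
    rw [Finset.sum_comm]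
    exact Finset.sum_congr rfl fun j _ => by rw [Finset.mul_sum]
  have h7 : ∑ n ∈ N, b n * ‖A n‖ ^ 2 ≤
      ∑ i ∈ S, ∑ j ∈ S, ‖∑ n ∈ N, (b n : ℂ) * (F i n * (starRingEnd ℂ) (F j n))‖ := by
    have hnn : 0 ≤ ∑ n ∈ N, b n * ‖A n‖ ^ 2 := Finset.sum_nonneg fun n hn => mul_nonneg (hb n hn) (by positivity)
    have : ∑ n ∈ N, b n * ‖A n‖ ^ 2 = ‖((∑ n ∈ N, b n * ‖A n‖ ^ 2 : ℝ) : ℂ)‖ := by
      rw [norm_real, Real.norm_of_nonneg hnn]
    rw [this, h5]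
    refine (norm_sum_le _ _).trans (Finset.sum_le_sum fun i _ => ?_)
    refine (norm_sum_le _ _).trans (Finset.sum_le_sum fun j _ => ?_)
    rw [norm_mul, norm_mul, RCLike.norm_conj, he1, he1, one_mul, one_mul]
  have hq : 0 ≤ ∑ p ∈ P, a p ^ 2 / b p := Finset.sum_nonneg fun p hp => by
    have := hbP p hp; positivity
  calc (∑ i ∈ S, ‖z i‖) ^ 2 ≤ (∑ p ∈ P, |a p| * ‖A p‖) ^ 2 :=
        pow_le_pow_left₀ (Finset.sum_nonneg fun i _ => norm_nonneg _) h2 2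
    _ ≤ (∑ p ∈ P, a p ^ 2 / b p) * ∑ p ∈ P, b p * ‖A p‖ ^ 2 := h3
    _ ≤ (∑ p ∈ P, a p ^ 2 / b p) * ∑ n ∈ N, b n * ‖A n‖ ^ 2 := mul_le_mul_of_nonneg_left h4 hq
    _ ≤ _ := mul_le_mul_of_nonneg_left h7 hq

theorem LV_sum_range (N : ℕ) [NeZero N] (g : ZMod N → ℂ) : ∑ a ∈ range N, g (a : ZMod N) = ∑ x : ZMod N, g x := by
  refine Finset.sum_nbij' (fun a => (a : ZMod N)) (fun x => x.val) (fun a _ => Finset.mem_univ _)
    (fun x _ => Finset.mem_range.2 (ZMod.val_lt x)) (fun a ha => ?_) (fun x _ => ZMod.natCast_zmod_val x) (fun a _ => rfl)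
  exact ZMod.val_natCast_of_lt (Finset.mem_range.1 ha)

theorem LV_le (q₁ q₂ : ℕ) (h1 : 1 ≤ q₁) (h2 : 1 ≤ q₂) (χ₁ : DirichletCharacter ℂ q₁) (χ₂ : DirichletCharacter ℂ q₂)
    (hp1 : χ₁.IsPrimitive)
    (h : DirichletCharacter.changeLevel (dvd_mul_right q₁ q₂) χ₁ = DirichletCharacter.changeLevel (dvd_mul_left q₂ q₁) χ₂) :
    q₁ ∣ q₂ := by
  have : NeZero q₁ := ⟨by omega⟩
  have : NeZero q₂ := ⟨by omega⟩
  have h3 : DirichletCharacter.FactorsThrough χ₁ (q₁.gcd q₂) :=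
    DirichletCharacter.factorsThrough_gcd χ₁ χ₂ h
  have h4 : χ₁.conductor ≤ q₁.gcd q₂ := Nat.sInf_le ((DirichletCharacter.mem_conductorSet_iff χ₁).2 h3)
  have h6 : χ₁.conductor = q₁ := (DirichletCharacter.isPrimitive_def χ₁).1 hp1
  rw [h6] at h4
  have h5 : q₁.gcd q₂ ∣ q₁ := Nat.gcd_dvd_left _ _
  have h7 : q₁.gcd q₂ = q₁ := le_antisymm (Nat.le_of_dvd (by omega) h5) h4
  rw [← h7]; exact Nat.gcd_dvd_right _ _

/-- Different primitive characters are orthogonal.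

Proof. `conj (χ₂ n) = χ₂⁻¹ n`, so the function is `n ↦ chi12 χ₁ χ₂⁻¹ n` modulo `q₁ q₂` (`Pool.Agent.Wb58c63.chi12_apply`), and the mean is `0` if `chi12 χ₁ χ₂⁻¹ ≠ 1`. If it is `1` then
`changeLevel χ₁ = changeLevel χ₂` modulo `q₁ q₂`, so `χ₁` and `χ₂` have the same conductor and the same primitive character: a primitive `χ₁` factors through `gcd q₁ q₂`
(see the proof of `Pool.Agent.Wb58c63.sg_ne_one` in `SgEa.lean`), hence `q₁ ∣ q₂`, and symmetrically `q₂ ∣ q₁`, `q₁ = q₂`, and `χ₁ n = χ₂ n` for all `n` prime to `q₁`. -/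
theorem mean_distinct (q₁ q₂ : ℕ) (h1 : 1 ≤ q₁) (h2 : 1 ≤ q₂) (χ₁ : DirichletCharacter ℂ q₁) (χ₂ : DirichletCharacter ℂ q₂)
    (hp1 : χ₁.IsPrimitive) (hp2 : χ₂.IsPrimitive)
    (hne : (⟨q₁, χ₁⟩ : Σ r : ℕ, DirichletCharacter ℂ r) ≠ ⟨q₂, χ₂⟩) :
    mean (q₁ * q₂) (fun n => χ₁ (n : ZMod q₁) * (starRingEnd ℂ) (χ₂ (n : ZMod q₂))) = 0 := by
  have : NeZero (q₁ * q₂) := ⟨by positivity⟩
  have : NeZero q₁ := ⟨by omega⟩
  have : NeZero q₂ := ⟨by omega⟩
  have hf : ∀ n : ℕ, χ₁ (n : ZMod q₁) * (starRingEnd ℂ) (χ₂ (n : ZMod q₂)) =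
      Pool.Agent.Wb58c63.chi12 χ₁ χ₂⁻¹ (n : ZMod (q₁ * q₂)) := by
    intro n
    rw [Pool.Agent.Wb58c63.chi12_apply, ← MulChar.star_apply']
    rfl
  have hψ : Pool.Agent.Wb58c63.chi12 χ₁ χ₂⁻¹ ≠ 1 := by
    intro h
    apply hne
    unfold Pool.Agent.Wb58c63.chi12 at h
    rw [map_inv] at h
    have h3 := mul_inv_eq_one.1 h
    have hd1 := LV_le q₁ q₂ h1 h2 χ₁ χ₂ hp1 h3
    have hd2 : q₂ ∣ q₁ := by
      refine LV_le q₂ q₁ h2 h1 χ₂ χ₁ hp2 ?_
      have : ∀ (N : ℕ) (hN : N = q₁ * q₂) (ha : q₁ ∣ N) (hb : q₂ ∣ N),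
          DirichletCharacter.changeLevel ha χ₁ = DirichletCharacter.changeLevel hb χ₂ := by
        intro N hN ha hb
        subst hN
        exact h3
      exact (this (q₂ * q₁) (mul_comm _ _) _ _).symm
    have hq : q₁ = q₂ := Nat.dvd_antisymm hd1 hd2
    subst hq
    congr 1
    exact DirichletCharacter.changeLevel_injective (dvd_mul_right q₁ q₁) h3
  unfold mean
  simp only [hf]
  rw [LV_sum_range (q₁ * q₂) (fun x => Pool.Agent.Wb58c63.chi12 χ₁ χ₂⁻¹ x), MulChar.sum_eq_zero_of_ne_one hψ, zero_div]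

/-- The sum of `Λ(n) / n`.

Proof. `Λ(n) / n ≤ e Λ(n) n ^ (-1 - 1 / (1 + log y))` for `n ≤ y`, and `vm_sum`. -/
theorem sum_log_div : ∃ C : ℝ, 1 ≤ C ∧ ∀ y : ℝ, 1 ≤ y →
    ∑ p ∈ (Icc 1 ⌊y⌋₊).filter Nat.Prime, Real.log p / p ≤ C * (1 + Real.log y) := by
  obtain ⟨C, hC, h⟩ := vm_sum
  have he : (1 : ℝ) ≤ Real.exp 1 := Real.one_le_exp (by norm_num)
  refine ⟨Real.exp 1 * (1 + C), by nlinarith, fun y hy => ?_⟩
  have hly : 0 ≤ Real.log y := Real.log_nonneg hy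
  set σ : ℝ := 1 + 1 / (1 + Real.log y) with hσ
  have hpos : 0 < 1 / (1 + Real.log y) := by positivity
  have hle : 1 / (1 + Real.log y) ≤ 1 := by
    rw [div_le_one (by linarith)]; linarith
  obtain ⟨hs, hb⟩ := h σ (by linarith) (by linarith)
  have h1 : ∑ p ∈ (Icc 1 ⌊y⌋₊).filter Nat.Prime, Real.log p / p ≤
      ∑ p ∈ (Icc 1 ⌊y⌋₊).filter Nat.Prime, Real.exp 1 * (ArithmeticFunction.vonMangoldt p * (p : ℝ) ^ (-σ)) := by
    refine Finset.sum_le_sum fun p hp => ?_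
    rw [Finset.mem_filter, Finset.mem_Icc] at hp
    obtain ⟨⟨hp1, hp2⟩, hp⟩ := hp
    have hp0 : (0 : ℝ) < p := by exact_mod_cast hp.pos
    have hp1' : (1 : ℝ) ≤ p := by exact_mod_cast hp1
    have hlp : 0 ≤ Real.log p := Real.log_nonneg hp1'
    have hpy : (p : ℝ) ≤ y := (Nat.le_floor_iff (by linarith)).1 hp2
    rw [ArithmeticFunction.vonMangoldt_apply_prime hp]
    have e1 : (p : ℝ) ^ (-σ) = (p : ℝ)⁻¹ * Real.exp (-(Real.log p / (1 + Real.log y))) := by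
      have : -σ = -1 + -(1 / (1 + Real.log y)) := by rw [hσ]; ring
      rw [this, Real.rpow_add hp0, Real.rpow_neg_one, Real.rpow_def_of_pos hp0]
      congr 2; ring
    rw [e1]
    have e2 : Real.log p / (1 + Real.log y) ≤ 1 := by
      rw [div_le_one (by linarith)]
      have := Real.log_le_log hp0 hpy
      linarith
    have e3 : 1 ≤ Real.exp 1 * Real.exp (-(Real.log p / (1 + Real.log y))) := by
      rw [← Real.exp_add]; exact Real.one_le_exp (by linarith)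
    calc Real.log p / p = (Real.log p * (p : ℝ)⁻¹) * 1 := by rw [mul_one]; rfl
      _ ≤ (Real.log p * (p : ℝ)⁻¹) * (Real.exp 1 * Real.exp (-(Real.log p / (1 + Real.log y)))) :=
          mul_le_mul_of_nonneg_left e3 (by positivity)
      _ = _ := by ring
  have h2 : ∑ p ∈ (Icc 1 ⌊y⌋₊).filter Nat.Prime, (ArithmeticFunction.vonMangoldt p * (p : ℝ) ^ (-σ)) ≤
      ∑' n : ℕ, ArithmeticFunction.vonMangoldt n * (n : ℝ) ^ (-σ) :=
    hs.sum_le_tsum _ fun n _ => mul_nonneg ArithmeticFunction.vonMangoldt_nonneg (Real.rpow_nonneg (Nat.cast_nonneg _) _)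
  have h3 : 1 / (σ - 1) = 1 + Real.log y := by
    rw [hσ, add_sub_cancel_left, one_div_one_div]
  rw [← Finset.mul_sum] at h1
  rw [h3] at hb
  calc _ ≤ _ := h1
    _ ≤ Real.exp 1 * (1 + Real.log y + C) := mul_le_mul_of_nonneg_left (h2.trans hb) (by positivity)
    _ ≤ Real.exp 1 * ((1 + C) * (1 + Real.log y)) := mul_le_mul_of_nonneg_left (by nlinarith only [hly, hC]) (by positivity)
    _ = _ := by ring

theorem LV_sq_sum (M : ℕ) (hM : 2 ≤ M) : ∑ m ∈ range M, 1 / (1 + (m : ℝ) ^ 2) ≤ 5 / 2 - 1 / ((M : ℝ) - 1) := by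
  induction M, hM using Nat.le_induction with
  | base => norm_num [Finset.sum_range_succ]
  | succ n hn ih =>
    rw [Finset.sum_range_succ]
    have hn' : (2 : ℝ) ≤ n := by exact_mod_cast hn
    have h1 : 1 / (1 + (n : ℝ) ^ 2) ≤ 1 / ((n : ℝ) - 1) - 1 / n := by
      rw [div_sub_div _ _ (by linarith) (by linarith), div_le_div_iff₀ (by positivity) (by nlinarith)]
      nlinarith
    have h2 : (((n + 1 : ℕ) : ℝ) - 1) = n := by push_cast; ring
    rw [h2]; linarith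

theorem LV_sq_sum' (M : ℕ) : ∑ m ∈ range M, 1 / (1 + (m : ℝ) ^ 2) ≤ 5 / 2 := by
  have h1 : ∑ m ∈ range M, 1 / (1 + (m : ℝ) ^ 2) ≤ ∑ m ∈ range (M + 2), 1 / (1 + (m : ℝ) ^ 2) :=
    Finset.sum_le_sum_of_subset_of_nonneg (Finset.range_subset_range.2 (by omega)) fun n _ _ => by positivity
  have h2 := LV_sq_sum (M + 2) (by omega)
  have h3 : (0 : ℝ) ≤ 1 / (((M + 2 : ℕ) : ℝ) - 1) := by
    push_cast
    have : (0 : ℝ) ≤ M := by positivity
    exact div_nonneg zero_le_one (by linarith)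
  linarith

theorem LV_half (T : Finset ℝ) (η L : ℝ) (hη : 0 < η) (hL : 1 ≤ η * L) (h : ∀ s ∈ T, ∀ t ∈ T, s ≠ t → η ≤ |s - t|)
    (t₀ : ℝ) (h0 : ∀ t ∈ T, t₀ ≤ t) : ∑ t ∈ T, 1 / (1 + ((t₀ - t) * L) ^ 2) ≤ 5 / 2 := by
  classical
  have hL0 : 0 < L := by
    by_contra hc
    have := mul_nonpos_of_nonneg_of_nonpos hη.le (not_lt.1 hc)
    linarith
  set g : ℝ → ℕ := fun t => ⌊(t - t₀) / η⌋₊ with hg
  have hinj : Set.InjOn g (T : Set ℝ) := by
    intro s hs t ht hst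
    by_contra hne
    have h1 := h s hs t ht hne
    have e1 := Nat.floor_le (a := (s - t₀) / η) (div_nonneg (by linarith [h0 s hs]) hη.le)
    have e2 := Nat.floor_le (a := (t - t₀) / η) (div_nonneg (by linarith [h0 t ht]) hη.le)
    have e3 := Nat.lt_floor_add_one ((s - t₀) / η)
    have e4 := Nat.lt_floor_add_one ((t - t₀) / η)
    have hst' : (⌊(s - t₀) / η⌋₊ : ℝ) = ⌊(t - t₀) / η⌋₊ := by exact_mod_cast hst
    have h2 : |(s - t₀) / η - (t - t₀) / η| < 1 := by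
      rw [abs_lt]; constructor <;> linarith only [e1, e4, hst', e2, e3]
    have h3 : (s - t₀) / η - (t - t₀) / η = (s - t) / η := by ring
    rw [h3, abs_div, abs_of_pos hη, div_lt_one hη] at h2
    linarith
  have hb : ∀ t ∈ T, 1 / (1 + ((t₀ - t) * L) ^ 2) ≤ 1 / (1 + ((g t : ℕ) : ℝ) ^ 2) := by
    intro t ht
    have e1 := Nat.floor_le (a := (t - t₀) / η) (div_nonneg (by linarith [h0 t ht]) hη.le)
    have e2 : ((g t : ℕ) : ℝ) ≤ (t - t₀) * L := by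
      rw [le_div_iff₀ hη] at e1
      have h5 : (0 : ℝ) ≤ (g t : ℕ) := Nat.cast_nonneg _
      have e1' : ((g t : ℕ) : ℝ) * η ≤ t - t₀ := e1
      calc ((g t : ℕ) : ℝ) ≤ ((g t : ℕ) : ℝ) * (η * L) := le_mul_of_one_le_right h5 hL
        _ = (((g t : ℕ) : ℝ) * η) * L := by ring
        _ ≤ (t - t₀) * L := mul_le_mul_of_nonneg_right e1' hL0.le
    have e3 : ((g t : ℕ) : ℝ) ^ 2 ≤ ((t₀ - t) * L) ^ 2 := by
      have h5 : (0 : ℝ) ≤ (g t : ℕ) := Nat.cast_nonneg _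
      have : ((t₀ - t) * L) ^ 2 = ((t - t₀) * L) ^ 2 := by ring
      rw [this]
      exact pow_le_pow_left₀ h5 e2 2
    exact one_div_le_one_div_of_le (by positivity) (by linarith)
  calc ∑ t ∈ T, 1 / (1 + ((t₀ - t) * L) ^ 2) ≤ ∑ t ∈ T, 1 / (1 + ((g t : ℕ) : ℝ) ^ 2) := Finset.sum_le_sum hb
    _ = ∑ m ∈ T.image g, 1 / (1 + (m : ℝ) ^ 2) := (Finset.sum_image (f := fun m : ℕ => 1 / (1 + (m : ℝ) ^ 2)) hinj).symm
    _ ≤ ∑ m ∈ range ((T.image g).sup id + 1), 1 / (1 + (m : ℝ) ^ 2) := by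
        refine Finset.sum_le_sum_of_subset_of_nonneg (fun m hm => ?_) fun n _ _ => by positivity
        rw [Finset.mem_range]
        have := Finset.le_sup (f := id) hm
        simp only [id] at this
        omega
    _ ≤ 5 / 2 := LV_sq_sum' _

/-- Separated points: the sum of the kernel.

Proof. For fixed `t₀`, number the points `t ∈ T` above `t₀` in increasing order: the `m`-th one has `t - t₀ ≥ m η`; the same below; so the sum is at most `1 + 2 ∑_{m ≥ 1} 1 / (1 + m ^ 2) ≤ 1 + 2 · 2 = 5` because `η L ≥ 1`. -/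
theorem sum_sep (T : Finset ℝ) (η L : ℝ) (hη : 0 < η) (hL : 1 ≤ η * L) (h : ∀ s ∈ T, ∀ t ∈ T, s ≠ t → η ≤ |s - t|)
    (t₀ : ℝ) (h0 : t₀ ∈ T) : ∑ t ∈ T, 1 / (1 + ((t₀ - t) * L) ^ 2) ≤ 5 := by
  classical
  have h1 := LV_half (T.filter (fun t => t₀ ≤ t)) η L hη hL
    (fun s hs t ht => h s (Finset.mem_filter.1 hs).1 t (Finset.mem_filter.1 ht).1) t₀
    (fun t ht => (Finset.mem_filter.1 ht).2)
  have h2 := LV_half ((T.filter (fun t => ¬ t₀ ≤ t)).image (fun t => -t)) η L hη hL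
    (fun s hs t ht hne => by
      obtain ⟨s', hs', rfl⟩ := Finset.mem_image.1 hs
      obtain ⟨t', ht', rfl⟩ := Finset.mem_image.1 ht
      have := h s' (Finset.mem_filter.1 hs').1 t' (Finset.mem_filter.1 ht').1 (fun hc => hne (by rw [hc]))
      have e : |-s' - -t'| = |s' - t'| := by rw [← abs_neg]; congr 1; ring
      rw [e]; exact this) (-t₀)
    (fun t ht => by
      obtain ⟨t', ht', rfl⟩ := Finset.mem_image.1 ht
      have := (Finset.mem_filter.1 ht').2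
      push Not at this
      linarith)
  rw [Finset.sum_image (fun x _ y _ hxy => neg_injective hxy)] at h2
  have h3 : ∀ t : ℝ, 1 / (1 + ((-t₀ - -t) * L) ^ 2) = 1 / (1 + ((t₀ - t) * L) ^ 2) := fun t => by
    congr 2; ring
  simp only [h3] at h2
  rw [← Finset.sum_filter_add_sum_filter_not T (fun t => t₀ ≤ t)]
  linarith

theorem LV_jk_nonneg (k : ℕ) (x : ℝ) (hx : 0 ≤ x) : 0 ≤ jk k x := by unfold jk; positivity

theorem LV_jk_le (k : ℕ) (x : ℝ) (hx : 0 ≤ x) : jk k x ≤ 1 := by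
  unfold jk
  have := Real.pow_div_factorial_le_exp x hx k
  calc Real.exp (-x) * x ^ k / (k.factorial : ℝ) = Real.exp (-x) * (x ^ k / k.factorial) := by ring
    _ ≤ Real.exp (-x) * Real.exp x := mul_le_mul_of_nonneg_left this (Real.exp_pos _).le
    _ = 1 := by rw [← Real.exp_add]; simp

theorem LV_x_jk (k : ℕ) (hk : 1 ≤ k) (x : ℝ) (hx : 0 ≤ x) : x * jk (k - 1) x ≤ k := by
  obtain ⟨m, rfl⟩ : ∃ m, k = m + 1 := ⟨k - 1, by omega⟩
  have e : x * jk (m + 1 - 1) x = ((m + 1 : ℕ) : ℝ) * jk (m + 1) x := by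
    unfold jk
    rw [Nat.add_sub_cancel, Nat.factorial_succ]
    push_cast
    have h1 : (m.factorial : ℝ) ≠ 0 := by exact_mod_cast m.factorial_ne_zero
    have h2 : ((m : ℝ) + 1) ≠ 0 := by positivity
    field_simp
    ring
  rw [e]
  exact mul_le_of_le_one_right (Nat.cast_nonneg _) (LV_jk_le _ _ hx)

theorem LV_b (ca Ca : ℝ) (h1 : 0 < ca) (V : ℝ → ℝ) (hV : IsBump ca Ca V) (k : ℕ) (hk : 1 ≤ k)
    (η L : ℝ) (hη : 0 < η) (hL0 : 0 < L) (hL : η * L = k) (lam : ℕ → ℝ) (hl1 : lam 1 = 1)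
    (hl : ∀ d, d ∉ SF (Real.exp (ca * L / 8)) → lam d = 0) (p : ℕ) (hp : p ∈ PR ca Ca k η) :
    bV lam V L p = 1 / p := by
  unfold PR at hp
  rw [Finset.mem_filter] at hp
  obtain ⟨_, hpp, hp1, hp2⟩ := hp
  rw [← hL] at hp1 hp2
  have hp0 : (0 : ℝ) < p := by exact_mod_cast hpp.pos
  have e1 : ca * L ≤ Real.log p := by
    have : η * (ca * L) ≤ η * Real.log p := by linarith
    exact le_of_mul_le_mul_left this hη
  have e2 : Real.log p ≤ Ca * L := by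
    have : η * Real.log p ≤ η * (Ca * L) := by linarith
    exact le_of_mul_le_mul_left this hη
  have e3 : V (Real.log p / L) = 1 := by
    refine hV.2.2.2.2 _ ?_ ?_
    · rw [le_div_iff₀ hL0]; exact e1
    · rw [div_le_iff₀ hL0]; exact e2
  have e4 : lam p = 0 := by
    apply hl
    intro hc
    unfold SF at hc
    rw [Finset.mem_filter, Finset.mem_Icc] at hc
    have h5 := (Nat.le_floor_iff (Real.exp_pos _).le).1 hc.1.2
    have h6 := Real.log_le_log hp0 h5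
    rw [Real.log_exp] at h6
    have : 0 < ca * L := by positivity
    linarith
  unfold bV nu
  rw [e3, hpp.divisors, Finset.sum_pair hpp.one_lt.ne, hl1, e4]
  norm_num

theorem LV_sum_ab (ca Ca : ℝ) (h1 : 0 < ca) (h2 : 1 < Ca) (C' : ℝ) (hC' : 1 ≤ C') (hlog : ∀ y : ℝ, 1 ≤ y →
    ∑ p ∈ (Icc 1 ⌊y⌋₊).filter Nat.Prime, Real.log p / p ≤ C' * (1 + Real.log y)) (k : ℕ) (hk : 1 ≤ k)
    (η L : ℝ) (hη : 0 < η) (hη1 : η ≤ 1) (hL0 : 0 < L) (hL : η * L = k) (b : ℕ → ℝ)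
    (hb : ∀ p ∈ PR ca Ca k η, b p = 1 / p) :
    ∑ p ∈ PR ca Ca k η, (Real.log p * (1 / p) * (η * jk (k - 1) (η * Real.log p))) ^ 2 / b p ≤
      C' * (1 + Ca) * (k : ℝ) ^ 2 := by
  have hk0 : (1 : ℝ) ≤ k := by exact_mod_cast hk
  have s1 : ∀ p ∈ PR ca Ca k η, (Real.log p * (1 / p) * (η * jk (k - 1) (η * Real.log p))) ^ 2 / b p ≤
      (Real.log p / p) * (η * k) := by
    intro p hp
    rw [hb p hp]
    unfold PR at hp
    rw [Finset.mem_filter] at hp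
    obtain ⟨_, hpp, hp1, hp2⟩ := hp
    have hp0 : (0 : ℝ) < p := by exact_mod_cast hpp.pos
    have hlp : 0 ≤ Real.log p := Real.log_nonneg (by exact_mod_cast hpp.one_lt.le)
    have hx : 0 ≤ η * Real.log p := by positivity
    have j1 := LV_jk_le (k - 1) _ hx
    have j0 := LV_jk_nonneg (k - 1) _ hx
    have j2 := LV_x_jk k hk _ hx
    have e : (Real.log p * (1 / p) * (η * jk (k - 1) (η * Real.log p))) ^ 2 / (1 / p) =
        (Real.log p / p) * (η * (jk (k - 1) (η * Real.log p) * (η * Real.log p * jk (k - 1) (η * Real.log p)))) := by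
      field_simp
    rw [e]
    refine mul_le_mul_of_nonneg_left (mul_le_mul_of_nonneg_left ?_ hη.le) (by positivity)
    calc jk (k - 1) (η * Real.log p) * (η * Real.log p * jk (k - 1) (η * Real.log p))
        ≤ 1 * (η * Real.log p * jk (k - 1) (η * Real.log p)) :=
          mul_le_mul_of_nonneg_right j1 (mul_nonneg hx j0)
      _ ≤ k := by rw [one_mul]; exact j2
  have s2 : PR ca Ca k η ⊆ (Icc 1 ⌊Real.exp (Ca * L)⌋₊).filter Nat.Prime := by
    intro p hp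
    unfold PR at hp
    rw [Finset.mem_filter] at hp
    obtain ⟨_, hpp, hp1, hp2⟩ := hp
    have hp0 : (0 : ℝ) < p := by exact_mod_cast hpp.pos
    rw [Finset.mem_filter, Finset.mem_Icc]
    refine ⟨⟨hpp.pos, Nat.le_floor ?_⟩, hpp⟩
    rw [← hL] at hp2
    have e2 : Real.log p ≤ Ca * L := by
      have : η * Real.log p ≤ η * (Ca * L) := by linarith
      exact le_of_mul_le_mul_left this hη
    calc (p : ℝ) = Real.exp (Real.log p) := (Real.exp_log hp0).symm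
      _ ≤ Real.exp (Ca * L) := Real.exp_le_exp.2 e2
  have s3 := hlog (Real.exp (Ca * L)) (Real.one_le_exp (by positivity))
  rw [Real.log_exp] at s3
  have s4 : ∑ p ∈ PR ca Ca k η, Real.log p / p ≤ ∑ p ∈ (Icc 1 ⌊Real.exp (Ca * L)⌋₊).filter Nat.Prime, Real.log p / p :=
    Finset.sum_le_sum_of_subset_of_nonneg s2 fun p hp _ => by
      have : (1 : ℝ) ≤ p := by exact_mod_cast (Finset.mem_Icc.1 (Finset.mem_filter.1 hp).1).1
      exact div_nonneg (Real.log_nonneg this) (by linarith)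
  calc _ ≤ ∑ p ∈ PR ca Ca k η, (Real.log p / p) * (η * k) := Finset.sum_le_sum s1
    _ = (∑ p ∈ PR ca Ca k η, Real.log p / p) * (η * k) := by rw [Finset.sum_mul]
    _ ≤ (C' * (1 + Ca * L)) * (η * k) := mul_le_mul_of_nonneg_right (s4.trans s3) (by positivity)
    _ = C' * k * (η + Ca * (η * L)) := by ring
    _ = C' * k * (η + Ca * k) := by rw [hL]
    _ ≤ C' * k * (k + Ca * k) := mul_le_mul_of_nonneg_left (by linarith) (by positivity)
    _ = _ := by ring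

theorem LV_conj (n : ℕ) (hn : 1 ≤ n) (t : ℝ) :
    (starRingEnd ℂ) ((n : ℂ) ^ (-(t * I))) = (n : ℂ) ^ ((t : ℂ) * I) := by
  have h0 : (n : ℂ) ≠ 0 := by exact_mod_cast (by omega : n ≠ 0)
  rw [cpow_def_of_ne_zero h0, cpow_def_of_ne_zero h0, ← exp_conj, ← natCast_log]
  congr 1
  simp only [map_mul, map_neg, conj_ofReal, conj_I]
  ring

theorem LV_FF {q₁ q₂ : ℕ} (χ₁ : DirichletCharacter ℂ q₁) (χ₂ : DirichletCharacter ℂ q₂) (t₁ t₂ : ℝ) (n : ℕ) (hn : 1 ≤ n) :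
    (χ₁ (n : ZMod q₁) * (n : ℂ) ^ (-(t₁ * I))) * (starRingEnd ℂ) (χ₂ (n : ZMod q₂) * (n : ℂ) ^ (-(t₂ * I))) =
      (χ₁ (n : ZMod q₁) * (starRingEnd ℂ) (χ₂ (n : ZMod q₂))) * (n : ℂ) ^ (-(((t₁ - t₂ : ℝ) : ℂ) * I)) := by
  have h0 : (n : ℂ) ≠ 0 := by exact_mod_cast (by omega : n ≠ 0)
  rw [map_mul, LV_conj n hn]
  have : (-(((t₁ - t₂ : ℝ) : ℂ) * I)) = -(t₁ * I) + t₂ * I := by push_cast; ring
  rw [this, cpow_add _ _ h0]
  ring

theorem LV_combine {σ : Type*} (S : Finset (σ × ℝ)) (η L C₀ E : ℝ) (hη : 0 < η) (hL : 1 ≤ η * L)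
    (hC₀ : 0 ≤ C₀) (hE : 0 ≤ E) (hsep : ∀ i ∈ S, ∀ j ∈ S, i ≠ j → i.1 = j.1 → η ≤ |i.2 - j.2|)
    (K : σ × ℝ → σ × ℝ → ℝ) (hoff : ∀ i ∈ S, ∀ j ∈ S, i.1 ≠ j.1 → K i j ≤ E)
    (hsame : ∀ i ∈ S, ∀ j ∈ S, i.1 = j.1 → K i j ≤ C₀ / (1 + ((i.2 - j.2) * L) ^ 2) + E) :
    ∑ i ∈ S, ∑ j ∈ S, K i j ≤ 5 * C₀ * S.card + E * (S.card : ℝ) ^ 2 := by
  classical
  have key : ∀ i ∈ S, ∑ j ∈ S, K i j ≤ 5 * C₀ + E * S.card := by
    intro i hi
    have s1 : ∑ j ∈ S, K i j ≤ ∑ j ∈ S, ((if i.1 = j.1 then C₀ / (1 + ((i.2 - j.2) * L) ^ 2) else 0) + E) := by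
      refine Finset.sum_le_sum fun j hj => ?_
      by_cases h : i.1 = j.1
      · rw [if_pos h]; exact hsame i hi j hj h
      · rw [if_neg h, zero_add]; exact hoff i hi j hj h
    have s2 : ∑ j ∈ S, (if i.1 = j.1 then C₀ / (1 + ((i.2 - j.2) * L) ^ 2) else 0) ≤ 5 * C₀ := by
      rw [← Finset.sum_filter]
      have hinj : Set.InjOn (fun j : σ × ℝ => j.2) (S.filter (fun j => i.1 = j.1) : Set (σ × ℝ)) := by
        intro x hx y hy hxy
        have hx' := (Finset.mem_filter.1 hx).2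
        have hy' := (Finset.mem_filter.1 hy).2
        exact Prod.ext (hx'.symm.trans hy') hxy
      have e : ∑ j ∈ S.filter (fun j => i.1 = j.1), C₀ / (1 + ((i.2 - j.2) * L) ^ 2) =
          C₀ * ∑ t ∈ (S.filter (fun j => i.1 = j.1)).image (fun j => j.2), 1 / (1 + ((i.2 - t) * L) ^ 2) := by
        rw [Finset.sum_image (f := fun t : ℝ => 1 / (1 + ((i.2 - t) * L) ^ 2)) hinj, Finset.mul_sum]
        exact Finset.sum_congr rfl fun j _ => by ring
      rw [e]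
      have := sum_sep ((S.filter (fun j => i.1 = j.1)).image (fun j => j.2)) η L hη hL ?_ i.2
        (Finset.mem_image.2 ⟨i, Finset.mem_filter.2 ⟨hi, rfl⟩, rfl⟩)
      · nlinarith
      · intro s hs t ht hst
        obtain ⟨x, hx, rfl⟩ := Finset.mem_image.1 hs
        obtain ⟨y, hy, rfl⟩ := Finset.mem_image.1 ht
        rw [Finset.mem_filter] at hx hy
        exact hsep x hx.1 y hy.1 (fun hc => hst (by rw [hc])) (hx.2.symm.trans hy.2)
    rw [Finset.sum_add_distrib, Finset.sum_const, nsmul_eq_mul] at s1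
    linarith
  calc _ ≤ ∑ i ∈ S, (5 * C₀ + E * S.card) := Finset.sum_le_sum key
    _ = _ := by rw [Finset.sum_const, nsmul_eq_mul]; ring

theorem LV_final (n b P Q E : ℝ) (hn : 0 ≤ n) (hb : 0 < b) (h : (n * b⁻¹) ^ 2 ≤ P * (5 * Q * n + E * n ^ 2))
    (hE : P * E ≤ 1 / (2 * b ^ 2)) (hPQ : 0 ≤ P * Q) : n ≤ 10 * Q * P * b ^ 2 := by
  rcases hn.eq_or_lt with h0 | h0
  · rw [← h0]
    have : 0 ≤ P * Q * b ^ 2 := by positivity
    linarith
  have h1 : P * (5 * Q * n + E * n ^ 2) ≤ 5 * Q * P * n + n ^ 2 / (2 * b ^ 2) := by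
    have : (P * E) * n ^ 2 ≤ 1 / (2 * b ^ 2) * n ^ 2 := mul_le_mul_of_nonneg_right hE (by positivity)
    calc P * (5 * Q * n + E * n ^ 2) = 5 * Q * P * n + (P * E) * n ^ 2 := by ring
      _ ≤ 5 * Q * P * n + 1 / (2 * b ^ 2) * n ^ 2 := by linarith
      _ = _ := by ring
  have h2 : (n * b⁻¹) ^ 2 = n ^ 2 / (2 * b ^ 2) + n ^ 2 / (2 * b ^ 2) := by field_simp; ring
  have h3 : n ^ 2 / (2 * b ^ 2) ≤ 5 * Q * P * n := by linarith
  rw [div_le_iff₀ (by positivity)] at h3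
  have h4 : n * n ≤ n * (10 * Q * P * b ^ 2) := by nlinarith only [h3]
  exact le_of_mul_le_mul_left h4 h0

theorem LV_pow (k : ℕ) (hk : 1 ≤ k) (A B Q : ℝ) (hB : 1 ≤ B) (hQ : 0 ≤ Q) (hA : 10 * Q * k ^ 2 * (B ^ k) ^ 2 = A) :
    A ≤ (Real.exp (10 * Q + 2) * B ^ 2) ^ k := by
  have hk1 : (1 : ℝ) ≤ k := by exact_mod_cast hk
  have e1 : (k : ℝ) ≤ Real.exp k := by have := Real.add_one_le_exp (k : ℝ); linarith
  have e2 : 10 * Q ≤ Real.exp (k * (10 * Q)) := by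
    have h := Real.add_one_le_exp ((k : ℝ) * (10 * Q))
    have : 10 * Q ≤ k * (10 * Q) := le_mul_of_one_le_left (by positivity) hk1
    linarith
  have e3 : (Real.exp (10 * Q + 2)) ^ k = Real.exp (k * (10 * Q)) * (Real.exp k) ^ 2 := by
    rw [← Real.exp_nat_mul, ← Real.exp_nat_mul, ← Real.exp_add]
    congr 1; push_cast; ring
  rw [mul_pow, e3, ← hA, ← pow_mul, ← pow_mul, mul_comm k 2]
  refine mul_le_mul_of_nonneg_right ?_ (by positivity)
  exact mul_le_mul e2 (pow_le_pow_left₀ (by positivity) e1 2) (by positivity) (Real.exp_pos _).le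

/-- **The large values theorem.**

Proof. Let `V` be from `exists_bump ca Ca`, `C₀` from `kernel_same`, `K₂ = 8 / ca`. Given `K₁ ≥ K₂` and `θ` take `c, C` common to `kernel_off (θ / 2)` and `kernel_same (θ / 2)`; they will be applied with `X ^ 2` in place of `X`
(`(θ / 2) log (X ^ 2) = θ log X =: L'`, and `|t_i - t_j| ≤ 2 X ≤ X ^ 2`). Let `L = k / η`. Then `L ≥ K₁ (1 + η L') / η ≥ K₁ L' ≥ 4 L' / ca` and `L ≥ K₁ / κ`, large. Let `z = exp (ca L / 8)` and `lam` from `selberg_exists hin z`, `b n = bV lam V L n`,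
`a p = (log p / p) η jk (k-1) (η log p)`, `P = PR ca Ca k η`, `N = Icc 1 ⌊exp (2 Ca L)⌋₊`, `F i n = χ_i n n ^ (-i t_i)`. For `p ∈ P`: `log p ≥ ca L`, so `p > z`, `lam p = 0`, `nu lam p = 1`, `ca ≤ log p / L ≤ Ca`, so `b p = 1 / p`. Hence
`∑ a p ^ 2 / b p = ∑ (log p / p) η jk (k-1) (x_p) (x_p jk (k-1) (x_p))` with `x_p = η log p`; `x jk (k-1) x = k jk k x ≤ k` and `jk ≤ 1`, so it is at most `k η ∑_{p ≤ exp (Ca L)} log p / p ≤ k η C' (1 + Ca L) ≤ C'' k ^ 2` (`sum_log_div`).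
By `halasz` and the hypothesis `((#S) B ^ (-k)) ^ 2 ≤ C'' k ^ 2 ∑_{i, j} |K_{ij}|`. For `i, j` with different characters: `kernel_off` for `f n = χ_i n conj (χ_j n)`, period `q_i q_j`, mean `0` (`mean_distinct`), completely multiplicative: `|K_ij| ≤ C X ^ (4 ε) exp (-c L)`.
(`n ^ (-i t_i) conj (n ^ (-i t_j)) = n ^ (-i (t_i - t_j))` for `n ≥ 1`.) For the same character: `χ conj χ = [(n, q) = 1]`, `kernel_same` (`q ≤ X ^ ε ≤ z`): `|K_ij| ≤ C₀ / (1 + ((t_i - t_j) L) ^ 2) + C X ^ (2 ε) exp (-c L)`, and by `sum_sep`, since `η L = k ≥ 1`, the sum of the first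
terms over the `j` with the character of `i` is at most `5 C₀`. So `(#S) ^ 2 B ^ (-2 k) ≤ C'' k ^ 2 (5 C₀ #S + (#S) ^ 2 C X ^ (4 ε) exp (-c L))`. With `ε = c θ / 16` (`K₁ ≥ 1`): `X ^ (4 ε) ≤ exp (c L / 2)`; and `exp (-c L / 2) = exp (-c k / (2 η)) ≤ B ^ (-2k) / (2 C C'' k ^ 2)`
for `η ≤ κ`, `κ` small. So the last term is at most half of the left side, and `#S ≤ 10 C₀ C'' k ^ 2 B ^ (2 k) ≤ C₅ ^ k`, where `C₅` depends only on `B, C₀, C''` (so on `B, ca, Ca`). -/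
theorem large_values [WI] (B ca Ca : ℝ) (hB : 1 ≤ B) (h1 : 0 < ca) (h1' : ca < 1) (h2 : 1 < Ca) :
    ∃ C₅ K₂ : ℝ, 1 ≤ C₅ ∧ 1 ≤ K₂ ∧ ∀ K₁ : ℝ, K₂ ≤ K₁ → ∀ θ : ℝ, 0 < θ → θ ≤ 1 →
    ∃ ε κ X₀ : ℝ, 0 < ε ∧ 0 < κ ∧ κ ≤ 1 / 16 ∧ 3 ≤ X₀ ∧ ∀ X : ℝ, X₀ ≤ X →
    ∀ η : ℝ, 1 / (θ * Real.log X) ≤ η → η ≤ κ → ∀ k : ℕ, K₁ * (1 + η * (θ * Real.log X)) ≤ k →
    ∀ S : Finset ((Σ r : ℕ, DirichletCharacter ℂ r) × ℝ),
    (∀ i ∈ S, 1 ≤ i.1.1 ∧ (i.1.1 : ℝ) ≤ X ^ ε ∧ i.1.2.IsPrimitive ∧ |i.2| ≤ X ∧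
      B ^ (-(k : ℝ)) ≤ ‖∑ p ∈ PR ca Ca k η, ((Real.log p * (1 / p) * (η * jk (k - 1) (η * Real.log p)) : ℝ) : ℂ) *
        (i.1.2 (p : ZMod i.1.1) * (p : ℂ) ^ (-(i.2 * I)))‖) →
    (∀ i ∈ S, ∀ j ∈ S, i ≠ j → i.1 = j.1 → η ≤ |i.2 - j.2|) → (S.card : ℝ) ≤ C₅ ^ k := by
  obtain ⟨V, hV⟩ := exists_bump ca Ca h1 (by linarith)
  obtain ⟨C₀, hC₀, hsame⟩ := kernel_same ca Ca h1 h1' h2 V hV
  have hoff := kernel_off ca Ca h1 h1' h2 V hV
  obtain ⟨C', hC', hlog⟩ := sum_log_div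
  have hca8 : 8 ≤ 8 / ca := by rw [le_div_iff₀ h1]; linarith
  have hB0 : 0 < B := by linarith
  have hlB : 0 ≤ Real.log B := Real.log_nonneg hB
  set C'' := C' * (1 + Ca) with hC''
  have hC''0 : 0 < C'' := by positivity
  refine ⟨Real.exp (10 * (C₀ * C'') + 2) * B ^ 2, 8 / ca, ?_, by linarith, ?_⟩
  · have e1 : 1 ≤ Real.exp (10 * (C₀ * C'') + 2) := Real.one_le_exp (by positivity)
    have e2 : 1 ≤ B ^ 2 := one_le_pow₀ hB
    calc (1 : ℝ) = 1 * 1 := by ring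
      _ ≤ _ := mul_le_mul e1 e2 zero_le_one (by positivity)
  intro K₁ hK₁ θ hθ hθ1
  obtain ⟨c₁, C₁, hc₁, hC₁, H1⟩ := hoff (θ / 2) (by positivity) (by linarith)
  obtain ⟨c₂, C₂, hc₂, hC₂, H2⟩ := hsame (θ / 2) (by positivity) (by linarith)
  set c := min (min c₁ c₂) 1 with hc
  have hc0 : 0 < c := by rw [hc]; positivity
  have hcc1 : c ≤ c₁ := (min_le_left _ _).trans (min_le_left _ _)
  have hcc2 : c ≤ c₂ := (min_le_left _ _).trans (min_le_right _ _)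
  have hcc3 : c ≤ 1 := min_le_right _ _
  set C := max C₁ C₂ with hC
  have hC0 : 0 < C := lt_of_lt_of_le hC₁ (le_max_left _ _)
  have hCC1 : C₁ ≤ C := le_max_left _ _
  have hCC2 : C₂ ≤ C := le_max_right _ _
  set M := 2 * C * C'' + 2 + 2 * Real.log B with hM
  have hM0 : 0 < M := by positivity
  refine ⟨c * θ / 16, min (1 / 16) (c / (2 * M)), 3, by positivity, by positivity, min_le_left _ _, le_rfl, ?_⟩
  intro X hX η hη1 hη2 k hk S hS hsep
  have hX0 : 0 < X := by linarith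
  have hlX : 1 ≤ Real.log X := by
    rw [Real.le_log_iff_exp_le hX0]
    have := Real.exp_one_lt_d9
    linarith
  have hη : 0 < η := lt_of_lt_of_le (by positivity) hη1
  have hηa : η ≤ 1 / 16 := hη2.trans (min_le_left _ _)
  have hηb : η ≤ c / (2 * M) := hη2.trans (min_le_right _ _)
  have hK₁8 : 8 ≤ K₁ := hca8.trans hK₁
  have hkr : K₁ ≤ k := by
    have : 0 ≤ K₁ * (η * (θ * Real.log X)) := by positivity
    have e : K₁ * (1 + η * (θ * Real.log X)) = K₁ + K₁ * (η * (θ * Real.log X)) := by ring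
    rw [e] at hk; linarith
  have hkr1 : (1 : ℝ) ≤ k := by linarith
  have hk1 : 1 ≤ k := by exact_mod_cast hkr1
  set L : ℝ := k / η with hLdef
  have hηL : η * L = k := by rw [hLdef]; field_simp
  have hL0 : 0 < L := by positivity
  have hL1 : K₁ ≤ L := by
    rw [hLdef, le_div_iff₀ hη]
    nlinarith only [hca8, hη, h1', h1, hK₁, hkr, hηa]
  have hL2 : K₁ * (θ * Real.log X) ≤ L := by
    rw [hLdef, le_div_iff₀ hη]
    have e : K₁ * (1 + η * (θ * Real.log X)) = K₁ + K₁ * (θ * Real.log X) * η := by ring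
    rw [e] at hk; linarith
  have hL3 : 8 / ca * (θ * Real.log X) ≤ L :=
    (mul_le_mul_of_nonneg_right hK₁ (by positivity)).trans hL2
  have hL4 : 8 / ca ≤ L := hK₁.trans hL1
  have hL5 : M * k ≤ c * L / 2 := by
    rw [le_div_iff₀ (by positivity)] at hηb
    have : η * (2 * M) * L ≤ c * L := mul_le_mul_of_nonneg_right hηb hL0.le
    have e : η * (2 * M) * L = 2 * (M * k) := by rw [← hηL]; ring
    rw [e] at this
    linarith
  have hL6 : θ * Real.log X ≤ ca * L / 8 := by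
    have e : 8 / ca * (θ * Real.log X) * (ca / 8) = θ * Real.log X := by field_simp
    have := mul_le_mul_of_nonneg_right hL3 (show 0 ≤ ca / 8 by positivity)
    rw [e] at this
    linarith
  have hL7 : θ * Real.log X ≤ L := by
    have : θ * Real.log X ≤ K₁ * (θ * Real.log X) := le_mul_of_one_le_left (by positivity) (by linarith)
    linarith
  have hlX2 : Real.log (X ^ 2) = 2 * Real.log X := by
    rw [Real.log_pow]; norm_num
  have hcond : 4 * (θ / 2 * Real.log (X ^ 2)) / ca ≤ L := by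
    rw [hlX2]
    have e : 4 * (θ / 2 * (2 * Real.log X)) / ca = 8 / ca * (θ * Real.log X) / 2 := by ring
    rw [e]
    have : 0 ≤ 8 / ca * (θ * Real.log X) := by positivity
    linarith
  have hX2 : 1 ≤ X ^ 2 := one_le_pow₀ (by linarith)
  obtain ⟨lam, hl1, hlb, hl0, hlf⟩ := selberg_exists hin (fun p hp => by
    unfold hin
    have h2' : (1 : ℝ) < p := by exact_mod_cast hp.one_lt
    refine ⟨by positivity, ?_⟩
    rw [div_lt_one (by positivity)]; exact h2') (Real.exp (ca * L / 8)) (Real.one_le_exp (by positivity))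
  -- the error term
  set E : ℝ := C * Real.exp (-(c * L) / 2) with hE
  have hXε : ∀ q : ℕ, (q : ℝ) ≤ X ^ (c * θ / 16) → (q : ℝ) ≤ Real.exp (c * L / 16) := by
    intro q hq
    refine hq.trans ?_
    rw [Real.rpow_def_of_pos hX0]
    apply Real.exp_le_exp.2
    have := mul_le_mul_of_nonneg_left hL7 (show 0 ≤ c / 16 by positivity)
    calc Real.log X * (c * θ / 16) = c / 16 * (θ * Real.log X) := by ring
      _ ≤ c / 16 * L := this
      _ = _ := by ring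
  have hqE : ∀ (q : ℕ) (c' C' : ℝ), c ≤ c' → C' ≤ C → 0 ≤ C' → (q : ℝ) ≤ Real.exp (c * L / 8) →
      C' * (q : ℝ) ^ 2 * Real.exp (-(c' * L)) ≤ E := by
    intro q c' C' hc' hC' hC'0 hq
    have e1 : (q : ℝ) ^ 2 ≤ Real.exp (c * L / 4) := by
      calc (q : ℝ) ^ 2 ≤ (Real.exp (c * L / 8)) ^ 2 := pow_le_pow_left₀ (Nat.cast_nonneg _) hq 2
        _ = Real.exp (c * L / 4) := by rw [← Real.exp_nat_mul]; congr 1; push_cast; ring
    have e2 : Real.exp (-(c' * L)) ≤ Real.exp (-(c * L)) := by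
      apply Real.exp_le_exp.2
      have := mul_le_mul_of_nonneg_right hc' hL0.le
      linarith
    calc C' * (q : ℝ) ^ 2 * Real.exp (-(c' * L)) ≤ C * Real.exp (c * L / 4) * Real.exp (-(c * L)) :=
          mul_le_mul (mul_le_mul hC' e1 (by positivity) hC0.le) e2 (Real.exp_pos _).le (by positivity)
      _ = C * Real.exp (c * L / 4 + -(c * L)) := by rw [mul_assoc, ← Real.exp_add]
      _ ≤ E := by
        rw [hE]
        refine mul_le_mul_of_nonneg_left (Real.exp_le_exp.2 ?_) hC0.le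
        have : 0 ≤ c * L := by positivity
        linarith
  -- duality
  set N : Finset ℕ := Icc 1 ⌊Real.exp (2 * Ca * L)⌋₊ with hN
  set b : ℕ → ℝ := bV lam V L with hb
  have hbpr : ∀ p ∈ PR ca Ca k η, b p = 1 / p := fun p hp =>
    LV_b ca Ca h1 V hV k hk1 η L hη hL0 hηL lam hl1 hl0 p hp
  have hbn : ∀ n, 0 ≤ b n := fun n => by
    show 0 ≤ nu lam n / n * V (Real.log n / L)
    exact mul_nonneg (div_nonneg (sq_nonneg _) (Nat.cast_nonneg _)) (hV.2.1 _).1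
  have hPN : PR ca Ca k η ⊆ N := by
    intro p hp
    unfold PR at hp
    rw [Finset.mem_filter] at hp
    obtain ⟨_, hpp, hp1, hp2⟩ := hp
    have hp0 : (0 : ℝ) < p := by exact_mod_cast hpp.pos
    rw [hN, Finset.mem_Icc]
    refine ⟨hpp.pos, Nat.le_floor ?_⟩
    rw [← hηL] at hp2
    have e2 : Real.log p ≤ Ca * L := by
      have : η * Real.log p ≤ η * (Ca * L) := by linarith
      exact le_of_mul_le_mul_left this hη
    calc (p : ℝ) = Real.exp (Real.log p) := (Real.exp_log hp0).symm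
      _ ≤ Real.exp (2 * Ca * L) := Real.exp_le_exp.2 (by nlinarith only [mul_pos (show 0 < Ca by linarith) hL0, hη, e2, hηa, h2])
  have hbp : ∀ p ∈ PR ca Ca k η, 0 < b p := fun p hp => by
    have h1p := (Finset.mem_Icc.1 (hPN hp)).1
    have h2p : (0 : ℝ) < p := by exact_mod_cast h1p
    rw [hbpr p hp]
    exact one_div_pos.2 h2p
  set F : ((Σ r : ℕ, DirichletCharacter ℂ r) × ℝ) → ℕ → ℂ := fun i n =>
    i.1.2 (n : ZMod i.1.1) * (n : ℂ) ^ (-(i.2 * I)) with hF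
  have hdual := halasz S (PR ca Ca k η) N hPN
    (fun p => Real.log p * (1 / p) * (η * jk (k - 1) (η * Real.log p))) b
    (fun n _ => hbn n) hbp F
  have hab := LV_sum_ab ca Ca h1 h2 C' hC' hlog k hk1 η L hη (by linarith) hL0 hηL b hbpr
  have hK : ∑ i ∈ S, ∑ j ∈ S, ‖∑ n ∈ N, (b n : ℂ) * (F i n * (starRingEnd ℂ) (F j n))‖ ≤
      5 * C₀ * S.card + E * (S.card : ℝ) ^ 2 := by
    refine LV_combine S η L C₀ E hη (by linarith only [hca8, hη, hηL, hK₁, hkr, hηa]) hC₀.le (by positivity) hsep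
      (fun i j => ‖∑ n ∈ N, (b n : ℂ) * (F i n * (starRingEnd ℂ) (F j n))‖) ?_ ?_
    · intro i hi j hj hij
      obtain ⟨hi1, hi2, hi3, hi4, _⟩ := hS i hi
      obtain ⟨hj1, hj2, hj3, hj4, _⟩ := hS j hj
      have e0 : ∑ n ∈ N, (b n : ℂ) * (F i n * (starRingEnd ℂ) (F j n)) =
          ∑ n ∈ N, (bV lam V L n : ℂ) * ((fun m : ℕ => i.1.2 (m : ZMod i.1.1) *
            (starRingEnd ℂ) (j.1.2 (m : ZMod j.1.1))) n * (n : ℂ) ^ (-(((i.2 - j.2 : ℝ) : ℂ) * I))) := by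
        refine Finset.sum_congr rfl fun n hn => ?_
        rw [hF]
        simp only
        rw [LV_FF _ _ _ _ n (Finset.mem_Icc.1 hn).1]
      simp only [] at e0
      show ‖∑ n ∈ N, (b n : ℂ) * (F i n * (starRingEnd ℂ) (F j n))‖ ≤ E
      rw [e0]
      refine (H1 (X ^ 2) hX2 L (by linarith only [hca8, hη, hL1, hK₁, hηa]) hcond (i.1.1 * j.1.1) (Nat.mul_pos hi1 hj1)
        (fun m : ℕ => i.1.2 (m : ZMod i.1.1) * (starRingEnd ℂ) (j.1.2 (m : ZMod j.1.1))) ?_ ?_ ?_ ?_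
        (i.2 - j.2) ?_ lam hlb hl0).trans ?_
      · intro n
        simp only [Nat.cast_add, Nat.cast_mul, ZMod.natCast_self, zero_mul, mul_zero, add_zero]
      · intro n
        rw [norm_mul, RCLike.norm_conj]
        exact mul_le_one₀ (DirichletCharacter.norm_le_one _ _) (norm_nonneg _) (DirichletCharacter.norm_le_one _ _)
      · intro m n
        simp only [Nat.cast_mul, map_mul]
        ring
      · exact mean_distinct i.1.1 j.1.1 hi1 hj1 i.1.2 j.1.2 hi3 hj3 hij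
      · calc |i.2 - j.2| ≤ |i.2| + |j.2| := abs_sub _ _
          _ ≤ X ^ 2 := by nlinarith only [hη, h1', h1, hi4, hX, hj4, hηa]
      · refine hqE _ _ _ hcc1 hCC1 hC₁.le ?_
        push_cast
        calc (i.1.1 : ℝ) * (j.1.1 : ℝ) ≤ Real.exp (c * L / 16) * Real.exp (c * L / 16) :=
              mul_le_mul (hXε _ hi2) (hXε _ hj2) (Nat.cast_nonneg _) (Real.exp_pos _).le
          _ = _ := by rw [← Real.exp_add]; congr 1; ring
    · intro i hi j hj hij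
      obtain ⟨hi1, hi2, hi3, hi4, _⟩ := hS i hi
      obtain ⟨hj1, hj2, hj3, hj4, _⟩ := hS j hj
      obtain ⟨⟨q, χ⟩, t⟩ := i
      obtain ⟨⟨q', χ'⟩, t'⟩ := j
      simp only at hij hi1 hi2 hi3 hi4 hj1 hj2 hj3 hj4
      cases hij
      have e0 : ∑ n ∈ N, (b n : ℂ) * (F (⟨q, χ⟩, t) n * (starRingEnd ℂ) (F (⟨q, χ⟩, t') n)) =
          ∑ n ∈ N.filter (fun n => n.Coprime q), (bV lam V L n : ℂ) * (n : ℂ) ^ (-(((t - t' : ℝ) : ℂ) * I)) := by
        rw [Finset.sum_filter]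
        refine Finset.sum_congr rfl fun n hn => ?_
        rw [hF]
        simp only
        rw [LV_FF _ _ _ _ n (Finset.mem_Icc.1 hn).1]
        split_ifs with hcop
        · have hu : ‖χ (n : ZMod q)‖ = 1 :=
            DirichletCharacter.unit_norm_eq_one χ (ZMod.unitOfCoprime n hcop)
          rw [Complex.mul_conj, Complex.normSq_eq_norm_sq, hu]
          norm_num [hb]
        · rw [χ.map_nonunit (by rwa [ZMod.isUnit_iff_coprime])]
          simp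
      show ‖∑ n ∈ N, (b n : ℂ) * (F (⟨q, χ⟩, t) n * (starRingEnd ℂ) (F (⟨q, χ⟩, t') n))‖ ≤
        C₀ / (1 + ((t - t') * L) ^ 2) + E
      rw [e0]
      have hq8 : (q : ℝ) ≤ Real.exp (c * L / 8) := (hXε _ hi2).trans (Real.exp_le_exp.2 (by
        have : 0 ≤ c * L := by positivity
        linarith only [this]))
      refine (H2 (X ^ 2) hX2 L (by linarith) hcond hL4 q hi1 ?_ (t - t') ?_ lam hlb hl0 hlf).trans ?_
      · refine hi2.trans ?_
        rw [Real.rpow_def_of_pos hX0]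
        apply Real.exp_le_exp.2
        have : c * (θ * Real.log X) ≤ 1 * (θ * Real.log X) := mul_le_mul_of_nonneg_right hcc3 (by positivity)
        have h0 : 0 ≤ θ * Real.log X := by positivity
        nlinarith only [this, h0, hL6]
      · calc |t - t'| ≤ |t| + |t'| := abs_sub _ _
          _ ≤ X ^ 2 := by nlinarith only [hη, h1', h1, hj4, hX, hi4, hηa]
      · have := hqE q c₂ C₂ hcc2 hCC2 hC₂.le hq8
        linarith only [this]
  -- conclusion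
  have hBk : B ^ (-(k : ℝ)) = (B ^ k)⁻¹ := by rw [Real.rpow_neg hB0.le, Real.rpow_natCast]
  have hlow : (S.card : ℝ) * (B ^ k)⁻¹ ≤ ∑ i ∈ S, ‖∑ p ∈ PR ca Ca k η,
      ((Real.log p * (1 / p) * (η * jk (k - 1) (η * Real.log p)) : ℝ) : ℂ) * F i p‖ := by
    rw [← nsmul_eq_mul, ← Finset.sum_const, ← hBk]
    exact Finset.sum_le_sum fun i hi => (hS i hi).2.2.2.2
  have hmain : ((S.card : ℝ) * (B ^ k)⁻¹) ^ 2 ≤ (C'' * (k : ℝ) ^ 2) * (5 * C₀ * S.card + E * (S.card : ℝ) ^ 2) := by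
    calc ((S.card : ℝ) * (B ^ k)⁻¹) ^ 2 ≤ _ := pow_le_pow_left₀ (by positivity) hlow 2
      _ ≤ _ := hdual
      _ ≤ _ := mul_le_mul hab hK (Finset.sum_nonneg fun i _ => Finset.sum_nonneg fun j _ => norm_nonneg _)
        (by positivity)
  have hEsmall : (C'' * (k : ℝ) ^ 2) * E ≤ 1 / (2 * (B ^ k) ^ 2) := by
    rw [le_div_iff₀ (by positivity)]
    have e1 : (k : ℝ) ≤ Real.exp k := by have := Real.add_one_le_exp (k : ℝ); linarith
    have e2 : 2 * C * C'' ≤ Real.exp (k * (2 * C * C'')) := by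
      have h := Real.add_one_le_exp ((k : ℝ) * (2 * C * C''))
      have : 2 * C * C'' ≤ k * (2 * C * C'') := le_mul_of_one_le_left (by positivity) hkr1
      linarith
    have e3 : (B ^ k) ^ 2 = Real.exp (k * (2 * Real.log B)) := by
      have : B ^ k = Real.exp (k * Real.log B) := by rw [Real.exp_nat_mul, Real.exp_log hB0]
      rw [this, ← Real.exp_nat_mul]; congr 1; push_cast; ring
    have e4 : Real.exp (-(c * L) / 2) ≤ Real.exp (-(M * k)) := Real.exp_le_exp.2 (by linarith)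
    have e5 : (k : ℝ) ^ 2 ≤ Real.exp (k * 2) := by
      calc (k : ℝ) ^ 2 ≤ (Real.exp k) ^ 2 := pow_le_pow_left₀ (by positivity) e1 2
        _ = _ := by rw [← Real.exp_nat_mul]; congr 1; push_cast; ring
    calc C'' * (k : ℝ) ^ 2 * E * (2 * (B ^ k) ^ 2)
        = (2 * C * C'') * (k : ℝ) ^ 2 * (B ^ k) ^ 2 * Real.exp (-(c * L) / 2) := by rw [hE]; ring
      _ ≤ Real.exp (k * (2 * C * C'')) * Real.exp (k * 2) * Real.exp (k * (2 * Real.log B)) * Real.exp (-(M * k)) := by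
          rw [← e3]
          exact mul_le_mul (mul_le_mul_of_nonneg_right (mul_le_mul e2 e5 (by positivity) (Real.exp_pos _).le)
            (by positivity)) e4 (Real.exp_pos _).le (by positivity)
      _ = 1 := by
          rw [← Real.exp_add, ← Real.exp_add, ← Real.exp_add, Real.exp_eq_one_iff, hM]; ring
  have hfin := LV_final (S.card : ℝ) (B ^ k) (C'' * (k : ℝ) ^ 2) C₀ E (Nat.cast_nonneg _) (by positivity) hmain
    hEsmall (by positivity)
  refine hfin.trans ?_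
  refine LV_pow k hk1 _ B (C₀ * C'') hB (by positivity) ?_
  ring

end Pool.Agent.PSG
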