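import Pool.Agent.W_b58c63_h44.DHd
import Pool.Agent.W_b58c63_h44.LV

/-!
# The Deuring-Heilbronn phenomenon
-/

set_option autoImplicit false

noncomputable section

open Finset Complex

namespace Pool.Agent.PSG

open Pool.Agent.Wb58c63 (chi12)

/-- thresholds -/
theorem DHe_thr (θ c c₁ c' r₁ X₁ : ℝ) (hθ : 0 < θ) (hc : 0 < c) (hc₁ : 0 < c₁) (hc' : 0 < c') (hr₁ : 0 < r₁) :
    ∃ X₀ : ℝ, 3 ≤ X₀ ∧ X₁ ≤ X₀ ∧ ∀ X : ℝ, X₀ ≤ X → Real.log 4 ≤ θ * Real.log X ∧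
      1 / c' ≤ X ^ (θ * c / 16) ∧ 8 ≤ X ^ (10 * θ * c) ∧
      θ * Real.log X / c₁ ≤ X ^ (θ * c / 8) ∧ c₁ / (2 * r₁) ≤ θ * Real.log X := by
  have hlog : Filter.Tendsto (fun X : ℝ => θ * Real.log X) Filter.atTop Filter.atTop :=
    Real.tendsto_log_atTop.const_mul_atTop hθ
  have e1 := hlog.eventually_ge_atTop (Real.log 4)
  have e2 := (tendsto_rpow_atTop (y := θ * c / 16) (by positivity)).eventually_ge_atTop (1 / c')
  have e3 := (tendsto_rpow_atTop (y := 10 * θ * c) (by positivity)).eventually_ge_atTop 8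
  have e5 := hlog.eventually_ge_atTop (c₁ / (2 * r₁))
  have e4 := (isLittleO_log_rpow_atTop (r := θ * c / 8) (by positivity)).bound
    (c := c₁ / θ) (by positivity)
  have hall := ((((e1.and e2).and e3).and e5).and e4).and (Filter.eventually_ge_atTop (3 : ℝ))
  obtain ⟨X₂, hX₂⟩ := Filter.eventually_atTop.1 hall
  refine ⟨max (max X₂ X₁) 3, le_max_right _ _, (le_max_right _ _).trans (le_max_left _ _), fun X hX => ?_⟩
  obtain ⟨⟨⟨⟨⟨h1, h2⟩, h3⟩, h5⟩, h4⟩, h6⟩ := hX₂ X ((le_max_left _ _).trans ((le_max_left _ _).trans hX))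
  refine ⟨h1, h2, h3, ?_, h5⟩
  have hX0 : 0 < X := by linarith
  rw [Real.norm_eq_abs, Real.norm_eq_abs, abs_of_nonneg (Real.log_nonneg (by linarith)),
    abs_of_nonneg (Real.rpow_nonneg hX0.le _)] at h4
  rw [div_le_iff₀ hc₁]
  calc θ * Real.log X ≤ θ * (c₁ / θ * X ^ (θ * c / 8)) := by gcongr
    _ = X ^ (θ * c / 8) * c₁ := by field_simp

/-- two different primitive characters, one of them real -/
theorem DHe_ne {q r : ℕ} (hq : 1 ≤ q) (hr : 1 ≤ r) (ψ : DirichletCharacter ℂ q) (χ : DirichletCharacter ℂ r)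
    (hψ : ψ.IsPrimitive) (hχ : χ.IsPrimitive) (h2 : χ ^ 2 = 1)
    (hne : (⟨q, ψ⟩ : Σ r : ℕ, DirichletCharacter ℂ r) ≠ ⟨r, χ⟩) : chi12 ψ χ ≠ 1 := by
  intro h1
  haveI : NeZero (q * r) := ⟨by positivity⟩
  have h := mean_distinct q r hq hr ψ χ hψ hχ hne
  have e : (fun n : ℕ => ψ (n : ZMod q) * (starRingEnd ℂ) (χ (n : ZMod r))) =
      fun n : ℕ => (1 : DirichletCharacter ℂ (q * r)) (n : ZMod (q * r)) := by
    funext n
    rw [EFb_conj_val χ h2, ← Pool.Agent.Wb58c63.chi12_apply, h1]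
  rw [e] at h
  unfold mean at h
  rw [LV_sum_range (q * r) (fun x => (1 : DirichletCharacter ℂ (q * r)) x)] at h
  classical
  have h3 := MulChar.sum_one_eq_card_units (R := ZMod (q * r)) (R' := ℂ)
  have h4 : ∑ x : ZMod (q * r), (1 : DirichletCharacter ℂ (q * r)) x = (Fintype.card (ZMod (q * r))ˣ : ℂ) := h3
  rw [h4] at h
  have h5 : (Fintype.card (ZMod (q * r))ˣ : ℂ) ≠ 0 := by
    have : 0 < Fintype.card (ZMod (q * r))ˣ := Fintype.card_pos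
    exact_mod_cast this.ne'
  have h6 : ((q * r : ℕ) : ℂ) ≠ 0 := by exact_mod_cast (NeZero.ne (q * r))
  exact (div_ne_zero h5 h6) h

/-- the terms with `n ≥ 2` -/
theorem DHe_rest {r : ℕ} (χ : DirichletCharacter ℂ r) (h2 : χ ^ 2 = 1) (lam : ℕ → ℝ) (hl1 : lam 1 = 1)
    (β Z u : ℝ) (hβ : β ≤ 1) (hZ : 1 ≤ Z) (hu : 0 ≤ u) (ρ : ℂ) (hρ : ρ.re = 1 - u)
    (g : ℕ → ℂ) (hg : ∀ n, ‖g n‖ ≤ 1) (hg1 : g 1 = 1) :
    ‖(∑ n ∈ Icc 1 ⌊2 * Z⌋₊, (nu lam n : ℂ) * (χ.zetaMul n * g n * (n : ℂ) ^ (-ρ) * (ww (n / Z) : ℂ))) - 1‖ ≤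
      (2 * Z) ^ u * (mass χ lam β Z - 1) := by
  have hmem : 1 ∈ Icc 1 ⌊2 * Z⌋₊ := by
    rw [Finset.mem_Icc]
    exact ⟨le_rfl, Nat.le_floor (by push_cast; linarith)⟩
  have hnu1 : nu lam 1 = 1 := by
    unfold nu
    rw [Nat.divisors_one, Finset.sum_singleton, hl1, one_pow]
  have hw1 : ww ((1 : ℕ) / Z) = 1 := by
    apply ww_facts.2.1
    rw [Nat.cast_one, div_le_one (by linarith)]
    exact hZ
  unfold mass
  rw [← Finset.add_sum_erase _ _ hmem, ← Finset.add_sum_erase _ (fun n => nu lam n * (χ.zetaMul n).re *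
    (n : ℝ) ^ (-β) * ww (n / Z)) hmem]
  have e1 : (nu lam 1 : ℂ) * (χ.zetaMul 1 * g 1 * ((1 : ℕ) : ℂ) ^ (-ρ) * (ww ((1 : ℕ) / Z) : ℂ)) = 1 := by
    rw [hnu1, (zm_facts χ h2).2, hg1, hw1, Nat.cast_one, Complex.one_cpow]
    simp
  have e2 : nu lam 1 * (χ.zetaMul 1).re * ((1 : ℕ) : ℝ) ^ (-β) * ww ((1 : ℕ) / Z) = 1 := by
    rw [hnu1, (zm_facts χ h2).2, hw1, Nat.cast_one, Real.one_rpow]
    simp
  rw [e1, e2, add_sub_cancel_left, add_sub_cancel_left, Finset.mul_sum]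
  refine (norm_sum_le _ _).trans (Finset.sum_le_sum fun n hn => ?_)
  rw [Finset.mem_erase, Finset.mem_Icc] at hn
  obtain ⟨_, hn1, hn2⟩ := hn
  have hn0 : (1 : ℝ) ≤ n := by exact_mod_cast hn1
  have hnZ : (n : ℝ) ≤ 2 * Z := (Nat.le_floor_iff (by linarith)).1 hn2
  have hnu : 0 ≤ nu lam n := by unfold nu; positivity
  obtain ⟨hz0, hzi⟩ := (zm_facts χ h2).1 n
  have hzn : ‖χ.zetaMul n‖ = (χ.zetaMul n).re := by
    have h3 : χ.zetaMul n = (((χ.zetaMul n).re : ℝ) : ℂ) := Complex.ext rfl (by rw [Complex.ofReal_im]; exact hzi)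
    rw [h3, Complex.norm_real, Real.norm_eq_abs, Complex.ofReal_re, abs_of_nonneg hz0]
  have hw := (ww_facts.1 ((n : ℝ) / Z)).1
  have hnorm : ‖(n : ℂ) ^ (-ρ)‖ = (n : ℝ) ^ (-(1 - u)) := by
    rw [Complex.norm_natCast_cpow_of_pos (by omega), Complex.neg_re, hρ]
  have hpow : (n : ℝ) ^ (-(1 - u)) ≤ (n : ℝ) ^ (-β) * (2 * Z) ^ u := by
    have h3 : (n : ℝ) ^ (-(1 - u)) = (n : ℝ) ^ (-1 : ℝ) * (n : ℝ) ^ u := by
      rw [← Real.rpow_add (by linarith)]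
      congr 1
      ring
    rw [h3]
    apply mul_le_mul _ _ (by positivity) (by positivity)
    · exact Real.rpow_le_rpow_of_exponent_le hn0 (by linarith)
    · exact Real.rpow_le_rpow (by linarith) hnZ hu
  rw [norm_mul, norm_mul, norm_mul, norm_mul, hzn, hnorm, Complex.norm_real, Complex.norm_real,
    Real.norm_eq_abs, Real.norm_eq_abs, abs_of_nonneg hnu, abs_of_nonneg hw]
  calc nu lam n * ((χ.zetaMul n).re * ‖g n‖ * (n : ℝ) ^ (-(1 - u)) * ww (n / Z))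
      ≤ nu lam n * ((χ.zetaMul n).re * 1 * ((n : ℝ) ^ (-β) * (2 * Z) ^ u) * ww (n / Z)) := by
        gcongr
        exact hg n
    _ = (2 * Z) ^ u * (nu lam n * (χ.zetaMul n).re * (n : ℝ) ^ (-β) * ww (n / Z)) := by ring

theorem DHe_GG {r : ℕ} (χ : DirichletCharacter ℂ r) (h2 : χ ^ 2 = 1) (z : ℝ) (hz : 1 ≤ z) : 0 < GG (hx χ) z := by
  unfold GG
  refine Finset.sum_pos (fun d _ => Sel_gg_pos _ (fun p hp => hx_bounds χ h2 p hp) d) ⟨1, ?_⟩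
  exact Sel_mem.2 ⟨le_rfl, by exact_mod_cast hz, squarefree_one⟩

/-- the main term -/
theorem DHe_main {r : ℕ} [NeZero r] (χ : DirichletCharacter ℂ r) (G Z δ u w : ℝ) (hG : 0 < G) (hZ : 1 ≤ Z)
    (hδ : 0 < δ) (hu : 0 ≤ u) (hu1 : u ≤ 1) (ρ : ℂ) (hρ : ρ.re = 1 - u) (hw : 0 < w) (hw1 : w ≤ ‖1 - ρ‖)
    (hL : ‖DirichletCharacter.LFunction χ 1‖ ≤ 3 * δ * G) :
    ‖DirichletCharacter.LFunction χ 1 * ((Z : ℝ) : ℂ) ^ (1 - ρ) * VV (1 - ρ) / ((1 - ρ) * (G : ℂ))‖ ≤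
      12 * (δ * (1 / w)) * Z ^ u := by
  have hre : (1 - ρ).re = u := by rw [Complex.sub_re, Complex.one_re, hρ]; ring
  have hV : ‖VV (1 - ρ)‖ ≤ 4 := VV_facts.2.2.1 _ (by rw [hre]; linarith)
  rw [norm_div, norm_mul, norm_mul, norm_mul, Complex.norm_real, Real.norm_eq_abs, abs_of_pos hG,
    Complex.norm_cpow_eq_rpow_re_of_pos (by linarith), hre]
  have h1 : 0 < ‖1 - ρ‖ := by linarith
  rw [div_le_iff₀ (by positivity)]
  have h3 : 1 ≤ (1 / w) * ‖1 - ρ‖ := by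
    rw [one_div, inv_mul_eq_div, le_div_iff₀ hw]
    linarith
  have hZu : 0 < Z ^ u := Real.rpow_pos_of_pos (by linarith) _
  calc ‖DirichletCharacter.LFunction χ 1‖ * Z ^ u * ‖VV (1 - ρ)‖ ≤ 3 * δ * G * Z ^ u * 4 := by gcongr
    _ = 12 * δ * G * Z ^ u * 1 := by ring
    _ ≤ 12 * δ * G * Z ^ u * ((1 / w) * ‖1 - ρ‖) := by gcongr
    _ = 12 * (δ * (1 / w)) * Z ^ u * (‖1 - ρ‖ * G) := by ring

/-- the final inequality -/
theorem DHe_fin (c₁ CF t Y Y' : ℝ) (hc₁ : 0 < c₁) (hCF : CF = 2 * (195 + 12 / c₁)) (ht : 0 ≤ t) (hY : 0 ≤ Y) (hYY : Y ≤ Y')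
    (h : 7 / 8 ≤ 195 * t * Y + 12 / c₁ * t * Y) : 1 ≤ CF * t * Y' := by
  have h1 : 0 < 12 / c₁ := by positivity
  have h2 : 7 / 8 ≤ (195 + 12 / c₁) * (t * Y) := by linarith
  have h3 : (195 + 12 / c₁) * (t * Y) ≤ (195 + 12 / c₁) * (t * Y') := by gcongr
  rw [hCF]
  nlinarith

/-- **The Deuring-Heilbronn phenomenon**: a real zero `β` of a real character repels all the other zeros up to height `X`. The constant
`CF` depends on `c₁` only.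

Proof. Take `c, ε', C, X₀'` from `dh_mass θ`; `κ = c` (and `κ ≤ 1/16`, `κ ≤ r₁`, `r₁` from `zeta_near_one`), `ε = min ε' (θ c / 16)`, `z = X ^ (8 θ)`, `Z = X ^ (64 θ)`, `δ = 1 - β`, `u = 1 - ρ.re`. By `beta_lower 1`: `δ ≥ c' r ^ (-1) ≥ c' X ^ (-ε) ≥ X ^ (-θ c / 8)` for large `X`. `log (4 Z) ≤ 65 θ log X` for large `X`.
If `δ log (4 Z) > 1` then `1 ≤ 65 θ δ log X` and the claim holds with `CF ≥ 65` (`X ^ (CF θ u) ≥ 1`; `u > 0` by `EF_ne_zero`). Let `δ log (4 Z) ≤ 1`. Let `lam` be from `selberg_exists (hx χ) z`, `M = mass χ lam β Z ≤ 1 + 3 δ log (4 Z)`. The term `n = 1` of `M` is `1` (`nu lam 1 = 1`, `zetaMul 1 = 1`, `ww (1/Z) = 1`), the others are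
nonnegative, so their sum is at most `3 δ log (4 Z)`. For `n ≤ 2 Z`: `n ^ (-(1 - u)) = n ^ (-β) n ^ (u - δ) ≤ n ^ (-β) (2 Z) ^ u` (`n ≥ 1`, `δ > 0`).
Case 1: `ψ ≠ 1` and `(q, ψ) ≠ (r, χ)`. Then `chi12 ψ χ ≠ 1` (if it were `1`, `ψ n χ n = 1` for all `n` prime to `q r`, and `χ` real, so `ψ n = χ n = conj χ n`; `mean_distinct` says that the mean of `ψ conj χ` is `0`, but it would be the mean of the principal character, a contradiction). The first part of `dh_mass` for `s = ρ` (`EF ψ ρ = LFunction ψ ρ = 0`) gives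
`‖T‖ ≤ 1 / 8` for the twisted sum `T = 1 + ∑_{n ≥ 2}`, and `‖∑_{n ≥ 2}‖ ≤ (2 Z) ^ u 3 δ log (4 Z)`. So `7/8 ≤ 3 (2 Z) ^ u δ log (4 Z) ≤ 195 θ δ log X X ^ (65 θ u)` (`2 Z ≤ X ^ (65 θ)`).
Case 2: `ψ = 1` (so `q = 1`, a primitive principal character has conductor `1`) or `(q, ψ) = (r, χ)` and `ρ ≠ β`. Then `ζ(ρ) LFunction χ ρ = 0` (`EF_zero_one`), `ρ ≠ 1`, and `‖1 - ρ‖ ≥ c₁ / (θ log X)` for large `X` (hypothesis, resp. `‖1 - ρ‖ ≥ 2 r₁` from `zeta_near_one`), in particular `‖1 - ρ‖ ≥ X ^ (-θ c / 8)`. The second part of `dh_mass`: the untwisted sum `T = 1 + ∑_{n ≥ 2}` at `s = ρ`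
differs by at most `X ^ (-10 θ c) ≤ 1 / 8` from `LFunction χ 1 Z ^ (1 - ρ) VV (1 - ρ) / ((1 - ρ) G)`, of norm at most `3 δ Z ^ u 4 / ‖1 - ρ‖ ≤ (12 / c₁) δ Z ^ u θ log X`. So `7 / 8 ≤ 3 (2 Z) ^ u δ log (4 Z) + (12 / c₁) θ δ log X Z ^ u`, and the claim follows with `CF = 2 (195 + 12 / c₁)`. -/
theorem DH [WI] (c₁ : ℝ) (hc₁ : 0 < c₁) : ∃ CF : ℝ, 1 ≤ CF ∧ ∀ θ : ℝ, 0 < θ → θ ≤ 1 / 65 →
    ∃ ε κ X₀ : ℝ, 0 < ε ∧ 0 < κ ∧ κ ≤ 1 / 16 ∧ 3 ≤ X₀ ∧ ∀ X : ℝ, X₀ ≤ X →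
    ∀ (r : ℕ) (χ : DirichletCharacter ℂ r), 1 ≤ r → (r : ℝ) ≤ X ^ ε → χ.IsPrimitive → χ ≠ 1 → χ ^ 2 = 1 →
    ∀ β : ℝ, 1 - κ ≤ β → β < 1 → EF χ (β : ℂ) = 0 →
    (∀ ρ' : ℂ, EF χ ρ' = 0 → |ρ'.im| ≤ X → ρ' ≠ (β : ℂ) → c₁ / (θ * Real.log X) ≤ ‖1 - ρ'‖) →
    ∀ (q : ℕ) (ψ : DirichletCharacter ℂ q), 1 ≤ q → (q : ℝ) ≤ X ^ ε → ψ.IsPrimitive →
    ∀ ρ : ℂ, EF ψ ρ = 0 → 1 - κ ≤ ρ.re → |ρ.im| ≤ X →
    ((⟨q, ψ⟩ : Σ r : ℕ, DirichletCharacter ℂ r) ≠ ⟨r, χ⟩ ∨ ρ ≠ (β : ℂ)) →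
    1 ≤ CF * (θ * ((1 - β) * Real.log X)) * X ^ (CF * (θ * (1 - ρ.re))) := by
  obtain ⟨r₁, hr₁, hr₁', hz⟩ := zeta_near_one
  obtain ⟨c', hc', hbl⟩ := beta_lower 1 one_pos
  obtain ⟨CF, hCF⟩ : ∃ CF : ℝ, CF = 2 * (195 + 12 / c₁) := ⟨_, rfl⟩
  have hCF' : 390 ≤ CF := by
    have : 0 < 12 / c₁ := by positivity
    linarith
  refine ⟨CF, by linarith, fun θ hθ hθ1 => ?_⟩
  obtain ⟨c, ε', C, X₁, hc, hc1, hε', hε'1, hC, hX₁, H⟩ := dh_mass θ hθ (by linarith)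
  obtain ⟨X₀, hX₀3, hX₀1, hthr⟩ := DHe_thr θ c c₁ c' r₁ X₁ hθ hc hc₁ hc' hr₁
  refine ⟨min ε' (θ * c / 16), min c r₁, X₀, by positivity, by positivity,
    (min_le_left _ _).trans hc1, hX₀3, fun X hX r χ hr hrX hχp hχ1 hχ2 β hβκ hβ1 hβ0 hsep q ψ hq hqX hψp ρ hρ0 hρκ hρX hne => ?_⟩
  obtain ⟨t1, t2, t3, t4, t5⟩ := hthr X hX
  obtain ⟨HA, HB⟩ := H X (hX₀1.trans hX)
  have hX3 : 3 ≤ X := hX₀3.trans hX
  have hX0 : 0 < X := by linarith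
  have hX1 : 1 ≤ X := by linarith
  haveI : NeZero r := ⟨by omega⟩
  haveI : NeZero q := ⟨by omega⟩
  have hlogX : 0 ≤ Real.log X := Real.log_nonneg hX1
  have hκc : min c r₁ ≤ c := min_le_left _ _
  have hεε : ∀ y : ℝ, y ≤ X ^ min ε' (θ * c / 16) → y ≤ X ^ ε' := fun y hy =>
    hy.trans (Real.rpow_le_rpow_of_exponent_le hX1 (min_le_left _ _))
  have hθc : 0 < θ * c := by positivity
  -- the real zero
  have hLβ : DirichletCharacter.LFunction χ (β : ℂ) = 0 := by rw [← EF_eq_of_ne χ hχ1]; exact hβ0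
  obtain ⟨δ, hδ⟩ : ∃ δ : ℝ, δ = 1 - β := ⟨_, rfl⟩
  have hδ0 : 0 < δ := by linarith
  have hpowc : X ^ (-(θ * c / 8)) ≤ δ := by
    have h1 := hbl r χ hr hχp hχ1 hχ2 β (by linarith) hβ1 hβ0
    rw [← hδ] at h1
    refine le_trans ?_ h1
    have h3 : (X ^ (θ * c / 16))⁻¹ ≤ (r : ℝ) ^ (-1 : ℝ) := by
      rw [Real.rpow_neg_one]
      apply inv_anti₀ (by exact_mod_cast hr)
      exact hrX.trans (Real.rpow_le_rpow_of_exponent_le hX1 (min_le_right _ _))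
    have h4 : 0 < X ^ (θ * c / 16) := Real.rpow_pos_of_pos hX0 _
    have h5 : X ^ (-(θ * c / 8)) = (X ^ (θ * c / 16))⁻¹ * (X ^ (θ * c / 16))⁻¹ := by
      rw [← mul_inv, ← Real.rpow_add hX0, Real.rpow_neg hX0.le]
      congr 2
      ring
    rw [h5]
    apply mul_le_mul _ h3 (by positivity) hc'.le
    rw [inv_le_comm₀ h4 hc']
    rw [one_div] at t2
    exact t2
  -- the other zero
  obtain ⟨u, hu⟩ : ∃ u : ℝ, u = 1 - ρ.re := ⟨_, rfl⟩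
  have hρre : ρ.re = 1 - u := by linarith
  have hu0 : 0 < u := by
    by_contra hcon
    exact EF_ne_zero ψ ρ (by linarith) hρ0
  have hu1 : u ≤ c := by linarith
  rw [← hδ, ← hu]
  obtain ⟨t, ht⟩ : ∃ t : ℝ, t = θ * (δ * Real.log X) := ⟨_, rfl⟩
  have ht0 : 0 ≤ t := by rw [ht]; positivity
  rw [← ht]
  obtain ⟨Z, hZ⟩ : ∃ Z : ℝ, Z = X ^ (64 * θ) := ⟨_, rfl⟩
  have hZ1 : 1 ≤ Z := by rw [hZ]; exact Real.one_le_rpow hX1 (by positivity)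
  have hlogZ : Real.log (4 * Z) ≤ 65 * (θ * Real.log X) := by
    rw [Real.log_mul (by norm_num) (by linarith), hZ, Real.log_rpow hX0]
    linarith
  have hδZ : δ * Real.log (4 * Z) ≤ 65 * t := by
    calc δ * Real.log (4 * Z) ≤ δ * (65 * (θ * Real.log X)) := by gcongr
      _ = 65 * t := by rw [ht]; ring
  have hY' : 1 ≤ X ^ (CF * (θ * u)) := Real.one_le_rpow hX1 (by positivity)
  by_cases hbig : 1 < δ * Real.log (4 * Z)
  · have h1 : 1 ≤ 65 * t := by linarith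
    have h3 : 65 * t ≤ CF * t := by
      apply mul_le_mul_of_nonneg_right _ ht0
      linarith
    calc (1 : ℝ) ≤ CF * t * 1 := by linarith
      _ ≤ CF * t * X ^ (CF * (θ * u)) := by
        apply mul_le_mul_of_nonneg_left hY'
        linarith
  rw [not_lt] at hbig
  have hXθ : (2 : ℝ) ≤ X ^ θ := by
    rw [Real.rpow_def_of_pos hX0, mul_comm]
    calc (2 : ℝ) ≤ 4 := by norm_num
      _ = Real.exp (Real.log 4) := (Real.exp_log (by norm_num)).symm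
      _ ≤ Real.exp (θ * Real.log X) := Real.exp_le_exp.2 t1
  obtain ⟨Y, hY⟩ : ∃ Y : ℝ, Y = X ^ (65 * (θ * u)) := ⟨_, rfl⟩
  have hY0 : 0 < Y := by rw [hY]; positivity
  have hYY : Y ≤ X ^ (CF * (θ * u)) := by
    rw [hY]
    apply Real.rpow_le_rpow_of_exponent_le hX1
    have : 0 < θ * u := by positivity
    nlinarith
  have h2Z : (2 * Z) ^ u ≤ Y := by
    have h1 : 2 * Z ≤ X ^ (65 * θ) := by
      have : X ^ (65 * θ) = X ^ θ * X ^ (64 * θ) := by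
        rw [← Real.rpow_add hX0]; congr 1; ring
      rw [this, hZ]
      gcongr
    have h3 : Y = (X ^ (65 * θ)) ^ u := by
      rw [hY, ← Real.rpow_mul hX0.le]
      congr 1
      ring
    rw [h3]
    exact Real.rpow_le_rpow (by linarith) h1 hu0.le
  have hZu : Z ^ u ≤ Y := le_trans (Real.rpow_le_rpow (by linarith) (by linarith) hu0.le) h2Z
  -- the sieve weights
  obtain ⟨lam, hl1, hlb, hl0, hlf⟩ := selberg_exists (hx χ) (fun p hp => hx_bounds χ hχ2 p hp) (X ^ (8 * θ))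
    (Real.one_le_rpow hX1 (by positivity))
  obtain ⟨hL1, hmass⟩ := HB r χ (hεε _ hrX) hχ1 hχ2 β (by linarith) hβ1 hLβ (by rw [← hδ]; exact hpowc)
    (by rw [← hδ, ← hZ]; exact hbig)
  have hM := hmass lam hl1 hlb hl0 hlf
  rw [← hδ, ← hZ] at hM
  rw [← hδ] at hL1
  have hG := DHe_GG χ hχ2 (X ^ (8 * θ)) (Real.one_le_rpow hX1 (by positivity))
  have hM0 : (2 * Z) ^ u * (mass χ lam β Z - 1) ≤ 195 * t * Y := by
    have h1 : mass χ lam β Z - 1 ≤ 195 * t := by linarith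
    have h3 : 0 ≤ (2 * Z) ^ u := by positivity
    calc (2 * Z) ^ u * (mass χ lam β Z - 1) ≤ (2 * Z) ^ u * (195 * t) := by gcongr
      _ ≤ Y * (195 * t) := by gcongr
      _ = 195 * t * Y := by ring
  have hcY : 0 ≤ 12 / c₁ * t * Y := by positivity
  by_cases hcase : ψ ≠ 1 ∧ (⟨q, ψ⟩ : Σ r : ℕ, DirichletCharacter ℂ r) ≠ ⟨r, χ⟩
  · obtain ⟨hψ1, hne'⟩ := hcase
    have hch := DHe_ne hq hr ψ χ hψp hχp hχ2 hne'
    have hLψ : DirichletCharacter.LFunction ψ ρ = 0 := by rw [← EF_eq_of_ne ψ hψ1]; exact hρ0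
    have hT := (HA r q (hεε _ hrX) (hεε _ hqX) χ ψ hχ1 lam hlb hl0).1 hψ1 hch ρ (by linarith)
      (by linarith) hρX (by rw [hLψ, zero_mul])
    rw [← hZ] at hT
    have hR := DHe_rest χ hχ2 lam hl1 β Z u hβ1.le hZ1 hu0.le ρ hρre (fun n => ψ (n : ZMod q))
      (fun n => DirichletCharacter.norm_le_one ψ _) (by simp)
    set T : ℂ := ∑ n ∈ Icc 1 ⌊2 * Z⌋₊, (nu lam n : ℂ) *
          (χ.zetaMul n * ψ (n : ZMod q) * (n : ℂ) ^ (-ρ) * (ww (n / Z) : ℂ)) with hTd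
    have h1 : (1 : ℝ) ≤ ‖T‖ + ‖T - 1‖ := by
      have := norm_sub_norm_le T (T - 1)
      rw [sub_sub_cancel, norm_one] at this
      have h4 := norm_sub_norm_le (1 : ℂ) (1 - T)
      rw [sub_sub_cancel, norm_one, norm_sub_rev] at h4
      linarith
    refine DHe_fin c₁ CF t Y _ hc₁ hCF ht0 hY0.le hYY ?_
    linarith
  · -- zeta zero or zero of the exceptional function
    have hkey : riemannZeta ρ * DirichletCharacter.LFunction χ ρ = 0 ∧ c₁ / (θ * Real.log X) ≤ ‖1 - ρ‖ := by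
      by_cases hψ1 : ψ = 1
      · subst hψ1
        obtain ⟨h1, h3⟩ := EF_zero_one ρ (by linarith) hρ0
        refine ⟨by rw [h1, zero_mul], ?_⟩
        have h4 : 2 * r₁ < ‖ρ - 1‖ := by
          by_contra h5
          exact hz ρ (not_lt.mp h5) h3 h1
        rw [norm_sub_rev] at h4
        refine le_trans ?_ h4.le
        have hlt : 0 < θ * Real.log X := lt_of_lt_of_le (by positivity) t5
        rw [div_le_iff₀ hlt]
        rw [div_le_iff₀ (by positivity)] at t5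
        linarith
      · have h1 : (⟨q, ψ⟩ : Σ r : ℕ, DirichletCharacter ℂ r) = ⟨r, χ⟩ := by
          by_contra h3
          exact hcase ⟨hψ1, h3⟩
        have hρβ : ρ ≠ (β : ℂ) := by
          rcases hne with h | h
          · exact absurd h1 h
          · exact h
        have hEF : EF χ ρ = 0 := by
          have h3 : ∀ p p' : (Σ r : ℕ, DirichletCharacter ℂ r), p = p' → EF p.2 ρ = 0 → EF p'.2 ρ = 0 := by
            rintro p p' rfl h; exact h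
          exact h3 _ _ h1 hρ0
        refine ⟨?_, hsep ρ hEF hρX hρβ⟩
        have : DirichletCharacter.LFunction χ ρ = 0 := by rw [← EF_eq_of_ne χ hχ1]; exact hEF
        rw [this, mul_zero]
    obtain ⟨hzero, hdist⟩ := hkey
    have hlt : 0 < θ * Real.log X := lt_of_lt_of_le (by positivity) t5
    have hw : 0 < c₁ / (θ * Real.log X) := by positivity
    have hXd : X ^ (-(θ * c / 8)) ≤ ‖1 - ρ‖ := by
      refine le_trans ?_ hdist
      rw [Real.rpow_neg hX0.le, ← one_div]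
      have e : c₁ / (θ * Real.log X) = 1 / (θ * Real.log X / c₁) := (one_div_div _ _).symm
      rw [e]
      exact one_div_le_one_div_of_le (by positivity) t4
    have h1X : ((1 : ℕ) : ℝ) ≤ X ^ ε' := by
      rw [Nat.cast_one]
      exact Real.one_le_rpow hX1 hε'.le
    have hT := (HA r 1 (hεε _ hrX) h1X χ (1 : DirichletCharacter ℂ 1) hχ1 lam hlb hl0).2 hχ2 hlf ρ (by linarith)
      (by linarith) hρX hXd hzero
    rw [← hZ] at hT
    have hmain := DHe_main χ (GG (hx χ) (X ^ (8 * θ))) Z δ u _ hG hZ1 hδ0 hu0.le (by linarith) ρ hρre hw hdist hL1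
    have hR := DHe_rest χ hχ2 lam hl1 β Z u hβ1.le hZ1 hu0.le ρ hρre (fun _ => 1)
      (fun n => by simp) rfl
    simp only [mul_one] at hR
    set T : ℂ := ∑ n ∈ Icc 1 ⌊2 * Z⌋₊, (nu lam n : ℂ) * (χ.zetaMul n * (n : ℂ) ^ (-ρ) * (ww (n / Z) : ℂ)) with hTd
    set W : ℂ := DirichletCharacter.LFunction χ 1 * ((Z : ℝ) : ℂ) ^ (1 - ρ) * VV (1 - ρ) /
      ((1 - ρ) * (GG (hx χ) (X ^ (8 * θ)) : ℂ)) with hWd
    have h8 : X ^ (-(10 * θ * c)) ≤ 1 / 8 := by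
      rw [Real.rpow_neg hX0.le, ← one_div]
      exact one_div_le_one_div_of_le (by norm_num) t3
    have h1 : (1 : ℝ) ≤ ‖W‖ + ‖T - W‖ + ‖T - 1‖ := by
      have h4 : (1 : ℂ) = W + (T - W) - (T - 1) := by ring
      calc (1 : ℝ) = ‖(1 : ℂ)‖ := norm_one.symm
        _ = ‖W + (T - W) - (T - 1)‖ := by rw [← h4]
        _ ≤ ‖W + (T - W)‖ + ‖T - 1‖ := norm_sub_le _ _
        _ ≤ ‖W‖ + ‖T - W‖ + ‖T - 1‖ := by
          have := norm_add_le W (T - W)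
          linarith
    have h5 : ‖W‖ ≤ 12 / c₁ * t * Y := by
      refine hmain.trans ?_
      have h6 : δ * (1 / (c₁ / (θ * Real.log X))) = t / c₁ := by
        rw [one_div_div, ht]; ring
      rw [h6]
      calc 12 * (t / c₁) * Z ^ u ≤ 12 * (t / c₁) * Y := by gcongr
        _ = 12 / c₁ * t * Y := by ring
    refine DHe_fin c₁ CF t Y _ hc₁ hCF ht0 hY0.le hYY ?_
    linarith

end Pool.Agent.PSG
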