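import Pool.Agent.W_b58c63_h44.LD

/-!
# The number of zeros in a small ball
-/

set_option autoImplicit false

noncomputable section

open Finset Complex

namespace Pool.Agent.PSG

theorem LCt_re (s ρ : ℂ) (η : ℝ) (hη : 0 < η) (h1 : η ≤ (s - ρ).re) (h2 : ‖s - ρ‖ ≤ 2 * η) :
    1 / (4 * η) ≤ (1 / (s - ρ)).re := by
  have h3 : 0 < (s - ρ).re := by linarith
  have h4 : 0 < Complex.normSq (s - ρ) := by
    rw [Complex.normSq_pos]
    intro h0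
    rw [h0, Complex.zero_re] at h3
    exact lt_irrefl _ h3
  have h5 : Complex.normSq (s - ρ) ≤ 4 * η ^ 2 := by
    rw [Complex.normSq_eq_norm_sq]
    have := norm_nonneg (s - ρ)
    nlinarith
  rw [one_div (s - ρ), Complex.inv_re, div_le_div_iff₀ (by positivity) h4]
  nlinarith

theorem LCt_dl {q : ℕ} (χ : DirichletCharacter ℂ q) (z : ℂ) (η : ℝ) (hη : 0 < η) (h : η ≤ ‖z‖) :
    ((dl χ : ℂ) / z).re ≤ 1 / η := by
  have h1 : ‖(dl χ : ℂ)‖ ≤ 1 := by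
    unfold dl
    split_ifs
    · simp
    · simp
  refine (Complex.re_le_norm _).trans ?_
  rw [norm_div]
  exact div_le_div₀ zero_le_one h1 hη h

/-- **Zeros close to the line `Re s = 1`**: at most `C (1 + η θ log X)` within `η`.

Proof. Let `C₁` be the constant of `LA` and `C₂` of `ld_triv`. Given `θ` take `R₀, X₀` from `LA θ`, `ε = θ R₀ / 4`, `κ = R₀ / 8`, `L = θ log X`. Let `s = 1 + η + i t`,
`‖s - cen θ X t‖ = η - 1 / L ≤ R₀ / 4`. Every zero `ρ` with `‖ρ - (1 + i t)‖ ≤ η` has `‖ρ - cen θ X t‖ ≤ η + 1 / L ≤ 2 η ≤ R₀ / 2`, and (`Re ρ < 1`)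
`Re (1 / (s - ρ)) = Re (s - ρ) / ‖s - ρ‖ ^ 2 ≥ η / (2 η) ^ 2 = 1 / (4 η)`. By `LA_re` with `S` = these zeros: `∑ m / (4 η) ≤ Re EF'/EF(s) + C₁ L`, and by `EF_ld`, `ld_triv`,
`‖1 / (s - 1)‖ ≤ 1 / η`: `Re EF'/EF(s) ≤ 2 / η + C₂`. So `∑ m ≤ 8 + 4 C₂ η + 4 C₁ η L`. -/
theorem local_count [WI] : ∃ C₂ : ℝ, 1 ≤ C₂ ∧ ∀ θ : ℝ, 0 < θ → θ ≤ 1 → ∃ ε κ X₀ : ℝ, 0 < ε ∧ 0 < κ ∧ κ ≤ 1 / 16 ∧ 3 ≤ X₀ ∧
    ∀ X : ℝ, X₀ ≤ X → ∀ q : ℕ, 1 ≤ q → (q : ℝ) ≤ X ^ ε → ∀ χ : DirichletCharacter ℂ q, ∀ t : ℝ, |t| ≤ 2 * X →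
    ∀ η : ℝ, 1 / (θ * Real.log X) ≤ η → η ≤ κ →
    ∑ ρ ∈ zb (EF χ) (1 + t * I) η, (mz (EF χ) ρ : ℝ) ≤ C₂ * (1 + η * (θ * Real.log X)) := by
  obtain ⟨C₁, hC₁, hLA⟩ := LA
  obtain ⟨C, hC, hld⟩ := ld_triv
  refine ⟨8 + 4 * C + 4 * C₁, by linarith, fun θ hθ hθ1 => ?_⟩
  obtain ⟨R₀, X₀, hR₀, hR₁, hX₀, hLA⟩ := hLA θ hθ hθ1
  refine ⟨θ * R₀ / 4, R₀ / 8, max X₀ 4, by positivity, by positivity, by linarith,
    hX₀.trans (le_max_left _ _), fun X hX q hq hqX χ t ht η hη1 hη2 => ?_⟩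
  have hX1 : X₀ ≤ X := (le_max_left _ _).trans hX
  have hX4 : 4 ≤ X := (le_max_right _ _).trans hX
  haveI : NeZero q := ⟨by omega⟩
  have hlog : 0 < Real.log X := Real.log_pos (by linarith)
  obtain ⟨L, hL⟩ : ∃ L, L = θ * Real.log X := ⟨_, rfl⟩
  have hL0 : 0 < L := hL ▸ mul_pos hθ hlog
  rw [← hL] at hη1 ⊢
  have hiL : 0 < 1 / L := by positivity
  have hη : 0 < η := by linarith
  have htX : |t| ≤ X ^ (3 / 2 : ℝ) := by
    refine ht.trans ?_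
    have h1 : X ^ (3 / 2 : ℝ) = X * X ^ (1 / 2 : ℝ) := by
      rw [show (3 / 2 : ℝ) = 1 + 1 / 2 by norm_num, Real.rpow_add (by linarith), Real.rpow_one]
    have h2 : (2 : ℝ) ≤ X ^ (1 / 2 : ℝ) := by
      rw [← Real.sqrt_eq_rpow]
      refine Real.le_sqrt_of_sq_le ?_
      linarith
    rw [h1]
    nlinarith
  have hat := hLA X hX1 q hq hqX χ t htX
  have hFd := EF_diff χ
  have hFn : ∃ s, EF χ s ≠ 0 := ⟨1, EF_ne_zero χ 1 (by simp)⟩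
  obtain ⟨s, hs⟩ : ∃ s : ℂ, s = ((1 + η : ℝ) : ℂ) + t * I := ⟨_, rfl⟩
  have hsre : s.re = 1 + η := by
    rw [hs]
    simp
  have hscen : s - cen θ X t = ((η - 1 / L : ℝ) : ℂ) := by
    unfold cen
    rw [hs, ← hL]
    push_cast
    ring
  have hs1 : ‖s - cen θ X t‖ ≤ R₀ / 4 := by
    rw [hscen, Complex.norm_real, Real.norm_of_nonneg (by linarith)]
    linarith
  have hcen : (1 + t * I : ℂ) - cen θ X t = ((-(1 / L) : ℝ) : ℂ) := by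
    unfold cen
    rw [← hL]
    push_cast
    ring
  have hs3 : s - (1 + t * I : ℂ) = ((η : ℝ) : ℂ) := by
    rw [hs]
    push_cast
    ring
  have hsub : zb (EF χ) (1 + t * I) η ⊆ zb (EF χ) (cen θ X t) (R₀ / 2) := by
    intro ρ hρ
    rw [mem_zb _ hFd hFn] at hρ ⊢
    refine ⟨hρ.1, ?_⟩
    have h1 : ρ - cen θ X t = (ρ - (1 + t * I)) + ((-(1 / L) : ℝ) : ℂ) := by
      rw [← hcen]
      ring
    rw [h1]
    refine (norm_add_le _ _).trans ?_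
    rw [Complex.norm_real, norm_neg, Real.norm_of_nonneg hiL.le]
    linarith [hρ.2]
  have h1 := LA_re hq χ t hat hR₀ s hs1 (by linarith) _ hsub
  have h2 : (deriv (EF χ) s / EF χ s).re ≤ 2 / η + C := by
    rw [EF_ld χ s (by linarith), Complex.add_re]
    have h3 := hld q χ s (by linarith) (by linarith)
    have h4 := (Complex.re_le_norm _).trans h3
    have h5 : η ≤ ‖s - 1‖ := by
      have h6 := Complex.abs_re_le_norm (s - 1)
      rw [Complex.sub_re, Complex.one_re, hsre, add_sub_cancel_left, abs_of_pos hη] at h6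
      exact h6
    have h6 := LCt_dl χ (s - 1) η hη h5
    rw [hsre, add_sub_cancel_left] at h4
    have h7 : 2 / η = 1 / η + 1 / η := by ring
    rw [h7]
    linarith
  have h3 : ∑ ρ ∈ zb (EF χ) (1 + t * I) η, (mz (EF χ) ρ : ℝ) * (1 / (4 * η)) ≤
      ∑ ρ ∈ zb (EF χ) (1 + t * I) η, (mz (EF χ) ρ : ℝ) * (1 / (s - ρ)).re := by
    refine Finset.sum_le_sum fun ρ hρ => ?_
    rw [mem_zb _ hFd hFn] at hρ
    refine mul_le_mul_of_nonneg_left ?_ (Nat.cast_nonneg _)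
    refine LCt_re s ρ η hη ?_ ?_
    · have h4 : ρ.re < 1 := by
        by_contra hcon
        exact EF_ne_zero χ ρ (not_lt.1 hcon) hρ.1
      rw [Complex.sub_re, hsre]
      linarith
    · have h4 : s - ρ = (s - (1 + t * I)) - (ρ - (1 + t * I)) := by ring
      rw [h4]
      refine (norm_sub_le _ _).trans ?_
      rw [hs3, Complex.norm_real, Real.norm_of_nonneg hη.le]
      linarith [hρ.2]
  rw [← Finset.sum_mul] at h3
  rw [← hL] at h1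
  obtain ⟨N, hN⟩ : ∃ N, N = ∑ ρ ∈ zb (EF χ) (1 + t * I) η, (mz (EF χ) ρ : ℝ) := ⟨_, rfl⟩
  rw [← hN] at h3 ⊢
  have h4 : N * (1 / (4 * η)) ≤ 2 / η + C + C₁ * L := by linarith
  have h5 : N ≤ (2 / η + C + C₁ * L) * (4 * η) := by
    rw [mul_one_div, div_le_iff₀ (by positivity)] at h4
    exact h4
  have h6 : (2 / η + C + C₁ * L) * (4 * η) = 8 + 4 * C * η + 4 * C₁ * (η * L) := by
    field_simp
    ring
  have h7 : 0 < η * L := mul_pos hη hL0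
  have h8 : 4 * C * η ≤ 4 * C := by nlinarith
  have h9 : 0 ≤ (8 + 4 * C) * (η * L) := by positivity
  calc N ≤ 8 + 4 * C * η + 4 * C₁ * (η * L) := h5.trans h6.le
    _ ≤ 8 + 4 * C + 4 * C₁ * (η * L) := by linarith
    _ ≤ (8 + 4 * C + 4 * C₁) * (1 + η * L) := by nlinarith

end Pool.Agent.PSG
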