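import Pool.Agent.W_b58c63_h44.LV
import Pool.Agent.W_b58c63_h44.LCt
import Pool.Agent.W_b58c63_h44.Itf

/-!
# The log-free density theorem
-/

set_option autoImplicit false

noncomputable section

open Finset Complex

namespace Pool.Agent.PSG

open Pool.Agent.Wb58c63 (prim)

/-- A sum over a union. -/
theorem Den_sum_biUnion_le {ι α : Type*} [DecidableEq α] (s : Finset ι) (t : ι → Finset α) (f : α → ℝ)
    (hf : ∀ x, 0 ≤ f x) : ∑ x ∈ s.biUnion t, f x ≤ ∑ i ∈ s, ∑ x ∈ t i, f x := by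
  classical
  induction s using Finset.induction_on with
  | empty => simp
  | insert a s ha ih =>
    rw [biUnion_insert, sum_insert ha]
    have := Finset.sum_union_inter (s₁ := t a) (s₂ := s.biUnion t) (f := f)
    have h2 : 0 ≤ ∑ x ∈ t a ∩ s.biUnion t, f x := sum_nonneg fun x _ => hf x
    linarith

/-- A maximal separated subset.

Proof. Take a subset `T` of `A` with pairwise distances at least `η` and of maximal cardinality (`Finset.exists_max_image` over the powerset, or induction). -/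
theorem exists_sep (A : Finset ℝ) (η : ℝ) (hη : 0 < η) : ∃ T ⊆ A, (∀ s ∈ T, ∀ t ∈ T, s ≠ t → η ≤ |s - t|) ∧
    ∀ a ∈ A, ∃ t ∈ T, |a - t| ≤ η := by
  classical
  obtain ⟨T, hT, hmax⟩ := Finset.exists_max_image
    (A.powerset.filter fun T => ∀ s ∈ T, ∀ t ∈ T, s ≠ t → η ≤ |s - t|) Finset.card
    ⟨∅, by simp⟩
  rw [mem_filter, mem_powerset] at hT
  refine ⟨T, hT.1, hT.2, fun a ha => ?_⟩
  by_contra hcon
  push Not at hcon
  have haT : a ∉ T := fun h => by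
    have := hcon a h
    rw [sub_self, abs_zero] at this
    linarith
  have hins : insert a T ∈ A.powerset.filter fun T => ∀ s ∈ T, ∀ t ∈ T, s ≠ t → η ≤ |s - t| := by
    rw [mem_filter, mem_powerset]
    refine ⟨insert_subset ha hT.1, fun s hs t ht hst => ?_⟩
    rw [mem_insert] at hs ht
    rcases hs with rfl | hs <;> rcases ht with rfl | ht
    · exact absurd rfl hst
    · exact (hcon t ht).le
    · rw [abs_sub_comm]; exact (hcon s hs).le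
    · exact hT.2 s hs t ht hst
  have := hmax _ hins
  rw [card_insert_of_notMem haT] at this
  omega

/-- The core of the density theorem for `1 / L ≤ η`. -/
theorem Den_core (B ca Ca C₅ C₂ K₁ : ℝ) (hC₅ : 1 ≤ C₅) (hC₂ : 1 ≤ C₂) (hK₁ : 1 ≤ K₁)
    (L X η : ℝ) (hL : 0 < L) (hη : 1 / L ≤ η) (N : ℕ)
    (hlc : ∀ q : ℕ, 1 ≤ q → q ≤ N → ∀ χ : DirichletCharacter ℂ q, ∀ t : ℝ, |t| ≤ X →
      ∑ ρ ∈ zb (EF χ) (1 + t * I) (2 * η), (mz (EF χ) ρ : ℝ) ≤ C₂ * (1 + 2 * η * L))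
    (hdet : ∀ q : ℕ, 1 ≤ q → q ≤ N → ∀ χ : DirichletCharacter ℂ q,
      ∀ ρ : ℂ, EF χ ρ = 0 → 1 - η ≤ ρ.re → |ρ.im| ≤ X →
      ∃ k : ℕ, K₁ * (1 + η * L) ≤ k ∧ (k : ℝ) ≤ 4 * K₁ * (1 + η * L) ∧
      B ^ (-(k : ℝ)) ≤ ‖∑ p ∈ PR ca Ca k η, ((Real.log p * (1 / p) * (η * jk (k - 1) (η * Real.log p)) : ℝ) : ℂ) *
        (χ (p : ZMod q) * (p : ℂ) ^ (-(ρ.im * I)))‖)
    (hlv : ∀ k : ℕ, K₁ * (1 + η * L) ≤ k →
      ∀ S : Finset ((Σ r : ℕ, DirichletCharacter ℂ r) × ℝ),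
      (∀ i ∈ S, 1 ≤ i.1.1 ∧ i.1.1 ≤ N ∧ i.1.2.IsPrimitive ∧ |i.2| ≤ X ∧
        B ^ (-(k : ℝ)) ≤ ‖∑ p ∈ PR ca Ca k η, ((Real.log p * (1 / p) * (η * jk (k - 1) (η * Real.log p)) : ℝ) : ℂ) *
          (i.1.2 (p : ZMod i.1.1) * (p : ℂ) ^ (-(i.2 * I)))‖) →
      (∀ i ∈ S, ∀ j ∈ S, i ≠ j → i.1 = j.1 → η ≤ |i.2 - j.2|) → (S.card : ℝ) ≤ C₅ ^ k) :
    ∑ r ∈ Icc 1 N, ∑ χ ∈ prim r, ∑ ρ ∈ ZR (EF χ) η X, (mz (EF χ) ρ : ℝ) ≤
      (8 * C₂ * K₁ * Real.exp (4 * K₁ * Real.log C₅)) * Real.exp ((2 + 4 * K₁ * Real.log C₅) * (η * L)) := by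
  classical
  have hη0 : 0 < η := lt_of_lt_of_le (by positivity) hη
  have hu : 0 ≤ η * L := by positivity
  have hEF : ∀ (q : ℕ) (χ : DirichletCharacter ℂ q), ∃ s, EF χ s ≠ 0 := fun q χ =>
    ⟨1, EF_ne_zero χ 1 (by simp)⟩
  have hZR : ∀ (q : ℕ) (χ : DirichletCharacter ℂ q) (ρ : ℂ),
      ρ ∈ ZR (EF χ) η X ↔ EF χ ρ = 0 ∧ 1 - η ≤ ρ.re ∧ ρ.re ≤ 1 ∧ |ρ.im| ≤ X := fun q χ ρ =>
    mem_ZR (EF χ) (EF_diff χ) (hEF q χ) η X ρ
  have hzb : ∀ (q : ℕ) (χ : DirichletCharacter ℂ q) (s : ℂ) (R : ℝ) (ρ : ℂ),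
      ρ ∈ zb (EF χ) s R ↔ EF χ ρ = 0 ∧ ‖ρ - s‖ ≤ R := fun q χ s R ρ =>
    mem_zb (EF χ) (EF_diff χ) (hEF q χ) s R ρ
  -- the separated sets
  have hT : ∀ c : (Σ r : ℕ, DirichletCharacter ℂ r), ∃ T ⊆ (ZR (EF c.2) η X).image Complex.im,
      (∀ s ∈ T, ∀ t ∈ T, s ≠ t → η ≤ |s - t|) ∧
      ∀ a ∈ (ZR (EF c.2) η X).image Complex.im, ∃ t ∈ T, |a - t| ≤ η := fun c =>
    exists_sep _ η hη0
  choose T hTsub hTsep hTcov using hT
  have hTX : ∀ c, ∀ t ∈ T c, |t| ≤ X := by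
    intro c t ht
    obtain ⟨ρ, hρ, rfl⟩ := mem_image.1 (hTsub c ht)
    exact ((hZR _ _ _).1 hρ).2.2.2
  -- the value of `k`
  have hk : ∀ (c : (Σ r : ℕ, DirichletCharacter ℂ r)) (t : ℝ), 1 ≤ c.1 → c.1 ≤ N → t ∈ T c →
      ∃ k : ℕ, K₁ * (1 + η * L) ≤ k ∧ (k : ℝ) ≤ 4 * K₁ * (1 + η * L) ∧
      B ^ (-(k : ℝ)) ≤ ‖∑ p ∈ PR ca Ca k η, ((Real.log p * (1 / p) * (η * jk (k - 1) (η * Real.log p)) : ℝ) : ℂ) *
        (c.2 (p : ZMod c.1) * (p : ℂ) ^ (-(t * I)))‖ := by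
    intro c t hc1 hcN ht
    obtain ⟨ρ, hρ, rfl⟩ := mem_image.1 (hTsub c ht)
    have h := (hZR _ _ _).1 hρ
    exact hdet c.1 hc1 hcN c.2 ρ h.1 h.2.1 h.2.2.2
  have hk2 : ∀ (c : (Σ r : ℕ, DirichletCharacter ℂ r)) (t : ℝ), ∃ k : ℕ, 1 ≤ c.1 → c.1 ≤ N → t ∈ T c →
      K₁ * (1 + η * L) ≤ k ∧ (k : ℝ) ≤ 4 * K₁ * (1 + η * L) ∧
      B ^ (-(k : ℝ)) ≤ ‖∑ p ∈ PR ca Ca k η, ((Real.log p * (1 / p) * (η * jk (k - 1) (η * Real.log p)) : ℝ) : ℂ) *
        (c.2 (p : ZMod c.1) * (p : ℂ) ^ (-(t * I)))‖ := by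
    intro c t
    by_cases h : 1 ≤ c.1 ∧ c.1 ≤ N ∧ t ∈ T c
    · obtain ⟨k, hk⟩ := hk c t h.1 h.2.1 h.2.2
      exact ⟨k, fun _ _ _ => hk⟩
    · exact ⟨0, fun h1 h2 h3 => absurd ⟨h1, h2, h3⟩ h⟩
  choose kk hkk using hk2
  set C : Finset (Σ r : ℕ, DirichletCharacter ℂ r) := (Icc 1 N).sigma prim with hC
  have hCmem : ∀ c ∈ C, 1 ≤ c.1 ∧ c.1 ≤ N ∧ c.2.IsPrimitive := by
    intro c hc
    rw [hC, mem_sigma, mem_Icc] at hc
    refine ⟨hc.1.1, hc.1.2, ?_⟩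
    have := hc.2
    unfold Pool.Agent.Wb58c63.prim at this
    rw [mem_filter] at this
    exact this.2
  set S : Finset (Σ _ : (Σ r : ℕ, DirichletCharacter ℂ r), ℝ) := C.sigma T with hS
  -- the number of elements of S
  have hScard : (S.card : ℝ) ≤ 4 * K₁ * (1 + η * L) * C₅ ^ (4 * K₁ * (1 + η * L)) := by
    set M : ℕ := ⌊4 * K₁ * (1 + η * L)⌋₊ with hM
    have h1 : S.card = ∑ k ∈ Icc 1 M, (S.filter fun i => kk i.1 i.2 = k).card := by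
      apply Finset.card_eq_sum_card_fiberwise
      intro i hi
      rw [hS] at hi
      have hi2 := mem_sigma.1 (mem_coe.1 hi)
      obtain ⟨hc1, hcN, -⟩ := hCmem _ hi2.1
      obtain ⟨ha, hb, -⟩ := hkk i.1 i.2 hc1 hcN hi2.2
      rw [mem_coe, mem_Icc]
      constructor
      · have : (1 : ℝ) ≤ kk i.1 i.2 := by nlinarith
        exact_mod_cast this
      · exact Nat.le_floor hb
    have h2 : ∀ k ∈ Icc 1 M, ((S.filter fun i => kk i.1 i.2 = k).card : ℝ) ≤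
        C₅ ^ (4 * K₁ * (1 + η * L)) := by
      intro k hk
      by_cases hemp : (S.filter fun i => kk i.1 i.2 = k) = ∅
      · rw [hemp]
        simp only [card_empty, Nat.cast_zero]
        positivity
      have hkb : K₁ * (1 + η * L) ≤ k := by
        obtain ⟨i, hi⟩ := Finset.nonempty_iff_ne_empty.2 hemp
        rw [mem_filter, hS, mem_sigma] at hi
        obtain ⟨hc1, hcN, -⟩ := hCmem _ hi.1.1
        obtain ⟨ha, hb, -⟩ := hkk i.1 i.2 hc1 hcN hi.1.2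
        rw [hi.2] at ha
        exact ha
      have h3 := hlv k hkb ((S.filter fun i => kk i.1 i.2 = k).map
        (Equiv.sigmaEquivProd (Σ r : ℕ, DirichletCharacter ℂ r) ℝ).toEmbedding) (by
          intro i hi
          rw [mem_map] at hi
          obtain ⟨j, hj, rfl⟩ := hi
          rw [mem_filter, hS, mem_sigma] at hj
          obtain ⟨hc1, hcN, hcp⟩ := hCmem _ hj.1.1
          obtain ⟨-, -, hc⟩ := hkk j.1 j.2 hc1 hcN hj.1.2
          rw [hj.2] at hc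
          exact ⟨hc1, hcN, hcp, hTX _ _ hj.1.2, hc⟩) (by
          intro i hi i' hi' hne heq
          rw [mem_map] at hi hi'
          obtain ⟨j, hj, rfl⟩ := hi
          obtain ⟨j', hj', rfl⟩ := hi'
          rw [mem_filter, hS, mem_sigma] at hj hj'
          obtain ⟨c, t⟩ := j
          obtain ⟨c', t'⟩ := j'
          change c = c' at heq
          subst heq
          change η ≤ |t - t'|
          apply hTsep c t hj.1.2 t' hj'.1.2
          rintro rfl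
          exact hne rfl)
      rw [card_map] at h3
      refine h3.trans ?_
      rw [← Real.rpow_natCast]
      apply Real.rpow_le_rpow_of_exponent_le hC₅
      rw [mem_Icc] at hk
      exact (Nat.le_floor_iff (by positivity)).1 hk.2
    rw [h1]
    push_cast
    calc ∑ k ∈ Icc 1 M, ((S.filter fun i => kk i.1 i.2 = k).card : ℝ)
        ≤ ∑ k ∈ Icc 1 M, C₅ ^ (4 * K₁ * (1 + η * L)) := sum_le_sum h2
      _ = (M : ℝ) * C₅ ^ (4 * K₁ * (1 + η * L)) := by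
          rw [sum_const, Nat.card_Icc, nsmul_eq_mul, Nat.add_sub_cancel]
      _ ≤ _ := by
          apply mul_le_mul_of_nonneg_right _ (by positivity)
          exact Nat.floor_le (by positivity)
  -- the sum over the zeros of one character
  have hone : ∀ c ∈ C, ∑ ρ ∈ ZR (EF c.2) η X, (mz (EF c.2) ρ : ℝ) ≤
      ((T c).card : ℝ) * (C₂ * (1 + 2 * η * L)) := by
    intro c hc
    obtain ⟨hc1, hcN, -⟩ := hCmem _ hc
    have hsub : ZR (EF c.2) η X ⊆ (T c).biUnion fun t => zb (EF c.2) (1 + t * I) (2 * η) := by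
      intro ρ hρ
      obtain ⟨t, ht, hdist⟩ := hTcov c ρ.im (mem_image_of_mem _ hρ)
      rw [mem_biUnion]
      refine ⟨t, ht, ?_⟩
      have hρ2 := (hZR _ _ _).1 hρ
      rw [hzb]
      refine ⟨hρ2.1, ?_⟩
      refine (Complex.norm_le_abs_re_add_abs_im _).trans ?_
      have h1 : (ρ - (1 + (t : ℂ) * I)).re = ρ.re - 1 := by simp
      have h2 : (ρ - (1 + (t : ℂ) * I)).im = ρ.im - t := by simp
      rw [h1, h2]
      have h3 : |ρ.re - 1| ≤ η := by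
        rw [abs_le]; constructor <;> linarith [hρ2.2.1, hρ2.2.2.1]
      linarith
    calc ∑ ρ ∈ ZR (EF c.2) η X, (mz (EF c.2) ρ : ℝ)
        ≤ ∑ ρ ∈ (T c).biUnion fun t => zb (EF c.2) (1 + t * I) (2 * η), (mz (EF c.2) ρ : ℝ) :=
          sum_le_sum_of_subset_of_nonneg hsub (fun _ _ _ => Nat.cast_nonneg _)
      _ ≤ ∑ t ∈ T c, ∑ ρ ∈ zb (EF c.2) (1 + t * I) (2 * η), (mz (EF c.2) ρ : ℝ) :=
          Den_sum_biUnion_le _ _ _ (fun _ => Nat.cast_nonneg _)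
      _ ≤ ∑ t ∈ T c, C₂ * (1 + 2 * η * L) :=
          sum_le_sum fun t ht => hlc c.1 hc1 hcN c.2 t (hTX c t ht)
      _ = _ := by rw [sum_const, nsmul_eq_mul]
  have hsum : ∑ r ∈ Icc 1 N, ∑ χ ∈ prim r, ∑ ρ ∈ ZR (EF χ) η X, (mz (EF χ) ρ : ℝ) =
      ∑ c ∈ C, ∑ ρ ∈ ZR (EF c.2) η X, (mz (EF c.2) ρ : ℝ) := by
    rw [hC, Finset.sum_sigma]
  rw [hsum]
  have hScard2 : (S.card : ℝ) = ∑ c ∈ C, ((T c).card : ℝ) := by
    rw [hS, card_sigma]
    push_cast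
    rfl
  calc ∑ c ∈ C, ∑ ρ ∈ ZR (EF c.2) η X, (mz (EF c.2) ρ : ℝ)
      ≤ ∑ c ∈ C, ((T c).card : ℝ) * (C₂ * (1 + 2 * η * L)) := sum_le_sum hone
    _ = (S.card : ℝ) * (C₂ * (1 + 2 * η * L)) := by rw [hScard2, sum_mul]
    _ ≤ (4 * K₁ * (1 + η * L) * C₅ ^ (4 * K₁ * (1 + η * L))) * (C₂ * (1 + 2 * η * L)) :=
        mul_le_mul_of_nonneg_right hScard (by positivity)
    _ ≤ _ := by
        have hCp : 0 < C₅ := by linarith
        have hlog : 0 ≤ Real.log C₅ := Real.log_nonneg hC₅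
        have e1 : C₅ ^ (4 * K₁ * (1 + η * L)) =
            Real.exp (4 * K₁ * Real.log C₅) * Real.exp (4 * K₁ * Real.log C₅ * (η * L)) := by
          rw [Real.rpow_def_of_pos hCp, ← Real.exp_add]
          congr 1
          ring
        have e2 : Real.exp ((2 + 4 * K₁ * Real.log C₅) * (η * L)) =
            Real.exp (η * L) * Real.exp (η * L) * Real.exp (4 * K₁ * Real.log C₅ * (η * L)) := by
          rw [← Real.exp_add, ← Real.exp_add]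
          congr 1
          ring
        rw [e1, e2]
        have h1 : 1 + η * L ≤ Real.exp (η * L) := by linarith [Real.add_one_le_exp (η * L)]
        have h2 : 1 + 2 * η * L ≤ 2 * Real.exp (η * L) := by nlinarith
        have h3 : 0 < Real.exp (4 * K₁ * Real.log C₅) := Real.exp_pos _
        have h4 : 0 < Real.exp (4 * K₁ * Real.log C₅ * (η * L)) := Real.exp_pos _
        set a := Real.exp (4 * K₁ * Real.log C₅)
        set b := Real.exp (4 * K₁ * Real.log C₅ * (η * L))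
        set e := Real.exp (η * L)
        have h5 : (1 + η * L) * (1 + 2 * η * L) ≤ e * (2 * e) :=
          mul_le_mul h1 h2 (by nlinarith) (by positivity)
        calc 4 * K₁ * (1 + η * L) * (a * b) * (C₂ * (1 + 2 * η * L))
            = (4 * K₁ * C₂ * (a * b)) * ((1 + η * L) * (1 + 2 * η * L)) := by ring
          _ ≤ (4 * K₁ * C₂ * (a * b)) * (e * (2 * e)) :=
              mul_le_mul_of_nonneg_left h5 (by positivity)
          _ = _ := by ring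

/-- **The log-free density theorem.** The constants `C₃, C₄` are absolute.

Proof. Take `B, ca, Ca, K₀` from `detect_primes`, `C₅, K₂` from `large_values B ca Ca`, `K₁ = max K₀ K₂`, `C₂` from `local_count`. Given `θ` let `ε` be the minimum of the three `ε`, `κ` one half of the minimum of the three `κ`, `X₀` the maximum, also `X₀ ≥ 3` so large that `1 / L ≤ κ`, `L = θ log X`.
By monotonicity in `η` of both sides it is enough to treat `1 / L ≤ η ≤ κ` (for `η < 1 / L` use the value at `1 / L`, which gives `C₃ exp C₄`, so replace `C₃` by `C₃ exp C₄`).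
For every `r ≤ X ^ ε` and `χ ∈ prim r` let `T_χ` be from `exists_sep` for the set of imaginary parts of `ZR (EF χ) η X`. Every `ρ ∈ ZR (EF χ) η X` is within `2 η` of `1 + i t` for some `t ∈ T_χ`, so `∑_ρ mz ≤ ∑_{t ∈ T_χ} C₂ (1 + 2 η L)` (`local_count` at `2 η ≤ κ'`, `mem_zb`, `mem_ZR`). For every `t ∈ T_χ` there is a zero
`ρ` with `Im ρ = t`, `Re ρ ≥ 1 - η`, and `detect_primes` gives `k`, `K₁ (1 + η L) ≤ k ≤ 4 K₁ (1 + η L)`, with the lower bound. For fixed `k` the set `S` of the pairs `((r, χ), t)` with this `k` satisfies the hypotheses of `large_values`, so it has at most `C₅ ^ k ≤ C₅ ^ (4 K₁ (1 + η L))` elements. There are at most `4 K₁ (1 + η L) + 1`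
values of `k`. Total at most `C₂ (1 + 2 η L) (4 K₁ (1 + η L) + 1) C₅ ^ (4 K₁ (1 + η L)) ≤ C₃ exp (C₄ η L)`. -/
theorem density [WI] [DTI] : ∃ C₃ C₄ : ℝ, 1 ≤ C₃ ∧ 1 ≤ C₄ ∧ ∀ θ : ℝ, 0 < θ → θ ≤ 1 →
    ∃ ε κ X₀ : ℝ, 0 < ε ∧ 0 < κ ∧ κ ≤ 1 / 16 ∧ 3 ≤ X₀ ∧ ∀ X : ℝ, X₀ ≤ X → ∀ η : ℝ, 0 ≤ η → η ≤ κ →
    ∑ r ∈ Icc 1 ⌊X ^ ε⌋₊, ∑ χ ∈ prim r, ∑ ρ ∈ ZR (EF χ) η X, (mz (EF χ) ρ : ℝ) ≤
      C₃ * Real.exp (C₄ * (η * (θ * Real.log X))) := by
  obtain ⟨B, ca, Ca, K₀, hB, hca, hca1, hCa, hK₀, hdet⟩ := DTI.detect_primes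
  obtain ⟨C₅, K₂, hC₅, hK₂, hlv⟩ := large_values B ca Ca hB hca hca1 hCa
  obtain ⟨C₂, hC₂, hlc⟩ := local_count
  set K₁ := max K₀ K₂ with hK₁
  have hK₁1 : 1 ≤ K₁ := hK₀.trans (le_max_left _ _)
  have hlog : 0 ≤ Real.log C₅ := Real.log_nonneg hC₅
  refine ⟨(8 * C₂ * K₁ * Real.exp (4 * K₁ * Real.log C₅)) * Real.exp (2 + 4 * K₁ * Real.log C₅),
    2 + 4 * K₁ * Real.log C₅, ?_, ?_, ?_⟩
  · have h1 : 1 ≤ Real.exp (4 * K₁ * Real.log C₅) := Real.one_le_exp (by positivity)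
    have h2 : 1 ≤ Real.exp (2 + 4 * K₁ * Real.log C₅) := Real.one_le_exp (by positivity)
    have h3 : 1 ≤ C₂ * K₁ := by nlinarith
    have h4 : 1 ≤ 8 * C₂ * K₁ := by nlinarith
    have h5 : 1 ≤ 8 * C₂ * K₁ * Real.exp (4 * K₁ * Real.log C₅) := by nlinarith
    nlinarith
  · have : 0 ≤ 4 * K₁ * Real.log C₅ := by positivity
    linarith
  intro θ hθ hθ1
  obtain ⟨ε₁, κ₁, X₁, hε₁, hκ₁, hκ₁', hX₁, hdet⟩ := hdet K₁ (le_max_left _ _) θ hθ hθ1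
  obtain ⟨ε₂, κ₂, X₂, hε₂, hκ₂, hκ₂', hX₂, hlv⟩ := hlv K₁ (le_max_right _ _) θ hθ hθ1
  obtain ⟨ε₃, κ₃, X₃, hε₃, hκ₃, hκ₃', hX₃, hlc⟩ := hlc θ hθ hθ1
  set ε := min ε₁ (min ε₂ ε₃) with hε
  set κ := min κ₁ (min κ₂ κ₃) / 2 with hκ
  have hε0 : 0 < ε := lt_min hε₁ (lt_min hε₂ hε₃)
  have hκ0 : 0 < κ := half_pos (lt_min hκ₁ (lt_min hκ₂ hκ₃))
  have hκa : 2 * κ ≤ κ₁ := by
    have := min_le_left κ₁ (min κ₂ κ₃)
    rw [hκ]; linarith
  have hκb : 2 * κ ≤ κ₂ := by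
    have := (min_le_right κ₁ (min κ₂ κ₃)).trans (min_le_left _ _)
    rw [hκ]; linarith
  have hκc : 2 * κ ≤ κ₃ := by
    have := (min_le_right κ₁ (min κ₂ κ₃)).trans (min_le_right _ _)
    rw [hκ]; linarith
  have hεa : ε ≤ ε₁ := min_le_left _ _
  have hεb : ε ≤ ε₂ := (min_le_right _ _).trans (min_le_left _ _)
  have hεc : ε ≤ ε₃ := (min_le_right _ _).trans (min_le_right _ _)
  refine ⟨ε, κ, max (max X₁ (max X₂ X₃)) (Real.exp (1 / (θ * κ))), hε0, hκ0, by linarith, ?_, ?_⟩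
  · exact le_trans (le_trans hX₁ (le_max_left _ _)) (le_max_left _ _)
  intro X hX η hη0 hηκ
  have hXa : X₁ ≤ X := ((le_max_left _ _).trans (le_max_left _ _)).trans hX
  have hXb : X₂ ≤ X := (((le_max_left _ _).trans (le_max_right _ _)).trans (le_max_left _ _)).trans hX
  have hXc : X₃ ≤ X := (((le_max_right _ _).trans (le_max_right _ _)).trans (le_max_left _ _)).trans hX
  have hXd : Real.exp (1 / (θ * κ)) ≤ X := (le_max_right _ _).trans hX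
  have hX3 : 3 ≤ X := hX₁.trans hXa
  have hX0 : 0 < X := by linarith
  have hlX : 1 / (θ * κ) ≤ Real.log X := (Real.le_log_iff_exp_le hX0).2 hXd
  have hlX0 : 0 < Real.log X := lt_of_lt_of_le (by positivity) hlX
  have hL0 : 0 < θ * Real.log X := mul_pos hθ hlX0
  have hLκ : 1 / (θ * Real.log X) ≤ κ := by
    rw [div_le_iff₀ hL0]
    have := mul_le_mul_of_nonneg_left hlX (mul_pos hθ hκ0).le
    rw [mul_one_div_cancel (mul_pos hθ hκ0).ne'] at this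
    linarith
  have hfl : ∀ (q : ℕ) (e : ℝ), ε ≤ e → q ≤ ⌊X ^ ε⌋₊ → (q : ℝ) ≤ X ^ e := by
    intro q e he hq
    have h1 : (q : ℝ) ≤ X ^ ε := (Nat.le_floor_iff (by positivity)).1 hq
    exact h1.trans (Real.rpow_le_rpow_of_exponent_le (by linarith) he)
  have core : ∀ η : ℝ, 1 / (θ * Real.log X) ≤ η → η ≤ κ →
      ∑ r ∈ Icc 1 ⌊X ^ ε⌋₊, ∑ χ ∈ prim r, ∑ ρ ∈ ZR (EF χ) η X, (mz (EF χ) ρ : ℝ) ≤
      (8 * C₂ * K₁ * Real.exp (4 * K₁ * Real.log C₅)) *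
        Real.exp ((2 + 4 * K₁ * Real.log C₅) * (η * (θ * Real.log X))) := by
    intro η hη1 hη2
    have hη00 : 0 < η := lt_of_lt_of_le (by positivity) hη1
    refine Den_core B ca Ca C₅ C₂ K₁ hC₅ hC₂ hK₁1 (θ * Real.log X) X η hL0 hη1 ⌊X ^ ε⌋₊ ?_ ?_ ?_
    · intro q hq1 hqN χ t ht
      have h := hlc X hXc q hq1 (hfl q ε₃ hεc hqN) χ t (by linarith) (2 * η) (by linarith) (by linarith)
      exact h
    · intro q hq1 hqN χ ρ h1 h2 h3
      exact hdet X hXa q hq1 (hfl q ε₁ hεa hqN) χ η hη1 (by linarith) ρ h1 h2 h3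
    · intro k hk S hS1 hS2
      refine hlv X hXb η hη1 (by linarith) k hk S ?_ hS2
      intro i hi
      obtain ⟨h1, h2, h3, h4, h5⟩ := hS1 i hi
      exact ⟨h1, hfl _ ε₂ hεb h2, h3, h4, h5⟩
  have hbig : 1 ≤ Real.exp (2 + 4 * K₁ * Real.log C₅) := Real.one_le_exp (by positivity)
  have hP : 0 < 8 * C₂ * K₁ * Real.exp (4 * K₁ * Real.log C₅) := by positivity
  by_cases hcase : 1 / (θ * Real.log X) ≤ η
  · refine (core η hcase hηκ).trans ?_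
    apply mul_le_mul_of_nonneg_right _ (Real.exp_pos _).le
    nlinarith
  · push Not at hcase
    have h1 := core (1 / (θ * Real.log X)) le_rfl hLκ
    rw [one_div_mul_cancel hL0.ne', mul_one] at h1
    have h2 : ∑ r ∈ Icc 1 ⌊X ^ ε⌋₊, ∑ χ ∈ prim r, ∑ ρ ∈ ZR (EF χ) η X, (mz (EF χ) ρ : ℝ) ≤
        ∑ r ∈ Icc 1 ⌊X ^ ε⌋₊, ∑ χ ∈ prim r, ∑ ρ ∈ ZR (EF χ) (1 / (θ * Real.log X)) X, (mz (EF χ) ρ : ℝ) := by
      refine sum_le_sum fun r _ => sum_le_sum fun χ _ => ?_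
      have hEF : ∃ s, EF χ s ≠ 0 := ⟨1, EF_ne_zero χ 1 (by simp)⟩
      refine sum_le_sum_of_subset_of_nonneg (fun ρ hρ => ?_) fun _ _ _ => Nat.cast_nonneg _
      rw [mem_ZR _ (EF_diff χ) hEF] at hρ ⊢
      exact ⟨hρ.1, by linarith [hρ.2.1], hρ.2.2⟩
    refine h2.trans (h1.trans ?_)
    have h3 : 1 ≤ Real.exp ((2 + 4 * K₁ * Real.log C₅) * (η * (θ * Real.log X))) :=
      Real.one_le_exp (by positivity)
    have h4 : 0 < (8 * C₂ * K₁ * Real.exp (4 * K₁ * Real.log C₅)) * Real.exp (2 + 4 * K₁ * Real.log C₅) := by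
      positivity
    nlinarith

end Pool.Agent.PSG
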