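import Mathlib

/-!
# Turan's second main theorem
-/

set_option autoImplicit false

noncomputable section

open Finset Complex

namespace Pool.Agent.PSG

theorem tur_mul_log (t : ℝ) (ht : 0 ≤ t) : -(1 / 2) ≤ t * Real.log t := by
  rcases ht.eq_or_lt with rfl | h
  · norm_num
  · have hs : 0 < Real.sqrt t := Real.sqrt_pos.2 h
    have h1 := Real.one_sub_inv_le_log_of_pos hs
    have h2 : Real.log t = 2 * Real.log (Real.sqrt t) := by
      rw [Real.log_sqrt ht]
      ring
    have h3 : Real.sqrt t * Real.sqrt t = t := Real.mul_self_sqrt ht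
    have h4 : t * (1 - (Real.sqrt t)⁻¹) = t - Real.sqrt t := by
      have h5 : t * (Real.sqrt t)⁻¹ = Real.sqrt t := by
        rw [← div_eq_mul_inv, div_eq_iff hs.ne', h3]
      rw [mul_sub, mul_one, h5]
    have h5 : t - Real.sqrt t ≤ t * Real.log (Real.sqrt t) := by
      rw [← h4]
      exact mul_le_mul_of_nonneg_left h1 ht
    rw [h2]
    nlinarith [sq_nonneg (Real.sqrt t - 1 / 2)]

theorem tur_integral (a : ℝ) (h0 : 0 ≤ a) (h1 : a ≤ 1) :
    -(3 / 2) ≤ ∫ x in (1 / 2 : ℝ)..1, Real.log (x - a) := by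
  rw [intervalIntegral.integral_comp_sub_right (fun x => Real.log x) a, integral_log]
  have h2 := tur_mul_log (1 - a) (by linarith)
  rcases le_total a (1 / 2) with h | h
  · have h3 : (1 / 2 - a) * Real.log (1 / 2 - a) ≤ 0 :=
      Real.mul_log_nonpos (by linarith) (by linarith)
    linarith
  · have h3 := tur_mul_log (a - 1 / 2) (by linarith)
    have h4 : (1 / 2 - a) * Real.log (1 / 2 - a) = -((a - 1 / 2) * Real.log (a - 1 / 2)) := by
      rw [← Real.log_neg_eq_log (1 / 2 - a)]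
      have : -(1 / 2 - a) = a - 1 / 2 := by ring
      rw [this]
      ring
    have h5 : (a - 1 / 2) * Real.log (a - 1 / 2) ≤ 0 :=
      Real.mul_log_nonpos (by linarith) (by linarith)
    linarith

theorem tur_int (a : ℝ) : IntervalIntegrable (fun x => Real.log (x - a)) MeasureTheory.volume (1 / 2) 1 := by
  have h := (intervalIntegral.intervalIntegrable_log' (a := 1 / 2 - a) (b := 1 - a)).comp_sub_right a
  simpa using h

/-- The choice of a radius.

Proof. For `a ∈ [0, 1]`, `∫_{1/2}^{1} log |x - a| dx ≥ ∫_{-1/4}^{1/4} log |y| dy = (log (1/4) - 1) / 2 ≥ -1.2` (the integral over an interval of length `1/2` is smallest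
when the interval is centred at the singularity; a cruder bound, with any constant, is enough: e.g. `∫_{1/2}^1 log |x - a| dx ≥ ∫_{-1}^{1} log |y| dy = -2`, because `log |y| ≤ 0`
for `|y| ≤ 1`). So the mean over `x ∈ [1/2, 1]` of `∑_j log |x - a_j|` is at least `-4 n`, and there is a point `r ∈ (1/2, 1)`, different from all the `a_j`, where
`∑_j log |r - a_j| ≥ -4 n` (a set of full measure avoids the `a_j`). -/
theorem radius (n : ℕ) (a : Fin n → ℝ) (h : ∀ j, 0 ≤ a j ∧ a j ≤ 1) :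
    ∃ r : ℝ, 1 / 2 < r ∧ r < 1 ∧ (∀ j, a j ≠ r) ∧ Real.exp (-(4 * n : ℝ)) ≤ ∏ j, |r - a j| := by
  classical
  rcases Nat.eq_zero_or_pos n with rfl | hn
  · exact ⟨3 / 4, by norm_num, by norm_num, fun j => j.elim0, by simp⟩
  by_contra hcon
  push Not at hcon
  have hsum : ∫ x in (1 / 2 : ℝ)..1, ∑ j, Real.log (x - a j) =
      ∑ j, ∫ x in (1 / 2 : ℝ)..1, Real.log (x - a j) :=
    intervalIntegral.integral_finsetSum fun j _ => tur_int (a j)
  have hge : -(3 / 2) * (n : ℝ) ≤ ∫ x in (1 / 2 : ℝ)..1, ∑ j, Real.log (x - a j) := by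
    rw [hsum]
    have h1 : ∑ _j : Fin n, (-(3 / 2) : ℝ) ≤
        ∑ j, ∫ x in (1 / 2 : ℝ)..1, Real.log (x - a j) :=
      Finset.sum_le_sum fun j _ => tur_integral (a j) (h j).1 (h j).2
    rw [Finset.sum_const, Finset.card_univ, Fintype.card_fin, nsmul_eq_mul] at h1
    linarith
  have hle : ∫ x in (1 / 2 : ℝ)..1, ∑ j, Real.log (x - a j) ≤
      ∫ _x in (1 / 2 : ℝ)..1, -(4 * n : ℝ) := by
    have hI : IntervalIntegrable (fun x => ∑ j, Real.log (x - a j)) MeasureTheory.volume (1 / 2) 1 := by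
      have h1 := IntervalIntegrable.sum Finset.univ (fun j _ => tur_int (a j))
      have h2 : (fun x => ∑ j, Real.log (x - a j)) = ∑ j, fun x => Real.log (x - a j) := by
        funext x
        rw [Finset.sum_apply]
      rw [h2]
      exact h1
    refine intervalIntegral.integral_mono_ae_restrict (by norm_num) hI
      intervalIntegrable_const ?_
    have hfin : (MeasureTheory.volume.restrict (Set.Icc (1 / 2 : ℝ) 1))
        (Set.range a ∪ {1 / 2, 1}) = 0 := by
      apply Set.Countable.measure_zero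
      exact (Set.finite_range a).countable.union (Set.toFinite _).countable
    have h1 : ∀ᵐ x ∂(MeasureTheory.volume.restrict (Set.Icc (1 / 2 : ℝ) 1)), x ∉ (Set.range a ∪ {1 / 2, 1}) :=
      MeasureTheory.measure_eq_zero_iff_ae_notMem.1 hfin
    filter_upwards [h1, MeasureTheory.ae_restrict_mem measurableSet_Icc] with x hx hx2
    have hx3 : 1 / 2 < x := lt_of_le_of_ne hx2.1 fun h => hx (Or.inr (Or.inl h.symm))
    have hx4 : x < 1 := lt_of_le_of_ne hx2.2 fun h => hx (Or.inr (Or.inr h))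
    have hx5 : ∀ j, a j ≠ x := fun j h => hx (Or.inl ⟨j, h⟩)
    have h2 := hcon x hx3 hx4 hx5
    have h3 : ∏ j, |x - a j| = Real.exp (∑ j, Real.log (x - a j)) := by
      rw [Real.exp_sum]
      refine Finset.prod_congr rfl fun j _ => ?_
      rw [← Real.log_abs, Real.exp_log (abs_pos.2 (sub_ne_zero.2 (hx5 j).symm))]
    rw [h3, Real.exp_lt_exp] at h2
    exact h2.le
  rw [intervalIntegral.integral_const] at hle
  have hn' : (0 : ℝ) < n := by exact_mod_cast hn
  simp only [smul_eq_mul] at hle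
  linarith

/-- The coefficients of the interpolation polynomial. -/
def tur_p (P : Polynomial ℂ) (n k : ℕ) (ζ : ℂ) : ℂ :=
  ∑ i ∈ range (n + 1), if k < i then P.coeff i * ζ ^ (i - 1 - k) else 0

theorem tur_p_sum (P : Polynomial ℂ) (n : ℕ) (hP : P.natDegree ≤ n) (w ζ : ℂ) :
    (∑ k ∈ range n, w ^ k * tur_p P n k ζ) * (ζ - w) = P.eval ζ - P.eval w := by
  have h1 : ∑ k ∈ range n, w ^ k * tur_p P n k ζ =
      ∑ i ∈ range (n + 1), P.coeff i * ∑ k ∈ range i, w ^ k * ζ ^ (i - 1 - k) := by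
    simp only [tur_p, Finset.mul_sum]
    rw [Finset.sum_comm]
    refine Finset.sum_congr rfl fun i hi => ?_
    have hin : i ≤ n := by rw [Finset.mem_range] at hi; omega
    rw [← Finset.sum_subset (Finset.range_subset_range.2 hin)]
    · refine Finset.sum_congr rfl fun k hk => ?_
      rw [if_pos (Finset.mem_range.1 hk)]
      ring
    · intro k _ hk
      rw [if_neg (by simpa using hk), mul_zero]
  rw [h1, Polynomial.eval_eq_sum_range' (n := n + 1) (by omega),
    Polynomial.eval_eq_sum_range' (n := n + 1) (by omega), ← Finset.sum_sub_distrib,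
    Finset.sum_mul]
  refine Finset.sum_congr rfl fun i _ => ?_
  have h2 : (∑ k ∈ range i, w ^ k * ζ ^ (i - 1 - k)) * (w - ζ) = w ^ i - ζ ^ i :=
    (Commute.all w ζ).geom_sum₂_mul i
  linear_combination -P.coeff i * h2

theorem tur_p_bound (P : Polynomial ℂ) (n k : ℕ) (h : ∀ i, ‖P.coeff i‖ ≤ n.choose i) (ζ : ℂ)
    (hζ : ‖ζ‖ ≤ 1) : ‖tur_p P n k ζ‖ ≤ 2 ^ n := by
  unfold tur_p
  refine (norm_sum_le _ _).trans ?_
  have h1 : ((2 : ℝ) ^ n) = ∑ i ∈ range (n + 1), (n.choose i : ℝ) := by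
    exact_mod_cast (Nat.sum_range_choose n).symm
  rw [h1]
  refine Finset.sum_le_sum fun i _ => ?_
  split_ifs
  · rw [norm_mul, norm_pow]
    calc ‖P.coeff i‖ * ‖ζ‖ ^ (i - 1 - k) ≤ ‖P.coeff i‖ * 1 :=
          mul_le_mul_of_nonneg_left (pow_le_one₀ (norm_nonneg _) hζ) (norm_nonneg _)
      _ ≤ _ := by rw [mul_one]; exact h i
  · rw [norm_zero]
    positivity

theorem tur_p_cont (P : Polynomial ℂ) (n k : ℕ) : Continuous (tur_p P n k) := by
  unfold tur_p
  refine continuous_finsetSum _ fun i _ => ?_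
  split_ifs
  · exact continuous_const.mul (continuous_id.pow _)
  · exact continuous_const

theorem tur_base (r : ℝ) (hr : 0 < r) (w : ℂ) (hw : ‖w‖ ≠ r) :
    (∮ ζ in C(0, r), (ζ - w)⁻¹) = if ‖w‖ < r then 2 * Real.pi * I else 0 := by
  split_ifs with h
  · exact circleIntegral.integral_sub_inv_of_mem_ball (by simpa using h)
  · have h1 : r < ‖w‖ := lt_of_le_of_ne (not_lt.1 h) hw.symm
    apply DiffContOnCl.circleIntegral_eq_zero hr.le
    apply DiffContOnCl.inv
    · exact (differentiable_id.sub_const w).diffContOnCl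
    · intro x hx h2
      rw [closure_ball _ hr.ne', Metric.mem_closedBall, dist_zero_right] at hx
      rw [sub_eq_zero] at h2
      rw [h2] at hx
      linarith

theorem tur_ne (r : ℝ) (hr : 0 < r) {w ζ : ℂ} (hw : ‖w‖ ≠ r) (hζ : ζ ∈ Metric.sphere (0 : ℂ) r) :
    ζ ≠ 0 ∧ ζ - w ≠ 0 := by
  have h1 : ‖ζ‖ = r := by simpa using hζ
  constructor
  · rw [← norm_pos_iff, h1]
    exact hr
  · intro h
    rw [sub_eq_zero] at h
    exact hw (h ▸ h1)

theorem tur_J (r : ℝ) (hr : 0 < r) (w : ℂ) (hw : ‖w‖ ≠ r) (m : ℕ) :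
    w ^ (m + 1) * (∮ ζ in C(0, r), (ζ ^ (m + 1))⁻¹ * (ζ - w)⁻¹) =
      if ‖w‖ < r then 0 else -(2 * Real.pi * I) := by
  have hc : ∀ k : ℕ, CircleIntegrable (fun ζ : ℂ => (ζ ^ k)⁻¹ * (ζ - w)⁻¹) 0 r := by
    intro k
    apply ContinuousOn.circleIntegrable hr.le
    intro ζ hζ
    obtain ⟨h1, h2⟩ := tur_ne r hr hw hζ
    apply ContinuousAt.continuousWithinAt
    exact ((continuousAt_id.pow k).inv₀ (pow_ne_zero _ h1)).mul
      ((continuousAt_id.sub continuousAt_const).inv₀ h2)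
  have hz : ∀ k : ℕ, CircleIntegrable (fun ζ : ℂ => (ζ ^ k)⁻¹) 0 r := by
    intro k
    apply ContinuousOn.circleIntegrable hr.le
    intro ζ hζ
    obtain ⟨h1, -⟩ := tur_ne r hr hw hζ
    apply ContinuousAt.continuousWithinAt
    exact (continuousAt_id.pow k).inv₀ (pow_ne_zero _ h1)
  have hstep : ∀ k : ℕ, w ^ (k + 1) * (∮ ζ in C(0, r), (ζ ^ (k + 1))⁻¹ * (ζ - w)⁻¹) =
      w ^ k * (∮ ζ in C(0, r), (ζ ^ k)⁻¹ * (ζ - w)⁻¹) -
        w ^ k * (∮ ζ in C(0, r), (ζ ^ (k + 1))⁻¹) := by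
    intro k
    rw [← mul_sub, ← circleIntegral.integral_sub (hc k) (hz (k + 1)), pow_succ, mul_assoc,
      ← circleIntegral.integral_const_mul]
    congr 1
    apply circleIntegral.integral_congr hr.le
    intro ζ hζ
    obtain ⟨h1, h2⟩ := tur_ne r hr hw hζ
    simp only []
    field_simp
    ring
  induction m with
  | zero =>
    rw [hstep 0, pow_zero, one_mul, one_mul]
    have h1 : (∮ ζ in C(0, r), (ζ ^ 0)⁻¹ * (ζ - w)⁻¹) = ∮ ζ in C(0, r), (ζ - w)⁻¹ := by
      simp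
    have h2 : (∮ ζ in C(0, r), (ζ ^ (0 + 1))⁻¹) = 2 * Real.pi * I := by
      have h3 := circleIntegral.integral_sub_center_inv (0 : ℂ) hr.ne'
      simpa using h3
    rw [h1, h2, tur_base r hr w hw]
    split_ifs
    · ring
    · ring
  | succ m ih =>
    rw [hstep (m + 1), ih]
    have h1 : (∮ ζ in C(0, r), (ζ ^ (m + 1 + 1))⁻¹) = 0 := by
      have h3 := circleIntegral.integral_sub_zpow_of_ne (n := -((m + 1 + 1 : ℕ) : ℤ)) (by omega)
        (0 : ℂ) 0 r
      simpa only [sub_zero, zpow_neg, zpow_natCast] using h3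
    rw [h1, mul_zero, sub_zero]

theorem tur_main (n : ℕ) (hn : 1 ≤ n) (z : Fin n → ℂ) (hz : ∀ j, ‖z j‖ ≤ 1)
    (hz1 : ∃ j, ‖z j‖ = 1) (m : ℕ) :
    ∃ k ∈ range n, 1 ≤ (4 * Real.exp 4) ^ (n + m) * ‖∑ j, z j ^ (m + 1 + k)‖ := by
  classical
  obtain ⟨r, hr1, hr2, hr3, hr4⟩ := radius n (fun j => ‖z j‖) fun j => ⟨norm_nonneg _, hz j⟩
  have hr : 0 < r := by linarith
  set P : Polynomial ℂ := ∏ j, (Polynomial.X - Polynomial.C (z j)) with hP
  have hmonic : P.Monic := Polynomial.monic_prod_of_monic _ _ fun j _ =>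
    Polynomial.monic_X_sub_C (z j)
  have hdeg : P.natDegree = n := by
    rw [hP, Polynomial.natDegree_prod_of_monic _ _ fun j _ => Polynomial.monic_X_sub_C (z j)]
    simp
  have heval : ∀ ζ : ℂ, P.eval ζ = ∏ j, (ζ - z j) := fun ζ => by
    rw [hP, Polynomial.eval_prod]
    simp
  have hroot : ∀ j, P.eval (z j) = 0 := fun j => by
    rw [heval]
    exact Finset.prod_eq_zero (Finset.mem_univ j) (sub_self _)
  have hcoeff : ∀ i, ‖P.coeff i‖ ≤ n.choose i := by
    intro i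
    have h1 := Polynomial.coeff_le_of_roots_le (p := P) (f := RingHom.id ℂ) (B := 1) i hmonic
      (IsAlgClosed.splits _) (by
        intro w hw
        rw [Polynomial.map_id] at hw
        have h2 : P.eval w = 0 := (Polynomial.mem_roots'.1 hw).2
        rw [heval, Finset.prod_eq_zero_iff] at h2
        obtain ⟨j, -, hj⟩ := h2
        rw [sub_eq_zero] at hj
        rw [hj]
        exact hz j)
    rw [Polynomial.map_id, one_pow, one_mul, hdeg] at h1
    exact h1
  have hlow : ∀ ζ ∈ Metric.sphere (0 : ℂ) r, Real.exp (-(4 * n : ℝ)) ≤ ‖P.eval ζ‖ := by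
    intro ζ hζ
    have h1 : ‖ζ‖ = r := by simpa using hζ
    rw [heval, norm_prod]
    refine hr4.trans (Finset.prod_le_prod (fun j _ => abs_nonneg _) fun j _ => ?_)
    rw [← h1]
    exact abs_norm_sub_norm_le _ _
  have hne : ∀ ζ ∈ Metric.sphere (0 : ℂ) r, P.eval ζ ≠ 0 := by
    intro ζ hζ h
    have h1 := hlow ζ hζ
    rw [h, norm_zero] at h1
    exact absurd h1 (not_le.2 (Real.exp_pos _))
  have hζ0 : ∀ ζ ∈ Metric.sphere (0 : ℂ) r, ζ ≠ 0 := by
    intro ζ hζ
    have h1 : ‖ζ‖ = r := by simpa using hζ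
    rw [← norm_pos_iff, h1]
    exact hr
  set II : ℕ → ℂ := fun k => ∮ ζ in C(0, r), (ζ ^ (m + 1))⁻¹ * (tur_p P n k ζ / P.eval ζ)
    with hII
  have hcI : ∀ k : ℕ, CircleIntegrable
      (fun ζ : ℂ => (ζ ^ (m + 1))⁻¹ * (tur_p P n k ζ / P.eval ζ)) 0 r := by
    intro k
    apply ContinuousOn.circleIntegrable hr.le
    intro ζ hζ
    apply ContinuousAt.continuousWithinAt
    exact ((continuousAt_id.pow (m + 1)).inv₀ (pow_ne_zero _ (hζ0 ζ hζ))).mul
      ((tur_p_cont P n k).continuousAt.div P.continuous.continuousAt (hne ζ hζ))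
  have hIb : ∀ k, ‖II k‖ ≤ 2 * Real.pi * (2 ^ m * (2 ^ n * Real.exp (4 * n))) := by
    intro k
    have h1 : ‖II k‖ ≤ 2 * Real.pi * r * ((r ^ (m + 1))⁻¹ * (2 ^ n * Real.exp (4 * n))) := by
      apply circleIntegral.norm_integral_le_of_norm_le_const hr.le
      intro ζ hζ
      have h2 : ‖ζ‖ = r := by simpa using hζ
      rw [norm_mul, norm_inv, norm_pow, h2, norm_div]
      refine mul_le_mul_of_nonneg_left ?_ (by positivity)
      rw [div_eq_mul_inv]
      refine mul_le_mul (tur_p_bound P n k hcoeff ζ (by rw [h2]; exact hr2.le)) ?_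
        (by positivity) (by positivity)
      rw [inv_le_comm₀ (norm_pos_iff.2 (hne ζ hζ)) (Real.exp_pos _), ← Real.exp_neg]
      exact hlow ζ hζ
    refine h1.trans (le_of_eq_of_le (b := 2 * Real.pi * ((r ^ m)⁻¹ * (2 ^ n * Real.exp (4 * n))))
      ?_ ?_)
    · rw [pow_succ]
      field_simp
    · have h3 : (r ^ m)⁻¹ ≤ 2 ^ m := by
        rw [← inv_pow]
        apply pow_le_pow_left₀ (by positivity)
        rw [inv_le_comm₀ hr (by norm_num)]
        linarith
      gcongr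
  have hJ : ∀ j, ∑ k ∈ range n, z j ^ k * II k =
      ∮ ζ in C(0, r), (ζ ^ (m + 1))⁻¹ * (ζ - z j)⁻¹ := by
    intro j
    have h1 : ∀ k, z j ^ k * II k = ∮ ζ in C(0, r),
        z j ^ k * ((ζ ^ (m + 1))⁻¹ * (tur_p P n k ζ / P.eval ζ)) := fun k => by
      rw [circleIntegral.integral_const_mul]
    simp only [h1]
    rw [← circleIntegral.integral_fun_sum]
    · apply circleIntegral.integral_congr hr.le
      intro ζ hζ
      obtain ⟨h2, h3⟩ := tur_ne r hr (hr3 j) hζ
      have h4 := tur_p_sum P n hdeg.le (z j) ζ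
      rw [hroot j, sub_zero] at h4
      have h5 := hne ζ hζ
      simp only []
      have h6 : ∑ k ∈ range n, z j ^ k * ((ζ ^ (m + 1))⁻¹ * (tur_p P n k ζ / P.eval ζ)) =
          (ζ ^ (m + 1))⁻¹ * ((∑ k ∈ range n, z j ^ k * tur_p P n k ζ) / P.eval ζ) := by
        rw [Finset.sum_div, Finset.mul_sum]
        exact Finset.sum_congr rfl fun k _ => by ring
      rw [h6, ← h4]
      have h7 : (∑ k ∈ range n, z j ^ k * tur_p P n k ζ) ≠ 0 := by
        intro h8
        rw [h8, zero_mul] at h4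
        exact h5 h4.symm
      congr 1
      rw [div_mul_eq_div_div, div_self h7, one_div]
    · intro k _
      have h2 := (hcI k).const_smul (a := z j ^ k)
      simpa only [Pi.smul_def, smul_eq_mul] using h2
  have htot : ∑ k ∈ range n, II k * ∑ j, z j ^ (m + 1 + k) =
      ∑ j, (if ‖z j‖ < r then 0 else -(2 * Real.pi * I)) := by
    simp only [Finset.mul_sum]
    rw [Finset.sum_comm]
    refine Finset.sum_congr rfl fun j _ => ?_
    rw [← tur_J r hr (z j) (hr3 j) m, ← hJ j, Finset.mul_sum]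
    refine Finset.sum_congr rfl fun k _ => ?_
    rw [pow_add]
    ring
  have hlb : 2 * Real.pi ≤ ‖∑ k ∈ range n, II k * ∑ j, z j ^ (m + 1 + k)‖ := by
    rw [htot]
    have h1 : ∑ j, (if ‖z j‖ < r then 0 else -(2 * Real.pi * I)) =
        ((Finset.univ.filter fun j => ¬ ‖z j‖ < r).card : ℂ) * -(2 * Real.pi * I) := by
      rw [← nsmul_eq_mul, ← Finset.sum_const, Finset.sum_filter]
      refine Finset.sum_congr rfl fun j _ => ?_
      by_cases h : ‖z j‖ < r <;> simp [h]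
    rw [h1, norm_mul, norm_neg, norm_mul, norm_mul, Complex.norm_I, mul_one, Complex.norm_natCast,
      Complex.norm_real, Real.norm_of_nonneg Real.pi_pos.le, Complex.norm_ofNat]
    obtain ⟨j, hj⟩ := hz1
    have h2 : 1 ≤ (Finset.univ.filter fun j => ¬ ‖z j‖ < r).card := by
      rw [Nat.one_le_iff_ne_zero, Finset.card_ne_zero]
      exact ⟨j, by simp [hj, hr2.le]⟩
    have h3 : (1 : ℝ) ≤ (Finset.univ.filter fun j => ¬ ‖z j‖ < r).card := by exact_mod_cast h2
    nlinarith [Real.pi_pos]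
  by_contra hcon
  push Not at hcon
  set M : ℝ := (4 * Real.exp 4) ^ (n + m) with hM
  have hMpos : 0 < M := by positivity
  set Q : ℝ := 2 ^ m * (2 ^ n * Real.exp (4 * n)) with hQ
  have hQpos : 0 < Q := by positivity
  have h1 : 2 * Real.pi ≤ ∑ k ∈ range n, 2 * Real.pi * Q * ‖∑ j, z j ^ (m + 1 + k)‖ := by
    refine hlb.trans ((norm_sum_le _ _).trans (Finset.sum_le_sum fun k _ => ?_))
    rw [norm_mul]
    exact mul_le_mul_of_nonneg_right (hIb k) (norm_nonneg _)
  have h2 : ∑ k ∈ range n, 2 * Real.pi * Q * ‖∑ j, z j ^ (m + 1 + k)‖ <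
      ∑ k ∈ range n, 2 * Real.pi * Q * (1 / M) := by
    apply Finset.sum_lt_sum_of_nonempty
    · rw [Finset.nonempty_range_iff]
      omega
    · intro k hk
      have h3 := hcon k hk
      have h4 : ‖∑ j, z j ^ (m + 1 + k)‖ < 1 / M := by
        rw [lt_div_iff₀ hMpos]
        linarith
      exact mul_lt_mul_of_pos_left h4 (by positivity)
  rw [Finset.sum_const, Finset.card_range, nsmul_eq_mul] at h2
  have h3 : (n : ℝ) * Q ≤ M := by
    have h4 : (n : ℝ) ≤ 2 ^ n := by exact_mod_cast Nat.lt_two_pow_self.le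
    have h5 : (2 : ℝ) ^ m ≤ (4 * Real.exp 4) ^ m := by
      apply pow_le_pow_left₀ (by norm_num)
      have := Real.one_le_exp (x := 4) (by norm_num)
      linarith
    have h6 : Real.exp (4 * n) = Real.exp 4 ^ n := by
      rw [← Real.exp_nat_mul]
      congr 1
      ring
    calc (n : ℝ) * Q ≤ 2 ^ n * ((4 * Real.exp 4) ^ m * (2 ^ n * Real.exp (4 * n))) := by
          rw [hQ]
          gcongr
      _ = M := by
          rw [hM, pow_add, h6, mul_pow 4 (Real.exp 4) n]
          have h7 : (4 : ℝ) ^ n = 2 ^ n * 2 ^ n := by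
            rw [← mul_pow]
            norm_num
          rw [h7]
          ring
  have h4 : (n : ℝ) * (2 * Real.pi * Q * (1 / M)) ≤ 2 * Real.pi := by
    have h5 : (n : ℝ) * (2 * Real.pi * Q * (1 / M)) = 2 * Real.pi * (n * Q / M) := by ring
    rw [h5]
    have h6 : (n : ℝ) * Q / M ≤ 1 := (div_le_one hMpos).2 h3
    nlinarith [Real.pi_pos]
  linarith

/-- **Turan's second main theorem**, for power sums.

Proof. Divide by `P`: we may assume `P = 1`. Take `r` from `radius` for `a_j = ‖z j‖`. Let `S_k = ∑_j z_j ^ k`, `D(x) = ∏_j (1 - z_j x)` and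
`N(x) = ∑_j z_j ^ (m + 1) ∏_{i ≠ j} (1 - z_i x)`, a polynomial of degree `< n`. As formal power series `N = D ∑_{k ≥ 0} S_(m + 1 + k) x ^ k`, so (comparing the coefficients of
`x ^ 0, ..., x ^ (n - 1)`, `N` has no others) `N` is the sum of the first `n` terms of `D(x) ∑_{k < n} S_(m + 1 + k) x ^ k`. Let `μ = max_{m < k ≤ m + n} |S_k|`. The coefficients of `D`
have absolute values with sum at most `2 ^ n`, so the coefficients of `N` are at most `2 ^ n μ` each.
On the circle `|x| = 1 / r`: `|N(x)| ≤ n 2 ^ n μ r ^ (-n)` and `|D(x)| ≥ ∏_j |1 - ‖z_j‖ / r| = r ^ (-n) ∏ |r - ‖z_j‖| ≥ exp (-4 n)`. Now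
`(1 / (2 π i)) ∮_{|x| = 1/r} x ^ m (N(x) / D(x)) dx = ∑_j (1 / (2 π i)) ∮ x ^ m z_j ^ (m + 1) / (1 - z_j x) dx`, where the `j`-th term is `0` if `‖z_j‖ < r` (the integrand is analytic in the
closed disc) and `-1` if `‖z_j‖ > r` (Cauchy's integral formula: `z_j ^ (m+1) / (1 - z_j x) = - z_j ^ m / (x - 1 / z_j)`, value `-z_j ^ m (1 / z_j) ^ m = -1`). Since some `‖z_j‖ = 1 > r`, the modulus
of the sum is at least `1`. So `1 ≤ (1 / r) (1 / r) ^ m n 2 ^ n μ r ^ (-n) exp (4 n) ≤ 2 ^ (m + 1 + n) 4 ^ n μ exp (4 n) ≤ μ A ^ (n + m)` with `A = 2000`, say. -/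
theorem turan : ∃ A : ℝ, 1 ≤ A ∧ ∀ (n : ℕ), 1 ≤ n → ∀ (z : Fin n → ℂ) (P : ℝ), 0 < P → (∀ j, ‖z j‖ ≤ P) →
    (∃ j, ‖z j‖ = P) → ∀ m : ℕ, ∃ k : ℕ, m + 1 ≤ k ∧ k ≤ m + n ∧ P ^ k ≤ A ^ (n + m) * ‖∑ j, z j ^ k‖ := by
  refine ⟨4 * Real.exp 4, ?_, fun n hn z P hP hz hz1 m => ?_⟩
  · have := Real.one_le_exp (x := 4) (by norm_num)
    linarith
  · obtain ⟨k, hk, h⟩ := tur_main n hn (fun j => z j / P) (fun j => by
      rw [norm_div, Complex.norm_real, Real.norm_of_nonneg hP.le]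
      exact (div_le_one hP).2 (hz j)) (by
      obtain ⟨j, hj⟩ := hz1
      refine ⟨j, ?_⟩
      rw [norm_div, Complex.norm_real, Real.norm_of_nonneg hP.le, hj, div_self hP.ne']) m
    rw [Finset.mem_range] at hk
    refine ⟨m + 1 + k, by omega, by omega, ?_⟩
    have h1 : ∑ j, (z j / P) ^ (m + 1 + k) = (∑ j, z j ^ (m + 1 + k)) / (P : ℂ) ^ (m + 1 + k) := by
      rw [Finset.sum_div]
      exact Finset.sum_congr rfl fun j _ => div_pow _ _ _
    rw [h1, norm_div, norm_pow, Complex.norm_real, Real.norm_of_nonneg hP.le, ← mul_div_assoc,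
      le_div_iff₀ (pow_pos hP _), one_mul] at h
    exact h

end Pool.Agent.PSG
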