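import Pool.Agent.W_b58c63_h44.LCt
import Pool.Agent.W_b58c63_h44.Tur
import Pool.Agent.W_b58c63_h68.SRec

/-!
# Detection of zeros by power sums
-/

set_option autoImplicit false
noncomputable section
open Finset Complex
namespace Pool.Agent.PSG

theorem iter_inv_sub (j : ℕ) (a s : ℂ) :
    iteratedDeriv j (fun z : ℂ => 1 / (z - a)) s = (-1) ^ j * (j.factorial : ℂ) * (1 / (s - a)) ^ (j + 1) := by
  have h := iter_deriv_inv_linear_sub (𝕜 := ℂ) j 1 a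
  rw [iteratedDeriv_eq_iterate]
  have h2 : (fun z : ℂ => 1 / (z - a)) = fun x => (1 * x - a)⁻¹ := by
    funext z; rw [one_mul, one_div]
  rw [h2, h]
  simp only [one_pow, mul_one, one_mul]
  congr 1
  rw [one_div, inv_pow, ← zpow_natCast, ← zpow_neg]
  congr 1
  push_cast
  ring

theorem contDiffAt_inv_sub (j : ℕ) (a s : ℂ) (h : s ≠ a) :
    ContDiffAt ℂ j (fun z : ℂ => 1 / (z - a)) s := by
  apply ContDiffAt.div contDiffAt_const (contDiffAt_id.sub contDiffAt_const)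
  exact sub_ne_zero.2 h

/-- The derivatives of a partial fraction formula. -/
theorem det_iter (j : ℕ) (Z : Finset ℂ) (m : ℂ → ℕ) (s₀ s₁ d : ℂ) (R M : ℝ) (H G : ℂ → ℂ) (hR : 0 < R)
    (hH : DifferentiableOn ℂ H (Metric.ball s₀ (R / 2))) (hM : ∀ s, ‖s - s₀‖ ≤ R / 4 → ‖H s‖ ≤ M)
    (h1 : ‖s₁ - s₀‖ ≤ R / 16) (hZ : ∀ ρ ∈ Z, s₁ ≠ ρ) (h11 : s₁ ≠ 1)
    (hG : G =ᶠ[nhds s₁] fun s => ∑ ρ ∈ Z, (m ρ : ℂ) / (s - ρ) + H s - d / (s - 1)) :
    ‖(-1) ^ j / (j.factorial : ℂ) * iteratedDeriv j G s₁ -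
      (∑ ρ ∈ Z, (m ρ : ℂ) * (1 / (s₁ - ρ)) ^ (j + 1) - d * (1 / (s₁ - 1)) ^ (j + 1))‖ ≤ M * (8 / R) ^ j := by
  have hj0 : (j.factorial : ℂ) ≠ 0 := by exact_mod_cast j.factorial_ne_zero
  have hball : s₁ ∈ Metric.ball s₀ (R / 2) := by
    rw [Metric.mem_ball, dist_eq_norm]; linarith
  have hHa : AnalyticAt ℂ H s₁ := hH.analyticAt (Metric.isOpen_ball.mem_nhds hball)
  have hHc : ContDiffAt ℂ j H s₁ := hHa.contDiffAt
  have e1 : iteratedDeriv j G s₁ = ∑ ρ ∈ Z, (m ρ : ℂ) * ((-1) ^ j * (j.factorial : ℂ) * (1 / (s₁ - ρ)) ^ (j + 1)) +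
      iteratedDeriv j H s₁ - d * ((-1) ^ j * (j.factorial : ℂ) * (1 / (s₁ - 1)) ^ (j + 1)) := by
    rw [hG.iteratedDeriv_eq]
    have f1 : (fun s => ∑ ρ ∈ Z, (m ρ : ℂ) / (s - ρ) + H s - d / (s - 1)) =
        (fun s => ((∑ ρ ∈ Z, (m ρ : ℂ) * (1 / (s - ρ))) + H s) - d * (1 / (s - 1))) := by
      funext s
      simp only [mul_one_div]
    rw [f1]
    have c1 : ContDiffAt ℂ j (fun s => ∑ ρ ∈ Z, (m ρ : ℂ) * (1 / (s - ρ))) s₁ :=
      ContDiffAt.sum fun ρ hρ => contDiffAt_const.mul (contDiffAt_inv_sub j ρ s₁ (hZ ρ hρ))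
    rw [iteratedDeriv_fun_sub (c1.add hHc) (contDiffAt_const.mul (contDiffAt_inv_sub j 1 s₁ h11)),
      iteratedDeriv_fun_add c1 hHc,
      iteratedDeriv_fun_sum (fun ρ hρ => contDiffAt_const.mul (contDiffAt_inv_sub j ρ s₁ (hZ ρ hρ)))]
    congr 1
    · congr 1
      refine Finset.sum_congr rfl fun ρ hρ => ?_
      rw [iteratedDeriv_const_mul_field, iter_inv_sub]
    · rw [iteratedDeriv_const_mul_field, iter_inv_sub]
  have hb : ‖iteratedDeriv j H s₁‖ ≤ j.factorial * M / (R / 8) ^ j := by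
    apply Complex.norm_iteratedDeriv_le_of_forall_mem_sphere_norm_le j (by positivity)
    · apply DifferentiableOn.diffContOnCl
      rw [closure_ball _ (by positivity)]
      apply hH.mono
      intro z hz
      rw [Metric.mem_closedBall, dist_eq_norm] at hz
      rw [Metric.mem_ball, dist_eq_norm]
      calc ‖z - s₀‖ = ‖(z - s₁) + (s₁ - s₀)‖ := by ring_nf
        _ ≤ ‖z - s₁‖ + ‖s₁ - s₀‖ := norm_add_le _ _
        _ < R / 2 := by linarith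
    · intro z hz
      rw [mem_sphere_iff_norm] at hz
      apply hM
      calc ‖z - s₀‖ = ‖(z - s₁) + (s₁ - s₀)‖ := by ring_nf
        _ ≤ ‖z - s₁‖ + ‖s₁ - s₀‖ := norm_add_le _ _
        _ ≤ R / 4 := by linarith
  have e2 : (-1) ^ j / (j.factorial : ℂ) * iteratedDeriv j G s₁ -
      (∑ ρ ∈ Z, (m ρ : ℂ) * (1 / (s₁ - ρ)) ^ (j + 1) - d * (1 / (s₁ - 1)) ^ (j + 1)) =
      (-1) ^ j / (j.factorial : ℂ) * iteratedDeriv j H s₁ := by
    have s1 : ((-1 : ℂ) ^ j) * (-1) ^ j = 1 := by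
      rw [← pow_add, ← two_mul, pow_mul]; norm_num
    have s2 : ∀ x : ℂ, (-1) ^ j / (j.factorial : ℂ) * ((-1) ^ j * (j.factorial : ℂ) * x) = x := by
      intro x
      calc (-1) ^ j / (j.factorial : ℂ) * ((-1) ^ j * (j.factorial : ℂ) * x)
          = (((-1 : ℂ) ^ j) * (-1) ^ j) * ((j.factorial : ℂ) / (j.factorial : ℂ)) * x := by ring
        _ = x := by rw [s1, div_self hj0]; ring
    rw [e1]
    have s3 : (-1) ^ j / (j.factorial : ℂ) * ∑ ρ ∈ Z, (m ρ : ℂ) * ((-1) ^ j * (j.factorial : ℂ) * (1 / (s₁ - ρ)) ^ (j + 1)) =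
        ∑ ρ ∈ Z, (m ρ : ℂ) * (1 / (s₁ - ρ)) ^ (j + 1) := by
      rw [Finset.mul_sum]
      refine Finset.sum_congr rfl fun ρ _ => ?_
      rw [mul_left_comm, s2]
    have s4 : (-1) ^ j / (j.factorial : ℂ) * (d * ((-1) ^ j * (j.factorial : ℂ) * (1 / (s₁ - 1)) ^ (j + 1))) =
        d * (1 / (s₁ - 1)) ^ (j + 1) := by
      rw [mul_left_comm, s2]
    rw [mul_sub, mul_add, s3, s4]
    ring
  rw [e2, norm_mul, norm_div, norm_pow, norm_neg, norm_one, one_pow, Complex.norm_natCast]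
  have hf : (0 : ℝ) < j.factorial := by exact_mod_cast j.factorial_pos
  calc 1 / (j.factorial : ℝ) * ‖iteratedDeriv j H s₁‖ ≤ 1 / (j.factorial : ℝ) * (j.factorial * M / (R / 8) ^ j) := by gcongr
    _ = M * (8 / R) ^ j := by
      rw [div_pow, div_pow]
      field_simp


/-- Turan's theorem for a finset with multiplicities. -/
theorem det_turan {A : ℝ} (hA : 1 ≤ A) (hT : ∀ (n : ℕ), 1 ≤ n → ∀ (z : Fin n → ℂ) (P : ℝ), 0 < P → (∀ j, ‖z j‖ ≤ P) →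
    (∃ j, ‖z j‖ = P) → ∀ m : ℕ, ∃ k : ℕ, m + 1 ≤ k ∧ k ≤ m + n ∧ P ^ k ≤ A ^ (n + m) * ‖∑ j, z j ^ k‖)
    (N : Finset ℂ) (m : ℂ → ℕ) (w : ℂ → ℂ) (ρ : ℂ) (hρ : ρ ∈ N) (hm : 1 ≤ m ρ) (b : ℝ) (hb : 0 < b) (hw : b ≤ ‖w ρ‖)
    (M : ℕ) (hM : ∑ ρ ∈ N, m ρ ≤ M) :
    ∃ k : ℕ, M + 1 ≤ k ∧ k ≤ 2 * M ∧ (b / A ^ 2) ^ k ≤ ‖∑ ρ ∈ N, (m ρ : ℂ) * w ρ ^ k‖ := by
  classical
  let ι : Type := Σ ρ : N, Fin (m ρ)
  have hcard : Fintype.card (Σ ρ : N, Fin (m ρ)) = ∑ ρ ∈ N, m ρ := by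
    rw [Fintype.card_sigma]
    simp only [Fintype.card_fin]
    exact Finset.sum_coe_sort N m
  obtain ⟨n, hn⟩ : ∃ n, n = Fintype.card ι := ⟨_, rfl⟩
  have hn1 : 1 ≤ n := by
    rw [hn]
    change 1 ≤ Fintype.card (Σ ρ : N, Fin (m ρ))
    rw [hcard]
    exact hm.trans (Finset.single_le_sum (f := m) (fun _ _ => Nat.zero_le _) hρ)
  have hcard' : n = ∑ ρ ∈ N, m ρ := hn.trans hcard
  let e : Fin n ≃ ι := (Fintype.equivFinOfCardEq hn.symm).symm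
  let z : Fin n → ℂ := fun j => w (e j).1
  have : Nonempty (Fin n) := ⟨⟨0, hn1⟩⟩
  obtain ⟨j₀, hj₀⟩ := Finite.exists_max (fun j => ‖z j‖)
  have hP0 : b ≤ ‖z j₀‖ := by
    refine hw.trans ?_
    have := hj₀ (e.symm ⟨⟨ρ, hρ⟩, ⟨0, hm⟩⟩)
    simpa [z] using this
  obtain ⟨k, hk1, hk2, hk3⟩ := hT n hn1 z ‖z j₀‖ (hb.trans_le hP0) hj₀ ⟨j₀, rfl⟩ M
  refine ⟨k, hk1, by omega, ?_⟩
  have hs : ∑ j, z j ^ k = ∑ ρ ∈ N, (m ρ : ℂ) * w ρ ^ k := by
    have h1 : ∑ j, z j ^ k = ∑ i : ι, w i.1 ^ k := Equiv.sum_comp e (fun i : ι => w i.1 ^ k)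
    rw [h1, Fintype.sum_sigma]
    simp only [Finset.sum_const, Finset.card_univ, Fintype.card_fin, nsmul_eq_mul]
    exact Finset.sum_coe_sort N (fun ρ => (m ρ : ℂ) * w ρ ^ k)
  rw [hs] at hk3
  have hA0 : (0 : ℝ) < A := by linarith only [hA]
  have h2 : A ^ (n + M) ≤ A ^ (2 * k) := pow_le_pow_right₀ hA (by omega)
  have h3 : b ^ k ≤ A ^ (2 * k) * ‖∑ ρ ∈ N, (m ρ : ℂ) * w ρ ^ k‖ :=
    (pow_le_pow_left₀ hb.le hP0 k).trans (hk3.trans (mul_le_mul_of_nonneg_right h2 (norm_nonneg _)))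
  rw [div_pow, ← pow_mul, div_le_iff₀ (by positivity), mul_comm]
  exact h3

/-- The far zeros. -/
theorem det_far (F : Finset ℂ) (m : ℂ → ℕ) (s₁ : ℂ) (r V : ℝ) (hr : 0 < r) (k : ℕ) (hk : 2 ≤ k)
    (hF : ∀ ρ ∈ F, r ≤ ‖s₁ - ρ‖) (hV : ∑ ρ ∈ F, (m ρ : ℝ) * (1 / ‖s₁ - ρ‖) ^ 2 ≤ V) :
    ‖∑ ρ ∈ F, (m ρ : ℂ) * (1 / (s₁ - ρ)) ^ k‖ ≤ r⁻¹ ^ k * (r ^ 2 * V) := by
  obtain ⟨j, rfl⟩ : ∃ j, k = j + 2 := ⟨k - 2, by omega⟩
  refine (norm_sum_le _ _).trans ?_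
  have h1 : ∀ ρ ∈ F, ‖(m ρ : ℂ) * (1 / (s₁ - ρ)) ^ (j + 2)‖ ≤ r⁻¹ ^ j * ((m ρ : ℝ) * (1 / ‖s₁ - ρ‖) ^ 2) := by
    intro ρ hρ
    rw [norm_mul, norm_pow, norm_div, norm_one, Complex.norm_natCast, pow_add]
    have h2 : (1 / ‖s₁ - ρ‖) ^ j ≤ r⁻¹ ^ j := by
      apply pow_le_pow_left₀ (by positivity)
      rw [one_div]
      exact inv_anti₀ hr (hF ρ hρ)
    calc (m ρ : ℝ) * ((1 / ‖s₁ - ρ‖) ^ j * (1 / ‖s₁ - ρ‖) ^ 2)
        = (1 / ‖s₁ - ρ‖) ^ j * ((m ρ : ℝ) * (1 / ‖s₁ - ρ‖) ^ 2) := by ring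
      _ ≤ _ := mul_le_mul_of_nonneg_right h2 (by positivity)
  refine (Finset.sum_le_sum h1).trans ?_
  rw [← Finset.mul_sum]
  have h3 : r⁻¹ ^ (j + 2) * (r ^ 2 * V) = r⁻¹ ^ j * V := by
    rw [pow_add]
    field_simp
  rw [h3]
  exact mul_le_mul_of_nonneg_left hV (by positivity)

/-- The growth of powers. -/
theorem det_pow (c y a : ℝ) (k : ℕ) (x L : ℝ) (hx : 1 ≤ x) (hc : 0 < c) (hL : 0 < L) (hy : y = c * L / x) (hy16 : 16 ≤ y)
    (hk : 2 + x ≤ k) (ha : a ≤ c ^ 2 * L) : a * L ≤ y ^ k := by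
  have hk2 : 2 ≤ k := by
    have : (2 : ℝ) ≤ k := by linarith
    exact_mod_cast this
  obtain ⟨j, rfl⟩ : ∃ j, k = j + 2 := ⟨k - 2, by omega⟩
  have hj : x ≤ j := by push_cast at hk; linarith
  have h1 : (j : ℝ) ^ 2 ≤ y ^ j := by
    have h2 : (j : ℝ) ≤ 2 ^ j := by exact_mod_cast (Nat.lt_two_pow_self (n := j)).le
    calc (j : ℝ) ^ 2 ≤ (2 ^ j) ^ 2 := by gcongr
      _ = 4 ^ j := by rw [← pow_mul, mul_comm, pow_mul]; norm_num
      _ ≤ y ^ j := by apply pow_le_pow_left₀ (by norm_num); linarith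
  have h3 : x ^ 2 ≤ y ^ j := (pow_le_pow_left₀ (by linarith) hj 2).trans h1
  calc a * L ≤ c ^ 2 * L * L := by gcongr
    _ = x ^ 2 * (c * L / x) ^ 2 := by field_simp
    _ ≤ y ^ j * (c * L / x) ^ 2 := by gcongr
    _ = y ^ (j + 2) := by rw [← hy]; ring


/-- The derivatives of the logarithmic derivative as a Dirichlet series.

Proof. For `Re s > 1`, `-L'/L(s) = ∑ Λ(n) χ(n) n ^ (-s)` (`ld_series`), and the iterated derivatives of an L-series are the L-series with the coefficients multiplied by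
`(-log n) ^ j` (`LSeries_iteratedDeriv`; see `SRec.lean` of `W_b58c63_h68`: `sw_summable`, `SRec_iter`). Multiply by `η ^ k / (k - 1)!` with `Re s = 1 + η` and use
`n ^ (-s) = n ^ (-(1 + i γ)) exp (-η log n)`. -/
theorem det_series {q : ℕ} [NeZero q] (χ : DirichletCharacter ℂ q) (k : ℕ) (hk : 1 ≤ k) (η γ : ℝ) (hη : 0 < η) :
    HasSum (fun n : ℕ => (ArithmeticFunction.vonMangoldt n : ℂ) * χ (n : ZMod q) * (n : ℂ) ^ (-(1 + γ * I)) *
      ((η * jk (k - 1) (η * Real.log n) : ℝ) : ℂ))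
      ((-1) ^ k * (η : ℂ) ^ k / ((k - 1).factorial : ℂ) * iteratedDeriv (k - 1)
        (fun s => deriv (DirichletCharacter.LFunction χ) s / DirichletCharacter.LFunction χ s) (1 + η + γ * I)) := by
  obtain ⟨j, rfl⟩ : ∃ j, k = j + 1 := ⟨k - 1, by omega⟩
  simp only [Nat.add_sub_cancel]
  set s₁ : ℂ := 1 + η + γ * I with hs₁
  have hre : 1 < s₁.re := by simp [hs₁, hη]
  set f : ℕ → ℂ := fun n => χ (n : ZMod q) * ((ArithmeticFunction.vonMangoldt n : ℝ) : ℂ) with hf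
  have hfs : ∀ s : ℂ, 1 < s.re → LSeriesSummable f s := fun s hs =>
    DirichletCharacter.LSeriesSummable_twist_vonMangoldt χ hs
  have hterm : ∀ s : ℂ, (fun n => LSeries.term f s n) = fun n : ℕ =>
      (ArithmeticFunction.vonMangoldt n : ℂ) * χ (n : ZMod q) * (n : ℂ) ^ (-s) := by
    intro s
    funext n
    rcases Nat.eq_zero_or_pos n with rfl | hn
    · simp
    · rw [LSeries.term_of_ne_zero (by omega), Complex.cpow_neg, hf, div_eq_mul_inv]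
      ring
  have hL : ∀ s : ℂ, 1 < s.re → deriv (DirichletCharacter.LFunction χ) s / DirichletCharacter.LFunction χ s =
      - LSeries f s := by
    intro s hs
    have h1 := (ld_series χ s hs).tsum_eq
    rw [← hterm s] at h1
    rw [LSeries, h1, neg_neg]
  have hev : (fun s => deriv (DirichletCharacter.LFunction χ) s / DirichletCharacter.LFunction χ s) =ᶠ[nhds s₁]
      fun s => - LSeries f s := by
    have h2 : {z : ℂ | 1 < z.re} ∈ nhds s₁ :=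
      (isOpen_lt continuous_const Complex.continuous_re).mem_nhds hre
    filter_upwards [h2] with z hz
    exact hL z hz
  have hit : LSeries.logMul^[j] f = fun n => f n * ((Real.log n : ℝ) : ℂ) ^ j := funext (Wb58c63.SRec_iter f j)
  have hder : iteratedDeriv j (fun s => deriv (DirichletCharacter.LFunction χ) s / DirichletCharacter.LFunction χ s) s₁ =
      - ((-1) ^ j * LSeries (fun n => f n * ((Real.log n : ℝ) : ℂ) ^ j) s₁) := by
    rw [hev.iteratedDeriv_eq, iteratedDeriv_fun_neg, LSeries_iteratedDeriv j (Wb58c63.SRec_lt hfs hre), hit]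
  have hsum := (Wb58c63.SRec_sum f hfs j hre).hasSum
  have hc := hsum.mul_left ((η : ℂ) ^ (j + 1) / (j.factorial : ℂ))
  have hval : (-1) ^ (j + 1) * (η : ℂ) ^ (j + 1) / (j.factorial : ℂ) *
      iteratedDeriv j (fun s => deriv (DirichletCharacter.LFunction χ) s / DirichletCharacter.LFunction χ s) s₁ =
      (η : ℂ) ^ (j + 1) / (j.factorial : ℂ) * ∑' n, LSeries.term (fun n => f n * ((Real.log n : ℝ) : ℂ) ^ j) s₁ n := by
    rw [hder]
    change _ = (η : ℂ) ^ (j + 1) / (j.factorial : ℂ) * LSeries (fun n => f n * ((Real.log n : ℝ) : ℂ) ^ j) s₁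
    have s1 : ((-1 : ℂ) ^ j) * (-1) ^ j = 1 := by
      rw [← pow_add, ← two_mul, pow_mul]; norm_num
    calc _ = (((-1 : ℂ) ^ j) * (-1) ^ j) * ((η : ℂ) ^ (j + 1) / (j.factorial : ℂ) *
        LSeries (fun n => f n * ((Real.log n : ℝ) : ℂ) ^ j) s₁) := by ring
      _ = _ := by rw [s1, one_mul]
  rw [hval]
  refine hc.congr_fun fun n => ?_
  rcases Nat.eq_zero_or_pos n with rfl | hn
  · simp
  · have hn0 : (n : ℂ) ≠ 0 := by exact_mod_cast hn.ne'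
    rw [LSeries.term_of_ne_zero (by omega), hf, jk]
    have e1 : (n : ℂ) ^ s₁ = (n : ℂ) ^ (1 + γ * I) * Complex.exp (((η * Real.log n : ℝ) : ℂ)) := by
      rw [Complex.cpow_def_of_ne_zero hn0, Complex.cpow_def_of_ne_zero hn0, ← Complex.exp_add, hs₁,
        ← Complex.natCast_log]
      congr 1
      push_cast
      ring
    have e2 : (n : ℂ) ^ (-(1 + γ * I)) = ((n : ℂ) ^ (1 + γ * I))⁻¹ := Complex.cpow_neg _ _
    have e3 : ((Real.exp (-(η * Real.log n)) : ℝ) : ℂ) = (Complex.exp (((η * Real.log n : ℝ) : ℂ)))⁻¹ := by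
      rw [Real.exp_neg]
      push_cast
      rfl
    have e4 : ((η * (Real.exp (-(η * Real.log n)) * (η * Real.log n) ^ j / (j.factorial : ℝ)) : ℝ) : ℂ) =
        (η : ℂ) * (((Real.exp (-(η * Real.log n)) : ℝ) : ℂ) * ((η : ℂ) * ((Real.log n : ℝ) : ℂ)) ^ j / (j.factorial : ℂ)) := by
      push_cast
      ring
    rw [e4, e3, e1, e2]
    have h1 : (n : ℂ) ^ (1 + γ * I) ≠ 0 := by
      rw [Complex.cpow_def_of_ne_zero hn0]
      exact Complex.exp_ne_zero _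
    have h2 : Complex.exp (((η * Real.log n : ℝ) : ℂ)) ≠ 0 := Complex.exp_ne_zero _
    have h3 : (j.factorial : ℂ) ≠ 0 := by exact_mod_cast j.factorial_ne_zero
    simp only []
    field_simp
    rw [mul_pow]
    ring

/-- **Detection of a zero**, in terms of the zeros.

Proof. Let `A` be the constant of `turan`, `C₁` of `LA`, `C₂` of `local_count`, `D = 16 A ^ 2`, `B = 8 A ^ 2`, `K₀` large in terms of `A, C₂` (see below). Given `K₁ ≥ K₀` and `θ`, let `R₀` be from `LA θ`,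
`κ'` from `local_count θ` (we may take `κ' ≤ R₀ / 8`), `κ` small: `κ ≤ κ' / (64 A ^ 2 (D + 2))`, and also `κ ≤ R₀ / (256 A ^ 2)`, `κ ≤ r₁ / (64 A ^ 2)` (`r₁` from `zeta_near_one`); `L = θ log X` large.
Let `ρ` be the given zero, `γ = ρ.im`, `s₁ = 1 + η + i γ`, `s₀ = cen θ X γ`, `‖s₁ - s₀‖ ≤ η ≤ R₀ / 16`. `NZ` = the zeros in `zb (EF χ) s₀ (R₀ / 2)` (with multiplicity), near zeros: `‖s₁ - ρ'‖ ≤ D η`.
(1) The near zeros are within `(D + 1) η ≤ κ'` of `1 + i γ`, so their number `n` (with multiplicity) is at most `C₂ (1 + (D + 1) η L)`; `n ≥ 1` since `‖s₁ - ρ‖ ≤ 2 η`. Let `m = ⌈K₁ (1 + η L)⌉ ≥ n` (`K₀ ≥ C₂ (D + 1)`). `turan` for the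
numbers `1 / (s₁ - ρ')` (near zeros repeated with their multiplicity; enumerate the multiset by `Fin n`), `P ≥ 1 / (2 η)`, gives `k ∈ [m + 1, m + n]` with `‖∑_{near} m(ρ') / (s₁ - ρ') ^ k‖ ≥ (2 η) ^ (-k) A ^ (-2 k)
= (2 A ^ 2 η) ^ (-k)` (`n + m ≤ 2 k`). `k ≤ 2 m ≤ 4 K₁ (1 + η L)`.
(2) Far zeros with `‖s₁ - ρ'‖ ≤ κ' / 2`: in dyadic shells `2 ^ i D η < ‖s₁ - ρ'‖ ≤ 2 ^ (i+1) D η`; the number in a shell is at most `C₂ (1 + (2 ^ (i+1) D + 1) η L) ≤ C₂ 2 ^ (i + 2) D (1 + η L)` (or for radii above `κ'` intersect with `κ' / 2`, monotonicity), so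
they contribute at most `∑_i (2 ^ i D η) ^ (-k) C₂ 2 ^ (i+2) D (1 + η L) ≤ 8 C₂ D (1 + η L) (D η) ^ (-k)` (`k ≥ 2`). As `D / (2 A ^ 2) = 8` this is at most `8 C₂ D (1 + η L) 8 ^ (-k) (2 A ^ 2 η) ^ (-k) ≤ (1/8) (2 A ^ 2 η) ^ (-k)`, for
`k ≥ K₀ (1 + η L)`, `K₀` large in terms of `C₂, D`.
(3) The other zeros, `‖s₁ - ρ'‖ > κ' / 2`, number at most `C₁ L` (`LAat`): at most `C₁ L (2 / κ') ^ k`, and `H`: the derivative of order `k - 1` of `H` at `s₁`, divided by `(k - 1)!`, is at most `C₁ L (8 / R₀) ^ k`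
(Cauchy's estimate in the ball of radius `R₀ / 8` about `s₁`, contained in the ball of radius `R₀ / 4` about `s₀`: `Complex.norm_iteratedDeriv_le_of_forall_mem_sphere_norm_le`). Both are at most `(1/8) (2 A ^ 2 η) ^ (-k)`: let `u = κ' / (4 A ^ 2 η)` or
`R₀ / (16 A ^ 2 η)`, `u ≥ 16`; we need `u ^ k ≥ 8 C₁ L`. If `η ≥ L ^ (-1/2)` then `k ≥ L ^ (1/2)` and `16 ^ k ≥ 8 C₁ L` for large `L`; if `η < L ^ (-1/2)` then `u ≥ c L ^ (1/2)` and `k ≥ 4`, so `u ^ k ≥ c ^ 4 L ^ 2 ≥ 8 C₁ L`.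
(4) So with `EF'/EF(s) = ∑ m(ρ') / (s - ρ') + H(s)`, whose `(k-1)`-st derivative times `(-1) ^ (k-1) / (k-1)!` is `∑ m(ρ') / (s - ρ') ^ k ± H^(k-1) / (k-1)!`: it is at least `(5/8) (2 A ^ 2 η) ^ (-k)` in norm at `s₁`. `L'/L = EF'/EF - dl χ / (s - 1)`
(`EF_ld`, near `s₁`), and for `χ = 1` the last term contributes `‖s₁ - 1‖ ^ (-k) ≤ r₁ ^ (-k) ≤ (1/8) (2 A ^ 2 η) ^ (-k)` because `|γ| ≥ r₁` (`EF_zero_one`, `zeta_near_one`, as `1 - β ≤ η ≤ r₁`). Multiply by `η ^ k`: at least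
`(1/2) (2 A ^ 2) ^ (-k) ≥ B ^ (-k)`. By `det_series` this is the value of the Dirichlet series, up to sign. -/
theorem detect [WI] : ∃ B K₀ : ℝ, 1 ≤ B ∧ 1 ≤ K₀ ∧ ∀ K₁ : ℝ, K₀ ≤ K₁ → ∀ θ : ℝ, 0 < θ → θ ≤ 1 →
    ∃ ε κ X₀ : ℝ, 0 < ε ∧ 0 < κ ∧ κ ≤ 1 / 16 ∧ 3 ≤ X₀ ∧
    ∀ X : ℝ, X₀ ≤ X → ∀ (q : ℕ), 1 ≤ q → (q : ℝ) ≤ X ^ ε → ∀ χ : DirichletCharacter ℂ q,
    ∀ η : ℝ, 1 / (θ * Real.log X) ≤ η → η ≤ κ → ∀ ρ : ℂ, EF χ ρ = 0 → 1 - η ≤ ρ.re → |ρ.im| ≤ X →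
    ∃ k : ℕ, K₁ * (1 + η * (θ * Real.log X)) ≤ k ∧ (k : ℝ) ≤ 4 * K₁ * (1 + η * (θ * Real.log X)) ∧
      B ^ (-(k : ℝ)) ≤ ‖∑' n : ℕ, (ArithmeticFunction.vonMangoldt n : ℂ) * χ (n : ZMod q) *
        (n : ℂ) ^ (-(1 + ρ.im * I)) * ((η * jk (k - 1) (η * Real.log n) : ℝ) : ℂ)‖ := by
  obtain ⟨A, hA, hT⟩ := turan
  obtain ⟨C₁, hC₁, hLA⟩ := LA
  obtain ⟨C₂, hC₂, hLC⟩ := local_count
  obtain ⟨C₃, hC₃, hLD⟩ := ld_triv
  obtain ⟨r₁, hr₁, hr₁', hZN⟩ := zeta_near_one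
  set D : ℝ := 16 * A ^ 2 with hD
  have hA2 : 1 ≤ A ^ 2 := one_le_pow₀ hA
  have hD16 : 16 ≤ D := by rw [hD]; linarith
  set C₄ : ℝ := 2 + C₃ + C₁ with hC₄
  have hD0 : 0 < D := by linarith
  have hC₄0 : 0 < C₄ := by linarith
  have hp1 : 0 < C₂ * (D + 1) := mul_pos (by linarith) (by linarith)
  have hp2 : 0 < 8 * D ^ 2 * C₄ := by positivity
  refine ⟨8 * A ^ 2, C₂ * (D + 1) + 8 * D ^ 2 * C₄ + 4, by linarith, by linarith, ?_⟩
  intro K₁ hK₁ θ hθ hθ1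
  have hK1a : C₂ * (D + 1) ≤ K₁ := by linarith
  have hK1b : 8 * D ^ 2 * C₄ ≤ K₁ := by linarith
  have hK1c : 4 ≤ K₁ := by linarith
  obtain ⟨R₀, X₁, hR₀, hR₀16, hX₁, hLA'⟩ := hLA θ hθ hθ1
  obtain ⟨ε', κ', X₂, hε', hκ', hκ'16, hX₂, hLC'⟩ := hLC θ hθ hθ1
  set c : ℝ := R₀ / (16 * A ^ 2) with hc
  have hc0 : 0 < c := by positivity
  have hA0 : 0 < A := by linarith
  -- the threshold for log X
  set Λ₀ : ℝ := 8 * C₁ / (c ^ 2) / θ with hΛ₀
  refine ⟨min ε' (θ * R₀ / 4), min (min (κ' / (D + 1)) (R₀ / (256 * A ^ 2))) (min (r₁ / (64 * A ^ 2)) (1 / 16)),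
    max (max X₁ X₂) (Real.exp Λ₀), by positivity, by positivity, ?_, ?_, ?_⟩
  · exact (min_le_right _ _).trans (min_le_right _ _)
  · exact hX₁.trans ((le_max_left _ _).trans (le_max_left _ _))
  intro X hX q hq hqX χ η hη hηκ ρ hρ hρre hρim
  have hXX₁ : X₁ ≤ X := (le_max_left _ _).trans ((le_max_left _ _).trans hX)
  have hXX₂ : X₂ ≤ X := (le_max_right _ _).trans ((le_max_left _ _).trans hX)
  have hXe : Real.exp Λ₀ ≤ X := (le_max_right _ _).trans hX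
  have hX3 : 3 ≤ X := hX₁.trans hXX₁
  have hX1 : 1 ≤ X := by linarith
  have hlog : Λ₀ ≤ Real.log X := by
    rw [← Real.log_exp Λ₀]
    exact Real.log_le_log (Real.exp_pos _) hXe
  have hlogpos : 0 < Real.log X := Real.log_pos (by linarith)
  set L : ℝ := θ * Real.log X with hL
  have hL0 : 0 < L := mul_pos hθ hlogpos
  have hη0 : 0 < η := (by positivity : 0 < 1 / L).trans_le hη
  have hηL : 1 ≤ η * L := by
    rw [div_le_iff₀ hL0] at hη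
    exact hη
  have hη1 : η ≤ κ' / (D + 1) := hηκ.trans ((min_le_left _ _).trans (min_le_left _ _))
  have hη2 : η ≤ R₀ / (256 * A ^ 2) := hηκ.trans ((min_le_left _ _).trans (min_le_right _ _))
  have hη3 : η ≤ r₁ / (64 * A ^ 2) := hηκ.trans ((min_le_right _ _).trans (min_le_left _ _))
  have hη4 : η ≤ 1 / 16 := hηκ.trans ((min_le_right _ _).trans (min_le_right _ _))
  have hηR : η ≤ R₀ / 256 := hη2.trans (by
    apply div_le_div_of_nonneg_left hR₀.le (by norm_num); linarith)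
  have hηr : η ≤ r₁ / 64 := hη3.trans (by
    apply div_le_div_of_nonneg_left hr₁.le (by norm_num); linarith only [hA2])
  have : NeZero q := ⟨by omega⟩
  set γ : ℝ := ρ.im with hγ
  set s₁ : ℂ := 1 + η + γ * I with hs₁
  have hs₁re : s₁.re = 1 + η := by simp [hs₁]
  have hs₁im : s₁.im = γ := by simp [hs₁]
  have hs₁1 : 1 < s₁.re := by rw [hs₁re]; linarith only [hη0]
  have hqε : (q : ℝ) ≤ X ^ ε' := hqX.trans (Real.rpow_le_rpow_of_exponent_le hX1 (min_le_left _ _))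
  have hqR : (q : ℝ) ≤ X ^ (θ * R₀ / 4) := hqX.trans (Real.rpow_le_rpow_of_exponent_le hX1 (min_le_right _ _))
  have hγX : |γ| ≤ X ^ (3 / 2 : ℝ) := hρim.trans (by
    calc X = X ^ (1 : ℝ) := (Real.rpow_one X).symm
      _ ≤ X ^ (3 / 2 : ℝ) := Real.rpow_le_rpow_of_exponent_le hX1 (by norm_num))
  have hLAat := hLA' X hXX₁ q hq hqR χ γ hγX
  obtain ⟨H, hHd, hHb, hHf⟩ := hLAat.2
  set s₀ : ℂ := cen θ X γ with hs₀
  have hsub : s₁ - s₀ = ((η - 1 / L : ℝ) : ℂ) := by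
    rw [hs₁, hs₀, cen, ← hL]
    push_cast
    ring
  have h1L : 0 < 1 / L := by positivity
  have hdist : ‖s₁ - s₀‖ ≤ η := by
    rw [hsub, Complex.norm_real, Real.norm_eq_abs, abs_le]
    constructor <;> linarith only [hη0, hη, h1L]
  have hdiff := EF_diff χ
  have hex : ∃ s, EF χ s ≠ 0 := ⟨s₁, EF_ne_zero χ s₁ hs₁1.le⟩
  have hρre1 : ρ.re < 1 := by
    by_contra h
    exact EF_ne_zero χ ρ (not_lt.1 h) hρ
  set Z := zb (EF χ) s₀ (R₀ / 2) with hZ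
  have hZmem : ∀ z, z ∈ Z ↔ EF χ z = 0 ∧ ‖z - s₀‖ ≤ R₀ / 2 := mem_zb (EF χ) hdiff hex s₀ (R₀ / 2)
  have hZre : ∀ z ∈ Z, z.re < 1 := by
    intro z hz
    by_contra h
    exact EF_ne_zero χ z (not_lt.1 h) ((hZmem z).1 hz).1
  have hZη : ∀ z ∈ Z, η ≤ (s₁ - z).re := by
    intro z hz
    rw [Complex.sub_re, hs₁re]
    linarith only [hZre z hz]
  have hZpos : ∀ z ∈ Z, 0 < ‖s₁ - z‖ := by
    intro z hz
    exact hη0.trans_le ((hZη z hz).trans (Complex.re_le_norm _))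
  have hρs₁ : s₁ - ρ = ((1 + η - ρ.re : ℝ) : ℂ) := by
    apply Complex.ext
    · rw [Complex.sub_re, hs₁re, Complex.ofReal_re]
    · rw [Complex.sub_im, hs₁im, Complex.ofReal_im, hγ, sub_self]
  have hρn : ‖s₁ - ρ‖ ≤ 2 * η := by
    rw [hρs₁, Complex.norm_real, Real.norm_eq_abs, abs_le]
    constructor <;> linarith only [hρre1, hη0, hρre]
  have hρZ : ρ ∈ Z := by
    rw [hZmem]
    refine ⟨hρ, ?_⟩
    calc ‖ρ - s₀‖ = ‖(s₁ - s₀) - (s₁ - ρ)‖ := by congr 1; ring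
      _ ≤ ‖s₁ - s₀‖ + ‖s₁ - ρ‖ := norm_sub_le _ _
      _ ≤ R₀ / 2 := by linarith
  -- the near zeros
  set N := Z.filter fun z => ‖s₁ - z‖ ≤ D * η with hN
  have hρN : ρ ∈ N := by
    rw [hN, Finset.mem_filter]
    refine ⟨hρZ, hρn.trans ?_⟩
    apply mul_le_mul_of_nonneg_right (by linarith) hη0.le
  have hD1 : (D + 1) * η ≤ κ' := by
    rw [le_div_iff₀ (by linarith)] at hη1
    linarith only [hη1]
  have hcount := hLC' X hXX₂ q hq hqε χ γ (by linarith) ((D + 1) * η) (by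
    exact hη.trans (le_mul_of_one_le_left hη0.le (by linarith))) hD1
  have hNsub : N ⊆ zb (EF χ) (1 + γ * I) ((D + 1) * η) := by
    intro z hz
    rw [hN, Finset.mem_filter] at hz
    rw [mem_zb (EF χ) hdiff hex]
    refine ⟨((hZmem z).1 hz.1).1, ?_⟩
    have e1 : z - (1 + γ * I) = (η : ℂ) - (s₁ - z) := by rw [hs₁]; ring
    rw [e1]
    calc ‖(η : ℂ) - (s₁ - z)‖ ≤ ‖(η : ℂ)‖ + ‖s₁ - z‖ := norm_sub_le _ _
      _ ≤ η + D * η := by
        rw [Complex.norm_real, Real.norm_of_nonneg hη0.le]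
        linarith [hz.2]
      _ = (D + 1) * η := by ring
  have hNm : ((∑ z ∈ N, mz (EF χ) z : ℕ) : ℝ) ≤ K₁ * (1 + η * L) := by
    push_cast
    calc ∑ z ∈ N, (mz (EF χ) z : ℝ) ≤ ∑ z ∈ zb (EF χ) (1 + γ * I) ((D + 1) * η), (mz (EF χ) z : ℝ) :=
          Finset.sum_le_sum_of_subset_of_nonneg hNsub fun _ _ _ => Nat.cast_nonneg _
      _ ≤ C₂ * (1 + (D + 1) * η * L) := hcount
      _ ≤ C₂ * ((D + 1) * (1 + η * L)) := by
        apply mul_le_mul_of_nonneg_left _ (by linarith)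
        have e1 : (D + 1) * (1 + η * L) = D + 1 + (D + 1) * η * L := by ring
        rw [e1]
        linarith
      _ = C₂ * (D + 1) * (1 + η * L) := by ring
      _ ≤ K₁ * (1 + η * L) := by gcongr
  obtain ⟨M, hM1, hM2⟩ : ∃ M : ℕ, K₁ * (1 + η * L) ≤ M ∧ (M : ℝ) ≤ 2 * K₁ * (1 + η * L) := by
    refine ⟨⌈K₁ * (1 + η * L)⌉₊, Nat.le_ceil _, ?_⟩
    have h1 := (Nat.ceil_lt_add_one (a := K₁ * (1 + η * L)) (by positivity)).le
    have h2 : 1 ≤ K₁ * (1 + η * L) := one_le_mul_of_one_le_of_one_le (by linarith only [hηR, hK₁, hp2, hη0, hR₀16, hp1]) (by linarith)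
    linarith
  have hNM : ∑ z ∈ N, mz (EF χ) z ≤ M := by
    have : ((∑ z ∈ N, mz (EF χ) z : ℕ) : ℝ) ≤ M := hNm.trans hM1
    exact_mod_cast this
  have hw : 1 / (2 * η) ≤ ‖1 / (s₁ - ρ)‖ := by
    rw [norm_div, norm_one]
    exact one_div_le_one_div_of_le (hZpos ρ hρZ) hρn
  obtain ⟨k, hk1, hk2, hk3⟩ := det_turan hA hT N (mz (EF χ)) (fun z => 1 / (s₁ - z)) ρ hρN
    (mz_pos (EF χ) hdiff hex ρ hρ) (1 / (2 * η)) (by positivity) hw M hNM
  have hkM : K₁ * (1 + η * L) ≤ k := by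
    have : (M : ℝ) ≤ k := by exact_mod_cast (by omega : M ≤ k)
    linarith only [hM1, this]
  have hkM2 : (k : ℝ) ≤ 4 * K₁ * (1 + η * L) := by
    have : (k : ℝ) ≤ 2 * M := by exact_mod_cast hk2
    linarith only [this, hM2]
  refine ⟨k, hkM, hkM2, ?_⟩
  have hKx : 4 * (1 + η * L) ≤ K₁ * (1 + η * L) := mul_le_mul_of_nonneg_right hK1c (by linarith only [hηR, hηL, hη0, hR₀16])
  have hk4 : 4 ≤ k := by
    have : (4 : ℝ) ≤ k := by linarith [hKx]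
    exact_mod_cast this
  have hkx : 2 + η * L ≤ k := by linarith only [hηR, hkM, hKx, hηL, hη0, hR₀16]
  set y : ℝ := 1 / (2 * A ^ 2 * η) with hy
  have hy0 : 0 < y := by positivity
  have hyk : 1 / (2 * η) / A ^ 2 = y := by rw [hy]; field_simp
  rw [hyk] at hk3
  -- the far zeros
  have hre2 := LA_re hq χ γ hLAat hR₀ s₁ (hdist.trans (by linarith)) hs₁1 Z (Finset.Subset.refl _)
  have hEF : (deriv (EF χ) s₁ / EF χ s₁).re ≤ 2 / η + C₃ := by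
    refine (Complex.re_le_norm _).trans ?_
    rw [EF_ld χ s₁ hs₁1]
    refine (norm_add_le _ _).trans ?_
    have h1 := hLD q χ s₁ hs₁1 (by rw [hs₁re]; linarith only [hηR, hη0, hR₀16])
    rw [hs₁re, add_sub_cancel_left] at h1
    have h2 : ‖(dl χ : ℂ) / (s₁ - 1)‖ ≤ 1 / η := by
      rw [norm_div]
      have h3 : ‖(dl χ : ℂ)‖ ≤ 1 := by
        rw [Complex.norm_real, dl]
        split_ifs <;> simp
      have h4 : η ≤ ‖s₁ - 1‖ := by
        have := Complex.re_le_norm (s₁ - 1)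
        rw [Complex.sub_re, hs₁re, Complex.one_re] at this
        linarith only [this]
      gcongr
    calc _ ≤ (1 / η + C₃) + 1 / η := add_le_add h1 h2
      _ = 2 / η + C₃ := by ring
  have hsumZ : ∑ z ∈ Z, (mz (EF χ) z : ℝ) * (1 / ‖s₁ - z‖) ^ 2 ≤ (2 / η + C₃ + C₁ * L) / η := by
    rw [le_div_iff₀ hη0, Finset.sum_mul]
    have h1 : ∀ z ∈ Z, (mz (EF χ) z : ℝ) * (1 / ‖s₁ - z‖) ^ 2 * η ≤ (mz (EF χ) z : ℝ) * (1 / (s₁ - z)).re := by
      intro z hz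
      rw [mul_assoc]
      apply mul_le_mul_of_nonneg_left _ (Nat.cast_nonneg _)
      rw [one_div (s₁ - z), Complex.inv_re, Complex.normSq_eq_norm_sq, div_pow, one_pow, div_mul_eq_mul_div, one_mul]
      gcongr
      exact hZη z hz
    refine (Finset.sum_le_sum h1).trans ?_
    linarith only [hEF, hre2]
  have hfar : ‖∑ z ∈ Z.filter (fun z => ¬ ‖s₁ - z‖ ≤ D * η), (mz (EF χ) z : ℂ) * (1 / (s₁ - z)) ^ k‖ ≤ y ^ k / 8 := by
    have h1 := det_far (Z.filter (fun z => ¬ ‖s₁ - z‖ ≤ D * η)) (mz (EF χ)) s₁ (D * η) ((2 / η + C₃ + C₁ * L) / η)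
      (by positivity) k (by omega) (fun z hz => by
        rw [Finset.mem_filter] at hz
        exact (not_le.1 hz.2).le) ((Finset.sum_le_sum_of_subset_of_nonneg (Finset.filter_subset _ _)
          fun _ _ _ => by positivity).trans hsumZ)
    refine h1.trans ?_
    have h2 : (D * η)⁻¹ = y / 8 := by rw [hy, hD]; field_simp; norm_num
    have h3 : (D * η) ^ 2 * ((2 / η + C₃ + C₁ * L) / η) ≤ D ^ 2 * C₄ * (1 + η * L) := by
      have h4 : (D * η) ^ 2 * ((2 / η + C₃ + C₁ * L) / η) = D ^ 2 * (2 + C₃ * η + C₁ * (η * L)) := by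
        field_simp
      rw [h4, mul_assoc]
      apply mul_le_mul_of_nonneg_left _ (by positivity)
      rw [hC₄]
      have e1 : (2 + C₃ + C₁) * (1 + η * L) = 2 + C₃ + C₁ + 2 * (η * L) + C₃ * (η * L) + C₁ * (η * L) := by ring
      have e2 : C₃ * η ≤ C₃ * 1 := mul_le_mul_of_nonneg_left (by linarith only [hηR, hη0, hR₀16]) (by linarith only [hηR, hC₃, hη0, hR₀16])
      have e3 : 0 ≤ C₃ * (η * L) := mul_nonneg (by linarith only [hηR, hC₃, hη0, hR₀16]) (by linarith only [hηR, hηL, hη0, hR₀16])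
      rw [e1]
      linarith only [hηR, hC₁, hηL, e2, hη0, e3, hR₀16]
    rw [h2, div_pow]
    have h5 : 8 * (D ^ 2 * C₄ * (1 + η * L)) ≤ 8 ^ k := by
      calc 8 * (D ^ 2 * C₄ * (1 + η * L)) = 8 * D ^ 2 * C₄ * (1 + η * L) := by ring
        _ ≤ K₁ * (1 + η * L) := by gcongr
        _ ≤ k := hkM
        _ ≤ 2 ^ k := by exact_mod_cast (Nat.lt_two_pow_self (n := k)).le
        _ ≤ 8 ^ k := by gcongr; norm_num
    calc y ^ k / 8 ^ k * ((D * η) ^ 2 * ((2 / η + C₃ + C₁ * L) / η)) ≤ y ^ k / 8 ^ k * (8 ^ k / 8) := by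
          apply mul_le_mul_of_nonneg_left _ (by positivity)
          linarith only [h3, h5]
      _ = y ^ k / 8 := by
        have : (8 : ℝ) ^ k ≠ 0 := by positivity
        field_simp
  -- the analytic part
  have hHpart : C₁ * L * (8 / R₀) ^ (k - 1) ≤ y ^ k / 8 := by
    have h1 := det_pow c (c / η) (8 * C₁) k (η * L) L hηL hc0 hL0 (by field_simp) (by
      rw [le_div_iff₀ hη0, hc, le_div_iff₀ (by positivity)]
      rw [le_div_iff₀ (by positivity)] at hη2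
      linarith only [hη2]) hkx (by
      have h2 : Λ₀ * θ ≤ L := by rw [hL, mul_comm]; gcongr
      have h3 : Λ₀ * θ = 8 * C₁ / c ^ 2 := by rw [hΛ₀]; field_simp
      rw [h3, div_le_iff₀ (by positivity)] at h2
      linarith only [h2])
    have h4 : c / η = y * (R₀ / 8) := by rw [hc, hy]; field_simp; norm_num
    have h5 : (8 / R₀) ^ (k - 1) ≤ (8 / R₀) ^ k := by
      apply pow_le_pow_right₀ _ (by omega)
      rw [le_div_iff₀ hR₀]
      linarith only [hηR, hη0, hR₀16]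
    rw [h4, mul_pow] at h1
    have h6 : (R₀ / 8) ^ k * (8 / R₀) ^ k = 1 := by
      rw [← mul_pow]
      have : R₀ / 8 * (8 / R₀) = 1 := by field_simp
      rw [this, one_pow]
    have h7 : 0 < (8 / R₀) ^ k := by positivity
    calc C₁ * L * (8 / R₀) ^ (k - 1) ≤ C₁ * L * (8 / R₀) ^ k := by gcongr
      _ = (8 * C₁ * L) * (8 / R₀) ^ k / 8 := by ring
      _ ≤ (y ^ k * (R₀ / 8) ^ k) * (8 / R₀) ^ k / 8 := by gcongr
      _ = y ^ k / 8 := by rw [mul_assoc, h6, mul_one]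
  -- the pole
  have hpole : ‖(dl χ : ℂ) * (1 / (s₁ - 1)) ^ k‖ ≤ y ^ k / 8 := by
    by_cases hχ : χ = 1
    · have hz := EF_zero_one ρ (by linarith only [hηR, hρre, hη0, hR₀16]) (by rw [← hχ]; exact hρ)
      have hγr : r₁ ≤ |γ| := by
        by_contra hcon
        push Not at hcon
        apply hZN ρ _ hz.2 hz.1
        have h1 : ‖ρ - 1‖ ≤ |(ρ - 1).re| + |(ρ - 1).im| := Complex.norm_le_abs_re_add_abs_im _
        rw [Complex.sub_re, Complex.sub_im, Complex.one_re, Complex.one_im, sub_zero, ← hγ] at h1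
        have h2 : |ρ.re - 1| ≤ r₁ := by
          rw [abs_le]
          constructor <;> linarith only [hηr, hr₁, hρre, hρre1, hη0]
        linarith only [h1, hcon, h2]
      have h1 : r₁ ≤ ‖s₁ - 1‖ := by
        have := Complex.abs_im_le_norm (s₁ - 1)
        rw [Complex.sub_im, hs₁im, Complex.one_im, sub_zero] at this
        linarith only [hγr, this]
      have h2 : ‖(1 / (s₁ - 1))‖ ≤ y / 32 := by
        rw [norm_div, norm_one]
        calc 1 / ‖s₁ - 1‖ ≤ 1 / r₁ := one_div_le_one_div_of_le hr₁ h1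
          _ ≤ y / 32 := by
            rw [hy, div_div, div_le_div_iff₀ hr₁ (by positivity), one_mul, one_mul]
            rw [le_div_iff₀ (by positivity)] at hη3
            linarith only [hη3]
      rw [norm_mul, norm_pow]
      have h3 : ‖(dl χ : ℂ)‖ ≤ 1 := by
        rw [Complex.norm_real, dl]
        split_ifs <;> simp
      calc ‖(dl χ : ℂ)‖ * ‖1 / (s₁ - 1)‖ ^ k ≤ 1 * (y / 32) ^ k := by gcongr
        _ = y ^ k / 32 ^ k := by rw [one_mul, div_pow]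
        _ ≤ y ^ k / 8 := by
          apply div_le_div_of_nonneg_left (by positivity) (by norm_num)
          calc (8 : ℝ) ≤ 32 ^ 1 := by norm_num
            _ ≤ 32 ^ k := pow_le_pow_right₀ (by norm_num) (by omega)
    · rw [dl, if_neg hχ]
      simp
      positivity
  -- the formula for the derivatives
  have hs₁ne : s₁ ≠ 1 := by
    intro h
    rw [h, Complex.one_re] at hs₁1
    exact lt_irrefl _ hs₁1
  have hG : (fun s => deriv (DirichletCharacter.LFunction χ) s / DirichletCharacter.LFunction χ s) =ᶠ[nhds s₁]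
      fun s => ∑ z ∈ Z, (mz (EF χ) z : ℂ) / (s - z) + H s - (dl χ : ℂ) / (s - 1) := by
    have h2 : {z : ℂ | 1 < z.re} ∈ nhds s₁ :=
      (isOpen_lt continuous_const Complex.continuous_re).mem_nhds hs₁1
    have h3 : Metric.ball s₀ (R₀ / 2) ∈ nhds s₁ := by
      apply Metric.isOpen_ball.mem_nhds
      rw [Metric.mem_ball, dist_eq_norm]
      linarith only [hηR, hdist, hη0]
    filter_upwards [h2, h3] with z hz1 hz2
    have h4 := hHf z hz2 (EF_ne_zero χ z (le_of_lt hz1))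
    rw [EF_ld χ z hz1] at h4
    exact eq_sub_of_add_eq h4
  have hder := det_iter (k - 1) Z (mz (EF χ)) s₀ s₁ (dl χ : ℂ) R₀ (C₁ * L) H _ hR₀ hHd hHb (hdist.trans (by linarith only [hηR, hη0]))
    (fun z hz h => by
      have := hZpos z hz
      rw [h, sub_self, norm_zero] at this
      exact lt_irrefl _ this) hs₁ne hG
  have hk' : k - 1 + 1 = k := by omega
  rw [hk'] at hder
  have hser := (det_series χ k (by omega) η γ hη0).tsum_eq
  rw [hser]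
  set V : ℂ := iteratedDeriv (k - 1) (fun s => deriv (DirichletCharacter.LFunction χ) s /
    DirichletCharacter.LFunction χ s) s₁ with hV
  have hsplit : ∑ z ∈ Z, (mz (EF χ) z : ℂ) * (1 / (s₁ - z)) ^ k =
      ∑ z ∈ N, (mz (EF χ) z : ℂ) * (1 / (s₁ - z)) ^ k +
      ∑ z ∈ Z.filter (fun z => ¬ ‖s₁ - z‖ ≤ D * η), (mz (EF χ) z : ℂ) * (1 / (s₁ - z)) ^ k :=
    (Finset.sum_filter_add_sum_filter_not _ _ _).symm
  have hlow : y ^ k / 2 ≤ ‖(-1) ^ (k - 1) / ((k - 1).factorial : ℂ) * V‖ := by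
    set S1 := ∑ z ∈ N, (mz (EF χ) z : ℂ) * (1 / (s₁ - z)) ^ k with hS1
    set S2 := ∑ z ∈ Z.filter (fun z => ¬ ‖s₁ - z‖ ≤ D * η), (mz (EF χ) z : ℂ) * (1 / (s₁ - z)) ^ k with hS2
    set P := (dl χ : ℂ) * (1 / (s₁ - 1)) ^ k with hP
    rw [hsplit] at hder
    set W := (-1) ^ (k - 1) / ((k - 1).factorial : ℂ) * V with hW
    have h1 : S1 = W - (W - (S1 + S2 - P)) - S2 + P := by ring
    have h2 : ‖S1‖ ≤ ‖W‖ + ‖W - (S1 + S2 - P)‖ + ‖S2‖ + ‖P‖ := by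
      calc ‖S1‖ = ‖W - (W - (S1 + S2 - P)) - S2 + P‖ := by rw [← h1]
        _ ≤ ‖W - (W - (S1 + S2 - P)) - S2‖ + ‖P‖ := norm_add_le _ _
        _ ≤ ‖W - (W - (S1 + S2 - P))‖ + ‖S2‖ + ‖P‖ := by gcongr; exact norm_sub_le _ _
        _ ≤ ‖W‖ + ‖W - (S1 + S2 - P)‖ + ‖S2‖ + ‖P‖ := by gcongr; exact norm_sub_le _ _
    have h3 : y ^ k ≤ ‖S1‖ := hk3
    have h4 : 0 < y ^ k := by positivity
    linarith only [hHpart, h2, h4, hk3, hder, hpole, hfar]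
  have hfin : ‖(-1) ^ k * (η : ℂ) ^ k / ((k - 1).factorial : ℂ) * V‖ =
      η ^ k * ‖(-1) ^ (k - 1) / ((k - 1).factorial : ℂ) * V‖ := by
    rw [norm_mul, norm_mul, norm_div, norm_div, norm_mul, norm_pow, norm_pow, norm_pow, norm_neg, norm_one, one_pow,
      one_pow, Complex.norm_real, Real.norm_of_nonneg hη0.le]
    ring
  rw [hfin]
  calc (8 * A ^ 2) ^ (-(k : ℝ)) = ((8 * A ^ 2) ^ k)⁻¹ := by
        rw [Real.rpow_neg (by positivity), Real.rpow_natCast]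
    _ ≤ η ^ k * (y ^ k / 2) := by
      have h1 : η * y = 4 * (8 * A ^ 2)⁻¹ := by rw [hy]; field_simp; norm_num
      have h0 : η ^ k * (y ^ k / 2) = 4 ^ k * ((8 * A ^ 2)⁻¹) ^ k / 2 := by
        rw [← mul_div_assoc, ← mul_pow, h1, mul_pow]
      rw [h0, ← inv_pow]
      have h2 : (2 : ℝ) ≤ 4 ^ k := by
        calc (2 : ℝ) ≤ 4 ^ 1 := by norm_num
          _ ≤ 4 ^ k := pow_le_pow_right₀ (by norm_num) (by omega)
      have h3 : 0 < ((8 * A ^ 2)⁻¹) ^ k := by positivity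
      have h5 : 2 * ((8 * A ^ 2)⁻¹) ^ k ≤ 4 ^ k * ((8 * A ^ 2)⁻¹) ^ k := mul_le_mul_of_nonneg_right h2 h3.le
      linarith only [h5]
    _ ≤ _ := by gcongr

end Pool.Agent.PSG
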