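import Pool.Agent.W_b58c63_h44.Det
import Pool.Agent.W_b58c63_h44.Itf

/-!
# Detection of zeros by primes in a range
-/

set_option autoImplicit false

noncomputable section

open Finset Complex

namespace Pool.Agent.PSG

theorem detp_pp : Summable (fun n : ℕ => if n.Prime then (0 : ℝ) else ArithmeticFunction.vonMangoldt n * (n : ℝ) ^ (-(3 / 4 : ℝ))) := by
  set F : ℕ → ℝ := fun n => if n.Prime then (0 : ℝ) else ArithmeticFunction.vonMangoldt n * (n : ℝ) ^ (-(3 / 4 : ℝ)) with hF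
  have hF0 : ∀ n, 0 ≤ F n := by
    intro n
    simp only [hF]
    split_ifs
    · exact le_rfl
    · exact mul_nonneg ArithmeticFunction.vonMangoldt_nonneg (by positivity)
  have key : Summable (F ∘ Subtype.val (p := fun n => n ∈ {n : ℕ | IsPrimePow n})) := by
    refine (Nat.Primes.prodNatEquiv.summable_iff (f := F ∘ (Subtype.val : {n : ℕ // IsPrimePow n} → ℕ))).mp ?_
    have hs : Summable (fun x : Nat.Primes × ℕ => (8 * ((x.1 : ℕ) : ℝ) ^ (-(5 / 4 : ℝ))) * ((2 : ℝ) ^ (-(3 / 4 : ℝ))) ^ x.2) := by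
      refine Summable.mul_of_nonneg (f := fun p : Nat.Primes => 8 * ((p : ℕ) : ℝ) ^ (-(5 / 4 : ℝ)))
        (g := fun j : ℕ => ((2 : ℝ) ^ (-(3 / 4 : ℝ))) ^ j) ?_ ?_ ?_ ?_
      · exact (Nat.Primes.summable_rpow.2 (by norm_num)).mul_left 8
      · apply summable_geometric_of_lt_one (by positivity)
        exact Real.rpow_lt_one_of_one_lt_of_neg (by norm_num) (by norm_num)
      · intro p
        simp only [Pi.zero_apply]
        positivity
      · intro j
        simp only [Pi.zero_apply]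
        positivity
    refine Summable.of_nonneg_of_le (fun x => hF0 _) (fun x => ?_) hs
    obtain ⟨p, j⟩ := x
    simp only [Function.comp_apply]
    have hval : ((Nat.Primes.prodNatEquiv (p, j) : {n : ℕ // IsPrimePow n}) : ℕ) = (p : ℕ) ^ (j + 1) := rfl
    change F ((Nat.Primes.prodNatEquiv (p, j) : {n : ℕ // IsPrimePow n}) : ℕ) ≤ _
    rw [hval]
    simp only [hF]
    split_ifs with hp
    · positivity
    · have hj : 1 ≤ j := by
        rcases Nat.eq_zero_or_pos j with rfl | h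
        · exact absurd (by simpa using p.2) hp
        · exact h
      obtain ⟨i, rfl⟩ : ∃ i, j = i + 1 := ⟨j - 1, by omega⟩
      have hp2 : (2 : ℝ) ≤ (p : ℕ) := by exact_mod_cast p.2.two_le
      have hp0 : (0 : ℝ) < (p : ℕ) := by linarith
      rw [ArithmeticFunction.vonMangoldt_apply_pow (by omega), ArithmeticFunction.vonMangoldt_apply_prime p.2]
      have h1 : Real.log (p : ℕ) ≤ 4 * ((p : ℕ) : ℝ) ^ (1 / 4 : ℝ) := by
        have := Real.log_le_rpow_div hp0.le (show (0 : ℝ) < 1 / 4 by norm_num)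
        linarith
      have h2 : (((p : ℕ) ^ (i + 1 + 1) : ℕ) : ℝ) ^ (-(3 / 4 : ℝ)) = ((p : ℕ) : ℝ) ^ (-(3 / 2 : ℝ)) * (((p : ℕ) : ℝ) ^ (-(3 / 4 : ℝ))) ^ i := by
        push_cast
        rw [← Real.rpow_natCast, ← Real.rpow_natCast, ← Real.rpow_mul hp0.le, ← Real.rpow_mul hp0.le, ← Real.rpow_add hp0]
        congr 1
        push_cast
        ring
      have h3 : ((p : ℕ) : ℝ) ^ (-(3 / 4 : ℝ)) ≤ (2 : ℝ) ^ (-(3 / 4 : ℝ)) :=
        Real.rpow_le_rpow_of_nonpos (by norm_num) hp2 (by norm_num)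
      have h4 : (1 : ℝ) ≤ 2 * (2 : ℝ) ^ (-(3 / 4 : ℝ)) := by
        have : (2 : ℝ) * (2 : ℝ) ^ (-(3 / 4 : ℝ)) = 2 ^ (1 / 4 : ℝ) := by
          nth_rewrite 1 [← Real.rpow_one (2 : ℝ)]
          rw [← Real.rpow_add (by norm_num)]
          norm_num
        rw [this]
        exact Real.one_le_rpow (by norm_num) (by norm_num)
      rw [h2]
      have h5 : ((p : ℕ) : ℝ) ^ (1 / 4 : ℝ) * ((p : ℕ) : ℝ) ^ (-(3 / 2 : ℝ)) = ((p : ℕ) : ℝ) ^ (-(5 / 4 : ℝ)) := by
        rw [← Real.rpow_add hp0]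
        norm_num
      calc Real.log (p : ℕ) * (((p : ℕ) : ℝ) ^ (-(3 / 2 : ℝ)) * (((p : ℕ) : ℝ) ^ (-(3 / 4 : ℝ))) ^ i)
          ≤ (4 * ((p : ℕ) : ℝ) ^ (1 / 4 : ℝ)) * (((p : ℕ) : ℝ) ^ (-(3 / 2 : ℝ)) * ((2 : ℝ) ^ (-(3 / 4 : ℝ))) ^ i) := by gcongr
        _ = 4 * ((p : ℕ) : ℝ) ^ (-(5 / 4 : ℝ)) * (1 * ((2 : ℝ) ^ (-(3 / 4 : ℝ))) ^ i) := by
          rw [← h5]; ring
        _ ≤ 4 * ((p : ℕ) : ℝ) ^ (-(5 / 4 : ℝ)) * ((2 * (2 : ℝ) ^ (-(3 / 4 : ℝ))) * ((2 : ℝ) ^ (-(3 / 4 : ℝ))) ^ i) := by gcongr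
        _ = 8 * ((p : ℕ) : ℝ) ^ (-(5 / 4 : ℝ)) * ((2 : ℝ) ^ (-(3 / 4 : ℝ))) ^ (i + 1) := by
          rw [pow_succ]; ring
  refine (summable_subtype_iff_indicator.1 key).congr fun n => ?_
  apply Set.indicator_apply_eq_self.2
  intro hn
  simp only [hF]
  split_ifs
  · rfl
  · rw [ArithmeticFunction.vonMangoldt_eq_zero_iff.2 hn, zero_mul]

theorem detp_small (u B v : ℝ) (hu : 1 ≤ u) (hB : 1 ≤ B) (hv : 0 ≤ v) (h : v ≤ 1 / (8 * B * u)) (k : ℕ) (hk : 1 ≤ k) :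
    u * v ^ k ≤ B ^ (-(k : ℝ)) / 8 := by
  have h1 : v ^ k ≤ (1 / (8 * B * u)) ^ k := pow_le_pow_left₀ hv h k
  have h2 : (1 / (8 * B * u)) ^ k = B ^ (-(k : ℝ)) * (1 / (8 * u)) ^ k := by
    rw [Real.rpow_neg (by linarith), Real.rpow_natCast, ← inv_pow, ← mul_pow]
    congr 1
    field_simp
  have h3 : (1 / (8 * u)) ^ k ≤ 1 / (8 * u) := by
    have h4 : 1 / (8 * u) ≤ 1 := by
      rw [div_le_one (by linarith)]
      linarith
    calc (1 / (8 * u)) ^ k ≤ (1 / (8 * u)) ^ 1 := pow_le_pow_of_le_one (by positivity) h4 hk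
      _ = _ := pow_one _
  have h5 : 0 < B ^ (-(k : ℝ)) := by positivity
  calc u * v ^ k ≤ u * (B ^ (-(k : ℝ)) * (1 / (8 * u))) := by
        apply mul_le_mul_of_nonneg_left _ (by linarith)
        rw [h2] at h1
        exact h1.trans (mul_le_mul_of_nonneg_left h3 h5.le)
    _ = B ^ (-(k : ℝ)) / 8 := by field_simp

theorem detp_rpow (n : ℕ) (hn : 0 < n) (a : ℝ) : (n : ℝ) ^ (-(1 + a)) = (1 / (n : ℝ)) * Real.exp (-(a * Real.log n)) := by
  have hn' : (0 : ℝ) < n := by exact_mod_cast hn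
  rw [neg_add, Real.rpow_add hn', Real.rpow_neg_one, Real.rpow_def_of_pos hn', one_div]
  congr 2
  ring

/-- The pointwise estimate. -/
theorem detp_point (ca Ca η : ℝ) (k : ℕ) (hk : 1 ≤ k) (hca : 0 < ca) (hη : 0 < η) (hη1 : η ≤ 1) (hCa : 0 < Ca)
    (n : ℕ) (hn : n ∉ PR ca Ca k η) :
    ArithmeticFunction.vonMangoldt n * (1 / (n : ℝ)) * (η * jk (k - 1) (η * Real.log n)) ≤
      (η * (ca ^ (k - 1) * Real.exp k)) * (ArithmeticFunction.vonMangoldt n * (n : ℝ) ^ (-(1 + η))) +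
      (η * (2 ^ k * Real.exp (-(Ca * k / 4)))) * (ArithmeticFunction.vonMangoldt n * (n : ℝ) ^ (-(1 + η / 4))) +
      Real.exp (-(ca * k / (4 * η))) * (if n.Prime then (0 : ℝ) else ArithmeticFunction.vonMangoldt n * (n : ℝ) ^ (-(3 / 4 : ℝ))) := by
  have hL0 : 0 ≤ ArithmeticFunction.vonMangoldt n := ArithmeticFunction.vonMangoldt_nonneg
  have t1 : 0 ≤ (η * (ca ^ (k - 1) * Real.exp k)) * (ArithmeticFunction.vonMangoldt n * (n : ℝ) ^ (-(1 + η))) := by positivity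
  have t2 : 0 ≤ (η * (2 ^ k * Real.exp (-(Ca * k / 4)))) * (ArithmeticFunction.vonMangoldt n * (n : ℝ) ^ (-(1 + η / 4))) := by positivity
  have t3 : 0 ≤ Real.exp (-(ca * k / (4 * η))) * (if n.Prime then (0 : ℝ) else ArithmeticFunction.vonMangoldt n * (n : ℝ) ^ (-(3 / 4 : ℝ))) := by
    apply mul_nonneg (Real.exp_pos _).le
    split_ifs
    · exact le_rfl
    · positivity
  rcases Nat.eq_zero_or_pos n with rfl | hn0
  · simp
  have hn' : (0 : ℝ) < n := by exact_mod_cast hn0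
  have hlog : 0 ≤ Real.log n := Real.log_natCast_nonneg n
  set x := η * Real.log n with hx
  have hx0 : 0 ≤ x := by positivity
  have hfac : (0 : ℝ) < ((k - 1).factorial : ℝ) := by exact_mod_cast Nat.factorial_pos _
  have hkc : ((k - 1 : ℕ) : ℝ) ≤ k := by exact_mod_cast Nat.sub_le _ _
  by_cases h1 : x < ca * k
  · refine le_trans ?_ (add_le_add (add_le_add (le_refl _) t2) t3)
    rw [add_zero, add_zero, detp_rpow n hn0, jk]
    have h2 : x ^ (k - 1) / ((k - 1).factorial : ℝ) ≤ ca ^ (k - 1) * Real.exp k := by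
      calc x ^ (k - 1) / ((k - 1).factorial : ℝ) ≤ (ca * k) ^ (k - 1) / ((k - 1).factorial : ℝ) := by gcongr
        _ = ca ^ (k - 1) * ((k : ℝ) ^ (k - 1) / ((k - 1).factorial : ℝ)) := by rw [mul_pow]; ring
        _ ≤ ca ^ (k - 1) * Real.exp k := by
          apply mul_le_mul_of_nonneg_left _ (by positivity)
          exact Real.pow_div_factorial_le_exp _ (by positivity) _
    calc ArithmeticFunction.vonMangoldt n * (1 / (n : ℝ)) * (η * (Real.exp (-x) * x ^ (k - 1) / ((k - 1).factorial : ℝ)))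
        = (ArithmeticFunction.vonMangoldt n * (1 / (n : ℝ)) * η * Real.exp (-x)) * (x ^ (k - 1) / ((k - 1).factorial : ℝ)) := by ring
      _ ≤ (ArithmeticFunction.vonMangoldt n * (1 / (n : ℝ)) * η * Real.exp (-x)) * (ca ^ (k - 1) * Real.exp k) := by
        apply mul_le_mul_of_nonneg_left h2 (by positivity)
      _ = _ := by ring
  push Not at h1
  by_cases h2 : Ca * k < x
  · refine le_trans ?_ (add_le_add (add_le_add t1 (le_refl _)) t3)
    rw [add_zero, zero_add, detp_rpow n hn0, jk]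
    have h3 : Real.exp (-x) * x ^ (k - 1) / ((k - 1).factorial : ℝ) ≤ 2 ^ k * Real.exp (-(Ca * k / 4)) * Real.exp (-(x / 4)) := by
      have h4 := Real.pow_div_factorial_le_exp (x / 2) (by positivity) (k - 1)
      have h5 : (2 : ℝ) ^ (k - 1) ≤ 2 ^ k := pow_le_pow_right₀ (by norm_num) (Nat.sub_le _ _)
      calc Real.exp (-x) * x ^ (k - 1) / ((k - 1).factorial : ℝ)
          = 2 ^ (k - 1) * Real.exp (-x) * ((x / 2) ^ (k - 1) / ((k - 1).factorial : ℝ)) := by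
            rw [div_pow]; field_simp
        _ ≤ 2 ^ k * Real.exp (-x) * Real.exp (x / 2) := by gcongr
        _ = 2 ^ k * Real.exp (-(x / 4)) * Real.exp (-(x / 4)) := by
            rw [mul_assoc, mul_assoc, ← Real.exp_add, ← Real.exp_add]
            congr 2
            ring
        _ ≤ 2 ^ k * Real.exp (-(Ca * k / 4)) * Real.exp (-(x / 4)) := by
            gcongr
    have h6 : η / 4 * Real.log n = x / 4 := by rw [hx]; ring
    rw [h6]
    calc ArithmeticFunction.vonMangoldt n * (1 / (n : ℝ)) * (η * (Real.exp (-x) * x ^ (k - 1) / ((k - 1).factorial : ℝ)))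
        ≤ ArithmeticFunction.vonMangoldt n * (1 / (n : ℝ)) * (η * (2 ^ k * Real.exp (-(Ca * k / 4)) * Real.exp (-(x / 4)))) := by
          gcongr
      _ = _ := by ring
  push Not at h2
  refine le_trans ?_ (add_le_add (add_le_add t1 t2) (le_refl _))
  rw [add_zero, zero_add]
  by_cases hp : n.Prime
  · exfalso
    apply hn
    rw [PR, Finset.mem_filter, Finset.mem_range]
    refine ⟨?_, hp, h1, h2⟩
    have h3 : (n : ℝ) ≤ Real.exp (Ca * k / η) := by
      rw [← Real.exp_log hn']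
      apply Real.exp_le_exp.2
      rw [le_div_iff₀ hη, mul_comm]
      exact h2
    have h4 : (n : ℝ) ≤ (⌈Real.exp (Ca * k / η)⌉₊ : ℝ) := h3.trans (Nat.le_ceil _)
    have h5 : n ≤ ⌈Real.exp (Ca * k / η)⌉₊ := by exact_mod_cast h4
    omega
  rw [if_neg hp]
  have h3 : jk (k - 1) x ≤ 1 := by
    have h4 := Real.pow_div_factorial_le_exp x hx0 (k - 1)
    rw [jk, mul_div_assoc]
    calc Real.exp (-x) * (x ^ (k - 1) / ((k - 1).factorial : ℝ)) ≤ Real.exp (-x) * Real.exp x := by gcongr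
      _ = 1 := by rw [← Real.exp_add]; simp
  have h3' : 0 ≤ jk (k - 1) x := by rw [jk]; positivity
  have h4 : (1 / (n : ℝ)) = (n : ℝ) ^ (-(3 / 4 : ℝ)) * (n : ℝ) ^ (-(1 / 4 : ℝ)) := by
    rw [← Real.rpow_add hn', one_div, ← Real.rpow_neg_one]
    norm_num
  have h5 : (n : ℝ) ^ (-(1 / 4 : ℝ)) ≤ Real.exp (-(ca * k / (4 * η))) := by
    rw [Real.rpow_def_of_pos hn', Real.exp_le_exp]
    have h6 : ca * k / (4 * η) ≤ Real.log n / 4 := by
      rw [div_le_div_iff₀ (by positivity) (by norm_num)]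
      rw [hx] at h1
      linarith
    linarith
  have h7 : η * jk (k - 1) x ≤ 1 := mul_le_one₀ hη1 h3' h3
  calc ArithmeticFunction.vonMangoldt n * (1 / (n : ℝ)) * (η * jk (k - 1) x)
      ≤ ArithmeticFunction.vonMangoldt n * (1 / (n : ℝ)) * 1 := by gcongr
    _ = ArithmeticFunction.vonMangoldt n * (n : ℝ) ^ (-(3 / 4 : ℝ)) * (n : ℝ) ^ (-(1 / 4 : ℝ)) := by rw [h4]; ring
    _ ≤ ArithmeticFunction.vonMangoldt n * (n : ℝ) ^ (-(3 / 4 : ℝ)) * Real.exp (-(ca * k / (4 * η))) := by gcongr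
    _ = _ := by ring

/-- The parts of the series outside of the range, and the prime powers, are small.

Proof. `‖n ^ (-(1 + i γ))‖ = 1 / n`. Let `C` be the constant of `vm_sum`.
(1) Small `n`, `η log n < ca k`. There `jk (k-1) x = exp (-x) x ^ (k-1) / (k-1)! ≤ (ca k) ^ (k-1) / (k-1)! ≤ ca ^ (k-1) e ^ k k` (`(k-1)! ≥ ((k-1)/e) ^ (k-1)` and `(k / (k-1)) ^ (k-1) ≤ e`; or simply
`k ^ (k-1) / (k-1)! ≤ exp k`, from the exponential series). The sum of `Λ(n) / n` over `log n ≤ y`, `y = ca k / η ≥ 0`, is at most `e (y + 1 + C)` (`Λ(n)/n ≤ e Λ(n) n ^ (-1 - 1/(y+1))` there; `vm_sum` at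
`σ = 1 + 1/(y + 1)`). So this part is at most `e (ca k + η + C η) ca ^ (k-1) e ^ k ≤ e (k + 2 C) ca ^ (k-1) e ^ k ≤ (1/8) B ^ (-k)` if `ca` is small enough in terms of `B` and `C` (take `ca = 1 / (200 C B)^2`, say, and `k ≥ 2`).
(2) Large `n`, `x = η log n > Ca k`: `jk (k-1) x = 2 ^ (k-1) exp (-x / 2) jk (k-1) (x / 2) ≤ 2 ^ k exp (-x/2) ≤ 2 ^ k exp (-Ca k / 4) exp (-x / 4)` (`jk ≤ 1`), and `η ∑ Λ(n) n ^ (-1 - η / 4) ≤ 4 + C η ≤ 4 + C`. So this
part is at most `(4 + C) 2 ^ k exp (-Ca k / 4) ≤ (1/8) B ^ (-k)` for `Ca` large.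
(3) Proper prime powers `n ≥ y := exp (ca k / η)`: `∑ Λ(n) / n` over the proper prime powers `n ≥ y` is at most `y ^ (-1/4) ∑ Λ(n) n ^ (-3/4)` over the proper prime powers, a convergent sum (`n = p ^ j`, `j ≥ 2`: `∑_p log p p ^ (-3/2)` ...), bounded by
a constant `C'`; with `jk ≤ 1` the part is at most `η C' exp (-ca k / (4 η)) ≤ (1/8) B ^ (-k)` when `η ≤ κ` is small in terms of `B, ca, C'` (`κ` is at our disposal).
The rest of the series is the sum over `PR`. -/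
theorem det_parts (B : ℝ) (hB : 1 ≤ B) : ∃ ca Ca κ : ℝ, 0 < ca ∧ ca < 1 ∧ 1 < Ca ∧ 0 < κ ∧ κ ≤ 1 / 16 ∧
    ∀ (q : ℕ) [NeZero q] (χ : DirichletCharacter ℂ q) (k : ℕ), 2 ≤ k → ∀ (η γ : ℝ), 0 < η → η ≤ κ →
    ‖(∑' n : ℕ, (ArithmeticFunction.vonMangoldt n : ℂ) * χ (n : ZMod q) *
        (n : ℂ) ^ (-(1 + γ * I)) * ((η * jk (k - 1) (η * Real.log n) : ℝ) : ℂ)) -
      ∑ p ∈ PR ca Ca k η, ((Real.log p * (1 / p) * (η * jk (k - 1) (η * Real.log p)) : ℝ) : ℂ) *
        (χ (p : ZMod q) * (p : ℂ) ^ (-(γ * I)))‖ ≤ B ^ (-(k : ℝ)) / 2 := by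
  obtain ⟨C, hC, hvm⟩ := vm_sum
  set T := ∑' n : ℕ, (if n.Prime then (0 : ℝ) else ArithmeticFunction.vonMangoldt n * (n : ℝ) ^ (-(3 / 4 : ℝ))) with hT
  have hT0 : 0 ≤ T := tsum_nonneg fun n => by
    split_ifs
    · exact le_rfl
    · exact mul_nonneg ArithmeticFunction.vonMangoldt_nonneg (by positivity)
  set δ : ℝ := 1 / (24 * B * (1 + C)) with hδ
  have hδ0 : 0 < δ := by positivity
  have hδ1 : δ < 1 := by
    rw [hδ, div_lt_one (by positivity)]
    nlinarith [mul_pos (show 0 < B by linarith) (show 0 < 1 + C by linarith)]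
  have hlog1 : 0 < Real.log (16 * B * (4 + C)) := Real.log_pos (by nlinarith [mul_pos (show 0 < B by linarith) (show 0 < C by linarith)])
  have hlog2 : 0 < Real.log (8 * B * (1 + T)) := Real.log_pos (by nlinarith [mul_nonneg (show 0 ≤ B by linarith) hT0])
  refine ⟨δ ^ 2, 4 * Real.log (16 * B * (4 + C)) + 2, min (1 / 16) (δ ^ 2 / (4 * Real.log (8 * B * (1 + T)))), by positivity,
    by nlinarith, by linarith, by positivity, min_le_left _ _, ?_⟩
  intro q _ χ k hk η γ hη hηκ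
  have hη16 : η ≤ 1 / 16 := hηκ.trans (min_le_left _ _)
  have hη2 : η ≤ δ ^ 2 / (4 * Real.log (8 * B * (1 + T))) := hηκ.trans (min_le_right _ _)
  set ca : ℝ := δ ^ 2 with hca
  set Ca : ℝ := 4 * Real.log (16 * B * (4 + C)) + 2 with hCa
  have hca0 : 0 < ca := by positivity
  have hCa0 : 0 < Ca := by linarith
  set F : ℕ → ℂ := fun n => (ArithmeticFunction.vonMangoldt n : ℂ) * χ (n : ZMod q) *
        (n : ℂ) ^ (-(1 + γ * I)) * ((η * jk (k - 1) (η * Real.log n) : ℝ) : ℂ) with hF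
  have hjk0 : ∀ x : ℝ, 0 ≤ x → 0 ≤ jk (k - 1) x := fun x hx => by rw [jk]; positivity
  have hFn : ∀ n, ‖F n‖ ≤ ArithmeticFunction.vonMangoldt n * (1 / (n : ℝ)) * (η * jk (k - 1) (η * Real.log n)) := by
    intro n
    have h0 : 0 ≤ η * jk (k - 1) (η * Real.log n) :=
      mul_nonneg hη.le (hjk0 _ (mul_nonneg hη.le (Real.log_natCast_nonneg n)))
    have hV : 0 ≤ ArithmeticFunction.vonMangoldt n := ArithmeticFunction.vonMangoldt_nonneg
    rcases Nat.eq_zero_or_pos n with rfl | hn0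
    · simp [hF]
    · have hn' : (0 : ℝ) < n := by exact_mod_cast hn0
      rw [hF]
      simp only [norm_mul]
      rw [Complex.norm_real, Complex.norm_real, Real.norm_of_nonneg h0, Real.norm_of_nonneg hV]
      have h1 : ‖(n : ℂ) ^ (-(1 + γ * I))‖ = 1 / (n : ℝ) := by
        rw [Complex.norm_natCast_cpow_of_pos hn0]
        simp [Real.rpow_neg_one]
      rw [h1]
      have h2 : ‖χ (n : ZMod q)‖ ≤ 1 := DirichletCharacter.norm_le_one χ _
      gcongr
      exact mul_le_of_le_one_right hV h2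
  obtain ⟨hs1, hb1⟩ := hvm (1 + η) (by linarith) (by linarith)
  obtain ⟨hs2, hb2⟩ := hvm (1 + η / 4) (by linarith) (by linarith)
  rw [add_sub_cancel_left] at hb1 hb2
  set a1 : ℕ → ℝ := fun n => (η * (ca ^ (k - 1) * Real.exp k)) * (ArithmeticFunction.vonMangoldt n * (n : ℝ) ^ (-(1 + η))) with ha1
  set a2 : ℕ → ℝ := fun n => (η * (2 ^ k * Real.exp (-(Ca * k / 4)))) * (ArithmeticFunction.vonMangoldt n * (n : ℝ) ^ (-(1 + η / 4))) with ha2
  set a3 : ℕ → ℝ := fun n => Real.exp (-(ca * k / (4 * η))) * (if n.Prime then (0 : ℝ) else ArithmeticFunction.vonMangoldt n * (n : ℝ) ^ (-(3 / 4 : ℝ))) with ha3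
  have hS1 : Summable a1 := hs1.mul_left _
  have hS2 : Summable a2 := hs2.mul_left _
  have hS3 : Summable a3 := detp_pp.mul_left _
  have hS : Summable fun n => a1 n + a2 n + a3 n := (hS1.add hS2).add hS3
  set F' : ℕ → ℂ := fun n => if n ∈ PR ca Ca k η then 0 else F n with hF'
  have hF'n : ∀ n, ‖F' n‖ ≤ a1 n + a2 n + a3 n := by
    intro n
    rw [hF']
    simp only
    split_ifs with h
    · rw [norm_zero]
      have h1 : 0 ≤ a1 n := by
        have := ArithmeticFunction.vonMangoldt_nonneg (n := n)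
        rw [ha1]; positivity
      have h2 : 0 ≤ a2 n := by
        have := ArithmeticFunction.vonMangoldt_nonneg (n := n)
        rw [ha2]; positivity
      have h3 : 0 ≤ a3 n := by
        have := ArithmeticFunction.vonMangoldt_nonneg (n := n)
        rw [ha3]
        simp only
        split_ifs <;> positivity
      linarith
    · exact (hFn n).trans (detp_point ca Ca η k (by omega) hca0 hη (by linarith) hCa0 n h)
  have hSF' : Summable F' := Summable.of_norm_bounded hS hF'n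
  have hsplit : HasSum F (∑' n, F' n + ∑ p ∈ PR ca Ca k η, F p) := by
    have h1 : HasSum (fun n => if n ∈ PR ca Ca k η then F n else 0) (∑ p ∈ PR ca Ca k η, F p) := by
      have h2 : ∑ p ∈ PR ca Ca k η, F p = ∑ p ∈ PR ca Ca k η, (if p ∈ PR ca Ca k η then F p else 0) :=
        Finset.sum_congr rfl fun p hp => (if_pos hp).symm
      rw [h2]
      exact hasSum_sum_of_ne_finset_zero fun n hn => if_neg hn
    refine (hSF'.hasSum.add h1).congr_fun fun n => ?_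
    rw [hF']
    simp only
    split_ifs <;> simp
  have hPR : ∑ p ∈ PR ca Ca k η, ((Real.log p * (1 / p) * (η * jk (k - 1) (η * Real.log p)) : ℝ) : ℂ) *
        (χ (p : ZMod q) * (p : ℂ) ^ (-(γ * I))) = ∑ p ∈ PR ca Ca k η, F p := by
    refine Finset.sum_congr rfl fun p hp => ?_
    rw [PR, Finset.mem_filter] at hp
    have hp1 : p.Prime := hp.2.1
    have hp0 : (p : ℂ) ≠ 0 := by exact_mod_cast hp1.ne_zero
    rw [hF]
    simp only
    rw [ArithmeticFunction.vonMangoldt_apply_prime hp1, neg_add, Complex.cpow_add _ _ hp0, Complex.cpow_neg_one]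
    push_cast
    ring
  rw [hPR, hsplit.tsum_eq, add_sub_cancel_right]
  have hbound : ‖∑' n, F' n‖ ≤ ∑' n, (a1 n + a2 n + a3 n) := tsum_of_norm_bounded hS.hasSum hF'n
  refine hbound.trans ?_
  rw [(hS1.add hS2).tsum_add hS3, hS1.tsum_add hS2, ha1, ha2, ha3, tsum_mul_left, tsum_mul_left, tsum_mul_left, ← hT]
  have hkr : (2 : ℝ) ≤ k := by exact_mod_cast hk
  have hexp1 : ∀ a : ℝ, Real.exp (a * k) = Real.exp a ^ k := fun a => by rw [mul_comm, Real.exp_nat_mul]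
  -- part 1
  have p1 : (η * (ca ^ (k - 1) * Real.exp k)) * (∑' n : ℕ, ArithmeticFunction.vonMangoldt n * (n : ℝ) ^ (-(1 + η))) ≤
      B ^ (-(k : ℝ)) / 8 := by
    have h1 : ca ^ (k - 1) ≤ δ ^ k := by
      rw [hca, ← pow_mul]
      exact pow_le_pow_of_le_one hδ0.le hδ1.le (by omega)
    have h2 : Real.exp k = Real.exp 1 ^ k := by rw [← hexp1, one_mul]
    have h3 : η * (1 / η + C) ≤ 1 + C := by
      have : η * (1 / η + C) = 1 + η * C := by field_simp
      rw [this]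
      nlinarith
    calc (η * (ca ^ (k - 1) * Real.exp k)) * (∑' n : ℕ, ArithmeticFunction.vonMangoldt n * (n : ℝ) ^ (-(1 + η)))
        ≤ (η * (δ ^ k * Real.exp k)) * (1 / η + C) := by gcongr
      _ = (η * (1 / η + C)) * (δ * Real.exp 1) ^ k := by rw [h2, mul_pow]; ring
      _ ≤ (1 + C) * (δ * Real.exp 1) ^ k := by gcongr
      _ ≤ B ^ (-(k : ℝ)) / 8 := by
        apply detp_small (1 + C) B _ (by linarith) hB (by positivity) _ k (by omega)
        have h4 : Real.exp 1 ≤ 3 := by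
          have := Real.exp_one_lt_d9
          linarith
        calc δ * Real.exp 1 ≤ δ * 3 := by gcongr
          _ = 1 / (8 * B * (1 + C)) := by rw [hδ]; field_simp; norm_num
  have p2 : (η * (2 ^ k * Real.exp (-(Ca * k / 4)))) * (∑' n : ℕ, ArithmeticFunction.vonMangoldt n * (n : ℝ) ^ (-(1 + η / 4))) ≤
      B ^ (-(k : ℝ)) / 8 := by
    have h3 : η * (1 / (η / 4) + C) ≤ 4 + C := by
      have : η * (1 / (η / 4) + C) = 4 + η * C := by field_simp
      rw [this]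
      nlinarith
    have h4 : Real.exp (-(Ca * k / 4)) = Real.exp (-(Ca / 4)) ^ k := by
      rw [← hexp1]
      congr 1
      ring
    calc (η * (2 ^ k * Real.exp (-(Ca * k / 4)))) * (∑' n : ℕ, ArithmeticFunction.vonMangoldt n * (n : ℝ) ^ (-(1 + η / 4)))
        ≤ (η * (2 ^ k * Real.exp (-(Ca * k / 4)))) * (1 / (η / 4) + C) := by gcongr
      _ = (η * (1 / (η / 4) + C)) * (2 * Real.exp (-(Ca / 4))) ^ k := by rw [h4, mul_pow]; ring
      _ ≤ (4 + C) * (2 * Real.exp (-(Ca / 4))) ^ k := by gcongr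
      _ ≤ B ^ (-(k : ℝ)) / 8 := by
        apply detp_small (4 + C) B _ (by linarith) hB (by positivity) _ k (by omega)
        have h5 : Real.exp (-(Ca / 4)) ≤ 1 / (16 * B * (4 + C)) := by
          rw [one_div, ← Real.exp_log (show 0 < (16 * B * (4 + C))⁻¹ by positivity), Real.exp_le_exp, Real.log_inv, hCa]
          linarith
        calc 2 * Real.exp (-(Ca / 4)) ≤ 2 * (1 / (16 * B * (4 + C))) := by gcongr
          _ = 1 / (8 * B * (4 + C)) := by field_simp; norm_num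
  have p3 : Real.exp (-(ca * k / (4 * η))) * T ≤ B ^ (-(k : ℝ)) / 8 := by
    have h4 : Real.exp (-(ca * k / (4 * η))) = Real.exp (-(ca / (4 * η))) ^ k := by
      rw [← hexp1]
      congr 1
      ring
    rw [h4, mul_comm]
    calc T * Real.exp (-(ca / (4 * η))) ^ k ≤ (1 + T) * Real.exp (-(ca / (4 * η))) ^ k := by
          gcongr
          linarith
      _ ≤ B ^ (-(k : ℝ)) / 8 := by
        apply detp_small (1 + T) B _ (by linarith) hB (by positivity) _ k (by omega)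
        rw [one_div, ← Real.exp_log (show 0 < (8 * B * (1 + T))⁻¹ by positivity), Real.exp_le_exp, Real.log_inv, neg_le_neg_iff,
          le_div_iff₀ (by positivity)]
        rw [le_div_iff₀ (by positivity)] at hη2
        linarith
  have hBpos : 0 < B ^ (-(k : ℝ)) := by positivity
  linarith

/-- **Detection of a zero by primes.**

Proof. `detect` gives `B', K₀'`; `det_parts B'` gives `ca, Ca, κ'`. Take `B = 2 B'`, `K₀ = max K₀' 2`, and `κ` the minimum of the two. Then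
the sum over `PR` is at least `B' ^ (-k) - B' ^ (-k) / 2 ≥ (2 B') ^ (-k)` (`k ≥ 1`). -/
theorem detect_primes [WI] : ∃ B ca Ca K₀ : ℝ, 1 ≤ B ∧ 0 < ca ∧ ca < 1 ∧ 1 < Ca ∧ 1 ≤ K₀ ∧
    ∀ K₁ : ℝ, K₀ ≤ K₁ → ∀ θ : ℝ, 0 < θ → θ ≤ 1 → ∃ ε κ X₀ : ℝ, 0 < ε ∧ 0 < κ ∧ κ ≤ 1 / 16 ∧ 3 ≤ X₀ ∧
    ∀ X : ℝ, X₀ ≤ X → ∀ (q : ℕ), 1 ≤ q → (q : ℝ) ≤ X ^ ε → ∀ χ : DirichletCharacter ℂ q,
    ∀ η : ℝ, 1 / (θ * Real.log X) ≤ η → η ≤ κ → ∀ ρ : ℂ, EF χ ρ = 0 → 1 - η ≤ ρ.re → |ρ.im| ≤ X →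
    ∃ k : ℕ, K₁ * (1 + η * (θ * Real.log X)) ≤ k ∧ (k : ℝ) ≤ 4 * K₁ * (1 + η * (θ * Real.log X)) ∧
      B ^ (-(k : ℝ)) ≤ ‖∑ p ∈ PR ca Ca k η, ((Real.log p * (1 / p) * (η * jk (k - 1) (η * Real.log p)) : ℝ) : ℂ) *
        (χ (p : ZMod q) * (p : ℂ) ^ (-(ρ.im * I)))‖ := by
  obtain ⟨B', K₀', hB', hK₀', hdet⟩ := detect
  obtain ⟨ca, Ca, κ', hca, hca1, hCa, hκ', hκ'16, hparts⟩ := det_parts B' hB'
  refine ⟨2 * B', ca, Ca, max K₀' 2, by linarith, hca, hca1, hCa, by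
    exact le_trans (by norm_num) (le_max_right _ _), ?_⟩
  intro K₁ hK₁ θ hθ hθ1
  obtain ⟨ε, κ, X₀, hε, hκ, hκ16, hX₀, h⟩ := hdet K₁ ((le_max_left _ _).trans hK₁) θ hθ hθ1
  have hK2 : 2 ≤ K₁ := (le_max_right _ _).trans hK₁
  refine ⟨ε, min κ κ', X₀, hε, lt_min hκ hκ', (min_le_left _ _).trans hκ16, hX₀, ?_⟩
  intro X hX q hq hqX χ η hη hηκ ρ hρ hρre hρim
  obtain ⟨k, hk1, hk2, hk3⟩ := h X hX q hq hqX χ η hη (hηκ.trans (min_le_left _ _)) ρ hρ hρre hρim
  have : NeZero q := ⟨by omega⟩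
  have hlog : 0 < Real.log X := Real.log_pos (by linarith)
  have hL : 0 < θ * Real.log X := mul_pos hθ hlog
  have hη0 : 0 < η := (by positivity : 0 < 1 / (θ * Real.log X)).trans_le hη
  have hk2' : 2 ≤ k := by
    have h1 : 0 ≤ η * (θ * Real.log X) := by positivity
    have : (2 : ℝ) ≤ k := by
      refine le_trans ?_ hk1
      calc (2 : ℝ) = 2 * 1 := by norm_num
        _ ≤ K₁ * (1 + η * (θ * Real.log X)) := mul_le_mul hK2 (by linarith) (by norm_num) (by linarith)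
    exact_mod_cast this
  refine ⟨k, hk1, hk2, ?_⟩
  have hp := hparts q χ k hk2' η ρ.im hη0 (hηκ.trans (min_le_right _ _))
  set S1 := ∑' n : ℕ, (ArithmeticFunction.vonMangoldt n : ℂ) * χ (n : ZMod q) *
        (n : ℂ) ^ (-(1 + ρ.im * I)) * ((η * jk (k - 1) (η * Real.log n) : ℝ) : ℂ) with hS1
  set S2 := ∑ p ∈ PR ca Ca k η, ((Real.log p * (1 / p) * (η * jk (k - 1) (η * Real.log p)) : ℝ) : ℂ) *
        (χ (p : ZMod q) * (p : ℂ) ^ (-(ρ.im * I))) with hS2
  have h1 : ‖S1‖ ≤ ‖S1 - S2‖ + ‖S2‖ := by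
    calc ‖S1‖ = ‖(S1 - S2) + S2‖ := by rw [sub_add_cancel]
      _ ≤ _ := norm_add_le _ _
  have hB0 : 0 < B' := by linarith
  have h2 : (2 * B') ^ (-(k : ℝ)) ≤ B' ^ (-(k : ℝ)) / 2 := by
    rw [Real.mul_rpow (by norm_num) hB0.le, div_eq_mul_inv, mul_comm]
    apply mul_le_mul_of_nonneg_left _ (by positivity)
    rw [Real.rpow_neg (by norm_num), Real.rpow_natCast]
    apply inv_anti₀ (by norm_num)
    calc (2 : ℝ) = 2 ^ 1 := by norm_num
      _ ≤ 2 ^ k := pow_le_pow_right₀ (by norm_num) (by omega)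
  linarith

end Pool.Agent.PSG
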