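import Pool.Agent.W_b58c63_h68.LSa

/-!
# Power saving for the exceptional set of Goldbach partitions with a prime in the window: definitions (helper44)
-/

set_option autoImplicit false

noncomputable section

open Finset

namespace Pool.Agent.PSG

open Classical in
/-- The entire function attached to a Dirichlet character: `(s - 1) L(s, χ)` (with its value at `1`) for the principal
character and `L(s, χ)` for the others. -/
def EF {r : ℕ} (χ : DirichletCharacter ℂ r) : ℂ → ℂ :=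
  if h : r = 0 then fun _ => 1 else
    haveI : NeZero r := ⟨h⟩
    if χ = 1 then DirichletCharacter.LFunctionTrivChar₁ r else DirichletCharacter.LFunction χ

open Classical in
/-- `1` for the principal character, `0` for the others. -/
def dl {r : ℕ} (χ : DirichletCharacter ℂ r) : ℝ := if χ = 1 then 1 else 0

/-- The multiplicity of a zero. -/
def mz (F : ℂ → ℂ) (ρ : ℂ) : ℕ := analyticOrderNatAt F ρ

open Classical in
/-- The zeros in a closed ball. -/
def zb (F : ℂ → ℂ) (s : ℂ) (R : ℝ) : Finset ℂ :=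
  if h : {ρ : ℂ | F ρ = 0 ∧ ‖ρ - s‖ ≤ R}.Finite then h.toFinset else ∅

open Classical in
/-- The zeros `β + i γ` with `1 - κ ≤ β ≤ 1`, `|γ| ≤ T`. -/
def ZR (F : ℂ → ℂ) (κ T : ℝ) : Finset ℂ :=
  if h : {ρ : ℂ | F ρ = 0 ∧ 1 - κ ≤ ρ.re ∧ ρ.re ≤ 1 ∧ |ρ.im| ≤ T}.Finite then h.toFinset else ∅

/-- `exp (-x) x ^ k / k!`. -/
def jk (k : ℕ) (x : ℝ) : ℝ := Real.exp (-x) * x ^ k / (k.factorial : ℝ)

/-- The mean of a periodic function. -/
def mean (q : ℕ) (f : ℕ → ℂ) : ℂ := (∑ a ∈ range q, f a) / (q : ℂ)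

/-- `∏_{p ∣ d} h p`. -/
def pp (h : ℕ → ℝ) (d : ℕ) : ℝ := ∏ p ∈ d.primeFactors, h p

/-- Smooth weights supported in `[1 / 4, 16]` with controlled derivatives. -/
def IsW (J : ℕ) (A B : ℝ) (w : ℝ → ℂ) : Prop :=
  ContDiff ℝ (⊤ : ℕ∞) w ∧ (∀ x, x ∉ Set.Icc (1 / 4 : ℝ) 16 → w x = 0) ∧
    ∀ j ≤ J, ∀ x, ‖iteratedDeriv j w x‖ ≤ A * B ^ j

end Pool.Agent.PSG
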