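import Pool.Agent.W_b58c63_h44.W1
import Pool.Agent.W_b58c63_h44.EFb

/-!
# Definitions for the circle method: the model of the small prime
-/

set_option autoImplicit false

noncomputable section

open Finset Complex

namespace Pool.Agent.PSG

open Pool.Agent.Wb58c63 (prim ee)

/-- The weighted number of the zeros close to `1`, over all the primitive characters with conductor at most `X ^ ε`
(the same as `Wt` of `ZP.lean`). -/
def Wr (ε κ X : ℝ) : ℝ :=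
  ∑ r ∈ Icc 1 ⌊X ^ ε⌋₊, ∑ χ ∈ prim r, ∑ ρ ∈ ZR (EF χ) κ X, (mz (EF χ) ρ : ℝ) * X ^ (-((1 - ρ.re) / 4))

/-- The weight of a character. -/
def wx (δ X : ℝ) {r : ℕ} (χ : DirichletCharacter ℂ r) : ℝ :=
  dl χ + ∑ ρ ∈ ZR (EF χ) δ X, (mz (EF χ) ρ : ℝ) * X ^ (-((1 - ρ.re) / 4))

/-- The Ramanujan sum. -/
def cR (k : ℕ) (x : ℤ) : ℝ :=
  ∑ d ∈ k.divisors.filter (fun d : ℕ => (d : ℤ) ∣ x), (d : ℝ) * (ArithmeticFunction.moebius (k / d) : ℝ)

/-- The squarefree numbers up to `Q`, prime to `r`. -/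
def KK (Q r : ℕ) : Finset ℕ := (Icc 1 Q).filter (fun k => Squarefree k ∧ k.Coprime r)

/-- The coefficient `(r / φ(r)) μ(k) / φ(k)`. -/
def cW (r k : ℕ) : ℝ := (r : ℝ) / r.totient * ((ArithmeticFunction.moebius k : ℝ) / k.totient)

/-- The smooth part of the model. -/
def gx (δ T X : ℝ) {r : ℕ} (χ : DirichletCharacter ℂ r) (x : ℝ) : ℂ :=
  (g0 x : ℂ) * ((dl χ : ℂ) - ∑ ρ ∈ ZR (EF χ) δ T, (mz (EF χ) ρ : ℂ) * ((Real.sqrt X * x : ℝ) : ℂ) ^ (ρ - 1))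

/-- The weight of the small prime. -/
def fP (X : ℝ) (n : ℕ) : ℂ := if n.Prime then ((Real.log n * g0 (n / Real.sqrt X) : ℝ) : ℂ) else 0

/-- The model of `fP`. -/
def fM (δ T X : ℝ) (Q n : ℕ) : ℂ :=
  ∑ r ∈ Icc 1 Q, ∑ χ ∈ prim r, ∑ k ∈ KK Q r, (cW r k : ℂ) *
    ((starRingEnd ℂ) (χ (n : ZMod r)) * (cR k n : ℂ)) * gx δ T X χ (n / Real.sqrt X)

/-- `∑ conj χ(b) e(a b / q)` over the reduced residues modulo `q`. -/
def GSum {r : ℕ} (χ : DirichletCharacter ℂ r) (q : ℕ) (a : ℤ) : ℂ :=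
  ∑ b ∈ (range q).filter (fun b => b.Coprime q), (starRingEnd ℂ) (χ (b : ZMod r)) * ee (b * ((a : ℝ) / q))

/-- The coefficient of the model at the fraction `a / q`. -/
def LL (Q : ℕ) {r : ℕ} (χ : DirichletCharacter ℂ r) (q : ℕ) (a : ℤ) : ℂ :=
  ∑ k ∈ KK Q r, (cW r k : ℂ) *
    mean (r * k * q) (fun u => (starRingEnd ℂ) (χ (u : ZMod r)) * (cR k u : ℂ) * ee (u * ((a : ℝ) / q)))

/-- The Fourier transform of the smooth part. -/
def HH (δ T X : ℝ) {r : ℕ} (χ : DirichletCharacter ℂ r) (β : ℝ) : ℂ :=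
  (Real.sqrt X : ℂ) * ∫ x : ℝ, gx δ T X χ x * ee (x * (Real.sqrt X * β))

end Pool.Agent.PSG
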