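import Pool.Agent.W_b58c63_h44.LA
import Pool.Agent.W_b58c63_h44.EFb

/-!
# Boxes of zeros and the size of the logarithmic derivative
-/

set_option autoImplicit false

noncomputable section

open Finset Complex

namespace Pool.Agent.PSG

open Classical in
/-- The zeros `β + i γ` with `1 - κ ≤ β ≤ 1`, `|γ - t| ≤ H`. -/
def ZX (F : ℂ → ℂ) (κ t H : ℝ) : Finset ℂ :=
  if h : {ρ : ℂ | F ρ = 0 ∧ 1 - κ ≤ ρ.re ∧ ρ.re ≤ 1 ∧ |ρ.im - t| ≤ H}.Finite then h.toFinset else ∅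

/-- Proof. `zeros_finite` with the compact box `[1 - κ, 1] × [t - H, t + H]`. -/
theorem mem_ZX (F : ℂ → ℂ) (hF : Differentiable ℂ F) (h : ∃ s, F s ≠ 0) (κ t H : ℝ) (ρ : ℂ) :
    ρ ∈ ZX F κ t H ↔ F ρ = 0 ∧ 1 - κ ≤ ρ.re ∧ ρ.re ≤ 1 ∧ |ρ.im - t| ≤ H := by
  have h1 : {ρ : ℂ | F ρ = 0 ∧ 1 - κ ≤ ρ.re ∧ ρ.re ≤ 1 ∧ |ρ.im - t| ≤ H}.Finite := by
    have := zeros_finite F hF h (Set.Icc (1 - κ) 1 ×ℂ Set.Icc (t - H) (t + H))
      (isCompact_Icc.reProdIm isCompact_Icc)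
    refine this.subset ?_
    rintro ρ ⟨h1, h2, h3, h4⟩
    refine ⟨h1, ?_⟩
    rw [Complex.mem_reProdIm]
    have h5 := abs_le.mp h4
    exact ⟨⟨h2, h3⟩, by linarith [h5.1], by linarith [h5.2]⟩
  unfold ZX
  rw [dif_pos h1, Set.Finite.mem_toFinset]
  exact Iff.rfl

/-- Sums over unions. -/
theorem EB_sum_biUnion_le {ι : Type} (s : Finset ι) (t : ι → Finset ℂ) (f : ℂ → ℝ) (hf : ∀ x, 0 ≤ f x) (Z : Finset ℂ)
    (hZ : ∀ x ∈ Z, ∃ i ∈ s, x ∈ t i) : ∑ x ∈ Z, f x ≤ ∑ i ∈ s, ∑ x ∈ t i, f x := by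
  classical
  induction s using Finset.induction_on generalizing Z with
  | empty =>
    have : Z = ∅ := by
      rw [Finset.eq_empty_iff_forall_notMem]
      intro x hx
      obtain ⟨i, hi, _⟩ := hZ x hx
      simp at hi
    rw [this]; simp
  | insert a s ha ih =>
    rw [Finset.sum_insert ha]
    have h1 : ∑ x ∈ Z.filter (fun x => x ∉ t a), f x ≤ ∑ i ∈ s, ∑ x ∈ t i, f x := by
      apply ih
      intro x hx
      rw [Finset.mem_filter] at hx
      obtain ⟨i, hi, hxi⟩ := hZ x hx.1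
      rw [Finset.mem_insert] at hi
      rcases hi with rfl | hi
      · exact absurd hxi hx.2
      · exact ⟨i, hi, hxi⟩
    have h2 : ∑ x ∈ Z.filter (fun x => x ∈ t a), f x ≤ ∑ x ∈ t a, f x := by
      apply Finset.sum_le_sum_of_subset_of_nonneg
      · intro x hx
        exact (Finset.mem_filter.1 hx).2
      · intro x _ _
        exact hf x
    have h3 := Finset.sum_filter_add_sum_filter_not Z (fun x => x ∈ t a) f
    linarith

/-- **Number of zeros in boxes, and the logarithmic derivative off the zeros.**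

Proof. Let `C₁` be from `LA`, `R₀, X₀'` those for `θ = 1`, `R₁ = R₀ / 16 ≤ 1 / 256`. Let `X` be large, `q ≤ X ^ R₁ ≤ X ^ (R₀ / 4)`, so that `LAat C₁ 1 R₀ X χ t'` holds for all `|t'| ≤ X ^ (3/2)`.
(1) Cover: the points `t_i = t - H + i R₁`, `0 ≤ i ≤ ⌈2 H / R₁⌉`, satisfy `|t_i| ≤ 3 X ≤ X ^ (3/2)`, and every zero `ρ` in the box has `|γ - t_i| ≤ R₁` for some `i`, so `‖ρ - cen 1 X t_i‖ ≤ 4 R₁ + 1 / log X + R₁ ≤ 8 R₁ = R₀ / 2`, i.e. `ρ ∈ zb (EF χ) (cen 1 X t_i) (R₀ / 2)`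
(`mem_zb`, `EF_ne_zero` for `∃ s, F s ≠ 0`). So the sum of the multiplicities is at most `(2 H / R₁ + 2) C₁ R₀ log X ≤ C H log X`.
(2) Let `t' = Im s`. `‖s - cen 1 X t'‖ = |Re s - 1 - 1 / log X| ≤ 2 R₁ + 1 / log X ≤ R₀ / 4`. `EF χ s ≠ 0`: otherwise `Re s < 1` (`EF_ne_zero`) and `s ∈ ZX (EF χ) (4 R₁) t' 1`, so `d ≤ ‖s - s‖ = 0`. The partial fraction formula gives `‖EF'/EF s‖ ≤ ∑_{zb} m / ‖s - ρ‖ + C₁ log X`. A zero `ρ` in
`zb` has `Re ρ < 1`, `|Im ρ - t'| ≤ R₀ / 2 ≤ 1`; if `Re ρ ≥ 1 - 4 R₁` then `ρ ∈ ZX`, `‖s - ρ‖ ≥ d`, and otherwise `‖s - ρ‖ ≥ 2 R₁ ≥ 2 R₁ d`. So the sum is at most `C₁ R₀ log X / (2 R₁ d) = 8 C₁ log X / d`. -/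
theorem box_pack [WI] : ∃ R₁ C X₀ : ℝ, 0 < R₁ ∧ R₁ ≤ 1 / 64 ∧ 1 ≤ C ∧ 3 ≤ X₀ ∧ ∀ X : ℝ, X₀ ≤ X → ∀ q : ℕ, 1 ≤ q → (q : ℝ) ≤ X ^ R₁ →
    ∀ χ : DirichletCharacter ℂ q,
    (∀ t H : ℝ, |t| ≤ X → 1 ≤ H → H ≤ X → (∑ ρ ∈ ZX (EF χ) (4 * R₁) t H, (mz (EF χ) ρ : ℝ)) ≤ C * H * Real.log X) ∧
    ∀ s : ℂ, 1 - 2 * R₁ ≤ s.re → s.re ≤ 1 + R₁ → |s.im| ≤ X → ∀ d : ℝ, 0 < d → d ≤ 1 →
      (∀ ρ ∈ ZX (EF χ) (4 * R₁) s.im 1, d ≤ ‖s - ρ‖) → ‖deriv (EF χ) s / EF χ s‖ ≤ C * Real.log X / d := by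
  classical
  obtain ⟨C₁, hC₁, hLA⟩ := LA
  obtain ⟨R₀, X₀', hR₀, hR₀1, hX₀', hL⟩ := hLA 1 one_pos le_rfl
  set R₁ := R₀ / 16 with hR₁
  have hR1p : 0 < R₁ := by positivity
  have hR1u : R₁ ≤ 1 / 256 := by rw [hR₁]; linarith
  have hR0R1 : R₀ = 16 * R₁ := by rw [hR₁]; ring
  refine ⟨R₁, 64 * C₁, max (max X₀' 9) (Real.exp (1 / R₁)), hR1p, by linarith, by linarith,
    hX₀'.trans ((le_max_left _ _).trans (le_max_left _ _)), ?_⟩
  intro X hX q hq hqX χ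
  have hXa : X₀' ≤ X := ((le_max_left _ _).trans (le_max_left _ _)).trans hX
  have hX9 : 9 ≤ X := ((le_max_right _ _).trans (le_max_left _ _)).trans hX
  have hXe : Real.exp (1 / R₁) ≤ X := (le_max_right _ _).trans hX
  have hX0 : 0 < X := by linarith
  have hlX : 1 / R₁ ≤ Real.log X := (Real.le_log_iff_exp_le hX0).2 hXe
  have hlX0 : 0 < Real.log X := lt_of_lt_of_le (by positivity) hlX
  have hinv : 1 / Real.log X ≤ R₁ := by
    rw [div_le_iff₀ hlX0]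
    rw [div_le_iff₀ hR1p] at hlX
    linarith
  have hinv0 : 0 < 1 / Real.log X := by positivity
  have hX32 : 3 * X ≤ X ^ (3 / 2 : ℝ) := by
    have e1 : X ^ (3 / 2 : ℝ) = Real.sqrt X * X := by
      rw [Real.sqrt_eq_rpow]
      nth_rewrite 3 [← Real.rpow_one X]
      rw [← Real.rpow_add hX0]
      norm_num
    rw [e1]
    apply mul_le_mul_of_nonneg_right _ hX0.le
    rw [Real.le_sqrt (by norm_num) hX0.le]
    linarith
  have hqX' : (q : ℝ) ≤ X ^ (1 * R₀ / 4) := by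
    refine hqX.trans (Real.rpow_le_rpow_of_exponent_le (by linarith) ?_)
    linarith
  have hLat : ∀ t : ℝ, |t| ≤ X ^ (3 / 2 : ℝ) → LAat C₁ 1 R₀ X χ t := fun t ht => hL X hXa q hq hqX' χ t ht
  have hcre : ∀ t : ℝ, (cen 1 X t).re = 1 + 1 / Real.log X := by
    intro t; rw [cen]; simp
  have hcim : ∀ t : ℝ, (cen 1 X t).im = t := by
    intro t; rw [cen]; simp
  have hnz : ∃ s, EF χ s ≠ 0 := ⟨1, EF_ne_zero χ 1 (by simp)⟩
  have hFd := EF_diff χ
  have hnorm : ∀ z w : ℂ, ‖z - w‖ ≤ |z.re - w.re| + |z.im - w.im| := by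
    intro z w
    have := Complex.norm_le_abs_re_add_abs_im (z - w)
    rwa [Complex.sub_re, Complex.sub_im] at this
  constructor
  · intro t H ht hH hHX
    set N : ℕ := ⌈2 * H / R₁⌉₊ with hN
    have hN1 : 2 * H / R₁ ≤ N := Nat.le_ceil _
    have hN2 : (N : ℝ) < 2 * H / R₁ + 1 := Nat.ceil_lt_add_one (by positivity)
    have hcov : ∀ ρ ∈ ZX (EF χ) (4 * R₁) t H, ∃ i ∈ Finset.range (N + 1),
        ρ ∈ zb (EF χ) (cen 1 X (t - H + i * R₁)) (R₀ / 2) := by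
      intro ρ hρ
      rw [mem_ZX (EF χ) hFd hnz] at hρ
      obtain ⟨h1, h2, h3, h4⟩ := hρ
      rw [abs_le] at h4
      have h5 : 0 ≤ (ρ.im - (t - H)) / R₁ := div_nonneg (by linarith [h4.1]) hR1p.le
      have h6 := Nat.floor_le h5
      have h7 := Nat.lt_floor_add_one ((ρ.im - (t - H)) / R₁)
      set i := ⌊(ρ.im - (t - H)) / R₁⌋₊ with hi
      rw [le_div_iff₀ hR1p] at h6
      rw [div_lt_iff₀ hR1p] at h7
      refine ⟨i, ?_, ?_⟩
      · rw [Finset.mem_range]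
        have h8 : (i : ℝ) ≤ N := by
          refine le_trans ?_ hN1
          rw [le_div_iff₀ hR1p]
          linarith [h4.2]
        have h9 : i ≤ N := by exact_mod_cast h8
        omega
      · rw [mem_zb (EF χ) hFd hnz]
        refine ⟨h1, ?_⟩
        refine (hnorm _ _).trans ?_
        rw [hcre, hcim]
        have h8 : |ρ.re - (1 + 1 / Real.log X)| ≤ 5 * R₁ := by
          rw [abs_le]; constructor <;> linarith
        have h9 : |ρ.im - (t - H + i * R₁)| ≤ R₁ := by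
          rw [abs_le]; constructor <;> linarith
        linarith
    have h1 := EB_sum_biUnion_le (Finset.range (N + 1)) (fun i => zb (EF χ) (cen 1 X (t - H + i * R₁)) (R₀ / 2))
      (fun ρ => (mz (EF χ) ρ : ℝ)) (fun _ => Nat.cast_nonneg _) _ hcov
    refine h1.trans ?_
    have h2 : ∀ i ∈ Finset.range (N + 1), ∑ ρ ∈ zb (EF χ) (cen 1 X (t - H + i * R₁)) (R₀ / 2), (mz (EF χ) ρ : ℝ)
        ≤ C₁ * R₀ * Real.log X := by
      intro i hi
      rw [Finset.mem_range] at hi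
      have hiN : (i : ℝ) ≤ N := by
        have : i ≤ N := by omega
        exact_mod_cast this
      have h3 : |t - H + i * R₁| ≤ X ^ (3 / 2 : ℝ) := by
        refine le_trans ?_ hX32
        rw [abs_le] at ht ⊢
        have h4 : (i : ℝ) * R₁ ≤ 2 * H + R₁ := by
          have h5 : (i : ℝ) ≤ 2 * H / R₁ + 1 := by linarith
          have h6 := mul_le_mul_of_nonneg_right h5 hR1p.le
          have h7 : (2 * H / R₁ + 1) * R₁ = 2 * H + R₁ := by field_simp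
          linarith
        have h5 : 0 ≤ (i : ℝ) * R₁ := by positivity
        constructor <;> linarith [ht.1, ht.2]
      have h4 := (hLat _ h3).1
      rwa [one_mul] at h4
    refine (Finset.sum_le_sum h2).trans ?_
    rw [Finset.sum_const, Finset.card_range, nsmul_eq_mul]
    push_cast
    have h3 : ((N : ℝ) + 1) * R₁ ≤ 4 * H := by
      have h5 : (N : ℝ) + 1 ≤ 2 * H / R₁ + 2 := by linarith
      have h6 := mul_le_mul_of_nonneg_right h5 hR1p.le
      have h7 : (2 * H / R₁ + 2) * R₁ = 2 * H + 2 * R₁ := by field_simp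
      linarith
    rw [hR0R1]
    have h4 : ((N : ℝ) + 1) * (C₁ * (16 * R₁) * Real.log X) = (((N : ℝ) + 1) * R₁) * (16 * C₁ * Real.log X) := by ring
    rw [h4]
    have h5 := mul_le_mul_of_nonneg_right h3 (show 0 ≤ 16 * C₁ * Real.log X by positivity)
    linarith
  · intro s hs1 hs2 hs3 d hd hd1 hsd
    have hsX : |s.im| ≤ X ^ (3 / 2 : ℝ) := by linarith
    obtain ⟨hA, H, _, hHb, hform⟩ := hLat s.im hsX
    rw [one_mul] at hA hHb
    have hds : ‖s - cen 1 X s.im‖ ≤ R₀ / 4 := by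
      refine (hnorm _ _).trans ?_
      rw [hcre, hcim, sub_self, abs_zero, add_zero, abs_le]
      constructor <;> linarith
    have hne : EF χ s ≠ 0 := by
      intro h0
      have h1 : s.re < 1 := by
        by_contra h2
        exact EF_ne_zero χ s (not_lt.1 h2) h0
      have h2 : s ∈ ZX (EF χ) (4 * R₁) s.im 1 := by
        rw [mem_ZX (EF χ) hFd hnz]
        refine ⟨h0, by linarith, h1.le, ?_⟩
        rw [sub_self, abs_zero]; norm_num
      have h3 := hsd s h2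
      rw [sub_self, norm_zero] at h3
      linarith
    have hball : s ∈ Metric.ball (cen 1 X s.im) (R₀ / 2) := by
      rw [Metric.mem_ball, dist_eq_norm]
      linarith
    rw [hform s hball hne]
    refine (norm_add_le _ _).trans ?_
    have h1 := hHb s hds
    have h2 : ‖∑ ρ ∈ zb (EF χ) (cen 1 X s.im) (R₀ / 2), (mz (EF χ) ρ : ℂ) / (s - ρ)‖
        ≤ ∑ ρ ∈ zb (EF χ) (cen 1 X s.im) (R₀ / 2), (mz (EF χ) ρ : ℝ) / (2 * R₁ * d) := by
      refine (norm_sum_le _ _).trans (Finset.sum_le_sum ?_)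
      intro ρ hρ
      rw [mem_zb (EF χ) hFd hnz] at hρ
      obtain ⟨h3, h4⟩ := hρ
      have h5 : ρ.re < 1 := by
        by_contra h6
        exact EF_ne_zero χ ρ (not_lt.1 h6) h3
      have h6 : |ρ.im - s.im| ≤ 1 := by
        have := (Complex.abs_im_le_norm (ρ - cen 1 X s.im)).trans h4
        rw [Complex.sub_im, hcim] at this
        linarith
      have h7 : 2 * R₁ * d ≤ ‖s - ρ‖ := by
        by_cases h8 : 1 - 4 * R₁ ≤ ρ.re
        · have h9 : ρ ∈ ZX (EF χ) (4 * R₁) s.im 1 := by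
            rw [mem_ZX (EF χ) hFd hnz]
            exact ⟨h3, h8, h5.le, h6⟩
          have h10 := hsd ρ h9
          have h11 : 2 * R₁ * d ≤ 1 * d := mul_le_mul_of_nonneg_right (by linarith) hd.le
          linarith
        · push Not at h8
          have h9 : s.re - ρ.re ≤ ‖s - ρ‖ := by
            have := (le_abs_self _).trans (Complex.abs_re_le_norm (s - ρ))
            rwa [Complex.sub_re] at this
          have h11 : 2 * R₁ * d ≤ 2 * R₁ * 1 := mul_le_mul_of_nonneg_left hd1 (by linarith)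
          linarith
      rw [norm_div, Complex.norm_natCast]
      exact div_le_div_of_nonneg_left (Nat.cast_nonneg _) (by positivity) h7
    rw [← Finset.sum_div] at h2
    have h3 : (∑ ρ ∈ zb (EF χ) (cen 1 X s.im) (R₀ / 2), (mz (EF χ) ρ : ℝ)) / (2 * R₁ * d)
        ≤ 8 * C₁ * Real.log X / d := by
      rw [div_le_div_iff₀ (by positivity) hd]
      have h4 := mul_le_mul_of_nonneg_right hA hd.le
      rw [hR0R1] at h4
      rw [hR0R1]
      linarith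
    have h4 : C₁ * Real.log X ≤ C₁ * Real.log X / d := by
      rw [le_div_iff₀ hd]
      have : 0 ≤ C₁ * Real.log X := by positivity
      nlinarith
    have h5 : 64 * C₁ * Real.log X / d = 8 * C₁ * Real.log X / d + C₁ * Real.log X / d + 55 * (C₁ * Real.log X / d) := by
      ring
    have h6 : 0 ≤ C₁ * Real.log X / d := by positivity
    linarith

/-- The number of the zeros in `ZR`.

Proof. `ZR F κ X = ZX F κ 0 X ⊆ ZX F (4 R₁) 0 X` for `κ ≤ 4 R₁`; `box_pack`. -/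
theorem ZR_count [WI] : ∃ κ₀ C X₀ : ℝ, 0 < κ₀ ∧ κ₀ ≤ 1 / 16 ∧ 1 ≤ C ∧ 3 ≤ X₀ ∧ ∀ X : ℝ, X₀ ≤ X → ∀ q : ℕ, 1 ≤ q → (q : ℝ) ≤ X ^ κ₀ →
    ∀ χ : DirichletCharacter ℂ q, (∑ ρ ∈ ZR (EF χ) κ₀ X, (mz (EF χ) ρ : ℝ)) ≤ C * X * Real.log X := by
  obtain ⟨R₁, C, X₀, h1, h2, h3, h4, hb⟩ := box_pack
  refine ⟨R₁, C, X₀, h1, by linarith, h3, h4, ?_⟩
  intro X hX q hq hqX χ
  have hX0 : 3 ≤ X := h4.trans hX
  have h5 := (hb X hX q hq hqX χ).1 0 X (by rw [abs_zero]; linarith) (by linarith) le_rfl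
  refine le_trans ?_ h5
  have hnz : ∃ s, EF χ s ≠ 0 := ⟨1, EF_ne_zero χ 1 (by simp)⟩
  apply Finset.sum_le_sum_of_subset_of_nonneg
  · intro ρ hρ
    rw [mem_ZR (EF χ) (EF_diff χ) hnz] at hρ
    rw [mem_ZX (EF χ) (EF_diff χ) hnz]
    exact ⟨hρ.1, by linarith [hρ.2.1], hρ.2.2.1, by rw [sub_zero]; exact hρ.2.2.2⟩
  · intro ρ _ _
    exact Nat.cast_nonneg _

/-- Pigeonhole.

Proof. The open intervals of radius `h = (b - a) / (2 (card + 1))` about the points of `S` have total length `2 h card < b - a`, so they do not cover `[a, b]`. -/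
theorem pigeon (S : Finset ℝ) (a b : ℝ) (hab : a < b) :
    ∃ x ∈ Set.Icc a b, ∀ s ∈ S, (b - a) / (2 * ((S.card : ℝ) + 1)) ≤ |x - s| := by
  classical
  set n := S.card with hn
  set h : ℝ := (b - a) / (2 * ((n : ℝ) + 1)) with hh
  have hn0 : (0 : ℝ) < 2 * ((n : ℝ) + 1) := by positivity
  have hh0 : 0 < h := div_pos (by linarith) hn0
  have hh2 : 2 * h * ((n : ℝ) + 1) = b - a := by
    rw [hh]; field_simp
  by_contra hcon
  push Not at hcon
  have hx : ∀ j ∈ Finset.range (n + 1), ∃ s ∈ S, |a + 2 * h * j + h - s| < h := by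
    intro j hj
    rw [Finset.mem_range] at hj
    apply hcon
    have h1 : (j : ℝ) + 1 ≤ (n : ℝ) + 1 := by
      have : j + 1 ≤ n + 1 := by omega
      exact_mod_cast this
    have h2 : 2 * h * ((j : ℝ) + 1) ≤ 2 * h * ((n : ℝ) + 1) := mul_le_mul_of_nonneg_left h1 (by linarith)
    have h3 : 0 ≤ 2 * h * (j : ℝ) := by positivity
    constructor
    · linarith
    · linarith
  choose! f hf1 hf2 using hx
  obtain ⟨i, hi, j, hj, hij, hfij⟩ := Finset.exists_ne_map_eq_of_card_lt_of_maps_to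
    (s := Finset.range (n + 1)) (t := S) (by rw [Finset.card_range]; omega) hf1
  have key : ∀ i j : ℕ, i ∈ Finset.range (n + 1) → j ∈ Finset.range (n + 1) → i < j → f i = f j → False := by
    intro i j hi hj hlt he
    have h1 := abs_lt.1 (hf2 i hi)
    have h2 := abs_lt.1 (hf2 j hj)
    rw [he] at h1
    have h3 : (i : ℝ) + 1 ≤ j := by exact_mod_cast hlt
    have h4 : 2 * h * ((i : ℝ) + 1) ≤ 2 * h * j := mul_le_mul_of_nonneg_left h3 (by linarith)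
    linarith [h1.1, h1.2, h2.1, h2.2]
  rcases lt_or_gt_of_ne hij with hlt | hlt
  · exact key i j hi hj hlt hfij
  · exact key j i hj hi hlt hfij.symm

end Pool.Agent.PSG
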