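import Pool.Agent.W_b58c63_h44.Df

/-!
# Division of an entire function by its zeros
-/

set_option autoImplicit false

noncomputable section

open Finset Complex

namespace Pool.Agent.PSG

theorem FZ_one (ρ : ℂ) (n : ℕ) : ∀ G : ℂ → ℂ, Differentiable ℂ G → analyticOrderAt G ρ = n →
    ∃ g : ℂ → ℂ, Differentiable ℂ g ∧ (∀ s, G s = (s - ρ) ^ n * g s) ∧ g ρ ≠ 0 := by
  induction n with
  | zero =>
    intro G hG h
    refine ⟨G, hG, fun s => by rw [pow_zero, one_mul], ?_⟩
    rw [Nat.cast_zero] at h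
    exact ((hG.analyticAt ρ).analyticOrderAt_eq_zero).1 h
  | succ n ih =>
    intro G hG h
    have hGρ : G ρ = 0 := by
      refine ((hG.analyticAt ρ).analyticOrderAt_ne_zero).1 ?_
      rw [h]
      exact_mod_cast Nat.succ_ne_zero n
    have hk : Differentiable ℂ (dslope G ρ) := by
      rw [← differentiableOn_univ]
      exact (differentiableOn_dslope Filter.univ_mem).2 hG.differentiableOn
    have heq : ∀ s, G s = (s - ρ) * dslope G ρ s := by
      intro s
      have h1 := sub_smul_dslope_of_zero hGρ s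
      rw [smul_eq_mul] at h1
      exact h1.symm
    have h2 : G = (fun s => s - ρ) * dslope G ρ := by
      funext s
      exact heq s
    have h3 : analyticOrderAt G ρ = 1 + analyticOrderAt (dslope G ρ) ρ := by
      have h4 := analyticOrderAt_mul (f := fun s : ℂ => s - ρ) (g := dslope G ρ) (z₀ := ρ)
        (by fun_prop) (hk.analyticAt ρ)
      rw [← h2, analyticOrderAt_id_sub_const_self] at h4
      exact h4
    have h5 : analyticOrderAt (dslope G ρ) ρ = n := by
      rw [h] at h3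
      have h6 : analyticOrderAt (dslope G ρ) ρ ≠ ⊤ := by
        intro h7
        rw [h7] at h3
        simp at h3
      obtain ⟨m, hm⟩ := ENat.ne_top_iff_exists.1 h6
      rw [← hm] at h3 ⊢
      have h7 : n + 1 = 1 + m := by exact_mod_cast h3
      have h8 : m = n := by omega
      rw [h8]
    obtain ⟨g, hg, hgs, hgρ⟩ := ih _ hk h5
    refine ⟨g, hg, fun s => ?_, hgρ⟩
    rw [heq, hgs s, pow_succ]
    ring

theorem FZ_order (F : ℂ → ℂ) (hF : Differentiable ℂ F) (h : ∃ s, F s ≠ 0) (ρ : ℂ) :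
    analyticOrderAt F ρ = mz F ρ := by
  have h1 : analyticOrderAt F ρ ≠ ⊤ := by
    intro h2
    obtain ⟨s, hs⟩ := h
    apply hs
    have h3 := (AnalyticOnNhd.analyticOrderAt_eq_top_iff_eq_zero ρ (fun z => hF.analyticAt z)).1 h2
    rw [h3]
    rfl
  exact (Nat.cast_analyticOrderNatAt h1).symm

/-- Division by finitely many zeros.

Proof. Induction on `S`. For `S = insert ρ S'` write `F = P' g'`, `P' = ∏_{S'} (s - ρ') ^ mz F ρ'`, `g'` entire. The product `P'` is analytic and nonzero at `ρ` (`ρ ∉ S'`), so the order of `g'` at `ρ` is the order `m = mz F ρ` of `F` (`analyticOrderAt_mul`; finite by the identity theorem, as `F` is not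
identically zero). Let `g = g' / (s - ρ) ^ m` for `s ≠ ρ`, continued at `ρ`: `m`-fold `dslope`, or `AnalyticAt.analyticOrderAt_eq_natCast` gives a factorization near `ρ` with a nonvanishing function, and the function which is this factor near `ρ` and the quotient elsewhere is entire.
`g ρ ≠ 0`, and `g ρ' ≠ 0` for `ρ' ∈ S'` because `g' ρ' ≠ 0`. -/
theorem factor_zeros (F : ℂ → ℂ) (hF : Differentiable ℂ F) (h : ∃ s, F s ≠ 0) (S : Finset ℂ) :
    ∃ g : ℂ → ℂ, Differentiable ℂ g ∧ (∀ s, F s = (∏ ρ ∈ S, (s - ρ) ^ mz F ρ) * g s) ∧ ∀ ρ ∈ S, g ρ ≠ 0 := by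
  classical
  induction S using Finset.induction_on with
  | empty =>
    exact ⟨F, hF, fun s => by rw [Finset.prod_empty, one_mul], fun ρ hρ => absurd hρ (notMem_empty ρ)⟩
  | insert ρ S hρ ih =>
    obtain ⟨g', hg', hF', hne'⟩ := ih
    have hP : (∏ ρ' ∈ S, (ρ - ρ') ^ mz F ρ') ≠ 0 := by
      rw [Finset.prod_ne_zero_iff]
      intro ρ' hρ'
      refine pow_ne_zero _ (sub_ne_zero.2 ?_)
      rintro rfl
      exact hρ hρ'
    have hPd : Differentiable ℂ (fun s : ℂ => ∏ ρ' ∈ S, (s - ρ') ^ mz F ρ') := by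
      fun_prop
    have h1 : F = (fun s : ℂ => ∏ ρ' ∈ S, (s - ρ') ^ mz F ρ') * g' := by
      funext s
      exact hF' s
    have h2 : analyticOrderAt g' ρ = mz F ρ := by
      have h3 := analyticOrderAt_mul (f := fun s : ℂ => ∏ ρ' ∈ S, (s - ρ') ^ mz F ρ') (g := g')
        (z₀ := ρ) (hPd.analyticAt ρ) (hg'.analyticAt ρ)
      rw [← h1, (AnalyticAt.analyticOrderAt_eq_zero (hPd.analyticAt ρ)).2 hP, zero_add] at h3
      rw [← h3]
      exact FZ_order F hF h ρ
    obtain ⟨g, hg, hgs, hgρ⟩ := FZ_one ρ (mz F ρ) g' hg' h2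
    refine ⟨g, hg, fun s => ?_, fun ρ' hρ' => ?_⟩
    · rw [Finset.prod_insert hρ, hF' s, hgs s]
      ring
    · rcases Finset.mem_insert.1 hρ' with h3 | h3
      · rw [h3]
        exact hgρ
      · have h4 := hne' ρ' h3
        rw [hgs ρ'] at h4
        exact right_ne_zero_of_mul h4

/-- The logarithmic derivative after division by zeros.

Proof. Logarithmic derivative of the product (`logDeriv_mul`, `logDeriv_prod`); as `F s ≠ 0`, every factor with `mz F ρ ≥ 1` is nonzero at `s`, and for `mz F ρ = 0` the factor is `1` and both sides have the term `0`. -/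
theorem factor_ld (F g : ℂ → ℂ) (hg : Differentiable ℂ g) (S : Finset ℂ)
    (h : ∀ s, F s = (∏ ρ ∈ S, (s - ρ) ^ mz F ρ) * g s) (s : ℂ) (hs : F s ≠ 0) :
    deriv F s / F s = ∑ ρ ∈ S, (mz F ρ : ℂ) / (s - ρ) + deriv g s / g s := by
  have h1 := hs
  rw [h s] at h1
  have hP := left_ne_zero_of_mul h1
  have hg0 := right_ne_zero_of_mul h1
  have hfac := Finset.prod_ne_zero_iff.1 hP
  obtain ⟨m, hm⟩ : ∃ m : ℂ → ℕ, m = mz F := ⟨_, rfl⟩
  have hF : F = fun z => (∏ ρ ∈ S, (z - ρ) ^ mz F ρ) * g z := funext h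
  rw [← hm] at hF hP hfac
  have h2 : logDeriv F s = logDeriv (fun z : ℂ => ∏ ρ ∈ S, (z - ρ) ^ m ρ) s + logDeriv g s := by
    rw [hF]
    exact logDeriv_mul s hP hg0 (by fun_prop) (hg s)
  have h3 : logDeriv (fun z : ℂ => ∏ ρ ∈ S, (z - ρ) ^ m ρ) s = ∑ ρ ∈ S, (m ρ : ℂ) / (s - ρ) := by
    rw [logDeriv_prod (f := fun ρ z => (z - ρ) ^ m ρ) hfac (fun ρ _ => by fun_prop)]
    refine Finset.sum_congr rfl fun ρ _ => ?_
    rw [logDeriv_fun_pow (by fun_prop), logDeriv_apply, deriv_sub_const, deriv_id'']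
    ring
  rw [h3] at h2
  rw [← hm]
  exact h2

end Pool.Agent.PSG
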