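import Pool.Agent.W_b58c63_h44.Df

/-!
# Mellin transforms of smooth compactly supported weights, and the shift of contours
-/

set_option autoImplicit false

noncomputable section

open Finset Complex MeasureTheory

namespace Pool.Agent.PSG

theorem mel_top {w : ℝ → ℂ} (hw : ∀ x, x ∉ Set.Icc (1 / 4 : ℝ) 16 → w x = 0) :
    w =ᶠ[Filter.atTop] fun _ => 0 := by
  filter_upwards [Filter.eventually_gt_atTop 16] with x hx
  exact hw x fun h => absurd h.2 (not_le.2 hx)

theorem mel_bot {w : ℝ → ℂ} (hw : ∀ x, x ∉ Set.Icc (1 / 4 : ℝ) 16 → w x = 0) :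
    w =ᶠ[nhdsWithin 0 (Set.Ioi 0)] fun _ => 0 := by
  have h : ∀ᶠ x : ℝ in nhds 0, x < 1 / 4 := eventually_lt_nhds (by norm_num)
  filter_upwards [h.filter_mono nhdsWithin_le_nhds] with x hx
  exact hw x fun h => absurd h.1 (not_le.2 hx)

theorem mel_conv {w : ℝ → ℂ} (hc : Continuous w)
    (hw : ∀ x, x ∉ Set.Icc (1 / 4 : ℝ) 16 → w x = 0) (s : ℂ) : MellinConvergent w s :=
  mellinConvergent_of_isBigO_rpow (a := s.re + 1) (b := s.re - 1)
    (hc.locallyIntegrable.locallyIntegrableOn _)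
    ((mel_top hw).trans_isBigO (Asymptotics.isBigO_zero _ _)) (by linarith)
    ((mel_bot hw).trans_isBigO (Asymptotics.isBigO_zero _ _)) (by linarith)

theorem mel_int {w : ℝ → ℂ} (hw : ∀ x, x ∉ Set.Icc (1 / 4 : ℝ) 16 → w x = 0) (s : ℂ) :
    mellin w s = ∫ x in (1 / 8 : ℝ)..17, (x : ℂ) ^ (s - 1) * w x := by
  rw [mellin, intervalIntegral.integral_of_le (by norm_num)]
  refine setIntegral_eq_of_subset_of_forall_sdiff_eq_zero measurableSet_Ioi ?_ ?_
  · intro x hx
    have h1 := hx.1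
    rw [Set.mem_Ioi]
    linarith
  · intro x hx
    rw [smul_eq_mul, hw x, mul_zero]
    intro h
    apply hx.2
    exact ⟨by linarith [h.1], by linarith [h.2]⟩

theorem mel_rpow (x t : ℝ) (h1 : 1 / 8 ≤ x) (h2 : x ≤ 17) : x ^ t ≤ 17 ^ |t| := by
  rcases le_total 0 t with h | h
  · rw [abs_of_nonneg h]
    exact Real.rpow_le_rpow (by linarith) h2 h
  · rw [abs_of_nonpos h]
    have h3 : x ^ t = (x⁻¹) ^ (-t) := by
      rw [Real.inv_rpow (by linarith), Real.rpow_neg (by linarith), inv_inv]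
    rw [h3]
    apply Real.rpow_le_rpow (by positivity) _ (by linarith)
    rw [inv_le_comm₀ (by linarith) (by norm_num)]
    linarith

theorem mel_bound {w : ℝ → ℂ} (hw : ∀ x, x ∉ Set.Icc (1 / 4 : ℝ) 16 → w x = 0) {M : ℝ}
    (hM : ∀ x, ‖w x‖ ≤ M) (s : ℂ) (K : ℝ) (hK : |s.re - 1| ≤ K) :
    ‖mellin w s‖ ≤ 17 ^ (K + 1) * M := by
  have hM0 : 0 ≤ M := (norm_nonneg _).trans (hM 0)
  rw [mel_int hw]
  have h1 : ∀ x ∈ Set.uIoc (1 / 8 : ℝ) 17, ‖(x : ℂ) ^ (s - 1) * w x‖ ≤ 17 ^ K * M := by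
    intro x hx
    rw [Set.uIoc_of_le (by norm_num)] at hx
    have hx0 : 0 < x := by linarith [hx.1]
    rw [norm_mul, Complex.norm_cpow_eq_rpow_re_of_pos hx0]
    have h2 := mel_rpow x (s - 1).re hx.1.le hx.2
    have h3 : (17 : ℝ) ^ |(s - 1).re| ≤ 17 ^ K := by
      apply Real.rpow_le_rpow_of_exponent_le (by norm_num)
      simpa using hK
    exact mul_le_mul (h2.trans h3) (hM x) (norm_nonneg _) (by positivity)
  have h2 := intervalIntegral.norm_integral_le_of_norm_le_const h1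
  refine h2.trans ?_
  have h3 : |(17 : ℝ) - 1 / 8| ≤ 17 := by
    rw [abs_of_nonneg (by norm_num)]
    norm_num
  calc 17 ^ K * M * |(17 : ℝ) - 1 / 8| ≤ 17 ^ K * M * 17 :=
        mul_le_mul_of_nonneg_left h3 (by positivity)
    _ = 17 ^ (K + 1) * M := by
        rw [Real.rpow_add_one (by norm_num)]
        ring

/-- Integration by parts. -/
theorem mel_parts {w : ℝ → ℂ} (hd : ContDiff ℝ 1 w)
    (hw : ∀ x, x ∉ Set.Icc (1 / 4 : ℝ) 16 → w x = 0)
    (hw' : ∀ x, x ∉ Set.Icc (1 / 4 : ℝ) 16 → deriv w x = 0) (s : ℂ) (hs : s ≠ 0) :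
    s * mellin w s = -mellin (deriv w) (s + 1) := by
  have hdw : ∀ x, HasDerivAt w (deriv w x) x := fun x =>
    ((hd.differentiable (by norm_num)) x).hasDerivAt
  have hcd : Continuous (deriv w) := hd.continuous_deriv (le_refl _)
  have hF : ∀ x ∈ Set.uIcc (1 / 8 : ℝ) 17, HasDerivAt (fun y : ℝ => (y : ℂ) ^ s * w y)
      (s * (x : ℂ) ^ (s - 1) * w x + (x : ℂ) ^ s * deriv w x) x := by
    intro x hx
    rw [Set.uIcc_of_le (by norm_num)] at hx
    have hx0 : x ≠ 0 := by
      have := hx.1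
      intro h
      rw [h] at this
      norm_num at this
    exact (hasDerivAt_ofReal_cpow_const hx0 hs).mul (hdw x)
  have hcp : ∀ t : ℂ, ContinuousOn (fun x : ℝ => (x : ℂ) ^ t) (Set.uIcc (1 / 8 : ℝ) 17) := by
    intro t x hx
    rw [Set.uIcc_of_le (by norm_num)] at hx
    apply ContinuousAt.continuousWithinAt
    apply (continuousAt_ofReal_cpow_const _ _ (Or.inr ?_))
    have := hx.1
    intro h
    rw [h] at this
    norm_num at this
  have hi1 : IntervalIntegrable (fun x : ℝ => (x : ℂ) ^ (s - 1) * w x) volume (1 / 8) 17 :=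
    ((hcp _).mul hd.continuous.continuousOn).intervalIntegrable
  have hi2 : IntervalIntegrable (fun x : ℝ => (x : ℂ) ^ s * deriv w x) volume (1 / 8) 17 :=
    ((hcp _).mul hcd.continuousOn).intervalIntegrable
  have h1 : ∫ x in (1 / 8 : ℝ)..17, (s * (x : ℂ) ^ (s - 1) * w x + (x : ℂ) ^ s * deriv w x) =
      ((17 : ℝ) : ℂ) ^ s * w 17 - ((1 / 8 : ℝ) : ℂ) ^ s * w (1 / 8) := by
    apply intervalIntegral.integral_eq_sub_of_hasDerivAt hF
    have h2 := (hi1.const_mul s).add hi2
    refine h2.congr ?_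
    intro x _
    simp only []
    ring
  have h2 : w 17 = 0 := hw 17 (fun h => by have := h.2; norm_num at this)
  have h3 : w (1 / 8) = 0 := hw (1 / 8) (fun h => by have := h.1; norm_num at this)
  rw [h2, h3, mul_zero, mul_zero, sub_zero] at h1
  have h4 : ∫ x in (1 / 8 : ℝ)..17, (s * (x : ℂ) ^ (s - 1) * w x + (x : ℂ) ^ s * deriv w x) =
      s * (∫ x in (1 / 8 : ℝ)..17, (x : ℂ) ^ (s - 1) * w x) +
        ∫ x in (1 / 8 : ℝ)..17, (x : ℂ) ^ s * deriv w x := by
    rw [← intervalIntegral.integral_const_mul, ← intervalIntegral.integral_add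
      (hi1.const_mul s) hi2]
    congr 1
    funext x
    ring
  rw [h4] at h1
  rw [mel_int hw, mel_int hw', add_sub_cancel_right]
  exact eq_neg_of_add_eq_zero_left h1

theorem mel_deriv_zero {w : ℝ → ℂ}
    (hw : ∀ x, x ∉ Set.Icc (1 / 4 : ℝ) 16 → w x = 0) :
    ∀ x, x ∉ Set.Icc (1 / 4 : ℝ) 16 → deriv w x = 0 := by
  intro x hx
  have h1 : w =ᶠ[nhds x] fun _ => 0 := by
    filter_upwards [isClosed_Icc.isOpen_compl.mem_nhds hx] with y hy
    exact hw y hy
  rw [h1.deriv_eq, deriv_const]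

theorem mel_iter (j : ℕ) : ∀ (w : ℝ → ℂ), ContDiff ℝ (⊤ : ℕ∞) w →
    (∀ x, x ∉ Set.Icc (1 / 4 : ℝ) 16 → w x = 0) → ∀ s : ℂ, 1 ≤ |s.im| →
    (∀ x, x ∉ Set.Icc (1 / 4 : ℝ) 16 → iteratedDeriv j w x = 0) ∧
    ‖mellin w s‖ ≤ ‖mellin (iteratedDeriv j w) (s + j)‖ / |s.im| ^ j := by
  induction j with
  | zero =>
    intro w hd hw s hs
    refine ⟨by simpa using hw, ?_⟩
    simp
  | succ j ih =>
    intro w hd hw s hs
    have hd1 : ContDiff ℝ 1 w := hd.of_le (by exact_mod_cast le_top)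
    have hd2 : ContDiff ℝ (⊤ : ℕ∞) (deriv w) := by
      have := (contDiff_infty_iff_deriv (f := w)).1 hd
      exact this.2
    have hw2 := mel_deriv_zero hw
    have hs0 : s ≠ 0 := by
      intro h
      rw [h] at hs
      simp at hs
      linarith
    obtain ⟨h1, h2⟩ := ih (deriv w) hd2 hw2 (s + 1) (by simpa using hs)
    rw [iteratedDeriv_succ']
    refine ⟨h1, ?_⟩
    have h3 := mel_parts hd1 hw hw2 s hs0
    have h4 : ‖s‖ * ‖mellin w s‖ = ‖mellin (deriv w) (s + 1)‖ := by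
      rw [← norm_mul, h3, norm_neg]
    have h5 : |s.im| ≤ ‖s‖ := Complex.abs_im_le_norm s
    have h6 : |s.im| * ‖mellin w s‖ ≤ ‖mellin (deriv w) (s + 1)‖ := by
      rw [← h4]
      exact mul_le_mul_of_nonneg_right h5 (norm_nonneg _)
    have h7 : (s + 1).im = s.im := by simp
    rw [h7] at h2
    have h8 : s + 1 + (j : ℂ) = s + ((j + 1 : ℕ) : ℂ) := by
      push_cast
      ring
    rw [h8] at h2
    have h9 : 0 < |s.im| := by linarith
    rw [pow_succ, ← div_div, le_div_iff₀ h9]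
    calc ‖mellin w s‖ * |s.im| = |s.im| * ‖mellin w s‖ := mul_comm _ _
      _ ≤ _ := h6.trans h2

/-- The Mellin transform of a weight is entire.

Proof. `mellin w s = ∫_{1/4}^{16} w x x ^ (s - 1) dx`; `mellin_differentiableAt_of_isBigO_rpow` (the weight is locally integrable and zero near `0` and `∞`). -/
theorem mellin_diff (J : ℕ) (A B : ℝ) (w : ℝ → ℂ) (hw : IsW J A B w) : Differentiable ℂ (mellin w) := by
  intro s
  exact mellin_differentiableAt_of_isBigO_rpow (a := s.re + 1) (b := s.re - 1)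
    (hw.1.continuous.locallyIntegrable.locallyIntegrableOn _)
    ((mel_top hw.2.1).trans_isBigO (Asymptotics.isBigO_zero _ _)) (by linarith)
    ((mel_bot hw.2.1).trans_isBigO (Asymptotics.isBigO_zero _ _)) (by linarith)

/-- **Decay of the Mellin transform.**

Proof. `J` integrations by parts: `mellin w s = (-1) ^ J / (s (s + 1) ... (s + J - 1)) ∫_0^∞ w^(J) x x ^ (s + J - 1) dx` (`mellin` of a derivative), valid for `s` not a nonpositive integer; here `|Im s| ≥ 1` so `‖s + j‖ ≥ |Im s|`. On the support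
`x ≤ 16`, `x ^ (σ + J - 1) ≤ 16 ^ (J + 3)` for `-1 ≤ σ ≤ 3` (and for exponents `< 0` use `x ≥ 1/4`), so the norm is at most `16 · 16 ^ (J + 3) A B ^ J / |Im s| ^ J` for `|Im s| ≥ 1`. For the first claim use the case `j = 0` of the hypothesis. -/
theorem mellin_decay (J : ℕ) : ∃ C : ℝ, 1 ≤ C ∧ ∀ (A B : ℝ) (w : ℝ → ℂ), 0 ≤ A → 1 ≤ B → IsW J A B w → ∀ s : ℂ, -1 ≤ s.re → s.re ≤ 3 →
    ‖mellin w s‖ ≤ C * A ∧ (1 ≤ |s.im| → ‖mellin w s‖ ≤ C * A * (B / |s.im|) ^ J) := by
  refine ⟨17 ^ ((J : ℝ) + 3), ?_, fun A B w hA hB hw s h1 h3 => ⟨?_, fun him => ?_⟩⟩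
  · exact Real.one_le_rpow (by norm_num) (by positivity)
  · have h4 := mel_bound hw.2.1 (M := A) (fun x => by
      have := hw.2.2 0 (Nat.zero_le _) x
      simpa using this) s 2 (by rw [abs_le]; constructor <;> linarith)
    refine h4.trans (mul_le_mul_of_nonneg_right ?_ hA)
    apply Real.rpow_le_rpow_of_exponent_le (by norm_num)
    have : (0 : ℝ) ≤ J := Nat.cast_nonneg J
    linarith
  · obtain ⟨h4, h5⟩ := mel_iter J w hw.1 hw.2.1 s him
    have h6 := mel_bound h4 (M := A * B ^ J) (hw.2.2 J le_rfl) (s + J) ((J : ℝ) + 2) (by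
      have h7 : (s + (J : ℂ)).re = s.re + J := by simp
      have h8 : (0 : ℝ) ≤ J := Nat.cast_nonneg J
      rw [h7, abs_le]
      constructor <;> linarith)
    have h7 : 0 < |s.im| ^ J := by positivity
    refine h5.trans ?_
    rw [div_pow, ← mul_div_assoc]
    refine div_le_div_of_nonneg_right ?_ h7.le
    have h8 : (J : ℝ) + 2 + 1 = J + 3 := by ring
    rw [h8] at h6
    calc _ ≤ _ := h6
      _ = _ := by ring

/-- Continuity and integrability on vertical lines.

Proof. Continuity from `mellin_diff`, and the bound of `mellin_decay` with `J = 2`. -/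
theorem mellin_vert (A B : ℝ) (w : ℝ → ℂ) (hw : IsW 2 A B w) (c : ℝ) (h1 : -1 ≤ c) (h3 : c ≤ 3) :
    Integrable (fun y : ℝ => mellin w (c + y * I)) := by
  obtain ⟨C, hC, hdec⟩ := mellin_decay 2
  set A' : ℝ := |A| * (1 + |B|) ^ 2 with hA'
  have hA0 : 0 ≤ A' := by positivity
  have hw2 : IsW 2 A' 1 w := by
    refine ⟨hw.1, hw.2.1, fun j hj x => (hw.2.2 j hj x).trans ?_⟩
    rw [one_pow, mul_one]
    calc A * B ^ j ≤ |A * B ^ j| := le_abs_self _
      _ = |A| * |B| ^ j := by rw [abs_mul, abs_pow]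
      _ ≤ |A| * (1 + |B|) ^ 2 := by
        apply mul_le_mul_of_nonneg_left _ (abs_nonneg _)
        calc |B| ^ j ≤ (1 + |B|) ^ j := by
              apply pow_le_pow_left₀ (abs_nonneg _)
              linarith
          _ ≤ (1 + |B|) ^ 2 := by
              apply pow_le_pow_right₀ _ hj
              have := abs_nonneg B
              linarith
  have hcont : Continuous (fun y : ℝ => mellin w (c + y * I)) :=
    (mellin_diff 2 A B w hw).continuous.comp (by fun_prop)
  have hdom : Integrable (fun y : ℝ => 2 * (C * A') * (1 + y ^ 2)⁻¹) :=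
    integrable_inv_one_add_sq.const_mul _
  refine hdom.mono' hcont.aestronglyMeasurable (Filter.Eventually.of_forall fun y => ?_)
  have hre : ((c : ℂ) + y * I).re = c := by simp
  have him : ((c : ℂ) + y * I).im = y := by simp
  obtain ⟨h4, h5⟩ := hdec A' 1 w hA0 le_rfl hw2 (c + y * I) (by rw [hre]; exact h1)
    (by rw [hre]; exact h3)
  rw [him] at h5
  have hCA : 0 ≤ C * A' := by positivity
  have hy : 0 < 1 + y ^ 2 := by positivity
  rcases le_or_gt 1 |y| with h | h
  · refine (h5 h).trans ?_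
    rw [mul_comm 2, mul_assoc (C * A') 2]
    apply mul_le_mul_of_nonneg_left _ hCA
    rw [div_pow, one_pow, sq_abs, ← div_eq_mul_inv, div_le_div_iff₀ (by
      have : 1 ≤ y ^ 2 := by rw [← sq_abs]; nlinarith
      linarith) hy]
    have : 1 ≤ y ^ 2 := by rw [← sq_abs]; nlinarith
    linarith
  · refine h4.trans ?_
    have h6 : 1 ≤ 2 * (1 + y ^ 2)⁻¹ := by
      rw [← div_eq_mul_inv, le_div_iff₀ hy]
      have : y ^ 2 ≤ 1 := by
        rw [← sq_abs]
        have := abs_nonneg y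
        nlinarith
      linarith
    calc C * A' = C * A' * 1 := (mul_one _).symm
      _ ≤ C * A' * (2 * (1 + y ^ 2)⁻¹) := mul_le_mul_of_nonneg_left h6 hCA
      _ = _ := by ring

/-- Mellin inversion.

Proof. `mellinInv_mellin_eq` at the point `1 / T`, `mellinInv` unfolded: `(1 / (2 π)) ∫ (1/T) ^ (-(c + i y)) mellin w (c + i y) dy`. -/
theorem mellin_inv (A B : ℝ) (w : ℝ → ℂ) (hw : IsW 2 A B w) (c : ℝ) (h1 : -1 ≤ c) (h3 : c ≤ 3) (T : ℝ) (hT : 0 < T) :
    (1 / (2 * Real.pi) : ℂ) * ∫ y : ℝ, (T : ℂ) ^ ((c : ℂ) + y * I) * mellin w (c + y * I) = w (1 / T) := by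
  have h4 := mellinInv_mellin_eq c w (x := 1 / T) (by positivity)
    (mel_conv hw.1.continuous hw.2.1 c) (mellin_vert A B w hw c h1 h3)
    hw.1.continuous.continuousAt
  rw [← h4, mellinInv, Complex.real_smul]
  have h5 : ∀ y : ℝ, (((1 / T : ℝ) : ℂ)) ^ (-((c : ℂ) + y * I)) = (T : ℂ) ^ ((c : ℂ) + y * I) := by
    intro y
    rw [one_div, Complex.ofReal_inv, Complex.cpow_neg, Complex.inv_cpow, inv_inv]
    rw [Complex.arg_ofReal_of_nonneg hT.le]
    exact Real.pi_pos.ne
  congr 1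
  · norm_num
  · refine integral_congr_ae (Filter.Eventually.of_forall fun y => ?_)
    simp only [smul_eq_mul]
    rw [h5]

theorem mel_split (T x : ℝ) (hT : 0 < T) (hx : 0 < x) (a z : ℂ) :
    (T : ℂ) ^ z * (x : ℂ) ^ (a - z - 1) = (x : ℂ) ^ (a - 1) * ((T / x : ℝ) : ℂ) ^ z := by
  have h1 : (T : ℂ) ^ z = ((T / x : ℝ) : ℂ) ^ z * (x : ℂ) ^ z := by
    rw [← Complex.mul_cpow_ofReal_nonneg (by positivity) hx.le, ← Complex.ofReal_mul,
      div_mul_cancel₀ _ hx.ne']
  have h2 : (x : ℂ) ^ (a - 1) = (x : ℂ) ^ z * (x : ℂ) ^ (a - z - 1) := by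
    rw [← Complex.cpow_add _ _ (by exact_mod_cast hx.ne')]
    congr 1
    ring
  rw [h1, h2]
  ring

/-- **Mellin inversion with a pole.**

Proof. For `Re z > Re a`: `1 / (z - a) = ∫_1^∞ x ^ (a - z - 1) dx`. Insert this with `z = c + i y` and exchange the integrals (absolutely convergent: `‖x ^ (a - z - 1)‖ = x ^ (Re a - c - 1)`, and `mellin w (c + i y)` is integrable in `y`):
the left side is `∫_1^∞ x ^ (a - 1) (1 / (2 π)) ∫ (T / x) ^ (c + i y) mellin w (c + i y) dy dx = ∫_1^∞ x ^ (a - 1) w (x / T) dx` by `mellin_inv`. -/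
theorem mellin_pole (A B : ℝ) (w : ℝ → ℂ) (hw : IsW 2 A B w) (c : ℝ) (h1 : -1 ≤ c) (h3 : c ≤ 3) (T : ℝ) (hT : 0 < T) (a : ℂ) (ha : a.re < c) :
    (1 / (2 * Real.pi) : ℂ) * ∫ y : ℝ, (T : ℂ) ^ ((c : ℂ) + y * I) * mellin w (c + y * I) / (c + y * I - a) =
      ∫ x in Set.Ioi (1 : ℝ), (x : ℂ) ^ (a - 1) * w (x / T) := by
  have hre : ∀ y : ℝ, ((c : ℂ) + y * I).re = c := fun y => by simp
  set g : ℝ → ℂ := fun y => (T : ℂ) ^ ((c : ℂ) + y * I) * mellin w (c + y * I) with hg
  have hT0 : (T : ℂ) ≠ 0 := by exact_mod_cast hT.ne'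
  have hgc : Continuous g := by
    apply Continuous.mul
    · exact Continuous.const_cpow (by fun_prop) (Or.inl hT0)
    · exact (mellin_diff 2 A B w hw).continuous.comp (by fun_prop)
  have hgi : Integrable g := by
    refine ((mellin_vert A B w hw c h1 h3).norm.const_mul (T ^ c)).mono' hgc.aestronglyMeasurable
      (Filter.Eventually.of_forall fun y => ?_)
    rw [hg]
    simp only [norm_mul]
    rw [Complex.norm_cpow_eq_rpow_re_of_pos hT, hre]
  have hxi : IntegrableOn (fun x : ℝ => x ^ (a.re - c - 1)) (Set.Ioi 1) :=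
    integrableOn_Ioi_rpow_of_lt (by linarith) one_pos
  have hF : Integrable (Function.uncurry fun (y : ℝ) (x : ℝ) =>
      g y * (x : ℂ) ^ (a - ((c : ℂ) + y * I) - 1))
      ((volume : Measure ℝ).prod (volume.restrict (Set.Ioi (1 : ℝ)))) := by
    have h4 := hgi.norm.mul_prod hxi
    refine h4.mono' ?_ ?_
    · apply Measurable.aestronglyMeasurable
      apply Measurable.mul
      · exact hgc.measurable.comp measurable_fst
      · apply Measurable.pow
        · exact Complex.measurable_ofReal.comp measurable_snd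
        · fun_prop
    · have h5 : ∀ᵐ z : ℝ × ℝ ∂((volume : Measure ℝ).prod (volume.restrict (Set.Ioi (1 : ℝ)))),
          z.2 ∈ Set.Ioi (1 : ℝ) := by
        have h6 : ∀ᵐ x : ℝ ∂(volume.restrict (Set.Ioi (1 : ℝ))), x ∈ Set.Ioi (1 : ℝ) :=
          ae_restrict_mem measurableSet_Ioi
        exact Measure.quasiMeasurePreserving_snd.ae h6
      filter_upwards [h5] with z hz
      have hz0 : 0 < z.2 := by
        have : (1 : ℝ) < z.2 := hz
        linarith
      simp only [Function.uncurry, norm_mul]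
      rw [Complex.norm_cpow_eq_rpow_re_of_pos hz0]
      have h6 : (a - ((c : ℂ) + z.1 * I) - 1).re = a.re - c - 1 := by simp
      rw [h6]
  have hsw := integral_integral_swap hF
  have hL : ∀ y : ℝ, ∫ x in Set.Ioi (1 : ℝ), g y * (x : ℂ) ^ (a - ((c : ℂ) + y * I) - 1) =
      g y / (c + y * I - a) := by
    intro y
    rw [integral_const_mul, integral_Ioi_cpow_of_lt (by simp; linarith) one_pos]
    rw [Complex.ofReal_one, Complex.one_cpow, sub_add_cancel]
    have h5 : (c : ℂ) + y * I - a ≠ 0 := by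
      intro h
      have h6 := congrArg Complex.re h
      simp at h6
      linarith
    have h6 : a - ((c : ℂ) + y * I) ≠ 0 := by
      intro h
      apply h5
      linear_combination -h
    field_simp
    ring
  have hR : ∀ x ∈ Set.Ioi (1 : ℝ), ∫ y : ℝ, g y * (x : ℂ) ^ (a - ((c : ℂ) + y * I) - 1) =
      (x : ℂ) ^ (a - 1) * ∫ y : ℝ, ((T / x : ℝ) : ℂ) ^ ((c : ℂ) + y * I) *
        mellin w (c + y * I) := by
    intro x hx
    have hx0 : 0 < x := by
      have : (1 : ℝ) < x := hx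
      linarith
    rw [← integral_const_mul]
    congr 1
    funext y
    have h5 := mel_split T x hT hx0 a ((c : ℂ) + y * I)
    rw [hg]
    linear_combination (mellin w (c + y * I)) * h5
  simp only [hL] at hsw
  have h4 : ∫ y : ℝ, (T : ℂ) ^ ((c : ℂ) + y * I) * mellin w (c + y * I) / (c + y * I - a) =
      ∫ y : ℝ, g y / (c + y * I - a) := rfl
  rw [h4, hsw, ← integral_const_mul]
  refine setIntegral_congr_fun measurableSet_Ioi fun x hx => ?_
  have hx0 : 0 < x := by
    have : (1 : ℝ) < x := hx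
    linarith
  rw [hR x hx]
  have h5 := mellin_inv A B w hw c h1 h3 (T / x) (by positivity)
  rw [one_div_div] at h5
  rw [← h5]
  ring

/-- The value of the last integral for `T ≥ 4`.

Proof. `w (x / T) = 0` for `x < T / 4`, so the integral is over `(0, ∞)`; substitute `x = T u`. -/
theorem mellin_pole_val (A B : ℝ) (w : ℝ → ℂ) (hw : IsW 2 A B w) (T : ℝ) (hT : 4 ≤ T) (a : ℂ) :
    ∫ x in Set.Ioi (1 : ℝ), (x : ℂ) ^ (a - 1) * w (x / T) = (T : ℂ) ^ a * mellin w a := by
  have h14 : w (1 / 4) = 0 := by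
    have hcl : IsClosed {x : ℝ | w x = 0} := isClosed_eq hw.1.continuous continuous_const
    have hsub : Set.Iio (1 / 4 : ℝ) ⊆ {x : ℝ | w x = 0} := fun x hx =>
      hw.2.1 x fun h => absurd h.1 (not_le.2 hx)
    have h1 : (1 / 4 : ℝ) ∈ closure (Set.Iio (1 / 4 : ℝ)) := by
      rw [closure_Iio]
      exact Set.mem_Iic.2 le_rfl
    exact (closure_minimal hsub hcl) h1
  have hT0 : 0 < T := by linarith
  have h1 : ∫ x in Set.Ioi (1 : ℝ), (x : ℂ) ^ (a - 1) * w (x / T) =
      ∫ x in Set.Ioi (0 : ℝ), (x : ℂ) ^ (a - 1) * w (x / T) := by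
    symm
    refine setIntegral_eq_of_subset_of_forall_sdiff_eq_zero measurableSet_Ioi ?_ ?_
    · intro x hx
      have : (1 : ℝ) < x := hx
      rw [Set.mem_Ioi]
      linarith
    · intro x hx
      have h2 : x ≤ 1 := not_lt.1 hx.2
      have h3 : x / T ≤ 1 / 4 := by
        rw [div_le_iff₀ hT0]
        linarith
      have h4 : w (x / T) = 0 := by
        rcases h3.lt_or_eq with h5 | h5
        · exact hw.2.1 _ fun h => absurd h.1 (not_le.2 h5)
        · rw [h5, h14]
      rw [h4, mul_zero]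
  rw [h1]
  have h2 := mellin_comp_mul_right w a (a := T⁻¹) (by positivity)
  rw [mellin] at h2
  simp only [smul_eq_mul] at h2
  have h3 : ∀ x : ℝ, x / T = x * T⁻¹ := fun x => div_eq_mul_inv _ _
  simp only [h3]
  rw [h2, Complex.ofReal_inv, Complex.cpow_neg, Complex.inv_cpow, inv_inv]
  rw [Complex.arg_ofReal_of_nonneg hT0.le]
  exact Real.pi_pos.ne

/-- **Shift of the contour** in a rectangle.

Proof. `Complex.integral_boundary_rect_eq_zero_of_differentiableOn`. -/
theorem shift_rect (f : ℂ → ℂ) (a b T T' : ℝ) (hab : a ≤ b) (hT : T ≤ T')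
    (hf : DifferentiableOn ℂ f {z : ℂ | a ≤ z.re ∧ z.re ≤ b ∧ T ≤ z.im ∧ z.im ≤ T'}) :
    ‖∫ y in T..T', f (b + y * I)‖ ≤ (∫ y in T..T', ‖f (a + y * I)‖) + (∫ x in a..b, ‖f (x + T' * I)‖) +
      ∫ x in a..b, ‖f (x + T * I)‖ := by
  have h1 := Complex.integral_boundary_rect_eq_zero_of_differentiableOn f (a + T * I) (b + T' * I)
    (hf.mono (by
      intro z hz
      rw [Complex.mem_reProdIm] at hz
      simp only [Complex.add_re, Complex.ofReal_re, Complex.mul_re, Complex.I_re, mul_zero,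
        Complex.ofReal_im, Complex.I_im, mul_one, sub_self, add_zero, Complex.add_im,
        Complex.mul_im, zero_add] at hz
      rw [Set.uIcc_of_le hab, Set.uIcc_of_le hT] at hz
      exact ⟨hz.1.1, hz.1.2, hz.2.1, hz.2.2⟩))
  simp only [Complex.add_re, Complex.ofReal_re, Complex.mul_re, Complex.I_re, mul_zero,
    Complex.ofReal_im, Complex.I_im, mul_one, sub_self, add_zero, Complex.add_im,
    Complex.mul_im, zero_add, smul_eq_mul] at h1
  have h2 : I * (∫ y in T..T', f (b + y * I)) = I * (∫ y in T..T', f (a + y * I)) +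
      (∫ x in a..b, f (x + T' * I)) - ∫ x in a..b, f (x + T * I) := by
    linear_combination h1
  have h3 : ‖∫ y in T..T', f (b + y * I)‖ = ‖I * (∫ y in T..T', f (b + y * I))‖ := by
    rw [norm_mul, Complex.norm_I, one_mul]
  rw [h3, h2]
  refine (norm_sub_le _ _).trans (add_le_add ((norm_add_le _ _).trans (add_le_add ?_ ?_)) ?_)
  · rw [norm_mul, Complex.norm_I, one_mul]
    exact intervalIntegral.norm_integral_le_integral_norm hT
  · exact intervalIntegral.norm_integral_le_integral_norm hab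
  · exact intervalIntegral.norm_integral_le_integral_norm hab

end Pool.Agent.PSG
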