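import Pool.Agent.W_b58c63_h44.LD
import Pool.Agent.W_b58c63_h44.EIdef
import Pool.Agent.W_b58c63_h44.Mel
import Pool.Agent.W_b58c63_h44.FZ

/-!
# Smooth sums of the von Mangoldt function with characters: the integral and the residues
-/

set_option autoImplicit false

noncomputable section

open Finset Complex MeasureTheory

namespace Pool.Agent.PSG

/-- The kernel `Z ^ (b + i y) mellin w (b + i y)`. -/
def EI_G (w : ℝ → ℂ) (Z b y : ℝ) : ℂ := (Z : ℂ) ^ ((b : ℂ) + y * I) * mellin w (b + y * I)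

theorem EI_G_cont (A B : ℝ) (w : ℝ → ℂ) (hw : IsW 2 A B w) (Z b : ℝ) (hZ : 0 < Z) :
    Continuous (EI_G w Z b) := by
  have hZ0 : (Z : ℂ) ≠ 0 := by exact_mod_cast hZ.ne'
  apply Continuous.mul
  · exact Continuous.const_cpow (by fun_prop) (Or.inl hZ0)
  · exact (mellin_diff 2 A B w hw).continuous.comp (by fun_prop)

theorem EI_G_int (A B : ℝ) (w : ℝ → ℂ) (hw : IsW 2 A B w) (Z b : ℝ) (hZ : 0 < Z) (h1 : -1 ≤ b)
    (h3 : b ≤ 3) : Integrable (EI_G w Z b) := by
  refine ((mellin_vert A B w hw b h1 h3).norm.const_mul (Z ^ b)).mono'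
    (EI_G_cont A B w hw Z b hZ).aestronglyMeasurable (Filter.Eventually.of_forall fun y => ?_)
  unfold EI_G
  rw [norm_mul, Complex.norm_cpow_eq_rpow_re_of_pos hZ]
  simp

/-- A kernel times a bounded continuous function is integrable. -/
theorem EI_mul_int (A B : ℝ) (w : ℝ → ℂ) (hw : IsW 2 A B w) (Z b : ℝ) (hZ : 0 < Z) (h1 : -1 ≤ b)
    (h3 : b ≤ 3) (f : ℝ → ℂ) (hf : Continuous f) (C : ℝ) (hC : ∀ y, ‖f y‖ ≤ C) :
    Integrable fun y => EI_G w Z b y * f y := by
  refine ((EI_G_int A B w hw Z b hZ h1 h3).norm.mul_const C).mono'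
    ((EI_G_cont A B w hw Z b hZ).mul hf).aestronglyMeasurable
    (Filter.Eventually.of_forall fun y => ?_)
  rw [norm_mul]
  exact mul_le_mul_of_nonneg_left (hC y) (norm_nonneg _)

theorem EI_re (b y t : ℝ) : ((b : ℂ) + y * I + t * I).re = b := by simp

/-- The term of the exchanged series. -/
theorem EI_term (A B : ℝ) (w : ℝ → ℂ) (hw : IsW 2 A B w) (Z t b : ℝ) (hZ : 0 < Z) (hb : -1 ≤ b)
    (hb3 : b ≤ 3) (n : ℕ) (hn : 0 < n) (c : ℂ) :
    (1 / (2 * Real.pi) : ℂ) * ∫ y : ℝ, EI_G w Z b y * (c * (n : ℂ) ^ (-((b : ℂ) + y * I + t * I))) =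
      c * (n : ℂ) ^ (-(t * I)) * w (n / Z) := by
  have hn0 : (n : ℂ) ≠ 0 := by exact_mod_cast hn.ne'
  have hnr : (0 : ℝ) < n := by exact_mod_cast hn
  have h1 := mellin_inv A B w hw b hb hb3 (Z / n) (by positivity)
  rw [one_div_div] at h1
  have key : ∫ y : ℝ, EI_G w Z b y * (c * (n : ℂ) ^ (-((b : ℂ) + y * I + t * I))) =
      c * (n : ℂ) ^ (-(t * I)) *
        ∫ y : ℝ, ((Z / n : ℝ) : ℂ) ^ ((b : ℂ) + y * I) * mellin w (b + y * I) := by
    rw [← integral_const_mul]
    refine integral_congr_ae (Filter.Eventually.of_forall fun y => ?_)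
    show EI_G w Z b y * (c * (n : ℂ) ^ (-((b : ℂ) + y * I + t * I))) =
      c * (n : ℂ) ^ (-(t * I)) * (((Z / n : ℝ) : ℂ) ^ ((b : ℂ) + y * I) * mellin w (b + y * I))
    have h2 : (Z : ℂ) ^ ((b : ℂ) + y * I) =
        ((Z / n : ℝ) : ℂ) ^ ((b : ℂ) + y * I) * (n : ℂ) ^ ((b : ℂ) + y * I) := by
      rw [← Complex.ofReal_natCast, ← Complex.mul_cpow_ofReal_nonneg (by positivity) hnr.le,
        ← Complex.ofReal_mul, div_mul_cancel₀ _ hnr.ne']
    have h3 : (n : ℂ) ^ (-((b : ℂ) + y * I + t * I)) =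
        (n : ℂ) ^ (-(t * I)) * ((n : ℂ) ^ ((b : ℂ) + y * I))⁻¹ := by
      rw [← Complex.cpow_neg, ← Complex.cpow_add _ _ hn0]
      congr 1
      ring
    have h4 : (n : ℂ) ^ ((b : ℂ) + y * I) ≠ 0 := by
      rw [Complex.cpow_def_of_ne_zero hn0]
      exact Complex.exp_ne_zero _
    unfold EI_G
    rw [h2, h3]
    field_simp
  rw [← h1, key]
  ring

/-- The integral formula.

Proof. `w (n / Z) = (1 / (2 π)) ∫ (Z / n) ^ (b + i y) mellin w (b + i y) dy` (`mellin_inv` with `T = Z / n`; for `n > 16 Z` it is zero), so the left side is the sum over all `n ≥ 1`, `∑ Λ(n) χ(n) n ^ (-i t) (1 / (2 π)) ∫ Z ^ (b + i y) n ^ (-(b + i y)) mellin w (b + i y) dy`. Exchange the sum and the integral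
(`∑ Λ(n) n ^ (-b) < ∞` by `vm_sum` and `mellin_vert`; `MeasureTheory.hasSum_integral_of_summable_integral_norm`) and use `ld_series` at the point `b + i y + i t`. -/
theorem ex_int {q : ℕ} [NeZero q] (χ : DirichletCharacter ℂ q) (A B : ℝ) (w : ℝ → ℂ) (hw : IsW 2 A B w) (Z t b : ℝ)
    (hZ : 0 < Z) (hb : 1 < b) (hb3 : b ≤ 3) :
    DS χ w Z t = (1 / (2 * Real.pi) : ℂ) * ∫ y : ℝ, (Z : ℂ) ^ ((b : ℂ) + y * I) * mellin w (b + y * I) *
      (-(deriv (DirichletCharacter.LFunction χ) (b + y * I + t * I) /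
        DirichletCharacter.LFunction χ (b + y * I + t * I))) := by
  obtain ⟨Cv, _, hv⟩ := vm_sum
  have hsum := (hv b hb hb3).1
  have hb1 : -1 ≤ b := by linarith
  set c : ℕ → ℂ := fun n => (ArithmeticFunction.vonMangoldt n : ℂ) * χ (n : ZMod q) with hc
  have hc0 : c 0 = 0 := by
    rw [hc]
    simp
  have hcn : ∀ n, ‖c n‖ ≤ ArithmeticFunction.vonMangoldt n := by
    intro n
    rw [hc]
    simp only
    rw [norm_mul, Complex.norm_real, Real.norm_of_nonneg ArithmeticFunction.vonMangoldt_nonneg]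
    exact mul_le_of_le_one_right ArithmeticFunction.vonMangoldt_nonneg
      (DirichletCharacter.norm_le_one χ _)
  set F : ℕ → ℝ → ℂ := fun n y => EI_G w Z b y * (c n * (n : ℂ) ^ (-((b : ℂ) + y * I + t * I))) with hF
  have hbound : ∀ (n : ℕ) (y : ℝ), ‖c n * (n : ℂ) ^ (-((b : ℂ) + y * I + t * I))‖ ≤
      ArithmeticFunction.vonMangoldt n * (n : ℝ) ^ (-b) := by
    intro n y
    rcases Nat.eq_zero_or_pos n with hn | hn
    · subst hn
      rw [hc0, zero_mul, norm_zero]
      simp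
    · rw [norm_mul, Complex.norm_natCast_cpow_of_pos hn, Complex.neg_re, EI_re]
      exact mul_le_mul_of_nonneg_right (hcn n) (Real.rpow_nonneg (Nat.cast_nonneg n) _)
  have hFi : ∀ n, Integrable (F n) := by
    intro n
    rcases Nat.eq_zero_or_pos n with hn | hn
    · subst hn
      have : F 0 = fun _ => 0 := by
        funext y
        rw [hF]
        simp only
        rw [hc0, zero_mul, mul_zero]
      rw [this]
      exact integrable_zero _ _ _
    · have hn0 : (n : ℂ) ≠ 0 := by exact_mod_cast hn.ne'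
      refine EI_mul_int A B w hw Z b hZ hb1 hb3 _ ?_ _ (hbound n)
      exact continuous_const.mul (Continuous.const_cpow (by fun_prop) (Or.inl hn0))
  have hFn : ∀ (n : ℕ) (y : ℝ), ‖F n y‖ ≤ ArithmeticFunction.vonMangoldt n * (n : ℝ) ^ (-b) * ‖EI_G w Z b y‖ := by
    intro n y
    rw [hF]
    simp only
    rw [norm_mul, mul_comm]
    exact mul_le_mul_of_nonneg_right (hbound n y) (norm_nonneg _)
  have hGi := EI_G_int A B w hw Z b hZ hb1 hb3
  have hFs : Summable fun n => ∫ y, ‖F n y‖ := by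
    refine Summable.of_nonneg_of_le (fun n => integral_nonneg fun y => norm_nonneg _)
      (fun n => ?_) (hsum.mul_right (∫ y, ‖EI_G w Z b y‖))
    rw [← integral_const_mul]
    exact integral_mono (hFi n).norm (hGi.norm.const_mul _) (hFn n)
  have h1 := hasSum_integral_of_summable_integral_norm hFi hFs
  have h2 : (∫ y, ∑' n, F n y) = ∫ y : ℝ, (Z : ℂ) ^ ((b : ℂ) + y * I) * mellin w (b + y * I) *
      (-(deriv (DirichletCharacter.LFunction χ) (b + y * I + t * I) /
        DirichletCharacter.LFunction χ (b + y * I + t * I))) := by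
    refine integral_congr_ae (Filter.Eventually.of_forall fun y => ?_)
    have h3 := (ld_series χ (b + y * I + t * I) (by rw [EI_re]; exact hb)).mul_left (EI_G w Z b y)
    exact h3.tsum_eq
  rw [h2] at h1
  have h4 := h1.mul_left (1 / (2 * Real.pi) : ℂ)
  have h5 : ∀ n, (1 / (2 * Real.pi) : ℂ) * ∫ y, F n y =
      c n * (n : ℂ) ^ (-(t * I)) * w (n / Z) := by
    intro n
    rcases Nat.eq_zero_or_pos n with hn | hn
    · subst hn
      have : F 0 = fun _ => 0 := by
        funext y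
        rw [hF]
        simp only
        rw [hc0, zero_mul, mul_zero]
      rw [this, hc0]
      simp
    · exact EI_term A B w hw Z t b hZ hb1 hb3 n hn (c n)
  simp only [h5] at h4
  have h6 : HasSum (fun n : ℕ => c n * (n : ℂ) ^ (-(t * I)) * w (n / Z)) (DS χ w Z t) := by
    unfold DS
    refine hasSum_sum_of_ne_finset_zero fun n hn => ?_
    rcases Nat.eq_zero_or_pos n with hn' | hn'
    · subst hn'
      rw [hc0]
      simp
    · have h7 : ⌊16 * Z⌋₊ < n := by
        by_contra h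
        exact hn (Finset.mem_Icc.2 ⟨hn', not_lt.1 h⟩)
      have h8 : 16 * Z < n := (Nat.floor_lt (by positivity)).1 h7
      have h9 : w (n / Z) = 0 := hw.2.1 _ fun h => by
        have h10 := h.2
        rw [div_le_iff₀ hZ] at h10
        linarith
      rw [h9, mul_zero]
  exact h6.unique h4

/-- The residues.

Proof. By `EF_ld` and `factor_ld` (`EF χ ≠ 0` for `Re s > 1`): `-L'/L(s) = -g'/g(s) - ∑_{ρ ∈ S} mz / (s - ρ) + dl χ / (s - 1)` at `s = b + i y + i t`. Insert this into `ex_int`; all the parts are integrable (`mellin_vert`; `-L'/L` is bounded on the line by `ld_triv`, `1 / (s - ρ)` is bounded by `1 / (b - Re ρ)`, `Re ρ < 1` by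
`EF_ne_zero`, and hence also `-g'/g`). The terms with the poles are evaluated by `mellin_pole` and `mellin_pole_val` with `T = Z`, `a = ρ - i t` and `a = 1 - i t` (`s - ρ = b + i y - a`). -/
theorem ex_ident {q : ℕ} [NeZero q] (χ : DirichletCharacter ℂ q) (A B : ℝ) (w : ℝ → ℂ) (hw : IsW 2 A B w) (Z t b : ℝ)
    (hZ : 4 ≤ Z) (hb : 1 < b) (hb3 : b ≤ 3) (S : Finset ℂ) (hS : ∀ ρ ∈ S, EF χ ρ = 0) (g : ℂ → ℂ) (hg : Differentiable ℂ g)
    (hF : ∀ s, EF χ s = (∏ ρ ∈ S, (s - ρ) ^ mz (EF χ) ρ) * g s) :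
    DS χ w Z t = (dl χ : ℂ) * ((Z : ℂ) ^ (1 - t * I) * mellin w (1 - t * I)) -
      ∑ ρ ∈ S, (mz (EF χ) ρ : ℂ) * ((Z : ℂ) ^ (ρ - t * I) * mellin w (ρ - t * I)) +
      (1 / (2 * Real.pi) : ℂ) * ∫ y : ℝ, (Z : ℂ) ^ ((b : ℂ) + y * I) * mellin w (b + y * I) *
        (-(deriv g (b + y * I + t * I) / g (b + y * I + t * I))) := by
  have hZ0 : 0 < Z := by linarith
  have hb1 : -1 ≤ b := by linarith
  have hne : ∀ y : ℝ, EF χ (b + y * I + t * I) ≠ 0 := fun y =>
    EF_ne_zero χ _ (by rw [EI_re]; exact hb.le)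
  have hlin : Continuous fun y : ℝ => (b : ℂ) + y * I + t * I := by fun_prop
  have hEFd : Continuous (deriv (EF χ)) :=
    ((EF_diff χ).contDiff (n := 1)).continuous_deriv le_rfl
  -- the poles
  have hpole : ∀ ρ : ℂ, ρ.re < b → Integrable (fun y : ℝ => EI_G w Z b y * (1 / (b + y * I + t * I - ρ))) ∧
      (1 / (2 * Real.pi) : ℂ) * ∫ y : ℝ, EI_G w Z b y * (1 / (b + y * I + t * I - ρ)) =
        (Z : ℂ) ^ (ρ - t * I) * mellin w (ρ - t * I) := by
    intro ρ hρ
    have hd : ∀ y : ℝ, b - ρ.re ≤ ‖(b : ℂ) + y * I + t * I - ρ‖ := by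
      intro y
      have h1 := (le_abs_self _).trans (Complex.abs_re_le_norm ((b : ℂ) + y * I + t * I - ρ))
      rw [Complex.sub_re, EI_re] at h1
      exact h1
    have hd0 : ∀ y : ℝ, (b : ℂ) + y * I + t * I - ρ ≠ 0 := by
      intro y h
      have := hd y
      rw [h, norm_zero] at this
      linarith
    constructor
    · refine EI_mul_int A B w hw Z b hZ0 hb1 hb3 _ ?_ (1 / (b - ρ.re)) ?_
      · exact continuous_const.div (hlin.sub continuous_const) hd0
      · intro y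
        rw [norm_div, norm_one]
        exact one_div_le_one_div_of_le (by linarith) (hd y)
    · have ha : (ρ - t * I).re < b := by simpa using hρ
      rw [← mellin_pole_val A B w hw Z hZ (ρ - t * I),
        ← mellin_pole A B w hw b hb1 hb3 Z hZ0 (ρ - t * I) ha]
      congr 1
      refine integral_congr_ae (Filter.Eventually.of_forall fun y => ?_)
      show EI_G w Z b y * (1 / (b + y * I + t * I - ρ)) =
        (Z : ℂ) ^ ((b : ℂ) + y * I) * mellin w (b + y * I) / (b + y * I - (ρ - t * I))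
      have e : (b : ℂ) + y * I - (ρ - t * I) = b + y * I + t * I - ρ := by ring
      rw [e, mul_one_div]
      rfl
  have hρb : ∀ ρ ∈ S, ρ.re < b := by
    intro ρ hρ
    by_contra h
    push Not at h
    exact EF_ne_zero χ ρ (by linarith) (hS ρ hρ)
  have h1b : (1 : ℂ).re < b := by simpa using hb
  -- the logarithmic derivative of EF on the line
  obtain ⟨Ct, _, hCt⟩ := ld_triv
  have hEFi : Integrable fun y : ℝ => EI_G w Z b y *
      (deriv (EF χ) (b + y * I + t * I) / EF χ (b + y * I + t * I)) := by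
    refine EI_mul_int A B w hw Z b hZ0 hb1 hb3 _ ?_ (1 / (b - 1) + Ct + 1 * (1 / (b - 1))) ?_
    · exact (hEFd.comp hlin).div ((EF_diff χ).continuous.comp hlin) hne
    · intro y
      rw [EF_ld χ _ (by rw [EI_re]; exact hb)]
      have h1 := hCt q χ (b + y * I + t * I) (by rw [EI_re]; exact hb) (by rw [EI_re]; exact hb3)
      rw [EI_re] at h1
      refine (norm_add_le _ _).trans (add_le_add h1 ?_)
      have h2 : b - 1 ≤ ‖(b : ℂ) + y * I + t * I - 1‖ := by
        have h3 := (le_abs_self _).trans (Complex.abs_re_le_norm ((b : ℂ) + y * I + t * I - 1))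
        rw [Complex.sub_re, EI_re, Complex.one_re] at h3
        exact h3
      have h3 : ‖(dl χ : ℂ)‖ ≤ 1 := by
        unfold dl
        split_ifs <;> simp
      rw [norm_div, div_eq_mul_one_div]
      exact mul_le_mul h3 (one_div_le_one_div_of_le (by linarith) h2) (by positivity) zero_le_one
  have hgl : ∀ y : ℝ, deriv g (b + y * I + t * I) / g (b + y * I + t * I) =
      deriv (EF χ) (b + y * I + t * I) / EF χ (b + y * I + t * I) -
        ∑ ρ ∈ S, (mz (EF χ) ρ : ℂ) * (1 / (b + y * I + t * I - ρ)) := by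
    intro y
    have h1 := factor_ld (EF χ) g hg S hF (b + y * I + t * I) (hne y)
    have h2 : ∑ ρ ∈ S, (mz (EF χ) ρ : ℂ) * (1 / (b + y * I + t * I - ρ)) =
        ∑ ρ ∈ S, (mz (EF χ) ρ : ℂ) / (b + y * I + t * I - ρ) :=
      Finset.sum_congr rfl fun ρ _ => by rw [mul_one_div]
    rw [h2, h1]
    ring
  have hSi : Integrable fun y : ℝ => ∑ ρ ∈ S, (mz (EF χ) ρ : ℂ) *
      (EI_G w Z b y * (1 / (b + y * I + t * I - ρ))) :=
    integrable_finsetSum _ fun ρ hρ => (hpole ρ (hρb ρ hρ)).1.const_mul _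
  have hgi : Integrable fun y : ℝ => EI_G w Z b y *
      (-(deriv g (b + y * I + t * I) / g (b + y * I + t * I))) := by
    have e : (fun y : ℝ => EI_G w Z b y *
        (-(deriv g (b + y * I + t * I) / g (b + y * I + t * I)))) =
        fun y : ℝ => ∑ ρ ∈ S, (mz (EF χ) ρ : ℂ) *
          (EI_G w Z b y * (1 / (b + y * I + t * I - ρ))) - EI_G w Z b y *
          (deriv (EF χ) (b + y * I + t * I) / EF χ (b + y * I + t * I)) := by
      funext y
      rw [hgl y]
      have h2 : ∑ ρ ∈ S, (mz (EF χ) ρ : ℂ) * (EI_G w Z b y * (1 / (b + y * I + t * I - ρ))) =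
          EI_G w Z b y * ∑ ρ ∈ S, (mz (EF χ) ρ : ℂ) * (1 / (b + y * I + t * I - ρ)) := by
        rw [Finset.mul_sum]
        exact Finset.sum_congr rfl fun ρ _ => by ring
      rw [h2]
      ring
    rw [e]
    exact hSi.sub hEFi
  have hmain : (∫ y : ℝ, (Z : ℂ) ^ ((b : ℂ) + y * I) * mellin w (b + y * I) *
      (-(deriv (DirichletCharacter.LFunction χ) (b + y * I + t * I) /
        DirichletCharacter.LFunction χ (b + y * I + t * I)))) =
      (dl χ : ℂ) * (∫ y : ℝ, EI_G w Z b y * (1 / (b + y * I + t * I - 1))) -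
        ∑ ρ ∈ S, (mz (EF χ) ρ : ℂ) * (∫ y : ℝ, EI_G w Z b y * (1 / (b + y * I + t * I - ρ))) +
        ∫ y : ℝ, EI_G w Z b y * (-(deriv g (b + y * I + t * I) / g (b + y * I + t * I))) := by
    have i1 : Integrable fun y : ℝ => (dl χ : ℂ) * (EI_G w Z b y * (1 / (b + y * I + t * I - 1))) :=
      (hpole 1 h1b).1.const_mul _
    have e1 : ∀ ρ ∈ S, Integrable fun y : ℝ => (mz (EF χ) ρ : ℂ) *
        (EI_G w Z b y * (1 / (b + y * I + t * I - ρ))) := fun ρ hρ =>
      (hpole ρ (hρb ρ hρ)).1.const_mul _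
    have e2 : ∑ ρ ∈ S, (mz (EF χ) ρ : ℂ) * (∫ y : ℝ, EI_G w Z b y * (1 / (b + y * I + t * I - ρ))) =
        ∫ y : ℝ, ∑ ρ ∈ S, (mz (EF χ) ρ : ℂ) * (EI_G w Z b y * (1 / (b + y * I + t * I - ρ))) := by
      rw [integral_finsetSum _ e1]
      exact Finset.sum_congr rfl fun ρ _ => by rw [integral_const_mul]
    have i2 : Integrable fun y : ℝ => (dl χ : ℂ) * (EI_G w Z b y * (1 / (b + y * I + t * I - 1))) -
        ∑ ρ ∈ S, (mz (EF χ) ρ : ℂ) * (EI_G w Z b y * (1 / (b + y * I + t * I - ρ))) := i1.sub hSi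
    rw [e2, ← integral_const_mul, ← integral_sub i1 hSi, ← integral_add i2 hgi]
    refine integral_congr_ae (Filter.Eventually.of_forall fun y => ?_)
    show EI_G w Z b y * (-(deriv (DirichletCharacter.LFunction χ) (b + y * I + t * I) /
        DirichletCharacter.LFunction χ (b + y * I + t * I))) =
      (dl χ : ℂ) * (EI_G w Z b y * (1 / (b + y * I + t * I - 1))) -
        ∑ ρ ∈ S, (mz (EF χ) ρ : ℂ) * (EI_G w Z b y * (1 / (b + y * I + t * I - ρ))) +
        EI_G w Z b y * (-(deriv g (b + y * I + t * I) / g (b + y * I + t * I)))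
    have h1 := EF_ld χ (b + y * I + t * I) (by rw [EI_re]; exact hb)
    have h2 : ∑ ρ ∈ S, (mz (EF χ) ρ : ℂ) * (EI_G w Z b y * (1 / (b + y * I + t * I - ρ))) =
        EI_G w Z b y * ∑ ρ ∈ S, (mz (EF χ) ρ : ℂ) * (1 / (b + y * I + t * I - ρ)) := by
      rw [Finset.mul_sum]
      exact Finset.sum_congr rfl fun ρ _ => by ring
    rw [hgl y, h1, h2]
    ring
  rw [ex_int χ A B w hw Z t b hZ0 hb hb3, hmain, ← (hpole 1 h1b).2]
  have e3 : ∑ ρ ∈ S, (mz (EF χ) ρ : ℂ) * ((Z : ℂ) ^ (ρ - t * I) * mellin w (ρ - t * I)) =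
      (1 / (2 * Real.pi) : ℂ) *
        ∑ ρ ∈ S, (mz (EF χ) ρ : ℂ) * (∫ y : ℝ, EI_G w Z b y * (1 / (b + y * I + t * I - ρ))) := by
    rw [Finset.mul_sum]
    refine Finset.sum_congr rfl fun ρ hρ => ?_
    rw [← (hpole ρ (hρb ρ hρ)).2]
    ring
  rw [e3]
  have e4 : (∫ y : ℝ, (Z : ℂ) ^ ((b : ℂ) + y * I) * mellin w (b + y * I) *
        (-(deriv g (b + y * I + t * I) / g (b + y * I + t * I)))) =
      ∫ y : ℝ, EI_G w Z b y * (-(deriv g (b + y * I + t * I) / g (b + y * I + t * I))) := rfl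
  rw [e4]
  ring

end Pool.Agent.PSG
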