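import Pool.Agent.W_b58c63_h44.EB
import Pool.Agent.W_b58c63_h44.EI

/-!
# The smooth explicit formula with a power saving error term
-/

set_option autoImplicit false

noncomputable section

open Finset Complex MeasureTheory

namespace Pool.Agent.PSG

theorem EX_sq_int (B : ℝ) (hB : 0 < B) : Integrable (fun y : ℝ => (1 + (y / B) ^ 2)⁻¹) ∧
    ∫ y : ℝ, (1 + (y / B) ^ 2)⁻¹ = B * Real.pi := by
  constructor
  · exact integrable_inv_one_add_sq.comp_div hB.ne'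
  · have h := MeasureTheory.Measure.integral_comp_div (fun y : ℝ => (1 + y ^ 2)⁻¹) B
    rw [h, integral_univ_inv_one_add_sq, abs_of_pos hB, smul_eq_mul]

theorem EX_frac (B y : ℝ) (J : ℕ) (hB : 0 < B) (hJ : 2 ≤ J) (hy : B ≤ |y|) :
    (B / |y|) ^ J ≤ 2 * (1 + (y / B) ^ 2)⁻¹ := by
  have hy0 : 0 < |y| := lt_of_lt_of_le hB hy
  have h1 : B / |y| ≤ 1 := (div_le_one hy0).2 hy
  have h2 : (B / |y|) ^ J ≤ (B / |y|) ^ 2 := pow_le_pow_of_le_one (by positivity) h1 hJ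
  refine h2.trans ?_
  have hyB : B ^ 2 ≤ y ^ 2 := by
    rw [← sq_abs y]
    exact pow_le_pow_left₀ hB.le hy 2
  have hB2 : 0 < B ^ 2 := by positivity
  have hy2 : 0 < y ^ 2 := by linarith
  have e : 1 + (y / B) ^ 2 = (B ^ 2 + y ^ 2) / B ^ 2 := by
    field_simp
  rw [e, inv_div, div_pow, sq_abs, ← mul_div_assoc, div_le_div_iff₀ hy2 (by positivity)]
  nlinarith only [hyB]

theorem EX_mellin (J : ℕ) (hJ : 2 ≤ J) : ∃ C : ℝ, 1 ≤ C ∧ ∀ (A B : ℝ) (w : ℝ → ℂ), 1 ≤ B →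
    IsW J A B w → 0 ≤ A ∧ ∀ z : ℂ, -1 ≤ z.re → z.re ≤ 3 → ‖mellin w z‖ ≤ C * A ∧
      ‖mellin w z‖ ≤ C * A * (2 * (1 + (z.im / B) ^ 2)⁻¹) ∧
      ∀ H, B ≤ H → H ≤ |z.im| → ‖mellin w z‖ ≤ C * A * (B / H) ^ J ∧
        ‖mellin w z‖ ≤ C * A * (B / H) ^ J * (2 * (1 + (z.im / H) ^ 2)⁻¹) := by
  obtain ⟨C, hC, h⟩ := mellin_decay J
  refine ⟨C, hC, fun A B w hB hw => ?_⟩
  have hA : 0 ≤ A := by
    have h1 := hw.2.2 0 (Nat.zero_le _) 0
    rw [pow_zero, mul_one] at h1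
    exact (norm_nonneg _).trans h1
  have hB0 : 0 < B := by linarith
  refine ⟨hA, fun z h1 h3 => ?_⟩
  obtain ⟨h4, h5⟩ := h A B w hA hB hw z h1 h3
  have hCA : 0 ≤ C * A := by positivity
  refine ⟨h4, ?_, fun H hBH hHz => ?_⟩
  · rcases le_total B |z.im| with h6 | h6
    · refine (h5 (hB.trans h6)).trans (mul_le_mul_of_nonneg_left ?_ hCA)
      exact EX_frac B z.im J hB0 hJ h6
    · refine h4.trans ?_
      have h7 : (z.im / B) ^ 2 ≤ 1 := by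
        rw [div_pow, div_le_one (by positivity), ← sq_abs z.im]
        exact pow_le_pow_left₀ (abs_nonneg _) h6 2
      have h8 : 1 ≤ 2 * (1 + (z.im / B) ^ 2)⁻¹ := by
        rw [← div_eq_mul_inv, le_div_iff₀ (by positivity)]
        linarith
      calc C * A = C * A * 1 := (mul_one _).symm
        _ ≤ _ := mul_le_mul_of_nonneg_left h8 hCA
  · have hH0 : 0 < H := by linarith
    have hz0 : 0 < |z.im| := by linarith
    have h6 := h5 (hB.trans (hBH.trans hHz))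
    have h7 : (B / |z.im|) ^ J = (B / H) ^ J * (H / |z.im|) ^ J := by
      rw [← mul_pow]
      congr 1
      field_simp
    have h8 : (H / |z.im|) ^ J ≤ 1 := by
      apply pow_le_one₀ (by positivity)
      rw [div_le_one hz0]
      exact hHz
    have h9 : 0 ≤ C * A * (B / H) ^ J := by positivity
    constructor
    · refine h6.trans ?_
      rw [h7, ← mul_assoc]
      exact mul_le_of_le_one_right h9 h8
    · refine h6.trans ?_
      rw [h7, ← mul_assoc]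
      exact mul_le_mul_of_nonneg_left (EX_frac H z.im J hH0 hJ hHz) h9

theorem EX_log {X : ℝ} (hX : 3 ≤ X) : 1 ≤ Real.log X := by
  have h1 : Real.log 3 ≤ Real.log X := Real.log_le_log (by norm_num) hX
  have h2 : (1 : ℝ) ≤ Real.log 3 := by
    rw [Real.le_log_iff_exp_le (by norm_num)]
    have := Real.exp_one_lt_d9
    linarith
  linarith

theorem EX_sum (m : ℂ → ℕ) (S Z₀ : Finset ℂ) (hS : S ⊆ Z₀) (s : ℂ) (d n₀ : ℝ) (hd : 0 < d)
    (hsd : ∀ ρ ∈ S, d ≤ ‖s - ρ‖) (hn : ∑ ρ ∈ Z₀, (m ρ : ℝ) ≤ n₀) :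
    ‖∑ ρ ∈ S, (m ρ : ℂ) / (s - ρ)‖ ≤ n₀ / d := by
  have h1 : ‖∑ ρ ∈ S, (m ρ : ℂ) / (s - ρ)‖ ≤ ∑ ρ ∈ S, (m ρ : ℝ) / d := by
    refine norm_sum_le_of_le _ fun ρ hρ => ?_
    rw [norm_div, Complex.norm_natCast]
    exact div_le_div_of_nonneg_left (Nat.cast_nonneg _) hd (hsd ρ hρ)
  refine h1.trans ?_
  rw [← Finset.sum_div]
  refine div_le_div_of_nonneg_right (le_trans ?_ hn) hd.le
  exact Finset.sum_le_sum_of_subset_of_nonneg hS fun ρ _ _ => Nat.cast_nonneg _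

theorem EX_K (R₁ C₀ X : ℝ) (hR : 0 < R₁) (hC₀ : 1 ≤ C₀) (hX : 3 ≤ X) (q : ℕ) [NeZero q]
    (χ : DirichletCharacter ℂ q)
    (hld : ∀ s : ℂ, 1 - 2 * R₁ ≤ s.re → s.re ≤ 1 + R₁ → |s.im| ≤ X → ∀ d : ℝ, 0 < d → d ≤ 1 →
      (∀ ρ ∈ ZX (EF χ) (4 * R₁) s.im 1, d ≤ ‖s - ρ‖) →
        ‖deriv (EF χ) s / EF χ s‖ ≤ C₀ * Real.log X / d)
    (t H H' : ℝ) (hn : ∑ ρ ∈ ZX (EF χ) (4 * R₁) t (2 * H + 1), (mz (EF χ) ρ : ℝ) ≤
      3 * C₀ * H * Real.log X) (hH : 1 ≤ H) (hH' : H' ≤ 2 * H)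
    (S : Finset ℂ) (hS : S ⊆ ZX (EF χ) (4 * R₁) t (2 * H + 1)) (g : ℂ → ℂ)
    (hg : Differentiable ℂ g)
    (hF : ∀ s, EF χ s = (∏ ρ ∈ S, (s - ρ) ^ mz (EF χ) ρ) * g s)
    (s : ℂ) (hs1 : 1 - 2 * R₁ ≤ s.re) (hs2 : s.re ≤ 1 + R₁) (hs3 : |s.im - t| ≤ H')
    (hsX : |s.im| ≤ X) (d : ℝ) (hd : 0 < d) (hd1 : d ≤ 1)
    (hsd : ∀ ρ ∈ ZX (EF χ) (4 * R₁) t (2 * H + 1), d ≤ ‖s - ρ‖) :
    ‖-(deriv g s / g s)‖ ≤ 4 * C₀ * H * Real.log X / d := by
  have hnz : ∃ s, EF χ s ≠ 0 := ⟨1, EF_ne_zero χ 1 (by simp)⟩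
  have hmem := mem_ZX (EF χ) (EF_diff χ) hnz
  have hL := EX_log hX
  have hne : EF χ s ≠ 0 := by
    intro h0
    have h1 : s.re < 1 := by
      by_contra h2
      exact EF_ne_zero χ s (not_lt.1 h2) h0
    have h2 : s ∈ ZX (EF χ) (4 * R₁) t (2 * H + 1) := by
      rw [hmem]
      exact ⟨h0, by linarith, h1.le, by linarith⟩
    have h3 := hsd s h2
    rw [sub_self, norm_zero] at h3
    linarith
  have h1 := factor_ld (EF χ) g hg S hF s hne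
  have h2 : -(deriv g s / g s) = ∑ ρ ∈ S, (mz (EF χ) ρ : ℂ) / (s - ρ) -
      deriv (EF χ) s / EF χ s := by
    rw [h1]
    ring
  have h3 : ‖deriv (EF χ) s / EF χ s‖ ≤ C₀ * Real.log X / d := by
    refine hld s hs1 hs2 hsX d hd hd1 fun ρ hρ => hsd ρ ?_
    rw [hmem] at hρ ⊢
    refine ⟨hρ.1, hρ.2.1, hρ.2.2.1, ?_⟩
    have h4 := hρ.2.2.2
    have h5 : |ρ.im - t| ≤ |ρ.im - s.im| + |s.im - t| := by
      have := abs_add_le (ρ.im - s.im) (s.im - t)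
      rwa [sub_add_sub_cancel] at this
    linarith
  have h4 := EX_sum (mz (EF χ)) S _ hS s d _ hd (fun ρ hρ => hsd ρ (hS hρ)) hn
  rw [h2]
  refine (norm_sub_le _ _).trans ?_
  have h5 : 4 * C₀ * H * Real.log X / d = 3 * C₀ * H * Real.log X / d +
      H * (C₀ * Real.log X / d) := by ring
  have h6 : 0 ≤ C₀ * Real.log X / d := by positivity
  have h7 : 1 * (C₀ * Real.log X / d) ≤ H * (C₀ * Real.log X / d) :=
    mul_le_mul_of_nonneg_right hH h6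
  linarith

/-- On the line `Re s = 1 + R₁`. -/
theorem EX_K_line (R₁ C₀ X Cl : ℝ) (hR : 0 < R₁) (hR1 : R₁ ≤ 1 / 64) (_ : 1 ≤ C₀) (hX : 3 ≤ X)
    (hCl : 1 ≤ Cl) (q : ℕ) [NeZero q] (χ : DirichletCharacter ℂ q)
    (hl : ∀ s : ℂ, 1 < s.re → s.re ≤ 3 →
      ‖deriv (DirichletCharacter.LFunction χ) s / DirichletCharacter.LFunction χ s‖ ≤
        1 / (s.re - 1) + Cl)
    (t H : ℝ) (hn : ∑ ρ ∈ ZX (EF χ) (4 * R₁) t (2 * H + 1), (mz (EF χ) ρ : ℝ) ≤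
      3 * C₀ * H * Real.log X) (hH : 1 ≤ H)
    (S : Finset ℂ) (hS : S ⊆ ZX (EF χ) (4 * R₁) t (2 * H + 1)) (g : ℂ → ℂ)
    (hg : Differentiable ℂ g)
    (hF : ∀ s, EF χ s = (∏ ρ ∈ S, (s - ρ) ^ mz (EF χ) ρ) * g s)
    (s : ℂ) (hs1 : s.re = 1 + R₁) :
    ‖-(deriv g s / g s)‖ ≤ (2 / R₁ + Cl + 3 * C₀ / R₁) * (H * Real.log X) := by
  have hnz : ∃ s, EF χ s ≠ 0 := ⟨1, EF_ne_zero χ 1 (by simp)⟩
  have hmem := mem_ZX (EF χ) (EF_diff χ) hnz
  have hL := EX_log hX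
  have hs0 : 1 < s.re := by rw [hs1]; linarith
  have hne : EF χ s ≠ 0 := EF_ne_zero χ s hs0.le
  have h1 := factor_ld (EF χ) g hg S hF s hne
  have h2 : -(deriv g s / g s) = ∑ ρ ∈ S, (mz (EF χ) ρ : ℂ) / (s - ρ) -
      deriv (EF χ) s / EF χ s := by
    rw [h1]
    ring
  have hre : ∀ z : ℂ, R₁ ≤ (s - z).re → R₁ ≤ ‖s - z‖ := fun z hz =>
    hz.trans ((le_abs_self _).trans (Complex.abs_re_le_norm _))
  have h3 : ‖deriv (EF χ) s / EF χ s‖ ≤ 2 / R₁ + Cl := by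
    rw [EF_ld χ s hs0]
    refine (norm_add_le _ _).trans ?_
    have h4 := hl s hs0 (by rw [hs1]; linarith)
    have h5 : s.re - 1 = R₁ := by rw [hs1]; ring
    rw [h5] at h4
    have h6 : ‖(dl χ : ℂ) / (s - 1)‖ ≤ 1 / R₁ := by
      rw [norm_div]
      have h7 : R₁ ≤ ‖s - 1‖ := hre 1 (by rw [Complex.sub_re, hs1]; simp)
      have h8 : ‖(dl χ : ℂ)‖ ≤ 1 := by
        unfold dl
        split_ifs <;> simp
      exact div_le_div₀ zero_le_one h8 hR h7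
    have h7 : 2 / R₁ = 1 / R₁ + 1 / R₁ := by ring
    linarith
  have h4 := EX_sum (mz (EF χ)) S _ hS s R₁ _ hR (fun ρ hρ => by
    apply hre
    have h5 := (hmem (4 * R₁) t (2 * H + 1) ρ).1 (hS hρ)
    rw [Complex.sub_re, hs1]
    linarith [h5.2.2.1]) hn
  rw [h2]
  refine (norm_sub_le _ _).trans ?_
  have h5 : (2 / R₁ + Cl + 3 * C₀ / R₁) * (H * Real.log X) = 3 * C₀ * H * Real.log X / R₁ +
      (2 / R₁ + Cl) * (H * Real.log X) := by ring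
  have h6 : 1 ≤ H * Real.log X := by nlinarith only [hR, hH, hR1, hL]
  have h7 : 0 ≤ 2 / R₁ + Cl := by positivity
  have h8 : (2 / R₁ + Cl) * 1 ≤ (2 / R₁ + Cl) * (H * Real.log X) :=
    mul_le_mul_of_nonneg_left h6 h7
  linarith

/-- **The remaining integral is small.** Here `Z₀ = ZX (EF χ) (4 R₁) t (2 H + 1)` is the box of zeros, `S` the zeros inside of the rectangle `[1 - a, b] × [t - H', t + H']`.

Proof. Write `K s = -(g' s / g s)`, `n₀ = C₀ (2 H + 1) log X ≤ 3 C₀ H log X` (a bound for the sum of the multiplicities of the zeros in `Z₀`, by `hcount`; `S ⊆ Z₀`). For `EF χ s ≠ 0`: `K s = -EF'/EF(s) + ∑_{ρ ∈ S} mz / (s - ρ)` (`factor_ld`).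
`g` does not vanish on the closed rectangle: at the points of `S` by `hgS`; if `g s = 0`, `s ∉ S`, then `EF χ s = 0`, so `Re s < 1` and `s ∈ Z₀` (as `1 - a ≥ 1 - 4 R₁`, `|Im s - t| ≤ H' ≤ 2 H + 1`), and the hypotheses `hd₁, hd₂` exclude `Re s = 1 - a` and `|Im s - t| = H'`, so `s ∈ S`, a contradiction. So `K` is differentiable on
the closed rectangle, and `shift_rect` applies to `f z = Z ^ z mellin w z K (z + i t)` on `[1 - a, b] × [-H', H']` (`b = 1 + R₁`; `Z ^ z` and `mellin w` are entire, `mellin_diff`).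
(1) Vertical line, `s = 1 - a + i y + i t`, `|y| ≤ H'`: every zero in `ZX (EF χ) (4 R₁) (Im s) 1` is in `Z₀` and has distance `≥ |1 - a - β| ≥ d₁` from `s`, so (`hld`) `‖EF'/EF‖ ≤ C₀ log X / d₁` and `‖∑_S‖ ≤ n₀ / d₁`. With `d₁ ≥ δ / (8 C₀ H log X)`: `‖K‖ ≤ 32 C₀ ^ 2 H ^ 2 log X ^ 2 / δ`. `∫ ‖mellin w (1 - a + i y)‖ dy ≤ 4 C' A B`
(`mellin_decay J`: `C' A` for `|y| ≤ B`, `C' A (B / |y|) ^ J` for `|y| > B ≥ 1`, `J ≥ 2`). `Z ^ (1 - a) ≤ Z ^ (1 - δ)`. Total `≤ C A B H ^ 2 log X ^ 2 Z ^ (1 - δ)`.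
(2) Horizontal sides, `Im s = t ± H'`: every zero in `ZX (EF χ) (4 R₁) (Im s) 1 ⊆ Z₀` has `|Im s - γ| ≥ |H' - |γ - t|| ≥ d₂ ≥ 1 / (8 C₀ log X)`, so `‖K‖ ≤ (C₀ log X + n₀) / d₂ ≤ 32 C₀ ^ 2 H log X ^ 2`; `‖mellin w‖ ≤ C' A (B / H') ^ J ≤ C' A (B / H) ^ J`, `‖Z ^ z‖ ≤ Z ^ 2 ≤ X ^ 4`.
(3) The tails `|y| > H'` of the integral on `Re = b = 1 + R₁`: `‖EF'/EF‖ ≤ 1 / R₁ + C + 1 / R₁` (`ld_triv`, `EF_ld`), `‖∑_S‖ ≤ n₀ / R₁` (`Re ρ < 1`), `‖Z ^ z‖ ≤ X ^ 4`, and `∫_{|y| > H} C' A (B / |y|) ^ J dy ≤ 2 C' A H (B / H) ^ J` (`J ≥ 2`).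
Altogether at most `C A (B H ^ 2 log X ^ 2 Z ^ (1 - δ) + X ^ 4 H ^ 2 log X ^ 2 (B / H) ^ J)`, where `C` depends on `C₀, R₁, δ, J`. -/
theorem ex_shift (R₁ C₀ δ : ℝ) (hR : 0 < R₁) (hR1 : R₁ ≤ 1 / 64) (hC₀ : 1 ≤ C₀) (hδ : 0 < δ) (hδ1 : δ ≤ R₁) (J : ℕ) (hJ : 2 ≤ J) :
    ∃ C : ℝ, 1 ≤ C ∧ ∀ (X : ℝ), 3 ≤ X → ∀ (q : ℕ) [NeZero q] (χ : DirichletCharacter ℂ q),
    (∀ t H : ℝ, |t| ≤ X → 1 ≤ H → H ≤ X → (∑ ρ ∈ ZX (EF χ) (4 * R₁) t H, (mz (EF χ) ρ : ℝ)) ≤ C₀ * H * Real.log X) →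
    (∀ s : ℂ, 1 - 2 * R₁ ≤ s.re → s.re ≤ 1 + R₁ → |s.im| ≤ X → ∀ d : ℝ, 0 < d → d ≤ 1 →
      (∀ ρ ∈ ZX (EF χ) (4 * R₁) s.im 1, d ≤ ‖s - ρ‖) → ‖deriv (EF χ) s / EF χ s‖ ≤ C₀ * Real.log X / d) →
    ∀ (A B : ℝ) (w : ℝ → ℂ), 1 ≤ B → IsW J A B w → ∀ Z : ℝ, 4 ≤ Z → Z ≤ X ^ 2 → ∀ (t H H' a : ℝ), |t| ≤ X / 4 → B ≤ H → 1 ≤ H → H ≤ X / 8 - 1 →
    H ≤ H' → H' ≤ 2 * H → δ ≤ a → a ≤ 2 * δ →
    (∀ ρ ∈ ZX (EF χ) (4 * R₁) t (2 * H + 1), δ / (8 * C₀ * H * Real.log X) ≤ |a - (1 - ρ.re)|) →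
    (∀ ρ ∈ ZX (EF χ) (4 * R₁) t (2 * H + 1), 1 / (8 * C₀ * Real.log X) ≤ |H' - abs (ρ.im - t)|) →
    ∀ g : ℂ → ℂ, Differentiable ℂ g →
    (∀ s, EF χ s = (∏ ρ ∈ (ZX (EF χ) (4 * R₁) t (2 * H + 1)).filter (fun ρ => 1 - a < ρ.re ∧ |ρ.im - t| < H'), (s - ρ) ^ mz (EF χ) ρ) * g s) →
    (∀ ρ ∈ (ZX (EF χ) (4 * R₁) t (2 * H + 1)).filter (fun ρ => 1 - a < ρ.re ∧ |ρ.im - t| < H'), g ρ ≠ 0) →
    ‖∫ y : ℝ, (Z : ℂ) ^ (((1 + R₁ : ℝ) : ℂ) + y * I) * mellin w (((1 + R₁ : ℝ) : ℂ) + y * I) *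
        (-(deriv g (((1 + R₁ : ℝ) : ℂ) + y * I + t * I) / g (((1 + R₁ : ℝ) : ℂ) + y * I + t * I)))‖ ≤
      C * A * (B * H ^ 2 * Real.log X ^ 2 * Z ^ (1 - δ) + X ^ 4 * H ^ 2 * Real.log X ^ 2 * (B / H) ^ J) := by
  obtain ⟨Cm, hCm, hmel⟩ := EX_mellin J hJ
  obtain ⟨Cl, hCl, htriv⟩ := ld_triv
  obtain ⟨C₃, hC₃⟩ : ∃ C₃ : ℝ, C₃ = 2 / R₁ + Cl + 3 * C₀ / R₁ := ⟨_, rfl⟩
  have hC₃0 : 0 ≤ C₃ := by rw [hC₃]; positivity
  refine ⟨64 * Real.pi * C₀ ^ 2 * Cm / δ + 64 * C₀ ^ 2 * Cm + 2 * Real.pi * C₃ * Cm + 1, ?_, ?_⟩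
  · have : 0 ≤ 64 * Real.pi * C₀ ^ 2 * Cm / δ + 64 * C₀ ^ 2 * Cm + 2 * Real.pi * C₃ * Cm := by
      positivity
    linarith
  intro X hX q _ χ hcount hld A B w hB hw Z hZ hZX t H H' a ht hBH hH hHX hHH' hH'2 hδa ha2 hd₁ hd₂
    g hg hF hgS
  obtain ⟨hA, hmel⟩ := hmel A B w hB hw
  have hL := EX_log hX
  obtain ⟨L, hLdef⟩ : ∃ L : ℝ, L = Real.log X := ⟨_, rfl⟩
  rw [← hLdef] at hL hd₁ hd₂ ⊢
  have hX0 : 0 < X := by linarith
  have hL0 : 0 < L := by linarith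
  have hH0 : 0 < H := by linarith
  have hB0 : 0 < B := by linarith
  have hZ0 : 0 < Z := by linarith
  have hZC : (Z : ℂ) ≠ 0 := by exact_mod_cast hZ0.ne'
  have hnz : ∃ s, EF χ s ≠ 0 := ⟨1, EF_ne_zero χ 1 (by simp)⟩
  have hmem := mem_ZX (EF χ) (EF_diff χ) hnz
  obtain ⟨Z₀, hZ₀⟩ : ∃ Z₀ : Finset ℂ, Z₀ = ZX (EF χ) (4 * R₁) t (2 * H + 1) := ⟨_, rfl⟩
  have hn : ∑ ρ ∈ ZX (EF χ) (4 * R₁) t (2 * H + 1), (mz (EF χ) ρ : ℝ) ≤
      3 * C₀ * H * Real.log X := by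
    have h1 := hcount t (2 * H + 1) (by linarith) (by linarith) (by linarith)
    refine h1.trans ?_
    have h2 : C₀ * (2 * H + 1) ≤ 3 * C₀ * H := by nlinarith only [hR, hBH, hC₀, hR1, hB]
    rw [← hLdef]
    exact mul_le_mul_of_nonneg_right h2 hL0.le
  obtain ⟨S, hSdef⟩ : ∃ S : Finset ℂ, S = (ZX (EF χ) (4 * R₁) t (2 * H + 1)).filter
    (fun ρ => 1 - a < ρ.re ∧ |ρ.im - t| < H') := ⟨_, rfl⟩
  rw [← hSdef] at hgS
  have hF' : ∀ s, EF χ s = (∏ ρ ∈ S, (s - ρ) ^ mz (EF χ) ρ) * g s := by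
    intro s
    rw [hSdef]
    exact hF s
  have hS : S ⊆ ZX (EF χ) (4 * R₁) t (2 * H + 1) := by
    rw [hSdef]
    exact Finset.filter_subset _ _
  have hd1pos : 0 < δ / (8 * C₀ * H * L) := by positivity
  have hd2pos : 0 < 1 / (8 * C₀ * L) := by positivity
  have hCHL : 1 ≤ C₀ * H * L := by
    have h1 : 1 ≤ C₀ * H := by nlinarith only [hR, hBH, hC₀, hR1, hB]
    nlinarith only [hR, hR1, hL, h1]
  have hCL : 1 ≤ C₀ * L := by nlinarith only [hR, hC₀, hR1, hL]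
  have hd1le : δ / (8 * C₀ * H * L) ≤ 1 := by
    rw [div_le_one (by positivity)]
    linarith
  have hd2le : 1 / (8 * C₀ * L) ≤ 1 := by
    rw [div_le_one (by positivity)]
    linarith
  -- the cofactor does not vanish
  have hgne : ∀ s : ℂ, 1 - a ≤ s.re → |s.im - t| ≤ H' → g s ≠ 0 := by
    intro s h1 h2 h0
    have hE : EF χ s = 0 := by rw [hF' s, h0, mul_zero]
    have hre : s.re < 1 := by
      by_contra h3
      exact EF_ne_zero χ s (not_lt.1 h3) hE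
    have hsZ : s ∈ ZX (EF χ) (4 * R₁) t (2 * H + 1) := by
      rw [hmem]
      exact ⟨hE, by linarith, hre.le, by linarith⟩
    have h3 := hd₁ s hsZ
    have h4 := hd₂ s hsZ
    have h5 : 1 - a < s.re := by
      rcases h1.lt_or_eq with h6 | h6
      · exact h6
      · exfalso
        have h7 : a - (1 - s.re) = 0 := by linarith
        rw [h7, abs_zero] at h3
        linarith
    have h6 : |s.im - t| < H' := by
      rcases h2.lt_or_eq with h7 | h7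
      · exact h7
      · exfalso
        rw [h7, sub_self, abs_zero] at h4
        linarith
    refine hgS s ?_ h0
    rw [hSdef, Finset.mem_filter]
    exact ⟨hsZ, h5, h6⟩
  have hgne1 : ∀ s : ℂ, 1 ≤ s.re → g s ≠ 0 := by
    intro s h1 h0
    apply EF_ne_zero χ s h1
    rw [hF' s, h0, mul_zero]
  obtain ⟨f, hf⟩ : ∃ f : ℂ → ℂ, ∀ z, f z = (Z : ℂ) ^ z * mellin w z *
    (-(deriv g (z + t * I) / g (z + t * I))) := ⟨_, fun _ => rfl⟩
  have hf' : f = fun z => (Z : ℂ) ^ z * mellin w z * (-(deriv g (z + t * I) / g (z + t * I))) :=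
    funext hf
  have hfdiff : DifferentiableOn ℂ f
      {z : ℂ | 1 - a ≤ z.re ∧ z.re ≤ 1 + R₁ ∧ -H' ≤ z.im ∧ z.im ≤ H'} := by
    intro z hz
    obtain ⟨h1, h2, h3, h4⟩ := hz
    apply DifferentiableAt.differentiableWithinAt
    rw [hf']
    have e1 : DifferentiableAt ℂ (fun z : ℂ => (Z : ℂ) ^ z) z :=
      differentiableAt_id.const_cpow (Or.inl hZC)
    have e2 := (mellin_diff J A B w hw) z
    have e3 : DifferentiableAt ℂ (fun z : ℂ => deriv g (z + t * I)) z := by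
      have h5 : DifferentiableAt ℂ (deriv g) (z + t * I) :=
        (hg.analyticAt (z + t * I)).deriv.differentiableAt
      have h6 : DifferentiableAt ℂ (fun z : ℂ => z + t * I) z := by fun_prop
      exact DifferentiableAt.comp (g := deriv g) z h5 h6
    have e4 : DifferentiableAt ℂ (fun z : ℂ => g (z + t * I)) z := by
      have h6 : DifferentiableAt ℂ (fun z : ℂ => z + t * I) z := by fun_prop
      exact DifferentiableAt.comp (g := g) z (hg (z + t * I)) h6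
    have e5 : g (z + t * I) ≠ 0 := by
      refine hgne _ (by simpa using h1) ?_
      have h6 : (z + t * I).im - t = z.im := by simp
      rw [h6, abs_le]
      exact ⟨h3, h4⟩
    exact (e1.mul e2).mul (e3.div e4 e5).neg
  have hsh := shift_rect f (1 - a) (1 + R₁) (-H') H' (by linarith) (by linarith) hfdiff
  -- bounds
  have hZz : ∀ z : ℂ, z.re ≤ 2 → ‖(Z : ℂ) ^ z‖ ≤ X ^ 4 := by
    intro z hz
    rw [Complex.norm_cpow_eq_rpow_re_of_pos hZ0]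
    have h1 : Z ^ z.re ≤ Z ^ (2 : ℝ) := Real.rpow_le_rpow_of_exponent_le (by linarith) hz
    have h2 : Z ^ (2 : ℝ) = Z ^ 2 := by norm_cast
    have h3 : Z ^ 2 ≤ (X ^ 2) ^ 2 := pow_le_pow_left₀ hZ0.le hZX 2
    have h4 : (X ^ 2) ^ 2 = X ^ 4 := by ring
    exact h1.trans (h2.le.trans (h3.trans h4.le))
  have hX4 : 0 ≤ X ^ 4 := by positivity
  have hCA : 0 ≤ Cm * A := by positivity
  have hBHJ : 0 ≤ (B / H) ^ J := by positivity
  -- (1) the vertical line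
  have hV : ∫ y in (-H')..H', ‖f (((1 - a : ℝ) : ℂ) + y * I)‖ ≤
      Z ^ (1 - δ) * (Cm * A * 2) * (32 * C₀ ^ 2 * H ^ 2 * L ^ 2 / δ) * (B * Real.pi) := by
    obtain ⟨hi1, hi2⟩ := EX_sq_int B hB0
    obtain ⟨K₁, hK₁⟩ : ∃ K₁ : ℝ, K₁ = Z ^ (1 - δ) * (Cm * A * 2) *
      (32 * C₀ ^ 2 * H ^ 2 * L ^ 2 / δ) := ⟨_, rfl⟩
    rw [← hK₁]
    have hK₁0 : 0 ≤ K₁ := by rw [hK₁]; positivity
    rw [intervalIntegral.integral_of_le (by linarith)]
    have h1 : ∫ y in Set.Ioc (-H') H', ‖f (((1 - a : ℝ) : ℂ) + y * I)‖ ≤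
        ∫ y in Set.Ioc (-H') H', K₁ * (1 + (y / B) ^ 2)⁻¹ := by
      refine integral_mono_of_nonneg (Filter.Eventually.of_forall fun y => norm_nonneg _)
        (hi1.const_mul K₁).integrableOn ?_
      filter_upwards [ae_restrict_mem measurableSet_Ioc] with y hy
      have hre : (((1 - a : ℝ) : ℂ) + y * I).re = 1 - a := by simp
      have him : (((1 - a : ℝ) : ℂ) + y * I).im = y := by simp
      have hre2 : (((1 - a : ℝ) : ℂ) + y * I + t * I).re = 1 - a := by simp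
      have him2 : (((1 - a : ℝ) : ℂ) + y * I + t * I).im = y + t := by simp
      have hyH : |y| ≤ H' := by
        rw [abs_le]
        exact ⟨hy.1.le, hy.2⟩
      rw [hf, norm_mul, norm_mul, Complex.norm_cpow_eq_rpow_re_of_pos hZ0, hre]
      have m1 := (hmel (((1 - a : ℝ) : ℂ) + y * I) (by rw [hre]; linarith)
        (by rw [hre]; linarith)).2.1
      rw [him] at m1
      have m2 : Z ^ (1 - a) ≤ Z ^ (1 - δ) :=
        Real.rpow_le_rpow_of_exponent_le (by linarith) (by linarith)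
      have m3 := EX_K R₁ C₀ X hR hC₀ hX q χ hld t H H' hn hH hH'2 S hS g hg hF'
        (((1 - a : ℝ) : ℂ) + y * I + t * I) (by rw [hre2]; linarith only [ha2, hδ1]) (by rw [hre2]; linarith)
        (by rw [him2, add_sub_cancel_right]; exact hyH)
        (by
          rw [him2]
          have := abs_add_le y t
          linarith only [hR, ht, hBH, hHX, hR1, hH'2, this, hyH, hB])
        (δ / (8 * C₀ * H * L)) hd1pos hd1le (by
          intro ρ hρ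
          refine (hd₁ ρ hρ).trans ?_
          have h2 := Complex.abs_re_le_norm ((((1 - a : ℝ) : ℂ) + y * I + t * I) - ρ)
          rw [Complex.sub_re, hre2] at h2
          have h3 : |a - (1 - ρ.re)| = |1 - a - ρ.re| := by
            rw [← abs_neg]
            congr 1
            ring
          rw [h3]
          exact h2)
      have m4 : 4 * C₀ * H * Real.log X / (δ / (8 * C₀ * H * L)) =
          32 * C₀ ^ 2 * H ^ 2 * L ^ 2 / δ := by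
        rw [← hLdef]
        field_simp
        ring
      rw [m4] at m3
      calc Z ^ (1 - a) * ‖mellin w (((1 - a : ℝ) : ℂ) + y * I)‖ *
            ‖-(deriv g (((1 - a : ℝ) : ℂ) + y * I + t * I) /
              g (((1 - a : ℝ) : ℂ) + y * I + t * I))‖
          ≤ Z ^ (1 - δ) * (Cm * A * (2 * (1 + (y / B) ^ 2)⁻¹)) *
            (32 * C₀ ^ 2 * H ^ 2 * L ^ 2 / δ) := by
            refine mul_le_mul (mul_le_mul m2 m1 (norm_nonneg _) (by positivity)) m3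
              (norm_nonneg _) (by positivity)
        _ = K₁ * (1 + (y / B) ^ 2)⁻¹ := by rw [hK₁]; ring
    refine h1.trans ?_
    have h2 : ∫ y in Set.Ioc (-H') H', K₁ * (1 + (y / B) ^ 2)⁻¹ ≤
        ∫ y : ℝ, K₁ * (1 + (y / B) ^ 2)⁻¹ :=
      setIntegral_le_integral (hi1.const_mul K₁) (Filter.Eventually.of_forall fun y => by
        positivity)
    refine h2.trans (le_of_eq ?_)
    rw [integral_const_mul, hi2]
  -- (2) the horizontal sides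
  have hHor : ∀ z : ℂ, 1 - a ≤ z.re → z.re ≤ 1 + R₁ → |z.im| = H' →
      ‖f z‖ ≤ X ^ 4 * (Cm * A * (B / H) ^ J) * (32 * C₀ ^ 2 * H * L ^ 2) := by
    intro z h1 h2 h3
    rw [hf, norm_mul, norm_mul]
    have m1 := ((hmel z (by linarith) (by linarith)).2.2 H hBH (by rw [h3]; exact hHH')).1
    have m2 := hZz z (by linarith)
    have hre2 : (z + t * I).re = z.re := by simp
    have him2 : (z + t * I).im = z.im + t := by simp
    have m3 := EX_K R₁ C₀ X hR hC₀ hX q χ hld t H H' hn hH hH'2 S hS g hg hF'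
      (z + t * I) (by rw [hre2]; linarith) (by rw [hre2]; linarith)
      (by rw [him2, add_sub_cancel_right, h3])
      (by
        rw [him2]
        have := abs_add_le z.im t
        linarith)
      (1 / (8 * C₀ * L)) hd2pos hd2le (by
        intro ρ hρ
        refine (hd₂ ρ hρ).trans ?_
        have h4 := Complex.abs_im_le_norm ((z + t * I) - ρ)
        rw [Complex.sub_im, him2] at h4
        refine le_trans ?_ h4
        have h5 := abs_abs_sub_abs_le (z.im) (ρ.im - t)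
        rw [h3] at h5
        refine h5.trans (le_of_eq ?_)
        congr 1
        ring)
    have m4 : 4 * C₀ * H * Real.log X / (1 / (8 * C₀ * L)) = 32 * C₀ ^ 2 * H * L ^ 2 := by
      rw [← hLdef]
      field_simp
      ring
    rw [m4] at m3
    exact mul_le_mul (mul_le_mul m2 m1 (norm_nonneg _) hX4) m3 (norm_nonneg _) (by positivity)
  have hlen : |1 + R₁ - (1 - a)| ≤ 1 := by
    rw [abs_le]
    constructor <;> linarith only [hR, hR1, hδ, hδa, ha2, hδ1]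
  have hK₂0 : 0 ≤ X ^ 4 * (Cm * A * (B / H) ^ J) * (32 * C₀ ^ 2 * H * L ^ 2) := by positivity
  have hHor2 : ∀ T : ℝ, |T| = H' → ∫ x in (1 - a)..(1 + R₁), ‖f ((x : ℂ) + (T : ℂ) * I)‖ ≤
      X ^ 4 * (Cm * A * (B / H) ^ J) * (32 * C₀ ^ 2 * H * L ^ 2) := by
    intro T hT
    refine (le_abs_self _).trans ?_
    have h1 := intervalIntegral.norm_integral_le_of_norm_le_const (a := 1 - a) (b := 1 + R₁)
      (f := fun x : ℝ => ‖f ((x : ℂ) + (T : ℂ) * I)‖)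
      (C := X ^ 4 * (Cm * A * (B / H) ^ J) * (32 * C₀ ^ 2 * H * L ^ 2)) (by
        intro x hx
        rw [Set.uIoc_of_le (by linarith)] at hx
        rw [norm_norm]
        refine hHor _ ?_ ?_ ?_
        · simp
          linarith [hx.1]
        · simp
          linarith [hx.2]
        · simp [hT])
    rw [Real.norm_eq_abs] at h1
    refine h1.trans ?_
    calc X ^ 4 * (Cm * A * (B / H) ^ J) * (32 * C₀ ^ 2 * H * L ^ 2) * |1 + R₁ - (1 - a)|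
        ≤ X ^ 4 * (Cm * A * (B / H) ^ J) * (32 * C₀ ^ 2 * H * L ^ 2) * 1 :=
          mul_le_mul_of_nonneg_left hlen hK₂0
      _ = _ := mul_one _
  have hH'0 : 0 < H' := by linarith
  have hT1 := hHor2 H' (abs_of_pos hH'0)
  have hT2 := hHor2 (-H') (by rw [abs_neg, abs_of_pos hH'0])
  -- (3) the line
  have hline : ∀ y : ℝ, ‖f (((1 + R₁ : ℝ) : ℂ) + y * I)‖ ≤
      X ^ 4 * ‖mellin w (((1 + R₁ : ℝ) : ℂ) + y * I)‖ * (C₃ * (H * L)) := by
    intro y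
    have hre : (((1 + R₁ : ℝ) : ℂ) + y * I).re = 1 + R₁ := by simp
    have hre2 : (((1 + R₁ : ℝ) : ℂ) + y * I + t * I).re = 1 + R₁ := by simp
    rw [hf, norm_mul, norm_mul]
    have m2 := hZz (((1 + R₁ : ℝ) : ℂ) + y * I) (by rw [hre]; linarith only [hR, hR1])
    have m3 := EX_K_line R₁ C₀ X Cl hR hR1 hC₀ hX hCl q χ (htriv q χ) t H hn hH S hS g hg hF'
      (((1 + R₁ : ℝ) : ℂ) + y * I + t * I) hre2
    rw [← hC₃, ← hLdef] at m3
    exact mul_le_mul (mul_le_mul_of_nonneg_right m2 (norm_nonneg _)) m3 (norm_nonneg _)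
      (by positivity)
  have hfm : Measurable f := by
    rw [hf']
    have e1 : Measurable (fun z : ℂ => (Z : ℂ) ^ z) :=
      (Continuous.const_cpow continuous_id (Or.inl hZC)).measurable
    have e2 : Measurable (mellin w) := (mellin_diff J A B w hw).continuous.measurable
    have e3 : Measurable (fun z : ℂ => deriv g (z + t * I)) :=
      (measurable_deriv g).comp (by fun_prop)
    have e4 : Measurable (fun z : ℂ => g (z + t * I)) :=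
      hg.continuous.measurable.comp (by fun_prop)
    exact (e1.mul e2).mul (e3.div e4).neg
  have hCHL0 : 0 ≤ C₃ * (H * L) := by positivity
  have hFi : Integrable (fun y : ℝ => f (((1 + R₁ : ℝ) : ℂ) + y * I)) := by
    obtain ⟨hi1, -⟩ := EX_sq_int B hB0
    refine (hi1.const_mul (X ^ 4 * (Cm * A * 2) * (C₃ * (H * L)))).mono'
      (hfm.comp (by fun_prop)).aestronglyMeasurable (Filter.Eventually.of_forall fun y => ?_)
    have hre : (((1 + R₁ : ℝ) : ℂ) + y * I).re = 1 + R₁ := by simp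
    have him : (((1 + R₁ : ℝ) : ℂ) + y * I).im = y := by simp
    have m1 := (hmel (((1 + R₁ : ℝ) : ℂ) + y * I) (by rw [hre]; linarith only [hR, hR1])
      (by rw [hre]; linarith only [hR, hR1])).2.1
    rw [him] at m1
    refine (hline y).trans ?_
    calc X ^ 4 * ‖mellin w (((1 + R₁ : ℝ) : ℂ) + y * I)‖ * (C₃ * (H * L))
        ≤ X ^ 4 * (Cm * A * (2 * (1 + (y / B) ^ 2)⁻¹)) * (C₃ * (H * L)) :=
          mul_le_mul_of_nonneg_right (mul_le_mul_of_nonneg_left m1 hX4) hCHL0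
      _ = _ := by ring
  have hout : ‖∫ y in (Set.Ioc (-H') H')ᶜ, f (((1 + R₁ : ℝ) : ℂ) + y * I)‖ ≤
      X ^ 4 * (Cm * A * (B / H) ^ J * 2) * (C₃ * (H * L)) * (H * Real.pi) := by
    obtain ⟨hi1, hi2⟩ := EX_sq_int H hH0
    obtain ⟨K₁, hK₁⟩ : ∃ K₁ : ℝ, K₁ = X ^ 4 * (Cm * A * (B / H) ^ J * 2) * (C₃ * (H * L)) :=
      ⟨_, rfl⟩
    rw [← hK₁]
    have hK₁0 : 0 ≤ K₁ := by rw [hK₁]; positivity
    have h1 := norm_integral_le_of_norm_le (μ := volume.restrict (Set.Ioc (-H') H')ᶜ)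
      (f := fun y : ℝ => f (((1 + R₁ : ℝ) : ℂ) + y * I))
      (g := fun y : ℝ => K₁ * (1 + (y / H) ^ 2)⁻¹) (hi1.const_mul K₁).integrableOn (by
        filter_upwards [ae_restrict_mem measurableSet_Ioc.compl] with y hy
        have hyH : H ≤ |y| := by
          by_contra hcon
          push Not at hcon
          have h2 := abs_lt.1 hcon
          exact hy ⟨by linarith only [hHH', h2], by linarith only [hHH', h2]⟩
        have hre : (((1 + R₁ : ℝ) : ℂ) + y * I).re = 1 + R₁ := by simp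
        have him : (((1 + R₁ : ℝ) : ℂ) + y * I).im = y := by simp
        have m1 := ((hmel (((1 + R₁ : ℝ) : ℂ) + y * I) (by rw [hre]; linarith only [hR, hR1])
          (by rw [hre]; linarith only [hR, hR1])).2.2 H hBH (by rw [him]; exact hyH)).2
        rw [him] at m1
        refine (hline y).trans ?_
        calc X ^ 4 * ‖mellin w (((1 + R₁ : ℝ) : ℂ) + y * I)‖ * (C₃ * (H * L))
            ≤ X ^ 4 * (Cm * A * (B / H) ^ J * (2 * (1 + (y / H) ^ 2)⁻¹)) * (C₃ * (H * L)) :=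
              mul_le_mul_of_nonneg_right (mul_le_mul_of_nonneg_left m1 hX4) hCHL0
          _ = K₁ * (1 + (y / H) ^ 2)⁻¹ := by rw [hK₁]; ring)
    refine h1.trans ?_
    have h2 : ∫ y in (Set.Ioc (-H') H')ᶜ, K₁ * (1 + (y / H) ^ 2)⁻¹ ≤
        ∫ y : ℝ, K₁ * (1 + (y / H) ^ 2)⁻¹ :=
      setIntegral_le_integral (hi1.const_mul K₁) (Filter.Eventually.of_forall fun y => by
        positivity)
    refine h2.trans (le_of_eq ?_)
    rw [integral_const_mul, hi2]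
  -- the end
  have hgoal : (∫ y : ℝ, (Z : ℂ) ^ (((1 + R₁ : ℝ) : ℂ) + y * I) *
      mellin w (((1 + R₁ : ℝ) : ℂ) + y * I) *
        (-(deriv g (((1 + R₁ : ℝ) : ℂ) + y * I + t * I) /
          g (((1 + R₁ : ℝ) : ℂ) + y * I + t * I)))) =
      (∫ y in Set.Ioc (-H') H', f (((1 + R₁ : ℝ) : ℂ) + y * I)) +
        ∫ y in (Set.Ioc (-H') H')ᶜ, f (((1 + R₁ : ℝ) : ℂ) + y * I) := by
    rw [integral_add_compl measurableSet_Ioc hFi]
    refine integral_congr_ae (Filter.Eventually.of_forall fun y => ?_)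
    simp only [hf]
  rw [hgoal]
  refine (norm_add_le _ _).trans ?_
  rw [intervalIntegral.integral_of_le (by linarith only [hR, hBH, hR1, hHH', hB] : -H' ≤ H')] at hsh
  refine (add_le_add hsh hout).trans ?_
  have hHH : H ≤ H ^ 2 := by nlinarith only [hBH, hB]
  have hLL : L ≤ L ^ 2 := by nlinarith only [hL]
  obtain ⟨P, hP⟩ : ∃ P : ℝ, P = X ^ 4 * H ^ 2 * L ^ 2 * (B / H) ^ J := ⟨_, rfl⟩
  obtain ⟨Q, hQ⟩ : ∃ Q : ℝ, Q = B * H ^ 2 * L ^ 2 * Z ^ (1 - δ) := ⟨_, rfl⟩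
  rw [← hP, ← hQ]
  have hP0 : 0 ≤ P := by rw [hP]; positivity
  have hQ0 : 0 ≤ Q := by rw [hQ]; positivity
  have g1 : Z ^ (1 - δ) * (Cm * A * 2) * (32 * C₀ ^ 2 * H ^ 2 * L ^ 2 / δ) * (B * Real.pi) =
      64 * Real.pi * C₀ ^ 2 * Cm / δ * A * Q := by rw [hQ]; ring
  have g2 : X ^ 4 * (Cm * A * (B / H) ^ J) * (32 * C₀ ^ 2 * H * L ^ 2) ≤
      32 * C₀ ^ 2 * Cm * A * P := by
    have e1 : X ^ 4 * (Cm * A * (B / H) ^ J) * (32 * C₀ ^ 2 * H * L ^ 2) =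
        (32 * C₀ ^ 2 * Cm * A * X ^ 4 * L ^ 2 * (B / H) ^ J) * H := by ring
    have e2 : 32 * C₀ ^ 2 * Cm * A * P =
        (32 * C₀ ^ 2 * Cm * A * X ^ 4 * L ^ 2 * (B / H) ^ J) * H ^ 2 := by rw [hP]; ring
    rw [e1, e2]
    exact mul_le_mul_of_nonneg_left hHH (by positivity)
  have g3 : X ^ 4 * (Cm * A * (B / H) ^ J * 2) * (C₃ * (H * L)) * (H * Real.pi) ≤
      2 * Real.pi * C₃ * Cm * A * P := by
    have e1 : X ^ 4 * (Cm * A * (B / H) ^ J * 2) * (C₃ * (H * L)) * (H * Real.pi) =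
        (2 * Real.pi * C₃ * Cm * A * X ^ 4 * H ^ 2 * (B / H) ^ J) * L := by ring
    have e2 : 2 * Real.pi * C₃ * Cm * A * P =
        (2 * Real.pi * C₃ * Cm * A * X ^ 4 * H ^ 2 * (B / H) ^ J) * L ^ 2 := by rw [hP]; ring
    rw [e1, e2]
    exact mul_le_mul_of_nonneg_left hLL (by positivity)
  have g4 : (64 * Real.pi * C₀ ^ 2 * Cm / δ + 64 * C₀ ^ 2 * Cm + 2 * Real.pi * C₃ * Cm + 1) * A *
      (Q + P) = 64 * Real.pi * C₀ ^ 2 * Cm / δ * A * Q + 2 * (32 * C₀ ^ 2 * Cm * A * P) +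
        2 * Real.pi * C₃ * Cm * A * P + (64 * Real.pi * C₀ ^ 2 * Cm / δ * A * P +
        (64 * C₀ ^ 2 * Cm + 2 * Real.pi * C₃ * Cm) * A * Q + A * (Q + P)) := by ring
  rw [g4]
  have g5 : 0 ≤ 64 * Real.pi * C₀ ^ 2 * Cm / δ * A * P +
        (64 * C₀ ^ 2 * Cm + 2 * Real.pi * C₃ * Cm) * A * Q + A * (Q + P) := by positivity
  linarith only [g3, g1, hV, hT2, hT1, g2, g5]

/-- The trivial bound for the smooth sum. -/
theorem EX_DS_triv {q : ℕ} (χ : DirichletCharacter ℂ q) (A : ℝ) (w : ℝ → ℂ) (hA : 0 ≤ A)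
    (hwA : ∀ x, ‖w x‖ ≤ A) (X Z t : ℝ) (hX : 3 ≤ X) (hZ : 4 ≤ Z) (hZX : Z ≤ X ^ 2) :
    ‖DS χ w Z t‖ ≤ 48 * A * Z * X := by
  unfold DS
  have hlog : Real.log (16 * Z) ≤ 3 * X := by
    have h1 : Real.log (16 * Z) ≤ Real.log (16 * X ^ 2) :=
      Real.log_le_log (by linarith) (by linarith)
    have h2 : Real.log (16 * X ^ 2) = 4 * Real.log 2 + 2 * Real.log X := by
      rw [Real.log_mul (by norm_num) (by positivity), Real.log_pow,
        show (16 : ℝ) = 2 ^ 4 by norm_num, Real.log_pow]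
      push_cast
      ring
    have h3 := Real.log_two_lt_d9
    have h4 := Real.log_le_sub_one_of_pos (show 0 < X by linarith)
    linarith
  have hlog0 : 0 ≤ 3 * X := by linarith
  have h1 : ∀ n ∈ Icc 1 ⌊16 * Z⌋₊, ‖(ArithmeticFunction.vonMangoldt n : ℂ) * χ (n : ZMod q) *
      (n : ℂ) ^ (-(t * I)) * w (n / Z)‖ ≤ 3 * X * A := by
    intro n hn
    rw [Finset.mem_Icc] at hn
    have hn0 : 0 < n := hn.1
    have hn1 : (n : ℝ) ≤ 16 * Z := (Nat.le_floor_iff (by linarith)).1 hn.2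
    rw [norm_mul, norm_mul, norm_mul, Complex.norm_natCast_cpow_of_pos hn0, Complex.norm_real,
      Real.norm_of_nonneg ArithmeticFunction.vonMangoldt_nonneg]
    have e1 : (-((t : ℂ) * I)).re = 0 := by simp
    rw [e1, Real.rpow_zero, mul_one]
    have h2 : ArithmeticFunction.vonMangoldt n ≤ 3 * X :=
      (ArithmeticFunction.vonMangoldt_le_log).trans
        ((Real.log_le_log (by exact_mod_cast hn0) hn1).trans hlog)
    have h3 := DirichletCharacter.norm_le_one χ (n : ZMod q)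
    have h4 : ArithmeticFunction.vonMangoldt n * ‖χ (n : ZMod q)‖ ≤ 3 * X * 1 :=
      mul_le_mul h2 h3 (norm_nonneg _) hlog0
    rw [mul_one] at h4
    exact mul_le_mul h4 (hwA _) (norm_nonneg _) hlog0
  refine (norm_sum_le_of_le _ h1).trans ?_
  rw [Finset.sum_const, Nat.card_Icc, Nat.add_sub_cancel, nsmul_eq_mul]
  have h2 : (⌊16 * Z⌋₊ : ℝ) ≤ 16 * Z := Nat.floor_le (by linarith)
  have h3 : 0 ≤ 3 * X * A := by positivity
  calc (⌊16 * Z⌋₊ : ℝ) * (3 * X * A) ≤ 16 * Z * (3 * X * A) := mul_le_mul_of_nonneg_right h2 h3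
    _ = 48 * A * Z * X := by ring

theorem EX_term (m : ℂ → ℕ) (w : ℝ → ℂ) (Z t : ℝ) (hZ : 0 < Z) (ρ : ℂ) (P M : ℝ)
    (hP : Z ^ ρ.re ≤ P) (hM : ‖mellin w (ρ - t * I)‖ ≤ M) (hP0 : 0 ≤ P) :
    ‖(m ρ : ℂ) * ((Z : ℂ) ^ (ρ - t * I) * mellin w (ρ - t * I))‖ ≤ (m ρ : ℝ) * (P * M) := by
  rw [norm_mul, norm_mul, Complex.norm_natCast, Complex.norm_cpow_eq_rpow_re_of_pos hZ]
  have e1 : (ρ - (t : ℂ) * I).re = ρ.re := by simp
  rw [e1]
  exact mul_le_mul_of_nonneg_left (mul_le_mul hP hM (norm_nonneg _) hP0) (Nat.cast_nonneg _)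

theorem EX_terms (m : ℂ → ℕ) (w : ℝ → ℂ) (Z t : ℝ) (hZ : 0 < Z) (U V : Finset ℂ) (hUV : U ⊆ V)
    (P M n₀ : ℝ) (hP : ∀ ρ ∈ U, Z ^ ρ.re ≤ P) (hM : ∀ ρ ∈ U, ‖mellin w (ρ - t * I)‖ ≤ M)
    (hP0 : 0 ≤ P) (hM0 : 0 ≤ M) (hn : ∑ ρ ∈ V, (m ρ : ℝ) ≤ n₀) :
    ‖∑ ρ ∈ U, (m ρ : ℂ) * ((Z : ℂ) ^ (ρ - t * I) * mellin w (ρ - t * I))‖ ≤ n₀ * (P * M) := by
  refine (norm_sum_le_of_le _ fun ρ hρ =>
    EX_term m w Z t hZ ρ P M (hP ρ hρ) (hM ρ hρ) hP0).trans ?_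
  rw [← Finset.sum_mul]
  refine mul_le_mul_of_nonneg_right (le_trans ?_ hn) (by positivity)
  exact Finset.sum_le_sum_of_subset_of_nonneg hUV fun ρ _ _ => Nat.cast_nonneg _

/-- **The smooth explicit formula.**

Proof. Let `R₁, C₀, X₀'` be from `box_pack`, `κ₁ = min R₁ κ₀`, `ε₁ = min R₁ κ₀` (`κ₀` from `ZR_count`). Given `δ ≤ κ₁` and `ε₄`, let `J = ⌈80 / ε₄⌉`, `H = B X ^ (ε₄ / 8)`. `C'` is from `mellin_decay J`.
(I) `H > X / 8 - 1`. Then `B ≥ X ^ (7/8) / 16`. Trivial bounds: `‖DS‖ ≤ A ∑_{n ≤ 16 Z} Λ(n) ≤ C A Z` (`‖w‖ ≤ A`, Chebyshev), `‖MM‖ ≤ C' A Z (1 + C X log X)` (`mellin_decay`, `ZR_count`, `ZR (EF χ) δ X ⊆ ZR (EF χ) κ₀ X`), and `B ^ 3 ≥ X ^ (21/8) / 4096`, `Z ^ δ ≤ X ^ (1/8)`, so both are at most `A B ^ 3 Z ^ (1 - δ)` for large `X`.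
(II) `H ≤ X / 8 - 1`. Let `Z₀ = ZX (EF χ) (4 R₁) t (2 H + 1)`; its cardinality is at most the sum of the multiplicities (`mz_pos`), at most `C₀ (2 H + 1) log X ≤ 3 C₀ H log X`, so `2 (card + 1) ≤ 8 C₀ H log X`. `pigeon` applied to the set of the `1 - β`, on `[δ, 2 δ]`, gives `a`; applied to the set of the `|γ - t|` on
`[H, 2 H]` it gives `H'`. `S = Z₀.filter ...`, `g` from `factor_zeros`. `ex_ident` with `b = 1 + R₁` and `ex_shift` give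
`DS = dl ... - ∑_{ρ ∈ S} ... + E`, `|E| ≤ C A (B ^ 3 X ^ (ε₄ / 4) log X ^ 2 Z ^ (1 - δ) + X ^ (6 - J ε₄ / 8) log X ^ 2)`, and `J ε₄ / 8 ≥ 10`.
Exchange of `S` and `ZR (EF χ) δ X`: a zero `ρ ∈ S` not in `ZR` has `β < 1 - δ` (since `|γ| ≤ X`), its term is at most `mz C' A Z ^ (1 - δ)`, in total at most `3 C₀ H log X C' A Z ^ (1 - δ)`. A zero `ρ ∈ ZR (EF χ) δ X` not in `S` has `β ≥ 1 - δ ≥ 1 - a`, and `β ≠ 1 - a` if `ρ ∈ Z₀`, so `|γ - t| ≥ H'` (otherwise `ρ ∈ Z₀`, and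
`ρ ∈ S`), and its term is at most `mz C' A Z (B / H) ^ J`, in total at most `C X log X X ^ 2 A X ^ (-10)`. -/
theorem smooth_explicit [WI] : ∃ κ₁ ε₁ : ℝ, 0 < κ₁ ∧ κ₁ ≤ 1 / 16 ∧ 0 < ε₁ ∧ ε₁ ≤ 1 ∧ ∀ δ : ℝ, 0 < δ → δ ≤ κ₁ → ∀ ε₄ : ℝ, 0 < ε₄ → ε₄ ≤ 1 →
    ∃ (J : ℕ) (C X₀ : ℝ), 2 ≤ J ∧ 1 ≤ C ∧ 3 ≤ X₀ ∧ ∀ X : ℝ, X₀ ≤ X → ∀ (q : ℕ) [NeZero q], (q : ℝ) ≤ X ^ ε₁ →
    ∀ (χ : DirichletCharacter ℂ q) (A B : ℝ) (w : ℝ → ℂ), 1 ≤ B → IsW J A B w → ∀ Z : ℝ, 4 ≤ Z → Z ≤ X ^ 2 →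
    ∀ t : ℝ, |t| ≤ X / 4 → ‖DS χ w Z t - MM δ X χ w Z t‖ ≤ C * A * B ^ 3 * Z ^ (1 - δ) * X ^ ε₄ := by
  obtain ⟨R₁, C₀, X₁, hR, hR1, hC₀, hX₁, hbox⟩ := box_pack
  obtain ⟨κ₀, Cz, X₂, hκ₀, hκ₀1, hCz, hX₂, hZR⟩ := ZR_count
  refine ⟨min R₁ κ₀, min R₁ κ₀, lt_min hR hκ₀, (min_le_right _ _).trans hκ₀1, lt_min hR hκ₀,
    (min_le_left _ _).trans (by linarith), ?_⟩
  intro δ hδ hδκ ε₄ hε hε1
  have hδR : δ ≤ R₁ := hδκ.trans (min_le_left _ _)
  have hδκ0 : δ ≤ κ₀ := hδκ.trans (min_le_right _ _)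
  obtain ⟨J, hJ⟩ : ∃ J : ℕ, J = ⌈80 / ε₄⌉₊ := ⟨_, rfl⟩
  have hJ80 : 80 / ε₄ ≤ J := by rw [hJ]; exact Nat.le_ceil _
  have hJ80' : 80 ≤ (J : ℝ) * ε₄ := by rwa [div_le_iff₀ hε] at hJ80
  have hJ2 : 2 ≤ J := by
    have h1 : (80 : ℝ) ≤ J := by nlinarith only [(Nat.cast_nonneg J : (0 : ℝ) ≤ J), hε1, hJ80']
    have h2 : (2 : ℝ) ≤ J := by linarith
    exact_mod_cast h2
  obtain ⟨Cs, hCs, hshift⟩ := ex_shift R₁ C₀ δ hR hR1 hC₀ hδ hδR J hJ2
  obtain ⟨Cm, hCm, hmel⟩ := EX_mellin J hJ2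
  refine ⟨J, 4096 * (48 + Cm * (1 + Cz)) + Cs * (64 / ε₄ ^ 2 + 1) + 3 * C₀ * Cm * (8 / ε₄) +
    Cz * Cm, max (max X₁ X₂) 16, hJ2, ?_, ?_, ?_⟩
  · have : 0 ≤ Cs * (64 / ε₄ ^ 2 + 1) + 3 * C₀ * Cm * (8 / ε₄) + Cz * Cm := by positivity
    have : 0 ≤ Cm * (1 + Cz) := by positivity
    linarith
  · exact hX₁.trans ((le_max_left _ _).trans (le_max_left _ _))
  intro X hX q _ hq χ A B w hB hw Z hZ hZX t ht
  have hXX₁ : X₁ ≤ X := ((le_max_left _ _).trans (le_max_left _ _)).trans hX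
  have hXX₂ : X₂ ≤ X := ((le_max_right _ _).trans (le_max_left _ _)).trans hX
  have hX16 : 16 ≤ X := (le_max_right _ _).trans hX
  have hX3 : 3 ≤ X := by linarith
  have hX0 : 0 < X := by linarith
  have hX1 : 1 ≤ X := by linarith
  have hq1 : 1 ≤ q := Nat.one_le_iff_ne_zero.2 (NeZero.ne q)
  obtain ⟨hcount, hld⟩ := hbox X hXX₁ q hq1
    (hq.trans (Real.rpow_le_rpow_of_exponent_le hX1 (min_le_left _ _))) χ
  have hcz := hZR X hXX₂ q hq1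
    (hq.trans (Real.rpow_le_rpow_of_exponent_le hX1 (min_le_right _ _))) χ
  obtain ⟨hA, hmel⟩ := hmel A B w hB hw
  have hL := EX_log hX3
  obtain ⟨L, hLdef⟩ : ∃ L : ℝ, L = Real.log X := ⟨_, rfl⟩
  rw [← hLdef] at hL hcz
  have hL0 : 0 < L := by linarith
  have hLX : L ≤ X := by
    have := Real.log_le_sub_one_of_pos hX0
    rw [hLdef]
    linarith
  have hZ0 : 0 < Z := by linarith
  have hB0 : 0 < B := by linarith
  have hnz : ∃ s, EF χ s ≠ 0 := ⟨1, EF_ne_zero χ 1 (by simp)⟩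
  have hmemX := mem_ZX (EF χ) (EF_diff χ) hnz
  have hmemR := mem_ZR (EF χ) (EF_diff χ) hnz
  have hwA : ∀ x, ‖w x‖ ≤ A := by
    intro x
    have := hw.2.2 0 (Nat.zero_le _) x
    simpa using this
  have hsubR : ZR (EF χ) δ X ⊆ ZR (EF χ) κ₀ X := by
    intro ρ hρ
    rw [hmemR] at hρ ⊢
    exact ⟨hρ.1, by linarith [hρ.2.1], hρ.2.2.1, hρ.2.2.2⟩
  have hCA : 0 ≤ Cm * A := by positivity
  have hZre : ∀ r : ℝ, r ≤ 1 → Z ^ r ≤ Z := by
    intro r hr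
    calc Z ^ r ≤ Z ^ (1 : ℝ) := Real.rpow_le_rpow_of_exponent_le (by linarith) hr
      _ = Z := Real.rpow_one Z
  have hZδ0 : 0 < Z ^ (1 - δ) := Real.rpow_pos_of_pos hZ0 _
  have hXε1 : 1 ≤ X ^ ε₄ := Real.one_le_rpow hX1 hε.le
  have hB3 : 1 ≤ B ^ 3 := one_le_pow₀ hB
  by_cases hcase : X / 8 - 1 < B * X ^ (ε₄ / 8)
  · -- case I
    have h1 := EX_DS_triv χ A w hA hwA X Z t hX3 hZ hZX
    have h2 : ‖MM δ X χ w Z t‖ ≤ Z * (Cm * A) + Cz * X * L * (Z * (Cm * A)) := by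
      unfold MM
      refine (norm_sub_le _ _).trans (add_le_add ?_ ?_)
      · rw [norm_mul, norm_mul, Complex.norm_cpow_eq_rpow_re_of_pos hZ0]
        have e1 : (1 - (t : ℂ) * I).re = 1 := by simp
        have e2 : ‖(dl χ : ℂ)‖ ≤ 1 := by
          unfold dl
          split_ifs <;> simp
        have e3 := (hmel (1 - t * I) (by rw [e1]; norm_num) (by rw [e1]; norm_num)).1
        rw [e1, Real.rpow_one]
        calc ‖(dl χ : ℂ)‖ * (Z * ‖mellin w (1 - t * I)‖) ≤ 1 * (Z * (Cm * A)) :=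
              mul_le_mul e2 (mul_le_mul_of_nonneg_left e3 hZ0.le) (by positivity) zero_le_one
          _ = Z * (Cm * A) := one_mul _
      · refine EX_terms (mz (EF χ)) w Z t hZ0 _ _ hsubR Z (Cm * A) (Cz * X * L) ?_ ?_ hZ0.le hCA hcz
        · intro ρ hρ
          rw [hmemR] at hρ
          exact hZre _ hρ.2.2.1
        · intro ρ hρ
          rw [hmemR] at hρ
          have e1 : (ρ - (t : ℂ) * I).re = ρ.re := by simp
          exact (hmel (ρ - t * I) (by rw [e1]; linarith [hρ.2.1])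
            (by rw [e1]; linarith [hρ.2.2.1])).1
    have h3 : X ^ (17 / 8 : ℝ) ≤ 4096 * B ^ 3 := by
      have e1 : X ^ (ε₄ / 8) ≤ X ^ (1 / 8 : ℝ) :=
        Real.rpow_le_rpow_of_exponent_le hX1 (by linarith)
      have e2 : X / 16 ≤ B * X ^ (1 / 8 : ℝ) := by
        have := mul_le_mul_of_nonneg_left e1 hB0.le
        linarith only [this, hcase, hX16]
      have e3 : X ^ (7 / 8 : ℝ) ≤ 16 * B := by
        have e4 : X = X ^ (7 / 8 : ℝ) * X ^ (1 / 8 : ℝ) := by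
          rw [← Real.rpow_add hX0]
          norm_num
        have e5 : 0 < X ^ (1 / 8 : ℝ) := Real.rpow_pos_of_pos hX0 _
        have e6 : X ^ (7 / 8 : ℝ) * X ^ (1 / 8 : ℝ) ≤ (16 * B) * X ^ (1 / 8 : ℝ) := by
          rw [← e4]
          linarith only [e2]
        exact le_of_mul_le_mul_right e6 e5
      have e4 : X ^ (21 / 8 : ℝ) = (X ^ (7 / 8 : ℝ)) ^ 3 := by
        rw [← Real.rpow_natCast, ← Real.rpow_mul hX0.le]
        norm_num
      have e5 : (X ^ (7 / 8 : ℝ)) ^ 3 ≤ (16 * B) ^ 3 :=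
        pow_le_pow_left₀ (Real.rpow_nonneg hX0.le _) e3 3
      have e6 : X ^ (17 / 8 : ℝ) ≤ X ^ (21 / 8 : ℝ) :=
        Real.rpow_le_rpow_of_exponent_le hX1 (by norm_num)
      calc X ^ (17 / 8 : ℝ) ≤ X ^ (21 / 8 : ℝ) := e6
        _ ≤ (16 * B) ^ 3 := by rw [e4]; exact e5
        _ = 4096 * B ^ 3 := by ring
    have h4 : Z * X ^ 2 ≤ Z ^ (1 - δ) * X ^ (17 / 8 : ℝ) := by
      have e1 : Z = Z ^ (1 - δ) * Z ^ δ := by
        rw [← Real.rpow_add hZ0, sub_add_cancel, Real.rpow_one]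
      have e2 : Z ^ δ ≤ X ^ (1 / 8 : ℝ) := by
        calc Z ^ δ ≤ (X ^ 2) ^ δ := Real.rpow_le_rpow hZ0.le hZX hδ.le
          _ = X ^ (2 * δ) := by
            rw [← Real.rpow_natCast, ← Real.rpow_mul hX0.le]
            norm_num
          _ ≤ X ^ (1 / 8 : ℝ) := Real.rpow_le_rpow_of_exponent_le hX1 (by linarith)
      have e3 : X ^ (17 / 8 : ℝ) = X ^ (1 / 8 : ℝ) * X ^ 2 := by
        rw [← Real.rpow_natCast X 2, ← Real.rpow_add hX0]
        norm_num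
      rw [e3]
      calc Z * X ^ 2 = Z ^ (1 - δ) * (Z ^ δ * X ^ 2) := by
            rw [← mul_assoc, ← e1]
        _ ≤ Z ^ (1 - δ) * (X ^ (1 / 8 : ℝ) * X ^ 2) :=
            mul_le_mul_of_nonneg_left (mul_le_mul_of_nonneg_right e2 (by positivity)) hZδ0.le
    have h5 : ‖DS χ w Z t - MM δ X χ w Z t‖ ≤ (48 + Cm * (1 + Cz)) * A * (Z * X ^ 2) := by
      refine (norm_sub_le _ _).trans ?_
      have hX2 : X ≤ X ^ 2 := by nlinarith only [hXX₁, hR, hR1, hX₁, hX16]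
      have h1X : 1 ≤ X ^ 2 := by nlinarith only [hR, hR1, hX2, hX16]
      have e1 : 48 * A * Z * X ≤ 48 * A * Z * X ^ 2 :=
        mul_le_mul_of_nonneg_left hX2 (by positivity)
      have e2 : Z * (Cm * A) ≤ Z * (Cm * A) * X ^ 2 := le_mul_of_one_le_right (by positivity) h1X
      have e3 : Cz * X * L * (Z * (Cm * A)) ≤ Cz * X * X * (Z * (Cm * A)) :=
        mul_le_mul_of_nonneg_right (mul_le_mul_of_nonneg_left hLX (by positivity)) (by positivity)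
      have e4 : (48 + Cm * (1 + Cz)) * A * (Z * X ^ 2) = 48 * A * Z * X ^ 2 +
          Z * (Cm * A) * X ^ 2 + Cz * X * X * (Z * (Cm * A)) := by ring
      linarith
    refine h5.trans ?_
    have h6 : Z * X ^ 2 ≤ 4096 * (B ^ 3 * Z ^ (1 - δ)) := by
      refine h4.trans ?_
      calc Z ^ (1 - δ) * X ^ (17 / 8 : ℝ) ≤ Z ^ (1 - δ) * (4096 * B ^ 3) :=
            mul_le_mul_of_nonneg_left h3 hZδ0.le
        _ = _ := by ring
    have h7 : (48 + Cm * (1 + Cz)) * A * (Z * X ^ 2) ≤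
        (48 + Cm * (1 + Cz)) * A * (4096 * (B ^ 3 * Z ^ (1 - δ))) :=
      mul_le_mul_of_nonneg_left h6 (by positivity)
    refine h7.trans ?_
    have h8 : (48 + Cm * (1 + Cz)) * A * (4096 * (B ^ 3 * Z ^ (1 - δ))) =
        4096 * (48 + Cm * (1 + Cz)) * (A * B ^ 3 * Z ^ (1 - δ)) * 1 := by ring
    rw [h8]
    have h9 : 4096 * (48 + Cm * (1 + Cz)) * (A * B ^ 3 * Z ^ (1 - δ)) * 1 ≤
        4096 * (48 + Cm * (1 + Cz)) * (A * B ^ 3 * Z ^ (1 - δ)) * X ^ ε₄ :=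
      mul_le_mul_of_nonneg_left hXε1 (by positivity)
    refine h9.trans ?_
    have h10 : 4096 * (48 + Cm * (1 + Cz)) * (A * B ^ 3 * Z ^ (1 - δ)) ≤
        (4096 * (48 + Cm * (1 + Cz)) + Cs * (64 / ε₄ ^ 2 + 1) + 3 * C₀ * Cm * (8 / ε₄) +
          Cz * Cm) * (A * B ^ 3 * Z ^ (1 - δ)) := by
      refine mul_le_mul_of_nonneg_right ?_ (by positivity)
      have : 0 ≤ Cs * (64 / ε₄ ^ 2 + 1) + 3 * C₀ * Cm * (8 / ε₄) + Cz * Cm := by positivity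
      linarith only [this]
    calc _ ≤ (4096 * (48 + Cm * (1 + Cz)) + Cs * (64 / ε₄ ^ 2 + 1) + 3 * C₀ * Cm * (8 / ε₄) +
          Cz * Cm) * (A * B ^ 3 * Z ^ (1 - δ)) * X ^ ε₄ :=
          mul_le_mul_of_nonneg_right h10 (by linarith only [hR, hXε1, hR1])
      _ = _ := by ring
  · -- case II
    push Not at hcase
    obtain ⟨H, hHdef⟩ : ∃ H : ℝ, H = B * X ^ (ε₄ / 8) := ⟨_, rfl⟩
    rw [← hHdef] at hcase
    have hXe8 : 1 ≤ X ^ (ε₄ / 8) := Real.one_le_rpow hX1 (by positivity)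
    have hBH : B ≤ H := by
      rw [hHdef]
      exact le_mul_of_one_le_right hB0.le hXe8
    have hH1 : 1 ≤ H := hB.trans hBH
    have hH0 : 0 < H := by linarith
    have hHX : H ≤ X := by linarith
    -- the box
    have hn : ∑ ρ ∈ ZX (EF χ) (4 * R₁) t (2 * H + 1), (mz (EF χ) ρ : ℝ) ≤ 3 * C₀ * H * L := by
      have h1 := hcount t (2 * H + 1) (by linarith) (by linarith) (by linarith)
      rw [← hLdef] at h1
      refine h1.trans ?_
      have h2 : C₀ * (2 * H + 1) ≤ 3 * C₀ * H := by nlinarith only [hBH, hB, hC₀, hR, hR1]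
      exact mul_le_mul_of_nonneg_right h2 hL0.le
    have hcard : ((ZX (EF χ) (4 * R₁) t (2 * H + 1)).card : ℝ) ≤ 3 * C₀ * H * L := by
      refine le_trans ?_ hn
      have h1 : ((ZX (EF χ) (4 * R₁) t (2 * H + 1)).card : ℝ) =
          ∑ ρ ∈ ZX (EF χ) (4 * R₁) t (2 * H + 1), (1 : ℝ) := by
        rw [Finset.sum_const, nsmul_eq_mul, mul_one]
      rw [h1]
      refine Finset.sum_le_sum fun ρ hρ => ?_
      rw [hmemX] at hρ
      exact_mod_cast mz_pos (EF χ) (EF_diff χ) hnz ρ hρ.1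
    have hCHL : 1 ≤ C₀ * H * L := by
      have h1 : 1 ≤ C₀ * H := by nlinarith only [hBH, hB, hC₀, hR, hR1]
      nlinarith only [h1, hL]
    have hpig : ∀ (f : ℂ → ℝ) (x y : ℝ), x < y → ∃ c ∈ Set.Icc x y,
        ∀ ρ ∈ ZX (EF χ) (4 * R₁) t (2 * H + 1), (y - x) / (8 * C₀ * H * L) ≤ |c - f ρ| := by
      intro f x y hxy
      obtain ⟨c, hc, hc2⟩ := pigeon ((ZX (EF χ) (4 * R₁) t (2 * H + 1)).image f) x y hxy
      refine ⟨c, hc, fun ρ hρ => le_trans ?_ (hc2 (f ρ) (Finset.mem_image_of_mem f hρ))⟩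
      refine div_le_div_of_nonneg_left (by linarith) (by positivity) ?_
      have h1 : (((ZX (EF χ) (4 * R₁) t (2 * H + 1)).image f).card : ℝ) ≤
          (ZX (EF χ) (4 * R₁) t (2 * H + 1)).card := by
        exact_mod_cast Finset.card_image_le
      have h2 : 8 * C₀ * H * L = 8 * (C₀ * H * L) := by ring
      have h3 : 3 * C₀ * H * L = 3 * (C₀ * H * L) := by ring
      rw [h3] at hcard
      rw [h2]
      linarith
    obtain ⟨a, ⟨ha1, ha2⟩, hd₁⟩ := hpig (fun ρ => 1 - ρ.re) δ (2 * δ) (by linarith)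
    obtain ⟨H', ⟨hH'1, hH'2⟩, hd₂⟩ := hpig (fun ρ => |ρ.im - t|) H (2 * H) (by linarith)
    have hd₁' : ∀ ρ ∈ ZX (EF χ) (4 * R₁) t (2 * H + 1),
        δ / (8 * C₀ * H * Real.log X) ≤ |a - (1 - ρ.re)| := by
      intro ρ hρ
      have h1 := hd₁ ρ hρ
      rw [← hLdef]
      have h2 : 2 * δ - δ = δ := by ring
      rwa [h2] at h1
    have hd₂' : ∀ ρ ∈ ZX (EF χ) (4 * R₁) t (2 * H + 1),
        1 / (8 * C₀ * Real.log X) ≤ |H' - abs (ρ.im - t)| := by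
      intro ρ hρ
      have h1 := hd₂ ρ hρ
      rw [← hLdef]
      have h2 : (2 * H - H) / (8 * C₀ * H * L) = 1 / (8 * C₀ * L) := by
        field_simp
        ring
      rwa [h2] at h1
    obtain ⟨S, hSdef⟩ : ∃ S : Finset ℂ, S = (ZX (EF χ) (4 * R₁) t (2 * H + 1)).filter
      (fun ρ => 1 - a < ρ.re ∧ |ρ.im - t| < H') := ⟨_, rfl⟩
    have hS : S ⊆ ZX (EF χ) (4 * R₁) t (2 * H + 1) := by
      rw [hSdef]
      exact Finset.filter_subset _ _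
    obtain ⟨g, hg, hF, hgS⟩ := factor_zeros (EF χ) (EF_diff χ) hnz S
    have hw2 : IsW 2 A B w := ⟨hw.1, hw.2.1, fun j hj x => hw.2.2 j (hj.trans hJ2) x⟩
    have hid := ex_ident χ A B w hw2 Z t (1 + R₁) hZ (by linarith) (by linarith) S (fun ρ hρ => by
      have := (hmemX _ _ _ ρ).1 (hS hρ)
      exact this.1) g hg hF
    have hsh := hshift X hX3 q χ hcount hld A B w hB hw Z hZ hZX t H H' a ht hBH hH1 hcase hH'1
      hH'2 ha1 ha2 hd₁' hd₂' g hg (fun s => by rw [← hSdef]; exact hF s)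
      (fun ρ hρ => hgS ρ (by rw [hSdef]; exact hρ))
    rw [← hLdef] at hsh
    obtain ⟨E, hE⟩ : ∃ E : ℂ, E = ∫ y : ℝ, (Z : ℂ) ^ (((1 + R₁ : ℝ) : ℂ) + y * I) *
      mellin w (((1 + R₁ : ℝ) : ℂ) + y * I) * (-(deriv g (((1 + R₁ : ℝ) : ℂ) + y * I + t * I) /
        g (((1 + R₁ : ℝ) : ℂ) + y * I + t * I))) := ⟨_, rfl⟩
    rw [← hE] at hid hsh
    -- the difference
    have hdiff : DS χ w Z t - MM δ X χ w Z t =
        (∑ ρ ∈ ZR (EF χ) δ X \ S, (mz (EF χ) ρ : ℂ) *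
          ((Z : ℂ) ^ (ρ - t * I) * mellin w (ρ - t * I)) -
        ∑ ρ ∈ S \ ZR (EF χ) δ X, (mz (EF χ) ρ : ℂ) *
          ((Z : ℂ) ^ (ρ - t * I) * mellin w (ρ - t * I))) + (1 / (2 * Real.pi) : ℂ) * E := by
      rw [Finset.sum_sdiff_sub_sum_sdiff, hid]
      unfold MM
      ring
    have hE1 : ‖(1 / (2 * Real.pi) : ℂ) * E‖ ≤ ‖E‖ := by
      rw [norm_mul]
      have h1 : ‖(1 / (2 * Real.pi) : ℂ)‖ ≤ 1 := by
        have h2 : (1 / (2 * Real.pi) : ℂ) = ((1 / (2 * Real.pi) : ℝ) : ℂ) := by push_cast; rfl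
        rw [h2, Complex.norm_real, Real.norm_of_nonneg (by positivity),
          div_le_one (by positivity)]
        linarith only [Real.pi_gt_three, hR, hR1]
      exact mul_le_of_le_one_left (norm_nonneg _) h1
    have hT1 : ‖∑ ρ ∈ S \ ZR (EF χ) δ X, (mz (EF χ) ρ : ℂ) *
          ((Z : ℂ) ^ (ρ - t * I) * mellin w (ρ - t * I))‖ ≤
        3 * C₀ * H * L * (Z ^ (1 - δ) * (Cm * A)) := by
      have key : ∀ ρ ∈ S \ ZR (EF χ) δ X, ρ.re ≤ 1 - δ ∧ 0 ≤ ρ.re := by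
        intro ρ hρ
        rw [Finset.mem_sdiff] at hρ
        obtain ⟨h1, h2⟩ := hρ
        have h3 := (hmemX _ _ _ ρ).1 (hS h1)
        rw [hSdef, Finset.mem_filter] at h1
        refine ⟨?_, by linarith only [h3.2.1, ha2, hR, h1, hR1, hδR]⟩
        by_contra hcon
        push Not at hcon
        apply h2
        rw [hmemR]
        refine ⟨h3.1, hcon.le, h3.2.2.1, ?_⟩
        have h4 := abs_add_le (ρ.im - t) t
        rw [sub_add_cancel] at h4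
        linarith only [h1.2.2, ht, hH'2, hR, hR1, h4, hX16, hcase]
      refine EX_terms (mz (EF χ)) w Z t hZ0 _ _ (Finset.sdiff_subset.trans hS) (Z ^ (1 - δ))
        (Cm * A) _ ?_ ?_ hZδ0.le hCA hn
      · intro ρ hρ
        exact Real.rpow_le_rpow_of_exponent_le (by linarith only [hR, hR1, hZ]) (key ρ hρ).1
      · intro ρ hρ
        have e1 : (ρ - (t : ℂ) * I).re = ρ.re := by simp
        exact (hmel (ρ - t * I) (by rw [e1]; linarith only [(key ρ hρ).2, hR, hR1])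
          (by rw [e1]; linarith only [(key ρ hρ).1, hR, hR1, hδ])).1
    have hBHJ : 0 ≤ (B / H) ^ J := by positivity
    have hT2 : ‖∑ ρ ∈ ZR (EF χ) δ X \ S, (mz (EF χ) ρ : ℂ) *
          ((Z : ℂ) ^ (ρ - t * I) * mellin w (ρ - t * I))‖ ≤
        Cz * X * L * (Z * (Cm * A * (B / H) ^ J)) := by
      refine EX_terms (mz (EF χ)) w Z t hZ0 _ _ (Finset.sdiff_subset.trans hsubR) Z
        (Cm * A * (B / H) ^ J) _ ?_ ?_ hZ0.le (by positivity) hcz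
      · intro ρ hρ
        rw [Finset.mem_sdiff, hmemR] at hρ
        exact hZre _ hρ.1.2.2.1
      · intro ρ hρ
        rw [Finset.mem_sdiff, hmemR] at hρ
        obtain ⟨⟨h1, h2, h3, h4⟩, h5⟩ := hρ
        have e1 : (ρ - (t : ℂ) * I).re = ρ.re := by simp
        have e2 : (ρ - (t : ℂ) * I).im = ρ.im - t := by simp
        have h6 : H' ≤ |ρ.im - t| := by
          by_contra hcon
          push Not at hcon
          have h7 : ρ ∈ ZX (EF χ) (4 * R₁) t (2 * H + 1) := by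
            rw [hmemX]
            exact ⟨h1, by linarith only [hR, h2, hδR], h3, by linarith only [hH'2, hR, hR1, hcon]⟩
          apply h5
          rw [hSdef, Finset.mem_filter]
          refine ⟨h7, ?_, hcon⟩
          have h8 := hd₁ ρ h7
          have h9 : 0 < (2 * δ - δ) / (8 * C₀ * H * L) := by
            apply div_pos (by linarith only [hδ])
            positivity
          have h10 : 1 - a ≤ ρ.re := by linarith only [ha1, h2]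
          rcases h10.lt_or_eq with h11 | h11
          · exact h11
          · exfalso
            have h12 : a - (1 - ρ.re) = 0 := by linarith only [ha1, h2, h11]
            simp only [h12, abs_zero] at h8
            linarith only [h9, h8]
        exact ((hmel (ρ - t * I) (by rw [e1]; linarith only [hR, h2, hR1, hδR])
          (by rw [e1]; linarith only [hR, hR1, h3])).2.2 H hBH (by rw [e2]; linarith only [hH'1, h6])).1
    -- sizes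
    have hBHJ10 : (B / H) ^ J ≤ X ^ (-(10 : ℝ)) := by
      have e1 : B / H = X ^ (-(ε₄ / 8)) := by
        rw [hHdef, Real.rpow_neg hX0.le]
        have : X ^ (ε₄ / 8) ≠ 0 := (Real.rpow_pos_of_pos hX0 _).ne'
        field_simp
      rw [e1, ← Real.rpow_natCast, ← Real.rpow_mul hX0.le]
      exact Real.rpow_le_rpow_of_exponent_le hX1 (by linarith only [hJ80'])
    have hX10 : X ^ (-(10 : ℝ)) * X ^ 10 = 1 := by
      rw [Real.rpow_neg hX0.le]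
      have e1 : X ^ (10 : ℝ) = X ^ 10 := by norm_cast
      rw [e1]
      exact inv_mul_cancel₀ (by positivity)
    have hXm10 : 0 < X ^ (-(10 : ℝ)) := Real.rpow_pos_of_pos hX0 _
    have hLe : L ≤ 8 / ε₄ * X ^ (ε₄ / 8) := by
      have h1 := Real.log_le_rpow_div hX0.le (show 0 < ε₄ / 8 by positivity)
      rw [hLdef]
      refine h1.trans (le_of_eq ?_)
      field_simp
    obtain ⟨W, hW⟩ : ∃ W : ℝ, W = A * B ^ 3 * Z ^ (1 - δ) * X ^ ε₄ := ⟨_, rfl⟩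
    have hWlow : A ≤ W := by
      have e1 : 1 ≤ Z ^ (1 - δ) := Real.one_le_rpow (by linarith only [hR, hR1, hZ]) (by linarith only [hR, hR1, hδR])
      have e2 : 1 ≤ B ^ 3 * (Z ^ (1 - δ) * X ^ ε₄) := by
        have e3 : 1 ≤ Z ^ (1 - δ) * X ^ ε₄ := by nlinarith only [e1, hZδ0, hR, hXε1, hR1]
        nlinarith only [hB3, hR, e3, hR1]
      rw [hW]
      calc A = A * 1 := (mul_one A).symm
        _ ≤ A * (B ^ 3 * (Z ^ (1 - δ) * X ^ ε₄)) := mul_le_mul_of_nonneg_left e2 hA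
        _ = _ := by ring
    have hW0 : 0 ≤ W := hA.trans hWlow
    have hXe4 : X ^ (ε₄ / 8) * X ^ (ε₄ / 8) = X ^ (ε₄ / 4) := by
      rw [← Real.rpow_add hX0]
      congr 1
      ring
    have b1 : A * (B * H ^ 2 * L ^ 2 * Z ^ (1 - δ)) ≤ 64 / ε₄ ^ 2 * W := by
      have e1 : L ^ 2 ≤ (8 / ε₄ * X ^ (ε₄ / 8)) ^ 2 := pow_le_pow_left₀ hL0.le hLe 2
      have e2 : (8 / ε₄ * X ^ (ε₄ / 8)) ^ 2 = 64 / ε₄ ^ 2 * X ^ (ε₄ / 4) := by
        rw [← hXe4]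
        ring
      have e3 : B * H ^ 2 = B ^ 3 * X ^ (ε₄ / 4) := by
        rw [hHdef, ← hXe4]
        ring
      have e4 : X ^ (ε₄ / 4) * X ^ (ε₄ / 4) ≤ X ^ ε₄ := by
        rw [← Real.rpow_add hX0]
        exact Real.rpow_le_rpow_of_exponent_le hX1 (by linarith only [hε])
      rw [e2] at e1
      rw [e3]
      calc A * (B ^ 3 * X ^ (ε₄ / 4) * L ^ 2 * Z ^ (1 - δ))
          ≤ A * (B ^ 3 * X ^ (ε₄ / 4) * (64 / ε₄ ^ 2 * X ^ (ε₄ / 4)) * Z ^ (1 - δ)) := by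
            refine mul_le_mul_of_nonneg_left (mul_le_mul_of_nonneg_right
              (mul_le_mul_of_nonneg_left e1 (by positivity)) hZδ0.le) hA
        _ = 64 / ε₄ ^ 2 * (A * B ^ 3 * Z ^ (1 - δ) * (X ^ (ε₄ / 4) * X ^ (ε₄ / 4))) := by ring
        _ ≤ 64 / ε₄ ^ 2 * (A * B ^ 3 * Z ^ (1 - δ) * X ^ ε₄) :=
            mul_le_mul_of_nonneg_left (mul_le_mul_of_nonneg_left e4 (by positivity))
              (by positivity)
        _ = 64 / ε₄ ^ 2 * W := by rw [hW]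
    have b2 : A * (X ^ 4 * H ^ 2 * L ^ 2 * (B / H) ^ J) ≤ W := by
      refine le_trans ?_ hWlow
      have e1 : X ^ 4 * H ^ 2 * L ^ 2 ≤ X ^ 4 * X ^ 2 * X ^ 2 :=
        mul_le_mul (mul_le_mul_of_nonneg_left (pow_le_pow_left₀ hH0.le hHX 2) (by positivity))
          (pow_le_pow_left₀ hL0.le hLX 2) (by positivity) (by positivity)
      have e2 : X ^ 4 * X ^ 2 * X ^ 2 ≤ X ^ 10 := by
        calc X ^ 4 * X ^ 2 * X ^ 2 = X ^ 8 := by ring
          _ ≤ X ^ 10 := pow_le_pow_right₀ hX1 (by norm_num)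
      have e3 : X ^ 4 * H ^ 2 * L ^ 2 * (B / H) ^ J ≤ X ^ 10 * X ^ (-(10 : ℝ)) :=
        mul_le_mul (e1.trans e2) hBHJ10 hBHJ (by positivity)
      rw [mul_comm (X ^ 10), hX10] at e3
      calc A * (X ^ 4 * H ^ 2 * L ^ 2 * (B / H) ^ J) ≤ A * 1 := mul_le_mul_of_nonneg_left e3 hA
        _ = A := mul_one A
    have b3 : 3 * C₀ * H * L * (Z ^ (1 - δ) * (Cm * A)) ≤ 3 * C₀ * Cm * (8 / ε₄) * W := by
      have e1 : H * L ≤ 8 / ε₄ * (B ^ 3 * X ^ ε₄) := by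
        have e2 : H * L ≤ H * (8 / ε₄ * X ^ (ε₄ / 8)) := mul_le_mul_of_nonneg_left hLe hH0.le
        have e3 : H * (8 / ε₄ * X ^ (ε₄ / 8)) = 8 / ε₄ * (B * X ^ (ε₄ / 4)) := by
          rw [hHdef, ← hXe4]
          ring
        have e4 : B ≤ B ^ 3 := by
          have : 1 ≤ B ^ 2 := one_le_pow₀ hB
          nlinarith only [mul_nonneg (le_trans zero_le_one hB) (sub_nonneg.2 this)]
        have e5 : X ^ (ε₄ / 4) ≤ X ^ ε₄ := Real.rpow_le_rpow_of_exponent_le hX1 (by linarith only [hε])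
        have e6 : B * X ^ (ε₄ / 4) ≤ B ^ 3 * X ^ ε₄ :=
          mul_le_mul e4 e5 (Real.rpow_nonneg hX0.le _) (by positivity)
        rw [e3] at e2
        exact e2.trans (mul_le_mul_of_nonneg_left e6 (by positivity))
      calc 3 * C₀ * H * L * (Z ^ (1 - δ) * (Cm * A)) =
            (3 * C₀ * Cm * A * Z ^ (1 - δ)) * (H * L) := by ring
        _ ≤ (3 * C₀ * Cm * A * Z ^ (1 - δ)) * (8 / ε₄ * (B ^ 3 * X ^ ε₄)) :=
            mul_le_mul_of_nonneg_left e1 (by positivity)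
        _ = 3 * C₀ * Cm * (8 / ε₄) * W := by rw [hW]; ring
    have b4 : Cz * X * L * (Z * (Cm * A * (B / H) ^ J)) ≤ Cz * Cm * W := by
      have e1 : X * L * Z ≤ X * X * X ^ 2 :=
        mul_le_mul (mul_le_mul_of_nonneg_left hLX hX0.le) hZX hZ0.le (by positivity)
      have e2 : X * X * X ^ 2 ≤ X ^ 10 := by
        calc X * X * X ^ 2 = X ^ 4 := by ring
          _ ≤ X ^ 10 := pow_le_pow_right₀ hX1 (by norm_num)
      have e3 : X * L * Z * (B / H) ^ J ≤ X ^ 10 * X ^ (-(10 : ℝ)) :=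
        mul_le_mul (e1.trans e2) hBHJ10 hBHJ (by positivity)
      rw [mul_comm (X ^ 10), hX10] at e3
      calc Cz * X * L * (Z * (Cm * A * (B / H) ^ J)) =
            (Cz * Cm * A) * (X * L * Z * (B / H) ^ J) := by ring
        _ ≤ (Cz * Cm * A) * 1 := mul_le_mul_of_nonneg_left e3 (by positivity)
        _ = Cz * Cm * A := mul_one _
        _ ≤ Cz * Cm * W := mul_le_mul_of_nonneg_left hWlow (by positivity)
    have b5 : Cs * A * (B * H ^ 2 * L ^ 2 * Z ^ (1 - δ) + X ^ 4 * H ^ 2 * L ^ 2 * (B / H) ^ J) ≤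
        Cs * (64 / ε₄ ^ 2 + 1) * W := by
      calc Cs * A * (B * H ^ 2 * L ^ 2 * Z ^ (1 - δ) + X ^ 4 * H ^ 2 * L ^ 2 * (B / H) ^ J) =
            Cs * (A * (B * H ^ 2 * L ^ 2 * Z ^ (1 - δ)) +
              A * (X ^ 4 * H ^ 2 * L ^ 2 * (B / H) ^ J)) := by ring
        _ ≤ Cs * (64 / ε₄ ^ 2 * W + W) :=
            mul_le_mul_of_nonneg_left (add_le_add b1 b2) (by linarith only [hR, hCs, hR1])
        _ = _ := by ring
    rw [hdiff]
    refine (norm_add_le _ _).trans ?_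
    have n1 := norm_sub_le (∑ ρ ∈ ZR (EF χ) δ X \ S, (mz (EF χ) ρ : ℂ) *
          ((Z : ℂ) ^ (ρ - t * I) * mellin w (ρ - t * I)))
        (∑ ρ ∈ S \ ZR (EF χ) δ X, (mz (EF χ) ρ : ℂ) *
          ((Z : ℂ) ^ (ρ - t * I) * mellin w (ρ - t * I)))
    have n2 : (4096 * (48 + Cm * (1 + Cz)) + Cs * (64 / ε₄ ^ 2 + 1) + 3 * C₀ * Cm * (8 / ε₄) +
        Cz * Cm) * A * B ^ 3 * Z ^ (1 - δ) * X ^ ε₄ =
        4096 * (48 + Cm * (1 + Cz)) * W + Cs * (64 / ε₄ ^ 2 + 1) * W +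
          3 * C₀ * Cm * (8 / ε₄) * W + Cz * Cm * W := by
      rw [hW]
      ring
    rw [n2]
    have n3 : 0 ≤ 4096 * (48 + Cm * (1 + Cz)) * W := by positivity
    linarith only [b4, hT1, n3, b3, hE1, b5, hsh, n1, hT2]

end Pool.Agent.PSG
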