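import Pool.Agent.W_b58c63_h44.AR
import Pool.Agent.W_b58c63_h68.LSc

/-!
# Gauss sums and the coefficients of the model
-/

set_option autoImplicit false

noncomputable section

open Finset Complex

namespace Pool.Agent.PSG

open Pool.Agent.Wb58c63 (prim ee)

theorem GI_ee_one {x : ℝ} (h : ee x = 1) : ∃ n : ℤ, x = n := by
  have h1 := Wb58c63.LSa_ee_sub x
  rw [h, sub_self, norm_zero] at h1
  unfold Wb58c63.dn at h1
  have h2 := abs_nonneg (x - round x)
  have h3 : |x - round x| = 0 := by linarith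
  refine ⟨round x, ?_⟩
  have := abs_eq_zero.1 h3
  linarith

theorem GI_shift (f : ℕ → ℂ) (q : ℕ) (hf : ∀ n, f (n + q) = f n) (c : ℕ) :
    ∑ u ∈ range q, f (u + c) = ∑ u ∈ range q, f u := by
  induction c with
  | zero => simp
  | succ c ih =>
    rw [← ih]
    have h1 := Finset.sum_range_succ' (fun u => f (u + c)) q
    have h2 := Finset.sum_range_succ (fun u => f (u + c)) q
    have h3 : f (q + c) = f (0 + c) := by rw [zero_add, add_comm, hf]
    rw [h2, h3] at h1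
    have h4 := add_right_cancel h1
    rw [h4]
    refine Finset.sum_congr rfl fun u _ => ?_
    congr 1
    ring

theorem GI_per (f : ℕ → ℂ) (q : ℕ) (hf : ∀ n, f (n + q) = f n) (n m : ℕ) : f (n + q * m) = f n := by
  induction m with
  | zero => simp
  | succ m ih =>
    rw [Nat.mul_succ, ← Nat.add_assoc, hf, ih]

theorem GI_mod (f : ℕ → ℂ) (q : ℕ) (hf : ∀ n, f (n + q) = f n) (n : ℕ) : f (n % q) = f n := by
  conv_rhs => rw [← Nat.mod_add_div n q]
  rw [GI_per f q hf]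

theorem GI_rep (f : ℕ → ℂ) (q m : ℕ) (hf : ∀ n, f (n + q) = f n) :
    ∑ u ∈ range (q * m), f u = m * ∑ u ∈ range q, f u := by
  induction m with
  | zero => simp
  | succ m ih =>
    have h1 : ∑ x ∈ range q, f (q * m + x) = ∑ x ∈ range q, f x := by
      refine Finset.sum_congr rfl fun x _ => ?_
      rw [add_comm, GI_per f q hf]
    rw [Nat.mul_succ, Finset.sum_range_add, ih, h1]
    push_cast
    ring

theorem GI_vanish (f : ℕ → ℂ) (q c : ℕ) (w : ℂ) (hw : w ≠ 1) (hf : ∀ n, f (n + q) = f n)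
    (hc : ∀ n, f (n + c) = w * f n) : ∑ u ∈ range q, f u = 0 := by
  have h := GI_shift f q hf c
  simp_rw [hc] at h
  rw [← Finset.mul_sum] at h
  have h2 : (w - 1) * ∑ u ∈ range q, f u = 0 := by linear_combination h
  rcases mul_eq_zero.1 h2 with h1 | h1
  · exact absurd (sub_eq_zero.1 h1) hw
  · exact h1

theorem GI_crt (f : ℕ → ℂ) (r k : ℕ) (hr : 1 ≤ r) (hk : 1 ≤ k) (h : k.Coprime r)
    (hf : ∀ n, f (n + r * k) = f n) :
    ∑ u ∈ range (r * k), f u = ∑ x ∈ range r ×ˢ range k, f (k * x.1 + r * x.2) := by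
  symm
  have hrk : 0 < r * k := Nat.mul_pos hr hk
  have hmaps : Set.MapsTo (fun x : ℕ × ℕ => (k * x.1 + r * x.2) % (r * k))
      (range r ×ˢ range k : Finset (ℕ × ℕ)) (range (r * k) : Finset ℕ) := by
    intro x _
    rw [Finset.mem_coe, Finset.mem_range]
    exact Nat.mod_lt _ hrk
  have hinj : Set.InjOn (fun x : ℕ × ℕ => (k * x.1 + r * x.2) % (r * k))
      (range r ×ˢ range k : Finset (ℕ × ℕ)) := by
    rintro ⟨x, y⟩ hx ⟨x', y'⟩ hx' hxy
    rw [Finset.mem_coe, Finset.mem_product, Finset.mem_range, Finset.mem_range] at hx hx'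
    have h0 : k * x + r * y ≡ k * x' + r * y' [MOD r * k] := hxy
    have h1 : k * x + r * y ≡ k * x' + r * y' [MOD r] := h0.of_mul_right k
    have h2 : k * x + r * y ≡ k * x' + r * y' [MOD k] := h0.of_mul_left r
    have h3 : k * x ≡ k * x' [MOD r] := by
      have e1 : k * x + r * y ≡ k * x [MOD r] := by
        unfold Nat.ModEq
        rw [Nat.add_mul_mod_self_left]
      have e2 : k * x' + r * y' ≡ k * x' [MOD r] := by
        unfold Nat.ModEq
        rw [Nat.add_mul_mod_self_left]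
      exact (e1.symm.trans h1).trans e2
    have h4 : r * y ≡ r * y' [MOD k] := by
      have e1 : k * x + r * y ≡ r * y [MOD k] := by
        unfold Nat.ModEq
        rw [Nat.mul_add_mod]
      have e2 : k * x' + r * y' ≡ r * y' [MOD k] := by
        unfold Nat.ModEq
        rw [Nat.mul_add_mod]
      exact (e1.symm.trans h2).trans e2
    have h5 : x ≡ x' [MOD r] := Nat.ModEq.cancel_left_of_coprime (Nat.Coprime.symm h) h3
    have h6 : y ≡ y' [MOD k] := Nat.ModEq.cancel_left_of_coprime h h4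
    exact Prod.ext (Nat.ModEq.eq_of_lt_of_lt h5 hx.1 hx'.1) (Nat.ModEq.eq_of_lt_of_lt h6 hx.2 hx'.2)
  refine Finset.sum_nbij (fun x : ℕ × ℕ => (k * x.1 + r * x.2) % (r * k)) hmaps hinj ?_ ?_
  · refine Finset.surjOn_of_injOn_of_card_le _ hmaps hinj ?_
    rw [Finset.card_product, Finset.card_range, Finset.card_range, Finset.card_range]
  · intro x _
    exact (GI_mod f (r * k) hf _).symm

theorem GI_ee_nat (q : ℕ) (hq : 1 ≤ q) (a : ℤ) (n : ℕ) :
    ee (((n + q : ℕ) : ℝ) * ((a : ℝ) / q)) = ee ((n : ℝ) * ((a : ℝ) / q)) := by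
  have hq0 : (q : ℝ) ≠ 0 := by
    have : (0 : ℝ) < q := by exact_mod_cast hq
    exact ne_of_gt this
  have h1 : (((n + q : ℕ) : ℝ) * ((a : ℝ) / q)) = (n : ℝ) * ((a : ℝ) / q) + (a : ℤ) := by
    push_cast
    field_simp
  rw [h1, Wb58c63.ee_add, Wb58c63.ee_int, mul_one]

theorem GI_ee_std {q : ℕ} [NeZero q] (a : ℤ) (b : ℕ) :
    ee (b * ((a : ℝ) / q)) = ZMod.stdAddChar ((a : ZMod q) * (b : ZMod q)) := by
  have h1 : ((a : ZMod q) * (b : ZMod q)) = ((a * (b : ℤ) : ℤ) : ZMod q) := by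
    push_cast
    rfl
  rw [h1, ZMod.stdAddChar_coe]
  unfold Wb58c63.ee
  congr 1
  push_cast
  ring

theorem GI_T (r : ℕ) [NeZero r] (χ : DirichletCharacter ℂ r) (hχ : χ.IsPrimitive) (a : ℤ) :
    ∑ b ∈ range r, (starRingEnd ℂ) (χ (b : ZMod r)) * ee (b * ((a : ℝ) / r)) =
      χ (a : ZMod r) * Wb58c63.gs χ 1 := by
  rw [Wb58c63.LSc_one, ← Wb58c63.LSc_shift χ hχ]
  unfold gaussSum
  rw [← Wb58c63.LSc_sum]
  refine Finset.sum_congr rfl fun b _ => ?_
  rw [GI_ee_std, AddChar.mulShift_apply, ← MulChar.star_apply', starRingEnd_apply]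

theorem GI_G (r : ℕ) [NeZero r] (χ : DirichletCharacter ℂ r) (hχ : χ.IsPrimitive) (a : ℤ) :
    GSum χ r a = χ (a : ZMod r) * Wb58c63.gs χ 1 := by
  rw [← GI_T r χ hχ]
  unfold GSum
  rw [Finset.sum_filter]
  refine Finset.sum_congr rfl fun b _ => ?_
  by_cases hb : b.Coprime r
  · rw [if_pos hb]
  · rw [if_neg hb, MulChar.map_nonunit χ (fun h => hb ((ZMod.isUnit_iff_coprime b r).1 h)),
      map_zero, zero_mul]

theorem GI_gs_norm (r : ℕ) [NeZero r] (χ : DirichletCharacter ℂ r) (hχ : χ.IsPrimitive) :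
    ‖Wb58c63.gs χ 1‖ = Real.sqrt r := by
  rw [← Wb58c63.gs_norm χ hχ, Real.sqrt_sq (norm_nonneg _)]

theorem GI_G_norm (r : ℕ) [NeZero r] (χ : DirichletCharacter ℂ r) (hχ : χ.IsPrimitive) (a : ℤ) :
    ‖GSum χ r a‖ ≤ Real.sqrt r := by
  rw [GI_G r χ hχ, norm_mul, GI_gs_norm r χ hχ]
  have h1 : ‖χ (a : ZMod r)‖ ≤ 1 := DirichletCharacter.norm_le_one χ _
  have h2 := Real.sqrt_nonneg (r : ℝ)
  nlinarith

theorem GI_geo (k : ℕ) (hk : 1 ≤ k) (n : ℤ) :
    ∑ u ∈ range k, ee (u * ((n : ℝ) / k)) = if (k : ℤ) ∣ n then (k : ℂ) else 0 := by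
  have hk0 : (k : ℝ) ≠ 0 := by
    have : (0 : ℝ) < k := by exact_mod_cast hk
    exact ne_of_gt this
  by_cases h : (k : ℤ) ∣ n
  · rw [if_pos h]
    obtain ⟨m, rfl⟩ := h
    have h1 : ∀ u ∈ range k, ee (u * ((((k : ℤ) * m : ℤ) : ℝ) / k)) = 1 := by
      intro u _
      have h2 : (u : ℝ) * ((((k : ℤ) * m : ℤ) : ℝ) / k) = (((u : ℤ) * m : ℤ) : ℝ) := by
        push_cast
        field_simp
      rw [h2, Wb58c63.ee_int]
    rw [Finset.sum_congr rfl h1]
    simp
  · rw [if_neg h]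
    refine GI_vanish (fun u => ee (u * ((n : ℝ) / k))) k 1 (ee ((n : ℝ) / k)) ?_ ?_ ?_
    · intro h1
      obtain ⟨m, hm⟩ := GI_ee_one h1
      refine h ⟨m, ?_⟩
      rw [div_eq_iff hk0] at hm
      have : (n : ℝ) = ((k : ℤ) * m : ℤ) := by
        push_cast
        linarith
      exact_mod_cast this
    · intro u
      exact GI_ee_nat k hk n u
    · intro u
      change ee (((u + 1 : ℕ) : ℝ) * ((n : ℝ) / k)) = ee ((n : ℝ) / k) * ee (u * ((n : ℝ) / k))
      rw [← Wb58c63.ee_add]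
      congr 1
      push_cast
      ring

theorem GI_moeb (m : ℕ) (hm : 1 ≤ m) (a : ℤ) (ha : Int.gcd a m = 1) :
    cR m a = (ArithmeticFunction.moebius m : ℝ) := by
  unfold cR
  have h1 : m.divisors.filter (fun d : ℕ => (d : ℤ) ∣ a) = {1} := by
    ext d
    rw [Finset.mem_filter, Nat.mem_divisors, Finset.mem_singleton]
    constructor
    · rintro ⟨⟨h2, _⟩, h3⟩
      have h4 : (d : ℤ) ∣ (Int.gcd a m : ℤ) := Int.dvd_coe_gcd h3 (by exact_mod_cast h2)
      rw [ha] at h4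
      have h5 : d ∣ 1 := by exact_mod_cast h4
      exact Nat.dvd_one.1 h5
    · rintro rfl
      exact ⟨⟨one_dvd _, by omega⟩, by simp⟩
  rw [h1, Finset.sum_singleton, Nat.div_one, Nat.cast_one, one_mul]

theorem GI_moeb_sum (m : ℕ) (hm : 1 ≤ m) (a : ℤ) (ha : Int.gcd a m = 1) :
    ∑ y ∈ (range m).filter (fun y => y.Coprime m), ee (y * ((a : ℝ) / m)) =
      (ArithmeticFunction.moebius m : ℂ) := by
  have h1 := cR_exp m hm a
  rw [GI_moeb m hm a ha] at h1
  push_cast at h1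
  rw [h1]
  refine Finset.sum_congr rfl fun i _ => ?_
  congr 1
  ring

theorem GI_cop (r m x y : ℕ) (h : m.Coprime r) :
    (m * x + r * y).Coprime (r * m) ↔ x.Coprime r ∧ y.Coprime m := by
  rw [Nat.coprime_mul_iff_right, Nat.coprime_add_mul_left_left, Nat.coprime_mul_left_add_left,
    Nat.coprime_mul_iff_left, Nat.coprime_mul_iff_left]
  constructor
  · rintro ⟨⟨_, h1⟩, _, h2⟩
    exact ⟨h1, h2⟩
  · rintro ⟨h1, h2⟩
    exact ⟨⟨h, h1⟩, h.symm, h2⟩

theorem GI_ee_split (r k : ℕ) (hr : 1 ≤ r) (hk : 1 ≤ k) (x y : ℕ) (a : ℤ) :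
    ee (((k * x + r * y : ℕ) : ℝ) * ((a : ℝ) / ((r * k : ℕ) : ℝ))) =
      ee (x * ((a : ℝ) / r)) * ee (y * ((a : ℝ) / k)) := by
  have hr0 : (r : ℝ) ≠ 0 := by
    have : (0 : ℝ) < r := by exact_mod_cast hr
    exact ne_of_gt this
  have hk0 : (k : ℝ) ≠ 0 := by
    have : (0 : ℝ) < k := by exact_mod_cast hk
    exact ne_of_gt this
  rw [← Wb58c63.ee_add]
  congr 1
  push_cast
  field_simp

theorem GI_chi {r : ℕ} (χ : DirichletCharacter ℂ r) (k x y : ℕ) :
    χ ((k * x + r * y : ℕ) : ZMod r) = χ (k : ZMod r) * χ (x : ZMod r) := by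
  rw [← map_mul]
  congr 1
  push_cast
  simp

theorem GI_chi_per {r : ℕ} (χ : DirichletCharacter ℂ r) (n m : ℕ) :
    χ ((n + r * m : ℕ) : ZMod r) = χ (n : ZMod r) := by
  congr 1
  push_cast
  simp

/-- **Gauss sums of induced characters.**

Proof. Let `q = r m`. `∑_{(b, q) = 1} conj χ(b) e(a b / q) = ∑_{d ∣ q} μ(d) ∑_{b mod q, d ∣ b} conj χ(b) e(a b / q)`. For `(d, r) > 1` the inner sum vanishes; for `(d, r) = 1` (so `d ∣ m`), with `b = d c`, it is `conj χ(d) ∑_{c mod q / d} conj χ(c) e(a c d / q)`, and writing `c = c₁ + r c₂` (`c₁ < r`, `c₂ < m / d`) the sum over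
`c₂` is `∑ e(a r c₂ d / q) = ∑ e(a c₂ / (m / d)) = 0` unless `m = d` (`(a, q) = 1`). So the sum is `0` unless `m` is squarefree and prime to `r`, and then it is `μ(m) conj χ(m) ∑_{c mod r} conj χ(c) e(a c / r)`, of norm at most `√r` (`gs_mul`, `gs_norm` of `W_b58c63_h68/LSc.lean`; for negative `a` use `a mod r`). -/
theorem GSum_eq (r : ℕ) [NeZero r] (χ : DirichletCharacter ℂ r) (hχ : χ.IsPrimitive) (m : ℕ) (hm : 1 ≤ m) (a : ℤ) (ha : Int.gcd a (r * m) = 1) :
    GSum χ (r * m) a = if m.Coprime r then (ArithmeticFunction.moebius m : ℂ) * (starRingEnd ℂ) (χ (m : ZMod r)) * GSum χ r a else 0 := by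
  have hr : 1 ≤ r := Nat.one_le_iff_ne_zero.2 (NeZero.ne r)
  have hrm : 1 ≤ r * m := Nat.mul_pos hr hm
  have ham : Int.gcd a m = 1 := by
    have h1 : (Int.gcd a m : ℤ) ∣ (Int.gcd a (r * m) : ℤ) :=
      Int.dvd_coe_gcd (Int.gcd_dvd_left ..) ((Int.gcd_dvd_right ..).mul_left _)
    rw [ha] at h1
    have h2 : Int.gcd a m ∣ 1 := by exact_mod_cast h1
    exact Nat.dvd_one.1 h2
  have hG : GSum χ (r * m) a = ∑ b ∈ range (r * m), if b.Coprime (r * m) then
      (starRingEnd ℂ) (χ (b : ZMod r)) * ee (b * ((a : ℝ) / ((r * m : ℕ) : ℝ))) else 0 := by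
    unfold GSum
    rw [Finset.sum_filter]
  have hper : ∀ n : ℕ, (if (n + r * m).Coprime (r * m) then
      (starRingEnd ℂ) (χ ((n + r * m : ℕ) : ZMod r)) *
        ee (((n + r * m : ℕ) : ℝ) * ((a : ℝ) / ((r * m : ℕ) : ℝ))) else 0) =
      if n.Coprime (r * m) then
      (starRingEnd ℂ) (χ (n : ZMod r)) * ee (n * ((a : ℝ) / ((r * m : ℕ) : ℝ))) else 0 := by
    intro n
    rw [GI_chi_per, GI_ee_nat _ hrm]
    simp only [Nat.coprime_add_self_left]
  by_cases hmr : m.Coprime r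
  · rw [if_pos hmr, hG, GI_crt (fun b => if b.Coprime (r * m) then
      (starRingEnd ℂ) (χ (b : ZMod r)) * ee (b * ((a : ℝ) / ((r * m : ℕ) : ℝ))) else 0)
      r m hr hm hmr hper]
    have h1 : ∀ x ∈ range r ×ˢ range m, (if (m * x.1 + r * x.2).Coprime (r * m) then
        (starRingEnd ℂ) (χ ((m * x.1 + r * x.2 : ℕ) : ZMod r)) *
          ee (((m * x.1 + r * x.2 : ℕ) : ℝ) * ((a : ℝ) / ((r * m : ℕ) : ℝ))) else 0) =
        (if x.1.Coprime r then (starRingEnd ℂ) (χ (m : ZMod r)) * ((starRingEnd ℂ) (χ (x.1 : ZMod r)) *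
          ee (x.1 * ((a : ℝ) / r))) else 0) *
        (if x.2.Coprime m then ee (x.2 * ((a : ℝ) / m)) else 0) := by
      intro x _
      rw [GI_chi, GI_ee_split r m hr hm, map_mul]
      by_cases hx : x.1.Coprime r
      · by_cases hy : x.2.Coprime m
        · rw [if_pos ((GI_cop r m _ _ hmr).2 ⟨hx, hy⟩), if_pos hx, if_pos hy]
          ring
        · rw [if_neg fun h => hy ((GI_cop r m _ _ hmr).1 h).2, if_neg hy, mul_zero]
      · rw [if_neg fun h => hx ((GI_cop r m _ _ hmr).1 h).1, if_neg hx, zero_mul]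
    have h2 : ∑ x ∈ range r ×ˢ range m,
        (if x.1.Coprime r then (starRingEnd ℂ) (χ (m : ZMod r)) * ((starRingEnd ℂ) (χ (x.1 : ZMod r)) *
          ee (x.1 * ((a : ℝ) / r))) else 0) *
        (if x.2.Coprime m then ee (x.2 * ((a : ℝ) / m)) else 0) =
        (∑ x ∈ range r, if x.Coprime r then (starRingEnd ℂ) (χ (m : ZMod r)) *
          ((starRingEnd ℂ) (χ (x : ZMod r)) * ee (x * ((a : ℝ) / r))) else 0) *
        ∑ y ∈ range m, (if y.Coprime m then ee (y * ((a : ℝ) / m)) else 0) := by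
      rw [Finset.sum_mul_sum, Finset.sum_product]
    rw [Finset.sum_congr rfl h1, h2, ← Finset.sum_filter, ← Finset.sum_filter,
      GI_moeb_sum m hm a ham, ← Finset.mul_sum]
    unfold GSum
    ring
  · rw [if_neg hmr, hG]
    obtain ⟨p, hp, hpm, hpr⟩ := Nat.Prime.not_coprime_iff_dvd.1 hmr
    obtain ⟨m', rfl⟩ := hpm
    have hp0 : (p : ℝ) ≠ 0 := by exact_mod_cast hp.ne_zero
    have hm' : m' ≠ 0 := by
      rintro rfl
      omega
    have hm0 : (m' : ℝ) ≠ 0 := by exact_mod_cast hm'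
    have hr0 : (r : ℝ) ≠ 0 := by exact_mod_cast (NeZero.ne r)
    refine GI_vanish (fun b => if b.Coprime (r * (p * m')) then
      (starRingEnd ℂ) (χ (b : ZMod r)) * ee (b * ((a : ℝ) / ((r * (p * m') : ℕ) : ℝ))) else 0)
      (r * (p * m')) (r * m') (ee ((a : ℝ) / p)) ?_ hper ?_
    · intro h1
      obtain ⟨n, hn⟩ := GI_ee_one h1
      rw [div_eq_iff hp0] at hn
      have h2 : a = (p : ℤ) * n := by
        have : (a : ℝ) = ((p : ℤ) * n : ℤ) := by
          push_cast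
          linarith
        exact_mod_cast this
      have h3 : (p : ℤ) ∣ (Int.gcd a ((p * m' : ℕ) : ℤ) : ℤ) :=
        Int.dvd_coe_gcd ⟨n, h2⟩ (by exact_mod_cast Dvd.intro m' rfl)
      rw [ham] at h3
      have h4 : p ∣ 1 := by exact_mod_cast h3
      exact hp.one_lt.ne' (Nat.dvd_one.1 h4)
    · intro n
      have h1 : (n + r * m').Coprime (r * (p * m')) ↔ n.Coprime (r * (p * m')) := by
        have h2 : ∀ z : ℕ, z.Coprime (r * (p * m')) ↔ z.Coprime (r * m') := by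
          intro z
          constructor
          · intro h3
            exact Nat.Coprime.coprime_dvd_right ⟨p, by ring⟩ h3
          · intro h3
            have h4 : z.Coprime p :=
              Nat.Coprime.coprime_dvd_right (hpr.trans (Dvd.intro m' rfl)) h3
            have h5 : r * (p * m') = p * (r * m') := by ring
            rw [h5]
            exact Nat.Coprime.mul_right h4 h3
        rw [h2, h2, Nat.coprime_add_self_left]
      have h6 : ee (((n + r * m' : ℕ) : ℝ) * ((a : ℝ) / ((r * (p * m') : ℕ) : ℝ))) =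
          ee ((a : ℝ) / p) * ee ((n : ℝ) * ((a : ℝ) / ((r * (p * m') : ℕ) : ℝ))) := by
        rw [← Wb58c63.ee_add]
        congr 1
        push_cast
        field_simp
        ring
      try dsimp only
      rw [GI_chi_per, h6]
      by_cases hn : n.Coprime (r * (p * m'))
      · rw [if_pos hn, if_pos (h1.2 hn)]
        ring
      · rw [if_neg hn, if_neg fun h => hn (h1.1 h), mul_zero]

/-- Proof. `GSum_eq` and `‖GSum χ r a‖ = √r` for `(a, r) = 1`. -/
theorem GSum_norm (r q : ℕ) [NeZero r] (χ : DirichletCharacter ℂ r) (hχ : χ.IsPrimitive) (hq : 1 ≤ q) (hr : r ∣ q) (a : ℤ) (ha : Int.gcd a q = 1) :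
    ‖GSum χ q a‖ ≤ Real.sqrt r := by
  obtain ⟨m, rfl⟩ := hr
  have hm : 1 ≤ m := by
    rcases Nat.eq_zero_or_pos m with h | h
    · subst h
      simp at hq
    · exact h
  rw [GSum_eq r χ hχ m hm a (by exact_mod_cast ha)]
  by_cases hmr : m.Coprime r
  · rw [if_pos hmr, norm_mul, norm_mul]
    have h1 : ‖(ArithmeticFunction.moebius m : ℂ)‖ ≤ 1 := by
      rw [Complex.norm_intCast]
      exact_mod_cast ArithmeticFunction.abs_moebius_le_one
    have h2 : ‖(starRingEnd ℂ) (χ (m : ZMod r))‖ ≤ 1 := by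
      rw [Complex.norm_conj]
      exact DirichletCharacter.norm_le_one χ _
    have h3 := GI_G_norm r χ hχ a
    calc ‖(ArithmeticFunction.moebius m : ℂ)‖ * ‖(starRingEnd ℂ) (χ (m : ZMod r))‖ * ‖GSum χ r a‖
        ≤ 1 * 1 * Real.sqrt r := by gcongr
      _ = Real.sqrt r := by ring
  · rw [if_neg hmr, norm_zero]
    exact Real.sqrt_nonneg _

theorem GI_cR_mul (r k : ℕ) (h : k.Coprime r) (x y : ℕ) :
    cR k ((k * x + r * y : ℕ) : ℤ) = cR k (y : ℤ) := by
  unfold cR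
  congr 1
  refine Finset.filter_congr fun d hd => ?_
  have hdk : d ∣ k := Nat.dvd_of_mem_divisors hd
  have hdr : d.Coprime r := Nat.Coprime.coprime_dvd_left hdk h
  have h1 : ((d : ℤ) ∣ ((k * x + r * y : ℕ) : ℤ)) ↔ d ∣ k * x + r * y := by
    exact_mod_cast Iff.rfl
  have h2 : ((d : ℤ) ∣ (y : ℤ)) ↔ d ∣ y := by exact_mod_cast Iff.rfl
  rw [h1, h2, Nat.dvd_add_right (hdk.mul_right x)]
  exact ⟨fun h3 => Nat.Coprime.dvd_of_dvd_mul_left hdr h3, fun h3 => h3.mul_left r⟩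

theorem GI_ram (k : ℕ) (hk : 1 ≤ k) (j : ℤ) :
    ∑ u ∈ range k, (cR k u : ℂ) * ee (u * ((j : ℝ) / k)) =
      if Int.gcd j k = 1 then (k : ℂ) else 0 := by
  have hk0 : (k : ℤ) ≠ 0 := by exact_mod_cast (Nat.one_le_iff_ne_zero.1 hk)
  have h1 : ∀ u ∈ range k, (cR k u : ℂ) * ee (u * ((j : ℝ) / k)) =
      ∑ i ∈ (range k).filter (fun i => i.Coprime k), ee (u * (((i + j : ℤ) : ℝ) / k)) := by
    intro u _
    rw [cR_exp k hk u, Finset.sum_mul]
    refine Finset.sum_congr rfl fun i _ => ?_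
    rw [← Wb58c63.ee_add]
    congr 1
    push_cast
    ring
  rw [Finset.sum_congr rfl h1, Finset.sum_comm]
  have h2 : ∀ i ∈ (range k).filter (fun i => i.Coprime k),
      ∑ u ∈ range k, ee (u * (((i + j : ℤ) : ℝ) / k)) =
      if (k : ℤ) ∣ (i : ℤ) + j then (k : ℂ) else 0 := by
    intro i _
    exact GI_geo k hk (i + j)
  rw [Finset.sum_congr rfl h2]
  obtain ⟨i0, hi0⟩ : ∃ i0 : ℕ, (i0 : ℤ) = (-j) % k :=
    ⟨((-j) % k).toNat, Int.toNat_of_nonneg (Int.emod_nonneg _ hk0)⟩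
  have hlt : i0 < k := by
    have : (i0 : ℤ) < k := by
      rw [hi0]
      exact Int.emod_lt_of_pos _ (by exact_mod_cast hk)
    exact_mod_cast this
  have hdv : (k : ℤ) ∣ (i0 : ℤ) + j := by
    rw [hi0]
    have := Int.emod_add_mul_ediv (-j) k
    refine ⟨-((-j) / k), ?_⟩
    linarith
  have hiff : ∀ i ∈ range k, (k : ℤ) ∣ (i : ℤ) + j ↔ i = i0 := by
    intro i hi
    rw [Finset.mem_range] at hi
    constructor
    · intro h
      have h3 : (k : ℤ) ∣ (i : ℤ) - i0 := by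
        have := dvd_sub h hdv
        have e : (i : ℤ) + j - (i0 + j) = i - i0 := by ring
        rwa [e] at this
      have h4 : i ≡ i0 [MOD k] := by
        refine ((Nat.modEq_iff_dvd (n := k) (a := i0) (b := i)).2 ?_).symm
        exact h3
      exact Nat.ModEq.eq_of_lt_of_lt h4 hi hlt
    · rintro rfl
      exact hdv
  have hgcd : i0.Coprime k ↔ Int.gcd j k = 1 := by
    obtain ⟨c, hc⟩ := hdv
    have h3 : j = k * c - i0 := by linarith
    have h4 : Int.gcd j k = Int.gcd (i0 : ℤ) k := by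
      rw [h3]
      apply Nat.dvd_antisymm
      · refine Int.dvd_gcd ?_ (Int.gcd_dvd_right ..)
        have e1 : (Int.gcd ((k : ℤ) * c - i0) k : ℤ) ∣ (k : ℤ) * c - i0 := Int.gcd_dvd_left ..
        have e2 : (Int.gcd ((k : ℤ) * c - i0) k : ℤ) ∣ (k : ℤ) * c :=
          (Int.gcd_dvd_right ..).mul_right c
        have e3 := dvd_sub e2 e1
        have e4 : (k : ℤ) * c - (k * c - i0) = i0 := by ring
        rwa [e4] at e3
      · refine Int.dvd_gcd ?_ (Int.gcd_dvd_right ..)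
        have e1 : (Int.gcd (i0 : ℤ) k : ℤ) ∣ (i0 : ℤ) := Int.gcd_dvd_left ..
        have e2 : (Int.gcd (i0 : ℤ) k : ℤ) ∣ (k : ℤ) * c := (Int.gcd_dvd_right ..).mul_right c
        exact dvd_sub e2 e1
    rw [h4, Int.gcd_natCast_natCast]
  rw [Finset.sum_filter]
  have h5 : ∀ i ∈ range k, (if i.Coprime k then (if (k : ℤ) ∣ (i : ℤ) + j then (k : ℂ) else 0) else 0) =
      if i = i0 then (if i0.Coprime k then (k : ℂ) else 0) else 0 := by
    intro i hi
    by_cases h6 : i = i0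
    · subst h6
      rw [if_pos rfl, if_pos ((hiff i hi).2 rfl)]
    · rw [if_neg h6, if_neg fun h => h6 ((hiff i hi).1 h)]
      simp
  rw [Finset.sum_congr rfl h5, Finset.sum_ite_eq', if_pos (Finset.mem_range.2 hlt)]
  by_cases h6 : Int.gcd j k = 1
  · rw [if_pos h6, if_pos (hgcd.2 h6)]
  · rw [if_neg h6, if_neg fun h => h6 (hgcd.1 h)]

theorem GI_F_per (r k : ℕ) (χ : DirichletCharacter ℂ r) (n : ℕ) :
    (starRingEnd ℂ) (χ ((n + r * k : ℕ) : ZMod r)) * (cR k ((n + r * k : ℕ) : ℤ) : ℂ) =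
      (starRingEnd ℂ) (χ (n : ZMod r)) * (cR k (n : ℤ) : ℂ) := by
  rw [GI_chi_per, cR_congr k k dvd_rfl ((n + r * k : ℕ) : ℤ) (n : ℤ) ⟨r, by push_cast; ring⟩]

theorem GI_prod (r k : ℕ) [NeZero r] (χ : DirichletCharacter ℂ r) (hχ : χ.IsPrimitive) (hk : 1 ≤ k)
    (hrk : k.Coprime r) (j : ℤ) :
    ∑ u ∈ range (r * k), (starRingEnd ℂ) (χ (u : ZMod r)) * (cR k u : ℂ) *
        ee (u * ((j : ℝ) / ((r * k : ℕ) : ℝ))) =
      (starRingEnd ℂ) (χ (k : ZMod r)) * (χ (j : ZMod r) * Wb58c63.gs χ 1) *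
        (if Int.gcd j k = 1 then (k : ℂ) else 0) := by
  have hr : 1 ≤ r := Nat.one_le_iff_ne_zero.2 (NeZero.ne r)
  have hrk1 : 1 ≤ r * k := Nat.mul_pos hr hk
  rw [GI_crt (fun u => (starRingEnd ℂ) (χ (u : ZMod r)) * (cR k u : ℂ) *
        ee (u * ((j : ℝ) / ((r * k : ℕ) : ℝ)))) r k hr hk hrk (fun n => by
      try dsimp only
      rw [GI_F_per, GI_ee_nat _ hrk1])]
  have h1 : ∀ x ∈ range r ×ˢ range k, (starRingEnd ℂ) (χ ((k * x.1 + r * x.2 : ℕ) : ZMod r)) *
      (cR k ((k * x.1 + r * x.2 : ℕ) : ℤ) : ℂ) *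
        ee (((k * x.1 + r * x.2 : ℕ) : ℝ) * ((j : ℝ) / ((r * k : ℕ) : ℝ))) =
      ((starRingEnd ℂ) (χ (k : ZMod r)) * ((starRingEnd ℂ) (χ (x.1 : ZMod r)) *
        ee (x.1 * ((j : ℝ) / r)))) * ((cR k (x.2 : ℤ) : ℂ) * ee (x.2 * ((j : ℝ) / k))) := by
    intro x _
    rw [GI_chi, GI_ee_split r k hr hk, GI_cR_mul r k hrk, map_mul]
    ring
  rw [Finset.sum_congr rfl h1, Finset.sum_product]
  try dsimp only
  rw [← Finset.sum_mul_sum, ← Finset.mul_sum, GI_T r χ hχ, GI_ram k hk]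

theorem GI_gcd_r (r : ℕ) [NeZero r] (χ : DirichletCharacter ℂ r) (j : ℤ) (h : χ (j : ZMod r) ≠ 0) :
    Int.gcd j r = 1 := by
  have h1 : IsUnit (j : ZMod r) := by
    by_contra h2
    exact h (MulChar.map_nonunit χ h2)
  have h2 : IsCoprime (j : ℤ) (r : ℤ) := by
    rw [isCoprime_comm]
    exact (ZMod.coe_int_isUnit_iff_isCoprime j r).1 h1
  exact Int.isCoprime_iff_gcd_eq_one.1 h2

theorem GI_mean_ne (r k q : ℕ) [NeZero r] (χ : DirichletCharacter ℂ r) (hχ : χ.IsPrimitive) (hk : 1 ≤ k)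
    (hrk : k.Coprime r) (hq : 1 ≤ q) (a : ℤ) (ha : Int.gcd a q = 1) (hne : q ≠ r * k) :
    ∑ u ∈ range (r * k * q), (starRingEnd ℂ) (χ (u : ZMod r)) * (cR k u : ℂ) *
      ee (u * ((a : ℝ) / q)) = 0 := by
  have hr : 1 ≤ r := Nat.one_le_iff_ne_zero.2 (NeZero.ne r)
  have hrk1 : 1 ≤ r * k := Nat.mul_pos hr hk
  have hq0 : (q : ℝ) ≠ 0 := by
    have : (0 : ℝ) < q := by exact_mod_cast hq
    exact ne_of_gt this
  by_cases hdvd : q ∣ r * k
  · obtain ⟨t, ht⟩ := hdvd
    have ht0 : t ≠ 0 := by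
      rintro rfl
      omega
    have htR : (t : ℝ) ≠ 0 := by exact_mod_cast ht0
    have h1 : ∀ u : ℕ, (starRingEnd ℂ) (χ (u : ZMod r)) * (cR k u : ℂ) * ee (u * ((a : ℝ) / q)) =
        (starRingEnd ℂ) (χ (u : ZMod r)) * (cR k u : ℂ) *
          ee (u * (((a * t : ℤ) : ℝ) / ((r * k : ℕ) : ℝ))) := by
      intro u
      congr 3
      rw [ht]
      push_cast
      field_simp
    rw [Finset.sum_congr rfl fun u _ => h1 u, GI_rep (fun u => (starRingEnd ℂ) (χ (u : ZMod r)) *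
      (cR k u : ℂ) * ee (u * (((a * t : ℤ) : ℝ) / ((r * k : ℕ) : ℝ)))) (r * k) q (fun n => by
      try dsimp only
      rw [GI_F_per, GI_ee_nat _ hrk1]), GI_prod r k χ hχ hk hrk]
    by_cases h2 : χ ((a * t : ℤ) : ZMod r) = 0
    · rw [h2]
      ring
    · by_cases h3 : Int.gcd (a * t) k = 1
      · exfalso
        have h4 := GI_gcd_r r χ _ h2
        have h5 : IsCoprime (a * t : ℤ) ((r * k : ℕ) : ℤ) := by
          push_cast
          exact IsCoprime.mul_right (Int.isCoprime_iff_gcd_eq_one.2 h4)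
            (Int.isCoprime_iff_gcd_eq_one.2 h3)
        have h6 : IsCoprime (t : ℤ) ((r * k : ℕ) : ℤ) := h5.of_mul_left_right
        have h7 : t.Coprime (r * k) := Nat.isCoprime_iff_coprime.1 h6
        have h8 : t ∣ r * k := ⟨q, by rw [ht]; ring⟩
        have h9 : t = 1 := Nat.Coprime.eq_one_of_dvd h7 h8
        rw [h9, mul_one] at ht
        exact hne ht.symm
      · rw [if_neg h3]
        ring
  · refine GI_vanish (fun u => (starRingEnd ℂ) (χ (u : ZMod r)) * (cR k u : ℂ) *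
      ee (u * ((a : ℝ) / q))) (r * k * q) (r * k) (ee (((r * k : ℕ) : ℝ) * ((a : ℝ) / q))) ?_ ?_ ?_
    · intro h1
      obtain ⟨n, hn⟩ := GI_ee_one h1
      rw [← mul_div_assoc, div_eq_iff hq0] at hn
      have h2 : ((r * k : ℕ) : ℤ) * a = n * q := by exact_mod_cast hn
      have h3 : (q : ℤ) ∣ ((r * k : ℕ) : ℤ) * a := ⟨n, by rw [h2]; ring⟩
      have h4 : IsCoprime (q : ℤ) a := (Int.isCoprime_iff_gcd_eq_one.2 ha).symm
      have h5 : (q : ℤ) ∣ ((r * k : ℕ) : ℤ) := h4.dvd_of_dvd_mul_right h3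
      exact hdvd (by exact_mod_cast h5)
    · intro n
      have h1 : ∀ m : ℕ, (starRingEnd ℂ) (χ ((n + r * k * m : ℕ) : ZMod r)) *
          (cR k ((n + r * k * m : ℕ) : ℤ) : ℂ) =
          (starRingEnd ℂ) (χ (n : ZMod r)) * (cR k (n : ℤ) : ℂ) := by
        intro m
        have := GI_per (fun n => (starRingEnd ℂ) (χ (n : ZMod r)) * (cR k (n : ℤ) : ℂ)) (r * k)
          (fun n => GI_F_per r k χ n) n m
        exact this
      try dsimp only
      rw [h1]
      congr 1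
      have h2 : (((n + r * k * q : ℕ) : ℝ) * ((a : ℝ) / q)) =
          (n : ℝ) * ((a : ℝ) / q) + (((r * k : ℕ) : ℤ) * a : ℤ) := by
        push_cast
        field_simp
      rw [h2, Wb58c63.ee_add, Wb58c63.ee_int, mul_one]
    · intro n
      try dsimp only
      rw [GI_F_per]
      have h2 : (((n + r * k : ℕ) : ℝ) * ((a : ℝ) / q)) =
          ((r * k : ℕ) : ℝ) * ((a : ℝ) / q) + (n : ℝ) * ((a : ℝ) / q) := by
        push_cast
        ring
      rw [h2, Wb58c63.ee_add]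
      ring

theorem GI_mean_eq (r k : ℕ) [NeZero r] (χ : DirichletCharacter ℂ r) (hχ : χ.IsPrimitive) (hk : 1 ≤ k)
    (hrk : k.Coprime r) (a : ℤ) (ha : Int.gcd a ((r * k : ℕ) : ℤ) = 1) :
    mean (r * k * (r * k)) (fun u => (starRingEnd ℂ) (χ (u : ZMod r)) * (cR k u : ℂ) *
      ee (u * ((a : ℝ) / ((r * k : ℕ) : ℝ)))) =
      (starRingEnd ℂ) (χ (k : ZMod r)) * GSum χ r a / r := by
  have hr : 1 ≤ r := Nat.one_le_iff_ne_zero.2 (NeZero.ne r)
  have hrk1 : 1 ≤ r * k := Nat.mul_pos hr hk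
  have hr0 : (r : ℂ) ≠ 0 := by exact_mod_cast (NeZero.ne r)
  have hk0 : (k : ℂ) ≠ 0 := by exact_mod_cast (Nat.one_le_iff_ne_zero.1 hk)
  have hak : Int.gcd a k = 1 := by
    have h1 : IsCoprime a ((r * k : ℕ) : ℤ) := Int.isCoprime_iff_gcd_eq_one.2 ha
    push_cast at h1
    exact Int.isCoprime_iff_gcd_eq_one.1 h1.of_mul_right_right
  unfold mean
  rw [GI_rep (fun u => (starRingEnd ℂ) (χ (u : ZMod r)) *
      (cR k u : ℂ) * ee (u * ((a : ℝ) / ((r * k : ℕ) : ℝ)))) (r * k) (r * k) (fun n => by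
      try dsimp only
      rw [GI_F_per, GI_ee_nat _ hrk1]), GI_prod r k χ hχ hk hrk, if_pos hak, GI_G r χ hχ]
  push_cast
  field_simp

/-- The frequencies of `conj χ(u) cR k u` are the fractions with denominator exactly `r k`.

Proof. `conj χ(u) = (1 / r) (conj τ)(...)`: for primitive `χ` modulo `r`, `conj χ(u) = r^(-1) ∑_{j < r, (j, r) = 1} t_j e(j u / r)` with `t_j = ∑_b conj χ(b) e(-j b / r)` (finite Fourier expansion; `t_j = 0` for `(j, r) > 1` by primitivity, `|t_j| = √r` otherwise). `cR k u = ∑_{(i, k) = 1} e(i u / k)` (`cR_exp`). The product has the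
frequencies `j / r + i / k = (j k + i r) / (r k)` with `(j k + i r, r k) = 1`, all different modulo `1` (Chinese remainder theorem). So the mean of the product with `e(u a / q)`, `(a, q) = 1`, is `0` unless `-a / q` is one of these fractions modulo `1`, which needs `q = r k`, and then it has norm `√r / r`. -/
theorem mean_model (r k q : ℕ) [NeZero r] (χ : DirichletCharacter ℂ r) (hχ : χ.IsPrimitive) (hk : Squarefree k) (hrk : k.Coprime r) (hq : 1 ≤ q)
    (a : ℤ) (ha : Int.gcd a q = 1) :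
    (q ≠ r * k → mean (r * k * q) (fun u => (starRingEnd ℂ) (χ (u : ZMod r)) * (cR k u : ℂ) * ee (u * ((a : ℝ) / q))) = 0) ∧
    (q = r * k → ‖mean (r * k * q) (fun u => (starRingEnd ℂ) (χ (u : ZMod r)) * (cR k u : ℂ) * ee (u * ((a : ℝ) / q)))‖ ≤ 1 / Real.sqrt r ∧
      (cW r k : ℂ) * mean (r * k * q) (fun u => (starRingEnd ℂ) (χ (u : ZMod r)) * (cR k u : ℂ) * ee (u * ((a : ℝ) / q))) =
        (1 / (q.totient : ℂ)) * GSum χ q a) := by
  have hk1 : 1 ≤ k := Nat.one_le_iff_ne_zero.2 hk.ne_zero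
  have hr : 1 ≤ r := Nat.one_le_iff_ne_zero.2 (NeZero.ne r)
  refine ⟨fun hne => ?_, fun heq => ?_⟩
  · unfold mean
    rw [GI_mean_ne r k q χ hχ hk1 hrk hq a ha hne, zero_div]
  · subst heq
    rw [GI_mean_eq r k χ hχ hk1 hrk a ha]
    have hr0 : (r : ℂ) ≠ 0 := by exact_mod_cast (NeZero.ne r)
    constructor
    · rw [norm_div, norm_mul, Complex.norm_natCast, Complex.norm_conj]
      have h2 : ‖χ (k : ZMod r)‖ ≤ 1 := DirichletCharacter.norm_le_one χ _
      have h3 := GI_G_norm r χ hχ a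
      have hrR : (0 : ℝ) < r := by exact_mod_cast hr
      rw [div_le_div_iff₀ hrR (Real.sqrt_pos.2 hrR)]
      have h4 := Real.mul_self_sqrt hrR.le
      have h5 := Real.sqrt_nonneg (r : ℝ)
      calc ‖χ (k : ZMod r)‖ * ‖GSum χ r a‖ * Real.sqrt r ≤ 1 * Real.sqrt r * Real.sqrt r := by gcongr
        _ = 1 * r := by rw [one_mul, h4, one_mul]
    · rw [GSum_eq r χ hχ k hk1 a (by exact_mod_cast ha), if_pos hrk]
      unfold cW
      have hφ : ((r * k).totient : ℂ) = (r.totient : ℂ) * (k.totient : ℂ) := by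
        rw [Nat.totient_mul hrk.symm]
        push_cast
        rfl
      rw [hφ]
      have h6 : (r.totient : ℂ) ≠ 0 := by
        exact_mod_cast (Nat.totient_pos.2 hr).ne'
      have h7 : (k.totient : ℂ) ≠ 0 := by
        exact_mod_cast (Nat.totient_pos.2 hk1).ne'
      push_cast
      field_simp

theorem GI_LL (Q r q : ℕ) [NeZero r] (χ : DirichletCharacter ℂ r) (hχ : χ.IsPrimitive) (hq : 1 ≤ q)
    (a : ℤ) (ha : Int.gcd a q = 1) :
    (∀ k ∈ KK Q r, q = r * k → LL Q χ q a = (1 / (q.totient : ℂ)) * GSum χ q a) ∧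
    ((∀ k ∈ KK Q r, q ≠ r * k) → LL Q χ q a = 0) := by
  have hr : 1 ≤ r := Nat.one_le_iff_ne_zero.2 (NeZero.ne r)
  have h0 : ∀ k ∈ KK Q r, q ≠ r * k → (cW r k : ℂ) *
      mean (r * k * q) (fun u => (starRingEnd ℂ) (χ (u : ZMod r)) * (cR k u : ℂ) *
        ee (u * ((a : ℝ) / q))) = 0 := by
    intro k hk hne
    have hk2 := (Finset.mem_filter.1 hk).2
    rw [(mean_model r k q χ hχ hk2.1 hk2.2 hq a ha).1 hne, mul_zero]
  refine ⟨fun k hk heq => ?_, fun h => ?_⟩
  · unfold LL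
    have hk2 := (Finset.mem_filter.1 hk).2
    rw [Finset.sum_eq_single k, ((mean_model r k q χ hχ hk2.1 hk2.2 hq a ha).2 heq).2]
    · intro k' hk' hne
      refine h0 k' hk' fun h1 => hne ?_
      exact Nat.eq_of_mul_eq_mul_left hr (h1.symm.trans heq)
    · intro h1
      exact absurd hk h1
  · unfold LL
    exact Finset.sum_eq_zero fun k hk => h0 k hk (h k hk)

/-- **The coefficients of the model.**

Proof. By `mean_model` only `k = q / r` can contribute. If `q ≤ Q` and `r ∣ q`: if `k = q / r` is squarefree and prime to `r` it is in `KK Q r`, and the term is `GSum χ q a / φ(q)`; otherwise the sum is `0` and so is `GSum χ q a` (`GSum_eq`). If `r ∤ q` there is no term. Bounds: for `q = r k`, `k ∈ KK Q r`: `|cW r k| / √r ≤ √r / (φ(r) φ(k)) ≤ √q / φ(q)`, and `q = r k ≤ r Q`. -/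
theorem LL_facts (Q r q : ℕ) [NeZero r] (χ : DirichletCharacter ℂ r) (hχ : χ.IsPrimitive) (hq : 1 ≤ q) (a : ℤ) (ha : Int.gcd a q = 1) :
    (q ≤ Q → r ∣ q → LL Q χ q a = (1 / (q.totient : ℂ)) * GSum χ q a) ∧ (¬ r ∣ q → LL Q χ q a = 0) ∧ (r * Q < q → LL Q χ q a = 0) ∧
    ‖LL Q χ q a‖ ≤ Real.sqrt q / q.totient := by
  have hr : 1 ≤ r := Nat.one_le_iff_ne_zero.2 (NeZero.ne r)
  obtain ⟨hA, hB⟩ := GI_LL Q r q χ hχ hq a ha
  refine ⟨fun hqQ hrq => ?_, fun hrq => ?_, fun hlt => ?_, ?_⟩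
  · obtain ⟨m, hm⟩ := hrq
    have hm1 : 1 ≤ m := by
      rcases Nat.eq_zero_or_pos m with h | h
      · subst h
        simp at hm
        omega
      · exact h
    by_cases hmk : m ∈ KK Q r
    · exact hA m hmk hm
    · rw [hB]
      · have h1 : GSum χ q a = 0 := by
          subst hm
          rw [GSum_eq r χ hχ m hm1 a (by exact_mod_cast ha)]
          by_cases hc : m.Coprime r
          · rw [if_pos hc]
            have h2 : ¬ Squarefree m := by
              intro h3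
              refine hmk (Finset.mem_filter.2 ⟨Finset.mem_Icc.2 ⟨hm1, ?_⟩, h3, hc⟩)
              calc m = 1 * m := (one_mul m).symm
                _ ≤ r * m := Nat.mul_le_mul_right m hr
                _ ≤ Q := hqQ
            rw [ArithmeticFunction.moebius_eq_zero_of_not_squarefree h2]
            simp
          · rw [if_neg hc]
        rw [h1, mul_zero]
      · intro k hk heq
        have : k = m := Nat.eq_of_mul_eq_mul_left hr (heq.symm.trans hm)
        subst this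
        exact hmk hk
  · exact hB fun k _ heq => hrq ⟨k, heq⟩
  · refine hB fun k hk heq => ?_
    have hkQ : k ≤ Q := (Finset.mem_Icc.1 (Finset.mem_filter.1 hk).1).2
    have h1 : r * k ≤ r * Q := Nat.mul_le_mul_left r hkQ
    omega
  · by_cases hex : ∃ k ∈ KK Q r, q = r * k
    · obtain ⟨k, hk, heq⟩ := hex
      rw [hA k hk heq, norm_mul, norm_div, norm_one, Complex.norm_natCast]
      have h1 := GSum_norm r q χ hχ hq ⟨k, heq⟩ a ha
      have h2 : Real.sqrt r ≤ Real.sqrt q := by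
        refine Real.sqrt_le_sqrt ?_
        have h3 : r ≤ q := Nat.le_of_dvd hq ⟨k, heq⟩
        exact_mod_cast h3
      have h3 : (0 : ℝ) ≤ q.totient := Nat.cast_nonneg _
      calc 1 / (q.totient : ℝ) * ‖GSum χ q a‖ ≤ 1 / (q.totient : ℝ) * Real.sqrt q := by
            gcongr
            exact h1.trans h2
        _ = Real.sqrt q / q.totient := by ring
    · rw [hB fun k hk heq => hex ⟨k, hk, heq⟩, norm_zero]
      positivity

end Pool.Agent.PSG
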