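import Pool.Agent.W_b58c63_h44.PS
import Pool.Agent.W_b58c63_h44.CI
import Pool.Agent.W_b58c63_h44.GI

/-!
# The model near a rational number
-/

set_option autoImplicit false

noncomputable section

open Finset Complex MeasureTheory

namespace Pool.Agent.PSG

open Pool.Agent.Wb58c63 (prim ee)

theorem FMn_num (ε₁ : ℝ) (hε : 0 < ε₁) (hε1 : ε₁ ≤ 1 / 100) (J : ℕ) (hJ : 20 / ε₁ ≤ J) (C₁ C₂ C₃ : ℝ)
    (h1 : 1 ≤ C₁) (h2 : 1 ≤ C₂) (h3 : 1 ≤ C₃) (X : ℝ) (hX : 64 ≤ X) (hX3 : 4 * C₃ ≤ X ^ ε₁) (M : ℝ) (hM1 : 1 ≤ M)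
    (hM : M ≤ X ^ (2 * ε₁)) (q : ℝ) (hq1 : 1 ≤ q) (hq : q ≤ Real.sqrt X * X ^ (-(6 * ε₁))) (W : ℝ) (hW : 0 ≤ W)
    (P₀ : ℝ) (hP0 : 0 ≤ P₀) (hP : P₀ ≤ X ^ ε₁) :
    C₁ * (C₃ * W) * P₀ * M * Real.sqrt X * (2 * q * M * (C₃ * (1 + X ^ (2 * ε₁))) / Real.sqrt X) ^ J +
      P₀ * (C₂ * (C₃ * W) * Real.sqrt X * (C₃ * (1 + X ^ (2 * ε₁)) / Real.sqrt X) ^ J) ≤
      (C₁ + C₂) * C₃ * W * X ^ (-(19 : ℝ)) := by
  have hX1 : 1 ≤ X := by linarith
  have hX0 : 0 < X := by linarith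
  have hY : 0 < Real.sqrt X := Real.sqrt_pos.2 hX0
  have hT1 : 1 ≤ X ^ (2 * ε₁) := Real.one_le_rpow hX1 (by positivity)
  set B := C₃ * (1 + X ^ (2 * ε₁)) with hB
  have hB0 : 0 < B := by positivity
  have hB2 : B ≤ 2 * C₃ * X ^ (2 * ε₁) := by
    rw [hB]
    nlinarith
  set z := 2 * q * M * B / Real.sqrt X with hz
  have hz0 : 0 ≤ z := by positivity
  have hBz : B / Real.sqrt X ≤ z := by
    rw [hz]
    apply div_le_div_of_nonneg_right _ hY.le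
    have h5 : 1 ≤ 2 * q * M := by nlinarith
    nlinarith
  have hz1 : z ≤ X ^ (-ε₁) := by
    rw [hz, div_le_iff₀ hY]
    calc 2 * q * M * B ≤ 2 * (Real.sqrt X * X ^ (-(6 * ε₁))) * X ^ (2 * ε₁) * (2 * C₃ * X ^ (2 * ε₁)) := by
          apply mul_le_mul _ hB2 hB0.le (by positivity)
          apply mul_le_mul _ hM (by linarith) (by positivity)
          linarith
      _ = 4 * C₃ * (X ^ (-(6 * ε₁)) * X ^ (2 * ε₁) * X ^ (2 * ε₁)) * Real.sqrt X := by ring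
      _ ≤ X ^ ε₁ * (X ^ (-(6 * ε₁)) * X ^ (2 * ε₁) * X ^ (2 * ε₁)) * Real.sqrt X := by
          apply mul_le_mul_of_nonneg_right _ hY.le
          exact mul_le_mul_of_nonneg_right hX3 (by positivity)
      _ = X ^ (-ε₁) * Real.sqrt X := by
          rw [← Real.rpow_add hX0, ← Real.rpow_add hX0, ← Real.rpow_add hX0]
          congr 2
          ring
  have hzJ : z ^ J ≤ X ^ (-(20 : ℝ)) := by
    calc z ^ J ≤ (X ^ (-ε₁)) ^ J := pow_le_pow_left₀ hz0 hz1 J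
      _ = X ^ (-ε₁ * J) := by rw [← Real.rpow_natCast, ← Real.rpow_mul hX0.le]
      _ ≤ X ^ (-(20 : ℝ)) := by
          apply Real.rpow_le_rpow_of_exponent_le hX1
          rw [div_le_iff₀ hε] at hJ
          linarith
  have hBJ : (B / Real.sqrt X) ^ J ≤ X ^ (-(20 : ℝ)) := (pow_le_pow_left₀ (by positivity) hBz J).trans hzJ
  have h20 : 0 ≤ X ^ (-(20 : ℝ)) := Real.rpow_nonneg hX0.le _
  have hfin : X ^ ε₁ * X ^ (2 * ε₁) * Real.sqrt X * X ^ (-(20 : ℝ)) ≤ X ^ (-(19 : ℝ)) := by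
    rw [Real.sqrt_eq_rpow, ← Real.rpow_add hX0, ← Real.rpow_add hX0, ← Real.rpow_add hX0]
    apply Real.rpow_le_rpow_of_exponent_le hX1
    linarith
  have e1 : P₀ * M * Real.sqrt X * z ^ J ≤ X ^ (-(19 : ℝ)) := by
    refine le_trans ?_ hfin
    apply mul_le_mul _ hzJ (by positivity) (by positivity)
    apply mul_le_mul_of_nonneg_right _ hY.le
    exact mul_le_mul hP hM (by linarith) (by positivity)
  have e2 : P₀ * Real.sqrt X * (B / Real.sqrt X) ^ J ≤ X ^ (-(19 : ℝ)) := by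
    refine le_trans ?_ hfin
    apply mul_le_mul _ hBJ (by positivity) (by positivity)
    apply mul_le_mul_of_nonneg_right _ hY.le
    calc P₀ ≤ X ^ ε₁ := hP
      _ ≤ X ^ ε₁ * X ^ (2 * ε₁) := le_mul_of_one_le_right (by positivity) hT1
  calc _ = (C₁ * C₃ * W) * (P₀ * M * Real.sqrt X * z ^ J) + (C₂ * C₃ * W) * (P₀ * Real.sqrt X * (B / Real.sqrt X) ^ J) := by ring
    _ ≤ (C₁ * C₃ * W) * X ^ (-(19 : ℝ)) + (C₂ * C₃ * W) * X ^ (-(19 : ℝ)) :=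
        add_le_add (mul_le_mul_of_nonneg_left e1 (by positivity)) (mul_le_mul_of_nonneg_left e2 (by positivity))
    _ = _ := by ring

theorem FMn_cW (r k : ℕ) (hr : 1 ≤ r) (hk : 1 ≤ k) : |cW r k| ≤ r := by
  unfold cW
  have h1 : (1 : ℝ) ≤ r.totient := by
    have := Nat.totient_pos.2 hr
    exact_mod_cast this
  have h2 : (1 : ℝ) ≤ k.totient := by
    have := Nat.totient_pos.2 hk
    exact_mod_cast this
  have h3 : |(ArithmeticFunction.moebius k : ℝ)| ≤ 1 := by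
    have := ArithmeticFunction.abs_moebius_le_one (n := k)
    exact_mod_cast this
  rw [abs_mul, abs_div, abs_div, abs_of_nonneg (Nat.cast_nonneg r : (0 : ℝ) ≤ (r : ℝ)),
    abs_of_nonneg (Nat.cast_nonneg r.totient : (0 : ℝ) ≤ (r.totient : ℝ)),
    abs_of_nonneg (Nat.cast_nonneg k.totient : (0 : ℝ) ≤ (k.totient : ℝ))]
  calc (r : ℝ) / r.totient * (|(ArithmeticFunction.moebius k : ℝ)| / k.totient) ≤ (r : ℝ) * 1 := by
        apply mul_le_mul _ _ (by positivity) (Nat.cast_nonneg _)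
        · exact div_le_self (Nat.cast_nonneg _) h1
        · exact (div_le_self (abs_nonneg _) h2).trans h3
    _ = r := mul_one _

theorem FMn_wx_nonneg (δ X : ℝ) (hX : 0 < X) {r : ℕ} (χ : DirichletCharacter ℂ r) : 0 ≤ wx δ X χ := by
  unfold wx
  apply add_nonneg
  · unfold dl
    split_ifs <;> norm_num
  · apply Finset.sum_nonneg
    intro ρ _
    positivity

/-- **The model near a rational number.**

Proof. Let `T = X ^ (2 ε₁)`, `Q = ⌊X ^ ε₁⌋₊`, `J = ⌈20 / ε₁⌉`, `Y = √X`. For each `r ≤ Q`, `χ`, `k ∈ KK Q r` apply `per_near` to `P u = conj χ(u) cR k u`, with period `M = r k ≤ X ^ (2 ε₁)` (`cR_congr`), `P₀ = k ≤ Q` (`cR_le`), and `w = gx δ T X χ`: `IsW J A B`, `A = C wx ≤ 3 C` (`wx ≤ 1 + Wr (2 ε₁) δ X ≤ 3`, `sum_wx`), `B = C (1 + T)` (`isW_gx`). `|β| ≤ X ^ (6 ε₁) / (q Y) ≤ 1 / (2 q M)`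
because `2 X ^ (8 ε₁) ≤ √X`. The error is at most `C A Q M Y (2 q M B / Y) ^ J` with `2 q M B / Y ≤ 4 C X ^ (-6 ε₁ + 2 ε₁ + 2 ε₁) ≤ X ^ (-ε₁)`, so it is at most `X ^ (-10)`. Then `near_sum` (`|β| ≤ 1/2`): `∑_n w (n / Y) ee (n β) = Y ∫ w x ee (x Y β) dx + O(C A Y (B / Y) ^ J) = HH δ T X χ β + O(X ^ (-10))`. The coefficients
are `|cW r k| ≤ Q`, `‖mean‖ ≤ Q`, there are at most `Q ^ 3` triples `(r, χ, k)`. -/
theorem fM_near (ε₁ δ : ℝ) (hε : 0 < ε₁) (hε1 : ε₁ ≤ 1 / 100) (hδ : 0 < δ) (hδ1 : δ ≤ 1 / 16) : ∃ X₀ : ℝ, 3 ≤ X₀ ∧ ∀ X : ℝ, X₀ ≤ X → Wr (2 * ε₁) δ X ≤ 2 →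
    ∀ q : ℕ, 1 ≤ q → (q : ℝ) ≤ Real.sqrt X * X ^ (-(6 * ε₁)) → ∀ a : ℤ, Int.gcd a q = 1 → ∀ β : ℝ, |β| ≤ X ^ (6 * ε₁) / (q * Real.sqrt X) →
    ‖∑ n ∈ Icc 1 ⌊16 * Real.sqrt X⌋₊, fM δ (X ^ (2 * ε₁)) X ⌊X ^ ε₁⌋₊ n * ee (n * ((a : ℝ) / q + β)) -
      ∑ r ∈ Icc 1 ⌊X ^ ε₁⌋₊, ∑ χ ∈ prim r, LL ⌊X ^ ε₁⌋₊ χ q a * HH δ (X ^ (2 * ε₁)) X χ β‖ ≤ 1 := by
  set J : ℕ := ⌈20 / ε₁⌉₊ with hJdef
  have hJ : 20 / ε₁ ≤ J := Nat.le_ceil _
  have hJ2 : 2 ≤ J := by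
    have h1 : (20 : ℝ) ≤ 20 / ε₁ := by
      rw [le_div_iff₀ hε]
      linarith
    have h2 : (2 : ℝ) ≤ J := by linarith
    exact_mod_cast h2
  obtain ⟨C₁, hC₁, H1⟩ := per_near J hJ2
  obtain ⟨C₂, hC₂, H2⟩ := near_sum J hJ2
  obtain ⟨C₃, hC₃, H3⟩ := isW_gx J
  have hD : 0 ≤ (C₁ + C₂) * C₃ := by positivity
  have hp : 0 ≤ (4 * C₃) ^ (1 / ε₁) := by positivity
  refine ⟨64 + 3 * ((C₁ + C₂) * C₃) + (4 * C₃) ^ (1 / ε₁), by linarith, ?_⟩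
  intro X hX hWr q hq1 hq a ha β hβ
  have hX64 : 64 ≤ X := by linarith
  have hX1 : 1 ≤ X := by linarith
  have hX0 : 0 < X := by linarith
  have hY : 0 < Real.sqrt X := Real.sqrt_pos.2 hX0
  have hX3 : 4 * C₃ ≤ X ^ ε₁ := by
    calc 4 * C₃ = ((4 * C₃) ^ (1 / ε₁)) ^ ε₁ := by
          rw [← Real.rpow_mul (by linarith), one_div, inv_mul_cancel₀ hε.ne', Real.rpow_one]
      _ ≤ X ^ ε₁ := Real.rpow_le_rpow hp (by linarith) hε.le
  set Q := ⌊X ^ ε₁⌋₊ with hQ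
  have hQX : (Q : ℝ) ≤ X ^ ε₁ := Nat.floor_le (by positivity)
  have hT1 : 1 ≤ X ^ (2 * ε₁) := Real.one_le_rpow hX1 (by positivity)
  have hTX : X ^ (2 * ε₁) ≤ X := by
    calc X ^ (2 * ε₁) ≤ X ^ (1 : ℝ) := Real.rpow_le_rpow_of_exponent_le hX1 (by linarith)
      _ = X := Real.rpow_one X
  have hq1' : (1 : ℝ) ≤ q := by exact_mod_cast hq1
  have hterm : ∀ r ∈ Icc 1 Q, ∀ χ ∈ prim r, ∀ k ∈ KK Q r,
      ‖(cW r k : ℂ) * (∑ n ∈ Icc 1 ⌊16 * Real.sqrt X⌋₊, ((starRingEnd ℂ) (χ (n : ZMod r)) * (cR k n : ℂ)) *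
        gx δ (X ^ (2 * ε₁)) X χ (n / Real.sqrt X) * ee (n * ((a : ℝ) / q + β)) -
        mean (r * k * q) (fun u => (starRingEnd ℂ) (χ (u : ZMod r)) * (cR k u : ℂ) * ee (u * ((a : ℝ) / q))) *
          HH δ (X ^ (2 * ε₁)) X χ β)‖ ≤ X ^ ε₁ * ((C₁ + C₂) * C₃ * wx δ X χ * X ^ (-(19 : ℝ))) := by
    intro r hr χ hχ k hk
    rw [Finset.mem_Icc] at hr
    unfold KK at hk
    rw [Finset.mem_filter, Finset.mem_Icc] at hk
    obtain ⟨⟨hk1, hkQ⟩, hksq, hkr⟩ := hk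
    have hr0 : NeZero r := ⟨by omega⟩
    have hrX : (r : ℝ) ≤ X ^ ε₁ := by
      refine le_trans ?_ hQX
      exact_mod_cast hr.2
    have hkX : (k : ℝ) ≤ X ^ ε₁ := by
      refine le_trans ?_ hQX
      exact_mod_cast hkQ
    have hcW : ‖(cW r k : ℂ)‖ ≤ X ^ ε₁ := by
      rw [Complex.norm_real, Real.norm_eq_abs]
      exact (FMn_cW r k hr.1 hk1).trans hrX
    have hM1n : 1 ≤ r * k := Nat.mul_pos hr.1 hk1
    have hM1 : (1 : ℝ) ≤ ((r * k : ℕ) : ℝ) := by exact_mod_cast hM1n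
    have hM : ((r * k : ℕ) : ℝ) ≤ X ^ (2 * ε₁) := by
      rw [two_mul, Real.rpow_add hX0]
      push_cast
      exact mul_le_mul hrX hkX (Nat.cast_nonneg _) (by positivity)
    obtain ⟨hw, _⟩ := H3 δ (X ^ (2 * ε₁)) X hδ hδ1 hX1 (by positivity) hTX hr.1 χ
    have hB1 : 1 ≤ C₃ * (1 + X ^ (2 * ε₁)) := by nlinarith
    have hβ2 : |β| ≤ 1 / (2 * q * ((r * k : ℕ) : ℝ)) := by
      refine hβ.trans ?_
      rw [div_le_div_iff₀ (by positivity) (by positivity), one_mul]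
      have h5 : 2 * (X ^ (6 * ε₁) * X ^ (2 * ε₁)) ≤ Real.sqrt X := by
        rw [← Real.rpow_add hX0]
        have h6 : X ^ (6 * ε₁ + 2 * ε₁) ≤ X ^ (1 / 4 : ℝ) := Real.rpow_le_rpow_of_exponent_le hX1 (by linarith)
        have h7 : (2 : ℝ) ≤ X ^ (1 / 4 : ℝ) := by
          calc (2 : ℝ) = (16 : ℝ) ^ (1 / 4 : ℝ) := by
                rw [show (16 : ℝ) = 2 ^ (4 : ℝ) by norm_num, ← Real.rpow_mul (by norm_num)]
                norm_num
            _ ≤ X ^ (1 / 4 : ℝ) := Real.rpow_le_rpow (by norm_num) (by linarith) (by norm_num)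
        have h8 : X ^ (1 / 4 : ℝ) * X ^ (1 / 4 : ℝ) = Real.sqrt X := by
          rw [← Real.rpow_add hX0, Real.sqrt_eq_rpow]
          norm_num
        rw [← h8]
        exact mul_le_mul h7 h6 (by positivity) (by positivity)
      calc X ^ (6 * ε₁) * (2 * q * ((r * k : ℕ) : ℝ)) ≤ X ^ (6 * ε₁) * (2 * q * X ^ (2 * ε₁)) := by
            apply mul_le_mul_of_nonneg_left _ (by positivity)
            exact mul_le_mul_of_nonneg_left hM (by positivity)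
        _ = q * (2 * (X ^ (6 * ε₁) * X ^ (2 * ε₁))) := by ring
        _ ≤ q * Real.sqrt X := mul_le_mul_of_nonneg_left h5 (by positivity)
    have hβ3 : |β| ≤ 1 / 2 := by
      refine hβ2.trans ?_
      apply div_le_div_of_nonneg_left (by norm_num) (by norm_num)
      have h5 : 1 * 1 ≤ (q : ℝ) * ((r * k : ℕ) : ℝ) := mul_le_mul hq1' hM1 (by norm_num) (by positivity)
      linarith
    have hP0 : ∀ n : ℕ, ‖(starRingEnd ℂ) (χ (n : ZMod r)) * (cR k n : ℂ)‖ ≤ k := by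
      intro n
      rw [norm_mul, RCLike.norm_conj, Complex.norm_real, Real.norm_eq_abs]
      calc _ ≤ 1 * (k : ℝ) := mul_le_mul (DirichletCharacter.norm_le_one χ _) (cR_le k hksq n) (abs_nonneg _) (by norm_num)
        _ = k := one_mul _
    have hper : ∀ n : ℕ, (starRingEnd ℂ) (χ ((n + r * k : ℕ) : ZMod r)) * (cR k ((n + r * k : ℕ) : ℤ) : ℂ) =
        (starRingEnd ℂ) (χ (n : ZMod r)) * (cR k n : ℂ) := by
      intro n
      have h5 : ((n + r * k : ℕ) : ZMod r) = (n : ZMod r) := by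
        push_cast
        simp
      rw [h5, cR_congr k (r * k) (Dvd.intro_left r rfl) ((n + r * k : ℕ) : ℤ) (n : ℤ) (by push_cast; simp)]
    have e1 := H1 _ _ _ hB1 hw (Real.sqrt X) hY (r * k) q hM1n hq1 a β hβ2
      (fun n => (starRingEnd ℂ) (χ (n : ZMod r)) * (cR k n : ℂ)) hper k hP0
    have e2 := H2 _ _ _ hB1 hw (Real.sqrt X) hY β hβ3
    have hmean : ‖mean (r * k * q) (fun u => (starRingEnd ℂ) (χ (u : ZMod r)) * (cR k u : ℂ) * ee (u * ((a : ℝ) / q)))‖ ≤ k := by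
      have hMq : 0 < (((r * k * q : ℕ)) : ℝ) := by
        have : 0 < r * k * q := Nat.mul_pos hM1n hq1
        exact_mod_cast this
      rw [mean, norm_div, Complex.norm_natCast, div_le_iff₀ hMq]
      refine (norm_sum_le _ _).trans ?_
      refine (Finset.sum_le_sum fun u _ => ?_ : _ ≤ ∑ _u ∈ range (r * k * q), (k : ℝ)).trans ?_
      · rw [norm_mul, Pool.Agent.Wb58c63.norm_ee, mul_one]
        exact hP0 u
      · rw [Finset.sum_const, Finset.card_range, nsmul_eq_mul]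
        linarith
    have hnum := FMn_num ε₁ hε hε1 J hJ C₁ C₂ C₃ hC₁ hC₂ hC₃ X hX64 hX3 _ hM1 hM q hq1' hq (wx δ X χ)
      (FMn_wx_nonneg δ X hX0 χ) k (Nat.cast_nonneg _) hkX
    rw [norm_mul]
    apply mul_le_mul hcW _ (norm_nonneg _) (by positivity)
    refine le_trans ?_ hnum
    have e3 : ∑ n ∈ Icc 1 ⌊16 * Real.sqrt X⌋₊, ((starRingEnd ℂ) (χ (n : ZMod r)) * (cR k n : ℂ)) *
        gx δ (X ^ (2 * ε₁)) X χ (n / Real.sqrt X) * ee (n * ((a : ℝ) / q + β)) -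
        mean (r * k * q) (fun u => (starRingEnd ℂ) (χ (u : ZMod r)) * (cR k u : ℂ) * ee (u * ((a : ℝ) / q))) *
          HH δ (X ^ (2 * ε₁)) X χ β =
        (∑ n ∈ Icc 1 ⌊16 * Real.sqrt X⌋₊, ((starRingEnd ℂ) (χ (n : ZMod r)) * (cR k n : ℂ)) *
        gx δ (X ^ (2 * ε₁)) X χ (n / Real.sqrt X) * ee (n * ((a : ℝ) / q + β)) -
        mean (r * k * q) (fun u => (starRingEnd ℂ) (χ (u : ZMod r)) * (cR k u : ℂ) * ee (u * ((a : ℝ) / q))) *
          ∑ n ∈ Icc 1 ⌊16 * Real.sqrt X⌋₊, gx δ (X ^ (2 * ε₁)) X χ (n / Real.sqrt X) * ee (n * β)) +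
        mean (r * k * q) (fun u => (starRingEnd ℂ) (χ (u : ZMod r)) * (cR k u : ℂ) * ee (u * ((a : ℝ) / q))) *
          (∑ n ∈ Icc 1 ⌊16 * Real.sqrt X⌋₊, gx δ (X ^ (2 * ε₁)) X χ (n / Real.sqrt X) * ee (n * β) -
            (Real.sqrt X : ℂ) * ∫ x : ℝ, gx δ (X ^ (2 * ε₁)) X χ x * ee (x * (Real.sqrt X * β))) := by
      unfold HH
      ring
    rw [e3]
    refine (norm_add_le _ _).trans ?_
    apply add_le_add e1
    rw [norm_mul]
    exact mul_le_mul hmean e2 (norm_nonneg _) (Nat.cast_nonneg _)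
  have h1 : ∑ n ∈ Icc 1 ⌊16 * Real.sqrt X⌋₊, fM δ (X ^ (2 * ε₁)) X Q n * ee (n * ((a : ℝ) / q + β)) =
      ∑ r ∈ Icc 1 Q, ∑ χ ∈ prim r, ∑ k ∈ KK Q r, (cW r k : ℂ) * ∑ n ∈ Icc 1 ⌊16 * Real.sqrt X⌋₊,
        ((starRingEnd ℂ) (χ (n : ZMod r)) * (cR k n : ℂ)) *
        gx δ (X ^ (2 * ε₁)) X χ (n / Real.sqrt X) * ee (n * ((a : ℝ) / q + β)) := by
    unfold fM
    simp only [Finset.sum_mul, Finset.mul_sum]
    rw [Finset.sum_comm]
    refine Finset.sum_congr rfl fun r _ => ?_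
    rw [Finset.sum_comm]
    refine Finset.sum_congr rfl fun χ _ => ?_
    rw [Finset.sum_comm]
    refine Finset.sum_congr rfl fun k _ => ?_
    refine Finset.sum_congr rfl fun n _ => ?_
    ring
  have h2 : ∑ r ∈ Icc 1 Q, ∑ χ ∈ prim r, LL Q χ q a * HH δ (X ^ (2 * ε₁)) X χ β =
      ∑ r ∈ Icc 1 Q, ∑ χ ∈ prim r, ∑ k ∈ KK Q r, (cW r k : ℂ) *
        (mean (r * k * q) (fun u => (starRingEnd ℂ) (χ (u : ZMod r)) * (cR k u : ℂ) * ee (u * ((a : ℝ) / q))) *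
          HH δ (X ^ (2 * ε₁)) X χ β) := by
    refine Finset.sum_congr rfl fun r _ => ?_
    refine Finset.sum_congr rfl fun χ _ => ?_
    unfold LL
    rw [Finset.sum_mul]
    refine Finset.sum_congr rfl fun k _ => ?_
    ring
  rw [h1, h2]
  simp only [← Finset.sum_sub_distrib, ← mul_sub]
  have hKK : ∀ r, ((KK Q r).card : ℝ) ≤ X ^ ε₁ := by
    intro r
    refine le_trans ?_ hQX
    have h3 : (KK Q r).card ≤ Q := by
      unfold KK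
      refine (Finset.card_filter_le _ _).trans ?_
      rw [Nat.card_Icc]
      omega
    exact_mod_cast h3
  calc _ ≤ ∑ r ∈ Icc 1 Q, ∑ χ ∈ prim r, (X ^ ε₁ * X ^ ε₁ * ((C₁ + C₂) * C₃) * X ^ (-(19 : ℝ))) * wx δ X χ := by
        refine (norm_sum_le _ _).trans (Finset.sum_le_sum fun r hr => ?_)
        refine (norm_sum_le _ _).trans (Finset.sum_le_sum fun χ hχ => ?_)
        refine (norm_sum_le _ _).trans ?_
        refine (Finset.sum_le_sum fun k hk => hterm r hr χ hχ k hk).trans ?_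
        rw [Finset.sum_const, nsmul_eq_mul]
        have hwx := FMn_wx_nonneg δ X hX0 χ
        calc _ ≤ X ^ ε₁ * (X ^ ε₁ * ((C₁ + C₂) * C₃ * wx δ X χ * X ^ (-(19 : ℝ)))) :=
              mul_le_mul_of_nonneg_right (hKK r) (by positivity)
          _ = _ := by ring
    _ = (X ^ ε₁ * X ^ ε₁ * ((C₁ + C₂) * C₃) * X ^ (-(19 : ℝ))) * (1 + Wr ε₁ δ X) := by
        simp only [← Finset.mul_sum]
        rw [hQ, sum_wx ε₁ δ X hX1 hε]
    _ ≤ (X ^ ε₁ * X ^ ε₁ * ((C₁ + C₂) * C₃) * X ^ (-(19 : ℝ))) * 3 := by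
        apply mul_le_mul_of_nonneg_left _ (by positivity)
        have := Wr_mono ε₁ (2 * ε₁) δ δ X hX1 (by linarith) le_rfl
        linarith
    _ = (3 * ((C₁ + C₂) * C₃)) * (X ^ ε₁ * X ^ ε₁ * X ^ (-(19 : ℝ))) := by ring
    _ ≤ X * X ^ (-(18 : ℝ)) := by
        apply mul_le_mul (by linarith) _ (by positivity) hX0.le
        rw [← Real.rpow_add hX0, ← Real.rpow_add hX0]
        apply Real.rpow_le_rpow_of_exponent_le hX1
        linarith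
    _ ≤ 1 := by
        nth_rewrite 1 [← Real.rpow_one X]
        rw [← Real.rpow_add hX0]
        apply Real.rpow_le_one_of_one_le_of_nonpos hX1
        norm_num

end Pool.Agent.PSG
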