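import Pool.Agent.W_b58c63_h44.MTa

/-!
# The lower bound for the main term, first alternative
-/

set_option autoImplicit false

noncomputable section

open Finset Complex MeasureTheory

namespace Pool.Agent.PSG

open Pool.Agent.Wb58c63 (prim ee)

/-- the principal index -/
abbrev MTb_p : Ch := ⟨1, 1⟩

theorem MTb_mem (Q : ℕ) (x : Ch) : x ∈ PCh Q ↔ 1 ≤ x.1 ∧ x.1 ≤ Q ∧ x.2.IsPrimitive := by
  unfold PCh
  rw [Finset.mem_sigma, Finset.mem_Icc, AR_mem_prim, and_assoc]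

theorem MTb_p_mem (Q : ℕ) (hQ : 1 ≤ Q) : MTb_p ∈ PCh Q := by
  rw [MTb_mem]
  exact ⟨le_rfl, hQ, DirichletCharacter.isPrimitive_one_level_one⟩

theorem MTb_mono {Q Q' : ℕ} (h : Q ≤ Q') : PCh Q ⊆ PCh Q' := by
  intro x hx
  rw [MTb_mem] at hx ⊢
  exact ⟨hx.1, hx.2.1.trans h, hx.2.2⟩

open Classical in
theorem MTb_dl (Q : ℕ) (x : Ch) (hx : x ∈ PCh Q) : (dl x.2 : ℂ) = if x = MTb_p then 1 else 0 := by
  obtain ⟨r, χ⟩ := x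
  rw [MTb_mem] at hx
  obtain ⟨h1, h2, h3⟩ := hx
  simp only at h1 h2 h3 ⊢
  unfold dl
  by_cases h : χ = 1
  · subst h
    have : NeZero r := ⟨by omega⟩
    have hr : r = 1 := by
      rw [DirichletCharacter.isPrimitive_def, DirichletCharacter.conductor_one] at h3
      exact h3.symm
    subst hr
    simp
  · rw [if_neg h, if_neg]
    · simp
    · intro h4
      apply h
      have h5 : r = 1 := congrArg Sigma.fst h4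
      subst h5
      exact eq_of_heq (Sigma.mk.inj_iff.1 h4).2

/-- powers of `v` -/
theorem MTb_norm (F : ℂ → ℂ) (S : Finset ℂ) (X v : ℝ) (hX : 1 ≤ X) (hv : Real.sqrt X ≤ v)
    (hS : ∀ ρ ∈ S, ρ.re ≤ 1) :
    ‖∑ ρ ∈ S, (mz F ρ : ℂ) * (v : ℂ) ^ (ρ - 1)‖ ≤
      ∑ ρ ∈ S, (mz F ρ : ℝ) * X ^ (-((1 - ρ.re) / 4)) := by
  have hs1 : 1 ≤ Real.sqrt X := by rwa [Real.one_le_sqrt]
  have hv0 : 0 < v := by linarith
  refine (norm_sum_le _ _).trans (Finset.sum_le_sum (fun ρ hρ => ?_))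
  rw [norm_mul, Complex.norm_natCast, Complex.norm_cpow_eq_rpow_re_of_pos hv0]
  refine mul_le_mul_of_nonneg_left ?_ (Nat.cast_nonneg _)
  have h1 := hS ρ hρ
  have h2 : (ρ - 1).re = -(1 - ρ.re) := by simp
  rw [h2]
  have hX0 : 0 < X := by linarith
  calc v ^ (-(1 - ρ.re)) ≤ (Real.sqrt X) ^ (-(1 - ρ.re)) :=
        Real.rpow_le_rpow_of_nonpos (by linarith) hv (by linarith)
    _ = X ^ (-((1 - ρ.re) / 2)) := by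
        rw [Real.sqrt_eq_rpow, ← Real.rpow_mul hX0.le]
        congr 1
        ring
    _ ≤ X ^ (-((1 - ρ.re) / 4)) := Real.rpow_le_rpow_of_exponent_le hX (by linarith)

theorem MTb_ZR (δ κ T X : ℝ) (hδ : δ ≤ κ) (hT : T ≤ X) {r : ℕ} (χ : DirichletCharacter ℂ r) :
    ZR (EF χ) δ T ⊆ ZR (EF χ) κ X := by
  have hnz : ∃ s, EF χ s ≠ 0 := ⟨2, EF_ne_zero χ 2 (by simp)⟩
  intro ρ hρ
  rw [mem_ZR (EF χ) (EF_diff χ) hnz] at hρ ⊢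
  exact ⟨hρ.1, by linarith [hρ.2.1], hρ.2.2.1, hρ.2.2.2.trans hT⟩

theorem MTb_re (κ X : ℝ) {r : ℕ} (χ : DirichletCharacter ℂ r) : ∀ ρ ∈ ZR (EF χ) κ X, ρ.re ≤ 1 := by
  have hnz : ∃ s, EF χ s ≠ 0 := ⟨2, EF_ne_zero χ 2 (by simp)⟩
  intro ρ hρ
  rw [mem_ZR (EF χ) (EF_diff χ) hnz] at hρ
  exact hρ.2.2.1

theorem MTb_Wr (ε κ X : ℝ) : Wr ε κ X = ∑ x ∈ PCh ⌊X ^ ε⌋₊, ∑ ρ ∈ ZR (EF x.2) κ X,
    (mz (EF x.2) ρ : ℝ) * X ^ (-((1 - ρ.re) / 4)) := by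
  unfold Wr PCh
  rw [Finset.sum_sigma]

/-- The tail of the singular series. -/
theorem MTb_tail (C ε₁ X : ℝ) (hC : 0 ≤ C) (hε : 0 < ε₁) (hε1 : ε₁ ≤ 1 / 100) (hX : 1 ≤ X) (N : ℕ)
    (hN : (N : ℝ) ≤ 2 * X) : C * (N : ℝ) ^ (ε₁ / 16) * (⌊X ^ ε₁⌋₊ : ℝ) ^ (-(1 / 2) : ℝ) ≤
      4 * C * X ^ (-(7 * ε₁ / 16)) := by
  have hX0 : 0 < X := by linarith
  have hQ1 : 1 ≤ X ^ ε₁ := Real.one_le_rpow hX hε.le
  have hQf : 1 ≤ ⌊X ^ ε₁⌋₊ := Nat.le_floor (by exact_mod_cast hQ1)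
  have hQr : (1 : ℝ) ≤ ⌊X ^ ε₁⌋₊ := by exact_mod_cast hQf
  have hQ2 : X ^ ε₁ / 2 ≤ ⌊X ^ ε₁⌋₊ := by
    have := Nat.lt_floor_add_one (X ^ ε₁)
    linarith
  have h1 : (N : ℝ) ^ (ε₁ / 16) ≤ 2 * X ^ (ε₁ / 16) := by
    calc (N : ℝ) ^ (ε₁ / 16) ≤ (2 * X) ^ (ε₁ / 16) :=
          Real.rpow_le_rpow (Nat.cast_nonneg _) hN (by positivity)
      _ = 2 ^ (ε₁ / 16) * X ^ (ε₁ / 16) := Real.mul_rpow (by norm_num) hX0.le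
      _ ≤ 2 * X ^ (ε₁ / 16) := by
          apply mul_le_mul_of_nonneg_right _ (Real.rpow_nonneg hX0.le _)
          calc (2 : ℝ) ^ (ε₁ / 16) ≤ 2 ^ (1 : ℝ) :=
                Real.rpow_le_rpow_of_exponent_le (by norm_num) (by linarith)
            _ = 2 := Real.rpow_one _
  have h2 : (⌊X ^ ε₁⌋₊ : ℝ) ^ (-(1 / 2) : ℝ) ≤ 2 * X ^ (-(ε₁ / 2)) := by
    calc (⌊X ^ ε₁⌋₊ : ℝ) ^ (-(1 / 2) : ℝ) ≤ (X ^ ε₁ / 2) ^ (-(1 / 2) : ℝ) :=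
          Real.rpow_le_rpow_of_nonpos (by positivity) hQ2 (by norm_num)
      _ = (X ^ ε₁) ^ (-(1 / 2) : ℝ) / 2 ^ (-(1 / 2) : ℝ) :=
          Real.div_rpow (by positivity) (by norm_num) _
      _ = 2 ^ (1 / 2 : ℝ) * X ^ (-(ε₁ / 2)) := by
          rw [← Real.rpow_mul hX0.le, Real.rpow_neg (by norm_num : (0 : ℝ) ≤ 2), div_inv_eq_mul,
            mul_comm]
          congr 2
          ring
      _ ≤ 2 * X ^ (-(ε₁ / 2)) := by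
          apply mul_le_mul_of_nonneg_right _ (Real.rpow_nonneg hX0.le _)
          calc (2 : ℝ) ^ (1 / 2 : ℝ) ≤ 2 ^ (1 : ℝ) :=
                Real.rpow_le_rpow_of_exponent_le (by norm_num) (by norm_num)
            _ = 2 := Real.rpow_one _
  have h3 : X ^ (ε₁ / 16) * X ^ (-(ε₁ / 2)) = X ^ (-(7 * ε₁ / 16)) := by
    rw [← Real.rpow_add hX0]
    congr 1
    ring
  calc C * (N : ℝ) ^ (ε₁ / 16) * (⌊X ^ ε₁⌋₊ : ℝ) ^ (-(1 / 2) : ℝ)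
      ≤ C * (2 * X ^ (ε₁ / 16)) * (2 * X ^ (-(ε₁ / 2))) := by
        apply mul_le_mul (mul_le_mul_of_nonneg_left h1 hC) h2
          (Real.rpow_nonneg (Nat.cast_nonneg _) _)
        have := Real.rpow_nonneg hX0.le (ε₁ / 16)
        positivity
    _ = 4 * C * (X ^ (ε₁ / 16) * X ^ (-(ε₁ / 2))) := by ring
    _ = _ := by rw [h3]

/-- Elementary facts used in both alternatives. -/
theorem MTb_basic (ε ε₁ X : ℝ) (hε : 2 * ε₁ ≤ ε) (hε₁ : 0 < ε₁) (hε1 : ε₁ ≤ 1 / 100) (hX : 25 ≤ X)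
    (N : ℕ) (hN : N ∈ Ioc ⌊X⌋₊ ⌊2 * X⌋₊) (v : ℝ) (hv : 3 / 2 * Real.sqrt X ≤ v)
    (hv' : v ≤ 39 / 10 * Real.sqrt X) :
    1 ≤ N ∧ (N : ℝ) ≤ 2 * X ∧ 1 ≤ ⌊X ^ ε₁⌋₊ ∧ ⌊X ^ ε₁⌋₊ ^ 2 ≤ ⌊X ^ ε⌋₊ ∧
      ((⌊X ^ ε₁⌋₊ ^ 2 : ℕ) : ℝ) ≤ X ^ (2 * ε₁) ∧ X ^ (2 * ε₁) ≤ X ∧
      Real.sqrt X ≤ v ∧ Real.sqrt X ≤ N - v := by
  rw [Finset.mem_Ioc] at hN
  have hX0 : 0 < X := by linarith
  have h1 : X < N := by
    have h1 := Nat.lt_floor_add_one X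
    have h2 : ((⌊X⌋₊ + 1 : ℕ) : ℝ) ≤ N := by exact_mod_cast hN.1
    push_cast at h2
    linarith
  have h2 : (N : ℝ) ≤ 2 * X := by
    have h3 : (N : ℝ) ≤ ⌊2 * X⌋₊ := by exact_mod_cast hN.2
    exact h3.trans (Nat.floor_le (by linarith))
  have hs : Real.sqrt X * Real.sqrt X = X := Real.mul_self_sqrt hX0.le
  have hs5 : 5 ≤ Real.sqrt X := by
    apply Real.le_sqrt_of_sq_le
    linarith
  have hQ : 1 ≤ X ^ ε₁ := Real.one_le_rpow (by linarith) hε₁.le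
  have hQ2 : (((⌊X ^ ε₁⌋₊ ^ 2 : ℕ)) : ℝ) ≤ X ^ (2 * ε₁) := by
    push_cast
    calc (⌊X ^ ε₁⌋₊ : ℝ) ^ 2 ≤ (X ^ ε₁) ^ 2 :=
          pow_le_pow_left₀ (Nat.cast_nonneg _) (Nat.floor_le (by linarith)) 2
      _ = X ^ (2 * ε₁) := by
          rw [← Real.rpow_natCast, ← Real.rpow_mul hX0.le]
          congr 1
          push_cast
          ring
  refine ⟨by omega, h2, Nat.le_floor (by exact_mod_cast hQ), ?_, hQ2, ?_, by linarith, ?_⟩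
  · apply Nat.le_floor
    exact hQ2.trans (Real.rpow_le_rpow_of_exponent_le (by linarith) hε)
  · calc X ^ (2 * ε₁) ≤ X ^ (1 : ℝ) :=
          Real.rpow_le_rpow_of_exponent_le (by linarith) (by linarith)
      _ = X := Real.rpow_one X
  · nlinarith

/-- **The lower bound**, first alternative.

Proof. `abs_exc` with `p = ⟨1, 1⟩`, `ae = be = 0` (any `e ≠ p`), `M x y = AC Q x.2 y.2 N`, `D = C N / φ(N)` (`AC_le`), `a x = ax δ T x.2 v`, `b y = ax δ X y.2 (N - v)`, `α x = - ∑_ρ mz v ^ (ρ - 1)`: `‖v ^ (ρ - 1)‖ = v ^ (-(1 - β)) ≤ X ^ (-(1 - β) / 4)` as `v ≥ √X` and `N - v ≥ X / 2 ≥ √X`. So `W = Wr ε κ X ≤ η` works. (`dl x = [x = p]` for primitive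
characters.) So `Re Sv ≥ Re AC(p, p) - 5 C η N / φ(N)`, and `AC(p, p) = sgl Q 1 N ≥ sgi 1 N - C X ^ (ε₁/8) Q ^ (-1/2) ≥ c N / φ(N) - X ^ (-ε₁/4)` (`AC_one`, `sgl_tail`, `sgi_lower`). For `η ≤ c / (20 C)` and large `X` this is at least `c / 2`, `≥ X ^ (-ε₁/40)`. -/
theorem Sv_lower_one : ∃ η₀ : ℝ, 0 < η₀ ∧ η₀ ≤ 1 ∧ ∀ ε κ : ℝ, 0 < ε → ε ≤ 1 → 0 < κ → κ ≤ 1 / 16 → ∀ δ ε₁ : ℝ, 0 < δ → δ ≤ κ → 0 < ε₁ → 2 * ε₁ ≤ ε → ε₁ ≤ 1 / 100 →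
    ∃ X₀ : ℝ, 3 ≤ X₀ ∧ ∀ X : ℝ, X₀ ≤ X → Wr ε κ X ≤ η₀ → ∀ N ∈ Ioc ⌊X⌋₊ ⌊2 * X⌋₊, Even N → ∀ v : ℝ, 3 / 2 * Real.sqrt X ≤ v → v ≤ 39 / 10 * Real.sqrt X →
    X ^ (-(ε₁ / 40)) ≤ (Sv δ (X ^ (2 * ε₁)) X ⌊X ^ ε₁⌋₊ N v).re := by
  classical
  obtain ⟨C, hC, hAC⟩ := AC_le
  obtain ⟨c, hc, hsgi⟩ := sgi_lower
  refine ⟨min 1 (c / (40 * C)), by positivity, min_le_left _ _, ?_⟩
  intro ε κ hε hε1 hκ hκ1 δ ε₁ hδ hδκ hε₁ h2ε hε₁1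
  obtain ⟨C', hC', htail⟩ := sgl_tail (ε₁ / 16) (by positivity)
  have ht1 : ∀ᶠ X : ℝ in Filter.atTop, 4 * C' * X ^ (-(7 * ε₁ / 16)) < c / 4 := by
    have h1 : Filter.Tendsto (fun X : ℝ => 4 * C' * X ^ (-(7 * ε₁ / 16))) Filter.atTop
        (nhds (4 * C' * 0)) :=
      (tendsto_rpow_neg_atTop (by positivity)).const_mul _
    rw [mul_zero] at h1
    exact (tendsto_order.1 h1).2 _ (by positivity)
  have ht2 : ∀ᶠ X : ℝ in Filter.atTop, X ^ (-(ε₁ / 40)) < c / 4 :=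
    (tendsto_order.1 (tendsto_rpow_neg_atTop (by positivity : 0 < ε₁ / 40))).2 _ (by positivity)
  obtain ⟨X₁, hX₁⟩ := Filter.eventually_atTop.1 (ht1.and ht2)
  refine ⟨max 25 X₁, by
    have := le_max_left (25 : ℝ) X₁
    linarith, ?_⟩
  intro X hX hW N hN hNe v hv hv'
  have hX25 : 25 ≤ X := (le_max_left _ _).trans hX
  obtain ⟨hT1, hT2⟩ := hX₁ X ((le_max_right _ _).trans hX)
  obtain ⟨hN1, hN2, hQ1, hQε, hQT, hTX, hvX, hNvX⟩ :=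
    MTb_basic ε ε₁ X h2ε hε₁ hε₁1 hX25 N hN v hv hv'
  set Q := ⌊X ^ ε₁⌋₊ with hQ
  have hX1 : 1 ≤ X := by linarith
  set η := min 1 (c / (40 * C)) with hη
  have hη0 : 0 < η := by positivity
  have hη1 : η ≤ 1 := min_le_left _ _
  have hηc : 40 * C * η ≤ c := by
    have h1 : η ≤ c / (40 * C) := min_le_right _ _
    rw [le_div_iff₀ (by positivity)] at h1
    linarith
  set R := (N : ℝ) / N.totient with hR
  have hR1 : 1 ≤ R := by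
    have h1 : 0 < N.totient := Nat.totient_pos.2 hN1
    rw [hR, one_le_div (by exact_mod_cast h1)]
    exact_mod_cast Nat.totient_le N
  have hQQ : Q ≤ Q ^ 2 := Nat.le_self_pow two_ne_zero Q
  have hsub1 : PCh Q ⊆ PCh ⌊X ^ ε⌋₊ := MTb_mono (hQQ.trans hQε)
  have hsub2 : PCh (Q ^ 2) ⊆ PCh ⌊X ^ ε⌋₊ := MTb_mono hQε
  have hnn : ∀ x : Ch, 0 ≤ ∑ ρ ∈ ZR (EF x.2) κ X, (mz (EF x.2) ρ : ℝ) * X ^ (-((1 - ρ.re) / 4)) :=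
    fun x => Finset.sum_nonneg fun ρ _ => mul_nonneg (Nat.cast_nonneg _)
      (Real.rpow_nonneg (by linarith) _)
  have hx : ∀ (x : Ch) (T u : ℝ), T ≤ X → Real.sqrt X ≤ u →
      ‖-∑ ρ ∈ ZR (EF x.2) δ T, (mz (EF x.2) ρ : ℂ) * (u : ℂ) ^ (ρ - 1)‖ ≤
      ∑ ρ ∈ ZR (EF x.2) κ X, (mz (EF x.2) ρ : ℝ) * X ^ (-((1 - ρ.re) / 4)) := by
    intro x T u hT hu
    rw [norm_neg]
    refine (MTb_norm _ _ X u hX1 hu (MTb_re δ T x.2)).trans ?_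
    exact Finset.sum_le_sum_of_subset_of_nonneg (MTb_ZR δ κ T X hδκ hT x.2)
      (fun ρ _ _ => mul_nonneg (Nat.cast_nonneg _) (Real.rpow_nonneg (by linarith) _))
  have hα : ∑ x ∈ PCh Q, ‖-∑ ρ ∈ ZR (EF x.2) δ (X ^ (2 * ε₁)),
      (mz (EF x.2) ρ : ℂ) * (v : ℂ) ^ (ρ - 1)‖ ≤ η := by
    refine (Finset.sum_le_sum (fun x _ => hx x (X ^ (2 * ε₁)) v hTX hvX)).trans ?_
    refine (Finset.sum_le_sum_of_subset_of_nonneg hsub1 (fun x _ _ => hnn x)).trans ?_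
    rw [← MTb_Wr]
    exact hW
  have hα' : ∑ x ∈ PCh (Q ^ 2), ‖-∑ ρ ∈ ZR (EF x.2) δ X,
      (mz (EF x.2) ρ : ℂ) * ((N - v : ℝ) : ℂ) ^ (ρ - 1)‖ ≤ η := by
    refine (Finset.sum_le_sum (fun x _ => hx x X (N - v) le_rfl hNvX)).trans ?_
    refine (Finset.sum_le_sum_of_subset_of_nonneg hsub2 (fun x _ _ => hnn x)).trans ?_
    rw [← MTb_Wr]
    exact hW
  have hpe : MTb_p ≠ (⟨0, 1⟩ : Ch) := by
    intro h
    have := congrArg Sigma.fst h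
    simp at this
  have habs := abs_exc (PCh Q) (PCh (Q ^ 2)) MTb_p (⟨0, 1⟩ : Ch) hpe (MTb_p_mem Q hQ1)
    (MTb_p_mem (Q ^ 2) (hQ1.trans hQQ)) (fun x y => AC Q x.2 y.2 N) (C * R) (by positivity)
    (fun x hx y hy => by
      rw [MTb_mem] at hx hy
      exact hAC Q x.1 y.1 N hx.1 hy.1 hN1 x.2 y.2 hy.2.2)
    (fun x => ax δ (X ^ (2 * ε₁)) x.2 v) (fun y => ax δ X y.2 (N - v))
    (fun x => -∑ ρ ∈ ZR (EF x.2) δ (X ^ (2 * ε₁)), (mz (EF x.2) ρ : ℂ) * (v : ℂ) ^ (ρ - 1))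
    (fun x => -∑ ρ ∈ ZR (EF x.2) δ X, (mz (EF x.2) ρ : ℂ) * ((N - v : ℝ) : ℂ) ^ (ρ - 1))
    0 0 (by simp) (by simp) (fun _ => rfl) (fun _ => rfl)
    (fun x hx => by
      simp only [ite_self, add_zero]
      unfold ax
      rw [MTb_dl Q x hx]
      ring)
    (fun x hx => by
      simp only [ite_self, add_zero]
      unfold ax
      rw [MTb_dl (Q ^ 2) x hx]
      ring) η hα hα'
  have hmain : AC Q MTb_p.2 MTb_p.2 N = (sgl Q 1 N : ℂ) := AC_one Q N 1 1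
  simp only [mul_zero, add_zero] at habs
  rw [hmain] at habs
  have hSv : Sv δ (X ^ (2 * ε₁)) X Q N v = ∑ x ∈ PCh Q, ∑ y ∈ PCh (Q ^ 2),
      AC Q x.2 y.2 N * ax δ (X ^ (2 * ε₁)) x.2 v * ax δ X y.2 (N - v) := rfl
  rw [hSv]
  set Z := ∑ x ∈ PCh Q, ∑ y ∈ PCh (Q ^ 2),
      AC Q x.2 y.2 N * ax δ (X ^ (2 * ε₁)) x.2 v * ax δ X y.2 (N - v) with hZ
  have h1 : |(Z - (sgl Q 1 N : ℂ)).re| ≤ C * R * (4 * η + η ^ 2) :=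
    (Complex.abs_re_le_norm _).trans habs
  rw [Complex.sub_re, Complex.ofReal_re, abs_le] at h1
  have h2 := (htail Q 1 N hQ1 hN1).2
  have h3 := MTb_tail C' ε₁ X (by linarith) hε₁ hε₁1 hX1 N hN2
  rw [← hQ] at h3
  rw [abs_le] at h2
  have h4 := hsgi N hN1 hNe
  have h5 : C * R * (4 * η + η ^ 2) ≤ c / 8 * R := by
    have h6 : 4 * η + η ^ 2 ≤ 5 * η := by nlinarith
    have h7 : C * (4 * η + η ^ 2) ≤ c / 8 := by nlinarith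
    nlinarith
  nlinarith [h1.1, h2.1, h3, h4, h5, hT1, hT2, hR1, hc]

end Pool.Agent.PSG
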