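import Pool.Agent.W_b58c63_h44.MTa
import Pool.Agent.W_b58c63_h44.MTb
import Pool.Agent.W_b58c63_h44.DHc

/-!
# The lower bound for the main term, second alternative
-/

set_option autoImplicit false

noncomputable section

open Finset Complex MeasureTheory

namespace Pool.Agent.PSG

open Pool.Agent.Wb58c63 (prim ee)

/-- the zeros without the exceptional one -/
def MTc_S (e : Ch) (β : ℝ) (δ T : ℝ) (x : Ch) : Finset ℂ :=
  open Classical in if x = e then (ZR (EF x.2) δ T).erase (β : ℂ) else ZR (EF x.2) δ T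

theorem MTc_sub (e : Ch) (β δ κ T X : ℝ) (hδ : δ ≤ κ) (hT : T ≤ X) (x : Ch) :
    MTc_S e β δ T x ⊆ MTc_S e β κ X x := by
  unfold MTc_S
  split_ifs
  · exact Finset.erase_subset_erase _ (MTb_ZR δ κ T X hδ hT x.2)
  · exact MTb_ZR δ κ T X hδ hT x.2

theorem MTc_re (e : Ch) (β δ T : ℝ) (x : Ch) : ∀ ρ ∈ MTc_S e β δ T x, ρ.re ≤ 1 := by
  intro ρ hρ
  unfold MTc_S at hρ
  split_ifs at hρ
  · exact MTb_re δ T x.2 ρ (Finset.mem_of_mem_erase hρ)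
  · exact MTb_re δ T x.2 ρ hρ

/-- the total weight of the zeros without the exceptional one -/
theorem MTc_Wr (ε κ X β : ℝ) (e : Ch) (he : e ∈ PCh ⌊X ^ ε⌋₊) (hβ : (β : ℂ) ∈ ZR (EF e.2) κ X)
    (hm : mz (EF e.2) (β : ℂ) = 1) :
    ∑ x ∈ PCh ⌊X ^ ε⌋₊, ∑ ρ ∈ MTc_S e β κ X x,
      (mz (EF x.2) ρ : ℝ) * X ^ (-((1 - ρ.re) / 4)) = Wr ε κ X - X ^ (-((1 - β) / 4)) := by
  classical
  rw [MTb_Wr, eq_sub_iff_add_eq]
  rw [← Finset.sum_erase_add _ _ he, ← Finset.sum_erase_add _ _ he, add_assoc]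
  congr 1
  · refine Finset.sum_congr rfl (fun x hx => ?_)
    unfold MTc_S
    rw [if_neg (Finset.ne_of_mem_erase hx)]
  · unfold MTc_S
    rw [if_pos rfl, ← Finset.sum_erase_add _ _ hβ]
    congr 1
    rw [hm, Complex.ofReal_re, Nat.cast_one, one_mul]

/-- the split of the density -/
theorem MTc_ax (e : Ch) (β δ T u : ℝ) (Q : ℕ) (hβ : (β : ℂ) ∈ ZR (EF e.2) δ T)
    (hm : mz (EF e.2) (β : ℂ) = 1) (x : Ch) (hx : x ∈ PCh Q) [Decidable (x = MTb_p)]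
    [Decidable (x = e)] [Decidable (e ∈ PCh Q)] :
    ax δ T x.2 u = (if x = MTb_p then 1 else 0) +
      (if x = e then (if e ∈ PCh Q then -(u : ℂ) ^ ((β : ℂ) - 1) else 0) else 0) +
      -∑ ρ ∈ MTc_S e β δ T x, (mz (EF x.2) ρ : ℂ) * (u : ℂ) ^ (ρ - 1) := by
  have hd : (dl x.2 : ℂ) = if x = MTb_p then 1 else 0 := by
    by_cases hp : x = MTb_p
    · rw [MTb_dl Q x hx, if_pos hp, if_pos hp]
    · rw [MTb_dl Q x hx, if_neg hp, if_neg hp]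
  unfold ax
  rw [hd]
  by_cases h : x = e
  · subst h
    unfold MTc_S
    rw [if_pos rfl, if_pos rfl, if_pos hx, ← Finset.sum_erase_add _ _ hβ, hm, Nat.cast_one,
      one_mul]
    ring
  · unfold MTc_S
    rw [if_neg h, if_neg h]
    ring

theorem MTc_exp (el x μ : ℝ) (hμ : 0 < μ) (hμ1 : μ ≤ 1) (h : el ≤ x) (h2 : x * (1 + μ) ≤ 1) :
    el ≤ 1 - μ / 2 := by
  nlinarith

theorem MTc_five (η μ : ℝ) (hη0 : 0 < η) (hμ0 : 0 < μ) (hη1 : η ≤ 1) (hμ1 : μ ≤ 1) :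
    4 * (η * μ) + (η * μ) ^ 2 ≤ 5 * (η * μ) := by
  have h1 : 0 < η * μ := by positivity
  have h2 : η * μ ≤ 1 := by nlinarith
  nlinarith

theorem MTc_err (c C η μ R : ℝ) (hC : 0 < C) (hη : 0 < η) (hμ1 : μ ≤ 1) (hR : 1 ≤ R)
    (h : 40 * C * η ≤ c) : C * R * (5 * (η * μ)) ≤ c / 8 * R := by
  have h3 : C * η ≤ c / 40 := by linarith
  have h4 : C * (η * μ) ≤ c / 40 := by
    have : 0 < C * η := by positivity
    nlinarith
  nlinarith

/-- the final inequality -/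
theorem MTc_final (c C η μ el R R' t s₁ s₂ : ℝ) (hc : 0 < c) (hR : 1 ≤ R)
    (hμ : 0 < μ) (hel : el ≤ 1 - μ / 2) (hη : 40 * C * η ≤ c)
    (hs : c * R ≤ s₁) (hR' : 32 * R' ≤ c * μ) (hR'0 : 0 ≤ R') (ht : 32 * C * t ≤ c * μ)
    (h2 : s₂ ≥ s₁ - R' - (s₁ + R * R') * el - 2 * (C * t * R) -
      C * R * (5 * (η * μ))) : c / 4 * μ ≤ s₂ := by
  have h3 : s₁ * (1 - el) ≥ c * R * (μ / 2) := by
    have h4 : 0 ≤ c * R := by positivity
    exact mul_le_mul hs (by linarith) (by positivity) (h4.trans hs)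
  have h5 : R * R' * el ≤ R * R' := by
    have : 0 ≤ R * R' := by positivity
    nlinarith
  have h6 : R' ≤ R * R' := by nlinarith
  have h7 : C * R * (5 * (η * μ)) ≤ c / 8 * μ * R := by
    have h8 : C * η ≤ c / 40 := by linarith
    have h9 : 0 ≤ μ * R := by positivity
    nlinarith
  have h8 : R * R' ≤ c * μ / 32 * R := by
    have : R' ≤ c * μ / 32 := by linarith
    nlinarith
  have h9 : 2 * (C * t * R) ≤ c * μ / 16 * R := by
    have : C * t ≤ c * μ / 32 := by linarith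
    nlinarith
  have h10 : s₂ ≥ c * R * (μ / 2) - 2 * (c * μ / 32 * R) - c * μ / 16 * R - c / 8 * μ * R := by
    nlinarith
  have h11 : c * R * (μ / 2) - 2 * (c * μ / 32 * R) - c * μ / 16 * R - c / 8 * μ * R =
      c / 4 * μ * R := by ring
  rw [h11] at h10
  have h12 : 0 ≤ c / 4 * μ := by positivity
  nlinarith

/-- **The lower bound**, second alternative.

Proof. Let `e = ⟨r, χ⟩` be the exceptional character, `λ = (1 - β) log X ≤ K`, `μ = min 1 λ`, `Q = ⌊X ^ ε₁⌋₊`. For large `X`: `1 - β ≤ K / log X ≤ δ`, so `β ∈ ZR (EF χ) δ T`. `abs_exc` with `p = ⟨1, 1⟩ ≠ e`, `ae = - v ^ (β - 1)` if `e ∈ PCh Q` (else `0`), `be = - (N - v) ^ (β - 1)` if `e ∈ PCh (Q ^ 2)` (else `0`), the `α x` are the sums over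
the other zeros, and `W = Wr ε κ X - X ^ (-(1 - β)/4) ≤ η μ` (remove the term of the zero `β` of `e`, with `mz = 1`, from `Wr`; all the characters of `PCh (Q ^ 2)` and all the zeros occur in `Wr ε κ X`, as `Q ^ 2 ≤ X ^ ε`, `δ ≤ κ`). The error is at most `5 C η μ N / φ(N)`.
Main terms: `AC(p, p) = sgl Q 1 N ≥ sgi 1 N - R`, `R = C X ^ (ε₁/16) Q ^ (-1/2) ≤ X ^ (-ε₁ 2 / 5)` (`sgl_tail`). `‖AC(e, e) ae be‖ ≤ (∏_{p ∣ r} sp N p) (sgi r N + R) e ^ (-λ) ≤ (sgi 1 N + (N / φ(N)) R) e ^ (-λ)` (`AC_same`, `sgi_mul`, `prod_sp`; `|v ^ (β - 1)| ≤ X ^ (-(1 - β)/2) = e ^ (-λ/2)`, and the same for `N - v ≥ √X`), if `e ∈ PCh Q`, and `0` otherwise.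
`‖AC(e, p)‖, ‖AC(p, e)‖ ≤ C r ^ (-1/2) N / φ(N)` (`AC_mixed`), needed only if `e ∈ PCh (Q ^ 2)`.
(i) `e ∉ PCh (Q ^ 2)`: `Re Sv ≥ sgi 1 N - R - 5 C η N / φ(N) ≥ c/2`.
(ii) `e ∈ PCh (Q ^ 2)`, so `r ≤ X ^ (2 ε₁)`. `beta_lower (1/200)`: `λ ≥ c' r ^ (-1/200) log X ≥ c' X ^ (-ε₁/100)`, and `λ ≤ K` gives `r ^ (1/200) ≥ c' log X / K`, so `r ≥ (c' log X / K) ^ 200` is large. `1 - e ^ (-λ) ≥ μ / 2`. So `Re Sv ≥ sgi 1 N (1 - e ^ (-λ)) - 2 (N / φ(N)) R - 2 C r ^ (-1/2) N / φ(N) - 5 C η μ N / φ(N) ≥ (N / φ(N)) (c μ / 2 - 2 R - 2 C r ^ (-1/2) - 5 C η μ)`.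
`5 C η ≤ c / 8`; `2 R ≤ c μ / 16` because `μ ≥ min 1 (c' X ^ (-ε₁/100))` and `R ≤ X ^ (-2 ε₁/5)`; `2 C r ^ (-1/2) ≤ c μ / 16`: if `μ = λ` because `λ ≥ c' r ^ (-1/200) log X`, and if `μ = 1` because `r` is large. So `Re Sv ≥ c μ / 8 ≥ X ^ (-ε₁/40)`. -/
theorem Sv_lower_two : ∃ η₀ : ℝ, 0 < η₀ ∧ η₀ ≤ 1 ∧ ∀ ε κ K : ℝ, 0 < ε → ε ≤ 1 → 0 < κ → κ ≤ 1 / 16 → 0 < K → ∀ δ ε₁ : ℝ, 0 < δ → δ ≤ κ → 0 < ε₁ → 2 * ε₁ ≤ ε → ε₁ ≤ 1 / 100 →
    ∃ X₀ : ℝ, 3 ≤ X₀ ∧ ∀ X : ℝ, X₀ ≤ X → ∀ (r : ℕ) (χ : DirichletCharacter ℂ r) (β : ℝ), 1 < r → (r : ℝ) ≤ X ^ ε → χ.IsPrimitive → χ ≠ 1 →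
      χ ^ 2 = 1 → 1 - κ ≤ β → β < 1 → EF χ (β : ℂ) = 0 → mz (EF χ) (β : ℂ) = 1 → (1 - β) * Real.log X ≤ K →
      Wr ε κ X - X ^ (-((1 - β) / 4)) ≤ η₀ * min 1 ((1 - β) * Real.log X) →
    ∀ N ∈ Ioc ⌊X⌋₊ ⌊2 * X⌋₊, Even N → ∀ v : ℝ, 3 / 2 * Real.sqrt X ≤ v → v ≤ 39 / 10 * Real.sqrt X →
    X ^ (-(ε₁ / 40)) ≤ (Sv δ (X ^ (2 * ε₁)) X ⌊X ^ ε₁⌋₊ N v).re := by
  classical
  obtain ⟨C₀, hC₀, hAC⟩ := AC_le
  obtain ⟨C₂, hC₂, hmix⟩ := AC_mixed
  obtain ⟨c, hc, hsgi⟩ := sgi_lower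
  obtain ⟨c₁, hc₁, hbeta⟩ := beta_lower (1 / 200) (by norm_num)
  obtain ⟨C, hCdef⟩ : ∃ C, C = max C₀ C₂ := ⟨_, rfl⟩
  have hCC₀ : C₀ ≤ C := by rw [hCdef]; exact le_max_left _ _
  have hCC₂ : C₂ ≤ C := by rw [hCdef]; exact le_max_right _ _
  have hC : 1 ≤ C := hC₀.trans hCC₀
  refine ⟨min 1 (c / (40 * C)), by positivity, min_le_left _ _, ?_⟩
  intro ε κ K hε hε1 hκ hκ1 hK δ ε₁ hδ hδκ hε₁ h2ε hε₁1
  obtain ⟨C', hC', htail⟩ := sgl_tail (ε₁ / 16) (by positivity)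
  have ht1 : ∀ᶠ X : ℝ in Filter.atTop, 32 * (4 * C') * X ^ (-(7 * ε₁ / 16)) < c := by
    have h1 : Filter.Tendsto (fun X : ℝ => 32 * (4 * C') * X ^ (-(7 * ε₁ / 16))) Filter.atTop
        (nhds (32 * (4 * C') * 0)) :=
      (tendsto_rpow_neg_atTop (by positivity)).const_mul _
    rw [mul_zero] at h1
    exact (tendsto_order.1 h1).2 _ (by positivity)
  have ht1' : ∀ᶠ X : ℝ in Filter.atTop,
      32 * (4 * C') * X ^ (-(7 * ε₁ / 16 - ε₁ / 100)) < c * c₁ := by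
    have h1 : Filter.Tendsto (fun X : ℝ => 32 * (4 * C') * X ^ (-(7 * ε₁ / 16 - ε₁ / 100)))
        Filter.atTop (nhds (32 * (4 * C') * 0)) :=
      (tendsto_rpow_neg_atTop (by linarith)).const_mul _
    rw [mul_zero] at h1
    exact (tendsto_order.1 h1).2 _ (by positivity)
  have ht2 : ∀ᶠ X : ℝ in Filter.atTop, X ^ (-(ε₁ / 40)) < c / 4 :=
    (tendsto_order.1 (tendsto_rpow_neg_atTop (by positivity : 0 < ε₁ / 40))).2 _ (by positivity)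
  have ht2' : ∀ᶠ X : ℝ in Filter.atTop, X ^ (-(ε₁ / 40 - ε₁ / 100)) < c / 4 * c₁ :=
    (tendsto_order.1 (tendsto_rpow_neg_atTop (by linarith : 0 < ε₁ / 40 - ε₁ / 100))).2 _
      (by positivity)
  have hlog : ∀ D : ℝ, ∀ᶠ X : ℝ in Filter.atTop, D ≤ Real.log X := fun D =>
    Real.tendsto_log_atTop.eventually_ge_atTop D
  obtain ⟨X₁, hX₁⟩ := Filter.eventually_atTop.1 (ht1.and (ht1'.and (ht2.and (ht2'.and
    ((hlog (K / δ)).and ((hlog (32 * C * K / (c * c₁))).and ((hlog (32 * C / (c * c₁))).and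
      (hlog 1))))))))
  refine ⟨max 25 X₁, by
    have := le_max_left (25 : ℝ) X₁
    linarith, ?_⟩
  intro X hX r χ β hr hrX hχp hχ1 hχ2 hβκ hβ1 hEF hmz hlam hW N hN hNe v hv hv'
  have hX25 : 25 ≤ X := (le_max_left _ _).trans hX
  obtain ⟨hT1, hT1', hT2, hT2', hL1, hL2, hL3, hL4⟩ := hX₁ X ((le_max_right _ _).trans hX)
  obtain ⟨hN1, hN2, hQ1, hQε, hQT, hTX, hvX, hNvX⟩ :=
    MTb_basic ε ε₁ X h2ε hε₁ hε₁1 hX25 N hN v hv hv'
  obtain ⟨Q, hQ⟩ : ∃ Q, Q = ⌊X ^ ε₁⌋₊ := ⟨_, rfl⟩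
  rw [← hQ] at hQ1 hQε hQT ⊢
  have hX1 : 1 ≤ X := by linarith
  have hX0 : 0 < X := by linarith
  obtain ⟨η, hη⟩ : ∃ η, η = min 1 (c / (40 * C)) := ⟨_, rfl⟩
  rw [← hη] at hW
  have hη0 : 0 < η := by rw [hη]; positivity
  have hη1 : η ≤ 1 := by rw [hη]; exact min_le_left _ _
  have hηc : 40 * C * η ≤ c := by
    have h1 : η ≤ c / (40 * C) := by rw [hη]; exact min_le_right _ _
    rw [le_div_iff₀ (by positivity)] at h1
    linarith
  obtain ⟨R, hR⟩ : ∃ R, R = (N : ℝ) / N.totient := ⟨_, rfl⟩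
  have hR1 : 1 ≤ R := by
    have h1 : 0 < N.totient := Nat.totient_pos.2 hN1
    rw [hR, one_le_div (by exact_mod_cast h1)]
    exact_mod_cast Nat.totient_le N
  obtain ⟨lam, hlamd⟩ : ∃ lam, lam = (1 - β) * Real.log X := ⟨_, rfl⟩
  rw [← hlamd] at hlam hW
  have hlam0 : 0 < lam := by
    rw [hlamd]
    exact mul_pos (by linarith) (by linarith)
  obtain ⟨μ, hμ⟩ : ∃ μ, μ = min 1 lam := ⟨_, rfl⟩
  rw [← hμ] at hW
  have hμ0 : 0 < μ := by rw [hμ]; positivity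
  have hμ1 : μ ≤ 1 := by rw [hμ]; exact min_le_left _ _
  have hμlam : μ ≤ lam := by rw [hμ]; exact min_le_right _ _
  have hQQ : Q ≤ Q ^ 2 := Nat.le_self_pow two_ne_zero Q
  have hsub1 : PCh Q ⊆ PCh ⌊X ^ ε⌋₊ := MTb_mono (hQQ.trans hQε)
  have hsub2 : PCh (Q ^ 2) ⊆ PCh ⌊X ^ ε⌋₊ := MTb_mono hQε
  obtain ⟨e, he⟩ : ∃ e : Ch, e = ⟨r, χ⟩ := ⟨_, rfl⟩
  have heX : e ∈ PCh ⌊X ^ ε⌋₊ := by
    rw [he, MTb_mem]
    exact ⟨hr.le, Nat.le_floor hrX, hχp⟩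
  have he1 : e.2 ≠ 1 := by rw [he]; exact hχ1
  have hem : mz (EF e.2) (β : ℂ) = 1 := by rw [he]; exact hmz
  have heF : EF e.2 (β : ℂ) = 0 := by rw [he]; exact hEF
  have hnz : ∀ x : Ch, ∃ s, EF x.2 s ≠ 0 := fun x => ⟨2, EF_ne_zero x.2 2 (by simp)⟩
  have hβδ : 1 - δ ≤ β := by
    have h1 : K ≤ δ * Real.log X := by
      rw [div_le_iff₀ hδ] at hL1
      linarith
    have h2 : (1 - β) * Real.log X ≤ δ * Real.log X := by
      rw [← hlamd]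
      linarith
    have h3 := le_of_mul_le_mul_right h2 (by linarith)
    linarith
  have hβmem : ∀ (κ' T : ℝ), 1 - κ' ≤ β → 0 ≤ T → (β : ℂ) ∈ ZR (EF e.2) κ' T := by
    intro κ' T h1 h2
    rw [mem_ZR (EF e.2) (EF_diff e.2) (hnz e)]
    refine ⟨heF, ?_, ?_, ?_⟩
    · rw [Complex.ofReal_re]; exact h1
    · rw [Complex.ofReal_re]; exact hβ1.le
    · rw [Complex.ofReal_im, abs_zero]; exact h2
  have hT0 : 0 ≤ X ^ (2 * ε₁) := Real.rpow_nonneg hX0.le _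
  have hnn : ∀ x : Ch, 0 ≤ ∑ ρ ∈ MTc_S e β κ X x, (mz (EF x.2) ρ : ℝ) * X ^ (-((1 - ρ.re) / 4)) :=
    fun x => Finset.sum_nonneg fun ρ _ => mul_nonneg (Nat.cast_nonneg _)
      (Real.rpow_nonneg (by linarith) _)
  have hx : ∀ (x : Ch) (T u : ℝ), T ≤ X → Real.sqrt X ≤ u →
      ‖-∑ ρ ∈ MTc_S e β δ T x, (mz (EF x.2) ρ : ℂ) * (u : ℂ) ^ (ρ - 1)‖ ≤
      ∑ ρ ∈ MTc_S e β κ X x, (mz (EF x.2) ρ : ℝ) * X ^ (-((1 - ρ.re) / 4)) := by
    intro x T u hT hu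
    rw [norm_neg]
    refine (MTb_norm _ _ X u hX1 hu (MTc_re e β δ T x)).trans ?_
    exact Finset.sum_le_sum_of_subset_of_nonneg (MTc_sub e β δ κ T X hδκ hT x)
      (fun ρ _ _ => mul_nonneg (Nat.cast_nonneg _) (Real.rpow_nonneg (by linarith) _))
  have hWr := MTc_Wr ε κ X β e heX (hβmem κ X hβκ hX0.le) hem
  have hα : ∑ x ∈ PCh Q, ‖-∑ ρ ∈ MTc_S e β δ (X ^ (2 * ε₁)) x,
      (mz (EF x.2) ρ : ℂ) * (v : ℂ) ^ (ρ - 1)‖ ≤ η * μ := by
    refine (Finset.sum_le_sum (fun x _ => hx x (X ^ (2 * ε₁)) v hTX hvX)).trans ?_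
    refine (Finset.sum_le_sum_of_subset_of_nonneg hsub1 (fun x _ _ => hnn x)).trans ?_
    rw [hWr]
    exact hW
  have hα' : ∑ x ∈ PCh (Q ^ 2), ‖-∑ ρ ∈ MTc_S e β δ X x,
      (mz (EF x.2) ρ : ℂ) * ((N - v : ℝ) : ℂ) ^ (ρ - 1)‖ ≤ η * μ := by
    refine (Finset.sum_le_sum (fun x _ => hx x X (N - v) le_rfl hNvX)).trans ?_
    refine (Finset.sum_le_sum_of_subset_of_nonneg hsub2 (fun x _ _ => hnn x)).trans ?_
    rw [hWr]
    exact hW
  have hpe : MTb_p ≠ e := by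
    intro h
    rw [he] at h
    have := congrArg Sigma.fst h
    simp only at this
    omega
  -- the powers of v
  obtain ⟨el, hel⟩ : ∃ el, el = Real.exp (-lam) := ⟨_, rfl⟩
  have hpow : ∀ u : ℝ, Real.sqrt X ≤ u → ‖-(u : ℂ) ^ ((β : ℂ) - 1)‖ ≤ Real.exp (-(lam / 2)) := by
    intro u hu
    have hs1 : 1 ≤ Real.sqrt X := by rwa [Real.one_le_sqrt]
    rw [norm_neg, Complex.norm_cpow_eq_rpow_re_of_pos (by linarith)]
    have h2 : ((β : ℂ) - 1).re = -(1 - β) := by simp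
    rw [h2]
    calc u ^ (-(1 - β)) ≤ (Real.sqrt X) ^ (-(1 - β)) :=
          Real.rpow_le_rpow_of_nonpos (by linarith) hu (by linarith)
      _ = Real.exp (-(lam / 2)) := by
          rw [Real.sqrt_eq_rpow, ← Real.rpow_mul hX0.le, Real.rpow_def_of_pos hX0, hlamd]
          congr 1
          ring
  have hexp1 : Real.exp (-(lam / 2)) ≤ 1 := Real.exp_le_one_iff.2 (by linarith)
  obtain ⟨ae, hae⟩ : ∃ ae : ℂ, ae = if e ∈ PCh Q then -(v : ℂ) ^ ((β : ℂ) - 1) else 0 := ⟨_, rfl⟩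
  obtain ⟨be, hbe⟩ : ∃ be : ℂ, be = if e ∈ PCh (Q ^ 2) then -((N - v : ℝ) : ℂ) ^ ((β : ℂ) - 1)
    else 0 := ⟨_, rfl⟩
  have haen : ‖ae‖ ≤ Real.exp (-(lam / 2)) := by
    rw [hae]
    split_ifs
    · exact hpow v hvX
    · rw [norm_zero]; exact (Real.exp_pos _).le
  have hben : ‖be‖ ≤ Real.exp (-(lam / 2)) := by
    rw [hbe]
    split_ifs
    · exact hpow (N - v) hNvX
    · rw [norm_zero]; exact (Real.exp_pos _).le
  have habs := abs_exc (PCh Q) (PCh (Q ^ 2)) MTb_p e hpe (MTb_p_mem Q hQ1)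
    (MTb_p_mem (Q ^ 2) (hQ1.trans hQQ)) (fun x y => AC Q x.2 y.2 N) (C * R) (by positivity)
    (fun x hx y hy => by
      rw [MTb_mem] at hx hy
      refine (hAC Q x.1 y.1 N hx.1 hy.1 hN1 x.2 y.2 hy.2.2).trans ?_
      rw [← hR]
      exact mul_le_mul_of_nonneg_right hCC₀ (by linarith))
    (fun x => ax δ (X ^ (2 * ε₁)) x.2 v) (fun y => ax δ X y.2 (N - v))
    (fun x => -∑ ρ ∈ MTc_S e β δ (X ^ (2 * ε₁)) x, (mz (EF x.2) ρ : ℂ) * (v : ℂ) ^ (ρ - 1))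
    (fun x => -∑ ρ ∈ MTc_S e β δ X x, (mz (EF x.2) ρ : ℂ) * ((N - v : ℝ) : ℂ) ^ (ρ - 1))
    ae be (haen.trans hexp1) (hben.trans hexp1)
    (fun h => by rw [hae, if_neg h])
    (fun h => by rw [hbe, if_neg h])
    (fun x hx => by
      rw [hae]
      exact @MTc_ax e β δ (X ^ (2 * ε₁)) v Q (hβmem δ _ hβδ hT0) hem x hx
        (Classical.propDecidable _) (Classical.propDecidable _) _)
    (fun x hx => by
      rw [hbe]
      exact @MTc_ax e β δ X (N - v) (Q ^ 2) (hβmem δ X hβδ hX0.le) hem x hx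
        (Classical.propDecidable _) (Classical.propDecidable _) _)
    (η * μ) hα hα'
  have hmain : AC Q MTb_p.2 MTb_p.2 N = (sgl Q 1 N : ℂ) := AC_one Q N 1 1
  simp only at habs
  rw [hmain] at habs
  have hSv : Sv δ (X ^ (2 * ε₁)) X Q N v = ∑ x ∈ PCh Q, ∑ y ∈ PCh (Q ^ 2),
      AC Q x.2 y.2 N * ax δ (X ^ (2 * ε₁)) x.2 v * ax δ X y.2 (N - v) := rfl
  rw [hSv]
  obtain ⟨Z, hZ⟩ : ∃ Z, Z = ∑ x ∈ PCh Q, ∑ y ∈ PCh (Q ^ 2),
      AC Q x.2 y.2 N * ax δ (X ^ (2 * ε₁)) x.2 v * ax δ X y.2 (N - v) := ⟨_, rfl⟩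
  rw [← hZ] at habs ⊢
  -- the mixed terms
  obtain ⟨t, ht⟩ : ∃ t, t = (r : ℝ) ^ (-(1 / 2) : ℝ) := ⟨_, rfl⟩
  have hr0 : (0 : ℝ) < r := by exact_mod_cast (by omega : 0 < r)
  have hr1 : (1 : ℝ) ≤ r := by exact_mod_cast hr.le
  have ht0 : 0 ≤ t := by rw [ht]; exact Real.rpow_nonneg hr0.le _
  have hmixe : ∀ (ψ : DirichletCharacter ℂ 1), ‖AC Q e.2 ψ N‖ ≤ C * t * R ∧
      ‖AC Q ψ e.2 N‖ ≤ C * t * R := by
    intro ψ
    have h1 := hmix Q r N hr hN1 χ hχp ψ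
    rw [← hR, ← ht] at h1
    have h2 : C₂ * t * R ≤ C * t * R :=
      mul_le_mul_of_nonneg_right (mul_le_mul_of_nonneg_right hCC₂ ht0) (by linarith)
    rw [he]
    exact ⟨h1.1.trans h2, h1.2.trans h2⟩
  -- the tail
  obtain ⟨R', hR'⟩ : ∃ R', R' = 4 * C' * X ^ (-(7 * ε₁ / 16)) := ⟨_, rfl⟩
  have hR'0 : 0 ≤ R' := by
    rw [hR']
    have := Real.rpow_nonneg hX0.le (-(7 * ε₁ / 16))
    positivity
  have htl : ∀ r' : ℕ, |sgl Q r' N - sgi r' N| ≤ R' := by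
    intro r'
    have h3 := MTb_tail C' ε₁ X (by linarith) hε₁ hε₁1 hX1 N hN2
    rw [← hQ] at h3
    rw [hR']
    exact ((htail Q r' N hQ1 hN1).2).trans h3
  have hsg1 := htl 1
  rw [abs_le] at hsg1
  have hsl := hsgi N hN1 hNe
  rw [← hR] at hsl
  -- the diagonal term
  have hdiag : ‖AC Q e.2 e.2 N‖ ≤ sgi 1 N + R * R' := by
    have h1 : ‖AC Q e.2 e.2 N‖ ≤ (∏ p ∈ r.primeFactors, sp N p) * |sgl Q r N| := by
      rw [he]
      exact AC_same Q r N hr.le χ χ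
    obtain ⟨h2, h3⟩ := sgi_mul r N hr.le hN1
    obtain ⟨h4, h5⟩ := prod_sp r N hN1
    rw [← hR] at h5
    have h6 : |sgl Q r N| ≤ sgi r N + R' := by
      have h7 := htl r
      have h8 : |sgl Q r N| ≤ |sgl Q r N - sgi r N| + |sgi r N| := by
        have := abs_add_le (sgl Q r N - sgi r N) (sgi r N)
        rwa [sub_add_cancel] at this
      rw [abs_of_nonneg h3] at h8
      linarith
    calc ‖AC Q e.2 e.2 N‖ ≤ (∏ p ∈ r.primeFactors, sp N p) * |sgl Q r N| := h1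
      _ ≤ (∏ p ∈ r.primeFactors, sp N p) * (sgi r N + R') := mul_le_mul_of_nonneg_left h6 h4
      _ = sgi 1 N + (∏ p ∈ r.primeFactors, sp N p) * R' := by rw [h2]; ring
      _ ≤ sgi 1 N + R * R' := by
          have := mul_le_mul_of_nonneg_right h5 hR'0
          linarith
  have hel1 : el ≤ 1 - μ / 2 := by
    have h1 : el ≤ Real.exp (-μ) := by
      rw [hel]
      exact Real.exp_le_exp.2 (by linarith)
    have h2 : Real.exp (-μ) * (1 + μ) ≤ 1 := by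
      have h3 : 1 + μ ≤ Real.exp μ := by linarith [Real.add_one_le_exp μ]
      calc Real.exp (-μ) * (1 + μ) ≤ Real.exp (-μ) * Real.exp μ :=
            mul_le_mul_of_nonneg_left h3 (Real.exp_pos _).le
        _ = 1 := by rw [← Real.exp_add]; simp
    exact MTc_exp el (Real.exp (-μ)) μ hμ0 hμ1 h1 h2
  have hel0 : 0 ≤ el := by rw [hel]; exact (Real.exp_pos _).le
  have hee : Real.exp (-(lam / 2)) * Real.exp (-(lam / 2)) = el := by
    rw [hel, ← Real.exp_add]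
    congr 1
    ring
  have hW5 : 4 * (η * μ) + (η * μ) ^ 2 ≤ 5 * (η * μ) := MTc_five η μ hη0 hμ0 hη1 hμ1
  have hCR : 0 ≤ C * R := by positivity
  have hre := (Complex.abs_re_le_norm _).trans habs
  have hre2 : C * R * (4 * (η * μ) + (η * μ) ^ 2) ≤ C * R * (5 * (η * μ)) :=
    mul_le_mul_of_nonneg_left hW5 hCR
  obtain ⟨M1, hM1⟩ : ∃ M1 : ℂ, M1 = AC Q e.2 MTb_p.2 N * ae := ⟨_, rfl⟩
  obtain ⟨M2, hM2⟩ : ∃ M2 : ℂ, M2 = AC Q MTb_p.2 e.2 N * be := ⟨_, rfl⟩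
  obtain ⟨M3, hM3⟩ : ∃ M3 : ℂ, M3 = AC Q e.2 e.2 N * ae * be := ⟨_, rfl⟩
  rw [← hM1, ← hM2, ← hM3] at hre
  rw [Complex.sub_re, Complex.add_re, Complex.add_re, Complex.add_re, Complex.ofReal_re,
    abs_le] at hre
  have hrM1 := Complex.abs_re_le_norm M1
  have hrM2 := Complex.abs_re_le_norm M2
  have hrM3 := Complex.abs_re_le_norm M3
  rw [abs_le] at hrM1 hrM2 hrM3
  have hCtR : 0 ≤ C * t * R := by positivity
  have hnM1 : ‖M1‖ ≤ C * t * R := by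
    rw [hM1, norm_mul]
    calc ‖AC Q e.2 MTb_p.2 N‖ * ‖ae‖ ≤ C * t * R * 1 :=
          mul_le_mul (hmixe _).1 (haen.trans hexp1) (norm_nonneg _) hCtR
      _ = C * t * R := mul_one _
  have hnM2 : ‖M2‖ ≤ C * t * R := by
    rw [hM2, norm_mul]
    calc ‖AC Q MTb_p.2 e.2 N‖ * ‖be‖ ≤ C * t * R * 1 :=
          mul_le_mul (hmixe _).2 (hben.trans hexp1) (norm_nonneg _) hCtR
      _ = C * t * R := mul_one _
  have hs10 : 0 ≤ sgi 1 N := by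
    have : 0 ≤ c * R := by positivity
    linarith
  have hnM3 : ‖M3‖ ≤ (sgi 1 N + R * R') * el := by
    rw [hM3, norm_mul, norm_mul, mul_assoc, ← hee]
    have h1 : 0 ≤ sgi 1 N + R * R' := by positivity
    exact mul_le_mul hdiag (mul_le_mul haen hben (norm_nonneg _) (Real.exp_pos _).le)
      (by positivity) h1
  by_cases heQ : e ∈ PCh (Q ^ 2)
  · -- the exceptional modulus is small
    have hrQ : (r : ℝ) ≤ X ^ (2 * ε₁) := by
      rw [he, MTb_mem] at heQ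
      have h1 : (r : ℝ) ≤ ((Q ^ 2 : ℕ) : ℝ) := by exact_mod_cast heQ.2.1
      exact h1.trans hQT
    have hb := hbeta r χ hr.le hχp hχ1 hχ2 β (by linarith) hβ1 hEF
    obtain ⟨τ, hτ⟩ : ∃ τ, τ = (r : ℝ) ^ (-(1 / 200) : ℝ) := ⟨_, rfl⟩
    rw [← hτ] at hb
    have hτ0 : 0 < τ := by rw [hτ]; exact Real.rpow_pos_of_pos hr0 _
    have htτ : t ≤ τ := by
      rw [ht, hτ]
      exact Real.rpow_le_rpow_of_exponent_le hr1 (by norm_num)
    have hτX : X ^ (-(ε₁ / 100)) ≤ τ := by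
      rw [hτ]
      calc X ^ (-(ε₁ / 100)) = (X ^ (2 * ε₁)) ^ (-(1 / 200) : ℝ) := by
            rw [← Real.rpow_mul hX0.le]
            congr 1
            ring
        _ ≤ (r : ℝ) ^ (-(1 / 200) : ℝ) :=
            Real.rpow_le_rpow_of_nonpos hr0 hrQ (by norm_num)
    have hlamτ : c₁ * τ * Real.log X ≤ lam := by
      rw [hlamd]
      exact mul_le_mul_of_nonneg_right hb (by linarith)
    have hcc : 0 < c * c₁ := by positivity
    rw [div_le_iff₀ hcc] at hL2 hL3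
    have htμ : 32 * C * t ≤ c * μ := by
      have h1 : 32 * C * t ≤ 32 * C * τ := mul_le_mul_of_nonneg_left htτ (by positivity)
      have h2 : 32 * C * τ ≤ c * lam := by
        have h3 : 32 * C * τ ≤ Real.log X * (c * c₁) * τ := mul_le_mul_of_nonneg_right hL3 hτ0.le
        have h4 : Real.log X * (c * c₁) * τ = c * (c₁ * τ * Real.log X) := by ring
        rw [h4] at h3
        exact h3.trans (mul_le_mul_of_nonneg_left hlamτ hc.le)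
      have h3 : 32 * C * τ ≤ c * 1 := by
        -- c₁ τ L ≤ K
        have h4 : c₁ * τ * Real.log X ≤ K := hlamτ.trans hlam
        have h5 : 32 * C * K ≤ Real.log X * (c * c₁) := hL2
        have h6 : 32 * C * τ * (c₁ * Real.log X) ≤ c * (c₁ * Real.log X) := by
          calc 32 * C * τ * (c₁ * Real.log X) = 32 * C * (c₁ * τ * Real.log X) := by ring
            _ ≤ 32 * C * K := mul_le_mul_of_nonneg_left h4 (by positivity)
            _ ≤ Real.log X * (c * c₁) := h5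
            _ = c * (c₁ * Real.log X) := by ring
        have h7 : 0 < c₁ * Real.log X := by
          have : 0 < Real.log X := by linarith
          positivity
        have := le_of_mul_le_mul_right h6 h7
        linarith
      rw [hμ]
      rcases le_total 1 lam with h | h
      · rw [min_eq_left h]; linarith
      · rw [min_eq_right h]; linarith
    have hμlow : c₁ * X ^ (-(ε₁ / 100)) ≤ lam := by
      calc c₁ * X ^ (-(ε₁ / 100)) ≤ c₁ * τ := mul_le_mul_of_nonneg_left hτX hc₁.le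
        _ = c₁ * τ * 1 := (mul_one _).symm
        _ ≤ c₁ * τ * Real.log X := mul_le_mul_of_nonneg_left hL4 (by positivity)
        _ ≤ lam := hlamτ
    have hR'μ : 32 * R' ≤ c * μ := by
      have h1 : 32 * R' = 32 * (4 * C') * X ^ (-(7 * ε₁ / 16)) := by rw [hR']; ring
      rw [hμ]
      rcases le_total 1 lam with h | h
      · rw [min_eq_left h, h1]; linarith
      · rw [min_eq_right h, h1]
        have h2 : X ^ (-(7 * ε₁ / 16)) = X ^ (-(7 * ε₁ / 16 - ε₁ / 100)) * X ^ (-(ε₁ / 100)) := by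
          rw [← Real.rpow_add hX0]
          congr 1
          ring
        have h3 : 0 ≤ X ^ (-(ε₁ / 100)) := Real.rpow_nonneg hX0.le _
        rw [h2]
        calc 32 * (4 * C') * (X ^ (-(7 * ε₁ / 16 - ε₁ / 100)) * X ^ (-(ε₁ / 100)))
            = 32 * (4 * C') * X ^ (-(7 * ε₁ / 16 - ε₁ / 100)) * X ^ (-(ε₁ / 100)) := by ring
          _ ≤ c * c₁ * X ^ (-(ε₁ / 100)) := mul_le_mul_of_nonneg_right hT1'.le h3
          _ = c * (c₁ * X ^ (-(ε₁ / 100))) := by ring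
          _ ≤ c * lam := mul_le_mul_of_nonneg_left hμlow hc.le
    have hfin := MTc_final c C η μ el R R' t (sgi 1 N) Z.re hc hR1 hμ0 hel1 hηc
      hsl hR'μ hR'0 htμ (by linarith [hre.1, hrM1.1, hrM2.1, hrM3.1, hsg1.1])
    refine le_trans ?_ hfin
    rw [hμ]
    rcases le_total 1 lam with h | h
    · rw [min_eq_left h]; linarith
    · rw [min_eq_right h]
      have h2 : X ^ (-(ε₁ / 40)) = X ^ (-(ε₁ / 40 - ε₁ / 100)) * X ^ (-(ε₁ / 100)) := by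
        rw [← Real.rpow_add hX0]
        congr 1
        ring
      have h3 : 0 ≤ X ^ (-(ε₁ / 100)) := Real.rpow_nonneg hX0.le _
      rw [h2]
      calc X ^ (-(ε₁ / 40 - ε₁ / 100)) * X ^ (-(ε₁ / 100))
          ≤ c / 4 * c₁ * X ^ (-(ε₁ / 100)) := mul_le_mul_of_nonneg_right hT2'.le h3
        _ = c / 4 * (c₁ * X ^ (-(ε₁ / 100))) := by ring
        _ ≤ c / 4 * lam := mul_le_mul_of_nonneg_left hμlow (by positivity)
  · -- no exceptional character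
    have heQ' : e ∉ PCh Q := fun h => heQ (MTb_mono hQQ h)
    have hae0 : ae = 0 := by rw [hae, if_neg heQ']
    have hbe0 : be = 0 := by rw [hbe, if_neg heQ]
    have hM10 : M1.re = 0 := by rw [hM1, hae0, mul_zero]; rfl
    have hM20 : M2.re = 0 := by rw [hM2, hbe0, mul_zero]; rfl
    have hM30 : M3.re = 0 := by rw [hM3, hbe0, mul_zero]; rfl
    rw [hM10, hM20, hM30] at hre
    have h1 : 32 * R' ≤ c := by
      have h1 : 32 * R' = 32 * (4 * C') * X ^ (-(7 * ε₁ / 16)) := by rw [hR']; ring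
      rw [h1]
      exact hT1.le
    have h2 : C * R * (5 * (η * μ)) ≤ c / 8 * R :=
      MTc_err c C η μ R (by linarith) hη0 hμ1 hR1 hηc
    have hcR : c ≤ c * R := le_mul_of_one_le_right hc.le hR1
    linarith [hre.1, hsg1.1, hsl, h1, h2, hT2, hc, hre2]

end Pool.Agent.PSG
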