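import Pool.Agent.W_b58c63_h44.MTb
import Pool.Agent.W_b58c63_h44.MTc

/-!
# The lower bound for the main term
-/

set_option autoImplicit false

noncomputable section

open Finset Complex MeasureTheory

namespace Pool.Agent.PSG

open Pool.Agent.Wb58c63 (prim ee)

theorem MTd_int (δ T X : ℝ) (hX : 64 ≤ X) (Q N : ℕ) (hN : X ≤ N) :
    Integrable (fun v : ℝ => (g0 (v / Real.sqrt X) : ℂ) * Sv δ T X Q N v) := by
  have e1 : (fun v : ℝ => (g0 (v / Real.sqrt X) : ℂ) * Sv δ T X Q N v) =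
      fun v => ∑ x ∈ PCh Q, ∑ y ∈ PCh (Q ^ 2), AC Q x.2 y.2 N *
        ((g0 (v / Real.sqrt X) : ℂ) * (ax δ T x.2 v * ax δ X y.2 (N - v))) := by
    funext v
    unfold Sv
    rw [Finset.mul_sum]
    refine Finset.sum_congr rfl fun x _ => ?_
    rw [Finset.mul_sum]
    refine Finset.sum_congr rfl fun y _ => ?_
    ring
  rw [e1]
  apply integrable_finsetSum
  intro x _
  apply integrable_finsetSum
  intro y _
  exact (MTa_int δ T X hX N hN x.2 y.2).const_mul _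

theorem MTd_low (δ T X : ℝ) (hX : 64 ≤ X) (Q N : ℕ) (hN : X ≤ N) (c : ℝ) (hc : 0 ≤ c)
    (h : ∀ v : ℝ, 3 / 2 * Real.sqrt X ≤ v → v ≤ 39 / 10 * Real.sqrt X → c ≤ (Sv δ T X Q N v).re) :
    Real.sqrt X * c ≤ (∫ v : ℝ, (g0 (v / Real.sqrt X) : ℂ) * Sv δ T X Q N v).re := by
  obtain ⟨g1, g2, g3, _⟩ := g0_facts
  have hX0 : 0 < X := by linarith
  have hs0 : 0 < Real.sqrt X := Real.sqrt_pos.mpr hX0
  have hint := MTd_int δ T X hX Q N hN
  have hre : (∫ v : ℝ, (g0 (v / Real.sqrt X) : ℂ) * Sv δ T X Q N v).re =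
      ∫ v : ℝ, ((g0 (v / Real.sqrt X) : ℂ) * Sv δ T X Q N v).re :=
    (Complex.reCLM.integral_comp_comm hint).symm
  rw [hre]
  have hint2 : Integrable (fun v : ℝ => ((g0 (v / Real.sqrt X) : ℂ) * Sv δ T X Q N v).re) :=
    Complex.reCLM.integrable_comp hint
  have hind : Integrable (Set.indicator (Set.Icc (2 * Real.sqrt X) (3 * Real.sqrt X)) (fun _ : ℝ => c)) := by
    rw [integrable_indicator_iff measurableSet_Icc]
    exact integrableOn_const (by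
      rw [Real.volume_Icc]
      exact ENNReal.ofReal_ne_top)
  have hval : ∫ v : ℝ, Set.indicator (Set.Icc (2 * Real.sqrt X) (3 * Real.sqrt X)) (fun _ : ℝ => c) v =
      Real.sqrt X * c := by
    rw [integral_indicator measurableSet_Icc, setIntegral_const, Real.volume_real_Icc, smul_eq_mul]
    congr 1
    rw [max_eq_left (by linarith)]
    ring
  rw [← hval]
  apply integral_mono hind hint2
  intro v
  show Set.indicator (Set.Icc (2 * Real.sqrt X) (3 * Real.sqrt X)) (fun _ : ℝ => c) v ≤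
    ((g0 (v / Real.sqrt X) : ℂ) * Sv δ T X Q N v).re
  rw [Complex.re_ofReal_mul]
  by_cases hv : v ∈ Set.Icc (2 * Real.sqrt X) (3 * Real.sqrt X)
  · rw [Set.indicator_of_mem hv]
    have h1 : g0 (v / Real.sqrt X) = 1 := by
      apply g3
      · rw [le_div_iff₀ hs0]; exact hv.1
      · rw [div_le_iff₀ hs0]; exact hv.2
    rw [h1, one_mul]
    exact h v (by linarith [hv.1]) (by linarith [hv.2])
  · rw [Set.indicator_of_notMem hv]
    by_cases hg : v / Real.sqrt X ∈ Set.Icc (3 / 2 : ℝ) (39 / 10)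
    · apply mul_nonneg (g1 _).1
      refine hc.trans (h v ?_ ?_)
      · have := hg.1
        rwa [le_div_iff₀ hs0] at this
      · have := hg.2
        rwa [div_le_iff₀ hs0] at this
    · rw [g2 _ hg, zero_mul]

/-- **The lower bound for the main term.**

Proof. `η₀` is the minimum of the two constants (the hypotheses are monotone in `η`; `min 1 λ ≥ 0`). `MT_eq`: the real part of the integral is at least `X ^ (-ε₁/40) ∫ g0 (v / √X) dv ≥ X ^ (-ε₁/40) √X` (`g0 = 1` on `[2, 3]`, `g0 ≥ 0`, supported in `[3/2, 39/10]`). -/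
theorem MT_lower : ∃ η₀ : ℝ, 0 < η₀ ∧ η₀ ≤ 1 ∧ ∀ ε κ K : ℝ, 0 < ε → ε ≤ 1 → 0 < κ → κ ≤ 1 / 16 → 0 < K → ∀ δ ε₁ : ℝ, 0 < δ → δ ≤ κ → 0 < ε₁ → 2 * ε₁ ≤ ε → ε₁ ≤ 1 / 100 →
    ∃ X₀ : ℝ, 3 ≤ X₀ ∧ ∀ X : ℝ, X₀ ≤ X → Pack η₀ ε κ K X → ∀ N ∈ Ioc ⌊X⌋₊ ⌊2 * X⌋₊, Even N →
    Real.sqrt X * X ^ (-(ε₁ / 40)) ≤ (MT δ ε₁ X N).re := by
  obtain ⟨η₁, hη₁, hη₁1, H1⟩ := Sv_lower_one
  obtain ⟨η₂, hη₂, hη₂1, H2⟩ := Sv_lower_two
  refine ⟨min η₁ η₂, lt_min hη₁ hη₂, (min_le_left _ _).trans hη₁1, ?_⟩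
  intro ε κ K hε hε1 hκ hκ1 hK δ ε₁ hδ hδκ hε₁ hε₁2 hε₁3
  obtain ⟨X₁, hX₁, G1⟩ := H1 ε κ hε hε1 hκ hκ1 δ ε₁ hδ hδκ hε₁ hε₁2 hε₁3
  obtain ⟨X₂, hX₂, G2⟩ := H2 ε κ K hε hε1 hκ hκ1 hK δ ε₁ hδ hδκ hε₁ hε₁2 hε₁3
  refine ⟨max 64 (max X₁ X₂), by
    have := le_max_left (64 : ℝ) (max X₁ X₂)
    linarith, ?_⟩
  intro X hX hP N hN hNe
  have hX64 : 64 ≤ X := (le_max_left _ _).trans hX
  have hXX₁ : X₁ ≤ X := (le_max_left _ _).trans ((le_max_right _ _).trans hX)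
  have hXX₂ : X₂ ≤ X := (le_max_right _ _).trans ((le_max_right _ _).trans hX)
  have hXN : X ≤ N := by
    have h1 := (Finset.mem_Ioc.mp hN).1
    exact (Nat.lt_of_floor_lt h1).le
  rw [MT_eq δ ε₁ X hδ (hδκ.trans hκ1) hX64 N hXN]
  apply MTd_low δ _ X hX64 _ N hXN _ (Real.rpow_nonneg (by linarith) _)
  intro v hv1 hv2
  rcases hP with h | ⟨r, χ, β, h1, h2, h3, h4, h5, h6, h7, h8, h9, h10, h11⟩
  · exact G1 X hXX₁ (h.trans (min_le_left _ _)) N hN hNe v hv1 hv2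
  · refine G2 X hXX₂ r χ β h1 h2 h3 h4 h5 h6 h7 h8 h9 h10 (h11.trans ?_) N hN hNe v hv1 hv2
    apply mul_le_mul_of_nonneg_right (min_le_right _ _)
    exact le_min zero_le_one (mul_nonneg (by linarith) (Real.log_nonneg (by linarith)))

end Pool.Agent.PSG
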