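import Pool.Agent.W_b58c63_h44.Dg

/-!
# From weighted sums to Goldbach partitions
-/

set_option autoImplicit false

noncomputable section

open Finset Complex

namespace Pool.Agent.PSG

open Classical in
/-- The primes `p` in the window with `N - p` a different prime. -/
def RC (N : ℕ) : Finset ℕ :=
  (range (N + 1)).filter (fun p => p.Prime ∧ (N - p).Prime ∧ p ≠ N - p ∧ Real.sqrt N < p ∧ (p : ℝ) < 4 * Real.sqrt N)

/-- Prime powers with the same exponent `a ≥ 2` in a short interval have close roots. -/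
theorem PP_gap {X : ℝ} (hX : 64 ≤ X) {a l l' : ℕ} (ha : 2 ≤ a) (hl : l ≤ l') (N : ℝ) (hN : X < N)
    (h1 : N - 39 / 10 * Real.sqrt X ≤ (l : ℝ) ^ a) (h2 : (l' : ℝ) ^ a ≤ N) : l' ≤ l + 5 := by
  have hX0 : 0 < X := by linarith
  have hs8 : 8 ≤ Real.sqrt X := by
    rw [show (8 : ℝ) = Real.sqrt 64 by
      rw [show (64 : ℝ) = 8 ^ 2 by norm_num, Real.sqrt_sq (by norm_num)]]
    exact Real.sqrt_le_sqrt hX
  have hss : Real.sqrt X * Real.sqrt X = X := Real.mul_self_sqrt hX0.le
  have hlow : X / 2 ≤ (l : ℝ) ^ a := by nlinarith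
  obtain ⟨b, rfl⟩ : ∃ b, a = b + 1 := ⟨a - 1, by omega⟩
  have hl1 : 1 ≤ l := by
    rcases Nat.eq_zero_or_pos l with h | h
    · rw [h] at hlow
      simp at hlow
      linarith
    · exact h
  have hl1r : (1 : ℝ) ≤ l := by exact_mod_cast hl1
  have hll : (l : ℝ) ≤ l' := by exact_mod_cast hl
  have hpow : (l : ℝ) ^ (b + 1) ≤ ((l : ℝ) ^ b) ^ 2 := by
    rw [← pow_mul]
    exact pow_le_pow_right₀ hl1r (by omega)
  have hb0 : 0 < (l : ℝ) ^ b := by positivity
  -- `l ^ b ≥ √X / √2`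
  have hbs : Real.sqrt X ^ 2 / 2 ≤ ((l : ℝ) ^ b) ^ 2 := by
    rw [sq, hss]
    linarith
  have hgap : ((l' : ℝ) - l) * (l : ℝ) ^ b ≤ 39 / 10 * Real.sqrt X := by
    have h3 : (l : ℝ) ^ b ≤ (l' : ℝ) ^ b := pow_le_pow_left₀ (by positivity) hll b
    have h4 : (l' : ℝ) * (l : ℝ) ^ b ≤ (l' : ℝ) ^ (b + 1) := by
      rw [pow_succ, mul_comm]
      exact mul_le_mul_of_nonneg_right h3 (by positivity)
    have h5 : (l : ℝ) * (l : ℝ) ^ b = (l : ℝ) ^ (b + 1) := by
      rw [pow_succ, mul_comm]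
    linarith [h4, h5]
  by_contra hcon
  push Not at hcon
  have h6 : (6 : ℝ) ≤ (l' : ℝ) - l := by
    have h7 : ((l + 6 : ℕ) : ℝ) ≤ l' := by exact_mod_cast (by omega : l + 6 ≤ l')
    push_cast at h7
    linarith
  have h7 : 6 * (l : ℝ) ^ b ≤ 39 / 10 * Real.sqrt X :=
    (mul_le_mul_of_nonneg_right h6 hb0.le).trans hgap
  nlinarith [Real.sqrt_nonneg X]

/-- The number of proper prime powers in a short interval. -/
theorem PP_count {X : ℝ} (hX : 64 ≤ X) (N : ℕ) (hN : X < N) (hN2 : (N : ℝ) ≤ 2 * X) (s : Finset ℕ)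
    (hs : ∀ m ∈ s, IsPrimePow m ∧ ¬ m.Prime ∧ m ≤ N ∧ (N : ℝ) - 39 / 10 * Real.sqrt X ≤ m) :
    (s.card : ℝ) ≤ 24 * Real.log X := by
  classical
  have hX0 : 0 < X := by linarith
  obtain ⟨e, he⟩ : ∃ e : ℕ → ℕ, ∀ m, e m = m.factorization m.minFac := ⟨_, fun _ => rfl⟩
  have hpow : ∀ m ∈ s, m.minFac ^ e m = m := fun m hm => by
    rw [he]
    exact (hs m hm).1.minFac_pow_factorization_eq
  have hprime : ∀ m ∈ s, m.minFac.Prime := fun m hm =>
    Nat.minFac_prime (hs m hm).1.ne_one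
  have he2 : ∀ m ∈ s, 2 ≤ e m := by
    intro m hm
    have h1 := hpow m hm
    have h2 := (hs m hm).1.ne_one
    by_contra hcon
    push Not at hcon
    interval_cases h : e m
    · rw [pow_zero] at h1
      exact h2 h1.symm
    · rw [pow_one] at h1
      exact (hs m hm).2.1 (h1 ▸ hprime m hm)
  have hmaps : ∀ m ∈ s, e m ∈ Finset.Icc 1 (Nat.log 2 N) := by
    intro m hm
    rw [Finset.mem_Icc]
    refine ⟨by have := he2 m hm; omega, ?_⟩
    refine Nat.le_log_of_pow_le (by norm_num) ?_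
    calc 2 ^ e m ≤ m.minFac ^ e m := Nat.pow_le_pow_left (hprime m hm).two_le _
      _ = m := hpow m hm
      _ ≤ N := (hs m hm).2.2.1
  have hfib : ∀ a ∈ Finset.Icc 1 (Nat.log 2 N), (s.filter (fun m => e m = a)).card ≤ 6 := by
    intro a _
    rcases (s.filter (fun m => e m = a)).eq_empty_or_nonempty with h | h
    · rw [h]
      simp
    · obtain ⟨m0, hm0, hmin⟩ := Finset.exists_min_image _ (fun m => m.minFac) h
      rw [Finset.mem_filter] at hm0
      have hcard : (s.filter (fun m => e m = a)).card ≤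
          (Finset.Icc m0.minFac (m0.minFac + 5)).card := by
        refine Finset.card_le_card_of_injOn (fun m => m.minFac) ?_ ?_
        · intro m hm
          have hm' := hm
          rw [Finset.mem_coe, Finset.mem_filter] at hm
          rw [Finset.mem_coe, Finset.mem_Icc]
          refine ⟨hmin m hm', ?_⟩
          have e1 : ((m.minFac : ℕ) : ℝ) ^ a = m := by
            have := hpow m hm.1
            rw [hm.2] at this
            exact_mod_cast this
          have e2 : ((m0.minFac : ℕ) : ℝ) ^ a = m0 := by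
            have := hpow m0 hm0.1
            rw [hm0.2] at this
            exact_mod_cast this
          have ha2 : 2 ≤ a := by
            rw [← hm.2]
            exact he2 m hm.1
          refine PP_gap hX ha2 (hmin m hm') (N : ℝ) hN ?_ ?_
          · rw [e2]
            exact (hs m0 hm0.1).2.2.2
          · rw [e1]
            exact_mod_cast (hs m hm.1).2.2.1
        · intro m hm m' hm' hmm
          rw [Finset.mem_coe, Finset.mem_filter] at hm hm'
          have hmm' : m.minFac = m'.minFac := hmm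
          have h1 := hpow m hm.1
          have h2 := hpow m' hm'.1
          rw [← h1, ← h2, hm.2, hm'.2, hmm']
      refine hcard.trans ?_
      rw [Nat.card_Icc]
      omega
  have hcard := Finset.card_le_mul_card_image_of_maps_to hmaps 6 hfib
  rw [Nat.card_Icc, Nat.add_sub_cancel] at hcard
  have hlog : (Nat.log 2 N : ℝ) ≤ 4 * Real.log X := by
    have hN0 : N ≠ 0 := by
      rintro rfl
      simp at hN
      linarith
    have h1 : (2 : ℝ) ^ (Nat.log 2 N) ≤ N := by exact_mod_cast Nat.pow_log_le_self 2 hN0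
    have h2 := Real.log_le_log (by positivity) h1
    rw [Real.log_pow] at h2
    have h3 : Real.log N ≤ Real.log (2 * X) := Real.log_le_log (by positivity) hN2
    rw [Real.log_mul (by norm_num) hX0.ne'] at h3
    have h4 : Real.log 2 ≤ Real.log X := Real.log_le_log (by norm_num) (by linarith)
    have h5 : 0.6931471803 < Real.log 2 := Real.log_two_gt_d9
    nlinarith [Nat.cast_nonneg (α := ℝ) (Nat.log 2 N)]
  have hcard' : (s.card : ℝ) ≤ 6 * Nat.log 2 N := by exact_mod_cast hcard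
  linarith

/-- **Genuine partitions from the weighted count.**

Proof. A nonzero term has `p = N - m` prime with `g0 (p / √X) ≠ 0`, so `3/2 √X ≤ p ≤ 39/10 √X`, hence `√N < p < 4 √N` (`X < N ≤ 2 X`, `√2 < 3/2`, `39/10 < 4`), and `m = N - p` a prime power. If `m` is prime, then `m ≠ p` (`m ≥ X - 4 √X > 4 √X`), so `p ∈ RC N`; such a term is at most `log (2 X) log (4 √X) ≤ 2 log X ^ 2`.
Otherwise `m = l ^ a` with `a ≥ 2`, `l` prime, is a proper prime power in `[N - 4 √X, N]`. For `a ≥ 2` the number of the integers `l` with `l ^ a ∈ [N - 4 √X, N]` is at most `1 + (N ^ (1/a) - (N - 4 √X) ^ (1/a)) ≤ 1 + 8` (for `a = 2`: `4 √X / (√N + √(N - 4 √X)) ≤ 4`; for larger `a` the difference is smaller: mean value theorem), and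
`a ≤ log (2 X) / log 2`. So there are at most `20 log X` such terms, each of size at most `2 log X ^ 2`. -/
theorem rep_of_large : ∃ C X₀ : ℝ, 1 ≤ C ∧ 3 ≤ X₀ ∧ ∀ X : ℝ, X₀ ≤ X → ∀ N ∈ Ioc ⌊X⌋₊ ⌊2 * X⌋₊,
    ‖∑ m ∈ Icc 1 N, (ArithmeticFunction.vonMangoldt m : ℂ) * fP X (N - m)‖ ≤ C * Real.log X ^ 3 + 2 * Real.log X ^ 2 * ((RC N).card : ℝ) := by
  refine ⟨48, Real.exp 6, by norm_num, ?_, ?_⟩
  · have := Real.add_one_le_exp (6 : ℝ)
    linarith
  intro X hX N hN
  rw [Finset.mem_Ioc] at hN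
  have hL6 : 6 ≤ Real.log X := by
    rw [← Real.log_exp 6]
    exact Real.log_le_log (Real.exp_pos _) hX
  have hX64 : 64 ≤ X := by
    refine le_trans ?_ hX
    have h1 : (2.7182818283 : ℝ) < Real.exp 1 := Real.exp_one_gt_d9
    have h2 : Real.exp 6 = Real.exp 1 ^ 6 := by
      rw [← Real.exp_nat_mul]
      norm_num
    rw [h2]
    calc (64 : ℝ) = 2 ^ 6 := by norm_num
      _ ≤ Real.exp 1 ^ 6 := pow_le_pow_left₀ (by norm_num) (by linarith) 6
  have hX0 : 0 < X := by linarith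
  have hNX : X < N := by
    have h1 : X < (⌊X⌋₊ : ℝ) + 1 := Nat.lt_floor_add_one X
    have h2 : ((⌊X⌋₊ + 1 : ℕ) : ℝ) ≤ N := by exact_mod_cast hN.1
    push_cast at h2
    linarith
  have hNX2 : (N : ℝ) ≤ 2 * X := (Nat.le_floor_iff (by positivity)).1 hN.2
  have hsX : 0 < Real.sqrt X := Real.sqrt_pos.2 hX0
  have hss : Real.sqrt X * Real.sqrt X = X := Real.mul_self_sqrt hX0.le
  have hs8 : 8 ≤ Real.sqrt X := by
    rw [show (8 : ℝ) = Real.sqrt 64 by
      rw [show (64 : ℝ) = 8 ^ 2 by norm_num, Real.sqrt_sq (by norm_num)]]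
    exact Real.sqrt_le_sqrt hX64
  have hL0 : 0 < Real.log X := by linarith
  have hlog2 : Real.log 2 < 0.6931471808 := Real.log_two_lt_d9
  -- the facts on a nonzero term
  have hterm : ∀ m ∈ Icc 1 N, (ArithmeticFunction.vonMangoldt m : ℂ) * fP X (N - m) ≠ 0 →
      IsPrimePow m ∧ (N - m).Prime ∧ 3 / 2 * Real.sqrt X ≤ ((N - m : ℕ) : ℝ) ∧
        ((N - m : ℕ) : ℝ) ≤ 39 / 10 * Real.sqrt X := by
    intro m _ hne
    have h1 : ArithmeticFunction.vonMangoldt m ≠ 0 := by
      intro h0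
      rw [h0, Complex.ofReal_zero, zero_mul] at hne
      exact hne rfl
    have h2 : fP X (N - m) ≠ 0 := right_ne_zero_of_mul hne
    unfold fP at h2
    have h3 : (N - m).Prime := by
      by_contra hcon
      rw [if_neg hcon] at h2
      exact h2 rfl
    rw [if_pos h3] at h2
    have h4 : g0 (((N - m : ℕ) : ℝ) / Real.sqrt X) ≠ 0 := by
      intro h0
      rw [h0, mul_zero, Complex.ofReal_zero] at h2
      exact h2 rfl
    have h5 : ((N - m : ℕ) : ℝ) / Real.sqrt X ∈ Set.Icc (3 / 2 : ℝ) (39 / 10) := by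
      by_contra hcon
      exact h4 (g0_facts.2.1 _ hcon)
    refine ⟨ArithmeticFunction.vonMangoldt_ne_zero_iff.1 h1, h3, ?_, ?_⟩
    · have := h5.1
      rw [le_div_iff₀ hsX] at this
      exact this
    · have := h5.2
      rw [div_le_iff₀ hsX] at this
      exact this
  have hbound : ∀ m ∈ Icc 1 N, ‖(ArithmeticFunction.vonMangoldt m : ℂ) * fP X (N - m)‖ ≤
      2 * Real.log X ^ 2 := by
    intro m hm
    by_cases hne : (ArithmeticFunction.vonMangoldt m : ℂ) * fP X (N - m) = 0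
    · rw [hne, norm_zero]
      positivity
    obtain ⟨h1, h2, h3, h4⟩ := hterm m hm hne
    rw [Finset.mem_Icc] at hm
    have hm1 : (1 : ℝ) ≤ m := by exact_mod_cast hm.1
    have hmN : (m : ℝ) ≤ N := by exact_mod_cast hm.2
    have e1 : ArithmeticFunction.vonMangoldt m ≤ Real.log 2 + Real.log X := by
      refine ArithmeticFunction.vonMangoldt_le_log.trans ?_
      rw [← Real.log_mul (by norm_num) hX0.ne']
      exact Real.log_le_log (by linarith) (hmN.trans hNX2)
    have hp0 : (0 : ℝ) < ((N - m : ℕ) : ℝ) := by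
      exact_mod_cast h2.pos
    have hp1 : (1 : ℝ) ≤ ((N - m : ℕ) : ℝ) := by
      exact_mod_cast h2.pos
    have e2 : Real.log ((N - m : ℕ) : ℝ) ≤ 2 * Real.log 2 + Real.log X / 2 := by
      have h5 : ((N - m : ℕ) : ℝ) ≤ 4 * Real.sqrt X := by nlinarith
      have h6 := Real.log_le_log hp0 h5
      rw [Real.log_mul (by norm_num) hsX.ne', Real.log_sqrt hX0.le,
        show (4 : ℝ) = 2 ^ 2 by norm_num, Real.log_pow] at h6
      push_cast at h6
      exact h6
    have e3 : 0 ≤ Real.log ((N - m : ℕ) : ℝ) := Real.log_nonneg hp1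
    have e4 : 0 ≤ ArithmeticFunction.vonMangoldt m := ArithmeticFunction.vonMangoldt_nonneg
    obtain ⟨g1, g2⟩ := g0_facts.1 (((N - m : ℕ) : ℝ) / Real.sqrt X)
    have e5 : ‖fP X (N - m)‖ ≤ 2 * Real.log 2 + Real.log X / 2 := by
      unfold fP
      rw [if_pos h2, Complex.norm_real, Real.norm_eq_abs, abs_of_nonneg (mul_nonneg e3 g1)]
      calc Real.log ((N - m : ℕ) : ℝ) * g0 (((N - m : ℕ) : ℝ) / Real.sqrt X)
          ≤ Real.log ((N - m : ℕ) : ℝ) * 1 := mul_le_mul_of_nonneg_left g2 e3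
        _ ≤ _ := by rw [mul_one]; exact e2
    rw [norm_mul, Complex.norm_real, Real.norm_eq_abs, abs_of_nonneg e4]
    calc ArithmeticFunction.vonMangoldt m * ‖fP X (N - m)‖
        ≤ (Real.log 2 + Real.log X) * (2 * Real.log 2 + Real.log X / 2) :=
          mul_le_mul e1 e5 (norm_nonneg _) (by linarith)
      _ ≤ 2 * Real.log X ^ 2 := by nlinarith
  -- split
  obtain ⟨s, hs⟩ : ∃ s : Finset ℕ, s = (Icc 1 N).filter (fun m =>
    (ArithmeticFunction.vonMangoldt m : ℂ) * fP X (N - m) ≠ 0) := ⟨_, rfl⟩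
  have hsum : ‖∑ m ∈ Icc 1 N, (ArithmeticFunction.vonMangoldt m : ℂ) * fP X (N - m)‖ ≤
      2 * Real.log X ^ 2 * (s.card : ℝ) := by
    have h1 : ∑ m ∈ Icc 1 N, (ArithmeticFunction.vonMangoldt m : ℂ) * fP X (N - m) =
        ∑ m ∈ s, (ArithmeticFunction.vonMangoldt m : ℂ) * fP X (N - m) := by
      rw [hs, Finset.sum_filter_ne_zero]
    rw [h1]
    refine (norm_sum_le _ _).trans ?_
    have h2 : ∑ m ∈ s, ‖(ArithmeticFunction.vonMangoldt m : ℂ) * fP X (N - m)‖ ≤
        ∑ _m ∈ s, 2 * Real.log X ^ 2 := by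
      refine Finset.sum_le_sum fun m hm => hbound m ?_
      rw [hs, Finset.mem_filter] at hm
      exact hm.1
    refine h2.trans ?_
    rw [Finset.sum_const, nsmul_eq_mul]
    linarith
  have hsmem : ∀ m ∈ s, 1 ≤ m ∧ m ≤ N ∧ IsPrimePow m ∧ (N - m).Prime ∧
      3 / 2 * Real.sqrt X ≤ ((N - m : ℕ) : ℝ) ∧ ((N - m : ℕ) : ℝ) ≤ 39 / 10 * Real.sqrt X := by
    intro m hm
    rw [hs, Finset.mem_filter, Finset.mem_Icc] at hm
    obtain ⟨h1, h2, h3, h4⟩ := hterm m (Finset.mem_Icc.2 hm.1) hm.2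
    exact ⟨hm.1.1, hm.1.2, h1, h2, h3, h4⟩
  have hnp : ((s.filter (fun m => ¬ m.Prime)).card : ℝ) ≤ 24 * Real.log X := by
    refine PP_count hX64 N hNX hNX2 _ fun m hm => ?_
    rw [Finset.mem_filter] at hm
    obtain ⟨h1, h2, h3, h4, h5, h6⟩ := hsmem m hm.1
    refine ⟨h3, hm.2, h2, ?_⟩
    rw [Nat.cast_sub h2] at h6
    linarith
  have hpr : (s.filter (fun m => m.Prime)).card ≤ (RC N).card := by
    refine Finset.card_le_card_of_injOn (fun m => N - m) ?_ ?_
    · intro m hm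
      rw [Finset.mem_coe, Finset.mem_filter] at hm
      obtain ⟨h1, h2, h3, h4, h5, h6⟩ := hsmem m hm.1
      have hNm : N - (N - m) = m := by omega
      have h6' := h6
      rw [Nat.cast_sub h2] at h6'
      have hsN : Real.sqrt N ≤ Real.sqrt (2 * X) := Real.sqrt_le_sqrt hNX2
      have hsN2 : Real.sqrt X < Real.sqrt N := Real.sqrt_lt_sqrt hX0.le hNX
      have hs2X : Real.sqrt (2 * X) < 3 / 2 * Real.sqrt X := by
        rw [Real.sqrt_lt' (by positivity)]
        nlinarith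
      show N - m ∈ ((RC N : Finset ℕ) : Set ℕ)
      rw [Finset.mem_coe]
      unfold RC
      rw [Finset.mem_filter, Finset.mem_range, hNm]
      refine ⟨by omega, h4, hm.2, ?_, by linarith, by linarith⟩
      intro hcon
      have h7 : ((N - m : ℕ) : ℝ) = m := by exact_mod_cast hcon
      rw [h7] at h6
      nlinarith
    · intro m hm m' hm' hmm
      rw [Finset.mem_coe, Finset.mem_filter] at hm hm'
      have h1 := (hsmem m hm.1).2.1
      have h2 := (hsmem m' hm'.1).2.1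
      have h3 : N - m = N - m' := hmm
      omega
  have hcard : (s.card : ℝ) ≤ ((RC N).card : ℝ) + 24 * Real.log X := by
    have h1 : (s.card : ℝ) = ((s.filter (fun m => m.Prime)).card : ℝ) +
        ((s.filter (fun m => ¬ m.Prime)).card : ℝ) := by
      exact_mod_cast (Finset.card_filter_add_card_filter_not (s := s) (fun m => m.Prime)).symm
    have h2 : ((s.filter (fun m => m.Prime)).card : ℝ) ≤ ((RC N).card : ℝ) := by
      exact_mod_cast hpr
    linarith
  refine hsum.trans ?_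
  have h1 : 2 * Real.log X ^ 2 * (s.card : ℝ) ≤
      2 * Real.log X ^ 2 * (((RC N).card : ℝ) + 24 * Real.log X) :=
    mul_le_mul_of_nonneg_left hcard (by positivity)
  refine h1.trans (le_of_eq ?_)
  ring

/-- Chebyshev bounds for the sum of squares.

Proof. `Λ(m) ≤ log m`, `∑_{m ≤ K} Λ(m) ≤ C K` (`Chebyshev` in Mathlib, or `arb_A` in `W_b58c63_h68/ArB.lean`). -/
theorem sum_vm_sq : ∃ C : ℝ, 1 ≤ C ∧ ∀ K : ℕ, ∑ m ∈ Icc 1 K, ‖(ArithmeticFunction.vonMangoldt m : ℂ)‖ ^ 2 ≤ C * K * (1 + Real.log (K + 1)) := by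
  refine ⟨Real.log 4 + 4, ?_, fun K => ?_⟩
  · have := Real.log_nonneg (by norm_num : (1 : ℝ) ≤ 4)
    linarith
  have hlog4 : 0 ≤ Real.log 4 := Real.log_nonneg (by norm_num)
  have h1 : ∀ m ∈ Icc 1 K, ‖(ArithmeticFunction.vonMangoldt m : ℂ)‖ ^ 2 ≤
      Real.log (K + 1) * ArithmeticFunction.vonMangoldt m := by
    intro m hm
    rw [Finset.mem_Icc] at hm
    have e4 : 0 ≤ ArithmeticFunction.vonMangoldt m := ArithmeticFunction.vonMangoldt_nonneg
    rw [Complex.norm_real, Real.norm_eq_abs, abs_of_nonneg e4, sq]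
    refine mul_le_mul_of_nonneg_right ?_ e4
    refine ArithmeticFunction.vonMangoldt_le_log.trans (Real.log_le_log ?_ ?_)
    · exact_mod_cast hm.1
    · have : (m : ℝ) ≤ K := by exact_mod_cast hm.2
      linarith
  have h2 : ∑ m ∈ Icc 1 K, ArithmeticFunction.vonMangoldt m ≤ (Real.log 4 + 4) * K := by
    have h3 := Chebyshev.psi_le_const_mul_self (x := (K : ℝ)) (Nat.cast_nonneg K)
    rw [Chebyshev.psi_eq_sum_Icc, Nat.floor_natCast] at h3
    refine le_trans ?_ h3
    refine Finset.sum_le_sum_of_subset_of_nonneg ?_ fun _ _ _ =>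
      ArithmeticFunction.vonMangoldt_nonneg
    intro m hm
    rw [Finset.mem_Icc] at hm ⊢
    omega
  have hL : 0 ≤ Real.log (K + 1) := Real.log_nonneg (by
    have : (0 : ℝ) ≤ K := Nat.cast_nonneg K
    linarith)
  calc ∑ m ∈ Icc 1 K, ‖(ArithmeticFunction.vonMangoldt m : ℂ)‖ ^ 2
      ≤ ∑ m ∈ Icc 1 K, Real.log (K + 1) * ArithmeticFunction.vonMangoldt m := Finset.sum_le_sum h1
    _ = Real.log (K + 1) * ∑ m ∈ Icc 1 K, ArithmeticFunction.vonMangoldt m := by
        rw [Finset.mul_sum]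
    _ ≤ Real.log (K + 1) * ((Real.log 4 + 4) * K) := mul_le_mul_of_nonneg_left h2 hL
    _ ≤ (Real.log 4 + 4) * K * (1 + Real.log (K + 1)) := by
        have : 0 ≤ (Real.log 4 + 4) * (K : ℝ) := by positivity
        nlinarith

end Pool.Agent.PSG
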