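import Pool.Agent.W_b58c63_h44.Dg

/-!
# Sums over primes in short intervals, on average
-/

set_option autoImplicit false

noncomputable section

open Finset Complex MeasureTheory

namespace Pool.Agent.PSG

/-- The transform of the weight `v ↦ w (v / √X)` about `N`. -/
def hatG (w : ℝ → ℂ) (X N t : ℝ) : ℂ := ∫ v : ℝ, w (v / Real.sqrt X) * ((N - v : ℝ) : ℂ) ^ (t * I - 1)

/-- The main terms. -/
def JM (δ X : ℝ) {q : ℕ} (χ : DirichletCharacter ℂ q) (w : ℝ → ℂ) (N : ℝ) : ℂ :=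
  ∫ v : ℝ, w (v / Real.sqrt X) * ((dl χ : ℂ) - ∑ ρ ∈ ZR (EF χ) δ X, (mz (EF χ) ρ : ℂ) * ((N - v : ℝ) : ℂ) ^ (ρ - 1))

theorem TRa_hd (N v : ℝ) (s : ℂ) (hv : v < N) (hs : s ≠ -1) :
    HasDerivAt (fun v : ℝ => -(((N - v : ℝ) : ℂ) ^ (s + 1) / (s + 1))) (((N - v : ℝ) : ℂ) ^ s) v := by
  have hs' : s + 1 ≠ 0 := fun h => hs (eq_neg_of_add_eq_zero_left h)
  have h1 : HasDerivAt (fun y : ℝ => (y : ℂ) ^ (s + 1) / (s + 1)) (((N - v : ℝ) : ℂ) ^ s) (N - v) := by
    have h0 := (hasDerivAt_ofReal_cpow_const (sub_pos.2 hv).ne' hs').div_const (s + 1)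
    refine h0.congr_deriv ?_
    rw [add_sub_cancel_right, mul_div_cancel_left₀ _ hs']
  have h2 := (h1.comp_const_sub N v).neg
  rw [neg_neg] at h2
  exact h2

theorem TRa_contOn (N : ℝ) (s : ℂ) : ContinuousOn (fun v : ℝ => ((N - v : ℝ) : ℂ) ^ s) {v | v < N} := by
  intro v hv
  have h1 : ContinuousAt (fun v : ℝ => ((N - v : ℝ) : ℂ)) v := by fun_prop
  have h2 : ((N - v : ℝ) : ℂ) ∈ slitPlane := by
    rw [Complex.ofReal_mem_slitPlane]
    exact sub_pos.2 hv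
  exact (h1.cpow continuousAt_const h2).continuousWithinAt

theorem TRa_cont {N a b : ℝ} (hbN : b < N) {f : ℝ → ℂ} (hf : Continuous f)
    (hs : ∀ v, v ∉ Set.Icc a b → f v = 0) (s : ℂ) :
    Continuous fun v : ℝ => f v * ((N - v : ℝ) : ℂ) ^ s := by
  rw [continuous_iff_continuousAt]
  intro v
  by_cases hv : v < N
  · have h1 : ContinuousAt (fun v : ℝ => ((N - v : ℝ) : ℂ) ^ s) v :=
      (TRa_contOn N s).continuousAt (isOpen_Iio.mem_nhds hv)
    exact hf.continuousAt.mul h1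
  · have h1 : (fun v : ℝ => f v * ((N - v : ℝ) : ℂ) ^ s) =ᶠ[nhds v] fun _ => 0 := by
      filter_upwards [isOpen_Ioi.mem_nhds (show b < v by linarith)] with u hu
      rw [hs u (fun h => absurd h.2 (not_le.2 hu)), zero_mul]
    exact h1.continuousAt

theorem TRa_deriv_supp {a b : ℝ} {f : ℝ → ℂ} (hs : ∀ v, v ∉ Set.Icc a b → f v = 0) :
    ∀ v, v ∉ Set.Icc a b → deriv f v = 0 := by
  intro v hv
  have h1 : f =ᶠ[nhds v] fun _ => 0 := by
    filter_upwards [isClosed_Icc.isOpen_compl.mem_nhds hv] with u hu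
    exact hs u hu
  rw [h1.deriv_eq]
  exact deriv_const v 0

theorem TRa_step {N a b : ℝ} (hab : a ≤ b) (hbN : b < N) {f : ℝ → ℂ} (hf : ContDiff ℝ (⊤ : ℕ∞) f)
    (hs : ∀ v, v ∉ Set.Icc a b → f v = 0) (s : ℂ) (hs1 : s ≠ -1) :
    ∫ v : ℝ, f v * ((N - v : ℝ) : ℂ) ^ s =
      (1 / (s + 1)) * ∫ v : ℝ, deriv f v * ((N - v : ℝ) : ℂ) ^ (s + 1) := by
  have hc1 : b < (b + N) / 2 := by linarith
  have hc2 : (b + N) / 2 < N := by linarith
  have hs' := TRa_deriv_supp hs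
  have hsub : ∀ g : ℝ → ℂ, (∀ v, v ∉ Set.Icc a b → g v = 0) → ∀ r : ℂ,
      Function.support (fun v : ℝ => g v * ((N - v : ℝ) : ℂ) ^ r) ⊆
        Set.Ioc (a - 1) ((b + N) / 2) := by
    intro g hg r v hv
    have h1 : v ∈ Set.Icc a b := by
      by_contra h
      apply hv
      show g v * ((N - v : ℝ) : ℂ) ^ r = 0
      rw [hg v h, zero_mul]
    exact ⟨by linarith [h1.1], by linarith [h1.2]⟩
  rw [← intervalIntegral.integral_eq_integral_of_support_subset (hsub f hs s),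
    ← intervalIntegral.integral_eq_integral_of_support_subset (hsub (deriv f) hs' (s + 1))]
  have hle : a - 1 ≤ (b + N) / 2 := by linarith
  have hd : Differentiable ℝ f := hf.differentiable (by simp)
  have hcd : Continuous (deriv f) := hf.continuous_deriv (by simp)
  have h1 : ∀ x ∈ Set.uIcc (a - 1) ((b + N) / 2), HasDerivAt f (deriv f x) x := fun x _ =>
    (hd x).hasDerivAt
  have hlt : ∀ x ∈ Set.uIcc (a - 1) ((b + N) / 2), x < N := by
    intro x hx
    rw [Set.uIcc_of_le hle] at hx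
    linarith [hx.2]
  have h2 : ∀ x ∈ Set.uIcc (a - 1) ((b + N) / 2),
      HasDerivAt (fun v : ℝ => -(((N - v : ℝ) : ℂ) ^ (s + 1) / (s + 1)))
        (((N - x : ℝ) : ℂ) ^ s) x := fun x hx => TRa_hd N x s (hlt x hx) hs1
  have h3 : IntervalIntegrable (deriv f) volume (a - 1) ((b + N) / 2) :=
    hcd.intervalIntegrable _ _
  have h4 : IntervalIntegrable (fun x : ℝ => ((N - x : ℝ) : ℂ) ^ s) volume (a - 1) ((b + N) / 2) :=
    ((TRa_contOn N s).mono hlt).intervalIntegrable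
  rw [intervalIntegral.integral_mul_deriv_eq_deriv_mul h1 h2 h3 h4,
    hs (a - 1) (fun h => by linarith [h.1]), hs ((b + N) / 2) (fun h => by linarith [h.2]), zero_mul,
    zero_mul, sub_zero, zero_sub, ← intervalIntegral.integral_neg, ← intervalIntegral.integral_const_mul]
  refine intervalIntegral.integral_congr fun x _ => ?_
  show -(deriv f x * -(((N - x : ℝ) : ℂ) ^ (s + 1) / (s + 1))) =
    1 / (s + 1) * (deriv f x * ((N - x : ℝ) : ℂ) ^ (s + 1))
  ring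

/-- Repeated integration by parts. -/
theorem TRa_ibp {N a b t : ℝ} (hab : a ≤ b) (hbN : b < N) (J : ℕ) (ht : J = 0 ∨ t ≠ 0) :
    ∀ (f : ℝ → ℂ), ContDiff ℝ (⊤ : ℕ∞) f → (∀ v, v ∉ Set.Icc a b → f v = 0) →
    ∀ (D E : ℝ) (k : ℕ), (∀ v, ‖iteratedDeriv J f v‖ ≤ D) →
      (∀ v ∈ Set.Icc a b, (N - v) ^ ((k : ℝ) + J - 1) ≤ E) →
      ‖∫ v : ℝ, f v * ((N - v : ℝ) : ℂ) ^ ((t : ℂ) * I - 1 + k)‖ ≤ D * (b - a) * E / |t| ^ J := by
  induction J with
  | zero =>
    intro f hf hs D E k hD hE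
    rw [pow_zero, div_one]
    have hD' : ∀ v, ‖f v‖ ≤ D := by
      intro v
      have := hD v
      rwa [iteratedDeriv_zero] at this
    have h1 : ∫ v : ℝ, f v * ((N - v : ℝ) : ℂ) ^ ((t : ℂ) * I - 1 + k) =
        ∫ v in Set.Icc a b, f v * ((N - v : ℝ) : ℂ) ^ ((t : ℂ) * I - 1 + k) := by
      symm
      refine setIntegral_eq_integral_of_forall_compl_eq_zero fun v hv => ?_
      rw [hs v hv, zero_mul]
    rw [h1]
    have h2 := norm_setIntegral_le_of_norm_le_const (μ := volume) (s := Set.Icc a b)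
      (f := fun v : ℝ => f v * ((N - v : ℝ) : ℂ) ^ ((t : ℂ) * I - 1 + k)) (C := D * E)
      (by rw [Real.volume_Icc]; exact ENNReal.ofReal_lt_top) (fun v hv => by
        have h3 : 0 < N - v := by linarith [hv.2]
        rw [norm_mul, Complex.norm_cpow_eq_rpow_re_of_pos h3]
        have h4 : ((t : ℂ) * I - 1 + k).re = (k : ℝ) + (0 : ℕ) - 1 := by
          simp
          ring
        rw [h4]
        have h5 : 0 ≤ (N - v) ^ ((k : ℝ) + (0 : ℕ) - 1) := Real.rpow_nonneg h3.le _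
        exact mul_le_mul (hD' v) (hE v hv) h5 ((norm_nonneg _).trans (hD' v)))
    rw [Real.volume_real_Icc_of_le hab] at h2
    calc _ ≤ D * E * (b - a) := h2
      _ = D * (b - a) * E := by ring
  | succ J ih =>
    intro f hf hs D E k hD hE
    have ht0 : t ≠ 0 := by
      rcases ht with h | h
      · exact absurd h (Nat.succ_ne_zero J)
      · exact h
    have hne : ((t : ℂ) * I - 1 + k) ≠ -1 := by
      intro h
      have h1 := congrArg Complex.im h
      simp at h1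
      exact ht0 h1
    rw [TRa_step hab hbN hf hs _ hne]
    have hf' : ContDiff ℝ (⊤ : ℕ∞) (deriv f) := by
      have h1 : ContDiff ℝ ((⊤ : ℕ∞) + 1) f := by
        simpa using hf
      exact h1.deriv'
    have h2 := ih (Or.inr ht0) (deriv f) hf' (TRa_deriv_supp hs) D E (k + 1) (fun v => by
      have := hD v
      rwa [iteratedDeriv_succ'] at this) (fun v hv => by
      have := hE v hv
      have e : ((k + 1 : ℕ) : ℝ) + J - 1 = (k : ℝ) + ((J + 1 : ℕ) : ℝ) - 1 := by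
        push_cast
        ring
      rw [e]
      exact this)
    have e2 : ((t : ℂ) * I - 1 + k) + 1 = (t : ℂ) * I - 1 + ((k + 1 : ℕ) : ℂ) := by
      push_cast
      ring
    rw [e2, norm_mul]
    have h3 : |t| ≤ ‖(t : ℂ) * I - 1 + ((k + 1 : ℕ) : ℂ)‖ := by
      have h4 := Complex.abs_im_le_norm ((t : ℂ) * I - 1 + ((k + 1 : ℕ) : ℂ))
      have h5 : ((t : ℂ) * I - 1 + ((k + 1 : ℕ) : ℂ)).im = t := by
        simp
      rwa [h5] at h4
    have ht' : 0 < |t| := abs_pos.2 ht0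
    have h6 : ‖1 / ((t : ℂ) * I - 1 + ((k + 1 : ℕ) : ℂ))‖ ≤ 1 / |t| := by
      rw [norm_div, norm_one]
      exact one_div_le_one_div_of_le ht' h3
    calc _ ≤ 1 / |t| * (D * (b - a) * E / |t| ^ J) :=
          mul_le_mul h6 h2 (norm_nonneg _) (by positivity)
      _ = D * (b - a) * E / |t| ^ (J + 1) := by
          rw [pow_succ]
          field_simp

theorem TRa_basic {X N : ℝ} (hX : 64 ≤ X) (hN : X ≤ N) (hN2 : N ≤ 2 * X) :
    0 < Real.sqrt X ∧ Real.sqrt X * Real.sqrt X = X ∧ 4 * Real.sqrt X < N ∧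
      (∀ v ∈ Set.Icc (Real.sqrt X) (4 * Real.sqrt X), X / 2 ≤ N - v ∧ N - v ≤ 2 * X) ∧
      X ^ (-(1 / 2) : ℝ) = (Real.sqrt X)⁻¹ := by
  have hX0 : (0 : ℝ) < X := by linarith
  have h1 : 0 < Real.sqrt X := Real.sqrt_pos.2 hX0
  have h2 : Real.sqrt X * Real.sqrt X = X := Real.mul_self_sqrt hX0.le
  have h3 : 8 ≤ Real.sqrt X := by
    rw [Real.le_sqrt' (by norm_num)]
    linarith
  have h4 : 4 * Real.sqrt X ≤ X / 2 := by nlinarith
  refine ⟨h1, h2, by linarith, fun v hv => ⟨by linarith [hv.2], by linarith [hv.1]⟩, ?_⟩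
  rw [Real.rpow_neg hX0.le, Real.sqrt_eq_rpow]

theorem TRa_supp {X : ℝ} (h1 : 0 < Real.sqrt X) {w : ℝ → ℂ}
    (h4 : ∀ x, x ∉ Set.Icc (1 : ℝ) 4 → w x = 0) :
    ∀ v, v ∉ Set.Icc (Real.sqrt X) (4 * Real.sqrt X) → w (v / Real.sqrt X) = 0 := by
  intro v hv
  apply h4
  intro h
  apply hv
  rw [Set.mem_Icc, le_div_iff₀ h1, div_le_iff₀ h1, one_mul] at h
  exact h

theorem TRa_iter {X : ℝ} {w : ℝ → ℂ} (hw : ContDiff ℝ (⊤ : ℕ∞) w) (J : ℕ) (v : ℝ) :
    ‖iteratedDeriv J (fun v : ℝ => w (v / Real.sqrt X)) v‖ =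
      ((Real.sqrt X)⁻¹) ^ J * ‖iteratedDeriv J w ((Real.sqrt X)⁻¹ * v)‖ := by
  have h1 : (fun v : ℝ => w (v / Real.sqrt X)) = fun v : ℝ => w ((Real.sqrt X)⁻¹ * v) := by
    funext v
    rw [div_eq_inv_mul]
  rw [h1, iteratedDeriv_comp_const_smul (hw.of_le (by exact_mod_cast le_top)) (Real.sqrt X)⁻¹]
  rw [norm_smul, norm_pow, Real.norm_of_nonneg (inv_nonneg.2 (Real.sqrt_nonneg X))]

theorem TRa_smooth {X : ℝ} {w : ℝ → ℂ} (hw : ContDiff ℝ (⊤ : ℕ∞) w) :
    ContDiff ℝ (⊤ : ℕ∞) (fun v : ℝ => w (v / Real.sqrt X)) :=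
  hw.comp (contDiff_id.div_const _)

/-- Size, decay and continuity of the transform.

Proof. The support of `v ↦ w (v / √X)` is in `[√X, 4 √X]`, where `X / 2 ≤ N - v ≤ 2 X` (`X ≥ 64`). The first bound is trivial. The second: `J` integrations by parts, the antiderivatives of `(N - v) ^ (i t - 1)` in `v` being `± (N - v) ^ (i t + k) / ((i t) (i t + 1) ... (i t + k))`:
`‖hatG‖ ≤ 4 √X A (B / √X) ^ J (2 X) ^ (J - 1) |t| ^ (-J)`. Continuity: dominated convergence. -/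
theorem hatG_facts (J : ℕ) (hJ : 1 ≤ J) : ∃ C : ℝ, 1 ≤ C ∧ ∀ (A B : ℝ) (w : ℝ → ℂ), 1 ≤ B → IsW J A B w → (∀ x, x ∉ Set.Icc (1 : ℝ) 4 → w x = 0) →
    ∀ X N : ℝ, 64 ≤ X → X ≤ N → N ≤ 2 * X → Continuous (hatG w X N) ∧ (∀ t : ℝ, ‖hatG w X N t‖ ≤ C * A * X ^ (-(1 / 2) : ℝ)) ∧
    ∀ t : ℝ, t ≠ 0 → ‖hatG w X N t‖ ≤ C * A * X ^ (-(1 / 2) : ℝ) * (Real.sqrt X * B / |t|) ^ J := by
  refine ⟨6 * 2 ^ J, ?_, ?_⟩
  · have h1 : (1 : ℝ) ≤ 2 ^ J := one_le_pow₀ (by norm_num)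
    linarith
  intro A B w hB hw h4 X N hX hN hN2
  obtain ⟨hr0, hr1, hbN, hbd, hrp⟩ := TRa_basic hX hN hN2
  obtain ⟨hw1, hw2, hw3⟩ := hw
  set r := Real.sqrt X with hr
  have hX0 : 0 < X := by linarith
  have hs : ∀ v, v ∉ Set.Icc r (4 * r) → w (v / r) = 0 := TRa_supp hr0 h4
  have hsm : ContDiff ℝ (⊤ : ℕ∞) (fun v : ℝ => w (v / r)) := TRa_smooth hw1
  have hab : r ≤ 4 * r := by linarith
  have hA : 0 ≤ A := by
    have h1 := hw3 0 (Nat.zero_le J) 0
    rw [pow_zero, mul_one] at h1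
    exact (norm_nonneg _).trans h1
  have hexp : ∀ t : ℝ, hatG w X N t =
      ∫ v : ℝ, w (v / r) * ((N - v : ℝ) : ℂ) ^ ((t : ℂ) * I - 1 + (0 : ℕ)) := by
    intro t
    have e0 : ((t : ℂ) * I - 1 + ((0 : ℕ) : ℂ)) = (t : ℂ) * I - 1 := by
      rw [Nat.cast_zero, add_zero]
    rw [e0]
    rfl
  have h2J : (1 : ℝ) ≤ 2 ^ J := one_le_pow₀ (by norm_num)
  refine ⟨?_, fun t => ?_, fun t ht => ?_⟩
  · -- continuity
    unfold hatG
    have hcont : ∀ s : ℂ, Continuous fun v : ℝ => w (v / r) * ((N - v : ℝ) : ℂ) ^ s := fun s =>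
      TRa_cont hbN hsm.continuous hs s
    refine continuous_of_dominated (bound := fun v : ℝ => ‖w (v / r) * ((N - v : ℝ) : ℂ) ^ (-1 : ℂ)‖)
      (fun t => (hcont _).aestronglyMeasurable) (fun t => Filter.Eventually.of_forall fun v => ?_) ?_
      (Filter.Eventually.of_forall fun v => ?_)
    · by_cases hv : v ∈ Set.Icc r (4 * r)
      · have h3 : 0 < N - v := by linarith [(hbd v hv).1]
        rw [norm_mul, norm_mul, Complex.norm_cpow_eq_rpow_re_of_pos h3,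
          Complex.norm_cpow_eq_rpow_re_of_pos h3]
        have e1 : ((t : ℂ) * I - 1).re = (-1 : ℂ).re := by simp
        rw [e1]
      · rw [hs v hv, zero_mul, zero_mul]
    · refine ((hcont (-1)).integrable_of_hasCompactSupport ?_).norm
      refine HasCompactSupport.intro (K := Set.Icc r (4 * r)) isCompact_Icc fun v hv => ?_
      rw [hs v hv, zero_mul]
    · by_cases hv : v ∈ Set.Icc r (4 * r)
      · have h3 : 0 < N - v := by linarith [(hbd v hv).1]
        have h5 : ((N - v : ℝ) : ℂ) ≠ 0 := Complex.ofReal_ne_zero.2 h3.ne'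
        refine continuous_const.mul (Continuous.const_cpow (by fun_prop) (Or.inl h5))
      · have hz : (fun t : ℝ => w (v / r) * ((N - v : ℝ) : ℂ) ^ ((t : ℂ) * I - 1)) = fun _ => 0 := by
          funext t
          rw [hs v hv, zero_mul]
        show Continuous (fun t : ℝ => w (v / r) * ((N - v : ℝ) : ℂ) ^ ((t : ℂ) * I - 1))
        rw [hz]
        exact continuous_const
  · -- the first bound
    rw [hexp t]
    have h1 := TRa_ibp (t := t) hab hbN 0 (Or.inl rfl) (fun v : ℝ => w (v / r)) hsm hs A (2 / X) 0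
      (fun v => by
        rw [iteratedDeriv_zero]
        have h2 := hw3 0 (Nat.zero_le J) (v / r)
        rwa [iteratedDeriv_zero, pow_zero, mul_one] at h2)
      (fun v hv => by
        have h3 := (hbd v hv).1
        have h5 : 0 < N - v := by linarith
        have e1 : ((0 : ℕ) : ℝ) + (0 : ℕ) - 1 = -1 := by norm_num
        rw [e1, Real.rpow_neg_one]
        rw [inv_le_comm₀ h5 (by positivity), inv_div]
        exact h3)
    rw [pow_zero, div_one] at h1
    refine h1.trans ?_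
    rw [hrp]
    have e2 : A * (4 * r - r) * (2 / X) = 6 * A * r⁻¹ := by
      rw [← hr1]
      field_simp
      ring
    rw [e2]
    have h3 : 0 ≤ A * r⁻¹ := mul_nonneg hA (inv_nonneg.2 hr0.le)
    nlinarith
  · -- the second bound
    rw [hexp t]
    have h1 := TRa_ibp (t := t) hab hbN J (Or.inr ht) (fun v : ℝ => w (v / r)) hsm hs
      ((r⁻¹) ^ J * (A * B ^ J)) ((2 * X) ^ (J - 1)) 0
      (fun v => by
        rw [TRa_iter hw1 J v]
        exact mul_le_mul_of_nonneg_left (hw3 J le_rfl _) (pow_nonneg (inv_nonneg.2 hr0.le) _))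
      (fun v hv => by
        have h3 := hbd v hv
        have h5 : 0 < N - v := by linarith [h3.1]
        have e1 : ((0 : ℕ) : ℝ) + J - 1 = ((J - 1 : ℕ) : ℝ) := by
          rw [Nat.cast_sub hJ]
          push_cast
          ring
        rw [e1, Real.rpow_natCast]
        exact pow_le_pow_left₀ h5.le h3.2 _)
    refine h1.trans ?_
    rw [hrp]
    have ht' : 0 < |t| := abs_pos.2 ht
    obtain ⟨m, rfl⟩ : ∃ m, J = m + 1 := ⟨J - 1, by omega⟩
    have e2 : (r⁻¹) ^ (m + 1) * (A * B ^ (m + 1)) * (4 * r - r) * (2 * X) ^ (m + 1 - 1) / |t| ^ (m + 1) =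
        3 * 2 ^ m * A * r⁻¹ * (r * B / |t|) ^ (m + 1) := by
      have h6 : r ≠ 0 := hr0.ne'
      have e4 : (r⁻¹) ^ (m + 1) * r ^ m = r⁻¹ := by
        rw [pow_succ, mul_right_comm, ← mul_pow, inv_mul_cancel₀ h6, one_pow, one_mul]
      have e5 : (r⁻¹) ^ (m + 1) * (A * B ^ (m + 1)) * (4 * r - r) * (2 * (r * r)) ^ m / |t| ^ (m + 1) =
          ((r⁻¹) ^ (m + 1) * r ^ m) * (A * B ^ (m + 1) * (3 * r) * (2 ^ m * r ^ m)) / |t| ^ (m + 1) := by
        rw [mul_pow, mul_pow]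
        ring
      rw [Nat.add_sub_cancel, ← hr1, e5, e4, div_pow, mul_pow]
      ring
    rw [e2]
    have h7 : 0 ≤ 2 ^ m * A * r⁻¹ * (r * B / |t|) ^ (m + 1) := by
      have : 0 ≤ B := by linarith
      positivity
    have e3 : 6 * 2 ^ (m + 1) * A * r⁻¹ * (r * B / |t|) ^ (m + 1) =
        12 * (2 ^ m * A * r⁻¹ * (r * B / |t|) ^ (m + 1)) := by
      rw [pow_succ 2 m]
      ring
    rw [e3]
    nlinarith

/-- Inversion.

Proof. Substitute `N - v = exp u`: `hatG w X N t = ∫ φ u exp (i t u) du` with `φ u = w ((N - exp u) / √X)`, smooth with compact support, and `hatG` is integrable (`hatG_facts`, `J = 2`). Fourier inversion (`MeasureTheory.Integrable.fourier_inversion` / `Continuous.fourier_inversion`) at `u = log x`. -/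
theorem hatG_inv (A B : ℝ) (w : ℝ → ℂ) (hB : 1 ≤ B) (hw : IsW 2 A B w) (h4 : ∀ x, x ∉ Set.Icc (1 : ℝ) 4 → w x = 0)
    (X N : ℝ) (hX : 64 ≤ X) (hN : X ≤ N) (hN2 : N ≤ 2 * X) (x : ℝ) (hx : 0 < x) :
    (1 / (2 * Real.pi) : ℂ) * ∫ t : ℝ, (x : ℂ) ^ (-(t * I)) * hatG w X N t = w ((N - x) / Real.sqrt X) := by
  obtain ⟨C, hC, hfacts⟩ := hatG_facts 2 one_le_two
  obtain ⟨hcont, hb1, hb2⟩ := hfacts A B w hB hw h4 X N hX hN hN2
  obtain ⟨hr0, hr1, hbN, hbd, hrp⟩ := TRa_basic hX hN hN2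
  obtain ⟨hw1, hw2, hw3⟩ := hw
  set r := Real.sqrt X with hr
  have hX0 : 0 < X := by linarith
  have hs : ∀ v, v ∉ Set.Icc r (4 * r) → w (v / r) = 0 := TRa_supp hr0 h4
  have hsm : ContDiff ℝ (⊤ : ℕ∞) (fun v : ℝ => w (v / r)) := TRa_smooth hw1
  -- the function `g y = w ((N - y) / r)`
  obtain ⟨g, hg⟩ : ∃ g : ℝ → ℂ, g = fun y => w ((N - y) / r) := ⟨_, rfl⟩
  have hg0 : ∀ y, y ≤ 0 → g y = 0 := by
    intro y hy
    rw [hg]
    refine hs (N - y) fun h => ?_
    linarith [h.2]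
  have hmel : ∀ s : ℂ, mellin g s = ∫ v : ℝ, w (v / r) * ((N - v : ℝ) : ℂ) ^ (s - 1) := by
    intro s
    unfold mellin
    have e1 : ∫ y in Set.Ioi (0 : ℝ), (y : ℂ) ^ (s - 1) • g y = ∫ y : ℝ, (y : ℂ) ^ (s - 1) • g y := by
      refine setIntegral_eq_integral_of_forall_compl_eq_zero fun y hy => ?_
      rw [hg0 y (not_lt.1 hy), smul_zero]
    rw [e1, ← integral_sub_left_eq_self (fun y : ℝ => (y : ℂ) ^ (s - 1) • g y) volume N]
    refine integral_congr_ae (Filter.Eventually.of_forall fun v => ?_)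
    show ((N - v : ℝ) : ℂ) ^ (s - 1) • g (N - v) = w (v / r) * ((N - v : ℝ) : ℂ) ^ (s - 1)
    rw [hg]
    show ((N - v : ℝ) : ℂ) ^ (s - 1) • w ((N - (N - v)) / r) = _
    rw [sub_sub_cancel, smul_eq_mul, mul_comm]
  have hmelG : ∀ t : ℝ, mellin g ((0 : ℝ) + t * I) = hatG w X N t := by
    intro t
    rw [hmel, Complex.ofReal_zero, zero_add]
    rfl
  have hgc : Continuous g := by
    rw [hg]
    have := hw1.continuous
    fun_prop
  have hconv : MellinConvergent g ((0 : ℝ) : ℂ) := by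
    have h1 : Continuous fun v : ℝ => w (v / r) * ((N - v : ℝ) : ℂ) ^ (((0 : ℝ) : ℂ) - 1) :=
      TRa_cont hbN hsm.continuous hs _
    have h2 : Integrable fun v : ℝ => w (v / r) * ((N - v : ℝ) : ℂ) ^ (((0 : ℝ) : ℂ) - 1) := by
      refine h1.integrable_of_hasCompactSupport ?_
      refine HasCompactSupport.intro (K := Set.Icc r (4 * r)) isCompact_Icc fun v hv => ?_
      rw [hs v hv, zero_mul]
    have h3 := h2.comp_sub_left N
    have h5 : (fun y : ℝ => (y : ℂ) ^ (((0 : ℝ) : ℂ) - 1) • g y) =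
        fun y : ℝ => w ((N - y) / r) * ((N - (N - y) : ℝ) : ℂ) ^ (((0 : ℝ) : ℂ) - 1) := by
      funext y
      rw [sub_sub_cancel, smul_eq_mul, mul_comm, hg]
    unfold MellinConvergent
    rw [h5]
    exact h3.integrableOn
  have hA : 0 ≤ A := by
    have h1 := hw3 0 (Nat.zero_le 2) 0
    rw [pow_zero, mul_one] at h1
    exact (norm_nonneg _).trans h1
  have hvert : Complex.VerticalIntegrable (mellin g) 0 := by
    unfold Complex.VerticalIntegrable
    simp only [hmelG]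
    set K := C * A * X ^ (-(1 / 2) : ℝ) with hK
    have hK0 : 0 ≤ K := by positivity
    have hb' : Integrable (fun y : ℝ => (K + K * (r * B) ^ 2) * (1 + y ^ 2)⁻¹) :=
      integrable_inv_one_add_sq.const_mul _
    refine hb'.mono' hcont.aestronglyMeasurable (Filter.Eventually.of_forall fun t => ?_)
    rw [← div_eq_mul_inv, le_div_iff₀ (by positivity)]
    have h1 := hb1 t
    have h2 : ‖hatG w X N t‖ * t ^ 2 ≤ K * (r * B) ^ 2 := by
      rcases eq_or_ne t 0 with rfl | ht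
      · rw [zero_pow two_ne_zero, mul_zero]
        positivity
      · have h3 := hb2 t ht
        have h5 : 0 < t ^ 2 := by positivity
        have h6 : K * (r * B / |t|) ^ 2 * t ^ 2 = K * (r * B) ^ 2 := by
          rw [div_pow, sq_abs]
          field_simp
        calc ‖hatG w X N t‖ * t ^ 2 ≤ K * (r * B / |t|) ^ 2 * t ^ 2 :=
              mul_le_mul_of_nonneg_right h3 h5.le
          _ = K * (r * B) ^ 2 := h6
    linarith
  have hinv := mellinInv_mellin_eq 0 g hx hconv hvert hgc.continuousAt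
  unfold mellinInv at hinv
  simp only [hmelG] at hinv
  have hgx : g x = w ((N - x) / r) := by rw [hg]
  rw [← hgx, ← hinv]
  have e1 : ∀ t : ℝ, (x : ℂ) ^ (-(((0 : ℝ) : ℂ) + t * I)) • hatG w X N t =
      (x : ℂ) ^ (-(t * I)) * hatG w X N t := by
    intro t
    rw [Complex.ofReal_zero, zero_add, smul_eq_mul]
  simp only [e1]
  rw [Complex.real_smul]
  congr 1
  push_cast
  rfl

end Pool.Agent.PSG
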