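import Pool.Agent.W_b58c63_h44.AC
import Pool.Agent.W_b58c63_h44.TRa

/-!
# The main term of the convolution: definition
-/

set_option autoImplicit false

noncomputable section

open Finset Complex MeasureTheory

namespace Pool.Agent.PSG

open Pool.Agent.Wb58c63 (prim ee)

/-- The main term of the convolution. -/
def MT (δ ε₁ X : ℝ) (N : ℕ) : ℂ :=
  ∑ r ∈ Icc 1 ⌊X ^ ε₁⌋₊, ∑ χ ∈ prim r, ∑ r₂ ∈ Icc 1 (⌊X ^ ε₁⌋₊ ^ 2), ∑ ψ ∈ prim r₂,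
    AC ⌊X ^ ε₁⌋₊ χ ψ N * JM δ X ψ (gx δ (X ^ (2 * ε₁)) X χ) N

end Pool.Agent.PSG
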