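import Pool.Agent.W_b58c63_h44.Df

/-!
# Mean values of Dirichlet polynomials with well spaced frequencies
-/

set_option autoImplicit false

noncomputable section

open Finset Complex MeasureTheory

namespace Pool.Agent.PSG

theorem MV_gauss (T lam : ℝ) (hT : 1 ≤ T) :
    Integrable (fun t : ℝ => ((Real.exp (-(1 / T ^ 2) * t ^ 2) : ℝ) : ℂ) *
      Complex.exp ((lam * t : ℝ) * I)) ∧
    ‖∫ t : ℝ, ((Real.exp (-(1 / T ^ 2) * t ^ 2) : ℝ) : ℂ) * Complex.exp ((lam * t : ℝ) * I)‖ ≤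
      2 * T * Real.exp (-(T * lam / 2) ^ 2) := by
  have hT0 : 0 < T := by linarith
  have hb : 0 < (((1 / T ^ 2 : ℝ)) : ℂ).re := by
    rw [Complex.ofReal_re]
    positivity
  have e1 : ∀ t : ℝ, ((Real.exp (-(1 / T ^ 2) * t ^ 2) : ℝ) : ℂ) *
      Complex.exp ((lam * t : ℝ) * I) =
      Complex.exp (I * (lam : ℂ) * t) * Complex.exp (-((1 / T ^ 2 : ℝ) : ℂ) * (t : ℂ) ^ 2) := by
    intro t
    rw [mul_comm, Complex.ofReal_exp]
    congr 1
    · congr 1
      push_cast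
      ring
    · congr 1
      push_cast
      ring
  simp_rw [e1]
  constructor
  · refine (integrable_cexp_quadratic hb (I * (lam : ℂ)) 0).congr (Filter.Eventually.of_forall ?_)
    intro t
    simp only
    rw [← Complex.exp_add]
    congr 1
    ring
  · rw [fourierIntegral_gaussian hb (lam : ℂ), norm_mul]
    refine mul_le_mul ?_ ?_ (norm_nonneg _) (by positivity)
    · have h1 : ((Real.pi : ℂ) / ((1 / T ^ 2 : ℝ) : ℂ)) = ((Real.pi * T ^ 2 : ℝ) : ℂ) := by
        push_cast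
        rw [div_div_eq_mul_div, div_one]
      rw [h1, Complex.norm_cpow_eq_rpow_re_of_pos (by positivity)]
      have h2 : ((1 / 2 : ℂ)).re = 1 / 2 := by norm_num
      rw [h2, ← Real.sqrt_eq_rpow]
      refine Real.sqrt_le_iff.2 ⟨by positivity, ?_⟩
      have h3 := Real.pi_le_four
      nlinarith [sq_nonneg T]
    · rw [Complex.norm_exp]
      refine Real.exp_le_exp.2 (le_of_eq ?_)
      have h3 : (-(lam : ℂ) ^ 2 / (4 * ((1 / T ^ 2 : ℝ) : ℂ))) =
          ((-(T * lam / 2) ^ 2 : ℝ) : ℂ) := by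
        have hTc : (T : ℂ) ≠ 0 := Complex.ofReal_ne_zero.2 hT0.ne'
        push_cast
        field_simp
        norm_num
      rw [h3, Complex.ofReal_re]

theorem MV_tele (a : ℝ) (ha : 0 < a) (M : ℕ) :
    ∑ j ∈ range M, 1 / (1 + (a * ((j + 1 : ℕ) : ℝ)) ^ 2) ≤ 2 / a := by
  have h : ∀ M : ℕ, ∑ j ∈ range M, 1 / (1 + (a * ((j + 1 : ℕ) : ℝ)) ^ 2) ≤
      2 * ((M : ℝ) / (1 + a * M)) := by
    intro M
    induction M with
    | zero => simp
    | succ M ih =>
      rw [Finset.sum_range_succ]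
      have hM : (0 : ℝ) ≤ M := Nat.cast_nonneg M
      have h1 : 1 / (1 + (a * ((M + 1 : ℕ) : ℝ)) ^ 2) ≤
          2 * (1 / ((1 + a * ((M + 1 : ℕ) : ℝ)) * (1 + a * M))) := by
        push_cast
        rw [mul_one_div, div_le_div_iff₀ (by positivity) (by positivity)]
        have h2 : 0 ≤ a * (M : ℝ) := by positivity
        nlinarith [sq_nonneg (a * ((M : ℝ) + 1) - 1), mul_nonneg ha.le h2]
      have h3 : 2 * (((M + 1 : ℕ) : ℝ) / (1 + a * ((M + 1 : ℕ) : ℝ))) =
          2 * ((M : ℝ) / (1 + a * M)) +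
            2 * (1 / ((1 + a * ((M + 1 : ℕ) : ℝ)) * (1 + a * M))) := by
        push_cast
        have h4 : (1 + a * ((M : ℝ) + 1)) ≠ 0 := by positivity
        have h5 : (1 + a * (M : ℝ)) ≠ 0 := by positivity
        field_simp
        ring
      rw [h3]
      linarith
  refine (h M).trans ?_
  have hM : (0 : ℝ) ≤ M := Nat.cast_nonneg M
  rw [show (2 : ℝ) / a = 2 * (1 / a) by ring]
  refine mul_le_mul_of_nonneg_left ?_ (by norm_num)
  rw [div_le_div_iff₀ (by positivity) ha]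
  nlinarith

theorem MV_row (a : ℝ) (ha : 0 < a) (S : Finset ℕ) (k : ℕ) :
    ∑ l ∈ S.erase k, 1 / (1 + (a * |(k : ℝ) - l|) ^ 2) ≤ 4 / a := by
  classical
  have hsplit : S.erase k ⊆ (S.filter fun l => l < k) ∪ (S.filter fun l => k < l) := by
    intro n hn
    rw [mem_erase] at hn
    rw [mem_union, mem_filter, mem_filter]
    rcases lt_or_gt_of_ne hn.1 with h | h
    · exact Or.inl ⟨hn.2, h⟩
    · exact Or.inr ⟨hn.2, h⟩
  have h0 : ∀ l : ℕ, (0 : ℝ) ≤ 1 / (1 + (a * |(k : ℝ) - l|) ^ 2) := fun l => by positivity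
  have h1 : ∑ l ∈ S.filter (fun l => l < k), 1 / (1 + (a * |(k : ℝ) - l|) ^ 2) ≤ 2 / a := by
    refine le_trans ?_ (MV_tele a ha k)
    have hinj : Set.InjOn (fun l : ℕ => k - l - 1)
        ((S.filter fun l => l < k : Finset ℕ) : Set ℕ) := by
      intro x hx y hy hxy
      have hx1 := (mem_filter.1 (Finset.mem_coe.1 hx)).2
      have hy1 := (mem_filter.1 (Finset.mem_coe.1 hy)).2
      simp only at hxy
      omega
    have h2 : ∑ l ∈ S.filter (fun l => l < k), 1 / (1 + (a * |(k : ℝ) - l|) ^ 2) =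
        ∑ j ∈ (S.filter fun l => l < k).image (fun l : ℕ => k - l - 1),
          1 / (1 + (a * ((j + 1 : ℕ) : ℝ)) ^ 2) := by
      rw [Finset.sum_image hinj]
      refine Finset.sum_congr rfl fun l hl => ?_
      have hl1 := (mem_filter.1 hl).2
      have h3 : ((k - l - 1 + 1 : ℕ) : ℝ) = |(k : ℝ) - l| := by
        have h4 : k - l - 1 + 1 + l = k := by omega
        have h5 : ((k - l - 1 + 1 + l : ℕ) : ℝ) = k := by rw [h4]
        rw [Nat.cast_add (k - l - 1 + 1) l] at h5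
        rw [abs_of_pos]
        · linarith
        · have : (l : ℝ) < k := by exact_mod_cast hl1
          linarith
      rw [h3]
    rw [h2]
    refine Finset.sum_le_sum_of_subset_of_nonneg ?_ fun j _ _ => by positivity
    intro j hj
    obtain ⟨l, hl, rfl⟩ := mem_image.1 hj
    have h6 := (mem_filter.1 hl).2
    rw [mem_range]
    omega
  have h1' : ∑ l ∈ S.filter (fun l => k < l), 1 / (1 + (a * |(k : ℝ) - l|) ^ 2) ≤ 2 / a := by
    refine le_trans ?_ (MV_tele a ha (S.sup id + 1))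
    have hinj : Set.InjOn (fun l : ℕ => l - k - 1)
        ((S.filter fun l => k < l : Finset ℕ) : Set ℕ) := by
      intro x hx y hy hxy
      have hx1 := (mem_filter.1 (Finset.mem_coe.1 hx)).2
      have hy1 := (mem_filter.1 (Finset.mem_coe.1 hy)).2
      simp only at hxy
      omega
    have h2 : ∑ l ∈ S.filter (fun l => k < l), 1 / (1 + (a * |(k : ℝ) - l|) ^ 2) =
        ∑ j ∈ (S.filter fun l => k < l).image (fun l : ℕ => l - k - 1),
          1 / (1 + (a * ((j + 1 : ℕ) : ℝ)) ^ 2) := by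
      rw [Finset.sum_image hinj]
      refine Finset.sum_congr rfl fun l hl => ?_
      have hl1 := (mem_filter.1 hl).2
      have h3 : ((l - k - 1 + 1 : ℕ) : ℝ) = |(k : ℝ) - l| := by
        have h4 : l - k - 1 + 1 + k = l := by omega
        have h5 : ((l - k - 1 + 1 + k : ℕ) : ℝ) = l := by rw [h4]
        rw [Nat.cast_add (l - k - 1 + 1) k] at h5
        rw [abs_sub_comm, abs_of_pos]
        · linarith
        · have : (k : ℝ) < l := by exact_mod_cast hl1
          linarith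
      rw [h3]
    rw [h2]
    refine Finset.sum_le_sum_of_subset_of_nonneg ?_ fun j _ _ => by positivity
    intro j hj
    obtain ⟨l, hl, rfl⟩ := mem_image.1 hj
    have h6 := mem_filter.1 hl
    have h7 : l ≤ S.sup id := Finset.le_sup (f := id) h6.1
    rw [mem_range]
    omega
  calc ∑ l ∈ S.erase k, 1 / (1 + (a * |(k : ℝ) - l|) ^ 2)
      ≤ ∑ l ∈ (S.filter fun l => l < k) ∪ (S.filter fun l => k < l),
          1 / (1 + (a * |(k : ℝ) - l|) ^ 2) :=
        Finset.sum_le_sum_of_subset_of_nonneg hsplit fun l _ _ => h0 l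
    _ ≤ ∑ l ∈ S.filter (fun l => l < k), 1 / (1 + (a * |(k : ℝ) - l|) ^ 2) +
          ∑ l ∈ S.filter (fun l => k < l), 1 / (1 + (a * |(k : ℝ) - l|) ^ 2) := by
        rw [← Finset.sum_union_inter]
        exact le_add_of_nonneg_right (Finset.sum_nonneg fun l _ => h0 l)
    _ ≤ 4 / a := by
        have h8 : 4 / a = 2 / a + 2 / a := by ring
        linarith

theorem MV_cpow (y : ℝ) (hy : 0 < y) (t : ℝ) :
    (y : ℂ) ^ (-(t * I)) = Complex.exp ((-(t * Real.log y) : ℝ) * I) ∧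
    (y : ℂ) ^ (t * I) = Complex.exp ((t * Real.log y : ℝ) * I) := by
  constructor
  · rw [Complex.cpow_def_of_ne_zero (Complex.ofReal_ne_zero.2 hy.ne'), ← Complex.ofReal_log hy.le]
    congr 1
    push_cast
    ring
  · rw [Complex.cpow_def_of_ne_zero (Complex.ofReal_ne_zero.2 hy.ne'), ← Complex.ofReal_log hy.le]
    congr 1
    push_cast
    ring

theorem MV_log (N y z : ℝ) (hN : 1 ≤ N) (hy : N ≤ y) (hz : N ≤ z) (hy2 : y ≤ 64 * N)
    (hz2 : z ≤ 64 * N) : |y - z| / (64 * N) ≤ |Real.log z - Real.log y| := by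
  have key : ∀ u v : ℝ, N ≤ u → u ≤ v → v ≤ 64 * N →
      (v - u) / (64 * N) ≤ Real.log v - Real.log u := by
    intro u v hu huv hv
    have hu0 : 0 < u := by linarith
    have hv0 : 0 < v := by linarith
    rw [← Real.log_div hv0.ne' hu0.ne']
    have h2 := Real.one_sub_inv_le_log_of_pos (div_pos hv0 hu0)
    refine le_trans ?_ h2
    rw [inv_div]
    have h3 : (1 : ℝ) - u / v = (v - u) / v := by
      field_simp
    rw [h3]
    exact div_le_div_of_nonneg_left (by linarith) hv0 hv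
  rcases le_total y z with h | h
  · rw [abs_sub_comm, abs_of_nonneg (by linarith)]
    exact (key y z hy h hz2).trans (le_abs_self _)
  · rw [abs_of_nonneg (by linarith : 0 ≤ y - z), abs_sub_comm]
    exact (key z y hz h hy2).trans (le_abs_self _)

/-- **The mean value theorem.**

Proof. `1 ≤ e exp (-t ^ 2 / T ^ 2)` on `[-T, T]`, so the integral is at most `e ∫_ℝ exp (-t ^ 2 / T ^ 2) ‖...‖ ^ 2 = e ∑_{k, l} c_k conj c_l T √π exp (-T ^ 2 λ_{kl} ^ 2 / 4)`, `λ_{kl} = log (x_k / x_l)` (`fourierIntegral_gaussian`). As `x_k, x_l ≤ 64 N` and `|x_k - x_l| ≥ |k - l|`: `|λ_{kl}| ≥ |k - l| / (64 N)`.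
With `|c_k c_l| ≤ (|c_k| ^ 2 + |c_l| ^ 2) / 2` the sum is at most `T √π ∑_k |c_k| ^ 2 ∑_l exp (-(T |k - l| / (128 N)) ^ 2)`, and the inner sum is at most `1 + 2 ∑_{j ≥ 1} exp (-(T j / (128 N)) ^ 2) ≤ 1 + 2 ∑_j 1 / (1 + (T j / (128 N)) ^ 2) ≤ 1 + 2 (128 N / T) π / 2`. -/
theorem mvt : ∃ C : ℝ, 1 ≤ C ∧ ∀ (S : Finset ℕ) (x : ℕ → ℝ) (N T : ℝ), 1 ≤ N → 1 ≤ T → (∀ k ∈ S, N ≤ x k ∧ x k ≤ 64 * N) →
    (∀ k ∈ S, ∀ l ∈ S, |(k : ℝ) - l| ≤ |x k - x l|) → ∀ c : ℕ → ℂ,
    ∫ t in (-T)..T, ‖∑ k ∈ S, c k * (x k : ℂ) ^ (-(t * I))‖ ^ 2 ≤ C * (T + N) * ∑ k ∈ S, ‖c k‖ ^ 2 := by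
  classical
  refine ⟨3072, by norm_num, fun S x N T hN hT hx hsep c => ?_⟩
  have hT0 : 0 < T := by linarith
  have hN0 : 0 < N := by linarith
  have hpos : ∀ k ∈ S, 0 < x k := fun k hk => lt_of_lt_of_le hN0 (hx k hk).1
  set w : ℝ → ℝ := fun t => Real.exp (-(1 / T ^ 2) * t ^ 2) with hw
  set F : ℝ → ℝ := fun t => ‖∑ k ∈ S, c k * (x k : ℂ) ^ (-(t * I))‖ ^ 2 with hF
  have hFc : Continuous F := by
    have h1 : F = fun t : ℝ =>
        ‖∑ k ∈ S, c k * Complex.exp ((-(t * Real.log (x k)) : ℝ) * I)‖ ^ 2 := by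
      funext t
      simp only [hF]
      congr 2
      refine Finset.sum_congr rfl fun k hk => ?_
      rw [(MV_cpow (x k) (hpos k hk) t).1]
    rw [h1]
    fun_prop
  have hwc : Continuous w := by
    simp only [hw]
    fun_prop
  have hexp : ∀ t : ℝ, ((w t * F t : ℝ) : ℂ) =
      ∑ k ∈ S, ∑ l ∈ S, (c k * (starRingEnd ℂ) (c l)) * (((w t : ℝ) : ℂ) *
        Complex.exp (((Real.log (x l) - Real.log (x k)) * t : ℝ) * I)) := by
    intro t
    rw [Complex.ofReal_mul]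
    have h1 : ((F t : ℝ) : ℂ) = ∑ k ∈ S, ∑ l ∈ S, (c k * (starRingEnd ℂ) (c l)) *
        Complex.exp (((Real.log (x l) - Real.log (x k)) * t : ℝ) * I) := by
      simp only [hF]
      rw [Complex.ofReal_pow, ← Complex.mul_conj', map_sum, Finset.sum_mul_sum]
      refine Finset.sum_congr rfl fun k hk => Finset.sum_congr rfl fun l hl => ?_
      rw [(MV_cpow (x k) (hpos k hk) t).1, (MV_cpow (x l) (hpos l hl) t).1, map_mul,
        ← Complex.exp_conj, map_mul, Complex.conj_I, Complex.conj_ofReal]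
      have h2 : Complex.exp (((Real.log (x l) - Real.log (x k)) * t : ℝ) * I) =
          Complex.exp ((-(t * Real.log (x k)) : ℝ) * I) *
            Complex.exp ((-(t * Real.log (x l)) : ℝ) * -I) := by
        rw [← Complex.exp_add]
        congr 1
        push_cast
        ring
      rw [h2]
      ring
    rw [h1, Finset.mul_sum]
    refine Finset.sum_congr rfl fun k _ => ?_
    rw [Finset.mul_sum]
    refine Finset.sum_congr rfl fun l _ => ?_
    ring
  have hint : ∀ k l : ℕ, Integrable (fun t : ℝ => (c k * (starRingEnd ℂ) (c l)) *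
      (((w t : ℝ) : ℂ) * Complex.exp (((Real.log (x l) - Real.log (x k)) * t : ℝ) * I))) :=
    fun k l => (MV_gauss T (Real.log (x l) - Real.log (x k)) hT).1.const_mul _
  have hintC : Integrable (fun t : ℝ => ((w t * F t : ℝ) : ℂ)) := by
    simp_rw [hexp]
    exact integrable_finsetSum _ fun k _ => integrable_finsetSum _ fun l _ => hint k l
  have hintF : Integrable (fun t : ℝ => w t * F t) := by
    have h1 := hintC.re
    simpa using h1
  have hF0 : ∀ t, 0 ≤ F t := fun t => by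
    simp only [hF]
    positivity
  have hw0 : ∀ t, 0 ≤ w t := fun t => (Real.exp_pos _).le
  -- step 1: majorise
  have h1 : ∫ t in (-T)..T, F t ≤ Real.exp 1 * ∫ t : ℝ, w t * F t := by
    have h2 : ∫ t in (-T)..T, F t ≤ ∫ t in (-T)..T, Real.exp 1 * (w t * F t) := by
      refine intervalIntegral.integral_mono_on (by linarith) (hFc.intervalIntegrable _ _)
        ((continuous_const.mul (hwc.mul hFc)).intervalIntegrable _ _) fun t ht => ?_
      have h3 : 1 ≤ Real.exp 1 * w t := by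
        simp only [hw]
        rw [← Real.exp_add]
        refine Real.one_le_exp ?_
        have h4 : t ^ 2 ≤ T ^ 2 := by
          rw [sq_le_sq, abs_of_pos hT0]
          exact abs_le.2 ht
        have h5 : 1 / T ^ 2 * t ^ 2 ≤ 1 := by
          rw [one_div, inv_mul_le_iff₀ (by positivity)]
          linarith
        linarith
      calc F t = 1 * F t := (one_mul _).symm
        _ ≤ (Real.exp 1 * w t) * F t := mul_le_mul_of_nonneg_right h3 (hF0 t)
        _ = Real.exp 1 * (w t * F t) := by ring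
    refine h2.trans ?_
    rw [intervalIntegral.integral_const_mul]
    refine mul_le_mul_of_nonneg_left ?_ (Real.exp_pos 1).le
    rw [intervalIntegral.integral_of_le (by linarith)]
    exact setIntegral_le_integral hintF
      (Filter.Eventually.of_forall fun t => mul_nonneg (hw0 t) (hF0 t))
  -- step 2: expand
  set a : ℝ := T / (128 * N) with ha
  have ha0 : 0 < a := by positivity
  set B : ℕ → ℕ → ℝ := fun k l => 2 * T * (1 / (1 + (a * |(k : ℝ) - l|) ^ 2)) with hB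
  have hBsymm : ∀ k l, B k l = B l k := by
    intro k l
    simp only [hB]
    rw [abs_sub_comm]
  have hBnn : ∀ k l, 0 ≤ B k l := by
    intro k l
    simp only [hB]
    positivity
  have hBb : ∀ k ∈ S, ∀ l ∈ S, ‖∫ t : ℝ, ((w t : ℝ) : ℂ) *
      Complex.exp (((Real.log (x l) - Real.log (x k)) * t : ℝ) * I)‖ ≤ B k l := by
    intro k hk l hl
    refine (MV_gauss T (Real.log (x l) - Real.log (x k)) hT).2.trans ?_
    simp only [hB]
    refine mul_le_mul_of_nonneg_left ?_ (by positivity)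
    have h2 : a * |(k : ℝ) - l| ≤ |T * (Real.log (x l) - Real.log (x k)) / 2| := by
      have h3 := MV_log N (x k) (x l) hN (hx k hk).1 (hx l hl).1 (hx k hk).2 (hx l hl).2
      have h4 : |(k : ℝ) - l| / (64 * N) ≤ |Real.log (x l) - Real.log (x k)| :=
        le_trans (div_le_div_of_nonneg_right (hsep k hk l hl) (by positivity)) h3
      rw [abs_div, abs_mul, abs_of_pos hT0, abs_two]
      have h5 : a * |(k : ℝ) - l| = T * (|(k : ℝ) - l| / (64 * N)) / 2 := by
        simp only [ha]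
        field_simp
        ring
      rw [h5]
      exact div_le_div_of_nonneg_right (mul_le_mul_of_nonneg_left h4 hT0.le) (by norm_num)
    have h6 : (a * |(k : ℝ) - l|) ^ 2 ≤ (T * (Real.log (x l) - Real.log (x k)) / 2) ^ 2 := by
      rw [← sq_abs (T * (Real.log (x l) - Real.log (x k)) / 2)]
      exact pow_le_pow_left₀ (by positivity) h2 2
    rw [Real.exp_neg, one_div]
    refine inv_anti₀ (by positivity) ?_
    have h7 := Real.add_one_le_exp ((T * (Real.log (x l) - Real.log (x k)) / 2) ^ 2)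
    linarith
  have hrow : ∀ k ∈ S, ∑ l ∈ S, B k l ≤ 2 * T + 1024 * N := by
    intro k hk
    rw [← Finset.add_sum_erase S _ hk]
    have h3 : B k k = 2 * T := by simp [hB]
    have h4 : ∑ l ∈ S.erase k, B k l =
        2 * T * ∑ l ∈ S.erase k, 1 / (1 + (a * |(k : ℝ) - l|) ^ 2) := by
      rw [Finset.mul_sum]
    rw [h3, h4]
    have h5 := mul_le_mul_of_nonneg_left (MV_row a ha0 S k) (show 0 ≤ 2 * T by positivity)
    have h6 : 2 * T * (4 / a) = 1024 * N := by
      simp only [ha]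
      field_simp
      norm_num
    linarith
  have h2 : ∫ t : ℝ, w t * F t ≤ ∑ k ∈ S, ∑ l ∈ S, ‖c k‖ * ‖c l‖ * B k l := by
    have h3 : ((∫ t : ℝ, w t * F t : ℝ) : ℂ) = ∑ k ∈ S, ∑ l ∈ S,
        (c k * (starRingEnd ℂ) (c l)) * ∫ t : ℝ, ((w t : ℝ) : ℂ) *
          Complex.exp (((Real.log (x l) - Real.log (x k)) * t : ℝ) * I) := by
      have h0 : ((∫ t : ℝ, w t * F t : ℝ) : ℂ) = ∫ t : ℝ, ((w t * F t : ℝ) : ℂ) :=
        (integral_ofReal (𝕜 := ℂ)).symm
      rw [h0]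
      have h4 : (fun t : ℝ => (((w t * F t : ℝ)) : ℂ)) = fun t : ℝ =>
          ∑ k ∈ S, ∑ l ∈ S, (c k * (starRingEnd ℂ) (c l)) * (((w t : ℝ) : ℂ) *
            Complex.exp (((Real.log (x l) - Real.log (x k)) * t : ℝ) * I)) := funext hexp
      have h5 : (∫ t : ℝ, (((w t * F t : ℝ)) : ℂ)) = ∫ t : ℝ,
          ∑ k ∈ S, ∑ l ∈ S, (c k * (starRingEnd ℂ) (c l)) * (((w t : ℝ) : ℂ) *
            Complex.exp (((Real.log (x l) - Real.log (x k)) * t : ℝ) * I)) := by
        rw [h4]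
      rw [h5, integral_finsetSum _ fun k _ => integrable_finsetSum _ fun l _ => hint k l]
      refine Finset.sum_congr rfl fun k _ => ?_
      rw [integral_finsetSum _ fun l _ => hint k l]
      refine Finset.sum_congr rfl fun l _ => ?_
      rw [integral_const_mul]
    refine (le_abs_self _).trans ?_
    rw [← Real.norm_eq_abs, ← Complex.norm_real, h3]
    refine (norm_sum_le _ _).trans (Finset.sum_le_sum fun k hk => ?_)
    refine (norm_sum_le _ _).trans (Finset.sum_le_sum fun l hl => ?_)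
    rw [norm_mul, norm_mul, RCLike.norm_conj]
    exact mul_le_mul_of_nonneg_left (hBb k hk l hl) (by positivity)
  have h4 : ∑ k ∈ S, ∑ l ∈ S, ‖c k‖ * ‖c l‖ * B k l ≤
      (2 * T + 1024 * N) * ∑ k ∈ S, ‖c k‖ ^ 2 := by
    have h5 : ∑ k ∈ S, ∑ l ∈ S, ‖c k‖ * ‖c l‖ * B k l ≤
        ∑ k ∈ S, ∑ l ∈ S, (‖c k‖ ^ 2 / 2 * B k l + ‖c l‖ ^ 2 / 2 * B k l) := by
      refine Finset.sum_le_sum fun k _ => Finset.sum_le_sum fun l _ => ?_
      rw [← add_mul]
      refine mul_le_mul_of_nonneg_right ?_ (hBnn k l)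
      nlinarith [sq_nonneg (‖c k‖ - ‖c l‖)]
    refine h5.trans ?_
    have h6 : ∑ k ∈ S, ∑ l ∈ S, (‖c k‖ ^ 2 / 2 * B k l + ‖c l‖ ^ 2 / 2 * B k l) =
        ∑ k ∈ S, ‖c k‖ ^ 2 * ∑ l ∈ S, B k l := by
      simp_rw [Finset.sum_add_distrib]
      have h7 : ∑ k ∈ S, ∑ l ∈ S, ‖c l‖ ^ 2 / 2 * B k l =
          ∑ k ∈ S, ∑ l ∈ S, ‖c k‖ ^ 2 / 2 * B k l := by
        rw [Finset.sum_comm]
        refine Finset.sum_congr rfl fun k _ => Finset.sum_congr rfl fun l _ => ?_
        rw [hBsymm]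
      rw [h7, ← Finset.sum_add_distrib]
      refine Finset.sum_congr rfl fun k _ => ?_
      rw [← Finset.mul_sum]
      ring
    rw [h6, Finset.mul_sum]
    refine Finset.sum_le_sum fun k hk => ?_
    rw [mul_comm]
    exact mul_le_mul_of_nonneg_right (hrow k hk) (by positivity)
  have h5 : Real.exp 1 ≤ 3 := by
    have := Real.exp_one_lt_d9
    linarith
  have h6 : 0 ≤ ∑ k ∈ S, ‖c k‖ ^ 2 := Finset.sum_nonneg fun k _ => by positivity
  calc ∫ t in (-T)..T, F t ≤ Real.exp 1 * ∫ t : ℝ, w t * F t := h1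
    _ ≤ 3 * ((2 * T + 1024 * N) * ∑ k ∈ S, ‖c k‖ ^ 2) := by
        refine mul_le_mul h5 (h2.trans h4) ?_ (by norm_num)
        exact integral_nonneg fun t => mul_nonneg (hw0 t) (hF0 t)
    _ ≤ 3072 * (T + N) * ∑ k ∈ S, ‖c k‖ ^ 2 := by
        rw [← mul_assoc]
        refine mul_le_mul_of_nonneg_right ?_ h6
        linarith

/-- **The dual form.**

Proof. Duality. Let `b_k = ∫ E(t) x_k ^ (i t) dt`, `Σ = ∑ ‖b_k‖ ^ 2 = ∫ E(t) (∑ conj b_k x_k ^ (i t)) dt ≤ (∫ ‖E‖ ^ 2) ^ (1/2) (∫ ‖∑ b_k x_k ^ (-i t)‖ ^ 2) ^ (1/2) ≤ (∫ ‖E‖ ^ 2) ^ (1/2) (C (T + N) Σ) ^ (1/2)` (Cauchy-Schwarz and `mvt`; `conj (x_k ^ (i t)) = x_k ^ (-i t)`). -/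
theorem mvt_dual : ∃ C : ℝ, 1 ≤ C ∧ ∀ (S : Finset ℕ) (x : ℕ → ℝ) (N T : ℝ), 1 ≤ N → 1 ≤ T → (∀ k ∈ S, N ≤ x k ∧ x k ≤ 64 * N) →
    (∀ k ∈ S, ∀ l ∈ S, |(k : ℝ) - l| ≤ |x k - x l|) → ∀ E : ℝ → ℂ, Continuous E →
    ∑ k ∈ S, ‖∫ t in (-T)..T, E t * (x k : ℂ) ^ (t * I)‖ ^ 2 ≤ C * (T + N) * ∫ t in (-T)..T, ‖E t‖ ^ 2 := by
  classical
  obtain ⟨C, hC, hmvt⟩ := mvt
  refine ⟨C, hC, fun S x N T hN hT hx hsep E hE => ?_⟩
  have hT0 : 0 < T := by linarith
  have hN0 : 0 < N := by linarith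
  have hpos : ∀ k ∈ S, 0 < x k := fun k hk => lt_of_lt_of_le hN0 (hx k hk).1
  set b : ℕ → ℂ := fun k => ∫ t in (-T)..T, E t * (x k : ℂ) ^ (t * I) with hb
  set Q : ℝ → ℂ := fun t => ∑ k ∈ S, b k * (x k : ℂ) ^ (-(t * I)) with hQ
  set M : ℝ := C * (T + N) with hM
  have hM0 : 0 < M := by positivity
  have hQb : ∫ t in (-T)..T, ‖Q t‖ ^ 2 ≤ M * ∑ k ∈ S, ‖b k‖ ^ 2 :=
    hmvt S x N T hN hT hx hsep b
  have hcont : ∀ k ∈ S, Continuous fun t : ℝ => (x k : ℂ) ^ (t * I) := by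
    intro k hk
    have h1 : (fun t : ℝ => (x k : ℂ) ^ (t * I)) = fun t : ℝ =>
        Complex.exp ((t * Real.log (x k) : ℝ) * I) := funext fun t =>
      (MV_cpow (x k) (hpos k hk) t).2
    rw [h1]
    fun_prop
  have hcont' : ∀ k ∈ S, Continuous fun t : ℝ => (x k : ℂ) ^ (-(t * I)) := by
    intro k hk
    have h1 : (fun t : ℝ => (x k : ℂ) ^ (-(t * I))) = fun t : ℝ =>
        Complex.exp ((-(t * Real.log (x k)) : ℝ) * I) := funext fun t =>
      (MV_cpow (x k) (hpos k hk) t).1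
    rw [h1]
    fun_prop
  have hQc : Continuous Q := by
    simp only [hQ]
    exact continuous_finsetSum S fun k hk => continuous_const.mul (hcont' k hk)
  have hconj : ∀ t : ℝ, (starRingEnd ℂ) (Q t) =
      ∑ k ∈ S, (starRingEnd ℂ) (b k) * (x k : ℂ) ^ (t * I) := by
    intro t
    simp only [hQ]
    rw [map_sum]
    refine Finset.sum_congr rfl fun k hk => ?_
    rw [map_mul, (MV_cpow (x k) (hpos k hk) t).1, (MV_cpow (x k) (hpos k hk) t).2,
      ← Complex.exp_conj, map_mul, Complex.conj_I, Complex.conj_ofReal]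
    congr 2
    push_cast
    ring
  have hsum : ((∑ k ∈ S, ‖b k‖ ^ 2 : ℝ) : ℂ) = ∫ t in (-T)..T, E t * (starRingEnd ℂ) (Q t) := by
    simp_rw [hconj, Finset.mul_sum]
    rw [intervalIntegral.integral_finsetSum]
    · push_cast
      refine Finset.sum_congr rfl fun k _ => ?_
      rw [← Complex.mul_conj']
      have h2 : ∀ t : ℝ, E t * ((starRingEnd ℂ) (b k) * (x k : ℂ) ^ (t * I)) =
          (starRingEnd ℂ) (b k) * (E t * (x k : ℂ) ^ (t * I)) := fun t => by ring
      simp_rw [h2]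
      rw [intervalIntegral.integral_const_mul, mul_comm]
    · intro k hk
      apply Continuous.intervalIntegrable
      exact hE.mul (continuous_const.mul (hcont k hk))
  have h1 : ∑ k ∈ S, ‖b k‖ ^ 2 ≤
      ∫ t in (-T)..T, (M / 2 * ‖E t‖ ^ 2 + 1 / (2 * M) * ‖Q t‖ ^ 2) := by
    refine (le_abs_self _).trans ?_
    rw [← Real.norm_eq_abs, ← Complex.norm_real, hsum]
    refine intervalIntegral.norm_integral_le_of_norm_le (by linarith)
      (Filter.Eventually.of_forall fun t _ => ?_) ?_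
    · rw [norm_mul, RCLike.norm_conj]
      have h2 : 0 ≤ (M * ‖E t‖ - ‖Q t‖) ^ 2 / (2 * M) := by positivity
      have h3 : (M * ‖E t‖ - ‖Q t‖) ^ 2 / (2 * M) =
          M / 2 * ‖E t‖ ^ 2 + 1 / (2 * M) * ‖Q t‖ ^ 2 - ‖E t‖ * ‖Q t‖ := by
        field_simp
        ring
      linarith
    · apply Continuous.intervalIntegrable
      exact (continuous_const.mul (hE.norm.pow 2)).add (continuous_const.mul (hQc.norm.pow 2))
  have h2 : ∫ t in (-T)..T, (M / 2 * ‖E t‖ ^ 2 + 1 / (2 * M) * ‖Q t‖ ^ 2) =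
      M / 2 * (∫ t in (-T)..T, ‖E t‖ ^ 2) + 1 / (2 * M) * ∫ t in (-T)..T, ‖Q t‖ ^ 2 := by
    rw [intervalIntegral.integral_add, intervalIntegral.integral_const_mul,
      intervalIntegral.integral_const_mul]
    · apply Continuous.intervalIntegrable
      exact continuous_const.mul (hE.norm.pow 2)
    · apply Continuous.intervalIntegrable
      exact continuous_const.mul (hQc.norm.pow 2)
  rw [h2] at h1
  have h3 : 1 / (2 * M) * ∫ t in (-T)..T, ‖Q t‖ ^ 2 ≤ (∑ k ∈ S, ‖b k‖ ^ 2) / 2 := by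
    refine (mul_le_mul_of_nonneg_left hQb (by positivity)).trans (le_of_eq ?_)
    field_simp
  linarith

end Pool.Agent.PSG
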