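import Pool.Agent.W_b58c63_h44.TRb
import Pool.Agent.W_b58c63_h44.MV
import Pool.Agent.W_b58c63_h44.Itf

/-!
# Sums over primes in short intervals, on average
-/

set_option autoImplicit false

noncomputable section

open Finset Complex MeasureTheory

namespace Pool.Agent.PSG

theorem TRc_cs (a b : ℝ) (hab : a ≤ b) (u : ℝ → ℝ) (hu : Continuous u) :
    (∫ v in a..b, u v) ^ 2 ≤ (b - a) * ∫ v in a..b, u v ^ 2 := by
  by_cases h : a = b
  · subst h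
    simp
  have hab' : 0 < b - a := sub_pos.2 (lt_of_le_of_ne hab h)
  set m := (∫ v in a..b, u v) / (b - a) with hm
  have h1 : 0 ≤ ∫ v in a..b, (u v - m) ^ 2 := intervalIntegral.integral_nonneg hab (fun v _ => sq_nonneg _)
  have h2 : ∫ v in a..b, (u v - m) ^ 2 = (∫ v in a..b, u v ^ 2) - 2 * m * (∫ v in a..b, u v) + m ^ 2 * (b - a) := by
    have h3 : ∀ v, (u v - m) ^ 2 = u v ^ 2 - 2 * m * u v + m ^ 2 := fun v => by ring
    simp only [h3]
    have i1 : IntervalIntegrable (fun v => u v ^ 2) volume a b := (hu.pow 2).intervalIntegrable _ _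
    have i2 : IntervalIntegrable (fun v => 2 * m * u v) volume a b := (continuous_const.mul hu).intervalIntegrable _ _
    have i3 : IntervalIntegrable (fun _ : ℝ => m ^ 2) volume a b := continuous_const.intervalIntegrable _ _
    rw [intervalIntegral.integral_add (i1.sub i2) i3, intervalIntegral.integral_sub i1 i2, intervalIntegral.integral_const_mul,
      intervalIntegral.integral_const, smul_eq_mul]
    ring
  have h3 : ∫ v in a..b, u v = m * (b - a) := by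
    rw [hm]
    field_simp
  rw [h2, h3] at h1
  rw [h3]
  nlinarith

def TRc_m (X N v : ℝ) : ℝ := max (N - v) (X / 2)

def TRc_K (X N v t : ℝ) : ℂ := Complex.exp (((t * Real.log (TRc_m X N v) : ℝ) : ℂ) * I)

theorem TRc_m_pos {X : ℝ} (hX : 0 < X) (N v : ℝ) : 0 < TRc_m X N v :=
  lt_of_lt_of_le (by linarith : 0 < X / 2) (le_max_right _ _)

theorem TRc_m_eq {X N v : ℝ} (hX : 64 ≤ X) (hN : X ≤ N) (hv : v ≤ 4 * Real.sqrt X) : TRc_m X N v = N - v :=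
  max_eq_left (by have := TRb_sqrt hX; linarith)

theorem TRc_m_cont (X N : ℝ) : Continuous (TRc_m X N) := by
  unfold TRc_m
  fun_prop

theorem TRc_K_cont {X : ℝ} (hX : 0 < X) (N : ℝ) : Continuous (Function.uncurry (TRc_K X N)) := by
  apply Complex.continuous_exp.comp
  apply Continuous.mul _ continuous_const
  apply Complex.continuous_ofReal.comp
  apply Continuous.mul continuous_snd
  exact Continuous.log ((TRc_m_cont X N).comp continuous_fst) (fun z => (TRc_m_pos hX _ _).ne')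

theorem TRc_K_eq {X N v : ℝ} (hX : 64 ≤ X) (hN : X ≤ N) (hv : v ≤ 4 * Real.sqrt X) (t : ℝ) :
    ((N - v : ℝ) : ℂ) ^ (t * I) = TRc_K X N v t := by
  have h0 : 0 < N - v := by
    have := TRb_sqrt hX
    linarith
  rw [TRc_K, TRc_m_eq hX hN hv, Complex.cpow_def_of_ne_zero (by exact_mod_cast h0.ne'), ← Complex.ofReal_log h0.le]
  congr 1
  push_cast
  ring

theorem TRc_hatG {w : ℝ → ℂ} (h4 : ∀ x, x ∉ Set.Icc (1 : ℝ) 4 → w x = 0) {X N : ℝ} (hX : 64 ≤ X) (hN : X ≤ N) (t : ℝ) :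
    hatG w X N t = ∫ v in (Real.sqrt X)..(4 * Real.sqrt X),
      w (v / Real.sqrt X) * (((TRc_m X N v)⁻¹ : ℝ) : ℂ) * TRc_K X N v t := by
  have h2 : 0 < Real.sqrt X := Real.sqrt_pos.2 (by linarith)
  have h3 := TRb_sqrt hX
  have hle : Real.sqrt X ≤ 4 * Real.sqrt X := by linarith
  rw [hatG, intervalIntegral.integral_of_le hle, ← integral_Icc_eq_integral_Ioc]
  rw [← setIntegral_eq_integral_of_forall_compl_eq_zero (s := Set.Icc (Real.sqrt X) (4 * Real.sqrt X))]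
  · refine setIntegral_congr_fun measurableSet_Icc fun v hv => ?_
    have h0 : 0 < N - v := by
      have := hv.2
      linarith
    have h5 : ((N - v : ℝ) : ℂ) ^ (t * I - 1) = (((N - v)⁻¹ : ℝ) : ℂ) * ((N - v : ℝ) : ℂ) ^ (t * I) := by
      rw [Complex.cpow_sub _ _ (by exact_mod_cast h0.ne'), Complex.cpow_one, Complex.ofReal_inv]
      field_simp
    rw [TRc_m_eq hX hN hv.2, ← TRc_K_eq hX hN hv.2, h5]
    ring
  · intro v hv
    have h5 : w (v / Real.sqrt X) = 0 := by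
      apply h4
      intro h
      apply hv
      obtain ⟨h6, h7⟩ := h
      rw [le_div_iff₀ h2] at h6
      rw [div_le_iff₀ h2] at h7
      exact ⟨by linarith, h7⟩
    simp only [h5, zero_mul]

theorem TRc_swap {w : ℝ → ℂ} (hw : Continuous w) (h4 : ∀ x, x ∉ Set.Icc (1 : ℝ) 4 → w x = 0) {X N T : ℝ} (hX : 64 ≤ X) (hN : X ≤ N)
    (E : ℝ → ℂ) (hE : Continuous E) :
    ∫ t in (-T)..T, E t * hatG w X N t = ∫ v in (Real.sqrt X)..(4 * Real.sqrt X),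
      w (v / Real.sqrt X) * (((TRc_m X N v)⁻¹ : ℝ) : ℂ) * ∫ t in (-T)..T, E t * TRc_K X N v t := by
  have hX0 : 0 < X := by linarith
  have h1 : ∀ t, E t * hatG w X N t = ∫ v in (Real.sqrt X)..(4 * Real.sqrt X),
      E t * (w (v / Real.sqrt X) * (((TRc_m X N v)⁻¹ : ℝ) : ℂ) * TRc_K X N v t) := by
    intro t
    rw [TRc_hatG h4 hX hN, intervalIntegral.integral_const_mul]
  simp only [h1]
  rw [intervalIntegral_intervalIntegral_swap]
  · refine intervalIntegral.integral_congr fun v _ => ?_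
    rw [← intervalIntegral.integral_const_mul]
    refine intervalIntegral.integral_congr fun t _ => ?_
    ring
  · have hc : Continuous (Function.uncurry fun t v : ℝ => E t * (w (v / Real.sqrt X) * (((TRc_m X N v)⁻¹ : ℝ) : ℂ) * TRc_K X N v t)) := by
      apply Continuous.mul (hE.comp continuous_fst)
      apply Continuous.mul
      · apply Continuous.mul
        · exact hw.comp (continuous_snd.div_const _)
        · apply Complex.continuous_ofReal.comp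
          exact Continuous.inv₀ ((TRc_m_cont X N).comp continuous_snd) (fun z => (TRc_m_pos hX0 _ _).ne')
      · exact (TRc_K_cont hX0 N).comp (continuous_snd.prodMk continuous_fst)
    exact (hc.continuousOn.integrableOn_compact (isCompact_uIcc.prod isCompact_uIcc)).mono_set
      (Set.prod_mono Set.uIoc_subset_uIcc Set.uIoc_subset_uIcc)

theorem TRc_I_cont {X : ℝ} (hX : 0 < X) (N T : ℝ) (E : ℝ → ℂ) (hE : Continuous E) :
    Continuous (fun v : ℝ => ∫ t in (-T)..T, E t * TRc_K X N v t) := by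
  apply intervalIntegral.continuous_parametric_intervalIntegral_of_continuous'
  apply Continuous.mul (hE.comp continuous_snd)
  exact TRc_K_cont hX N

theorem TRc_one {A B : ℝ} {w : ℝ → ℂ} (hw : IsW 0 A B w) (h4 : ∀ x, x ∉ Set.Icc (1 : ℝ) 4 → w x = 0) {X N T : ℝ} (hX : 64 ≤ X) (hN : X ≤ N)
    (E : ℝ → ℂ) (hE : Continuous E) :
    ‖∫ t in (-T)..T, E t * hatG w X N t‖ ^ 2 ≤ (2 * A / X) ^ 2 * (3 * Real.sqrt X) *
      ∫ v in (Real.sqrt X)..(4 * Real.sqrt X), ‖∫ t in (-T)..T, E t * TRc_K X N v t‖ ^ 2 := by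
  have hX0 : 0 < X := by linarith
  have h2 : 0 < Real.sqrt X := Real.sqrt_pos.2 (by linarith)
  have hle : Real.sqrt X ≤ 4 * Real.sqrt X := by linarith
  have hA : ∀ x, ‖w x‖ ≤ A := by
    intro x
    have := hw.2.2 0 le_rfl x
    simpa using this
  have hA0 : 0 ≤ A := (norm_nonneg _).trans (hA 0)
  have hIc := TRc_I_cont hX0 N T E hE
  rw [TRc_swap hw.1.continuous h4 hX hN E hE]
  have h3 : ‖∫ v in (Real.sqrt X)..(4 * Real.sqrt X),
      w (v / Real.sqrt X) * (((TRc_m X N v)⁻¹ : ℝ) : ℂ) * ∫ t in (-T)..T, E t * TRc_K X N v t‖ ≤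
      ∫ v in (Real.sqrt X)..(4 * Real.sqrt X), (2 * A / X) * ‖∫ t in (-T)..T, E t * TRc_K X N v t‖ := by
    apply intervalIntegral.norm_integral_le_of_norm_le hle
    · refine Filter.Eventually.of_forall fun v _ => ?_
      rw [norm_mul, norm_mul]
      apply mul_le_mul_of_nonneg_right _ (norm_nonneg _)
      have h5 : ‖(((TRc_m X N v)⁻¹ : ℝ) : ℂ)‖ ≤ 2 / X := by
        rw [Complex.norm_real, Real.norm_eq_abs, abs_of_pos (inv_pos.2 (TRc_m_pos hX0 _ _))]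
        have h6 : X / 2 ≤ TRc_m X N v := le_max_right _ _
        calc (TRc_m X N v)⁻¹ ≤ (X / 2)⁻¹ := inv_anti₀ (by positivity) h6
          _ = 2 / X := by rw [inv_div]
      calc ‖w (v / Real.sqrt X)‖ * ‖(((TRc_m X N v)⁻¹ : ℝ) : ℂ)‖ ≤ A * (2 / X) :=
            mul_le_mul (hA _) h5 (norm_nonneg _) hA0
        _ = 2 * A / X := by ring
    · exact (continuous_const.mul hIc.norm).intervalIntegrable _ _
  rw [intervalIntegral.integral_const_mul] at h3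
  have h5 := TRc_cs _ _ hle (fun v => ‖∫ t in (-T)..T, E t * TRc_K X N v t‖) hIc.norm
  have h6 : 4 * Real.sqrt X - Real.sqrt X = 3 * Real.sqrt X := by ring
  rw [h6] at h5
  calc _ ≤ ((2 * A / X) * ∫ v in (Real.sqrt X)..(4 * Real.sqrt X), ‖∫ t in (-T)..T, E t * TRc_K X N v t‖) ^ 2 :=
        pow_le_pow_left₀ (norm_nonneg _) h3 2
    _ = (2 * A / X) ^ 2 * (∫ v in (Real.sqrt X)..(4 * Real.sqrt X), ‖∫ t in (-T)..T, E t * TRc_K X N v t‖) ^ 2 := by ring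
    _ ≤ (2 * A / X) ^ 2 * ((3 * Real.sqrt X) * ∫ v in (Real.sqrt X)..(4 * Real.sqrt X), ‖∫ t in (-T)..T, E t * TRc_K X N v t‖ ^ 2) :=
        mul_le_mul_of_nonneg_left h5 (sq_nonneg _)
    _ = _ := by ring

/-- The dual estimate.

Proof. Fubini: `∫_{-T}^{T} E(t) hatG(t) dt = ∫ w (v / √X) (N - v) ^ (-1) I_N(v) dv`, `I_N(v) = ∫_{-T}^{T} E(t) (N - v) ^ (i t) dt`. By Cauchy-Schwarz its square is at most `A ^ 2 3 √X (4 / X ^ 2) ∫_{√X}^{4 √X} ‖I_N(v)‖ ^ 2 dv`. Sum over `N`: for fixed `v` the points `x N = N - v` are in `[X / 2, 2 X]` and well spaced, `mvt_dual` (with `N := X / 2`) gives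
`∑_N ‖I_N(v)‖ ^ 2 ≤ C (T + X) ∫ ‖E‖ ^ 2`. Total `36 C A ^ 2 X (T + X) / X ^ 2 ∫ ‖E‖ ^ 2`. -/
theorem TR_dual : ∃ C : ℝ, 1 ≤ C ∧ ∀ (A B : ℝ) (w : ℝ → ℂ), IsW 0 A B w → (∀ x, x ∉ Set.Icc (1 : ℝ) 4 → w x = 0) →
    ∀ X T : ℝ, 64 ≤ X → 1 ≤ T → T ≤ X → ∀ E : ℝ → ℂ, Continuous E →
    ∑ N ∈ Ioc ⌊X⌋₊ ⌊2 * X⌋₊, ‖∫ t in (-T)..T, E t * hatG w X N t‖ ^ 2 ≤ C * A ^ 2 * ∫ t in (-T)..T, ‖E t‖ ^ 2 := by
  obtain ⟨C, hC, H⟩ := mvt_dual
  refine ⟨54 * C, by linarith, ?_⟩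
  intro A B w hw h4 X T hX hT1 hTX E hE
  have hX0 : 0 < X := by linarith
  have h2 : 0 < Real.sqrt X := Real.sqrt_pos.2 (by linarith)
  have h3 := TRb_sqrt hX
  have hle : Real.sqrt X ≤ 4 * Real.sqrt X := by linarith
  have hmem : ∀ N ∈ Ioc ⌊X⌋₊ ⌊2 * X⌋₊, X ≤ (N : ℝ) ∧ (N : ℝ) ≤ 2 * X := by
    intro N hN
    rw [Finset.mem_Ioc] at hN
    refine ⟨(Nat.lt_of_floor_lt hN.1).le, ?_⟩
    exact (Nat.le_floor_iff (by positivity)).1 hN.2
  set Q := ∫ t in (-T)..T, ‖E t‖ ^ 2 with hQ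
  have hQ0 : 0 ≤ Q := intervalIntegral.integral_nonneg (by linarith) (fun t _ => by positivity)
  have hpt : ∀ v ∈ Set.Icc (Real.sqrt X) (4 * Real.sqrt X), ∑ N ∈ Ioc ⌊X⌋₊ ⌊2 * X⌋₊, ‖∫ t in (-T)..T, E t * TRc_K X N v t‖ ^ 2 ≤
      C * (T + X / 2) * Q := by
    intro v hv
    have h5 := H (Ioc ⌊X⌋₊ ⌊2 * X⌋₊) (fun k => (k : ℝ) - v) (X / 2) T (by linarith) hT1 ?_ ?_ E hE
    · refine le_trans (le_of_eq ?_) h5
      refine Finset.sum_congr rfl fun N hN => ?_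
      congr 2
      refine intervalIntegral.integral_congr fun t _ => ?_
      rw [TRc_K_eq hX (hmem N hN).1 hv.2]
    · intro k hk
      have h6 := hmem k hk
      have h7 := hv.1
      have h8 := hv.2
      constructor
      · linarith
      · linarith
    · intro k _ l _
      simp
  have hsum : ∑ N ∈ Ioc ⌊X⌋₊ ⌊2 * X⌋₊, ∫ v in (Real.sqrt X)..(4 * Real.sqrt X), ‖∫ t in (-T)..T, E t * TRc_K X N v t‖ ^ 2 ≤
      (3 * Real.sqrt X) * (C * (T + X / 2) * Q) := by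
    rw [← intervalIntegral.integral_finsetSum]
    · have h5 : ∫ v in (Real.sqrt X)..(4 * Real.sqrt X), ∑ N ∈ Ioc ⌊X⌋₊ ⌊2 * X⌋₊, ‖∫ t in (-T)..T, E t * TRc_K X N v t‖ ^ 2 ≤
          ∫ v in (Real.sqrt X)..(4 * Real.sqrt X), C * (T + X / 2) * Q := by
        apply intervalIntegral.integral_mono_on hle
        · apply Continuous.intervalIntegrable
          apply continuous_finsetSum
          intro N _
          exact (TRc_I_cont hX0 N T E hE).norm.pow 2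
        · exact continuous_const.intervalIntegrable _ _
        · exact hpt
      refine h5.trans (le_of_eq ?_)
      rw [intervalIntegral.integral_const, smul_eq_mul]
      ring
    · intro N _
      exact ((TRc_I_cont hX0 N T E hE).norm.pow 2).intervalIntegrable _ _
  calc ∑ N ∈ Ioc ⌊X⌋₊ ⌊2 * X⌋₊, ‖∫ t in (-T)..T, E t * hatG w X N t‖ ^ 2
      ≤ ∑ N ∈ Ioc ⌊X⌋₊ ⌊2 * X⌋₊, (2 * A / X) ^ 2 * (3 * Real.sqrt X) *
        ∫ v in (Real.sqrt X)..(4 * Real.sqrt X), ‖∫ t in (-T)..T, E t * TRc_K X N v t‖ ^ 2 :=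
        Finset.sum_le_sum fun N hN => TRc_one hw h4 hX (hmem N hN).1 E hE
    _ = (2 * A / X) ^ 2 * (3 * Real.sqrt X) * ∑ N ∈ Ioc ⌊X⌋₊ ⌊2 * X⌋₊,
        ∫ v in (Real.sqrt X)..(4 * Real.sqrt X), ‖∫ t in (-T)..T, E t * TRc_K X N v t‖ ^ 2 := by rw [Finset.mul_sum]
    _ ≤ (2 * A / X) ^ 2 * (3 * Real.sqrt X) * ((3 * Real.sqrt X) * (C * (T + X / 2) * Q)) :=
        mul_le_mul_of_nonneg_left hsum (by positivity)
    _ = 36 * C * A ^ 2 * (T + X / 2) * Q * (Real.sqrt X * Real.sqrt X) / X ^ 2 := by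
        field_simp
        ring
    _ = 36 * C * A ^ 2 * Q * ((T + X / 2) / X) := by
        rw [Real.mul_self_sqrt hX0.le]
        field_simp
    _ ≤ 36 * C * A ^ 2 * Q * (3 / 2) := by
        apply mul_le_mul_of_nonneg_left _ (by positivity)
        rw [div_le_iff₀ hX0]
        linarith
    _ = 54 * C * A ^ 2 * Q := by ring

theorem TRc_DS_cont {q : ℕ} (χ : DirichletCharacter ℂ q) (w : ℝ → ℂ) (Z : ℝ) : Continuous (DS χ w Z) := by
  unfold DS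
  apply continuous_finsetSum
  intro n hn
  have hn0 : (n : ℂ) ≠ 0 := by
    have := (Finset.mem_Icc.1 hn).1
    exact_mod_cast (by omega : n ≠ 0)
  apply Continuous.mul _ continuous_const
  apply Continuous.mul continuous_const
  exact Continuous.const_cpow (by fun_prop) (Or.inl hn0)

theorem TRc_DS_bound {q : ℕ} (χ : DirichletCharacter ℂ q) (X : ℝ) (hX : 1 ≤ X) (t : ℝ) :
    ‖DS χ (fun x => (Wm x : ℂ)) X t‖ ≤ 256 * X ^ 2 := by
  unfold DS
  refine (norm_sum_le _ _).trans ?_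
  have hX0 : 0 < X := by linarith
  have h1 : ∀ n ∈ Icc 1 ⌊16 * X⌋₊, ‖(ArithmeticFunction.vonMangoldt n : ℂ) * χ (n : ZMod q) * (n : ℂ) ^ (-(t * I)) * (Wm (n / X) : ℂ)‖ ≤
      16 * X := by
    intro n hn
    have hn0 : 1 ≤ n := (Finset.mem_Icc.1 hn).1
    have hn00 : (0 : ℝ) < n := by exact_mod_cast hn0
    have hn16 : (n : ℝ) ≤ 16 * X := (Nat.le_floor_iff (by positivity)).1 (Finset.mem_Icc.1 hn).2
    rw [norm_mul, norm_mul, norm_mul]
    have h2 : ‖(ArithmeticFunction.vonMangoldt n : ℂ)‖ ≤ 16 * X := by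
      rw [Complex.norm_real, Real.norm_eq_abs, abs_of_nonneg ArithmeticFunction.vonMangoldt_nonneg]
      refine ArithmeticFunction.vonMangoldt_le_log.trans ?_
      exact (Real.log_le_self hn00.le).trans hn16
    have h3 : ‖χ (n : ZMod q)‖ ≤ 1 := DirichletCharacter.norm_le_one χ _
    have h4 : ‖(n : ℂ) ^ (-(t * I))‖ = 1 := by
      rw [← Complex.ofReal_natCast, Complex.norm_cpow_eq_rpow_re_of_pos hn00]
      simp
    have h5 : ‖(Wm (n / X) : ℂ)‖ ≤ 1 := by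
      have := Wm_facts.1 (n / X)
      rw [Complex.norm_real, Real.norm_eq_abs, abs_of_nonneg this.1]
      exact this.2
    rw [h4, mul_one]
    calc _ ≤ 16 * X * 1 * 1 := by
          apply mul_le_mul _ h5 (norm_nonneg _) (by positivity)
          exact mul_le_mul h2 h3 (norm_nonneg _) (by positivity)
      _ = 16 * X := by ring
  refine (Finset.sum_le_sum h1).trans ?_
  rw [Finset.sum_const, Nat.card_Icc, nsmul_eq_mul, Nat.add_sub_cancel]
  have h2 : (⌊16 * X⌋₊ : ℝ) ≤ 16 * X := Nat.floor_le (by positivity)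
  nlinarith

theorem TRc_ZR {F : ℂ → ℂ} {κ T : ℝ} {ρ : ℂ} (h : ρ ∈ ZR F κ T) : 1 - κ ≤ ρ.re ∧ ρ.re ≤ 1 := by
  unfold ZR at h
  split_ifs at h with h1
  · rw [Set.Finite.mem_toFinset] at h
    exact ⟨h.2.1, h.2.2.1⟩
  · simp at h

theorem TRc_dl {q : ℕ} (χ : DirichletCharacter ℂ q) : 0 ≤ dl χ ∧ dl χ ≤ 1 := by
  unfold dl
  split_ifs <;> norm_num

theorem TRc_MM_cont (δ X : ℝ) (hX : 0 < X) {q : ℕ} (χ : DirichletCharacter ℂ q) :
    Continuous (MM δ X χ (fun x => (Wm x : ℂ)) X) := by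
  obtain ⟨A, hA, _, hW, _⟩ := isW_fixed 0
  have hm : Continuous (mellin (fun x => (Wm x : ℂ))) := (mellin_diff 0 A 1 _ hW).continuous
  have hX0 : (X : ℂ) ≠ 0 := by exact_mod_cast hX.ne'
  have h1 : ∀ s : ℂ, Continuous (fun t : ℝ => (X : ℂ) ^ (s - t * I) * mellin (fun x => (Wm x : ℂ)) (s - t * I)) := by
    intro s
    have h2 : Continuous (fun t : ℝ => s - t * I) := by fun_prop
    exact (Continuous.const_cpow h2 (Or.inl hX0)).mul (hm.comp h2)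
  unfold MM
  apply Continuous.sub
  · exact continuous_const.mul (h1 1)
  · apply continuous_finsetSum
    intro ρ _
    exact continuous_const.mul (h1 ρ)

theorem TRc_MM_bound (C A δ X : ℝ) (hX : 1 ≤ X) (hδ : 0 < δ) (hδ1 : δ ≤ 1 / 16) {q : ℕ} (χ : DirichletCharacter ℂ q) (hCA : 0 ≤ C * A)
    (hm : ∀ s : ℂ, -1 ≤ s.re → s.re ≤ 3 → ‖mellin (fun x => (Wm x : ℂ)) s‖ ≤ C * A)
    (hz : ∑ ρ ∈ ZR (EF χ) δ X, (mz (EF χ) ρ : ℝ) ≤ 2 * X ^ (δ / 4)) (t : ℝ) :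
    ‖MM δ X χ (fun x => (Wm x : ℂ)) X t‖ ≤ 3 * C * A * X ^ 2 := by
  have hX0 : 0 < X := by linarith
  have h1 : ∀ s : ℂ, -1 ≤ s.re → s.re ≤ 1 → ‖(X : ℂ) ^ (s - t * I) * mellin (fun x => (Wm x : ℂ)) (s - t * I)‖ ≤ X * (C * A) := by
    intro s h1 h2
    have hre : (s - t * I).re = s.re := by simp
    rw [norm_mul, Complex.norm_cpow_eq_rpow_re_of_pos hX0, hre]
    apply mul_le_mul _ _ (norm_nonneg _) hX0.le
    · calc X ^ s.re ≤ X ^ (1 : ℝ) := Real.rpow_le_rpow_of_exponent_le hX h2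
        _ = X := Real.rpow_one X
    · apply hm
      · rw [hre]
        exact h1
      · rw [hre]
        linarith
  unfold MM
  refine (norm_sub_le _ _).trans ?_
  have h2 : ‖(dl χ : ℂ) * ((X : ℂ) ^ (1 - t * I) * mellin (fun x => (Wm x : ℂ)) (1 - t * I))‖ ≤ X * (C * A) := by
    rw [norm_mul, Complex.norm_real, Real.norm_eq_abs, abs_of_nonneg (TRc_dl χ).1]
    calc _ ≤ 1 * (X * (C * A)) := by
          apply mul_le_mul (TRc_dl χ).2 _ (norm_nonneg _) (by norm_num)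
          exact h1 1 (by norm_num) (by norm_num)
      _ = _ := one_mul _
  have h3 : ‖∑ ρ ∈ ZR (EF χ) δ X, (mz (EF χ) ρ : ℂ) * ((X : ℂ) ^ (ρ - t * I) * mellin (fun x => (Wm x : ℂ)) (ρ - t * I))‖ ≤
      (2 * X ^ (δ / 4)) * (X * (C * A)) := by
    refine (norm_sum_le _ _).trans ?_
    refine le_trans ?_ (mul_le_mul_of_nonneg_right hz (by positivity))
    rw [Finset.sum_mul]
    refine Finset.sum_le_sum fun ρ hρ => ?_
    have h4 := TRc_ZR hρ
    rw [norm_mul, Complex.norm_natCast]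
    apply mul_le_mul_of_nonneg_left _ (Nat.cast_nonneg _)
    exact h1 ρ (by linarith) h4.2
  have h4 : X ^ (δ / 4) ≤ X := by
    calc X ^ (δ / 4) ≤ X ^ (1 : ℝ) := Real.rpow_le_rpow_of_exponent_le hX (by linarith)
      _ = X := Real.rpow_one X
  calc _ ≤ X * (C * A) + (2 * X ^ (δ / 4)) * (X * (C * A)) := add_le_add h2 h3
    _ ≤ X * (C * A) * X + (2 * X) * (X * (C * A)) := by
        apply add_le_add
        · exact le_mul_of_one_le_right (by positivity) hX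
        · apply mul_le_mul_of_nonneg_right _ (by positivity)
          linarith
    _ = 3 * C * A * X ^ 2 := by ring

theorem TRc_pt (δ X B : ℝ) (J : ℕ) (hδ : 0 < δ) (hδ1 : δ ≤ 1 / 16) (hX : 1 ≤ X) (hJ2 : 2 ≤ J) (hJ : 2000 / δ ≤ J) (hB0 : 1 ≤ B)
    (hB : B ≤ X ^ (δ / 64)) (t : ℝ) (ht : X ^ (1 / 2 + δ / 32) ≤ |t|) :
    (Real.sqrt X * B / |t|) ^ J ≤ X ^ (-(28 : ℝ)) * (2 * (1 + t ^ 2)⁻¹) := by
  have hX0 : 0 < X := by linarith
  have h1 : 1 ≤ X ^ (1 / 2 + δ / 32) := Real.one_le_rpow hX (by positivity)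
  have ht1 : 1 ≤ |t| := h1.trans ht
  have ht2 : 1 ≤ t ^ 2 := by
    rw [← sq_abs]
    nlinarith
  have hx0 : 0 ≤ Real.sqrt X * B / |t| := by positivity
  have hx1 : Real.sqrt X * B / |t| ≤ X ^ (-(δ / 64)) := by
    rw [div_le_iff₀ (by linarith)]
    calc Real.sqrt X * B ≤ X ^ (1 / 2 : ℝ) * X ^ (δ / 64) := by
          rw [← Real.sqrt_eq_rpow]
          exact mul_le_mul_of_nonneg_left hB (Real.sqrt_nonneg _)
      _ = X ^ (-(δ / 64)) * X ^ (1 / 2 + δ / 32) := by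
          rw [← Real.rpow_add hX0, ← Real.rpow_add hX0]
          congr 1
          ring
      _ ≤ X ^ (-(δ / 64)) * |t| := mul_le_mul_of_nonneg_left ht (Real.rpow_nonneg hX0.le _)
  obtain ⟨k, rfl⟩ : ∃ k, J = k + 2 := ⟨J - 2, by omega⟩
  rw [pow_add]
  have h2 : (Real.sqrt X * B / |t|) ^ k ≤ X ^ (-(30 : ℝ)) := by
    calc (Real.sqrt X * B / |t|) ^ k ≤ (X ^ (-(δ / 64))) ^ k := pow_le_pow_left₀ hx0 hx1 k
      _ = X ^ (-(δ / 64) * k) := by rw [← Real.rpow_natCast, ← Real.rpow_mul hX0.le]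
      _ ≤ X ^ (-(30 : ℝ)) := by
          apply Real.rpow_le_rpow_of_exponent_le hX
          rw [div_le_iff₀ hδ] at hJ
          push_cast at hJ
          nlinarith
  have h3 : (Real.sqrt X * B / |t|) ^ 2 ≤ X ^ (2 : ℝ) * (2 * (1 + t ^ 2)⁻¹) := by
    rw [div_pow, mul_pow, Real.sq_sqrt hX0.le, sq_abs]
    have h4 : B ^ 2 ≤ X := by
      calc B ^ 2 ≤ (X ^ (δ / 64)) ^ 2 := pow_le_pow_left₀ (by linarith) hB 2
        _ = X ^ (δ / 64 * 2) := by
            rw [← Real.rpow_natCast, ← Real.rpow_mul hX0.le]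
            norm_num
        _ ≤ X ^ (1 : ℝ) := Real.rpow_le_rpow_of_exponent_le hX (by linarith)
        _ = X := Real.rpow_one X
    have h5 : 1 / t ^ 2 ≤ 2 * (1 + t ^ 2)⁻¹ := by
      rw [← div_eq_mul_inv, div_le_div_iff₀ (by positivity) (by positivity)]
      linarith
    calc X * B ^ 2 / t ^ 2 = X * B ^ 2 * (1 / t ^ 2) := by ring
      _ ≤ X * X * (2 * (1 + t ^ 2)⁻¹) := by
          apply mul_le_mul _ h5 (by positivity) (by positivity)
          exact mul_le_mul_of_nonneg_left h4 hX0.le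
      _ = X ^ (2 : ℝ) * (2 * (1 + t ^ 2)⁻¹) := by
          rw [Real.rpow_two]
          ring
  calc _ ≤ X ^ (-(30 : ℝ)) * (X ^ (2 : ℝ) * (2 * (1 + t ^ 2)⁻¹)) :=
        mul_le_mul h2 h3 (by positivity) (Real.rpow_nonneg hX0.le _)
    _ = X ^ (-(28 : ℝ)) * (2 * (1 + t ^ 2)⁻¹) := by
        rw [← mul_assoc, ← Real.rpow_add hX0]
        norm_num

theorem TRc_tail (δ X A B K C : ℝ) (J : ℕ) (hδ : 0 < δ) (hδ1 : δ ≤ 1 / 16) (hX : 64 ≤ X) (hJ2 : 2 ≤ J) (hJ : 2000 / δ ≤ J) (hB0 : 1 ≤ B)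
    (hB : B ≤ X ^ (δ / 64)) (hA : 0 ≤ A) (hC : 0 ≤ C) (hK : 0 ≤ K) (hKX : 7 * K * C ≤ X) (E G : ℝ → ℂ) (hE : ∀ t, ‖E t‖ ≤ K * X ^ 2)
    (hG : ∀ t : ℝ, t ≠ 0 → ‖G t‖ ≤ C * A * X ^ (-(1 / 2) : ℝ) * (Real.sqrt X * B / |t|) ^ J) :
    ‖∫ t in (Set.Ioc (-(X ^ (1 / 2 + δ / 32))) (X ^ (1 / 2 + δ / 32)))ᶜ, E t * G t‖ ≤ A * X ^ (-(1 : ℝ)) := by
  have hX1 : 1 ≤ X := by linarith
  have hX0 : 0 < X := by linarith
  set T := X ^ (1 / 2 + δ / 32) with hT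
  have hT1 : 1 ≤ T := Real.one_le_rpow hX1 (by positivity)
  have hb : ∀ t ∈ (Set.Ioc (-T) T)ᶜ, ‖E t * G t‖ ≤ (2 * K * C * A * X ^ (-(26 : ℝ))) * (1 + t ^ 2)⁻¹ := by
    intro t ht
    have ht1 : T ≤ |t| := by
      rw [Set.mem_compl_iff, Set.mem_Ioc, not_and_or, not_lt, not_le] at ht
      rcases ht with h | h
      · rw [le_abs]
        right
        linarith
      · rw [le_abs]
        left
        exact h.le
    have ht0 : t ≠ 0 := by
      intro h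
      rw [h, abs_zero] at ht1
      linarith
    have h1 := TRc_pt δ X B J hδ hδ1 hX1 hJ2 hJ hB0 hB t ht1
    have h2 := hG t ht0
    have h3 : X ^ (-(1 / 2) : ℝ) ≤ 1 := Real.rpow_le_one_of_one_le_of_nonpos hX1 (by norm_num)
    have h4 : ‖G t‖ ≤ C * A * (X ^ (-(28 : ℝ)) * (2 * (1 + t ^ 2)⁻¹)) := by
      refine h2.trans ?_
      apply mul_le_mul _ h1 (by positivity) (by positivity)
      exact mul_le_of_le_one_right (by positivity) h3
    rw [norm_mul]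
    calc ‖E t‖ * ‖G t‖ ≤ (K * X ^ 2) * (C * A * (X ^ (-(28 : ℝ)) * (2 * (1 + t ^ 2)⁻¹))) :=
          mul_le_mul (hE t) h4 (norm_nonneg _) (by positivity)
      _ = (2 * K * C * A * (X ^ (-(28 : ℝ)) * X ^ (2 : ℝ))) * (1 + t ^ 2)⁻¹ := by
          rw [Real.rpow_two]
          ring
      _ = (2 * K * C * A * X ^ (-(26 : ℝ))) * (1 + t ^ 2)⁻¹ := by
          rw [← Real.rpow_add hX0]
          norm_num
  have hI : Integrable (fun t : ℝ => (2 * K * C * A * X ^ (-(26 : ℝ))) * (1 + t ^ 2)⁻¹) := integrable_inv_one_add_sq.const_mul _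
  have h1 : ‖∫ t in (Set.Ioc (-T) T)ᶜ, E t * G t‖ ≤ ∫ t in (Set.Ioc (-T) T)ᶜ, (2 * K * C * A * X ^ (-(26 : ℝ))) * (1 + t ^ 2)⁻¹ := by
    apply norm_integral_le_of_norm_le hI.integrableOn
    exact (ae_restrict_iff' measurableSet_Ioc.compl).2 (Filter.Eventually.of_forall hb)
  refine h1.trans ?_
  have h2 : ∫ t in (Set.Ioc (-T) T)ᶜ, (2 * K * C * A * X ^ (-(26 : ℝ))) * (1 + t ^ 2)⁻¹ ≤
      ∫ t : ℝ, (2 * K * C * A * X ^ (-(26 : ℝ))) * (1 + t ^ 2)⁻¹ := by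
    apply setIntegral_le_integral hI
    refine Filter.Eventually.of_forall fun t => ?_
    have : 0 ≤ X ^ (-(26 : ℝ)) := Real.rpow_nonneg hX0.le _
    simp only [Pi.zero_apply]
    positivity
  refine h2.trans ?_
  rw [integral_const_mul, integral_univ_inv_one_add_sq]
  have hpi : Real.pi ≤ 3.5 := by linarith [Real.pi_lt_d2]
  have h26 : 0 ≤ X ^ (-(26 : ℝ)) := Real.rpow_nonneg hX0.le _
  calc 2 * K * C * A * X ^ (-(26 : ℝ)) * Real.pi ≤ 2 * K * C * A * X ^ (-(26 : ℝ)) * 3.5 :=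
        mul_le_mul_of_nonneg_left hpi (by positivity)
    _ = A * ((7 * K * C) * X ^ (-(26 : ℝ))) := by ring
    _ ≤ A * (X * X ^ (-(26 : ℝ))) := by
        apply mul_le_mul_of_nonneg_left _ hA
        exact mul_le_mul_of_nonneg_right hKX h26
    _ ≤ A * X ^ (-(1 : ℝ)) := by
        apply mul_le_mul_of_nonneg_left _ hA
        nth_rewrite 1 [← Real.rpow_one X]
        rw [← Real.rpow_add hX0]
        apply Real.rpow_le_rpow_of_exponent_le hX1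
        norm_num

theorem TRc_split (M τ D : ℂ) (h : D = (1 / (2 * Real.pi) : ℂ) * (M + τ)) : ‖D‖ ^ 2 ≤ ‖M‖ ^ 2 + ‖τ‖ ^ 2 := by
  have h1 : ‖(1 / (2 * Real.pi) : ℂ)‖ ≤ 1 / 2 := by
    rw [norm_div, norm_one, norm_mul, Complex.norm_real, Real.norm_eq_abs, abs_of_pos Real.pi_pos]
    have h2 : ‖(2 : ℂ)‖ = 2 := by simp
    rw [h2]
    apply one_div_le_one_div_of_le (by norm_num)
    linarith [Real.pi_gt_three]
  have h2 : ‖D‖ ≤ 1 / 2 * (‖M‖ + ‖τ‖) := by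
    rw [h, norm_mul]
    exact mul_le_mul h1 (norm_add_le _ _) (norm_nonneg _) (by norm_num)
  have h3 := norm_nonneg D
  have h4 := norm_nonneg M
  have h5 := norm_nonneg τ
  nlinarith [sq_nonneg (‖M‖ - ‖τ‖)]

/-- **Sums over primes in short intervals, on average over `N`.**

Proof. Let `T = X ^ (1/2 + δ/32)`, `J = ⌈2000 / δ⌉`, `E = DS - MM` (continuous). By `TR_ident` the difference is `(1 / (2 π)) ∫ E(t) hatG(t) dt`. The part `|t| ≤ T`: `TR_dual` and `mean_diff`. The part `|t| > T`: `‖DS‖ ≤ C X`, `‖MM‖ ≤ C X (1 + 2 X ^ (δ/4))`, and by `hatG_facts`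
`∫_{|t| > T} ‖hatG‖ ≤ C A X ^ (-1/2) T (X ^ (1/2 + δ/64) / T) ^ J = C A X ^ (-1/2) T X ^ (-J δ/64) ≤ A X ^ (-20)`. -/
theorem transfer [MDI] : ∃ κ₁ : ℝ, 0 < κ₁ ∧ κ₁ ≤ 1 / 16 ∧ ∀ δ : ℝ, 0 < δ → δ ≤ κ₁ → ∃ (J : ℕ) (ε c X₀ : ℝ), 0 < ε ∧ 0 < c ∧ 3 ≤ X₀ ∧ ∀ X : ℝ, X₀ ≤ X →
    ∀ (q : ℕ) [NeZero q], (q : ℝ) ≤ X ^ ε → ∀ χ : DirichletCharacter ℂ q, χ.IsPrimitive →
    ∑ ρ ∈ ZR (EF χ) δ X, (mz (EF χ) ρ : ℝ) ≤ 2 * X ^ (δ / 4) →
    ∀ (A B : ℝ) (w : ℝ → ℂ), 1 ≤ B → B ≤ X ^ (δ / 64) → IsW J A B w → (∀ x, x ∉ Set.Icc (1 : ℝ) 4 → w x = 0) →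
    ∑ N ∈ Ioc ⌊X⌋₊ ⌊2 * X⌋₊, ‖∑ m ∈ Icc 1 N, (ArithmeticFunction.vonMangoldt m : ℂ) * χ (m : ZMod q) * w ((N - m : ℝ) / Real.sqrt X) -
      JM δ X χ w N‖ ^ 2 ≤ A ^ 2 * X ^ (2 - c) := by
  obtain ⟨κ₁, hκ0, hκ1, H⟩ := MDI.mean_diff
  refine ⟨κ₁, hκ0, hκ1, ?_⟩
  intro δ hδ hδκ
  have hδ1 : δ ≤ 1 / 16 := hδκ.trans hκ1
  obtain ⟨ε, c, X₀, hε, hc, hX₀, HM⟩ := H δ hδ hδκ
  set J : ℕ := ⌈2000 / δ⌉₊ with hJdef
  have hJ : 2000 / δ ≤ J := Nat.le_ceil _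
  have hJ2 : 2 ≤ J := by
    have h1 : (2000 : ℝ) ≤ 2000 / δ := by
      rw [le_div_iff₀ hδ]
      linarith
    have h2 : (2 : ℝ) ≤ J := by linarith
    exact_mod_cast h2
  obtain ⟨CG, hCG, HG⟩ := hatG_facts J (by omega)
  obtain ⟨CD, hCD, HD⟩ := TR_dual
  obtain ⟨CM, hCM, HMel⟩ := mellin_decay 0
  obtain ⟨AW, hAW, _, hWm, _⟩ := isW_fixed 0
  set K := 256 + 3 * CM * AW with hKdef
  have hK0 : 0 ≤ K := by positivity
  set c' := min c 1 / 2 with hc'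
  have hc'0 : 0 < c' := by
    rw [hc']
    have : 0 < min c 1 := lt_min hc one_pos
    linarith
  have hc'1 : 2 * c' ≤ c := by
    rw [hc']
    linarith [min_le_left c 1]
  have hc'2 : 2 * c' ≤ 1 := by
    rw [hc']
    linarith [min_le_right c 1]
  have hKC : 0 ≤ 7 * K * CG := by positivity
  have hpw : 0 ≤ (CD + 2) ^ (1 / c') := by positivity
  refine ⟨J, ε, c', X₀ + 64 + 7 * K * CG + (CD + 2) ^ (1 / c'), hε, hc'0, by linarith, ?_⟩
  intro X hX q _ hq χ hχ hz A B w hB1 hBX hw h4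
  have hX64 : 64 ≤ X := by linarith
  have hX1 : 1 ≤ X := by linarith
  have hX0 : 0 < X := by linarith
  have hA : 0 ≤ A := by
    have h1 := hw.2.2 0 (Nat.zero_le _) 0
    rw [pow_zero, mul_one] at h1
    exact (norm_nonneg _).trans h1
  set T := X ^ (1 / 2 + δ / 32) with hT
  have hT1 : 1 ≤ T := Real.one_le_rpow hX1 (by positivity)
  have hTX : T ≤ X := by
    calc T ≤ X ^ (1 : ℝ) := Real.rpow_le_rpow_of_exponent_le hX1 (by linarith)
      _ = X := Real.rpow_one X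
  have hDSc := TRc_DS_cont χ (fun x => (Wm x : ℂ)) X
  have hMMc := TRc_MM_cont δ X hX0 χ
  have hDSb := TRc_DS_bound χ X hX1
  have hMMb := TRc_MM_bound CM AW δ X hX1 hδ hδ1 χ (by positivity)
    (fun s h1 h3 => (HMel AW 1 _ (by linarith) le_rfl hWm s h1 h3).1) hz
  have hEb : ∀ t, ‖DS χ (fun x => (Wm x : ℂ)) X t - MM δ X χ (fun x => (Wm x : ℂ)) X t‖ ≤ K * X ^ 2 := by
    intro t
    refine (norm_sub_le _ _).trans ?_
    have h1 := hDSb t
    have h2 := hMMb t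
    rw [hKdef]
    linarith
  have hw2 : IsW 2 A B w := isW_mono hw hJ2 (by linarith) le_rfl le_rfl
  have hw0 : IsW 0 A B w := isW_mono hw (Nat.zero_le _) (by linarith) le_rfl le_rfl
  have hmem : ∀ N ∈ Ioc ⌊X⌋₊ ⌊2 * X⌋₊, X ≤ (N : ℝ) ∧ (N : ℝ) ≤ 2 * X := by
    intro N hN
    rw [Finset.mem_Ioc] at hN
    refine ⟨(Nat.lt_of_floor_lt hN.1).le, ?_⟩
    exact (Nat.le_floor_iff (by positivity)).1 hN.2
  have hone : ∀ N ∈ Ioc ⌊X⌋₊ ⌊2 * X⌋₊, ‖∑ m ∈ Icc 1 N, (ArithmeticFunction.vonMangoldt m : ℂ) * χ (m : ZMod q) * w ((N - m : ℝ) / Real.sqrt X) -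
      JM δ X χ w N‖ ^ 2 ≤ ‖∫ t in (-T)..T, (DS χ (fun x => (Wm x : ℂ)) X t - MM δ X χ (fun x => (Wm x : ℂ)) X t) * hatG w X N t‖ ^ 2 +
        (A * X ^ (-(1 : ℝ))) ^ 2 := by
    intro N hN
    obtain ⟨hN1, hN2⟩ := hmem N hN
    obtain ⟨h1, h2⟩ := TR_ident δ hδ hδ1 A B w hB1 hw2 h4 X hX64 N hN1 hN2 χ
    have hG := TRb_hatG_int hB1 hw2 h4 hX64 hN1 hN2
    have i1 : Integrable (fun t : ℝ => DS χ (fun x => (Wm x : ℂ)) X t * hatG w X N t) :=
      hG.bdd_mul hDSc.aestronglyMeasurable (Filter.Eventually.of_forall hDSb)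
    have i2 : Integrable (fun t : ℝ => MM δ X χ (fun x => (Wm x : ℂ)) X t * hatG w X N t) :=
      hG.bdd_mul hMMc.aestronglyMeasurable (Filter.Eventually.of_forall hMMb)
    have i3 : Integrable (fun t : ℝ => (DS χ (fun x => (Wm x : ℂ)) X t - MM δ X χ (fun x => (Wm x : ℂ)) X t) * hatG w X N t) := by
      refine (i1.sub i2).congr (Filter.Eventually.of_forall fun t => ?_)
      simp only [Pi.sub_apply]
      ring
    have h3 : ∑ m ∈ Icc 1 N, (ArithmeticFunction.vonMangoldt m : ℂ) * χ (m : ZMod q) * w ((N - m : ℝ) / Real.sqrt X) - JM δ X χ w N =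
        (1 / (2 * Real.pi) : ℂ) * ((∫ t in (-T)..T, (DS χ (fun x => (Wm x : ℂ)) X t - MM δ X χ (fun x => (Wm x : ℂ)) X t) * hatG w X N t) +
          ∫ t in (Set.Ioc (-T) T)ᶜ, (DS χ (fun x => (Wm x : ℂ)) X t - MM δ X χ (fun x => (Wm x : ℂ)) X t) * hatG w X N t) := by
      rw [intervalIntegral.integral_of_le (by linarith : -T ≤ T), integral_add_compl measurableSet_Ioc i3, h1, h2, ← mul_sub,
        ← integral_sub i1 i2]
      congr 1
      refine integral_congr_ae (Filter.Eventually.of_forall fun t => ?_)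
      simp only
      ring
    refine (TRc_split _ _ _ h3).trans ?_
    apply add_le_add le_rfl
    apply pow_le_pow_left₀ (norm_nonneg _)
    exact TRc_tail δ X A B K CG J hδ hδ1 hX64 hJ2 hJ hB1 hBX hA (by linarith) hK0 (by linarith) _ _ hEb
      (HG A B w hB1 hw h4 X N hX64 hN1 hN2).2.2
  have hmain := HD A B w hw0 h4 X T hX64 hT1 hTX _ (hDSc.sub hMMc)
  simp only [Pi.sub_apply] at hmain
  have hms := HM X (by linarith) q hq χ hχ hz
  have hX2c : X ^ (2 - c) ≤ X ^ (2 - 2 * c') := Real.rpow_le_rpow_of_exponent_le hX1 (by linarith)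
  have hX1c : 1 ≤ X ^ (2 - 2 * c') := Real.one_le_rpow hX1 (by linarith)
  have hcard : ((Ioc ⌊X⌋₊ ⌊2 * X⌋₊).card : ℝ) * (A * X ^ (-(1 : ℝ))) ^ 2 ≤ 2 * A ^ 2 := by
    rw [Nat.card_Ioc]
    have h1 : ((⌊2 * X⌋₊ - ⌊X⌋₊ : ℕ) : ℝ) ≤ 2 * X := by
      have h2 : ((⌊2 * X⌋₊ - ⌊X⌋₊ : ℕ) : ℝ) ≤ ⌊2 * X⌋₊ := by
        exact_mod_cast Nat.sub_le _ _
      exact h2.trans (Nat.floor_le (by positivity))
    have h2 : (A * X ^ (-(1 : ℝ))) ^ 2 = A ^ 2 / X ^ 2 := by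
      rw [Real.rpow_neg_one, mul_pow, inv_pow]
      field_simp
    rw [h2]
    calc _ ≤ (2 * X) * (A ^ 2 / X ^ 2) := mul_le_mul_of_nonneg_right h1 (by positivity)
      _ = 2 * A ^ 2 * (1 / X) := by
          field_simp
      _ ≤ 2 * A ^ 2 * 1 := by
          apply mul_le_mul_of_nonneg_left _ (by positivity)
          rw [div_le_one hX0]
          exact hX1
      _ = 2 * A ^ 2 := mul_one _
  have hCDX : CD + 2 ≤ X ^ c' := by
    calc CD + 2 = ((CD + 2) ^ (1 / c')) ^ c' := by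
          rw [← Real.rpow_mul (by linarith), one_div, inv_mul_cancel₀ hc'0.ne', Real.rpow_one]
      _ ≤ X ^ c' := Real.rpow_le_rpow hpw (by linarith) hc'0.le
  calc _ ≤ ∑ N ∈ Ioc ⌊X⌋₊ ⌊2 * X⌋₊, (‖∫ t in (-T)..T, (DS χ (fun x => (Wm x : ℂ)) X t - MM δ X χ (fun x => (Wm x : ℂ)) X t) * hatG w X N t‖ ^ 2 +
        (A * X ^ (-(1 : ℝ))) ^ 2) := Finset.sum_le_sum hone
    _ = ∑ N ∈ Ioc ⌊X⌋₊ ⌊2 * X⌋₊, ‖∫ t in (-T)..T, (DS χ (fun x => (Wm x : ℂ)) X t - MM δ X χ (fun x => (Wm x : ℂ)) X t) * hatG w X N t‖ ^ 2 +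
        ((Ioc ⌊X⌋₊ ⌊2 * X⌋₊).card : ℝ) * (A * X ^ (-(1 : ℝ))) ^ 2 := by
        rw [Finset.sum_add_distrib, Finset.sum_const, nsmul_eq_mul]
    _ ≤ CD * A ^ 2 * X ^ (2 - c) + 2 * A ^ 2 := by
        apply add_le_add _ hcard
        exact hmain.trans (mul_le_mul_of_nonneg_left hms (by positivity))
    _ ≤ CD * A ^ 2 * X ^ (2 - 2 * c') + 2 * A ^ 2 * X ^ (2 - 2 * c') := by
        apply add_le_add
        · exact mul_le_mul_of_nonneg_left hX2c (by positivity)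
        · exact le_mul_of_one_le_right (by positivity) hX1c
    _ = A ^ 2 * ((CD + 2) * X ^ (2 - 2 * c')) := by ring
    _ ≤ A ^ 2 * (X ^ c' * X ^ (2 - 2 * c')) := by
        apply mul_le_mul_of_nonneg_left _ (by positivity)
        exact mul_le_mul_of_nonneg_right hCDX (Real.rpow_nonneg hX0.le _)
    _ = A ^ 2 * X ^ (2 - c') := by
        rw [← Real.rpow_add hX0]
        congr 2
        ring

end Pool.Agent.PSG
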