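import Pool.Agent.W_b58c63_h44.AC
import Pool.Agent.W_b58c63_h44.TRc
import Pool.Agent.W_b58c63_h44.MTf
import Pool.Agent.W_b58c63_h44.Itf
import Pool.Agent.W_b58c63_h44.CI

/-!
# The convolution of the model with the primes
-/

set_option autoImplicit false

noncomputable section

open Finset Complex MeasureTheory

namespace Pool.Agent.PSG

open Pool.Agent.Wb58c63 (prim ee)

/-- The sum over the large prime. -/
def JJ (δ T X : ℝ) {r r₂ : ℕ} (χ : DirichletCharacter ℂ r) (ψ : DirichletCharacter ℂ r₂) (N : ℕ) : ℂ :=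
  ∑ m ∈ Icc 1 N, (ArithmeticFunction.vonMangoldt m : ℂ) * ψ (m : ZMod r₂) * gx δ T X χ ((N - m : ℝ) / Real.sqrt X)

theorem RM_bad (D N : ℕ) (hD : 1 ≤ D) (hDN : D ≤ N) :
    ∑ m ∈ (Icc 1 N).filter (fun m => ¬ m.Coprime D), ArithmeticFunction.vonMangoldt m ≤ 2 * (1 + Real.log N) ^ 2 := by
  classical
  have hN : 1 ≤ N := hD.trans hDN
  have hlN : 0 ≤ Real.log N := Real.log_natCast_nonneg N
  set P : ℕ → Finset ℕ := fun p => (Icc 1 (Nat.log p N)).image (fun j => p ^ j) with hP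
  have h1 : ∀ m ∈ (Icc 1 N).filter (fun m => ¬ m.Coprime D),
      ArithmeticFunction.vonMangoldt m ≤ ∑ p ∈ D.primeFactors, if m ∈ P p then Real.log p else 0 := by
    intro m hm
    rw [mem_filter, mem_Icc] at hm
    obtain ⟨⟨hm1, hm2⟩, hm3⟩ := hm
    have hnn : ∀ p ∈ D.primeFactors, (0 : ℝ) ≤ if m ∈ P p then Real.log p else 0 := by
      intro p _
      split_ifs
      · exact Real.log_natCast_nonneg p
      · exact le_rfl
    by_cases h0 : IsPrimePow m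
    · obtain ⟨q, j, hq, hj, hqj⟩ := (isPrimePow_nat_iff m).1 h0
      have hqD : q ∣ D := by
        by_contra h
        apply hm3
        rw [← hqj]
        exact Nat.Coprime.pow_left j ((Nat.Prime.coprime_iff_not_dvd hq).2 h)
      have hmem : q ∈ D.primeFactors := Nat.mem_primeFactors.2 ⟨hq, hqD, by omega⟩
      have h2 : m ∈ P q := by
        rw [hP]
        refine mem_image.2 ⟨j, mem_Icc.2 ⟨hj, ?_⟩, hqj⟩
        refine Nat.le_log_of_pow_le hq.one_lt ?_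
        rw [hqj]
        exact hm2
      calc ArithmeticFunction.vonMangoldt m = Real.log q := by
            rw [← hqj, ArithmeticFunction.vonMangoldt_apply_pow hj.ne',
              ArithmeticFunction.vonMangoldt_apply_prime hq]
        _ = if m ∈ P q then Real.log q else 0 := by rw [if_pos h2]
        _ ≤ _ := Finset.single_le_sum hnn hmem
    · rw [ArithmeticFunction.vonMangoldt_eq_zero_iff.2 h0]
      exact Finset.sum_nonneg hnn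
  have h2 : ∀ p ∈ D.primeFactors,
      ∑ m ∈ (Icc 1 N).filter (fun m => ¬ m.Coprime D), (if m ∈ P p then Real.log p else 0) ≤ Real.log N := by
    intro p hp
    have hpp : p.Prime := Nat.prime_of_mem_primeFactors hp
    have hlp : 0 < Real.log p := Real.log_pos (by exact_mod_cast hpp.one_lt)
    rw [← Finset.sum_filter, Finset.sum_const, nsmul_eq_mul]
    have h3 : (((Icc 1 N).filter (fun m => ¬ m.Coprime D)).filter (fun m => m ∈ P p)).card ≤ Nat.log p N := by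
      calc _ ≤ (P p).card := card_le_card (fun m hm => (mem_filter.1 hm).2)
        _ ≤ (Icc 1 (Nat.log p N)).card := card_image_le
        _ = Nat.log p N := by simp
    calc ((((Icc 1 N).filter (fun m => ¬ m.Coprime D)).filter (fun m => m ∈ P p)).card : ℝ) * Real.log p
        ≤ (Nat.log p N : ℝ) * Real.log p := by
          refine mul_le_mul_of_nonneg_right (by exact_mod_cast h3) hlp.le
      _ = Real.log ((p : ℝ) ^ (Nat.log p N)) := by rw [Real.log_pow]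
      _ ≤ Real.log N := by
          refine Real.log_le_log (by have := hpp.pos; positivity) ?_
          exact_mod_cast Nat.pow_log_le_self p (by omega)
  have h3 : (D.primeFactors.card : ℝ) ≤ 2 * Real.log N := by
    have h4 : 2 ^ D.primeFactors.card ≤ N := by
      calc 2 ^ D.primeFactors.card = ∏ p ∈ D.primeFactors, 2 := by rw [prod_const]
        _ ≤ ∏ p ∈ D.primeFactors, p := by
            refine Finset.prod_le_prod' fun p hp => (Nat.prime_of_mem_primeFactors hp).two_le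
        _ ≤ D := Nat.le_of_dvd (by omega) (Nat.prod_primeFactors_dvd D)
        _ ≤ N := hDN
    have h5 : (D.primeFactors.card : ℝ) * Real.log 2 ≤ Real.log N := by
      rw [← Real.log_pow]
      refine Real.log_le_log (by positivity) ?_
      exact_mod_cast h4
    have h6 := Real.log_two_gt_d9
    have h7 : (0 : ℝ) ≤ D.primeFactors.card := by positivity
    nlinarith
  calc ∑ m ∈ (Icc 1 N).filter (fun m => ¬ m.Coprime D), ArithmeticFunction.vonMangoldt m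
      ≤ ∑ m ∈ (Icc 1 N).filter (fun m => ¬ m.Coprime D), ∑ p ∈ D.primeFactors, (if m ∈ P p then Real.log p else 0) :=
        Finset.sum_le_sum h1
    _ = ∑ p ∈ D.primeFactors, ∑ m ∈ (Icc 1 N).filter (fun m => ¬ m.Coprime D), (if m ∈ P p then Real.log p else 0) :=
        Finset.sum_comm
    _ ≤ ∑ p ∈ D.primeFactors, Real.log N := Finset.sum_le_sum h2
    _ = D.primeFactors.card * Real.log N := by rw [Finset.sum_const, nsmul_eq_mul]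
    _ ≤ (2 * Real.log N) * Real.log N := mul_le_mul_of_nonneg_right h3 hlN
    _ ≤ 2 * (1 + Real.log N) ^ 2 := by nlinarith

/-- The function of the residue. -/
def RM_F {r : ℕ} (k : ℕ) (χ : DirichletCharacter ℂ r) (N b : ℕ) : ℂ :=
  (starRingEnd ℂ) (χ (((N : ℤ) - b : ℤ) : ZMod r)) * (cR k ((N : ℤ) - b) : ℂ)

theorem RM_F_congr {r : ℕ} (k : ℕ) (χ : DirichletCharacter ℂ r) (N b m : ℕ) (h : b ≡ m [MOD (r * k)]) :
    RM_F k χ N b = RM_F k χ N m := by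
  have h1 : ((r * k : ℕ) : ℤ) ∣ (m : ℤ) - b := (Nat.modEq_iff_dvd).1 h
  have h2 : (r : ℤ) ∣ ((N : ℤ) - b) - ((N : ℤ) - m) := by
    have : ((N : ℤ) - b) - ((N : ℤ) - m) = (m : ℤ) - b := by ring
    rw [this]
    exact (Dvd.intro (k : ℤ) (by push_cast; ring)).trans h1
  have h3 : ((r * k : ℕ) : ℤ) ∣ ((N : ℤ) - b) - ((N : ℤ) - m) := by
    have : ((N : ℤ) - b) - ((N : ℤ) - m) = (m : ℤ) - b := by ring
    rw [this]
    exact h1
  have h4 : (((N : ℤ) - b : ℤ) : ZMod r) = (((N : ℤ) - m : ℤ) : ZMod r) := by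
    rw [ZMod.intCast_eq_intCast_iff]
    exact Int.ModEq.symm ((Int.modEq_iff_dvd).2 h2)
  unfold RM_F
  rw [h4, cR_congr k (r * k) (Dvd.intro_left r rfl) _ _ h3]

theorem RM_F_le {r : ℕ} (k : ℕ) (hk : Squarefree k) (χ : DirichletCharacter ℂ r) (N b : ℕ) :
    ‖RM_F k χ N b‖ ≤ k := by
  unfold RM_F
  rw [norm_mul, RCLike.norm_conj]
  have h1 := χ.norm_le_one (((N : ℤ) - b : ℤ) : ZMod r)
  have h2 : ‖(cR k ((N : ℤ) - b) : ℂ)‖ ≤ k := by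
    rw [Complex.norm_real, Real.norm_eq_abs]
    exact cR_le k hk _
  calc _ ≤ 1 * (k : ℝ) := mul_le_mul h1 h2 (norm_nonneg _) zero_le_one
    _ = k := one_mul _

theorem RM_Tk {r r₂ : ℕ} (k : ℕ) (χ : DirichletCharacter ℂ r) (ψ : DirichletCharacter ℂ r₂) (N : ℕ) :
    Tk k χ ψ N = ∑ b ∈ (range (r * k)).filter (fun b => b.Coprime (r * k)),
      RM_F k χ N b * (starRingEnd ℂ) (ψ (b : ZMod r₂)) := rfl

theorem RM_Tk_le {r r₂ : ℕ} (k : ℕ) (hk : Squarefree k) (χ : DirichletCharacter ℂ r) (ψ : DirichletCharacter ℂ r₂) (N : ℕ) :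
    ‖Tk k χ ψ N‖ ≤ (r * k).totient * k := by
  rw [RM_Tk]
  refine (norm_sum_le _ _).trans ?_
  have h1 : ∀ b ∈ (range (r * k)).filter (fun b => b.Coprime (r * k)),
      ‖RM_F k χ N b * (starRingEnd ℂ) (ψ (b : ZMod r₂))‖ ≤ k := by
    intro b _
    rw [norm_mul, RCLike.norm_conj]
    calc _ ≤ (k : ℝ) * 1 := mul_le_mul (RM_F_le k hk χ N b) (ψ.norm_le_one _) (norm_nonneg _) (by positivity)
      _ = k := mul_one _
  refine (Finset.sum_le_sum h1).trans ?_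
  rw [Finset.sum_const, nsmul_eq_mul]
  refine mul_le_mul_of_nonneg_right ?_ (by positivity)
  have h2 : ((range (r * k)).filter (fun b => b.Coprime (r * k))).card = (r * k).totient := by
    rw [Nat.totient_eq_card_coprime]
    congr 1
    refine Finset.filter_congr fun b _ => ?_
    exact Nat.coprime_comm
  rw [h2]

/-- The sum over the characters, for `m` prime to the modulus. -/
theorem RM_S {r : ℕ} (k N : ℕ) (hr : 1 ≤ r) (hk : Squarefree k) (χ : DirichletCharacter ℂ r) (m : ℕ) (hm : m.Coprime (r * k)) :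
    ∑ r₂ ∈ (r * k).divisors, ∑ ψ ∈ prim r₂, (1 / ((r * k).totient : ℂ)) * Tk k χ ψ N * ψ (m : ZMod r₂) =
      RM_F k χ N m := by
  classical
  have hk1 : 1 ≤ k := Nat.pos_of_ne_zero (fun h => by rw [h] at hk; exact not_squarefree_zero hk)
  have hD : 1 ≤ r * k := Nat.mul_pos hr hk1
  have : NeZero (r * k) := ⟨by omega⟩
  have hφ : ((r * k).totient : ℂ) ≠ 0 := by
    exact_mod_cast (Nat.totient_pos.2 (by omega : 0 < r * k)).ne'
  have h1 : ∑ r₂ ∈ (r * k).divisors, ∑ ψ ∈ prim r₂, (1 / ((r * k).totient : ℂ)) * Tk k χ ψ N * ψ (m : ZMod r₂) =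
      ∑ ψ : DirichletCharacter ℂ (r * k), (1 / ((r * k).totient : ℂ)) *
        (∑ b ∈ (range (r * k)).filter (fun b => b.Coprime (r * k)),
          RM_F k χ N b * (starRingEnd ℂ) (ψ (b : ZMod (r * k)))) * ψ (m : ZMod (r * k)) := by
    rw [Pool.Agent.Wb58c63.sum_chars (r * k) hD (fun ψ => (1 / ((r * k).totient : ℂ)) *
        (∑ b ∈ (range (r * k)).filter (fun b => b.Coprime (r * k)),
          RM_F k χ N b * (starRingEnd ℂ) (ψ (b : ZMod (r * k)))) * ψ (m : ZMod (r * k))),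
      ← Finset.sum_attach (s := (r * k).divisors)
        (f := fun r₂ => ∑ ψ ∈ prim r₂, (1 / ((r * k).totient : ℂ)) * Tk k χ ψ N * ψ (m : ZMod r₂))]
    refine Finset.sum_congr rfl fun r₂ _ => ?_
    refine Finset.sum_congr rfl fun ψ _ => ?_
    rw [Pool.Agent.Wb58c63.GdA_changeLevel _ ψ m hm, RM_Tk]
    congr 2
    refine Finset.sum_congr rfl fun b hb => ?_
    rw [Pool.Agent.Wb58c63.GdA_changeLevel _ ψ b (mem_filter.1 hb).2]
  have hconj : ∀ (ψ : DirichletCharacter ℂ (r * k)) (b : ℕ), b.Coprime (r * k) →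
      (starRingEnd ℂ) (ψ (b : ZMod (r * k))) = ψ ((b : ZMod (r * k))⁻¹) := by
    intro ψ b hb
    have hbu : IsUnit (b : ZMod (r * k)) := (ZMod.isUnit_iff_coprime b (r * k)).2 hb
    have h2 : ψ ((b : ZMod (r * k))⁻¹) * ψ (b : ZMod (r * k)) = 1 := by
      rw [← map_mul, ZMod.inv_mul_of_unit _ hbu, map_one]
    have h3 : ‖ψ (b : ZMod (r * k))‖ = 1 := by
      have := ψ.unit_norm_eq_one hbu.unit
      simpa using this
    have h4 : (starRingEnd ℂ) (ψ (b : ZMod (r * k))) * ψ (b : ZMod (r * k)) = 1 := by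
      rw [mul_comm, Complex.mul_conj, Complex.normSq_eq_norm_sq, h3]
      simp
    have h5 : ψ (b : ZMod (r * k)) ≠ 0 := by
      intro h
      rw [h, norm_zero] at h3
      exact zero_ne_one h3
    exact mul_right_cancel₀ h5 (h4.trans h2.symm)
  rw [h1]
  calc ∑ ψ : DirichletCharacter ℂ (r * k), (1 / ((r * k).totient : ℂ)) *
        (∑ b ∈ (range (r * k)).filter (fun b => b.Coprime (r * k)),
          RM_F k χ N b * (starRingEnd ℂ) (ψ (b : ZMod (r * k)))) * ψ (m : ZMod (r * k))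
      = ∑ ψ : DirichletCharacter ℂ (r * k), ∑ b ∈ (range (r * k)).filter (fun b => b.Coprime (r * k)),
          (1 / ((r * k).totient : ℂ)) * RM_F k χ N b * (ψ ((b : ZMod (r * k))⁻¹) * ψ (m : ZMod (r * k))) := by
        refine Finset.sum_congr rfl fun ψ _ => ?_
        rw [Finset.mul_sum, Finset.sum_mul]
        refine Finset.sum_congr rfl fun b hb => ?_
        rw [hconj ψ b (mem_filter.1 hb).2]
        ring
    _ = ∑ b ∈ (range (r * k)).filter (fun b => b.Coprime (r * k)),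
          (1 / ((r * k).totient : ℂ)) * RM_F k χ N b *
            (if (b : ZMod (r * k)) = (m : ZMod (r * k)) then ((r * k).totient : ℂ) else 0) := by
        rw [Finset.sum_comm]
        refine Finset.sum_congr rfl fun b hb => ?_
        rw [← Finset.mul_sum, DirichletCharacter.sum_char_inv_mul_char_eq ℂ
          ((ZMod.isUnit_iff_coprime b (r * k)).2 (mem_filter.1 hb).2)]
    _ = ∑ b ∈ (range (r * k)).filter (fun b => b.Coprime (r * k)),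
          (if b = m % (r * k) then RM_F k χ N m else 0) := by
        refine Finset.sum_congr rfl fun b hb => ?_
        have hb1 : b < r * k := mem_range.1 (mem_filter.1 hb).1
        by_cases h : (b : ZMod (r * k)) = (m : ZMod (r * k))
        · have h6 : b ≡ m [MOD (r * k)] := (ZMod.natCast_eq_natCast_iff b m (r * k)).1 h
          have h7 : b = m % (r * k) := by
            have := h6
            unfold Nat.ModEq at this
            rw [Nat.mod_eq_of_lt hb1] at this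
            exact this
          rw [if_pos h, if_pos h7, RM_F_congr k χ N b m h6]
          field_simp
        · have h7 : ¬ b = m % (r * k) := by
            intro h8
            apply h
            rw [h8, ZMod.natCast_mod]
          rw [if_neg h, if_neg h7, mul_zero]
    _ = RM_F k χ N m := by
        rw [Finset.sum_ite_eq' , if_pos]
        rw [mem_filter, mem_range]
        refine ⟨Nat.mod_lt _ (by omega), ?_⟩
        rw [Nat.coprime_iff_gcd_eq_one, ← Nat.gcd_rec, Nat.gcd_comm]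
        exact hm

theorem RM_count (D : ℕ) (hD : 1 ≤ D) : ∑ r₂ ∈ D.divisors, (((prim r₂).card : ℕ) : ℝ) = D.totient := by
  classical
  have : NeZero D := ⟨by omega⟩
  have h1 := Pool.Agent.Wb58c63.sum_chars D hD (fun _ => (1 : ℂ))
  simp only [Finset.sum_const, nsmul_eq_mul, mul_one] at h1
  rw [Finset.sum_attach (s := D.divisors) (f := fun r₂ => (((prim r₂).card : ℕ) : ℂ))] at h1
  have h2 : (Finset.univ : Finset (DirichletCharacter ℂ D)).card = D.totient := by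
    rw [Finset.card_univ, ← Nat.card_eq_fintype_card]
    exact DirichletCharacter.card_eq_totient_of_hasEnoughRootsOfUnity ℂ D
  rw [h2] at h1
  exact_mod_cast h1.symm

theorem RM_S_le {r : ℕ} (k N : ℕ) (hr : 1 ≤ r) (hk : Squarefree k) (χ : DirichletCharacter ℂ r) (m : ℕ) :
    ‖∑ r₂ ∈ (r * k).divisors, ∑ ψ ∈ prim r₂, (1 / ((r * k).totient : ℂ)) * Tk k χ ψ N * ψ (m : ZMod r₂)‖ ≤
      (r * k).totient * k := by
  classical
  have hk1 : 1 ≤ k := Nat.pos_of_ne_zero (fun h => by rw [h] at hk; exact not_squarefree_zero hk)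
  have hD : 1 ≤ r * k := Nat.mul_pos hr hk1
  have hφ : (0 : ℝ) < (r * k).totient := by exact_mod_cast Nat.totient_pos.2 (by omega : 0 < r * k)
  calc ‖∑ r₂ ∈ (r * k).divisors, ∑ ψ ∈ prim r₂, (1 / ((r * k).totient : ℂ)) * Tk k χ ψ N * ψ (m : ZMod r₂)‖
      ≤ ∑ r₂ ∈ (r * k).divisors, ∑ ψ ∈ prim r₂, (k : ℝ) := by
        refine (norm_sum_le _ _).trans (Finset.sum_le_sum fun r₂ _ => ?_)
        refine (norm_sum_le _ _).trans (Finset.sum_le_sum fun ψ _ => ?_)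
        rw [norm_mul, norm_mul, norm_div, norm_one, Complex.norm_natCast]
        calc 1 / ((r * k).totient : ℝ) * ‖Tk k χ ψ N‖ * ‖ψ (m : ZMod r₂)‖
            ≤ 1 / ((r * k).totient : ℝ) * ((r * k).totient * k) * 1 := by
              refine mul_le_mul (mul_le_mul_of_nonneg_left (RM_Tk_le k hk χ ψ N) (by positivity))
                (ψ.norm_le_one _) (norm_nonneg _) (by positivity)
          _ = k := by field_simp
    _ = (∑ r₂ ∈ (r * k).divisors, (((prim r₂).card : ℕ) : ℝ)) * k := by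
        rw [Finset.sum_mul]
        refine Finset.sum_congr rfl fun r₂ _ => ?_
        rw [Finset.sum_const, nsmul_eq_mul]
    _ = (r * k).totient * k := by rw [RM_count (r * k) hD]

/-- One term of the model.

Proof. For `m` prime to `r k`: `conj χ(N - m) cR k (N - m)` depends on `m` modulo `r k` (`cR_congr`) and equals `(1 / φ(r k)) ∑_{ψ' mod r k} ψ'(m) ∑_b^* conj χ(N - b) cR k (N - b) conj ψ'(b)` (orthogonality). By `sum_chars` and `GdA_changeLevel` (for `m` and for `b`, both prime to `r k`) this is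
`(1 / φ(r k)) ∑_{r₂ ∣ r k} ∑_{ψ ∈ prim r₂} Tk k χ ψ N ψ(m)`. The `m` with `(m, r k) > 1` are estimated on both sides: there `Λ(m) ≠ 0` only for powers of the primes `p ∣ r k`, at most `log (2 N) / log 2` for each `p`, `Λ(m) ≤ log p`, `∑_{p ∣ r k} log p ≤ log (r k)`; and `|conj χ cR k| ≤ k`, `|(1 / φ(r k)) ∑_{ψ'} ...| ≤ φ(r k) k`. -/
theorem RM_term (r k N : ℕ) (hr : 1 ≤ r) (hk : Squarefree k) (hrk : k.Coprime r) (χ : DirichletCharacter ℂ r) (G : ℕ → ℂ) (G₀ : ℝ) (hG : ∀ m, ‖G m‖ ≤ G₀) (hrkN : r * k ≤ N) :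
    ‖∑ m ∈ Icc 1 N, (ArithmeticFunction.vonMangoldt m : ℂ) * ((starRingEnd ℂ) (χ ((N - m : ℕ) : ZMod r)) * (cR k ((N - m : ℕ) : ℤ) : ℂ)) * G m -
      ∑ r₂ ∈ (r * k).divisors, ∑ ψ ∈ prim r₂, (1 / ((r * k).totient : ℂ)) * Tk k χ ψ N *
        ∑ m ∈ Icc 1 N, (ArithmeticFunction.vonMangoldt m : ℂ) * ψ (m : ZMod r₂) * G m‖ ≤
      G₀ * (4 * (r * k) ^ 2 * (1 + Real.log N) ^ 2) := by
  classical
  have hk1 : 1 ≤ k := Nat.pos_of_ne_zero (fun h => by rw [h] at hk; exact not_squarefree_zero hk)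
  have hD : 1 ≤ r * k := Nat.mul_pos hr hk1
  have hG₀ : 0 ≤ G₀ := (norm_nonneg _).trans (hG 0)
  set S : ℕ → ℂ := fun m => ∑ r₂ ∈ (r * k).divisors, ∑ ψ ∈ prim r₂,
    (1 / ((r * k).totient : ℂ)) * Tk k χ ψ N * ψ (m : ZMod r₂) with hS
  have h1 : ∑ r₂ ∈ (r * k).divisors, ∑ ψ ∈ prim r₂, (1 / ((r * k).totient : ℂ)) * Tk k χ ψ N *
        ∑ m ∈ Icc 1 N, (ArithmeticFunction.vonMangoldt m : ℂ) * ψ (m : ZMod r₂) * G m =
      ∑ m ∈ Icc 1 N, (ArithmeticFunction.vonMangoldt m : ℂ) * S m * G m := by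
    have h2 : ∀ m ∈ Icc 1 N, (ArithmeticFunction.vonMangoldt m : ℂ) * S m * G m =
        ∑ r₂ ∈ (r * k).divisors, ∑ ψ ∈ prim r₂, (1 / ((r * k).totient : ℂ)) * Tk k χ ψ N *
          ((ArithmeticFunction.vonMangoldt m : ℂ) * ψ (m : ZMod r₂) * G m) := by
      intro m _
      rw [hS]
      beta_reduce
      rw [Finset.mul_sum, Finset.sum_mul]
      refine Finset.sum_congr rfl fun r₂ _ => ?_
      rw [Finset.mul_sum, Finset.sum_mul]
      refine Finset.sum_congr rfl fun ψ _ => ?_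
      ring
    rw [Finset.sum_congr rfl h2, Finset.sum_comm]
    refine Finset.sum_congr rfl fun r₂ _ => ?_
    rw [Finset.sum_comm]
    refine Finset.sum_congr rfl fun ψ _ => ?_
    rw [Finset.mul_sum]
  have h2 : ∀ m ∈ Icc 1 N, (starRingEnd ℂ) (χ ((N - m : ℕ) : ZMod r)) * (cR k ((N - m : ℕ) : ℤ) : ℂ) = RM_F k χ N m := by
    intro m hm
    have h3 : ((N - m : ℕ) : ℤ) = (N : ℤ) - m := by
      rw [Nat.cast_sub (mem_Icc.1 hm).2]
    unfold RM_F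
    rw [← h3]
    simp
  rw [h1, ← Finset.sum_sub_distrib]
  have h3 : ∑ m ∈ Icc 1 N, ((ArithmeticFunction.vonMangoldt m : ℂ) * ((starRingEnd ℂ) (χ ((N - m : ℕ) : ZMod r)) * (cR k ((N - m : ℕ) : ℤ) : ℂ)) * G m -
        (ArithmeticFunction.vonMangoldt m : ℂ) * S m * G m) =
      ∑ m ∈ (Icc 1 N).filter (fun m => ¬ m.Coprime (r * k)),
        (ArithmeticFunction.vonMangoldt m : ℂ) * (RM_F k χ N m - S m) * G m := by
    rw [Finset.sum_filter]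
    refine Finset.sum_congr rfl fun m hm => ?_
    rw [h2 m hm]
    split_ifs with h
    · have h4 : S m = RM_F k χ N m := RM_S k N hr hk χ m h
      rw [h4]
      ring
    · ring
  rw [h3]
  refine (norm_sum_le _ _).trans ?_
  have hφ1 : ((r * k).totient : ℝ) ≤ (r * k : ℕ) := by exact_mod_cast Nat.totient_le _
  have hkD : (k : ℝ) ≤ (r * k : ℕ) := by exact_mod_cast Nat.le_mul_of_pos_left k hr
  have hD1 : (1 : ℝ) ≤ (r * k : ℕ) := by exact_mod_cast hD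
  have h4 : ∀ m ∈ (Icc 1 N).filter (fun m => ¬ m.Coprime (r * k)),
      ‖(ArithmeticFunction.vonMangoldt m : ℂ) * (RM_F k χ N m - S m) * G m‖ ≤
        ArithmeticFunction.vonMangoldt m * (2 * ((r * k : ℕ) : ℝ) ^ 2 * G₀) := by
    intro m _
    have h5 : ‖RM_F k χ N m - S m‖ ≤ 2 * ((r * k : ℕ) : ℝ) ^ 2 := by
      refine (norm_sub_le _ _).trans ?_
      have h6 := RM_F_le k hk χ N m
      have h7 := RM_S_le k N hr hk χ m
      have h8 : ((r * k).totient : ℝ) * k ≤ ((r * k : ℕ) : ℝ) ^ 2 := by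
        rw [sq]
        exact mul_le_mul hφ1 hkD (by positivity) (by positivity)
      have h9 : (k : ℝ) ≤ ((r * k : ℕ) : ℝ) ^ 2 := by nlinarith
      have h10 : ‖S m‖ ≤ (r * k).totient * k := h7
      linarith
    rw [norm_mul, norm_mul, Complex.norm_real, Real.norm_eq_abs,
      abs_of_nonneg ArithmeticFunction.vonMangoldt_nonneg, mul_assoc]
    refine mul_le_mul_of_nonneg_left ?_ ArithmeticFunction.vonMangoldt_nonneg
    exact mul_le_mul h5 (hG m) (norm_nonneg _) (by positivity)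
  refine (Finset.sum_le_sum h4).trans ?_
  rw [← Finset.sum_mul]
  have h5 := RM_bad (r * k) N hD hrkN
  calc _ ≤ (2 * (1 + Real.log N) ^ 2) * (2 * ((r * k : ℕ) : ℝ) ^ 2 * G₀) :=
        mul_le_mul_of_nonneg_right h5 (by positivity)
    _ = G₀ * (4 * (r * k) ^ 2 * (1 + Real.log N) ^ 2) := by
        push_cast
        ring

theorem RM_wx_nn (δ X : ℝ) (hX : 0 ≤ X) {r : ℕ} (χ : DirichletCharacter ℂ r) : 0 ≤ wx δ X χ := by
  unfold wx
  have h1 : 0 ≤ dl χ := by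
    unfold dl
    split_ifs
    · exact zero_le_one
    · exact le_rfl
  have h2 : 0 ≤ ∑ ρ ∈ ZR (EF χ) δ X, (mz (EF χ) ρ : ℝ) * X ^ (-((1 - ρ.re) / 4)) :=
    Finset.sum_nonneg fun ρ _ => by positivity
  linarith

theorem RM_wx_le (ε δ X : ℝ) (hX : 1 ≤ X) (hε : 0 < ε) (h : Wr ε δ X ≤ 2) (r : ℕ) (hr : 1 ≤ r) (hr2 : (r : ℝ) ≤ X ^ ε)
    (χ : DirichletCharacter ℂ r) (hχ : χ ∈ prim r) : wx δ X χ ≤ 3 := by
  have h0 : 0 ≤ X := by linarith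
  have h1 := sum_wx ε δ X hX hε
  have h2 : wx δ X χ ≤ ∑ χ ∈ prim r, wx δ X χ :=
    Finset.single_le_sum (f := fun χ => wx δ X χ) (fun χ _ => RM_wx_nn δ X h0 χ) hχ
  have h3 : ∑ χ ∈ prim r, wx δ X χ ≤ ∑ r ∈ Icc 1 ⌊X ^ ε⌋₊, ∑ χ ∈ prim r, wx δ X χ :=
    Finset.single_le_sum (f := fun r => ∑ χ ∈ prim r, wx δ X χ)
      (fun r _ => Finset.sum_nonneg fun χ _ => RM_wx_nn δ X h0 χ) (mem_Icc.2 ⟨hr, Nat.le_floor hr2⟩)
  linarith

theorem RM_prim_card (r : ℕ) (hr : 1 ≤ r) : ((prim r).card : ℝ) ≤ r := by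
  have h1 := RM_count r hr
  have h2 : ((prim r).card : ℝ) ≤ ∑ r₂ ∈ r.divisors, (((prim r₂).card : ℕ) : ℝ) :=
    Finset.single_le_sum (f := fun r₂ => (((prim r₂).card : ℕ) : ℝ)) (fun _ _ => by positivity)
      (Nat.mem_divisors_self r (by omega))
  have h3 : (r.totient : ℝ) ≤ r := by exact_mod_cast Nat.totient_le r
  linarith

theorem RM_KK (Q r k : ℕ) (h : k ∈ KK Q r) : 1 ≤ k ∧ k ≤ Q ∧ Squarefree k ∧ k.Coprime r := by
  unfold KK at h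
  rw [mem_filter, mem_Icc] at h
  exact ⟨h.1.1, h.1.2, h.2.1, h.2.2⟩

theorem RM_cW (r k : ℕ) (hr : 1 ≤ r) (hk : 1 ≤ k) : |cW r k| ≤ r := by
  have h1 : (1 : ℝ) ≤ r.totient := by exact_mod_cast Nat.totient_pos.2 hr
  have h2 : (1 : ℝ) ≤ k.totient := by exact_mod_cast Nat.totient_pos.2 hk
  unfold cW
  rw [abs_mul, abs_div, abs_div, Nat.abs_cast, Nat.abs_cast, Nat.abs_cast]
  have h3 : |((ArithmeticFunction.moebius k : ℤ) : ℝ)| ≤ 1 := by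
    exact_mod_cast ArithmeticFunction.abs_moebius_le_one
  have h4 : (r : ℝ) / r.totient ≤ r := div_le_self (by positivity) h1
  have h5 : |((ArithmeticFunction.moebius k : ℤ) : ℝ)| / k.totient ≤ 1 := by
    rw [div_le_one (by linarith)]
    linarith
  calc _ ≤ (r : ℝ) * 1 := mul_le_mul h4 h5 (by positivity) (by positivity)
    _ = r := mul_one _

theorem RM_AC (Q r N : ℕ) (hr : r ∈ Icc 1 Q) (χ : DirichletCharacter ℂ r) (J : ∀ r₂ : ℕ, DirichletCharacter ℂ r₂ → ℂ) :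
    ∑ r₂ ∈ Icc 1 (Q ^ 2), ∑ ψ ∈ prim r₂, AC Q χ ψ N * J r₂ ψ =
      ∑ k ∈ KK Q r, (cW r k : ℂ) * ∑ r₂ ∈ (r * k).divisors, ∑ ψ ∈ prim r₂,
        (1 / ((r * k).totient : ℂ)) * Tk k χ ψ N * J r₂ ψ := by
  classical
  rw [mem_Icc] at hr
  have h1 : ∀ r₂ ∈ Icc 1 (Q ^ 2), ∑ ψ ∈ prim r₂, AC Q χ ψ N * J r₂ ψ =
      ∑ k ∈ KK Q r, if r₂ ∣ r * k then (cW r k : ℂ) * ∑ ψ ∈ prim r₂,
        (1 / ((r * k).totient : ℂ)) * Tk k χ ψ N * J r₂ ψ else 0 := by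
    intro r₂ _
    rw [← Finset.sum_filter]
    unfold AC
    simp only [Finset.sum_mul, Finset.mul_sum]
    rw [Finset.sum_comm]
    refine Finset.sum_congr rfl fun k _ => ?_
    refine Finset.sum_congr rfl fun ψ _ => ?_
    ring
  rw [Finset.sum_congr rfl h1, Finset.sum_comm]
  refine Finset.sum_congr rfl fun k hk => ?_
  obtain ⟨hk1, hk2, -, -⟩ := RM_KK Q r k hk
  rw [← Finset.sum_filter, Finset.mul_sum]
  refine Finset.sum_congr ?_ fun _ _ => rfl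
  ext r₂
  rw [mem_filter, mem_Icc, Nat.mem_divisors]
  constructor
  · rintro ⟨_, h⟩
    have h0 := Nat.mul_pos hr.1 hk1
    exact ⟨h, by omega⟩
  · rintro ⟨h, h0⟩
    have h2 : r * k ≤ Q ^ 2 := by
      rw [sq]
      exact Nat.mul_le_mul hr.2 hk2
    exact ⟨⟨Nat.pos_of_dvd_of_pos h (Nat.pos_of_ne_zero h0), (Nat.le_of_dvd (Nat.pos_of_ne_zero h0) h).trans h2⟩, h⟩

theorem RM_fM (δ T X : ℝ) (Q N : ℕ) :
    ∑ m ∈ Icc 1 N, (ArithmeticFunction.vonMangoldt m : ℂ) * fM δ T X Q (N - m) =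
      ∑ r ∈ Icc 1 Q, ∑ χ ∈ prim r, ∑ k ∈ KK Q r, (cW r k : ℂ) *
        ∑ m ∈ Icc 1 N, (ArithmeticFunction.vonMangoldt m : ℂ) *
          ((starRingEnd ℂ) (χ ((N - m : ℕ) : ZMod r)) * (cR k ((N - m : ℕ) : ℤ) : ℂ)) *
          gx δ T X χ (((N - m : ℕ) : ℝ) / Real.sqrt X) := by
  unfold fM
  simp only [Finset.mul_sum]
  rw [Finset.sum_comm]
  refine Finset.sum_congr rfl fun r _ => ?_
  rw [Finset.sum_comm]
  refine Finset.sum_congr rfl fun χ _ => ?_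
  rw [Finset.sum_comm]
  refine Finset.sum_congr rfl fun k _ => ?_
  refine Finset.sum_congr rfl fun m _ => ?_
  ring

theorem RM_err (δ T X : ℝ) (Q N : ℕ) (hX : 1 ≤ X) (hT : T ≤ X) (hQ : Q ^ 2 ≤ N)
    (hw : ∀ r ∈ Icc 1 Q, ∀ χ ∈ prim r, wx δ X χ ≤ 3) :
    ‖∑ m ∈ Icc 1 N, (ArithmeticFunction.vonMangoldt m : ℂ) * fM δ T X Q (N - m) -
      ∑ r ∈ Icc 1 Q, ∑ χ ∈ prim r, ∑ r₂ ∈ Icc 1 (Q ^ 2), ∑ ψ ∈ prim r₂,
        AC Q χ ψ N * JJ δ T X χ ψ N‖ ≤ 12 * (Q : ℝ) ^ 8 * (1 + Real.log N) ^ 2 := by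
  have h1 : ∑ r ∈ Icc 1 Q, ∑ χ ∈ prim r, ∑ r₂ ∈ Icc 1 (Q ^ 2), ∑ ψ ∈ prim r₂,
        AC Q χ ψ N * JJ δ T X χ ψ N =
      ∑ r ∈ Icc 1 Q, ∑ χ ∈ prim r, ∑ k ∈ KK Q r, (cW r k : ℂ) * ∑ r₂ ∈ (r * k).divisors, ∑ ψ ∈ prim r₂,
        (1 / ((r * k).totient : ℂ)) * Tk k χ ψ N * JJ δ T X χ ψ N := by
    refine Finset.sum_congr rfl fun r hr => ?_
    refine Finset.sum_congr rfl fun χ _ => ?_
    exact RM_AC Q r N hr χ (fun r₂ ψ => JJ δ T X χ ψ N)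
  rw [RM_fM, h1, ← Finset.sum_sub_distrib]
  have hlN : 0 ≤ Real.log N := Real.log_natCast_nonneg N
  have h2 : ∀ r ∈ Icc 1 Q, ∀ χ ∈ prim r, ∀ k ∈ KK Q r,
      ‖(cW r k : ℂ) * ∑ m ∈ Icc 1 N, (ArithmeticFunction.vonMangoldt m : ℂ) *
          ((starRingEnd ℂ) (χ ((N - m : ℕ) : ZMod r)) * (cR k ((N - m : ℕ) : ℤ) : ℂ)) *
          gx δ T X χ (((N - m : ℕ) : ℝ) / Real.sqrt X) -
        (cW r k : ℂ) * ∑ r₂ ∈ (r * k).divisors, ∑ ψ ∈ prim r₂,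
          (1 / ((r * k).totient : ℂ)) * Tk k χ ψ N * JJ δ T X χ ψ N‖ ≤
        12 * (Q : ℝ) ^ 5 * (1 + Real.log N) ^ 2 := by
    intro r hr χ hχ k hk
    have hr' := mem_Icc.1 hr
    obtain ⟨hk1, hk2, hk3, hk4⟩ := RM_KK Q r k hk
    have hrkQ : r * k ≤ Q ^ 2 := by
      rw [sq]
      exact Nat.mul_le_mul hr'.2 hk2
    have h3 := RM_term r k N hr'.1 hk3 hk4 χ (fun m => gx δ T X χ (((N - m : ℕ) : ℝ) / Real.sqrt X)) 3
      (fun m => by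
        refine (gx_le δ T X hX hT hr'.1 χ _).trans ?_
        have h4 := (g0_facts.1 (((N - m : ℕ) : ℝ) / Real.sqrt X))
        have h5 := hw r hr χ hχ
        calc _ ≤ (1 : ℝ) * 3 := mul_le_mul h4.2 h5 (RM_wx_nn δ X (by linarith) χ) zero_le_one
          _ = 3 := by norm_num) (hrkQ.trans hQ)
    have h4 : ∀ r₂ ∈ (r * k).divisors, ∀ ψ ∈ prim r₂, (1 / ((r * k).totient : ℂ)) * Tk k χ ψ N *
        ∑ m ∈ Icc 1 N, (ArithmeticFunction.vonMangoldt m : ℂ) * ψ (m : ZMod r₂) *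
          gx δ T X χ (((N - m : ℕ) : ℝ) / Real.sqrt X) =
        (1 / ((r * k).totient : ℂ)) * Tk k χ ψ N * JJ δ T X χ ψ N := by
      intro r₂ _ ψ _
      unfold JJ
      congr 1
      refine Finset.sum_congr rfl fun m hm => ?_
      rw [Nat.cast_sub (mem_Icc.1 hm).2]
    rw [Finset.sum_congr rfl fun r₂ h => Finset.sum_congr rfl fun ψ h' => h4 r₂ h ψ h'] at h3
    rw [← mul_sub, norm_mul, Complex.norm_real, Real.norm_eq_abs]
    have h5 := RM_cW r k hr'.1 hk1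
    have h6 : |cW r k| ≤ (Q : ℝ) := h5.trans (by exact_mod_cast hr'.2)
    have h7 : ((r : ℝ) * k) ^ 2 ≤ (Q : ℝ) ^ 4 := by
      have h8 : (r : ℝ) * k ≤ (Q : ℝ) ^ 2 := by exact_mod_cast hrkQ
      calc ((r : ℝ) * k) ^ 2 ≤ ((Q : ℝ) ^ 2) ^ 2 := by gcongr
        _ = (Q : ℝ) ^ 4 := by ring
    calc _ ≤ (Q : ℝ) * (3 * (4 * ((r : ℝ) * k) ^ 2 * (1 + Real.log N) ^ 2)) :=
          mul_le_mul h6 h3 (norm_nonneg _) (by positivity)
      _ ≤ (Q : ℝ) * (3 * (4 * (Q : ℝ) ^ 4 * (1 + Real.log N) ^ 2)) := by gcongr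
      _ = 12 * (Q : ℝ) ^ 5 * (1 + Real.log N) ^ 2 := by ring
  have h3 : ∀ r ∈ Icc 1 Q, ‖(∑ χ ∈ prim r, ∑ k ∈ KK Q r, (cW r k : ℂ) *
        ∑ m ∈ Icc 1 N, (ArithmeticFunction.vonMangoldt m : ℂ) *
          ((starRingEnd ℂ) (χ ((N - m : ℕ) : ZMod r)) * (cR k ((N - m : ℕ) : ℤ) : ℂ)) *
          gx δ T X χ (((N - m : ℕ) : ℝ) / Real.sqrt X)) -
      ∑ χ ∈ prim r, ∑ k ∈ KK Q r, (cW r k : ℂ) * ∑ r₂ ∈ (r * k).divisors, ∑ ψ ∈ prim r₂,
        (1 / ((r * k).totient : ℂ)) * Tk k χ ψ N * JJ δ T X χ ψ N‖ ≤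
      (Q : ℝ) * ((Q : ℝ) * (12 * (Q : ℝ) ^ 5 * (1 + Real.log N) ^ 2)) := by
    intro r hr
    have hr' := mem_Icc.1 hr
    rw [← Finset.sum_sub_distrib]
    refine (norm_sum_le _ _).trans ?_
    have h4 : ∀ χ ∈ prim r, ‖(∑ k ∈ KK Q r, (cW r k : ℂ) *
        ∑ m ∈ Icc 1 N, (ArithmeticFunction.vonMangoldt m : ℂ) *
          ((starRingEnd ℂ) (χ ((N - m : ℕ) : ZMod r)) * (cR k ((N - m : ℕ) : ℤ) : ℂ)) *
          gx δ T X χ (((N - m : ℕ) : ℝ) / Real.sqrt X)) -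
      ∑ k ∈ KK Q r, (cW r k : ℂ) * ∑ r₂ ∈ (r * k).divisors, ∑ ψ ∈ prim r₂,
        (1 / ((r * k).totient : ℂ)) * Tk k χ ψ N * JJ δ T X χ ψ N‖ ≤
        (Q : ℝ) * (12 * (Q : ℝ) ^ 5 * (1 + Real.log N) ^ 2) := by
      intro χ hχ
      rw [← Finset.sum_sub_distrib]
      refine (norm_sum_le _ _).trans ((Finset.sum_le_sum (h2 r hr χ hχ)).trans ?_)
      rw [Finset.sum_const, nsmul_eq_mul]
      refine mul_le_mul_of_nonneg_right ?_ (by positivity)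
      have h5 : (KK Q r).card ≤ Q := by
        calc _ ≤ (Icc 1 Q).card := card_le_card (filter_subset _ _)
          _ = Q := by simp
      exact_mod_cast h5
    refine (Finset.sum_le_sum h4).trans ?_
    rw [Finset.sum_const, nsmul_eq_mul]
    refine mul_le_mul_of_nonneg_right ?_ (by positivity)
    exact (RM_prim_card r hr'.1).trans (by exact_mod_cast hr'.2)
  refine (norm_sum_le _ _).trans ((Finset.sum_le_sum h3).trans ?_)
  rw [Finset.sum_const, nsmul_eq_mul, Nat.card_Icc, Nat.add_sub_cancel]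
  exact le_of_eq (by ring)

/-- **The expansion.**

Proof. `Q = ⌊X ^ ε₁⌋₊`, `T = X ^ (2 ε₁)`. Insert the definition of `fM`; `gx δ T X χ ((N - m : ℕ) / √X) = gx δ T X χ ((N - m : ℝ) / √X)` for `m ≤ N`. Apply `RM_term` for each `(r, χ, k)` with `G m = gx δ T X χ ((N - m) / √X)`, `‖G‖ ≤ wx δ X χ ≤ 1 + Wr (2 ε₁) δ X ≤ 3` (`gx_le`, `sum_wx`), and exchange the sums over `k` and `r₂`: the divisors `r₂` of `r k` are in `[1, Q ^ 2]`, which gives `AC`.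
The errors: at most `Q ^ 3` triples, `|cW| ≤ Q`, so `C Q ^ 8 (1 + log X) ^ 2 ≤ X ^ (1/4)` as `8 ε₁ ≤ 8/100`. -/
theorem RM_expand (ε₁ δ : ℝ) (hε : 0 < ε₁) (hε1 : ε₁ ≤ 1 / 100) (hδ : 0 < δ) (hδ1 : δ ≤ 1 / 16) : ∃ X₀ : ℝ, 3 ≤ X₀ ∧ ∀ X : ℝ, X₀ ≤ X → Wr (2 * ε₁) δ X ≤ 2 →
    ∀ N ∈ Ioc ⌊X⌋₊ ⌊2 * X⌋₊,
    ‖∑ m ∈ Icc 1 N, (ArithmeticFunction.vonMangoldt m : ℂ) * fM δ (X ^ (2 * ε₁)) X ⌊X ^ ε₁⌋₊ (N - m) -
      ∑ r ∈ Icc 1 ⌊X ^ ε₁⌋₊, ∑ χ ∈ prim r, ∑ r₂ ∈ Icc 1 (⌊X ^ ε₁⌋₊ ^ 2), ∑ ψ ∈ prim r₂,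
        AC ⌊X ^ ε₁⌋₊ χ ψ N * JJ δ (X ^ (2 * ε₁)) X χ ψ N‖ ≤ X ^ (1 / 4 : ℝ) := by
  obtain ⟨X₁, hX₁⟩ := MS_log (1 / 100) (by norm_num)
  obtain ⟨X₂, hX₂⟩ := MS_big (3 / 20) 108 (by norm_num)
  refine ⟨max 3 (max X₁ X₂), le_max_left _ _, ?_⟩
  intro X hX hW N hN
  have hX3 : 3 ≤ X := (le_max_left _ _).trans hX
  have hXa := hX₁ X ((le_max_left _ _).trans ((le_max_right _ _).trans hX))
  have hXb := hX₂ X ((le_max_right _ _).trans ((le_max_right _ _).trans hX))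
  have hX1 : 1 ≤ X := by linarith
  have hX0 : 0 < X := by linarith
  set Q := ⌊X ^ ε₁⌋₊ with hQ
  have hQX : (Q : ℝ) ≤ X ^ ε₁ := Nat.floor_le (by positivity)
  have hQ2X : (Q : ℝ) ^ 2 ≤ X ^ (2 * ε₁) := by
    calc (Q : ℝ) ^ 2 ≤ (X ^ ε₁) ^ 2 := by gcongr
      _ = X ^ (2 * ε₁) := by
        rw [← Real.rpow_natCast, ← Real.rpow_mul hX0.le]
        congr 1
        push_cast
        ring
  have hTX : X ^ (2 * ε₁) ≤ X := by
    calc X ^ (2 * ε₁) ≤ X ^ (1 : ℝ) := Real.rpow_le_rpow_of_exponent_le hX1 (by linarith)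
      _ = X := Real.rpow_one X
  obtain ⟨hN1, hN2⟩ := mem_Ioc.1 hN
  have hNX : X < N := (Nat.floor_lt hX0.le).1 hN1
  have hN2X : (N : ℝ) ≤ 2 * X := (Nat.le_floor_iff (by linarith)).1 hN2
  have hQN : Q ^ 2 ≤ N := by
    have : (Q : ℝ) ^ 2 ≤ N := by linarith
    exact_mod_cast this
  refine (RM_err δ (X ^ (2 * ε₁)) X Q N hX1 hTX hQN ?_).trans ?_
  · intro r hr χ hχ
    have hr' := mem_Icc.1 hr
    refine RM_wx_le (2 * ε₁) δ X hX1 (by linarith) hW r hr'.1 ?_ χ hχ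
    have h1 : (r : ℝ) ≤ Q := by exact_mod_cast hr'.2
    have h2 : (1 : ℝ) ≤ Q := le_trans (by exact_mod_cast hr'.1) h1
    nlinarith
  · have h1 : Real.log N ≤ 1 + Real.log X := by
      calc Real.log N ≤ Real.log (2 * X) := Real.log_le_log (by linarith) hN2X
        _ = Real.log 2 + Real.log X := Real.log_mul (by norm_num) hX0.ne'
        _ ≤ 1 + Real.log X := by
          have := Real.log_two_lt_d9
          linarith
    have h2 : 1 ≤ X ^ (1 / 100 : ℝ) := Real.one_le_rpow hX1 (by norm_num)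
    have h3 : 1 + Real.log N ≤ 3 * X ^ (1 / 100 : ℝ) := by linarith
    have h4 : 0 ≤ Real.log N := Real.log_natCast_nonneg N
    have h5 : (Q : ℝ) ^ 8 ≤ X ^ (8 / 100 : ℝ) := by
      calc (Q : ℝ) ^ 8 ≤ (X ^ ε₁) ^ 8 := by gcongr
        _ = X ^ (8 * ε₁) := by
          rw [← Real.rpow_natCast, ← Real.rpow_mul hX0.le]
          congr 1
          push_cast
          ring
        _ ≤ X ^ (8 / 100 : ℝ) := Real.rpow_le_rpow_of_exponent_le hX1 (by linarith)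
    calc 12 * (Q : ℝ) ^ 8 * (1 + Real.log N) ^ 2
        ≤ 12 * X ^ (8 / 100 : ℝ) * (3 * X ^ (1 / 100 : ℝ)) ^ 2 := by gcongr
      _ = 108 * (X ^ (8 / 100 : ℝ) * X ^ (2 / 100 : ℝ)) := by
        have h6 : (X ^ (1 / 100 : ℝ)) ^ 2 = X ^ (2 / 100 : ℝ) := by
          rw [← Real.rpow_natCast, ← Real.rpow_mul hX0.le]
          norm_num
        rw [mul_pow, h6]
        ring
      _ ≤ X ^ (3 / 20 : ℝ) * (X ^ (8 / 100 : ℝ) * X ^ (2 / 100 : ℝ)) := by gcongr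
      _ = X ^ (1 / 4 : ℝ) := by
        rw [← Real.rpow_add hX0, ← Real.rpow_add hX0]
        norm_num

/-- The pairs of characters. -/
def RM_I (Q : ℕ) : Finset (Σ r : ℕ, DirichletCharacter ℂ r) := (Icc 1 Q).sigma (fun r => prim r)

theorem RM_I_card (Q : ℕ) : ((RM_I Q).card : ℝ) ≤ (Q : ℝ) ^ 2 := by
  unfold RM_I
  rw [Finset.card_sigma]
  push_cast
  calc ∑ r ∈ Icc 1 Q, ((prim r).card : ℝ) ≤ ∑ r ∈ Icc 1 Q, (Q : ℝ) := by
        refine Finset.sum_le_sum fun r hr => ?_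
        have hr' := mem_Icc.1 hr
        exact (RM_prim_card r hr'.1).trans (by exact_mod_cast hr'.2)
    _ = (Q : ℝ) ^ 2 := by
        rw [Finset.sum_const, nsmul_eq_mul, Nat.card_Icc, Nat.add_sub_cancel]
        ring

theorem RM_mem (Q : ℕ) (x : Σ r : ℕ, DirichletCharacter ℂ r) (hx : x ∈ RM_I Q) :
    1 ≤ x.1 ∧ x.1 ≤ Q ∧ x.2.IsPrimitive ∧ x.2 ∈ prim x.1 := by
  unfold RM_I at hx
  rw [Finset.mem_sigma, mem_Icc] at hx
  exact ⟨hx.1.1, hx.1.2, (AR_mem_prim x.2).1 hx.2, hx.2⟩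

theorem RM_sum4 (Q R : ℕ) (f : ∀ r : ℕ, DirichletCharacter ℂ r → ∀ r₂ : ℕ, DirichletCharacter ℂ r₂ → ℂ) :
    ∑ r ∈ Icc 1 Q, ∑ χ ∈ prim r, ∑ r₂ ∈ Icc 1 R, ∑ ψ ∈ prim r₂, f r χ r₂ ψ =
      ∑ z ∈ RM_I Q ×ˢ RM_I R, f z.1.1 z.1.2 z.2.1 z.2.2 := by
  rw [Finset.sum_product]
  unfold RM_I
  rw [Finset.sum_sigma]
  refine Finset.sum_congr rfl fun r _ => ?_
  refine Finset.sum_congr rfl fun χ _ => ?_
  rw [Finset.sum_sigma]

theorem RM_cs {ι : Type*} (s : Finset ι) (t : Finset ℕ) (f : ι → ℕ → ℂ) (M : ℝ) (K : ℝ) (hK : (s.card : ℝ) ≤ K) (hM : 0 ≤ M)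
    (h : ∀ z ∈ s, ∑ N ∈ t, ‖f z N‖ ^ 2 ≤ M) :
    ∑ N ∈ t, ‖∑ z ∈ s, f z N‖ ^ 2 ≤ K ^ 2 * M := by
  have hK0 : 0 ≤ K := le_trans (by positivity) hK
  calc ∑ N ∈ t, ‖∑ z ∈ s, f z N‖ ^ 2 ≤ ∑ N ∈ t, (s.card : ℝ) * ∑ z ∈ s, ‖f z N‖ ^ 2 := by
        refine Finset.sum_le_sum fun N _ => ?_
        calc ‖∑ z ∈ s, f z N‖ ^ 2 ≤ (∑ z ∈ s, ‖f z N‖) ^ 2 := by
              gcongr
              exact norm_sum_le _ _
          _ ≤ (s.card : ℝ) * ∑ z ∈ s, ‖f z N‖ ^ 2 := sq_sum_le_card_mul_sum_sq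
    _ = (s.card : ℝ) * ∑ z ∈ s, ∑ N ∈ t, ‖f z N‖ ^ 2 := by
        rw [← Finset.mul_sum, Finset.sum_comm]
    _ ≤ (s.card : ℝ) * (s.card * M) := by
        refine mul_le_mul_of_nonneg_left ?_ (by positivity)
        refine (Finset.sum_le_sum h).trans ?_
        rw [Finset.sum_const, nsmul_eq_mul]
    _ ≤ K * (K * M) := by gcongr
    _ = K ^ 2 * M := by ring

theorem RM_fin (c X K CW : ℝ) (hX1 : 1 ≤ X) (hXb : 4 * (9 * K ^ 2 * (9 * CW ^ 2)) ≤ X ^ (28 * c / 100))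
    (hXc : 8 ≤ X ^ (1 / 4 : ℝ)) :
    (2 * X) * (2 * X ^ (1 / 2 : ℝ)) +
      2 * ((X ^ (c / 10)) ^ 2 * ((3 * K * X ^ (c / 100)) ^ 2 * ((3 * CW) ^ 2 * X ^ (2 - c)))) ≤
      X ^ (2 - min (c / 2) (1 / 4)) := by
  have hX0 : 0 < X := by linarith
  have hlo : ∀ y : ℝ, y ≤ 2 - min (c / 2) (1 / 4) → X ^ y ≤ X ^ (2 - min (c / 2) (1 / 4)) :=
    fun y hy => Real.rpow_le_rpow_of_exponent_le hX1 hy
  have hm1 : min (c / 2) (1 / 4) ≤ c / 2 := min_le_left _ _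
  have hm2 : min (c / 2) (1 / 4) ≤ 1 / 4 := min_le_right _ _
  have h1 : (2 * X) * (2 * X ^ (1 / 2 : ℝ)) ≤ 1 / 2 * X ^ (2 - min (c / 2) (1 / 4)) := by
    have h2 : X * X ^ (1 / 2 : ℝ) = X ^ (3 / 2 : ℝ) := by
      nth_rewrite 1 [← Real.rpow_one X]
      rw [← Real.rpow_add hX0]
      norm_num
    have h3 : X ^ (1 / 4 : ℝ) * X ^ (3 / 2 : ℝ) = X ^ (7 / 4 : ℝ) := by
      rw [← Real.rpow_add hX0]
      norm_num
    have h4 := hlo (7 / 4) (by linarith)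
    have h5 : 0 ≤ X ^ (3 / 2 : ℝ) := by positivity
    nlinarith
  have h6 : 2 * ((X ^ (c / 10)) ^ 2 * ((3 * K * X ^ (c / 100)) ^ 2 * ((3 * CW) ^ 2 * X ^ (2 - c)))) ≤
      1 / 2 * X ^ (2 - min (c / 2) (1 / 4)) := by
    have h7 : (X ^ (c / 10)) ^ 2 = X ^ (c / 5) := by
      rw [← Real.rpow_natCast, ← Real.rpow_mul hX0.le]
      congr 1
      push_cast
      ring
    have h8 : (X ^ (c / 100)) ^ 2 = X ^ (c / 50) := by
      rw [← Real.rpow_natCast, ← Real.rpow_mul hX0.le]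
      congr 1
      push_cast
      ring
    calc 2 * ((X ^ (c / 10)) ^ 2 * ((3 * K * X ^ (c / 100)) ^ 2 * ((3 * CW) ^ 2 * X ^ (2 - c))))
        = 1 / 2 * (4 * (9 * K ^ 2 * (9 * CW ^ 2)) * (X ^ (c / 5) * (X ^ (c / 50) * X ^ (2 - c)))) := by
          rw [mul_pow (3 * K), h7, h8]
          ring
      _ ≤ 1 / 2 * (X ^ (28 * c / 100) * (X ^ (c / 5) * (X ^ (c / 50) * X ^ (2 - c)))) := by gcongr
      _ = 1 / 2 * X ^ (2 - c / 2) := by
          rw [← Real.rpow_add hX0, ← Real.rpow_add hX0, ← Real.rpow_add hX0]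
          congr 2
          ring
      _ ≤ 1 / 2 * X ^ (2 - min (c / 2) (1 / 4)) := by
          have := hlo (2 - c / 2) (by linarith)
          gcongr
  linarith

/-- **The model and the main term, on average.**

Proof. `κ₁` from `transfer`; for `δ ≤ κ₁` let `J, ε, c` be from `transfer` and `ε₂ = min (1/100) (min (δ / 200) (min (ε / 2) (c / 60)))`. By `RM_expand` the difference is `∑ AC (JJ - JM) + O(X ^ (1/4))`. For each pair `(χ, ψ)` apply `transfer` to `ψ` (`r₂ ≤ X ^ (2 ε₁) ≤ X ^ ε`; `count_of_Wr`) and `w = gx δ T X χ`, which is supported in `[3/2, 39/10]` and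
satisfies `IsW J (3 C) (C (1 + X ^ (2 ε₁)))` (`isW_gx`), `C (1 + X ^ (2 ε₁)) ≤ X ^ (δ / 64)`: `∑_N ‖JJ - JM‖ ^ 2 ≤ 9 C ^ 2 X ^ (2 - c)`. `|AC| ≤ C (N / φ(N)) ≤ C log X` (`AC_le`, `ratio_le`). There are at most `Q ^ 2 Q ^ 4` pairs; Cauchy-Schwarz: the sum of the squares is at most `Q ^ 12 C log X ^ 2 X ^ (2 - c) + 2 X ^ (3/2)`. New `c := min (c/2) (1/4)`. -/
theorem RM_l2 [MDI] : ∃ κ₁ : ℝ, 0 < κ₁ ∧ κ₁ ≤ 1 / 16 ∧ ∀ δ : ℝ, 0 < δ → δ ≤ κ₁ → ∃ ε₂ c : ℝ, 0 < ε₂ ∧ ε₂ ≤ 1 / 100 ∧ 0 < c ∧ ∀ ε₁ : ℝ, 0 < ε₁ → ε₁ ≤ ε₂ → ∃ X₀ : ℝ, 3 ≤ X₀ ∧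
    ∀ X : ℝ, X₀ ≤ X → Wr (2 * ε₁) δ X ≤ 2 →
    ∑ N ∈ Ioc ⌊X⌋₊ ⌊2 * X⌋₊, ‖∑ m ∈ Icc 1 N, (ArithmeticFunction.vonMangoldt m : ℂ) * fM δ (X ^ (2 * ε₁)) X ⌊X ^ ε₁⌋₊ (N - m) - MT δ ε₁ X N‖ ^ 2 ≤
      X ^ (2 - c) := by
  obtain ⟨κ₁, hκ, hκ16, htr⟩ := transfer
  obtain ⟨CA, hCA, hAC⟩ := AC_le
  obtain ⟨CR, hCR, hR⟩ := ratio_le
  refine ⟨κ₁, hκ, hκ16, ?_⟩
  intro δ hδ hδκ
  obtain ⟨J, ε, c, Xt, hε, hc, hXt, ht⟩ := htr δ hδ hδκ
  obtain ⟨CW, hCW, hIW⟩ := isW_gx J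
  have hδ16 : δ ≤ 1 / 16 := hδκ.trans hκ16
  refine ⟨min (1 / 100) (min (δ / 200) (min (ε / 2) (c / 60))), min (c / 2) (1 / 4), ?_, min_le_left _ _, ?_, ?_⟩
  · refine lt_min (by norm_num) (lt_min (by positivity) (lt_min (by positivity) (by positivity)))
  · exact lt_min (by positivity) (by norm_num)
  intro ε₁ hε₁ hε₁2
  have he1 : ε₁ ≤ 1 / 100 := hε₁2.trans (min_le_left _ _)
  have he2 : ε₁ ≤ δ / 200 := hε₁2.trans ((min_le_right _ _).trans (min_le_left _ _))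
  have he3 : ε₁ ≤ ε / 2 := hε₁2.trans ((min_le_right _ _).trans ((min_le_right _ _).trans (min_le_left _ _)))
  have he4 : ε₁ ≤ c / 60 := hε₁2.trans ((min_le_right _ _).trans ((min_le_right _ _).trans (min_le_right _ _)))
  obtain ⟨Xe, hXe, hexp⟩ := RM_expand ε₁ δ hε₁ he1 hδ hδ16
  obtain ⟨X₁, hX₁⟩ := MS_log (c / 100) (by positivity)
  obtain ⟨X₂, hX₂⟩ := MS_big (28 * c / 100) (4 * (9 * (CA * CR) ^ 2 * (9 * CW ^ 2))) (by positivity)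
  obtain ⟨X₃, hX₃⟩ := MS_big (1 / 4) 8 (by norm_num)
  obtain ⟨X₄, hX₄⟩ := MS_big (δ / 64 - δ / 100) (2 * CW) (by linarith)
  refine ⟨max Xe (max Xt (max X₁ (max X₂ (max X₃ X₄)))), hXe.trans (le_max_left _ _), ?_⟩
  intro X hX hW
  have hXXe : Xe ≤ X := (le_max_left _ _).trans hX
  have hr1 := (le_max_right _ _).trans hX
  have hXXt : Xt ≤ X := (le_max_left _ _).trans hr1
  have hr2 := (le_max_right _ _).trans hr1
  have hXa := hX₁ X ((le_max_left _ _).trans hr2)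
  have hr3 := (le_max_right _ _).trans hr2
  have hXb := hX₂ X ((le_max_left _ _).trans hr3)
  have hr4 := (le_max_right _ _).trans hr3
  have hXc := hX₃ X ((le_max_left _ _).trans hr4)
  have hXd := hX₄ X ((le_max_right _ _).trans hr4)
  have hX3 : 3 ≤ X := hXt.trans hXXt
  have hX1 : 1 ≤ X := by linarith
  have hX0 : 0 < X := by linarith
  have hexpX := hexp X hXXe hW
  set Q := ⌊X ^ ε₁⌋₊ with hQ
  set T := X ^ (2 * ε₁) with hT
  have hT0 : 0 < T := by positivity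
  have hT1 : 1 ≤ T := Real.one_le_rpow hX1 (by linarith)
  have hTX : T ≤ X := by
    calc X ^ (2 * ε₁) ≤ X ^ (1 : ℝ) := Real.rpow_le_rpow_of_exponent_le hX1 (by linarith)
      _ = X := Real.rpow_one X
  have hQX : (Q : ℝ) ≤ X ^ ε₁ := Nat.floor_le (by positivity)
  have hpw : ∀ n : ℕ, (Q : ℝ) ^ n ≤ X ^ (n * ε₁) := by
    intro n
    calc (Q : ℝ) ^ n ≤ (X ^ ε₁) ^ n := by gcongr
      _ = X ^ (n * ε₁) := by
        rw [← Real.rpow_natCast, ← Real.rpow_mul hX0.le]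
        congr 1
        ring
  have hQ2X : ((Q ^ 2 : ℕ) : ℝ) ≤ T := by
    have := hpw 2
    push_cast
    simpa using this
  -- the pairs
  set D : ((Σ r : ℕ, DirichletCharacter ℂ r) × (Σ r : ℕ, DirichletCharacter ℂ r)) → ℕ → ℂ := fun z N =>
    AC Q z.1.2 z.2.2 N * (JJ δ T X z.1.2 z.2.2 N - JM δ X z.2.2 (gx δ T X z.1.2) N) with hD
  have hA0 : ∀ N ∈ Ioc ⌊X⌋₊ ⌊2 * X⌋₊, ∀ z ∈ RM_I Q ×ˢ RM_I (Q ^ 2), ‖AC Q z.1.2 z.2.2 N‖ ≤ 3 * (CA * CR) * X ^ (c / 100) := by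
    intro N hN z hz
    obtain ⟨hz1, hz2⟩ := mem_product.1 hz
    obtain ⟨h1, h2, h3, h4⟩ := RM_mem Q z.1 hz1
    obtain ⟨h5, h6, h7, h8⟩ := RM_mem (Q ^ 2) z.2 hz2
    obtain ⟨hN1, hN2⟩ := mem_Ioc.1 hN
    have hNX : X < N := (Nat.floor_lt hX0.le).1 hN1
    have hN2X : (N : ℝ) ≤ 2 * X := (Nat.le_floor_iff (by linarith)).1 hN2
    have hN0 : 1 ≤ N := by
      have : (0 : ℝ) < N := by linarith
      exact_mod_cast this
    have h9 := hAC Q z.1.1 z.2.1 N h1 h5 hN0 z.1.2 z.2.2 h7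
    have h10 := hR N hN0
    have h11 : Real.log N ≤ 1 + Real.log X := by
      calc Real.log N ≤ Real.log (2 * X) := Real.log_le_log (by linarith) hN2X
        _ = Real.log 2 + Real.log X := Real.log_mul (by norm_num) hX0.ne'
        _ ≤ 1 + Real.log X := by
          have := Real.log_two_lt_d9
          linarith
    have h12 : 1 ≤ X ^ (c / 100) := Real.one_le_rpow hX1 (by positivity)
    have h13 : 1 + Real.log N ≤ 3 * X ^ (c / 100) := by linarith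
    calc ‖AC Q z.1.2 z.2.2 N‖ ≤ CA * ((N : ℝ) / N.totient) := h9
      _ ≤ CA * (CR * (1 + Real.log N)) := by gcongr
      _ ≤ CA * (CR * (3 * X ^ (c / 100))) := by gcongr
      _ = 3 * (CA * CR) * X ^ (c / 100) := by ring
  have hpair : ∀ z ∈ RM_I Q ×ˢ RM_I (Q ^ 2), ∑ N ∈ Ioc ⌊X⌋₊ ⌊2 * X⌋₊, ‖D z N‖ ^ 2 ≤
      (3 * (CA * CR) * X ^ (c / 100)) ^ 2 * ((3 * CW) ^ 2 * X ^ (2 - c)) := by
    intro z hz
    obtain ⟨hz1, hz2⟩ := mem_product.1 hz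
    obtain ⟨h1, h2, h3, h4⟩ := RM_mem Q z.1 hz1
    obtain ⟨h5, h6, h7, h8⟩ := RM_mem (Q ^ 2) z.2 hz2
    have hne : NeZero z.2.1 := ⟨by omega⟩
    have h9 : (z.2.1 : ℝ) ≤ T := le_trans (by exact_mod_cast h6) hQ2X
    have h9' : (z.2.1 : ℝ) ≤ X ^ ε := h9.trans (Real.rpow_le_rpow_of_exponent_le hX1 (by linarith))
    have h10 : (z.1.1 : ℝ) ≤ T := by
      refine le_trans ?_ hQ2X
      have h11 : z.1.1 ≤ Q ^ 2 := h2.trans (Nat.le_self_pow (by norm_num) Q)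
      exact_mod_cast h11
    have h12 := (hIW δ T X hδ hδ16 hX1 hT0.le hTX h1 z.1.2).1
    have h13 : wx δ X z.1.2 ≤ 3 := RM_wx_le (2 * ε₁) δ X hX1 (by linarith) hW z.1.1 h1 h10 z.1.2 h4
    have h14 : 1 ≤ CW * (1 + T) := by nlinarith
    have h15 : CW * (1 + T) ≤ X ^ (δ / 64) := by
      calc CW * (1 + T) ≤ CW * (2 * T) := by gcongr; linarith
        _ = 2 * CW * T := by ring
        _ ≤ X ^ (δ / 64 - δ / 100) * X ^ (δ / 100) := by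
          have h16 : T ≤ X ^ (δ / 100) := Real.rpow_le_rpow_of_exponent_le hX1 (by linarith)
          gcongr
        _ = X ^ (δ / 64) := by
          rw [← Real.rpow_add hX0]
          congr 1
          ring
    have h16 : ∀ x, x ∉ Set.Icc (1 : ℝ) 4 → gx δ T X z.1.2 x = 0 := by
      intro x hx
      have h17 : g0 x = 0 := by
        refine g0_facts.2.1 x (fun h => hx ?_)
        rw [Set.mem_Icc] at h ⊢
        constructor <;> linarith [h.1, h.2]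
      unfold gx
      rw [h17]
      simp
    have h17 := ht X hXXt z.2.1 h9' z.2.2 h7 (count_of_Wr (2 * ε₁) δ X hX1 hW z.2.1 h5 h9 z.2.2 h7)
      (CW * wx δ X z.1.2) (CW * (1 + T)) (gx δ T X z.1.2) h14 h15 h12 h16
    have h18 : ∑ N ∈ Ioc ⌊X⌋₊ ⌊2 * X⌋₊, ‖JJ δ T X z.1.2 z.2.2 N - JM δ X z.2.2 (gx δ T X z.1.2) N‖ ^ 2 ≤
        (3 * CW) ^ 2 * X ^ (2 - c) := by
      refine le_trans h17 ?_
      have h19 : 0 ≤ wx δ X z.1.2 := RM_wx_nn δ X hX0.le z.1.2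
      have h20 : CW * wx δ X z.1.2 ≤ 3 * CW := by nlinarith
      have h21 : 0 ≤ CW * wx δ X z.1.2 := by positivity
      gcongr
    calc ∑ N ∈ Ioc ⌊X⌋₊ ⌊2 * X⌋₊, ‖D z N‖ ^ 2
        ≤ ∑ N ∈ Ioc ⌊X⌋₊ ⌊2 * X⌋₊, (3 * (CA * CR) * X ^ (c / 100)) ^ 2 *
            ‖JJ δ T X z.1.2 z.2.2 N - JM δ X z.2.2 (gx δ T X z.1.2) N‖ ^ 2 := by
          refine Finset.sum_le_sum fun N hN => ?_
          rw [hD]
          beta_reduce
          rw [norm_mul, mul_pow]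
          have := hA0 N hN z hz
          gcongr
      _ = (3 * (CA * CR) * X ^ (c / 100)) ^ 2 * ∑ N ∈ Ioc ⌊X⌋₊ ⌊2 * X⌋₊,
            ‖JJ δ T X z.1.2 z.2.2 N - JM δ X z.2.2 (gx δ T X z.1.2) N‖ ^ 2 := by rw [← Finset.mul_sum]
      _ ≤ _ := by gcongr
  have hcard : ((RM_I Q ×ˢ RM_I (Q ^ 2)).card : ℝ) ≤ X ^ (c / 10) := by
    rw [Finset.card_product]
    push_cast
    have h1 := RM_I_card Q
    have h2 := RM_I_card (Q ^ 2)
    push_cast at h2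
    calc ((RM_I Q).card : ℝ) * ((RM_I (Q ^ 2)).card : ℝ) ≤ (Q : ℝ) ^ 2 * ((Q : ℝ) ^ 2) ^ 2 := by gcongr
      _ = (Q : ℝ) ^ 6 := by ring
      _ ≤ X ^ ((6 : ℕ) * ε₁) := hpw 6
      _ ≤ X ^ (c / 10) := Real.rpow_le_rpow_of_exponent_le hX1 (by push_cast; linarith)
  have hcs := RM_cs (RM_I Q ×ˢ RM_I (Q ^ 2)) (Ioc ⌊X⌋₊ ⌊2 * X⌋₊) D
    ((3 * (CA * CR) * X ^ (c / 100)) ^ 2 * ((3 * CW) ^ 2 * X ^ (2 - c))) (X ^ (c / 10)) hcard (by positivity) hpair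
  have hpt : ∀ N ∈ Ioc ⌊X⌋₊ ⌊2 * X⌋₊, ‖∑ m ∈ Icc 1 N, (ArithmeticFunction.vonMangoldt m : ℂ) * fM δ T X Q (N - m) - MT δ ε₁ X N‖ ^ 2 ≤
      2 * X ^ (1 / 2 : ℝ) + 2 * ‖∑ z ∈ RM_I Q ×ˢ RM_I (Q ^ 2), D z N‖ ^ 2 := by
    intro N hN
    have h1 := hexpX N hN
    have h2 : MT δ ε₁ X N = ∑ z ∈ RM_I Q ×ˢ RM_I (Q ^ 2), AC Q z.1.2 z.2.2 N * JM δ X z.2.2 (gx δ T X z.1.2) N :=
      RM_sum4 Q (Q ^ 2) (fun r χ r₂ ψ => AC Q χ ψ N * JM δ X ψ (gx δ T X χ) N)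
    have h3 : ∑ r ∈ Icc 1 Q, ∑ χ ∈ prim r, ∑ r₂ ∈ Icc 1 (Q ^ 2), ∑ ψ ∈ prim r₂, AC Q χ ψ N * JJ δ T X χ ψ N =
        ∑ z ∈ RM_I Q ×ˢ RM_I (Q ^ 2), AC Q z.1.2 z.2.2 N * JJ δ T X z.1.2 z.2.2 N :=
      RM_sum4 Q (Q ^ 2) (fun r χ r₂ ψ => AC Q χ ψ N * JJ δ T X χ ψ N)
    rw [h3] at h1
    have h4 : ∑ z ∈ RM_I Q ×ˢ RM_I (Q ^ 2), D z N =
        ∑ z ∈ RM_I Q ×ˢ RM_I (Q ^ 2), AC Q z.1.2 z.2.2 N * JJ δ T X z.1.2 z.2.2 N - MT δ ε₁ X N := by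
      rw [h2, ← Finset.sum_sub_distrib]
      refine Finset.sum_congr rfl fun z _ => ?_
      rw [hD]
      ring
    set A := ∑ m ∈ Icc 1 N, (ArithmeticFunction.vonMangoldt m : ℂ) * fM δ T X Q (N - m) with hA
    set B := ∑ z ∈ RM_I Q ×ˢ RM_I (Q ^ 2), AC Q z.1.2 z.2.2 N * JJ δ T X z.1.2 z.2.2 N with hB
    rw [h4]
    have h5 : ‖A - MT δ ε₁ X N‖ ≤ ‖A - B‖ + ‖B - MT δ ε₁ X N‖ := by
      have : A - MT δ ε₁ X N = (A - B) + (B - MT δ ε₁ X N) := by ring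
      rw [this]
      exact norm_add_le _ _
    have h6 : ‖A - B‖ ^ 2 ≤ X ^ (1 / 2 : ℝ) := by
      calc ‖A - B‖ ^ 2 ≤ (X ^ (1 / 4 : ℝ)) ^ 2 := by gcongr
        _ = X ^ (1 / 2 : ℝ) := by
          rw [← Real.rpow_natCast, ← Real.rpow_mul hX0.le]
          norm_num
    calc ‖A - MT δ ε₁ X N‖ ^ 2 ≤ (‖A - B‖ + ‖B - MT δ ε₁ X N‖) ^ 2 := by gcongr
      _ ≤ 2 * ‖A - B‖ ^ 2 + 2 * ‖B - MT δ ε₁ X N‖ ^ 2 := by nlinarith [sq_nonneg (‖A - B‖ - ‖B - MT δ ε₁ X N‖)]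
      _ ≤ _ := by linarith
  have hcardN : ((Ioc ⌊X⌋₊ ⌊2 * X⌋₊).card : ℝ) ≤ 2 * X := by
    rw [Nat.card_Ioc]
    have h1 : ((⌊2 * X⌋₊ - ⌊X⌋₊ : ℕ) : ℝ) ≤ (⌊2 * X⌋₊ : ℝ) := by exact_mod_cast Nat.sub_le _ _
    exact h1.trans (Nat.floor_le (by linarith))
  calc ∑ N ∈ Ioc ⌊X⌋₊ ⌊2 * X⌋₊, ‖∑ m ∈ Icc 1 N, (ArithmeticFunction.vonMangoldt m : ℂ) * fM δ T X Q (N - m) - MT δ ε₁ X N‖ ^ 2
      ≤ ∑ N ∈ Ioc ⌊X⌋₊ ⌊2 * X⌋₊, (2 * X ^ (1 / 2 : ℝ) + 2 * ‖∑ z ∈ RM_I Q ×ˢ RM_I (Q ^ 2), D z N‖ ^ 2) :=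
        Finset.sum_le_sum hpt
    _ = ((Ioc ⌊X⌋₊ ⌊2 * X⌋₊).card : ℝ) * (2 * X ^ (1 / 2 : ℝ)) +
        2 * ∑ N ∈ Ioc ⌊X⌋₊ ⌊2 * X⌋₊, ‖∑ z ∈ RM_I Q ×ˢ RM_I (Q ^ 2), D z N‖ ^ 2 := by
        rw [Finset.sum_add_distrib, Finset.sum_const, nsmul_eq_mul, ← Finset.mul_sum]
    _ ≤ (2 * X) * (2 * X ^ (1 / 2 : ℝ)) +
        2 * ((X ^ (c / 10)) ^ 2 * ((3 * (CA * CR) * X ^ (c / 100)) ^ 2 * ((3 * CW) ^ 2 * X ^ (2 - c)))) := by gcongr
    _ ≤ X ^ (2 - min (c / 2) (1 / 4)) := RM_fin c X (CA * CR) CW hX1 hXb hXc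

end Pool.Agent.PSG
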