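import Pool.Agent.W_b58c63_h44.Itf
import Pool.Agent.W_b58c63_h44.RM
import Pool.Agent.W_b58c63_h44.MTd
import Pool.Agent.W_b58c63_h44.CL
import Pool.Agent.W_b58c63_h44.PP

/-!
# The exceptional set
-/

set_option autoImplicit false

noncomputable section

open Finset Complex

namespace Pool.Agent.PSG

theorem FN_log (a X : ℝ) (ha : 0 < a) (hX : 1 ≤ X) : Real.log X ≤ 1 / a * X ^ a := by
  have h := Real.log_le_rpow_div (by linarith : 0 ≤ X) ha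
  calc Real.log X ≤ X ^ a / a := h
    _ = 1 / a * X ^ a := by ring

/-- the elementary inequalities for large `X` -/
theorem FN_large (C C' ε ε₁ : ℝ) (hC : 1 ≤ C) (hC' : 1 ≤ C') (hε₁ : 0 < ε₁) (hε₁1 : ε₁ ≤ 1 / 100) (hεε : ε₁ ≤ ε) :
    ∀ᶠ X : ℝ in Filter.atTop,
      C' * Real.log X ^ 3 + 2 * Real.log X ^ 2 * X ^ (1 / 2 - ε) ≤ X ^ (1 / 2 - ε₁ / 40) / 2 ∧
      (128 * C * Real.log X + 16) ≤ X ^ (ε₁ / 5) := by
  have t1 := (tendsto_rpow_atTop (show (0 : ℝ) < 3 / 10 by norm_num)).eventually_ge_atTop (4 * (27000 * C'))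
  have t2 := (tendsto_rpow_atTop (show (0 : ℝ) < ε₁ / 2 by positivity)).eventually_ge_atTop (800 / ε₁ ^ 2)
  have t3 := (tendsto_rpow_atTop (show (0 : ℝ) < ε₁ / 10 by positivity)).eventually_ge_atTop (1280 * C / ε₁ + 16)
  filter_upwards [t1, t2, t3, Filter.eventually_ge_atTop (3 : ℝ)] with X h1 h2 h3 hX3
  have hX1 : 1 ≤ X := by linarith
  have hX0 : 0 < X := by linarith
  have hl0 : 0 ≤ Real.log X := Real.log_nonneg hX1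
  constructor
  · have a1 : C' * Real.log X ^ 3 ≤ X ^ (1 / 2 - ε₁ / 40) / 4 := by
      have b1 := FN_log (1 / 30) X (by norm_num) hX1
      have b2 : Real.log X ^ 3 ≤ (1 / (1 / 30) * X ^ (1 / 30 : ℝ)) ^ 3 := pow_le_pow_left₀ hl0 b1 3
      have b3 : (1 / (1 / 30) * X ^ (1 / 30 : ℝ)) ^ 3 = 27000 * X ^ (1 / 10 : ℝ) := by
        rw [mul_pow, ← Real.rpow_natCast (X ^ (1 / 30 : ℝ)), ← Real.rpow_mul hX0.le]
        norm_num
      rw [b3] at b2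
      have b4 : X ^ (1 / 10 : ℝ) * X ^ (3 / 10 : ℝ) ≤ X ^ (1 / 2 - ε₁ / 40) := by
        rw [← Real.rpow_add hX0]
        exact Real.rpow_le_rpow_of_exponent_le hX1 (by linarith)
      have b5 : 0 < X ^ (1 / 10 : ℝ) := Real.rpow_pos_of_pos hX0 _
      calc C' * Real.log X ^ 3 ≤ C' * (27000 * X ^ (1 / 10 : ℝ)) :=
            mul_le_mul_of_nonneg_left b2 (by linarith)
        _ = X ^ (1 / 10 : ℝ) * (4 * (27000 * C')) / 4 := by ring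
        _ ≤ X ^ (1 / 10 : ℝ) * X ^ (3 / 10 : ℝ) / 4 := by
            apply div_le_div_of_nonneg_right _ (by norm_num)
            exact mul_le_mul_of_nonneg_left h1 b5.le
        _ ≤ _ := by linarith
    have a2 : 2 * Real.log X ^ 2 * X ^ (1 / 2 - ε) ≤ X ^ (1 / 2 - ε₁ / 40) / 4 := by
      have b1 := FN_log (ε₁ / 10) X (by positivity) hX1
      have b2 : Real.log X ^ 2 ≤ (1 / (ε₁ / 10) * X ^ (ε₁ / 10)) ^ 2 := pow_le_pow_left₀ hl0 b1 2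
      have b3 : (1 / (ε₁ / 10) * X ^ (ε₁ / 10)) ^ 2 = 100 / ε₁ ^ 2 * X ^ (ε₁ / 5) := by
        rw [mul_pow, ← Real.rpow_natCast (X ^ (ε₁ / 10)), ← Real.rpow_mul hX0.le,
          show ε₁ / 10 * ((2 : ℕ) : ℝ) = ε₁ / 5 by push_cast; ring]
        field_simp
        norm_num
      rw [b3] at b2
      have b4 : X ^ (ε₁ / 5) * X ^ (1 / 2 - ε) * X ^ (ε₁ / 2) ≤ X ^ (1 / 2 - ε₁ / 40) := by
        rw [← Real.rpow_add hX0, ← Real.rpow_add hX0]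
        exact Real.rpow_le_rpow_of_exponent_le hX1 (by linarith)
      have b5 : 0 < X ^ (ε₁ / 5) * X ^ (1 / 2 - ε) := by positivity
      calc 2 * Real.log X ^ 2 * X ^ (1 / 2 - ε) ≤ 2 * (100 / ε₁ ^ 2 * X ^ (ε₁ / 5)) * X ^ (1 / 2 - ε) := by
            apply mul_le_mul_of_nonneg_right _ (Real.rpow_nonneg hX0.le _)
            linarith
        _ = X ^ (ε₁ / 5) * X ^ (1 / 2 - ε) * (800 / ε₁ ^ 2) / 4 := by ring
        _ ≤ X ^ (ε₁ / 5) * X ^ (1 / 2 - ε) * X ^ (ε₁ / 2) / 4 := by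
            apply div_le_div_of_nonneg_right _ (by norm_num)
            exact mul_le_mul_of_nonneg_left h2 b5.le
        _ ≤ _ := by linarith
    linarith
  · have b1 := FN_log (ε₁ / 10) X (by positivity) hX1
    have b2 : 1 ≤ X ^ (ε₁ / 10) := Real.one_le_rpow hX1 (by positivity)
    have b3 : X ^ (ε₁ / 10) * X ^ (ε₁ / 10) = X ^ (ε₁ / 5) := by
      rw [← Real.rpow_add hX0]
      congr 1
      ring
    have b4 : 128 * C * Real.log X ≤ 1280 * C / ε₁ * X ^ (ε₁ / 10) := by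
      calc 128 * C * Real.log X ≤ 128 * C * (1 / (ε₁ / 10) * X ^ (ε₁ / 10)) :=
            mul_le_mul_of_nonneg_left b1 (by linarith)
        _ = _ := by
            field_simp
            norm_num
    calc 128 * C * Real.log X + 16 ≤ 1280 * C / ε₁ * X ^ (ε₁ / 10) + 16 * X ^ (ε₁ / 10) := by linarith
      _ = (1280 * C / ε₁ + 16) * X ^ (ε₁ / 10) := by ring
      _ ≤ X ^ (ε₁ / 10) * X ^ (ε₁ / 10) := mul_le_mul_of_nonneg_right h3 (by linarith)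
      _ = _ := b3

/-- Chebyshev's inequality for two functions -/
theorem FN_cheb (S T : Finset ℕ) (hS : S ⊆ T) (D E : ℕ → ℂ) (M A B : ℝ) (hM : 0 < M)
    (h : ∀ N ∈ S, M / 2 ≤ ‖D N‖ + ‖E N‖) (hD : ∑ N ∈ T, ‖D N‖ ^ 2 ≤ A) (hE : ∑ N ∈ T, ‖E N‖ ^ 2 ≤ B) :
    (S.card : ℝ) * M ^ 2 ≤ 8 * (A + B) := by
  have h1 : ∀ N ∈ S, M ^ 2 ≤ 8 * (‖D N‖ ^ 2 + ‖E N‖ ^ 2) := by
    intro N hN
    have h2 := h N hN
    have h3 : (M / 2) ^ 2 ≤ (‖D N‖ + ‖E N‖) ^ 2 := pow_le_pow_left₀ (by positivity) h2 2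
    nlinarith [sq_nonneg (‖D N‖ - ‖E N‖)]
  calc (S.card : ℝ) * M ^ 2 = ∑ N ∈ S, M ^ 2 := by rw [Finset.sum_const, nsmul_eq_mul]
    _ ≤ ∑ N ∈ S, 8 * (‖D N‖ ^ 2 + ‖E N‖ ^ 2) := Finset.sum_le_sum h1
    _ ≤ ∑ N ∈ T, 8 * (‖D N‖ ^ 2 + ‖E N‖ ^ 2) :=
        Finset.sum_le_sum_of_subset_of_nonneg hS fun _ _ _ => by positivity
    _ = 8 * (∑ N ∈ T, ‖D N‖ ^ 2 + ∑ N ∈ T, ‖E N‖ ^ 2) := by
        rw [← Finset.mul_sum, Finset.sum_add_distrib]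
    _ ≤ _ := by linarith

theorem FN_gx_zero (δ T X : ℝ) (hX : 64 ≤ X) {r : ℕ} (χ : DirichletCharacter ℂ r) (n : ℕ)
    (hn : n = 0 ∨ ⌊16 * Real.sqrt X⌋₊ < n) :
    g0 (n / Real.sqrt X) = 0 ∧ gx δ T X χ (n / Real.sqrt X) = 0 := by
  obtain ⟨_, g2, _, _⟩ := g0_facts
  have hX0 : 0 < X := by linarith
  have hs0 : 0 < Real.sqrt X := Real.sqrt_pos.mpr hX0
  have h1 : g0 (n / Real.sqrt X) = 0 := by
    apply g2
    rintro ⟨h3, h4⟩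
    rcases hn with h | h
    · rw [h] at h3
      norm_num at h3
    · have h5 := Nat.lt_of_floor_lt h
      rw [div_le_iff₀ hs0] at h4
      nlinarith
  refine ⟨h1, ?_⟩
  unfold gx
  rw [h1]
  simp

open Classical in
/-- **The dyadic theorem.**

Proof. Parameters: `η₀` from `MT_lower`; `ε', κ, K, X₀` from `zero_package η₀` (its `ε` is called `ε'` here; `Wt = Wr` by definition), so that `Pack η₀ ε' κ K X` for large `X`. `δ = min κ (κ₁ of FSI.F_sup, κ₁ of RM_l2)`; `ε₂, c` from these for this `δ`; `ε₁ = min (ε₂, ε₂', ε' / 2, c / 4, 1/100, ε)`. `Wr (2 ε₁) δ X ≤ 2` by `Pack_Wr`. `Q = ⌊X ^ ε₁⌋₊`, `T = X ^ (2 ε₁)`.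
For even `N ∈ (X, 2 X]` with `#RC N < X ^ (1/2 - ε)`: `‖∑ Λ(m) fP X (N - m)‖ ≤ C log X ^ 3 + 2 log X ^ 2 X ^ (1/2 - ε) ≤ √X X ^ (-ε₁/40) / 4` for large `X` (`rep_of_large`, `ε₁ / 40 < ε`), while `Re MT ≥ √X X ^ (-ε₁/40)`. So one of `‖∑ Λ(m) (fP - fM)(N - m)‖`, `‖∑ Λ(m) fM (N - m) - MT‖` is at least `√X X ^ (-ε₁/40) / 4 ≥ √X X ^ (-ε₁/20)`. By `conv_l2`
(`a = fP - fM`, `L = ⌊16 √X⌋₊`, `b = Λ`, `K = ⌊2 X⌋₊`, `S = √X X ^ (-ε₁/4)`, `sum_vm_sq`; `fP X n = fM n = 0` for `n > 4 √X` and for `n = 0`) the number of `N` of the first kind is at most `X X ^ (-ε₁/2) C X log X / (X X ^ (-ε₁/10)) ≤ X ^ (1 - ε₁/4)`, and by `RM_l2` the number of the second kind is at most `X ^ (2 - c) / (X X ^ (-ε₁/10)) ≤ X ^ (1 - c/2)`. -/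
theorem dyadic [MDI] [FSI] [ZPI] (ε : ℝ) (hε : 0 < ε) : ∃ δ₀ X₀ : ℝ, 0 < δ₀ ∧ δ₀ ≤ 1 / 2 ∧ 3 ≤ X₀ ∧ ∀ X : ℝ, X₀ ≤ X →
    ((((Ioc ⌊X⌋₊ ⌊2 * X⌋₊).filter (fun N => Even N ∧ ((RC N).card : ℝ) < X ^ (1 / 2 - ε))).card : ℕ) : ℝ) ≤ X ^ (1 - δ₀) := by
  obtain ⟨η₀, hη₀, hη₁, HMT⟩ := MT_lower
  obtain ⟨ε', κ, K, Xz, hε', hε'1, hκ, hκ1, hK, hXz, Hz⟩ := ZPI.zero_package η₀ hη₀
  obtain ⟨κ₁, hκ₁, hκ₁1, HF⟩ := FSI.F_sup
  obtain ⟨κ₂, hκ₂, hκ₂1, HR⟩ := RM_l2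
  obtain ⟨δ, hδdef⟩ : ∃ δ, δ = min κ (min κ₁ κ₂) := ⟨_, rfl⟩
  have hδ : 0 < δ := by rw [hδdef]; exact lt_min hκ (lt_min hκ₁ hκ₂)
  have hδκ : δ ≤ κ := by rw [hδdef]; exact min_le_left _ _
  have hδκ₁ : δ ≤ κ₁ := by rw [hδdef]; exact (min_le_right _ _).trans (min_le_left _ _)
  have hδκ₂ : δ ≤ κ₂ := by rw [hδdef]; exact (min_le_right _ _).trans (min_le_right _ _)
  obtain ⟨ε₂, hε₂, hε₂1, HF2⟩ := HF δ hδ hδκ₁
  obtain ⟨ε₃, c, hε₃, hε₃1, hc, HR2⟩ := HR δ hδ hδκ₂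
  obtain ⟨ε₁, hε₁def⟩ : ∃ e, e = min ε₂ (min ε₃ (min (ε' / 2) (min c ε))) := ⟨_, rfl⟩
  have hε₁ : 0 < ε₁ := by
    rw [hε₁def]
    exact lt_min hε₂ (lt_min hε₃ (lt_min (by positivity) (lt_min hc hε)))
  have i1 : ε₁ ≤ ε₂ := by rw [hε₁def]; exact min_le_left _ _
  have i2 : ε₁ ≤ ε₃ := by rw [hε₁def]; exact (min_le_right _ _).trans (min_le_left _ _)
  have i3 : ε₁ ≤ ε' / 2 := by
    rw [hε₁def]; exact (min_le_right _ _).trans ((min_le_right _ _).trans (min_le_left _ _))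
  have i4 : ε₁ ≤ c := by
    rw [hε₁def]
    exact (min_le_right _ _).trans ((min_le_right _ _).trans ((min_le_right _ _).trans (min_le_left _ _)))
  have i5 : ε₁ ≤ ε := by
    rw [hε₁def]
    exact (min_le_right _ _).trans ((min_le_right _ _).trans ((min_le_right _ _).trans (min_le_right _ _)))
  have hε₁1 : ε₁ ≤ 1 / 100 := i1.trans hε₂1
  obtain ⟨X₁, hX₁, G1⟩ := HF2 ε₁ hε₁ i1
  obtain ⟨X₂, hX₂, G2⟩ := HR2 ε₁ hε₁ i2
  obtain ⟨X₃, hX₃, G3⟩ := HMT ε' κ K hε' hε'1 hκ hκ1 hK δ ε₁ hδ hδκ hε₁ (by linarith) hε₁1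
  obtain ⟨C', X₄, hC', hX₄, G4⟩ := rep_of_large
  obtain ⟨C, hC, G5⟩ := sum_vm_sq
  have hev := FN_large C C' ε ε₁ hC hC' hε₁ hε₁1 i5
  have hall := (((((hev.and (Filter.eventually_ge_atTop Xz)).and (Filter.eventually_ge_atTop X₁)).and
    (Filter.eventually_ge_atTop X₂)).and (Filter.eventually_ge_atTop X₃)).and
    (Filter.eventually_ge_atTop X₄)).and (Filter.eventually_ge_atTop (64 : ℝ))
  obtain ⟨X₅, hX₅⟩ := Filter.eventually_atTop.mp hall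
  refine ⟨ε₁ / 4, max 3 X₅, by positivity, by linarith, le_max_left _ _, fun X hX => ?_⟩
  obtain ⟨⟨⟨⟨⟨⟨⟨l1, l2⟩, mz'⟩, m1⟩, m2⟩, m3⟩, m4⟩, m64⟩ := hX₅ X ((le_max_right _ _).trans hX)
  have hX1 : 1 ≤ X := by linarith
  have hX0 : 0 < X := by linarith
  have hP : Pack η₀ ε' κ K X := Hz X mz'
  have hW : Wr (2 * ε₁) δ X ≤ 2 := Pack_Wr η₀ ε' κ K X hη₁ hη₀.le hX1 hP ε₁ δ (by linarith) hδκ
  obtain ⟨f, hf⟩ : ∃ f : ℕ → ℂ, f = fun n => fP X n - fM δ (X ^ (2 * ε₁)) X ⌊X ^ ε₁⌋₊ n := ⟨_, rfl⟩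
  have hf0 : ∀ n, (n = 0 ∨ ⌊16 * Real.sqrt X⌋₊ < n) → f n = 0 := by
    intro n hn
    have h1 : fP X n = 0 := by
      unfold fP
      rw [(FN_gx_zero δ X X m64 (1 : DirichletCharacter ℂ 1) n hn).1]
      simp
    have h2 : fM δ (X ^ (2 * ε₁)) X ⌊X ^ ε₁⌋₊ n = 0 := by
      unfold fM
      refine Finset.sum_eq_zero fun r _ => Finset.sum_eq_zero fun χ _ => Finset.sum_eq_zero fun k _ => ?_
      rw [(FN_gx_zero δ _ X m64 χ n hn).2, mul_zero]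
    rw [hf]
    show fP X n - fM δ (X ^ (2 * ε₁)) X ⌊X ^ ε₁⌋₊ n = 0
    rw [h1, h2, sub_zero]
  have hS : ∀ α : ℝ, ‖∑ n ∈ Icc 1 ⌊16 * Real.sqrt X⌋₊, f n * Pool.Agent.Wb58c63.ee (n * α)‖ ≤
      Real.sqrt X * X ^ (-(ε₁ / 4)) := by
    intro α
    rw [hf]
    exact G1 X m1 hW α
  have hD := conv_l2 ⌊16 * Real.sqrt X⌋₊ ⌊2 * X⌋₊ f (fun m => (ArithmeticFunction.vonMangoldt m : ℂ))
    (hf0 0 (Or.inl rfl)) (fun n hn => hf0 n (Or.inr hn)) _ hS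
  have hE := G2 X m2 hW
  obtain ⟨D, hDdef⟩ : ∃ D : ℕ → ℂ, D = fun N => ∑ m ∈ Icc 1 N, (ArithmeticFunction.vonMangoldt m : ℂ) * f (N - m) :=
    ⟨_, rfl⟩
  obtain ⟨E, hEdef⟩ : ∃ E : ℕ → ℂ, E = fun N => ∑ m ∈ Icc 1 N, (ArithmeticFunction.vonMangoldt m : ℂ) *
    fM δ (X ^ (2 * ε₁)) X ⌊X ^ ε₁⌋₊ (N - m) - MT δ ε₁ X N := ⟨_, rfl⟩
  -- the number of integers
  have hlog1 : 1 ≤ Real.log X := by
    rw [Real.le_log_iff_exp_le hX0]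
    have := Real.exp_one_lt_d9
    linarith
  have hDA : ∑ N ∈ Ioc ⌊X⌋₊ ⌊2 * X⌋₊, ‖D N‖ ^ 2 ≤ 8 * C * X ^ (2 - ε₁ / 2) * Real.log X := by
    have h1 : ∑ N ∈ Ioc ⌊X⌋₊ ⌊2 * X⌋₊, ‖D N‖ ^ 2 ≤ ∑ N ∈ Icc 1 ⌊2 * X⌋₊, ‖D N‖ ^ 2 := by
      apply Finset.sum_le_sum_of_subset_of_nonneg
      · intro N hN
        rw [Finset.mem_Ioc] at hN
        rw [Finset.mem_Icc]
        omega
      · intro N _ _
        positivity
    rw [hDdef] at h1 ⊢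
    refine h1.trans (hD.trans ?_)
    have h2 := G5 ⌊2 * X⌋₊
    have h3 : (⌊2 * X⌋₊ : ℝ) ≤ 2 * X := Nat.floor_le (by positivity)
    have h4 : 1 + Real.log ((⌊2 * X⌋₊ : ℝ) + 1) ≤ 4 * Real.log X := by
      have h5 : (⌊2 * X⌋₊ : ℝ) + 1 ≤ X ^ 2 := by nlinarith
      have h6 : Real.log ((⌊2 * X⌋₊ : ℝ) + 1) ≤ Real.log (X ^ 2) :=
        Real.log_le_log (by positivity) h5
      rw [Real.log_pow] at h6
      push_cast at h6
      linarith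
    have h7 : ∑ m ∈ Icc 1 ⌊2 * X⌋₊, ‖(ArithmeticFunction.vonMangoldt m : ℂ)‖ ^ 2 ≤
        C * (2 * X) * (4 * Real.log X) := by
      refine h2.trans ?_
      apply mul_le_mul _ h4 _ (by positivity)
      · exact mul_le_mul_of_nonneg_left h3 (by linarith)
      · have : 0 ≤ Real.log ((⌊2 * X⌋₊ : ℝ) + 1) := Real.log_nonneg (by
          have : (0 : ℝ) ≤ ⌊2 * X⌋₊ := Nat.cast_nonneg _
          linarith)
        linarith
    calc (Real.sqrt X * X ^ (-(ε₁ / 4))) ^ 2 * ∑ m ∈ Icc 1 ⌊2 * X⌋₊, ‖(ArithmeticFunction.vonMangoldt m : ℂ)‖ ^ 2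
        ≤ (Real.sqrt X * X ^ (-(ε₁ / 4))) ^ 2 * (C * (2 * X) * (4 * Real.log X)) :=
          mul_le_mul_of_nonneg_left h7 (by positivity)
      _ = 8 * C * ((Real.sqrt X) ^ 2 * (X ^ (-(ε₁ / 4))) ^ 2 * X) * Real.log X := by ring
      _ = 8 * C * X ^ (2 - ε₁ / 2) * Real.log X := by
          congr 2
          rw [Real.sq_sqrt hX0.le, ← Real.rpow_natCast (X ^ (-(ε₁ / 4))), ← Real.rpow_mul hX0.le]
          nth_rewrite 1 3 [← Real.rpow_one X]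
          rw [← Real.rpow_add hX0, ← Real.rpow_add hX0]
          congr 1
          push_cast
          ring
  have hEB : ∑ N ∈ Ioc ⌊X⌋₊ ⌊2 * X⌋₊, ‖E N‖ ^ 2 ≤ X ^ (2 - c) := by
    rw [hEdef]
    exact hE
  obtain ⟨M, hM⟩ : ∃ M : ℝ, M = X ^ (1 / 2 - ε₁ / 40) := ⟨_, rfl⟩
  have hM0 : 0 < M := by rw [hM]; exact Real.rpow_pos_of_pos hX0 _
  have hMs : Real.sqrt X * X ^ (-(ε₁ / 40)) = M := by
    rw [hM, Real.sqrt_eq_rpow, ← Real.rpow_add hX0]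
    congr 1
  have hpt : ∀ N ∈ (Ioc ⌊X⌋₊ ⌊2 * X⌋₊).filter (fun N => Even N ∧ ((RC N).card : ℝ) < X ^ (1 / 2 - ε)),
      M / 2 ≤ ‖D N‖ + ‖E N‖ := by
    intro N hN
    rw [Finset.mem_filter] at hN
    obtain ⟨hN1, hN2, hN3⟩ := hN
    have h1 := G3 X m3 hP N hN1 hN2
    rw [hMs] at h1
    have h2 := G4 X m4 N hN1
    have h3 : C' * Real.log X ^ 3 + 2 * Real.log X ^ 2 * ((RC N).card : ℝ) ≤ M / 2 := by
      rw [hM]
      refine le_trans ?_ l1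
      have : 2 * Real.log X ^ 2 * ((RC N).card : ℝ) ≤ 2 * Real.log X ^ 2 * X ^ (1 / 2 - ε) :=
        mul_le_mul_of_nonneg_left hN3.le (by positivity)
      linarith
    have h4 : MT δ ε₁ X N = (∑ m ∈ Icc 1 N, (ArithmeticFunction.vonMangoldt m : ℂ) * fP X (N - m)) - D N - E N := by
      rw [hDdef, hEdef, hf]
      show _ = (∑ m ∈ Icc 1 N, (ArithmeticFunction.vonMangoldt m : ℂ) * fP X (N - m)) -
        (∑ m ∈ Icc 1 N, (ArithmeticFunction.vonMangoldt m : ℂ) *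
          (fP X (N - m) - fM δ (X ^ (2 * ε₁)) X ⌊X ^ ε₁⌋₊ (N - m))) -
        (∑ m ∈ Icc 1 N, (ArithmeticFunction.vonMangoldt m : ℂ) *
          fM δ (X ^ (2 * ε₁)) X ⌊X ^ ε₁⌋₊ (N - m) - MT δ ε₁ X N)
      simp only [mul_sub, Finset.sum_sub_distrib]
      ring
    have h5 : (MT δ ε₁ X N).re ≤ ‖MT δ ε₁ X N‖ := Complex.re_le_norm _
    have h6 : ‖MT δ ε₁ X N‖ ≤ ‖∑ m ∈ Icc 1 N, (ArithmeticFunction.vonMangoldt m : ℂ) * fP X (N - m)‖ +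
        ‖D N‖ + ‖E N‖ := by
      rw [h4]
      refine (norm_sub_le _ _).trans ?_
      have := norm_sub_le (∑ m ∈ Icc 1 N, (ArithmeticFunction.vonMangoldt m : ℂ) * fP X (N - m)) (D N)
      linarith
    linarith
  have hch := FN_cheb _ (Ioc ⌊X⌋₊ ⌊2 * X⌋₊) (Finset.filter_subset _ _) D E M _ _ hM0 hpt hDA hEB
  -- conclusion
  obtain ⟨n, hn⟩ : ∃ n : ℝ, n = ((((Ioc ⌊X⌋₊ ⌊2 * X⌋₊).filter
    (fun N => Even N ∧ ((RC N).card : ℝ) < X ^ (1 / 2 - ε))).card : ℕ) : ℝ) := ⟨_, rfl⟩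
  rw [← hn] at hch ⊢
  have hM2 : M ^ 2 = X ^ (1 - ε₁ / 20) := by
    rw [hM, ← Real.rpow_natCast, ← Real.rpow_mul hX0.le]
    congr 1
    push_cast
    ring
  rw [hM2] at hch
  have e1 : X ^ (2 - ε₁ / 2) = X ^ (1 - ε₁ / 20) * X ^ (1 - 9 * ε₁ / 20) := by
    rw [← Real.rpow_add hX0]
    congr 1
    ring
  have e2 : X ^ (2 - c) ≤ X ^ (1 - ε₁ / 20) * X ^ (1 - 9 * ε₁ / 20) := by
    rw [← Real.rpow_add hX0]
    exact Real.rpow_le_rpow_of_exponent_le hX1 (by linarith)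
  have hpos : 0 < X ^ (1 - ε₁ / 20) := Real.rpow_pos_of_pos hX0 _
  have hpos2 : 0 < X ^ (1 - 9 * ε₁ / 20) := Real.rpow_pos_of_pos hX0 _
  have h10 : n * X ^ (1 - ε₁ / 20) ≤ ((128 * C * Real.log X + 16) * X ^ (1 - 9 * ε₁ / 20)) * X ^ (1 - ε₁ / 20) := by
    refine hch.trans ?_
    have h11 : 8 * (8 * C * X ^ (2 - ε₁ / 2) * Real.log X + X ^ (2 - c)) ≤
        8 * (8 * C * (X ^ (1 - ε₁ / 20) * X ^ (1 - 9 * ε₁ / 20)) * Real.log X +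
          X ^ (1 - ε₁ / 20) * X ^ (1 - 9 * ε₁ / 20)) := by
      rw [e1]
      linarith
    refine h11.trans ?_
    have h12 : 0 ≤ X ^ (1 - ε₁ / 20) * X ^ (1 - 9 * ε₁ / 20) := by positivity
    have h13 : 0 ≤ C * (X ^ (1 - ε₁ / 20) * X ^ (1 - 9 * ε₁ / 20)) * Real.log X := by positivity
    have h14 : ((128 * C * Real.log X + 16) * X ^ (1 - 9 * ε₁ / 20)) * X ^ (1 - ε₁ / 20) =
        128 * (C * (X ^ (1 - ε₁ / 20) * X ^ (1 - 9 * ε₁ / 20)) * Real.log X) +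
        16 * (X ^ (1 - ε₁ / 20) * X ^ (1 - 9 * ε₁ / 20)) := by ring
    rw [h14]
    linarith
  have h15 : n ≤ (128 * C * Real.log X + 16) * X ^ (1 - 9 * ε₁ / 20) := le_of_mul_le_mul_right h10 hpos
  refine h15.trans ?_
  calc (128 * C * Real.log X + 16) * X ^ (1 - 9 * ε₁ / 20) ≤ X ^ (ε₁ / 5) * X ^ (1 - 9 * ε₁ / 20) :=
        mul_le_mul_of_nonneg_right l2 hpos2.le
    _ = X ^ (1 - ε₁ / 4) := by
        rw [← Real.rpow_add hX0]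
        congr 1
        ring

/-- from dyadic intervals to initial segments -/
theorem FN_count (P : ℕ → Prop) [DecidablePred P] (δ₀ X₀ : ℝ) (hδ : 0 < δ₀) (hδ1 : δ₀ ≤ 1 / 2) (hX₀ : 3 ≤ X₀)
    (h : ∀ Z : ℝ, X₀ ≤ Z → ((((Ioc ⌊Z⌋₊ ⌊2 * Z⌋₊).filter P).card : ℕ) : ℝ) ≤ Z ^ (1 - δ₀)) :
    ∀ k : ℕ, ∀ Z : ℝ, X₀ ≤ Z → Z ≤ 2 ^ k * (2 * X₀) →
      ((((Ioc 0 ⌊Z⌋₊).filter P).card : ℕ) : ℝ) ≤ 2 * X₀ + 3 * Z ^ (1 - δ₀) := by
  have hsmall : ∀ Z : ℝ, 0 ≤ Z → Z ≤ 2 * X₀ →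
      ((((Ioc 0 ⌊Z⌋₊).filter P).card : ℕ) : ℝ) ≤ 2 * X₀ + 3 * Z ^ (1 - δ₀) := by
    intro Z hZ0 hZ
    have h1 : (((Ioc 0 ⌊Z⌋₊).filter P).card : ℕ) ≤ ⌊Z⌋₊ := by
      refine (Finset.card_filter_le _ _).trans ?_
      rw [Nat.card_Ioc, Nat.sub_zero]
    have h2 : ((((Ioc 0 ⌊Z⌋₊).filter P).card : ℕ) : ℝ) ≤ ⌊Z⌋₊ := by exact_mod_cast h1
    have h3 := Nat.floor_le hZ0
    have h4 : 0 ≤ Z ^ (1 - δ₀) := Real.rpow_nonneg hZ0 _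
    linarith
  intro k
  induction k with
  | zero =>
    intro Z hZ1 hZ2
    exact hsmall Z (by linarith) (by simpa using hZ2)
  | succ k ih =>
    intro Z hZ1 hZ2
    rcases le_or_gt Z (2 * X₀) with hZ | hZ
    · exact hsmall Z (by linarith) hZ
    · have hZ0 : 0 < Z := by linarith
      have hh1 : X₀ ≤ Z / 2 := by linarith
      have hh2 : Z / 2 ≤ 2 ^ k * (2 * X₀) := by
        rw [pow_succ] at hZ2
        linarith
      have h1 := ih (Z / 2) hh1 hh2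
      have h2 := h (Z / 2) hh1
      rw [show 2 * (Z / 2) = Z by ring] at h2
      have hle : ⌊Z / 2⌋₊ ≤ ⌊Z⌋₊ := Nat.floor_mono (by linarith)
      have h3 : (((Ioc 0 ⌊Z⌋₊).filter P).card : ℕ) ≤ ((Ioc 0 ⌊Z / 2⌋₊).filter P).card +
          ((Ioc ⌊Z / 2⌋₊ ⌊Z⌋₊).filter P).card := by
        rw [← Finset.Ioc_union_Ioc_eq_Ioc (Nat.zero_le _) hle, Finset.filter_union]
        exact Finset.card_union_le _ _
      have h4 : ((((Ioc 0 ⌊Z⌋₊).filter P).card : ℕ) : ℝ) ≤ ((((Ioc 0 ⌊Z / 2⌋₊).filter P).card : ℕ) : ℝ) +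
          ((((Ioc ⌊Z / 2⌋₊ ⌊Z⌋₊).filter P).card : ℕ) : ℝ) := by exact_mod_cast h3
      have h5 : (Z / 2) ^ (1 - δ₀) * (4 / 3) ≤ Z ^ (1 - δ₀) := by
        have h6 : Z ^ (1 - δ₀) = (Z / 2) ^ (1 - δ₀) * 2 ^ (1 - δ₀) := by
          rw [← Real.mul_rpow (by positivity) (by norm_num)]
          congr 1
          ring
        rw [h6]
        apply mul_le_mul_of_nonneg_left _ (by positivity)
        have h7 : (2 : ℝ) ^ (1 / 2 : ℝ) ≤ 2 ^ (1 - δ₀) :=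
          Real.rpow_le_rpow_of_exponent_le (by norm_num) (by linarith)
        have h8 : (4 / 3 : ℝ) ≤ 2 ^ (1 / 2 : ℝ) := by
          rw [← Real.sqrt_eq_rpow]
          apply Real.le_sqrt_of_sq_le
          norm_num
        linarith
      linarith

open Classical in
/-- **The power saving theorem.**

Proof. `dyadic (ε / 2)`; for `N ∈ (X, 2 X]`, `X` large: `N ^ (1/2 - ε) ≤ (2 X) ^ (1/2 - ε) ≤ X ^ (1/2 - ε/2)` if `ε ≤ 1/2`, and for `ε > 1/2` use `N ^ (1/2 - ε) ≤ 1 ≤ X ^ (1/2 - 1/4)` (with `dyadic (1/4)`). The even numbers `N = 2 n ≤ 2 X` are in the intervals `(2 X / 2 ^ (i+1), 2 X / 2 ^ i]`, `i ≥ 0`; use `dyadic` (with `X := 2 X / 2 ^ (i + 1)`) as long as this is `≥ X₀`, a geometric series, and there are at most `2 X₀` remaining numbers. -/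
theorem power_saving [MDI] [FSI] [ZPI] (ε : ℝ) (hε : 0 < ε) : ∃ δ C : ℝ, 0 < δ ∧ 0 < C ∧ ∀ X : ℝ, 1 ≤ X →
    ((((Icc 1 ⌊X⌋₊).filter (fun n => ((RC (2 * n)).card : ℝ) < ((2 * n : ℕ) : ℝ) ^ (1 / 2 - ε))).card : ℕ) : ℝ) ≤ C * X ^ (1 - δ) := by
  obtain ⟨e, he⟩ : ∃ e : ℝ, e = min (ε / 2) (1 / 4) := ⟨_, rfl⟩
  have he0 : 0 < e := by rw [he]; exact lt_min (by positivity) (by norm_num)
  have he1 : e ≤ ε / 2 := by rw [he]; exact min_le_left _ _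
  have he2 : e ≤ 1 / 4 := by rw [he]; exact min_le_right _ _
  obtain ⟨δ₀, X₁, hδ₀, hδ₀1, hX₁, H⟩ := dyadic e he0
  have t1 := (tendsto_rpow_atTop (show (0 : ℝ) < ε / 2 by positivity)).eventually_ge_atTop 2
  obtain ⟨X₂, hX₂⟩ := Filter.eventually_atTop.mp t1
  obtain ⟨X₀, hX₀⟩ : ∃ X₀ : ℝ, X₀ = max X₁ X₂ := ⟨_, rfl⟩
  have hX₀1 : X₁ ≤ X₀ := by rw [hX₀]; exact le_max_left _ _
  have hX₀2 : X₂ ≤ X₀ := by rw [hX₀]; exact le_max_right _ _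
  have hX₀3 : 3 ≤ X₀ := hX₁.trans hX₀1
  let P : ℕ → Prop := fun N => Even N ∧ ((RC N).card : ℝ) < (N : ℝ) ^ (1 / 2 - ε)
  have hP : ∀ Z : ℝ, X₀ ≤ Z → ((((Ioc ⌊Z⌋₊ ⌊2 * Z⌋₊).filter P).card : ℕ) : ℝ) ≤ Z ^ (1 - δ₀) := by
    intro Z hZ
    refine le_trans ?_ (H Z (hX₀1.trans hZ))
    have hZ0 : 0 < Z := by linarith
    have hZ1 : 1 ≤ Z := by linarith
    have : (((Ioc ⌊Z⌋₊ ⌊2 * Z⌋₊).filter P).card : ℕ) ≤ ((Ioc ⌊Z⌋₊ ⌊2 * Z⌋₊).filter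
        (fun N => Even N ∧ ((RC N).card : ℝ) < Z ^ (1 / 2 - e))).card := by
      apply Finset.card_le_card
      intro N hN
      rw [Finset.mem_filter] at hN ⊢
      obtain ⟨hN1, hN2, hN3⟩ := hN
      refine ⟨hN1, hN2, lt_of_lt_of_le hN3 ?_⟩
      rw [Finset.mem_Ioc] at hN1
      have hNZ : Z < N := Nat.lt_of_floor_lt hN1.1
      have hN2Z : (N : ℝ) ≤ 2 * Z := le_trans (by exact_mod_cast hN1.2) (Nat.floor_le (by positivity))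
      have hN0 : (0 : ℝ) < N := by linarith
      rcases le_or_gt ε (1 / 2) with h | h
      · calc (N : ℝ) ^ (1 / 2 - ε) ≤ (2 * Z) ^ (1 / 2 - ε) := Real.rpow_le_rpow hN0.le hN2Z (by linarith)
          _ = 2 ^ (1 / 2 - ε) * Z ^ (1 / 2 - ε) := Real.mul_rpow (by norm_num) hZ0.le
          _ ≤ 2 * Z ^ (1 / 2 - ε) := by
              apply mul_le_mul_of_nonneg_right _ (Real.rpow_nonneg hZ0.le _)
              calc (2 : ℝ) ^ (1 / 2 - ε) ≤ 2 ^ (1 : ℝ) :=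
                    Real.rpow_le_rpow_of_exponent_le (by norm_num) (by linarith)
                _ = 2 := Real.rpow_one 2
          _ ≤ Z ^ (ε / 2) * Z ^ (1 / 2 - ε) := by
              apply mul_le_mul_of_nonneg_right _ (Real.rpow_nonneg hZ0.le _)
              exact hX₂ Z (hX₀2.trans hZ)
          _ = Z ^ (1 / 2 - ε / 2) := by
              rw [← Real.rpow_add hZ0]
              congr 1
              ring
          _ ≤ Z ^ (1 / 2 - e) := Real.rpow_le_rpow_of_exponent_le hZ1 (by linarith)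
      · calc (N : ℝ) ^ (1 / 2 - ε) ≤ 1 :=
              Real.rpow_le_one_of_one_le_of_nonpos (by linarith) (by linarith)
          _ ≤ Z ^ (1 / 2 - e) := Real.one_le_rpow hZ1 (by linarith)
    exact_mod_cast this
  have hcount := FN_count P δ₀ X₀ hδ₀ hδ₀1 hX₀3 hP
  refine ⟨δ₀, 2 * X₀ + 6, hδ₀, by linarith, fun X hX => ?_⟩
  have hX0 : 0 < X := by linarith
  have hXp : 1 ≤ X ^ (1 - δ₀) := Real.one_le_rpow hX (by linarith)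
  rcases le_or_gt X₀ (2 * X) with hXX | hXX
  · obtain ⟨k, hk⟩ : ∃ k : ℕ, 2 * X < 2 ^ k := pow_unbounded_of_one_lt _ (by norm_num)
    have h1 := hcount k (2 * X) hXX (by
      have : (0 : ℝ) < 2 ^ k := by positivity
      nlinarith)
    have h2 : (((Icc 1 ⌊X⌋₊).filter (fun n => ((RC (2 * n)).card : ℝ) < ((2 * n : ℕ) : ℝ) ^ (1 / 2 - ε))).card : ℕ) ≤
        ((Ioc 0 ⌊2 * X⌋₊).filter P).card := by
      apply Finset.card_le_card_of_injOn (fun n => 2 * n)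
      · intro n hn
        have hn' := Finset.mem_filter.mp (Finset.mem_coe.mp hn)
        rw [Finset.mem_Icc] at hn'
        apply Finset.mem_coe.mpr
        rw [Finset.mem_filter, Finset.mem_Ioc]
        refine ⟨⟨by show 0 < 2 * n; omega, ?_⟩, even_two_mul n, hn'.2⟩
        show 2 * n ≤ ⌊2 * X⌋₊
        apply Nat.le_floor
        have : (n : ℝ) ≤ X := le_trans (by exact_mod_cast hn'.1.2) (Nat.floor_le hX0.le)
        push_cast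
        linarith
      · intro a _ b _ hab
        have hab' : 2 * a = 2 * b := hab
        omega
    have h3 : ((((Icc 1 ⌊X⌋₊).filter (fun n => ((RC (2 * n)).card : ℝ) < ((2 * n : ℕ) : ℝ) ^ (1 / 2 - ε))).card : ℕ) : ℝ) ≤
        ((((Ioc 0 ⌊2 * X⌋₊).filter P).card : ℕ) : ℝ) := by exact_mod_cast h2
    have h4 : (2 * X) ^ (1 - δ₀) ≤ 2 * X ^ (1 - δ₀) := by
      rw [Real.mul_rpow (by norm_num) hX0.le]
      apply mul_le_mul_of_nonneg_right _ (by linarith)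
      calc (2 : ℝ) ^ (1 - δ₀) ≤ 2 ^ (1 : ℝ) := Real.rpow_le_rpow_of_exponent_le (by norm_num) (by linarith)
        _ = 2 := Real.rpow_one 2
    have h5 : 2 * X₀ ≤ 2 * X₀ * X ^ (1 - δ₀) := le_mul_of_one_le_right (by linarith) hXp
    refine h3.trans (h1.trans ?_)
    linarith
  · have h1 : (((Icc 1 ⌊X⌋₊).filter (fun n => ((RC (2 * n)).card : ℝ) < ((2 * n : ℕ) : ℝ) ^ (1 / 2 - ε))).card : ℕ) ≤ ⌊X⌋₊ := by
      refine (Finset.card_filter_le _ _).trans ?_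
      rw [Nat.card_Icc]
      omega
    have h2 : ((((Icc 1 ⌊X⌋₊).filter (fun n => ((RC (2 * n)).card : ℝ) < ((2 * n : ℕ) : ℝ) ^ (1 / 2 - ε))).card : ℕ) : ℝ) ≤ ⌊X⌋₊ := by
      exact_mod_cast h1
    have h3 := Nat.floor_le hX0.le
    nlinarith

end Pool.Agent.PSG
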