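import Pool.Agent.W_b58c63_h44.Mel
import Pool.Agent.W_b58c63_h44.Itf
import Pool.Agent.W_b58c63_h44.CI
import Pool.Agent.W_b58c63_h44.GI
import Pool.Agent.W_b58c63_h68.GdA
import Pool.Agent.W_b58c63_h68.ArB

/-!
# The small prime near a rational number
-/

set_option autoImplicit false

noncomputable section

open Finset Complex MeasureTheory

namespace Pool.Agent.PSG

open Pool.Agent.Wb58c63 (prim ee)

/-- Orthogonality of the characters modulo `q`, for the additive character. -/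
theorem FPn_orth (q : ℕ) (hq : 1 ≤ q) (a : ℤ) (n : ℕ) (hn : n.Coprime q) :
    ∑ χ : DirichletCharacter ℂ q, χ (n : ZMod q) *
        ∑ b ∈ (range q).filter (fun b => b.Coprime q), (starRingEnd ℂ) (χ (b : ZMod q)) * ee (b * ((a : ℝ) / q)) =
      (q.totient : ℂ) * ee (n * ((a : ℝ) / q)) := by
  classical
  have : NeZero q := ⟨by omega⟩
  have h0 : ∀ b ∈ (range q).filter (fun b => b.Coprime q), ∀ χ : DirichletCharacter ℂ q,
      (starRingEnd ℂ) (χ (b : ZMod q)) = χ ((b : ZMod q)⁻¹) := by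
    intro b hb χ
    have hbu : IsUnit (b : ZMod q) := (ZMod.isUnit_iff_coprime b q).2 (mem_filter.1 hb).2
    have h2 : χ ((b : ZMod q)⁻¹) * χ (b : ZMod q) = 1 := by
      rw [← map_mul, ZMod.inv_mul_of_unit _ hbu, map_one]
    have h3 : ‖χ (b : ZMod q)‖ = 1 := by
      have := χ.unit_norm_eq_one hbu.unit
      simpa using this
    have h4 : (starRingEnd ℂ) (χ (b : ZMod q)) * χ (b : ZMod q) = 1 := by
      rw [mul_comm, Complex.mul_conj, Complex.normSq_eq_norm_sq, h3]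
      simp
    have h5 : χ (b : ZMod q) ≠ 0 := by
      intro h
      rw [h, norm_zero] at h3
      exact zero_ne_one h3
    exact mul_right_cancel₀ h5 (h4.trans h2.symm)
  calc ∑ χ : DirichletCharacter ℂ q, χ (n : ZMod q) *
        ∑ b ∈ (range q).filter (fun b => b.Coprime q), (starRingEnd ℂ) (χ (b : ZMod q)) * ee (b * ((a : ℝ) / q))
      = ∑ b ∈ (range q).filter (fun b => b.Coprime q), ee (b * ((a : ℝ) / q)) *
          ∑ χ : DirichletCharacter ℂ q, χ ((b : ZMod q)⁻¹) * χ (n : ZMod q) := by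
        simp_rw [Finset.mul_sum]
        rw [Finset.sum_comm]
        refine Finset.sum_congr rfl fun b hb => Finset.sum_congr rfl fun χ _ => ?_
        rw [h0 b hb χ]
        ring
    _ = ∑ b ∈ (range q).filter (fun b => b.Coprime q), ee (b * ((a : ℝ) / q)) *
          (if (b : ZMod q) = (n : ZMod q) then (q.totient : ℂ) else 0) := by
        refine Finset.sum_congr rfl fun b hb => ?_
        rw [DirichletCharacter.sum_char_inv_mul_char_eq ℂ
          ((ZMod.isUnit_iff_coprime b q).2 (mem_filter.1 hb).2)]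
    _ = ee (((n % q : ℕ) : ℝ) * ((a : ℝ) / q)) * (q.totient : ℂ) := by
        rw [Finset.sum_eq_single (n % q)]
        · rw [if_pos (by rw [ZMod.natCast_eq_natCast_iff]; exact Nat.mod_modEq n q)]
        · intro b hb hne
          rw [if_neg, mul_zero]
          intro h
          apply hne
          rw [ZMod.natCast_eq_natCast_iff] at h
          have h1 : b < q := Finset.mem_range.1 (mem_filter.1 hb).1
          have h2 : b % q = n % q := h
          rwa [Nat.mod_eq_of_lt h1] at h2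
        · intro h
          exfalso
          apply h
          rw [mem_filter, Finset.mem_range]
          refine ⟨Nat.mod_lt _ (by omega), ?_⟩
          have : (n % q).gcd q = n.gcd q := by
            rw [Nat.gcd_comm n q, Nat.gcd_rec q n]
          rw [Nat.Coprime, this]
          exact hn
    _ = (q.totient : ℂ) * ee (n * ((a : ℝ) / q)) := by
        rw [GI_mod (fun m : ℕ => ee ((m : ℝ) * ((a : ℝ) / q))) q (fun m => GI_ee_nat q hq a m) n, mul_comm]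

/-- The reduction to characters.

Proof. For `(n, q) = 1`: `ee (n a / q) = (1 / φ(q)) ∑_{χ mod q} χ(n) ∑_{b} conj χ(b) ee (a b / q)` (orthogonality). `sum_chars` of `GdA.lean` groups the characters modulo `q` by their conductor `r ∣ q`; `changeLevel χ (n) = χ (n)` for `(n, q) = 1` (`GdA_changeLevel`), also for `n = b`, so the inner sum is `GSum χ q a`. -/
theorem fP_chars (q : ℕ) (hq : 1 ≤ q) (a : ℤ) (N : ℕ) (f : ℕ → ℂ) :
    ∑ n ∈ (Icc 1 N).filter (fun n => n.Coprime q), f n * ee (n * ((a : ℝ) / q)) =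
      ∑ r ∈ q.divisors, ∑ χ ∈ prim r, (1 / (q.totient : ℂ)) * GSum χ q a *
        ∑ n ∈ (Icc 1 N).filter (fun n => n.Coprime q), f n * χ (n : ZMod r) := by
  classical
  have hφ : (q.totient : ℂ) ≠ 0 := by
    exact_mod_cast (Nat.totient_pos.2 (by omega : 0 < q)).ne'
  have key : ∀ n ∈ (Icc 1 N).filter (fun n => n.Coprime q), f n * ee (n * ((a : ℝ) / q)) =
      ∑ r ∈ q.divisors, ∑ χ ∈ prim r, (1 / (q.totient : ℂ)) * GSum χ q a * (f n * χ (n : ZMod r)) := by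
    intro n hn
    have hn' : n.Coprime q := (mem_filter.1 hn).2
    have h1 := FPn_orth q hq a n hn'
    rw [Wb58c63.sum_chars q hq] at h1
    have h2 : ∀ r ∈ q.divisors.attach, ∀ χ ∈ prim r.1,
        DirichletCharacter.changeLevel (Nat.dvd_of_mem_divisors r.2) χ (n : ZMod q) *
          ∑ b ∈ (range q).filter (fun b => b.Coprime q),
            (starRingEnd ℂ) (DirichletCharacter.changeLevel (Nat.dvd_of_mem_divisors r.2) χ (b : ZMod q)) *
              ee (b * ((a : ℝ) / q)) = χ (n : ZMod r.1) * GSum χ q a := by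
      intro r _ χ _
      rw [Wb58c63.GdA_changeLevel _ χ n hn']
      congr 1
      unfold GSum
      refine Finset.sum_congr rfl fun b hb => ?_
      rw [Wb58c63.GdA_changeLevel _ χ b (mem_filter.1 hb).2]
    rw [Finset.sum_congr rfl fun r hr => Finset.sum_congr rfl (h2 r hr)] at h1
    rw [Finset.sum_attach q.divisors (fun r => ∑ χ ∈ prim r, χ (n : ZMod r) * GSum χ q a)] at h1
    have h3 : ee (n * ((a : ℝ) / q)) = (1 / (q.totient : ℂ)) *
        ∑ r ∈ q.divisors, ∑ χ ∈ prim r, χ (n : ZMod r) * GSum χ q a := by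
      rw [h1]
      field_simp
    rw [h3, Finset.mul_sum, Finset.mul_sum]
    refine Finset.sum_congr rfl fun r _ => ?_
    rw [Finset.mul_sum, Finset.mul_sum]
    refine Finset.sum_congr rfl fun χ _ => ?_
    ring
  rw [Finset.sum_congr rfl key, Finset.sum_comm]
  refine Finset.sum_congr rfl fun r _ => ?_
  rw [Finset.sum_comm]
  refine Finset.sum_congr rfl fun χ _ => ?_
  rw [Finset.mul_sum]

/-- The von Mangoldt function over the numbers not coprime to `q`. -/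
theorem FPn_noncop (q N : ℕ) (hq : 1 ≤ q) :
    ∑ n ∈ (Icc 1 N).filter (fun n => ¬ n.Coprime q), ArithmeticFunction.vonMangoldt n ≤
      (Nat.log 2 N : ℝ) * Real.log q := by
  classical
  set L := Nat.log 2 N with hL
  have h1 : ∑ d ∈ (q ^ L).divisors, ArithmeticFunction.vonMangoldt d = (L : ℝ) * Real.log q := by
    rw [ArithmeticFunction.vonMangoldt_sum]
    push_cast
    rw [Real.log_pow]
  rw [← h1, ← Finset.sum_filter_ne_zero]
  refine Finset.sum_le_sum_of_subset_of_nonneg ?_ fun _ _ _ => ArithmeticFunction.vonMangoldt_nonneg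
  intro n hn
  rw [mem_filter, mem_filter, Finset.mem_Icc] at hn
  obtain ⟨⟨⟨hn1, hnN⟩, hc⟩, hΛ⟩ := hn
  rw [ArithmeticFunction.vonMangoldt_ne_zero_iff] at hΛ
  obtain ⟨p, k, hp, hk, rfl⟩ := hΛ
  have hp' : p.Prime := hp.nat_prime
  have hpq : p ∣ q := by
    by_contra h
    exact hc (Nat.Coprime.pow_left k ((Nat.Prime.coprime_iff_not_dvd hp').2 h))
  have hkL : k ≤ L := by
    rw [hL]
    refine Nat.le_log_of_pow_le (by norm_num) (le_trans (Nat.pow_le_pow_left hp'.two_le k) hnN)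
  rw [Nat.mem_divisors]
  exact ⟨(pow_dvd_pow_of_dvd hpq k).trans (pow_dvd_pow q hkL), by positivity⟩

/-- The number of the primitive characters whose conductor divides `q`. -/
theorem FPn_card (q : ℕ) (hq : 1 ≤ q) : ∑ r ∈ q.divisors, ((prim r).card : ℝ) = (q.totient : ℝ) := by
  classical
  have : NeZero q := ⟨by omega⟩
  have h1 := Wb58c63.sum_chars q hq (fun _ => 1)
  rw [Finset.sum_attach q.divisors (fun r => ∑ χ ∈ prim r, (1 : ℂ))] at h1
  simp only [Finset.sum_const, nsmul_eq_mul, mul_one] at h1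
  rw [Finset.card_univ, ← Nat.card_eq_fintype_card,
    DirichletCharacter.card_eq_totient_of_hasEnoughRootsOfUnity] at h1
  exact_mod_cast h1.symm

/-- The main terms are the Fourier transform of the smooth part. -/
theorem FPn_MM (δ X : ℝ) (hX : 0 < X) {r : ℕ} (χ : DirichletCharacter ℂ r) (β : ℝ)
    (hc : Continuous (fun x : ℝ => (g0 x : ℂ) * ee (x * (Real.sqrt X * β)))) :
    MM δ X χ (fun x => (g0 x : ℂ) * ee (x * (Real.sqrt X * β))) (Real.sqrt X) 0 = HH δ X X χ β := by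
  set w : ℝ → ℂ := fun x => (g0 x : ℂ) * ee (x * (Real.sqrt X * β)) with hw
  have hY : 0 < Real.sqrt X := Real.sqrt_pos.2 hX
  have hY0 : ((Real.sqrt X : ℝ) : ℂ) ≠ 0 := by exact_mod_cast hY.ne'
  have hw0 : ∀ x, x ∉ Set.Icc (1 / 4 : ℝ) 16 → w x = 0 := by
    intro x hx
    rw [hw]
    simp only
    rw [g0_facts.2.1 x (fun h => hx ⟨by linarith [h.1], by linarith [h.2]⟩), Complex.ofReal_zero, zero_mul]
  have hneg : ∀ x : ℝ, x ∉ Set.Ioi (0 : ℝ) → w x = 0 := by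
    intro x hx
    refine hw0 x fun h => hx ?_
    rw [Set.mem_Ioi]
    linarith [h.1]
  -- pointwise
  have hpt : ∀ s : ℂ, ∀ x ∈ Set.Ioi (0 : ℝ), w x * ((Real.sqrt X * x : ℝ) : ℂ) ^ (s - 1) =
      ((Real.sqrt X : ℝ) : ℂ) ^ (s - 1) * ((x : ℂ) ^ (s - 1) • w x) := by
    intro s x hx
    rw [Set.mem_Ioi] at hx
    rw [Complex.ofReal_mul, Complex.mul_cpow_ofReal_nonneg hY.le hx.le, smul_eq_mul]
    ring
  have hint : ∀ s : ℂ, Integrable (fun x : ℝ => w x * ((Real.sqrt X * x : ℝ) : ℂ) ^ (s - 1)) := by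
    intro s
    have h1 : MellinConvergent w s := mel_conv hc hw0 s
    have h2 : IntegrableOn (fun x : ℝ => w x * ((Real.sqrt X * x : ℝ) : ℂ) ^ (s - 1)) (Set.Ioi 0) := by
      refine IntegrableOn.congr_fun (h1.const_mul (((Real.sqrt X : ℝ) : ℂ) ^ (s - 1))) ?_ measurableSet_Ioi
      intro x hx
      exact (hpt s x hx).symm
    rw [← integrableOn_iff_integrable_of_support_subset (s := Set.Ioi (0 : ℝ))]
    · exact h2
    · intro x hx
      by_contra hx'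
      apply hx
      simp only
      rw [hneg x hx', zero_mul]
  have hval : ∀ s : ℂ, ∫ x : ℝ, w x * ((Real.sqrt X * x : ℝ) : ℂ) ^ (s - 1) =
      ((Real.sqrt X : ℝ) : ℂ) ^ (s - 1) * mellin w s := by
    intro s
    rw [← setIntegral_eq_integral_of_forall_compl_eq_zero (s := Set.Ioi (0 : ℝ))]
    · rw [mellin, ← MeasureTheory.integral_const_mul]
      exact setIntegral_congr_fun measurableSet_Ioi (hpt s)
    · intro x hx
      rw [hneg x hx, zero_mul]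
  have hHH : HH δ X X χ β = ((Real.sqrt X : ℝ) : ℂ) * ((dl χ : ℂ) * (((Real.sqrt X : ℝ) : ℂ) ^ ((1 : ℂ) - 1) * mellin w 1) -
      ∑ ρ ∈ ZR (EF χ) δ X, (mz (EF χ) ρ : ℂ) * (((Real.sqrt X : ℝ) : ℂ) ^ (ρ - 1) * mellin w ρ)) := by
    unfold HH
    congr 1
    have h1 : ∀ x : ℝ, gx δ X X χ x * ee (x * (Real.sqrt X * β)) =
        (dl χ : ℂ) * (w x * ((Real.sqrt X * x : ℝ) : ℂ) ^ ((1 : ℂ) - 1)) -
          ∑ ρ ∈ ZR (EF χ) δ X, (mz (EF χ) ρ : ℂ) * (w x * ((Real.sqrt X * x : ℝ) : ℂ) ^ (ρ - 1)) := by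
      intro x
      unfold gx
      rw [sub_self, Complex.cpow_zero, mul_one]
      have h2 : ∑ ρ ∈ ZR (EF χ) δ X, (mz (EF χ) ρ : ℂ) * (w x * ((Real.sqrt X * x : ℝ) : ℂ) ^ (ρ - 1)) =
          w x * ∑ ρ ∈ ZR (EF χ) δ X, (mz (EF χ) ρ : ℂ) * ((Real.sqrt X * x : ℝ) : ℂ) ^ (ρ - 1) := by
        rw [Finset.mul_sum]
        refine Finset.sum_congr rfl fun ρ _ => ?_
        ring
      rw [h2, hw]
      ring
    simp_rw [h1]
    rw [integral_sub, MeasureTheory.integral_const_mul, hval 1, integral_finsetSum]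
    · congr 1
      refine Finset.sum_congr rfl fun ρ _ => ?_
      rw [MeasureTheory.integral_const_mul, hval ρ]
    · intro ρ _
      exact (hint ρ).const_mul _
    · exact (hint 1).const_mul _
    · exact integrable_finsetSum _ fun ρ _ => (hint ρ).const_mul _
  have hpow : ∀ s : ℂ, ((Real.sqrt X : ℝ) : ℂ) * ((Real.sqrt X : ℝ) : ℂ) ^ (s - 1) = ((Real.sqrt X : ℝ) : ℂ) ^ s := by
    intro s
    rw [Complex.cpow_sub _ _ hY0, Complex.cpow_one]
    field_simp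
  rw [hHH]
  unfold MM
  simp only [Complex.ofReal_zero, zero_mul, sub_zero]
  rw [mul_sub, Finset.mul_sum]
  congr 1
  · rw [← hpow 1]
    ring
  · refine Finset.sum_congr rfl fun ρ _ => ?_
    rw [← hpow ρ]
    ring

theorem FPn_large (K c : ℝ) (hc : 0 < c) : ∃ X₀ : ℝ, ∀ X : ℝ, X₀ ≤ X → K ≤ X ^ c := by
  have h := (tendsto_rpow_atTop hc).eventually (Filter.eventually_ge_atTop K)
  exact Filter.eventually_atTop.1 h

/-- The weight `fP` in terms of the von Mangoldt function. -/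
theorem FPn_fP (X : ℝ) (n : ℕ) : fP X n =
    (ArithmeticFunction.vonMangoldt n : ℂ) * (g0 (n / Real.sqrt X) : ℂ) -
      (Wb58c63.arb_cc n : ℂ) * (g0 (n / Real.sqrt X) : ℂ) := by
  unfold fP Wb58c63.arb_cc
  by_cases h : n.Prime
  · rw [if_pos h, if_pos h, ArithmeticFunction.vonMangoldt_apply_prime h]
    push_cast
    ring
  · rw [if_neg h, if_neg h, sub_self]

/-- The numerical inequality at the end. -/
theorem FPn_end (δ ε₁ C₂ K X : ℝ) (hX : 3 ≤ X) (hε : 0 < ε₁) (hε1 : ε₁ ≤ 1 / 100) (hεδ : ε₁ ≤ δ / 200)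
    (h1 : 12 * C₂ ≤ X ^ (1 / 5 : ℝ)) (h2 : 4800 ≤ X ^ (1 / 5 : ℝ)) (h3 : 3 * K ≤ X ^ (δ / 5)) :
    4 * C₂ * X ^ (1 / 4 : ℝ) + 2 * Real.log X ^ 2 + X ^ ε₁ * (2 * Real.log X ^ 2 +
      K * Real.sqrt X * X ^ (18 * ε₁ - 3 * δ / 8)) ≤ Real.sqrt X * X ^ (-ε₁) := by
  have hX0 : 0 < X := by linarith
  have hX1 : 1 ≤ X := by linarith
  have hlog0 : 0 ≤ Real.log X := Real.log_nonneg hX1
  have hlog : Real.log X ^ 2 ≤ 400 * X ^ (1 / 10 : ℝ) := by
    have h4 := Real.log_le_rpow_div hX0.le (show (0 : ℝ) < 1 / 20 by norm_num)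
    have h5 : Real.log X ≤ 20 * X ^ (1 / 20 : ℝ) := by
      calc Real.log X ≤ X ^ (1 / 20 : ℝ) / (1 / 20) := h4
        _ = 20 * X ^ (1 / 20 : ℝ) := by ring
    calc Real.log X ^ 2 ≤ (20 * X ^ (1 / 20 : ℝ)) ^ 2 := pow_le_pow_left₀ hlog0 h5 2
      _ = 400 * (X ^ (1 / 20 : ℝ) * X ^ (1 / 20 : ℝ)) := by ring
      _ = 400 * X ^ (1 / 10 : ℝ) := by
          rw [← Real.rpow_add hX0]
          norm_num
  have hXe : 1 ≤ X ^ ε₁ := Real.one_le_rpow hX1 hε.le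
  -- a
  have ha : 4 * C₂ * X ^ (1 / 4 : ℝ) ≤ (1 / 3) * (X ^ (1 / 2 : ℝ) * X ^ (-ε₁)) := by
    have e1 : 4 * C₂ * X ^ (1 / 4 : ℝ) ≤ (1 / 3) * (X ^ (1 / 5 : ℝ) * X ^ (1 / 4 : ℝ)) := by
      have : 0 ≤ X ^ (1 / 4 : ℝ) := Real.rpow_nonneg hX0.le _
      nlinarith
    refine e1.trans (mul_le_mul_of_nonneg_left ?_ (by norm_num))
    rw [← Real.rpow_add hX0, ← Real.rpow_add hX0]
    exact Real.rpow_le_rpow_of_exponent_le hX1 (by linarith)
  have hb : 4 * (X ^ ε₁ * Real.log X ^ 2) ≤ (1 / 3) * (X ^ (1 / 2 : ℝ) * X ^ (-ε₁)) := by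
    calc 4 * (X ^ ε₁ * Real.log X ^ 2) ≤ 4 * (X ^ ε₁ * (400 * X ^ (1 / 10 : ℝ))) := by
          gcongr
      _ = (1 / 3) * (4800 * (X ^ ε₁ * X ^ (1 / 10 : ℝ))) := by ring
      _ ≤ (1 / 3) * (X ^ (1 / 5 : ℝ) * (X ^ ε₁ * X ^ (1 / 10 : ℝ))) := by
          gcongr
      _ ≤ (1 / 3) * (X ^ (1 / 2 : ℝ) * X ^ (-ε₁)) := by
          refine mul_le_mul_of_nonneg_left ?_ (by norm_num)
          rw [← Real.rpow_add hX0, ← Real.rpow_add hX0, ← Real.rpow_add hX0]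
          exact Real.rpow_le_rpow_of_exponent_le hX1 (by linarith)
  have hcc : X ^ ε₁ * (K * X ^ (1 / 2 : ℝ) * X ^ (18 * ε₁ - 3 * δ / 8)) ≤
      (1 / 3) * (X ^ (1 / 2 : ℝ) * X ^ (-ε₁)) := by
    calc X ^ ε₁ * (K * X ^ (1 / 2 : ℝ) * X ^ (18 * ε₁ - 3 * δ / 8))
        = (1 / 3) * ((3 * K) * (X ^ ε₁ * X ^ (18 * ε₁ - 3 * δ / 8)) * X ^ (1 / 2 : ℝ)) := by ring
      _ ≤ (1 / 3) * (X ^ (δ / 5) * (X ^ ε₁ * X ^ (18 * ε₁ - 3 * δ / 8)) * X ^ (1 / 2 : ℝ)) := by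
          gcongr
      _ ≤ (1 / 3) * (X ^ (1 / 2 : ℝ) * X ^ (-ε₁)) := by
          refine mul_le_mul_of_nonneg_left ?_ (by norm_num)
          rw [← Real.rpow_add hX0, ← Real.rpow_add hX0, ← Real.rpow_add hX0, ← Real.rpow_add hX0]
          exact Real.rpow_le_rpow_of_exponent_le hX1 (by linarith)
  rw [Real.sqrt_eq_rpow]
  have hd : 2 * Real.log X ^ 2 ≤ 2 * (X ^ ε₁ * Real.log X ^ 2) := by
    nlinarith [sq_nonneg (Real.log X)]
  have he : X ^ ε₁ * (2 * Real.log X ^ 2 + K * X ^ (1 / 2 : ℝ) * X ^ (18 * ε₁ - 3 * δ / 8)) =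
      2 * (X ^ ε₁ * Real.log X ^ 2) + X ^ ε₁ * (K * X ^ (1 / 2 : ℝ) * X ^ (18 * ε₁ - 3 * δ / 8)) := by ring
  rw [he]
  linarith

/-- The number of the powers of two is small. -/
theorem FPn_log (X : ℝ) (hX : 256 ≤ X) : (Nat.log 2 ⌊16 * Real.sqrt X⌋₊ : ℝ) ≤ 2 * Real.log X := by
  have hX0 : 0 < X := by linarith
  have hY : 16 ≤ Real.sqrt X := by
    rw [show (16 : ℝ) = Real.sqrt (16 ^ 2) by rw [Real.sqrt_sq (by norm_num)]]
    exact Real.sqrt_le_sqrt (by norm_num; linarith)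
  have h1 : 16 * Real.sqrt X ≤ X := by
    calc 16 * Real.sqrt X ≤ Real.sqrt X * Real.sqrt X := by nlinarith
      _ = X := Real.mul_self_sqrt hX0.le
  set N := ⌊16 * Real.sqrt X⌋₊ with hN
  have hNX : (N : ℝ) ≤ X := (Nat.floor_le (by positivity)).trans h1
  have hN0 : N ≠ 0 := by
    have : 1 ≤ N := by
      rw [hN, Nat.le_floor_iff (by positivity)]
      push_cast
      linarith
    omega
  have h2 : (2 : ℝ) ^ (Nat.log 2 N) ≤ N := by
    exact_mod_cast Nat.pow_log_le_self 2 hN0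
  have h3 : (Nat.log 2 N : ℝ) * Real.log 2 ≤ Real.log X := by
    rw [← Real.log_pow]
    exact Real.log_le_log (by positivity) (h2.trans hNX)
  have h4 := Real.log_two_gt_d9
  have h5 : (0 : ℝ) ≤ (Nat.log 2 N : ℝ) := by positivity
  nlinarith

/-- The numbers not coprime to `q` are negligible. -/
theorem FPn_nc (X : ℝ) (hX : 256 ≤ X) (q : ℕ) (hq : 1 ≤ q) (hqX : (q : ℝ) ≤ X) (G : ℕ → ℂ)
    (hG : ∀ n, ‖G n‖ ≤ ArithmeticFunction.vonMangoldt n) :
    ‖∑ n ∈ (Icc 1 ⌊16 * Real.sqrt X⌋₊).filter (fun n => ¬ n.Coprime q), G n‖ ≤ 2 * Real.log X ^ 2 := by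
  refine (norm_sum_le_of_le _ fun n _ => hG n).trans ?_
  refine (FPn_noncop q _ hq).trans ?_
  have h1 := FPn_log X hX
  have h2 : Real.log q ≤ Real.log X := Real.log_le_log (by exact_mod_cast hq) hqX
  have h3 : 0 ≤ Real.log q := Real.log_nonneg (by exact_mod_cast hq)
  calc (Nat.log 2 ⌊16 * Real.sqrt X⌋₊ : ℝ) * Real.log q ≤ (2 * Real.log X) * Real.log X :=
        mul_le_mul h1 h2 h3 (by linarith)
    _ = 2 * Real.log X ^ 2 := by ring

theorem FPn_F_norm (X β : ℝ) (n : ℕ) :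
    ‖(ArithmeticFunction.vonMangoldt n : ℂ) * (g0 (n / Real.sqrt X) : ℂ) * ee (n * β)‖ ≤
      ArithmeticFunction.vonMangoldt n := by
  have h0 : 0 ≤ ArithmeticFunction.vonMangoldt n := ArithmeticFunction.vonMangoldt_nonneg
  have h1 := g0_facts.1 (n / Real.sqrt X)
  rw [norm_mul, norm_mul, Wb58c63.norm_ee, mul_one, Complex.norm_real, Complex.norm_real,
    Real.norm_of_nonneg h0, Real.norm_of_nonneg h1.1]
  exact mul_le_of_le_one_right h0 h1.2

/-- One character: the sum over the numbers coprime to `q`. -/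
theorem FPn_one (δ X C A ε₁ : ℝ) (J : ℕ) (hX : 256 ≤ X) (hC : 0 ≤ C) (hA : 0 ≤ A) (hε : 0 ≤ ε₁) (hε1 : ε₁ ≤ 1 / 2) (hδ : 0 ≤ δ)
    (q r : ℕ) (hq : 1 ≤ q) (hqX : (q : ℝ) ≤ X) (hA0 : IsW J A 1 (fun x => (g0 x : ℂ)))
    (χ : DirichletCharacter ℂ r) (β : ℝ) (hβ : |β| ≤ X ^ (6 * ε₁) / (q * Real.sqrt X))
    (hex : ∀ (A' B' : ℝ) (w : ℝ → ℂ), 1 ≤ B' → IsW J A' B' w → ∀ Z : ℝ, 4 ≤ Z → Z ≤ X ^ 2 →
      ∀ t : ℝ, |t| ≤ X / 4 → ‖DS χ w Z t - MM δ X χ w Z t‖ ≤ C * A' * B' ^ 3 * Z ^ (1 - δ) * X ^ (δ / 8)) :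
    ‖∑ n ∈ (Icc 1 ⌊16 * Real.sqrt X⌋₊).filter (fun n => n.Coprime q),
        ((ArithmeticFunction.vonMangoldt n : ℂ) * (g0 (n / Real.sqrt X) : ℂ) * ee (n * β)) * χ (n : ZMod r) -
      HH δ X X χ β‖ ≤ 2 * Real.log X ^ 2 + 512 * C * A * Real.sqrt X * X ^ (18 * ε₁ - 3 * δ / 8) := by
  have hX0 : 0 < X := by linarith
  have hX1 : 1 ≤ X := by linarith
  have hq0 : (0 : ℝ) < q := by exact_mod_cast hq
  have hq1 : (1 : ℝ) ≤ q := by exact_mod_cast hq
  have hY0 : 0 < Real.sqrt X := Real.sqrt_pos.2 hX0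
  have hY : 16 ≤ Real.sqrt X := by
    rw [show (16 : ℝ) = Real.sqrt (16 ^ 2) by rw [Real.sqrt_sq (by norm_num)]]
    exact Real.sqrt_le_sqrt (by norm_num; linarith)
  have hYX : Real.sqrt X ≤ X ^ 2 := by
    have h1 : Real.sqrt X * Real.sqrt X = X := Real.mul_self_sqrt hX0.le
    nlinarith
  have hw := isW_ee hA0 zero_le_one (Real.sqrt X * β)
  set B : ℝ := 1 + 2 * Real.pi * |Real.sqrt X * β| with hB
  have hB1 : 1 ≤ B := by
    rw [hB]
    have : 0 ≤ 2 * Real.pi * |Real.sqrt X * β| := by positivity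
    linarith
  have hXe : 1 ≤ X ^ (6 * ε₁) := Real.one_le_rpow hX1 (by linarith)
  have hB2 : B ≤ 8 * X ^ (6 * ε₁) := by
    have h1 : |Real.sqrt X * β| ≤ X ^ (6 * ε₁) := by
      rw [abs_mul, abs_of_pos hY0]
      calc Real.sqrt X * |β| ≤ Real.sqrt X * (X ^ (6 * ε₁) / (q * Real.sqrt X)) :=
            mul_le_mul_of_nonneg_left hβ hY0.le
        _ = X ^ (6 * ε₁) / q := by
            field_simp
        _ ≤ X ^ (6 * ε₁) := div_le_self (by linarith) hq1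
    have h2 := Real.pi_lt_d2
    have h3 := Real.pi_pos
    have h4 : 2 * Real.pi * |Real.sqrt X * β| ≤ 7 * X ^ (6 * ε₁) := by
      refine mul_le_mul (by linarith) h1 (abs_nonneg _) (by norm_num)
    rw [hB]
    linarith
  have hB3 : B ^ 3 ≤ 512 * X ^ (18 * ε₁) := by
    calc B ^ 3 ≤ (8 * X ^ (6 * ε₁)) ^ 3 := pow_le_pow_left₀ (by linarith) hB2 3
      _ = 512 * (X ^ (6 * ε₁) * X ^ (6 * ε₁) * X ^ (6 * ε₁)) := by ring
      _ = 512 * X ^ (18 * ε₁) := by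
          rw [← Real.rpow_add hX0, ← Real.rpow_add hX0]
          congr 2
          ring
  have h1 := hex A B _ hB1 hw (Real.sqrt X) (by linarith) hYX 0 (by rw [abs_zero]; linarith)
  rw [FPn_MM δ X hX0 χ β hw.1.continuous] at h1
  have h2 : C * A * B ^ 3 * Real.sqrt X ^ (1 - δ) * X ^ (δ / 8) ≤
      512 * C * A * Real.sqrt X * X ^ (18 * ε₁ - 3 * δ / 8) := by
    have e1 : Real.sqrt X ^ (1 - δ) * X ^ (δ / 8) = Real.sqrt X * X ^ (-(3 * δ / 8)) := by
      rw [Real.sqrt_eq_rpow, ← Real.rpow_mul hX0.le, ← Real.rpow_add hX0, ← Real.rpow_add hX0]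
      congr 1
      ring
    have e2 : 0 ≤ Real.sqrt X * X ^ (-(3 * δ / 8)) := by positivity
    calc C * A * B ^ 3 * Real.sqrt X ^ (1 - δ) * X ^ (δ / 8)
        = C * A * B ^ 3 * (Real.sqrt X ^ (1 - δ) * X ^ (δ / 8)) := by ring
      _ = C * A * B ^ 3 * (Real.sqrt X * X ^ (-(3 * δ / 8))) := by rw [e1]
      _ ≤ C * A * (512 * X ^ (18 * ε₁)) * (Real.sqrt X * X ^ (-(3 * δ / 8))) := by
          refine mul_le_mul_of_nonneg_right (mul_le_mul_of_nonneg_left hB3 (by positivity)) e2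
      _ = 512 * C * A * Real.sqrt X * (X ^ (18 * ε₁) * X ^ (-(3 * δ / 8))) := by ring
      _ = 512 * C * A * Real.sqrt X * X ^ (18 * ε₁ - 3 * δ / 8) := by
          rw [← Real.rpow_add hX0, ← sub_eq_add_neg]
  have h3 := FPn_nc X hX q hq hqX
    (fun n => ((ArithmeticFunction.vonMangoldt n : ℂ) * (g0 (n / Real.sqrt X) : ℂ) * ee (n * β)) * χ (n : ZMod r))
    (fun n => by
      rw [norm_mul]
      exact (mul_le_of_le_one_right (norm_nonneg _) (DirichletCharacter.norm_le_one χ _)).trans (FPn_F_norm X β n))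
  have h4 : DS χ (fun x => (g0 x : ℂ) * ee (x * (Real.sqrt X * β))) (Real.sqrt X) 0 =
      ∑ n ∈ Icc 1 ⌊16 * Real.sqrt X⌋₊,
        ((ArithmeticFunction.vonMangoldt n : ℂ) * (g0 (n / Real.sqrt X) : ℂ) * ee (n * β)) * χ (n : ZMod r) := by
    unfold DS
    refine Finset.sum_congr rfl fun n _ => ?_
    have e1 : (n : ℝ) / Real.sqrt X * (Real.sqrt X * β) = n * β := by
      field_simp
    simp only
    rw [e1, Complex.ofReal_zero, zero_mul, neg_zero, Complex.cpow_zero]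
    ring
  rw [h4, ← Finset.sum_filter_add_sum_filter_not (Icc 1 ⌊16 * Real.sqrt X⌋₊) (fun n => n.Coprime q)] at h1
  set S1 := ∑ n ∈ (Icc 1 ⌊16 * Real.sqrt X⌋₊).filter (fun n => n.Coprime q),
    ((ArithmeticFunction.vonMangoldt n : ℂ) * (g0 (n / Real.sqrt X) : ℂ) * ee (n * β)) * χ (n : ZMod r) with hS1
  set S2 := ∑ n ∈ (Icc 1 ⌊16 * Real.sqrt X⌋₊).filter (fun n => ¬ n.Coprime q),
    ((ArithmeticFunction.vonMangoldt n : ℂ) * (g0 (n / Real.sqrt X) : ℂ) * ee (n * β)) * χ (n : ZMod r) with hS2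
  have h5 : S1 - HH δ X X χ β = (S1 + S2 - HH δ X X χ β) - S2 := by ring
  rw [h5]
  refine (norm_sub_le _ _).trans ?_
  linarith

/-- **The small prime near a rational number.**

Proof. `κ₁` and `ε₁'` from `smooth_explicit` (called `κ₁, ε₁` there); `ε₂ = min (δ / 200) (ε₁' / 2)`; `Y = √X`, `w x = g0 x ee (x Y β)`, `IsW J A₀ (1 + 2 π Y |β|)`, `Y |β| ≤ X ^ (6 ε₁)`, `ε₄ = δ / 8`.
(1) Replace `fP X n` by `Λ(n) g0 (n / Y)` restricted to `(n, q) = 1`: the error is at most `C √Y` (proper prime powers up to `4 Y`, `arb_D_le` in `W_b58c63_h68/ArB.lean`) plus `∑_{p ∣ q} ∑_{p ^ k ≤ 4 Y} log p ≤ 2 log q log (4 Y)`.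
(2) `fP_chars` with `f n = Λ(n) g0 (n / Y) ee (n β)`, `N = ⌊16 Y⌋₊`.
(3) For each `χ` the sum over `n` without the condition `(n, q) = 1` is `DS χ w Y 0`; the difference is at most `2 log q log (4 Y)`.
(4) `smooth_explicit` with `Z = Y`, `t = 0`: `DS χ w Y 0 = MM δ X χ w Y 0 + O(C A₀ B ^ 3 Y ^ (1 - δ) X ^ ε₄)`, and `MM δ X χ w Y 0 = HH δ X X χ β`: `Y ^ ρ mellin w ρ = √X ∫ g0 x (√X x) ^ (ρ - 1) ee (x Y β) dx`.
(5) The sum of all the coefficients: `∑_{r ∣ q} ∑_χ ‖GSum‖ / φ(q) ≤ √q` (`GSum_norm`, there are `φ(q)` characters modulo `q`), so the total error is at most `X ^ ε₁ C (X ^ (18 ε₁ - δ/2 + δ/8) √X + log X ^ 2) + C X ^ (1/4)`, at most `√X X ^ (-ε₁)` for large `X` as `20 ε₁ ≤ δ / 10`. -/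
theorem fP_near [SEI] : ∃ κ₁ : ℝ, 0 < κ₁ ∧ κ₁ ≤ 1 / 16 ∧ ∀ δ : ℝ, 0 < δ → δ ≤ κ₁ → ∃ ε₂ : ℝ, 0 < ε₂ ∧ ε₂ ≤ 1 / 100 ∧ ∀ ε₁ : ℝ, 0 < ε₁ → ε₁ ≤ ε₂ → ∃ X₀ : ℝ, 3 ≤ X₀ ∧
    ∀ X : ℝ, X₀ ≤ X → ∀ q : ℕ, 1 ≤ q → (q : ℝ) ≤ X ^ (2 * ε₁) → ∀ a : ℤ, Int.gcd a q = 1 → ∀ β : ℝ, |β| ≤ X ^ (6 * ε₁) / (q * Real.sqrt X) →
    ‖∑ n ∈ Icc 1 ⌊16 * Real.sqrt X⌋₊, fP X n * ee (n * ((a : ℝ) / q + β)) -
      ∑ r ∈ q.divisors, ∑ χ ∈ prim r, (1 / (q.totient : ℂ)) * GSum χ q a * HH δ X X χ β‖ ≤ Real.sqrt X * X ^ (-ε₁) := by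
  obtain ⟨κ₁, ε₁', hκ, hκ1, hε', _, hexp⟩ := SEI.smooth_explicit
  obtain ⟨C₂, hC₂, hD⟩ := Wb58c63.arb_D_le
  refine ⟨κ₁, hκ, hκ1, fun δ hδ hδκ => ?_⟩
  refine ⟨min (δ / 200) (min (ε₁' / 2) (1 / 100)), lt_min (by linarith) (lt_min (by linarith) (by norm_num)),
    (min_le_right _ _).trans (min_le_right _ _), fun ε₁ hε hε2 => ?_⟩
  have hεδ : ε₁ ≤ δ / 200 := hε2.trans (min_le_left _ _)
  have hεε : ε₁ ≤ ε₁' / 2 := hε2.trans ((min_le_right _ _).trans (min_le_left _ _))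
  have hε1 : ε₁ ≤ 1 / 100 := hε2.trans ((min_le_right _ _).trans (min_le_right _ _))
  obtain ⟨J, C, X₁, _, hC, hX₁, hex⟩ := hexp δ hδ hδκ (δ / 8) (by linarith) (by linarith)
  obtain ⟨A, hA, _, _, hA0, _⟩ := isW_fixed J
  obtain ⟨Xa, hXa⟩ := FPn_large (12 * C₂) (1 / 5) (by norm_num)
  obtain ⟨Xb, hXb⟩ := FPn_large 4800 (1 / 5) (by norm_num)
  obtain ⟨Xc, hXc⟩ := FPn_large (3 * (512 * C * A)) (δ / 5) (by linarith)
  refine ⟨max X₁ (max Xa (max Xb (max Xc 256))), hX₁.trans (le_max_left _ _), ?_⟩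
  intro X hX q hq hqX a ha β hβ
  have h1 : X₁ ≤ X := (le_max_left _ _).trans hX
  have h2 : Xa ≤ X := ((le_max_left _ _).trans (le_max_right _ _)).trans hX
  have h3 : Xb ≤ X := ((le_max_left _ _).trans ((le_max_right _ _).trans (le_max_right _ _))).trans hX
  have h4 : Xc ≤ X :=
    ((le_max_left _ _).trans ((le_max_right _ _).trans ((le_max_right _ _).trans (le_max_right _ _)))).trans hX
  have h5 : (256 : ℝ) ≤ X :=
    ((le_max_right _ _).trans ((le_max_right _ _).trans ((le_max_right _ _).trans (le_max_right _ _)))).trans hX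
  have hX0 : 0 < X := by linarith
  have hX1 : 1 ≤ X := by linarith
  have hqX' : (q : ℝ) ≤ X := by
    refine hqX.trans ?_
    calc X ^ (2 * ε₁) ≤ X ^ (1 : ℝ) := Real.rpow_le_rpow_of_exponent_le hX1 (by linarith)
      _ = X := Real.rpow_one X
  refine le_trans ?_ (FPn_end δ ε₁ C₂ (512 * C * A) X (by linarith) hε hε1 hεδ (hXa X h2) (hXb X h3) (hXc X h4))
  set N := ⌊16 * Real.sqrt X⌋₊ with hN
  set F : ℕ → ℂ := fun n => (ArithmeticFunction.vonMangoldt n : ℂ) * (g0 (n / Real.sqrt X) : ℂ) * ee (n * β) with hF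
  have hq0 : (0 : ℝ) < q := by exact_mod_cast hq
  have hφ : (0 : ℝ) < q.totient := by exact_mod_cast Nat.totient_pos.2 (by omega : 0 < q)
  -- (1) the reduction to the numbers coprime to `q`
  have hstep1 : ∑ n ∈ Icc 1 N, fP X n * ee (n * ((a : ℝ) / q + β)) =
      ∑ n ∈ (Icc 1 N).filter (fun n => n.Coprime q), F n * ee (n * ((a : ℝ) / q)) +
      ∑ n ∈ (Icc 1 N).filter (fun n => ¬ n.Coprime q), F n * ee (n * ((a : ℝ) / q)) -
      ∑ n ∈ Icc 1 N, (Wb58c63.arb_cc n : ℂ) * (g0 (n / Real.sqrt X) : ℂ) * ee (n * ((a : ℝ) / q + β)) := by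
    rw [Finset.sum_filter_add_sum_filter_not, ← Finset.sum_sub_distrib]
    refine Finset.sum_congr rfl fun n _ => ?_
    rw [FPn_fP, hF]
    simp only
    rw [mul_add, Wb58c63.ee_add]
    ring
  have hb1 : ‖∑ n ∈ (Icc 1 N).filter (fun n => ¬ n.Coprime q), F n * ee (n * ((a : ℝ) / q))‖ ≤
      2 * Real.log X ^ 2 := by
    refine FPn_nc X h5 q hq hqX' (fun n => F n * ee (n * ((a : ℝ) / q))) fun n => ?_
    rw [norm_mul, Wb58c63.norm_ee, mul_one]
    exact FPn_F_norm X β n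
  have hb2 : ‖∑ n ∈ Icc 1 N, (Wb58c63.arb_cc n : ℂ) * (g0 (n / Real.sqrt X) : ℂ) * ee (n * ((a : ℝ) / q + β))‖ ≤
      4 * C₂ * X ^ (1 / 4 : ℝ) := by
    have g1 : ∀ n ∈ Icc 1 N, ‖(Wb58c63.arb_cc n : ℂ) * (g0 (n / Real.sqrt X) : ℂ) * ee (n * ((a : ℝ) / q + β))‖ ≤
        Wb58c63.arb_cc n := by
      intro n _
      have h1 := g0_facts.1 (n / Real.sqrt X)
      rw [norm_mul, norm_mul, Wb58c63.norm_ee, mul_one, Complex.norm_real, Complex.norm_real,
        Real.norm_of_nonneg (Wb58c63.arb_cc_nonneg n), Real.norm_of_nonneg h1.1]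
      exact mul_le_of_le_one_right (Wb58c63.arb_cc_nonneg n) h1.2
    refine (norm_sum_le_of_le _ g1).trans ((hD N).trans ?_)
    have g2 : Real.sqrt N ≤ 4 * X ^ (1 / 4 : ℝ) := by
      calc Real.sqrt N ≤ Real.sqrt (16 * Real.sqrt X) :=
            Real.sqrt_le_sqrt (Nat.floor_le (by positivity))
        _ = 4 * X ^ (1 / 4 : ℝ) := by
            rw [Real.sqrt_mul (by norm_num), show (16 : ℝ) = 4 ^ 2 by norm_num, Real.sqrt_sq (by norm_num),
              Real.sqrt_eq_rpow, Real.sqrt_eq_rpow, ← Real.rpow_mul hX0.le]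
            norm_num
    calc C₂ * Real.sqrt N ≤ C₂ * (4 * X ^ (1 / 4 : ℝ)) := mul_le_mul_of_nonneg_left g2 hC₂
      _ = 4 * C₂ * X ^ (1 / 4 : ℝ) := by ring
  -- (2) the characters
  have hb3 : ‖∑ n ∈ (Icc 1 N).filter (fun n => n.Coprime q), F n * ee (n * ((a : ℝ) / q)) -
      ∑ r ∈ q.divisors, ∑ χ ∈ prim r, (1 / (q.totient : ℂ)) * GSum χ q a * HH δ X X χ β‖ ≤
      X ^ ε₁ * (2 * Real.log X ^ 2 + 512 * C * A * Real.sqrt X * X ^ (18 * ε₁ - 3 * δ / 8)) := by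
    set E : ℝ := 2 * Real.log X ^ 2 + 512 * C * A * Real.sqrt X * X ^ (18 * ε₁ - 3 * δ / 8) with hE
    have hE0 : 0 ≤ E := by positivity
    rw [fP_chars q hq a N F, ← Finset.sum_sub_distrib]
    have e1 : ∀ r ∈ q.divisors, ‖∑ χ ∈ prim r, (1 / (q.totient : ℂ)) * GSum χ q a *
        (∑ n ∈ (Icc 1 N).filter (fun n => n.Coprime q), F n * χ (n : ZMod r)) -
        ∑ χ ∈ prim r, (1 / (q.totient : ℂ)) * GSum χ q a * HH δ X X χ β‖ ≤
          ((prim r).card : ℝ) * (1 / (q.totient : ℝ) * X ^ ε₁ * E) := by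
      intro r hr
      have hrq : r ∣ q := Nat.dvd_of_mem_divisors hr
      have hr1 : 1 ≤ r := Nat.pos_of_dvd_of_pos hrq (by omega)
      have hrle : (r : ℝ) ≤ q := by exact_mod_cast Nat.le_of_dvd (by omega) hrq
      have : NeZero r := ⟨by omega⟩
      rw [← Finset.sum_sub_distrib, ← nsmul_eq_mul]
      refine (norm_sum_le _ _).trans (Finset.sum_le_card_nsmul _ _ _ fun χ hχ => ?_)
      rw [← mul_sub, norm_mul, norm_mul, norm_div, norm_one, Complex.norm_natCast]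
      have hχp : χ.IsPrimitive := by
        simpa [prim] using hχ
      have g1 : ‖GSum χ q a‖ ≤ X ^ ε₁ := by
        refine (GSum_norm r q χ hχp hq hrq a ha).trans ?_
        calc Real.sqrt r ≤ Real.sqrt (X ^ (2 * ε₁)) := Real.sqrt_le_sqrt (hrle.trans hqX)
          _ = X ^ ε₁ := by
            rw [mul_comm, Real.rpow_mul hX0.le, show (2 : ℝ) = ((2 : ℕ) : ℝ) by norm_num, Real.rpow_natCast,
              Real.sqrt_sq (Real.rpow_nonneg hX0.le _)]
      have g2 := FPn_one δ X C A ε₁ J h5 (by linarith) (by linarith) hε.le (by linarith) hδ.le q r hq hqX' hA0 χ β hβ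
        (hex X h1 r (by
          refine hrle.trans (hqX.trans (Real.rpow_le_rpow_of_exponent_le hX1 (by linarith)))) χ)
      have g3 : 0 ≤ 1 / (q.totient : ℝ) := by positivity
      exact mul_le_mul (mul_le_mul_of_nonneg_left g1 g3) g2 (norm_nonneg _) (by positivity)
    refine (norm_sum_le_of_le _ e1).trans ?_
    rw [← Finset.sum_mul, FPn_card q hq]
    apply le_of_eq
    field_simp
  rw [hstep1]
  have e2 : ∀ a b c d : ℂ, a + b - c - d = (a - d) + b - c := fun a b c d => by ring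
  rw [e2]
  refine (norm_sub_le _ _).trans ?_
  refine (add_le_add (norm_add_le _ _) le_rfl).trans ?_
  linarith

end Pool.Agent.PSG
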