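import Pool.Agent.W_b58c63_h44.VNa
import Pool.Agent.W_b58c63_h44.Dg
import Pool.Agent.W_b58c63_h68.ArB

/-!
# The bound of Vinogradov
-/

set_option autoImplicit false

noncomputable section

open Finset Complex ArithmeticFunction

namespace Pool.Agent.PSG

open Pool.Agent.Wb58c63 (ee dn vc vb)

theorem VNb_exch (N : ℕ) (G : ℕ × ℕ → ℂ) :
    ∑ n ∈ Icc 1 N, ∑ x ∈ n.divisorsAntidiagonal, G x =
      ∑ m ∈ Icc 1 N, ∑ d ∈ Icc 1 (N / m), G (m, d) := by
  rw [Finset.sum_sigma', Finset.sum_sigma']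
  refine Finset.sum_bij' (fun x _ => ⟨x.2.1, x.2.2⟩) (fun y _ => ⟨y.1 * y.2, (y.1, y.2)⟩) ?_ ?_ ?_ ?_ ?_
  · rintro ⟨n, a, b⟩ h
    simp only [Finset.mem_sigma, Finset.mem_Icc, Nat.mem_divisorsAntidiagonal] at h ⊢
    obtain ⟨⟨h1, h2⟩, h3, h4⟩ := h
    have ha : 1 ≤ a := by
      rcases Nat.eq_zero_or_pos a with h | h
      · subst h; omega
      · exact h
    have hb : 1 ≤ b := by
      rcases Nat.eq_zero_or_pos b with h | h
      · subst h; omega
      · exact h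
    refine ⟨⟨ha, ?_⟩, hb, ?_⟩
    · exact (Nat.le_mul_of_pos_right a hb).trans (h3 ▸ h2)
    · rw [Nat.le_div_iff_mul_le ha, mul_comm]
      exact h3 ▸ h2
  · rintro ⟨a, b⟩ h
    simp only [Finset.mem_sigma, Finset.mem_Icc, Nat.mem_divisorsAntidiagonal] at h ⊢
    obtain ⟨⟨h1, h2⟩, h3, h4⟩ := h
    rw [Nat.le_div_iff_mul_le h1, mul_comm] at h4
    have h5 : 1 ≤ a * b := Nat.mul_pos h1 h3
    exact ⟨⟨h5, h4⟩, trivial, by omega⟩
  · rintro ⟨n, a, b⟩ h
    simp only [Finset.mem_sigma, Finset.mem_Icc, Nat.mem_divisorsAntidiagonal] at h ⊢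
    obtain ⟨_, h3, _⟩ := h
    subst h3
    rfl
  · rintro ⟨a, b⟩ h
    rfl
  · rintro ⟨n, a, b⟩ h
    rfl

theorem VNb_A (U N : ℕ) (hU : U ≤ N) (α : ℝ) :
    ∑ n ∈ Icc 1 N, ((∑ x ∈ n.divisorsAntidiagonal.filter (fun x => x.1 ≤ U),
      (moebius x.1 : ℝ) * Real.log x.2 : ℝ) : ℂ) * ee (n * α) =
    ∑ j ∈ Icc 1 U, ((moebius j : ℝ) : ℂ) *
      ∑ h ∈ Icc 1 (N / j), (Real.log h : ℂ) * ee ((j * h : ℕ) * α) := by
  have e1 : ∑ n ∈ Icc 1 N, ((∑ x ∈ n.divisorsAntidiagonal.filter (fun x => x.1 ≤ U),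
      (moebius x.1 : ℝ) * Real.log x.2 : ℝ) : ℂ) * ee (n * α) =
      ∑ n ∈ Icc 1 N, ∑ x ∈ n.divisorsAntidiagonal, (if x.1 ≤ U then
        ((moebius x.1 : ℝ) : ℂ) * ((Real.log x.2 : ℂ) * ee ((x.1 * x.2 : ℕ) * α)) else 0) := by
    refine Finset.sum_congr rfl (fun n _ => ?_)
    rw [Finset.sum_filter, Complex.ofReal_sum, Finset.sum_mul]
    refine Finset.sum_congr rfl (fun x hx => ?_)
    rw [(Nat.mem_divisorsAntidiagonal.1 hx).1]
    split_ifs
    · push_cast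
      ring
    · simp
  rw [e1, VNb_exch N (fun x => if x.1 ≤ U then
        ((moebius x.1 : ℝ) : ℂ) * ((Real.log x.2 : ℂ) * ee ((x.1 * x.2 : ℕ) * α)) else 0)]
  symm
  have e2 : ∑ j ∈ Icc 1 U, ((moebius j : ℝ) : ℂ) *
      ∑ h ∈ Icc 1 (N / j), (Real.log h : ℂ) * ee ((j * h : ℕ) * α) =
      ∑ j ∈ Icc 1 U, ∑ h ∈ Icc 1 (N / j), (if j ≤ U then
        ((moebius j : ℝ) : ℂ) * ((Real.log h : ℂ) * ee ((j * h : ℕ) * α)) else 0) := by
    refine Finset.sum_congr rfl (fun j hj => ?_)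
    rw [Finset.mul_sum]
    refine Finset.sum_congr rfl (fun h _ => ?_)
    rw [if_pos (Finset.mem_Icc.1 hj).2]
  rw [e2]
  refine Finset.sum_subset (Finset.Icc_subset_Icc_right hU) (fun j hj hj' => ?_)
  refine Finset.sum_eq_zero (fun h _ => ?_)
  rw [if_neg]
  intro h1
  exact hj' (Finset.mem_Icc.2 ⟨(Finset.mem_Icc.1 hj).1, h1⟩)

theorem VNb_B (U N : ℕ) (hU : U ^ 2 ≤ N) (α : ℝ) :
    ∑ n ∈ Icc 1 N, ((∑ x ∈ n.divisorsAntidiagonal, vc U x.1 : ℝ) : ℂ) * ee (n * α) =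
    ∑ j ∈ Icc 1 (U ^ 2), (vc U j : ℂ) * ∑ h ∈ Icc 1 (N / j), ee ((j * h : ℕ) * α) := by
  have e1 : ∑ n ∈ Icc 1 N, ((∑ x ∈ n.divisorsAntidiagonal, vc U x.1 : ℝ) : ℂ) * ee (n * α) =
      ∑ n ∈ Icc 1 N, ∑ x ∈ n.divisorsAntidiagonal, (vc U x.1 : ℂ) * ee ((x.1 * x.2 : ℕ) * α) := by
    refine Finset.sum_congr rfl (fun n _ => ?_)
    rw [Complex.ofReal_sum, Finset.sum_mul]
    refine Finset.sum_congr rfl (fun x hx => ?_)
    rw [(Nat.mem_divisorsAntidiagonal.1 hx).1]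
  rw [e1, VNb_exch N (fun x => (vc U x.1 : ℂ) * ee ((x.1 * x.2 : ℕ) * α))]
  symm
  have e2 : ∑ j ∈ Icc 1 (U ^ 2), (vc U j : ℂ) * ∑ h ∈ Icc 1 (N / j), ee ((j * h : ℕ) * α) =
      ∑ j ∈ Icc 1 (U ^ 2), ∑ h ∈ Icc 1 (N / j), (vc U j : ℂ) * ee ((j * h : ℕ) * α) := by
    refine Finset.sum_congr rfl (fun j hj => ?_)
    rw [Finset.mul_sum]
  rw [e2]
  refine Finset.sum_subset (Finset.Icc_subset_Icc_right hU) (fun j hj hj' => ?_)
  refine Finset.sum_eq_zero (fun h _ => ?_)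
  rw [Pool.Agent.Wb58c63.Vau_vc_zero U j, Complex.ofReal_zero, zero_mul]
  by_contra h1
  exact hj' (Finset.mem_Icc.2 ⟨(Finset.mem_Icc.1 hj).1, not_lt.1 h1⟩)

theorem VNb_C (U N : ℕ) (α : ℝ) :
    ∑ n ∈ Icc 1 N, ((∑ x ∈ n.divisorsAntidiagonal.filter (fun x => U < x.1 ∧ U < x.2),
        vonMangoldt x.1 * vb U x.2 : ℝ) : ℂ) * ee (n * α) =
    ∑ k ∈ Ioc U N, (vonMangoldt k : ℂ) *
      ∑ m ∈ Icc 1 (N / k), (vb U m : ℂ) * ee ((k * m : ℕ) * α) := by
  have e1 : ∑ n ∈ Icc 1 N, ((∑ x ∈ n.divisorsAntidiagonal.filter (fun x => U < x.1 ∧ U < x.2),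
        vonMangoldt x.1 * vb U x.2 : ℝ) : ℂ) * ee (n * α) =
      ∑ n ∈ Icc 1 N, ∑ x ∈ n.divisorsAntidiagonal, (if U < x.1 then
        (vonMangoldt x.1 : ℂ) * ((vb U x.2 : ℂ) * ee ((x.1 * x.2 : ℕ) * α)) else 0) := by
    refine Finset.sum_congr rfl (fun n _ => ?_)
    rw [Finset.sum_filter, Complex.ofReal_sum, Finset.sum_mul]
    refine Finset.sum_congr rfl (fun x hx => ?_)
    rw [(Nat.mem_divisorsAntidiagonal.1 hx).1]
    by_cases h1 : U < x.1
    · by_cases h2 : U < x.2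
      · rw [if_pos ⟨h1, h2⟩, if_pos h1]
        push_cast
        ring
      · rw [if_neg (fun h => h2 h.2), if_pos h1, Pool.Agent.Wb58c63.Vau_vb_zero U x.2 (not_lt.1 h2)]
        simp
    · rw [if_neg (fun h => h1 h.1), if_neg h1]
      simp
  rw [e1, VNb_exch N (fun x => if U < x.1 then
        (vonMangoldt x.1 : ℂ) * ((vb U x.2 : ℂ) * ee ((x.1 * x.2 : ℕ) * α)) else 0)]
  symm
  have e2 : ∑ k ∈ Ioc U N, (vonMangoldt k : ℂ) *
      ∑ m ∈ Icc 1 (N / k), (vb U m : ℂ) * ee ((k * m : ℕ) * α) =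
      ∑ k ∈ Ioc U N, ∑ m ∈ Icc 1 (N / k), (if U < k then
        (vonMangoldt k : ℂ) * ((vb U m : ℂ) * ee ((k * m : ℕ) * α)) else 0) := by
    refine Finset.sum_congr rfl (fun j hj => ?_)
    rw [Finset.mul_sum]
    refine Finset.sum_congr rfl (fun h _ => ?_)
    rw [if_pos (Finset.mem_Ioc.1 hj).1]
  rw [e2]
  refine Finset.sum_subset (fun k hk => ?_) (fun k hk hk' => ?_)
  · have := Finset.mem_Ioc.1 hk
    exact Finset.mem_Icc.2 ⟨by omega, this.2⟩
  · refine Finset.sum_eq_zero (fun h _ => ?_)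
    rw [if_neg]
    intro h1
    exact hk' (Finset.mem_Ioc.2 ⟨h1, (Finset.mem_Icc.1 hk).2⟩)

/-- dyadic decomposition -/
theorem VNb_dy (T : ℕ → ℂ) (U I : ℕ) (E : ℝ)
    (hT : ∀ i < I, ‖∑ k ∈ Ioc (2 ^ i * U) (2 * (2 ^ i * U)), T k‖ ≤ E) :
    ‖∑ k ∈ Ioc U (2 ^ I * U), T k‖ ≤ I * E := by
  induction I with
  | zero => simp
  | succ I ih =>
    have h1 : ∑ k ∈ Ioc U (2 ^ (I + 1) * U), T k =
        ∑ k ∈ Ioc U (2 ^ I * U), T k + ∑ k ∈ Ioc (2 ^ I * U) (2 * (2 ^ I * U)), T k := by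
      rw [show 2 ^ (I + 1) * U = 2 * (2 ^ I * U) by ring]
      rw [← Finset.sum_union]
      · congr 1
        rw [Finset.Ioc_union_Ioc_eq_Ioc]
        · exact Nat.le_mul_of_pos_left U (by positivity)
        · omega
      · rw [Finset.disjoint_left]
        intro x hx hx'
        have h1 := (Finset.mem_Ioc.1 hx).2
        have h2 := (Finset.mem_Ioc.1 hx').1
        omega
    rw [h1]
    refine (norm_add_le _ _).trans ?_
    have h2 := ih (fun i hi => hT i (by omega))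
    have h3 := hT I (by omega)
    push_cast
    linarith

theorem VNb_divs (n : ℕ) : (n.divisorsAntidiagonal.card : ℝ) ≤ n := by
  have h1 : n.divisorsAntidiagonal.card = n.divisors.card := by
    rw [← Nat.map_div_right_divisors, Finset.card_map]
  rw [h1]
  exact_mod_cast Nat.card_divisors_le_self n

theorem VNb_R (U n : ℕ) (L : ℝ) (hn1 : 1 ≤ n) (hn : n ≤ U) (hL : Real.log n ≤ L) :
    |vonMangoldt n -
      (∑ x ∈ n.divisorsAntidiagonal.filter (fun x => x.1 ≤ U), (moebius x.1 : ℝ) * Real.log x.2 -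
      ∑ x ∈ n.divisorsAntidiagonal, vc U x.1 +
      ∑ x ∈ n.divisorsAntidiagonal.filter (fun x => U < x.1 ∧ U < x.2),
        vonMangoldt x.1 * vb U x.2)| ≤ 3 * (U * L) := by
  have hL0 : 0 ≤ L := (Real.log_natCast_nonneg n).trans hL
  have hnU : (n : ℝ) ≤ U := by exact_mod_cast hn
  have hn1' : (1 : ℝ) ≤ n := by exact_mod_cast hn1
  have hx : ∀ x ∈ n.divisorsAntidiagonal, 1 ≤ x.1 ∧ x.1 ≤ n ∧ 1 ≤ x.2 ∧ x.2 ≤ n := by
    intro x hx
    obtain ⟨h3, h4⟩ := Nat.mem_divisorsAntidiagonal.1 hx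
    have ha : 1 ≤ x.1 := by
      rcases Nat.eq_zero_or_pos x.1 with h | h
      · rw [h] at h3; omega
      · exact h
    have hb : 1 ≤ x.2 := by
      rcases Nat.eq_zero_or_pos x.2 with h | h
      · rw [h] at h3; omega
      · exact h
    exact ⟨ha, h3 ▸ Nat.le_mul_of_pos_right _ hb, hb, h3 ▸ Nat.le_mul_of_pos_left _ ha⟩
  have hlog : ∀ m : ℕ, 1 ≤ m → m ≤ n → Real.log m ≤ L := by
    intro m h1 h2
    refine (Real.log_le_log (by exact_mod_cast h1) (by exact_mod_cast h2)).trans hL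
  have h1 : |vonMangoldt n| ≤ U * L := by
    rw [abs_of_nonneg vonMangoldt_nonneg]
    refine vonMangoldt_le_log.trans (hL.trans ?_)
    nlinarith
  have h2 : |∑ x ∈ n.divisorsAntidiagonal.filter (fun x => x.1 ≤ U),
      (moebius x.1 : ℝ) * Real.log x.2| ≤ U * L := by
    refine (Finset.abs_sum_le_sum_abs _ _).trans ?_
    refine (Finset.sum_le_sum (g := fun _ => L) (fun x hx' => ?_)).trans ?_
    · have h3 := hx x (Finset.mem_filter.1 hx').1
      rw [abs_mul]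
      have h4 : |Real.log x.2| ≤ L := by
        rw [abs_of_nonneg (Real.log_natCast_nonneg _)]
        exact hlog _ h3.2.2.1 h3.2.2.2
      have h5 := Pool.Agent.Wb58c63.Vau_mu_le x.1
      calc |((moebius x.1 : ℤ) : ℝ)| * |Real.log x.2| ≤ 1 * L :=
            mul_le_mul h5 h4 (abs_nonneg _) zero_le_one
        _ = L := one_mul L
    · rw [Finset.sum_const, nsmul_eq_mul]
      refine mul_le_mul_of_nonneg_right ?_ hL0
      have h3 : ((n.divisorsAntidiagonal.filter (fun x => x.1 ≤ U)).card : ℝ) ≤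
          (n.divisorsAntidiagonal.card : ℝ) := by exact_mod_cast Finset.card_filter_le _ _
      exact h3.trans ((VNb_divs n).trans hnU)
  have h3 : |∑ x ∈ n.divisorsAntidiagonal, vc U x.1| ≤ U * L := by
    refine (Finset.abs_sum_le_sum_abs _ _).trans ?_
    refine (Finset.sum_le_sum (g := fun _ => L) (fun x hx' => ?_)).trans ?_
    · have h3 := hx x hx'
      exact (Pool.Agent.Wb58c63.abs_vc_le U x.1 h3.1).trans (hlog _ h3.1 h3.2.1)
    · rw [Finset.sum_const, nsmul_eq_mul]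
      exact mul_le_mul_of_nonneg_right ((VNb_divs n).trans hnU) hL0
  have h4 : ∑ x ∈ n.divisorsAntidiagonal.filter (fun x => U < x.1 ∧ U < x.2),
        vonMangoldt x.1 * vb U x.2 = 0 := by
    refine Finset.sum_eq_zero (fun x hx' => ?_)
    rw [Finset.mem_filter] at hx'
    have := hx x hx'.1
    omega
  rw [h4, add_zero]
  rw [abs_le] at h1 h2 h3 ⊢
  constructor <;> linarith [h1.1, h1.2, h2.1, h2.2, h3.1, h3.2]

/-- **Vinogradov's bound** (proof of Vaughan).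

Proof. `U = ⌊N ^ (2/5)⌋₊`; `vaughan_pt U n` for `n > U` (file `Vau.lean` of `W_b58c63_h68`), the terms `n ≤ U` are trivial. The three sums: `∑_{d ≤ U} μ(d) ∑_h log h ee (d h α)` and `∑_{j ≤ U ^ 2} vc U j ∑_l ee (j l α)` (`|vc U j| ≤ log j`, `vc U j = 0` for `j > U ^ 2`; remove the terms `n = j l ≤ U`, `d h ≤ U` trivially) are bounded by
`type_I`, `J = U ^ 2 ≤ N ^ (4/5)`; and `∑_{k > U, m > U} Λ(k) vb U m ee (k m α)` is divided into `≤ 2 log N` dyadic sums `K < k ≤ 2 K`, `K = U 2 ^ i ≤ N / U` (for the others no `m > U`), with `type_II` (`b m = vb U m` for `m > U`, else `0`): each is at most `C √N (√(N / q) + √(N / U) + √q) (1 + log N) ^ (5/2)` (`K ≥ U`, `K ≤ N / U`). `√N √(N / U) ≤ 2 N ^ (4/5)`. -/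
theorem vinogradov : ∃ C : ℝ, 1 ≤ C ∧ ∀ (q : ℕ) (a : ℤ) (α : ℝ), 1 ≤ q → Int.gcd a q = 1 → |α - a / q| ≤ 1 / (q : ℝ) ^ 2 → ∀ (N : ℕ), 2 ≤ N → q ≤ N →
    ‖∑ n ∈ Icc 1 N, (vonMangoldt n : ℂ) * ee (n * α)‖ ≤
      C * ((N : ℝ) / Real.sqrt q + (N : ℝ) ^ (4 / 5 : ℝ) + Real.sqrt (N * q)) * (1 + Real.log N) ^ 5 := by
  obtain ⟨C1, hC1, hI⟩ := type_I
  obtain ⟨C2, hC2, hII⟩ := type_II
  refine ⟨2 * C1 + 4 * (2 * C2) + 3, by linarith, ?_⟩
  intro q a α hq hqa hα N hN hqN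
  have hN0 : (2 : ℝ) ≤ N := by exact_mod_cast hN
  have hNpos : (0 : ℝ) < N := by linarith
  have hq1 : (1 : ℝ) ≤ q := by exact_mod_cast hq
  have hqN' : (q : ℝ) ≤ N := by exact_mod_cast hqN
  set L := Real.log N with hL
  have hL0 : 0 ≤ L := Real.log_natCast_nonneg N
  set x5 : ℝ := (N : ℝ) ^ (2 / 5 : ℝ) with hx5
  have hx1 : 1 ≤ x5 := Real.one_le_rpow (by linarith) (by norm_num)
  set U := ⌊x5⌋₊ with hU
  have hU1 : 1 ≤ U := Nat.le_floor (by exact_mod_cast hx1)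
  have hUx : (U : ℝ) ≤ x5 := Nat.floor_le (by linarith)
  have hUx2 : x5 ≤ 2 * U := by
    have h1 := Nat.lt_floor_add_one x5
    have h2 : (1 : ℝ) ≤ U := by exact_mod_cast hU1
    linarith
  have hx45 : x5 ^ 2 = (N : ℝ) ^ (4 / 5 : ℝ) := by
    rw [hx5, ← Real.rpow_natCast, ← Real.rpow_mul hNpos.le]
    norm_num
  have hx45N : (N : ℝ) ^ (4 / 5 : ℝ) ≤ N := by
    calc (N : ℝ) ^ (4 / 5 : ℝ) ≤ (N : ℝ) ^ (1 : ℝ) :=
          Real.rpow_le_rpow_of_exponent_le (by linarith) (by norm_num)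
      _ = N := Real.rpow_one _
  set P := (N : ℝ) ^ (4 / 5 : ℝ) with hP
  have hP1 : 1 ≤ P := by rw [← hx45]; nlinarith only [hx1]
  have hU2r : ((U : ℝ)) ^ 2 ≤ P := by
    rw [← hx45]
    exact pow_le_pow_left₀ (Nat.cast_nonneg _) hUx 2
  have hU2N : U ^ 2 ≤ N := by
    have : ((U ^ 2 : ℕ) : ℝ) ≤ N := by push_cast; linarith
    exact_mod_cast this
  have hUN : U ≤ N := (Nat.le_self_pow two_ne_zero U).trans hU2N
  have hsq1 : 1 ≤ Real.sqrt q := by
    rw [Real.one_le_sqrt]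
    exact hq1
  set B := (N : ℝ) / Real.sqrt q + P + Real.sqrt (N * q) with hB
  have hb1 : (N : ℝ) / q ≤ N / Real.sqrt q := by
    apply div_le_div_of_nonneg_left hNpos.le (by linarith)
    rw [Real.sqrt_le_left (by linarith)]
    nlinarith only [hq1]
  have hb2 : (q : ℝ) ≤ Real.sqrt (N * q) := by
    apply Real.le_sqrt_of_sq_le
    nlinarith only [hq1, hqN']
  have hbn1 : 0 ≤ (N : ℝ) / Real.sqrt q := by positivity
  have hbn3 : 0 ≤ Real.sqrt (N * q) := Real.sqrt_nonneg _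
  have hB0 : 0 ≤ B := by linarith
  have hL1 : 1 ≤ 1 + L := by linarith
  -- Sum of type I
  have hmu : ∀ j ∈ Icc 1 U, ‖((moebius j : ℝ) : ℂ)‖ ≤ 1 + Real.log N := by
    intro j _
    rw [Complex.norm_real, Real.norm_eq_abs]
    exact (Pool.Agent.Wb58c63.Vau_mu_le j).trans hL1
  have hvc : ∀ j ∈ Icc 1 (U ^ 2), ‖(vc U j : ℂ)‖ ≤ 1 + Real.log N := by
    intro j hj
    rw [Finset.mem_Icc] at hj
    rw [Complex.norm_real, Real.norm_eq_abs]
    have h1 := Pool.Agent.Wb58c63.abs_vc_le U j hj.1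
    have h2 : Real.log j ≤ Real.log N :=
      Real.log_le_log (by exact_mod_cast hj.1) (by exact_mod_cast hj.2.trans hU2N)
    linarith
  have hA := (hI q a α hq hqa hα U N hN hUN hqN _ hmu).2
  have hBB := (hI q a α hq hqa hα (U ^ 2) N hN hU2N hqN _ hvc).1
  have hpow34 : (1 + L) ^ 3 ≤ (1 + L) ^ 5 := pow_le_pow_right₀ hL1 (by norm_num)
  have hpow45 : (1 + L) ^ 4 ≤ (1 + L) ^ 5 := pow_le_pow_right₀ hL1 (by norm_num)
  have hA' : ‖∑ j ∈ Icc 1 U, ((moebius j : ℝ) : ℂ) *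
      ∑ h ∈ Icc 1 (N / j), (Real.log h : ℂ) * ee ((j * h : ℕ) * α)‖ ≤ C1 * B * (1 + L) ^ 5 := by
    refine hA.trans ?_
    have h1 : (N : ℝ) / q + U + q ≤ B := by
      have : (U : ℝ) ≤ P := by
        have h1 : (1 : ℝ) ≤ U := by exact_mod_cast hU1
        nlinarith only [h1, hU2r]
      linarith
    have h0 : 0 ≤ (N : ℝ) / q + U + q := by positivity
    exact mul_le_mul (mul_le_mul_of_nonneg_left h1 (by linarith)) hpow45 (by positivity)
      (by positivity)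
  have hB' : ‖∑ j ∈ Icc 1 (U ^ 2), (vc U j : ℂ) *
      ∑ h ∈ Icc 1 (N / j), ee ((j * h : ℕ) * α)‖ ≤ C1 * B * (1 + L) ^ 5 := by
    refine hBB.trans ?_
    have h1 : (N : ℝ) / q + ((U ^ 2 : ℕ) : ℝ) + q ≤ B := by
      push_cast
      linarith only [hb1, hU2r, hb2]
    have h0 : 0 ≤ (N : ℝ) / q + ((U ^ 2 : ℕ) : ℝ) + q := by positivity
    exact mul_le_mul (mul_le_mul_of_nonneg_left h1 (by linarith only [hC1])) hpow34 (by positivity)
      (by positivity)
  -- Sum of type II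
  set T : ℕ → ℂ := fun k => (vonMangoldt k : ℂ) *
      ∑ m ∈ Icc 1 (N / k), (vb U m : ℂ) * ee ((k * m : ℕ) * α) with hT
  have hTz : ∀ k, N / k ≤ U → T k = 0 := by
    intro k hk
    rw [hT]
    simp only
    rw [Finset.sum_eq_zero, mul_zero]
    intro m hm
    rw [Pool.Agent.Wb58c63.Vau_vb_zero U m ((Finset.mem_Icc.1 hm).2.trans hk), Complex.ofReal_zero,
      zero_mul]
  have hvb : ∀ m, ‖(vb U m : ℂ)‖ ≤ m.divisors.card := by
    intro m
    rw [Complex.norm_real, Real.norm_eq_abs]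
    exact Pool.Agent.Wb58c63.abs_vb_le U m
  have hDy : ∀ K : ℕ, U ≤ K → ‖∑ k ∈ Ioc K (2 * K), T k‖ ≤ 2 * C2 * (1 + L) ^ 3 * B := by
    intro K hK
    have hE0 : 0 ≤ 2 * C2 * (1 + L) ^ 3 * B := by positivity
    rcases le_or_gt (K * U) N with hKU | hKU
    · have hK1 : 1 ≤ K := hU1.trans hK
      have hKN : K ≤ N := (Nat.le_mul_of_pos_right K hU1).trans hKU
      have h1 := hII q a α hq hqa hα K N hN hK1 hKN hqN _ hvb
      have hKr : (1 : ℝ) ≤ K := by exact_mod_cast hK1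
      have hUr : (1 : ℝ) ≤ U := by exact_mod_cast hU1
      have hUK : (U : ℝ) ≤ K := by exact_mod_cast hK
      have hKUr : (K : ℝ) * U ≤ N := by exact_mod_cast hKU
      have h2 : (N : ℝ) / K ≤ N / U := div_le_div_of_nonneg_left hNpos.le (by linarith only [hUr]) hUK
      have h3 : (K : ℝ) ≤ N / U := by
        rw [le_div_iff₀ (by linarith only [hUr])]
        exact hKUr
      have h4 : (N : ℝ) * (N / U) ≤ 2 * P ^ 2 := by
        have h5 : (N : ℝ) * N = P ^ 2 * x5 := by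
          rw [hP, hx5, ← Real.rpow_natCast, ← Real.rpow_mul hNpos.le, ← Real.rpow_add hNpos]
          norm_num
          ring
        rw [← mul_div_assoc, h5, div_le_iff₀ (by linarith only [hUr])]
        have : 0 ≤ P ^ 2 := by positivity
        nlinarith only [this, hUx2]
      have h5 : (N : ℝ) * (N / q) = (N / Real.sqrt q) ^ 2 := by
        rw [div_pow, Real.sq_sqrt (by linarith only [hq1])]
        ring
      have h6 : (N : ℝ) * q = (Real.sqrt (N * q)) ^ 2 := by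
        rw [Real.sq_sqrt (by positivity)]
      have h7 : (N : ℝ) * ((N : ℝ) / q + N / K + K + q) ≤ (2 * B) ^ 2 := by
        have h8 : (N : ℝ) * ((N : ℝ) / q + N / K + K + q) ≤
            N * (N / q) + 2 * (N * (N / U)) + N * q := by nlinarith only [h2, h3, hNpos]
        have h9 : (N / Real.sqrt q) ^ 2 + P ^ 2 + (Real.sqrt (N * q)) ^ 2 ≤ B ^ 2 := by
          rw [hB]
          have h10 : 0 ≤ (N : ℝ) / Real.sqrt q * P := by positivity
          have h11 : 0 ≤ (N : ℝ) / Real.sqrt q * Real.sqrt (N * q) := by positivity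
          have h12 : 0 ≤ P * Real.sqrt (N * q) := by positivity
          nlinarith only [h10, h11, h12]
        have h13 : 0 ≤ (N / Real.sqrt q) ^ 2 := sq_nonneg _
        have h14 : 0 ≤ (Real.sqrt (N * q)) ^ 2 := sq_nonneg _
        rw [← h6, ← h5] at h9
        rw [← h5] at h13
        rw [← h6] at h14
        nlinarith only [h8, h4, h9, h13, h14]
      have h8 : ‖∑ k ∈ Ioc K (2 * K), T k‖ ^ 2 ≤ (2 * C2 * (1 + L) ^ 3 * B) ^ 2 := by
        refine h1.trans ?_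
        have h9 : C2 * (N : ℝ) * ((N : ℝ) / q + N / K + K + q) * (1 + L) ^ 5 ≤
            C2 ^ 2 * (2 * B) ^ 2 * (1 + L) ^ 6 := by
          have h10 : C2 * ((N : ℝ) * ((N : ℝ) / q + N / K + K + q)) ≤ C2 ^ 2 * (2 * B) ^ 2 := by
            apply mul_le_mul _ h7 (by positivity) (by positivity)
            nlinarith only [hC2]
          have h11 : (1 + L) ^ 5 ≤ (1 + L) ^ 6 := pow_le_pow_right₀ hL1 (by norm_num)
          calc C2 * (N : ℝ) * ((N : ℝ) / q + N / K + K + q) * (1 + L) ^ 5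
              = C2 * ((N : ℝ) * ((N : ℝ) / q + N / K + K + q)) * (1 + L) ^ 5 := by ring
            _ ≤ _ := mul_le_mul h10 h11 (by positivity) (by positivity)
        refine h9.trans (le_of_eq ?_)
        ring
      exact (pow_le_pow_iff_left₀ (norm_nonneg _) hE0 two_ne_zero).1 h8
    · rw [Finset.sum_eq_zero]
      · rw [norm_zero]
        exact hE0
      · intro k hk
        have hk1 := (Finset.mem_Ioc.1 hk).1
        apply hTz
        have hk0 : 0 < k := by omega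
        rw [Nat.div_le_iff_le_mul_add_pred hk0]
        have : K * U ≤ k * U := Nat.mul_le_mul_right U hk1.le
        omega
  set I := Nat.log 2 N + 1 with hI'
  have hIN : N < 2 ^ I := Nat.lt_pow_succ_log_self (by norm_num) N
  have hIL : (I : ℝ) ≤ 2 * (1 + L) := by
    have h1 : (Nat.log 2 N : ℝ) ≤ Real.logb 2 N := Real.natLog_le_logb N 2
    have h2 : Real.logb 2 N ≤ 2 * L := by
      rw [Real.logb, ← hL, div_le_iff₀ (Real.log_pos (by norm_num))]
      have := Real.log_two_gt_d9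
      nlinarith only [this, hL0]
    rw [hI']
    push_cast
    linarith only [h1, h2]
  have hCC : ‖∑ k ∈ Ioc U N, T k‖ ≤ 4 * (2 * C2) * B * (1 + L) ^ 5 := by
    have h1 := VNb_dy T U I (2 * C2 * (1 + L) ^ 3 * B) (fun i _ =>
      hDy _ (Nat.le_mul_of_pos_left U (by positivity)))
    have h2 : ∑ k ∈ Ioc U (2 ^ I * U), T k = ∑ k ∈ Ioc U N, T k := by
      symm
      apply Finset.sum_subset
      · apply Finset.Ioc_subset_Ioc_right
        calc N ≤ 2 ^ I := hIN.le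
          _ ≤ 2 ^ I * U := Nat.le_mul_of_pos_right _ hU1
      · intro k hk hk'
        apply hTz
        have hk1 := Finset.mem_Ioc.1 hk
        have hkN : N < k := by
          by_contra h
          exact hk' (Finset.mem_Ioc.2 ⟨hk1.1, not_lt.1 h⟩)
        rw [Nat.div_eq_of_lt hkN]
        exact Nat.zero_le _
    rw [← h2]
    refine h1.trans ?_
    have h3 : (I : ℝ) * (2 * C2 * (1 + L) ^ 3 * B) ≤ 2 * (1 + L) * (2 * C2 * (1 + L) ^ 3 * B) :=
      mul_le_mul_of_nonneg_right hIL (by positivity)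
    refine h3.trans ?_
    have h4 : 2 * (1 + L) * (2 * C2 * (1 + L) ^ 3 * B) = 4 * C2 * B * (1 + L) ^ 4 := by ring
    rw [h4]
    have h5 : 4 * C2 * B * (1 + L) ^ 4 ≤ 4 * C2 * B * (1 + L) ^ 5 :=
      mul_le_mul_of_nonneg_left hpow45 (by positivity)
    have h6 : 0 ≤ C2 * B * (1 + L) ^ 5 := by positivity
    linarith only [h5, h6]
  -- the remainder
  set R : ℕ → ℝ := fun n => vonMangoldt n -
      (∑ x ∈ n.divisorsAntidiagonal.filter (fun x => x.1 ≤ U), (moebius x.1 : ℝ) * Real.log x.2 -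
      ∑ x ∈ n.divisorsAntidiagonal, vc U x.1 +
      ∑ x ∈ n.divisorsAntidiagonal.filter (fun x => U < x.1 ∧ U < x.2),
        vonMangoldt x.1 * vb U x.2) with hR
  have hRz : ∀ n, U < n → R n = 0 := by
    intro n hn
    rw [hR]
    simp only
    rw [← Pool.Agent.Wb58c63.vaughan_pt U n hn, sub_self]
  have hRR : ‖∑ n ∈ Icc 1 N, (R n : ℂ) * ee (n * α)‖ ≤ 3 * B * (1 + L) ^ 5 := by
    have h1 : ∑ n ∈ Icc 1 N, (R n : ℂ) * ee (n * α) = ∑ n ∈ Icc 1 U, (R n : ℂ) * ee (n * α) := by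
      symm
      apply Finset.sum_subset (Finset.Icc_subset_Icc_right hUN)
      intro n hn hn'
      rw [hRz, Complex.ofReal_zero, zero_mul]
      by_contra h
      exact hn' (Finset.mem_Icc.2 ⟨(Finset.mem_Icc.1 hn).1, not_lt.1 h⟩)
    rw [h1]
    refine (norm_sum_le _ _).trans ?_
    refine (Finset.sum_le_sum (g := fun _ => 3 * ((U : ℝ) * L)) (fun n hn => ?_)).trans ?_
    · rw [norm_mul, Pool.Agent.Wb58c63.norm_ee, mul_one, Complex.norm_real, Real.norm_eq_abs]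
      rw [Finset.mem_Icc] at hn
      refine VNb_R U n L hn.1 hn.2 ?_
      exact Real.log_le_log (by exact_mod_cast hn.1) (by exact_mod_cast hn.2.trans hUN)
    · rw [Finset.sum_const, Nat.card_Icc, nsmul_eq_mul, Nat.add_sub_cancel]
      have h2 : (U : ℝ) * (3 * (U * L)) = 3 * (U : ℝ) ^ 2 * L := by ring
      rw [h2]
      have h3 : (U : ℝ) ^ 2 ≤ B := by linarith only [hbn1, hq1, hU2r, hb2]
      have h4 : L ≤ (1 + L) ^ 5 := by
        calc L ≤ 1 + L := by linarith only []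
          _ = (1 + L) ^ 1 := (pow_one _).symm
          _ ≤ (1 + L) ^ 5 := pow_le_pow_right₀ hL1 (by norm_num)
      calc 3 * (U : ℝ) ^ 2 * L = 3 * ((U : ℝ) ^ 2 * L) := by ring
        _ ≤ 3 * (B * (1 + L) ^ 5) := by
            apply mul_le_mul_of_nonneg_left _ (by norm_num)
            exact mul_le_mul h3 h4 hL0 hB0
        _ = _ := by ring
  have hsum : ∑ n ∈ Icc 1 N, (vonMangoldt n : ℂ) * ee (n * α) =
      (∑ j ∈ Icc 1 U, ((moebius j : ℝ) : ℂ) *
        ∑ h ∈ Icc 1 (N / j), (Real.log h : ℂ) * ee ((j * h : ℕ) * α)) -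
      (∑ j ∈ Icc 1 (U ^ 2), (vc U j : ℂ) * ∑ h ∈ Icc 1 (N / j), ee ((j * h : ℕ) * α)) +
      ∑ k ∈ Ioc U N, T k + ∑ n ∈ Icc 1 N, (R n : ℂ) * ee (n * α) := by
    rw [← VNb_A U N hUN α, ← VNb_B U N hU2N α, hT, ← VNb_C U N α, ← Finset.sum_sub_distrib,
      ← Finset.sum_add_distrib, ← Finset.sum_add_distrib]
    refine Finset.sum_congr rfl (fun n _ => ?_)
    rw [hR]
    push_cast
    ring
  rw [hsum]
  refine (norm_add_le _ _).trans ?_
  have h1 := norm_add_le ((∑ j ∈ Icc 1 U, ((moebius j : ℝ) : ℂ) *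
        ∑ h ∈ Icc 1 (N / j), (Real.log h : ℂ) * ee ((j * h : ℕ) * α)) -
      (∑ j ∈ Icc 1 (U ^ 2), (vc U j : ℂ) * ∑ h ∈ Icc 1 (N / j), ee ((j * h : ℕ) * α)))
      (∑ k ∈ Ioc U N, T k)
  have h2 := norm_sub_le (∑ j ∈ Icc 1 U, ((moebius j : ℝ) : ℂ) *
        ∑ h ∈ Icc 1 (N / j), (Real.log h : ℂ) * ee ((j * h : ℕ) * α))
      (∑ j ∈ Icc 1 (U ^ 2), (vc U j : ℂ) * ∑ h ∈ Icc 1 (N / j), ee ((j * h : ℕ) * α))
  have h3 : (2 * C1 + 4 * (2 * C2) + 3) * B * (1 + L) ^ 5 = C1 * B * (1 + L) ^ 5 +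
      C1 * B * (1 + L) ^ 5 + 4 * (2 * C2) * B * (1 + L) ^ 5 + 3 * B * (1 + L) ^ 5 := by ring
  rw [h3]
  linarith only [h1, hRR, hB', hCC, h2, hA']

/-- the smooth weight is Lipschitz -/
theorem VNb_lip : ∃ M : ℝ, 0 ≤ M ∧ ∀ x y : ℝ, |g0 x - g0 y| ≤ M * |x - y| := by
  have hc : ContDiff ℝ (⊤ : ℕ∞) g0 := g0_facts.2.2.2
  have hsupp : HasCompactSupport g0 := by
    apply HasCompactSupport.intro (K := Set.Icc (3 / 2 : ℝ) (39 / 10)) isCompact_Icc
    intro x hx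
    exact g0_facts.2.1 x hx
  obtain ⟨K, hK⟩ := (hc.of_le (by exact_mod_cast le_top) : ContDiff ℝ 1 g0).lipschitzWith_of_hasCompactSupport
    hsupp (by norm_num)
  refine ⟨K, K.2, fun x y => ?_⟩
  have := hK.dist_le_mul x y
  rwa [Real.dist_eq, Real.dist_eq] at this

/-- partial summation -/
theorem VNb_parts (a : ℕ → ℂ) (g : ℕ → ℝ) (N : ℕ) (hg : g (N + 1) = 0) (E δ : ℝ)
    (hE : ∀ n ≤ N, ‖∑ m ∈ Icc 1 n, a m‖ ≤ E) (hδ : ∀ n, |g n - g (n + 1)| ≤ δ) :
    ‖∑ n ∈ Icc 1 N, a n * (g n : ℂ)‖ ≤ N * (E * δ) := by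
  have key : ∀ N : ℕ, ∑ n ∈ Icc 1 N, a n * (g n : ℂ) =
      ∑ n ∈ Icc 1 N, (∑ m ∈ Icc 1 n, a m) * ((g n : ℂ) - (g (n + 1) : ℂ)) +
        (∑ m ∈ Icc 1 N, a m) * (g (N + 1) : ℂ) := by
    intro N
    induction N with
    | zero => simp
    | succ N ih =>
      rw [Finset.sum_Icc_succ_top (by omega), ih, Finset.sum_Icc_succ_top (by omega),
        Finset.sum_Icc_succ_top (b := N) (by omega) a]
      ring
  rw [key N, hg, Complex.ofReal_zero, mul_zero, add_zero]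
  refine (norm_sum_le _ _).trans ?_
  refine (Finset.sum_le_sum (g := fun _ => E * δ) (fun n hn => ?_)).trans ?_
  · rw [norm_mul]
    have h1 := hE n (Finset.mem_Icc.1 hn).2
    have h2 : ‖(g n : ℂ) - (g (n + 1) : ℂ)‖ ≤ δ := by
      rw [← Complex.ofReal_sub, Complex.norm_real, Real.norm_eq_abs]
      exact hδ n
    exact mul_le_mul h1 h2 (norm_nonneg _) ((norm_nonneg _).trans h1)
  · rw [Finset.sum_const, Nat.card_Icc, nsmul_eq_mul, Nat.add_sub_cancel]

/-- **The small prime on the minor arcs.**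

Proof. Let `Y = √X`, `N₁ = ⌊16 Y⌋₊`. `fP X n = Λ(n) g0 (n / Y)` for primes and `0` otherwise; the proper prime powers up to `4 Y` contribute at most `C √Y` (`arb_D_le` of `ArB.lean`). By partial summation `∑_{n ≤ N₁} Λ(n) g0 (n / Y) ee (n α) = - ∫ S(u) g0' (u / Y) du / Y` with `S(u) = ∑_{n ≤ u} Λ(n) ee (n α)`
(or the discrete form), `∫ |g0'| = 2`, only `u ≤ 4 Y` matter. For `u ≤ q` or `u < 2` trivially `|S(u)| ≤ C q ≤ C √(Y q)` (as `q ≤ Y`), for the others `vinogradov`. -/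
theorem minorP : ∃ C : ℝ, 1 ≤ C ∧ ∀ X : ℝ, 16 ≤ X → ∀ (q : ℕ) (a : ℤ) (α : ℝ), 1 ≤ q → (q : ℝ) ≤ Real.sqrt X → Int.gcd a q = 1 → |α - a / q| ≤ 1 / (q : ℝ) ^ 2 →
    ‖∑ n ∈ Icc 1 ⌊16 * Real.sqrt X⌋₊, fP X n * ee (n * α)‖ ≤
      C * (Real.sqrt X / Real.sqrt q + X ^ (2 / 5 : ℝ) + Real.sqrt (Real.sqrt X * q)) * (1 + Real.log X) ^ 5 := by
  obtain ⟨C0, hC0, hV⟩ := vinogradov
  obtain ⟨M, hM, hlip⟩ := VNb_lip
  obtain ⟨C1, hC1, hD⟩ := Pool.Agent.Wb58c63.arb_D_le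
  refine ⟨16 * M * (C0 * 16 * 4 ^ 5) + 4 * C1 + 1, by
    have : 0 ≤ 16 * M * (C0 * 16 * 4 ^ 5) := by positivity
    linarith, ?_⟩
  intro X hX q a α hq hqX hqa hα
  set Y := Real.sqrt X with hY
  have hXpos : 0 < X := by linarith
  have hY4 : 4 ≤ Y := by
    apply Real.le_sqrt_of_sq_le
    linarith
  have hYX : Y ^ 2 = X := Real.sq_sqrt hXpos.le
  have hq1 : (1 : ℝ) ≤ q := by exact_mod_cast hq
  set N := ⌊16 * Y⌋₊ with hN
  have hN16 : (N : ℝ) ≤ 16 * Y := Nat.floor_le (by linarith)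
  have hN16' : 16 * Y < N + 1 := Nat.lt_floor_add_one _
  have hX0 : 0 ≤ Real.log X := Real.log_nonneg (by linarith)
  have hLY : Real.log Y = Real.log X / 2 := by
    rw [hY, Real.log_sqrt hXpos.le]
  set P := X ^ (2 / 5 : ℝ) with hP
  have hPY : Y ^ (4 / 5 : ℝ) = P := by
    rw [hP, hY, Real.sqrt_eq_rpow, ← Real.rpow_mul hXpos.le]
    norm_num
  have hP0 : 0 ≤ P := Real.rpow_nonneg hXpos.le _
  set B := Y / Real.sqrt q + P + Real.sqrt (Y * q) with hB
  have hsq0 : 0 < Real.sqrt q := Real.sqrt_pos.2 (by linarith)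
  have hb1 : 0 ≤ Y / Real.sqrt q := by positivity
  have hb3 : 0 ≤ Real.sqrt (Y * q) := Real.sqrt_nonneg _
  have hB0 : 0 ≤ B := by linarith
  have hqB : (q : ℝ) ≤ Real.sqrt (Y * q) := by
    apply Real.le_sqrt_of_sq_le
    nlinarith only [hq1, hqX]
  set W := 1 + Real.log X with hW
  have hW1 : 1 ≤ W := by linarith
  have hlog16 : Real.log 16 ≤ 3 := by
    have h1 : (16 : ℝ) = 2 ^ 4 := by norm_num
    rw [h1, Real.log_pow]
    have := Real.log_two_lt_d9
    push_cast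
    linarith
  have hlogn : ∀ n : ℕ, n ≤ N → Real.log n ≤ 4 * W - 1 := by
    intro n hn
    rcases Nat.eq_zero_or_pos n with h | h
    · rw [h, Nat.cast_zero, Real.log_zero]
      linarith
    · have h1 : Real.log n ≤ Real.log (16 * Y) := by
        apply Real.log_le_log (by exact_mod_cast h)
        have : (n : ℝ) ≤ N := by exact_mod_cast hn
        linarith
      rw [Real.log_mul (by norm_num) (by linarith), hLY] at h1
      linarith
  -- the partial sums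
  have hS : ∀ n ≤ N, ‖∑ m ∈ Icc 1 n, (vonMangoldt m : ℂ) * ee (m * α)‖ ≤
      C0 * 16 * 4 ^ 5 * B * W ^ 5 := by
    intro n hn
    have hnN : (n : ℝ) ≤ N := by exact_mod_cast hn
    rcases le_or_gt (max 2 q) n with hn2 | hn2
    · have hn2' : 2 ≤ n := (le_max_left _ _).trans hn2
      have hqn : q ≤ n := (le_max_right _ _).trans hn2
      refine (hV q a α hq hqa hα n hn2' hqn).trans ?_
      have hnY : (n : ℝ) ≤ 16 * Y := hnN.trans hN16
      have hn0 : (0 : ℝ) ≤ n := Nat.cast_nonneg n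
      have h1 : (n : ℝ) / Real.sqrt q ≤ 16 * (Y / Real.sqrt q) := by
        rw [← mul_div_assoc]
        exact div_le_div_of_nonneg_right hnY hsq0.le
      have h2 : (n : ℝ) ^ (4 / 5 : ℝ) ≤ 16 * P := by
        calc (n : ℝ) ^ (4 / 5 : ℝ) ≤ (16 * Y) ^ (4 / 5 : ℝ) :=
              Real.rpow_le_rpow hn0 hnY (by norm_num)
          _ = 16 ^ (4 / 5 : ℝ) * Y ^ (4 / 5 : ℝ) :=
              Real.mul_rpow (by norm_num) (by linarith)
          _ ≤ 16 * P := by
              rw [hPY]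
              apply mul_le_mul_of_nonneg_right _ hP0
              calc (16 : ℝ) ^ (4 / 5 : ℝ) ≤ 16 ^ (1 : ℝ) :=
                    Real.rpow_le_rpow_of_exponent_le (by norm_num) (by norm_num)
                _ = 16 := Real.rpow_one _
      have h3 : Real.sqrt (n * q) ≤ 16 * Real.sqrt (Y * q) := by
        calc Real.sqrt (n * q) ≤ Real.sqrt (16 ^ 2 * (Y * q)) := by
              apply Real.sqrt_le_sqrt
              nlinarith only [hnY, hq1, hY4]
          _ = 16 * Real.sqrt (Y * q) := by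
              rw [Real.sqrt_mul (by norm_num), Real.sqrt_sq (by norm_num)]
      have h4 : (n : ℝ) / Real.sqrt q + (n : ℝ) ^ (4 / 5 : ℝ) + Real.sqrt (n * q) ≤ 16 * B := by
        rw [hB]
        linarith
      have h5 : (1 + Real.log n) ^ 5 ≤ (4 * W) ^ 5 := by
        apply pow_le_pow_left₀
        · have := Real.log_natCast_nonneg n
          linarith
        · linarith [hlogn n hn]
      have h6 : 0 ≤ (1 + Real.log n) ^ 5 := by
        have := Real.log_natCast_nonneg n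
        positivity
      calc C0 * ((n : ℝ) / Real.sqrt q + (n : ℝ) ^ (4 / 5 : ℝ) + Real.sqrt (n * q)) *
            (1 + Real.log n) ^ 5
          ≤ C0 * (16 * B) * (4 * W) ^ 5 := by
            apply mul_le_mul (mul_le_mul_of_nonneg_left h4 (by linarith)) h5 h6 (by positivity)
        _ = _ := by ring
    · -- trivial bound
      have hnq : (n : ℝ) ≤ q := by
        have : n ≤ q := by
          rcases le_or_gt 2 q with h | h
          · rw [max_eq_right h] at hn2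
            exact hn2.le
          · rw [max_eq_left h.le] at hn2
            omega
        exact_mod_cast this
      refine (norm_sum_le _ _).trans ?_
      refine (Finset.sum_le_sum (g := fun _ => 4 * W) (fun m hm => ?_)).trans ?_
      · rw [norm_mul, Pool.Agent.Wb58c63.norm_ee, mul_one, Complex.norm_real, Real.norm_eq_abs,
          abs_of_nonneg vonMangoldt_nonneg]
        refine vonMangoldt_le_log.trans ?_
        have := hlogn m ((Finset.mem_Icc.1 hm).2.trans hn)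
        linarith
      · rw [Finset.sum_const, Nat.card_Icc, nsmul_eq_mul, Nat.add_sub_cancel]
        have h1 : (n : ℝ) ≤ B := by linarith
        have h2 : W ≤ W ^ 5 := by
          calc W = W ^ 1 := (pow_one _).symm
            _ ≤ W ^ 5 := pow_le_pow_right₀ hW1 (by norm_num)
        calc (n : ℝ) * (4 * W) ≤ B * (4 * W ^ 5) := by
              apply mul_le_mul h1 _ (by positivity) hB0
              linarith
          _ = 4 * (B * W ^ 5) := by ring
          _ ≤ (C0 * 16 * 4 ^ 5) * (B * W ^ 5) := by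
              apply mul_le_mul_of_nonneg_right _ (by positivity)
              nlinarith only [hC0]
          _ = _ := by ring
  -- partial summation
  have hpart := VNb_parts (fun m => (vonMangoldt m : ℂ) * ee (m * α)) (fun n => g0 (n / Y)) N
    (by
      apply g0_facts.2.1
      intro h
      have h1 := h.2
      rw [div_le_iff₀ (by linarith)] at h1
      push_cast at h1
      linarith) (C0 * 16 * 4 ^ 5 * B * W ^ 5) (M * (1 / Y)) hS (by
      intro n
      have h1 := hlip (n / Y) (((n + 1 : ℕ) : ℝ) / Y)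
      refine h1.trans (le_of_eq ?_)
      congr 1
      have h2 : (n : ℝ) / Y - ((n + 1 : ℕ) : ℝ) / Y = -(1 / Y) := by
        push_cast
        ring
      rw [h2, abs_neg, abs_of_nonneg (by positivity)])
  have hpart' : ‖∑ n ∈ Icc 1 N, (vonMangoldt n : ℂ) * ee (n * α) * ((g0 (n / Y) : ℝ) : ℂ)‖ ≤
      16 * M * (C0 * 16 * 4 ^ 5) * B * W ^ 5 := by
    refine hpart.trans ?_
    have h1 : (N : ℝ) * (1 / Y) ≤ 16 := by
      rw [mul_one_div, div_le_iff₀ (by linarith)]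
      exact hN16
    calc (N : ℝ) * (C0 * 16 * 4 ^ 5 * B * W ^ 5 * (M * (1 / Y)))
        = (N * (1 / Y)) * (M * (C0 * 16 * 4 ^ 5) * B * W ^ 5) := by ring
      _ ≤ 16 * (M * (C0 * 16 * 4 ^ 5) * B * W ^ 5) :=
          mul_le_mul_of_nonneg_right h1 (by positivity)
      _ = _ := by ring
  -- prime powers
  have hpp : ‖∑ n ∈ Icc 1 N, fP X n * ee (n * α) -
      ∑ n ∈ Icc 1 N, (vonMangoldt n : ℂ) * ee (n * α) * ((g0 (n / Y) : ℝ) : ℂ)‖ ≤
      4 * C1 * B * W ^ 5 := by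
    rw [← Finset.sum_sub_distrib]
    refine (norm_sum_le _ _).trans ?_
    refine (Finset.sum_le_sum (g := fun n => Pool.Agent.Wb58c63.arb_cc n) (fun n _ => ?_)).trans ?_
    · unfold fP Pool.Agent.Wb58c63.arb_cc
      by_cases hp : n.Prime
      · rw [if_pos hp, if_pos hp, ArithmeticFunction.vonMangoldt_apply_prime hp]
        push_cast
        have : (Real.log n : ℂ) * ((g0 (n / Real.sqrt X) : ℝ) : ℂ) * ee (n * α) -
            (Real.log n : ℂ) * ee (n * α) * ((g0 (n / Y) : ℝ) : ℂ) = 0 := by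
          rw [← hY]
          ring
        push_cast at this
        rw [this, norm_zero]
      · rw [if_neg hp, if_neg hp, zero_mul, zero_sub, norm_neg, norm_mul, norm_mul,
          Pool.Agent.Wb58c63.norm_ee, mul_one, Complex.norm_real, Real.norm_eq_abs,
          abs_of_nonneg vonMangoldt_nonneg, Complex.norm_real, Real.norm_eq_abs,
          abs_of_nonneg (g0_facts.1 _).1]
        exact mul_le_of_le_one_right vonMangoldt_nonneg (g0_facts.1 _).2
    · refine (hD N).trans ?_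
      have h1 : Real.sqrt N ≤ 4 * B := by
        have h2 : Real.sqrt N ≤ 4 * Real.sqrt (Y * q) := by
          calc Real.sqrt N ≤ Real.sqrt (4 ^ 2 * (Y * q)) := by
                apply Real.sqrt_le_sqrt
                nlinarith only [hN16, hq1, hY4]
            _ = 4 * Real.sqrt (Y * q) := by
                rw [Real.sqrt_mul (by norm_num), Real.sqrt_sq (by norm_num)]
        linarith only [hb1, hP0, h2]
      have h2 : 1 ≤ W ^ 5 := one_le_pow₀ hW1
      calc C1 * Real.sqrt N ≤ C1 * (4 * B) := mul_le_mul_of_nonneg_left h1 hC1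
        _ = 4 * C1 * B * 1 := by ring
        _ ≤ 4 * C1 * B * W ^ 5 := mul_le_mul_of_nonneg_left h2 (by positivity)
  have hfin : ‖∑ n ∈ Icc 1 N, fP X n * ee (n * α)‖ ≤ 16 * M * (C0 * 16 * 4 ^ 5) * B * W ^ 5 +
      4 * C1 * B * W ^ 5 := by
    have h1 : ∑ n ∈ Icc 1 N, fP X n * ee (n * α) =
        ∑ n ∈ Icc 1 N, (vonMangoldt n : ℂ) * ee (n * α) * ((g0 (n / Y) : ℝ) : ℂ) +
        (∑ n ∈ Icc 1 N, fP X n * ee (n * α) -
          ∑ n ∈ Icc 1 N, (vonMangoldt n : ℂ) * ee (n * α) * ((g0 (n / Y) : ℝ) : ℂ)) := by ring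
    rw [h1]
    exact (norm_add_le _ _).trans (add_le_add hpart' hpp)
  refine hfin.trans ?_
  have h2 : 0 ≤ B * W ^ 5 := by positivity
  nlinarith only [h2]

end Pool.Agent.PSG
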