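import Pool.Agent.W_b58c63_h44.FPn
import Pool.Agent.W_b58c63_h44.FMn
import Pool.Agent.W_b58c63_h44.VNb

/-!
# The Fourier transform of the small prime minus its model
-/

set_option autoImplicit false

noncomputable section

open Finset Complex MeasureTheory

namespace Pool.Agent.PSG

open Pool.Agent.Wb58c63 (prim ee)

theorem FS_div_sum (ε δ X : ℝ) (hX : 1 ≤ X) (hε : 0 < ε) (h : Wr ε δ X ≤ 2) (q : ℕ) (hq : 1 ≤ q) (hqX : (q : ℝ) ≤ X ^ ε) :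
    ∑ r ∈ q.divisors, ∑ χ ∈ prim r, wx δ X χ ≤ 3 := by
  have h1 : q.divisors ⊆ Icc 1 ⌊X ^ ε⌋₊ := by
    intro r hr
    rw [Nat.mem_divisors] at hr
    rw [Finset.mem_Icc]
    have hr0 : 0 < r := Nat.pos_of_dvd_of_pos hr.1 (by omega)
    refine ⟨hr0, Nat.le_floor (le_trans ?_ hqX)⟩
    exact_mod_cast Nat.le_of_dvd (by omega) hr.1
  have hX0 : 0 < X := by linarith
  calc _ ≤ ∑ r ∈ Icc 1 ⌊X ^ ε⌋₊, ∑ χ ∈ prim r, wx δ X χ :=
        Finset.sum_le_sum_of_subset_of_nonneg h1 (fun r _ _ => Finset.sum_nonneg fun χ _ => FMn_wx_nonneg δ X hX0 χ)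
    _ = 1 + Wr ε δ X := sum_wx ε δ X hX hε
    _ ≤ 3 := by linarith

theorem FS_sum_le (S : Finset ℕ) (δ X b : ℝ) (f : (r : ℕ) → DirichletCharacter ℂ r → ℂ)
    (hf : ∀ r ∈ S, ∀ χ ∈ prim r, ‖f r χ‖ ≤ b * wx δ X χ) (hb : 0 ≤ b)
    (hs : ∑ r ∈ S, ∑ χ ∈ prim r, wx δ X χ ≤ 3) : ‖∑ r ∈ S, ∑ χ ∈ prim r, f r χ‖ ≤ b * 3 := by
  refine (norm_sum_le _ _).trans ?_
  calc _ ≤ ∑ r ∈ S, ∑ χ ∈ prim r, b * wx δ X χ := by
        refine Finset.sum_le_sum fun r hr => ?_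
        refine (norm_sum_le _ _).trans ?_
        exact Finset.sum_le_sum fun χ hχ => hf r hr χ hχ
    _ = b * ∑ r ∈ S, ∑ χ ∈ prim r, wx δ X χ := by simp only [Finset.mul_sum]
    _ ≤ b * 3 := mul_le_mul_of_nonneg_left hs hb

theorem FS_log (ε₁ X : ℝ) (hε : 0 < ε₁) (hX : 1 ≤ X) : (1 + Real.log X) ^ 5 ≤ (1 + 40 / ε₁) ^ 5 * X ^ (ε₁ / 8) := by
  have hX0 : 0 < X := by linarith
  have hl : 0 ≤ Real.log X := Real.log_nonneg hX
  have h1 : Real.log X ≤ X ^ (ε₁ / 40) / (ε₁ / 40) := Real.log_le_rpow_div hX0.le (by positivity)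
  have h2 : 1 ≤ X ^ (ε₁ / 40) := Real.one_le_rpow hX (by positivity)
  have h3 : 1 + Real.log X ≤ (1 + 40 / ε₁) * X ^ (ε₁ / 40) := by
    have h4 : X ^ (ε₁ / 40) / (ε₁ / 40) = 40 / ε₁ * X ^ (ε₁ / 40) := by field_simp
    rw [h4] at h1
    linarith
  calc (1 + Real.log X) ^ 5 ≤ ((1 + 40 / ε₁) * X ^ (ε₁ / 40)) ^ 5 := pow_le_pow_left₀ (by linarith) h3 5
    _ = (1 + 40 / ε₁) ^ 5 * X ^ (ε₁ / 8) := by
        rw [mul_pow, ← Real.rpow_natCast (X ^ (ε₁ / 40)), ← Real.rpow_mul hX0.le]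
        congr 2
        push_cast
        ring

theorem FS_fin (ε₁ D X : ℝ) (hε : 0 < ε₁) (hε1 : ε₁ ≤ 1 / 100) (hD : 0 ≤ D) (hX : 1 ≤ X)
    (hX2 : (D + 1) ^ (20 / (3 * ε₁)) ≤ X) :
    D * (Real.sqrt X * X ^ (-(2 / 5 * ε₁))) + 1 ≤ Real.sqrt X * X ^ (-(ε₁ / 4)) := by
  have hX0 : 0 < X := by linarith
  have h1 : 1 ≤ Real.sqrt X * X ^ (-(2 / 5 * ε₁)) := by
    rw [Real.sqrt_eq_rpow, ← Real.rpow_add hX0]
    apply Real.one_le_rpow hX
    linarith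
  have h2 : D + 1 ≤ X ^ (3 * ε₁ / 20) := by
    calc D + 1 = ((D + 1) ^ (20 / (3 * ε₁))) ^ (3 * ε₁ / 20) := by
          rw [← Real.rpow_mul (by linarith)]
          have h3 : 20 / (3 * ε₁) * (3 * ε₁ / 20) = 1 := by field_simp
          rw [h3, Real.rpow_one]
      _ ≤ X ^ (3 * ε₁ / 20) := Real.rpow_le_rpow (by positivity) hX2 (by positivity)
  calc _ ≤ D * (Real.sqrt X * X ^ (-(2 / 5 * ε₁))) + Real.sqrt X * X ^ (-(2 / 5 * ε₁)) := by linarith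
    _ = (D + 1) * (Real.sqrt X * X ^ (-(2 / 5 * ε₁))) := by ring
    _ ≤ X ^ (3 * ε₁ / 20) * (Real.sqrt X * X ^ (-(2 / 5 * ε₁))) := mul_le_mul_of_nonneg_right h2 (by positivity)
    _ = Real.sqrt X * (X ^ (3 * ε₁ / 20) * X ^ (-(2 / 5 * ε₁))) := by ring
    _ = Real.sqrt X * X ^ (-(ε₁ / 4)) := by
        rw [← Real.rpow_add hX0]
        congr 2
        ring

/-- The main terms, bounded. -/
theorem FS_P (δ X : ℝ) (hX : 1 ≤ X) (q : ℕ) (hq : 1 ≤ q) (a : ℤ) (ha : Int.gcd a q = 1) (β : ℝ)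
    (hs : ∑ r ∈ q.divisors, ∑ χ ∈ prim r, wx δ X χ ≤ 3) :
    ‖∑ r ∈ q.divisors, ∑ χ ∈ prim r, (1 / (q.totient : ℂ)) * GSum χ q a * HH δ X X χ β‖ ≤
      Real.sqrt q / q.totient * (3 * Real.sqrt X) * 3 := by
  apply FS_sum_le q.divisors δ X _ (fun r χ => (1 / (q.totient : ℂ)) * GSum χ q a * HH δ X X χ β) _ (by positivity) hs
  intro r hr χ hχ
  rw [Nat.mem_divisors] at hr
  have hr0 : 0 < r := Nat.pos_of_dvd_of_pos hr.1 (by omega)
  have hne : NeZero r := ⟨by omega⟩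
  have h1 := GSum_norm r q χ ((AR_mem_prim χ).1 hχ) hq hr.1 a ha
  have h2 := HH_le δ X X hX le_rfl hr0 χ β
  have h3 : Real.sqrt r ≤ Real.sqrt q := by
    apply Real.sqrt_le_sqrt
    exact_mod_cast Nat.le_of_dvd (by omega) hr.1
  rw [norm_mul, norm_mul, norm_div, norm_one, Complex.norm_natCast]
  have ht : (0 : ℝ) < q.totient := by exact_mod_cast Nat.totient_pos.2 hq
  calc 1 / (q.totient : ℝ) * ‖GSum χ q a‖ * ‖HH δ X X χ β‖ ≤ 1 / (q.totient : ℝ) * Real.sqrt q * (3 * Real.sqrt X * wx δ X χ) := by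
        apply mul_le_mul _ h2 (norm_nonneg _) (by positivity)
        exact mul_le_mul_of_nonneg_left (h1.trans h3) (by positivity)
    _ = Real.sqrt q / q.totient * (3 * Real.sqrt X) * wx δ X χ := by ring

theorem FS_M (δ T X : ℝ) (hX : 1 ≤ X) (hT : T ≤ X) (Q q : ℕ) (hq : 1 ≤ q) (a : ℤ) (ha : Int.gcd a q = 1) (β : ℝ)
    (hs : ∑ r ∈ Icc 1 Q, ∑ χ ∈ prim r, wx δ X χ ≤ 3) :
    ‖∑ r ∈ Icc 1 Q, ∑ χ ∈ prim r, LL Q χ q a * HH δ T X χ β‖ ≤ Real.sqrt q / q.totient * (3 * Real.sqrt X) * 3 := by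
  apply FS_sum_le (Icc 1 Q) δ X _ (fun r χ => LL Q χ q a * HH δ T X χ β) _ (by positivity) hs
  intro r hr χ hχ
  rw [Finset.mem_Icc] at hr
  have hne : NeZero r := ⟨by omega⟩
  have h1 := (LL_facts Q r q χ ((AR_mem_prim χ).1 hχ) hq a ha).2.2.2
  have h2 := HH_le δ T X hX hT hr.1 χ β
  rw [norm_mul]
  calc ‖LL Q χ q a‖ * ‖HH δ T X χ β‖ ≤ Real.sqrt q / q.totient * (3 * Real.sqrt X * wx δ X χ) :=
        mul_le_mul h1 h2 (norm_nonneg _) (by positivity)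
    _ = Real.sqrt q / q.totient * (3 * Real.sqrt X) * wx δ X χ := by ring

theorem FS_M_zero (δ T X : ℝ) (Q q : ℕ) (hq : 1 ≤ q) (a : ℤ) (ha : Int.gcd a q = 1) (β : ℝ) (hQ : Q * Q < q) :
    ∑ r ∈ Icc 1 Q, ∑ χ ∈ prim r, LL Q χ q a * HH δ T X χ β = 0 := by
  refine Finset.sum_eq_zero fun r hr => Finset.sum_eq_zero fun χ hχ => ?_
  rw [Finset.mem_Icc] at hr
  have hne : NeZero r := ⟨by omega⟩
  have h1 := (LL_facts Q r q χ ((AR_mem_prim χ).1 hχ) hq a ha).2.2.1 (lt_of_le_of_lt (Nat.mul_le_mul_right Q hr.2) hQ)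
  rw [h1, zero_mul]

theorem FS_M_div (δ T X : ℝ) (Q q : ℕ) (hq : 1 ≤ q) (hqQ : q ≤ Q) (a : ℤ) (ha : Int.gcd a q = 1) (β : ℝ) :
    ∑ r ∈ Icc 1 Q, ∑ χ ∈ prim r, LL Q χ q a * HH δ T X χ β =
      ∑ r ∈ q.divisors, ∑ χ ∈ prim r, (1 / (q.totient : ℂ)) * GSum χ q a * HH δ T X χ β := by
  symm
  have h1 : q.divisors ⊆ Icc 1 Q := by
    intro r hr
    rw [Nat.mem_divisors] at hr
    rw [Finset.mem_Icc]
    have hr0 : 0 < r := Nat.pos_of_dvd_of_pos hr.1 (by omega)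
    exact ⟨hr0, (Nat.le_of_dvd (by omega) hr.1).trans hqQ⟩
  rw [← Finset.sum_subset h1 (f := fun r => ∑ χ ∈ prim r, LL Q χ q a * HH δ T X χ β)]
  · refine Finset.sum_congr rfl fun r hr => Finset.sum_congr rfl fun χ hχ => ?_
    have hr' := Nat.mem_divisors.1 hr
    have hr0 : 0 < r := Nat.pos_of_dvd_of_pos hr'.1 (by omega)
    have hne : NeZero r := ⟨by omega⟩
    rw [(LL_facts Q r q χ ((AR_mem_prim χ).1 hχ) hq a ha).1 hqQ hr'.1]
  · intro r hr hr2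
    refine Finset.sum_eq_zero fun χ hχ => ?_
    rw [Finset.mem_Icc] at hr
    have hne : NeZero r := ⟨by omega⟩
    have h2 : ¬ r ∣ q := fun h => hr2 (Nat.mem_divisors.2 ⟨h, by omega⟩)
    rw [(LL_facts Q r q χ ((AR_mem_prim χ).1 hχ) hq a ha).2.1 h2, zero_mul]

theorem FS_diff (C δ T X : ℝ) (hC : 0 ≤ C) (q : ℕ) (hq : 1 ≤ q) (a : ℤ) (ha : Int.gcd a q = 1) (β : ℝ)
    (H : ∀ {r : ℕ}, 1 ≤ r → ∀ (χ : DirichletCharacter ℂ r) (β : ℝ),
      ‖HH δ X X χ β - HH δ T X χ β‖ ≤ C * Real.sqrt X * T ^ (-(1 / 2) : ℝ) * wx δ X χ) (hT : 0 ≤ T)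
    (hs : ∑ r ∈ q.divisors, ∑ χ ∈ prim r, wx δ X χ ≤ 3) :
    ‖∑ r ∈ q.divisors, ∑ χ ∈ prim r, (1 / (q.totient : ℂ)) * GSum χ q a * HH δ X X χ β -
      ∑ r ∈ q.divisors, ∑ χ ∈ prim r, (1 / (q.totient : ℂ)) * GSum χ q a * HH δ T X χ β‖ ≤
      Real.sqrt q / q.totient * (C * Real.sqrt X * T ^ (-(1 / 2) : ℝ)) * 3 := by
  simp only [← Finset.sum_sub_distrib, ← mul_sub]
  apply FS_sum_le q.divisors δ X _ (fun r χ => (1 / (q.totient : ℂ)) * GSum χ q a * (HH δ X X χ β - HH δ T X χ β)) _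
    (by positivity) hs
  intro r hr χ hχ
  rw [Nat.mem_divisors] at hr
  have hr0 : 0 < r := Nat.pos_of_dvd_of_pos hr.1 (by omega)
  have hne : NeZero r := ⟨by omega⟩
  have h1 := GSum_norm r q χ ((AR_mem_prim χ).1 hχ) hq hr.1 a ha
  have h2 := H hr0 χ β
  have h3 : Real.sqrt r ≤ Real.sqrt q := by
    apply Real.sqrt_le_sqrt
    exact_mod_cast Nat.le_of_dvd (by omega) hr.1
  rw [norm_mul, norm_mul, norm_div, norm_one, Complex.norm_natCast]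
  have ht : (0 : ℝ) < q.totient := by exact_mod_cast Nat.totient_pos.2 hq
  calc 1 / (q.totient : ℝ) * ‖GSum χ q a‖ * ‖HH δ X X χ β - HH δ T X χ β‖ ≤
      1 / (q.totient : ℝ) * Real.sqrt q * (C * Real.sqrt X * T ^ (-(1 / 2) : ℝ) * wx δ X χ) := by
        apply mul_le_mul _ h2 (norm_nonneg _) (by positivity)
        exact mul_le_mul_of_nonneg_left (h1.trans h3) (by positivity)
    _ = Real.sqrt q / q.totient * (C * Real.sqrt X * T ^ (-(1 / 2) : ℝ)) * wx δ X χ := by ring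

/-- **The small prime is close to its model in the supremum norm of the Fourier transform.**

Proof. `κ₁` and `ε₂` from `fP_near`. Let `Q = ⌊X ^ ε₁⌋₊`, `T = X ^ (2 ε₁)`, `Y = √X`. By Dirichlet's theorem (`Real.exists_int_int_abs_mul_sub_le`, reduce the fraction) with `K = ⌊Y X ^ (-6 ε₁)⌋₊` there are `1 ≤ q ≤ K`, `(a, q) = 1`, `|α - a / q| ≤ 1 / ((K + 1) q) ≤ X ^ (6 ε₁) / (q Y)`, `≤ 1 / q ^ 2`. Let `β = α - a / q`.
(A) `q > X ^ (2 ε₁)` (`≥ Q ^ 2`). `minorP`: `‖F̂P‖ ≤ C (Y X ^ (-ε₁) + X ^ (2/5) + Y X ^ (-3 ε₁)) (1 + log X) ^ 5`; `fM_near`, and `LL = 0` for all `r ≤ Q` (`LL_facts`, `r Q < q`): `‖F̂M‖ ≤ 1`.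
(B) `Q < q ≤ X ^ (2 ε₁)`. `fP_near`, `GSum_norm`, `HH_le`: `‖F̂P‖ ≤ (√q / φ(q)) 3 Y ∑_{r ∣ q} ∑_χ wx δ X χ + Y X ^ (-ε₁)`, and the sum of the weights is at most `1 + Wr (2 ε₁) δ X ≤ 3` (`sum_wx`). `fM_near`, `LL_facts`, `HH_le`: `‖F̂M‖ ≤ (√q / φ(q)) 9 Y + 1`. `totient_low`: `√q / φ(q) ≤ C q ^ (-2/5) ≤ C X ^ (-2 ε₁ / 5)`.
(C) `q ≤ Q`. By `LL_facts` the two main terms are `∑_{r ∣ q} ∑_χ (1 / φ(q)) GSum χ q a H` with `H = HH δ X X χ β` and `H = HH δ T X χ β` (the `r ∈ Icc 1 Q` with `r ∣ q` are the divisors of `q`). Their difference is at most `(√q / φ(q)) C Y T ^ (-1/2) 3` (`HH_trunc`), `√q / φ(q) ≤ C`. -/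
theorem F_sup [SEI] : ∃ κ₁ : ℝ, 0 < κ₁ ∧ κ₁ ≤ 1 / 16 ∧ ∀ δ : ℝ, 0 < δ → δ ≤ κ₁ → ∃ ε₂ : ℝ, 0 < ε₂ ∧ ε₂ ≤ 1 / 100 ∧ ∀ ε₁ : ℝ, 0 < ε₁ → ε₁ ≤ ε₂ → ∃ X₀ : ℝ, 3 ≤ X₀ ∧
    ∀ X : ℝ, X₀ ≤ X → Wr (2 * ε₁) δ X ≤ 2 → ∀ α : ℝ,
    ‖∑ n ∈ Icc 1 ⌊16 * Real.sqrt X⌋₊, (fP X n - fM δ (X ^ (2 * ε₁)) X ⌊X ^ ε₁⌋₊ n) * ee (n * α)‖ ≤ Real.sqrt X * X ^ (-(ε₁ / 4)) := by
  obtain ⟨κ₁, hκ0, hκ1, HP⟩ := fP_near
  obtain ⟨CV, hCV, HV⟩ := minorP
  obtain ⟨CT, hCT, HT⟩ := totient_low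
  obtain ⟨CH, hCH, HH1⟩ := HH_trunc
  refine ⟨κ₁, hκ0, hκ1, ?_⟩
  intro δ hδ hδκ
  have hδ1 : δ ≤ 1 / 16 := hδκ.trans hκ1
  obtain ⟨ε₂, hε20, hε21, HP1⟩ := HP δ hδ hδκ
  refine ⟨ε₂, hε20, hε21, ?_⟩
  intro ε₁ hε hε2
  have hε1 : ε₁ ≤ 1 / 100 := hε2.trans hε21
  obtain ⟨X₁, hX₁, HP2⟩ := HP1 ε₁ hε hε2
  obtain ⟨X₂, hX₂, HM⟩ := fM_near ε₁ δ hε hε1 hδ hδ1
  set D := 3 * CV * (1 + 40 / ε₁) ^ 5 + 18 * CT + 3 * CT * CH + 1 with hD
  have hD0 : 0 ≤ D := by positivity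
  have hp : 0 ≤ (D + 1) ^ (20 / (3 * ε₁)) := by positivity
  refine ⟨X₁ + X₂ + 16 + (D + 1) ^ (20 / (3 * ε₁)), by linarith, ?_⟩
  intro X hX hWr α
  have hX16 : 16 ≤ X := by linarith
  have hX1 : 1 ≤ X := by linarith
  have hX0 : 0 < X := by linarith
  have hY : 0 < Real.sqrt X := Real.sqrt_pos.2 hX0
  set Q := ⌊X ^ ε₁⌋₊ with hQ
  have hQX : (Q : ℝ) ≤ X ^ ε₁ := Nat.floor_le (by positivity)
  have hT1 : 1 ≤ X ^ (2 * ε₁) := Real.one_le_rpow hX1 (by positivity)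
  have hTX : X ^ (2 * ε₁) ≤ X := by
    calc X ^ (2 * ε₁) ≤ X ^ (1 : ℝ) := Real.rpow_le_rpow_of_exponent_le hX1 (by linarith)
      _ = X := Real.rpow_one X
  set K := ⌊Real.sqrt X * X ^ (-(6 * ε₁))⌋₊ with hK
  have hK1 : 0 < K := by
    rw [hK, Nat.floor_pos, Real.sqrt_eq_rpow, ← Real.rpow_add hX0]
    apply Real.one_le_rpow hX1
    linarith
  have hKX : (K : ℝ) ≤ Real.sqrt X * X ^ (-(6 * ε₁)) := Nat.floor_le (by positivity)
  have hKX2 : Real.sqrt X * X ^ (-(6 * ε₁)) < K + 1 := Nat.lt_floor_add_one _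
  obtain ⟨p, hp1, hp2⟩ := Real.exists_rat_abs_sub_le_and_den_le α hK1
  set q := p.den with hqdef
  set a := p.num with hadef
  have hq1 : 1 ≤ q := p.den_pos
  have hq1' : (1 : ℝ) ≤ q := by exact_mod_cast hq1
  have ha : Int.gcd a q = 1 := p.reduced
  have hpa : (p : ℝ) = (a : ℝ) / q := by rw [hadef, hqdef, Rat.cast_def]
  rw [hpa] at hp1
  have hqK : (q : ℝ) ≤ K := by exact_mod_cast hp2
  have hqY : (q : ℝ) ≤ Real.sqrt X * X ^ (-(6 * ε₁)) := hqK.trans hKX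
  have hqY2 : (q : ℝ) ≤ Real.sqrt X := by
    refine hqY.trans ?_
    apply mul_le_of_le_one_right hY.le
    apply Real.rpow_le_one_of_one_le_of_nonpos hX1
    linarith
  set β := α - (a : ℝ) / q with hβdef
  have hαβ : α = (a : ℝ) / q + β := by
    rw [hβdef]
    ring
  have hβ : |β| ≤ X ^ (6 * ε₁) / (q * Real.sqrt X) := by
    refine hp1.trans ?_
    rw [div_le_div_iff₀ (by positivity) (by positivity), one_mul]
    calc (q : ℝ) * Real.sqrt X = q * (Real.sqrt X * X ^ (-(6 * ε₁))) * X ^ (6 * ε₁) := by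
          rw [mul_assoc, mul_assoc, ← Real.rpow_add hX0]
          simp
      _ ≤ q * (K + 1) * X ^ (6 * ε₁) := by
          apply mul_le_mul_of_nonneg_right _ (by positivity)
          exact mul_le_mul_of_nonneg_left hKX2.le (by positivity)
      _ = X ^ (6 * ε₁) * ((K + 1) * q) := by ring
  have hsum : ∑ n ∈ Icc 1 ⌊16 * Real.sqrt X⌋₊, (fP X n - fM δ (X ^ (2 * ε₁)) X Q n) * ee (n * α) =
      ∑ n ∈ Icc 1 ⌊16 * Real.sqrt X⌋₊, fP X n * ee (n * α) -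
        ∑ n ∈ Icc 1 ⌊16 * Real.sqrt X⌋₊, fM δ (X ^ (2 * ε₁)) X Q n * ee (n * α) := by
    rw [← Finset.sum_sub_distrib]
    refine Finset.sum_congr rfl fun n _ => ?_
    ring
  rw [hsum]
  have hM := HM X (by linarith) hWr q hq1 hqY a ha β hβ
  rw [← hQ, ← hαβ] at hM
  refine le_trans ?_ (FS_fin ε₁ D X hε hε1 hD0 hX1 (by linarith))
  have hWr1 : Wr ε₁ δ X ≤ 2 := (Wr_mono ε₁ (2 * ε₁) δ δ X hX1 (by linarith) le_rfl).trans hWr
  have hsQ : ∑ r ∈ Icc 1 Q, ∑ χ ∈ prim r, wx δ X χ ≤ 3 := by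
    rw [hQ, sum_wx ε₁ δ X hX1 hε]
    linarith
  have hYe : 0 ≤ Real.sqrt X * X ^ (-(2 / 5 * ε₁)) := by positivity
  have hYe1 : Real.sqrt X * X ^ (-ε₁) ≤ Real.sqrt X * X ^ (-(2 / 5 * ε₁)) := by
    apply mul_le_mul_of_nonneg_left _ hY.le
    apply Real.rpow_le_rpow_of_exponent_le hX1
    linarith
  have hG0 : 0 ≤ (1 + 40 / ε₁) ^ 5 := by positivity
  by_cases hA : X ^ (2 * ε₁) < q
  · -- minor arcs
    have hQq : Q * Q < q := by
      have h1 : ((Q * Q : ℕ) : ℝ) < q := by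
        push_cast
        calc (Q : ℝ) * Q ≤ X ^ ε₁ * X ^ ε₁ := mul_le_mul hQX hQX (Nat.cast_nonneg _) (by positivity)
          _ = X ^ (2 * ε₁) := by
              rw [← Real.rpow_add hX0]
              congr 1
              ring
          _ < q := hA
      exact_mod_cast h1
    rw [FS_M_zero δ (X ^ (2 * ε₁)) X Q q hq1 a ha β hQq, sub_zero] at hM
    have hβ2 : |α - (a : ℝ) / q| ≤ 1 / (q : ℝ) ^ 2 := by
      refine hp1.trans ?_
      apply div_le_div_of_nonneg_left (by norm_num) (by positivity)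
      rw [sq]
      apply mul_le_mul_of_nonneg_right _ (by positivity)
      linarith
    have hPb := HV X hX16 q a α hq1 hqY2 ha hβ2
    have hlog := FS_log ε₁ X hε hX1
    have e1 : Real.sqrt X / Real.sqrt q ≤ Real.sqrt X * X ^ (-ε₁) := by
      rw [Real.rpow_neg hX0.le, ← div_eq_mul_inv]
      apply div_le_div_of_nonneg_left hY.le (by positivity)
      rw [Real.le_sqrt (by positivity) (by positivity), ← Real.rpow_natCast, ← Real.rpow_mul hX0.le]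
      refine le_trans (le_of_eq ?_) hA.le
      congr 1
      push_cast
      ring
    have e2 : X ^ (2 / 5 : ℝ) ≤ Real.sqrt X * X ^ (-ε₁) := by
      rw [Real.sqrt_eq_rpow, ← Real.rpow_add hX0]
      apply Real.rpow_le_rpow_of_exponent_le hX1
      linarith
    have e3 : Real.sqrt (Real.sqrt X * q) ≤ Real.sqrt X * X ^ (-ε₁) := by
      rw [Real.sqrt_le_left (by positivity)]
      calc Real.sqrt X * q ≤ Real.sqrt X * (Real.sqrt X * X ^ (-(6 * ε₁))) := mul_le_mul_of_nonneg_left hqY hY.le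
        _ = (Real.sqrt X) ^ 2 * X ^ (-(6 * ε₁)) := by ring
        _ ≤ (Real.sqrt X) ^ 2 * X ^ (-(2 * ε₁)) := by
            apply mul_le_mul_of_nonneg_left _ (by positivity)
            apply Real.rpow_le_rpow_of_exponent_le hX1
            linarith
        _ = (Real.sqrt X * X ^ (-ε₁)) ^ 2 := by
            rw [mul_pow, ← Real.rpow_natCast (X ^ (-ε₁)), ← Real.rpow_mul hX0.le]
            congr 2
            push_cast
            ring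
    have e4 : (Real.sqrt X * X ^ (-ε₁)) * X ^ (ε₁ / 8) ≤ Real.sqrt X * X ^ (-(2 / 5 * ε₁)) := by
      rw [mul_assoc, ← Real.rpow_add hX0]
      apply mul_le_mul_of_nonneg_left _ hY.le
      apply Real.rpow_le_rpow_of_exponent_le hX1
      linarith
    have e5 : ‖∑ n ∈ Icc 1 ⌊16 * Real.sqrt X⌋₊, fP X n * ee (n * α)‖ ≤
        3 * CV * (1 + 40 / ε₁) ^ 5 * (Real.sqrt X * X ^ (-(2 / 5 * ε₁))) := by
      refine hPb.trans ?_
      have hl0 : 0 ≤ Real.log X := Real.log_nonneg hX1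
      calc _ ≤ CV * (3 * (Real.sqrt X * X ^ (-ε₁))) * ((1 + 40 / ε₁) ^ 5 * X ^ (ε₁ / 8)) := by
            apply mul_le_mul _ hlog (by positivity) (by positivity)
            apply mul_le_mul_of_nonneg_left _ (by linarith)
            linarith
        _ = 3 * CV * (1 + 40 / ε₁) ^ 5 * ((Real.sqrt X * X ^ (-ε₁)) * X ^ (ε₁ / 8)) := by ring
        _ ≤ _ := mul_le_mul_of_nonneg_left e4 (by positivity)
    refine (norm_sub_le _ _).trans (add_le_add (e5.trans ?_) hM)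
    apply mul_le_mul_of_nonneg_right _ hYe
    rw [hD]
    have h1 : 0 ≤ 18 * CT := by positivity
    have h2 : 0 ≤ 3 * CT * CH := by positivity
    linarith
  · rw [not_lt] at hA
    have hs := FS_div_sum (2 * ε₁) δ X hX1 (by positivity) hWr q hq1 hA
    have hP := HP2 X (by linarith) q hq1 hA a ha β hβ
    rw [← hαβ] at hP
    have htot := HT q hq1
    by_cases hB : Q < q
    · have hXq : X ^ ε₁ ≤ q := by
        have h1 : X ^ ε₁ < Q + 1 := Nat.lt_floor_add_one _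
        have h2 : (Q : ℝ) + 1 ≤ q := by exact_mod_cast hB
        linarith
      have htot2 : Real.sqrt q / q.totient ≤ CT * X ^ (-(2 / 5 * ε₁)) := by
        refine htot.trans ?_
        apply mul_le_mul_of_nonneg_left _ (by linarith)
        rw [Real.rpow_neg (by positivity), Real.rpow_neg hX0.le]
        apply inv_anti₀ (by positivity)
        calc X ^ (2 / 5 * ε₁) = (X ^ ε₁) ^ (2 / 5 : ℝ) := by
              rw [← Real.rpow_mul hX0.le]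
              congr 1
              ring
          _ ≤ (q : ℝ) ^ (2 / 5 : ℝ) := Real.rpow_le_rpow (by positivity) hXq (by norm_num)
      have hmP := FS_P δ X hX1 q hq1 a ha β hs
      have hmM := FS_M δ (X ^ (2 * ε₁)) X hX1 hTX Q q hq1 a ha β hsQ
      have e1 : Real.sqrt q / q.totient * (3 * Real.sqrt X) * 3 ≤ 9 * CT * (Real.sqrt X * X ^ (-(2 / 5 * ε₁))) := by
        calc _ = (Real.sqrt q / q.totient) * (9 * Real.sqrt X) := by ring
          _ ≤ (CT * X ^ (-(2 / 5 * ε₁))) * (9 * Real.sqrt X) := mul_le_mul_of_nonneg_right htot2 (by positivity)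
          _ = _ := by ring
      have e2 : ‖∑ n ∈ Icc 1 ⌊16 * Real.sqrt X⌋₊, fP X n * ee (n * α)‖ ≤
          Real.sqrt X * X ^ (-ε₁) + 9 * CT * (Real.sqrt X * X ^ (-(2 / 5 * ε₁))) := by
        have h1 := norm_le_norm_add_norm_sub' (∑ n ∈ Icc 1 ⌊16 * Real.sqrt X⌋₊, fP X n * ee (n * α))
          (∑ r ∈ q.divisors, ∑ χ ∈ prim r, (1 / (q.totient : ℂ)) * GSum χ q a * HH δ X X χ β)
        linarith
      have e3 : ‖∑ n ∈ Icc 1 ⌊16 * Real.sqrt X⌋₊, fM δ (X ^ (2 * ε₁)) X Q n * ee (n * α)‖ ≤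
          1 + 9 * CT * (Real.sqrt X * X ^ (-(2 / 5 * ε₁))) := by
        have h1 := norm_le_norm_add_norm_sub' (∑ n ∈ Icc 1 ⌊16 * Real.sqrt X⌋₊, fM δ (X ^ (2 * ε₁)) X Q n * ee (n * α))
          (∑ r ∈ Icc 1 Q, ∑ χ ∈ prim r, LL Q χ q a * HH δ (X ^ (2 * ε₁)) X χ β)
        linarith
      refine (norm_sub_le _ _).trans ?_
      have e4 : (1 + 18 * CT) * (Real.sqrt X * X ^ (-(2 / 5 * ε₁))) ≤ D * (Real.sqrt X * X ^ (-(2 / 5 * ε₁))) := by
        apply mul_le_mul_of_nonneg_right _ hYe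
        rw [hD]
        have h1 : 0 ≤ 3 * CV * (1 + 40 / ε₁) ^ 5 := by positivity
        have h2 : 0 ≤ 3 * CT * CH := by positivity
        linarith
      linarith
    · rw [not_lt] at hB
      have hmM := FS_M_div δ (X ^ (2 * ε₁)) X Q q hq1 hB a ha β
      rw [hmM] at hM
      have hd := FS_diff CH δ (X ^ (2 * ε₁)) X (by linarith) q hq1 a ha β
        (fun hr χ β => HH1 δ (X ^ (2 * ε₁)) X hδ hδ1 hX1 hT1 hTX hr χ β) (by positivity) hs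
      have hTe : (X ^ (2 * ε₁)) ^ (-(1 / 2) : ℝ) = X ^ (-ε₁) := by
        rw [← Real.rpow_mul hX0.le]
        congr 1
        ring
      rw [hTe] at hd
      have htot3 : Real.sqrt q / q.totient ≤ CT := by
        refine htot.trans ?_
        apply mul_le_of_le_one_right (by linarith)
        exact Real.rpow_le_one_of_one_le_of_nonpos hq1' (by norm_num)
      have hd2 : Real.sqrt q / q.totient * (CH * Real.sqrt X * X ^ (-ε₁)) * 3 ≤
          3 * CT * CH * (Real.sqrt X * X ^ (-(2 / 5 * ε₁))) := by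
        calc _ = (Real.sqrt q / q.totient) * (3 * CH * (Real.sqrt X * X ^ (-ε₁))) := by ring
          _ ≤ CT * (3 * CH * (Real.sqrt X * X ^ (-ε₁))) := mul_le_mul_of_nonneg_right htot3 (by positivity)
          _ ≤ CT * (3 * CH * (Real.sqrt X * X ^ (-(2 / 5 * ε₁)))) := by
              apply mul_le_mul_of_nonneg_left _ (by linarith)
              exact mul_le_mul_of_nonneg_left hYe1 (by linarith)
          _ = _ := by ring
      have e4 : (1 + 3 * CT * CH) * (Real.sqrt X * X ^ (-(2 / 5 * ε₁))) ≤ D * (Real.sqrt X * X ^ (-(2 / 5 * ε₁))) := by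
        apply mul_le_mul_of_nonneg_right _ hYe
        rw [hD]
        have h1 : 0 ≤ 3 * CV * (1 + 40 / ε₁) ^ 5 := by positivity
        have h2 : 0 ≤ 18 * CT := by positivity
        linarith
      have htri : ∀ x y u v : ℂ, ‖x - y‖ ≤ ‖x - u‖ + ‖u - v‖ + ‖y - v‖ := by
        intro x y u v
        have h1 : x - y = (x - u) + (u - v) - (y - v) := by ring
        rw [h1]
        exact (norm_sub_le _ _).trans (add_le_add (norm_add_le _ _) le_rfl)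
      refine (htri _ _ (∑ r ∈ q.divisors, ∑ χ ∈ prim r, (1 / (q.totient : ℂ)) * GSum χ q a * HH δ X X χ β)
        (∑ r ∈ q.divisors, ∑ χ ∈ prim r, (1 / (q.totient : ℂ)) * GSum χ q a * HH δ (X ^ (2 * ε₁)) X χ β)).trans ?_
      linarith

end Pool.Agent.PSG
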