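import Pool.Agent.W_b58c63_h44.Df

/-!
# Iterated differences of the logarithm
-/

set_option autoImplicit false

noncomputable section

open Finset

namespace Pool.Agent.PSG

/-- Iterated differences are values of the iterated derivative. -/
theorem FdLog_mvt (k : ℕ) : ∀ (G : ℕ → ℝ → ℝ) (x u v : ℝ),
    (∀ i < k, ∀ y ∈ Set.Icc x (x + k), HasDerivAt (G i) (G (i + 1) y) y) →
    (∀ y ∈ Set.Icc x (x + k), u ≤ G k y ∧ G k y ≤ v) →
    u ≤ (fwdDiff (1 : ℝ))^[k] (G 0) x ∧ (fwdDiff (1 : ℝ))^[k] (G 0) x ≤ v := by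
  induction k with
  | zero =>
    intro G x u v _ h
    rw [Function.iterate_zero, id]
    exact h x ⟨le_rfl, by simp⟩
  | succ k ih =>
    intro G x u v hG h
    rw [Function.iterate_succ, Function.comp]
    have hmem : ∀ y ∈ Set.Icc x (x + k), y ∈ Set.Icc x (x + (k + 1 : ℕ)) ∧
        y + 1 ∈ Set.Icc x (x + (k + 1 : ℕ)) := by
      intro y hy
      push_cast
      exact ⟨⟨hy.1, by linarith [hy.2]⟩, ⟨by linarith [hy.1], by linarith [hy.2]⟩⟩
    refine ih (fun i y => G i (y + 1) - G i y) x u v ?_ ?_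
    · intro i hi y hy
      obtain ⟨h1, h2⟩ := hmem y hy
      have h3 := hG i (by omega) y h1
      have h4 := hG i (by omega) (y + 1) h2
      have h5 : HasDerivAt (fun z => G i (z + 1)) (G (i + 1) (y + 1)) y := by
        have h6 := HasDerivAt.comp y h4 ((hasDerivAt_id y).add_const 1)
        simpa [Function.comp_def] using h6
      exact h5.sub h3
    · intro y hy
      obtain ⟨h1, h2⟩ := hmem y hy
      have hsub : ∀ z ∈ Set.Icc y (y + 1), z ∈ Set.Icc x (x + (k + 1 : ℕ)) :=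
        fun z hz => ⟨h1.1.trans hz.1, hz.2.trans h2.2⟩
      obtain ⟨ξ, hξ, h3⟩ := exists_hasDerivAt_eq_slope (G k) (G (k + 1)) (lt_add_one y)
        (fun z hz => (hG k (by omega) z (hsub z hz)).continuousAt.continuousWithinAt)
        (fun z hz => hG k (by omega) z (hsub z (Set.Ioo_subset_Icc_self hz)))
      have h4 : G k (y + 1) - G k y = G (k + 1) ξ := by
        rw [h3, add_sub_cancel_left, div_one]
      rw [h4]
      exact h ξ (hsub ξ (Set.Ioo_subset_Icc_self hξ))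

theorem FdLog_cast (k : ℕ) : ∀ (F : ℝ → ℝ) (m : ℕ),
    (fwdDiff (1 : ℕ))^[k] (fun j : ℕ => F j) m = (fwdDiff (1 : ℝ))^[k] F (m : ℝ) := by
  induction k with
  | zero => intro F m; rfl
  | succ k ih =>
    intro F m
    rw [Function.iterate_succ, Function.iterate_succ, Function.comp, Function.comp, ← ih]
    have h1 : fwdDiff (1 : ℕ) (fun j : ℕ => F j) = fun j : ℕ => fwdDiff (1 : ℝ) F (j : ℝ) := by
      funext j
      simp [fwdDiff]
    rw [h1]

/-- the derivatives of the logarithm -/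
def FdLog_G (b q : ℝ) : ℕ → ℝ → ℝ
  | 0, y => Real.log (b + q * y)
  | i + 1, y => (-1) ^ i * (i.factorial : ℝ) * q ^ (i + 1) * ((b + q * y) ^ (i + 1))⁻¹

theorem FdLog_deriv (b q : ℝ) (i : ℕ) (y : ℝ) (h : 0 < b + q * y) :
    HasDerivAt (FdLog_G b q i) (FdLog_G b q (i + 1) y) y := by
  have h1 : HasDerivAt (fun y : ℝ => b + q * y) q y := by
    have := ((hasDerivAt_id y).const_mul q).const_add b
    simpa using this
  cases i with
  | zero =>
    have h2 := h1.log h.ne'
    refine h2.congr_deriv ?_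
    simp only [FdLog_G]
    simp
    rw [div_eq_mul_inv]
  | succ i =>
    have h2 := (((h1.pow (i + 1)).inv (pow_ne_zero _ h.ne')).const_mul
      ((-1) ^ i * (i.factorial : ℝ) * q ^ (i + 1)))
    refine h2.congr_deriv ?_
    simp only [FdLog_G, Nat.add_sub_cancel, Pi.pow_apply]
    rw [Nat.factorial_succ]
    have h3 := h.ne'
    push_cast
    field_simp
    ring

/-- The iterated differences of `m ↦ log (b + q m)`.

Proof. General fact, by induction on `k`: if `g : ℝ → ℝ` is `C^∞` on `(0, ∞)` and `u ≤ g^(k) ≤ v` on `[x, x + k]`, `x > 0`, then the `k`-th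
forward difference with step `1` of `g` at `x` is in `[u, v]` (for `k = 0` trivial; `Δ g (y) = g (y + 1) - g y` has
`(k - 1)`-st derivative `g^(k-1) (y + 1) - g^(k-1) (y) = g^(k) (ξ)`, `y < ξ < y + 1`, by the mean value theorem). Apply this to
`g y = (-1) ^ (k - 1) log (b + q y)`, `g^(k) (y) = (k - 1)! q ^ k / (b + q y) ^ k`, which is decreasing in `y ≥ 0`, at `x = m`.
Another way: by induction on `k` one proves the identity
`(-1) ^ (k - 1) (fwdDiff 1)^[k] f m = ∫ over t ∈ [0, 1] ^ k of (k - 1)! q ^ k / (b + q (m + t_1 + ... + t_k)) ^ k`. -/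
theorem fwdDiff_log (b : ℝ) (hb : 0 < b) (q : ℕ) (hq : 1 ≤ q) (k : ℕ) (hk : 1 ≤ k) (m : ℕ) :
    ((k - 1).factorial : ℝ) * (q : ℝ) ^ k / (b + q * ((m : ℝ) + k)) ^ k ≤
        (-1) ^ (k - 1) * (fwdDiff (1 : ℕ))^[k] (fun j : ℕ => Real.log (b + q * j)) m ∧
      (-1) ^ (k - 1) * (fwdDiff (1 : ℕ))^[k] (fun j : ℕ => Real.log (b + q * j)) m ≤
        ((k - 1).factorial : ℝ) * (q : ℝ) ^ k / (b + q * (m : ℝ)) ^ k := by
  obtain ⟨j, rfl⟩ : ∃ j, k = j + 1 := ⟨k - 1, by omega⟩
  have hq0 : (0 : ℝ) < q := by exact_mod_cast hq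
  have hm0 : (0 : ℝ) ≤ (m : ℝ) := Nat.cast_nonneg m
  rw [Nat.add_sub_cancel]
  rw [FdLog_cast (j + 1) (fun y => Real.log (b + q * y)) m]
  have hpos : ∀ y ∈ Set.Icc (m : ℝ) (m + (j + 1 : ℕ)), 0 < b + q * y := by
    intro y hy
    have : 0 ≤ (q : ℝ) * y := mul_nonneg hq0.le (hm0.trans hy.1)
    linarith
  have hE : ∀ y ∈ Set.Icc (m : ℝ) (m + (j + 1 : ℕ)),
      (j.factorial : ℝ) * (q : ℝ) ^ (j + 1) / (b + q * ((m : ℝ) + (j + 1 : ℕ))) ^ (j + 1) ≤
        (j.factorial : ℝ) * (q : ℝ) ^ (j + 1) * ((b + q * y) ^ (j + 1))⁻¹ ∧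
      (j.factorial : ℝ) * (q : ℝ) ^ (j + 1) * ((b + q * y) ^ (j + 1))⁻¹ ≤
        (j.factorial : ℝ) * (q : ℝ) ^ (j + 1) / (b + q * (m : ℝ)) ^ (j + 1) := by
    intro y hy
    have h1 := hpos y hy
    have h2 : 0 < b + q * (m : ℝ) := by
      have : 0 ≤ (q : ℝ) * m := mul_nonneg hq0.le hm0
      linarith
    have h3 : b + q * (m : ℝ) ≤ b + q * y := by
      have := mul_le_mul_of_nonneg_left hy.1 hq0.le
      linarith
    have h4 : b + q * y ≤ b + q * ((m : ℝ) + (j + 1 : ℕ)) := by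
      have := mul_le_mul_of_nonneg_left hy.2 hq0.le
      linarith
    rw [← div_eq_mul_inv]
    constructor
    · exact div_le_div_of_nonneg_left (by positivity) (by positivity)
        (pow_le_pow_left₀ h1.le h4 _)
    · exact div_le_div_of_nonneg_left (by positivity) (by positivity)
        (pow_le_pow_left₀ h2.le h3 _)
  rcases Nat.even_or_odd j with hj | hj
  · have key := FdLog_mvt (j + 1) (FdLog_G b q) m
      ((j.factorial : ℝ) * (q : ℝ) ^ (j + 1) / (b + q * ((m : ℝ) + (j + 1 : ℕ))) ^ (j + 1))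
      ((j.factorial : ℝ) * (q : ℝ) ^ (j + 1) / (b + q * (m : ℝ)) ^ (j + 1))
      (fun i _ y hy => FdLog_deriv b q i y (hpos y hy)) (fun y hy => by
        have h1 : FdLog_G b q (j + 1) y =
            (j.factorial : ℝ) * (q : ℝ) ^ (j + 1) * ((b + q * y) ^ (j + 1))⁻¹ := by
          simp only [FdLog_G]
          rw [hj.neg_one_pow, one_mul]
        rw [h1]
        exact hE y hy)
    rw [hj.neg_one_pow, one_mul]
    exact key
  · have key := FdLog_mvt (j + 1) (FdLog_G b q) m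
      (-((j.factorial : ℝ) * (q : ℝ) ^ (j + 1) / (b + q * (m : ℝ)) ^ (j + 1)))
      (-((j.factorial : ℝ) * (q : ℝ) ^ (j + 1) / (b + q * ((m : ℝ) + (j + 1 : ℕ))) ^ (j + 1)))
      (fun i _ y hy => FdLog_deriv b q i y (hpos y hy)) (fun y hy => by
        have h1 : FdLog_G b q (j + 1) y =
            -((j.factorial : ℝ) * (q : ℝ) ^ (j + 1) * ((b + q * y) ^ (j + 1))⁻¹) := by
          simp only [FdLog_G]
          rw [hj.neg_one_pow]
          ring
        rw [h1]
        have h2 := hE y hy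
        constructor
        · linarith [h2.2]
        · linarith [h2.1])
    rw [hj.neg_one_pow]
    have h3 : (fwdDiff (1 : ℝ))^[j + 1] (FdLog_G b q 0) (m : ℝ) =
      (fwdDiff (1 : ℝ))^[j + 1] (fun y => Real.log (b + q * y)) (m : ℝ) := rfl
    rw [h3] at key
    constructor
    · linarith [key.2]
    · linarith [key.1]

end Pool.Agent.PSG
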