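import Pool.Agent.W_b58c63_h44.Df

/-!
# Operations on smooth weights
-/

set_option autoImplicit false

noncomputable section

open Finset Complex

namespace Pool.Agent.PSG

open Pool.Agent.Wb58c63 (ee)

theorem IW_A_nonneg {J : ℕ} {A B : ℝ} {w : ℝ → ℂ} (hw : IsW J A B w) : 0 ≤ A := by
  have h := hw.2.2 0 (Nat.zero_le _) 0
  rw [pow_zero, mul_one] at h
  exact (norm_nonneg _).trans h

theorem IW_zero {w : ℝ → ℂ} (hw : ∀ x, x ∉ Set.Icc (1 / 4 : ℝ) 16 → w x = 0) (j : ℕ) {x : ℝ}
    (hx : x ∉ Set.Icc (1 / 4 : ℝ) 16) : iteratedDeriv j w x = 0 := by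
  have h1 : w =ᶠ[nhds x] fun _ => (0 : ℂ) := by
    filter_upwards [isClosed_Icc.isOpen_compl.mem_nhds hx] with y hy
    exact hw y hy
  have h2 := (h1.iteratedDeriv j).eq_of_nhds
  rw [h2, iteratedDeriv_const]
  split_ifs <;> rfl

theorem IW_iter {f : ℕ → ℝ → ℂ}
    (h : ∀ j, ∀ x : ℝ, 0 < x → HasDerivAt (f j) (f (j + 1) x) x) (j : ℕ) :
    ∀ x : ℝ, 0 < x → iteratedDeriv j (f 0) x = f j x := by
  induction j with
  | zero => intro x _; rw [iteratedDeriv_zero]
  | succ j ih =>
    intro x hx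
    rw [iteratedDeriv_succ]
    have h1 : iteratedDeriv j (f 0) =ᶠ[nhds x] f j := by
      filter_upwards [Ioi_mem_nhds hx] with y hy
      exact ih y hy
    rw [h1.deriv_eq]
    exact (h j x hx).deriv

/-- Proof. Definition. -/
theorem isW_mono {J J' : ℕ} {A B A' B' : ℝ} {w : ℝ → ℂ} (hw : IsW J A B w) (hJ : J' ≤ J) (hB : 0 ≤ B) (hA' : A ≤ A') (hB' : B ≤ B') :
    IsW J' A' B' w := by
  have hA := IW_A_nonneg hw
  have hA'0 : 0 ≤ A' := hA.trans hA'
  refine ⟨hw.1, hw.2.1, fun j hj x => (hw.2.2 j (hj.trans hJ) x).trans ?_⟩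
  exact mul_le_mul hA' (pow_le_pow_left₀ hB hB' j) (pow_nonneg hB j) hA'0

/-- Proof. `iteratedDeriv` is linear on smooth functions. -/
theorem isW_add {J : ℕ} {A A' B : ℝ} {w v : ℝ → ℂ} (hw : IsW J A B w) (hv : IsW J A' B v) : IsW J (A + A') B (fun x => w x + v x) := by
  refine ⟨hw.1.add hv.1, fun x hx => ?_, fun j hj x => ?_⟩
  · simp only [hw.2.1 x hx, hv.2.1 x hx, add_zero]
  · have h1 : iteratedDeriv j (fun x => w x + v x) x = iteratedDeriv j w x + iteratedDeriv j v x :=
      iteratedDeriv_add ((hw.1.of_le (by exact_mod_cast le_top)).contDiffAt)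
        ((hv.1.of_le (by exact_mod_cast le_top)).contDiffAt)
    rw [h1, add_mul]
    exact (norm_add_le _ _).trans (add_le_add (hw.2.2 j hj x) (hv.2.2 j hj x))

/-- Proof. `iteratedDeriv` is linear on smooth functions. -/
theorem isW_smul {J : ℕ} {A B : ℝ} {w : ℝ → ℂ} (hw : IsW J A B w) (c : ℂ) : IsW J (‖c‖ * A) B (fun x => c * w x) := by
  refine ⟨contDiff_const.mul hw.1, fun x hx => ?_, fun j hj x => ?_⟩
  · simp only [hw.2.1 x hx, mul_zero]
  · rw [iteratedDeriv_const_mul_field, norm_mul, mul_assoc]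
    exact mul_le_mul_of_nonneg_left (hw.2.2 j hj x) (norm_nonneg _)

/-- Proof. Induction, `isW_add`. -/
theorem isW_sum {J : ℕ} {B : ℝ} {ι : Type*} (s : Finset ι) (A : ι → ℝ) (w : ι → ℝ → ℂ) (hw : ∀ i ∈ s, IsW J (A i) B (w i)) :
    IsW J (∑ i ∈ s, A i) B (fun x => ∑ i ∈ s, w i x) := by
  classical
  induction s using Finset.induction_on with
  | empty =>
    simp only [Finset.sum_empty]
    refine ⟨contDiff_const, fun _ _ => rfl, fun j _ x => ?_⟩
    rw [iteratedDeriv_const, zero_mul]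
    split_ifs <;> simp
  | insert a s ha ih =>
    simp only [Finset.sum_insert ha]
    exact isW_add (hw a (Finset.mem_insert_self a s))
      (ih fun i hi => hw i (Finset.mem_insert_of_mem hi))

/-- Products with functions which are smooth on the positive half line.

Proof. The product is smooth: on `(0, ∞)` as a product of smooth functions, and it is zero on `(-∞, 1/4)`. Off `[1/4, 16]` it vanishes together with its derivatives (open set; at the boundary points by continuity), and on `[1/4, 16]` the Leibniz rule gives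
`∑_i C(j, i) A B ^ i A' B' ^ (j - i) = A A' (B + B') ^ j` (`norm_iteratedFDeriv_mul_le` / its `Within` version on `Ioi 0`, and `norm_iteratedFDeriv_eq_norm_iteratedDeriv`). -/
theorem isW_mul {J : ℕ} {A B A' B' : ℝ} {w u : ℝ → ℂ} (hw : IsW J A B w) (hu : ContDiffOn ℝ (⊤ : ℕ∞) u (Set.Ioi 0))
    (hB : 0 ≤ B) (hB' : 0 ≤ B') (hub : ∀ j ≤ J, ∀ x ∈ Set.Icc (1 / 4 : ℝ) 16, ‖iteratedDeriv j u x‖ ≤ A' * B' ^ j) :
    IsW J (A * A') (B + B') (fun x => w x * u x) := by
  have hA := IW_A_nonneg hw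
  have hA' : 0 ≤ A' := by
    have h := hub 0 (Nat.zero_le _) 1 ⟨by norm_num, by norm_num⟩
    rw [pow_zero, mul_one] at h
    exact (norm_nonneg _).trans h
  have hz : ∀ x, x ∉ Set.Icc (1 / 4 : ℝ) 16 → w x * u x = 0 := fun x hx => by
    rw [hw.2.1 x hx, zero_mul]
  refine ⟨?_, hz, fun j hj x => ?_⟩
  · rw [contDiff_iff_contDiffAt]
    intro x
    rcases lt_or_ge 0 x with hx | hx
    · exact hw.1.contDiffAt.mul (hu.contDiffAt (Ioi_mem_nhds hx))
    · have h1 : (fun x => w x * u x) =ᶠ[nhds x] fun _ => (0 : ℂ) := by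
        filter_upwards [Iio_mem_nhds (show x < 1 / 4 by linarith)] with y hy
        exact hz y fun h => absurd h.1 (not_le.2 hy)
      exact contDiffAt_const.congr_of_eventuallyEq h1
  · by_cases hx : x ∈ Set.Icc (1 / 4 : ℝ) 16
    · have hx0 : x ∈ Set.Ioi (0 : ℝ) := by
        have := hx.1
        exact lt_of_lt_of_le (by norm_num) this
      have h1 := norm_iteratedFDerivWithin_mul_le (𝕜 := ℝ) (n := j) (N := (⊤ : ℕ∞))
        hw.1.contDiffOn hu (isOpen_Ioi.uniqueDiffOn) hx0 (by exact_mod_cast le_top)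
      simp only [iteratedFDerivWithin_of_isOpen _ isOpen_Ioi hx0,
        norm_iteratedFDeriv_eq_norm_iteratedDeriv] at h1
      refine h1.trans ?_
      have h2 : A * A' * (B + B') ^ j = ∑ i ∈ Finset.range (j + 1),
          (j.choose i : ℝ) * (A * B ^ i) * (A' * B' ^ (j - i)) := by
        rw [add_pow, Finset.mul_sum]
        refine Finset.sum_congr rfl fun i _ => ?_
        ring
      rw [h2]
      refine Finset.sum_le_sum fun i hi => ?_
      have hij : i ≤ j := Nat.lt_succ_iff.1 (Finset.mem_range.1 hi)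
      have h3 := hw.2.2 i (hij.trans hj) x
      have h4 := hub (j - i) ((Nat.sub_le _ _).trans hj) x hx
      have h5 : 0 ≤ A * B ^ i := mul_nonneg hA (pow_nonneg hB i)
      exact mul_le_mul (mul_le_mul_of_nonneg_left h3 (Nat.cast_nonneg _)) h4 (norm_nonneg _)
        (mul_nonneg (Nat.cast_nonneg _) h5)
    · rw [IW_zero hz j hx, norm_zero]
      have : 0 ≤ B + B' := add_nonneg hB hB'
      positivity

/-- Twist by `x ^ s`.

Proof. `isW_mul`: the `j`-th derivative of `x ^ s` for `x > 0` is `s (s - 1) ... (s - j + 1) x ^ (s - j)`, of norm at most `(‖s‖ + J) ^ j x ^ (Re s) x ^ (-j) ≤ 256 (4 (‖s‖ + J)) ^ j` for `x ∈ [1/4, 16]`, `|Re s| ≤ 2`. -/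
theorem isW_cpow {J : ℕ} {A B : ℝ} {w : ℝ → ℂ} (hw : IsW J A B w) (hB : 0 ≤ B) (s : ℂ) (hs : |s.re| ≤ 2) :
    IsW J (256 * A) (B + 4 * (‖s‖ + J)) (fun x => w x * (x : ℂ) ^ s) := by
  have hderiv : ∀ j : ℕ, ∀ x : ℝ, 0 < x → iteratedDeriv j (fun x : ℝ => (x : ℂ) ^ s) x =
      (∏ i ∈ Finset.range j, (s - i)) * (x : ℂ) ^ (s - j) := by
    have h := IW_iter (f := fun (j : ℕ) (x : ℝ) =>
      (∏ i ∈ Finset.range j, (s - i)) * (x : ℂ) ^ (s - j)) (fun j x hx => by
        have h1 : HasDerivAt (fun z : ℂ => z ^ (s - j)) ((s - j) * (x : ℂ) ^ (s - j - 1) * 1)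
            (x : ℂ) := (hasDerivAt_id (x : ℂ)).cpow_const (Or.inl (by simpa using hx))
        have h2 := h1.comp_ofReal.const_mul (∏ i ∈ Finset.range j, (s - i))
        have h3 : (∏ i ∈ Finset.range j, (s - i)) * ((s - j) * (x : ℂ) ^ (s - j - 1) * 1) =
            (∏ i ∈ Finset.range (j + 1), (s - i)) * (x : ℂ) ^ (s - (j + 1 : ℕ)) := by
          rw [Finset.prod_range_succ, mul_one, mul_assoc]
          congr 3
          push_cast
          ring
        rw [h3] at h2
        exact h2)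
    intro j x hx
    have h2 := h j x hx
    simp only [Finset.range_zero, Finset.prod_empty, Nat.cast_zero, sub_zero, one_mul] at h2
    exact h2
  have hu : ContDiffOn ℝ (⊤ : ℕ∞) (fun x : ℝ => (x : ℂ) ^ s) (Set.Ioi 0) := by
    have h1 : ContDiffOn ℝ (⊤ : ℕ∞) (fun x : ℝ => Complex.exp ((Real.log x : ℂ) * s))
        (Set.Ioi 0) := by
      intro x hx
      have h2 : ContDiffAt ℝ (⊤ : ℕ∞) Real.log x := Real.contDiffAt_log.2 (ne_of_gt hx)
      have h3 : ContDiffAt ℝ (⊤ : ℕ∞) (fun x : ℝ => (Real.log x : ℂ)) x :=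
        Complex.ofRealCLM.contDiff.contDiffAt.comp x h2
      exact (h3.mul contDiffAt_const).cexp.contDiffWithinAt
    refine h1.congr fun x hx => ?_
    have hx0 : (x : ℂ) ≠ 0 := by exact_mod_cast (ne_of_gt hx)
    rw [Complex.cpow_def_of_ne_zero hx0, Complex.ofReal_log (le_of_lt hx)]
  have h := isW_mul (A' := 256) (B' := 4 * (‖s‖ + J)) hw hu hB (by positivity) ?_
  · have e : A * 256 = 256 * A := by ring
    rwa [e] at h
  · intro j hj x hx
    have hx0 : 0 < x := lt_of_lt_of_le (by norm_num) hx.1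
    rw [hderiv j x hx0, norm_mul, norm_prod,
      Complex.norm_cpow_eq_rpow_re_of_pos hx0]
    have h1 : ∏ i ∈ Finset.range j, ‖s - i‖ ≤ (‖s‖ + J) ^ j := by
      calc ∏ i ∈ Finset.range j, ‖s - i‖ ≤ ∏ _i ∈ Finset.range j, (‖s‖ + J) := by
            refine Finset.prod_le_prod (fun i _ => norm_nonneg _) fun i hi => ?_
            refine (norm_sub_le _ _).trans (add_le_add le_rfl ?_)
            rw [Complex.norm_natCast]
            have : i ≤ J := ((Finset.mem_range.1 hi).le).trans hj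
            exact_mod_cast this
        _ = (‖s‖ + J) ^ j := by rw [Finset.prod_const, Finset.card_range]
    have h2 : x ^ (s - (j : ℂ)).re ≤ 256 * 4 ^ j := by
      have e1 : (s - (j : ℂ)).re = s.re - j := by simp
      rw [e1, Real.rpow_sub hx0, Real.rpow_natCast, div_eq_mul_inv, ← inv_pow]
      have h3 : x ^ s.re ≤ 256 := by
        have hs' := abs_le.1 hs
        rcases le_total 1 x with hx1 | hx1
        · calc x ^ s.re ≤ x ^ (2 : ℝ) := Real.rpow_le_rpow_of_exponent_le hx1 hs'.2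
            _ ≤ 16 ^ (2 : ℝ) := Real.rpow_le_rpow hx0.le hx.2 (by norm_num)
            _ = 256 := by norm_num
        · calc x ^ s.re ≤ x ^ (-2 : ℝ) := Real.rpow_le_rpow_of_exponent_ge hx0 hx1 hs'.1
            _ ≤ (1 / 4 : ℝ) ^ (-2 : ℝ) :=
              Real.rpow_le_rpow_of_nonpos (by norm_num) hx.1 (by norm_num)
            _ ≤ 256 := by
              rw [Real.rpow_neg (by norm_num)]
              norm_num
      have h4 : x⁻¹ ^ j ≤ 4 ^ j := by
        refine pow_le_pow_left₀ (by positivity) ?_ j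
        rw [inv_le_comm₀ hx0 (by norm_num)]
        have := hx.1
        norm_num at this ⊢
        linarith
      exact mul_le_mul h3 h4 (by positivity) (by norm_num)
    calc (∏ i ∈ Finset.range j, ‖s - i‖) * x ^ (s - (j : ℂ)).re ≤
        (‖s‖ + J) ^ j * (256 * 4 ^ j) :=
          mul_le_mul h1 h2 (by positivity) (by positivity)
      _ = 256 * (4 * (‖s‖ + J)) ^ j := by rw [mul_pow]; ring

/-- Twist by an exponential.

Proof. `isW_mul`: the derivatives of `ee (x b)` have norm `(2 π |b|) ^ j`. -/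
theorem isW_ee {J : ℕ} {A B : ℝ} {w : ℝ → ℂ} (hw : IsW J A B w) (hB : 0 ≤ B) (b : ℝ) :
    IsW J A (B + 2 * Real.pi * |b|) (fun x => w x * ee (x * b)) := by
  have hd : ∀ x : ℝ, HasDerivAt (fun x : ℝ => ee (x * b)) ((2 * Real.pi * Complex.I * b) * ee (x * b)) x := by
    intro x
    have h1 : HasDerivAt (fun z : ℂ => Complex.exp (2 * Real.pi * Complex.I * b * z))
        (Complex.exp (2 * Real.pi * Complex.I * b * x) * (2 * Real.pi * Complex.I * b * 1))
        (x : ℂ) := ((hasDerivAt_id (x : ℂ)).const_mul _).cexp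
    have h2 := h1.comp_ofReal
    have e1 : (fun y : ℝ => Complex.exp (2 * Real.pi * Complex.I * b * y)) =
        fun y : ℝ => ee (y * b) := by
      funext y
      unfold ee
      congr 1
      push_cast
      ring
    rw [e1] at h2
    have e2 : Complex.exp (2 * Real.pi * Complex.I * b * x) * (2 * Real.pi * Complex.I * b * 1) =
        (2 * Real.pi * Complex.I * b) * ee (x * b) := by
      have e3 : Complex.exp (2 * Real.pi * Complex.I * b * x) = ee (x * b) := congrFun e1 x
      rw [e3]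
      ring
    rw [e2] at h2
    exact h2
  have hn : ∀ x : ℝ, ‖ee x‖ = 1 := by
    intro x
    unfold ee
    have e1 : 2 * (Real.pi : ℂ) * Complex.I * x = ((2 * Real.pi * x : ℝ) : ℂ) * Complex.I := by
      push_cast
      ring
    rw [e1, Complex.norm_exp_ofReal_mul_I]
  have hderiv : ∀ j : ℕ, ∀ x : ℝ, 0 < x → iteratedDeriv j (fun x : ℝ => ee (x * b)) x =
      (2 * Real.pi * Complex.I * b) ^ j * ee (x * b) := by
    have h := IW_iter (f := fun (j : ℕ) (x : ℝ) =>
      (2 * Real.pi * Complex.I * b) ^ j * ee (x * b)) (fun j x _ => by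
        have h2 := (hd x).const_mul ((2 * Real.pi * Complex.I * b) ^ j)
        have h3 : (2 * Real.pi * Complex.I * b) ^ j *
            (2 * Real.pi * Complex.I * b * ee (x * b)) =
            (2 * Real.pi * Complex.I * b) ^ (j + 1) * ee (x * b) := by ring
        rw [h3] at h2
        exact h2)
    intro j x hx
    have h2 := h j x hx
    simp only [pow_zero, one_mul] at h2
    exact h2
  have hu : ContDiffOn ℝ (⊤ : ℕ∞) (fun x : ℝ => ee (x * b)) (Set.Ioi 0) := by
    have h1 : ContDiff ℝ (⊤ : ℕ∞) (fun x : ℝ => ((x * b : ℝ) : ℂ)) :=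
      Complex.ofRealCLM.contDiff.comp (contDiff_id.mul contDiff_const)
    have h2 : ContDiff ℝ (⊤ : ℕ∞) (fun x : ℝ => ee (x * b)) := by
      unfold ee
      exact (contDiff_const.mul h1).cexp
    exact h2.contDiffOn
  have h := isW_mul (A' := 1) (B' := 2 * Real.pi * |b|) hw hu hB (by positivity) ?_
  · rwa [mul_one] at h
  · intro j _ x hx
    have hx0 : 0 < x := lt_of_lt_of_le (by norm_num) hx.1
    rw [hderiv j x hx0, norm_mul, hn, mul_one, norm_pow, one_mul]
    have e1 : ‖(2 * Real.pi * Complex.I * b : ℂ)‖ = 2 * Real.pi * |b| := by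
      rw [norm_mul, norm_mul, norm_mul, Complex.norm_I, Complex.norm_real, Complex.norm_real,
        Real.norm_eq_abs, Real.norm_eq_abs, abs_of_pos Real.pi_pos]
      simp
    rw [e1]

/-- Twist by the logarithm.

Proof. `isW_mul`: `|log x| ≤ 3` on `[1/4, 16]`, and the `j`-th derivative, `j ≥ 1`, is `± (j - 1)! x ^ (-j)`, at most `J! 4 ^ j`. -/
theorem isW_log {J : ℕ} {A B : ℝ} {w : ℝ → ℂ} (hw : IsW J A B w) (hB : 0 ≤ B) :
    IsW J ((3 + (J.factorial : ℝ)) * A) (B + 4) (fun x => w x * (Real.log x : ℂ)) := by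
  have hderiv : ∀ j : ℕ, ∀ x : ℝ, 0 < x →
      iteratedDeriv (j + 1) (fun x : ℝ => (Real.log x : ℂ)) x =
      (-1) ^ j * (j.factorial : ℂ) * ((x : ℂ) ^ (j + 1))⁻¹ := by
    have h := IW_iter (f := fun j => match j with
      | 0 => fun x : ℝ => (Real.log x : ℂ)
      | j + 1 => fun x : ℝ => (-1) ^ j * (j.factorial : ℂ) * ((x : ℂ) ^ (j + 1))⁻¹)
      (fun j x hx => by
        have hx0 : (x : ℂ) ≠ 0 := by exact_mod_cast hx.ne'
        cases j with
        | zero =>
          have h1 := (Real.hasDerivAt_log hx.ne').ofReal_comp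
          have e1 : ((x⁻¹ : ℝ) : ℂ) = (-1) ^ 0 * ((0 : ℕ).factorial : ℂ) * ((x : ℂ) ^ (0 + 1))⁻¹ := by
            simp
          rw [e1] at h1
          exact h1
        | succ j =>
          have h1 : HasDerivAt (fun z : ℂ => (z ^ (j + 1))⁻¹)
              (-(((j + 1 : ℕ) : ℂ) * (x : ℂ) ^ j) / ((x : ℂ) ^ (j + 1)) ^ 2) (x : ℂ) := by
            have h2 := hasDerivAt_pow (j + 1) (x : ℂ)
            exact h2.fun_inv (pow_ne_zero _ hx0)
          have h3 := h1.comp_ofReal.const_mul ((-1) ^ j * (j.factorial : ℂ))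
          have e1 : (-1) ^ j * (j.factorial : ℂ) *
              (-(((j + 1 : ℕ) : ℂ) * (x : ℂ) ^ j) / ((x : ℂ) ^ (j + 1)) ^ 2) =
              (-1) ^ (j + 1) * ((j + 1).factorial : ℂ) * ((x : ℂ) ^ (j + 1 + 1))⁻¹ := by
            rw [Nat.factorial_succ]
            push_cast
            field_simp
            ring
          rw [e1] at h3
          exact h3)
    intro j x hx
    exact h (j + 1) x hx
  have hu : ContDiffOn ℝ (⊤ : ℕ∞) (fun x : ℝ => (Real.log x : ℂ)) (Set.Ioi 0) := by
    intro x hx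
    have h2 : ContDiffAt ℝ (⊤ : ℕ∞) Real.log x := Real.contDiffAt_log.2 (ne_of_gt hx)
    exact (Complex.ofRealCLM.contDiff.contDiffAt.comp x h2).contDiffWithinAt
  have h := isW_mul (A' := 3 + (J.factorial : ℝ)) (B' := 4) hw hu hB (by norm_num) ?_
  · have e : A * (3 + (J.factorial : ℝ)) = (3 + (J.factorial : ℝ)) * A := by ring
    rwa [e] at h
  · intro j hj x hx
    have hx0 : 0 < x := lt_of_lt_of_le (by norm_num) hx.1
    have hJ : (0 : ℝ) ≤ J.factorial := Nat.cast_nonneg _
    cases j with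
    | zero =>
      rw [iteratedDeriv_zero, pow_zero, mul_one, Complex.norm_real, Real.norm_eq_abs]
      have h16 : Real.log 16 ≤ 3 := by
        have e1 : (16 : ℝ) = 2 ^ 4 := by norm_num
        rw [e1, Real.log_pow]
        have := Real.log_two_lt_d9
        push_cast
        linarith
      have h4 : Real.log 4 ≤ 3 := (Real.log_le_log (by norm_num) (by norm_num)).trans h16
      have h1 : |Real.log x| ≤ 3 := by
        rw [abs_le]
        constructor
        · have h5 := Real.log_le_log (by norm_num) hx.1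
          have e2 : Real.log (1 / 4) = - Real.log 4 := by
            rw [one_div, Real.log_inv]
          linarith
        · exact (Real.log_le_log hx0 hx.2).trans h16
      linarith
    | succ j =>
      rw [hderiv j x hx0, norm_mul, norm_mul, norm_pow, norm_neg, norm_one, one_pow, one_mul,
        Complex.norm_natCast, norm_inv, norm_pow, Complex.norm_real, Real.norm_eq_abs,
        abs_of_pos hx0]
      have h1 : (j.factorial : ℝ) ≤ 3 + J.factorial := by
        have : j.factorial ≤ J.factorial := Nat.factorial_le (by omega)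
        have : (j.factorial : ℝ) ≤ J.factorial := by exact_mod_cast this
        linarith
      have h2 : (x ^ (j + 1))⁻¹ ≤ 4 ^ (j + 1) := by
        rw [← inv_pow]
        refine pow_le_pow_left₀ (by positivity) ?_ _
        rw [inv_le_comm₀ hx0 (by norm_num)]
        have := hx.1
        norm_num at this ⊢
        linarith
      exact mul_le_mul h1 h2 (by positivity) (by positivity)

/-- Fixed weights.

Proof. The derivatives of a smooth function with compact support are bounded; take the maximum over `j ≤ J`. -/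
theorem isW_exists (w : ℝ → ℂ) (h1 : ContDiff ℝ (⊤ : ℕ∞) w) (h2 : ∀ x, x ∉ Set.Icc (1 / 4 : ℝ) 16 → w x = 0) (J : ℕ) :
    ∃ A : ℝ, 1 ≤ A ∧ IsW J A 1 w := by
  have hb : ∀ j : ℕ, ∃ M : ℝ, 0 ≤ M ∧ ∀ x, ‖iteratedDeriv j w x‖ ≤ M := by
    intro j
    have hc : Continuous (iteratedDeriv j w) := h1.continuous_iteratedDeriv j (by exact_mod_cast le_top)
    obtain ⟨M, hM⟩ := (isCompact_Icc (a := (1 / 4 : ℝ)) (b := 16)).exists_bound_of_continuousOn
      hc.continuousOn
    refine ⟨max M 0, le_max_right _ _, fun x => ?_⟩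
    by_cases hx : x ∈ Set.Icc (1 / 4 : ℝ) 16
    · exact (hM x hx).trans (le_max_left _ _)
    · rw [IW_zero h2 j hx, norm_zero]
      exact le_max_right _ _
  choose M hM0 hM using hb
  refine ⟨1 + ∑ j ∈ Finset.range (J + 1), M j, ?_, h1, h2, fun j hj x => ?_⟩
  · have := Finset.sum_nonneg (s := Finset.range (J + 1)) fun j _ => hM0 j
    linarith
  · rw [one_pow, mul_one]
    have h3 : M j ≤ ∑ j ∈ Finset.range (J + 1), M j :=
      Finset.single_le_sum (f := M) (fun i _ => hM0 i) (Finset.mem_range.2 (by omega))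
    linarith [hM j x]

end Pool.Agent.PSG
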