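import Pool.Agent.W_b58c63_h44.Df

/-!
# The Kusmin-Landau inequality
-/

set_option autoImplicit false

noncomputable section

open Finset

namespace Pool.Agent.PSG

open Pool.Agent.Wb58c63 (ee)

/-- The cotangent of `π x`. -/
def KL_G (x : ℝ) : ℝ := Real.cos (Real.pi * x) / Real.sin (Real.pi * x)

/-- `1 / (ee x - 1)`. -/
def KL_c (x : ℝ) : ℂ := -(1 + Complex.I * (KL_G x : ℂ)) / 2

theorem KL_sin_ge {x D : ℝ} (hD : 0 < D) (h1 : D ≤ x) (h2 : x ≤ 1 - D) :
    2 * D ≤ Real.sin (Real.pi * x) := by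
  have hpi := Real.pi_pos
  rcases le_total x (1 / 2) with h | h
  · have h3 := Real.mul_le_sin (x := Real.pi * x) (mul_nonneg hpi.le (by linarith)) (by nlinarith)
    have e : 2 / Real.pi * (Real.pi * x) = 2 * x := by field_simp
    rw [e] at h3
    linarith
  · have h3 := Real.mul_le_sin (x := Real.pi * (1 - x)) (mul_nonneg hpi.le (by linarith))
      (by nlinarith)
    have e : 2 / Real.pi * (Real.pi * (1 - x)) = 2 * (1 - x) := by field_simp
    have e2 : Real.sin (Real.pi * (1 - x)) = Real.sin (Real.pi * x) := by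
      have : Real.pi * (1 - x) = Real.pi - Real.pi * x := by ring
      rw [this, Real.sin_pi_sub]
    rw [e, e2] at h3
    linarith

theorem KL_G_abs {x D : ℝ} (hD : 0 < D) (h1 : D ≤ x) (h2 : x ≤ 1 - D) :
    |KL_G x| ≤ 1 / (2 * D) := by
  have h3 := KL_sin_ge hD h1 h2
  have h4 : 0 < 2 * D := by linarith
  have h5 : 0 < Real.sin (Real.pi * x) := lt_of_lt_of_le h4 h3
  unfold KL_G
  rw [abs_div, abs_of_pos h5]
  calc |Real.cos (Real.pi * x)| / Real.sin (Real.pi * x) ≤ 1 / Real.sin (Real.pi * x) :=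
        div_le_div_of_nonneg_right (Real.abs_cos_le_one _) h5.le
    _ ≤ 1 / (2 * D) := one_div_le_one_div_of_le h4 h3

theorem KL_G_anti {x y D : ℝ} (hD : 0 < D) (h1 : D ≤ x) (hxy : x ≤ y) (h2 : y ≤ 1 - D) :
    KL_G y ≤ KL_G x := by
  have hx := KL_sin_ge hD h1 (by linarith)
  have hy := KL_sin_ge hD (by linarith) h2
  have h4 : 0 < 2 * D := by linarith
  have h5 : 0 < Real.sin (Real.pi * x) := lt_of_lt_of_le h4 hx
  have h6 : 0 < Real.sin (Real.pi * y) := lt_of_lt_of_le h4 hy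
  unfold KL_G
  rw [div_le_div_iff₀ h6 h5]
  have h7 : 0 ≤ Real.sin (Real.pi * y - Real.pi * x) := by
    apply Real.sin_nonneg_of_nonneg_of_le_pi
    · nlinarith [Real.pi_pos]
    · nlinarith [Real.pi_pos]
  rw [Real.sin_sub] at h7
  linarith

theorem KL_c_mul {x : ℝ} (h : Real.sin (Real.pi * x) ≠ 0) : KL_c x * (ee x - 1) = 1 := by
  have h1 : ee x = (Complex.cos ((Real.pi * x : ℝ) : ℂ) +
      Complex.sin ((Real.pi * x : ℝ) : ℂ) * Complex.I) ^ 2 := by
    unfold ee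
    rw [← Complex.exp_mul_I, ← Complex.exp_nat_mul]
    congr 1
    push_cast
    ring
  have hs : Complex.sin ((Real.pi * x : ℝ) : ℂ) ≠ 0 := by
    rw [← Complex.ofReal_sin]
    exact Complex.ofReal_ne_zero.mpr h
  have h2 := Complex.sin_sq_add_cos_sq ((Real.pi * x : ℝ) : ℂ)
  unfold KL_c KL_G
  rw [h1, Complex.ofReal_div, Complex.ofReal_cos, Complex.ofReal_sin]
  generalize Complex.sin ((Real.pi * x : ℝ) : ℂ) = s at hs h2 ⊢
  generalize Complex.cos ((Real.pi * x : ℝ) : ℂ) = c at h2 ⊢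
  have hI : Complex.I * Complex.I = -1 := Complex.I_mul_I
  have h3 : (-(1 + Complex.I * (c / s)) / 2) * ((c + s * Complex.I) ^ 2 - 1) * (2 * s) = 2 * s := by
    have e : (-(1 + Complex.I * (c / s)) / 2) * ((c + s * Complex.I) ^ 2 - 1) * (2 * s) =
        -(s + Complex.I * c) * ((c + s * Complex.I) ^ 2 - 1) := by
      field_simp
    rw [e]
    have e3 : Complex.I ^ 3 = -Complex.I := by
      rw [pow_succ, Complex.I_sq]
      ring
    have e4 : -(s + Complex.I * c) * ((c + s * Complex.I) ^ 2 - 1) =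
        -(s * c ^ 2) - 2 * s ^ 2 * c * Complex.I - s ^ 3 * Complex.I ^ 2 + s - Complex.I * c ^ 3 -
          2 * c ^ 2 * s * Complex.I ^ 2 - c * s ^ 2 * Complex.I ^ 3 + Complex.I * c := by
      ring
    rw [e4, e3, Complex.I_sq]
    linear_combination (s - c * Complex.I) * h2
  exact mul_right_cancel₀ (mul_ne_zero two_ne_zero hs) (by rw [h3, one_mul])

theorem KL_c_norm {x D : ℝ} (hD : 0 < D) (h1 : D ≤ x) (h2 : x ≤ 1 - D) :
    ‖KL_c x‖ ≤ 1 / 2 + 1 / (4 * D) := by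
  unfold KL_c
  rw [norm_div, norm_neg, Complex.norm_ofNat]
  have h3 : ‖(1 : ℂ) + Complex.I * (KL_G x : ℂ)‖ ≤ 1 + 1 / (2 * D) := by
    refine (norm_add_le _ _).trans ?_
    rw [norm_one, norm_mul, Complex.norm_I, one_mul, Complex.norm_real, Real.norm_eq_abs]
    linarith [KL_G_abs hD h1 h2]
  have h4 : (1 + 1 / (2 * D)) / 2 = 1 / 2 + 1 / (4 * D) := by
    field_simp
    ring
  rw [← h4]
  exact div_le_div_of_nonneg_right h3 (by norm_num)

theorem KL_c_sub (x y : ℝ) (h : KL_G y ≤ KL_G x) : ‖KL_c y - KL_c x‖ = (KL_G x - KL_G y) / 2 := by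
  have e : KL_c y - KL_c x = Complex.I * (((KL_G x - KL_G y) / 2 : ℝ) : ℂ) := by
    unfold KL_c
    push_cast
    ring
  rw [e, norm_mul, Complex.norm_I, one_mul, Complex.norm_real, Real.norm_eq_abs,
    abs_of_nonneg (by linarith)]

theorem KL_parts (a c : ℕ → ℂ) (K : ℕ) :
    ∑ n ∈ range (K + 1), c n * (a (n + 1) - a n) =
      c K * a (K + 1) - c 0 * a 0 - ∑ n ∈ range K, (c (n + 1) - c n) * a (n + 1) := by
  induction K with
  | zero =>
    simp
    ring
  | succ K ih =>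
    rw [Finset.sum_range_succ, ih, Finset.sum_range_succ _ K]
    ring

/-- **Kusmin-Landau.** If the differences of `f` are increasing and stay at distance at least `D` from the
integers, inside one interval `(m, m + 1)`, then the exponential sum is at most `2 / D`.

Proof. Let `δ n = f (n + 1) - f n - m ∈ [D, 1 - D]` (for `n + 1 < N`), nondecreasing. `ee (f n) =
(ee (f (n + 1)) - ee (f n)) c n` with `c n = 1 / (ee (δ n) - 1) = -(1 + i cot (π δ n)) / 2` (`ee` has period `1`; note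
`ee (f (n+1)) = ee (f n) ee (δ n)`). If `N ≤ 1` the claim is trivial since `2 / D ≥ 4`. Otherwise summation by parts gives
`∑_{n < N - 1} ee (f n) = c (N - 2) ee (f (N - 1)) - c 0 ee (f 0) - ∑_{1 ≤ n ≤ N - 2} (c n - c (n - 1)) ee (f n)`.
Now `|c n| = 1 / (2 sin (π δ n)) ≤ 1 / (4 D)` (`sin (π x) ≥ 2 x` for `0 ≤ x ≤ 1 / 2`, and symmetric), and `‖c n - c (n - 1)‖ =
|cot (π δ n) - cot (π δ (n-1))| / 2`, where `cot (π x)` is decreasing on `(0, 1)`, so the last sum telescopes: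
it is at most `(cot (π δ 0) - cot (π δ (N - 2))) / 2 ≤ (1 / (2 D) + 1 / (2 D)) / 2`, because `|cot (π x)| ≤ 1 / sin (π x) ≤
1 / (2 D)` for `x ∈ [D, 1 - D]`. Adding the last term `ee (f (N - 1))`: the total is at most
`1 + 1 / (4 D) + 1 / (4 D) + 1 / (2 D) ≤ 1 / (2 D) + 1 / D < 2 / D`, as `1 ≤ 1 / (2 D)`. To avoid the cotangent one can
bound `‖c n - c (n - 1)‖ = ‖ee (δ n) - ee (δ (n-1))‖ / (‖ee (δ n) - 1‖ ‖ee (δ (n-1)) - 1‖)
= |sin (π (δ n - δ (n-1)))| / (2 sin (π δ n) sin (π δ (n-1)))`, which is `(cot (π δ (n-1)) - cot (π δ n)) / 2`. -/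
theorem kusmin (f : ℕ → ℝ) (N : ℕ) (D : ℝ) (hD : 0 < D) (hD2 : D ≤ 1 / 2) (m : ℤ)
    (hmono : ∀ n, n + 2 < N → f (n + 1) - f n ≤ f (n + 2) - f (n + 1))
    (hb : ∀ n, n + 1 < N → (m : ℝ) + D ≤ f (n + 1) - f n ∧ f (n + 1) - f n ≤ m + 1 - D) :
    ‖∑ n ∈ range N, ee (f n)‖ ≤ 2 / D := by
  have h4 : 4 ≤ 2 / D := by
    rw [le_div_iff₀ hD]
    linarith
  rcases N with _ | _ | K
  · simp only [Finset.range_zero, Finset.sum_empty, norm_zero]
    linarith
  · rw [zero_add, Finset.sum_range_one, Pool.Agent.Wb58c63.norm_ee]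
    linarith
  · obtain ⟨δ, hδ⟩ : ∃ δ : ℕ → ℝ, ∀ n, δ n = f (n + 1) - f n - m := ⟨_, fun _ => rfl⟩
    have hδb : ∀ n, n ≤ K → D ≤ δ n ∧ δ n ≤ 1 - D := by
      intro n hn
      have h1 := hb n (by omega)
      rw [hδ]
      constructor
      · linarith [h1.1]
      · linarith [h1.2]
    have hδm : ∀ n, n < K → δ n ≤ δ (n + 1) := by
      intro n hn
      have h1 := hmono n (by omega)
      rw [hδ, hδ]
      have e : n + 1 + 1 = n + 2 := rfl
      rw [e]
      linarith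
    have hc : ∀ n, n ≤ K → ee (f n) = KL_c (δ n) * (ee (f (n + 1)) - ee (f n)) := by
      intro n hn
      have h1 : ee (f (n + 1)) = ee (f n) * ee (δ n) := by
        have e : f (n + 1) = f n + δ n + (m : ℝ) := by
          rw [hδ]
          ring
        rw [e, Pool.Agent.Wb58c63.ee_add, Pool.Agent.Wb58c63.ee_add, Pool.Agent.Wb58c63.ee_int,
          mul_one]
      have hs : Real.sin (Real.pi * δ n) ≠ 0 := by
        have := KL_sin_ge hD (hδb n hn).1 (hδb n hn).2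
        intro h0
        rw [h0] at this
        linarith
      have h2 := KL_c_mul hs
      rw [h1]
      linear_combination (-(ee (f n))) * h2
    have hsum : ∑ n ∈ range (K + 1), ee (f n) =
        ∑ n ∈ range (K + 1), KL_c (δ n) * (ee (f (n + 1)) - ee (f n)) := by
      refine Finset.sum_congr rfl fun n hn => ?_
      rw [Finset.mem_range] at hn
      exact hc n (by omega)
    rw [Finset.sum_range_succ, hsum, KL_parts (fun n => ee (f n)) (fun n => KL_c (δ n)) K]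
    have hA : ‖KL_c (δ K) * ee (f (K + 1))‖ ≤ 1 / 2 + 1 / (4 * D) := by
      rw [norm_mul, Pool.Agent.Wb58c63.norm_ee, mul_one]
      exact KL_c_norm hD (hδb K le_rfl).1 (hδb K le_rfl).2
    have hB : ‖KL_c (δ 0) * ee (f 0)‖ ≤ 1 / 2 + 1 / (4 * D) := by
      rw [norm_mul, Pool.Agent.Wb58c63.norm_ee, mul_one]
      exact KL_c_norm hD (hδb 0 (Nat.zero_le _)).1 (hδb 0 (Nat.zero_le _)).2
    have hC : ‖∑ n ∈ range K, (KL_c (δ (n + 1)) - KL_c (δ n)) * ee (f (n + 1))‖ ≤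
        1 / (2 * D) := by
      have h1 : ‖∑ n ∈ range K, (KL_c (δ (n + 1)) - KL_c (δ n)) * ee (f (n + 1))‖ ≤
          ∑ n ∈ range K, (KL_G (δ n) / 2 - KL_G (δ (n + 1)) / 2) := by
        refine (norm_sum_le _ _).trans (Finset.sum_le_sum fun n hn => ?_)
        rw [Finset.mem_range] at hn
        rw [norm_mul, Pool.Agent.Wb58c63.norm_ee, mul_one, KL_c_sub _ _
          (KL_G_anti hD (hδb n (by omega)).1 (hδm n hn) (hδb (n + 1) (by omega)).2)]
        linarith
      rw [Finset.sum_range_sub'] at h1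
      have h2 := abs_le.mp (KL_G_abs hD (hδb 0 (Nat.zero_le _)).1 (hδb 0 (Nat.zero_le _)).2)
      have h3 := abs_le.mp (KL_G_abs hD (hδb K le_rfl).1 (hδb K le_rfl).2)
      linarith [h2.2, h3.1]
    have hE : ‖ee (f (K + 1))‖ = 1 := Pool.Agent.Wb58c63.norm_ee _
    have htot := norm_add_le (KL_c (δ K) * ee (f (K + 1)) - KL_c (δ 0) * ee (f 0) -
      ∑ n ∈ range K, (KL_c (δ (n + 1)) - KL_c (δ n)) * ee (f (n + 1))) (ee (f (K + 1)))
    have h5 := norm_sub_le (KL_c (δ K) * ee (f (K + 1)) - KL_c (δ 0) * ee (f 0))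
      (∑ n ∈ range K, (KL_c (δ (n + 1)) - KL_c (δ n)) * ee (f (n + 1)))
    have h6 := norm_sub_le (KL_c (δ K) * ee (f (K + 1))) (KL_c (δ 0) * ee (f 0))
    have e1 : (1 / 2 + 1 / (4 * D)) + (1 / 2 + 1 / (4 * D)) + 1 / (2 * D) + 1 = 2 + 1 / D := by
      field_simp
      ring
    have e2 : 2 / D = 1 / D + 1 / D := by ring
    have e3 : 2 ≤ 1 / D := by
      rw [le_div_iff₀ hD]
      linarith
    linarith

end Pool.Agent.PSG
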