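import Pool.Agent.W_b58c63_h44.Lan
import Pool.Agent.W_b58c63_h44.LApp

/-!
# The local lemma for L-functions, with effective conductor `X ^ θ`
-/

set_option autoImplicit false

noncomputable section

open Finset Complex

namespace Pool.Agent.PSG

/-- The centre `1 + 1 / (θ log X) + i t`. -/
def cen (θ X t : ℝ) : ℂ := ((1 + 1 / (θ * Real.log X) : ℝ) : ℂ) + t * I

/-- The conclusion of the local lemma: few zeros in the ball of radius `R₀ / 2` about `cen θ X t`, and the partial fraction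
formula for the logarithmic derivative. -/
def LAat (C₁ θ R₀ X : ℝ) {q : ℕ} (χ : DirichletCharacter ℂ q) (t : ℝ) : Prop :=
  ((∑ ρ ∈ zb (EF χ) (cen θ X t) (R₀ / 2), (mz (EF χ) ρ : ℝ)) ≤ C₁ * R₀ * (θ * Real.log X)) ∧
    ∃ H : ℂ → ℂ, DifferentiableOn ℂ H (Metric.ball (cen θ X t) (R₀ / 2)) ∧
      (∀ s, ‖s - cen θ X t‖ ≤ R₀ / 4 → ‖H s‖ ≤ C₁ * (θ * Real.log X)) ∧
      ∀ s ∈ Metric.ball (cen θ X t) (R₀ / 2), EF χ s ≠ 0 →
        deriv (EF χ) s / EF χ s = ∑ ρ ∈ zb (EF χ) (cen θ X t) (R₀ / 2), (mz (EF χ) ρ : ℂ) / (s - ρ) + H s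

/-- **The local lemma for L-functions.** The constant `C₁` is absolute, `R₀` and `X₀` depend on `θ`.

Proof. Let `C₀` be the constant of `landau_ball`, `C₁ = 2 C₀`. Given `θ`, take `c, C, X₀'` from `EF_bound θ` and let
`R₀ = min (c / 2) (1 / 16)`, `L = θ log X`. Let `X` be large, `q ≤ X ^ (θ R₀ / 4)` (so `q ≤ X ^ (θ c / 4)`), `|t| ≤ X ^ (3 / 2)`, `s₀ = cen θ X t`, `‖s - s₀‖ ≤ R₀`. Then
`Re s ≥ 1 + 1 / L - R₀ ≥ 1 - c / 2`, `Re s ≤ 3`, `|Im s| ≤ X ^ (3/2) + 1 ≤ X ^ 2`, `max (1 - Re s) 0 ≤ R₀`. For `χ ≠ 1`: `‖EF χ s‖ ≤ C X ^ (θ R₀) log X` and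
`‖EF χ s₀‖ ≥ 1 / (3 L)` (`EF_lower`), so the ratio is at most `3 C L log X exp (R₀ L) ≤ exp (2 R₀ L)` for large `X`. For `χ = 1`:
`(1 + ‖s - 1‖) / ‖s₀ - 1‖ ≤ (2 + ‖s₀ - 1‖) / ‖s₀ - 1‖ ≤ 1 + 2 L`, since `‖s₀ - 1‖ ≥ 1 / L`, so the ratio is at most
`3 C L (1 + 2 L) log X exp (R₀ L) ≤ exp (2 R₀ L)`. Apply `landau_ball` with `M = 2 R₀ L`, `R = R₀`. -/
theorem LA [WI] : ∃ C₁ : ℝ, 1 ≤ C₁ ∧ ∀ θ : ℝ, 0 < θ → θ ≤ 1 → ∃ R₀ X₀ : ℝ, 0 < R₀ ∧ R₀ ≤ 1 / 16 ∧ 3 ≤ X₀ ∧
    ∀ X : ℝ, X₀ ≤ X → ∀ q : ℕ, 1 ≤ q → (q : ℝ) ≤ X ^ (θ * R₀ / 4) → ∀ χ : DirichletCharacter ℂ q,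
    ∀ t : ℝ, |t| ≤ X ^ (3 / 2 : ℝ) → LAat C₁ θ R₀ X χ t := by
  classical
  obtain ⟨C₀, hC₀, hlan⟩ := landau_ball
  refine ⟨2 * C₀, by linarith, fun θ hθ hθ1 => ?_⟩
  obtain ⟨c, C, X₁, hc, hc4, hC, hX₁, hEF⟩ := EF_bound θ hθ hθ1
  set R₀ := min (c / 2) (1 / 16) with hR₀
  have hR0 : 0 < R₀ := lt_min (by linarith) (by norm_num)
  have hR1 : R₀ ≤ 1 / 16 := min_le_right _ _
  have hR2 : R₀ ≤ c / 2 := min_le_left _ _
  set L₁ := max 1 (216 * C / (θ * R₀ ^ 4)) with hL₁
  refine ⟨R₀, max X₁ (Real.exp (L₁ / θ)), hR0, hR1, hX₁.trans (le_max_left _ _), ?_⟩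
  intro X hX q hq hqX χ t ht
  have hXa : X₁ ≤ X := (le_max_left _ _).trans hX
  have hXb : Real.exp (L₁ / θ) ≤ X := (le_max_right _ _).trans hX
  have hX3 : 3 ≤ X := hX₁.trans hXa
  have hX0 : 0 < X := by linarith
  have hlX : L₁ / θ ≤ Real.log X := (Real.le_log_iff_exp_le hX0).2 hXb
  set L := θ * Real.log X with hL
  have hL1 : L₁ ≤ L := by
    rw [div_le_iff₀ hθ] at hlX
    rw [hL]; linarith
  have hLa : 1 ≤ L := (le_max_left _ _).trans hL1
  have hLb : 216 * C / (θ * R₀ ^ 4) ≤ L := (le_max_right _ _).trans hL1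
  have hL0 : 0 < L := by linarith
  have hlogX : Real.log X = L / θ := by
    rw [hL]; field_simp
  have hre0 : (cen θ X t).re = 1 + 1 / L := by
    rw [cen, ← hL]; simp
  have him0 : (cen θ X t).im = t := by
    rw [cen, ← hL]; simp
  have hne : EF χ (cen θ X t) ≠ 0 := by
    apply EF_ne_zero
    rw [hre0]
    have : 0 ≤ 1 / L := by positivity
    linarith
  have h1L : 1 / L ≤ 1 := by rw [div_le_one hL0]; exact hLa
  have h1L0 : 0 < 1 / L := by positivity
  -- the numerical inequality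
  have hnum : 3 * C * L * (2 * L + 1) * Real.log X ≤ Real.exp (R₀ * L) := by
    have h1 : (R₀ * L) ^ 4 / 24 ≤ Real.exp (R₀ * L) := by
      have := Real.pow_div_factorial_le_exp (R₀ * L) (by positivity) 4
      have h4 : ((4 : ℕ).factorial : ℝ) = 24 := by norm_num [Nat.factorial]
      rwa [h4] at this
    refine le_trans ?_ h1
    rw [hlogX]
    have h2 : 216 * C ≤ L * (θ * R₀ ^ 4) := by
      rwa [div_le_iff₀ (by positivity)] at hLb
    have h3 : 3 * C * L * (2 * L + 1) * (L / θ) ≤ 9 * C * L ^ 3 / θ := by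
      rw [show 9 * C * L ^ 3 / θ = 3 * C * L * (3 * L) * (L / θ) by field_simp; norm_num]
      apply mul_le_mul_of_nonneg_right _ (by positivity)
      apply mul_le_mul_of_nonneg_left _ (by positivity)
      linarith
    refine h3.trans ?_
    rw [div_le_iff₀ hθ]
    have h5 : 216 * C * L ^ 3 ≤ L * (θ * R₀ ^ 4) * L ^ 3 :=
      mul_le_mul_of_nonneg_right h2 (by positivity)
    nlinarith only [h5]
  have hmain : ∀ s, ‖s - cen θ X t‖ ≤ R₀ → ‖EF χ s‖ ≤ Real.exp (2 * R₀ * L) * ‖EF χ (cen θ X t)‖ := by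
    intro s hs
    have hre : |s.re - (1 + 1 / L)| ≤ R₀ := by
      have := (Complex.abs_re_le_norm (s - cen θ X t)).trans hs
      rwa [Complex.sub_re, hre0] at this
    have him : |s.im - t| ≤ R₀ := by
      have := (Complex.abs_im_le_norm (s - cen θ X t)).trans hs
      rwa [Complex.sub_im, him0] at this
    rw [abs_le] at hre him
    have hs1 : 1 - c / 2 ≤ s.re := by linarith [hre.1]
    have hs2 : s.re ≤ 3 := by linarith [hre.2]
    have hs3 : |s.im| ≤ X ^ 2 := by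
      have h32 : X ^ (3 / 2 : ℝ) + 1 ≤ X ^ 2 := by
        have e1 : X ^ (3 / 2 : ℝ) = Real.sqrt X ^ 3 := by
          rw [Real.sqrt_eq_rpow, ← Real.rpow_natCast, ← Real.rpow_mul hX0.le]
          norm_num
        have e2 : X ^ 2 = Real.sqrt X ^ 4 := by
          have := Real.sq_sqrt hX0.le
          nlinarith only [hR0, this, hX₁, hXa, hR1]
        rw [e1, e2]
        have h17 : (17 / 10 : ℝ) ≤ Real.sqrt X := by
          rw [Real.le_sqrt (by norm_num) hX0.le]
          norm_num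
          linarith
        have h3 : (4 : ℝ) ≤ Real.sqrt X ^ 3 := by
          have := pow_le_pow_left₀ (by norm_num : (0 : ℝ) ≤ 17 / 10) h17 3
          norm_num at this ⊢
          linarith
        nlinarith only [h3, h17, hX₁, e2, hXa]
      have h4 : |s.im| ≤ |t| + R₀ := by
        have h5 : |s.im - t| ≤ R₀ := abs_le.2 him
        have h6 : |s.im| ≤ |s.im - t| + |t| := by
          have := abs_add_le (s.im - t) t
          rwa [sub_add_cancel] at this
        linarith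
      linarith only [h32, hR0, ht, h4, hR1]
    have hqc : (q : ℝ) ≤ X ^ (θ * c / 4) := by
      refine hqX.trans (Real.rpow_le_rpow_of_exponent_le (by linarith) ?_)
      have : θ * R₀ ≤ θ * c := mul_le_mul_of_nonneg_left (by linarith) hθ.le
      linarith only [this]
    have h1 := hEF X hXa q hq hqc χ s hs1 hs2 hs3
    have h2 := EF_lower hq χ (cen θ X t) (by rw [hre0]; linarith only [h1L0]) (by rw [hre0]; linarith only [hR0, h1L, hR1])
    rw [hre0, add_sub_cancel_left] at h2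
    set g : ℝ := if χ = 1 then 1 + ‖s - 1‖ else 1 with hg
    set g0 : ℝ := if χ = 1 then ‖cen θ X t - 1‖ else 1 with hg0
    have hg00 : 0 ≤ g0 := by
      rw [hg0]; split_ifs
      · exact norm_nonneg _
      · exact zero_le_one
    have hgg : g ≤ (2 * L + 1) * g0 := by
      rw [hg, hg0]
      split_ifs
      · have h3 : 1 / L ≤ ‖cen θ X t - 1‖ := by
          have := Complex.abs_re_le_norm (cen θ X t - 1)
          rw [Complex.sub_re, hre0, Complex.one_re, add_sub_cancel_left, abs_of_pos h1L0] at this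
          exact this
        have h4 : ‖s - 1‖ ≤ ‖s - cen θ X t‖ + ‖cen θ X t - 1‖ := by
          have := norm_add_le (s - cen θ X t) (cen θ X t - 1)
          rwa [sub_add_sub_cancel] at this
        have h5 : 2 ≤ 2 * L * ‖cen θ X t - 1‖ := by
          have := mul_le_mul_of_nonneg_left h3 (by positivity : 0 ≤ 2 * L)
          rw [mul_one_div, mul_div_assoc, div_self hL0.ne', mul_one] at this
          exact this
        nlinarith only [hR0, h5, h4, hR1, hs]
      · nlinarith only [hR0, hLa, hR1]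
    have hpow : X ^ (θ * max (1 - s.re) 0) ≤ Real.exp (R₀ * L) := by
      rw [Real.rpow_def_of_pos hX0, Real.exp_le_exp, hL]
      have h3 : max (1 - s.re) 0 ≤ R₀ := max_le (by linarith [hre.1]) hR0.le
      have h4 : 0 ≤ θ * Real.log X := hL0.le
      nlinarith only [h3, hR0, hLa, hR1]
    have hg1 : 0 ≤ g := by
      rw [hg]; split_ifs
      · positivity
      · exact zero_le_one
    have hlogX0 : 0 ≤ Real.log X := by rw [hlogX]; positivity
    have hE : Real.exp (2 * R₀ * L) = Real.exp (R₀ * L) * Real.exp (R₀ * L) := by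
      rw [← Real.exp_add]; congr 1; ring
    have hEp : 0 < Real.exp (R₀ * L) := Real.exp_pos _
    set e := Real.exp (R₀ * L) with he
    calc ‖EF χ s‖ ≤ C * g * X ^ (θ * max (1 - s.re) 0) * Real.log X := h1
      _ ≤ C * ((2 * L + 1) * g0) * e * Real.log X := by
          apply mul_le_mul_of_nonneg_right _ hlogX0
          apply mul_le_mul _ hpow (by positivity) (by positivity)
          exact mul_le_mul_of_nonneg_left hgg hC.le
      _ = (3 * C * L * (2 * L + 1) * Real.log X) * (e * (1 / L / 3 * g0)) := by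
          field_simp
      _ ≤ e * (e * (1 / L / 3 * g0)) :=
          mul_le_mul_of_nonneg_right hnum (by positivity)
      _ = Real.exp (2 * R₀ * L) * (1 / L / 3 * g0) := by rw [hE]; ring
      _ ≤ _ := mul_le_mul_of_nonneg_left h2 (Real.exp_pos _).le
  obtain ⟨h1, H, h2, h3, h4⟩ := hlan (EF χ) (EF_diff χ) (cen θ X t) R₀ (2 * R₀ * L) hR0 (by linarith)
    (by positivity) hne hmain
  refine ⟨?_, H, h2, ?_, h4⟩
  · rw [← hL]
    refine h1.trans (le_of_eq ?_)
    ring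
  · intro s hs
    refine (h3 s hs).trans (le_of_eq ?_)
    rw [← hL]
    field_simp

end Pool.Agent.PSG
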