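import Pool.Agent.W_b58c63_h44.EFb

/-!
# The local lemma of Landau
-/

set_option autoImplicit false

noncomputable section

open Finset Complex

namespace Pool.Agent.PSG

theorem lan_order_ne_top (F : ℂ → ℂ) (hF : Differentiable ℂ F) (h : ∃ s, F s ≠ 0) (ρ : ℂ) :
    analyticOrderAt F ρ ≠ ⊤ := by
  intro htop
  obtain ⟨s, hs⟩ := h
  have h1 : ∀ᶠ z in nhds ρ, F z = 0 := analyticOrderAt_eq_top.1 htop
  have h2 : AnalyticOnNhd ℂ F Set.univ := fun z _ => hF.analyticAt z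
  have h3 := h2.eqOn_zero_of_preconnected_of_eventuallyEq_zero isPreconnected_univ (Set.mem_univ ρ) h1
  exact hs (h3 (Set.mem_univ s))

theorem lan_remove (F : ℂ → ℂ) (hF : Differentiable ℂ F) (h : ∃ s, F s ≠ 0) (ρ : ℂ) :
    ∃ G : ℂ → ℂ, Differentiable ℂ G ∧ G ρ ≠ 0 ∧ ∀ s, F s = (s - ρ) ^ mz F ρ * G s := by
  classical
  have hA : AnalyticAt ℂ F ρ := hF.analyticAt ρ
  have hne : analyticOrderAt F ρ ≠ ⊤ := lan_order_ne_top F hF h ρ
  have hcast : analyticOrderAt F ρ = (mz F ρ : ℕ∞) := (Nat.cast_analyticOrderNatAt hne).symm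
  obtain ⟨g, hg, hg0, hev⟩ := (hA.analyticOrderAt_eq_natCast).1 hcast
  refine ⟨Function.update (fun s => F s / (s - ρ) ^ mz F ρ) ρ (g ρ), ?_, by simpa using hg0, ?_⟩
  · intro s
    by_cases hs : s = ρ
    · subst hs
      have hh : Function.update (fun z => F z / (z - s) ^ mz F s) s (g s) =ᶠ[nhds s] g := by
        filter_upwards [hev] with z hz
        by_cases hzs : z = s
        · subst hzs; simp
        · rw [Function.update_of_ne hzs, hz, smul_eq_mul]
          have : (z - s) ^ mz F s ≠ 0 := pow_ne_zero _ (sub_ne_zero.2 hzs)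
          field_simp
      exact hg.differentiableAt.congr_of_eventuallyEq hh
    · have hh : Function.update (fun z => F z / (z - ρ) ^ mz F ρ) ρ (g ρ) =ᶠ[nhds s]
          fun z => F z / (z - ρ) ^ mz F ρ := by
        filter_upwards [isOpen_ne.mem_nhds hs] with z hz
        rw [Function.update_of_ne hz]
      refine DifferentiableAt.congr_of_eventuallyEq ?_ hh
      refine (hF s).div (by fun_prop) (pow_ne_zero _ (sub_ne_zero.2 hs))
  · intro s
    by_cases hs : s = ρ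
    · subst hs
      have := hev.self_of_nhds
      rw [this]; simp
    · rw [Function.update_of_ne hs]
      have : (s - ρ) ^ mz F ρ ≠ 0 := pow_ne_zero _ (sub_ne_zero.2 hs)
      field_simp

theorem lan_factor (F : ℂ → ℂ) (hF : Differentiable ℂ F) (h : ∃ s, F s ≠ 0) (Z : Finset ℂ) :
    ∃ G : ℂ → ℂ, Differentiable ℂ G ∧ (∀ ρ ∈ Z, G ρ ≠ 0) ∧
      ∀ s, F s = G s * ∏ ρ ∈ Z, (s - ρ) ^ mz F ρ := by
  classical
  induction Z using Finset.induction_on with
  | empty => exact ⟨F, hF, by simp, by simp⟩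
  | insert ρ Z hρ ih =>
    obtain ⟨G, hG, hG0, hFG⟩ := ih
    have hGne : ∃ s, G s ≠ 0 := by
      obtain ⟨s, hs⟩ := h
      refine ⟨s, fun h0 => hs ?_⟩
      rw [hFG s, h0, zero_mul]
    have hP0 : (∏ ρ' ∈ Z, (ρ - ρ') ^ mz F ρ') ≠ 0 := by
      refine Finset.prod_ne_zero_iff.2 fun ρ' hρ' => pow_ne_zero _ (sub_ne_zero.2 ?_)
      rintro rfl
      exact hρ hρ'
    have hPd : Differentiable ℂ (fun s : ℂ => ∏ ρ' ∈ Z, (s - ρ') ^ mz F ρ') := by
      refine Differentiable.fun_finsetProd fun i _ => ?_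
      fun_prop
    have hord : analyticOrderAt F ρ = analyticOrderAt G ρ := by
      have h1 : F = G * (fun s : ℂ => ∏ ρ' ∈ Z, (s - ρ') ^ mz F ρ') := by
        funext s; exact hFG s
      have h2 : analyticOrderAt (fun s : ℂ => ∏ ρ' ∈ Z, (s - ρ') ^ mz F ρ') ρ = 0 := by
        rw [(hPd.analyticAt ρ).analyticOrderAt_eq_zero]
        exact hP0
      have h3 : analyticOrderAt F ρ =
          analyticOrderAt (G * (fun s : ℂ => ∏ ρ' ∈ Z, (s - ρ') ^ mz F ρ')) ρ :=
        congrArg (fun f => analyticOrderAt f ρ) h1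
      rw [h3, analyticOrderAt_mul (hG.analyticAt ρ) (hPd.analyticAt ρ), h2, add_zero]
    have hmz : mz F ρ = mz G ρ := by
      unfold mz analyticOrderNatAt
      rw [hord]
    obtain ⟨G', hG', hG'0, hGG'⟩ := lan_remove G hG hGne ρ
    refine ⟨G', hG', ?_, ?_⟩
    · intro ρ' hρ'
      rcases Finset.mem_insert.1 hρ' with rfl | hZ
      · exact hG'0
      · intro h0
        apply hG0 ρ' hZ
        rw [hGG' ρ', h0, mul_zero]
    · intro s
      rw [Finset.prod_insert hρ, hFG s, hGG' s, hmz]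
      ring


/-- **The local lemma of Landau.**

Proof. `Z = zb F s₀ (R / 2)` is the set of zeros with `‖ρ - s₀‖ ≤ R / 2`, `m ρ = mz F ρ` (`mem_zb`). There is an entire `G`, without
zeros in the closed ball of radius `R / 2`, with `F s = G s ∏_{ρ ∈ Z} (s - ρ) ^ m ρ` (divide by one factor at a time, `dslope`, or
`MeromorphicOn` canonical decompositions in Mathlib).
(1) On `‖s - s₀‖ = R` we have `‖s - ρ‖ ≥ R / 2 ≥ ‖s₀ - ρ‖`, so `‖G s / G s₀‖ = ‖F s / F s₀‖ ∏ (‖s₀ - ρ‖ / ‖s - ρ‖) ^ m ρ ≤ exp M`, and by the maximum principle this holds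
for `‖s - s₀‖ ≤ R`.
(2) Number of zeros: `AnalyticOnNhd.sum_divisor_le` in `Mathlib/Analysis/Complex/JensenFormula.lean`, or: with
`G₁ s = F s ∏_{ρ ∈ Z} ((R² - conj (ρ - s₀) (s - s₀)) / (R (s - ρ))) ^ m ρ`, which has `‖G₁ s‖ = ‖F s‖` on the circle `‖s - s₀‖ = R`, the
maximum principle gives `‖F s₀‖ ∏ (R / ‖ρ - s₀‖) ^ m ρ = ‖G₁ s₀‖ ≤ exp M ‖F s₀‖`, so `2 ^ (∑ m ρ) ≤ exp M`, `∑ m ρ ≤ M / log 2`.
(3) `G` has no zeros in the ball of radius `R / 2`, so there `G s / G s₀ = exp (h s)` with `h` analytic, `h s₀ = 0`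
(`DifferentiableOn.exists_log`-type lemmas: primitive of `G' / G` on a ball, `DifferentiableOn.isExactOn_ball`), and `Re h ≤ M` by (1). By Borel-Caratheodory
(`Complex.borelCaratheodory_zero` after translation) `‖h s‖ ≤ 2 M r / (R / 2 - r) ≤ 6 M` for `‖s - s₀‖ ≤ r = 3 R / 8`. By Cauchy's estimate on circles of
radius `R / 8` (`Complex.norm_deriv_le_of_forall_mem_sphere_norm_le`) `‖h' s‖ ≤ 48 M / R` for `‖s - s₀‖ ≤ R / 4`. Take `H = deriv G / G`, `C₀ = 48`;
`H` is differentiable on the ball of radius `R / 2` and `H = h'` there; `logDeriv` of the product formula gives the last claim. -/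
theorem landau_ball : ∃ C₀ : ℝ, 1 ≤ C₀ ∧ ∀ F : ℂ → ℂ, Differentiable ℂ F → ∀ (s₀ : ℂ) (R M : ℝ), 0 < R → R ≤ 1 → 0 < M →
    F s₀ ≠ 0 → (∀ s, ‖s - s₀‖ ≤ R → ‖F s‖ ≤ Real.exp M * ‖F s₀‖) →
    ((∑ ρ ∈ zb F s₀ (R / 2), (mz F ρ : ℝ)) ≤ C₀ * M) ∧
    ∃ H : ℂ → ℂ, DifferentiableOn ℂ H (Metric.ball s₀ (R / 2)) ∧ (∀ s, ‖s - s₀‖ ≤ R / 4 → ‖H s‖ ≤ C₀ * M / R) ∧
      ∀ s ∈ Metric.ball s₀ (R / 2), F s ≠ 0 →
        deriv F s / F s = ∑ ρ ∈ zb F s₀ (R / 2), (mz F ρ : ℂ) / (s - ρ) + H s := by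
  refine ⟨48, by norm_num, ?_⟩
  intro F hF s₀ R M hR hR1 hM hF0 hbound
  have hex : ∃ s, F s ≠ 0 := ⟨s₀, hF0⟩
  set Z := zb F s₀ (R / 2) with hZdef
  have hmem : ∀ ρ, ρ ∈ Z ↔ F ρ = 0 ∧ ‖ρ - s₀‖ ≤ R / 2 := fun ρ => mem_zb F hF hex s₀ (R / 2) ρ
  obtain ⟨G, hG, hGZ, hFG⟩ := lan_factor F hF hex Z
  have hP0 : (∏ ρ ∈ Z, (s₀ - ρ) ^ mz F ρ) ≠ 0 := by
    intro h0; apply hF0; rw [hFG s₀, h0, mul_zero]
  have hG0 : G s₀ ≠ 0 := by
    intro h0; apply hF0; rw [hFG s₀, h0, zero_mul]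
  have hGnz : ∀ s, ‖s - s₀‖ ≤ R / 2 → G s ≠ 0 := by
    intro s hs h0
    have hFs : F s = 0 := by rw [hFG s, h0, zero_mul]
    exact hGZ s ((hmem s).2 ⟨hFs, hs⟩) h0
  -- (1) maximum principle for `G`
  have hmax : ∀ s, ‖s - s₀‖ ≤ R → ‖G s‖ ≤ Real.exp M * ‖G s₀‖ := by
    intro s hs
    have hfr : ∀ z ∈ frontier (Metric.ball s₀ R), ‖G z‖ ≤ Real.exp M * ‖G s₀‖ := by
      intro z hz
      rw [frontier_ball s₀ hR.ne', mem_sphere_iff_norm] at hz
      have h1 := hbound z hz.le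
      rw [hFG z, hFG s₀, norm_mul, norm_mul] at h1
      have h2 : ‖∏ ρ ∈ Z, (s₀ - ρ) ^ mz F ρ‖ ≤ ‖∏ ρ ∈ Z, (z - ρ) ^ mz F ρ‖ := by
        rw [norm_prod, norm_prod]
        refine Finset.prod_le_prod (fun _ _ => norm_nonneg _) fun ρ hρ => ?_
        rw [norm_pow, norm_pow]
        refine pow_le_pow_left₀ (norm_nonneg _) ?_ _
        have h3 := ((hmem ρ).1 hρ).2
        have h4 : ‖s₀ - ρ‖ = ‖ρ - s₀‖ := norm_sub_rev _ _
        have h5 : ‖z - s₀‖ ≤ ‖z - ρ‖ + ‖ρ - s₀‖ := by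
          have := norm_add_le (z - ρ) (ρ - s₀)
          simpa using this
        linarith
      have h6 : 0 < ‖∏ ρ ∈ Z, (s₀ - ρ) ^ mz F ρ‖ := norm_pos_iff.2 hP0
      have h7 : ‖G z‖ * ‖∏ ρ ∈ Z, (s₀ - ρ) ^ mz F ρ‖ ≤
          (Real.exp M * ‖G s₀‖) * ‖∏ ρ ∈ Z, (s₀ - ρ) ^ mz F ρ‖ := by
        calc _ ≤ ‖G z‖ * ‖∏ ρ ∈ Z, (z - ρ) ^ mz F ρ‖ :=
              mul_le_mul_of_nonneg_left h2 (norm_nonneg _)
          _ ≤ _ := h1
          _ = _ := by ring
      exact le_of_mul_le_mul_right h7 h6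
    refine Complex.norm_le_of_forall_mem_frontier_norm_le (Metric.isBounded_ball) hG.diffContOnCl hfr ?_
    rw [closure_ball s₀ hR.ne', mem_closedBall_iff_norm]
    exact hs
  -- (2) number of zeros
  have hnum : (2 : ℝ) ^ (∑ ρ ∈ Z, mz F ρ) ≤ Real.exp M := by
    set B : ℂ → ℂ := fun s => G s * ∏ ρ ∈ Z, (((R : ℂ) ^ 2 - (starRingEnd ℂ) (ρ - s₀) * (s - s₀)) / R) ^ mz F ρ
      with hB
    have hBd : Differentiable ℂ B := by
      refine hG.mul ?_
      refine Differentiable.fun_finsetProd fun i _ => ?_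
      fun_prop
    have hfr : ∀ z ∈ frontier (Metric.ball s₀ R), ‖B z‖ ≤ Real.exp M * ‖F s₀‖ := by
      intro z hz
      rw [frontier_ball s₀ hR.ne', mem_sphere_iff_norm] at hz
      have h1 := hbound z hz.le
      refine le_trans (le_of_eq ?_) h1
      rw [hFG z]
      simp only [hB, norm_mul, norm_prod, norm_pow]
      congr 1
      refine Finset.prod_congr rfl fun ρ _ => ?_
      congr 1
      have h2 : ((R : ℂ) ^ 2) = (starRingEnd ℂ) (z - s₀) * (z - s₀) := by
        rw [← Complex.normSq_eq_conj_mul_self, Complex.normSq_eq_norm_sq, hz]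
        push_cast; ring
      have h3 : ((R : ℂ) ^ 2 - (starRingEnd ℂ) (ρ - s₀) * (z - s₀)) =
          (starRingEnd ℂ) (z - ρ) * (z - s₀) := by
        rw [h2, ← sub_mul, ← map_sub]
        congr 2; ring
      rw [norm_div, h3, norm_mul, RCLike.norm_conj, hz, Complex.norm_real, Real.norm_of_nonneg hR.le]
      field_simp
    have h1 := Complex.norm_le_of_forall_mem_frontier_norm_le (Metric.isBounded_ball) hBd.diffContOnCl hfr
      (z := s₀) (by rw [closure_ball s₀ hR.ne', mem_closedBall_iff_norm]; simpa using hR.le)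
    have h2 : ‖B s₀‖ = ‖G s₀‖ * R ^ (∑ ρ ∈ Z, mz F ρ) := by
      simp only [hB, sub_self, mul_zero, sub_zero, norm_mul, norm_prod, norm_pow]
      congr 1
      rw [← Finset.prod_pow_eq_pow_sum]
      refine Finset.prod_congr rfl fun ρ _ => ?_
      congr 1
      rw [norm_div, norm_pow, Complex.norm_real, Real.norm_of_nonneg hR.le]
      field_simp
    have h3 : ‖F s₀‖ ≤ ‖G s₀‖ * (R / 2) ^ (∑ ρ ∈ Z, mz F ρ) := by
      rw [hFG s₀, norm_mul, norm_prod, ← Finset.prod_pow_eq_pow_sum]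
      refine mul_le_mul_of_nonneg_left ?_ (norm_nonneg _)
      refine Finset.prod_le_prod (fun _ _ => norm_nonneg _) fun ρ hρ => ?_
      rw [norm_pow]
      refine pow_le_pow_left₀ (norm_nonneg _) ?_ _
      rw [norm_sub_rev]
      exact ((hmem ρ).1 hρ).2
    rw [h2] at h1
    have h4 : 0 < ‖G s₀‖ := norm_pos_iff.2 hG0
    have h5 : ‖G s₀‖ * R ^ (∑ ρ ∈ Z, mz F ρ) ≤
        ‖G s₀‖ * (Real.exp M * (R / 2) ^ (∑ ρ ∈ Z, mz F ρ)) := by
      calc _ ≤ Real.exp M * ‖F s₀‖ := h1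
        _ ≤ Real.exp M * (‖G s₀‖ * (R / 2) ^ (∑ ρ ∈ Z, mz F ρ)) :=
          mul_le_mul_of_nonneg_left h3 (Real.exp_pos _).le
        _ = _ := by ring
    have h6 := le_of_mul_le_mul_left h5 h4
    rw [div_pow, mul_div_assoc', le_div_iff₀ (by positivity)] at h6
    have h7 : R ^ (∑ ρ ∈ Z, mz F ρ) * 2 ^ (∑ ρ ∈ Z, mz F ρ) ≤
        R ^ (∑ ρ ∈ Z, mz F ρ) * Real.exp M := by linarith
    exact le_of_mul_le_mul_left h7 (by positivity)
  have hnum2 : (∑ ρ ∈ Z, (mz F ρ : ℝ)) ≤ 48 * M := by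
    have h1 := Real.log_le_log (by positivity) hnum
    rw [Real.log_exp, Real.log_pow] at h1
    have h2 : (0.69 : ℝ) ≤ Real.log 2 := by linarith [Real.log_two_gt_d9]
    have h3 : (0 : ℝ) ≤ ((∑ ρ ∈ Z, mz F ρ : ℕ) : ℝ) := by positivity
    have h4 : (∑ ρ ∈ Z, (mz F ρ : ℝ)) = ((∑ ρ ∈ Z, mz F ρ : ℕ) : ℝ) := by push_cast; rfl
    rw [h4]
    nlinarith
  refine ⟨hnum2, ?_⟩
  -- (3) the logarithm
  have hGball : ∀ s ∈ Metric.ball s₀ (R / 2), G s ≠ 0 := by
    intro s hs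
    rw [mem_ball_iff_norm] at hs
    exact hGnz s hs.le
  have hHd : DifferentiableOn ℂ (fun s => deriv G s / G s) (Metric.ball s₀ (R / 2)) := by
    intro s hs
    have hdG : Differentiable ℂ (deriv G) := by
      intro z; exact (hG.analyticAt z).deriv.differentiableAt
    exact ((hdG s).div (hG s) (hGball s hs)).differentiableWithinAt
  obtain ⟨h, hh0, hh⟩ := (hHd.isExactOn_ball).with_val_at s₀ 0
  have hexp : ∀ s ∈ Metric.ball s₀ (R / 2), G s = G s₀ * Complex.exp (h s) := by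
    have hQ : ∀ s ∈ Metric.ball s₀ (R / 2), HasDerivAt (fun z => G z * Complex.exp (-h z)) 0 s := by
      intro s hs
      have h1 : HasDerivAt G (deriv G s) s := (hG s).hasDerivAt
      have h2 := (hh s hs).neg.cexp
      have h3 := h1.mul h2
      refine h3.congr_deriv ?_
      have h4 := hGball s hs
      simp only [Pi.neg_apply]
      field_simp
      ring
    have hs₀ : s₀ ∈ Metric.ball s₀ (R / 2) := Metric.mem_ball_self (by positivity)
    have hconst : ∀ s ∈ Metric.ball s₀ (R / 2),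
        (fun z => G z * Complex.exp (-h z)) s = (fun z => G z * Complex.exp (-h z)) s₀ := by
      intro s hs
      refine IsOpen.is_const_of_deriv_eq_zero (𝕜 := ℂ) (f := fun z => G z * Complex.exp (-h z))
        Metric.isOpen_ball (convex_ball s₀ (R / 2)).isPreconnected ?_ ?_ hs hs₀
      · intro z hz
        exact (hQ z hz).differentiableAt.differentiableWithinAt
      · intro z hz
        exact (hQ z hz).deriv
    intro s hs
    have h1 := hconst s hs
    simp only [hh0, neg_zero, Complex.exp_zero, mul_one] at h1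
    rw [← h1, mul_assoc, ← Complex.exp_add]
    simp
  have hre : ∀ s ∈ Metric.ball s₀ (R / 2), (h s).re ≤ M := by
    intro s hs
    have h1 := hmax s (by rw [mem_ball_iff_norm] at hs; linarith)
    rw [hexp s hs, norm_mul, Complex.norm_exp, mul_comm] at h1
    have h2 := le_of_mul_le_mul_right h1 (norm_pos_iff.2 hG0)
    exact Real.exp_le_exp.1 h2
  have hhb : ∀ s, ‖s - s₀‖ ≤ 3 * R / 8 → ‖h s‖ ≤ 6 * M := by
    intro s hs
    have h1 : DifferentiableOn ℂ (fun z => h (s₀ + z)) (Metric.ball 0 (R / 2)) := by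
      intro z hz
      have hz' : s₀ + z ∈ Metric.ball s₀ (R / 2) := by
        rw [mem_ball_iff_norm] at hz ⊢; simpa using hz
      have h2 := (hh (s₀ + z) hz').differentiableAt
      refine DifferentiableAt.differentiableWithinAt ?_
      exact DifferentiableAt.comp z h2 (by fun_prop)
    have h2 : Set.MapsTo (fun z => h (s₀ + z)) (Metric.ball 0 (R / 2)) {z | z.re ≤ M} := by
      intro z hz
      have hz' : s₀ + z ∈ Metric.ball s₀ (R / 2) := by
        rw [mem_ball_iff_norm] at hz ⊢; simpa using hz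
      exact hre _ hz'
    have h3 := Complex.borelCaratheodory_zero hM h1 h2 (by positivity) (z := s - s₀)
      (by rw [mem_ball_iff_norm]; simp only [sub_zero]; linarith) (by simpa using hh0)
    simp only [add_sub_cancel] at h3
    refine h3.trans ?_
    rw [div_le_iff₀ (by linarith)]
    nlinarith
  refine ⟨fun s => deriv G s / G s, hHd, ?_, ?_⟩
  · intro s hs
    have hs' : s ∈ Metric.ball s₀ (R / 2) := by rw [mem_ball_iff_norm]; linarith
    have h1 : deriv G s / G s = deriv h s := (hh s hs').deriv.symm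
    simp only
    rw [h1]
    have h2 : DiffContOnCl ℂ h (Metric.ball s (R / 8)) := by
      refine DifferentiableOn.diffContOnCl ?_
      rw [closure_ball s (by positivity)]
      intro z hz
      rw [mem_closedBall_iff_norm] at hz
      have hz' : z ∈ Metric.ball s₀ (R / 2) := by
        rw [mem_ball_iff_norm]
        have := norm_add_le (z - s) (s - s₀)
        simp only [sub_add_sub_cancel] at this
        linarith
      exact (hh z hz').differentiableAt.differentiableWithinAt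
    have h3 := Complex.norm_deriv_le_of_forall_mem_sphere_norm_le (C := 6 * M) (by positivity : 0 < R / 8) h2
      (by
        intro z hz
        rw [mem_sphere_iff_norm] at hz
        refine hhb z ?_
        have := norm_add_le (z - s) (s - s₀)
        simp only [sub_add_sub_cancel] at this
        linarith)
    refine h3.trans (le_of_eq ?_)
    field_simp
    norm_num
  · intro s hs hFs
    have hPne : (∏ ρ ∈ Z, (s - ρ) ^ mz F ρ) ≠ 0 := by
      intro h0; apply hFs; rw [hFG s, h0, mul_zero]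
    have hsρ : ∀ ρ ∈ Z, s - ρ ≠ 0 := by
      intro ρ hρ h0
      have : s = ρ := sub_eq_zero.1 h0
      apply hFs; rw [this]; exact ((hmem ρ).1 hρ).1
    have hPd : Differentiable ℂ (fun s : ℂ => ∏ ρ' ∈ Z, (s - ρ') ^ mz F ρ') := by
      refine Differentiable.fun_finsetProd fun i _ => ?_
      fun_prop
    have h1 : F = fun s => G s * ∏ ρ' ∈ Z, (s - ρ') ^ mz F ρ' := by
      funext s; exact hFG s
    have h2 : logDeriv F s = logDeriv (fun s => G s * ∏ ρ' ∈ Z, (s - ρ') ^ mz F ρ') s :=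
      congrArg (fun f => logDeriv f s) h1
    have h3 : logDeriv F s = ∑ ρ ∈ Z, (mz F ρ : ℂ) / (s - ρ) + deriv G s / G s := by
      rw [h2, logDeriv_mul s (hGball s hs) hPne (hG s) (hPd s), logDeriv_prod]
      · rw [add_comm]
        congr 1
        refine Finset.sum_congr rfl fun ρ hρ => ?_
        rw [logDeriv_fun_pow (by fun_prop), logDeriv_apply]
        have : deriv (fun x : ℂ => x - ρ) s = 1 := by simp
        rw [this]
        ring
      · intro ρ hρ
        exact pow_ne_zero _ (hsρ ρ hρ)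
      · intro ρ hρ
        fun_prop
    rw [← logDeriv_apply, h3]

end Pool.Agent.PSG
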