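import Pool.Agent.W_b58c63_h44.IW

/-!
# The fixed weights
-/

set_option autoImplicit false

noncomputable section

open Finset Complex

namespace Pool.Agent.PSG

/-- A smooth cut-off: `1` for `x ≤ 1`, `0` for `x ≥ 2`. -/
def eta (x : ℝ) : ℝ := Real.smoothTransition (2 - x)

/-- The dyadic weight, supported in `[1/2, 2]`. -/
def w1 (x : ℝ) : ℝ := eta x - eta (2 * x)

/-- A weight supported in `[1/4, 4]`, which is `1` on `[1/2, 5/2]`. -/
def Wm (x : ℝ) : ℝ := Real.smoothTransition (4 * x - 1) * Real.smoothTransition ((4 - x) / (3 / 2))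

/-- The weight of the small prime: supported in `[3/2, 39/10]`, equal to `1` on `[2, 3]`. -/
def g0 (x : ℝ) : ℝ := Real.smoothTransition (2 * x - 3) * Real.smoothTransition ((39 / 10 - x) / (9 / 10))

/-- Proof. Properties of `Real.smoothTransition`. -/
theorem eta_facts : (∀ x, 0 ≤ eta x ∧ eta x ≤ 1) ∧ (∀ x, x ≤ 1 → eta x = 1) ∧ (∀ x, 2 ≤ x → eta x = 0) ∧
    ContDiff ℝ (⊤ : ℕ∞) eta := by
  refine ⟨fun x => ⟨Real.smoothTransition.nonneg _, Real.smoothTransition.le_one _⟩, ?_, ?_, ?_⟩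
  · intro x hx
    exact Real.smoothTransition.one_of_one_le (by linarith)
  · intro x hx
    exact Real.smoothTransition.zero_of_nonpos (by linarith)
  · exact Real.smoothTransition.contDiff.comp (contDiff_const.sub contDiff_id)

/-- Proof. `eta_facts`. For the last claim the sum telescopes: `w1 (x / 2 ^ j) = eta (x / 2 ^ j) - eta (x / 2 ^ (j - 1))`, and `eta (x / 2 ^ J) = 1`. -/
theorem w1_facts : (∀ x, |w1 x| ≤ 1) ∧ (∀ x, x ∉ Set.Icc (1 / 2 : ℝ) 2 → w1 x = 0) ∧ ContDiff ℝ (⊤ : ℕ∞) w1 ∧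
    ∀ (J : ℕ) (x : ℝ), x ≤ 2 ^ J → ∑ j ∈ Icc 1 J, w1 (x / 2 ^ j) = 1 - eta x := by
  obtain ⟨h1, h2, h3, h4⟩ := eta_facts
  refine ⟨?_, ?_, ?_, ?_⟩
  · intro x
    unfold w1
    rw [abs_le]
    have a := h1 x
    have b := h1 (2 * x)
    exact ⟨by linarith, by linarith⟩
  · intro x hx
    unfold w1
    rw [Set.mem_Icc, not_and_or, not_le, not_le] at hx
    rcases hx with hx | hx
    · rw [h2 x (by linarith), h2 (2 * x) (by linarith), sub_self]
    · rw [h3 x (by linarith), h3 (2 * x) (by linarith), sub_self]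
  · exact h4.sub (h4.comp (contDiff_const.mul contDiff_id))
  · have key : ∀ (J : ℕ) (x : ℝ), ∑ j ∈ Icc 1 J, w1 (x / 2 ^ j) = eta (x / 2 ^ J) - eta x := by
      intro J x
      induction J with
      | zero => simp
      | succ J ih =>
        rw [Finset.sum_Icc_succ_top (by omega), ih]
        unfold w1
        have e1 : 2 * (x / 2 ^ (J + 1)) = x / 2 ^ J := by
          rw [pow_succ]
          field_simp
        rw [e1]
        ring
    intro J x hx
    rw [key, h2]
    rw [div_le_one (by positivity)]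
    exact hx

/-- Proof. Properties of `Real.smoothTransition`. -/
theorem Wm_facts : (∀ x, 0 ≤ Wm x ∧ Wm x ≤ 1) ∧ (∀ x, x ∉ Set.Icc (1 / 4 : ℝ) 4 → Wm x = 0) ∧
    (∀ x, 1 / 2 ≤ x → x ≤ 5 / 2 → Wm x = 1) ∧ ContDiff ℝ (⊤ : ℕ∞) Wm := by
  refine ⟨fun x => ⟨mul_nonneg (Real.smoothTransition.nonneg _) (Real.smoothTransition.nonneg _),
    mul_le_one₀ (Real.smoothTransition.le_one _) (Real.smoothTransition.nonneg _)
      (Real.smoothTransition.le_one _)⟩, ?_, ?_, ?_⟩
  · intro x hx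
    unfold Wm
    rw [Set.mem_Icc, not_and_or, not_le, not_le] at hx
    rcases hx with hx | hx
    · rw [Real.smoothTransition.zero_of_nonpos (x := 4 * x - 1) (by linarith), zero_mul]
    · rw [Real.smoothTransition.zero_of_nonpos (x := (4 - x) / (3 / 2))
        (div_nonpos_of_nonpos_of_nonneg (by linarith) (by norm_num)), mul_zero]
  · intro x hx hx'
    unfold Wm
    rw [Real.smoothTransition.one_of_one_le (x := 4 * x - 1) (by linarith),
      Real.smoothTransition.one_of_one_le (x := (4 - x) / (3 / 2)), one_mul]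
    rw [le_div_iff₀ (by norm_num)]
    linarith
  · exact (Real.smoothTransition.contDiff.comp
      ((contDiff_const.mul contDiff_id).sub contDiff_const)).mul
      (Real.smoothTransition.contDiff.comp ((contDiff_const.sub contDiff_id).div_const _))

/-- Proof. Properties of `Real.smoothTransition`. -/
theorem g0_facts : (∀ x, 0 ≤ g0 x ∧ g0 x ≤ 1) ∧ (∀ x, x ∉ Set.Icc (3 / 2 : ℝ) (39 / 10) → g0 x = 0) ∧
    (∀ x, 2 ≤ x → x ≤ 3 → g0 x = 1) ∧ ContDiff ℝ (⊤ : ℕ∞) g0 := by
  refine ⟨fun x => ⟨mul_nonneg (Real.smoothTransition.nonneg _) (Real.smoothTransition.nonneg _),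
    mul_le_one₀ (Real.smoothTransition.le_one _) (Real.smoothTransition.nonneg _)
      (Real.smoothTransition.le_one _)⟩, ?_, ?_, ?_⟩
  · intro x hx
    unfold g0
    rw [Set.mem_Icc, not_and_or, not_le, not_le] at hx
    rcases hx with hx | hx
    · rw [Real.smoothTransition.zero_of_nonpos (x := 2 * x - 3) (by linarith), zero_mul]
    · rw [Real.smoothTransition.zero_of_nonpos (x := (39 / 10 - x) / (9 / 10))
        (div_nonpos_of_nonpos_of_nonneg (by linarith) (by norm_num)), mul_zero]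
  · intro x hx hx'
    unfold g0
    rw [Real.smoothTransition.one_of_one_le (x := 2 * x - 3) (by linarith),
      Real.smoothTransition.one_of_one_le (x := (39 / 10 - x) / (9 / 10)), one_mul]
    rw [le_div_iff₀ (by norm_num)]
    linarith
  · exact (Real.smoothTransition.contDiff.comp
      ((contDiff_const.mul contDiff_id).sub contDiff_const)).mul
      (Real.smoothTransition.contDiff.comp ((contDiff_const.sub contDiff_id).div_const _))

/-- Proof. `isW_exists`. -/
theorem isW_fixed (J : ℕ) : ∃ A : ℝ, 1 ≤ A ∧ IsW J A 1 (fun x => (w1 x : ℂ)) ∧ IsW J A 1 (fun x => (Wm x : ℂ)) ∧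
    IsW J A 1 (fun x => (g0 x : ℂ)) ∧ IsW J A 1 (fun x => (Wm x : ℂ) * (Real.log x : ℂ)) := by
  have hof : ∀ f : ℝ → ℝ, ContDiff ℝ (⊤ : ℕ∞) f → ContDiff ℝ (⊤ : ℕ∞) (fun x => (f x : ℂ)) :=
    fun f hf => Complex.ofRealCLM.contDiff.comp hf
  obtain ⟨A1, hA1, h1⟩ := isW_exists (fun x => (w1 x : ℂ)) (hof _ w1_facts.2.2.1) (by
    intro x hx
    rw [w1_facts.2.1 x (fun h => hx ⟨by linarith [h.1], by linarith [h.2]⟩), Complex.ofReal_zero]) J
  obtain ⟨A2, hA2, h2⟩ := isW_exists (fun x => (Wm x : ℂ)) (hof _ Wm_facts.2.2.2) (by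
    intro x hx
    rw [Wm_facts.2.1 x (fun h => hx ⟨by linarith [h.1], by linarith [h.2]⟩), Complex.ofReal_zero]) J
  obtain ⟨A3, hA3, h3⟩ := isW_exists (fun x => (g0 x : ℂ)) (hof _ g0_facts.2.2.2) (by
    intro x hx
    rw [g0_facts.2.1 x (fun h => hx ⟨by linarith [h.1], by linarith [h.2]⟩), Complex.ofReal_zero]) J
  obtain ⟨A4, hA4, h4⟩ := isW_exists (fun x => (Wm x : ℂ) * (Real.log x : ℂ))
    (isW_log h2 zero_le_one).1 (by
    intro x hx
    rw [Wm_facts.2.1 x (fun h => hx ⟨by linarith [h.1], by linarith [h.2]⟩), Complex.ofReal_zero,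
      zero_mul]) J
  refine ⟨max (max A1 A2) (max A3 A4), hA1.trans ((le_max_left _ _).trans (le_max_left _ _)),
    isW_mono h1 le_rfl zero_le_one ((le_max_left _ _).trans (le_max_left _ _)) le_rfl,
    isW_mono h2 le_rfl zero_le_one ((le_max_right _ _).trans (le_max_left _ _)) le_rfl,
    isW_mono h3 le_rfl zero_le_one ((le_max_left _ _).trans (le_max_right _ _)) le_rfl,
    isW_mono h4 le_rfl zero_le_one ((le_max_right _ _).trans (le_max_right _ _)) le_rfl⟩

end Pool.Agent.PSG
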