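import Pool.Agent.W_b58c63_h44.PS
import Pool.Agent.W_b58c63_h44.Mel
import Pool.Agent.W_b58c63_h44.W1

/-!
# Sums of type I
-/

set_option autoImplicit false

noncomputable section

open Finset Complex MeasureTheory

namespace Pool.Agent.PSG

theorem TI_sum_zero {q : ℕ} [NeZero q] (χ : DirichletCharacter ℂ q) (h : χ ≠ 1) :
    ∑ a ∈ range q, χ ((a : ℕ) : ZMod q) = 0 := by
  have h1 : ∑ a ∈ range q, χ ((a : ℕ) : ZMod q) = ∑ x : ZMod q, χ x := by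
    refine Finset.sum_bij' (fun a _ => (a : ZMod q)) (fun x _ => x.val) ?_ ?_ ?_ ?_ ?_
    · intro a _
      exact Finset.mem_univ _
    · intro x _
      exact Finset.mem_range.2 (ZMod.val_lt x)
    · intro a ha
      exact ZMod.val_cast_of_lt (Finset.mem_range.1 ha)
    · intro x _
      exact ZMod.natCast_zmod_val x
    · intro a _
      rfl
  rw [h1, MulChar.sum_eq_zero_of_ne_one h]

theorem TI_int {w : ℝ → ℂ} (hw : ∀ x, x ∉ Set.Icc (1 / 4 : ℝ) 16 → w x = 0) (t : ℝ) :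
    ∫ x : ℝ, w x * (x : ℂ) ^ (-(t * I)) = mellin w (1 - t * I) := by
  rw [mellin]
  rw [← setIntegral_eq_integral_of_forall_compl_eq_zero (s := Set.Ioi 0)]
  · refine setIntegral_congr_fun measurableSet_Ioi fun x _ => ?_
    simp only [smul_eq_mul]
    rw [mul_comm]
    congr 2
    ring
  · intro x hx
    rw [hw x, zero_mul]
    intro h
    exact hx (lt_of_lt_of_le (by norm_num) h.1)

theorem TI_mean_le (q : ℕ) [NeZero q] (P : ℕ → ℂ) (hP : ∀ n, ‖P n‖ ≤ 1) : ‖mean q P‖ ≤ 1 := by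
  have hq : 0 < (q : ℝ) := by
    have := NeZero.pos q
    exact_mod_cast this
  rw [mean, norm_div, Complex.norm_natCast, div_le_one hq]
  refine (norm_sum_le _ _).trans ?_
  refine (Finset.sum_le_sum fun i _ => hP i).trans ?_
  simp

theorem TI_sum_eq {q : ℕ} (χ : DirichletCharacter ℂ q) (t X : ℝ) (hX : 0 < X) (d : ℕ) (hd : 1 ≤ d) (w : ℝ → ℂ) :
    ∑ h ∈ Icc 1 (⌊16 * X⌋₊ / d), χ (h : ZMod q) * (h : ℂ) ^ (-(t * I)) * w ((d * h : ℕ) / X) =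
    ((X / d : ℝ) : ℂ) ^ (-(t * I)) * ∑ n ∈ Icc 1 ⌊16 * (X / d)⌋₊, χ (n : ZMod q) * (fun x : ℝ => w x * (x : ℂ) ^ (-(t * I))) (n / (X / d)) := by
  have hd0 : (0 : ℝ) < d := by exact_mod_cast hd
  have h1 : ⌊16 * X⌋₊ / d = ⌊16 * (X / d)⌋₊ := by
    rw [← Nat.floor_div_natCast]
    congr 1
    ring
  rw [h1, Finset.mul_sum]
  refine Finset.sum_congr rfl fun n hn => ?_
  have hn1 : 1 ≤ n := (Finset.mem_Icc.1 hn).1
  have h2 : ((d * n : ℕ) : ℝ) / X = n / (X / d) := by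
    push_cast
    field_simp
  have hY : 0 < X / d := by positivity
  have h3 : (n : ℂ) ^ (-(t * I)) = ((X / d : ℝ) : ℂ) ^ (-(t * I)) * ((n / (X / d) : ℝ) : ℂ) ^ (-(t * I)) := by
    rw [← Complex.mul_cpow_ofReal_nonneg hY.le (by positivity)]
    congr 1
    rw [← Complex.ofReal_mul]
    have h4 : X / d * (n / (X / d)) = (n : ℝ) := by field_simp
    rw [h4]
    simp
  rw [h2, h3]
  ring

theorem TI_pow (δ X : ℝ) (hδ : 0 < δ) (hX : 1 ≤ X) (J : ℕ) (hJ : 400 / δ ≤ J) (y : ℝ) (hy : 0 ≤ y) (h : y ≤ X ^ (-(δ / 32))) :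
    y ^ J ≤ X ^ (-(12 : ℝ)) := by
  have hX0 : 0 < X := by linarith
  calc y ^ J ≤ (X ^ (-(δ / 32))) ^ J := pow_le_pow_left₀ hy h J
    _ = X ^ (-(δ / 32) * J) := by rw [← Real.rpow_natCast, ← Real.rpow_mul hX0.le]
    _ ≤ X ^ (-(12 : ℝ)) := by
        apply Real.rpow_le_rpow_of_exponent_le hX
        rw [div_le_iff₀ hδ] at hJ
        linarith

theorem TI_base (δ X : ℝ) (hδ : 0 < δ) (hδ1 : δ ≤ 1 / 16) (J : ℕ) (hX1 : 1 ≤ X) (hX2 : (1 + 4 * (J : ℝ)) ^ 2 ≤ X)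
    (hX3 : (10 : ℝ) ^ (100 / δ) ≤ X) (q : ℝ) (hq0 : 0 ≤ q) (hq : q ≤ X ^ (δ / 100)) (t : ℝ) (ht : |t| ≤ X ^ (1 / 2 + δ / 32))
    (d : ℝ) (hd1 : 1 ≤ d) (hd : d ≤ 2 * X ^ (1 / 2 - 3 * δ / 32)) :
    q * (1 + 4 * (|t| + J)) / (X / d) ≤ X ^ (-(δ / 32)) := by
  have hX0 : 0 < X := by linarith
  have h1 : 1 + 4 * (J : ℝ) ≤ X ^ (1 / 2 + δ / 32) := by
    have h2 : 1 + 4 * (J : ℝ) ≤ X ^ (1 / 2 : ℝ) := by
      rw [← Real.sqrt_eq_rpow]
      exact Real.le_sqrt_of_sq_le hX2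
    refine h2.trans ?_
    apply Real.rpow_le_rpow_of_exponent_le hX1
    linarith
  have h2 : 1 + 4 * (|t| + J) ≤ 5 * X ^ (1 / 2 + δ / 32) := by linarith
  have h3 : (10 : ℝ) ≤ X ^ (δ / 50) := by
    calc (10 : ℝ) ≤ (10 : ℝ) ^ (2 : ℝ) := by norm_num
      _ = ((10 : ℝ) ^ (100 / δ)) ^ (δ / 50) := by
          rw [← Real.rpow_mul (by norm_num)]
          congr 1
          field_simp
          norm_num
      _ ≤ X ^ (δ / 50) := Real.rpow_le_rpow (by positivity) hX3 (by positivity)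
  have h4 : q * (1 + 4 * (|t| + J)) / (X / d) = q * (1 + 4 * (|t| + J)) * (d / X) := by
    rw [div_div_eq_mul_div, mul_div_assoc]
  rw [h4]
  have h5 : d / X ≤ 2 * X ^ (-(1 / 2) - 3 * δ / 32) := by
    rw [div_le_iff₀ hX0]
    refine hd.trans (le_of_eq ?_)
    rw [mul_assoc]
    congr 1
    nth_rewrite 3 [← Real.rpow_one X]
    rw [← Real.rpow_add hX0]
    congr 1
    ring
  have h6 : 0 < X ^ (1 / 2 + δ / 32) := Real.rpow_pos_of_pos hX0 _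
  have h7 : 0 < X ^ (δ / 100) := Real.rpow_pos_of_pos hX0 _
  have hJ0 : (0 : ℝ) ≤ J := Nat.cast_nonneg J
  have ht0 := abs_nonneg t
  calc q * (1 + 4 * (|t| + J)) * (d / X)
      ≤ X ^ (δ / 100) * (5 * X ^ (1 / 2 + δ / 32)) * (2 * X ^ (-(1 / 2) - 3 * δ / 32)) := by
        apply mul_le_mul _ h5 (by positivity) (by positivity)
        exact mul_le_mul hq h2 (by positivity) h7.le
    _ = 10 * X ^ (δ / 100 + (1 / 2 + δ / 32) + (-(1 / 2) - 3 * δ / 32)) := by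
        rw [Real.rpow_add hX0 (δ / 100 + (1 / 2 + δ / 32)), Real.rpow_add hX0 (δ / 100)]
        ring
    _ ≤ X ^ (δ / 50) * X ^ (δ / 100 + (1 / 2 + δ / 32) + (-(1 / 2) - 3 * δ / 32)) :=
        mul_le_mul_of_nonneg_right h3 (Real.rpow_nonneg hX0.le _)
    _ = X ^ (δ / 50 + (δ / 100 + (1 / 2 + δ / 32) + (-(1 / 2) - 3 * δ / 32))) := by
        rw [← Real.rpow_add hX0]
    _ ≤ X ^ (-(δ / 32)) := by
        apply Real.rpow_le_rpow_of_exponent_le hX1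
        linarith

/-- **Sums of type I are tiny.**

Proof. `J = ⌈400 / δ⌉`, `ε = δ / 100`. Let `Y = X / d ≥ X ^ (1/2 + 3 δ / 32) / 2`; `⌊16 X⌋₊ / d = ⌊16 Y⌋₊`, `d h / X = h / Y`, and `h ^ (-i t) = Y ^ (-i t) (h / Y) ^ (-i t)`. By `isW_cpow` the function `v x = w x x ^ (-i t)` satisfies `IsW J (256 A) (1 + 4 (|t| + J))`. `per_sum` with `P = χ`, `M = q`, `P₀ = 1`
(`‖Y ^ (-i t)‖ = 1`): the error is at most `C 256 A q Y (q (1 + 4 |t| + 4 J) / Y) ^ J`, and `q (1 + 4 |t| + 4 J) / Y ≤ 10 X ^ (ε + 1/2 + δ/32) 2 X ^ (-1/2 - 3 δ/32) ≤ X ^ (-δ / 32)` for large `X`; `X ^ (2 - J δ / 32) ≤ X ^ (-8)`.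
Main term `mean q χ Y ∫ v`: for `χ ≠ 1` the mean is `0` (`MulChar.sum_eq_zero_of_ne_one`). For `χ = 1` primitive, `q = 1` and the mean is `1`; `∫ v = mellin w (1 - i t)`, at most `C A |t| ^ (-J) ≤ C A X ^ (-J δ / 32)` by `mellin_decay` (`|t| ≥ X ^ (δ / 32) ≥ 1`, `B = 1`). -/
theorem type_one (δ : ℝ) (hδ : 0 < δ) (hδ1 : δ ≤ 1 / 16) : ∃ (J : ℕ) (ε C X₀ : ℝ), 0 < ε ∧ 1 ≤ C ∧ 3 ≤ X₀ ∧ ∀ X : ℝ, X₀ ≤ X →
    ∀ (q : ℕ) [NeZero q], (q : ℝ) ≤ X ^ ε → ∀ χ : DirichletCharacter ℂ q, χ.IsPrimitive → ∀ t : ℝ, |t| ≤ X ^ (1 / 2 + δ / 32) →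
    (χ = 1 → X ^ (δ / 32) ≤ |t|) → ∀ (A : ℝ) (w : ℝ → ℂ), IsW J A 1 w → ∀ d : ℕ, 1 ≤ d → (d : ℝ) ≤ 2 * X ^ (1 / 2 - 3 * δ / 32) →
    ‖∑ h ∈ Icc 1 (⌊16 * X⌋₊ / d), χ (h : ZMod q) * (h : ℂ) ^ (-(t * I)) * w ((d * h : ℕ) / X)‖ ≤ C * A * X ^ (-8 : ℝ) := by
  set J : ℕ := ⌈400 / δ⌉₊ with hJdef
  have hJ : 400 / δ ≤ J := Nat.le_ceil _
  have hJ2 : 2 ≤ J := by
    have h1 : (400 : ℝ) ≤ 400 / δ := by
      rw [le_div_iff₀ hδ]
      linarith
    have h2 : (2 : ℝ) ≤ J := by linarith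
    exact_mod_cast h2
  obtain ⟨C₁, hC₁, H1⟩ := per_sum J hJ2
  obtain ⟨C₂, hC₂, H2⟩ := mellin_decay J
  refine ⟨J, δ / 100, 256 * C₁ + C₂, 3 + (1 + 4 * (J : ℝ)) ^ 2 + (10 : ℝ) ^ (100 / δ), by positivity, by linarith, ?_, ?_⟩
  · have h1 : (0 : ℝ) < (10 : ℝ) ^ (100 / δ) := by positivity
    have h2 : 0 ≤ (1 + 4 * (J : ℝ)) ^ 2 := by positivity
    linarith
  intro X hX q _ hq χ _ t ht htχ A w hw d hd1 hd
  have h10 : (0 : ℝ) < (10 : ℝ) ^ (100 / δ) := by positivity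
  have hsq : 0 ≤ (1 + 4 * (J : ℝ)) ^ 2 := by positivity
  have hX1 : 1 ≤ X := by linarith
  have hX0 : 0 < X := by linarith
  have hA : 0 ≤ A := by
    have h1 := hw.2.2 0 (Nat.zero_le _) 0
    rw [pow_zero, mul_one] at h1
    exact (norm_nonneg _).trans h1
  have hd0 : (0 : ℝ) < d := by exact_mod_cast hd1
  have hd1' : (1 : ℝ) ≤ d := by exact_mod_cast hd1
  have hY : 0 < X / d := by positivity
  have hYX : X / d ≤ X := div_le_self hX0.le hd1'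
  have hq0 : (0 : ℝ) ≤ q := Nat.cast_nonneg q
  have hqX : (q : ℝ) ≤ X := by
    refine hq.trans ?_
    calc X ^ (δ / 100) ≤ X ^ (1 : ℝ) := Real.rpow_le_rpow_of_exponent_le hX1 (by linarith)
      _ = X := Real.rpow_one X
  rw [TI_sum_eq χ t X hX0 d hd1 w, norm_mul]
  have hn1 : ‖((X / d : ℝ) : ℂ) ^ (-(t * I))‖ = 1 := by
    rw [Complex.norm_cpow_eq_rpow_re_of_pos hY]
    simp
  rw [hn1, one_mul]
  have hv := isW_cpow hw zero_le_one (-(t * I)) (by simp)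
  have hnt : ‖-((t : ℂ) * I)‖ = |t| := by
    rw [norm_neg, norm_mul, Complex.norm_I, mul_one, Complex.norm_real, Real.norm_eq_abs]
  rw [hnt] at hv
  have hB1 : 1 ≤ 1 + 4 * (|t| + J) := by
    have := abs_nonneg t
    have h2 : (0 : ℝ) ≤ J := Nat.cast_nonneg J
    linarith
  have hper : ∀ n : ℕ, χ (((n + q : ℕ)) : ZMod q) = χ (n : ZMod q) := by
    intro n
    congr 1
    simp
  have hmain := H1 (256 * A) (1 + 4 * (|t| + J)) _ hB1 hv (X / d) hY q (NeZero.pos q) (fun n => χ (n : ZMod q)) hper 1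
    (fun n => DirichletCharacter.norm_le_one χ _)
  have hbase := TI_base δ X hδ hδ1 J hX1 (by linarith) (by linarith) q hq0 hq t ht d hd1' hd
  have hbase0 : 0 ≤ q * (1 + 4 * (|t| + J)) / (X / d) := by positivity
  have hpow := TI_pow δ X hδ hX1 J hJ _ hbase0 hbase
  have hX12 : X * X * X ^ (-(12 : ℝ)) ≤ X ^ (-8 : ℝ) := by
    have h1 : X * X = X ^ (2 : ℝ) := by
      rw [Real.rpow_two]
      ring
    rw [h1, ← Real.rpow_add hX0]
    apply Real.rpow_le_rpow_of_exponent_le hX1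
    norm_num
  have herr : C₁ * (256 * A) * 1 * q * (X / d) * (q * (1 + 4 * (|t| + J)) / (X / d)) ^ J ≤ 256 * C₁ * A * X ^ (-8 : ℝ) := by
    calc C₁ * (256 * A) * 1 * q * (X / d) * (q * (1 + 4 * (|t| + J)) / (X / d)) ^ J
        = 256 * C₁ * A * (q * (X / d) * (q * (1 + 4 * (|t| + J)) / (X / d)) ^ J) := by ring
      _ ≤ 256 * C₁ * A * (X * X * X ^ (-(12 : ℝ))) := by
          apply mul_le_mul_of_nonneg_left _ (by positivity)
          apply mul_le_mul _ hpow (by positivity) (by positivity)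
          exact mul_le_mul hqX hYX hY.le hX0.le
      _ ≤ 256 * C₁ * A * X ^ (-8 : ℝ) := mul_le_mul_of_nonneg_left hX12 (by positivity)
  have hmt : ‖mean q (fun n => χ (n : ZMod q)) * (((X / d : ℝ) : ℂ) * ∫ x : ℝ, w x * (x : ℂ) ^ (-(t * I)))‖ ≤ C₂ * A * X ^ (-8 : ℝ) := by
    by_cases hχ : χ = 1
    · have htl := htχ hχ
      have ht1 : 1 ≤ |t| := by
        refine le_trans ?_ htl
        exact Real.one_le_rpow hX1 (by positivity)
      have him : (1 - (t : ℂ) * I).im = -t := by simp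
      have hre : (1 - (t : ℂ) * I).re = 1 := by simp
      have h1 := (H2 A 1 w hA le_rfl hw (1 - t * I) (by rw [hre]; norm_num) (by rw [hre]; norm_num)).2 (by rw [him, abs_neg]; exact ht1)
      rw [him, abs_neg] at h1
      rw [TI_int hw.2.1, norm_mul, norm_mul]
      have h2 := TI_mean_le q (fun n => χ (n : ZMod q)) (fun n => DirichletCharacter.norm_le_one χ _)
      have h3 : (1 / |t|) ^ J ≤ X ^ (-(12 : ℝ)) := by
        apply TI_pow δ X hδ hX1 J hJ _ (by positivity)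
        rw [Real.rpow_neg hX0.le, one_div]
        exact inv_anti₀ (Real.rpow_pos_of_pos hX0 _) htl
      have h4 : ‖((X / d : ℝ) : ℂ)‖ = X / d := by
        rw [Complex.norm_real, Real.norm_eq_abs, abs_of_pos hY]
      rw [h4]
      have h5 : 0 ≤ X ^ (-(12 : ℝ)) := Real.rpow_nonneg hX0.le _
      calc ‖mean q (fun n => χ (n : ZMod q))‖ * (X / d * ‖mellin w (1 - t * I)‖)
          ≤ 1 * (X * (C₂ * A * X ^ (-(12 : ℝ)))) := by
            apply mul_le_mul h2 _ (by positivity) (by norm_num)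
            apply mul_le_mul hYX _ (by positivity) hX0.le
            exact h1.trans (mul_le_mul_of_nonneg_left h3 (by positivity))
        _ = C₂ * A * (X * X ^ (-(12 : ℝ))) := by ring
        _ ≤ C₂ * A * (X * X * X ^ (-(12 : ℝ))) := by
            apply mul_le_mul_of_nonneg_left _ (by positivity)
            apply mul_le_mul_of_nonneg_right _ h5
            nlinarith
        _ ≤ C₂ * A * X ^ (-8 : ℝ) := mul_le_mul_of_nonneg_left hX12 (by positivity)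
    · have h1 : mean q (fun n => χ (n : ZMod q)) = 0 := by
        rw [mean, TI_sum_zero χ hχ, zero_div]
      rw [h1, zero_mul, norm_zero]
      positivity
  have hfin := norm_le_norm_add_norm_sub' 
    (∑ n ∈ Icc 1 ⌊16 * (X / d)⌋₊, χ (n : ZMod q) * (fun x : ℝ => w x * (x : ℂ) ^ (-(t * I))) (n / (X / d)))
    (mean q (fun n => χ (n : ZMod q)) * (((X / d : ℝ) : ℂ) * ∫ x : ℝ, w x * (x : ℂ) ^ (-(t * I))))
  refine hfin.trans ?_
  calc _ ≤ C₂ * A * X ^ (-8 : ℝ) + 256 * C₁ * A * X ^ (-8 : ℝ) := add_le_add hmt (hmain.trans herr)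
    _ = _ := by ring

end Pool.Agent.PSG
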