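import Pool.Agent.W_b58c63_h68.Vau

/-!
# A form of the identity of Vaughan
-/

set_option autoImplicit false

noncomputable section

open Finset Complex ArithmeticFunction

namespace Pool.Agent.PSG

/-- `∑_{d ∣ k, d ≤ V} μ(d)`. -/
def vbF (V k : ℕ) : ℝ := ∑ d ∈ k.divisors.filter (fun d => d ≤ V), (moebius d : ℝ)

/-- Proof. At most one for every divisor. -/
theorem vbF_le (V k : ℕ) : |vbF V k| ≤ (k.divisors.card : ℝ) := by
  unfold vbF
  refine (Finset.abs_sum_le_sum_abs _ _).trans ?_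
  refine (Finset.sum_le_sum (g := fun _ : ℕ => (1 : ℝ)) (fun x _ => Wb58c63.Vau_mu_le x)).trans ?_
  rw [Finset.sum_const, nsmul_eq_mul, mul_one]
  exact_mod_cast Finset.card_filter_le _ _

/-- a weighted sum of a convolution -/
theorem VA_conv (a b : ArithmeticFunction ℝ) (f : ℕ → ℂ) (L : ℕ) :
    ∑ n ∈ Icc 1 L, (((a * b) n : ℝ) : ℂ) * f n =
      ∑ m ∈ Icc 1 L, ∑ k ∈ Icc 1 (L / m), (a m : ℂ) * (b k : ℂ) * f (m * k) := by
  have e : ∀ n ∈ Icc 1 L, (((a * b) n : ℝ) : ℂ) * f n = ∑ x ∈ Icc 1 L ×ˢ Icc 1 L,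
      if x.1 * x.2 = n then (a x.1 : ℂ) * (b x.2 : ℂ) * f (x.1 * x.2) else 0 := by
    intro n hn
    have hn' := mem_Icc.1 hn
    rw [mul_apply, Nat.divisorsAntidiagonal_eq_prod_filter_of_le (N := L) (by omega) hn'.2,
      ← sum_filter, Complex.ofReal_sum, sum_mul]
    refine sum_congr rfl fun x hx => ?_
    have hx' := (mem_filter.1 hx).2
    rw [hx']
    push_cast
    ring
  rw [sum_congr rfl e, sum_comm, sum_product]
  refine sum_congr rfl fun m hm => ?_
  have hm' := mem_Icc.1 hm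
  have e2 : ∀ k ∈ Icc 1 L, (∑ n ∈ Icc 1 L, if m * k = n then
      (a m : ℂ) * (b k : ℂ) * f (m * k) else 0) =
      if k ∈ Icc 1 (L / m) then (a m : ℂ) * (b k : ℂ) * f (m * k) else 0 := by
    intro k hk
    have hk' := mem_Icc.1 hk
    rw [sum_ite_eq]
    have h1 : m * k ∈ Icc 1 L ↔ k ∈ Icc 1 (L / m) := by
      rw [mem_Icc, mem_Icc, Nat.le_div_iff_mul_le (by omega), mul_comm k m]
      have : 1 ≤ m * k := Nat.mul_pos (by omega) (by omega)
      exact ⟨fun h => ⟨hk'.1, h.2⟩, fun h => ⟨this, h.2⟩⟩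
    simp only [h1]
  simp only []
  rw [sum_congr rfl e2, sum_ite_mem]
  refine sum_congr ?_ fun _ _ => rfl
  ext k
  rw [mem_inter, mem_Icc, mem_Icc]
  have := Nat.div_le_self L m
  constructor
  · rintro ⟨h1, h2⟩
    exact h2
  · rintro ⟨h1, h2⟩
    exact ⟨⟨h1, h2.trans this⟩, h1, h2⟩

/-- truncation -/
theorem VA_trunc (V L : ℕ) (g : ℕ → ℂ) (hg : ∀ d, L < d → g d = 0) :
    ∑ d ∈ Icc 1 L, ((Wb58c63.Vau_muL V d : ℝ) : ℂ) * g d =
      ∑ d ∈ Icc 1 V, (moebius d : ℂ) * g d := by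
  have e1 : ∀ d ∈ Icc 1 L, ((Wb58c63.Vau_muL V d : ℝ) : ℂ) * g d =
      if d ≤ V then (moebius d : ℂ) * g d else 0 := by
    intro d _
    rw [Wb58c63.Vau_muL_ap]
    split_ifs
    · push_cast
      rfl
    · rw [Complex.ofReal_zero, zero_mul]
  rw [sum_congr rfl e1, ← sum_filter]
  have e2 : ∀ d ∈ Icc 1 V, (moebius d : ℂ) * g d =
      if d ≤ L then (moebius d : ℂ) * g d else 0 := by
    intro d _
    split_ifs with h
    · rfl
    · rw [hg d (not_le.1 h), mul_zero]
  rw [sum_congr rfl e2, ← sum_filter]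
  refine sum_congr ?_ fun _ _ => rfl
  ext d
  rw [mem_filter, mem_filter, mem_Icc, mem_Icc]
  tauto

/-- `F` as an arithmetic function -/
def VA_F (F : ℕ → ℝ) : ArithmeticFunction ℝ := ⟨fun n => if n = 0 then 0 else F n, by simp⟩

theorem VA_F_ap (F : ℕ → ℝ) {n : ℕ} (hn : 1 ≤ n) : VA_F F n = F n := by
  show (if n = 0 then 0 else F n) = F n
  rw [if_neg (by omega)]

theorem VA_alg (V : ℕ) (F : ArithmeticFunction ℝ) :
    vonMangoldt = F + Wb58c63.Vau_muL V * ArithmeticFunction.log -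
      F * (Wb58c63.Vau_muL V * ((zeta : ArithmeticFunction ℕ) : ArithmeticFunction ℝ)) -
      (vonMangoldt - F) * (Wb58c63.Vau_muL V *
        ((zeta : ArithmeticFunction ℕ) : ArithmeticFunction ℝ) - 1) := by
  have h2 : vonMangoldt * ((zeta : ArithmeticFunction ℕ) : ArithmeticFunction ℝ) =
      ArithmeticFunction.log :=
    vonMangoldt_mul_zeta
  rw [← h2]
  ring

theorem VA_vbF (V k : ℕ) : (Wb58c63.Vau_muL V *
    ((zeta : ArithmeticFunction ℕ) : ArithmeticFunction ℝ)) k = vbF V k := by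
  rw [coe_mul_zeta_apply, vbF, sum_filter]
  refine sum_congr rfl fun d _ => ?_
  rw [Wb58c63.Vau_muL_ap]

theorem VA_vbF_small (V k : ℕ) (hkV : k ≤ V) :
    vbF V k - (1 : ArithmeticFunction ℝ) k = 0 := by
  have h1 : ((moebius : ArithmeticFunction ℤ) : ArithmeticFunction ℝ) *
      ((zeta : ArithmeticFunction ℕ) : ArithmeticFunction ℝ) = 1 := coe_moebius_mul_coe_zeta
  rw [← h1, coe_mul_zeta_apply, vbF, sub_eq_zero]
  have h2 : k.divisors.filter (fun d => d ≤ V) = k.divisors := by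
    refine filter_true_of_mem fun d hd => ?_
    exact (Nat.divisor_le hd).trans hkV
  rw [h2]
  refine sum_congr rfl fun d _ => ?_
  rw [intCoe_apply]

/-- **Vaughan's identity** with an arbitrary function `F`.

Proof. With the arithmetic functions `M = μ 1_{≤ V}`, `ζ`, `Λ`, `F` (with the value `0` at `0`; the value of `F` at `0` does not matter): `Λ = F + log * M - F * M * ζ - (Λ - F) * (M * ζ - 1)`, because `Λ * ζ = log` (expand). `(M * ζ)(k) = vbF V k`, which is `1` for `k = 1` (`V ≥ 1`) and `0` for `1 < k ≤ V`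
(`∑_{d ∣ k} μ(d) = 0`). So `M * ζ - 1` is supported on `k > V`. Multiply by `f n`, sum over `n ≤ L`, and write each convolution as a sum over pairs and triples. -/
theorem vaughan_sum (V L : ℕ) (hV : 1 ≤ V) (F : ℕ → ℝ) (f : ℕ → ℂ) :
    ∑ n ∈ Icc 1 L, (vonMangoldt n : ℂ) * f n =
      ∑ n ∈ Icc 1 L, (F n : ℂ) * f n +
      ∑ d ∈ Icc 1 V, (moebius d : ℂ) * ∑ h ∈ Icc 1 (L / d), (Real.log h : ℂ) * f (d * h) -
      ∑ m ∈ Icc 1 L, ∑ d ∈ Icc 1 V, (F m : ℂ) * (moebius d : ℂ) * ∑ r ∈ Icc 1 (L / (m * d)), f (m * d * r) -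
      ∑ m ∈ Icc 1 L, ∑ k ∈ Icc (V + 1) (L / m), ((vonMangoldt m - F m : ℝ) : ℂ) * (vbF V k : ℂ) * f (m * k) := by
  have h1 : ∀ n : ℕ, ((vonMangoldt n : ℝ) : ℂ) * f n =
      ((VA_F F n : ℝ) : ℂ) * f n + (((Wb58c63.Vau_muL V * ArithmeticFunction.log) n : ℝ) : ℂ) * f n -
      (((VA_F F * (Wb58c63.Vau_muL V *
        ((zeta : ArithmeticFunction ℕ) : ArithmeticFunction ℝ))) n : ℝ) : ℂ) * f n -
      ((((vonMangoldt - VA_F F) * (Wb58c63.Vau_muL V *
        ((zeta : ArithmeticFunction ℕ) : ArithmeticFunction ℝ) - 1)) n : ℝ) : ℂ) * f n := by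
    intro n
    conv_lhs => rw [VA_alg V (VA_F F)]
    have hadd : ∀ a b c d : ArithmeticFunction ℝ, (a + b - c - d) n = a n + b n - c n - d n :=
      fun _ _ _ _ => rfl
    rw [hadd]
    push_cast
    ring
  rw [sum_congr rfl fun n _ => h1 n, sum_sub_distrib, sum_sub_distrib, sum_add_distrib,
    VA_conv, VA_conv, VA_conv]
  congr 1
  · congr 1
    · congr 1
      · refine sum_congr rfl fun n hn => ?_
        rw [VA_F_ap F (mem_Icc.1 hn).1]
      · have h2 : ∀ d ∈ Icc 1 L, ∑ k ∈ Icc 1 (L / d), ((Wb58c63.Vau_muL V d : ℝ) : ℂ) *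
            ((ArithmeticFunction.log k : ℝ) : ℂ) * f (d * k) = ((Wb58c63.Vau_muL V d : ℝ) : ℂ) *
            ∑ k ∈ Icc 1 (L / d), (Real.log k : ℂ) * f (d * k) := by
          intro d _
          rw [mul_sum]
          refine sum_congr rfl fun k _ => ?_
          rw [ArithmeticFunction.log_apply, mul_assoc]
        rw [sum_congr rfl h2]
        refine VA_trunc V L _ fun d hd => ?_
        rw [Nat.div_eq_of_lt hd]
        simp
    · refine sum_congr rfl fun m hm => ?_
      have hm' := mem_Icc.1 hm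
      have h3 := VA_conv (Wb58c63.Vau_muL V)
        ((zeta : ArithmeticFunction ℕ) : ArithmeticFunction ℝ) (fun k => f (m * k)) (L / m)
      have h4 : ∑ k ∈ Icc 1 (L / m), ((VA_F F m : ℝ) : ℂ) * (((Wb58c63.Vau_muL V *
          ((zeta : ArithmeticFunction ℕ) : ArithmeticFunction ℝ)) k : ℝ) : ℂ) * f (m * k) =
          (F m : ℂ) * ∑ k ∈ Icc 1 (L / m), (((Wb58c63.Vau_muL V *
          ((zeta : ArithmeticFunction ℕ) : ArithmeticFunction ℝ)) k : ℝ) : ℂ) * f (m * k) := by
        rw [mul_sum, VA_F_ap F hm'.1]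
        refine sum_congr rfl fun k _ => ?_
        ring
      rw [h4, h3]
      have h5 : ∀ d ∈ Icc 1 (L / m), ∑ k ∈ Icc 1 (L / m / d), ((Wb58c63.Vau_muL V d : ℝ) : ℂ) *
          ((((zeta : ArithmeticFunction ℕ) : ArithmeticFunction ℝ) k : ℝ) : ℂ) * f (m * (d * k)) =
          ((Wb58c63.Vau_muL V d : ℝ) : ℂ) * ∑ r ∈ Icc 1 (L / m / d), f (m * d * r) := by
        intro d _
        rw [mul_sum]
        refine sum_congr rfl fun k hk => ?_
        have hk' := mem_Icc.1 hk
        rw [natCoe_apply, zeta_apply_ne (by omega), Nat.cast_one, Complex.ofReal_one, mul_one,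
          mul_assoc m d k]
      rw [sum_congr rfl h5, VA_trunc V (L / m) _ (fun d hd => by rw [Nat.div_eq_of_lt hd]; simp),
        mul_sum]
      refine sum_congr rfl fun d _ => ?_
      rw [Nat.div_div_eq_div_mul]
      ring
  · refine sum_congr rfl fun m hm => ?_
    have hm' := mem_Icc.1 hm
    have hsub : ∀ k : ℕ, (vonMangoldt - VA_F F) m = vonMangoldt m - F m := by
      intro k
      have : (vonMangoldt - VA_F F) m = vonMangoldt m - VA_F F m := rfl
      rw [this, VA_F_ap F hm'.1]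
    have hs : Icc (V + 1) (L / m) ⊆ Icc 1 (L / m) := Icc_subset_Icc (by omega) le_rfl
    rw [← sum_subset hs]
    · refine sum_congr rfl fun k hk => ?_
      have hk' := mem_Icc.1 hk
      rw [hsub k]
      have h6 : (Wb58c63.Vau_muL V * ((zeta : ArithmeticFunction ℕ) : ArithmeticFunction ℝ) - 1) k =
          vbF V k := by
        have : (Wb58c63.Vau_muL V * ((zeta : ArithmeticFunction ℕ) : ArithmeticFunction ℝ) - 1) k =
            (Wb58c63.Vau_muL V * ((zeta : ArithmeticFunction ℕ) : ArithmeticFunction ℝ)) k -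
              (1 : ArithmeticFunction ℝ) k := rfl
        rw [this, VA_vbF, one_apply_ne (by omega), sub_zero]
      rw [h6]
    · intro k hk hk2
      have hk' := mem_Icc.1 hk
      have hkV : k ≤ V := by
        by_contra hc
        exact hk2 (mem_Icc.2 ⟨by omega, hk'.2⟩)
      have h6 : (Wb58c63.Vau_muL V * ((zeta : ArithmeticFunction ℕ) : ArithmeticFunction ℝ) - 1) k =
          0 := by
        have : (Wb58c63.Vau_muL V * ((zeta : ArithmeticFunction ℕ) : ArithmeticFunction ℝ) - 1) k =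
            (Wb58c63.Vau_muL V * ((zeta : ArithmeticFunction ℕ) : ArithmeticFunction ℝ)) k -
              (1 : ArithmeticFunction ℝ) k := rfl
        rw [this, VA_vbF, VA_vbF_small V k hkV]
      rw [h6, Complex.ofReal_zero, mul_zero, zero_mul]

end Pool.Agent.PSG
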