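import Pool.Agent.W_b58c63_h44.TC
import Pool.Agent.W_b58c63_h44.Itf
import Pool.Agent.W_b58c63_h44.TI
import Pool.Agent.W_b58c63_h44.VA

/-!
# The mean square
-/

set_option autoImplicit false

noncomputable section

open Finset Complex MeasureTheory

namespace Pool.Agent.PSG

/-- the smooth twisted term -/
def MS_f (X : ℝ) {q : ℕ} (χ : DirichletCharacter ℂ q) (t : ℝ) (n : ℕ) : ℂ :=
  χ (n : ZMod q) * (n : ℂ) ^ (-(t * I)) * (Wm (n / X) : ℂ)

theorem MS_f_mul (X : ℝ) {q : ℕ} (χ : DirichletCharacter ℂ q) (t : ℝ) (d h : ℕ) :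
    MS_f X χ t (d * h) = χ (d : ZMod q) * (d : ℂ) ^ (-(t * I)) *
      (χ (h : ZMod q) * (h : ℂ) ^ (-(t * I)) * (Wm ((d * h : ℕ) / X) : ℂ)) := by
  unfold MS_f
  have h1 : ((d * h : ℕ) : ℂ) ^ (-(t * I)) = (d : ℂ) ^ (-(t * I)) * (h : ℂ) ^ (-(t * I)) := by
    push_cast
    exact Complex.natCast_mul_natCast_cpow d h _
  have h2 : χ ((d * h : ℕ) : ZMod q) = χ (d : ZMod q) * χ (h : ZMod q) := by
    push_cast
    exact map_mul χ _ _
  rw [h1, h2]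
  ring

theorem MS_f_big (X : ℝ) (hX : 0 < X) {q : ℕ} (χ : DirichletCharacter ℂ q) (t : ℝ) (n : ℕ) (h : 4 * X < n) :
    MS_f X χ t n = 0 := by
  unfold MS_f
  rw [Wm_facts.2.1 (n / X), Complex.ofReal_zero, mul_zero]
  intro hx
  have := hx.2
  rw [div_le_iff₀ hX] at this
  linarith

theorem MS_f_small (X : ℝ) (hX : 0 < X) {q : ℕ} (χ : DirichletCharacter ℂ q) (t : ℝ) (n : ℕ) (h : (n : ℝ) < X / 4) :
    MS_f X χ t n = 0 := by
  unfold MS_f
  rw [Wm_facts.2.1 (n / X), Complex.ofReal_zero, mul_zero]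
  intro hx
  have := hx.1
  rw [le_div_iff₀ hX] at this
  linarith

theorem MS_ext (g : ℕ → ℕ → ℂ) (a N : ℕ) (c : ℕ → ℕ) (ha : a ≤ N) (hc : ∀ m, c m ≤ N)
    (h1 : ∀ m k, 1 ≤ k → a < m → g m k = 0) (h2 : ∀ m k, 1 ≤ m → c m < k → g m k = 0) :
    ∑ m ∈ Icc 1 a, ∑ k ∈ Icc 1 (c m), g m k = ∑ m ∈ Icc 1 N, ∑ k ∈ Icc 1 N, g m k := by
  have e1 : ∀ m ∈ Icc 1 a, ∑ k ∈ Icc 1 (c m), g m k = ∑ k ∈ Icc 1 N, g m k := by
    intro m hm
    apply sum_subset (Icc_subset_Icc le_rfl (hc m))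
    intro k hk hk2
    apply h2 m k (mem_Icc.1 hm).1
    by_contra h
    exact hk2 (mem_Icc.2 ⟨(mem_Icc.1 hk).1, by omega⟩)
  rw [sum_congr rfl e1]
  apply sum_subset (Icc_subset_Icc le_rfl ha)
  intro m hm hm2
  apply sum_eq_zero
  intro k hk
  apply h1 m k (mem_Icc.1 hk).1
  by_contra h
  exact hm2 (mem_Icc.2 ⟨(mem_Icc.1 hm).1, by omega⟩)

theorem MS_one (X : ℝ) (hX : 0 < X) {q : ℕ} (χ : DirichletCharacter ℂ q) (t : ℝ) (L d : ℕ) (hd : 1 ≤ d) :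
    ∑ h ∈ Icc 1 (L / d), (Real.log h : ℂ) * MS_f X χ t (d * h) = χ (d : ZMod q) * (d : ℂ) ^ (-(t * I)) *
        (∑ h ∈ Icc 1 (L / d), χ (h : ZMod q) * (h : ℂ) ^ (-(t * I)) * ((Wm ((d * h : ℕ) / X) : ℂ) * (Real.log ((d * h : ℕ) / X) : ℂ)) +
          (Real.log (X / d) : ℂ) * ∑ h ∈ Icc 1 (L / d), χ (h : ZMod q) * (h : ℂ) ^ (-(t * I)) * (Wm ((d * h : ℕ) / X) : ℂ)) := by
  have e0 : ∀ h ∈ Icc 1 (L / d), (Real.log h : ℂ) * MS_f X χ t (d * h) = χ (d : ZMod q) * (d : ℂ) ^ (-(t * I)) *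
      (χ (h : ZMod q) * (h : ℂ) ^ (-(t * I)) * ((Wm ((d * h : ℕ) / X) : ℂ) * (Real.log ((d * h : ℕ) / X) : ℂ)) +
      (Real.log (X / d) : ℂ) * (χ (h : ZMod q) * (h : ℂ) ^ (-(t * I)) * (Wm ((d * h : ℕ) / X) : ℂ))) := by
    intro h hh
    have hh1 := (mem_Icc.1 hh).1
    have hd0 : (0 : ℝ) < d := by exact_mod_cast hd
    have hh0 : (0 : ℝ) < h := by exact_mod_cast hh1
    have e : (Real.log h : ℂ) = (Real.log ((d * h : ℕ) / X) : ℂ) + (Real.log (X / d) : ℂ) := by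
      rw [← Complex.ofReal_add, ← Real.log_mul]
      · congr 2
        push_cast
        field_simp
      · push_cast
        positivity
      · positivity
    rw [e, MS_f_mul]
    ring
  rw [sum_congr rfl e0, ← mul_sum, sum_add_distrib, ← mul_sum]

theorem MS_pt (X U : ℝ) (hX : 0 < X) (hU : 0 < U) (V K : ℕ) (hK : 8 * X ≤ 2 ^ K * U * (V + 1)) {q : ℕ}
    (χ : DirichletCharacter ℂ q) (t : ℝ) (m k : ℕ) :
    ((ArithmeticFunction.vonMangoldt m - ArithmeticFunction.vonMangoldt m * eta (m / U) : ℝ) : ℂ) *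
      (if V < k then (vbF V k : ℂ) else 0) * MS_f X χ t (m * k) =
    ∑ j ∈ Icc 1 K, (ArithmeticFunction.vonMangoldt m : ℂ) * (w1 (m / (2 ^ j * U)) : ℂ) * (if V < k then (vbF V k : ℂ) else 0) *
      MS_f X χ t (m * k) := by
  by_cases hm : (m : ℝ) / U ≤ 2 ^ K
  · have h1 := w1_facts.2.2.2 K (m / U) hm
    have h2 : ∑ j ∈ Icc 1 K, (w1 (m / (2 ^ j * U)) : ℂ) = ((1 - eta (m / U) : ℝ) : ℂ) := by
      rw [← h1, Complex.ofReal_sum]
      refine sum_congr rfl fun j _ => ?_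
      congr 2
      rw [div_div, mul_comm]
    rw [← sum_mul, ← sum_mul, ← mul_sum, h2]
    push_cast
    ring
  · rw [not_le, lt_div_iff₀ hU] at hm
    have key : (if V < k then (vbF V k : ℂ) else 0) * MS_f X χ t (m * k) = 0 := by
      split_ifs with hk
      · rw [MS_f_big X hX, mul_zero]
        have h1 : ((V : ℝ) + 1) ≤ k := by exact_mod_cast hk
        have h2 : (0 : ℝ) < (V : ℝ) + 1 := by positivity
        push_cast
        have h3 : 2 ^ K * U * ((V : ℝ) + 1) ≤ m * k := by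
          apply mul_le_mul hm.le h1 h2.le
          exact le_trans (by positivity) hm.le
        linarith
      · rw [zero_mul]
    rw [mul_assoc, key, mul_zero]
    symm
    apply sum_eq_zero
    intro j _
    rw [mul_assoc, key, mul_zero]

theorem MS_BL (X M : ℝ) (hX : 0 < X) (hM : 0 < M) (L : ℕ) (hL : L = ⌊16 * X⌋₊) {q : ℕ}
    (χ : DirichletCharacter ℂ q) (b : ℕ → ℂ) (t : ℝ) :
    BL X M χ b t = ∑ m ∈ Icc 1 L, ∑ k ∈ Icc 1 (L / m),
      (ArithmeticFunction.vonMangoldt m : ℂ) * (w1 (m / M) : ℂ) * b k * MS_f X χ t (m * k) := by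
  set g : ℕ → ℕ → ℂ := fun m k => (ArithmeticFunction.vonMangoldt m : ℂ) * (w1 (m / M) : ℂ) * b k * MS_f X χ t (m * k) with hg
  have h0 : BL X M χ b t = ∑ m ∈ Icc 1 ⌊16 * M⌋₊, ∑ k ∈ Icc 1 ⌊8 * X / M⌋₊, g m k := rfl
  rw [h0]
  set N := ⌊16 * M⌋₊ + ⌊8 * X / M⌋₊ + L with hN
  rw [MS_ext g ⌊16 * M⌋₊ N (fun _ => ⌊8 * X / M⌋₊) (by omega) (fun _ => by omega) ?_ ?_,
    MS_ext g L N (fun m => L / m) (by omega) (fun m => (Nat.div_le_self L m).trans (by omega)) ?_ ?_]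
  · intro m k hk hm
    simp only [hg]
    rw [MS_f_big X hX, mul_zero]
    have h1 : 16 * X < m := by
      rw [hL] at hm
      exact (Nat.floor_lt (by positivity)).1 hm
    have h2 : m ≤ m * k := Nat.le_mul_of_pos_right m hk
    have h3 : (m : ℝ) ≤ (m * k : ℕ) := by exact_mod_cast h2
    linarith
  · intro m k hm hk
    simp only [hg]
    rw [MS_f_big X hX, mul_zero]
    have h1 : L < m * k := by
      have := (Nat.div_lt_iff_lt_mul (by omega)).1 hk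
      rwa [mul_comm] at this
    have h2 : 16 * X < (m * k : ℕ) := by
      rw [hL] at h1
      exact (Nat.floor_lt (by positivity)).1 h1
    linarith
  · intro m k _ hm
    simp only [hg]
    have h1 : 16 * M < m := (Nat.floor_lt (by positivity)).1 hm
    rw [w1_facts.2.1 (m / M), Complex.ofReal_zero, mul_zero, zero_mul, zero_mul]
    intro hx
    have := hx.2
    rw [div_le_iff₀ hM] at this
    linarith
  · intro m k _ hk
    simp only [hg]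
    have h1 : 8 * X / M < k := (Nat.floor_lt (by positivity)).1 hk
    rw [div_lt_iff₀ hM] at h1
    by_cases hx : (m : ℝ) / M ∈ Set.Icc (1 / 2 : ℝ) 2
    · have h2 := hx.1
      rw [le_div_iff₀ hM] at h2
      rw [MS_f_big X hX, mul_zero]
      have h3 : (1 / 2 * M) * k ≤ m * k := mul_le_mul_of_nonneg_right h2 (Nat.cast_nonneg k)
      push_cast
      linarith
    · rw [w1_facts.2.1 (m / M) hx, Complex.ofReal_zero, mul_zero, zero_mul, zero_mul]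

theorem MS_four (X U : ℝ) (hX : 0 < X) (hU : 0 < U) (V L K : ℕ) (hL : L = ⌊16 * X⌋₊)
    (hK : 8 * X ≤ 2 ^ K * U * (V + 1)) {q : ℕ} (χ : DirichletCharacter ℂ q) (t : ℝ) :
    ∑ m ∈ Icc 1 L, ∑ k ∈ Icc (V + 1) (L / m),
      ((ArithmeticFunction.vonMangoldt m - ArithmeticFunction.vonMangoldt m * eta (m / U) : ℝ) : ℂ) * (vbF V k : ℂ) * MS_f X χ t (m * k) =
    ∑ j ∈ Icc 1 K, BL X (2 ^ j * U) χ (fun k => if V < k then (vbF V k : ℂ) else 0) t := by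
  have e1 : ∀ j ∈ Icc 1 K, BL X (2 ^ j * U) χ (fun k => if V < k then (vbF V k : ℂ) else 0) t =
      ∑ m ∈ Icc 1 L, ∑ k ∈ Icc 1 (L / m), (ArithmeticFunction.vonMangoldt m : ℂ) * (w1 (m / (2 ^ j * U)) : ℂ) *
        (if V < k then (vbF V k : ℂ) else 0) * MS_f X χ t (m * k) :=
    fun j _ => MS_BL X (2 ^ j * U) hX (by positivity) L hL χ _ t
  rw [sum_congr rfl e1, sum_comm]
  refine sum_congr rfl fun m _ => ?_
  rw [sum_comm]
  have e2 : ∀ k ∈ Icc 1 (L / m), ∑ j ∈ Icc 1 K, (ArithmeticFunction.vonMangoldt m : ℂ) * (w1 (m / (2 ^ j * U)) : ℂ) *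
        (if V < k then (vbF V k : ℂ) else 0) * MS_f X χ t (m * k) =
      ((ArithmeticFunction.vonMangoldt m - ArithmeticFunction.vonMangoldt m * eta (m / U) : ℝ) : ℂ) *
      (if V < k then (vbF V k : ℂ) else 0) * MS_f X χ t (m * k) :=
    fun k _ => (MS_pt X U hX hU V K hK χ t m k).symm
  rw [sum_congr rfl e2, ← sum_subset (Icc_subset_Icc (show 1 ≤ V + 1 by omega) (le_refl (L / m)))]
  · refine sum_congr rfl fun k hk => ?_
    rw [if_pos (by have := (mem_Icc.1 hk).1; omega)]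
  · intro k hk hk2
    rw [if_neg, mul_zero, zero_mul]
    intro h
    exact hk2 (mem_Icc.2 ⟨h, (mem_Icc.1 hk).2⟩)

theorem MS_K (A : ℝ) (U : ℝ) (hU : 0 < U) : ∃ K : ℕ, A ≤ 2 ^ K * U ∧ (1 ≤ K → 2 ^ K * U ≤ 2 * A) := by
  have h1 : ∃ K : ℕ, A ≤ 2 ^ K * U := by
    obtain ⟨n, hn⟩ := pow_unbounded_of_one_lt (A / U) (one_lt_two (α := ℝ))
    refine ⟨n, ?_⟩
    rw [div_lt_iff₀ hU] at hn
    exact hn.le
  classical
  refine ⟨Nat.find h1, Nat.find_spec h1, fun hK => ?_⟩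
  obtain ⟨k, hk⟩ : ∃ k, Nat.find h1 = k + 1 := ⟨Nat.find h1 - 1, by omega⟩
  have h2 := Nat.find_min h1 (m := k) (by omega)
  rw [hk, pow_succ]
  rw [not_le] at h2
  linarith

/-- **The identity of Vaughan for the smooth sum.**

Proof. `vaughan_sum` with `L = ⌊16 X⌋₊`, `F m = Λ(m) eta (m / U)`, `f n = χ(n) n ^ (-i t) Wm (n / X)` (completely multiplicative apart from the weight).
(0) `F n f n = 0` for all `n`: `F n ≠ 0` needs `n < 2 U`, `Wm (n / X) ≠ 0` needs `n ≥ X / 4 > 2 U`.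
(1) The second sum: `μ(d) χ(d) d ^ (-i t) ∑_h log h χ(h) h ^ (-i t) Wm (d h / X)` and `log h = log (d h / X) + log (X / d)`.
(2) The third sum: only `m < 2 U` matter.
(3) The fourth sum, over `m`, `k > V`: `Λ(m) - F m = Λ(m) (1 - eta (m / U)) = ∑_{j = 1}^{K} Λ(m) w1 (m / (2 ^ j U))` for `m ≤ 2 ^ K U` (`w1_facts`); take `K = K₀` minimal with `2 ^ K U ≥ 8 X ^ (1/2 + δ/8)`, so `2 ^ K U ≤ 16 X ^ (1/2 + δ/8)`. If `m > 2 ^ K U` then `m k ≥ 8 X ^ (1/2 + δ/8) (V + 1) > 4 X` and `Wm (m k / X) = 0`. For each `j` the sum over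
`m, k` is `BL X (2 ^ j U) χ b t` with `b k = vbF V k` for `k > V`, `0` otherwise: if `w1 (m / M) Wm (m k / X) ≠ 0` then `m ≤ 2 M ≤ 16 M`, `k ≤ 4 X / m ≤ 8 X / M`, and also `k ≤ L / m`. -/
theorem DS_vaughan (δ X : ℝ) (hδ : 0 < δ) (hδ1 : δ ≤ 1 / 16) (hX : 3 ≤ X) (hX2 : 16 * X ^ (δ / 32) ≤ X) {q : ℕ} [NeZero q] (χ : DirichletCharacter ℂ q) :
    ∃ (K : ℕ) (b : ℕ → ℂ), (∀ k, ‖b k‖ ≤ k.divisors.card) ∧ (1 ≤ K → 2 ^ K * X ^ (δ / 32) ≤ 16 * X ^ (1 / 2 + δ / 8)) ∧ ∀ t : ℝ,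
    DS χ (fun x => (Wm x : ℂ)) X t =
      ∑ d ∈ Icc 1 ⌊X ^ (1 / 2 - δ / 8)⌋₊, (ArithmeticFunction.moebius d : ℂ) * χ (d : ZMod q) * (d : ℂ) ^ (-(t * I)) *
        (∑ h ∈ Icc 1 (⌊16 * X⌋₊ / d), χ (h : ZMod q) * (h : ℂ) ^ (-(t * I)) * ((Wm ((d * h : ℕ) / X) : ℂ) * (Real.log ((d * h : ℕ) / X) : ℂ)) +
          (Real.log (X / d) : ℂ) * ∑ h ∈ Icc 1 (⌊16 * X⌋₊ / d), χ (h : ZMod q) * (h : ℂ) ^ (-(t * I)) * (Wm ((d * h : ℕ) / X) : ℂ)) -
      ∑ m ∈ Icc 1 ⌊2 * X ^ (δ / 32)⌋₊, ∑ d ∈ Icc 1 ⌊X ^ (1 / 2 - δ / 8)⌋₊,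
        ((ArithmeticFunction.vonMangoldt m * eta (m / X ^ (δ / 32)) : ℝ) : ℂ) * (ArithmeticFunction.moebius d : ℂ) *
        (χ ((m * d : ℕ) : ZMod q) * ((m * d : ℕ) : ℂ) ^ (-(t * I))) *
        ∑ r ∈ Icc 1 (⌊16 * X⌋₊ / (m * d)), χ (r : ZMod q) * (r : ℂ) ^ (-(t * I)) * (Wm ((m * d * r : ℕ) / X) : ℂ) -
      ∑ j ∈ Icc 1 K, BL X (2 ^ j * X ^ (δ / 32)) χ b t := by
  have hX0 : 0 < X := by linarith
  have hX1 : 1 ≤ X := by linarith
  have hU : 0 < X ^ (δ / 32) := Real.rpow_pos_of_pos hX0 _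
  set U := X ^ (δ / 32) with hUdef
  set V := ⌊X ^ (1 / 2 - δ / 8)⌋₊ with hVdef
  set L := ⌊16 * X⌋₊ with hLdef
  have hV : 1 ≤ V := by
    rw [hVdef, Nat.one_le_floor_iff]
    exact Real.one_le_rpow hX1 (by linarith)
  obtain ⟨K, hK1, hK2⟩ := MS_K (8 * X ^ (1 / 2 + δ / 8)) U hU
  have hK : 8 * X ≤ 2 ^ K * U * (V + 1) := by
    have h1 : X ^ (1 / 2 - δ / 8) ≤ (V : ℝ) + 1 := (Nat.lt_floor_add_one _).le
    have h2 : X ^ (1 / 2 + δ / 8) * X ^ (1 / 2 - δ / 8) = X := by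
      rw [← Real.rpow_add hX0]
      have : 1 / 2 + δ / 8 + (1 / 2 - δ / 8) = 1 := by ring
      rw [this, Real.rpow_one]
    calc 8 * X = (8 * X ^ (1 / 2 + δ / 8)) * X ^ (1 / 2 - δ / 8) := by rw [mul_assoc, h2]
      _ ≤ 2 ^ K * U * (V + 1) := by
          apply mul_le_mul hK1 h1 (Real.rpow_nonneg hX0.le _) (by positivity)
  refine ⟨K, fun k => if V < k then (vbF V k : ℂ) else 0, ?_, ?_, ?_⟩
  · intro k
    show ‖(if V < k then (vbF V k : ℂ) else 0)‖ ≤ _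
    split_ifs
    · rw [Complex.norm_real, Real.norm_eq_abs]
      exact vbF_le V k
    · rw [norm_zero]
      positivity
  · intro h
    have := hK2 h
    linarith
  intro t
  have hDS : DS χ (fun x => (Wm x : ℂ)) X t = ∑ n ∈ Icc 1 L, (ArithmeticFunction.vonMangoldt n : ℂ) * MS_f X χ t n := by
    unfold DS MS_f
    refine sum_congr rfl fun n _ => ?_
    ring
  rw [hDS, vaughan_sum V L hV (fun m => ArithmeticFunction.vonMangoldt m * eta (m / U)) (MS_f X χ t)]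
  have hzero : ∑ n ∈ Icc 1 L, ((ArithmeticFunction.vonMangoldt n * eta (n / U) : ℝ) : ℂ) * MS_f X χ t n = 0 := by
    apply sum_eq_zero
    intro n _
    by_cases hn : (n : ℝ) < X / 4
    · rw [MS_f_small X hX0 χ t n hn, mul_zero]
    · rw [not_lt] at hn
      rw [eta_facts.2.2.1 (n / U), mul_zero, Complex.ofReal_zero, zero_mul]
      rw [le_div_iff₀ hU]
      linarith
  rw [hzero, zero_add]
  have h4 := MS_four X U hX0 hU V L K hLdef hK χ t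
  rw [← h4]
  have h2 : ∑ d ∈ Icc 1 V, (ArithmeticFunction.moebius d : ℂ) * ∑ h ∈ Icc 1 (L / d), (Real.log h : ℂ) * MS_f X χ t (d * h) =
      ∑ d ∈ Icc 1 V, (ArithmeticFunction.moebius d : ℂ) * χ (d : ZMod q) * (d : ℂ) ^ (-(t * I)) *
        (∑ h ∈ Icc 1 (L / d), χ (h : ZMod q) * (h : ℂ) ^ (-(t * I)) * ((Wm ((d * h : ℕ) / X) : ℂ) * (Real.log ((d * h : ℕ) / X) : ℂ)) +
          (Real.log (X / d) : ℂ) * ∑ h ∈ Icc 1 (L / d), χ (h : ZMod q) * (h : ℂ) ^ (-(t * I)) * (Wm ((d * h : ℕ) / X) : ℂ)) := by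
    refine sum_congr rfl fun d hd => ?_
    rw [MS_one X hX0 χ t L d (mem_Icc.1 hd).1]
    ring
  rw [h2]
  have h3 : ∑ m ∈ Icc 1 L, ∑ d ∈ Icc 1 V, ((ArithmeticFunction.vonMangoldt m * eta (m / U) : ℝ) : ℂ) * (ArithmeticFunction.moebius d : ℂ) *
        ∑ r ∈ Icc 1 (L / (m * d)), MS_f X χ t (m * d * r) =
      ∑ m ∈ Icc 1 ⌊2 * U⌋₊, ∑ d ∈ Icc 1 V,
        ((ArithmeticFunction.vonMangoldt m * eta (m / U) : ℝ) : ℂ) * (ArithmeticFunction.moebius d : ℂ) *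
        (χ ((m * d : ℕ) : ZMod q) * ((m * d : ℕ) : ℂ) ^ (-(t * I))) *
        ∑ r ∈ Icc 1 (L / (m * d)), χ (r : ZMod q) * (r : ℂ) ^ (-(t * I)) * (Wm ((m * d * r : ℕ) / X) : ℂ) := by
    have hs : Icc 1 ⌊2 * U⌋₊ ⊆ Icc 1 L := by
      apply Icc_subset_Icc le_rfl
      apply Nat.floor_le_floor
      linarith
    rw [← sum_subset hs]
    · refine sum_congr rfl fun m _ => sum_congr rfl fun d _ => ?_
      have e : ∀ r ∈ Icc 1 (L / (m * d)), MS_f X χ t (m * d * r) = (χ ((m * d : ℕ) : ZMod q) * ((m * d : ℕ) : ℂ) ^ (-(t * I))) *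
          (χ (r : ZMod q) * (r : ℂ) ^ (-(t * I)) * (Wm ((m * d * r : ℕ) / X) : ℂ)) := fun r _ => MS_f_mul X χ t (m * d) r
      rw [sum_congr rfl e, ← mul_sum]
      ring
    · intro m hm hm2
      apply sum_eq_zero
      intro d _
      have h1 : 2 * U < m := by
        have h5 : ⌊2 * U⌋₊ < m := by
          by_contra h
          exact hm2 (mem_Icc.2 ⟨(mem_Icc.1 hm).1, by omega⟩)
        exact (Nat.floor_lt (by positivity)).1 h5
      rw [eta_facts.2.2.1 (m / U), mul_zero, Complex.ofReal_zero, zero_mul, zero_mul]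
      rw [le_div_iff₀ hU]
      linarith
  rw [h3]

theorem MS_norm_cpow (n : ℕ) (hn : 1 ≤ n) (t : ℝ) : ‖(n : ℂ) ^ (-(t * I))‖ = 1 := by
  rw [Complex.norm_natCast_cpow_of_pos hn]
  simp

theorem MS_cont_cpow (n : ℕ) (hn : 1 ≤ n) : Continuous (fun t : ℝ => (n : ℂ) ^ (-(t * I))) := by
  apply Continuous.const_cpow
  · fun_prop
  · left
    exact_mod_cast (by omega : n ≠ 0)

theorem MS_cont_DS {q : ℕ} (χ : DirichletCharacter ℂ q) (w : ℝ → ℂ) (Z : ℝ) : Continuous (fun t : ℝ => DS χ w Z t) := by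
  unfold DS
  apply continuous_finsetSum
  intro n hn
  exact (continuous_const.mul (MS_cont_cpow n (mem_Icc.1 hn).1)).mul continuous_const

theorem MS_cont_BL (X M : ℝ) {q : ℕ} (χ : DirichletCharacter ℂ q) (b : ℕ → ℂ) : Continuous (fun t : ℝ => BL X M χ b t) := by
  unfold BL
  apply continuous_finsetSum
  intro m hm
  apply continuous_finsetSum
  intro k hk
  have h1 := (mem_Icc.1 hm).1
  have h2 := (mem_Icc.1 hk).1
  exact continuous_const.mul ((continuous_const.mul (MS_cont_cpow (m * k) (Nat.mul_pos h1 h2))).mul continuous_const)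

theorem MS_vol (δ H X T : ℝ) (hT : 0 ≤ T) {q : ℕ} (χ : DirichletCharacter ℂ q) :
    volume.real {t : ℝ | Good δ H X χ t ∧ |t| ≤ T} ≤ 2 * T := by
  have hs : {t : ℝ | Good δ H X χ t ∧ |t| ≤ T} ⊆ Set.Icc (-T) T := fun t ht => abs_le.1 ht.2
  calc _ ≤ volume.real (Set.Icc (-T) T) := measureReal_mono hs (by simp)
    _ = 2 * T := by
        rw [Real.volume_real_Icc_of_le (by linarith)]
        ring

theorem MS_intOn (δ H X T : ℝ) {q : ℕ} (χ : DirichletCharacter ℂ q) (f : ℝ → ℝ) (hf : Continuous f) :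
    IntegrableOn f {t : ℝ | Good δ H X χ t ∧ |t| ≤ T} :=
  (hf.integrableOn_Icc (a := -T) (b := T)).mono_set (fun _ ht => abs_le.1 ht.2)

theorem MS_grow (c : ℝ) (hc : 0 < c) : ∃ X₁ : ℝ, ∀ X : ℝ, X₁ ≤ X →
    4 * X + 72 * Real.log X ^ 2 * X ^ (2 - c) ≤ X ^ (2 - min (c / 2) (1 / 2)) := by
  obtain ⟨a1, h1⟩ := MS_big (1 / 2) 8 (by norm_num)
  obtain ⟨a2, h2⟩ := MS_big (c / 4) 144 (by positivity)
  obtain ⟨a3, h3⟩ := MS_log (c / 8) (by positivity)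
  refine ⟨max (max a1 a2) (max a3 3), fun X hX => ?_⟩
  have b1 := h1 X (((le_max_left _ _).trans (le_max_left _ _)).trans hX)
  have b2 := h2 X (((le_max_right _ _).trans (le_max_left _ _)).trans hX)
  have b3 := h3 X (((le_max_left _ _).trans (le_max_right _ _)).trans hX)
  have hX3 : 3 ≤ X := ((le_max_right _ _).trans (le_max_right _ _)).trans hX
  have hX0 : 0 < X := by linarith
  have hX1 : 1 ≤ X := by linarith
  have hlog : 0 ≤ Real.log X := Real.log_nonneg hX1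
  set e := min (c / 2) (1 / 2) with he
  have he1 : e ≤ c / 2 := min_le_left _ _
  have he2 : e ≤ 1 / 2 := min_le_right _ _
  have p1 : 8 * X ≤ X ^ (2 - e) := by
    calc 8 * X ≤ X ^ (1 / 2 : ℝ) * X ^ (1 : ℝ) := by
          rw [Real.rpow_one]
          exact mul_le_mul_of_nonneg_right b1 hX0.le
      _ = X ^ (1 / 2 + 1 : ℝ) := by rw [← Real.rpow_add hX0]
      _ ≤ X ^ (2 - e) := Real.rpow_le_rpow_of_exponent_le hX1 (by linarith)
  have p2 : 144 * Real.log X ^ 2 * X ^ (2 - c) ≤ X ^ (2 - e) := by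
    have q1 : Real.log X ^ 2 ≤ X ^ (c / 4) := by
      calc Real.log X ^ 2 ≤ (X ^ (c / 8)) ^ 2 := pow_le_pow_left₀ hlog b3 2
        _ = X ^ (c / 4) := by
            rw [← Real.rpow_natCast, ← Real.rpow_mul hX0.le]
            congr 1
            push_cast
            ring
    calc 144 * Real.log X ^ 2 * X ^ (2 - c) ≤ X ^ (c / 4) * X ^ (c / 4) * X ^ (2 - c) := by
          apply mul_le_mul_of_nonneg_right _ (Real.rpow_nonneg hX0.le _)
          exact mul_le_mul b2 q1 (by positivity) (Real.rpow_nonneg hX0.le _)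
      _ = X ^ (c / 4 + c / 4 + (2 - c)) := by rw [← Real.rpow_add hX0, ← Real.rpow_add hX0]
      _ ≤ X ^ (2 - e) := Real.rpow_le_rpow_of_exponent_le hX1 (by linarith)
  linarith

theorem MS_S1 (X : ℝ) (hX : 1 ≤ X) (V : ℕ) (hV : (V : ℝ) ≤ X) {q : ℕ} (χ : DirichletCharacter ℂ q) (t E : ℝ) (hE : 0 ≤ E)
    (a b : ℕ → ℂ) (ha : ∀ d ∈ Icc 1 V, ‖a d‖ ≤ E) (hb : ∀ d ∈ Icc 1 V, ‖b d‖ ≤ E) :
    ‖∑ d ∈ Icc 1 V, (ArithmeticFunction.moebius d : ℂ) * χ (d : ZMod q) * (d : ℂ) ^ (-(t * I)) *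
      (a d + (Real.log (X / d) : ℂ) * b d)‖ ≤ X ^ 2 * E := by
  have h1 : ∀ d ∈ Icc 1 V, ‖(ArithmeticFunction.moebius d : ℂ) * χ (d : ZMod q) * (d : ℂ) ^ (-(t * I)) *
      (a d + (Real.log (X / d) : ℂ) * b d)‖ ≤ X * E := by
    intro d hd
    have hd1 := (mem_Icc.1 hd).1
    have hd2 := (mem_Icc.1 hd).2
    have hd0 : (0 : ℝ) < d := by exact_mod_cast hd1
    have hd3 : (1 : ℝ) ≤ d := by exact_mod_cast hd1
    have hdX : (d : ℝ) ≤ X := le_trans (by exact_mod_cast hd2) hV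
    have hy : 1 ≤ X / d := by rwa [le_div_iff₀ hd0, one_mul]
    have hy2 : X / d ≤ X := div_le_self (by linarith) hd3
    have hl0 : 0 ≤ Real.log (X / d) := Real.log_nonneg hy
    have hl1 : Real.log (X / d) ≤ X - 1 := by
      have := Real.log_le_sub_one_of_pos (show 0 < X / d by linarith)
      linarith
    have hmu : ‖((ArithmeticFunction.moebius d : ℤ) : ℂ)‖ ≤ 1 := by
      rw [Complex.norm_intCast]
      exact_mod_cast ArithmeticFunction.abs_moebius_le_one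
    have hchi : ‖χ (d : ZMod q)‖ ≤ 1 := DirichletCharacter.norm_le_one χ _
    have hin : ‖a d + (Real.log (X / d) : ℂ) * b d‖ ≤ X * E := by
      refine (norm_add_le _ _).trans ?_
      rw [norm_mul, Complex.norm_real, Real.norm_eq_abs, abs_of_nonneg hl0]
      have h2 : Real.log (X / d) * ‖b d‖ ≤ (X - 1) * E :=
        mul_le_mul hl1 (hb d hd) (norm_nonneg _) (by linarith)
      have h3 := ha d hd
      nlinarith
    rw [norm_mul, norm_mul, norm_mul, MS_norm_cpow d hd1, mul_one]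
    calc _ ≤ 1 * 1 * (X * E) := by
          apply mul_le_mul _ hin (norm_nonneg _) (by norm_num)
          exact mul_le_mul hmu hchi (norm_nonneg _) (by norm_num)
      _ = X * E := by ring
  refine (norm_sum_le_of_le _ h1).trans ?_
  rw [sum_const, Nat.card_Icc, nsmul_eq_mul]
  have h2 : ((V + 1 - 1 : ℕ) : ℝ) = V := by
    congr 1
  rw [h2]
  have h3 : 0 ≤ X * E := by positivity
  calc (V : ℝ) * (X * E) ≤ X * (X * E) := mul_le_mul_of_nonneg_right hV h3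
    _ = X ^ 2 * E := by ring

theorem MS_S2 (X U : ℝ) (hX : 1 ≤ X) (W V : ℕ) (hW : (W : ℝ) ≤ X) (hV : (V : ℝ) ≤ X) {q : ℕ} (χ : DirichletCharacter ℂ q) (t E : ℝ) (hE : 0 ≤ E)
    (c : ℕ → ℕ → ℂ) (hc : ∀ m ∈ Icc 1 W, ∀ d ∈ Icc 1 V, ‖c m d‖ ≤ E) :
    ‖∑ m ∈ Icc 1 W, ∑ d ∈ Icc 1 V, ((ArithmeticFunction.vonMangoldt m * eta (m / U) : ℝ) : ℂ) * (ArithmeticFunction.moebius d : ℂ) *
        (χ ((m * d : ℕ) : ZMod q) * ((m * d : ℕ) : ℂ) ^ (-(t * I))) * c m d‖ ≤ X ^ 3 * E := by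
  have h1 : ∀ m ∈ Icc 1 W, ‖∑ d ∈ Icc 1 V, ((ArithmeticFunction.vonMangoldt m * eta (m / U) : ℝ) : ℂ) * (ArithmeticFunction.moebius d : ℂ) *
        (χ ((m * d : ℕ) : ZMod q) * ((m * d : ℕ) : ℂ) ^ (-(t * I))) * c m d‖ ≤ X ^ 2 * E := by
    intro m hm
    have hm1 := (mem_Icc.1 hm).1
    have hm2 := (mem_Icc.1 hm).2
    have hm0 : (0 : ℝ) < m := by exact_mod_cast hm1
    have hmX : (m : ℝ) ≤ X := le_trans (by exact_mod_cast hm2) hW
    have hL0 : 0 ≤ ArithmeticFunction.vonMangoldt m := ArithmeticFunction.vonMangoldt_nonneg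
    have hL1 : ArithmeticFunction.vonMangoldt m ≤ X := by
      refine ArithmeticFunction.vonMangoldt_le_log.trans ?_
      have := Real.log_le_sub_one_of_pos hm0
      linarith
    have he := eta_facts.1 (m / U)
    have hF : ‖((ArithmeticFunction.vonMangoldt m * eta (m / U) : ℝ) : ℂ)‖ ≤ X := by
      rw [Complex.norm_real, Real.norm_eq_abs, abs_of_nonneg (mul_nonneg hL0 he.1)]
      calc _ ≤ X * 1 := mul_le_mul hL1 he.2 he.1 (by linarith)
        _ = X := mul_one X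
    have h2 : ∀ d ∈ Icc 1 V, ‖((ArithmeticFunction.vonMangoldt m * eta (m / U) : ℝ) : ℂ) * (ArithmeticFunction.moebius d : ℂ) *
        (χ ((m * d : ℕ) : ZMod q) * ((m * d : ℕ) : ℂ) ^ (-(t * I))) * c m d‖ ≤ X * E := by
      intro d hd
      have hd1 := (mem_Icc.1 hd).1
      have hmu : ‖((ArithmeticFunction.moebius d : ℤ) : ℂ)‖ ≤ 1 := by
        rw [Complex.norm_intCast]
        exact_mod_cast ArithmeticFunction.abs_moebius_le_one
      have hchi : ‖χ ((m * d : ℕ) : ZMod q)‖ ≤ 1 := DirichletCharacter.norm_le_one χ _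
      rw [norm_mul, norm_mul, norm_mul, norm_mul (χ _), MS_norm_cpow (m * d) (Nat.mul_pos hm1 hd1), mul_one]
      calc _ ≤ X * 1 * 1 * E := by
            apply mul_le_mul _ (hc m hm d hd) (norm_nonneg _) (by linarith)
            apply mul_le_mul _ hchi (norm_nonneg _) (by linarith)
            exact mul_le_mul hF hmu (norm_nonneg _) (by linarith)
        _ = X * E := by ring
    refine (norm_sum_le_of_le _ h2).trans ?_
    rw [sum_const, Nat.card_Icc, nsmul_eq_mul]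
    have h4 : ((V + 1 - 1 : ℕ) : ℝ) = V := by
      congr 1
    rw [h4]
    have h3 : 0 ≤ X * E := by positivity
    calc (V : ℝ) * (X * E) ≤ X * (X * E) := mul_le_mul_of_nonneg_right hV h3
      _ = X ^ 2 * E := by ring
  refine (norm_sum_le_of_le _ h1).trans ?_
  rw [sum_const, Nat.card_Icc, nsmul_eq_mul]
  have h4 : ((W + 1 - 1 : ℕ) : ℝ) = W := by
    congr 1
  rw [h4]
  have h3 : 0 ≤ X ^ 2 * E := by positivity
  calc (W : ℝ) * (X ^ 2 * E) ≤ X * (X ^ 2 * E) := mul_le_mul_of_nonneg_right hW h3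
    _ = X ^ 3 * E := by ring

theorem MS_Kb (δ X : ℝ) (hδ1 : δ ≤ 1 / 16) (hδ : 0 < δ) (hX : 3 ≤ X) (K : ℕ)
    (hK : 1 ≤ K → 2 ^ K * X ^ (δ / 32) ≤ 16 * X ^ (1 / 2 + δ / 8)) : (K : ℝ) ≤ 6 * Real.log X := by
  have hX0 : 0 < X := by linarith
  have hX1 : 1 ≤ X := by linarith
  have hl1 : 1 ≤ Real.log X := by
    rw [Real.le_log_iff_exp_le hX0]
    exact (Real.exp_one_lt_d9.le.trans (by norm_num)).trans hX
  rcases Nat.eq_zero_or_pos K with h0 | h0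
  · rw [h0]
    push_cast
    linarith
  have h1 := hK h0
  have h2 : (1 : ℝ) ≤ X ^ (δ / 32) := Real.one_le_rpow hX1 (by positivity)
  have h3 : X ^ (1 / 2 + δ / 8) ≤ X := by
    calc X ^ (1 / 2 + δ / 8) ≤ X ^ (1 : ℝ) := Real.rpow_le_rpow_of_exponent_le hX1 (by linarith)
      _ = X := Real.rpow_one X
  have h4 : (2 : ℝ) ^ K ≤ 2 ^ 4 * X := by
    have h5 : (2 : ℝ) ^ K * 1 ≤ 2 ^ K * X ^ (δ / 32) := mul_le_mul_of_nonneg_left h2 (by positivity)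
    linarith
  have h5 := Real.log_le_log (by positivity) h4
  rw [Real.log_mul (by norm_num) hX0.ne', Real.log_pow, Real.log_pow] at h5
  have h6 := Real.log_two_gt_d9
  have h7 := Real.log_two_lt_d9
  push_cast at h5
  have hK0 : (0 : ℝ) ≤ K := Nat.cast_nonneg K
  have h8 : (K : ℝ) * (69 / 100) ≤ K * Real.log 2 := mul_le_mul_of_nonneg_left (by linarith) hK0
  linarith

/-- **The mean square over the good set.**

Proof. `DS_vaughan`. By `type_one` (with the weights `Wm` and `Wm log`, `isW_fixed`; `d ≤ X ^ (1/2 - δ/8)` resp. `m d ≤ 2 X ^ (1/2 - 3 δ/32)`; a good `t` satisfies `|t| ≥ X ^ (δ / 32)` if `χ = 1`) the first two sums are at most `X ^ (-5)`. `K ≤ 2 log X`, and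
`‖∑_j BL‖ ^ 2 ≤ K ∑_j ‖BL‖ ^ 2`, with `block` (`M = 2 ^ j X ^ (δ/32) ∈ [X ^ (δ/32), 16 X ^ (1/2 + δ/8)]`). The measure of the set is at most `2 X`. -/
theorem mean_square [WI] [SEI] : ∃ κ₁ : ℝ, 0 < κ₁ ∧ κ₁ ≤ 1 / 16 ∧ ∀ δ : ℝ, 0 < δ → δ ≤ κ₁ → ∃ ε c X₀ : ℝ, 0 < ε ∧ 0 < c ∧ 3 ≤ X₀ ∧ ∀ X : ℝ, X₀ ≤ X →
    ∀ (q : ℕ) [NeZero q], (q : ℝ) ≤ X ^ ε → ∀ χ : DirichletCharacter ℂ q, χ.IsPrimitive →
    ∫ t in {t : ℝ | Good δ (X ^ (δ / 32)) X χ t ∧ |t| ≤ X ^ (1 / 2 + δ / 32)}, ‖DS χ (fun x => (Wm x : ℂ)) X t‖ ^ 2 ≤ X ^ (2 - c) := by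
  obtain ⟨κ₁, hκ0, hκ1, HB⟩ := block
  refine ⟨κ₁, hκ0, hκ1, fun δ hδ hδκ => ?_⟩
  obtain ⟨εb, cb, Xb, hεb, hcb, hXb, HB⟩ := HB δ hδ hδκ
  have hδ1 : δ ≤ 1 / 16 := hδκ.trans hκ1
  obtain ⟨J, εt, C, Xt, hεt, hC, hXt, HT⟩ := type_one δ hδ hδ1
  obtain ⟨A, hA, _, hWm, _, hWl⟩ := isW_fixed J
  obtain ⟨X1, hX1⟩ := MS_grow cb hcb
  obtain ⟨X2, hX2⟩ := MS_big (1 - δ / 32) 16 (by linarith)
  refine ⟨min εb εt, min (cb / 2) (1 / 2), max (max Xb Xt) (max (max X1 X2) (2 * C * A)), lt_min hεb hεt,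
    lt_min (by positivity) (by norm_num), hXb.trans ((le_max_left _ _).trans (le_max_left _ _)), ?_⟩
  intro X hX q _ hq χ hχ
  have hXb' : Xb ≤ X := ((le_max_left _ _).trans (le_max_left _ _)).trans hX
  have hXt' : Xt ≤ X := ((le_max_right _ _).trans (le_max_left _ _)).trans hX
  have hX1' : X1 ≤ X := (((le_max_left _ _).trans (le_max_left _ _)).trans (le_max_right _ _)).trans hX
  have hX2' : X2 ≤ X := (((le_max_right _ _).trans (le_max_left _ _)).trans (le_max_right _ _)).trans hX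
  have hCA : 2 * C * A ≤ X := ((le_max_right _ _).trans (le_max_right _ _)).trans hX
  have hX3 : 3 ≤ X := hXb.trans hXb'
  have hX0 : 0 < X := by linarith
  have hX11 : 1 ≤ X := by linarith
  have hqb : (q : ℝ) ≤ X ^ εb := hq.trans (Real.rpow_le_rpow_of_exponent_le hX11 (min_le_left _ _))
  have hqt : (q : ℝ) ≤ X ^ εt := hq.trans (Real.rpow_le_rpow_of_exponent_le hX11 (min_le_right _ _))
  have h16 : 16 * X ^ (δ / 32) ≤ X := by
    calc 16 * X ^ (δ / 32) ≤ X ^ (1 - δ / 32) * X ^ (δ / 32) :=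
          mul_le_mul_of_nonneg_right (hX2 X hX2') (Real.rpow_nonneg hX0.le _)
      _ = X := by
          rw [← Real.rpow_add hX0]
          have : 1 - δ / 32 + δ / 32 = 1 := by ring
          rw [this, Real.rpow_one]
  obtain ⟨K, b, hb, hK, HD⟩ := DS_vaughan δ X hδ hδ1 hX3 h16 χ
  have hKl := MS_Kb δ X hδ1 hδ hX3 K hK
  have hU0 : 0 < X ^ (δ / 32) := Real.rpow_pos_of_pos hX0 _
  set G : Set ℝ := {t : ℝ | Good δ (X ^ (δ / 32)) X χ t ∧ |t| ≤ X ^ (1 / 2 + δ / 32)} with hG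
  have hGm : MeasurableSet G := good_meas δ (X ^ (δ / 32)) X (X ^ (1 / 2 + δ / 32)) χ
  have hVX : ((⌊X ^ (1 / 2 - δ / 8)⌋₊ : ℕ) : ℝ) ≤ X ^ (1 / 2 - δ / 8) := Nat.floor_le (Real.rpow_nonneg hX0.le _)
  have hVX2 : X ^ (1 / 2 - δ / 8) ≤ X := by
    calc X ^ (1 / 2 - δ / 8) ≤ X ^ (1 : ℝ) := Real.rpow_le_rpow_of_exponent_le hX11 (by linarith)
      _ = X := Real.rpow_one X
  have hWX : ((⌊2 * X ^ (δ / 32)⌋₊ : ℕ) : ℝ) ≤ 2 * X ^ (δ / 32) := Nat.floor_le (by positivity)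
  have hE0 : 0 ≤ C * A * X ^ (-8 : ℝ) := by positivity
  have hpt : ∀ t ∈ G, ‖DS χ (fun x => (Wm x : ℂ)) X t‖ ^ 2 ≤
      2 + 2 * K * ∑ j ∈ Icc 1 K, ‖BL X (2 ^ j * X ^ (δ / 32)) χ b t‖ ^ 2 := by
    intro t ht
    have htχ : χ = 1 → X ^ (δ / 32) ≤ |t| := ht.1.2
    have HT2 := HT X hXt' q hqt χ hχ t ht.2 htχ A
    have s1 := MS_S1 X hX11 ⌊X ^ (1 / 2 - δ / 8)⌋₊ (hVX.trans hVX2) χ t (C * A * X ^ (-8 : ℝ)) hE0
      (fun d => ∑ h ∈ Icc 1 (⌊16 * X⌋₊ / d), χ (h : ZMod q) * (h : ℂ) ^ (-(t * I)) * ((Wm ((d * h : ℕ) / X) : ℂ) * (Real.log ((d * h : ℕ) / X) : ℂ)))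
      (fun d => ∑ h ∈ Icc 1 (⌊16 * X⌋₊ / d), χ (h : ZMod q) * (h : ℂ) ^ (-(t * I)) * (Wm ((d * h : ℕ) / X) : ℂ)) ?_ ?_
    · have s2 := MS_S2 X (X ^ (δ / 32)) hX11 ⌊2 * X ^ (δ / 32)⌋₊ ⌊X ^ (1 / 2 - δ / 8)⌋₊ (hWX.trans (by linarith)) (hVX.trans hVX2) χ t
        (C * A * X ^ (-8 : ℝ)) hE0
        (fun m d => ∑ r ∈ Icc 1 (⌊16 * X⌋₊ / (m * d)), χ (r : ZMod q) * (r : ℂ) ^ (-(t * I)) * (Wm ((m * d * r : ℕ) / X) : ℂ)) ?_
      · rw [HD t]
        have hsmall : X ^ 2 * (C * A * X ^ (-8 : ℝ)) + X ^ 3 * (C * A * X ^ (-8 : ℝ)) ≤ 1 := by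
          have e1 : X ^ (-8 : ℝ) = (X ^ 8)⁻¹ := by
            rw [Real.rpow_neg hX0.le]
            norm_cast
          rw [e1]
          have e2 : X ^ 2 * (C * A * (X ^ 8)⁻¹) + X ^ 3 * (C * A * (X ^ 8)⁻¹) = (C * A * (X ^ 2 + X ^ 3)) / X ^ 8 := by
            field_simp
          rw [e2, div_le_one (by positivity)]
          have e3 : X ^ 2 ≤ X ^ 3 := pow_le_pow_right₀ hX11 (by norm_num)
          have e4 : X ^ 4 ≤ X ^ 8 := pow_le_pow_right₀ hX11 (by norm_num)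
          have e5 : 0 ≤ C * A := by positivity
          calc C * A * (X ^ 2 + X ^ 3) ≤ C * A * (2 * X ^ 3) := mul_le_mul_of_nonneg_left (by linarith) e5
            _ = (2 * C * A) * X ^ 3 := by ring
            _ ≤ X * X ^ 3 := mul_le_mul_of_nonneg_right hCA (by positivity)
            _ = X ^ 4 := by ring
            _ ≤ X ^ 8 := e4
        have hnn : ∀ x y z : ℂ, ‖x‖ + ‖y‖ ≤ 1 → ‖x - y - z‖ ^ 2 ≤ 2 + 2 * ‖z‖ ^ 2 := by
          intro x y z h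
          have h1 : ‖x - y - z‖ ≤ 1 + ‖z‖ := by
            have := norm_sub_le (x - y) z
            have := norm_sub_le x y
            linarith
          have h2 := norm_nonneg (x - y - z)
          have h3 := norm_nonneg z
          nlinarith [sq_nonneg (1 - ‖z‖)]
        refine (hnn _ _ _ ((add_le_add s1 s2).trans hsmall)).trans ?_
        have hsum : ‖∑ j ∈ Icc 1 K, BL X (2 ^ j * X ^ (δ / 32)) χ b t‖ ^ 2 ≤
            K * ∑ j ∈ Icc 1 K, ‖BL X (2 ^ j * X ^ (δ / 32)) χ b t‖ ^ 2 := by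
          have h1 := norm_sum_le (Icc 1 K) (fun j => BL X (2 ^ j * X ^ (δ / 32)) χ b t)
          have h2 := sq_sum_le_card_mul_sum_sq (s := Icc 1 K) (f := fun j => ‖BL X (2 ^ j * X ^ (δ / 32)) χ b t‖)
          rw [Nat.card_Icc, Nat.add_sub_cancel] at h2
          exact (pow_le_pow_left₀ (norm_nonneg _) h1 2).trans h2
        linarith
      · intro m hm d hd
        have hm1 := (mem_Icc.1 hm).1
        have hd1 := (mem_Icc.1 hd).1
        have hm2 : (m : ℝ) ≤ 2 * X ^ (δ / 32) := le_trans (by exact_mod_cast (mem_Icc.1 hm).2) hWX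
        have hd2 : (d : ℝ) ≤ X ^ (1 / 2 - δ / 8) := le_trans (by exact_mod_cast (mem_Icc.1 hd).2) hVX
        apply HT2 (fun x => (Wm x : ℂ)) hWm (m * d) (Nat.mul_pos hm1 hd1)
        push_cast
        calc (m : ℝ) * d ≤ (2 * X ^ (δ / 32)) * X ^ (1 / 2 - δ / 8) := mul_le_mul hm2 hd2 (Nat.cast_nonneg d) (by positivity)
          _ = 2 * X ^ (δ / 32 + (1 / 2 - δ / 8)) := by rw [Real.rpow_add hX0, mul_assoc]
          _ = 2 * X ^ (1 / 2 - 3 * δ / 32) := by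
              congr 2
              ring
    · intro d hd
      have hd1 := (mem_Icc.1 hd).1
      have hd2 : (d : ℝ) ≤ X ^ (1 / 2 - δ / 8) := le_trans (by exact_mod_cast (mem_Icc.1 hd).2) hVX
      apply HT2 (fun x => (Wm x : ℂ) * (Real.log x : ℂ)) hWl d hd1
      have h1 : X ^ (1 / 2 - δ / 8) ≤ X ^ (1 / 2 - 3 * δ / 32) := Real.rpow_le_rpow_of_exponent_le hX11 (by linarith)
      have h2 : 0 ≤ X ^ (1 / 2 - 3 * δ / 32) := Real.rpow_nonneg hX0.le _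
      linarith
    · intro d hd
      have hd1 := (mem_Icc.1 hd).1
      have hd2 : (d : ℝ) ≤ X ^ (1 / 2 - δ / 8) := le_trans (by exact_mod_cast (mem_Icc.1 hd).2) hVX
      apply HT2 (fun x => (Wm x : ℂ)) hWm d hd1
      have h1 : X ^ (1 / 2 - δ / 8) ≤ X ^ (1 / 2 - 3 * δ / 32) := Real.rpow_le_rpow_of_exponent_le hX11 (by linarith)
      have h2 : 0 ≤ X ^ (1 / 2 - 3 * δ / 32) := Real.rpow_nonneg hX0.le _
      linarith
  have hci : ∀ j, IntegrableOn (fun t => ‖BL X (2 ^ j * X ^ (δ / 32)) χ b t‖ ^ 2) G := fun j =>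
    MS_intOn δ (X ^ (δ / 32)) X (X ^ (1 / 2 + δ / 32)) χ _ ((MS_cont_BL X (2 ^ j * X ^ (δ / 32)) χ b).norm.pow 2)
  have hsi : IntegrableOn (fun t => ∑ j ∈ Icc 1 K, ‖BL X (2 ^ j * X ^ (δ / 32)) χ b t‖ ^ 2) G :=
    integrable_finsetSum _ (fun j _ => hci j)
  have hco : IntegrableOn (fun _ : ℝ => (2 : ℝ)) G :=
    MS_intOn δ (X ^ (δ / 32)) X (X ^ (1 / 2 + δ / 32)) χ _ continuous_const
  have hint : ∫ t in G, ‖DS χ (fun x => (Wm x : ℂ)) X t‖ ^ 2 ≤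
      ∫ t in G, (2 + 2 * K * ∑ j ∈ Icc 1 K, ‖BL X (2 ^ j * X ^ (δ / 32)) χ b t‖ ^ 2) := by
    apply integral_mono_of_nonneg
    · exact Filter.Eventually.of_forall fun t => by positivity
    · exact hco.add (hsi.const_mul _)
    · exact ae_restrict_of_forall_mem hGm hpt
  refine hint.trans ?_
  rw [integral_add hco (hsi.const_mul _), integral_const_mul, integral_finsetSum _ (fun j _ => hci j)]
  have hT0 : 0 ≤ X ^ (1 / 2 + δ / 32) := Real.rpow_nonneg hX0.le _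
  have hTX : X ^ (1 / 2 + δ / 32) ≤ X := by
    calc X ^ (1 / 2 + δ / 32) ≤ X ^ (1 : ℝ) := Real.rpow_le_rpow_of_exponent_le hX11 (by linarith)
      _ = X := Real.rpow_one X
  have hvol := MS_vol δ (X ^ (δ / 32)) X (X ^ (1 / 2 + δ / 32)) hT0 χ
  have hc2 : ∫ _ in G, (2 : ℝ) ≤ 4 * X := by
    rw [setIntegral_const, smul_eq_mul]
    have : volume.real G ≤ 2 * X ^ (1 / 2 + δ / 32) := hvol
    linarith
  have hj : ∑ j ∈ Icc 1 K, ∫ t in G, ‖BL X (2 ^ j * X ^ (δ / 32)) χ b t‖ ^ 2 ≤ K * X ^ (2 - cb) := by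
    have h1 : ∀ j ∈ Icc 1 K, ∫ t in G, ‖BL X (2 ^ j * X ^ (δ / 32)) χ b t‖ ^ 2 ≤ X ^ (2 - cb) := by
      intro j hj
      have hj1 := (mem_Icc.1 hj).1
      have hj2 := (mem_Icc.1 hj).2
      apply HB X hXb' q hqb χ (2 ^ j * X ^ (δ / 32)) _ _ b hb
      · have : (1 : ℝ) ≤ 2 ^ j := one_le_pow₀ (by norm_num)
        nlinarith
      · refine le_trans ?_ (hK (hj1.trans hj2))
        apply mul_le_mul_of_nonneg_right _ hU0.le
        exact pow_le_pow_right₀ (by norm_num) hj2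
    refine (sum_le_sum h1).trans ?_
    rw [sum_const, Nat.card_Icc, Nat.add_sub_cancel, nsmul_eq_mul]
  refine le_trans ?_ (hX1 X hX1')
  have hK0 : (0 : ℝ) ≤ K := Nat.cast_nonneg K
  have hKK : (K : ℝ) * K ≤ 36 * Real.log X ^ 2 := by nlinarith
  have hp : 0 ≤ X ^ (2 - cb) := Real.rpow_nonneg hX0.le _
  calc _ ≤ 4 * X + 2 * K * (K * X ^ (2 - cb)) := add_le_add hc2 (mul_le_mul_of_nonneg_left hj (by positivity))
    _ = 4 * X + 2 * (K * K) * X ^ (2 - cb) := by ring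
    _ ≤ 4 * X + 2 * (36 * Real.log X ^ 2) * X ^ (2 - cb) := by
        have := mul_le_mul_of_nonneg_right hKK hp
        linarith
    _ = _ := by ring

theorem MS_bad (δ H X : ℝ) (hH : 0 ≤ H) {q : ℕ} (χ : DirichletCharacter ℂ q) :
    ∃ B : Set ℝ, MeasurableSet B ∧ volume.real B ≤ 2 * H * (((ZR (EF χ) δ X).card : ℝ) + 1) ∧ volume B < ⊤ ∧
      ∀ t, ¬ Good δ H X χ t → t ∈ B := by
  classical
  refine ⟨(⋃ ρ ∈ ZR (EF χ) δ X, Set.Ioo (ρ.im - H) (ρ.im + H)) ∪ Set.Ioo (-H) H, ?_, ?_, ?_, ?_⟩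
  · exact ((ZR (EF χ) δ X).measurableSet_biUnion fun ρ _ => measurableSet_Ioo).union measurableSet_Ioo
  · refine (measureReal_union_le _ _).trans ?_
    have h1 := measureReal_biUnion_finset_le (μ := volume) (ZR (EF χ) δ X) (fun ρ : ℂ => Set.Ioo (ρ.im - H) (ρ.im + H))
    have h2 : ∀ ρ ∈ ZR (EF χ) δ X, volume.real (Set.Ioo (ρ.im - H) (ρ.im + H)) = 2 * H := by
      intro ρ _
      rw [Real.volume_real_Ioo_of_le (by linarith)]
      ring
    rw [sum_congr rfl h2, sum_const, nsmul_eq_mul] at h1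
    have h3 : volume.real (Set.Ioo (-H) H) = 2 * H := by
      rw [Real.volume_real_Ioo_of_le (by linarith)]
      ring
    rw [h3]
    linarith
  · refine measure_union_lt_top ?_ (by simp)
    refine (measure_biUnion_finset_le _ _).trans_lt ?_
    exact ENNReal.sum_lt_top.2 fun ρ _ => by simp
  · intro t ht
    by_contra h
    apply ht
    rw [Set.mem_union, not_or] at h
    refine ⟨fun ρ hρ => ?_, fun _ => ?_⟩
    · by_contra h1
      rw [not_le, abs_lt] at h1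
      apply h.1
      rw [Set.mem_iUnion₂]
      exact ⟨ρ, hρ, by linarith, by linarith⟩
    · by_contra h1
      rw [not_le, abs_lt] at h1
      exact h.2 h1

theorem MS_card {q : ℕ} (χ : DirichletCharacter ℂ q) (δ X : ℝ) :
    ((ZR (EF χ) δ X).card : ℝ) ≤ ∑ ρ ∈ ZR (EF χ) δ X, (mz (EF χ) ρ : ℝ) := by
  have hne : ∃ s, EF χ s ≠ 0 := ⟨1, EF_ne_zero χ 1 (by simp)⟩
  have h1 : ∀ ρ ∈ ZR (EF χ) δ X, (1 : ℝ) ≤ (mz (EF χ) ρ : ℝ) := by
    intro ρ hρ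
    have h2 := (mem_ZR (EF χ) (EF_diff χ) hne δ X ρ).1 hρ
    exact_mod_cast mz_pos (EF χ) (EF_diff χ) hne ρ h2.1
  have h3 := sum_le_sum h1
  rw [sum_const, nsmul_eq_mul, mul_one] at h3
  exact h3

theorem MS_grow2 (c δ D : ℝ) (hc : 0 < c) (hδ : 0 < δ) : ∃ X₁ : ℝ, ∀ X : ℝ, X₁ ≤ X →
    2 * X ^ (2 - c) + 4 * X + D * X ^ (2 - δ) ≤ X ^ (2 - min (min (c / 2) (δ / 2)) (1 / 2)) := by
  obtain ⟨a1, h1⟩ := MS_big (c / 2) 6 (by positivity)
  obtain ⟨a2, h2⟩ := MS_big (1 / 2) 12 (by norm_num)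
  obtain ⟨a3, h3⟩ := MS_big (δ / 2) (3 * D) (by positivity)
  refine ⟨max (max a1 a2) (max a3 3), fun X hX => ?_⟩
  have b1 := h1 X (((le_max_left _ _).trans (le_max_left _ _)).trans hX)
  have b2 := h2 X (((le_max_right _ _).trans (le_max_left _ _)).trans hX)
  have b3 := h3 X (((le_max_left _ _).trans (le_max_right _ _)).trans hX)
  have hX3 : 3 ≤ X := ((le_max_right _ _).trans (le_max_right _ _)).trans hX
  have hX0 : 0 < X := by linarith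
  have hX1 : 1 ≤ X := by linarith
  set e := min (min (c / 2) (δ / 2)) (1 / 2) with he
  have he1 : e ≤ c / 2 := (min_le_left _ _).trans (min_le_left _ _)
  have he2 : e ≤ δ / 2 := (min_le_left _ _).trans (min_le_right _ _)
  have he3 : e ≤ 1 / 2 := min_le_right _ _
  have p1 : 6 * X ^ (2 - c) ≤ X ^ (2 - e) := by
    calc 6 * X ^ (2 - c) ≤ X ^ (c / 2) * X ^ (2 - c) := mul_le_mul_of_nonneg_right b1 (Real.rpow_nonneg hX0.le _)
      _ = X ^ (c / 2 + (2 - c)) := by rw [← Real.rpow_add hX0]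
      _ ≤ X ^ (2 - e) := Real.rpow_le_rpow_of_exponent_le hX1 (by linarith)
  have p2 : 12 * X ≤ X ^ (2 - e) := by
    calc 12 * X ≤ X ^ (1 / 2 : ℝ) * X ^ (1 : ℝ) := by
          rw [Real.rpow_one]
          exact mul_le_mul_of_nonneg_right b2 hX0.le
      _ = X ^ (1 / 2 + 1 : ℝ) := by rw [← Real.rpow_add hX0]
      _ ≤ X ^ (2 - e) := Real.rpow_le_rpow_of_exponent_le hX1 (by linarith)
  have p3 : 3 * D * X ^ (2 - δ) ≤ X ^ (2 - e) := by
    calc 3 * D * X ^ (2 - δ) ≤ X ^ (δ / 2) * X ^ (2 - δ) := mul_le_mul_of_nonneg_right b3 (Real.rpow_nonneg hX0.le _)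
      _ = X ^ (δ / 2 + (2 - δ)) := by rw [← Real.rpow_add hX0]
      _ ≤ X ^ (2 - e) := Real.rpow_le_rpow_of_exponent_le hX1 (by linarith)
  linarith

/-- splitting an integral over an interval -/
theorem MS_split (T c : ℝ) (hT : 0 ≤ T) (hc : 0 ≤ c) (G B : Set ℝ) (hG : MeasurableSet G) (hB : MeasurableSet B)
    (hBf : volume B < ⊤) (f g : ℝ → ℝ) (hf : ∀ t, 0 ≤ f t) (hg : ∀ t, 0 ≤ g t) (hgi : Continuous g)
    (hGT : G ⊆ Set.Icc (-T) T) (h1 : ∀ t ∈ G, f t ≤ g t) (h2 : ∀ t, |t| ≤ T → t ∉ G → t ∈ B ∧ f t ≤ c) :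
    ∫ t in (-T)..T, f t ≤ (∫ t in G, g t) + c * volume.real B := by
  rw [intervalIntegral.integral_of_le (by linarith)]
  have hgG : IntegrableOn g G := (hgi.integrableOn_Icc (a := -T) (b := T)).mono_set hGT
  have i1 : IntegrableOn (G.indicator g) (Set.Ioc (-T) T) := by
    exact ((integrable_indicator_iff hG).2 hgG).integrableOn
  have i2 : IntegrableOn (B.indicator (fun _ => c)) (Set.Ioc (-T) T) := by
    refine ((integrable_indicator_iff hB).2 ?_).integrableOn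
    exact integrableOn_const hBf.ne
  have hle : ∫ t in Set.Ioc (-T) T, f t ≤ ∫ t in Set.Ioc (-T) T, (G.indicator g t + B.indicator (fun _ => c) t) := by
    apply integral_mono_of_nonneg
    · exact Filter.Eventually.of_forall fun t => hf t
    · exact i1.add i2
    · refine ae_restrict_of_forall_mem measurableSet_Ioc fun t ht => ?_
      show f t ≤ G.indicator g t + B.indicator (fun _ => c) t
      have hb0 : 0 ≤ B.indicator (fun _ => c) t := Set.indicator_nonneg (fun _ _ => hc) t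
      by_cases hGt : t ∈ G
      · rw [Set.indicator_of_mem hGt]
        have := h1 t hGt
        linarith
      · have h3 := h2 t (abs_le.2 ⟨ht.1.le, ht.2⟩) hGt
        rw [Set.indicator_of_notMem hGt, Set.indicator_of_mem h3.1]
        linarith [h3.2]
  refine hle.trans ?_
  rw [integral_add i1 i2]
  apply add_le_add
  · calc ∫ t in Set.Ioc (-T) T, G.indicator g t ≤ ∫ t, G.indicator g t := by
          apply setIntegral_le_integral ((integrable_indicator_iff hG).2 hgG)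
          exact Filter.Eventually.of_forall fun t => Set.indicator_nonneg (fun t _ => hg t) t
      _ = ∫ t in G, g t := integral_indicator hG
  · calc ∫ t in Set.Ioc (-T) T, B.indicator (fun _ => c) t ≤ ∫ t, B.indicator (fun _ => c) t := by
          apply setIntegral_le_integral
          · exact (integrable_indicator_iff hB).2 (integrableOn_const hBf.ne)
          · exact Filter.Eventually.of_forall fun t => Set.indicator_nonneg (fun _ _ => hc) t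
      _ = c * volume.real B := by
          rw [integral_indicator hB, setIntegral_const, smul_eq_mul, mul_comm]

/-- **The mean square of the difference to the main terms.**

Proof. On the good set `‖DS - MM‖ ^ 2 ≤ 2 ‖DS‖ ^ 2 + 2 ‖MM‖ ^ 2`: `mean_square` and `MM_small` (`X ^ (δ/32) ≥ X ^ (δ/64)`). The bad set in `[-T, T]` has measure at most `2 X ^ (δ/32) (1 + #ZR) ≤ 2 X ^ (δ/32) (1 + 2 X ^ (δ/4))`, and there `smooth_explicit` with `ε₄ = δ / 8`, `Z = X`, `B = 1` (`T ≤ X / 4`) gives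
`‖DS - MM‖ ^ 2 ≤ C X ^ (2 - 2 δ + δ / 4)`. Total `≤ C X ^ (2 - δ)`. (`#ZR ≤ ∑ mz` by `mz_pos`.) -/
theorem mean_diff [WI] [SEI] : ∃ κ₁ : ℝ, 0 < κ₁ ∧ κ₁ ≤ 1 / 16 ∧ ∀ δ : ℝ, 0 < δ → δ ≤ κ₁ → ∃ ε c X₀ : ℝ, 0 < ε ∧ 0 < c ∧ 3 ≤ X₀ ∧ ∀ X : ℝ, X₀ ≤ X →
    ∀ (q : ℕ) [NeZero q], (q : ℝ) ≤ X ^ ε → ∀ χ : DirichletCharacter ℂ q, χ.IsPrimitive →
    ∑ ρ ∈ ZR (EF χ) δ X, (mz (EF χ) ρ : ℝ) ≤ 2 * X ^ (δ / 4) →
    ∫ t in (-(X ^ (1 / 2 + δ / 32)))..(X ^ (1 / 2 + δ / 32)),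
      ‖DS χ (fun x => (Wm x : ℂ)) X t - MM δ X χ (fun x => (Wm x : ℂ)) X t‖ ^ 2 ≤ X ^ (2 - c) := by
  obtain ⟨κa, hκa0, hκa1, HA⟩ := mean_square
  obtain ⟨κb, hκb0, hκb1, HB⟩ := MM_small
  obtain ⟨κc, εc, hκc0, hκc1, hεc, _, HC⟩ := SEI.smooth_explicit
  refine ⟨min κa (min κb κc), lt_min hκa0 (lt_min hκb0 hκc0), (min_le_left _ _).trans hκa1, fun δ hδ hδκ => ?_⟩
  have hδa : δ ≤ κa := hδκ.trans (min_le_left _ _)
  have hδb : δ ≤ κb := hδκ.trans ((min_le_right _ _).trans (min_le_left _ _))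
  have hδc : δ ≤ κc := hδκ.trans ((min_le_right _ _).trans (min_le_right _ _))
  have hδ1 : δ ≤ 1 / 16 := hδa.trans hκa1
  obtain ⟨εa, ca, Xa, hεa, hca, hXa, HA⟩ := HA δ hδ hδa
  obtain ⟨Jb, Cb, Xb, hCb, hXb, HB⟩ := HB δ hδ hδb
  obtain ⟨Jc, Cc, Xc, _, hCc, hXc, HC⟩ := HC δ hδ hδc (δ / 8) (by positivity) (by linarith)
  obtain ⟨Ab, hAb, _, hWb, _, _⟩ := isW_fixed Jb
  obtain ⟨Ac, hAc, _, hWc, _, _⟩ := isW_fixed Jc
  obtain ⟨X1, hX1⟩ := MS_grow2 ca δ (6 * (Cc * Ac) ^ 2) hca hδ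
  obtain ⟨X2, hX2⟩ := MS_big (1 / 2 - δ / 32) 4 (by linarith)
  refine ⟨min εa (min κb εc), min (min (ca / 2) (δ / 2)) (1 / 2), max (max Xa (max Xb Xc)) (max (max X1 X2) (Cb * Ab)),
    lt_min hεa (lt_min hκb0 hεc), lt_min (lt_min (by positivity) (by positivity)) (by norm_num),
    hXa.trans ((le_max_left _ _).trans (le_max_left _ _)), ?_⟩
  intro X hX q _ hq χ hχ hZ
  have hXa' : Xa ≤ X := ((le_max_left _ _).trans (le_max_left _ _)).trans hX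
  have hXb' : Xb ≤ X := (((le_max_left _ _).trans (le_max_right _ _)).trans (le_max_left _ _)).trans hX
  have hXc' : Xc ≤ X := (((le_max_right _ _).trans (le_max_right _ _)).trans (le_max_left _ _)).trans hX
  have hX1' : X1 ≤ X := (((le_max_left _ _).trans (le_max_left _ _)).trans (le_max_right _ _)).trans hX
  have hX2' : X2 ≤ X := (((le_max_right _ _).trans (le_max_left _ _)).trans (le_max_right _ _)).trans hX
  have hCA : Cb * Ab ≤ X := ((le_max_right _ _).trans (le_max_right _ _)).trans hX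
  have hX3 : 3 ≤ X := hXa.trans hXa'
  have hX0 : 0 < X := by linarith
  have hX11 : 1 ≤ X := by linarith
  have hqa : (q : ℝ) ≤ X ^ εa := hq.trans (Real.rpow_le_rpow_of_exponent_le hX11 (min_le_left _ _))
  have hqb : (q : ℝ) ≤ X ^ κb := hq.trans (Real.rpow_le_rpow_of_exponent_le hX11 ((min_le_right _ _).trans (min_le_left _ _)))
  have hqc : (q : ℝ) ≤ X ^ εc := hq.trans (Real.rpow_le_rpow_of_exponent_le hX11 ((min_le_right _ _).trans (min_le_right _ _)))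
  have hT0 : 0 ≤ X ^ (1 / 2 + δ / 32) := Real.rpow_nonneg hX0.le _
  have hT4 : 4 * X ^ (1 / 2 + δ / 32) ≤ X := by
    calc 4 * X ^ (1 / 2 + δ / 32) ≤ X ^ (1 / 2 - δ / 32) * X ^ (1 / 2 + δ / 32) :=
          mul_le_mul_of_nonneg_right (hX2 X hX2') hT0
      _ = X := by
          rw [← Real.rpow_add hX0]
          have : 1 / 2 - δ / 32 + (1 / 2 + δ / 32) = 1 := by ring
          rw [this, Real.rpow_one]
  have hX4 : 4 ≤ X := by
    have h1 : (1 : ℝ) ≤ X ^ (1 / 2 + δ / 32) := Real.one_le_rpow hX11 (by positivity)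
    linarith
  have hXX : X ≤ X ^ 2 := by nlinarith
  have hH0 : 0 ≤ X ^ (δ / 32) := Real.rpow_nonneg hX0.le _
  obtain ⟨B, hBm, hBv, hBf, hBt⟩ := MS_bad δ (X ^ (δ / 32)) X hH0 χ
  set G : Set ℝ := {t : ℝ | Good δ (X ^ (δ / 32)) X χ t ∧ |t| ≤ X ^ (1 / 2 + δ / 32)} with hG
  have hGm : MeasurableSet G := good_meas δ (X ^ (δ / 32)) X (X ^ (1 / 2 + δ / 32)) χ
  have hA := HA X hXa' q hqa χ hχ
  have hsp := MS_split (X ^ (1 / 2 + δ / 32)) ((Cc * Ac * X ^ (1 - δ) * X ^ (δ / 8)) ^ 2) hT0 (by positivity) G B hGm hBm hBf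
    (fun t => ‖DS χ (fun x => (Wm x : ℂ)) X t - MM δ X χ (fun x => (Wm x : ℂ)) X t‖ ^ 2)
    (fun t => 2 * ‖DS χ (fun x => (Wm x : ℂ)) X t‖ ^ 2 + 2) (fun t => by positivity) (fun t => by positivity)
    ((((MS_cont_DS χ (fun x => (Wm x : ℂ)) X).norm.pow 2).const_mul 2).add continuous_const)
    (fun t ht => abs_le.1 ht.2) ?_ ?_
  · refine hsp.trans ?_
    have hco : IntegrableOn (fun _ : ℝ => (2 : ℝ)) G :=
      MS_intOn δ (X ^ (δ / 32)) X (X ^ (1 / 2 + δ / 32)) χ _ continuous_const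
    have hds : IntegrableOn (fun t => 2 * ‖DS χ (fun x => (Wm x : ℂ)) X t‖ ^ 2) G :=
      MS_intOn δ (X ^ (δ / 32)) X (X ^ (1 / 2 + δ / 32)) χ _ (((MS_cont_DS χ (fun x => (Wm x : ℂ)) X).norm.pow 2).const_mul 2)
    have e1 : ∫ t in G, (2 * ‖DS χ (fun x => (Wm x : ℂ)) X t‖ ^ 2 + 2) ≤ 2 * X ^ (2 - ca) + 4 * X := by
      rw [integral_add hds hco, integral_const_mul, setIntegral_const, smul_eq_mul]
      have hvol : volume.real G ≤ 2 * X ^ (1 / 2 + δ / 32) := MS_vol δ (X ^ (δ / 32)) X (X ^ (1 / 2 + δ / 32)) hT0 χ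
      have : ∫ t in G, ‖DS χ (fun x => (Wm x : ℂ)) X t‖ ^ 2 ≤ X ^ (2 - ca) := hA
      linarith
    have e2 : (Cc * Ac * X ^ (1 - δ) * X ^ (δ / 8)) ^ 2 * volume.real B ≤ 6 * (Cc * Ac) ^ 2 * X ^ (2 - δ) := by
      have h1 : volume.real B ≤ 6 * (X ^ (δ / 32) * X ^ (δ / 4)) := by
        have h2 := (MS_card χ δ X).trans hZ
        have h3 : 1 ≤ X ^ (δ / 4) := Real.one_le_rpow hX11 (by positivity)
        calc volume.real B ≤ 2 * X ^ (δ / 32) * (((ZR (EF χ) δ X).card : ℝ) + 1) := hBv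
          _ ≤ 2 * X ^ (δ / 32) * (3 * X ^ (δ / 4)) := mul_le_mul_of_nonneg_left (by linarith) (by positivity)
          _ = _ := by ring
      have h4 : (Cc * Ac * X ^ (1 - δ) * X ^ (δ / 8)) ^ 2 = (Cc * Ac) ^ 2 * X ^ (2 * (1 - δ) + 2 * (δ / 8)) := by
        rw [Real.rpow_add hX0, mul_comm 2 (1 - δ), mul_comm 2 (δ / 8), Real.rpow_mul hX0.le, Real.rpow_mul hX0.le]
        norm_cast
        ring
      rw [h4]
      calc (Cc * Ac) ^ 2 * X ^ (2 * (1 - δ) + 2 * (δ / 8)) * volume.real B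
          ≤ (Cc * Ac) ^ 2 * X ^ (2 * (1 - δ) + 2 * (δ / 8)) * (6 * (X ^ (δ / 32) * X ^ (δ / 4))) :=
            mul_le_mul_of_nonneg_left h1 (by positivity)
        _ = 6 * (Cc * Ac) ^ 2 * (X ^ (2 * (1 - δ) + 2 * (δ / 8)) * (X ^ (δ / 32) * X ^ (δ / 4))) := by ring
        _ = 6 * (Cc * Ac) ^ 2 * X ^ (2 * (1 - δ) + 2 * (δ / 8) + (δ / 32 + δ / 4)) := by
            rw [← Real.rpow_add hX0, ← Real.rpow_add hX0]
        _ ≤ 6 * (Cc * Ac) ^ 2 * X ^ (2 - δ) := by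
            apply mul_le_mul_of_nonneg_left _ (by positivity)
            exact Real.rpow_le_rpow_of_exponent_le hX11 (by linarith)
    have e3 := hX1 X hX1'
    linarith
  · intro t ht
    have h1 : X ^ (δ / 64) ≤ X ^ (δ / 32) := Real.rpow_le_rpow_of_exponent_le hX11 (by linarith)
    have hgood : Good δ (X ^ (δ / 64)) X χ t := ⟨fun ρ hρ => h1.trans (ht.1.1 ρ hρ), fun h => h1.trans (ht.1.2 h)⟩
    have h2 := HB X hXb' q hqb χ Ab (fun x => (Wm x : ℂ)) hWb X t hX11 hXX hgood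
    have h3 : Cb * Ab * X ^ (-8 : ℝ) ≤ 1 := by
      have e1 : X ^ (-8 : ℝ) = (X ^ 8)⁻¹ := by
        rw [Real.rpow_neg hX0.le]
        norm_cast
      rw [e1, ← div_eq_mul_inv, div_le_one (by positivity)]
      calc Cb * Ab ≤ X := hCA
        _ = X ^ 1 := (pow_one X).symm
        _ ≤ X ^ 8 := pow_le_pow_right₀ hX11 (by norm_num)
    have h4 := h2.trans h3
    show ‖DS χ (fun x => (Wm x : ℂ)) X t - MM δ X χ (fun x => (Wm x : ℂ)) X t‖ ^ 2 ≤ 2 * ‖DS χ (fun x => (Wm x : ℂ)) X t‖ ^ 2 + 2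
    have h5 := norm_sub_le (DS χ (fun x => (Wm x : ℂ)) X t) (MM δ X χ (fun x => (Wm x : ℂ)) X t)
    have h6 := norm_nonneg (DS χ (fun x => (Wm x : ℂ)) X t - MM δ X χ (fun x => (Wm x : ℂ)) X t)
    have h7 := norm_nonneg (DS χ (fun x => (Wm x : ℂ)) X t)
    nlinarith [sq_nonneg (1 - ‖DS χ (fun x => (Wm x : ℂ)) X t‖)]
  · intro t ht htG
    have hng : ¬ Good δ (X ^ (δ / 32)) X χ t := fun h => htG ⟨h, ht⟩
    refine ⟨hBt t hng, ?_⟩
    have h1 := HC X hXc' q hqc χ Ac 1 (fun x => (Wm x : ℂ)) le_rfl hWc X hX4 hXX t (by linarith)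
    rw [one_pow, mul_one] at h1
    exact pow_le_pow_left₀ (norm_nonneg _) h1 2

end Pool.Agent.PSG
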