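import Pool.Agent.W_b58c63_h44.MTf
import Pool.Agent.W_b58c63_h44.AR

/-!
# The main term
-/

set_option autoImplicit false

noncomputable section

open Finset Complex MeasureTheory

namespace Pool.Agent.PSG

open Pool.Agent.Wb58c63 (prim ee)

/-- The density of the primes in the progressions of `χ` near `u`. -/
def ax (δ T : ℝ) {r : ℕ} (χ : DirichletCharacter ℂ r) (u : ℝ) : ℂ :=
  (dl χ : ℂ) - ∑ ρ ∈ ZR (EF χ) δ T, (mz (EF χ) ρ : ℂ) * (u : ℂ) ^ (ρ - 1)

/-- The characters. -/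
abbrev Ch : Type := Σ r : ℕ, DirichletCharacter ℂ r

/-- The primitive characters with modulus up to `Q`. -/
def PCh (Q : ℕ) : Finset Ch := (Icc 1 Q).sigma (fun r => prim r)

/-- The main term before the integration. -/
def Sv (δ T X : ℝ) (Q N : ℕ) (v : ℝ) : ℂ :=
  ∑ x ∈ PCh Q, ∑ y ∈ PCh (Q ^ 2), AC Q x.2 y.2 N * ax δ T x.2 v * ax δ X y.2 (N - v)

theorem MTa_ax_cont (δ T : ℝ) {r : ℕ} (χ : DirichletCharacter ℂ r) :
    ContinuousOn (ax δ T χ) {u : ℝ | 0 < u} := by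
  intro u hu
  have hu' : u ≠ 0 := ne_of_gt hu
  apply ContinuousAt.continuousWithinAt
  unfold ax
  apply ContinuousAt.sub continuousAt_const
  apply tendsto_finsetSum
  intro ρ _
  exact (continuousAt_const).mul (Complex.continuousAt_ofReal_cpow_const u (ρ - 1) (Or.inr hu'))

theorem MTa_int (δ T X : ℝ) (hX : 64 ≤ X) (N : ℕ) (hN : X ≤ N) {r r₂ : ℕ} (χ : DirichletCharacter ℂ r)
    (ψ : DirichletCharacter ℂ r₂) :
    Integrable (fun v : ℝ => (g0 (v / Real.sqrt X) : ℂ) * (ax δ T χ v * ax δ X ψ (N - v))) := by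
  obtain ⟨_, g2, _, g4⟩ := g0_facts
  have hX0 : 0 < X := by linarith
  have hs8 : 8 ≤ Real.sqrt X := by
    rw [show (8 : ℝ) = Real.sqrt 64 by
      rw [show (64 : ℝ) = 8 ^ 2 by norm_num, Real.sqrt_sq (by norm_num)]]
    exact Real.sqrt_le_sqrt hX
  have hs0 : 0 < Real.sqrt X := by linarith
  have hss : Real.sqrt X * Real.sqrt X = X := Real.mul_self_sqrt hX0.le
  obtain ⟨K, hK⟩ : ∃ K : Set ℝ, K = Set.Icc (3 / 2 * Real.sqrt X) (39 / 10 * Real.sqrt X) := ⟨_, rfl⟩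
  have hsupp : Function.support (fun v : ℝ => (g0 (v / Real.sqrt X) : ℂ) * (ax δ T χ v * ax δ X ψ (N - v))) ⊆ K := by
    intro v hv
    rw [Function.mem_support] at hv
    by_contra hvK
    apply hv
    have : g0 (v / Real.sqrt X) = 0 := by
      apply g2
      intro hmem
      apply hvK
      rw [hK]
      constructor
      · have := hmem.1
        rwa [le_div_iff₀ hs0] at this
      · have := hmem.2
        rwa [div_le_iff₀ hs0] at this
    rw [this]
    simp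
  rw [← integrableOn_iff_integrable_of_support_subset hsupp]
  rw [hK] at *
  apply ContinuousOn.integrableOn_compact isCompact_Icc
  apply ContinuousOn.mul
  · apply Continuous.continuousOn
    exact Complex.continuous_ofReal.comp (g4.continuous.comp (continuous_id.div_const _))
  · apply ContinuousOn.mul
    · refine (MTa_ax_cont δ T χ).mono ?_
      intro v hv
      have := hv.1
      show 0 < v
      nlinarith
    · have h1 := MTa_ax_cont δ X ψ
      refine h1.comp (f := fun v : ℝ => (N : ℝ) - v) ?_ ?_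
      · exact (continuous_const.sub continuous_id).continuousOn
      · intro v hv
        have := hv.2
        show 0 < (N : ℝ) - v
        nlinarith

/-- Proof. `gx δ T X χ (v / √X) = g0 (v / √X) ax δ T χ v` (`√X (v / √X) = v`), the definition of `JM`, `Finset.sum_sigma`, and the integral of a finite sum (all integrands are bounded with compact support; for `N ≥ 4 √X` the powers of `N - v` are continuous on the support). -/
theorem MT_eq (δ ε₁ X : ℝ) (hδ : 0 < δ) (hδ1 : δ ≤ 1 / 16) (hX : 64 ≤ X) (N : ℕ) (hN : X ≤ N) :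
    MT δ ε₁ X N = ∫ v : ℝ, (g0 (v / Real.sqrt X) : ℂ) * Sv δ (X ^ (2 * ε₁)) X ⌊X ^ ε₁⌋₊ N v := by
  have _ := hδ
  have _ := hδ1
  have hX0 : 0 < X := by linarith
  have hs0 : Real.sqrt X ≠ 0 := (Real.sqrt_pos.mpr hX0).ne'
  obtain ⟨T, hT⟩ : ∃ T, T = X ^ (2 * ε₁) := ⟨_, rfl⟩
  obtain ⟨Q, hQ⟩ : ∃ Q, Q = ⌊X ^ ε₁⌋₊ := ⟨_, rfl⟩
  have hgx : ∀ {r : ℕ} (χ : DirichletCharacter ℂ r) (v : ℝ),
      gx δ T X χ (v / Real.sqrt X) = (g0 (v / Real.sqrt X) : ℂ) * ax δ T χ v := by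
    intro r χ v
    unfold gx ax
    rw [mul_div_cancel₀ v hs0]
  have hJM : ∀ {r r₂ : ℕ} (χ : DirichletCharacter ℂ r) (ψ : DirichletCharacter ℂ r₂),
      JM δ X ψ (gx δ T X χ) N =
        ∫ v : ℝ, (g0 (v / Real.sqrt X) : ℂ) * (ax δ T χ v * ax δ X ψ (N - v)) := by
    intro r r₂ χ ψ
    unfold JM
    apply integral_congr_ae
    refine Filter.Eventually.of_forall fun v => ?_
    show gx δ T X χ (v / Real.sqrt X) * _ = _
    rw [hgx]
    unfold ax
    ring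
  unfold MT Sv
  rw [← hT, ← hQ]
  have e1 : (fun v : ℝ => (g0 (v / Real.sqrt X) : ℂ) *
      ∑ x ∈ PCh Q, ∑ y ∈ PCh (Q ^ 2), AC Q x.2 y.2 N * ax δ T x.2 v * ax δ X y.2 (N - v)) =
      fun v => ∑ x ∈ PCh Q, ∑ y ∈ PCh (Q ^ 2), AC Q x.2 y.2 N *
        ((g0 (v / Real.sqrt X) : ℂ) * (ax δ T x.2 v * ax δ X y.2 (N - v))) := by
    funext v
    rw [Finset.mul_sum]
    refine Finset.sum_congr rfl fun x _ => ?_
    rw [Finset.mul_sum]
    refine Finset.sum_congr rfl fun y _ => ?_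
    ring
  rw [e1, integral_finsetSum]
  · unfold PCh
    rw [Finset.sum_sigma]
    refine Finset.sum_congr rfl fun r _ => Finset.sum_congr rfl fun χ _ => ?_
    rw [integral_finsetSum]
    · rw [Finset.sum_sigma]
      refine Finset.sum_congr rfl fun r₂ _ => Finset.sum_congr rfl fun ψ _ => ?_
      rw [integral_const_mul, hJM]
    · intro y _
      exact (MTa_int δ T X hX N hN χ y.2).const_mul _
  · intro x _
    apply integrable_finsetSum
    intro y _
    exact (MTa_int δ T X hX N hN x.2 y.2).const_mul _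

theorem MTa_sum_ite {ι : Type} [DecidableEq ι] (P : Finset ι) (p e : ι) (hp : p ∈ P) (ae : ℂ)
    (he : e ∉ P → ae = 0) (F : ι → ℂ) :
    ∑ x ∈ P, ((if x = p then (1 : ℂ) else 0) + (if x = e then ae else 0)) * F x = F p + ae * F e := by
  simp only [add_mul, Finset.sum_add_distrib, ite_mul, zero_mul, one_mul, Finset.sum_ite_eq', if_pos hp]
  by_cases h : e ∈ P
  · rw [if_pos h]
  · rw [if_neg h, he h, zero_mul]

theorem MTa_norm_ite {ι : Type} [DecidableEq ι] (P : Finset ι) (p e : ι) (ae : ℂ) (hae : ‖ae‖ ≤ 1) :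
    ∑ x ∈ P, ‖(if x = p then (1 : ℂ) else 0) + (if x = e then ae else 0)‖ ≤ 2 := by
  calc ∑ x ∈ P, ‖(if x = p then (1 : ℂ) else 0) + (if x = e then ae else 0)‖
      ≤ ∑ x ∈ P, ((if x = p then (1 : ℝ) else 0) + (if x = e then ‖ae‖ else 0)) := by
        refine Finset.sum_le_sum fun x _ => (norm_add_le _ _).trans ?_
        apply add_le_add
        · split_ifs <;> simp
        · split_ifs <;> simp
    _ ≤ 1 + 1 := by
        rw [Finset.sum_add_distrib, Finset.sum_ite_eq', Finset.sum_ite_eq']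
        apply add_le_add
        · split_ifs <;> norm_num
        · split_ifs
          · exact hae
          · norm_num
    _ = 2 := by norm_num

open Classical in
/-- **An abstract estimate** for the double sum: `p` is the principal index, `e` the exceptional one.

Proof. Expand the product `a x b y = (P x + E x + α x) (P' y + E' y + α' y)`, where `P x = [x = p]`, `E x = [x = e] a_e`. The terms without `α, α'` give the four main terms (`p ≠ e`; `p ∈ P₁, P₂`; if `e ∉ P₁` then `a_e = 0`). The other terms are at most `D (2 W + 2 W + W ^ 2)`. -/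
theorem abs_exc {ι : Type} (P₁ P₂ : Finset ι) (p e : ι) (hpe : p ≠ e) (hp₁ : p ∈ P₁) (hp₂ : p ∈ P₂) (M : ι → ι → ℂ) (D : ℝ) (hD : 0 ≤ D)
    (hM : ∀ x ∈ P₁, ∀ y ∈ P₂, ‖M x y‖ ≤ D) (a b α α' : ι → ℂ) (ae be : ℂ) (hae : ‖ae‖ ≤ 1) (hbe : ‖be‖ ≤ 1) (he₁ : e ∉ P₁ → ae = 0) (he₂ : e ∉ P₂ → be = 0)
    (ha : ∀ x ∈ P₁, a x = (if x = p then 1 else 0) + (if x = e then ae else 0) + α x)
    (hb : ∀ y ∈ P₂, b y = (if y = p then 1 else 0) + (if y = e then be else 0) + α' y) (W : ℝ)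
    (hα : ∑ x ∈ P₁, ‖α x‖ ≤ W) (hα' : ∑ y ∈ P₂, ‖α' y‖ ≤ W) :
    ‖∑ x ∈ P₁, ∑ y ∈ P₂, M x y * a x * b y - (M p p + M e p * ae + M p e * be + M e e * ae * be)‖ ≤ D * (4 * W + W ^ 2) := by
  have _ := hpe
  have hW : 0 ≤ W := (Finset.sum_nonneg fun _ _ => norm_nonneg _).trans hα
  obtain ⟨u, hu⟩ : ∃ u : ι → ℂ, u = fun x => (if x = p then (1 : ℂ) else 0) + (if x = e then ae else 0) := ⟨_, rfl⟩
  obtain ⟨v, hv⟩ : ∃ v : ι → ℂ, v = fun y => (if y = p then (1 : ℂ) else 0) + (if y = e then be else 0) := ⟨_, rfl⟩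
  have hmain : ∑ x ∈ P₁, ∑ y ∈ P₂, M x y * u x * v y = M p p + M e p * ae + M p e * be + M e e * ae * be := by
    have e1 : ∀ x, ∑ y ∈ P₂, M x y * u x * v y = u x * (M x p + be * M x e) := by
      intro x
      have h1 := MTa_sum_ite P₂ p e hp₂ be he₂ (fun y => M x y)
      rw [← h1, Finset.mul_sum]
      refine Finset.sum_congr rfl fun y _ => ?_
      rw [hv]
      ring
    simp only [e1]
    rw [hu]
    rw [MTa_sum_ite P₁ p e hp₁ ae he₁ (fun x => M x p + be * M x e)]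
    ring
  have hsum : ∀ (f g : ι → ℂ) (A B : ℝ), 0 ≤ A → (∑ x ∈ P₁, ‖f x‖ ≤ A) → (∑ y ∈ P₂, ‖g y‖ ≤ B) →
      ‖∑ x ∈ P₁, ∑ y ∈ P₂, M x y * f x * g y‖ ≤ D * (A * B) := by
    intro f g A B hA hf hg
    calc ‖∑ x ∈ P₁, ∑ y ∈ P₂, M x y * f x * g y‖
        ≤ ∑ x ∈ P₁, ∑ y ∈ P₂, D * (‖f x‖ * ‖g y‖) := by
          refine (norm_sum_le _ _).trans (Finset.sum_le_sum fun x hx => ?_)
          refine (norm_sum_le _ _).trans (Finset.sum_le_sum fun y hy => ?_)
          rw [norm_mul, norm_mul, mul_assoc]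
          exact mul_le_mul_of_nonneg_right (hM x hx y hy) (by positivity)
      _ = D * ((∑ x ∈ P₁, ‖f x‖) * ∑ y ∈ P₂, ‖g y‖) := by
          rw [Finset.sum_mul_sum, Finset.mul_sum]
          refine Finset.sum_congr rfl fun x _ => ?_
          rw [Finset.mul_sum]
      _ ≤ D * (A * B) := by
          apply mul_le_mul_of_nonneg_left _ hD
          exact mul_le_mul hf hg (Finset.sum_nonneg fun _ _ => norm_nonneg _) hA
  have hexp : ∑ x ∈ P₁, ∑ y ∈ P₂, M x y * a x * b y = ∑ x ∈ P₁, ∑ y ∈ P₂, M x y * u x * v y +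
      ∑ x ∈ P₁, ∑ y ∈ P₂, M x y * u x * α' y + ∑ x ∈ P₁, ∑ y ∈ P₂, M x y * α x * v y +
      ∑ x ∈ P₁, ∑ y ∈ P₂, M x y * α x * α' y := by
    simp only [← Finset.sum_add_distrib]
    refine Finset.sum_congr rfl fun x hx => Finset.sum_congr rfl fun y hy => ?_
    rw [ha x hx, hb y hy, hu, hv]
    ring
  have hu2 : ∑ x ∈ P₁, ‖u x‖ ≤ 2 := by
    rw [hu]
    exact MTa_norm_ite P₁ p e ae hae
  have hv2 : ∑ y ∈ P₂, ‖v y‖ ≤ 2 := by
    rw [hv]
    exact MTa_norm_ite P₂ p e be hbe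
  have b1 := hsum u α' 2 W (by norm_num) hu2 hα'
  have b2 := hsum α v W 2 hW hα hv2
  have b3 := hsum α α' W W hW hα hα'
  rw [hexp, hmain]
  have e2 : ∀ m x1 x2 x3 : ℂ, m + x1 + x2 + x3 - m = x1 + x2 + x3 := fun m x1 x2 x3 => by ring
  rw [e2]
  refine (norm_add₃_le).trans ?_
  nlinarith

/-- The conclusion of the zero package (`zero_package` of `ZP.lean`). -/
def Pack (η ε κ K X : ℝ) : Prop :=
  Wr ε κ X ≤ η ∨ ∃ (r : ℕ) (χ : DirichletCharacter ℂ r) (β : ℝ), 1 < r ∧ (r : ℝ) ≤ X ^ ε ∧ χ.IsPrimitive ∧ χ ≠ 1 ∧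
      χ ^ 2 = 1 ∧ 1 - κ ≤ β ∧ β < 1 ∧ EF χ (β : ℂ) = 0 ∧ mz (EF χ) (β : ℂ) = 1 ∧
      (1 - β) * Real.log X ≤ K ∧
      Wr ε κ X - X ^ (-((1 - β) / 4)) ≤ η * min 1 ((1 - β) * Real.log X)

/-- The weights under the package.

Proof. `Wr_mono`, and `X ^ (-(1 - β)/4) ≤ 1`. -/
theorem Pack_Wr (η ε κ K X : ℝ) (hη : η ≤ 1) (hη0 : 0 ≤ η) (hX : 1 ≤ X) (h : Pack η ε κ K X) (ε₁ δ : ℝ) (hε : 2 * ε₁ ≤ ε) (hδ : δ ≤ κ) : Wr (2 * ε₁) δ X ≤ 2 := by
  have h1 := Wr_mono (2 * ε₁) ε δ κ X hX hε hδ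
  rcases h with h | ⟨r, χ, β, _, _, _, _, _, _, hβ, _, _, _, h⟩
  · linarith
  · have h2 : X ^ (-((1 - β) / 4)) ≤ 1 := Real.rpow_le_one_of_one_le_of_nonpos hX (by linarith)
    have h3 : η * min 1 ((1 - β) * Real.log X) ≤ 1 * 1 := by
      have h4 : min 1 ((1 - β) * Real.log X) ≤ 1 := min_le_left _ _
      have h5 : 0 ≤ min 1 ((1 - β) * Real.log X) :=
        le_min zero_le_one (mul_nonneg (by linarith) (Real.log_nonneg hX))
      exact mul_le_mul hη h4 h5 zero_le_one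
    linarith

end Pool.Agent.PSG
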