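import Pool.Agent.W_b58c63_h44.IW

/-!
# Poisson summation for smooth weights
-/

set_option autoImplicit false

noncomputable section

open Finset Complex MeasureTheory

namespace Pool.Agent.PSG

open Pool.Agent.Wb58c63 (ee)

theorem PS_bd (f : ℝ → ℂ) (C : ℝ) (hz : ∀ x, x ∉ Set.Icc (1 / 4 : ℝ) 16 → f x = 0)
    (hb : ∀ x, ‖f x‖ ≤ C) : ‖∫ x : ℝ, f x‖ ≤ 16 * C := by
  have hC : 0 ≤ C := (norm_nonneg _).trans (hb 0)
  rw [← setIntegral_eq_integral_of_forall_compl_eq_zero hz]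
  refine (norm_setIntegral_le_of_norm_le_const measure_Icc_lt_top (fun x _ => hb x)).trans ?_
  rw [Measure.real, Real.volume_Icc, ENNReal.toReal_ofReal (by norm_num)]
  nlinarith

theorem PS_int (f : ℝ → ℂ) (hc : Continuous f) (hz : ∀ x, x ∉ Set.Icc (1 / 4 : ℝ) 16 → f x = 0) :
    Integrable f :=
  hc.integrable_of_hasCompactSupport (HasCompactSupport.intro isCompact_Icc hz)

theorem PS_fourier (f : ℝ → ℂ) (ξ : ℝ) :
    FourierTransform.fourier f (-ξ) = ∫ x : ℝ, f x * ee (x * ξ) := by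
  rw [Real.fourier_real_eq_integral_exp_smul]
  refine integral_congr_ae (Filter.Eventually.of_forall fun x => ?_)
  show Complex.exp (((-2 * Real.pi * x * (-ξ) : ℝ) : ℂ) * Complex.I) • f x = f x * ee (x * ξ)
  rw [smul_eq_mul, mul_comm]
  congr 1
  unfold ee
  congr 1
  push_cast
  ring

/-- Decay of the Fourier transform.

Proof. `J` integrations by parts: the integral is `(-1) ^ J (2 π i ξ) ^ (-J) ∫ w^(J) x ee (x ξ) dx`, at most `16 A B ^ J / (2 π |ξ|) ^ J`. Also `‖∫ w‖ ≤ 16 A`. -/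
theorem four_w (J : ℕ) (A B : ℝ) (w : ℝ → ℂ) (hw : IsW J A B w) (ξ : ℝ) :
    ‖∫ x : ℝ, w x * ee (x * ξ)‖ ≤ 16 * A ∧ (ξ ≠ 0 → ‖∫ x : ℝ, w x * ee (x * ξ)‖ ≤ 16 * A * (B / |ξ|) ^ J) := by
  have hwn : ∀ x, ‖w x‖ ≤ A := by
    intro x
    have h := hw.2.2 0 (Nat.zero_le _) x
    rwa [iteratedDeriv_zero, pow_zero, mul_one] at h
  constructor
  · refine PS_bd _ A (fun x hx => by rw [hw.2.1 x hx, zero_mul]) (fun x => ?_)
    rw [norm_mul, Pool.Agent.Wb58c63.norm_ee, mul_one]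
    exact hwn x
  · intro hξ
    have hX : 0 < |ξ| := abs_pos.2 hξ
    have h1 := Real.fourier_iteratedDeriv (f := w) (N := ⊤) (n := J) hw.1
      (fun n _ => PS_int _ (hw.1.continuous_iteratedDeriv n (by exact_mod_cast le_top))
        (fun x hx => IW_zero hw.2.1 n hx)) le_top
    have h2 := congrFun h1 (-ξ)
    rw [PS_fourier, PS_fourier] at h2
    have h3 : ‖∫ x : ℝ, iteratedDeriv J w x * ee (x * ξ)‖ ≤ 16 * (A * B ^ J) := by
      refine PS_bd _ _ (fun x hx => by rw [IW_zero hw.2.1 J hx, zero_mul]) (fun x => ?_)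
      rw [norm_mul, Pool.Agent.Wb58c63.norm_ee, mul_one]
      exact hw.2.2 J le_rfl x
    rw [h2, norm_smul, norm_pow] at h3
    have h4 : ‖(2 * Real.pi * Complex.I * ((-ξ : ℝ) : ℂ) : ℂ)‖ = 2 * Real.pi * |ξ| := by
      rw [norm_mul, norm_mul, norm_mul, Complex.norm_I, Complex.norm_real, Complex.norm_real,
        Real.norm_eq_abs, Real.norm_eq_abs, abs_neg, abs_of_pos Real.pi_pos]
      simp
    rw [h4] at h3
    have h5 : |ξ| ^ J ≤ (2 * Real.pi * |ξ|) ^ J := by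
      refine pow_le_pow_left₀ hX.le ?_ J
      have := Real.pi_gt_three
      nlinarith
    have h6 : |ξ| ^ J * ‖∫ x : ℝ, w x * ee (x * ξ)‖ ≤ 16 * (A * B ^ J) :=
      (mul_le_mul_of_nonneg_right h5 (norm_nonneg _)).trans h3
    rw [div_pow, mul_div_assoc', le_div_iff₀ (by positivity)]
    calc ‖∫ x : ℝ, w x * ee (x * ξ)‖ * |ξ| ^ J = |ξ| ^ J * ‖∫ x : ℝ, w x * ee (x * ξ)‖ := by ring
      _ ≤ 16 * (A * B ^ J) := h6
      _ = 16 * A * B ^ J := by ring

theorem PS_decay (A B : ℝ) (w : ℝ → ℂ) (hw : IsW 2 A B w) (Y : ℝ) (hY : 0 < Y) (α : ℝ) :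
    (fun ξ : ℝ => ∫ x : ℝ, w x * ee (x * (Y * (ξ + α)))) =O[Filter.cocompact ℝ]
      (fun ξ : ℝ => |ξ| ^ (-2 : ℝ)) := by
  refine Asymptotics.IsBigO.of_bound (16 * A * (2 * B / Y) ^ 2) ?_
  have h1 : ∀ᶠ ξ : ℝ in Filter.cocompact ℝ, 2 * |α| + 1 ≤ ‖ξ‖ :=
    (tendsto_norm_cocompact_atTop (E := ℝ)).eventually_ge_atTop _
  filter_upwards [h1] with ξ hξ
  rw [Real.norm_eq_abs] at hξ
  have hα := abs_nonneg α
  have hξ0 : 0 < |ξ| := by linarith
  have h2 : |ξ| / 2 ≤ |ξ + α| := by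
    have h3 : |ξ| ≤ |ξ + α| + |α| := by
      have h4 := abs_sub (ξ + α) α
      rwa [add_sub_cancel_right] at h4
    linarith
  have h3 : 0 < |ξ + α| := by linarith
  have h4 : Y * (ξ + α) ≠ 0 := mul_ne_zero hY.ne' (abs_pos.1 h3)
  have hA := IW_A_nonneg hw
  refine ((four_w 2 A B w hw _).2 h4).trans ?_
  rw [Real.norm_of_nonneg (by positivity), Real.rpow_neg hξ0.le, abs_mul, abs_of_pos hY,
    mul_assoc (16 * A)]
  refine mul_le_mul_of_nonneg_left ?_ (by positivity)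
  have e1 : |ξ| ^ (2 : ℝ) = |ξ| ^ 2 := by
    rw [← Real.rpow_natCast]
    norm_num
  rw [e1, div_pow, div_pow, ← div_eq_mul_inv, div_div]
  have h5 : (Y ^ 2 * |ξ| ^ 2) ≤ 4 * (Y * |ξ + α|) ^ 2 := by
    have h6 : (|ξ| / 2) ^ 2 ≤ |ξ + α| ^ 2 := pow_le_pow_left₀ (by positivity) h2 2
    have h7 : 0 < Y ^ 2 := by positivity
    nlinarith
  rw [div_le_div_iff₀ (by positivity) (by positivity), mul_pow]
  nlinarith [sq_nonneg B]

theorem PS_term (w : ℝ → ℂ) (Y : ℝ) (hY : 0 < Y) (α ξ : ℝ) :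
    FourierTransform.fourier (fun x : ℝ => w (x / Y) * ee (x * α)) ξ =
      (Y : ℂ) * ∫ x : ℝ, w x * ee (x * (Y * (-ξ + α))) := by
  have h1 := PS_fourier (fun x : ℝ => w (x / Y) * ee (x * α)) (-ξ)
  rw [neg_neg] at h1
  rw [h1]
  have h2 := Measure.integral_comp_div (fun x : ℝ => w x * ee (x * (Y * (-ξ + α)))) Y
  rw [abs_of_pos hY, Complex.real_smul] at h2
  rw [← h2]
  refine integral_congr_ae (Filter.Eventually.of_forall fun x => ?_)
  show w (x / Y) * ee (x * α) * ee (x * -ξ) = w (x / Y) * ee (x / Y * (Y * (-ξ + α)))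
  rw [mul_assoc, ← Pool.Agent.Wb58c63.ee_add]
  congr 2
  field_simp
  ring

theorem PS_supp (w : ℝ → ℂ) (hw : ∀ x, x ∉ Set.Icc (1 / 4 : ℝ) 16 → w x = 0) (Y : ℝ) (hY : 0 < Y)
    (x : ℝ) (hx : w (x / Y) ≠ 0) : 0 < x ∧ x ≤ 16 * Y := by
  have h1 : x / Y ∈ Set.Icc (1 / 4 : ℝ) 16 := by
    by_contra h
    exact hx (hw _ h)
  have h2 := h1.1
  have h3 := h1.2
  rw [le_div_iff₀ hY] at h2
  rw [div_le_iff₀ hY] at h3
  exact ⟨by linarith, h3⟩

/-- **Poisson summation.**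

Proof. `Real.tsum_eq_tsum_fourierIntegral` (or its version for Schwartz functions / functions with decay) for `f x = w (x / Y) ee (x α)`: `f` is smooth with compact support in `[Y / 4, 16 Y]`, so `∑_{n ∈ ℤ} f n = ∑_{1 ≤ n ≤ 16 Y} f n`; and the Fourier transform at `h` is
`∫ w (x / Y) ee (x (α - h)) dx = Y ∫ w x ee (x (Y (α - h))) dx`. Replace `h` by `-h`. -/
theorem pois (A B : ℝ) (w : ℝ → ℂ) (hw : IsW 2 A B w) (Y : ℝ) (hY : 0 < Y) (α : ℝ) :
    Summable (fun h : ℤ => ∫ x : ℝ, w x * ee (x * (Y * (h + α)))) ∧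
    ∑ n ∈ Icc 1 ⌊16 * Y⌋₊, w (n / Y) * ee (n * α) = (Y : ℂ) * ∑' h : ℤ, ∫ x : ℝ, w x * ee (x * (Y * (h + α))) := by
  have hs : Summable (fun h : ℤ => ∫ x : ℝ, w x * ee (x * (Y * (h + α)))) :=
    summable_of_isBigO (Real.summable_abs_int_rpow one_lt_two)
      ((PS_decay A B w hw Y hY α).comp_tendsto Int.tendsto_coe_cofinite)
  refine ⟨hs, ?_⟩
  have hc : Continuous (fun x : ℝ => w (x / Y) * ee (x * α)) := by
    have h1 : Continuous w := hw.1.continuous
    have h2 : Continuous ee := by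
      unfold ee
      fun_prop
    fun_prop
  have hO : (fun x : ℝ => w (x / Y) * ee (x * α)) =O[Filter.cocompact ℝ]
      fun x : ℝ => |x| ^ (-2 : ℝ) := by
    refine Asymptotics.IsBigO.of_bound 0 ?_
    have h1 : ∀ᶠ x : ℝ in Filter.cocompact ℝ, 16 * Y + 1 ≤ ‖x‖ :=
      (tendsto_norm_cocompact_atTop (E := ℝ)).eventually_ge_atTop _
    filter_upwards [h1] with x hx
    have h2 : w (x / Y) = 0 := by
      by_contra h3
      obtain ⟨h4, h5⟩ := PS_supp w hw.2.1 Y hY x h3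
      rw [Real.norm_eq_abs, abs_of_pos h4] at hx
      linarith
    rw [h2, zero_mul, zero_mul, norm_zero]
  have hneg : (fun n : ℤ => FourierTransform.fourier (fun x : ℝ => w (x / Y) * ee (x * α)) (n : ℝ)) =
      fun n : ℤ => (Y : ℂ) * (fun h : ℤ => ∫ x : ℝ, w x * ee (x * (Y * (h + α)))) (Equiv.neg ℤ n) := by
    funext n
    rw [PS_term w Y hY]
    show _ = (Y : ℂ) * ∫ x : ℝ, w x * ee (x * (Y * (((-n : ℤ) : ℝ) + α)))
    rw [Int.cast_neg]
  have hsF : Summable (fun n : ℤ =>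
      FourierTransform.fourier (fun x : ℝ => w (x / Y) * ee (x * α)) (n : ℝ)) := by
    rw [hneg]
    exact (((Equiv.neg ℤ).summable_iff).2 hs).mul_left _
  have h1 := Real.tsum_eq_tsum_fourier_of_rpow_decay_of_summable hc one_lt_two hO hsF 0
  have h2 : ∀ n : ℤ, fourier n (((0 : ℝ) : ℝ) : UnitAddCircle) = 1 := by
    intro n
    rw [QuotientAddGroup.mk_zero]
    exact fourier_eval_zero n
  simp only [h2, mul_one, zero_add] at h1
  rw [hneg, tsum_mul_left, (Equiv.neg ℤ).tsum_eq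
    (fun h : ℤ => ∫ x : ℝ, w x * ee (x * (Y * (h + α))))] at h1
  rw [← h1, tsum_eq_sum (s := (Icc 1 ⌊16 * Y⌋₊).map Nat.castEmbedding)]
  · rw [Finset.sum_map]
    refine Finset.sum_congr rfl fun n _ => ?_
    simp only [Nat.castEmbedding_apply, Int.cast_natCast]
  · intro n hn
    by_contra h3
    apply hn
    obtain ⟨h4, h5⟩ := PS_supp w hw.2.1 Y hY n (left_ne_zero_of_mul h3)
    have h6 : 0 < n := by exact_mod_cast h4
    rw [Finset.mem_map]
    refine ⟨n.toNat, Finset.mem_Icc.2 ⟨by omega, ?_⟩, ?_⟩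
    · refine Nat.le_floor ?_
      have h7 : ((n.toNat : ℕ) : ℝ) = (n : ℝ) := by
        have h8 : ((n.toNat : ℕ) : ℤ) = n := Int.toNat_of_nonneg h6.le
        exact_mod_cast h8
      rw [h7]
      exact h5
    · show ((n.toNat : ℕ) : ℤ) = n
      exact Int.toNat_of_nonneg h6.le

theorem PS_S : ∃ S : ℝ, 1 ≤ S ∧ ∀ (g : ℤ → ℂ) (h₀ : ℤ) (D : ℝ),
    (∀ h : ℤ, ‖g h‖ ≤ D * ((if h = h₀ then 1 else 0) + 1 / ((h : ℝ) - h₀) ^ 2)) →
      ‖∑' h, g h‖ ≤ S * D := by
  have h1 : Summable (fun k : ℤ => (if k = 0 then (1 : ℝ) else 0) + 1 / (k : ℝ) ^ 2) := by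
    refine Summable.add ?_ (Real.summable_one_div_int_pow.2 one_lt_two)
    exact summable_of_ne_finset_zero (s := {0}) (fun k hk => by
      rw [Finset.mem_singleton] at hk
      rw [if_neg hk])
  refine ⟨∑' k : ℤ, ((if k = 0 then (1 : ℝ) else 0) + 1 / (k : ℝ) ^ 2), ?_, fun g h₀ D hg => ?_⟩
  · have h2 := h1.hasSum
    have h3 := le_hasSum h2 0 (fun k _ => by positivity)
    simpa using h3
  · have h2 : HasSum (fun h : ℤ => (if h = h₀ then (1 : ℝ) else 0) + 1 / ((h : ℝ) - h₀) ^ 2)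
        (∑' k : ℤ, ((if k = 0 then (1 : ℝ) else 0) + 1 / (k : ℝ) ^ 2)) := by
      have h3 := ((Equiv.subRight h₀).hasSum_iff).2 h1.hasSum
      refine h3.congr_fun ?_
      intro h
      show _ = (if h - h₀ = 0 then (1 : ℝ) else 0) + 1 / ((h - h₀ : ℤ) : ℝ) ^ 2
      simp only [sub_eq_zero, Int.cast_sub]
    have h4 := tsum_of_norm_bounded (h2.mul_left D) hg
    rw [mul_comm]
    exact h4

/-- Exponential sums far from the integers.

Proof. `pois` and `four_w` (`J ≥ 2`): at most `16 A Y ∑_h (B / (Y |h + α|)) ^ J`. All `|h + α| ≥ τ` and, with `h₀` the integer for which `|h₀ + α| ≤ 1/2`, `|h + α| ≥ |h - h₀| / 2`; `τ ≤ 1/2`. So `(τ / |h + α|) ^ J ≤ 1 / (h - h₀) ^ 2` for `h ≠ h₀`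
(as `τ / |h + α| ≤ min 1 (1 / |h - h₀|)`), and the sum is at most `(B / (Y τ)) ^ J (1 + 4)`. -/
theorem far_sum (J : ℕ) (hJ : 2 ≤ J) : ∃ C : ℝ, 1 ≤ C ∧ ∀ (A B : ℝ) (w : ℝ → ℂ), 1 ≤ B → IsW J A B w → ∀ Y : ℝ, 0 < Y →
    ∀ (α τ : ℝ), 0 < τ → (∀ h : ℤ, τ ≤ |α + h|) →
    ‖∑ n ∈ Icc 1 ⌊16 * Y⌋₊, w (n / Y) * ee (n * α)‖ ≤ C * A * Y * (B / (Y * τ)) ^ J := by
  obtain ⟨S, hS, H⟩ := PS_S
  refine ⟨16 * S, by linarith, fun A B w hB hw Y hY α τ hτ hd => ?_⟩
  have hA := IW_A_nonneg hw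
  have hw2 : IsW 2 A B w := isW_mono hw hJ (by linarith) le_rfl le_rfl
  rw [(pois A B w hw2 Y hY α).2, norm_mul, Complex.norm_real, Real.norm_eq_abs, abs_of_pos hY]
  have hround : |α + ((-round α : ℤ) : ℝ)| ≤ 1 / 2 := by
    have h1 := abs_sub_round α
    rwa [Int.cast_neg, ← sub_eq_add_neg]
  have hτ2 : τ ≤ 1 / 2 := (hd (-round α)).trans hround
  have h1 := H (fun h : ℤ => ∫ x : ℝ, w x * ee (x * (Y * (h + α)))) (-round α)
    (16 * A * (B / (Y * τ)) ^ J) (fun h => by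
      have hh := hd h
      rw [add_comm] at hh
      have hpos : 0 < |(h : ℝ) + α| := lt_of_lt_of_le hτ hh
      have hne : Y * ((h : ℝ) + α) ≠ 0 := mul_ne_zero hY.ne' (abs_pos.1 hpos)
      refine ((four_w J A B w hw _).2 hne).trans ?_
      rw [abs_mul, abs_of_pos hY]
      have e1 : (B / (Y * |(h : ℝ) + α|)) ^ J = (B / (Y * τ)) ^ J * (τ / |(h : ℝ) + α|) ^ J := by
        rw [← mul_pow]
        congr 1
        field_simp
      rw [e1, ← mul_assoc]
      refine mul_le_mul_of_nonneg_left ?_ (by positivity)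
      have hx1 : τ / |(h : ℝ) + α| ≤ 1 := (div_le_one hpos).2 hh
      have hx0 : 0 ≤ τ / |(h : ℝ) + α| := by positivity
      by_cases hh0 : h = -round α
      · rw [if_pos hh0]
        have h3 : (τ / |(h : ℝ) + α|) ^ J ≤ 1 := pow_le_one₀ hx0 hx1
        have h4 : 0 ≤ 1 / ((h : ℝ) - ((-round α : ℤ) : ℝ)) ^ 2 := by positivity
        linarith
      · rw [if_neg hh0, zero_add]
        have hk : (1 : ℝ) ≤ |(h : ℝ) - ((-round α : ℤ) : ℝ)| := by
          have h3 : 1 ≤ |h - (-round α)| := Int.one_le_abs (sub_ne_zero.2 hh0)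
          have h4 : ((1 : ℤ) : ℝ) ≤ ((|h - (-round α)| : ℤ) : ℝ) := by exact_mod_cast h3
          rwa [Int.cast_one, Int.cast_abs, Int.cast_sub] at h4
        have hk2 : |(h : ℝ) - ((-round α : ℤ) : ℝ)| / 2 ≤ |(h : ℝ) + α| := by
          have h3 : |(h : ℝ) - ((-round α : ℤ) : ℝ)| ≤
              |(h : ℝ) + α| + |α + ((-round α : ℤ) : ℝ)| := by
            have h4 := abs_sub ((h : ℝ) + α) (α + ((-round α : ℤ) : ℝ))
            have e2 : (h : ℝ) + α - (α + ((-round α : ℤ) : ℝ)) =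
                (h : ℝ) - ((-round α : ℤ) : ℝ) := by ring
            rwa [e2] at h4
          linarith
        have hxy : τ / |(h : ℝ) + α| ≤ 1 / |(h : ℝ) - ((-round α : ℤ) : ℝ)| := by
          rw [div_le_div_iff₀ hpos (by linarith)]
          nlinarith [abs_nonneg ((h : ℝ) - ((-round α : ℤ) : ℝ))]
        have h3 : (τ / |(h : ℝ) + α|) ^ J ≤ (τ / |(h : ℝ) + α|) ^ 2 :=
          pow_le_pow_of_le_one hx0 hx1 hJ
        have h4 : (τ / |(h : ℝ) + α|) ^ 2 ≤ (1 / |(h : ℝ) - ((-round α : ℤ) : ℝ)|) ^ 2 :=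
          pow_le_pow_left₀ hx0 hxy 2
        have e3 : (1 / |(h : ℝ) - ((-round α : ℤ) : ℝ)|) ^ 2 =
            1 / ((h : ℝ) - ((-round α : ℤ) : ℝ)) ^ 2 := by
          rw [div_pow, one_pow, sq_abs]
        rw [← e3]
        exact h3.trans h4)
  calc Y * ‖∑' h : ℤ, ∫ x : ℝ, w x * ee (x * (Y * (h + α)))‖
      ≤ Y * (S * (16 * A * (B / (Y * τ)) ^ J)) := mul_le_mul_of_nonneg_left h1 hY.le
    _ = 16 * S * A * Y * (B / (Y * τ)) ^ J := by ring

/-- The sum and the integral, close to `0`.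

Proof. `pois`: the term `h = 0` is the integral, for the others `|h + β| ≥ |h| / 2`, and `four_w`. -/
theorem near_sum (J : ℕ) (hJ : 2 ≤ J) : ∃ C : ℝ, 1 ≤ C ∧ ∀ (A B : ℝ) (w : ℝ → ℂ), 1 ≤ B → IsW J A B w → ∀ Y : ℝ, 0 < Y →
    ∀ β : ℝ, |β| ≤ 1 / 2 → ‖∑ n ∈ Icc 1 ⌊16 * Y⌋₊, w (n / Y) * ee (n * β) - (Y : ℂ) * ∫ x : ℝ, w x * ee (x * (Y * β))‖ ≤
      C * A * Y * (B / Y) ^ J := by
  obtain ⟨S, hS, H⟩ := PS_S
  refine ⟨16 * 2 ^ J * S, ?_, fun A B w hB hw Y hY β hβ => ?_⟩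
  · have h1 : (1 : ℝ) ≤ 2 ^ J := one_le_pow₀ (by norm_num)
    nlinarith
  have hA := IW_A_nonneg hw
  have hw2 : IsW 2 A B w := isW_mono hw hJ (by linarith) le_rfl le_rfl
  obtain ⟨hsum, heq⟩ := pois A B w hw2 Y hY β
  rw [heq, hsum.tsum_eq_add_tsum_ite 0]
  have e0 : (fun x : ℝ => w x * ee (x * (Y * (((0 : ℤ) : ℝ) + β)))) =
      fun x : ℝ => w x * ee (x * (Y * β)) := by
    funext x
    rw [Int.cast_zero, zero_add]
  rw [e0, mul_add, add_sub_cancel_left, norm_mul, Complex.norm_real, Real.norm_eq_abs,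
    abs_of_pos hY]
  have h1 := H (fun h : ℤ => if h = 0 then (0 : ℂ) else ∫ x : ℝ, w x * ee (x * (Y * (h + β)))) 0
    (16 * A * (2 * B / Y) ^ J) (fun h => by
      by_cases hh0 : h = 0
      · simp only [if_pos hh0]
        rw [norm_zero]
        positivity
      · simp only [if_neg hh0]
        have hk : (1 : ℝ) ≤ |(h : ℝ)| := by
          have h3 : 1 ≤ |h| := Int.one_le_abs hh0
          have h4 : ((1 : ℤ) : ℝ) ≤ ((|h| : ℤ) : ℝ) := by exact_mod_cast h3
          rwa [Int.cast_one, Int.cast_abs] at h4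
        have hk2 : |(h : ℝ)| / 2 ≤ |(h : ℝ) + β| := by
          have h4 := abs_sub ((h : ℝ) + β) β
          rw [add_sub_cancel_right] at h4
          linarith
        have hpos : 0 < |(h : ℝ) + β| := by linarith
        have hne : Y * ((h : ℝ) + β) ≠ 0 := mul_ne_zero hY.ne' (abs_pos.1 hpos)
        refine ((four_w J A B w hw _).2 hne).trans ?_
        rw [abs_mul, abs_of_pos hY, mul_assoc (16 * A), zero_add, Int.cast_zero, sub_zero]
        refine mul_le_mul_of_nonneg_left ?_ (by positivity)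
        have h3 : B / (Y * |(h : ℝ) + β|) ≤ 2 * B / Y * (1 / |(h : ℝ)|) := by
          rw [div_mul_div_comm, mul_one, div_le_div_iff₀ (by positivity) (by positivity)]
          have h5 : Y * |(h : ℝ)| ≤ 2 * (Y * |(h : ℝ) + β|) := by nlinarith
          nlinarith
        have h4 : (B / (Y * |(h : ℝ) + β|)) ^ J ≤ (2 * B / Y * (1 / |(h : ℝ)|)) ^ J :=
          pow_le_pow_left₀ (by positivity) h3 J
        refine h4.trans ?_
        rw [mul_pow]
        refine mul_le_mul_of_nonneg_left ?_ (by positivity)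
        have hx1 : 1 / |(h : ℝ)| ≤ 1 := by
          rw [div_le_one (by linarith)]
          exact hk
        have h5 : (1 / |(h : ℝ)|) ^ J ≤ (1 / |(h : ℝ)|) ^ 2 :=
          pow_le_pow_of_le_one (by positivity) hx1 hJ
        have e3 : (1 / |(h : ℝ)|) ^ 2 = 1 / (h : ℝ) ^ 2 := by
          rw [div_pow, one_pow, sq_abs]
        rw [← e3]
        exact h5)
  calc Y * ‖∑' h : ℤ, (if h = 0 then (0 : ℂ) else ∫ x : ℝ, w x * ee (x * (Y * (h + β))))‖
      ≤ Y * (S * (16 * A * (2 * B / Y) ^ J)) := mul_le_mul_of_nonneg_left h1 hY.le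
    _ = 16 * 2 ^ J * S * A * Y * (B / Y) ^ J := by
      rw [mul_div_assoc, mul_pow]
      ring

theorem PS_nmul (n : ℕ) (x : ℝ) : ee (n * x) = ee x ^ n := by
  unfold ee
  rw [← Complex.exp_nat_mul]
  congr 1
  push_cast
  ring

theorem PS_dvd (N : ℕ) (hN : 1 ≤ N) (k m : ℤ) (h : k = N * m) (x : ℝ) :
    ee ((k : ℝ) / N + x) = ee x := by
  have hN0 : (N : ℝ) ≠ 0 := by
    have : N ≠ 0 := by omega
    exact_mod_cast this
  have h1 : (k : ℝ) / N = (m : ℝ) := by
    rw [h]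
    push_cast
    field_simp
  rw [h1, Pool.Agent.Wb58c63.ee_add, Pool.Agent.Wb58c63.ee_int, one_mul]

theorem PS_orth (N : ℕ) (hN : 1 ≤ N) (k : ℤ) :
    ∑ u ∈ range N, ee (u * ((k : ℝ) / N)) = if (N : ℤ) ∣ k then (N : ℂ) else 0 := by
  have hN0 : (N : ℝ) ≠ 0 := by
    have : N ≠ 0 := by omega
    exact_mod_cast this
  simp only [PS_nmul]
  split_ifs with h
  · obtain ⟨m, hm⟩ := h
    have h1 : ee ((k : ℝ) / N) = 1 := by
      have h2 := PS_dvd N hN k m hm 0
      rwa [add_zero, Pool.Agent.Wb58c63.ee_zero] at h2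
    simp [h1]
  · have h1 : ee ((k : ℝ) / N) ≠ 1 := by
      intro h2
      apply h
      unfold ee at h2
      rw [Complex.exp_eq_one_iff] at h2
      obtain ⟨m, hm⟩ := h2
      refine ⟨m, ?_⟩
      have hpi : (2 * (Real.pi : ℂ) * Complex.I) ≠ 0 := by
        refine mul_ne_zero (mul_ne_zero two_ne_zero ?_) Complex.I_ne_zero
        exact_mod_cast Real.pi_ne_zero
      have h3 : (((k : ℝ) / N : ℝ) : ℂ) = m := by
        have h4 : 2 * (Real.pi : ℂ) * Complex.I * (((k : ℝ) / N : ℝ) : ℂ) =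
            2 * (Real.pi : ℂ) * Complex.I * m := by
          rw [hm]
          ring
        exact mul_left_cancel₀ hpi h4
      have h5 : (k : ℝ) / N = m := by exact_mod_cast h3
      rw [div_eq_iff hN0] at h5
      have h6 : (k : ℝ) = ((N * m : ℤ) : ℝ) := by
        rw [h5]
        push_cast
        ring
      exact_mod_cast h6
    rw [geom_sum_eq h1]
    have h2 : ee ((k : ℝ) / N) ^ N = 1 := by
      rw [← PS_nmul]
      have h3 : (N : ℝ) * ((k : ℝ) / N) = (k : ℝ) := by field_simp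
      rw [h3, Pool.Agent.Wb58c63.ee_int]
    rw [h2, sub_self, zero_div]

/-- The finite Fourier expansion of a periodic function.

Proof. Orthogonality of the additive characters modulo `M`. The bound is trivial. -/
theorem per_four (M : ℕ) (hM : 1 ≤ M) (P : ℕ → ℂ) (hP : ∀ n, P (n + M) = P n) (P₀ : ℝ) (hP₀ : ∀ n, ‖P n‖ ≤ P₀) :
    (∀ n, P n = ∑ j ∈ range M, mean M (fun u => P u * ee (-(u * (j / M)))) * ee (n * ((j : ℝ) / M))) ∧
    ∀ α : ℝ, ‖mean M (fun u => P u * ee (-(u * α)))‖ ≤ P₀ := by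
  have hM0 : (M : ℝ) ≠ 0 := by
    have : M ≠ 0 := by omega
    exact_mod_cast this
  have hMc : (M : ℂ) ≠ 0 := by exact_mod_cast hM0
  refine ⟨fun n => ?_, fun α => ?_⟩
  · have hper : Function.Periodic P M := hP
    have hlt : n % M < M := Nat.mod_lt _ (by omega)
    have h1 : ∀ j ∈ range M, mean M (fun u => P u * ee (-(u * (j / M)))) * ee (n * ((j : ℝ) / M)) =
        ∑ u ∈ range M, P u / M * ee (j * ((((n : ℤ) - u : ℤ) : ℝ) / M)) := by
      intro j _
      unfold mean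
      rw [Finset.sum_div, Finset.sum_mul]
      refine Finset.sum_congr rfl fun u _ => ?_
      have e1 : ee (j * ((((n : ℤ) - u : ℤ) : ℝ) / M)) =
          ee (-(u * (j / M))) * ee (n * ((j : ℝ) / M)) := by
        rw [← Pool.Agent.Wb58c63.ee_add]
        congr 1
        push_cast
        ring
      rw [e1]
      ring
    rw [Finset.sum_congr rfl h1, Finset.sum_comm]
    have h2 : ∀ u ∈ range M, ∑ j ∈ range M, P u / M * ee (j * ((((n : ℤ) - u : ℤ) : ℝ) / M)) =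
        if u = n % M then P n else 0 := by
      intro u hu
      rw [← Finset.mul_sum, PS_orth M hM]
      by_cases h : u = n % M
      · have h3 : (M : ℤ) ∣ (n : ℤ) - u := by
          refine Int.ModEq.dvd ?_
          rw [h]
          exact_mod_cast Nat.mod_modEq n M
        rw [if_pos h3, if_pos h, h, hper.map_mod_nat n]
        field_simp
      · have h3 : ¬ (M : ℤ) ∣ (n : ℤ) - u := by
          intro h4
          apply h
          have h5 : (u : ℤ) ≡ n [ZMOD M] := Int.modEq_iff_dvd.2 h4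
          have h6 : u ≡ n [MOD M] := by exact_mod_cast h5
          have h7 := h6
          unfold Nat.ModEq at h7
          rw [Nat.mod_eq_of_lt (Finset.mem_range.1 hu)] at h7
          exact h7
        rw [if_neg h3, if_neg h, mul_zero]
    rw [Finset.sum_congr rfl h2, Finset.sum_ite_eq', if_pos (Finset.mem_range.2 hlt)]
  · have hMp : (0 : ℝ) < M := by
      have : 0 < M := by omega
      exact_mod_cast this
    unfold mean
    rw [norm_div, Complex.norm_natCast, div_le_iff₀ hMp]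
    refine (norm_sum_le _ _).trans ?_
    refine (Finset.sum_le_sum (g := fun _ => P₀) fun u _ => ?_).trans ?_
    · rw [norm_mul, Pool.Agent.Wb58c63.norm_ee, mul_one]
      exact hP₀ u
    · rw [Finset.sum_const, Finset.card_range, nsmul_eq_mul, mul_comm]

/-- **Sums of periodic functions with smooth weights.**

Proof. `per_four`, `far_sum` for `j ≠ 0` (`α = j / M` has distance `≥ 1 / M` from the integers, `M` terms), and `near_sum` with `β = 0` for `j = 0`, where `mean M (P u * ee 0) = mean M P`. -/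
theorem per_sum (J : ℕ) (hJ : 2 ≤ J) : ∃ C : ℝ, 1 ≤ C ∧ ∀ (A B : ℝ) (w : ℝ → ℂ), 1 ≤ B → IsW J A B w → ∀ Y : ℝ, 0 < Y →
    ∀ (M : ℕ), 1 ≤ M → ∀ (P : ℕ → ℂ), (∀ n, P (n + M) = P n) → ∀ P₀ : ℝ, (∀ n, ‖P n‖ ≤ P₀) →
    ‖∑ n ∈ Icc 1 ⌊16 * Y⌋₊, P n * w (n / Y) - mean M P * ((Y : ℂ) * ∫ x : ℝ, w x)‖ ≤ C * A * P₀ * M * Y * (M * B / Y) ^ J := by
  obtain ⟨C₁, hC₁, H₁⟩ := far_sum J hJ
  obtain ⟨C₂, hC₂, H₂⟩ := near_sum J hJ
  refine ⟨C₁ + C₂, by linarith, fun A B w hB hw Y hY M hM P hP P₀ hP₀ => ?_⟩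
  have hA := IW_A_nonneg hw
  have hP0 : 0 ≤ P₀ := (norm_nonneg _).trans (hP₀ 0)
  have hM1 : (1 : ℝ) ≤ M := by exact_mod_cast hM
  obtain ⟨hexp, hcb⟩ := per_four M hM P hP P₀ hP₀
  have h1 : ∑ n ∈ Icc 1 ⌊16 * Y⌋₊, P n * w (n / Y) =
      ∑ j ∈ range M, mean M (fun u => P u * ee (-(u * (j / M)))) *
        ∑ n ∈ Icc 1 ⌊16 * Y⌋₊, w (n / Y) * ee (n * ((j : ℝ) / M)) := by
    simp only [Finset.mul_sum]
    rw [Finset.sum_comm]
    refine Finset.sum_congr rfl fun n _ => ?_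
    conv_lhs => rw [hexp n]
    rw [Finset.sum_mul]
    refine Finset.sum_congr rfl fun j _ => ?_
    ring
  have h2 : mean M P * ((Y : ℂ) * ∫ x : ℝ, w x) =
      ∑ j ∈ range M, mean M (fun u => P u * ee (-(u * (j / M)))) *
        (if j = 0 then (Y : ℂ) * ∫ x : ℝ, w x else 0) := by
    simp only [mul_ite, mul_zero]
    rw [Finset.sum_ite_eq', if_pos (Finset.mem_range.2 (by omega))]
    congr 2
    funext u
    rw [Nat.cast_zero, zero_div, mul_zero, neg_zero, Pool.Agent.Wb58c63.ee_zero, mul_one]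
  rw [h1, h2, ← Finset.sum_sub_distrib]
  refine (norm_sum_le _ _).trans ?_
  have h3 : ∀ j ∈ range M, ‖mean M (fun u => P u * ee (-(u * (j / M)))) *
        ∑ n ∈ Icc 1 ⌊16 * Y⌋₊, w (n / Y) * ee (n * ((j : ℝ) / M)) -
      mean M (fun u => P u * ee (-(u * (j / M)))) *
        (if j = 0 then (Y : ℂ) * ∫ x : ℝ, w x else 0)‖ ≤
      P₀ * ((C₁ + C₂) * A * Y * (M * B / Y) ^ J) := by
    intro j hj
    rw [← mul_sub, norm_mul]
    refine mul_le_mul (hcb _) ?_ (norm_nonneg _) hP0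
    by_cases hj0 : j = 0
    · rw [if_pos hj0, hj0, Nat.cast_zero, zero_div]
      have h4 := H₂ A B w hB hw Y hY 0 (by rw [abs_zero]; norm_num)
      have e1 : (fun x : ℝ => w x * ee (x * (Y * 0))) = w := by
        funext x
        rw [mul_zero, mul_zero, Pool.Agent.Wb58c63.ee_zero, mul_one]
      rw [e1] at h4
      refine h4.trans ?_
      have h5 : (B / Y) ^ J ≤ (M * B / Y) ^ J := by
        refine pow_le_pow_left₀ (by positivity) ?_ J
        gcongr
        nlinarith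
      have h6 : C₂ * A * Y ≤ (C₁ + C₂) * A * Y := by
        gcongr
        linarith
      exact mul_le_mul h6 h5 (by positivity) (by positivity)
    · rw [if_neg hj0, sub_zero]
      have h4 := H₁ A B w hB hw Y hY ((j : ℝ) / M) (1 / M) (by positivity) (fun h => by
        have h5 : (j : ℝ) / M + h = ((j + h * M : ℤ) : ℝ) / M := by
          push_cast
          field_simp
        rw [h5, abs_div, abs_of_pos (by linarith : (0 : ℝ) < M)]
        refine div_le_div_of_nonneg_right ?_ (by linarith)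
        have h6 : ((j : ℤ) + h * M) ≠ 0 := by
          intro h7
          have h8 : (M : ℤ) ∣ j := ⟨-h, by linarith⟩
          have h9 : M ∣ j := by exact_mod_cast h8
          exact hj0 (Nat.eq_zero_of_dvd_of_lt h9 (Finset.mem_range.1 hj))
        have h7 : 1 ≤ |(j : ℤ) + h * M| := Int.one_le_abs h6
        have h8 : ((1 : ℤ) : ℝ) ≤ ((|(j : ℤ) + h * M| : ℤ) : ℝ) := by exact_mod_cast h7
        rwa [Int.cast_one, Int.cast_abs] at h8)
      refine h4.trans ?_
      have e1 : B / (Y * (1 / M)) = M * B / Y := by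
        field_simp
      rw [e1]
      gcongr
      linarith
  refine (Finset.sum_le_sum h3).trans (le_of_eq ?_)
  rw [Finset.sum_const, Finset.card_range, nsmul_eq_mul]
  ring

/-- **Fourier transforms of periodic functions with smooth weights, near a rational.**

Proof. `per_four`: the sum is `∑_{j < M} c_j ∑_n w (n / Y) ee (n (α + j / M))`, `α = a / q + β`, `‖c_j‖ ≤ P₀`. If `a / q + j / M` is not an integer, its distance to the integers is `≥ 1 / (q M)`, so that of `α + j / M` is `≥ 1 / (2 q M)` and `far_sum` applies. If it is an integer for some `j` (at most one `j < M`), the term is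
`c_j ∑_n w (n / Y) ee (n β)`, `c_j = mean M (P u ee (-(u j / M))) = mean M (P u ee (u a / q)) = mean (M q) (...)` (both `M` and `M q` are periods). If there is no such `j`, then `mean (M q) (P u ee (u a / q)) = ∑_j c_j mean (M q) (ee (u (a / q + j / M))) = 0` (orthogonality: `a / q + j / M` is a nonintegral multiple of
`1 / (M q)`). -/
theorem per_near (J : ℕ) (hJ : 2 ≤ J) : ∃ C : ℝ, 1 ≤ C ∧ ∀ (A B : ℝ) (w : ℝ → ℂ), 1 ≤ B → IsW J A B w → ∀ Y : ℝ, 0 < Y →
    ∀ (M q : ℕ), 1 ≤ M → 1 ≤ q → ∀ (a : ℤ) (β : ℝ), |β| ≤ 1 / (2 * q * M) → ∀ (P : ℕ → ℂ), (∀ n, P (n + M) = P n) → ∀ P₀ : ℝ, (∀ n, ‖P n‖ ≤ P₀) →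
    ‖∑ n ∈ Icc 1 ⌊16 * Y⌋₊, P n * w (n / Y) * ee (n * ((a : ℝ) / q + β)) -
      mean (M * q) (fun u => P u * ee (u * ((a : ℝ) / q))) * ∑ n ∈ Icc 1 ⌊16 * Y⌋₊, w (n / Y) * ee (n * β)‖ ≤
      C * A * P₀ * M * Y * (2 * q * M * B / Y) ^ J := by
  obtain ⟨C₁, hC₁, H₁⟩ := far_sum J hJ
  refine ⟨C₁, hC₁, fun A B w hB hw Y hY M q hM hq a β hβ P hP P₀ hP₀ => ?_⟩
  have hA := IW_A_nonneg hw
  have hP0 : 0 ≤ P₀ := (norm_nonneg _).trans (hP₀ 0)
  have hM1 : (1 : ℝ) ≤ M := by exact_mod_cast hM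
  have hq1 : (1 : ℝ) ≤ q := by exact_mod_cast hq
  have hMq : 1 ≤ M * q := Nat.mul_pos hM hq
  have hM0 : (0 : ℝ) < M := by linarith
  have hq0 : (0 : ℝ) < q := by linarith
  obtain ⟨hexp, hcb⟩ := per_four M hM P hP P₀ hP₀
  have hfrac : ∀ j : ℕ, (j : ℝ) / M + (a : ℝ) / q =
      (((j : ℤ) * q + a * M : ℤ) : ℝ) / ((M * q : ℕ) : ℝ) := by
    intro j
    push_cast
    field_simp
  have h1 : ∑ n ∈ Icc 1 ⌊16 * Y⌋₊, P n * w (n / Y) * ee (n * ((a : ℝ) / q + β)) =
      ∑ j ∈ range M, mean M (fun u => P u * ee (-(u * (j / M)))) *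
        ∑ n ∈ Icc 1 ⌊16 * Y⌋₊, w (n / Y) * ee (n * ((j : ℝ) / M + (a : ℝ) / q + β)) := by
    simp only [Finset.mul_sum]
    rw [Finset.sum_comm]
    refine Finset.sum_congr rfl fun n _ => ?_
    conv_lhs => rw [hexp n]
    rw [Finset.sum_mul, Finset.sum_mul]
    refine Finset.sum_congr rfl fun j _ => ?_
    have e1 : ee (n * ((j : ℝ) / M + (a : ℝ) / q + β)) =
        ee (n * ((j : ℝ) / M)) * ee (n * ((a : ℝ) / q + β)) := by
      rw [← Pool.Agent.Wb58c63.ee_add]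
      congr 1
      ring
    rw [e1]
    ring
  have h2 : mean (M * q) (fun u => P u * ee (u * ((a : ℝ) / q))) =
      ∑ j ∈ range M, mean M (fun u => P u * ee (-(u * (j / M)))) *
        (if ((M * q : ℕ) : ℤ) ∣ ((j : ℤ) * q + a * M) then 1 else 0) := by
    have hMqc : ((M * q : ℕ) : ℂ) ≠ 0 := by
      have : M * q ≠ 0 := by omega
      exact_mod_cast this
    have e2 : ∀ u ∈ range (M * q), P u * ee (u * ((a : ℝ) / q)) =
        ∑ j ∈ range M, mean M (fun u => P u * ee (-(u * (j / M)))) *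
          ee (u * ((((j : ℤ) * q + a * M : ℤ) : ℝ) / ((M * q : ℕ) : ℝ))) := by
      intro u _
      conv_lhs => rw [hexp u]
      rw [Finset.sum_mul]
      refine Finset.sum_congr rfl fun j _ => ?_
      rw [mul_assoc, ← Pool.Agent.Wb58c63.ee_add, ← mul_add, hfrac]
    unfold mean
    unfold mean at e2
    rw [Finset.sum_congr rfl e2, Finset.sum_comm, Finset.sum_div]
    refine Finset.sum_congr rfl fun j _ => ?_
    rw [← Finset.mul_sum, PS_orth (M * q) hMq, mul_div_assoc]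
    congr 1
    split_ifs
    · exact div_self hMqc
    · exact zero_div _
  rw [h1, h2, Finset.sum_mul, ← Finset.sum_sub_distrib]
  refine (norm_sum_le _ _).trans ?_
  have h3 : ∀ j ∈ range M, ‖mean M (fun u => P u * ee (-(u * (j / M)))) *
        ∑ n ∈ Icc 1 ⌊16 * Y⌋₊, w (n / Y) * ee (n * ((j : ℝ) / M + (a : ℝ) / q + β)) -
      mean M (fun u => P u * ee (-(u * (j / M)))) *
        (if ((M * q : ℕ) : ℤ) ∣ ((j : ℤ) * q + a * M) then 1 else 0) *
        ∑ n ∈ Icc 1 ⌊16 * Y⌋₊, w (n / Y) * ee (n * β)‖ ≤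
      P₀ * (C₁ * A * Y * (2 * q * M * B / Y) ^ J) := by
    intro j _
    rw [mul_assoc (mean M fun u => P u * ee (-(u * (j / M)))), ← mul_sub, norm_mul]
    refine mul_le_mul (hcb _) ?_ (norm_nonneg _) hP0
    by_cases hd : ((M * q : ℕ) : ℤ) ∣ ((j : ℤ) * q + a * M)
    · rw [if_pos hd, one_mul]
      obtain ⟨m, hm⟩ := hd
      have h4 : ∀ n ∈ Icc 1 ⌊16 * Y⌋₊, w (n / Y) * ee (n * ((j : ℝ) / M + (a : ℝ) / q + β)) =
          w (n / Y) * ee (n * β) := by
        intro n _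
        congr 1
        rw [PS_nmul, PS_nmul, hfrac, PS_dvd (M * q) hMq _ m hm]
      rw [Finset.sum_congr rfl h4, sub_self, norm_zero]
      positivity
    · rw [if_neg hd, zero_mul, sub_zero]
      have h4 := H₁ A B w hB hw Y hY ((j : ℝ) / M + (a : ℝ) / q + β) (1 / (2 * q * M))
        (by positivity) (fun h => by
          have h5 : (j : ℝ) / M + (a : ℝ) / q + h =
              (((j : ℤ) * q + a * M + h * (M * q : ℕ) : ℤ) : ℝ) / ((M * q : ℕ) : ℝ) := by
            push_cast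
            field_simp
          have h6 : ((j : ℤ) * q + a * M + h * (M * q : ℕ)) ≠ 0 := by
            intro h7
            apply hd
            exact ⟨-h, by linarith⟩
          have h7 : 1 ≤ |(j : ℤ) * q + a * M + h * (M * q : ℕ)| := Int.one_le_abs h6
          have h8 : ((1 : ℤ) : ℝ) ≤ ((|(j : ℤ) * q + a * M + h * (M * q : ℕ)| : ℤ) : ℝ) := by
            exact_mod_cast h7
          rw [Int.cast_one, Int.cast_abs] at h8
          have hMqR : (0 : ℝ) < ((M * q : ℕ) : ℝ) := by exact_mod_cast hMq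
          have h9 : 1 / ((M * q : ℕ) : ℝ) ≤ |(j : ℝ) / M + (a : ℝ) / q + h| := by
            rw [h5, abs_div, abs_of_pos hMqR]
            exact div_le_div_of_nonneg_right h8 hMqR.le
          have h10 : 1 / ((M * q : ℕ) : ℝ) = 2 * (1 / (2 * q * M)) := by
            push_cast
            field_simp
          rw [h10] at h9
          have h11 : |(j : ℝ) / M + (a : ℝ) / q + h| ≤
              |(j : ℝ) / M + (a : ℝ) / q + β + h| + |β| := by
            have h12 := abs_sub ((j : ℝ) / M + (a : ℝ) / q + β + h) β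
            have e3 : (j : ℝ) / M + (a : ℝ) / q + β + h - β = (j : ℝ) / M + (a : ℝ) / q + h := by
              ring
            rwa [e3] at h12
          linarith)
      refine h4.trans (le_of_eq ?_)
      congr 2
      field_simp
  refine (Finset.sum_le_sum h3).trans (le_of_eq ?_)
  rw [Finset.sum_const, Finset.card_range, nsmul_eq_mul]
  ring

end Pool.Agent.PSG
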