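import Pool.Agent.W_b58c63_h44.Weyl

/-!
# The Weyl bound with the weight `n ^ (-s)` and with smooth weights
-/

set_option autoImplicit false

noncomputable section

open Finset Complex

namespace Pool.Agent.PSG

theorem WTail_abel (a : ℕ → ℂ) (h Φ : ℝ → ℂ) (Z W : ℝ) (hZ : 0 < Z) (hZW : Z ≤ W)
    (hh : ContinuousOn h (Set.Ioi 0)) (hΦ : ∀ x, 0 < x → DifferentiableAt ℝ Φ x)
    (hΦ' : ContinuousOn (deriv Φ) (Set.Ioi 0)) :
    ∑ n ∈ Ioc ⌊Z⌋₊ ⌊W⌋₊, a n * Φ n - ∫ x in Z..W, h x * Φ x =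
      (∑ n ∈ Ioc ⌊Z⌋₊ ⌊W⌋₊, a n - ∫ x in Z..W, h x) * Φ W -
      ∫ x in Z..W, (∑ n ∈ Ioc ⌊Z⌋₊ ⌊x⌋₊, a n - ∫ u in Z..x, h u) * deriv Φ x := by
  have hpos : ∀ x ∈ Set.Icc Z W, 0 < x := fun x hx => lt_of_lt_of_le hZ hx.1
  have hsub : Set.Icc Z W ⊆ Set.Ioi 0 := fun x hx => hpos x hx
  have huIcc : Set.uIcc Z W = Set.Icc Z W := Set.uIcc_of_le hZW
  let c : ℕ → ℂ := fun k => if ⌊Z⌋₊ < k then a k else 0
  have hc : ∀ m : ℕ, ∑ k ∈ Icc 0 m, c k = ∑ n ∈ Ioc ⌊Z⌋₊ m, a n := by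
    intro m
    show ∑ k ∈ Icc 0 m, (if ⌊Z⌋₊ < k then a k else 0) = _
    rw [← sum_filter]
    congr 1
    ext k
    simp only [mem_filter, mem_Icc, mem_Ioc]
    constructor
    · rintro ⟨⟨_, h2⟩, h3⟩
      exact ⟨h3, h2⟩
    · rintro ⟨h1, h2⟩
      exact ⟨⟨Nat.zero_le _, h2⟩, h1⟩
  have hint : MeasureTheory.IntegrableOn (deriv Φ) (Set.Icc Z W) :=
    (hΦ'.mono hsub).integrableOn_Icc
  have h1 := sum_mul_eq_sub_sub_integral_mul c hZ.le hZW (fun t ht => hΦ t (hpos t ht)) hint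
  have h1' : ∑ n ∈ Ioc ⌊Z⌋₊ ⌊W⌋₊, a n * Φ n = ∑ k ∈ Ioc ⌊Z⌋₊ ⌊W⌋₊, Φ k * c k := by
    refine sum_congr rfl fun k hk => ?_
    have : c k = a k := if_pos (mem_Ioc.1 hk).1
    rw [this, mul_comm]
  rw [h1', h1]
  simp only [hc]
  rw [Ioc_self, sum_empty, mul_zero, sub_zero, ← intervalIntegral.integral_of_le hZW]
  -- integration by parts
  have hHd : ∀ x, 0 < x → HasDerivAt (fun x => ∫ u in Z..x, h u) (h x) x := by
    intro x hx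
    apply intervalIntegral.integral_hasDerivAt_right
    · apply ContinuousOn.intervalIntegrable
      apply hh.mono
      intro y hy
      have h3 := hy.1
      exact lt_of_lt_of_le (lt_min hZ hx) h3
    · exact hh.stronglyMeasurableAtFilter isOpen_Ioi x hx
    · exact hh.continuousAt (Ioi_mem_nhds hx)
  have h2 := intervalIntegral.integral_mul_deriv_eq_deriv_mul (a := Z) (b := W) (u := Φ)
    (v := fun x => ∫ u in Z..x, h u) (u' := deriv Φ) (v' := h)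
    (fun x hx => (hΦ x (hpos x (huIcc ▸ hx))).hasDerivAt)
    (fun x hx => hHd x (hpos x (huIcc ▸ hx)))
    ((hΦ'.mono hsub).intervalIntegrable_of_Icc hZW)
    ((hh.mono hsub).intervalIntegrable_of_Icc hZW)
  rw [intervalIntegral.integral_same, mul_zero, sub_zero] at h2
  have h3 : ∫ x in Z..W, h x * Φ x = ∫ x in Z..W, Φ x * h x :=
    intervalIntegral.integral_congr (fun x _ => mul_comm _ _)
  rw [h3, h2]
  have h4 : ∫ x in Z..W, (∑ n ∈ Ioc ⌊Z⌋₊ ⌊x⌋₊, a n - ∫ u in Z..x, h u) * deriv Φ x =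
      (∫ x in Z..W, deriv Φ x * ∑ n ∈ Ioc ⌊Z⌋₊ ⌊x⌋₊, a n) -
      ∫ x in Z..W, deriv Φ x * ∫ u in Z..x, h u := by
    rw [← intervalIntegral.integral_sub]
    · refine intervalIntegral.integral_congr (fun x _ => ?_)
      show _ = _ - _
      ring
    · have h5 := integrableOn_mul_sum_Icc (m := 0) c hZ.le hint
      simp only [hc] at h5
      exact (intervalIntegrable_iff_integrableOn_Icc_of_le hZW).2 h5
    · apply ContinuousOn.intervalIntegrable_of_Icc hZW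
      apply (hΦ'.mono hsub).mul
      intro x hx
      exact (hHd x (hpos x hx)).continuousAt.continuousWithinAt
  rw [h4]
  ring

theorem WTail_bd (S : ℝ → ℂ) (Z W e M : ℝ) (he : 0 < e) (hM : 0 ≤ M) (hZ : 0 < Z) (hZW : Z ≤ W)
    (hS : ∀ x, Z ≤ x → x ≤ W → ‖S x‖ ≤ M * x ^ (-(e + 1))) :
    ‖∫ x in Z..W, S x‖ ≤ M * Z ^ (-e) / e := by
  have h0 : (0 : ℝ) ∉ Set.uIcc Z W := by
    rw [Set.uIcc_of_le hZW]
    exact fun h => absurd h.1 (not_le.2 hZ)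
  have h1 : ‖∫ x in Z..W, S x‖ ≤ ∫ x in Z..W, M * x ^ (-(e + 1)) := by
    apply intervalIntegral.norm_integral_le_of_norm_le hZW
    · exact Filter.Eventually.of_forall fun x hx => hS x hx.1.le hx.2
    · apply IntervalIntegrable.const_mul
      exact intervalIntegral.intervalIntegrable_rpow (Or.inr h0)
  refine h1.trans ?_
  rw [intervalIntegral.integral_const_mul, integral_rpow (Or.inr ⟨by linarith, h0⟩)]
  have h2 : -(e + 1) + 1 = -e := by ring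
  rw [h2, mul_div_assoc]
  apply mul_le_mul_of_nonneg_left _ hM
  rw [div_neg, ← neg_div]
  apply div_le_div_of_nonneg_right _ he.le
  have h3 : 0 < W ^ (-e) := Real.rpow_pos_of_pos (by linarith) _
  linarith

theorem WTail_cont (r : ℂ) : ContinuousOn (fun x : ℝ => (x : ℂ) ^ r) (Set.Ioi 0) := by
  intro x hx
  exact (Complex.continuousAt_ofReal_cpow_const x r (Or.inr (ne_of_gt hx))).continuousWithinAt

/-- The partial sums over long intervals.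

Proof. Take `c, C` from `weyl θ`. Let `Z ≥ max 1 (X ^ θ)` and `x ≥ Z`. Cut `(Z, x]` in the dyadic intervals
`(2 ^ j Z, min (2 ^ (j + 1) Z) x]`, `2 ^ j Z ≤ x`. The error on each is at most `C q ^ 2 (2 ^ j Z) ^ (1 - c)`, and the geometric sum of
`(2 ^ j Z) ^ (1 - c)` over `2 ^ j Z ≤ x` is at most `x ^ (1 - c) / (1 - 2 ^ (-(1 - c))) ≤ 4 x ^ (1 - c)` as `1 - c ≥ 3 / 4`. (Induction on the number
of dyadic steps.) -/
theorem weyl_long (θ : ℝ) (hθ : 0 < θ) (hθ1 : θ ≤ 1) : ∃ c C : ℝ, 0 < c ∧ c ≤ 1 / 4 ∧ 0 < C ∧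
    ∀ X : ℝ, 1 ≤ X → ∀ t : ℝ, |t| ≤ X → ∀ q : ℕ, 1 ≤ q → ∀ f : ℕ → ℂ, (∀ n, f (n + q) = f n) → (∀ n, ‖f n‖ ≤ 1) →
    ∀ Z x : ℝ, 1 ≤ Z → X ^ θ ≤ Z → Z ≤ x →
    ‖∑ n ∈ Ioc ⌊Z⌋₊ ⌊x⌋₊, f n * (n : ℂ) ^ (-(t * I)) - mean q f * ∫ u in Z..x, (u : ℂ) ^ (-(t * I))‖ ≤
      C * (q : ℝ) ^ 2 * x ^ (1 - c) := by
  obtain ⟨c, C, hc, hc4, hC, hW⟩ := weyl θ hθ hθ1
  refine ⟨c, 4 * C, hc, hc4, by linarith, ?_⟩
  intro X hX t ht q hq f hf hf1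
  have hhalf : ((1 : ℝ) / 2) ^ (1 - c) ≤ 4 / 5 := by
    have h1 : ((1 : ℝ) / 2) ^ (1 - c) ≤ (1 / 2) ^ (1 / 2 : ℝ) :=
      Real.rpow_le_rpow_of_exponent_ge (by norm_num) (by norm_num) (by linarith)
    have h2 : ((1 : ℝ) / 2) ^ (1 / 2 : ℝ) ≤ 4 / 5 := by
      rw [← Real.sqrt_eq_rpow]
      rw [Real.sqrt_le_left (by norm_num)]
      norm_num
    exact h1.trans h2
  have key : ∀ (k : ℕ) (Z x : ℝ), 1 ≤ Z → X ^ θ ≤ Z → Z ≤ x → x ≤ 2 ^ k * Z →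
      ‖∑ n ∈ Ioc ⌊Z⌋₊ ⌊x⌋₊, f n * (n : ℂ) ^ (-(t * I)) -
        mean q f * ∫ u in Z..x, (u : ℂ) ^ (-(t * I))‖ ≤ 4 * C * (q : ℝ) ^ 2 * x ^ (1 - c) := by
    intro k
    induction k with
    | zero =>
      intro Z x hZ hXZ hZx hx
      have hZ0 : 0 < Z := by linarith
      refine (hW X hX t ht q hq f hf hf1 Z x hZ hXZ hZx (by linarith)).trans ?_
      have h1 : Z ^ (1 - c) ≤ x ^ (1 - c) := Real.rpow_le_rpow (by linarith) hZx (by linarith)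
      have h2 : 0 ≤ x ^ (1 - c) := Real.rpow_nonneg (by linarith) _
      have h3 : 0 ≤ C * (q : ℝ) ^ 2 := by positivity
      nlinarith [mul_le_mul_of_nonneg_left h1 h3, mul_nonneg h3 h2]
    | succ k ih =>
      intro Z x hZ hXZ hZx hx
      have hZ0 : 0 < Z := by linarith
      by_cases hx2 : x ≤ 2 * Z
      · refine (hW X hX t ht q hq f hf hf1 Z x hZ hXZ hZx hx2).trans ?_
        have h1 : Z ^ (1 - c) ≤ x ^ (1 - c) := Real.rpow_le_rpow (by linarith) hZx (by linarith)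
        have h2 : 0 ≤ x ^ (1 - c) := Real.rpow_nonneg (by linarith) _
        have h3 : 0 ≤ C * (q : ℝ) ^ 2 := by positivity
        nlinarith [mul_le_mul_of_nonneg_left h1 h3, mul_nonneg h3 h2]
      · push Not at hx2
        have hy1 : Z ≤ x / 2 := by linarith
        have hy2 : x / 2 ≤ 2 ^ k * Z := by
          rw [pow_succ] at hx
          linarith
        have h1 := ih Z (x / 2) hZ hXZ hy1 hy2
        have h2 := hW X hX t ht q hq f hf hf1 (x / 2) x (by linarith) (by linarith) (by linarith)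
          (by linarith)
        have hsum : ∑ n ∈ Ioc ⌊Z⌋₊ ⌊x⌋₊, f n * (n : ℂ) ^ (-(t * I)) =
            ∑ n ∈ Ioc ⌊Z⌋₊ ⌊x / 2⌋₊, f n * (n : ℂ) ^ (-(t * I)) +
            ∑ n ∈ Ioc ⌊x / 2⌋₊ ⌊x⌋₊, f n * (n : ℂ) ^ (-(t * I)) :=
          (Finset.sum_Ioc_consecutive _ (Nat.floor_le_floor hy1)
            (Nat.floor_le_floor (by linarith))).symm
        have hii : ∀ a b : ℝ, IntervalIntegrable (fun u : ℝ => (u : ℂ) ^ (-((t : ℂ) * I)))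
            MeasureTheory.volume a b := by
          intro a b
          exact intervalIntegral.intervalIntegrable_cpow (Or.inl (by rw [Weyl_re]))
        have hint : ∫ u in Z..x, (u : ℂ) ^ (-((t : ℂ) * I)) =
            (∫ u in Z..(x / 2), (u : ℂ) ^ (-((t : ℂ) * I))) +
            ∫ u in (x / 2)..x, (u : ℂ) ^ (-((t : ℂ) * I)) :=
          (intervalIntegral.integral_add_adjacent_intervals (hii _ _) (hii _ _)).symm
        rw [hsum, hint]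
        have h3 : ∀ a b m c d : ℂ, a + b - m * (c + d) = (a - m * c) + (b - m * d) := by
          intro a b m c d
          ring
        rw [h3]
        refine (norm_add_le _ _).trans ((add_le_add h1 h2).trans ?_)
        have h4 : (x / 2) ^ (1 - c) ≤ 4 / 5 * x ^ (1 - c) := by
          have h5 : (x / 2) ^ (1 - c) = (1 / 2) ^ (1 - c) * x ^ (1 - c) := by
            rw [← Real.mul_rpow (by norm_num) (by linarith)]
            congr 1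
            ring
          rw [h5]
          exact mul_le_mul_of_nonneg_right hhalf (Real.rpow_nonneg (by linarith) _)
        have h5 : 0 ≤ C * (q : ℝ) ^ 2 := by positivity
        nlinarith [mul_le_mul_of_nonneg_left h4 h5]
  intro Z x hZ hXZ hZx
  obtain ⟨k, hk⟩ := pow_unbounded_of_one_lt (x / Z) (by norm_num : (1 : ℝ) < 2)
  refine key k Z x hZ hXZ hZx ?_
  rw [div_lt_iff₀ (by linarith)] at hk
  exact hk.le

/-- The tails of `∑ f(n) n ^ (-s)`.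

Proof. Take `c, C₁` from `weyl_long θ`. Write `s = σ + i t`, `S x = ∑_{Z < n ≤ x} f n n ^ (-i t) - mean ∫_Z^x u ^ (-i t) du`, `‖S x‖ ≤ C₁ q ^ 2 x ^ (1 - c)`
for `x ≥ Z`. Abel summation (`sum_mul_eq_sub_integral_mul` in Mathlib, `NumberTheory/AbelSummation`, for the sum, and integration by parts for the
integral) gives that the left side is `‖S N N ^ (-σ) + σ ∫_Z^N S x x ^ (-σ - 1) dx‖ ≤ C₁ q ^ 2 (N ^ (1 - c - σ) + 3 ∫_Z^∞ x ^ (-c - σ) dx)`. Since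
`σ + c - 1 ≥ c / 2` this is at most `C₁ q ^ 2 Z ^ (1 - c - σ) (1 + 6 / c)`. -/
theorem weyl_tail (θ : ℝ) (hθ : 0 < θ) (hθ1 : θ ≤ 1) : ∃ c C : ℝ, 0 < c ∧ c ≤ 1 / 4 ∧ 0 < C ∧
    ∀ X : ℝ, 1 ≤ X → ∀ q : ℕ, 1 ≤ q → ∀ f : ℕ → ℂ, (∀ n, f (n + q) = f n) → (∀ n, ‖f n‖ ≤ 1) →
    ∀ s : ℂ, 1 - c / 2 ≤ s.re → s.re ≤ 3 → |s.im| ≤ X → ∀ (Z : ℝ) (N : ℕ), 1 ≤ Z → X ^ θ ≤ Z → Z ≤ N →
    ‖∑ n ∈ Ioc ⌊Z⌋₊ N, f n * (n : ℂ) ^ (-s) - mean q f * ∫ u in Z..N, (u : ℂ) ^ (-s)‖ ≤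
      C * (q : ℝ) ^ 2 * Z ^ (1 - s.re - c) := by
  obtain ⟨c, C₁, hc, hc4, hC₁, hW⟩ := weyl_long θ hθ hθ1
  refine ⟨c, C₁ * (1 + 6 / c), hc, hc4, by positivity, ?_⟩
  intro X hX q hq f hf hf1 s hs1 hs2 hs3 Z N hZ hXZ hZN
  have hZ0 : 0 < Z := by linarith
  have hN0 : (0 : ℝ) < N := by linarith
  obtain ⟨t, ht⟩ : ∃ t : ℝ, t = s.im := ⟨_, rfl⟩
  obtain ⟨σ, hσ⟩ : ∃ σ : ℝ, σ = s.re := ⟨_, rfl⟩
  rw [← ht] at hs3
  rw [← hσ] at hs1 hs2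
  have hs : -s = -((t : ℂ) * I) + -(σ : ℂ) := by
    rw [ht, hσ]
    conv_lhs => rw [← Complex.re_add_im s]
    ring
  have hre : (-(σ : ℂ)).re = -σ := by simp
  have hcp : ∀ x : ℝ, 0 < x → (x : ℂ) ^ (-s) = (x : ℂ) ^ (-((t : ℂ) * I)) * (x : ℂ) ^ (-(σ : ℂ)) := by
    intro x hx
    rw [hs, Complex.cpow_add _ _ (by exact_mod_cast hx.ne')]
  have hd : ∀ x : ℝ, 0 < x → HasDerivAt (fun x : ℝ => (x : ℂ) ^ (-(σ : ℂ)))
      (-(σ : ℂ) * (x : ℂ) ^ (-(σ : ℂ) - 1)) x := by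
    intro x hx
    have h1 := ((hasDerivAt_id (x : ℂ)).cpow_const (c := -(σ : ℂ))
      (Or.inl (by simpa using hx))).comp_ofReal
    simpa using h1
  have hder : ∀ x : ℝ, 0 < x → deriv (fun x : ℝ => (x : ℂ) ^ (-(σ : ℂ))) x =
      -(σ : ℂ) * (x : ℂ) ^ (-(σ : ℂ) - 1) := fun x hx => (hd x hx).deriv
  have hcont : ContinuousOn (deriv (fun x : ℝ => (x : ℂ) ^ (-(σ : ℂ)))) (Set.Ioi 0) := by
    refine ContinuousOn.congr ((continuousOn_const (c := -(σ : ℂ))).mul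
      (WTail_cont (-(σ : ℂ) - 1))) ?_
    intro x hx
    exact hder x hx
  have hab := WTail_abel (fun n => f n * (n : ℂ) ^ (-((t : ℂ) * I)))
    (fun x => mean q f * (x : ℂ) ^ (-((t : ℂ) * I))) (fun x : ℝ => (x : ℂ) ^ (-(σ : ℂ))) Z N hZ0 hZN
    (continuousOn_const.mul (WTail_cont _)) (fun x hx => (hd x hx).differentiableAt) hcont
  rw [Nat.floor_natCast] at hab
  have hL1 : ∑ n ∈ Ioc ⌊Z⌋₊ N, f n * (n : ℂ) ^ (-s) =
      ∑ n ∈ Ioc ⌊Z⌋₊ N, f n * (n : ℂ) ^ (-((t : ℂ) * I)) * (((n : ℝ) : ℂ) ^ (-(σ : ℂ))) := by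
    refine sum_congr rfl fun n hn => ?_
    have hn0 : (0 : ℝ) < n := by
      exact_mod_cast lt_of_le_of_lt (Nat.zero_le _) (mem_Ioc.1 hn).1
    have h1 := hcp n hn0
    rw [Complex.ofReal_natCast] at h1 ⊢
    rw [h1, mul_assoc]
  have hL2 : mean q f * ∫ u in Z..N, (u : ℂ) ^ (-s) =
      ∫ x in Z..N, mean q f * (x : ℂ) ^ (-((t : ℂ) * I)) * (x : ℂ) ^ (-(σ : ℂ)) := by
    rw [← intervalIntegral.integral_const_mul]
    refine intervalIntegral.integral_congr fun x hx => ?_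
    rw [Set.uIcc_of_le hZN] at hx
    show mean q f * (x : ℂ) ^ (-s) = mean q f * (x : ℂ) ^ (-((t : ℂ) * I)) * (x : ℂ) ^ (-(σ : ℂ))
    rw [hcp x (by linarith [hx.1]), mul_assoc]
  rw [hL1, hL2, hab]
  have hS : ∀ x, Z ≤ x → ‖∑ n ∈ Ioc ⌊Z⌋₊ ⌊x⌋₊, f n * (n : ℂ) ^ (-((t : ℂ) * I)) -
      ∫ u in Z..x, mean q f * (u : ℂ) ^ (-((t : ℂ) * I))‖ ≤ C₁ * (q : ℝ) ^ 2 * x ^ (1 - c) := by
    intro x hx
    rw [intervalIntegral.integral_const_mul]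
    exact hW X hX t hs3 q hq f hf hf1 Z x hZ hXZ hx
  have hSN := hS N hZN
  rw [Nat.floor_natCast] at hSN
  set e : ℝ := c + σ - 1 with he
  have he0 : c / 2 ≤ e := by linarith
  have he1 : 0 < e := by linarith
  have hexp : 1 - σ - c = -e := by rw [he]; ring
  rw [← hσ, hexp]
  have hK : 0 ≤ C₁ * (q : ℝ) ^ 2 := by positivity
  have hZe : 0 < Z ^ (-e) := Real.rpow_pos_of_pos hZ0 _
  have hb1 : ‖(∑ n ∈ Ioc ⌊Z⌋₊ N, f n * (n : ℂ) ^ (-((t : ℂ) * I)) -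
      ∫ u in Z..N, mean q f * (u : ℂ) ^ (-((t : ℂ) * I))) * ((N : ℝ) : ℂ) ^ (-(σ : ℂ))‖ ≤
      C₁ * (q : ℝ) ^ 2 * Z ^ (-e) := by
    rw [norm_mul, Complex.norm_cpow_eq_rpow_re_of_pos hN0, hre]
    refine (mul_le_mul_of_nonneg_right hSN (Real.rpow_nonneg hN0.le _)).trans ?_
    rw [mul_assoc, ← Real.rpow_add hN0]
    apply mul_le_mul_of_nonneg_left _ hK
    have h1 : 1 - c + -σ = -e := by rw [he]; ring
    rw [h1]
    exact Real.rpow_le_rpow_of_nonpos hZ0 hZN (by linarith)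
  have hb2 : ‖∫ x in Z..N, (∑ n ∈ Ioc ⌊Z⌋₊ ⌊x⌋₊, f n * (n : ℂ) ^ (-((t : ℂ) * I)) -
      ∫ u in Z..x, mean q f * (u : ℂ) ^ (-((t : ℂ) * I))) *
      deriv (fun x : ℝ => (x : ℂ) ^ (-(σ : ℂ))) x‖ ≤ C₁ * (q : ℝ) ^ 2 * 3 * Z ^ (-e) / e := by
    apply WTail_bd _ Z N e _ he1 (by positivity) hZ0 hZN
    intro x hx1 hx2
    have hx0 : 0 < x := by linarith
    rw [norm_mul, hder x hx0, norm_mul, norm_neg, Complex.norm_real, Real.norm_eq_abs,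
      Complex.norm_cpow_eq_rpow_re_of_pos hx0]
    have h1 : (-(σ : ℂ) - 1).re = -σ - 1 := by simp
    rw [h1]
    have h2 : |σ| ≤ 3 := by rw [abs_le]; constructor <;> linarith
    have h3 : x ^ (-(e + 1)) = x ^ (1 - c) * x ^ (-σ - 1) := by
      rw [← Real.rpow_add hx0]
      congr 1
      rw [he]
      ring
    rw [h3]
    have h4 : 0 ≤ x ^ (-σ - 1) := Real.rpow_nonneg hx0.le _
    have h5 : 0 ≤ x ^ (1 - c) := Real.rpow_nonneg hx0.le _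
    calc ‖∑ n ∈ Ioc ⌊Z⌋₊ ⌊x⌋₊, f n * (n : ℂ) ^ (-((t : ℂ) * I)) -
          ∫ u in Z..x, mean q f * (u : ℂ) ^ (-((t : ℂ) * I))‖ * (|σ| * x ^ (-σ - 1))
        ≤ (C₁ * (q : ℝ) ^ 2 * x ^ (1 - c)) * (3 * x ^ (-σ - 1)) :=
          mul_le_mul (hS x hx1) (mul_le_mul_of_nonneg_right h2 h4) (by positivity) (by positivity)
      _ = C₁ * (q : ℝ) ^ 2 * 3 * (x ^ (1 - c) * x ^ (-σ - 1)) := by ring
  refine (norm_sub_le _ _).trans ((add_le_add hb1 hb2).trans ?_)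
  have h6 : C₁ * (q : ℝ) ^ 2 * 3 * Z ^ (-e) / e ≤ C₁ * (q : ℝ) ^ 2 * Z ^ (-e) * (6 / c) := by
    rw [div_le_iff₀ he1]
    have h7 : 3 ≤ 6 / c * e := by
      rw [div_mul_eq_mul_div, le_div_iff₀ hc]
      linarith
    have h8 : 0 ≤ C₁ * (q : ℝ) ^ 2 * Z ^ (-e) := by positivity
    calc C₁ * (q : ℝ) ^ 2 * 3 * Z ^ (-e) = C₁ * (q : ℝ) ^ 2 * Z ^ (-e) * 3 := by ring
      _ ≤ C₁ * (q : ℝ) ^ 2 * Z ^ (-e) * (6 / c * e) := mul_le_mul_of_nonneg_left h7 h8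
      _ = C₁ * (q : ℝ) ^ 2 * Z ^ (-e) * (6 / c) * e := by ring
  calc C₁ * (q : ℝ) ^ 2 * Z ^ (-e) + C₁ * (q : ℝ) ^ 2 * 3 * Z ^ (-e) / e
      ≤ C₁ * (q : ℝ) ^ 2 * Z ^ (-e) + C₁ * (q : ℝ) ^ 2 * Z ^ (-e) * (6 / c) := by linarith
    _ = C₁ * (1 + 6 / c) * (q : ℝ) ^ 2 * Z ^ (-e) := by ring

/-- The Weyl bound with a smooth weight of size `1 / x`.

Proof. Take `c, C₁` from `weyl_long θ`, apply it with `Z = M₀` and `S x` as in `weyl_tail` (the weight vanishes up to `M₀`, so the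
terms `n ≤ M₀` do not matter). Abel summation: the left side is `‖-∫_{M₀}^{M₁} S x Φ' x dx‖` (the boundary terms vanish, as
`Φ M₀ = 0` by continuity, and `Φ M₁ = 0`), at most `∫_{M₀}^∞ C₁ q ^ 2 x ^ (1 - c) A x ^ (-2) dx = C₁ q ^ 2 A M₀ ^ (-c) / c`. -/
theorem weyl_wt (θ : ℝ) (hθ : 0 < θ) (hθ1 : θ ≤ 1) : ∃ c C : ℝ, 0 < c ∧ c ≤ 1 / 4 ∧ 0 < C ∧
    ∀ X : ℝ, 1 ≤ X → ∀ t : ℝ, |t| ≤ X → ∀ q : ℕ, 1 ≤ q → ∀ f : ℕ → ℂ, (∀ n, f (n + q) = f n) → (∀ n, ‖f n‖ ≤ 1) →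
    ∀ (M₀ M₁ A : ℝ) (Φ : ℝ → ℂ), 1 ≤ M₀ → X ^ θ ≤ M₀ → M₀ ≤ M₁ → 0 ≤ A → ContDiff ℝ 1 Φ → (∀ x, x ≤ M₀ → Φ x = 0) →
    (∀ x, M₁ ≤ x → Φ x = 0) → (∀ x, 0 < x → ‖Φ x‖ ≤ A / x) → (∀ x, 0 < x → ‖deriv Φ x‖ ≤ A / x ^ 2) →
    ‖∑ n ∈ Icc 1 ⌊M₁⌋₊, f n * (n : ℂ) ^ (-(t * I)) * Φ n - mean q f * ∫ x in M₀..M₁, (x : ℂ) ^ (-(t * I)) * Φ x‖ ≤
      C * A * (q : ℝ) ^ 2 * M₀ ^ (-c) := by
  obtain ⟨c, C₁, hc, hc4, hC₁, hW⟩ := weyl_long θ hθ hθ1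
  refine ⟨c, C₁ / c, hc, hc4, by positivity, ?_⟩
  intro X hX t ht q hq f hf hf1 M₀ M₁ A Φ hM₀ hXM hMM hA hΦ hΦ0 hΦ1 hΦA hΦD
  have hM0 : 0 < M₀ := by linarith
  have hcd : Continuous (deriv Φ) := hΦ.continuous_deriv le_rfl
  have hdiff : Differentiable ℝ Φ := hΦ.differentiable (by norm_num)
  have hab := WTail_abel (fun n => f n * (n : ℂ) ^ (-((t : ℂ) * I)))
    (fun x => mean q f * (x : ℂ) ^ (-((t : ℂ) * I))) Φ M₀ M₁ hM0 hMM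
    (continuousOn_const.mul (WTail_cont _)) (fun x _ => hdiff x) hcd.continuousOn
  have hL1 : ∑ n ∈ Icc 1 ⌊M₁⌋₊, f n * (n : ℂ) ^ (-((t : ℂ) * I)) * Φ n =
      ∑ n ∈ Ioc ⌊M₀⌋₊ ⌊M₁⌋₊, f n * (n : ℂ) ^ (-((t : ℂ) * I)) * Φ n := by
    symm
    apply sum_subset
    · intro n hn
      rw [mem_Ioc] at hn
      rw [mem_Icc]
      exact ⟨by omega, hn.2⟩
    · intro n hn hn2
      rw [mem_Icc] at hn
      rw [mem_Ioc] at hn2
      have h1 : n ≤ ⌊M₀⌋₊ := by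
        by_contra h2
        exact hn2 ⟨by omega, hn.2⟩
      have h2 : (n : ℝ) ≤ M₀ := (Nat.le_floor_iff hM0.le).1 h1
      rw [hΦ0 _ h2, mul_zero]
  have hL2 : mean q f * ∫ x in M₀..M₁, (x : ℂ) ^ (-((t : ℂ) * I)) * Φ x =
      ∫ x in M₀..M₁, mean q f * (x : ℂ) ^ (-((t : ℂ) * I)) * Φ x := by
    rw [← intervalIntegral.integral_const_mul]
    refine intervalIntegral.integral_congr fun x _ => ?_
    show mean q f * ((x : ℂ) ^ (-((t : ℂ) * I)) * Φ x) = _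
    rw [mul_assoc]
  rw [hL1, hL2, hab, hΦ1 M₁ le_rfl, mul_zero, zero_sub, norm_neg]
  have hb : ‖∫ x in M₀..M₁, (∑ n ∈ Ioc ⌊M₀⌋₊ ⌊x⌋₊, f n * (n : ℂ) ^ (-((t : ℂ) * I)) -
      ∫ u in M₀..x, mean q f * (u : ℂ) ^ (-((t : ℂ) * I))) * deriv Φ x‖ ≤
      C₁ * (q : ℝ) ^ 2 * A * M₀ ^ (-c) / c := by
    apply WTail_bd _ M₀ M₁ c _ hc (by positivity) hM0 hMM
    intro x hx1 hx2
    have hx0 : 0 < x := by linarith
    rw [norm_mul, intervalIntegral.integral_const_mul]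
    have h1 := hW X hX t ht q hq f hf hf1 M₀ x hM₀ hXM hx1
    have h2 := hΦD x hx0
    have h3 : x ^ (-(c + 1)) = x ^ (1 - c) / x ^ 2 := by
      rw [← Real.rpow_natCast x 2, ← Real.rpow_sub hx0]
      congr 1
      push_cast
      ring
    rw [h3]
    have h5 : 0 ≤ x ^ (1 - c) := Real.rpow_nonneg hx0.le _
    calc _ ≤ (C₁ * (q : ℝ) ^ 2 * x ^ (1 - c)) * (A / x ^ 2) :=
          mul_le_mul h1 h2 (norm_nonneg _) (by positivity)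
      _ = C₁ * (q : ℝ) ^ 2 * A * (x ^ (1 - c) / x ^ 2) := by ring
  refine hb.trans (le_of_eq ?_)
  ring

end Pool.Agent.PSG
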