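import Pool.Agent.W_b58c63_h44.LD

/-!
# The zero free region
-/

set_option autoImplicit false

noncomputable section

open Finset Complex

namespace Pool.Agent.PSG

theorem ZFR_re_inv (x y : ℝ) : (1 / ((x : ℂ) + y * I)).re = x / (x ^ 2 + y ^ 2) := by
  rw [one_div, Complex.inv_re, Complex.normSq_apply]
  simp
  ring_nf

theorem ZFR_cen_sub (θ X t : ℝ) (s : ℂ) (u v : ℝ) (h1 : |s.re - 1 - 1 / (θ * Real.log X)| ≤ u)
    (h2 : |s.im - t| ≤ v) : ‖s - cen θ X t‖ ≤ u + v := by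
  have h := Complex.norm_le_abs_re_add_abs_im (s - cen θ X t)
  have e1 : (s - cen θ X t).re = s.re - 1 - 1 / (θ * Real.log X) := by
    unfold cen
    simp
    ring
  have e2 : (s - cen θ X t).im = s.im - t := by
    unfold cen
    simp
  rw [e1, e2] at h
  linarith

/-- analysis at a point of the vertical line through a zero -/
theorem ZFR_case1 {a c₁ C₁ C₂ L σ β X1 X2 : ℝ} (ha : 0 < a) (hc : c₁ = a / 10) (hL : 1 ≤ L)
    (haa : a * (40 * (5 * C₁ + C₂ + 1)) = 1) (hC₂ : 1 ≤ C₂) (hσ : σ = 1 + a / L)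
    (hβ : 1 - c₁ / L < β) (hβ1 : β < 1)
    (hX1 : X1 ≤ L) (hX2 : X2 ≤ 1 / (2 * (σ - 1)))
    (h : 4 * (1 / (σ - β) - C₁ * L) + (-(C₁ * L)) ≤ 3 / (σ - 1) + C₂ + X1 + X2) : False := by
  have hL0 : 0 < L := by linarith
  have e1 : σ - 1 = a / L := by rw [hσ]; ring
  have e2 : σ - β < 11 / 10 * (a / L) := by
    have : c₁ / L = a / L / 10 := by rw [hc]; ring
    rw [this] at hβ
    linarith
  have haL : 0 < a / L := by positivity
  have e3 : 0 < σ - β := by linarith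
  have e4 : 1 / (11 / 10 * (a / L)) ≤ 1 / (σ - β) := one_div_le_one_div_of_le e3 e2.le
  have e5 : 1 / (11 / 10 * (a / L)) = 10 / 11 * (L / a) := by field_simp
  rw [e1] at h hX2
  have e6 : 3 / (a / L) = 3 * (L / a) := by field_simp
  have e7 : 1 / (2 * (a / L)) = 1 / 2 * (L / a) := by field_simp
  rw [e6] at h
  rw [e7] at hX2
  rw [e5] at e4
  have e8 : L / a = L * (40 * (5 * C₁ + C₂ + 1)) := by
    rw [div_eq_iff ha.ne']
    linear_combination (-L) * haa
  have e9 : 0 < L / a := by positivity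
  have e10 : C₂ ≤ C₂ * L := by nlinarith only [hL, hC₂]
  -- 4 * 10/11 * (L/a) ≤ 7/2 (L/a) + (C₂ + 1 + 5 C₁) L
  have e11 : (5 * C₁ + C₂ + 1) * L = 1 / 40 * (L / a) := by rw [e8]; ring
  nlinarith only [hX2, h, hX1, e8, e4, e9, e10]

theorem ZFR_case2 {a c₁ C₁ C₂ L σ β γ : ℝ} (ha : 0 < a) (hc : c₁ = a / 10) (hL : 1 ≤ L)
    (haa : a * (40 * (5 * C₁ + C₂ + 1)) = 1) (hC₁ : 1 ≤ C₁) (hC₂ : 1 ≤ C₂) (hσ : σ = 1 + a / L)
    (hβ : 1 - c₁ / L < β) (hβ1 : β < 1) (hγ : |γ| < a / (2 * L))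
    (h : 2 * ((σ - β) / ((σ - β) ^ 2 + γ ^ 2)) - C₁ * L ≤ 1 / (σ - 1) + C₂) : False := by
  have hL0 : 0 < L := by linarith
  have haL : 0 < a / L := by positivity
  set b := a / L with hb
  have e1 : σ - 1 = b := by rw [hσ]; ring
  have e2 : σ - β < 11 / 10 * b := by
    have : c₁ / L = b / 10 := by rw [hc, hb]; ring
    rw [this] at hβ
    linarith
  have e3 : b < σ - β := by linarith
  have e4 : a / (2 * L) = b / 2 := by rw [hb]; field_simp
  rw [e4] at hγ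
  have e5 : γ ^ 2 ≤ (b / 2) ^ 2 := by
    rw [← sq_abs γ]
    exact pow_le_pow_left₀ (abs_nonneg _) hγ.le 2
  set y := σ - β with hy
  have e5' : 0 < y := by linarith
  have e6 : 0 < y ^ 2 + γ ^ 2 := by positivity
  have e7 : 3 / 4 * (1 / b) ≤ y / (y ^ 2 + γ ^ 2) := by
    rw [le_div_iff₀ e6]
    have : 3 / 4 * (1 / b) * (y ^ 2 + γ ^ 2) = (3 / 4 * (y ^ 2 + γ ^ 2)) / b := by ring
    rw [this, div_le_iff₀ haL]
    nlinarith only [hβ1, e5, haL, e2, hσ]
  rw [e1] at h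
  have e8 : 1 / b = L * (40 * (5 * C₁ + C₂ + 1)) := by
    rw [hb, one_div_div, div_eq_iff ha.ne']
    linear_combination (-L) * haa
  have e9 : C₂ ≤ C₂ * L := by nlinarith only [hC₂, e7, e8, haa, ha, h, hC₁, hL]
  have e10 : (5 * C₁ + C₂ + 1) * L = 1 / 40 * (1 / b) := by rw [e8]; ring
  have e11 : 0 < 1 / b := by positivity
  have e12 : 0 < C₁ * L := by positivity
  nlinarith only [hC₂, e7, e8, h, e9, hL, e12]

theorem ZFR_case3 {a c₁ C₁ C₂ L σ S : ℝ} (ha : 0 < a) (hL : 1 ≤ L)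
    (haa : a * (40 * (5 * C₁ + C₂ + 1)) = 1) (hC₁ : 1 ≤ C₁) (hC₂ : 1 ≤ C₂) (hσ : σ = 1 + a / L)
    (hc : c₁ = a / 10)
    (hS : 2 * (1 / (σ - 1 + c₁ / L)) ≤ S)
    (h : S - C₁ * L ≤ 1 / (σ - 1) + C₂) : False := by
  have hL0 : 0 < L := by linarith
  have haL : 0 < a / L := by positivity
  set b := a / L with hb
  have e1 : σ - 1 = b := by rw [hσ]; ring
  have e2 : c₁ / L = b / 10 := by rw [hc, hb]; ring
  rw [e1, e2] at hS
  rw [e1] at h
  have e3 : 1 / (b + b / 10) = 10 / 11 * (1 / b) := by field_simp; norm_num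
  rw [e3] at hS
  have e8 : 1 / b = L * (40 * (5 * C₁ + C₂ + 1)) := by
    rw [hb, one_div_div, div_eq_iff ha.ne']
    linear_combination (-L) * haa
  have e9 : C₂ ≤ C₂ * L := by nlinarith only [hC₂, ha, hC₁, haa, e8, hL, hS, h]
  have e10 : (5 * C₁ + C₂ + 1) * L = 1 / 40 * (1 / b) := by rw [e8]; ring
  have e11 : 0 < 1 / b := by positivity
  have e12 : 0 < C₁ * L := by positivity
  nlinarith only [e8, e11, hL, e9, hS, h, e12]

/-- **The zero free region**, width `c₁ / (θ log X)` at all heights up to `X`.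

Proof. Let `C₁` be the constant of `LA`, `C₂` the maximum of the constants of `mertens341` and `ld_triv`, `r₁` from `zeta_near_one`. Fix
`a = 1 / (40 (5 C₁ + C₂ + 1))` and `c₁ = a / 10`. Given `θ` take `R₀, X₀` from `LA θ`, `ε = θ R₀ / 4`, `L = θ log X` large (`X` large in terms of `θ`: `1 / L < R₀ / 16`, `2 X ≤ X ^ (3/2)`, `1 / L ≤ r₁ / 4`).
Put `σ = 1 + a / L`. The point `σ + i u` has distance `≤ 1 / L ≤ R₀ / 4` from `cen θ X u`, and a zero `ρ = β + i γ` with `β > 1 - c₁ / L` has distance `≤ 2 / L ≤ R₀ / 2` from `cen θ X γ`. By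
`LA_re` (`S = {ρ}`, `mz ≥ 1`): `Re EF'/EF(σ + i γ, χ) ≥ 1 / (σ - β) - C₁ L`, and (`S = ∅`) `Re EF'/EF(σ + 2 i γ, χ ^ 2) ≥ - C₁ L`.

First claim. Let `ρ = β + i γ` be a zero with `β > 1 - c₁ / L`, and suppose that `χ = 1` or `χ ^ 2 ≠ 1` or `γ ≠ 0`.

Case 1: `χ ^ 2 ≠ 1` or `|γ| ≥ a / (2 L)`. If `χ = 1` then `EF_zero_one` and `zeta_near_one` give `|γ| ≥ r₁` (as `β > 1 - r₁`), so `4 dl χ Re (1 / (σ + i γ - 1)) ≤ 4 / r₁ ≤ L`; for `χ ≠ 1` this term
is `0`. `dl (χ ^ 2) Re (1 / (σ - 1 + 2 i γ)) ≤ (σ - 1) / ((σ - 1) ^ 2 + 4 γ ^ 2) ≤ 1 / (2 (σ - 1))` if `|γ| ≥ a / (2 L) = (σ - 1) / 2`, and it is `0` if `χ ^ 2 ≠ 1`. So `mertens341` gives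
`4 / (σ - β) ≤ 7 / (2 (σ - 1)) + C₂ + L + 5 C₁ L`. Divide by `L`, with `β > 1 - c₁ / L`: `4 / (a + c₁) < 4 / ((σ - β) L) ≤ 7 / (2 a) + 5 C₁ + C₂ + 1 ≤ 7 / (2 a) + 1 / (40 a)`, but `4 / (1.1 a) > 3.6 / a`, a
contradiction.

Case 2: `χ ≠ 1`, `χ ^ 2 = 1`, `0 < |γ| < a / (2 L)`. Then `ρ` and `conj ρ` are two different zeros (`EF_conj`), both within `R₀ / 2` of `cen θ X 0`. `LA_re` at `σ` (`t = 0`), `S = {ρ, conj ρ}`, and `ld_triv` with `EF_ld`:
`2 (σ - β) / ((σ - β) ^ 2 + γ ^ 2) ≤ 1 / (σ - 1) + C₂ + C₁ L`. With `x = (σ - β) L ∈ (a, 1.1 a)`: the left side divided by `L` is at least `2 x / (x ^ 2 + a ^ 2 / 4) ≥ 1.5 / a` (decreasing in `x ≥ a/2`; at `x = 1.1 a` it is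
`2.2 / 1.46 / a`), the right side divided by `L` is at most `1 / a + C₂ + C₁ ≤ 1 / a + 1 / (40 a)`: contradiction.
(If `χ = 1` and `|γ| < a / (2L)`: impossible by `zeta_near_one`. If `χ ^ 2 = 1`, `χ ≠ 1` and `γ = 0` the second alternative holds.)

Second claim. Let `χ ≠ 1`, `χ ^ 2 = 1` and suppose that the sum of the multiplicities of the real zeros `β ≥ 1 - c₁ / L` is at least `2`. `LA_re` at `σ`, `S` = these zeros: the sum is at least
`2 / (σ - 1 + c₁ / L) = 2 L / (1.1 a)`, so `1.8 / a ≤ 1 / a + C₂ + C₁`, a contradiction as before. (`ZR (EF χ) (c₁ / L) 0` are the zeros with `Im = 0` and `Re ≥ 1 - c₁ / L`, `mem_ZR`.) -/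
theorem ZFR [WI] : ∃ c₁ : ℝ, 0 < c₁ ∧ c₁ ≤ 1 ∧ ∀ θ : ℝ, 0 < θ → θ ≤ 1 → ∃ ε X₀ : ℝ, 0 < ε ∧ ε ≤ 1 ∧ 3 ≤ X₀ ∧
    ∀ X : ℝ, X₀ ≤ X → ∀ q : ℕ, 1 ≤ q → (q : ℝ) ≤ X ^ ε → ∀ χ : DirichletCharacter ℂ q,
    (∀ ρ : ℂ, EF χ ρ = 0 → |ρ.im| ≤ X → ρ.re ≤ 1 - c₁ / (θ * Real.log X) ∨ (χ ≠ 1 ∧ χ ^ 2 = 1 ∧ ρ.im = 0)) ∧
    (χ ≠ 1 → χ ^ 2 = 1 → ∑ ρ ∈ ZR (EF χ) (c₁ / (θ * Real.log X)) 0, mz (EF χ) ρ ≤ 1) := by
  classical
  obtain ⟨C₁, hC₁, hLA⟩ := LA
  obtain ⟨CM, hCM, hM⟩ := mertens341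
  obtain ⟨CT, hCT, hT⟩ := ld_triv
  obtain ⟨r₁, hr₁, hr₁', hz⟩ := zeta_near_one
  set C₂ := max CM CT with hC₂d
  have hC₂ : 1 ≤ C₂ := le_trans hCM (le_max_left _ _)
  have hden : 0 < 40 * (5 * C₁ + C₂ + 1) := by linarith
  set a := 1 / (40 * (5 * C₁ + C₂ + 1)) with had
  have ha : 0 < a := by positivity
  have haa : a * (40 * (5 * C₁ + C₂ + 1)) = 1 := by rw [had]; field_simp
  have ha1 : a ≤ 1 / 280 := by
    rw [had]
    apply one_div_le_one_div_of_le (by norm_num)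
    linarith
  refine ⟨a / 10, by positivity, by linarith, fun θ hθ hθ1 => ?_⟩
  obtain ⟨R₀, X₁, hR₀, hR₀', hX₁, hLA'⟩ := hLA θ hθ hθ1
  set Lm := 16 / R₀ + 4 / r₁ + 1 with hLm
  have hLm1 : 16 / R₀ ≤ Lm := by
    have : 0 < 4 / r₁ := by positivity
    linarith
  have hLm2 : 4 / r₁ ≤ Lm := by
    have : 0 < 16 / R₀ := by positivity
    linarith
  have hLm3 : 1 ≤ Lm := by
    have : 0 < 16 / R₀ := by positivity
    have : 0 < 4 / r₁ := by positivity
    linarith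
  refine ⟨θ * R₀ / 4, max (max X₁ 4) (Real.exp (Lm / θ)), by positivity, by nlinarith only [ha1, hR₀', ha, hθ, hθ1],
    le_trans hX₁ (le_trans (le_max_left _ _) (le_max_left _ _)), fun X hX q hq hqX χ => ?_⟩
  have hXX₁ : X₁ ≤ X := le_trans (le_trans (le_max_left _ _) (le_max_left _ _)) hX
  have hX4 : 4 ≤ X := le_trans (le_trans (le_max_right _ _) (le_max_left _ _)) hX
  have hXe : Real.exp (Lm / θ) ≤ X := le_trans (le_max_right _ _) hX
  have hX0 : 0 < X := by linarith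
  set L := θ * Real.log X with hLd
  have hL : Lm ≤ L := by
    have h1 : Lm / θ ≤ Real.log X := by
      rw [← Real.log_exp (Lm / θ)]
      exact Real.log_le_log (Real.exp_pos _) hXe
    have h2 := (div_le_iff₀ hθ).mp h1
    rw [hLd]
    linarith
  have hL1 : 1 ≤ L := le_trans hLm3 hL
  have hL0 : 0 < L := by linarith
  have hLR : 1 / L ≤ R₀ / 16 := by
    have h1 : 16 / R₀ ≤ L := le_trans hLm1 hL
    rw [div_le_iff₀ hR₀] at h1
    rw [div_le_iff₀ hL0]
    linarith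
  have hLr : 4 / r₁ ≤ L := le_trans hLm2 hL
  have hLr' : 1 / L ≤ r₁ / 4 := by
    rw [div_le_iff₀ hr₁] at hLr
    rw [div_le_iff₀ hL0]
    linarith
  have : NeZero q := ⟨by omega⟩
  have hEn : ∀ ψ : DirichletCharacter ℂ q, ∃ s, EF ψ s ≠ 0 := fun ψ => ⟨2, EF_ne_zero ψ 2 (by simp)⟩
  have hX32 : 2 * X ≤ X ^ (3 / 2 : ℝ) := by
    have h1 : X ^ (3 / 2 : ℝ) = X ^ (1 : ℝ) * X ^ (1 / 2 : ℝ) := by
      rw [← Real.rpow_add hX0]; norm_num
    have h2 : (2 : ℝ) ≤ X ^ (1 / 2 : ℝ) := by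
      rw [← Real.sqrt_eq_rpow]
      exact Real.le_sqrt_of_sq_le (by linarith)
    rw [h1, Real.rpow_one]
    nlinarith only [ha1, ha, h2, hX₁, hXX₁]
  set σ : ℝ := 1 + a / L with hσ
  have haL : 0 < a / L := by positivity
  have haL1 : a / L ≤ 1 / L := by gcongr; linarith only [ha1, ha]
  have hinvL : 1 / L ≤ 1 := by
    rw [div_le_iff₀ hL0]; linarith only [hL, hLm3]
  have hσ1 : 1 < σ := by linarith only [haL]
  have hσ3 : σ ≤ 3 := by linarith only [ha1, hR₀', hLR, ha, haL1]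
  have hinv0 : 0 < 1 / L := by positivity
  have hcL : a / 10 / L ≤ 1 / L * (1 / 10) := by
    have : a / 10 / L = a / L * (1 / 10) := by ring
    rw [this]
    nlinarith only [haL1]
  have hcL0 : 0 < a / 10 / L := by positivity
  have hEFlt : ∀ (ψ : DirichletCharacter ℂ q) (ρ : ℂ), EF ψ ρ = 0 → ρ.re < 1 := by
    intro ψ ρ h
    by_contra h1
    exact EF_ne_zero ψ ρ (not_lt.mp h1) h
  refine ⟨?_, ?_⟩
  · intro ρ hρ hρX
    by_contra hcon
    rw [not_or, not_le] at hcon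
    obtain ⟨hβ, hnot⟩ := hcon
    set β := ρ.re with hβd
    set γ := ρ.im with hγd
    have hβ1 : β < 1 := hEFlt χ ρ hρ
    have hρeq : ρ = (β : ℂ) + γ * I := (Complex.re_add_im ρ).symm
    have habsβ : |β - 1 - 1 / (θ * Real.log X)| ≤ 11 / 10 * (1 / L) := by
      rw [← hLd, abs_le]
      constructor
      · linarith only [hβ, hcL]
      · linarith only [hβ, hβ1, hcL]
    have hχ1 : χ = 1 → r₁ ≤ |γ| := by
      intro h1
      subst h1
      obtain ⟨h2, h3⟩ := EF_zero_one ρ (by rw [← hβd]; linarith only [hR₀', hLR, hβ, hβ1, hcL]) hρ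
      have h4 : 2 * r₁ < ‖ρ - 1‖ := by
        by_contra h5
        exact hz ρ (not_lt.mp h5) h3 h2
      have h5 := Complex.norm_le_abs_re_add_abs_im (ρ - 1)
      have h6 : |(ρ - 1).re| = 1 - β := by
        simp only [Complex.sub_re, Complex.one_re]
        rw [abs_of_neg (by linarith only [hβ1])]
        ring
      have h7 : |(ρ - 1).im| = |γ| := by simp [hγd]
      rw [h6, h7] at h5
      linarith only [hβ, hr₁, h4, hLr', h5, hcL]
    have hLAγ := hLA' X hXX₁ q hq hqX χ γ (by linarith only [hR₀', hLR, hβ, hρX, hX4, hβ1, hcL, hX32])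
    have hmp := mz_pos (EF χ) (EF_diff χ) (hEn χ) ρ hρ
    have hmR : (1 : ℝ) ≤ (mz (EF χ) ρ : ℝ) := by exact_mod_cast hmp
    by_cases hc : χ ^ 2 ≠ 1 ∨ a / (2 * L) ≤ |γ|
    · -- case 1
      have hLAγ2 := hLA' X hXX₁ q hq hqX (χ ^ 2) (2 * γ) (by
        rw [abs_mul]
        norm_num
        linarith only [hρX, hX32])
      have hs1 : ‖((σ : ℂ) + γ * I) - cen θ X γ‖ ≤ R₀ / 4 := by
        have := ZFR_cen_sub θ X γ ((σ : ℂ) + γ * I) (1 / L) 0 (by
          simp only [Complex.add_re, Complex.ofReal_re, Complex.mul_re, Complex.I_re, mul_zero,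
            Complex.ofReal_im, Complex.I_im, mul_one, sub_self, add_zero]
          rw [← hLd, abs_le]
          constructor <;> linarith only [haL, hβ, haL1, hβ1, hcL]) (by simp)
        linarith only [hLR, hβ, this, hβ1, hcL]
      have hs2 : ‖((σ : ℂ) + (2 * γ : ℝ) * I) - cen θ X (2 * γ)‖ ≤ R₀ / 4 := by
        have := ZFR_cen_sub θ X (2 * γ) ((σ : ℂ) + (2 * γ : ℝ) * I) (1 / L) 0 (by
          simp only [Complex.add_re, Complex.ofReal_re, Complex.mul_re, Complex.I_re, mul_zero,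
            Complex.ofReal_im, Complex.I_im, mul_one, sub_self, add_zero]
          rw [← hLd, abs_le]
          constructor <;> linarith only [haL, hβ, haL1, hβ1, hcL]) (by simp)
        linarith only [hLR, hβ, hβ1, this, hcL]
      have hre : ∀ t : ℝ, ((σ : ℂ) + t * I).re = σ := by intro t; simp
      have h1 := LA_re hq χ γ hLAγ hR₀ ((σ : ℂ) + γ * I) hs1 (by rw [hre]; exact hσ1) {ρ} (by
        intro z hz'
        rw [Finset.mem_singleton] at hz'
        rw [hz', mem_zb (EF χ) (EF_diff χ) (hEn χ)]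
        refine ⟨hρ, ?_⟩
        have := ZFR_cen_sub θ X γ ρ (11 / 10 * (1 / L)) 0 (by rw [← hβd]; exact habsβ) (by rw [← hγd]; simp)
        linarith only [hLR, hβ, this, hβ1, hcL])
      have h2 := LA_re hq (χ ^ 2) (2 * γ) hLAγ2 hR₀ ((σ : ℂ) + (2 * γ : ℝ) * I) hs2 (by
        rw [hre]; exact hσ1) ∅ (by simp)
      rw [Finset.sum_singleton] at h1
      rw [Finset.sum_empty] at h2
      have h3 : (1 / ((σ : ℂ) + γ * I - ρ)).re = 1 / (σ - β) := by
        have e : ((σ : ℂ) + γ * I - ρ) = ((σ - β : ℝ) : ℂ) := by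
          rw [hρeq]; push_cast; ring
        rw [e, ← Complex.ofReal_one, ← Complex.ofReal_div, Complex.ofReal_re]
      rw [h3] at h1
      have h4 := hM q χ σ γ hσ1 hσ3
      have h5 : 1 / (σ - β) ≤ (mz (EF χ) ρ : ℝ) * (1 / (σ - β)) := by
        have : 0 < 1 / (σ - β) := by
          apply one_div_pos.mpr; linarith only [haL, hβ1]
        nlinarith only [hβ1, hR₀', this, hLR, hcL, hβ, hmR]
      have hX1 : 4 * dl χ * (1 / ((σ : ℂ) + γ * I - 1)).re ≤ L := by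
        by_cases h6 : χ = 1
        · have h7 := hχ1 h6
          have h8 : dl χ = 1 := by unfold dl; rw [if_pos h6]
          rw [h8]
          have e : ((σ : ℂ) + γ * I - 1) = ((σ - 1 : ℝ) : ℂ) + γ * I := by push_cast; ring
          rw [e, ZFR_re_inv]
          have h9 : (σ - 1) / ((σ - 1) ^ 2 + γ ^ 2) ≤ 1 / r₁ := by
            have hpos : 0 < (σ - 1) ^ 2 + γ ^ 2 := by
              have : 0 < σ - 1 := by linarith only [haL]
              positivity
            rw [div_le_div_iff₀ hpos hr₁]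
            have h10 : r₁ ^ 2 ≤ γ ^ 2 := by
              rw [← sq_abs γ]
              exact pow_le_pow_left₀ hr₁.le h7 2
            nlinarith only [sq_nonneg (σ - 1 - r₁ / 2), h10]
          have h11 : 4 * (1 / r₁) ≤ L := by
            have : 4 * (1 / r₁) = 4 / r₁ := by ring
            rw [this]; exact hLr
          linarith only [h9, h11]
        · have h8 : dl χ = 0 := by unfold dl; rw [if_neg h6]
          rw [h8]
          linarith only [hR₀', hLR, hβ, hL, hβ1, hLm3, hcL]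
      have hX2 : dl (χ ^ 2) * (1 / ((σ : ℂ) + (2 * γ : ℝ) * I - 1)).re ≤ 1 / (2 * (σ - 1)) := by
        have hσ0 : 0 < σ - 1 := by linarith only [haL]
        by_cases h6 : χ ^ 2 = 1
        · have h7 : a / (2 * L) ≤ |γ| := by
            rcases hc with h | h
            · exact absurd h6 h
            · exact h
          have h8 : dl (χ ^ 2) = 1 := by unfold dl; rw [if_pos h6]
          rw [h8, one_mul]
          have e : ((σ : ℂ) + (2 * γ : ℝ) * I - 1) = ((σ - 1 : ℝ) : ℂ) + (2 * γ : ℝ) * I := by push_cast; ring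
          rw [e, ZFR_re_inv]
          have hpos : 0 < (σ - 1) ^ 2 + (2 * γ) ^ 2 := by positivity
          rw [div_le_div_iff₀ hpos (by linarith only [haL])]
          have h9 : σ - 1 ≤ 2 * |γ| := by
            have : σ - 1 = 2 * (a / (2 * L)) := by rw [hσ]; field_simp; ring
            rw [this]; linarith only [h7]
          have h10 : (σ - 1) ^ 2 ≤ (2 * γ) ^ 2 := by
            have : (2 * γ) ^ 2 = (2 * |γ|) ^ 2 := by rw [mul_pow, mul_pow, sq_abs]
            rw [this]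
            exact pow_le_pow_left₀ hσ0.le h9 2
          nlinarith only [h10]
        · have h8 : dl (χ ^ 2) = 0 := by unfold dl; rw [if_neg h6]
          rw [h8, zero_mul]
          positivity
      have hCMC : CM ≤ C₂ := le_max_left _ _
      exact ZFR_case1 (X1 := 4 * dl χ * (1 / ((σ : ℂ) + γ * I - 1)).re)
        (X2 := dl (χ ^ 2) * (1 / ((σ : ℂ) + (2 * γ : ℝ) * I - 1)).re) ha rfl hL1 haa hC₂ hσ hβ hβ1
        hX1 hX2 (by
          have h1' : 1 / (σ - β) - C₁ * L ≤ (deriv (EF χ) ((σ : ℂ) + γ * I) / EF χ ((σ : ℂ) + γ * I)).re := by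
            rw [← hLd] at h1
            linarith only [h1, h5]
          have h2' : -(C₁ * L) ≤ (deriv (EF (χ ^ 2)) ((σ : ℂ) + (2 * γ : ℝ) * I) /
              EF (χ ^ 2) ((σ : ℂ) + (2 * γ : ℝ) * I)).re := by
            rw [← hLd] at h2
            linarith only [h2]
          linarith only [h5, h2, h1, hCMC, h4])
    · -- case 2
      rw [not_or, not_not, not_le] at hc
      obtain ⟨hχ2, hγs⟩ := hc
      have hχne : χ ≠ 1 := by
        intro h1
        have h2 := hχ1 h1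
        have h3 : a / (2 * L) ≤ 1 / L := by
          have : a / (2 * L) = a / L * (1 / 2) := by field_simp
          rw [this]; nlinarith only [hβ1, hLr', h2, this, haL1, hcL, hγs, hβ]
        linarith only [h2, h3, hβ, hγs, hβ1, hLr', hcL]
      have hγ0 : γ ≠ 0 := by
        intro h1
        exact hnot ⟨hχne, hχ2, h1⟩
      have hLA0 := hLA' X hXX₁ q hq hqX χ 0 (by rw [abs_zero]; positivity)
      have hρc : EF χ ((starRingEnd ℂ) ρ) = 0 := by rw [EF_conj χ hχ2, hρ, map_zero]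
      have hne : ρ ≠ (starRingEnd ℂ) ρ := by
        intro h1
        have h2 := congrArg Complex.im h1
        rw [Complex.conj_im] at h2
        apply hγ0
        rw [hγd]
        linarith only [h2]
      have hs0 : ‖(σ : ℂ) - cen θ X 0‖ ≤ R₀ / 4 := by
        have := ZFR_cen_sub θ X 0 (σ : ℂ) (1 / L) 0 (by
          simp only [Complex.ofReal_re]
          rw [← hLd, abs_le]
          constructor <;> linarith only [haL, hβ, haL1, hβ1, hcL]) (by simp)
        linarith only [hLR, hβ, this, hβ1, hcL]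
      have hγL : |γ| ≤ 1 / L * (1 / 2) := by
        have h3 : a / (2 * L) ≤ 1 / L * (1 / 2) := by
          have : a / (2 * L) = a / L * (1 / 2) := by field_simp
          rw [this]; nlinarith only [haL1]
        linarith only [hγs, h3]
      have h1 := LA_re hq χ 0 hLA0 hR₀ (σ : ℂ) hs0 (by simpa using hσ1) {ρ, (starRingEnd ℂ) ρ} (by
        intro z hz'
        rw [Finset.mem_insert, Finset.mem_singleton] at hz'
        rw [mem_zb (EF χ) (EF_diff χ) (hEn χ)]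
        rcases hz' with h | h
        · rw [h]
          refine ⟨hρ, ?_⟩
          have := ZFR_cen_sub θ X 0 ρ (11 / 10 * (1 / L)) (1 / L * (1 / 2)) (by rw [← hβd]; exact habsβ)
            (by rw [← hγd, sub_zero]; exact hγL)
          linarith only [hLR, hβ, this, hβ1, hcL]
        · rw [h]
          refine ⟨hρc, ?_⟩
          have := ZFR_cen_sub θ X 0 ((starRingEnd ℂ) ρ) (11 / 10 * (1 / L)) (1 / L * (1 / 2))
            (by rw [Complex.conj_re, ← hβd]; exact habsβ)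
            (by rw [Complex.conj_im, ← hγd, sub_zero, abs_neg]; exact hγL)
          linarith only [hLR, hβ, this, hβ1, hcL])
      rw [Finset.sum_pair hne] at h1
      have e1 : (1 / ((σ : ℂ) - ρ)).re = (σ - β) / ((σ - β) ^ 2 + γ ^ 2) := by
        have e : ((σ : ℂ) - ρ) = ((σ - β : ℝ) : ℂ) + ((-γ : ℝ) : ℂ) * I := by
          rw [hρeq]; push_cast; ring
        rw [e, ZFR_re_inv]
        ring_nf
      have e2 : (1 / ((σ : ℂ) - (starRingEnd ℂ) ρ)).re = (σ - β) / ((σ - β) ^ 2 + γ ^ 2) := by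
        have e : ((σ : ℂ) - (starRingEnd ℂ) ρ) = ((σ - β : ℝ) : ℂ) + (γ : ℂ) * I := by
          apply Complex.ext
          · simp [hβd]
          · simp [hγd]
        rw [e, ZFR_re_inv]
      rw [e1, e2] at h1
      have hmc := mz_pos (EF χ) (EF_diff χ) (hEn χ) _ hρc
      have hmcR : (1 : ℝ) ≤ (mz (EF χ) ((starRingEnd ℂ) ρ) : ℝ) := by exact_mod_cast hmc
      have hq0 : 0 < (σ - β) / ((σ - β) ^ 2 + γ ^ 2) := by
        have : 0 < σ - β := by linarith only [haL, hβ1]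
        positivity
      have h3 : (deriv (EF χ) (σ : ℂ) / EF χ (σ : ℂ)).re ≤ 1 / (σ - 1) + CT := by
        have h4 := EF_ld χ (σ : ℂ) (by simpa using hσ1)
        have h5 : dl χ = 0 := by unfold dl; rw [if_neg hχne]
        rw [h5, Complex.ofReal_zero, zero_div, add_zero] at h4
        rw [h4]
        have h6 := hT q χ (σ : ℂ) (by simpa using hσ1) (by simpa using hσ3)
        rw [Complex.ofReal_re] at h6
        exact le_trans (Complex.re_le_norm _) h6
      have hCTC : CT ≤ C₂ := le_max_right _ _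
      refine ZFR_case2 ha rfl hL1 haa hC₁ hC₂ hσ hβ hβ1 hγs ?_
      rw [← hLd] at h1
      nlinarith only [hq0, hβ1, hR₀', hLR, hCTC, hmcR, h1, h3, hcL, hβ, hmR]
  · intro hχne hχ2
    by_contra hcon
    rw [not_le] at hcon
    have hsum2 : (2 : ℝ) ≤ ∑ ρ ∈ ZR (EF χ) (a / 10 / L) 0, (mz (EF χ) ρ : ℝ) := by
      have : 2 ≤ ∑ ρ ∈ ZR (EF χ) (a / 10 / L) 0, mz (EF χ) ρ := hcon
      exact_mod_cast this
    have hLA0 := hLA' X hXX₁ q hq hqX χ 0 (by rw [abs_zero]; positivity)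
    have hs0 : ‖(σ : ℂ) - cen θ X 0‖ ≤ R₀ / 4 := by
      have := ZFR_cen_sub θ X 0 (σ : ℂ) (1 / L) 0 (by
        simp only [Complex.ofReal_re]
        rw [← hLd, abs_le]
        constructor <;> linarith only [haL, hcL0, haL1, hcL]) (by simp)
      linarith only [hLR, hcL0, this, hcL]
    have hmem : ∀ z ∈ ZR (EF χ) (a / 10 / L) 0, EF χ z = 0 ∧ 1 - a / 10 / L ≤ z.re ∧ z.re < 1 ∧ z.im = 0 := by
      intro z hz'
      rw [mem_ZR (EF χ) (EF_diff χ) (hEn χ)] at hz'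
      obtain ⟨h1, h2, h3, h4⟩ := hz'
      exact ⟨h1, h2, hEFlt χ z h1, abs_eq_zero.mp (le_antisymm h4 (abs_nonneg _))⟩
    have h1 := LA_re hq χ 0 hLA0 hR₀ (σ : ℂ) hs0 (by simpa using hσ1) (ZR (EF χ) (a / 10 / L) 0) (by
      intro z hz'
      obtain ⟨h1, h2, h3, h4⟩ := hmem z hz'
      rw [mem_zb (EF χ) (EF_diff χ) (hEn χ)]
      refine ⟨h1, ?_⟩
      have := ZFR_cen_sub θ X 0 z (11 / 10 * (1 / L)) 0 (by
        rw [← hLd, abs_le]
        constructor <;> linarith only [h2, hcL, hcL0, h3]) (by rw [h4]; simp)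
      linarith only [hLR, hcL0, hcL, this])
    have h2 : ∑ ρ ∈ ZR (EF χ) (a / 10 / L) 0, (mz (EF χ) ρ : ℝ) * (1 / (σ - 1 + a / 10 / L)) ≤
        ∑ ρ ∈ ZR (EF χ) (a / 10 / L) 0, (mz (EF χ) ρ : ℝ) * (1 / ((σ : ℂ) - ρ)).re := by
      apply Finset.sum_le_sum
      intro z hz'
      obtain ⟨h3, h4, h5, h6⟩ := hmem z hz'
      apply mul_le_mul_of_nonneg_left _ (Nat.cast_nonneg _)
      have e : ((σ : ℂ) - z) = ((σ - z.re : ℝ) : ℂ) := by
        apply Complex.ext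
        · simp
        · simp [h6]
      rw [e, ← Complex.ofReal_one, ← Complex.ofReal_div, Complex.ofReal_re]
      apply one_div_le_one_div_of_le
      · linarith only [haL, h5]
      · linarith only [h4]
    rw [← Finset.sum_mul] at h2
    have h3 : (deriv (EF χ) (σ : ℂ) / EF χ (σ : ℂ)).re ≤ 1 / (σ - 1) + CT := by
      have h4 := EF_ld χ (σ : ℂ) (by simpa using hσ1)
      have h5 : dl χ = 0 := by unfold dl; rw [if_neg hχne]
      rw [h5, Complex.ofReal_zero, zero_div, add_zero] at h4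
      rw [h4]
      have h6 := hT q χ (σ : ℂ) (by simpa using hσ1) (by simpa using hσ3)
      rw [Complex.ofReal_re] at h6
      exact le_trans (Complex.re_le_norm _) h6
    have hCTC : CT ≤ C₂ := le_max_right _ _
    have hpos : 0 < 1 / (σ - 1 + a / 10 / L) := by
      apply one_div_pos.mpr
      linarith only [haL, hcL0]
    refine ZFR_case3 (S := (∑ ρ ∈ ZR (EF χ) (a / 10 / L) 0, (mz (EF χ) ρ : ℝ)) * (1 / (σ - 1 + a / 10 / L)))
      ha hL1 haa hC₁ hC₂ hσ rfl ?_ ?_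
    · exact mul_le_mul_of_nonneg_right hsum2 hpos.le
    · rw [← hLd] at h1
      linarith only [h2, hCTC, h1, h3]

end Pool.Agent.PSG
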