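import Pool.Agent.W_b58c63_h44.DHe
import Pool.Agent.W_b58c63_h44.Den
import Pool.Agent.W_b58c63_h44.ZFR

/-!
# The zero package
-/

set_option autoImplicit false

noncomputable section

open Finset Complex

namespace Pool.Agent.PSG

open Pool.Agent.Wb58c63 (prim)

/-- The weighted number of the zeros close to `1`, over all the primitive characters with conductor at most `X ^ ε`. -/
def Wt (ε κ X : ℝ) : ℝ :=
  ∑ r ∈ Icc 1 ⌊X ^ ε⌋₊, ∑ χ ∈ prim r, ∑ ρ ∈ ZR (EF χ) κ X, (mz (EF χ) ρ : ℝ) * X ^ (-((1 - ρ.re) / 4))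

/-- The set of all the zeros of the sum, as one finite set. -/
def ZP_set (ε κ X : ℝ) : Finset (Σ r : ℕ, Σ _ : DirichletCharacter ℂ r, ℂ) :=
  (Icc 1 ⌊X ^ ε⌋₊).sigma fun r => (prim r).sigma fun χ => ZR (EF χ) κ X

theorem ZP_sum (ε κ X : ℝ) (g : (Σ r : ℕ, Σ _ : DirichletCharacter ℂ r, ℂ) → ℝ) :
    ∑ r ∈ Icc 1 ⌊X ^ ε⌋₊, ∑ χ ∈ prim r, ∑ ρ ∈ ZR (EF χ) κ X, g ⟨r, ⟨χ, ρ⟩⟩ =
      ∑ z ∈ ZP_set ε κ X, g z := by
  unfold ZP_set
  rw [Finset.sum_sigma]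
  refine Finset.sum_congr rfl fun r _ => ?_
  rw [Finset.sum_sigma]

theorem ZP_ne {q : ℕ} (χ : DirichletCharacter ℂ q) : ∃ s, EF χ s ≠ 0 :=
  ⟨1, EF_ne_zero χ 1 (by simp)⟩

theorem ZP_mem (ε κ X : ℝ) (hX : 3 ≤ X) (z : Σ r : ℕ, Σ _ : DirichletCharacter ℂ r, ℂ) :
    z ∈ ZP_set ε κ X ↔ 1 ≤ z.1 ∧ (z.1 : ℝ) ≤ X ^ ε ∧ z.2.1.IsPrimitive ∧ EF z.2.1 z.2.2 = 0 ∧
      1 - κ ≤ z.2.2.re ∧ z.2.2.re ≤ 1 ∧ |z.2.2.im| ≤ X := by
  have h0 : (0 : ℝ) ≤ X ^ ε := Real.rpow_nonneg (by linarith) _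
  unfold ZP_set
  rw [Finset.mem_sigma, Finset.mem_sigma, Finset.mem_Icc, Nat.le_floor_iff h0,
    mem_ZR _ (EF_diff _) (ZP_ne _)]
  unfold prim
  simp only [Finset.mem_filter, Finset.mem_univ, true_and, and_assoc]

theorem ZP_mono {ε ε' κ κ' X : ℝ} (hX : 3 ≤ X) (hε : ε ≤ ε') (hκ : κ ≤ κ') :
    ZP_set ε κ X ⊆ ZP_set ε' κ' X := by
  intro z hz
  rw [ZP_mem _ _ _ hX] at hz ⊢
  obtain ⟨h1, h2, h3, h4, h5, h6, h7⟩ := hz
  exact ⟨h1, h2.trans (Real.rpow_le_rpow_of_exponent_le (by linarith) hε), h3, h4,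
    by linarith, h6, h7⟩

theorem ZP_lt {q : ℕ} (χ : DirichletCharacter ℂ q) (ρ : ℂ) (h : EF χ ρ = 0) : ρ.re < 1 := by
  by_contra hcon
  exact EF_ne_zero χ ρ (not_lt.mp hcon) h

theorem ZP_geom (n : ℕ) (C : ℝ) (hC : 1 ≤ C) :
    ∑ j ∈ range n, Real.exp (-(C * (j : ℝ))) ≤ 2 := by
  have h1 : ∀ j : ℕ, Real.exp (-(C * (j : ℝ))) ≤ (1 / 2 : ℝ) ^ j := by
    intro j
    have h2 : Real.exp (-(C * (j : ℝ))) ≤ Real.exp (-(j : ℝ)) := by
      apply Real.exp_le_exp.mpr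
      have : (0 : ℝ) ≤ j := Nat.cast_nonneg j
      nlinarith
    have h3 : Real.exp (-(j : ℝ)) = (Real.exp (-1)) ^ j := by
      rw [← Real.exp_nat_mul]
      congr 1
      ring
    have h4 : Real.exp (-1) ≤ 1 / 2 := by
      rw [Real.exp_neg, one_div]
      apply inv_anti₀ (by norm_num)
      have := Real.add_one_le_exp (1 : ℝ)
      linarith
    rw [h3] at h2
    exact h2.trans (pow_le_pow_left₀ (Real.exp_pos _).le h4 j)
  refine (Finset.sum_le_sum fun j _ => h1 j).trans ?_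
  have h5 := Summable.sum_le_tsum (range n) (fun j _ => by positivity)
    (summable_geometric_of_lt_one (by norm_num : (0 : ℝ) ≤ 1 / 2) (by norm_num))
  rw [tsum_geometric_of_lt_one (by norm_num) (by norm_num)] at h5
  refine h5.trans ?_
  norm_num

/-- The weighted sum of `X ^ (-u / 8)` is bounded.

Proof. Let `C₃, C₄` be from `density`, `θ ≤ 1 / (16 C₄)`, `L = θ log X`. Group the zeros by `j = ⌊u L⌋`, `u = 1 - β ∈ [0, κ]`: `X ^ (-u / 8) = exp (-u L / (8 θ)) ≤ exp (-j / (8 θ)) ≤ exp (- 2 C₄ j)`, and the number with `u ≤ min κ ((j + 1) / L)` is at most `C₃ exp (C₄ (j + 1))`. So the sum is at most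
`∑_j C₃ exp (C₄) exp (-C₄ j) ≤ 2 C₃ exp C₄` (`C₄ ≥ 1`). -/
theorem density_sum [WI] [DTI] : ∃ C₆ θ₀ : ℝ, 1 ≤ C₆ ∧ 0 < θ₀ ∧ ∀ θ : ℝ, 0 < θ → θ ≤ θ₀ → ∃ ε κ X₀ : ℝ, 0 < ε ∧ 0 < κ ∧ κ ≤ 1 / 16 ∧ 3 ≤ X₀ ∧
    ∀ X : ℝ, X₀ ≤ X → ∑ r ∈ Icc 1 ⌊X ^ ε⌋₊, ∑ χ ∈ prim r, ∑ ρ ∈ ZR (EF χ) κ X,
      (mz (EF χ) ρ : ℝ) * X ^ (-((1 - ρ.re) / 8)) ≤ C₆ := by
  obtain ⟨C₃, C₄, hC₃, hC₄, hden⟩ := density
  refine ⟨2 * (C₃ * Real.exp C₄), 1 / (16 * C₄), ?_, by positivity, ?_⟩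
  · have h1 : 1 ≤ Real.exp C₄ := Real.one_le_exp (by linarith)
    nlinarith
  intro θ hθ hθ0
  have hθ1 : θ ≤ 1 := by
    refine hθ0.trans ?_
    rw [div_le_one (by positivity)]
    linarith
  obtain ⟨ε, κ, X₀, hε, hκ, hκ16, hX₀, hd⟩ := hden θ hθ hθ1
  refine ⟨ε, κ, X₀, hε, hκ, hκ16, hX₀, fun X hX => ?_⟩
  have hX3 : 3 ≤ X := hX₀.trans hX
  have hX0 : (0 : ℝ) < X := by linarith
  have hlog : 0 < Real.log X := Real.log_pos (by linarith)
  obtain ⟨L, hL⟩ : ∃ L, L = θ * Real.log X := ⟨_, rfl⟩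
  have hLpos : 0 < L := by rw [hL]; positivity
  rw [ZP_sum ε κ X (fun z => (mz (EF z.2.1) z.2.2 : ℝ) * X ^ (-((1 - z.2.2.re) / 8)))]
  have hmaps : ∀ z ∈ ZP_set ε κ X, ⌊(1 - z.2.2.re) * L⌋₊ ∈ range (⌊κ * L⌋₊ + 1) := by
    intro z hz
    rw [ZP_mem _ _ _ hX3] at hz
    rw [Finset.mem_range, Nat.lt_succ_iff]
    apply Nat.floor_le_floor
    exact mul_le_mul_of_nonneg_right (by linarith [hz.2.2.2.2.1]) hLpos.le
  rw [← Finset.sum_fiberwise_of_maps_to hmaps]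
  have hj : ∀ j ∈ range (⌊κ * L⌋₊ + 1),
      ∑ z ∈ (ZP_set ε κ X).filter (fun z => ⌊(1 - z.2.2.re) * L⌋₊ = j),
        (mz (EF z.2.1) z.2.2 : ℝ) * X ^ (-((1 - z.2.2.re) / 8)) ≤
      (C₃ * Real.exp C₄) * Real.exp (-(C₄ * (j : ℝ))) := by
    intro j _
    have hterm : ∀ z ∈ (ZP_set ε κ X).filter (fun z => ⌊(1 - z.2.2.re) * L⌋₊ = j),
        (mz (EF z.2.1) z.2.2 : ℝ) * X ^ (-((1 - z.2.2.re) / 8)) ≤
        (mz (EF z.2.1) z.2.2 : ℝ) * Real.exp (-(2 * C₄ * (j : ℝ))) := by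
      intro z hz
      rw [Finset.mem_filter] at hz
      obtain ⟨hz, hzj⟩ := hz
      rw [ZP_mem _ _ _ hX3] at hz
      have hu : 0 ≤ 1 - z.2.2.re := by linarith [hz.2.2.2.2.2.1]
      apply mul_le_mul_of_nonneg_left _ (Nat.cast_nonneg _)
      rw [Real.rpow_def_of_pos hX0]
      apply Real.exp_le_exp.mpr
      have h1 : (j : ℝ) ≤ (1 - z.2.2.re) * L := by
        rw [← hzj]
        exact Nat.floor_le (mul_nonneg hu hLpos.le)
      have h2 : 16 * C₄ * θ ≤ 1 := by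
        rw [le_div_iff₀ (by positivity)] at hθ0
        linarith
      have h3 : 2 * C₄ * ((1 - z.2.2.re) * L) ≤ (1 - z.2.2.re) * Real.log X / 8 := by
        have h4 : 0 ≤ (1 - z.2.2.re) * Real.log X := mul_nonneg hu hlog.le
        have h5 : 2 * C₄ * ((1 - z.2.2.re) * L) =
            (16 * C₄ * θ) * ((1 - z.2.2.re) * Real.log X) / 8 := by
          rw [hL]
          ring
        rw [h5]
        have h6 := mul_le_mul_of_nonneg_right h2 h4
        rw [one_mul] at h6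
        linarith
      have h7 : 2 * C₄ * (j : ℝ) ≤ 2 * C₄ * ((1 - z.2.2.re) * L) :=
        mul_le_mul_of_nonneg_left h1 (by linarith)
      have h8 : Real.log X * -((1 - z.2.2.re) / 8) = -((1 - z.2.2.re) * Real.log X / 8) := by ring
      rw [h8]
      linarith
    refine (Finset.sum_le_sum hterm).trans ?_
    rw [← Finset.sum_mul]
    have hη0 : 0 ≤ min κ (((j : ℝ) + 1) / L) := le_min hκ.le (by positivity)
    have hcount := hd X hX (min κ (((j : ℝ) + 1) / L)) hη0 (min_le_left _ _)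
    rw [ZP_sum ε (min κ (((j : ℝ) + 1) / L)) X (fun z => (mz (EF z.2.1) z.2.2 : ℝ))] at hcount
    have hsub : (ZP_set ε κ X).filter (fun z => ⌊(1 - z.2.2.re) * L⌋₊ = j) ⊆
        ZP_set ε (min κ (((j : ℝ) + 1) / L)) X := by
      intro z hz
      rw [Finset.mem_filter] at hz
      obtain ⟨hz, hzj⟩ := hz
      rw [ZP_mem _ _ _ hX3] at hz ⊢
      obtain ⟨h1, h2, h3, h4, h5, h6, h7⟩ := hz
      refine ⟨h1, h2, h3, h4, ?_, h6, h7⟩
      have h8 : 1 - z.2.2.re ≤ ((j : ℝ) + 1) / L := by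
        rw [le_div_iff₀ hLpos, ← hzj]
        exact (Nat.lt_floor_add_one _).le
      have h9 : 1 - z.2.2.re ≤ min κ (((j : ℝ) + 1) / L) := le_min (by linarith) h8
      linarith
    have hle : ∑ z ∈ (ZP_set ε κ X).filter (fun z => ⌊(1 - z.2.2.re) * L⌋₊ = j),
        (mz (EF z.2.1) z.2.2 : ℝ) ≤ C₃ * Real.exp (C₄ * ((j : ℝ) + 1)) := by
      refine (Finset.sum_le_sum_of_subset_of_nonneg hsub fun z _ _ => Nat.cast_nonneg _).trans ?_
      refine hcount.trans ?_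
      apply mul_le_mul_of_nonneg_left _ (by linarith)
      apply Real.exp_le_exp.mpr
      apply mul_le_mul_of_nonneg_left _ (by linarith)
      rw [← hL]
      have h1 := min_le_right κ (((j : ℝ) + 1) / L)
      have h2 := mul_le_mul_of_nonneg_right h1 hLpos.le
      rwa [div_mul_cancel₀ _ hLpos.ne'] at h2
    refine (mul_le_mul_of_nonneg_right hle (Real.exp_pos _).le).trans (le_of_eq ?_)
    have hE : Real.exp (C₄ * ((j : ℝ) + 1)) * Real.exp (-(2 * C₄ * (j : ℝ))) =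
        Real.exp C₄ * Real.exp (-(C₄ * (j : ℝ))) := by
      rw [← Real.exp_add, ← Real.exp_add]
      congr 1
      ring
    rw [mul_assoc C₃, hE]
    ring
  refine (Finset.sum_le_sum hj).trans ?_
  rw [← Finset.mul_sum]
  have h1 := ZP_geom (⌊κ * L⌋₊ + 1) C₄ hC₄
  have h2 : 0 ≤ C₃ * Real.exp C₄ := mul_nonneg (by linarith) (Real.exp_pos _).le
  have h3 := mul_le_mul_of_nonneg_left h1 h2
  linarith

/-- **The zero package.**

Proof. Let `c₁` be from `ZFR`, `CF` from `DH c₁`, `C₆, θ₀` from `density_sum`, `c₂ = min c₁ (1 / (4 CF))`. The parameter `θ` is chosen small: `θ ≤ min θ₀ (1/65)`, `8 CF θ ≤ 1`, `C₆ (CF θ) ^ (1 / (8 CF θ)) ≤ η` and `C₆ exp (-c₂ / (8 θ)) ≤ η` (both tend to `0` with `θ`). Let `ε, κ` be the minima of those of `ZFR θ`, `DH`, `density_sum`, `X` large, `L = θ log X`.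
If every zero in the sum has `u = 1 - ρ.re ≥ c₂ / L`: `X ^ (-u/4) ≤ exp (-c₂ / (8 θ)) X ^ (-u / 8)`, so `Wt ≤ exp (-c₂ / (8 θ)) C₆ ≤ η`: first alternative.
Otherwise there is a primitive `χ` modulo `r ≤ X ^ ε` and a zero with `u < c₂ / L ≤ c₁ / L`; by `ZFR` it is real, `ρ = β`, `χ ≠ 1`, `χ ^ 2 = 1` (so `r > 1`, as there is only the principal character modulo `1`), and `mz = 1` by the second part of `ZFR`; moreover every other zero `ρ'` of `EF χ` with `|Im ρ'| ≤ X` has `‖1 - ρ'‖ ≥ 1 - Re ρ' ≥ c₁ / L`: if it is not real or not in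
the region this is the first part, and if it were real with `1 - β' < c₁ / L` the sum in the second part would be at least `2` (`mz_pos`). So `DH` applies with `δ = 1 - β`, `λ = δ log X < c₂ / θ`: every other zero (of all the characters) satisfies `1 ≤ CF θ λ X ^ (CF θ u)`.
(a) `λ ≤ 1`: `X ^ (-u/8) ≤ (CF θ λ) ^ (1 / (8 CF θ)) ≤ (CF θ) ^ (1 / (8 CF θ)) λ` as `1 / (8 CF θ) ≥ 1`. So `Wt - X ^ (-δ/4) = ∑' m X ^ (-u/8) X ^ (-u/8) ≤ (CF θ) ^ (1 / (8 CF θ)) λ C₆ ≤ η λ`.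
(b) `λ > 1`: `CF θ λ ≤ CF c₂ ≤ 1 / 4`, so `X ^ (CF θ u) ≥ 4`, `u ≥ log 4 / (CF θ log X) ≥ c₂ / L`, `X ^ (-u / 8) ≤ exp (-c₂ / (8 θ))`, and the sum over the other zeros is at most `η`.
In both cases it is at most `η min 1 λ`. `K = c₂ / θ`: `λ = (1 - β) log X < c₂ / θ`. (The term of the zero `β` itself, with `mz = 1`, is removed from the sum.) `X ^ (-((1-β)/4))`. -/
theorem zero_package [WI] [DTI] (η : ℝ) (hη : 0 < η) : ∃ ε κ K X₀ : ℝ, 0 < ε ∧ ε ≤ 1 ∧ 0 < κ ∧ κ ≤ 1 / 16 ∧ 0 < K ∧ 3 ≤ X₀ ∧ ∀ X : ℝ, X₀ ≤ X →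
    (Wt ε κ X ≤ η ∨ ∃ (r : ℕ) (χ : DirichletCharacter ℂ r) (β : ℝ), 1 < r ∧ (r : ℝ) ≤ X ^ ε ∧ χ.IsPrimitive ∧ χ ≠ 1 ∧
      χ ^ 2 = 1 ∧ 1 - κ ≤ β ∧ β < 1 ∧ EF χ (β : ℂ) = 0 ∧ mz (EF χ) (β : ℂ) = 1 ∧
      (1 - β) * Real.log X ≤ K ∧
      Wt ε κ X - X ^ (-((1 - β) / 4)) ≤ η * min 1 ((1 - β) * Real.log X)) := by
  classical
  obtain ⟨c₁, hc₁, hc₁1, hZFR⟩ := ZFR
  obtain ⟨CF, hCF, hDH⟩ := DH c₁ hc₁
  obtain ⟨C₆, θ₀, hC₆, hθ₀, hdens⟩ := density_sum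
  obtain ⟨c₂, hc₂⟩ : ∃ c₂, c₂ = min c₁ (1 / (4 * CF)) := ⟨_, rfl⟩
  have hc₂pos : 0 < c₂ := by rw [hc₂]; exact lt_min hc₁ (by positivity)
  have hc₂1 : c₂ ≤ c₁ := by rw [hc₂]; exact min_le_left _ _
  have hc₂2 : CF * c₂ ≤ 1 / 4 := by
    have h1 : c₂ ≤ 1 / (4 * CF) := by rw [hc₂]; exact min_le_right _ _
    rw [le_div_iff₀ (by positivity)] at h1
    linarith
  obtain ⟨θ, hθ⟩ : ∃ θ, θ = min (min θ₀ (1 / 65)) (min (1 / (8 * CF))
    (min (η / (C₆ * CF)) (η * c₂ / (8 * C₆)))) := ⟨_, rfl⟩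
  have hθpos : 0 < θ := by
    rw [hθ]
    exact lt_min (lt_min hθ₀ (by norm_num)) (lt_min (by positivity)
      (lt_min (by positivity) (by positivity)))
  have hθa : θ ≤ θ₀ := by rw [hθ]; exact (min_le_left _ _).trans (min_le_left _ _)
  have hθb : θ ≤ 1 / 65 := by rw [hθ]; exact (min_le_left _ _).trans (min_le_right _ _)
  have hθc : CF * θ ≤ 1 / 8 := by
    have h1 : θ ≤ 1 / (8 * CF) := by rw [hθ]; exact (min_le_right _ _).trans (min_le_left _ _)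
    rw [le_div_iff₀ (by positivity)] at h1
    linarith
  have hθd : CF * θ * C₆ ≤ η := by
    have h1 : θ ≤ η / (C₆ * CF) := by
      rw [hθ]
      exact (min_le_right _ _).trans ((min_le_right _ _).trans (min_le_left _ _))
    rw [le_div_iff₀ (by positivity)] at h1
    linarith
  have hθe : Real.exp (-(c₂ / (8 * θ))) * C₆ ≤ η := by
    have h1 : θ ≤ η * c₂ / (8 * C₆) := by
      rw [hθ]
      exact (min_le_right _ _).trans ((min_le_right _ _).trans (min_le_right _ _))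
    rw [le_div_iff₀ (by positivity)] at h1
    have h2 : Real.exp (-(c₂ / (8 * θ))) ≤ 8 * θ / c₂ := by
      rw [Real.exp_neg]
      have h3 : c₂ / (8 * θ) ≤ Real.exp (c₂ / (8 * θ)) := by
        have := Real.add_one_le_exp (c₂ / (8 * θ))
        linarith
      have h4 := inv_anti₀ (by positivity) h3
      rwa [inv_div] at h4
    refine (mul_le_mul_of_nonneg_right h2 (by linarith)).trans ?_
    rw [div_mul_eq_mul_div, div_le_iff₀ hc₂pos]
    linarith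
  obtain ⟨ε₁, X₁, hε₁, hε₁1, hX₁, hZ⟩ := hZFR θ hθpos (by linarith)
  obtain ⟨ε₂, κ₂, X₂, hε₂, hκ₂, hκ₂16, hX₂, hD⟩ := hDH θ hθpos hθb
  obtain ⟨ε₃, κ₃, X₃, hε₃, hκ₃, hκ₃16, hX₃, hS⟩ := hdens θ hθpos hθa
  obtain ⟨ε, hε⟩ : ∃ ε, ε = min ε₁ (min ε₂ ε₃) := ⟨_, rfl⟩
  obtain ⟨κ, hκ⟩ : ∃ κ, κ = min κ₂ κ₃ := ⟨_, rfl⟩
  have hεa : ε ≤ ε₁ := by rw [hε]; exact min_le_left _ _
  have hεb : ε ≤ ε₂ := by rw [hε]; exact (min_le_right _ _).trans (min_le_left _ _)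
  have hεc : ε ≤ ε₃ := by rw [hε]; exact (min_le_right _ _).trans (min_le_right _ _)
  have hκa : κ ≤ κ₂ := by rw [hκ]; exact min_le_left _ _
  have hκb : κ ≤ κ₃ := by rw [hκ]; exact min_le_right _ _
  have hκpos : 0 < κ := by rw [hκ]; exact lt_min hκ₂ hκ₃
  refine ⟨ε, κ, c₂ / θ, max X₁ (max X₂ X₃), by rw [hε]; exact lt_min hε₁ (lt_min hε₂ hε₃),
    hεa.trans hε₁1, hκpos, hκa.trans hκ₂16, div_pos hc₂pos hθpos, hX₁.trans (le_max_left _ _),
    fun X hX => ?_⟩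
  have hXa : X₁ ≤ X := (le_max_left _ _).trans hX
  have hXb : X₂ ≤ X := ((le_max_left _ _).trans (le_max_right _ _)).trans hX
  have hXc : X₃ ≤ X := ((le_max_right _ _).trans (le_max_right _ _)).trans hX
  have hX3 : 3 ≤ X := hX₁.trans hXa
  have hX0 : (0 : ℝ) < X := by linarith
  have hlog : 0 < Real.log X := Real.log_pos (by linarith)
  have hLpos : 0 < θ * Real.log X := by positivity
  have hexp : ∀ ε', ε ≤ ε' → X ^ ε ≤ X ^ ε' := fun ε' h =>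
    Real.rpow_le_rpow_of_exponent_le (by linarith) h
  -- the bounded sum
  have hsum : ∑ z ∈ ZP_set ε κ X,
      (mz (EF z.2.1) z.2.2 : ℝ) * X ^ (-((1 - z.2.2.re) / 8)) ≤ C₆ := by
    have h1 := hS X hXc
    rw [ZP_sum ε₃ κ₃ X (fun z => (mz (EF z.2.1) z.2.2 : ℝ) * X ^ (-((1 - z.2.2.re) / 8)))] at h1
    refine (Finset.sum_le_sum_of_subset_of_nonneg (ZP_mono hX3 hεc hκb) fun z _ _ => ?_).trans h1
    positivity
  have hWt : Wt ε κ X = ∑ z ∈ ZP_set ε κ X,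
      (mz (EF z.2.1) z.2.2 : ℝ) * X ^ (-((1 - z.2.2.re) / 4)) := by
    unfold Wt
    rw [ZP_sum ε κ X (fun z => (mz (EF z.2.1) z.2.2 : ℝ) * X ^ (-((1 - z.2.2.re) / 4)))]
  -- a subset on which the weights are small
  have hsmall : ∀ (S : Finset (Σ r : ℕ, Σ _ : DirichletCharacter ℂ r, ℂ)) (c : ℝ), 0 ≤ c →
      S ⊆ ZP_set ε κ X → (∀ z ∈ S, X ^ (-((1 - z.2.2.re) / 8)) ≤ c) →
      ∑ z ∈ S, (mz (EF z.2.1) z.2.2 : ℝ) * X ^ (-((1 - z.2.2.re) / 4)) ≤ c * C₆ := by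
    intro S c hc hSsub hSc
    have h1 : ∀ z ∈ S, (mz (EF z.2.1) z.2.2 : ℝ) * X ^ (-((1 - z.2.2.re) / 4)) ≤
        c * ((mz (EF z.2.1) z.2.2 : ℝ) * X ^ (-((1 - z.2.2.re) / 8))) := by
      intro z hz
      have h2 : X ^ (-((1 - z.2.2.re) / 4)) =
          X ^ (-((1 - z.2.2.re) / 8)) * X ^ (-((1 - z.2.2.re) / 8)) := by
        rw [← Real.rpow_add hX0]
        congr 1
        ring
      rw [h2]
      have h3 : 0 ≤ (mz (EF z.2.1) z.2.2 : ℝ) * X ^ (-((1 - z.2.2.re) / 8)) := by positivity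
      have h4 := mul_le_mul_of_nonneg_left (hSc z hz) h3
      linarith
    refine (Finset.sum_le_sum h1).trans ?_
    rw [← Finset.mul_sum]
    apply mul_le_mul_of_nonneg_left _ hc
    refine (Finset.sum_le_sum_of_subset_of_nonneg hSsub fun z _ _ => ?_).trans hsum
    positivity
  have hbig : ∀ u : ℝ, c₂ / θ ≤ u * Real.log X → X ^ (-(u / 8)) ≤ Real.exp (-(c₂ / (8 * θ))) := by
    intro u hu
    rw [Real.rpow_def_of_pos hX0]
    apply Real.exp_le_exp.mpr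
    have h1 : c₂ / (8 * θ) = (c₂ / θ) / 8 := by
      field_simp
    rw [h1]
    have h2 : Real.log X * -(u / 8) = -(u * Real.log X / 8) := by ring
    rw [h2]
    linarith
  by_cases hA : ∀ z ∈ ZP_set ε κ X, c₂ / (θ * Real.log X) ≤ 1 - z.2.2.re
  · left
    rw [hWt]
    refine (hsmall _ (Real.exp (-(c₂ / (8 * θ)))) (Real.exp_pos _).le (Finset.Subset.refl _)
      fun z hz => ?_).trans hθe
    apply hbig
    have h1 := hA z hz
    rw [div_le_iff₀ hLpos] at h1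
    rw [div_le_iff₀ hθpos]
    linarith
  · right
    push Not at hA
    obtain ⟨z₀, hz₀, hu₀⟩ := hA
    obtain ⟨r, χ, ρ₀⟩ := z₀
    have hz₀' := hz₀
    rw [ZP_mem _ _ _ hX3] at hz₀'
    simp only at hz₀' hu₀
    obtain ⟨hr1, hrX, hprim, hEF, hre1, hre2, him⟩ := hz₀'
    have hcc : c₂ / (θ * Real.log X) ≤ c₁ / (θ * Real.log X) :=
      div_le_div_of_nonneg_right hc₂1 hLpos.le
    obtain ⟨hZ1, hZ2⟩ := hZ X hXa r hr1 (hrX.trans (hexp ε₁ hεa)) χ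
    have hcase := hZ1 ρ₀ hEF him
    rcases hcase with hcase | ⟨hχ1, hχ2, him0⟩
    · exfalso
      linarith
    have hρ₀ : ((ρ₀.re : ℝ) : ℂ) = ρ₀ := by
      apply Complex.ext
      · simp
      · simp [him0]
    have hβ1 : ρ₀.re < 1 := ZP_lt χ ρ₀ hEF
    have hmem0 : ρ₀ ∈ ZR (EF χ) (c₁ / (θ * Real.log X)) 0 := by
      rw [mem_ZR _ (EF_diff χ) (ZP_ne χ)]
      refine ⟨hEF, by linarith, hre2, ?_⟩
      rw [him0, abs_zero]
    have hZ2' := hZ2 hχ1 hχ2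
    have hmz1 := mz_pos (EF χ) (EF_diff χ) (ZP_ne χ) ρ₀ hEF
    have hmz : mz (EF χ) ρ₀ = 1 := by
      apply le_antisymm _ hmz1
      exact (Finset.single_le_sum (f := fun ρ => mz (EF χ) ρ) (fun _ _ => Nat.zero_le _)
        hmem0).trans hZ2'
    have hother : ∀ ρ' : ℂ, EF χ ρ' = 0 → |ρ'.im| ≤ X → ρ' ≠ (ρ₀.re : ℂ) →
        c₁ / (θ * Real.log X) ≤ ‖1 - ρ'‖ := by
      intro ρ' h1 h2 h3
      have hre : 1 - ρ'.re ≤ ‖1 - ρ'‖ := by
        have h4 := Complex.abs_re_le_norm (1 - ρ')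
        have h5 := le_abs_self (1 - ρ').re
        rw [Complex.sub_re, Complex.one_re] at h4 h5
        linarith
      rcases hZ1 ρ' h1 h2 with h4 | ⟨_, _, h5⟩
      · linarith
      · by_contra hcon
        push Not at hcon
        have hmem1 : ρ' ∈ ZR (EF χ) (c₁ / (θ * Real.log X)) 0 := by
          rw [mem_ZR _ (EF_diff χ) (ZP_ne χ)]
          refine ⟨h1, by linarith, (ZP_lt χ ρ' h1).le, ?_⟩
          rw [h5, abs_zero]
        have hne : ρ' ≠ ρ₀ := by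
          rw [hρ₀] at h3
          exact h3
        have hsub : ({ρ', ρ₀} : Finset ℂ) ⊆ ZR (EF χ) (c₁ / (θ * Real.log X)) 0 := by
          intro w hw
          rw [Finset.mem_insert, Finset.mem_singleton] at hw
          rcases hw with rfl | rfl
          · exact hmem1
          · exact hmem0
        have h6 := Finset.sum_le_sum_of_subset (f := fun ρ => mz (EF χ) ρ) hsub
        rw [Finset.sum_pair hne] at h6
        have h7 := mz_pos (EF χ) (EF_diff χ) (ZP_ne χ) ρ' h1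
        omega
    have hr : 1 < r := by
      rcases Nat.lt_or_ge 1 r with h | h
      · exact h
      · exfalso
        have h1 : r = 1 := by omega
        subst h1
        exact hχ1 (DirichletCharacter.level_one χ)
    have hEFβ : EF χ (ρ₀.re : ℂ) = 0 := by rw [hρ₀]; exact hEF
    have hDHz : ∀ z ∈ (ZP_set ε κ X).erase ⟨r, ⟨χ, ρ₀⟩⟩,
        1 ≤ CF * (θ * ((1 - ρ₀.re) * Real.log X)) * X ^ (CF * (θ * (1 - z.2.2.re))) := by
      intro z hz
      rw [Finset.mem_erase] at hz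
      obtain ⟨hzne, hz⟩ := hz
      rw [ZP_mem _ _ _ hX3] at hz
      obtain ⟨h1, h2, h3, h4, h5, h6, h7⟩ := hz
      refine hD X hXb r χ hr1 (hrX.trans (hexp ε₂ hεb)) hprim hχ1 hχ2 ρ₀.re (by linarith) hβ1 hEFβ
        hother z.1 z.2.1 h1 (h2.trans (hexp ε₂ hεb)) h3 z.2.2 h4 (by linarith) h7 ?_
      by_contra hcon
      push Not at hcon
      apply hzne
      obtain ⟨q, ψ, w⟩ := z
      simp only at hcon
      obtain ⟨e1, e2⟩ := hcon
      rw [Sigma.mk.injEq] at e1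
      obtain ⟨rfl, e3⟩ := e1
      rw [heq_eq_eq] at e3
      subst e3
      rw [e2, hρ₀]
    have hdiff : Wt ε κ X - X ^ (-((1 - ρ₀.re) / 4)) =
        ∑ z ∈ (ZP_set ε κ X).erase ⟨r, ⟨χ, ρ₀⟩⟩,
          (mz (EF z.2.1) z.2.2 : ℝ) * X ^ (-((1 - z.2.2.re) / 4)) := by
      rw [hWt, ← Finset.add_sum_erase _ _ hz₀]
      simp only
      rw [hmz, Nat.cast_one, one_mul]
      ring
    have hK : (1 - ρ₀.re) * Real.log X ≤ c₂ / θ := by
      rw [lt_div_iff₀ hLpos] at hu₀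
      rw [le_div_iff₀ hθpos]
      linarith
    refine ⟨r, χ, ρ₀.re, hr, hrX, hprim, hχ1, hχ2, hre1, hβ1, hEFβ, by rw [hρ₀]; exact hmz, hK,
      ?_⟩
    rw [hdiff]
    obtain ⟨lam, hlam⟩ : ∃ lam, lam = (1 - ρ₀.re) * Real.log X := ⟨_, rfl⟩
    rw [← hlam] at hDHz ⊢
    have hlampos : 0 < lam := by rw [hlam]; exact mul_pos (by linarith) hlog
    have hCFθ : 0 < CF * θ := by positivity
    by_cases hl : lam ≤ 1
    · rw [min_eq_right hl]
      refine (hsmall _ (CF * θ * lam) (by positivity) (Finset.erase_subset _ _)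
        fun z hz => ?_).trans ?_
      · have h1 := hDHz z hz
        rw [Finset.mem_erase] at hz
        have hz2 := hz.2
        rw [ZP_mem _ _ _ hX3] at hz2
        have hu : 0 ≤ 1 - z.2.2.re := by linarith [hz2.2.2.2.2.2.1]
        have h2 : X ^ (-((1 - z.2.2.re) / 8)) ≤ X ^ (-(CF * (θ * (1 - z.2.2.re)))) := by
          apply Real.rpow_le_rpow_of_exponent_le (by linarith)
          have h3 := mul_le_mul_of_nonneg_right hθc hu
          linarith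
        refine h2.trans ?_
        rw [Real.rpow_neg hX0.le]
        have h4 : 0 < X ^ (CF * (θ * (1 - z.2.2.re))) := Real.rpow_pos_of_pos hX0 _
        rw [inv_le_iff_one_le_mul₀ h4]
        linarith
      · have h1 := mul_le_mul_of_nonneg_right hθd hlampos.le
        linarith
    · push Not at hl
      rw [min_eq_left hl.le, mul_one]
      refine (hsmall _ (Real.exp (-(c₂ / (8 * θ)))) (Real.exp_pos _).le (Finset.erase_subset _ _)
        fun z hz => ?_).trans hθe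
      apply hbig
      have h1 := hDHz z hz
      have hlam2 : θ * lam ≤ c₂ := by
        have h2 : (1 - ρ₀.re) * (θ * Real.log X) ≤ c₂ := by
          rw [lt_div_iff₀ hLpos] at hu₀
          exact hu₀.le
        rw [hlam]
        linarith
      have h3 : CF * (θ * lam) ≤ 1 / 4 := by
        have := mul_le_mul_of_nonneg_left hlam2 (by linarith : (0 : ℝ) ≤ CF)
        linarith
      have h4 : 0 < X ^ (CF * (θ * (1 - z.2.2.re))) := Real.rpow_pos_of_pos hX0 _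
      have h5 : 4 ≤ X ^ (CF * (θ * (1 - z.2.2.re))) := by
        have := mul_le_mul_of_nonneg_right h3 h4.le
        linarith
      rw [Real.rpow_def_of_pos hX0] at h5
      have h6 : 1 ≤ Real.log X * (CF * (θ * (1 - z.2.2.re))) := by
        by_contra hcon
        push Not at hcon
        have h7 := Real.exp_lt_exp.mpr hcon
        have h8 := Real.exp_one_lt_d9
        linarith
      rw [div_le_iff₀ hθpos]
      have h9 : 4 * (CF * c₂) ≤ CF * ((1 - z.2.2.re) * Real.log X * θ) := by linarith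
      have h10 : CF * (4 * c₂) ≤ CF * ((1 - z.2.2.re) * Real.log X * θ) := by linarith
      have h11 := le_of_mul_le_mul_left h10 (by linarith)
      linarith

end Pool.Agent.PSG
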