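import Pool.Agent.W_b58c63_h44.FN
import Pool.Agent.W_b58c63_h44.MS
import Pool.Agent.W_b58c63_h44.FS
import Pool.Agent.W_b58c63_h44.ZP
import Pool.Agent.W_b58c63_h44.EX
import Pool.Agent.W_b58c63_h44.DetP
import Pool.Agent.W_b58c63_h44.WTail

/-!
# The power saving theorem in elementary terms
-/

set_option autoImplicit false

namespace Pool.Agent.PSG

instance instWI : WI where
  weyl_tail := weyl_tail
  weyl_wt := weyl_wt

instance instSEI : SEI where
  smooth_explicit := smooth_explicit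

instance instDTI : DTI where
  detect_primes := detect_primes

instance instMDI : MDI where
  mean_diff := mean_diff

instance instZPI : ZPI where
  zero_package := zero_package

instance instFSI : FSI where
  F_sup := F_sup

/-- The final statement. -/
theorem res_main : ∀ ε : ℝ, 0 < ε → ∃ δ C : ℝ, 0 < δ ∧ ∀ X : ℕ, 1 ≤ X →
    (Set.ncard {n : ℕ | 1 ≤ n ∧ n ≤ X ∧
      (Set.ncard {p : ℕ | p.Prime ∧ (2 * n - p).Prime ∧ p ≠ 2 * n - p ∧ Real.sqrt (2 * n) < p ∧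
        (p : ℝ) < 4 * Real.sqrt (2 * n)} : ℝ) < (2 * n : ℝ) ^ (1 / 2 - ε)} : ℝ) ≤ C * (X : ℝ) ^ (1 - δ) := by
  classical
  intro ε hε
  obtain ⟨δ, C, hδ, _, h⟩ := power_saving ε hε
  refine ⟨δ, C, hδ, fun X hX => ?_⟩
  have h1 := h X (by exact_mod_cast hX)
  rw [Nat.floor_natCast] at h1
  have h2 : ∀ n : ℕ, {p : ℕ | p.Prime ∧ (2 * n - p).Prime ∧ p ≠ 2 * n - p ∧ Real.sqrt (2 * n) < p ∧
        (p : ℝ) < 4 * Real.sqrt (2 * n)} = (RC (2 * n) : Set ℕ) := by
    intro n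
    ext p
    simp only [RC, Set.mem_setOf_eq, Finset.coe_filter, Finset.mem_range, Nat.cast_mul, Nat.cast_ofNat]
    constructor
    · rintro ⟨a, b, c, d, e⟩
      refine ⟨?_, a, b, c, d, e⟩
      by_contra hh
      have : 2 * n - p = 0 := by omega
      rw [this] at b
      exact Nat.not_prime_zero b
    · rintro ⟨_, a, b, c, d, e⟩
      exact ⟨a, b, c, d, e⟩
  have h3 : {n : ℕ | 1 ≤ n ∧ n ≤ X ∧
      (Set.ncard {p : ℕ | p.Prime ∧ (2 * n - p).Prime ∧ p ≠ 2 * n - p ∧ Real.sqrt (2 * n) < p ∧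
        (p : ℝ) < 4 * Real.sqrt (2 * n)} : ℝ) < (2 * n : ℝ) ^ (1 / 2 - ε)} =
      (((Finset.Icc 1 X).filter fun n : ℕ => ((RC (2 * n)).card : ℝ) < ((2 * n : ℕ) : ℝ) ^ (1 / 2 - ε) : Finset ℕ) :
        Set ℕ) := by
    ext n
    simp only [h2, Set.ncard_coe_finset, Set.mem_setOf_eq, Finset.coe_filter, Finset.mem_Icc,
      Nat.cast_mul, Nat.cast_ofNat]
    tauto
  rw [h3, Set.ncard_coe_finset]
  convert h1

end Pool.Agent.PSG
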