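import Pool.Agent.W_b58c63_h44.TK

/-!
# The singular series
-/

set_option autoImplicit false

noncomputable section

open Finset Complex

namespace Pool.Agent.PSG

/-- The partial sum of the singular series. -/
def sgl (Q r N : ℕ) : ℝ := ∑ k ∈ KK Q r, cR k N / (k.totient : ℝ) ^ 2

open Classical in
/-- The term of the singular series. -/
def sgt (r N k : ℕ) : ℝ := if Squarefree k ∧ k.Coprime r then cR k N / (k.totient : ℝ) ^ 2 else 0

/-- The singular series. -/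
def sgi (r N : ℕ) : ℝ := ∑' k : ℕ, sgt r N k

/-- Proof. `N / φ(N) = ∑_{d ∣ N} μ(d) ^ 2 / φ(d) ≤ ∑_{d ≤ N} μ(d) ^ 2 / φ(d) ≤ C (1 + log N)` (`sum_inv_totient` of `ArA.lean`). -/
theorem ratio_le : ∃ C : ℝ, 1 ≤ C ∧ ∀ N : ℕ, 1 ≤ N → (N : ℝ) / N.totient ≤ C * (1 + Real.log N) := by
  obtain ⟨C, hC, h⟩ := Pool.Agent.Wb58c63.sum_inv_totient
  refine ⟨max C 1, le_max_right _ _, fun N hN => ?_⟩
  have hlog : 0 ≤ 1 + Real.log N := by
    have := Real.log_natCast_nonneg N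
    linarith
  have hN0 : (N : ℝ) ≠ 0 := by
    have : N ≠ 0 := by omega
    exact_mod_cast this
  have e : (N : ℝ) / N.totient = ∑ d ∈ N.divisors.filter Squarefree, (1 : ℝ) / d.totient := by
    have := Pool.Agent.Wb58c63.inv_totient N hN
    rw [div_eq_mul_one_div, this]
    field_simp
  rw [e]
  calc ∑ d ∈ N.divisors.filter Squarefree, (1 : ℝ) / d.totient
      ≤ ∑ d ∈ Icc 1 N, (1 : ℝ) / d.totient := by
        apply Finset.sum_le_sum_of_subset_of_nonneg
        · intro d hd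
          rw [Finset.mem_filter, Nat.mem_divisors] at hd
          rw [Finset.mem_Icc]
          exact ⟨Nat.pos_of_dvd_of_pos hd.1.1 (by omega), Nat.le_of_dvd (by omega) hd.1.1⟩
        · intro _ _ _
          positivity
    _ ≤ C * (1 + Real.log N) := h N hN
    _ ≤ max C 1 * (1 + Real.log N) := mul_le_mul_of_nonneg_right (le_max_left _ _) hlog

/-- The local factor of the absolute series. -/
def SG_g (N p : ℕ) : ℝ := if p ∣ N then 1 / ((p : ℝ) - 1) else 1 / ((p : ℝ) - 1) ^ 2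

/-- The factors of the ratio. -/
def SG_h (N p : ℕ) : ℝ := if p ∣ N then (p : ℝ) / ((p : ℝ) - 1) else 1

theorem SG_two {p : ℕ} (hp : p.Prime) : (2 : ℝ) ≤ p := by exact_mod_cast hp.two_le

theorem SG_pf {k p : ℕ} (h : p ∈ k.primeFactors) : p.Prime := Nat.prime_of_mem_primeFactors h

theorem SG_g_nonneg {N p : ℕ} (hp : p.Prime) : 0 ≤ SG_g N p := by
  have := SG_two hp
  have h1 : 0 ≤ (p : ℝ) - 1 := by linarith
  unfold SG_g
  split_ifs <;> positivity

theorem SG_h_one_le {N p : ℕ} (hp : p.Prime) : 1 ≤ SG_h N p := by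
  have := SG_two hp
  unfold SG_h
  split_ifs
  · rw [le_div_iff₀ (by linarith)]
    linarith
  · exact le_rfl

theorem SG_one_le (S : Finset ℕ) (f : ℕ → ℝ) (h : ∀ p ∈ S, 1 ≤ f p) : 1 ≤ ∏ p ∈ S, f p := by
  calc (1 : ℝ) = ∏ _p ∈ S, (1 : ℝ) := by simp
    _ ≤ ∏ p ∈ S, f p := Finset.prod_le_prod (fun _ _ => zero_le_one) h

theorem SG_subset {S T : Finset ℕ} (hST : S ⊆ T) (f : ℕ → ℝ) (h : ∀ p ∈ T, 1 ≤ f p) :
    ∏ p ∈ S, f p ≤ ∏ p ∈ T, f p := by
  classical
  rw [← Finset.prod_sdiff hST]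
  have h1 : 1 ≤ ∏ p ∈ T \ S, f p := SG_one_le _ _ fun p hp => h p (Finset.mem_sdiff.1 hp).1
  have h2 : 0 ≤ ∏ p ∈ S, f p := Finset.prod_nonneg fun p hp => zero_le_one.trans (h p (hST hp))
  nlinarith

theorem SG_prod (g : ℕ → ℝ) (P : Finset ℕ) (hg : ∀ p ∈ P, 0 ≤ g p) (A : Finset ℕ)
    (hA : ∀ k ∈ A, Squarefree k ∧ k.primeFactors ⊆ P) :
    ∑ k ∈ A, ∏ p ∈ k.primeFactors, g p ≤ ∏ p ∈ P, (1 + g p) := by
  classical
  rw [Finset.prod_one_add]
  have hinj : Set.InjOn Nat.primeFactors (A : Set ℕ) := by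
    intro a ha b hb hab
    rw [← Nat.prod_primeFactors_of_squarefree (hA a ha).1,
      ← Nat.prod_primeFactors_of_squarefree (hA b hb).1, hab]
  rw [← Finset.sum_image (f := fun t => ∏ p ∈ t, g p) hinj]
  apply Finset.sum_le_sum_of_subset_of_nonneg
  · intro t ht
    rw [Finset.mem_image] at ht
    obtain ⟨k, hk, rfl⟩ := ht
    exact Finset.mem_powerset.2 (hA k hk).2
  · intro t ht _
    exact Finset.prod_nonneg fun p hp => hg p (Finset.mem_powerset.1 ht hp)

theorem SG_tot {k : ℕ} (hk : Squarefree k) : (k.totient : ℝ) = ∏ p ∈ k.primeFactors, ((p : ℝ) - 1) := by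
  conv_lhs => rw [← Nat.prod_primeFactors_of_squarefree hk]
  exact Pool.Agent.Wb58c63.ArA_totient_prod _ fun q hq => SG_pf hq

theorem SG_gcd {k N : ℕ} (hk : Squarefree k) (hN : 1 ≤ N) :
    ((Nat.gcd k N).totient : ℝ) = ∏ p ∈ k.primeFactors, (if p ∣ N then (p : ℝ) - 1 else 1) := by
  rw [SG_tot (hk.squarefree_of_dvd (Nat.gcd_dvd_left k N)), Nat.primeFactors_gcd hk.ne_zero (by omega),
    ← Finset.prod_filter]
  apply Finset.prod_congr _ fun _ _ => rfl
  ext p
  rw [Finset.mem_inter, Finset.mem_filter, Nat.mem_primeFactors, Nat.mem_primeFactors]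
  constructor
  · rintro ⟨h1, h2⟩
    exact ⟨h1, h2.2.1⟩
  · rintro ⟨h1, h2⟩
    exact ⟨h1, h1.1, h2, by omega⟩

theorem SG_term {k N : ℕ} (hk : Squarefree k) (hN : 1 ≤ N) :
    ((Nat.gcd k N).totient : ℝ) / (k.totient : ℝ) ^ 2 = ∏ p ∈ k.primeFactors, SG_g N p := by
  rw [SG_gcd hk hN, SG_tot hk, ← Finset.prod_pow, ← Finset.prod_div_distrib]
  apply Finset.prod_congr rfl
  intro p hp
  have h1 := SG_two (SG_pf hp)
  have h2 : (p : ℝ) - 1 ≠ 0 := by linarith
  unfold SG_g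
  split_ifs
  · field_simp
  · rfl

theorem SG_ratio {N : ℕ} (hN : 1 ≤ N) : (N : ℝ) / N.totient = ∏ p ∈ N.primeFactors, ((p : ℝ) / ((p : ℝ) - 1)) := by
  have h := Nat.totient_mul_prod_primeFactors N
  have h' : (N.totient : ℝ) * ∏ p ∈ N.primeFactors, (p : ℝ) = N * ∏ p ∈ N.primeFactors, ((p : ℝ) - 1) := by
    have h2 : ∏ p ∈ N.primeFactors, ((p : ℝ) - 1) = ((∏ p ∈ N.primeFactors, (p - 1) : ℕ) : ℝ) := by
      push_cast
      apply Finset.prod_congr rfl
      intro p hp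
      rw [Nat.cast_sub (SG_pf hp).one_le]
      simp
    rw [h2, ← Nat.cast_prod, ← Nat.cast_mul, ← Nat.cast_mul, h]
  have h3 : (N.totient : ℝ) ≠ 0 := by
    have := Nat.totient_pos.2 (show 0 < N by omega)
    exact_mod_cast this.ne'
  have h4 : ∏ p ∈ N.primeFactors, ((p : ℝ) - 1) ≠ 0 := by
    apply Finset.prod_ne_zero_iff.2
    intro p hp
    have := SG_two (SG_pf hp)
    linarith
  rw [Finset.prod_div_distrib, div_eq_div_iff h3 h4]
  linarith

theorem SG_prod_h (S : Finset ℕ) (hS : ∀ p ∈ S, p.Prime) {N : ℕ} (hN : 1 ≤ N) :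
    ∏ p ∈ S, SG_h N p ≤ (N : ℝ) / N.totient := by
  rw [SG_ratio hN]
  unfold SG_h
  rw [← Finset.prod_filter]
  apply SG_subset
  · intro p hp
    rw [Finset.mem_filter] at hp
    exact Nat.mem_primeFactors.2 ⟨hS p hp.1, hp.2, by omega⟩
  · intro p hp
    have := SG_two (SG_pf hp)
    rw [le_div_iff₀ (by linarith)]
    linarith

theorem SG_sp {N p : ℕ} (hp : p.Prime) : 0 ≤ sp N p ∧ sp N p ≤ SG_h N p := by
  have h := SG_two hp
  unfold sp SG_h
  split_ifs
  · exact ⟨div_nonneg (by linarith) (by linarith), le_rfl⟩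
  · have h1 : (0 : ℝ) < ((p : ℝ) - 1) ^ 2 := by nlinarith
    constructor
    · rw [sub_nonneg, div_le_one h1]
      nlinarith
    · have : 0 ≤ 1 / ((p : ℝ) - 1) ^ 2 := by positivity
      linarith

/-- The primes up to `Q`. -/
def SG_P (Q : ℕ) : Finset ℕ := (Icc 1 Q).filter Nat.Prime

theorem SG_P_prime {Q p : ℕ} (hp : p ∈ SG_P Q) : p.Prime := (Finset.mem_filter.1 hp).2

theorem SG_C1 : ∃ C : ℝ, 1 ≤ C ∧ ∀ Q : ℕ, ∏ p ∈ SG_P Q, (1 + √(p : ℝ) / ((p : ℝ) - 1) ^ 2) ≤ C := by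
  have hs : Summable (fun d : ℕ => ((d : ℝ) ^ (3 / 2 : ℝ))⁻¹) :=
    Real.summable_nat_rpow_inv.2 (by norm_num)
  refine ⟨Real.exp (4 * ∑' d : ℕ, ((d : ℝ) ^ (3 / 2 : ℝ))⁻¹), ?_, fun Q => ?_⟩
  · apply Real.one_le_exp
    have : 0 ≤ ∑' d : ℕ, ((d : ℝ) ^ (3 / 2 : ℝ))⁻¹ := tsum_nonneg fun d => by positivity
    linarith
  · calc ∏ p ∈ SG_P Q, (1 + √(p : ℝ) / ((p : ℝ) - 1) ^ 2)
        ≤ ∏ p ∈ SG_P Q, Real.exp (4 * ((p : ℝ) ^ (3 / 2 : ℝ))⁻¹) := by
          apply Finset.prod_le_prod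
          · intro p _
            positivity
          · intro p hp
            have h2 := SG_two (SG_P_prime hp)
            have hp0 : (0 : ℝ) < p := by linarith
            have h3 : √(p : ℝ) / ((p : ℝ) - 1) ^ 2 ≤ 4 * ((p : ℝ) ^ (3 / 2 : ℝ))⁻¹ := by
              have e1 : (p : ℝ) ^ (3 / 2 : ℝ) = p * √(p : ℝ) := by
                rw [show (3 / 2 : ℝ) = 1 + 1 / 2 by norm_num, Real.rpow_add hp0, Real.rpow_one,
                  Real.sqrt_eq_rpow]
              have hs0 : 0 < √(p : ℝ) := Real.sqrt_pos.2 hp0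
              have hs1 : √(p : ℝ) * √(p : ℝ) = p := Real.mul_self_sqrt hp0.le
              rw [e1, ← div_eq_mul_inv, div_le_div_iff₀ (by nlinarith) (by positivity)]
              have : √(p : ℝ) * (p * √(p : ℝ)) = (p : ℝ) * p := by
                rw [show √(p : ℝ) * (p * √(p : ℝ)) = p * (√(p : ℝ) * √(p : ℝ)) by ring, hs1]
              rw [this]
              nlinarith
            have h4 := Real.add_one_le_exp (4 * ((p : ℝ) ^ (3 / 2 : ℝ))⁻¹)
            linarith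
      _ = Real.exp (4 * ∑ p ∈ SG_P Q, ((p : ℝ) ^ (3 / 2 : ℝ))⁻¹) := by
          rw [← Real.exp_sum, Finset.mul_sum]
      _ ≤ _ := by
          apply Real.exp_le_exp.2
          apply mul_le_mul_of_nonneg_left _ (by norm_num)
          exact hs.sum_le_tsum _ fun d _ => by positivity

theorem SG_C0 : ∃ C : ℝ, 1 ≤ C ∧ ∀ P : Finset ℕ, (∀ p ∈ P, p.Prime) →
    ∏ p ∈ P, (1 + 1 / ((p : ℝ) - 1) ^ 2) ≤ C := by
  obtain ⟨C, hC, h⟩ := SG_C1
  refine ⟨C, hC, fun P hP => ?_⟩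
  calc ∏ p ∈ P, (1 + 1 / ((p : ℝ) - 1) ^ 2)
      ≤ ∏ p ∈ P, (1 + √(p : ℝ) / ((p : ℝ) - 1) ^ 2) := by
        apply Finset.prod_le_prod
        · intro p _
          positivity
        · intro p hp
          have h2 := SG_two (hP p hp)
          have : (1 : ℝ) ≤ √(p : ℝ) := by
            rw [Real.one_le_sqrt]
            linarith
          have h3 : (0 : ℝ) < ((p : ℝ) - 1) ^ 2 := by nlinarith
          gcongr
    _ ≤ ∏ p ∈ SG_P (P.sup id), (1 + √(p : ℝ) / ((p : ℝ) - 1) ^ 2) := by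
        apply SG_subset
        · intro p hp
          rw [SG_P, Finset.mem_filter, Finset.mem_Icc]
          exact ⟨⟨(hP p hp).one_le, Finset.le_sup (f := id) hp⟩, hP p hp⟩
        · intro p _
          have : 0 ≤ √(p : ℝ) / ((p : ℝ) - 1) ^ 2 := by positivity
          linarith
    _ ≤ C := h _

/-- **The absolute sum.** The sum over the multiples `k` of `s`.

Proof. For `k = s k'` squarefree: `φ(gcd(k / s, N)) / φ(k) ^ 2 = φ(gcd(k', N)) / (φ(s) φ(k')) ^ 2`, and `∑_{k' ≤ Q squarefree} φ(gcd(k', N)) / φ(k') ^ 2 ≤ ∏_{p ≤ Q} (1 + φ(gcd(p, N)) / (p - 1) ^ 2) ≤ ∏_{p ∣ N} (1 + 1 / (p - 1)) ∏_{p ≤ Q} (1 + 1 / (p - 1) ^ 2) ≤ C N / φ(N)`. With the additional coprimality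
condition to `r` the primes dividing `r` are omitted in the product, so the product with `∏_{p ∣ r} sp N p ≤ ∏_{p ∣ r, p ∣ N} p / (p - 1)` is still at most `C N / φ(N)`. -/
theorem abs_sum : ∃ C : ℝ, 1 ≤ C ∧ ∀ (Q r s N : ℕ), 1 ≤ r → 1 ≤ s → 1 ≤ N →
    (∏ p ∈ r.primeFactors, sp N p) * ∑ k ∈ (KK Q r).filter (fun k => s ∣ k), ((Nat.gcd (k / s) N).totient : ℝ) / (k.totient : ℝ) ^ 2 ≤
      C * ((N : ℝ) / N.totient) / (s.totient : ℝ) ^ 2 := by
  classical
  obtain ⟨C, hC, hCP⟩ := SG_C0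
  refine ⟨C, hC, fun Q r s N hr hs hN => ?_⟩
  set P : Finset ℕ := (SG_P Q).filter (fun p => ¬ p ∣ r) with hP
  have hPp : ∀ p ∈ P, p.Prime := fun p hp => SG_P_prime (Finset.mem_filter.1 hp).1
  have hφs : (0 : ℝ) < s.totient := by exact_mod_cast Nat.totient_pos.2 hs
  set A : Finset ℕ := ((KK Q r).filter (fun k => s ∣ k)).image (fun k => k / s) with hA
  have hinj : Set.InjOn (fun k => k / s) (((KK Q r).filter (fun k => s ∣ k)) : Set ℕ) := by
    intro a ha b hb hab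
    have h1 : s ∣ a := (Finset.mem_filter.1 ha).2
    have h2 : s ∣ b := (Finset.mem_filter.1 hb).2
    simp only at hab
    rw [← Nat.div_mul_cancel h1, ← Nat.div_mul_cancel h2, hab]
  have hsum : ∑ k ∈ (KK Q r).filter (fun k => s ∣ k), ((Nat.gcd (k / s) N).totient : ℝ) / (k.totient : ℝ) ^ 2 =
      (∑ k ∈ A, ∏ p ∈ k.primeFactors, SG_g N p) / (s.totient : ℝ) ^ 2 := by
    rw [hA, Finset.sum_image hinj, Finset.sum_div]
    apply Finset.sum_congr rfl
    intro k hk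
    rw [Finset.mem_filter, KK, Finset.mem_filter] at hk
    obtain ⟨⟨_, hsq, _⟩, m, rfl⟩ := hk
    have hsq' : Squarefree m := hsq.squarefree_of_dvd (Dvd.intro_left s rfl)
    have hco : s.Coprime m := Nat.coprime_of_squarefree_mul hsq
    rw [Nat.mul_div_cancel_left m (by omega), ← SG_term hsq' hN, Nat.totient_mul hco]
    push_cast
    rw [mul_pow, div_div, mul_comm ((s.totient : ℝ) ^ 2)]
  have hA' : ∀ k ∈ A, Squarefree k ∧ k.primeFactors ⊆ P := by
    intro k hk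
    rw [hA, Finset.mem_image] at hk
    obtain ⟨n, hn, rfl⟩ := hk
    rw [Finset.mem_filter, KK, Finset.mem_filter, Finset.mem_Icc] at hn
    obtain ⟨⟨⟨hn1, hnQ⟩, hsq, hcop⟩, m, rfl⟩ := hn
    rw [Nat.mul_div_cancel_left m (by omega)]
    refine ⟨hsq.squarefree_of_dvd (Dvd.intro_left s rfl), fun p hp => ?_⟩
    have hpm := Nat.dvd_of_mem_primeFactors hp
    have hpd : p ∣ s * m := hpm.trans (Dvd.intro_left s rfl)
    rw [hP, Finset.mem_filter, SG_P, Finset.mem_filter, Finset.mem_Icc]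
    refine ⟨⟨⟨(SG_pf hp).one_le, (Nat.le_of_dvd (by omega) hpd).trans hnQ⟩, SG_pf hp⟩, fun hpr => ?_⟩
    have := Nat.dvd_gcd hpd hpr
    rw [hcop] at this
    exact (SG_pf hp).one_lt.ne' (Nat.dvd_one.1 this)
  have hbd : ∑ k ∈ A, ∏ p ∈ k.primeFactors, SG_g N p ≤ ∏ p ∈ P, (1 + SG_g N p) :=
    SG_prod _ P (fun p hp => SG_g_nonneg (hPp p hp)) A hA'
  have hbd2 : ∏ p ∈ P, (1 + SG_g N p) ≤ (∏ p ∈ P, SG_h N p) * ∏ p ∈ P, (1 + 1 / ((p : ℝ) - 1) ^ 2) := by
    rw [← Finset.prod_mul_distrib]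
    apply Finset.prod_le_prod
    · intro p hp
      have := SG_g_nonneg (N := N) (hPp p hp)
      linarith
    · intro p hp
      have h2 := SG_two (hPp p hp)
      have h3 : (p : ℝ) - 1 ≠ 0 := by linarith
      unfold SG_g SG_h
      split_ifs
      · have e : 1 + 1 / ((p : ℝ) - 1) = (p : ℝ) / ((p : ℝ) - 1) := by
          field_simp
          ring
        rw [e]
        apply le_mul_of_one_le_right
        · exact div_nonneg (by linarith) (by linarith)
        · have : 0 ≤ 1 / ((p : ℝ) - 1) ^ 2 := by positivity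
          linarith
      · rw [one_mul]
  have hdis : Disjoint r.primeFactors P := by
    rw [Finset.disjoint_left]
    intro p hp hp2
    exact (Finset.mem_filter.1 hp2).2 (Nat.dvd_of_mem_primeFactors hp)
  have hsp : ∏ p ∈ r.primeFactors, sp N p ≤ ∏ p ∈ r.primeFactors, SG_h N p :=
    Finset.prod_le_prod (fun p hp => (SG_sp (SG_pf hp)).1) fun p hp => (SG_sp (SG_pf hp)).2
  have hsp0 : 0 ≤ ∏ p ∈ r.primeFactors, sp N p := Finset.prod_nonneg fun p hp => (SG_sp (SG_pf hp)).1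
  have hh0 : 0 ≤ ∏ p ∈ P, SG_h N p :=
    Finset.prod_nonneg fun p hp => zero_le_one.trans (SG_h_one_le (hPp p hp))
  have hU : (∏ p ∈ r.primeFactors, SG_h N p) * ∏ p ∈ P, SG_h N p ≤ (N : ℝ) / N.totient := by
    rw [← Finset.prod_union hdis]
    apply SG_prod_h _ _ hN
    intro p hp
    rcases Finset.mem_union.1 hp with h | h
    · exact SG_pf h
    · exact hPp p h
  rw [hsum, mul_div_assoc']
  apply div_le_div_of_nonneg_right _ (by positivity)
  have hC' := hCP P hPp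
  have hR0 : 0 ≤ (N : ℝ) / N.totient := by positivity
  have hS0 : 0 ≤ ∑ k ∈ A, ∏ p ∈ k.primeFactors, SG_g N p :=
    Finset.sum_nonneg fun k _ => Finset.prod_nonneg fun p hp => SG_g_nonneg (SG_pf hp)
  calc (∏ p ∈ r.primeFactors, sp N p) * ∑ k ∈ A, ∏ p ∈ k.primeFactors, SG_g N p
      ≤ (∏ p ∈ r.primeFactors, SG_h N p) * ((∏ p ∈ P, SG_h N p) * C) := by
        apply mul_le_mul hsp _ hS0 (hsp0.trans hsp)
        refine (hbd.trans hbd2).trans ?_
        exact mul_le_mul_of_nonneg_left hC' hh0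
    _ = ((∏ p ∈ r.primeFactors, SG_h N p) * ∏ p ∈ P, SG_h N p) * C := by ring
    _ ≤ (N : ℝ) / N.totient * C := mul_le_mul_of_nonneg_right hU (by linarith)
    _ = C * ((N : ℝ) / N.totient) := by ring

/-- Proof. `sp ≥ 0` for `p ≥ 2`, `sp ≤ 1` for `p ∤ N`, `sp = p / (p - 1)` for `p ∣ N`, and `N / φ(N) = ∏_{p ∣ N} p / (p - 1)`. -/
theorem prod_sp (r N : ℕ) (hN : 1 ≤ N) : 0 ≤ ∏ p ∈ r.primeFactors, sp N p ∧ ∏ p ∈ r.primeFactors, sp N p ≤ (N : ℝ) / N.totient := by
  refine ⟨Finset.prod_nonneg fun p hp => (SG_sp (SG_pf hp)).1, ?_⟩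
  exact (Finset.prod_le_prod (fun p hp => (SG_sp (SG_pf hp)).1) fun p hp => (SG_sp (SG_pf hp)).2).trans
    (SG_prod_h _ (fun p hp => SG_pf hp) hN)

theorem SG_sgt_abs (r N k : ℕ) : |sgt r N k| ≤
    if Squarefree k then ((Nat.gcd k N).totient : ℝ) / (k.totient : ℝ) ^ 2 else 0 := by
  classical
  unfold sgt
  by_cases h : Squarefree k
  · rw [if_pos h]
    by_cases h2 : k.Coprime r
    · rw [if_pos ⟨h, h2⟩, abs_div, cR_abs k h, abs_of_nonneg (by positivity : (0 : ℝ) ≤ (k.totient : ℝ) ^ 2)]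
      have : Int.gcd k (N : ℤ) = Nat.gcd k N := Int.gcd_natCast_natCast k N
      rw [this]
    · rw [if_neg (fun h3 => h2 h3.2), abs_zero]
      positivity
  · rw [if_neg h, if_neg (fun h3 => h h3.1), abs_zero]

theorem SG_zero (r N : ℕ) : sgt r N 0 = 0 := by
  unfold sgt
  rw [if_neg]
  rintro ⟨h, _⟩
  exact not_squarefree_zero h

theorem SG_sum (Q r N : ℕ) : sgl Q r N = ∑ k ∈ range (Q + 1), sgt r N k := by
  classical
  have h1 : range (Q + 1) = insert 0 (Icc 1 Q) := by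
    ext k
    simp only [Finset.mem_range, Finset.mem_insert, Finset.mem_Icc]
    omega
  rw [h1, Finset.sum_insert (by simp), SG_zero, zero_add, sgl, KK, Finset.sum_filter]
  apply Finset.sum_congr rfl
  intro k _
  unfold sgt
  congr

theorem SG_omega (ε : ℝ) (hε : 0 < ε) : ∃ C : ℝ, 1 ≤ C ∧ ∀ N : ℕ, 1 ≤ N →
    (4 : ℝ) ^ N.primeFactors.card ≤ C * (N : ℝ) ^ ε := by
  obtain ⟨C, hC, h⟩ := FD120.divisor_bound (ε / 2) (by linarith)
  refine ⟨max (C ^ 2) 1, le_max_right _ _, fun N hN => ?_⟩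
  have h1 := h N (by omega)
  have h2 : 2 ^ N.primeFactors.card ≤ N.divisors.card := by
    rw [← Finset.card_powerset]
    apply Finset.card_le_card_of_injOn (fun t => ∏ p ∈ t, p)
    · intro t ht
      have ht' := Finset.mem_powerset.1 ht
      rw [Finset.mem_coe, Nat.mem_divisors]
      refine ⟨?_, by omega⟩
      exact (Finset.prod_dvd_prod_of_subset _ _ _ ht').trans (Nat.prod_primeFactors_dvd N)
    · intro a ha b hb hab
      have ha' := Finset.mem_powerset.1 ha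
      have hb' := Finset.mem_powerset.1 hb
      have e1 := Nat.primeFactors_prod (fun p hp => SG_pf (ha' hp))
      have e2 := Nat.primeFactors_prod (fun p hp => SG_pf (hb' hp))
      simp only at hab
      rw [← e1, ← e2, hab]
  have h3 : (2 : ℝ) ^ N.primeFactors.card ≤ N.divisors.card := by exact_mod_cast h2
  have hN0 : (0 : ℝ) < N := by
    have : 0 < N := by omega
    exact_mod_cast this
  calc (4 : ℝ) ^ N.primeFactors.card = ((2 : ℝ) ^ N.primeFactors.card) ^ 2 := by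
        rw [← pow_mul, mul_comm, pow_mul]
        norm_num
    _ ≤ (C * (N : ℝ) ^ (ε / 2)) ^ 2 := pow_le_pow_left₀ (by positivity) (h3.trans h1) 2
    _ = C ^ 2 * (N : ℝ) ^ ε := by
        rw [mul_pow, ← Real.rpow_natCast ((N : ℝ) ^ (ε / 2)) 2, ← Real.rpow_mul hN0.le]
        congr 2
        push_cast
        ring
    _ ≤ max (C ^ 2) 1 * (N : ℝ) ^ ε :=
        mul_le_mul_of_nonneg_right (le_max_left _ _) (by positivity)

/-- The uniform bound for the weighted absolute partial sums. -/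
theorem SG_weight (ε : ℝ) (hε : 0 < ε) : ∃ C : ℝ, 1 ≤ C ∧ ∀ (n r N : ℕ), 1 ≤ N →
    ∑ k ∈ range n, √(k : ℝ) * |sgt r N k| ≤ C * (N : ℝ) ^ ε := by
  classical
  obtain ⟨C1, hC1, h1⟩ := SG_C1
  obtain ⟨C2, hC2, h2⟩ := SG_omega ε hε
  refine ⟨C1 * C2, by nlinarith, fun n r N hN => ?_⟩
  have hle : ∑ k ∈ range n, √(k : ℝ) * |sgt r N k| ≤
      ∑ k ∈ (range n).filter Squarefree, ∏ p ∈ k.primeFactors, (√(p : ℝ) * SG_g N p) := by
    rw [Finset.sum_filter]
    apply Finset.sum_le_sum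
    intro k _
    have h := SG_sgt_abs r N k
    split_ifs at h ⊢ with hk
    · rw [Finset.prod_mul_distrib, ← SG_term hk hN]
      have e : √(k : ℝ) = ∏ p ∈ k.primeFactors, √(p : ℝ) := by
        conv_lhs => rw [← Nat.prod_primeFactors_of_squarefree hk]
        push_cast
        rw [Real.sqrt_eq_rpow, ← Real.finsetProd_rpow _ _ (fun p _ => by positivity)]
        apply Finset.prod_congr rfl
        intro p _
        rw [Real.sqrt_eq_rpow]
      rw [← e]
      exact mul_le_mul_of_nonneg_left h (Real.sqrt_nonneg _)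
    · have : |sgt r N k| = 0 := le_antisymm h (abs_nonneg _)
      rw [this, mul_zero]
  have hnn : ∀ p ∈ SG_P n, 0 ≤ √(p : ℝ) * SG_g N p := fun p hp =>
    mul_nonneg (Real.sqrt_nonneg _) (SG_g_nonneg (SG_P_prime hp))
  have hle2 : ∑ k ∈ (range n).filter Squarefree, ∏ p ∈ k.primeFactors, (√(p : ℝ) * SG_g N p) ≤
      ∏ p ∈ SG_P n, (1 + √(p : ℝ) * SG_g N p) := by
    apply SG_prod _ _ hnn
    intro k hk
    rw [Finset.mem_filter, Finset.mem_range] at hk
    refine ⟨hk.2, fun p hp => ?_⟩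
    rw [SG_P, Finset.mem_filter, Finset.mem_Icc]
    refine ⟨⟨(SG_pf hp).one_le, ?_⟩, SG_pf hp⟩
    exact (Nat.le_of_dvd (Nat.pos_of_ne_zero hk.2.ne_zero) (Nat.dvd_of_mem_primeFactors hp)).trans hk.1.le
  have hle3 : ∏ p ∈ SG_P n, (1 + √(p : ℝ) * SG_g N p) ≤
      (∏ p ∈ SG_P n, if p ∣ N then (4 : ℝ) else 1) *
        ∏ p ∈ SG_P n, (1 + √(p : ℝ) / ((p : ℝ) - 1) ^ 2) := by
    rw [← Finset.prod_mul_distrib]
    apply Finset.prod_le_prod
    · intro p hp
      have := hnn p hp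
      linarith
    · intro p hp
      have h3 := SG_two (SG_P_prime hp)
      have hs0 : 0 ≤ √(p : ℝ) := Real.sqrt_nonneg _
      unfold SG_g
      split_ifs
      · have e1 : √(p : ℝ) * (1 / ((p : ℝ) - 1)) ≤ 3 := by
          rw [mul_one_div, div_le_iff₀ (by linarith), Real.sqrt_le_left (by linarith)]
          nlinarith
        have e2 : 0 ≤ √(p : ℝ) / ((p : ℝ) - 1) ^ 2 := by positivity
        nlinarith
      · rw [one_mul, mul_one_div]
  have hle4 : (∏ p ∈ SG_P n, if p ∣ N then (4 : ℝ) else 1) ≤ 4 ^ N.primeFactors.card := by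
    rw [← Finset.prod_filter, Finset.prod_const]
    apply pow_le_pow_right₀ (by norm_num)
    apply Finset.card_le_card
    intro p hp
    rw [Finset.mem_filter] at hp
    exact Nat.mem_primeFactors.2 ⟨SG_P_prime hp.1, hp.2, by omega⟩
  calc ∑ k ∈ range n, √(k : ℝ) * |sgt r N k|
      ≤ (∏ p ∈ SG_P n, if p ∣ N then (4 : ℝ) else 1) *
        ∏ p ∈ SG_P n, (1 + √(p : ℝ) / ((p : ℝ) - 1) ^ 2) := hle.trans (hle2.trans hle3)
    _ ≤ (C2 * (N : ℝ) ^ ε) * C1 := by
        apply mul_le_mul (hle4.trans (h2 N hN)) (h1 n)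
        · exact Finset.prod_nonneg fun p _ => by positivity
        · positivity
    _ = C1 * C2 * (N : ℝ) ^ ε := by ring

/-- **Tails.**

Proof. `|cR k N| = φ(gcd(k, N))` (`cR_abs`), and for `k > Q`: `1 / φ(k) ^ 2 ≤ Q ^ (-1/2) √k / φ(k) ^ 2`, so the tail is at most `Q ^ (-1/2) ∑_k squarefree φ(gcd(k, N)) √k / φ(k) ^ 2 ≤ Q ^ (-1/2) ∏_{p ∣ N} (1 + √p / (p - 1)) ∏_p (1 + √p / (p - 1) ^ 2)`, where the last product is a constant and
`∏_{p ∣ N} (1 + √p / (p - 1)) ≤ 3 ^ ω(N) ≤ d(N) ^ 2 ≤ C N ^ ε` (divisor bound, `Pool/Agent/W_fd120a_h34/Div.lean`). The same bound gives summability. (For finite sums: the sum over squarefree `k ≤ K` of a nonnegative multiplicative function is at most the product over the primes `≤ K`.) -/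
theorem sgl_tail (ε : ℝ) (hε : 0 < ε) : ∃ C : ℝ, 1 ≤ C ∧ ∀ (Q r N : ℕ), 1 ≤ Q → 1 ≤ N →
    Summable (sgt r N) ∧ |sgl Q r N - sgi r N| ≤ C * (N : ℝ) ^ ε * (Q : ℝ) ^ (-(1 / 2) : ℝ) := by
  obtain ⟨C, hC, h⟩ := SG_weight ε hε
  refine ⟨C, hC, fun Q r N hQ hN => ?_⟩
  have hnn : ∀ k : ℕ, 0 ≤ √(k : ℝ) * |sgt r N k| := fun k => by positivity
  have hsw : Summable (fun k : ℕ => √(k : ℝ) * |sgt r N k|) :=
    summable_of_sum_range_le hnn fun n => h n r N hN
  have htw : ∑' k : ℕ, √(k : ℝ) * |sgt r N k| ≤ C * (N : ℝ) ^ ε :=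
    Real.tsum_le_of_sum_range_le hnn fun n => h n r N hN
  have hle : ∀ k : ℕ, |sgt r N k| ≤ √(k : ℝ) * |sgt r N k| := by
    intro k
    rcases Nat.eq_zero_or_pos k with h0 | h0
    · subst h0
      rw [SG_zero]
      simp
    · have : (1 : ℝ) ≤ √(k : ℝ) := by
        rw [Real.one_le_sqrt]
        exact_mod_cast h0
      nlinarith [abs_nonneg (sgt r N k)]
  have hsa : Summable (fun k : ℕ => |sgt r N k|) := Summable.of_nonneg_of_le (fun k => abs_nonneg _) hle hsw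
  have hs : Summable (sgt r N) := hsa.of_abs
  refine ⟨hs, ?_⟩
  have hQ0 : (0 : ℝ) < Q := by exact_mod_cast hQ
  have hsplit := hs.sum_add_tsum_nat_add (Q + 1)
  have e1 : sgl Q r N - sgi r N = - ∑' i : ℕ, sgt r N (i + (Q + 1)) := by
    rw [SG_sum, sgi]
    linarith
  rw [e1, abs_neg]
  have hsa' : Summable (fun i : ℕ => |sgt r N (i + (Q + 1))|) := (summable_nat_add_iff (f := fun k : ℕ => |sgt r N k|) (Q + 1)).2 hsa
  have hsw' : Summable (fun i : ℕ => √((i + (Q + 1) : ℕ) : ℝ) * |sgt r N (i + (Q + 1))|) :=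
    (summable_nat_add_iff (f := fun k : ℕ => √(k : ℝ) * |sgt r N k|) (Q + 1)).2 hsw
  have e2 : |∑' i : ℕ, sgt r N (i + (Q + 1))| ≤ ∑' i : ℕ, |sgt r N (i + (Q + 1))| := by
    have := norm_tsum_le_tsum_norm (f := fun i : ℕ => sgt r N (i + (Q + 1))) (by simpa using hsa')
    simpa using this
  have hq : (Q : ℝ) ^ (-(1 / 2) : ℝ) = 1 / √(Q : ℝ) := by
    rw [Real.rpow_neg hQ0.le, ← Real.sqrt_eq_rpow, one_div]
  have hsq : 0 < √(Q : ℝ) := Real.sqrt_pos.2 hQ0
  have e3 : ∑' i : ℕ, |sgt r N (i + (Q + 1))| ≤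
      ∑' i : ℕ, 1 / √(Q : ℝ) * (√((i + (Q + 1) : ℕ) : ℝ) * |sgt r N (i + (Q + 1))|) := by
    apply hsa'.tsum_le_tsum _ (hsw'.mul_left _)
    intro i
    have h1 : √(Q : ℝ) ≤ √((i + (Q + 1) : ℕ) : ℝ) := by
      apply Real.sqrt_le_sqrt
      push_cast
      have : (0 : ℝ) ≤ i := Nat.cast_nonneg i
      linarith
    rw [← mul_assoc, one_div_mul_eq_div]
    apply le_mul_of_one_le_left (abs_nonneg _)
    rw [one_le_div hsq]
    exact h1
  have e4 : ∑' i : ℕ, √((i + (Q + 1) : ℕ) : ℝ) * |sgt r N (i + (Q + 1))| ≤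
      ∑' k : ℕ, √(k : ℝ) * |sgt r N k| := by
    have h2 := hsw.sum_add_tsum_nat_add (Q + 1)
    have h3 : 0 ≤ ∑ k ∈ range (Q + 1), √(k : ℝ) * |sgt r N k| := Finset.sum_nonneg fun k _ => hnn k
    linarith
  have e5 := tsum_mul_left (a := 1 / √(Q : ℝ)) (f := fun i : ℕ => √((i + (Q + 1) : ℕ) : ℝ) * |sgt r N (i + (Q + 1))|)
    (L := SummationFilter.unconditional ℕ)
  rw [e5] at e3
  have e6 := e2.trans e3
  have e7 := e4.trans htw
  have e8 := mul_le_mul_of_nonneg_left e7 (show (0 : ℝ) ≤ 1 / √(Q : ℝ) by positivity)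
  refine (e6.trans e8).trans (le_of_eq ?_)
  rw [hq]
  ring

theorem SG_summable (r N : ℕ) (hN : 1 ≤ N) : Summable (sgt r N) := by
  obtain ⟨C, _, h⟩ := sgl_tail 1 one_pos
  exact (h 1 r N le_rfl hN).1

theorem SG_one (r N : ℕ) : sgt r N 1 = 1 := by
  have h1 : cR 1 (N : ℤ) = 1 := by
    unfold cR
    rw [Finset.sum_filter, Nat.divisors_one, Finset.sum_singleton]
    simp
  unfold sgt
  rw [if_pos ⟨squarefree_one, Nat.coprime_one_left r⟩, h1]
  simp

/-- The step: one prime. -/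
theorem SG_step (r N p : ℕ) (hN : 1 ≤ N) (hp : p.Prime) (hpr : ¬ p ∣ r) :
    sgi r N = sp N p * sgi (p * r) N := by
  classical
  have hs := SG_summable r N hN
  have hs2 := SG_summable (p * r) N hN
  have hcp : ∀ k : ℕ, p.Coprime k ↔ ¬ p ∣ k := fun k => hp.coprime_iff_not_dvd
  have hsplit : ∀ k, sgt r N k = sgt (p * r) N k + (if p ∣ k then sgt r N k else 0) := by
    intro k
    by_cases hk : p ∣ k
    · rw [if_pos hk]
      have : sgt (p * r) N k = 0 := by
        unfold sgt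
        rw [if_neg]
        rintro ⟨_, h2⟩
        have h3 : k.Coprime p := Nat.Coprime.coprime_mul_right_right h2
        exact (hcp k).1 h3.symm hk
      rw [this, zero_add]
    · rw [if_neg hk, add_zero]
      unfold sgt
      have : k.Coprime (p * r) ↔ k.Coprime r := by
        rw [Nat.coprime_mul_iff_right]
        exact ⟨fun h => h.2, fun h => ⟨((hcp k).2 hk).symm, h⟩⟩
      simp only [this]
  have hmul : ∀ k, sgt r N (p * k) = (sp N p - 1) * sgt (p * r) N k := by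
    intro k
    have h2p := SG_two hp
    by_cases h : Squarefree k ∧ k.Coprime (p * r)
    · obtain ⟨h1, h2⟩ := h
      rw [Nat.coprime_mul_iff_right] at h2
      have h3 : Squarefree (p * k) ∧ (p * k).Coprime r := by
        refine ⟨(Nat.squarefree_mul h2.1.symm).2 ⟨hp.squarefree, h1⟩, ?_⟩
        rw [Nat.coprime_mul_iff_left]
        exact ⟨(hcp r).2 hpr, h2.2⟩
      have h4 : Squarefree k ∧ k.Coprime (p * r) := ⟨h1, Nat.coprime_mul_iff_right.2 h2⟩
      unfold sgt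
      rw [if_pos h3, if_pos h4, cR_mul p k h2.1.symm, Nat.totient_mul h2.1.symm, Nat.totient_prime hp,
        cR_prime p hp, Nat.cast_mul, Nat.cast_sub hp.one_le]
      have hφ : (k.totient : ℝ) ≠ 0 := by
        have := Nat.totient_pos.2 (Nat.pos_of_ne_zero h1.ne_zero)
        exact_mod_cast this.ne'
      have hp1 : (p : ℝ) - 1 ≠ 0 := by linarith
      unfold sp
      by_cases hd : p ∣ N
      · rw [if_pos (by exact_mod_cast hd), if_pos hd]
        push_cast
        field_simp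
        ring
      · rw [if_neg (by exact_mod_cast hd), if_neg hd]
        push_cast
        field_simp
        ring
    · have h3 : ¬ (Squarefree (p * k) ∧ (p * k).Coprime r) := by
        rintro ⟨h4, h5⟩
        apply h
        refine ⟨h4.squarefree_of_dvd (Dvd.intro_left p rfl), ?_⟩
        rw [Nat.coprime_mul_iff_right]
        exact ⟨(Nat.coprime_of_squarefree_mul h4).symm, (Nat.coprime_mul_iff_left.1 h5).2⟩
      unfold sgt
      rw [if_neg h3, if_neg h, mul_zero]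
  have hinj : Function.Injective (fun k : ℕ => p * k) := fun a b hab => Nat.eq_of_mul_eq_mul_left hp.pos hab
  have hsupp : Function.support (fun k => if p ∣ k then sgt r N k else 0) ⊆ Set.range (fun k : ℕ => p * k) := by
    intro k hk
    rw [Function.mem_support] at hk
    by_cases h : p ∣ k
    · obtain ⟨m, rfl⟩ := h
      exact ⟨m, rfl⟩
    · rw [if_neg h] at hk
      exact absurd rfl hk
  have e1 : ∑' k, (if p ∣ k then sgt r N k else 0) = (sp N p - 1) * sgi (p * r) N := by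
    rw [← hinj.tsum_eq hsupp, sgi, ← tsum_mul_left]
    apply tsum_congr
    intro k
    rw [if_pos (Dvd.intro k rfl), hmul]
  have hs3 : Summable (fun k => if p ∣ k then sgt r N k else 0) := by
    have : (fun k => if p ∣ k then sgt r N k else 0) = fun k => sgt r N k - sgt (p * r) N k := by
      ext k
      have := hsplit k
      linarith
    rw [this]
    exact hs.sub hs2
  have e2 : sgi r N = sgi (p * r) N + ∑' k, (if p ∣ k then sgt r N k else 0) := by
    rw [sgi, sgi, ← hs2.tsum_add hs3]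
    exact tsum_congr hsplit
  rw [e2, e1]
  ring

theorem SG_fin (N : ℕ) (hN : 1 ≤ N) (S : Finset ℕ) : ∀ r : ℕ, (∀ p ∈ S, p.Prime ∧ ¬ p ∣ r) →
    sgi r N = (∏ p ∈ S, sp N p) * sgi ((∏ p ∈ S, p) * r) N := by
  classical
  induction S using Finset.induction_on with
  | empty =>
    intro r _
    simp
  | insert q S hq ih =>
    intro r h
    have hqp := h q (Finset.mem_insert_self q S)
    have hS : ∀ p ∈ S, p.Prime ∧ ¬ p ∣ q * r := by
      intro p hp
      have h1 := h p (Finset.mem_insert_of_mem hp)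
      refine ⟨h1.1, fun h2 => ?_⟩
      rcases (h1.1.dvd_mul).1 h2 with h3 | h3
      · have : p = q := (Nat.prime_dvd_prime_iff_eq h1.1 hqp.1).1 h3
        exact hq (this ▸ hp)
      · exact h1.2 h3
    rw [SG_step r N q hN hqp.1 hqp.2, ih (q * r) hS, Finset.prod_insert hq, Finset.prod_insert hq]
    have : (∏ p ∈ S, p) * (q * r) = q * (∏ p ∈ S, p) * r := by ring
    rw [this]
    ring

theorem SG_congr (r r' N : ℕ) (h : ∀ k : ℕ, Squarefree k → (k.Coprime r ↔ k.Coprime r')) :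
    sgi r N = sgi r' N := by
  classical
  unfold sgi
  apply tsum_congr
  intro k
  unfold sgt
  by_cases hk : Squarefree k
  · have h' := h k hk
    simp only [hk, h', true_and]
  · rw [if_neg (fun h1 => hk h1.1), if_neg (fun h1 => hk h1.1)]

/-- The set of the primes `≤ z` not dividing `r`. -/
def SG_S (z r : ℕ) : Finset ℕ := (SG_P z).filter (fun p => ¬ p ∣ r)

theorem SG_S_spec {z r : ℕ} : ∀ p ∈ SG_S z r, p.Prime ∧ ¬ p ∣ r := fun _ hp =>
  ⟨SG_P_prime (Finset.mem_filter.1 hp).1, (Finset.mem_filter.1 hp).2⟩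

/-- The remaining series is at least `1/2`. -/
theorem SG_half (r N : ℕ) (hN : 1 ≤ N) : ∃ z0 : ℕ, ∀ z : ℕ, z0 ≤ z →
    1 / 2 ≤ sgi ((∏ p ∈ SG_S z r, p) * r) N := by
  obtain ⟨C, hC, h⟩ := sgl_tail 1 one_pos
  set B : ℝ := C * (N : ℝ) ^ (1 : ℝ) with hB
  have hB0 : 0 ≤ B := by positivity
  set Q : ℕ := ⌈(2 * B) ^ 2⌉₊ + 1 with hQ
  refine ⟨Q, fun z hz => ?_⟩
  set r' : ℕ := (∏ p ∈ SG_S z r, p) * r with hr'
  have h1 := (h Q r' N (by omega) hN).2
  have hQ1 : (2 * B) ^ 2 ≤ Q := by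
    have := Nat.le_ceil ((2 * B) ^ 2)
    rw [hQ]
    push_cast
    linarith
  have hQ0 : (0 : ℝ) < Q := by
    have : 0 < Q := by omega
    exact_mod_cast this
  have hq : (Q : ℝ) ^ (-(1 / 2) : ℝ) = 1 / √(Q : ℝ) := by
    rw [Real.rpow_neg hQ0.le, ← Real.sqrt_eq_rpow, one_div]
  have hsq : 2 * B ≤ √(Q : ℝ) := Real.le_sqrt_of_sq_le hQ1
  have hsq0 : 0 < √(Q : ℝ) := Real.sqrt_pos.2 hQ0
  have h2 : C * (N : ℝ) ^ (1 : ℝ) * (Q : ℝ) ^ (-(1 / 2) : ℝ) ≤ 1 / 2 := by
    rw [← hB, hq, mul_one_div, div_le_iff₀ hsq0]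
    linarith
  have h3 : sgl Q r' N = 1 := by
    have hKK : KK Q r' = {1} := by
      ext k
      rw [KK, Finset.mem_filter, Finset.mem_Icc, Finset.mem_singleton]
      constructor
      · rintro ⟨⟨hk1, hkQ⟩, _, hco⟩
        by_contra hne
        obtain ⟨q, hqp, hqk⟩ := Nat.exists_prime_and_dvd hne
        have hqr : q ∣ r' := by
          by_cases hqr : q ∣ r
          · exact hqr.mul_left _
          · have : q ∈ SG_S z r := by
              rw [SG_S, Finset.mem_filter, SG_P, Finset.mem_filter, Finset.mem_Icc]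
              exact ⟨⟨⟨hqp.one_le, ((Nat.le_of_dvd hk1 hqk).trans hkQ).trans hz⟩, hqp⟩, hqr⟩
            exact (Finset.dvd_prod_of_mem _ this).mul_right _
        have := Nat.dvd_gcd hqk hqr
        rw [hco] at this
        exact hqp.one_lt.ne' (Nat.dvd_one.1 this)
      · rintro rfl
        exact ⟨⟨le_rfl, by omega⟩, squarefree_one, Nat.coprime_one_left _⟩
    have h4 := SG_one r' N
    unfold sgt at h4
    rw [if_pos ⟨squarefree_one, Nat.coprime_one_left r'⟩] at h4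
    rw [sgl, hKK, Finset.sum_singleton, h4]
  rw [h3] at h1
  have := (abs_le.1 (h1.trans h2)).2
  linarith

/-- **Multiplicativity.**

Proof. `k ↦ sgt 1 N k` is multiplicative on squarefree numbers, `1 + sgt 1 N p = sp N p` for primes (`cR_prime`). Every squarefree `k` is uniquely `d k'` with `d ∣ rad r`, `(k', r) = 1`; so `sgi 1 N = (∑_{d ∣ rad r} sgt 1 N d) sgi r N` and the first factor is `∏_{p ∣ r} (1 + sgt 1 N p)` (absolute convergence from `sgl_tail`).
Nonnegativity: `sgi r N` is the limit of the products of `sp N p ≥ 0` over the primes `p ≤ z`, `p ∤ r` (Euler product, `EulerProduct.eulerProduct_hasProd`). -/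
theorem sgi_mul (r N : ℕ) (hr : 1 ≤ r) (hN : 1 ≤ N) :
    sgi 1 N = (∏ p ∈ r.primeFactors, sp N p) * sgi r N ∧ 0 ≤ sgi r N := by
  constructor
  · have h1 := SG_fin N hN r.primeFactors 1 fun p hp => ⟨SG_pf hp, fun h => (SG_pf hp).one_lt.ne' (Nat.dvd_one.1 h)⟩
    rw [h1]
    congr 1
    apply SG_congr
    intro k hk
    rw [mul_one]
    constructor
    · intro h
      rw [Nat.coprime_prod_right_iff] at h
      rw [Nat.coprime_iff_gcd_eq_one]
      by_contra hne
      obtain ⟨q, hqp, hq⟩ := Nat.exists_prime_and_dvd hne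
      have h3 := h q (Nat.mem_primeFactors.2 ⟨hqp, hq.trans (Nat.gcd_dvd_right _ _), by omega⟩)
      exact (hqp.coprime_iff_not_dvd.1 h3.symm) (hq.trans (Nat.gcd_dvd_left _ _))
    · intro h
      rw [Nat.coprime_prod_right_iff]
      intro q hq
      exact Nat.Coprime.coprime_dvd_right (Nat.dvd_of_mem_primeFactors hq) h
  · obtain ⟨z, hz⟩ := SG_half r N hN
    rw [SG_fin N hN (SG_S z r) r SG_S_spec]
    exact mul_nonneg (Finset.prod_nonneg fun p hp => (SG_sp (SG_S_spec p hp).1).1)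
      (le_trans (by norm_num) (hz z le_rfl))

theorem SG_telescope (n : ℕ) : ∏ j ∈ Icc 2 (n + 2), (1 - 1 / (j : ℝ) ^ 2) = ((n : ℝ) + 3) / (2 * ((n : ℝ) + 2)) := by
  induction n with
  | zero => norm_num
  | succ n ih =>
    rw [Finset.prod_Icc_succ_top (by omega), ih]
    push_cast
    field_simp
    ring

/-- **The lower bound** for even `N`.

Proof. `sgi 1 N = ∏_p sp N p ≥ ∏_{p ∣ N} p / (p - 1) ∏_{p ≥ 3} (1 - 1 / (p - 1) ^ 2)` (`2 ∣ N`; `1 - 1 / (p - 1) ^ 2 ≤ 1`), and the last product over all odd primes is positive: `1 - 1/(p-1)^2 = p (p - 2) / (p - 1) ^ 2`, at least `∏_{m ≥ 3} (1 - 1 / (m - 1) ^ 2) = 1/2`. -/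
theorem sgi_lower : ∃ c : ℝ, 0 < c ∧ ∀ N : ℕ, 1 ≤ N → Even N → c * ((N : ℝ) / N.totient) ≤ sgi 1 N := by
  classical
  refine ⟨1 / 4, by norm_num, fun N hN hE => ?_⟩
  obtain ⟨z0, hz0⟩ := SG_half 1 N hN
  set z : ℕ := z0 + N + 3 with hz
  have h1 := hz0 z (by omega)
  have h2 := SG_fin N hN (SG_S z 1) 1 SG_S_spec
  set T : Finset ℕ := (SG_S z 1).filter (fun p => ¬ p ∣ N) with hT
  have hprod : ∏ p ∈ SG_S z 1, sp N p =
      (∏ p ∈ N.primeFactors, ((p : ℝ) / ((p : ℝ) - 1))) * ∏ p ∈ T, (1 - 1 / ((p : ℝ) - 1) ^ 2) := by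
    unfold sp
    rw [Finset.prod_ite]
    congr 1
    apply Finset.prod_congr _ fun _ _ => rfl
    ext p
    rw [Finset.mem_filter, SG_S, Finset.mem_filter, SG_P, Finset.mem_filter, Finset.mem_Icc,
      Nat.mem_primeFactors]
    constructor
    · rintro ⟨⟨⟨_, h3⟩, _⟩, h4⟩
      exact ⟨h3, h4, by omega⟩
    · rintro ⟨h3, h4, _⟩
      have := Nat.le_of_dvd (by omega) h4
      exact ⟨⟨⟨⟨h3.one_le, by omega⟩, h3⟩, fun h => h3.one_lt.ne' (Nat.dvd_one.1 h)⟩, h4⟩
  have hTge : 1 / 2 ≤ ∏ p ∈ T, (1 - 1 / ((p : ℝ) - 1) ^ 2) := by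
    have e1 : ∏ p ∈ T, (1 - 1 / ((p : ℝ) - 1) ^ 2) = ∏ j ∈ T.image (fun p : ℕ => p - 1), (1 - 1 / (j : ℝ) ^ 2) := by
      rw [Finset.prod_image]
      · apply Finset.prod_congr rfl
        intro p hp
        rw [hT, Finset.mem_filter] at hp
        have := (SG_S_spec p hp.1).1.one_le
        rw [Nat.cast_sub this]
        simp
      · intro a ha b hb hab
        rw [hT, Finset.coe_filter] at ha hb
        have h3 := (SG_S_spec a ha.1).1.one_le
        have h4 := (SG_S_spec b hb.1).1.one_le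
        simp only at hab
        omega
    have hsub : T.image (fun p : ℕ => p - 1) ⊆ Icc 2 ((z0 + N) + 2) := by
      intro j hj
      rw [Finset.mem_image] at hj
      obtain ⟨p, hp, rfl⟩ := hj
      rw [hT, Finset.mem_filter] at hp
      have h3 := (SG_S_spec p hp.1).1
      have h4 : p ≠ 2 := by
        rintro rfl
        exact hp.2 hE.two_dvd
      have h5 := h3.two_le
      have h6 : p ≤ z := by
        have := (Finset.mem_filter.1 hp.1).1
        rw [SG_P, Finset.mem_filter, Finset.mem_Icc] at this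
        exact this.1.2
      rw [Finset.mem_Icc]
      omega
    have hf : ∀ j ∈ Icc 2 ((z0 + N) + 2), 0 ≤ 1 - 1 / (j : ℝ) ^ 2 ∧ 1 - 1 / (j : ℝ) ^ 2 ≤ 1 := by
      intro j hj
      rw [Finset.mem_Icc] at hj
      have : (2 : ℝ) ≤ j := by exact_mod_cast hj.1
      constructor
      · rw [sub_nonneg, div_le_one (by positivity)]
        nlinarith
      · have : 0 ≤ 1 / (j : ℝ) ^ 2 := by positivity
        linarith
    rw [e1]
    have e2 : ∏ j ∈ Icc 2 ((z0 + N) + 2), (1 - 1 / (j : ℝ) ^ 2) ≤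
        ∏ j ∈ T.image (fun p : ℕ => p - 1), (1 - 1 / (j : ℝ) ^ 2) := by
      rw [← Finset.prod_sdiff hsub]
      apply mul_le_of_le_one_left
      · exact Finset.prod_nonneg fun j hj => (hf j (hsub hj)).1
      · exact Finset.prod_le_one (fun j hj => (hf j (Finset.mem_sdiff.1 hj).1).1)
          fun j hj => (hf j (Finset.mem_sdiff.1 hj).1).2
    refine le_trans ?_ e2
    rw [SG_telescope, div_le_div_iff₀ (by norm_num) (by positivity)]
    push_cast
    linarith
  rw [h2, hprod, ← SG_ratio hN]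
  have hR0 : 0 ≤ (N : ℝ) / N.totient := by positivity
  calc 1 / 4 * ((N : ℝ) / N.totient) = (N : ℝ) / N.totient * (1 / 2) * (1 / 2) := by ring
    _ ≤ (N : ℝ) / N.totient * (∏ p ∈ T, (1 - 1 / ((p : ℝ) - 1) ^ 2)) * sgi ((∏ p ∈ SG_S z 1, p) * 1) N := by
        apply mul_le_mul _ h1 (by norm_num)
        · exact mul_nonneg hR0 (le_trans (by norm_num) hTge)
        · exact mul_le_mul_of_nonneg_left hTge hR0

end Pool.Agent.PSG
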