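import Pool.Agent.W_b58c63_h44.Sel
import Pool.Agent.W_b58c63_h68.ArA

/-!
# Selberg's weights for the integers, with a coprimality condition
-/

set_option autoImplicit false

noncomputable section

open Finset

namespace Pool.Agent.PSG

/-- The density `1 / p`. -/
def hin (p : ℕ) : ℝ := 1 / (p : ℝ)

theorem SelQ_hin {p : ℕ} (hp : p.Prime) : 0 < hin p ∧ hin p < 1 := by
  have h2 : (1 : ℝ) < p := by exact_mod_cast hp.one_lt
  unfold hin
  constructor
  · positivity
  · rw [div_lt_one (by linarith)]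
    exact h2

theorem SelQ_pp {n : ℕ} (hn : Squarefree n) : pp hin n = 1 / (n : ℝ) := by
  unfold pp hin
  conv_rhs => rw [← Nat.prod_primeFactors_of_squarefree hn]
  push_cast
  rw [one_div, ← Finset.prod_inv_distrib]
  exact Finset.prod_congr rfl fun p _ => one_div _

theorem SelQ_gg (n : ℕ) : gg hin n = ∏ p ∈ n.primeFactors, ((p : ℝ) - 1)⁻¹ := by
  unfold gg pp hin
  refine Finset.prod_congr rfl fun p hp => ?_
  have h2 : (1 : ℝ) < p := by exact_mod_cast (Nat.prime_of_mem_primeFactors hp).one_lt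
  have h3 : (p : ℝ) - 1 ≠ 0 := by linarith
  have h4 : (p : ℝ) ≠ 0 := by linarith
  have h5 : 1 - 1 / (p : ℝ) ≠ 0 := by
    rw [one_sub_div h4]
    exact div_ne_zero h3 h4
  field_simp

theorem SelQ_tot (n : ℕ) : (n.totient : ℝ) * ∏ p ∈ n.primeFactors, (p : ℝ) =
    n * ∏ p ∈ n.primeFactors, ((p : ℝ) - 1) := by
  have h := Nat.totient_mul_prod_primeFactors n
  have h1 : (∏ p ∈ n.primeFactors, ((p : ℝ) - 1)) = ((∏ p ∈ n.primeFactors, (p - 1) : ℕ) : ℝ) := by
    push_cast
    refine Finset.prod_congr rfl fun p hp => ?_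
    rw [Nat.cast_sub (Nat.prime_of_mem_primeFactors hp).one_le, Nat.cast_one]
  rw [h1, ← Nat.cast_prod, ← Nat.cast_mul, h, Nat.cast_mul]

theorem SelQ_gg_tot {n : ℕ} (hn : Squarefree n) : gg hin n = 1 / (n.totient : ℝ) := by
  have h := SelQ_tot n
  have h1 : (∏ p ∈ n.primeFactors, (p : ℝ)) = n := by
    rw [← Nat.cast_prod, Nat.prod_primeFactors_of_squarefree hn]
  rw [h1] at h
  have hn0 : (n : ℝ) ≠ 0 := by exact_mod_cast hn.ne_zero
  have h2 : (n.totient : ℝ) = ∏ p ∈ n.primeFactors, ((p : ℝ) - 1) := by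
    apply mul_right_cancel₀ hn0
    rw [h, mul_comm]
  rw [SelQ_gg, h2, Finset.prod_inv_distrib, one_div]

/-- The radical. -/
def SelQ_rad (n : ℕ) : ℕ := ∏ p ∈ n.primeFactors, p

theorem SelQ_rad_pf (n : ℕ) : (SelQ_rad n).primeFactors = n.primeFactors :=
  Nat.primeFactors_prod fun _ hp => Nat.prime_of_mem_primeFactors hp

theorem SelQ_rad_pos (n : ℕ) : 0 < SelQ_rad n :=
  Finset.prod_pos fun _ hp => (Nat.prime_of_mem_primeFactors hp).pos

theorem SelQ_rad_dvd (n : ℕ) : SelQ_rad n ∣ n := Nat.prod_primeFactors_dvd n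

theorem SelQ_rad_sq (n : ℕ) : Squarefree (SelQ_rad n) := by
  unfold SelQ_rad
  exact Finset.squarefree_prod_of_pairwise_isCoprime
    (fun p hp q hq hpq => Nat.coprime_iff_isRelPrime.1 ((Nat.coprime_primes (Nat.prime_of_mem_primeFactors hp)
      (Nat.prime_of_mem_primeFactors hq)).2 hpq))
    (fun p hp => (Nat.prime_of_mem_primeFactors hp).squarefree)

/-- The reciprocal as a homomorphism. -/
def SelQ_inv : ℕ →* ℝ where
  toFun n := (n : ℝ)⁻¹
  map_one' := by simp
  map_mul' a b := by push_cast; rw [mul_inv]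

theorem SelQ_ker (d : ℕ) (hd : Squarefree d) (T : Finset ℕ) (hT : ∀ n ∈ T, n ≠ 0 ∧ SelQ_rad n = d) :
    ∑ n ∈ T, (n : ℝ)⁻¹ ≤ gg hin d := by
  classical
  have hd0 : 0 < d := Nat.pos_of_ne_zero hd.ne_zero
  have hdR : (0 : ℝ) < d := by exact_mod_cast hd0
  have hsum := (EulerProduct.summable_and_hasSum_factoredNumbers_prod_filter_prime_geometric (f := SelQ_inv)
    (fun {p} hp => by
      have h2 : (1 : ℝ) < p := by exact_mod_cast hp.one_lt
      change ‖(p : ℝ)⁻¹‖ < 1
      rw [Real.norm_eq_abs, abs_of_pos (by positivity)]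
      exact inv_lt_one_of_one_lt₀ h2) d.primeFactors).2
  have h0 := (hasSum_subtype_iff_indicator (f := fun m : ℕ => SelQ_inv m)
    (s := Nat.factoredNumbers d.primeFactors)).1 hsum
  have hle := sum_le_hasSum (T.image (fun n => n / d)) (fun m _ => by
    by_cases hm : m ∈ Nat.factoredNumbers d.primeFactors
    · rw [Set.indicator_of_mem hm]
      change 0 ≤ (m : ℝ)⁻¹
      positivity
    · rw [Set.indicator_of_notMem hm]) h0
  have hdvd : ∀ n ∈ T, d ∣ n := fun n hn => by
    rw [← (hT n hn).2]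
    exact SelQ_rad_dvd n
  have hinj : Set.InjOn (fun n => n / d) (T : Set ℕ) := by
    intro a ha b hb hab
    have h1 := Nat.mul_div_cancel' (hdvd a ha)
    have h2 := Nat.mul_div_cancel' (hdvd b hb)
    simp only at hab
    rw [← h1, ← h2, hab]
  rw [Finset.sum_image hinj] at hle
  have heq : ∀ n ∈ T, (n : ℝ)⁻¹ = (d : ℝ)⁻¹ * (Nat.factoredNumbers d.primeFactors).indicator
      (fun m : ℕ => SelQ_inv m) (n / d) := by
    intro n hn
    obtain ⟨m, hm⟩ := hdvd n hn
    subst hm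
    have hm0 : m ≠ 0 := by
      rintro rfl
      exact (hT _ hn).1 (by simp)
    rw [Nat.mul_div_cancel_left _ hd0, Set.indicator_of_mem]
    · change _ = (d : ℝ)⁻¹ * (m : ℝ)⁻¹
      push_cast
      rw [mul_inv]
    · refine Nat.mem_factoredNumbers_of_primeFactors_subset hm0 ?_
      have h1 : (d * m).primeFactors = d.primeFactors := by
        rw [← SelQ_rad_pf (d * m), (hT _ hn).2]
      rw [← h1]
      exact Nat.primeFactors_mono (dvd_mul_left _ _) (by positivity)
  rw [Finset.sum_congr rfl heq, ← Finset.mul_sum]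
  have hfin : gg hin d = (d : ℝ)⁻¹ * ∏ p ∈ d.primeFactors with p.Prime, (1 - SelQ_inv p)⁻¹ := by
    have hf : (d.primeFactors.filter fun p => p.Prime) = d.primeFactors := by
      rw [Finset.filter_true_of_mem]
      exact fun p hp => Nat.prime_of_mem_primeFactors hp
    rw [hf, SelQ_gg]
    have h1 : (d : ℝ)⁻¹ = ∏ p ∈ d.primeFactors, (p : ℝ)⁻¹ := by
      conv_lhs => rw [← Nat.prod_primeFactors_of_squarefree hd]
      push_cast
      rw [Finset.prod_inv_distrib]
    rw [h1, ← Finset.prod_mul_distrib]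
    refine Finset.prod_congr rfl fun p hp => ?_
    have h2 : (1 : ℝ) < p := by exact_mod_cast (Nat.prime_of_mem_primeFactors hp).one_lt
    have h4 : (p : ℝ) ≠ 0 := by linarith
    change _ = (p : ℝ)⁻¹ * (1 - (p : ℝ)⁻¹)⁻¹
    rw [← mul_inv]
    congr 1
    field_simp
  rw [hfin]
  exact mul_le_mul_of_nonneg_left hle (by positivity)

/-- `G(z) ≥ log z`.

Proof. `gg hin d = 1 / φ(d)` for squarefree `d`, `= ∑ 1 / n` over the `n` with the same prime factors as `d` (geometric series). So `G(z) ≥ ∑_{n ≤ z} 1 / n ≥ log z`: every `n ≤ z` has a squarefree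
kernel `d ≤ z`. For a finite proof: it is enough to sum over `n ≤ z` with kernel `d`, a finite partial sum of the product of the geometric series. -/
theorem GG_ge (z : ℝ) (hz : 1 ≤ z) : Real.log z ≤ GG hin z := by
  classical
  have h1 := log_le_harmonic_floor z (by linarith)
  refine h1.trans ?_
  rw [harmonic_eq_sum_Icc]
  push_cast
  have hmap : ∀ n ∈ Icc 1 ⌊z⌋₊, SelQ_rad n ∈ SF z := by
    intro n hn
    rw [Finset.mem_Icc] at hn
    refine Sel_mem.2 ⟨SelQ_rad_pos n, ?_, SelQ_rad_sq n⟩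
    have h2 : SelQ_rad n ≤ n := Nat.le_of_dvd hn.1 (SelQ_rad_dvd n)
    have h3 : (n : ℝ) ≤ z := (Nat.le_floor_iff' (by omega)).1 hn.2
    exact le_trans (by exact_mod_cast h2) h3
  rw [← Finset.sum_fiberwise_of_maps_to hmap]
  unfold GG
  refine Finset.sum_le_sum fun d hd => ?_
  refine SelQ_ker d (Sel_mem.1 hd).2.2 _ fun n hn => ?_
  rw [Finset.mem_filter, Finset.mem_Icc] at hn
  exact ⟨by omega, hn.2⟩

/-- `G(z) ≤ C (1 + log z)`.

Proof. `gg hin d = 1 / φ(d)` for squarefree `d ≥ 1`, and `∑_{d ≤ z} 1 / φ(d) ≤ C (1 + log z)`: `Pool.Agent.Wb58c63.sum_inv_totient` (file `ArA.lean` of `W_b58c63_h68`), or `1 / φ(d) = (1/d) ∑_{e ∣ d} μ(e)^2 / φ(e)`. -/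
theorem GG_le : ∃ C : ℝ, 1 ≤ C ∧ ∀ z : ℝ, 1 ≤ z → GG hin z ≤ C * (1 + Real.log z) := by
  obtain ⟨C, hC, h⟩ := Pool.Agent.Wb58c63.sum_inv_totient
  refine ⟨max C 1, le_max_right _ _, fun z hz => ?_⟩
  have hfl : 1 ≤ ⌊z⌋₊ := (Nat.one_le_floor_iff z).2 hz
  have h1 := h ⌊z⌋₊ hfl
  have h2 : GG hin z ≤ ∑ m ∈ Icc 1 ⌊z⌋₊, (1 : ℝ) / m.totient := by
    unfold GG
    calc ∑ d ∈ SF z, gg hin d = ∑ d ∈ SF z, (1 : ℝ) / d.totient :=
          Finset.sum_congr rfl fun d hd => SelQ_gg_tot (Sel_mem.1 hd).2.2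
      _ ≤ ∑ m ∈ Icc 1 ⌊z⌋₊, (1 : ℝ) / m.totient :=
          Finset.sum_le_sum_of_subset_of_nonneg (Finset.filter_subset _ _) fun _ _ _ => by positivity
  have h3 : Real.log (⌊z⌋₊ : ℝ) ≤ Real.log z := by
    apply Real.log_le_log
    · exact_mod_cast hfl
    · exact Nat.floor_le (by linarith)
  have h4 : 0 ≤ Real.log (⌊z⌋₊ : ℝ) := Real.log_natCast_nonneg _
  calc GG hin z ≤ C * (1 + Real.log (⌊z⌋₊ : ℝ)) := h2.trans h1
    _ ≤ max C 1 * (1 + Real.log z) := by
        apply mul_le_mul (le_max_left _ _) (by linarith) (by linarith) (by positivity)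

theorem SelQ_R {q : ℕ} (hq : 1 ≤ q) : ∑ k ∈ (SelQ_rad q).divisors, gg hin k = (q : ℝ) / q.totient := by
  rw [show (fun k => gg hin k) = fun k => pp (fun p => hin p / (1 - hin p)) k from rfl]
  rw [Sel_sum_div _ (SelQ_rad_sq q), SelQ_rad_pf]
  have h := SelQ_tot q
  have hq0 : (0 : ℝ) < q := by exact_mod_cast hq
  have ht0 : (0 : ℝ) < q.totient := by exact_mod_cast Nat.totient_pos.2 hq
  have h1 : 0 < ∏ p ∈ q.primeFactors, ((p : ℝ) - 1) := by
    refine Finset.prod_pos fun p hp => ?_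
    have h2 : (1 : ℝ) < p := by exact_mod_cast (Nat.prime_of_mem_primeFactors hp).one_lt
    linarith
  have h3 : ∏ p ∈ q.primeFactors, (1 + hin p / (1 - hin p)) =
      (∏ p ∈ q.primeFactors, (p : ℝ)) / ∏ p ∈ q.primeFactors, ((p : ℝ) - 1) := by
    rw [← Finset.prod_div_distrib]
    refine Finset.prod_congr rfl fun p hp => ?_
    have h2 : (1 : ℝ) < p := by exact_mod_cast (Nat.prime_of_mem_primeFactors hp).one_lt
    have h3 : (p : ℝ) - 1 ≠ 0 := by linarith
    have h4 : (p : ℝ) ≠ 0 := by linarith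
    have h5 : 1 - 1 / (p : ℝ) ≠ 0 := by
      rw [one_sub_div h4]
      exact div_ne_zero h3 h4
    unfold hin
    field_simp
    ring
  rw [h3, div_eq_div_iff h1.ne' ht0.ne']
  linarith

theorem SelQ_sum_moebius (n : ℕ) : ∑ e ∈ n.divisors, (ArithmeticFunction.moebius e : ℝ) = if n = 1 then 1 else 0 := by
  have h3 := congrArg (fun F : ArithmeticFunction ℤ => F n) ArithmeticFunction.moebius_mul_coe_zeta
  simp only [ArithmeticFunction.coe_mul_zeta_apply, ArithmeticFunction.one_apply] at h3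
  exact_mod_cast h3

theorem SelQ_cop {d q : ℕ} (hd : d ≠ 0) (hq : q ≠ 0) : Nat.Coprime d q ↔ Nat.Coprime d (SelQ_rad q) := by
  rw [← Nat.disjoint_primeFactors hd hq, ← Nat.disjoint_primeFactors hd (SelQ_rad_pos q).ne', SelQ_rad_pf]

/-- The coprime part of the sums. -/
theorem SelQ_Y (z : ℝ) (hz : 1 ≤ z) (lam : ℕ → ℝ)
    (hl : ∀ f ∈ SF z, ∑ d ∈ (SF z).filter (fun d => f ∣ d), lam d * pp hin d =
        (ArithmeticFunction.moebius f : ℝ) * gg hin f / GG hin z) (q : ℕ) (hq : 1 ≤ q) (f : ℕ) (hf : f ∈ SF z)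
    (hfq : Nat.Coprime f q) :
    |∑ d ∈ ((SF z).filter (fun d => d.Coprime q)).filter (fun d => f ∣ d), lam d * pp hin d| ≤
      gg hin f / GG hin z * ((q : ℝ) / q.totient) := by
  classical
  have hg := Sel_gg_pos hin (fun p hp => SelQ_hin hp)
  have h1mem : 1 ∈ SF z := Sel_mem.2 ⟨le_rfl, by exact_mod_cast hz, squarefree_one⟩
  have hG : 0 < GG hin z := Finset.sum_pos (fun d _ => hg d) ⟨1, h1mem⟩
  have hq0 : q ≠ 0 := by omega
  set r := SelQ_rad q with hr
  have hr0 : r ≠ 0 := (SelQ_rad_pos q).ne'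
  have hfr : Nat.Coprime f r := (SelQ_cop (Sel_mem.1 hf).2.2.ne_zero hq0).1 hfq
  have h1 : ∑ d ∈ ((SF z).filter (fun d => d.Coprime q)).filter (fun d => f ∣ d), lam d * pp hin d =
      ∑ k ∈ r.divisors, (ArithmeticFunction.moebius k : ℝ) *
        ∑ d ∈ (SF z).filter (fun d => f * k ∣ d), lam d * pp hin d := by
    have h2 : ∀ k ∈ r.divisors, (ArithmeticFunction.moebius k : ℝ) *
        ∑ d ∈ (SF z).filter (fun d => f * k ∣ d), lam d * pp hin d =
        ∑ d ∈ (SF z).filter (fun d => f ∣ d), (if k ∣ d then (ArithmeticFunction.moebius k : ℝ) else 0) *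
          (lam d * pp hin d) := by
      intro k hk
      have hfk : Nat.Coprime f k := Nat.Coprime.coprime_dvd_right (Nat.dvd_of_mem_divisors hk) hfr
      have h3 : (SF z).filter (fun d => f * k ∣ d) = ((SF z).filter (fun d => f ∣ d)).filter (fun d => k ∣ d) := by
        ext d
        simp only [Finset.mem_filter]
        constructor
        · rintro ⟨h4, h5⟩
          exact ⟨⟨h4, (dvd_mul_right _ _).trans h5⟩, (dvd_mul_left _ _).trans h5⟩
        · rintro ⟨⟨h4, h5⟩, h6⟩
          exact ⟨h4, Nat.Coprime.mul_dvd_of_dvd_of_dvd hfk h5 h6⟩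
      rw [h3, Finset.sum_filter, Finset.mul_sum]
      refine Finset.sum_congr rfl fun d _ => ?_
      split_ifs <;> simp
    rw [Finset.sum_congr rfl h2, Finset.sum_comm]
    have h4 : ((SF z).filter (fun d => d.Coprime q)).filter (fun d => f ∣ d) =
        ((SF z).filter (fun d => f ∣ d)).filter (fun d => d.Coprime q) := by
      rw [Finset.filter_filter, Finset.filter_filter]
      refine Finset.filter_congr fun d _ => ?_
      exact and_comm
    rw [h4, Finset.sum_filter]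
    refine Finset.sum_congr rfl fun d hd => ?_
    rw [Finset.mem_filter] at hd
    have hd0 : d ≠ 0 := (Sel_mem.1 hd.1).2.2.ne_zero
    rw [← Finset.sum_mul]
    have h5 : ∑ k ∈ r.divisors, (if k ∣ d then (ArithmeticFunction.moebius k : ℝ) else 0) =
        ∑ k ∈ (Nat.gcd d r).divisors, (ArithmeticFunction.moebius k : ℝ) := by
      rw [← Finset.sum_filter]
      refine Finset.sum_congr ?_ fun _ _ => rfl
      ext k
      rw [Finset.mem_filter, Nat.mem_divisors, Nat.mem_divisors, Nat.dvd_gcd_iff]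
      constructor
      · rintro ⟨⟨h6, _⟩, h7⟩
        exact ⟨⟨h7, h6⟩, Nat.gcd_ne_zero_left hd0⟩
      · rintro ⟨⟨h6, h7⟩, _⟩
        exact ⟨⟨h7, hr0⟩, h6⟩
    rw [h5, SelQ_sum_moebius]
    by_cases hdq : Nat.Coprime d q
    · rw [if_pos hdq, if_pos ((SelQ_cop hd0 hq0).1 hdq), one_mul]
    · rw [if_neg hdq, if_neg (fun h => hdq ((SelQ_cop hd0 hq0).2 h)), zero_mul]
  rw [h1, ← SelQ_R hq, Finset.mul_sum]
  refine (Finset.abs_sum_le_sum_abs _ _).trans (Finset.sum_le_sum fun k hk => ?_)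
  have hkr := Nat.dvd_of_mem_divisors hk
  have hfk : Nat.Coprime f k := Nat.Coprime.coprime_dvd_right hkr hfr
  have hmu : ∀ n : ℕ, |(ArithmeticFunction.moebius n : ℝ)| ≤ 1 := fun n => by
    have := ArithmeticFunction.abs_moebius_le_one (n := n)
    exact_mod_cast this
  rw [abs_mul]
  by_cases hmem : f * k ∈ SF z
  · rw [hl _ hmem, abs_div, abs_mul, abs_of_pos hG, abs_of_pos (hg _), Sel_gg_mul hin hfk]
    calc |(ArithmeticFunction.moebius k : ℝ)| * (|(ArithmeticFunction.moebius (f * k) : ℝ)| *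
          (gg hin f * gg hin k) / GG hin z)
        ≤ 1 * (1 * (gg hin f * gg hin k) / GG hin z) := by
          have hp : 0 ≤ gg hin f * gg hin k := (mul_pos (hg _) (hg _)).le
          apply mul_le_mul (hmu _) _ _ zero_le_one
          · apply div_le_div_of_nonneg_right _ hG.le
            exact mul_le_mul_of_nonneg_right (hmu _) hp
          · positivity
      _ = gg hin f / GG hin z * gg hin k := by ring
  · have h6 : (SF z).filter (fun d => f * k ∣ d) = ∅ := by
      rw [Finset.filter_eq_empty_iff]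
      intro d hd h7
      exact hmem (Sel_dvd hd h7)
    rw [h6, Finset.sum_empty, abs_zero, mul_zero]
    exact mul_nonneg (div_pos (hg _) hG).le (hg _).le

/-- `(q / φ(q)) ∑_{f ≤ z, (f, q) = 1} g f ≤ G(z q)`. -/
theorem SelQ_sum_le (z : ℝ) (q : ℕ) (hq : 1 ≤ q) :
    ((q : ℝ) / q.totient) * ∑ f ∈ (SF z).filter (fun f => f.Coprime q), gg hin f ≤ GG hin (q * z) := by
  classical
  have hg := Sel_gg_pos hin (fun p hp => SelQ_hin hp)
  have hq0 : q ≠ 0 := by omega
  have hqR : (0 : ℝ) < q := by exact_mod_cast hq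
  rw [← SelQ_R hq, Finset.sum_mul_sum, ← Finset.sum_product']
  set r := SelQ_rad q with hr
  have hr0 : r ≠ 0 := (SelQ_rad_pos q).ne'
  have hcop : ∀ f ∈ (SF z).filter (fun f => f.Coprime q), Nat.Coprime f r := fun f hf => by
    rw [Finset.mem_filter] at hf
    exact (SelQ_cop (Sel_mem.1 hf.1).2.2.ne_zero hq0).1 hf.2
  have hinj : Set.InjOn (fun x : ℕ × ℕ => x.1 * x.2)
      (r.divisors ×ˢ (SF z).filter (fun f => f.Coprime q) : Finset (ℕ × ℕ)) := by
    rintro ⟨k, f⟩ hx ⟨k', f'⟩ hx' heq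
    rw [Finset.mem_coe, Finset.mem_product] at hx hx'
    simp only at hx hx' heq
    have c1 := hcop f hx.2
    have c2 := hcop f' hx'.2
    have e1 : Nat.gcd (k * f) r = k := by
      rw [Nat.Coprime.gcd_mul_right_cancel _ c1]
      exact Nat.gcd_eq_left (Nat.dvd_of_mem_divisors hx.1)
    have e2 : Nat.gcd (k' * f') r = k' := by
      rw [Nat.Coprime.gcd_mul_right_cancel _ c2]
      exact Nat.gcd_eq_left (Nat.dvd_of_mem_divisors hx'.1)
    have e3 : k = k' := by rw [← e1, ← e2, heq]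
    subst e3
    have hl : 0 < k := Nat.pos_of_mem_divisors hx.1
    have : f = f' := Nat.eq_of_mul_eq_mul_left hl heq
    rw [this]
  have hsub : (r.divisors ×ˢ (SF z).filter (fun f => f.Coprime q)).image (fun x : ℕ × ℕ => x.1 * x.2) ⊆
      SF (q * z) := by
    intro n hn
    rw [Finset.mem_image] at hn
    obtain ⟨⟨k, f⟩, hx, rfl⟩ := hn
    rw [Finset.mem_product] at hx
    simp only at hx ⊢
    have c1 := hcop f hx.2
    have hf := Sel_mem.1 (Finset.mem_filter.1 hx.2).1
    have hk := Nat.dvd_of_mem_divisors hx.1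
    have hk0 : 0 < k := Nat.pos_of_mem_divisors hx.1
    refine Sel_mem.2 ⟨Nat.mul_pos hk0 hf.1, ?_, ?_⟩
    · have h1 : (k : ℝ) ≤ q := by exact_mod_cast Nat.le_of_dvd hq (hk.trans (SelQ_rad_dvd q))
      have h2 : (0 : ℝ) ≤ f := Nat.cast_nonneg _
      push_cast
      exact mul_le_mul h1 hf.2.1 h2 hqR.le
    · exact (Nat.squarefree_mul (Nat.Coprime.coprime_dvd_right hk c1).symm).2
        ⟨(SelQ_rad_sq q).squarefree_of_dvd hk, hf.2.2⟩
  calc ∑ x ∈ r.divisors ×ˢ (SF z).filter (fun f => f.Coprime q), gg hin x.1 * gg hin x.2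
      = ∑ x ∈ r.divisors ×ˢ (SF z).filter (fun f => f.Coprime q), gg hin (x.1 * x.2) := by
        refine Finset.sum_congr rfl fun x hx => ?_
        rw [Finset.mem_product] at hx
        exact (Sel_gg_mul hin (Nat.Coprime.coprime_dvd_right (Nat.dvd_of_mem_divisors hx.1) (hcop _ hx.2)).symm).symm
    _ = ∑ n ∈ (r.divisors ×ˢ (SF z).filter (fun f => f.Coprime q)).image (fun x : ℕ × ℕ => x.1 * x.2), gg hin n := by
        rw [Finset.sum_image hinj]
    _ ≤ GG hin (q * z) := Finset.sum_le_sum_of_subset_of_nonneg hsub fun n _ _ => (hg n).le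

/-- The Selberg weights restricted to the numbers prime to `q`.

Proof. Let `D = (SF z).filter (Coprime · q)`, `g d = gg hin d = 1 / φ(d)`, `G = GG hin z`. By `selberg_diag` the left side is `∑_{f ∈ SF z} φ(f) Y_f ^ 2 ≥ 0` with `Y_f = ∑_{d ∈ D, f ∣ d} lam d / d`, which is
`0` unless `(f, q) = 1`. For `(f, q) = 1`: `∑_{k ∣ q, k ∈ SF} μ(k) [k ∣ d] = [(d, q) = 1]` gives `Y_f = ∑_{k ∣ q squarefree} μ(k) ∑_{f k ∣ d ≤ z} lam d / d = ∑_{k ∣ q, f k ≤ z} μ(k) μ(f k) g (f k) / G` (for `f k > z` the inner sum is empty), so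
`Y_f = (μ(f) g f / G) ∑_{k ∣ q squarefree, f k ≤ z} g k`, `|Y_f| ≤ (g f / G) (q / φ(q))`, since `∑_{k ∣ q squarefree} 1 / φ(k) = q / φ(q)`. So the form is at most
`(q / φ(q)) ^ 2 G ^ (-2) ∑_{f ∈ SF z, (f, q) = 1} g f`. Finally `(q / φ(q)) ∑_{f ∈ SF z, (f, q) = 1} g f = ∑_{k ∣ q squarefree} ∑_f g (k f) ≤ GG hin (z q) ≤ GG hin (z ^ 2) ≤ 3 C log z` (`GG_le`, `z ≥ 2`; the products `k f` are different squarefree numbers `≤ q z`), and
`G ≥ log z`. Total at most `(q / φ(q)) 3 C log z / (log z) ^ 2`. -/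
theorem sel_q : ∃ C : ℝ, 1 ≤ C ∧ ∀ z : ℝ, 2 ≤ z → ∀ lam : ℕ → ℝ,
    (∀ f ∈ SF z, ∑ d ∈ (SF z).filter (fun d => f ∣ d), lam d * pp hin d =
        (ArithmeticFunction.moebius f : ℝ) * gg hin f / GG hin z) →
    ∀ q : ℕ, 1 ≤ q → (q : ℝ) ≤ z →
    0 ≤ ∑ d ∈ (SF z).filter (fun d => d.Coprime q), ∑ e ∈ (SF z).filter (fun e => e.Coprime q),
        lam d * lam e / (Nat.lcm d e : ℝ) ∧
    ∑ d ∈ (SF z).filter (fun d => d.Coprime q), ∑ e ∈ (SF z).filter (fun e => e.Coprime q),
        lam d * lam e / (Nat.lcm d e : ℝ) ≤ C * ((q : ℝ) / q.totient) / Real.log z := by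
  classical
  obtain ⟨C, hC, hGle⟩ := GG_le
  refine ⟨4 * C, by linarith, fun z hz lam hl q hq hqz => ?_⟩
  have hg := Sel_gg_pos hin (fun p hp => SelQ_hin hp)
  have hz1 : 1 ≤ z := by linarith
  have h1mem : 1 ∈ SF z := Sel_mem.2 ⟨le_rfl, by exact_mod_cast hz1, squarefree_one⟩
  have hG : 0 < GG hin z := Finset.sum_pos (fun d _ => hg d) ⟨1, h1mem⟩
  have hqR : (0 : ℝ) < q := by exact_mod_cast hq
  have ht0 : (0 : ℝ) < q.totient := by exact_mod_cast Nat.totient_pos.2 hq
  have hD : (SF z).filter (fun d => d.Coprime q) ⊆ SF z := Finset.filter_subset _ _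
  have heq : ∑ d ∈ (SF z).filter (fun d => d.Coprime q), ∑ e ∈ (SF z).filter (fun e => e.Coprime q),
        lam d * lam e / (Nat.lcm d e : ℝ) =
      ∑ f ∈ SF z, (1 / gg hin f) *
        (∑ d ∈ ((SF z).filter (fun d => d.Coprime q)).filter (fun d => f ∣ d), lam d * pp hin d) ^ 2 := by
    rw [← selberg_diag hin (fun p hp => SelQ_hin hp) z _ hD lam]
    refine Finset.sum_congr rfl fun d hd => Finset.sum_congr rfl fun e he => ?_
    have hd' := Sel_mem.1 (hD hd)
    have he' := Sel_mem.1 (hD he)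
    have hsq : Squarefree (Nat.lcm d e) := by
      have hd0 := hd'.2.2.ne_zero
      have he0 := he'.2.2.ne_zero
      rw [Nat.squarefree_iff_factorization_le_one (Nat.lcm_ne_zero hd0 he0)]
      intro p
      rw [Nat.factorization_lcm hd0 he0]
      exact sup_le ((Nat.squarefree_iff_factorization_le_one hd0).1 hd'.2.2 p)
        ((Nat.squarefree_iff_factorization_le_one he0).1 he'.2.2 p)
    rw [SelQ_pp hsq]
    ring
  rw [heq]
  have hlog : 0 < Real.log z := Real.log_pos (by linarith)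
  have hlogG := GG_ge z hz1
  constructor
  · exact Finset.sum_nonneg fun f _ => mul_nonneg (one_div_pos.2 (hg f)).le (sq_nonneg _)
  · set R : ℝ := (q : ℝ) / q.totient with hR
    have hR0 : 0 < R := div_pos hqR ht0
    have h1 : ∀ f ∈ SF z, (1 / gg hin f) *
        (∑ d ∈ ((SF z).filter (fun d => d.Coprime q)).filter (fun d => f ∣ d), lam d * pp hin d) ^ 2 ≤
        if f.Coprime q then gg hin f * (R / GG hin z) ^ 2 else 0 := by
      intro f hf
      by_cases hfq : f.Coprime q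
      · rw [if_pos hfq]
        have h2 := SelQ_Y z hz1 lam hl q hq f hf hfq
        have h3 := pow_le_pow_left₀ (abs_nonneg _) h2 2
        rw [sq_abs] at h3
        calc (1 / gg hin f) *
            (∑ d ∈ ((SF z).filter (fun d => d.Coprime q)).filter (fun d => f ∣ d), lam d * pp hin d) ^ 2
            ≤ (1 / gg hin f) * (gg hin f / GG hin z * R) ^ 2 :=
              mul_le_mul_of_nonneg_left h3 (one_div_pos.2 (hg f)).le
          _ = gg hin f * (R / GG hin z) ^ 2 := by
              have := (hg f).ne'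
              field_simp
      · rw [if_neg hfq]
        have h2 : ((SF z).filter (fun d => d.Coprime q)).filter (fun d => f ∣ d) = ∅ := by
          rw [Finset.filter_eq_empty_iff]
          intro d hd h3
          rw [Finset.mem_filter] at hd
          exact hfq (Nat.Coprime.coprime_dvd_left h3 hd.2)
        rw [h2]
        simp
    have h2 := Finset.sum_le_sum h1
    refine h2.trans ?_
    rw [← Finset.sum_filter, ← Finset.sum_mul]
    have h3 := SelQ_sum_le z q hq
    rw [← hR] at h3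
    have h4 : GG hin (q * z) ≤ 4 * C * Real.log z := by
      have h5 : (1 : ℝ) ≤ q * z := by
        have : (1 : ℝ) ≤ q := by exact_mod_cast hq
        nlinarith
      refine (hGle _ h5).trans ?_
      rw [Real.log_mul hqR.ne' (by linarith)]
      have h6 : Real.log q ≤ Real.log z := Real.log_le_log hqR hqz
      have h7 : Real.log 2 ≤ Real.log z := Real.log_le_log (by norm_num) hz
      have h8 := Real.log_two_gt_d9
      nlinarith
    have h5 : (R / GG hin z) ^ 2 = R * (R / (GG hin z) ^ 2) := by ring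
    calc (∑ f ∈ (SF z).filter (fun f => f.Coprime q), gg hin f) * (R / GG hin z) ^ 2
        = (R * ∑ f ∈ (SF z).filter (fun f => f.Coprime q), gg hin f) * (R / (GG hin z) ^ 2) := by
          rw [h5]; ring
      _ ≤ (4 * C * Real.log z) * (R / (GG hin z) ^ 2) :=
          mul_le_mul_of_nonneg_right (h3.trans h4) (by positivity)
      _ ≤ (4 * C * Real.log z) * (R / (Real.log z) ^ 2) := by
          apply mul_le_mul_of_nonneg_left
          · apply div_le_div_of_nonneg_left hR0.le (by positivity)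
            exact pow_le_pow_left₀ hlog.le hlogG 2
          · positivity
      _ = 4 * C * R / Real.log z := by
          have := hlog.ne'
          field_simp

end Pool.Agent.PSG
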