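import Pool.Agent.W_b58c63_h44.EB
import Pool.Agent.W_b58c63_h44.EI
import Pool.Agent.W_b58c63_h44.Itf
import Pool.Agent.W_b58c63_h44.W1

/-!
# Smooth sums at points far from the zeros
-/

set_option autoImplicit false

noncomputable section

open Finset Complex MeasureTheory

namespace Pool.Agent.PSG

/-- Points with distance at least `H` from the ordinates of the zeros and from the pole. -/
def Good (δ H X : ℝ) {q : ℕ} (χ : DirichletCharacter ℂ q) (t : ℝ) : Prop :=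
  (∀ ρ ∈ ZR (EF χ) δ X, H ≤ |ρ.im - t|) ∧ (χ = 1 → H ≤ |t|)

theorem TB_A_nonneg {J : ℕ} {A B : ℝ} {w : ℝ → ℂ} (hw : IsW J A B w) : 0 ≤ A := by
  have h := hw.2.2 0 (Nat.zero_le _) 0
  rw [pow_zero, mul_one] at h
  exact (norm_nonneg _).trans h

/-- One term of the main terms. -/
theorem TB_term {C' A X δ Z t : ℝ} {J : ℕ} {w : ℝ → ℂ} (hC' : 1 ≤ C') (hA : 0 ≤ A) (hX : 3 ≤ X)
    (hδ : 0 < δ) (hJ : 900 / δ ≤ J) (hZ : 1 ≤ Z) (hZX : Z ≤ X ^ 2) (hw : IsW J A 1 w)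
    (hdec : ∀ (A B : ℝ) (w : ℝ → ℂ), 0 ≤ A → 1 ≤ B → IsW J A B w → ∀ s : ℂ, -1 ≤ s.re →
      s.re ≤ 3 → ‖mellin w s‖ ≤ C' * A ∧
        (1 ≤ |s.im| → ‖mellin w s‖ ≤ C' * A * (B / |s.im|) ^ J))
    (ρ : ℂ) (h0 : 0 ≤ ρ.re) (h1 : ρ.re ≤ 1) (him : X ^ (δ / 64) ≤ |ρ.im - t|) :
    ‖(Z : ℂ) ^ (ρ - t * I) * mellin w (ρ - t * I)‖ ≤ C' * A * X ^ (-12 : ℝ) := by
  have hX0 : 0 < X := by linarith
  have hZ0 : 0 < Z := by linarith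
  have hre : (ρ - t * I).re = ρ.re := by simp
  have himm : (ρ - t * I).im = ρ.im - t := by simp
  have hH1 : 1 ≤ X ^ (δ / 64) := Real.one_le_rpow (by linarith) (by positivity)
  have hH0 : 0 < X ^ (δ / 64) := by linarith
  have h2 := (hdec A 1 w hA le_rfl hw (ρ - t * I) (by rw [hre]; linarith) (by rw [hre]; linarith)).2
    (by rw [himm]; linarith)
  rw [himm] at h2
  have h3 : (1 / |ρ.im - t|) ^ J ≤ X ^ (-14 : ℝ) := by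
    have h4 : 1 / |ρ.im - t| ≤ X ^ (-(δ / 64)) := by
      rw [Real.rpow_neg hX0.le, one_div]
      exact inv_anti₀ hH0 him
    calc (1 / |ρ.im - t|) ^ J ≤ (X ^ (-(δ / 64))) ^ J :=
          pow_le_pow_left₀ (by positivity) h4 J
      _ = X ^ (-(δ / 64) * J) := by rw [← Real.rpow_natCast, ← Real.rpow_mul hX0.le]
      _ ≤ X ^ (-14 : ℝ) := by
        refine Real.rpow_le_rpow_of_exponent_le (by linarith) ?_
        rw [div_le_iff₀ hδ] at hJ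
        nlinarith
  have h5 : ‖(Z : ℂ) ^ (ρ - t * I)‖ ≤ X ^ (2 : ℝ) := by
    rw [Complex.norm_cpow_eq_rpow_re_of_pos hZ0, hre]
    calc Z ^ ρ.re ≤ Z ^ (1 : ℝ) := Real.rpow_le_rpow_of_exponent_le hZ h1
      _ = Z := Real.rpow_one Z
      _ ≤ X ^ 2 := hZX
      _ = X ^ (2 : ℝ) := by norm_cast
  rw [norm_mul]
  calc ‖(Z : ℂ) ^ (ρ - t * I)‖ * ‖mellin w (ρ - t * I)‖ ≤
      X ^ (2 : ℝ) * (C' * A * X ^ (-14 : ℝ)) := by
        refine mul_le_mul h5 (h2.trans (mul_le_mul_of_nonneg_left h3 (by positivity)))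
          (norm_nonneg _) (by positivity)
    _ = C' * A * (X ^ (2 : ℝ) * X ^ (-14 : ℝ)) := by ring
    _ = C' * A * X ^ (-12 : ℝ) := by
      rw [← Real.rpow_add hX0]
      norm_num

/-- The main terms are tiny at good points.

Proof. `κ₀` from `ZR_count`, `J = ⌈900 / δ⌉`. By `mellin_decay` (`B = 1`), for `ρ ∈ ZR (EF χ) δ X ⊆ ZR (EF χ) κ₀ X`: `‖mellin w (ρ - i t)‖ ≤ C' A |γ - t| ^ (-J) ≤ C' A X ^ (-14)`, `‖Z ^ (ρ - i t)‖ ≤ Z ≤ X ^ 2`, and the sum of the multiplicities is at most `C X log X`. The term with `dl χ` occurs only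
for `χ = 1`, and there `‖mellin w (1 - i t)‖ ≤ C' A |t| ^ (-J) ≤ C' A X ^ (-14)`. -/
theorem MM_small [WI] : ∃ κ₀ : ℝ, 0 < κ₀ ∧ κ₀ ≤ 1 / 16 ∧ ∀ δ : ℝ, 0 < δ → δ ≤ κ₀ → ∃ (J : ℕ) (C X₀ : ℝ), 1 ≤ C ∧ 3 ≤ X₀ ∧ ∀ X : ℝ, X₀ ≤ X →
    ∀ (q : ℕ) [NeZero q], (q : ℝ) ≤ X ^ κ₀ → ∀ (χ : DirichletCharacter ℂ q) (A : ℝ) (w : ℝ → ℂ), IsW J A 1 w →
    ∀ Z t : ℝ, 1 ≤ Z → Z ≤ X ^ 2 → Good δ (X ^ (δ / 64)) X χ t → ‖MM δ X χ w Z t‖ ≤ C * A * X ^ (-8 : ℝ) := by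
  obtain ⟨κ₀, C₁, X₁, hκ, hκ', hC₁, hX₁, hcount⟩ := ZR_count
  refine ⟨κ₀, hκ, hκ', fun δ hδ hδκ => ?_⟩
  obtain ⟨J, hJ⟩ := exists_nat_ge (900 / δ)
  obtain ⟨C', hC', hdec⟩ := mellin_decay J
  refine ⟨J, C' * (1 + C₁), X₁, ?_, hX₁, ?_⟩
  · nlinarith
  intro X hX q _ hq χ A w hw Z t hZ hZX hgood
  have hX3 : 3 ≤ X := hX₁.trans hX
  have hX0 : 0 < X := by linarith
  have hA := TB_A_nonneg hw
  have hnz : ∃ s, EF χ s ≠ 0 := ⟨1, EF_ne_zero χ 1 (by simp)⟩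
  have hmem := mem_ZR (EF χ) (EF_diff χ) hnz
  have hq1 : 1 ≤ q := Nat.one_le_iff_ne_zero.2 (NeZero.ne q)
  have hcnt : (∑ ρ ∈ ZR (EF χ) δ X, (mz (EF χ) ρ : ℝ)) ≤ C₁ * X ^ (2 : ℝ) := by
    calc (∑ ρ ∈ ZR (EF χ) δ X, (mz (EF χ) ρ : ℝ)) ≤ ∑ ρ ∈ ZR (EF χ) κ₀ X, (mz (EF χ) ρ : ℝ) := by
          refine Finset.sum_le_sum_of_subset_of_nonneg (fun ρ hρ => ?_)
            (fun _ _ _ => Nat.cast_nonneg _)
          rw [hmem] at hρ ⊢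
          exact ⟨hρ.1, by linarith [hρ.2.1], hρ.2.2⟩
      _ ≤ C₁ * X * Real.log X := hcount X hX q hq1 hq χ
      _ ≤ C₁ * X * X := by
          have : Real.log X ≤ X := (Real.log_le_sub_one_of_pos hX0).trans (by linarith)
          exact mul_le_mul_of_nonneg_left this (by positivity)
      _ = C₁ * X ^ (2 : ℝ) := by
          have : X ^ (2 : ℝ) = X ^ 2 := by norm_cast
          rw [this]
          ring
  have hterm := fun ρ h0 h1 him => TB_term (t := t) hC' hA hX3 hδ hJ hZ hZX hw hdec ρ h0 h1 him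
  have hP1 : X ^ (-12 : ℝ) ≤ X ^ (-8 : ℝ) :=
    Real.rpow_le_rpow_of_exponent_le (by linarith) (by norm_num)
  have hfirst : ‖(dl χ : ℂ) * ((Z : ℂ) ^ (1 - t * I) * mellin w (1 - t * I))‖ ≤
      C' * A * X ^ (-8 : ℝ) := by
    by_cases hχ : χ = 1
    · have h1 : dl χ = 1 := if_pos hχ
      rw [h1, Complex.ofReal_one, one_mul]
      refine (hterm 1 (by simp) (by simp) ?_).trans (mul_le_mul_of_nonneg_left hP1 (by positivity))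
      have h2 := hgood.2 hχ
      simpa using h2
    · have h1 : dl χ = 0 := if_neg hχ
      rw [h1, Complex.ofReal_zero, zero_mul, norm_zero]
      positivity
  have hsecond : ‖∑ ρ ∈ ZR (EF χ) δ X, (mz (EF χ) ρ : ℂ) *
      ((Z : ℂ) ^ (ρ - t * I) * mellin w (ρ - t * I))‖ ≤ C' * C₁ * A * X ^ (-8 : ℝ) := by
    refine (norm_sum_le _ _).trans ?_
    calc ∑ ρ ∈ ZR (EF χ) δ X, ‖(mz (EF χ) ρ : ℂ) *
          ((Z : ℂ) ^ (ρ - t * I) * mellin w (ρ - t * I))‖ ≤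
          ∑ ρ ∈ ZR (EF χ) δ X, (mz (EF χ) ρ : ℝ) * (C' * A * X ^ (-12 : ℝ)) := by
          refine Finset.sum_le_sum fun ρ hρ => ?_
          have hρ' := (hmem δ X ρ).1 hρ
          rw [norm_mul, Complex.norm_natCast]
          exact mul_le_mul_of_nonneg_left (hterm ρ (by linarith [hρ'.2.1]) hρ'.2.2.1
            (hgood.1 ρ hρ)) (Nat.cast_nonneg _)
      _ = (∑ ρ ∈ ZR (EF χ) δ X, (mz (EF χ) ρ : ℝ)) * (C' * A * X ^ (-12 : ℝ)) := by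
          rw [Finset.sum_mul]
      _ ≤ (C₁ * X ^ (2 : ℝ)) * (C' * A * X ^ (-12 : ℝ)) :=
          mul_le_mul_of_nonneg_right hcnt (by positivity)
      _ = C' * C₁ * A * (X ^ (2 : ℝ) * X ^ (-12 : ℝ)) := by ring
      _ = C' * C₁ * A * X ^ (-10 : ℝ) := by
          rw [← Real.rpow_add hX0]
          norm_num
      _ ≤ C' * C₁ * A * X ^ (-8 : ℝ) := by
          refine mul_le_mul_of_nonneg_left ?_ (by positivity)
          exact Real.rpow_le_rpow_of_exponent_le (by linarith) (by norm_num)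
  unfold MM
  refine (norm_sub_le _ _).trans ((add_le_add hfirst hsecond).trans (le_of_eq ?_))
  ring

/-- Smooth sums over primes at good points.

Proof. `smooth_explicit` with `B = 1` and `MM_small` (take the minima of the constants; `X ^ (-8) ≤ Z ^ (1 - δ) X ^ ε₄`). -/
theorem A_bound [WI] [SEI] : ∃ κ₁ : ℝ, 0 < κ₁ ∧ κ₁ ≤ 1 / 16 ∧ ∀ δ : ℝ, 0 < δ → δ ≤ κ₁ → ∀ ε₄ : ℝ, 0 < ε₄ → ε₄ ≤ 1 →
    ∃ (J : ℕ) (ε C X₀ : ℝ), 0 < ε ∧ 1 ≤ C ∧ 3 ≤ X₀ ∧ ∀ X : ℝ, X₀ ≤ X → ∀ (q : ℕ) [NeZero q], (q : ℝ) ≤ X ^ ε →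
    ∀ (χ : DirichletCharacter ℂ q) (A : ℝ) (w : ℝ → ℂ), IsW J A 1 w → ∀ Z : ℝ, 4 ≤ Z → Z ≤ X ^ 2 →
    ∀ t : ℝ, |t| ≤ X / 4 → Good δ (X ^ (δ / 64)) X χ t → ‖DS χ w Z t‖ ≤ C * A * Z ^ (1 - δ) * X ^ ε₄ := by
  obtain ⟨κ₁, ε₁, hκ₁, hκ₁', hε₁, hε₁', hexp⟩ := SEI.smooth_explicit
  obtain ⟨κ₀, hκ₀, hκ₀', hMM⟩ := MM_small
  refine ⟨min κ₁ κ₀, lt_min hκ₁ hκ₀, (min_le_left _ _).trans hκ₁', fun δ hδ hδκ ε₄ hε₄ hε₄' => ?_⟩
  have hδ1 : δ ≤ κ₁ := hδκ.trans (min_le_left _ _)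
  have hδ0 : δ ≤ κ₀ := hδκ.trans (min_le_right _ _)
  obtain ⟨J₁, C₁, X₁, hJ₁, hC₁, hX₁, h1⟩ := hexp δ hδ hδ1 ε₄ hε₄ hε₄'
  obtain ⟨J₂, C₂, X₂, hC₂, hX₂, h2⟩ := hMM δ hδ hδ0
  refine ⟨max J₁ J₂, min ε₁ κ₀, C₁ + C₂, max X₁ X₂, lt_min hε₁ hκ₀, by linarith,
    hX₁.trans (le_max_left _ _), ?_⟩
  intro X hX q _ hq χ A w hw Z hZ hZX t ht hgood
  have hXX₁ : X₁ ≤ X := (le_max_left _ _).trans hX
  have hXX₂ : X₂ ≤ X := (le_max_right _ _).trans hX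
  have hX3 : 3 ≤ X := hX₁.trans hXX₁
  have hA := TB_A_nonneg hw
  have hw₁ : IsW J₁ A 1 w := isW_mono hw (le_max_left _ _) zero_le_one le_rfl le_rfl
  have hw₂ : IsW J₂ A 1 w := isW_mono hw (le_max_right _ _) zero_le_one le_rfl le_rfl
  have hq₁ : (q : ℝ) ≤ X ^ ε₁ := hq.trans
    (Real.rpow_le_rpow_of_exponent_le (by linarith) (min_le_left _ _))
  have hq₂ : (q : ℝ) ≤ X ^ κ₀ := hq.trans
    (Real.rpow_le_rpow_of_exponent_le (by linarith) (min_le_right _ _))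
  have h3 := h1 X hXX₁ q hq₁ χ A 1 w le_rfl hw₁ Z hZ hZX t ht
  have h4 := h2 X hXX₂ q hq₂ χ A w hw₂ Z t (by linarith) hZX hgood
  have hZ1 : 1 ≤ Z ^ (1 - δ) := Real.one_le_rpow (by linarith) (by linarith)
  have hX1 : 1 ≤ X ^ ε₄ := Real.one_le_rpow (by linarith) hε₄.le
  have hX8 : X ^ (-8 : ℝ) ≤ 1 := by
    have := Real.rpow_le_rpow_of_exponent_le (x := X) (by linarith) (show (-8 : ℝ) ≤ 0 by norm_num)
    rwa [Real.rpow_zero] at this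
  have h5 : X ^ (-8 : ℝ) ≤ Z ^ (1 - δ) * X ^ ε₄ := hX8.trans (one_le_mul_of_one_le_of_one_le hZ1 hX1)
  have h6 : ‖DS χ w Z t‖ ≤ ‖DS χ w Z t - MM δ X χ w Z t‖ + ‖MM δ X χ w Z t‖ := by
    have := norm_add_le (DS χ w Z t - MM δ X χ w Z t) (MM δ X χ w Z t)
    rwa [sub_add_cancel] at this
  calc ‖DS χ w Z t‖ ≤ C₁ * A * 1 ^ 3 * Z ^ (1 - δ) * X ^ ε₄ + C₂ * A * X ^ (-8 : ℝ) :=
        h6.trans (add_le_add h3 h4)
    _ ≤ C₁ * A * 1 ^ 3 * Z ^ (1 - δ) * X ^ ε₄ + C₂ * A * (Z ^ (1 - δ) * X ^ ε₄) :=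
        add_le_add le_rfl (mul_le_mul_of_nonneg_left h5 (by positivity))
    _ = (C₁ + C₂) * A * Z ^ (1 - δ) * X ^ ε₄ := by ring

/-- The good set is measurable.

Proof. A finite intersection of closed sets. -/
theorem good_meas (δ H X T : ℝ) {q : ℕ} (χ : DirichletCharacter ℂ q) : MeasurableSet {t : ℝ | Good δ H X χ t ∧ |t| ≤ T} := by
  have h1 : IsClosed {t : ℝ | ∀ ρ ∈ ZR (EF χ) δ X, H ≤ |ρ.im - t|} := by
    have h : {t : ℝ | ∀ ρ ∈ ZR (EF χ) δ X, H ≤ |ρ.im - t|} =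
        ⋂ ρ ∈ ZR (EF χ) δ X, {t : ℝ | H ≤ |ρ.im - t|} := by
      ext t
      simp
    rw [h]
    exact isClosed_biInter fun ρ _ => isClosed_le continuous_const (by fun_prop)
  have h2 : IsClosed {t : ℝ | χ = 1 → H ≤ |t|} := by
    by_cases h : χ = 1
    · simp only [h, true_imp_iff]
      exact isClosed_le continuous_const continuous_abs
    · simp [h]
  have h3 : IsClosed {t : ℝ | |t| ≤ T} := isClosed_le continuous_abs continuous_const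
  exact ((h1.inter h2).inter h3).measurableSet

end Pool.Agent.PSG
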