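import Pool.Agent.W_b58c63_h44.TB
import Pool.Agent.W_b58c63_h44.MV
import Pool.Agent.W_b58c63_h68.ArA

/-!
# A block of type II
-/

set_option autoImplicit false

noncomputable section

open Finset Complex MeasureTheory

namespace Pool.Agent.PSG

/-- The bilinear block. -/
def BL (X M : ℝ) {q : ℕ} (χ : DirichletCharacter ℂ q) (b : ℕ → ℂ) (t : ℝ) : ℂ :=
  ∑ m ∈ Icc 1 ⌊16 * M⌋₊, ∑ k ∈ Icc 1 ⌊8 * X / M⌋₊, (ArithmeticFunction.vonMangoldt m : ℂ) * (w1 (m / M) : ℂ) * b k *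
        (χ ((m * k : ℕ) : ZMod q) * ((m * k : ℕ) : ℂ) ^ (-(t * I)) * (Wm ((m * k : ℕ) / X) : ℂ))

/-- The factor over the second variable. -/
def CC (X M : ℝ) {q : ℕ} (χ : DirichletCharacter ℂ q) (b : ℕ → ℂ) (t : ℝ) : ℂ :=
  ∑ k ∈ Icc ⌈X / (8 * M)⌉₊ ⌊8 * X / M⌋₊, b k * χ (k : ZMod q) * (k : ℂ) ^ (-(t * I))

theorem TC_zero (X M : ℝ) (hX : 1 ≤ X) (hM : 1 ≤ M) (m k : ℕ) (hk : (k : ℝ) < X / (8 * M)) :
    (w1 (m / M) : ℂ) * (Wm ((m * k : ℕ) / X) : ℂ) = 0 := by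
  have hX0 : 0 < X := by linarith
  have hM0 : 0 < M := by linarith
  by_cases h : (m : ℝ) / M ∈ Set.Icc (1 / 2 : ℝ) 2
  · have h1 : (m : ℝ) ≤ 2 * M := by
      have := h.2
      rwa [div_le_iff₀ hM0] at this
    have h2 : ((m * k : ℕ) : ℝ) / X < 1 / 4 := by
      rw [div_lt_iff₀ hX0]
      push_cast
      rw [lt_div_iff₀ (by positivity)] at hk
      have hk0 : (0 : ℝ) ≤ k := Nat.cast_nonneg k
      have h3 : (m : ℝ) * k ≤ 2 * M * k := mul_le_mul_of_nonneg_right h1 hk0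
      linarith
    rw [Wm_facts.2.1 _ (fun h3 => absurd h3.1 (not_le.2 h2)), Complex.ofReal_zero, mul_zero]
  · rw [w1_facts.2.1 _ h, Complex.ofReal_zero, zero_mul]

/-- The coefficient of the pair `m, k`. -/
def TC_c (M : ℝ) {q : ℕ} (χ : DirichletCharacter ℂ q) (b : ℕ → ℂ) (m k : ℕ) : ℂ :=
  (ArithmeticFunction.vonMangoldt m : ℂ) * (w1 (m / M) : ℂ) * b k * χ ((m * k : ℕ) : ZMod q)

theorem TC_expand (X M : ℝ) {q : ℕ} [NeZero q] (χ : DirichletCharacter ℂ q) (b : ℕ → ℂ) (t y : ℝ)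
    (S : Finset ℕ) :
    (X : ℂ) ^ (y * I) * mellin (fun x => (Wm x : ℂ)) (y * I) *
      DS χ (fun x => (w1 x : ℂ)) M (t + y) *
        (∑ k ∈ S, b k * χ (k : ZMod q) * (k : ℂ) ^ (-(((t + y : ℝ) : ℂ) * I))) =
    ∑ m ∈ Icc 1 ⌊16 * M⌋₊, ∑ k ∈ S, EI_G (fun x => (Wm x : ℂ)) X 0 y *
      (TC_c M χ b m k * ((m * k : ℕ) : ℂ) ^ (-(((0 : ℝ) : ℂ) + y * I + t * I))) := by
  unfold DS EI_G TC_c
  rw [Complex.ofReal_zero, zero_add, mul_assoc, Finset.sum_mul_sum, Finset.mul_sum]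
  refine Finset.sum_congr rfl fun m _ => ?_
  rw [Finset.mul_sum]
  refine Finset.sum_congr rfl fun k _ => ?_
  have h1 : ((m * k : ℕ) : ℂ) ^ (-(y * I + t * I)) =
      (m : ℂ) ^ (-(((t + y : ℝ) : ℂ) * I)) * (k : ℂ) ^ (-(((t + y : ℝ) : ℂ) * I)) := by
    rw [Nat.cast_mul, Complex.natCast_mul_natCast_cpow]
    have e : -((y : ℂ) * I + t * I) = -(((t + y : ℝ) : ℂ) * I) := by
      push_cast
      ring
    rw [e]
  rw [h1, Nat.cast_mul, map_mul]
  ring

theorem TC_int {J : ℕ} {A : ℝ} (hJ : 2 ≤ J) (hW : IsW J A 1 (fun x => (Wm x : ℂ))) (X : ℝ) (hX : 0 < X)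
    (n : ℕ) (hn : 0 < n) (t : ℝ) (c : ℂ) :
    Integrable fun y : ℝ => EI_G (fun x => (Wm x : ℂ)) X 0 y *
      (c * (n : ℂ) ^ (-(((0 : ℝ) : ℂ) + y * I + t * I))) := by
  have hn0 : (n : ℂ) ≠ 0 := by exact_mod_cast hn.ne'
  refine EI_mul_int A 1 _ (isW_mono hW hJ zero_le_one le_rfl le_rfl) X 0 hX (by norm_num) (by norm_num) _ ?_ ‖c‖ ?_
  · exact continuous_const.mul (Continuous.const_cpow (by fun_prop) (Or.inl hn0))
  · intro y
    rw [norm_mul, Complex.norm_natCast_cpow_of_pos hn, Complex.neg_re, EI_re]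
    simp

/-- **Separation of the variables.**

Proof. `w1 (m / M) ≠ 0` needs `M / 2 ≤ m ≤ 2 M`, and `Wm (m k / X) ≠ 0` needs `X / 4 ≤ m k`, so `k ≥ X / (8 M)`: the sum over `k` can be restricted to that of `CC`. `mellin_inv` with `c = 0`, `T = X / (m k)`: `Wm (m k / X) = (1 / (2 π)) ∫ X ^ (i y) (m k) ^ (-i y) mellin Wm (i y) dy`. -/
theorem block_int (X M : ℝ) (hX : 1 ≤ X) (hM : 1 ≤ M) (hMX : M ≤ X) {q : ℕ} [NeZero q] (χ : DirichletCharacter ℂ q) (b : ℕ → ℂ) (t : ℝ) :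
    BL X M χ b t = (1 / (2 * Real.pi) : ℂ) * ∫ y : ℝ, (X : ℂ) ^ (y * I) * mellin (fun x => (Wm x : ℂ)) (y * I) *
      DS χ (fun x => (w1 x : ℂ)) M (t + y) * CC X M χ b (t + y) := by
  obtain ⟨A, hA, _, hW, _, _⟩ := isW_fixed 2
  have hX0 : 0 < X := by linarith
  have hM0 : 0 < M := by linarith
  set S : Finset ℕ := Icc ⌈X / (8 * M)⌉₊ ⌊8 * X / M⌋₊ with hS
  have hc1 : 1 ≤ ⌈X / (8 * M)⌉₊ := Nat.one_le_ceil_iff.2 (by positivity)
  have hBL : BL X M χ b t = ∑ m ∈ Icc 1 ⌊16 * M⌋₊, ∑ k ∈ S,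
      TC_c M χ b m k * ((m * k : ℕ) : ℂ) ^ (-(t * I)) * (Wm ((m * k : ℕ) / X) : ℂ) := by
    unfold BL
    refine Finset.sum_congr rfl fun m _ => ?_
    have h1 : ∀ k ∈ Icc 1 ⌊8 * X / M⌋₊, k ∉ S →
        TC_c M χ b m k * ((m * k : ℕ) : ℂ) ^ (-(t * I)) * (Wm ((m * k : ℕ) / X) : ℂ) = 0 := by
      intro k hk hkS
      rw [Finset.mem_Icc] at hk
      have h2 : k < ⌈X / (8 * M)⌉₊ := by
        by_contra h
        exact hkS (Finset.mem_Icc.2 ⟨not_lt.1 h, hk.2⟩)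
      have h3 := TC_zero X M hX hM m k (Nat.lt_ceil.1 h2)
      unfold TC_c
      linear_combination ((ArithmeticFunction.vonMangoldt m : ℂ) * b k * χ ((m * k : ℕ) : ZMod q) *
        ((m * k : ℕ) : ℂ) ^ (-(t * I))) * h3
    have h4 : S ⊆ Icc 1 ⌊8 * X / M⌋₊ := Finset.Icc_subset_Icc_left hc1
    rw [Finset.sum_subset h4 h1]
    refine Finset.sum_congr rfl fun k _ => ?_
    unfold TC_c
    ring
  have hint : ∀ m ∈ Icc 1 ⌊16 * M⌋₊, ∀ k ∈ S, Integrable fun y : ℝ => EI_G (fun x => (Wm x : ℂ)) X 0 y *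
      (TC_c M χ b m k * ((m * k : ℕ) : ℂ) ^ (-(((0 : ℝ) : ℂ) + y * I + t * I))) := by
    intro m hm k hk
    have hm1 := (Finset.mem_Icc.1 hm).1
    have hk1 := (Finset.mem_Icc.1 hk).1
    exact TC_int le_rfl hW X hX0 (m * k) (Nat.mul_pos (by omega) (by omega)) t _
  have e1 : (∫ y : ℝ, (X : ℂ) ^ (y * I) * mellin (fun x => (Wm x : ℂ)) (y * I) *
      DS χ (fun x => (w1 x : ℂ)) M (t + y) * CC X M χ b (t + y)) =
      ∑ m ∈ Icc 1 ⌊16 * M⌋₊, ∑ k ∈ S, ∫ y : ℝ, EI_G (fun x => (Wm x : ℂ)) X 0 y *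
      (TC_c M χ b m k * ((m * k : ℕ) : ℂ) ^ (-(((0 : ℝ) : ℂ) + y * I + t * I))) := by
    have e2 : ∀ y : ℝ, (X : ℂ) ^ (y * I) * mellin (fun x => (Wm x : ℂ)) (y * I) *
      DS χ (fun x => (w1 x : ℂ)) M (t + y) * CC X M χ b (t + y) =
      ∑ m ∈ Icc 1 ⌊16 * M⌋₊, ∑ k ∈ S, EI_G (fun x => (Wm x : ℂ)) X 0 y *
      (TC_c M χ b m k * ((m * k : ℕ) : ℂ) ^ (-(((0 : ℝ) : ℂ) + y * I + t * I))) := fun y =>
      TC_expand X M χ b t y S
    simp only [e2]
    rw [integral_finsetSum _ fun m hm => integrable_finsetSum _ fun k hk => hint m hm k hk]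
    exact Finset.sum_congr rfl fun m hm => integral_finsetSum _ fun k hk => hint m hm k hk
  rw [e1, hBL, Finset.mul_sum]
  refine Finset.sum_congr rfl fun m hm => ?_
  rw [Finset.mul_sum]
  refine Finset.sum_congr rfl fun k hk => ?_
  have hm1 := (Finset.mem_Icc.1 hm).1
  have hk1 := (Finset.mem_Icc.1 hk).1
  have hmk : 0 < m * k := Nat.mul_pos (by omega) (by omega)
  have e3 := EI_term A 1 _ hW X t 0 hX0 (by norm_num) (by norm_num) (m * k) hmk (TC_c M χ b m k)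
  exact e3.symm

/-- Weighted Cauchy-Schwarz. -/
theorem TC_cs (μ : Measure ℝ) (f g : ℝ → ℝ) (hf : ∀ y, 0 ≤ f y) (hfi : Integrable f μ)
    (hfg : Integrable (fun y => f y * g y) μ) (hfgg : Integrable (fun y => f y * g y ^ 2) μ) :
    (∫ y, f y * g y ∂μ) ^ 2 ≤ (∫ y, f y ∂μ) * ∫ y, f y * g y ^ 2 ∂μ := by
  set F := ∫ y, f y ∂μ with hF
  set a := ∫ y, f y * g y ∂μ with ha
  set S := ∫ y, f y * g y ^ 2 ∂μ with hS
  have hF0 : 0 ≤ F := integral_nonneg hf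
  have h1 : 0 ≤ ∫ y, f y * (F * g y - a) ^ 2 ∂μ :=
    integral_nonneg fun y => mul_nonneg (hf y) (sq_nonneg _)
  have h2 : ∫ y, f y * (F * g y - a) ^ 2 ∂μ = F ^ 2 * S - 2 * F * a * a + a ^ 2 * F := by
    have e : ∀ y, f y * (F * g y - a) ^ 2 =
        F ^ 2 * (f y * g y ^ 2) - 2 * F * a * (f y * g y) + a ^ 2 * f y := fun y => by ring
    simp only [e]
    have i1 : Integrable (fun y => F ^ 2 * (f y * g y ^ 2)) μ := hfgg.const_mul _
    have i2 : Integrable (fun y => 2 * F * a * (f y * g y)) μ := hfg.const_mul _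
    have i3 : Integrable (fun y => a ^ 2 * f y) μ := hfi.const_mul _
    have i4 : Integrable (fun y => F ^ 2 * (f y * g y ^ 2) - 2 * F * a * (f y * g y)) μ := i1.sub i2
    rw [integral_add i4 i3, integral_sub i1 i2, integral_const_mul, integral_const_mul,
      integral_const_mul]
  rcases hF0.eq_or_lt with h3 | h3
  · have h4 : f =ᵐ[μ] 0 := (integral_eq_zero_iff_of_nonneg hf hfi).1 h3.symm
    have h5 : a = 0 := by
      rw [ha]
      have h6 : (fun y => f y * g y) =ᵐ[μ] fun _ => (0 : ℝ) := by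
        filter_upwards [h4] with y hy
        rw [hy]
        simp
      rw [integral_congr_ae h6, integral_zero]
    rw [h5, ← h3]
    simp
  · have h4 : 0 ≤ F * (F * S - a ^ 2) := by
      have : F * (F * S - a ^ 2) = F ^ 2 * S - 2 * F * a * a + a ^ 2 * F := by ring
      rw [this, ← h2]
      exact h1
    have h5 : 0 ≤ F * S - a ^ 2 := nonneg_of_mul_nonneg_right h4 h3
    linarith

theorem TC_conv (f g : ℝ → ℝ) (hf : Continuous f) (hg : Continuous g) (hf0 : ∀ y, 0 ≤ f y) (Y T : ℝ)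
    (G : Set ℝ) (hGm : MeasurableSet G) (hG : G ⊆ Set.Icc (-T) T) :
    ∃ Φ : ℝ → ℝ, IntegrableOn Φ G ∧
      (∀ t, (∫ y in Set.Icc (-Y) Y, f y * g (t + y)) ^ 2 ≤ Φ t) ∧
      ∫ t in G, Φ t ≤ (∫ y in Set.Icc (-Y) Y, f y) ^ 2 *
        ∫ u in Set.Icc (-(T + Y)) (T + Y), g u ^ 2 := by
  set B := Set.Icc (-Y) Y with hB
  set F := ∫ y in B, f y with hF
  have hF0 : 0 ≤ F := setIntegral_nonneg measurableSet_Icc fun y _ => hf0 y
  set K := ∫ u in Set.Icc (-(T + Y)) (T + Y), g u ^ 2 with hK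
  have hHc : Continuous fun z : ℝ × ℝ => f z.2 * g (z.1 + z.2) ^ 2 := by fun_prop
  have hHi : Integrable (Function.uncurry fun t y : ℝ => f y * g (t + y) ^ 2)
      ((volume.restrict G).prod (volume.restrict B)) := by
    have h1 : IntegrableOn (fun z : ℝ × ℝ => f z.2 * g (z.1 + z.2) ^ 2) (Set.Icc (-T) T ×ˢ B)
        (volume.prod volume) := by
      have := hHc.continuousOn.integrableOn_compact (μ := (volume : Measure (ℝ × ℝ)))
        (isCompact_Icc.prod isCompact_Icc : IsCompact (Set.Icc (-T) T ×ˢ B))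
      exact this
    have h2 := h1.mono_set (Set.prod_mono hG (subset_refl B))
    rw [IntegrableOn, ← Measure.prod_restrict] at h2
    exact h2
  have hsw := integral_integral_swap hHi
  refine ⟨fun t => F * ∫ y in B, f y * g (t + y) ^ 2, ?_, ?_, ?_⟩
  · exact (hHi.integral_prod_left).const_mul F
  · intro t
    refine TC_cs (volume.restrict B) f (fun y => g (t + y)) hf0 ?_ ?_ ?_
    · exact hf.continuousOn.integrableOn_compact isCompact_Icc
    · exact (hf.mul (hg.comp (continuous_const.add continuous_id))).continuousOn.integrableOn_compact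
        isCompact_Icc
    · exact (hf.mul ((hg.comp (continuous_const.add continuous_id)).pow 2)).continuousOn.integrableOn_compact
        isCompact_Icc
  · rw [integral_const_mul, hsw]
    have h1 : ∫ y in B, ∫ t in G, f y * g (t + y) ^ 2 ≤ ∫ y in B, f y * K := by
      refine integral_mono_of_nonneg (Filter.Eventually.of_forall fun y =>
        setIntegral_nonneg hGm fun t _ => mul_nonneg (hf0 y) (sq_nonneg _)) ?_ ?_
      · exact (hf.mul continuous_const).continuousOn.integrableOn_compact isCompact_Icc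
      · filter_upwards [ae_restrict_mem measurableSet_Icc] with y hy
        rw [integral_const_mul]
        refine mul_le_mul_of_nonneg_left ?_ (hf0 y)
        have hi : ∀ s : Set ℝ, s ⊆ Set.Icc (-T) T → IntegrableOn (fun t => g (t + y) ^ 2) s :=
          fun s hs => (((hg.comp (continuous_id.add continuous_const)).pow 2).continuousOn.integrableOn_compact
            isCompact_Icc).mono_set hs
        calc ∫ t in G, g (t + y) ^ 2 ≤ ∫ t in Set.Icc (-T) T, g (t + y) ^ 2 :=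
              setIntegral_mono_set (hi _ (subset_refl _))
                (Filter.Eventually.of_forall fun t => sq_nonneg _)
                (Filter.Eventually.of_forall fun t ht => hG ht)
          _ = ∫ t in Set.Icc (-T) T, (fun u => g u ^ 2) (t + y) := rfl
          _ = ∫ u in Set.Icc (-T + y) (T + y), g u ^ 2 := by
              rw [← integral_indicator measurableSet_Icc, ← integral_indicator measurableSet_Icc,
                ← integral_add_right_eq_self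
                  ((Set.Icc (-T + y) (T + y)).indicator fun u => g u ^ 2) y]
              congr 1
              funext t
              by_cases ht : t ∈ Set.Icc (-T) T
              · have h2 : t + y ∈ Set.Icc (-T + y) (T + y) := ⟨by linarith [ht.1], by linarith [ht.2]⟩
                rw [Set.indicator_of_mem ht, Set.indicator_of_mem h2]
              · have h2 : t + y ∉ Set.Icc (-T + y) (T + y) := fun h =>
                  ht ⟨by linarith [h.1], by linarith [h.2]⟩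
                rw [Set.indicator_of_notMem ht, Set.indicator_of_notMem h2]
          _ ≤ K := by
              refine setIntegral_mono_set ?_ (Filter.Eventually.of_forall fun t => sq_nonneg _)
                (Filter.Eventually.of_forall ?_)
              · exact (hg.pow 2).continuousOn.integrableOn_compact isCompact_Icc
              · intro u hu
                exact ⟨by linarith [hu.1, hy.1, hy.2], by linarith [hu.2, hy.2]⟩
    rw [integral_mul_const] at h1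
    calc F * ∫ y in B, ∫ t in G, f y * g (t + y) ^ 2 ≤ F * (F * K) :=
          mul_le_mul_of_nonneg_left h1 hF0
      _ = F ^ 2 * K := by ring

theorem TC_norm_nit (n : ℕ) (hn : 0 < n) (t : ℝ) : ‖(n : ℂ) ^ (-((t : ℂ) * I))‖ = 1 := by
  rw [Complex.norm_natCast_cpow_of_pos hn]
  simp

theorem TC_DS_triv (M : ℝ) (hM : 1 ≤ M) {q : ℕ} (χ : DirichletCharacter ℂ q) (t : ℝ) :
    ‖DS χ (fun x => (w1 x : ℂ)) M t‖ ≤ (16 * M) ^ 2 := by
  unfold DS
  have hM0 : 0 ≤ 16 * M := by linarith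
  have h1 : ∀ n ∈ Icc 1 ⌊16 * M⌋₊, ‖(ArithmeticFunction.vonMangoldt n : ℂ) * χ (n : ZMod q) *
      (n : ℂ) ^ (-((t : ℂ) * I)) * (w1 (n / M) : ℂ)‖ ≤ 16 * M := by
    intro n hn
    rw [Finset.mem_Icc] at hn
    have hn0 : (0 : ℝ) < n := by exact_mod_cast hn.1
    rw [norm_mul, norm_mul, norm_mul, TC_norm_nit n hn.1, mul_one, Complex.norm_real,
      Complex.norm_real, Real.norm_eq_abs, Real.norm_eq_abs,
      abs_of_nonneg ArithmeticFunction.vonMangoldt_nonneg]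
    have h2 : ArithmeticFunction.vonMangoldt n ≤ n := by
      have h3 := ArithmeticFunction.vonMangoldt_le_log (n := n)
      have h4 := Real.log_le_sub_one_of_pos hn0
      linarith
    have h3 : (n : ℝ) ≤ 16 * M := (Nat.le_floor_iff hM0).1 hn.2
    calc _ ≤ ArithmeticFunction.vonMangoldt n * 1 * 1 := by
          refine mul_le_mul (mul_le_mul_of_nonneg_left (DirichletCharacter.norm_le_one χ _)
            ArithmeticFunction.vonMangoldt_nonneg) (w1_facts.1 _) (abs_nonneg _) ?_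
          rw [mul_one]
          exact ArithmeticFunction.vonMangoldt_nonneg
      _ ≤ 16 * M := by linarith
  refine (norm_sum_le _ _).trans ((Finset.sum_le_sum h1).trans ?_)
  rw [Finset.sum_const, Nat.card_Icc, nsmul_eq_mul, Nat.add_sub_cancel, pow_two]
  exact mul_le_mul_of_nonneg_right (Nat.floor_le hM0) hM0

theorem TC_CC_triv (X M : ℝ) (hX : 0 < X) (hM : 1 ≤ M) {q : ℕ} (χ : DirichletCharacter ℂ q)
    (b : ℕ → ℂ) (hb : ∀ k, ‖b k‖ ≤ k.divisors.card) (t : ℝ) :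
    ‖CC X M χ b t‖ ≤ (8 * X / M) ^ 2 := by
  unfold CC
  have hK0 : 0 ≤ 8 * X / M := by positivity
  have h1 : ∀ k ∈ Icc ⌈X / (8 * M)⌉₊ ⌊8 * X / M⌋₊, ‖b k * χ (k : ZMod q) *
      (k : ℂ) ^ (-((t : ℂ) * I))‖ ≤ 8 * X / M := by
    intro k hk
    rw [Finset.mem_Icc] at hk
    have h3 : (k : ℝ) ≤ 8 * X / M := (Nat.le_floor_iff hK0).1 hk.2
    have h4 : ‖b k‖ ≤ k := (hb k).trans (by exact_mod_cast Nat.card_divisors_le_self k)
    rcases Nat.eq_zero_or_pos k with h0 | h0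
    · subst h0
      have h5 : b 0 = 0 := by
        rw [Nat.cast_zero] at h4
        exact norm_le_zero_iff.1 h4
      rw [h5, zero_mul, zero_mul, norm_zero]
      exact hK0
    · rw [norm_mul, norm_mul, TC_norm_nit k h0, mul_one]
      calc _ ≤ (k : ℝ) * 1 := mul_le_mul h4 (DirichletCharacter.norm_le_one χ _) (norm_nonneg _)
            (Nat.cast_nonneg _)
        _ ≤ 8 * X / M := by rw [mul_one]; exact h3
  refine (norm_sum_le _ _).trans ((Finset.sum_le_sum h1).trans ?_)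
  rw [Finset.sum_const, Nat.card_Icc, nsmul_eq_mul, pow_two]
  refine mul_le_mul_of_nonneg_right ?_ hK0
  refine le_trans ?_ (Nat.floor_le hK0)
  have hc1 : 1 ≤ ⌈X / (8 * M)⌉₊ := Nat.one_le_ceil_iff.2 (by positivity)
  have : ⌊8 * X / M⌋₊ + 1 - ⌈X / (8 * M)⌉₊ ≤ ⌊8 * X / M⌋₊ := by omega
  exact_mod_cast this

theorem TC_CC_cont (X M : ℝ) (hX : 0 < X) (hM : 0 < M) {q : ℕ} (χ : DirichletCharacter ℂ q)
    (b : ℕ → ℂ) : Continuous fun t : ℝ => CC X M χ b t := by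
  unfold CC
  refine continuous_finsetSum _ fun k hk => ?_
  have hc1 : 1 ≤ ⌈X / (8 * M)⌉₊ := Nat.one_le_ceil_iff.2 (by positivity)
  have hk1 := (Finset.mem_Icc.1 hk).1
  have hk0 : (k : ℂ) ≠ 0 := by
    have : k ≠ 0 := by omega
    exact_mod_cast this
  exact continuous_const.mul (Continuous.const_cpow (by fun_prop) (Or.inl hk0))

theorem TC_good (δ H H' X : ℝ) {q : ℕ} (χ : DirichletCharacter ℂ q) (t y : ℝ)
    (h : Good δ H X χ t) (hy : |y| ≤ H - H') : Good δ H' X χ (t + y) := by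
  obtain ⟨h1, h2⟩ := h
  refine ⟨fun ρ hρ => ?_, fun hχ => ?_⟩
  · have h3 := h1 ρ hρ
    have h4 : |ρ.im - t| ≤ |ρ.im - (t + y)| + |y| := by
      calc |ρ.im - t| = |(ρ.im - (t + y)) + y| := by congr 1; ring
        _ ≤ _ := abs_add_le _ _
    linarith
  · have h3 := h2 hχ
    have h4 : |t| ≤ |t + y| + |y| := by
      calc |t| = |(t + y) + (-y)| := by congr 1; ring
        _ ≤ |t + y| + |-y| := abs_add_le _ _
        _ = _ := by rw [abs_neg]
    linarith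

theorem TC_mv : ∃ C : ℝ, 1 ≤ C ∧ ∀ (X M T : ℝ), 8 ≤ M → 8 * M ≤ X → 1 ≤ T →
    ∀ (q : ℕ) (χ : DirichletCharacter ℂ q) (b : ℕ → ℂ), (∀ k, ‖b k‖ ≤ k.divisors.card) →
    ∫ t in Set.Icc (-T) T, ‖CC X M χ b t‖ ^ 2 ≤ C * (T + X / M) * (X / M * (1 + Real.log X) ^ 3) := by
  obtain ⟨C, hC, h⟩ := mvt
  refine ⟨8 * C, by linarith, ?_⟩
  intro X M T hM hMX hT q χ b hb
  have hM0 : 0 < M := by linarith
  have hX0 : 0 < X := by linarith
  set N : ℝ := X / (8 * M) with hN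
  have hN1 : 1 ≤ N := by
    rw [hN, le_div_iff₀ (by positivity)]
    linarith
  have h64 : 64 * N = 8 * X / M := by
    rw [hN]
    field_simp
    ring
  have hK0 : 0 ≤ 8 * X / M := by positivity
  set S : Finset ℕ := Icc ⌈X / (8 * M)⌉₊ ⌊8 * X / M⌋₊ with hS
  have h1 := h S (fun k => (k : ℝ)) N T hN1 hT (by
    intro k hk
    rw [hS, Finset.mem_Icc] at hk
    refine ⟨Nat.ceil_le.1 hk.1, ?_⟩
    rw [h64]
    exact (Nat.le_floor_iff hK0).1 hk.2) (fun k _ l _ => le_rfl) (fun k => b k * χ (k : ZMod q))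
  rw [intervalIntegral.integral_of_le (by linarith), ← integral_Icc_eq_integral_Ioc] at h1
  have h2 : ∫ t in Set.Icc (-T) T, ‖CC X M χ b t‖ ^ 2 =
      ∫ t in Set.Icc (-T) T, ‖∑ k ∈ S, b k * χ (k : ZMod q) * (((k : ℝ) : ℂ)) ^ (-((t : ℂ) * I))‖ ^ 2 := by
    refine integral_congr_ae (Filter.Eventually.of_forall fun t => ?_)
    simp only [CC, Complex.ofReal_natCast, hS]
  rw [h2]
  refine h1.trans ?_
  have hc1 : 1 ≤ ⌈X / (8 * M)⌉₊ := Nat.one_le_ceil_iff.2 (by positivity)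
  have h3 : ∑ k ∈ S, ‖b k * χ (k : ZMod q)‖ ^ 2 ≤ 8 * X / M * (1 + Real.log X) ^ 3 := by
    have h4 : 1 ≤ ⌊8 * X / M⌋₊ := by
      rw [Nat.one_le_floor_iff, ← h64]
      linarith
    have h5 := Pool.Agent.Wb58c63.sum_tau_sq ⌊8 * X / M⌋₊ h4
    calc ∑ k ∈ S, ‖b k * χ (k : ZMod q)‖ ^ 2 ≤ ∑ k ∈ S, (k.divisors.card : ℝ) ^ 2 := by
          refine Finset.sum_le_sum fun k _ => ?_
          rw [norm_mul]
          refine pow_le_pow_left₀ (by positivity) ?_ 2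
          calc ‖b k‖ * ‖χ (k : ZMod q)‖ ≤ k.divisors.card * 1 :=
                mul_le_mul (hb k) (DirichletCharacter.norm_le_one χ _) (norm_nonneg _)
                  (Nat.cast_nonneg _)
            _ = _ := mul_one _
      _ ≤ ∑ k ∈ Icc 1 ⌊8 * X / M⌋₊, (k.divisors.card : ℝ) ^ 2 :=
          Finset.sum_le_sum_of_subset_of_nonneg (Finset.Icc_subset_Icc_left hc1)
            (fun _ _ _ => sq_nonneg _)
      _ ≤ ⌊8 * X / M⌋₊ * (1 + Real.log ⌊8 * X / M⌋₊) ^ 3 := h5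
      _ ≤ 8 * X / M * (1 + Real.log X) ^ 3 := by
          have h6 := Nat.floor_le hK0
          have h7 : (1 : ℝ) ≤ ⌊8 * X / M⌋₊ := by exact_mod_cast h4
          have h8 : 8 * X / M ≤ X := by
            rw [div_le_iff₀ hM0]
            nlinarith only [hMX, hM]
          have h9 : 0 ≤ Real.log ⌊8 * X / M⌋₊ := Real.log_nonneg h7
          have h10 : Real.log ⌊8 * X / M⌋₊ ≤ Real.log X := Real.log_le_log (by linarith only [h7]) (by linarith only [h8, h6])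
          refine mul_le_mul h6 (pow_le_pow_left₀ (by linarith only [h9]) (by linarith only [h10]) 3) (by positivity) hK0
  have hNX : N ≤ X / M := by
    rw [hN]
    exact div_le_div_of_nonneg_left hX0.le hM0 (by linarith)
  calc C * (T + N) * ∑ k ∈ S, ‖b k * χ (k : ZMod q)‖ ^ 2
      ≤ C * (T + X / M) * (8 * X / M * (1 + Real.log X) ^ 3) := by
        refine mul_le_mul (mul_le_mul_of_nonneg_left (by linarith) (by linarith)) h3
          (Finset.sum_nonneg fun _ _ => sq_nonneg _) (by positivity)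
    _ = 8 * C * (T + X / M) * (X / M * (1 + Real.log X) ^ 3) := by ring

/-- The absolute value of the Mellin transform of `Wm` on the imaginary axis. -/
def TC_f (y : ℝ) : ℝ := ‖mellin (fun x => (Wm x : ℂ)) (y * I)‖

theorem TC_f_facts : Continuous TC_f ∧ Integrable TC_f ∧ (∀ y, 0 ≤ TC_f y) ∧
    ∀ J : ℕ, ∃ C : ℝ, 1 ≤ C ∧ ∀ Y y : ℝ, 1 ≤ Y → Y ≤ |y| → TC_f y ≤ C * (1 / Y ^ J) * (1 + y ^ 2)⁻¹ := by
  obtain ⟨A, hA, _, hW, _, _⟩ := isW_fixed 2
  refine ⟨?_, ?_, fun y => norm_nonneg _, ?_⟩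
  · exact ((mellin_diff 2 A 1 _ hW).continuous.comp (by fun_prop)).norm
  · have h := (mellin_vert A 1 _ hW 0 (by norm_num) (by norm_num)).norm
    simp only [Complex.ofReal_zero, zero_add] at h
    exact h
  · intro J
    obtain ⟨A', hA', _, hW', _, _⟩ := isW_fixed (J + 2)
    obtain ⟨C, hC, hdec⟩ := mellin_decay (J + 2)
    refine ⟨2 * (C * A'), by nlinarith, ?_⟩
    intro Y y hY hy
    have hy1 : 1 ≤ |y| := hY.trans hy
    have h1 := (hdec A' 1 _ (by linarith) le_rfl hW' (y * I) (by simp) (by simp)).2 (by simpa using hy1)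
    have him : ((y : ℂ) * I).im = y := by simp
    rw [him] at h1
    have h2 : (1 / |y|) ^ (J + 2) ≤ 1 / Y ^ J * (2 * (1 + y ^ 2)⁻¹) := by
      rw [pow_add, one_div_pow, one_div_pow]
      have h3 : 1 / |y| ^ J ≤ 1 / Y ^ J :=
        one_div_le_one_div_of_le (by positivity) (pow_le_pow_left₀ (by linarith) hy J)
      have h4 : 1 / |y| ^ 2 ≤ 2 * (1 + y ^ 2)⁻¹ := by
        rw [sq_abs, ← div_eq_mul_inv, div_le_div_iff₀ (by
          have : 1 ≤ y ^ 2 := by rw [← sq_abs]; nlinarith only [hy, hY]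
          linarith) (by positivity)]
        have : 1 ≤ y ^ 2 := by rw [← sq_abs]; nlinarith only [hy, hY]
        linarith
      exact mul_le_mul h3 h4 (by positivity) (by positivity)
    calc TC_f y ≤ C * A' * (1 / |y|) ^ (J + 2) := h1
      _ ≤ C * A' * (1 / Y ^ J * (2 * (1 + y ^ 2)⁻¹)) :=
          mul_le_mul_of_nonneg_left h2 (by positivity)
      _ = _ := by ring

/-- The pointwise bound. -/
theorem TC_pt (X M : ℝ) (hX : 1 ≤ X) (hM : 1 ≤ M) (hMX : M ≤ X) {q : ℕ} [NeZero q]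
    (χ : DirichletCharacter ℂ q) (b : ℕ → ℂ) (t Y D P E : ℝ) (hD : 0 ≤ D)
    (hDS : ∀ y, |y| ≤ Y → ‖DS χ (fun x => (w1 x : ℂ)) M (t + y)‖ ≤ D) (hP : 0 ≤ P)
    (hDC : ∀ y, ‖DS χ (fun x => (w1 x : ℂ)) M y‖ * ‖CC X M χ b y‖ ≤ P)
    (hE : ∀ y, Y ≤ |y| → TC_f y ≤ E * (1 + y ^ 2)⁻¹) (hE0 : 0 ≤ E) :
    ‖BL X M χ b t‖ ≤ D * (∫ y in Set.Icc (-Y) Y, TC_f y * ‖CC X M χ b (t + y)‖) + P * E := by
  have hX0 : 0 < X := by linarith
  have hXc : (X : ℂ) ≠ 0 := by exact_mod_cast hX0.ne'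
  obtain ⟨hfc, hfi, hf0, _⟩ := TC_f_facts
  have hCCc := (TC_CC_cont X M hX0 (by linarith) χ b).norm
  rw [block_int X M hX hM hMX χ b t, norm_mul]
  have hpi : ‖(1 / (2 * Real.pi) : ℂ)‖ = 1 / (2 * Real.pi) := by
    have : (1 / (2 * Real.pi) : ℂ) = ((1 / (2 * Real.pi) : ℝ) : ℂ) := by push_cast; rfl
    rw [this, Complex.norm_real, Real.norm_of_nonneg (by positivity)]
  rw [hpi]
  set B := Set.Icc (-Y) Y with hB
  have hi1 : IntegrableOn (fun y => D * (TC_f y * ‖CC X M χ b (t + y)‖)) B := by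
    have hc : Continuous (fun y => D * (TC_f y * ‖CC X M χ b (t + y)‖)) :=
      continuous_const.mul (hfc.mul (hCCc.comp (continuous_const.add continuous_id)))
    exact hc.continuousOn.integrableOn_compact isCompact_Icc
  have hi1' : Integrable (B.indicator fun y => D * (TC_f y * ‖CC X M χ b (t + y)‖)) := by
    rw [integrable_indicator_iff measurableSet_Icc]
    exact hi1
  have hi2 : Integrable fun y : ℝ => P * (E * (1 + y ^ 2)⁻¹) :=
    (integrable_inv_one_add_sq.const_mul E).const_mul P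
  have h1 := norm_integral_le_of_norm_le (hi1'.add hi2) (f := fun y : ℝ =>
    (X : ℂ) ^ (y * I) * mellin (fun x => (Wm x : ℂ)) (y * I) *
      DS χ (fun x => (w1 x : ℂ)) M (t + y) * CC X M χ b (t + y))
    (Filter.Eventually.of_forall fun y => by
      have hXn : ‖(X : ℂ) ^ ((y : ℂ) * I)‖ = 1 := by
        rw [Complex.norm_cpow_eq_rpow_re_of_pos hX0]
        simp
      rw [norm_mul, norm_mul, norm_mul, hXn, one_mul]
      have hn : ‖mellin (fun x => (Wm x : ℂ)) ((y : ℂ) * I)‖ = TC_f y := rfl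
      rw [hn]
      by_cases hy : y ∈ B
      · have h2 := hDS y (abs_le.2 hy)
        rw [Pi.add_apply, Set.indicator_of_mem hy]
        have h3 : TC_f y * ‖DS χ (fun x => (w1 x : ℂ)) M (t + y)‖ * ‖CC X M χ b (t + y)‖ ≤
            D * (TC_f y * ‖CC X M χ b (t + y)‖) := by
          calc _ = ‖DS χ (fun x => (w1 x : ℂ)) M (t + y)‖ * (TC_f y * ‖CC X M χ b (t + y)‖) := by ring
            _ ≤ _ := mul_le_mul_of_nonneg_right h2 (mul_nonneg (hf0 y) (norm_nonneg _))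
        have h4 : 0 ≤ P * (E * (1 + y ^ 2)⁻¹) := by positivity
        linarith
      · rw [Pi.add_apply, Set.indicator_of_notMem hy, zero_add, mul_assoc]
        have hy' : Y ≤ |y| := by
          by_contra h
          exact hy (abs_le.1 (not_le.1 h).le)
        calc TC_f y * (‖DS χ (fun x => (w1 x : ℂ)) M (t + y)‖ * ‖CC X M χ b (t + y)‖)
            ≤ E * (1 + y ^ 2)⁻¹ * P :=
              mul_le_mul (hE y hy') (hDC (t + y)) (by positivity) (by positivity)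
          _ = _ := by ring)
  have h5 : (∫ y, ((B.indicator fun y => D * (TC_f y * ‖CC X M χ b (t + y)‖)) +
      fun y : ℝ => P * (E * (1 + y ^ 2)⁻¹)) y) =
      D * (∫ y in B, TC_f y * ‖CC X M χ b (t + y)‖) + P * (E * Real.pi) := by
    simp only [Pi.add_apply]
    rw [integral_add hi1' hi2, integral_indicator measurableSet_Icc, integral_const_mul,
      integral_const_mul, integral_const_mul, integral_univ_inv_one_add_sq]
  rw [h5] at h1
  have h6 : 0 ≤ ∫ y in B, TC_f y * ‖CC X M χ b (t + y)‖ :=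
    setIntegral_nonneg measurableSet_Icc fun y _ => mul_nonneg (hf0 y) (norm_nonneg _)
  have hpi3 := Real.pi_gt_three
  calc 1 / (2 * Real.pi) * _ ≤ 1 / (2 * Real.pi) *
        (D * (∫ y in B, TC_f y * ‖CC X M χ b (t + y)‖) + P * (E * Real.pi)) :=
        mul_le_mul_of_nonneg_left h1 (by positivity)
    _ = 1 / (2 * Real.pi) * (D * (∫ y in B, TC_f y * ‖CC X M χ b (t + y)‖)) + P * E / 2 := by
        field_simp
    _ ≤ D * (∫ y in B, TC_f y * ‖CC X M χ b (t + y)‖) + P * E := by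
        have h7 : 1 / (2 * Real.pi) ≤ 1 := by
          rw [div_le_one (by positivity)]
          linarith
        have h8 : 0 ≤ D * (∫ y in B, TC_f y * ‖CC X M χ b (t + y)‖) := mul_nonneg hD h6
        have h9 : 0 ≤ P * E := mul_nonneg hP hE0
        nlinarith only [h9, h7, h8]

/-- The final exponents. -/
theorem TC_num (δ : ℝ) (hδ : 0 < δ) (hδ1 : δ ≤ 1 / 16) (X M : ℝ) (hX : 1 ≤ X)
    (hM1 : X ^ (δ / 32) / 2 ≤ M) (hM2 : M ≤ 16 * X ^ (1 / 2 + δ / 8)) :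
    (M ^ (1 - δ)) ^ 2 * ((2 * X ^ (1 / 2 + δ / 32) + X / M) * (X / M)) ≤
      34 * X ^ (2 - δ ^ 2 / 16) := by
  have hX0 : 0 < X := by linarith
  have hM0 : 0 < M := lt_of_lt_of_le (by positivity) hM1
  have e1 : (M ^ (1 - δ)) ^ 2 = M ^ (1 - 2 * δ) * M := by
    rw [← Real.rpow_natCast, ← Real.rpow_mul hM0.le]
    nth_rewrite 3 [← Real.rpow_one M]
    rw [← Real.rpow_add hM0]
    congr 1
    push_cast
    ring
  have e2 : (M ^ (1 - δ)) ^ 2 = M ^ (-(2 * δ)) * M ^ 2 := by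
    rw [← Real.rpow_natCast, ← Real.rpow_mul hM0.le, ← Real.rpow_natCast M 2, ← Real.rpow_add hM0]
    congr 1
    push_cast
    ring
  have e3 : (M ^ (1 - δ)) ^ 2 * ((2 * X ^ (1 / 2 + δ / 32) + X / M) * (X / M)) =
      2 * (M ^ (1 - 2 * δ) * (X ^ (1 / 2 + δ / 32) * X)) + M ^ (-(2 * δ)) * X ^ 2 := by
    have h1 : (M ^ (1 - δ)) ^ 2 * (2 * X ^ (1 / 2 + δ / 32) * (X / M)) =
        2 * (M ^ (1 - 2 * δ) * (X ^ (1 / 2 + δ / 32) * X)) := by
      rw [e1]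
      field_simp
    have h2 : (M ^ (1 - δ)) ^ 2 * (X / M * (X / M)) = M ^ (-(2 * δ)) * X ^ 2 := by
      rw [e2]
      field_simp
    rw [← h1, ← h2]
    ring
  rw [e3]
  have h1 : M ^ (1 - 2 * δ) ≤ 16 * X ^ ((1 / 2 + δ / 8) * (1 - 2 * δ)) := by
    calc M ^ (1 - 2 * δ) ≤ (16 * X ^ (1 / 2 + δ / 8)) ^ (1 - 2 * δ) :=
          Real.rpow_le_rpow hM0.le hM2 (by linarith only [hδ1, hδ])
      _ = 16 ^ (1 - 2 * δ) * X ^ ((1 / 2 + δ / 8) * (1 - 2 * δ)) := by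
          rw [Real.mul_rpow (by norm_num) (by positivity), ← Real.rpow_mul hX0.le]
      _ ≤ 16 * X ^ ((1 / 2 + δ / 8) * (1 - 2 * δ)) := by
          refine mul_le_mul_of_nonneg_right ?_ (by positivity)
          calc (16 : ℝ) ^ (1 - 2 * δ) ≤ 16 ^ (1 : ℝ) :=
                Real.rpow_le_rpow_of_exponent_le (by norm_num) (by linarith)
            _ = 16 := Real.rpow_one _
  have h2 : M ^ (-(2 * δ)) ≤ 2 * X ^ (-(δ ^ 2 / 16)) := by
    calc M ^ (-(2 * δ)) ≤ (X ^ (δ / 32) / 2) ^ (-(2 * δ)) :=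
          Real.rpow_le_rpow_of_nonpos (by positivity) hM1 (by linarith only [hδ])
      _ = X ^ (-(δ ^ 2 / 16)) * 2 ^ (2 * δ) := by
          rw [Real.div_rpow (by positivity) (by norm_num), ← Real.rpow_mul hX0.le,
            Real.rpow_neg (by norm_num : (0 : ℝ) ≤ 2), div_inv_eq_mul]
          congr 2
          ring
      _ ≤ X ^ (-(δ ^ 2 / 16)) * 2 := by
          refine mul_le_mul_of_nonneg_left ?_ (by positivity)
          calc (2 : ℝ) ^ (2 * δ) ≤ 2 ^ (1 : ℝ) :=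
                Real.rpow_le_rpow_of_exponent_le (by norm_num) (by linarith)
            _ = 2 := Real.rpow_one _
      _ = _ := by ring
  have h3 : M ^ (1 - 2 * δ) * (X ^ (1 / 2 + δ / 32) * X) ≤ 16 * X ^ (2 - δ ^ 2 / 16) := by
    calc M ^ (1 - 2 * δ) * (X ^ (1 / 2 + δ / 32) * X) ≤
          16 * X ^ ((1 / 2 + δ / 8) * (1 - 2 * δ)) * (X ^ (1 / 2 + δ / 32) * X) :=
          mul_le_mul_of_nonneg_right h1 (by positivity)
      _ = 16 * X ^ ((1 / 2 + δ / 8) * (1 - 2 * δ) + (1 / 2 + δ / 32) + 1) := by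
          rw [Real.rpow_add hX0 ((1 / 2 + δ / 8) * (1 - 2 * δ) + (1 / 2 + δ / 32)) 1,
            Real.rpow_add hX0 ((1 / 2 + δ / 8) * (1 - 2 * δ)) (1 / 2 + δ / 32), Real.rpow_one]
          ring
      _ ≤ 16 * X ^ (2 - δ ^ 2 / 16) := by
          refine mul_le_mul_of_nonneg_left (Real.rpow_le_rpow_of_exponent_le hX ?_) (by norm_num)
          nlinarith only [hδ]
  have h4 : M ^ (-(2 * δ)) * X ^ 2 ≤ 2 * X ^ (2 - δ ^ 2 / 16) := by
    calc M ^ (-(2 * δ)) * X ^ 2 ≤ 2 * X ^ (-(δ ^ 2 / 16)) * X ^ 2 :=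
          mul_le_mul_of_nonneg_right h2 (by positivity)
      _ = 2 * X ^ (2 - δ ^ 2 / 16) := by
          rw [mul_assoc, ← Real.rpow_natCast X 2, ← Real.rpow_add hX0]
          congr 2
          push_cast
          ring
  linarith only [h3, h4]

/-- **The mean square of a block.**

Proof. `κ₁` from `A_bound`, `ε₄ = δ ^ 2 / 500`, `T = X ^ (1/2 + δ/32)`, `Y₀ = X ^ (δ / 64)`, `c = δ ^ 2 / 64`, `f y = ‖mellin Wm (i y)‖`, with `∫ f ≤ C` and `f y ≤ C |y| ^ (-J)` (`mellin_decay`, `isW_fixed`). By Cauchy-Schwarz `‖BL‖ ^ 2 ≤ C ∫ f y ‖DS(t + y)‖ ^ 2 ‖CC(t + y)‖ ^ 2 dy`. Integrate over the good `t`, `|t| ≤ T`.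
(1) `|y| ≤ Y₀`: the point `t + y` has distance `≥ X ^ (δ/32) - X ^ (δ/64) ≥ X ^ (δ/64)` from the ordinates (and from `0` if `χ = 1`) and `|t + y| ≤ 2 T ≤ X / 4`, so `‖DS‖ ≤ C M ^ (1 - δ) X ^ ε₄` by `A_bound`; and `∫_{|t| ≤ T} ‖CC(t + y)‖ ^ 2 ≤ ∫_{-2T}^{2T} ‖CC‖ ^ 2 ≤ C (T + X / M) ∑_{k ≤ 8 X / M} d(k) ^ 2 ≤ C (T + X / M) (X / M) X ^ ε₄` (`mvt` with `x k = k`,
`N = X / (8 M) ≥ 1`, all `k` in `[N, 64 N]`; `sum_tau_sq` of `W_b58c63_h68/ArA.lean` or the divisor bound). So this part is at most `C X ^ (3 ε₄) (M ^ (1 - 2 δ) X T + M ^ (-2 δ) X ^ 2)`. With `M ≤ 16 X ^ (1/2 + δ/8)`: `M ^ (1 - 2 δ) X T ≤ 16 X ^ (2 + δ/8 + δ/32 - δ) ≤ 16 X ^ (2 - 3 δ/4)`, and with `M ≥ X ^ (δ/32) / 2`: `M ^ (-2 δ) X ^ 2 ≤ 2 X ^ (2 - δ ^ 2 / 16)`.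
(2) `|y| > Y₀`: trivially `‖DS‖ ‖CC‖ ≤ X ^ 4`, and `∫_{|y| > Y₀} f ≤ C Y₀ ^ (1 - J) ≤ X ^ (-10)` for `J ≥ 1 + 700 / δ`, measure of the `t` at most `2 T`. -/
theorem block [WI] [SEI] : ∃ κ₁ : ℝ, 0 < κ₁ ∧ κ₁ ≤ 1 / 16 ∧ ∀ δ : ℝ, 0 < δ → δ ≤ κ₁ → ∃ ε c X₀ : ℝ, 0 < ε ∧ 0 < c ∧ 3 ≤ X₀ ∧ ∀ X : ℝ, X₀ ≤ X →
    ∀ (q : ℕ) [NeZero q], (q : ℝ) ≤ X ^ ε → ∀ χ : DirichletCharacter ℂ q, ∀ M : ℝ, X ^ (δ / 32) / 2 ≤ M → M ≤ 16 * X ^ (1 / 2 + δ / 8) →
    ∀ b : ℕ → ℂ, (∀ k, ‖b k‖ ≤ k.divisors.card) →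
    ∫ t in {t : ℝ | Good δ (X ^ (δ / 32)) X χ t ∧ |t| ≤ X ^ (1 / 2 + δ / 32)}, ‖BL X M χ b t‖ ^ 2 ≤ X ^ (2 - c) := by
  obtain ⟨κ₁, hκ, hκ16, hA⟩ := A_bound
  refine ⟨κ₁, hκ, hκ16, fun δ hδ hδκ => ?_⟩
  have hδ16 : δ ≤ 1 / 16 := hδκ.trans hκ16
  have hδ2 : δ ^ 2 ≤ 1 / 256 := by nlinarith
  obtain ⟨J, ε, CA, X₁, hε, hCA, hX₁, hAb⟩ := hA δ hδ hδκ (δ ^ 2 / 500) (by positivity) (by linarith)
  obtain ⟨A, hA1, hw1, _, _, _⟩ := isW_fixed J
  obtain ⟨Cv, hCv, hmv⟩ := TC_mv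
  obtain ⟨hfc, hfi, hf0, htail⟩ := TC_f_facts
  obtain ⟨Ct, hCt, ht⟩ := htail ⌈640 / δ⌉₊
  set F := ∫ y, TC_f y with hF
  have hF0 : 0 ≤ F := integral_nonneg hf0
  set C8 : ℝ := 68 * (CA * A) ^ 2 * Cv * F ^ 2 with hC8
  set C9 : ℝ := 4 * (16384 * Ct) ^ 2 with hC9
  have hlim : ∀ e : ℝ, 0 < e → ∀ B : ℝ, ∀ᶠ X : ℝ in Filter.atTop, B ≤ X ^ e := fun e he B =>
    (tendsto_rpow_atTop he).eventually_ge_atTop B
  have hlog : ∀ᶠ X : ℝ in Filter.atTop, (1 + Real.log X) ^ 3 ≤ X ^ (δ ^ 2 / 500) := by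
    have h1 := (isLittleO_log_rpow_atTop (r := δ ^ 2 / 1500) (by positivity)).bound
      (c := 1 / 2) (by norm_num)
    filter_upwards [h1, hlim (δ ^ 2 / 1500) (by positivity) 2, Filter.eventually_ge_atTop 1] with X h2 h3 h4
    have hX0 : 0 < X := by linarith
    have hl : 0 ≤ Real.log X := Real.log_nonneg h4
    rw [Real.norm_of_nonneg hl, Real.norm_of_nonneg (by positivity)] at h2
    have h5 : 1 + Real.log X ≤ X ^ (δ ^ 2 / 1500) := by linarith
    calc (1 + Real.log X) ^ 3 ≤ (X ^ (δ ^ 2 / 1500)) ^ 3 := pow_le_pow_left₀ (by linarith) h5 3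
      _ = X ^ (δ ^ 2 / 500) := by
          rw [← Real.rpow_natCast, ← Real.rpow_mul hX0.le]
          congr 1
          push_cast
          ring
  have hall : ∀ᶠ X : ℝ in Filter.atTop, X₁ ≤ X ∧ 3 ≤ X ∧ 16 ≤ X ^ (δ / 64) ∧ 128 ≤ X ^ (1 / 4 : ℝ) ∧
      (1 + Real.log X) ^ 3 ≤ X ^ (δ ^ 2 / 500) ∧ 2 * C8 ≤ X ^ (δ ^ 2 / 16 - 3 * (δ ^ 2 / 500) - δ ^ 2 / 64) ∧
      2 * C9 ≤ X := by
    filter_upwards [Filter.eventually_ge_atTop X₁, Filter.eventually_ge_atTop 3,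
      hlim (δ / 64) (by positivity) 16, hlim (1 / 4) (by norm_num) 128, hlog,
      hlim (δ ^ 2 / 16 - 3 * (δ ^ 2 / 500) - δ ^ 2 / 64) (by nlinarith only [sq_pos_of_pos hδ]) (2 * C8),
      Filter.eventually_ge_atTop (2 * C9)] with X h1 h2 h3 h4 h5 h6 h7
    exact ⟨h1, h2, h3, h4, h5, h6, h7⟩
  obtain ⟨X₂, hX₂⟩ := Filter.eventually_atTop.1 hall
  refine ⟨ε, δ ^ 2 / 64, max X₂ 3, hε, by positivity, le_max_right _ _, ?_⟩
  intro X hX q _ hq χ M hM1 hM2 b hb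
  obtain ⟨hXa, hX3, hX16, hX128, hXlog, hXC8, hXC9⟩ := hX₂ X ((le_max_left _ _).trans hX)
  have hX0 : 0 < X := by linarith
  have hX1 : 1 ≤ X := by linarith
  -- sizes
  have hsq : X ^ (δ / 32) = X ^ (δ / 64) * X ^ (δ / 64) := by
    rw [← Real.rpow_add hX0]
    congr 1
    ring
  have h32 : 2 * X ^ (δ / 64) ≤ X ^ (δ / 32) := by
    rw [hsq]
    nlinarith only [hX16]
  have hM8 : 8 ≤ M := by
    have : 16 ≤ X ^ (δ / 32) := by linarith
    linarith
  have hM0 : 0 < M := by linarith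
  have hbig : ∀ e : ℝ, e ≤ 3 / 4 → 128 * X ^ e ≤ X := by
    intro e he
    calc 128 * X ^ e ≤ X ^ (1 / 4 : ℝ) * X ^ e := mul_le_mul_of_nonneg_right hX128 (by positivity)
      _ = X ^ (1 / 4 + e) := (Real.rpow_add hX0 _ _).symm
      _ ≤ X ^ (1 : ℝ) := Real.rpow_le_rpow_of_exponent_le hX1 (by linarith)
      _ = X := Real.rpow_one X
  have hMX : 8 * M ≤ X := by
    have := hbig (1 / 2 + δ / 8) (by linarith)
    linarith only [hM2, this]
  set T := X ^ (1 / 2 + δ / 32) with hT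
  set Y := X ^ (δ / 64) with hY
  have hYT : Y ≤ T := Real.rpow_le_rpow_of_exponent_le hX1 (by linarith only [hδ, hκ16, hκ])
  have hT1 : 1 ≤ T := Real.one_le_rpow hX1 (by linarith only [hδ, hκ16, hκ])
  have hTX : 128 * T ≤ X := hbig _ (by linarith only [hδκ, hκ16, hκ])
  have hY1 : 1 ≤ Y := by linarith
  set G := {t : ℝ | Good δ (X ^ (δ / 32)) X χ t ∧ |t| ≤ T} with hG
  have hGm : MeasurableSet G := good_meas δ _ X T χ
  have hGs : G ⊆ Set.Icc (-T) T := fun t ht => abs_le.1 ht.2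
  have hGv : volume G < ⊤ := (measure_mono hGs).trans_lt (by simp)
  have hGr : volume.real G ≤ 2 * T := by
    calc volume.real G ≤ volume.real (Set.Icc (-T) T) := by
          refine measureReal_mono hGs (by simp)
      _ = 2 * T := by
          rw [Real.volume_real_Icc_of_le (by linarith)]
          ring
  -- the bound of the pieces
  set D : ℝ := CA * A * M ^ (1 - δ) * X ^ (δ ^ 2 / 500) with hD
  have hD0 : 0 ≤ D := by positivity
  set P : ℝ := 16384 * X ^ 2 with hP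
  set E : ℝ := Ct * (1 / Y ^ ⌈640 / δ⌉₊) with hE
  have hE0 : 0 ≤ E := by positivity
  have hPE : P * E ≤ 16384 * Ct * (1 / X ^ 8) := by
    have h1 : X ^ 10 ≤ Y ^ ⌈640 / δ⌉₊ := by
      rw [hY, ← Real.rpow_natCast, ← Real.rpow_natCast (X ^ (δ / 64)), ← Real.rpow_mul hX0.le]
      refine Real.rpow_le_rpow_of_exponent_le hX1 ?_
      have h2 := Nat.le_ceil (640 / δ)
      have h3 : δ / 64 * (640 / δ) = 10 := by
        field_simp
        norm_num
      have h4 : δ / 64 * (640 / δ) ≤ δ / 64 * ⌈640 / δ⌉₊ :=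
        mul_le_mul_of_nonneg_left h2 (by positivity)
      push_cast
      linarith only [h4, h3]
    have h2 : 1 / Y ^ ⌈640 / δ⌉₊ ≤ 1 / X ^ 10 := one_div_le_one_div_of_le (by positivity) h1
    calc P * E ≤ 16384 * X ^ 2 * (Ct * (1 / X ^ 10)) := by
          rw [hP, hE]
          gcongr
      _ = 16384 * Ct * (1 / X ^ 8) := by
          field_simp
  have hPE0 : 0 ≤ P * E := by positivity
  have hDC : ∀ y, ‖DS χ (fun x => (w1 x : ℂ)) M y‖ * ‖CC X M χ b y‖ ≤ P := by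
    intro y
    calc _ ≤ (16 * M) ^ 2 * (8 * X / M) ^ 2 :=
          mul_le_mul (TC_DS_triv M (by linarith only [h32, hM1, hX16, hκ16, hκ]) χ y) (TC_CC_triv X M hX0 (by linarith only [h32, hM1, hX16, hκ16, hκ]) χ b hb y)
            (norm_nonneg _) (by positivity)
      _ = P := by
          rw [hP]
          field_simp
          ring
  obtain ⟨Φ, hΦi, hΦ1, hΦ2⟩ := TC_conv TC_f (fun t => ‖CC X M χ b t‖) hfc
    (TC_CC_cont X M hX0 hM0 χ b).norm hf0 Y T G hGm hGs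
  have hpt : ∀ t ∈ G, ‖BL X M χ b t‖ ^ 2 ≤ 2 * D ^ 2 * Φ t + 2 * (P * E) ^ 2 := by
    intro t htG
    have h1 := TC_pt X M hX1 (by linarith only [h32, hM1, hX16, hκ16, hκ]) (by linarith) χ b t Y D P E hD0 (by
      intro y hy
      have hg : Good δ (X ^ (δ / 64)) X χ (t + y) :=
        TC_good δ (X ^ (δ / 32)) (X ^ (δ / 64)) X χ t y htG.1 (by
          have : |y| ≤ X ^ (δ / 64) := hy
          linarith)
      have h2 : |t + y| ≤ X / 4 := by
        have h3 := abs_add_le t y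
        have h4 : |t| ≤ T := htG.2
        linarith only [h3, hTX, hYT, hy, h4, hX16, hκ16, hκ]
      have h5 := hAb X hXa q hq χ A (fun x => (w1 x : ℂ)) hw1 M (by linarith only [h32, hM1, hX16, hκ16, hκ]) (by nlinarith only [hXa, hMX, hX₁, hκ16, hκ]) (t + y) h2 hg
      exact h5) (by positivity) hDC (fun y hy => ht Y y hY1 hy) hE0
    set I1 := ∫ y in Set.Icc (-Y) Y, TC_f y * ‖CC X M χ b (t + y)‖ with hI1
    have h2 : I1 ^ 2 ≤ Φ t := hΦ1 t
    have h3 : 0 ≤ I1 := setIntegral_nonneg measurableSet_Icc fun y _ =>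
      mul_nonneg (hf0 y) (norm_nonneg _)
    calc ‖BL X M χ b t‖ ^ 2 ≤ (D * I1 + P * E) ^ 2 := pow_le_pow_left₀ (norm_nonneg _) h1 2
      _ ≤ 2 * D ^ 2 * I1 ^ 2 + 2 * (P * E) ^ 2 := by nlinarith only [sq_nonneg (D * I1 - P * E)]
      _ ≤ 2 * D ^ 2 * Φ t + 2 * (P * E) ^ 2 := by
          have := mul_le_mul_of_nonneg_left h2 (by positivity : 0 ≤ 2 * D ^ 2)
          linarith
  have hi1 : IntegrableOn (fun t => 2 * D ^ 2 * Φ t) G := hΦi.const_mul _
  have hi2 : IntegrableOn (fun _ : ℝ => 2 * (P * E) ^ 2) G := integrableOn_const hGv.ne enorm_ne_top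
  have hstep : ∫ t in G, ‖BL X M χ b t‖ ^ 2 ≤ 2 * D ^ 2 * (∫ t in G, Φ t) +
      volume.real G * (2 * (P * E) ^ 2) := by
    calc ∫ t in G, ‖BL X M χ b t‖ ^ 2 ≤ ∫ t in G, (2 * D ^ 2 * Φ t + 2 * (P * E) ^ 2) := by
          refine integral_mono_of_nonneg (Filter.Eventually.of_forall fun t => sq_nonneg _)
            (hi1.add hi2) ?_
          filter_upwards [ae_restrict_mem hGm] with t ht
          exact hpt t ht
      _ = _ := by
          rw [integral_add hi1 hi2, integral_const_mul, setIntegral_const, smul_eq_mul]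
  -- the mean value of CC
  have hK := hmv X M (T + Y) hM8 hMX (by linarith) q χ b hb
  have hK' : ∫ t in Set.Icc (-(T + Y)) (T + Y), ‖CC X M χ b t‖ ^ 2 ≤
      Cv * (2 * T + X / M) * (X / M * X ^ (δ ^ 2 / 500)) := by
    refine hK.trans ?_
    have hXM : 0 ≤ X / M := by positivity
    have hl0 : 0 ≤ Real.log X := Real.log_nonneg hX1
    gcongr
    linarith only [hYT]
  have hFle : ∫ y in Set.Icc (-Y) Y, TC_f y ≤ F :=
    setIntegral_le_integral hfi (Filter.Eventually.of_forall hf0)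
  have hFle0 : 0 ≤ ∫ y in Set.Icc (-Y) Y, TC_f y := setIntegral_nonneg measurableSet_Icc fun y _ => hf0 y
  have hΦ3 : ∫ t in G, Φ t ≤ F ^ 2 * (Cv * (2 * T + X / M) * (X / M * X ^ (δ ^ 2 / 500))) := by
    refine hΦ2.trans ?_
    refine mul_le_mul (pow_le_pow_left₀ hFle0 hFle 2) hK' ?_ (by positivity)
    exact setIntegral_nonneg measurableSet_Icc fun t _ => sq_nonneg _
  have hnum := TC_num δ hδ hδ16 X M hX1 hM1 hM2
  have hfirst : 2 * D ^ 2 * (∫ t in G, Φ t) ≤ C8 * X ^ (2 - δ ^ 2 / 16 + 3 * (δ ^ 2 / 500)) := by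
    have e3 : (X ^ (δ ^ 2 / 500)) ^ 3 = X ^ (3 * (δ ^ 2 / 500)) := by
      rw [← Real.rpow_natCast, ← Real.rpow_mul hX0.le]
      congr 1
      push_cast
      ring
    calc 2 * D ^ 2 * (∫ t in G, Φ t) ≤
          2 * D ^ 2 * (F ^ 2 * (Cv * (2 * T + X / M) * (X / M * X ^ (δ ^ 2 / 500)))) :=
          mul_le_mul_of_nonneg_left hΦ3 (by positivity)
      _ = 2 * (CA * A) ^ 2 * Cv * F ^ 2 * (X ^ (δ ^ 2 / 500)) ^ 3 *
          ((M ^ (1 - δ)) ^ 2 * ((2 * T + X / M) * (X / M))) := by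
          rw [hD]
          ring
      _ ≤ 2 * (CA * A) ^ 2 * Cv * F ^ 2 * (X ^ (δ ^ 2 / 500)) ^ 3 *
          (34 * X ^ (2 - δ ^ 2 / 16)) := mul_le_mul_of_nonneg_left hnum (by positivity)
      _ = C8 * X ^ (2 - δ ^ 2 / 16 + 3 * (δ ^ 2 / 500)) := by
          rw [e3, Real.rpow_add hX0 (2 - δ ^ 2 / 16) (3 * (δ ^ 2 / 500)), hC8]
          ring
  have hsecond : volume.real G * (2 * (P * E) ^ 2) ≤ C9 := by
    have h1 : (P * E) ^ 2 ≤ (16384 * Ct * (1 / X ^ 8)) ^ 2 := pow_le_pow_left₀ hPE0 hPE 2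
    have h2 : T ≤ X := by linarith only [hTX, hYT, hX16, hκ16, hκ]
    calc volume.real G * (2 * (P * E) ^ 2) ≤ 2 * X * (2 * (16384 * Ct * (1 / X ^ 8)) ^ 2) := by
          refine mul_le_mul (hGr.trans (by linarith only [hTX, hYT, hX16, hκ16, hκ])) (by linarith only [h1]) (by positivity) (by positivity)
      _ = C9 * (X / X ^ 16) := by
          rw [hC9]
          field_simp
          ring
      _ ≤ C9 * 1 := by
          refine mul_le_mul_of_nonneg_left ?_ (by positivity)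
          rw [div_le_one (by positivity)]
          calc X = X ^ 1 := (pow_one X).symm
            _ ≤ X ^ 16 := pow_le_pow_right₀ hX1 (by norm_num)
      _ = C9 := mul_one _
  have hC8' : C8 * X ^ (2 - δ ^ 2 / 16 + 3 * (δ ^ 2 / 500)) ≤ X ^ (2 - δ ^ 2 / 64) / 2 := by
    have h1 : X ^ (2 - δ ^ 2 / 64) = X ^ (δ ^ 2 / 16 - 3 * (δ ^ 2 / 500) - δ ^ 2 / 64) *
        X ^ (2 - δ ^ 2 / 16 + 3 * (δ ^ 2 / 500)) := by
      rw [← Real.rpow_add hX0]
      congr 1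
      ring
    rw [h1]
    have h2 := mul_le_mul_of_nonneg_right hXC8
      (Real.rpow_nonneg hX0.le (2 - δ ^ 2 / 16 + 3 * (δ ^ 2 / 500)))
    linarith only [h2]
  have hC9' : C9 ≤ X ^ (2 - δ ^ 2 / 64) / 2 := by
    have h1 : X ≤ X ^ (2 - δ ^ 2 / 64) := by
      calc X = X ^ (1 : ℝ) := (Real.rpow_one X).symm
        _ ≤ _ := Real.rpow_le_rpow_of_exponent_le hX1 (by linarith only [hδ2, hκ16, hκ])
    linarith only [h1, hXC9]
  linarith only [hC8', hfirst, hsecond, hstep, hC9']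

end Pool.Agent.PSG
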