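import Pool.Agent.W_b58c63_h44.AR
import Pool.Agent.W_b58c63_h68.GdA

/-!
# Complete character sums with shifts
-/

set_option autoImplicit false

noncomputable section

open Finset Complex

namespace Pool.Agent.PSG

open Pool.Agent.Wb58c63 (prim ee)

/-- The complete sum over the reduced residues modulo `r k`. -/
def Tk {r r₂ : ℕ} (k : ℕ) (χ : DirichletCharacter ℂ r) (ψ : DirichletCharacter ℂ r₂) (N : ℕ) : ℂ :=
  ∑ b ∈ (range (r * k)).filter (fun b => b.Coprime (r * k)),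
    (starRingEnd ℂ) (χ (((N : ℤ) - b : ℤ) : ZMod r)) * (cR k ((N : ℤ) - b) : ℂ) * (starRingEnd ℂ) (ψ (b : ZMod r₂))

theorem TK_zmod {R : Type*} [AddCommMonoid R] {q : ℕ} [NeZero q] (f : ZMod q → R) :
    ∑ b ∈ range q, f (b : ZMod q) = ∑ b : ZMod q, f b := by
  refine Finset.sum_bij' (fun b _ => (b : ZMod q)) (fun b _ => b.val) ?_ ?_ ?_ ?_ ?_
  · intro b _
    exact Finset.mem_univ _
  · intro b _
    exact Finset.mem_range.mpr (ZMod.val_lt b)
  · intro b hb
    exact ZMod.val_cast_of_lt (Finset.mem_range.mp hb)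
  · intro b _
    exact ZMod.natCast_zmod_val b
  · intro b _
    rfl

/-- The Chinese remainder theorem for sums of products of periodic functions. -/
theorem TK_crt {R : Type*} [CommSemiring R] (r k : ℕ) (hr : r ≠ 0) (hk : k ≠ 0) (h : r.Coprime k) (f g : ℕ → R)
    (hf : ∀ b, f (b % r) = f b) (hg : ∀ b, g (b % k) = g b) :
    ∑ b ∈ range (r * k), f b * g b = (∑ b ∈ range r, f b) * ∑ b ∈ range k, g b := by
  rw [Finset.sum_mul_sum, ← Finset.sum_product']
  refine Finset.sum_nbij' (fun b => (b % r, b % k))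
    (fun x => ((Nat.chineseRemainder h x.1 x.2 : ℕ))) ?_ ?_ ?_ ?_ ?_
  · intro b _
    rw [Finset.mem_product, Finset.mem_range, Finset.mem_range]
    exact ⟨Nat.mod_lt _ (Nat.pos_of_ne_zero hr), Nat.mod_lt _ (Nat.pos_of_ne_zero hk)⟩
  · intro x _
    rw [Finset.mem_range]
    exact Nat.chineseRemainder_lt_mul h _ _ hr hk
  · intro b hb
    have h1 := (Nat.chineseRemainder h (b % r) (b % k)).2
    have h2 : ((Nat.chineseRemainder h (b % r) (b % k) : ℕ)) ≡ b [MOD r * k] :=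
      (Nat.modEq_and_modEq_iff_modEq_mul h).1 ⟨h1.1.trans (Nat.mod_modEq b r), h1.2.trans (Nat.mod_modEq b k)⟩
    exact Nat.ModEq.eq_of_lt_of_lt h2 (Nat.chineseRemainder_lt_mul h _ _ hr hk) (Finset.mem_range.1 hb)
  · intro x hx
    rw [Finset.mem_product, Finset.mem_range, Finset.mem_range] at hx
    have h1 := (Nat.chineseRemainder h x.1 x.2).2
    refine Prod.ext ?_ ?_
    · show (Nat.chineseRemainder h x.1 x.2 : ℕ) % r = x.1
      rw [h1.1, Nat.mod_eq_of_lt hx.1]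
    · show (Nat.chineseRemainder h x.1 x.2 : ℕ) % k = x.2
      rw [h1.2, Nat.mod_eq_of_lt hx.2]
  · intro b _
    show f b * g b = f (b % r) * g (b % k)
    rw [hf, hg]

/-- Sums of periodic functions. -/
theorem TK_per {R : Type*} [CommSemiring R] (p m : ℕ) (f : ℕ → R) (hf : ∀ b, f (b % p) = f b) :
    ∑ b ∈ range (p * m), f b = m * ∑ b ∈ range p, f b := by
  induction m with
  | zero => simp
  | succ m ih =>
    rw [Nat.mul_succ, Finset.sum_range_add, ih]
    have h1 : ∑ x ∈ range p, f (p * m + x) = ∑ x ∈ range p, f x := by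
      refine Finset.sum_congr rfl fun x _ => ?_
      rw [← hf (p * m + x), Nat.mul_add_mod, hf]
    rw [h1]
    push_cast
    ring

theorem TK_one (p : ℕ) (hp : p ≠ 0) (x : ℤ) :
    ∑ b ∈ range p, (if (p : ℤ) ∣ x - b then (1 : ℝ) else 0) = 1 := by
  have hp' : (0 : ℤ) < p := by positivity
  have h0 : 0 ≤ x % p := Int.emod_nonneg _ hp'.ne'
  have h1 : x % p < p := Int.emod_lt_of_pos _ hp'
  rw [Finset.sum_eq_single (x % p).toNat]
  · rw [if_pos]
    rw [Int.toNat_of_nonneg h0]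
    exact Int.dvd_self_sub_emod
  · intro b hb hb2
    rw [if_neg]
    intro h
    apply hb2
    have hb3 := Finset.mem_range.1 hb
    have h3 : x % p = (b : ℤ) := by
      have h4 : x % p = (b : ℤ) % p := (Int.modEq_iff_dvd.2 h : (b : ℤ) ≡ x [ZMOD p]).symm
      rw [h4]
      exact Int.emod_eq_of_lt (by positivity) (by exact_mod_cast hb3)
    rw [h3]
    rfl
  · intro h
    exfalso
    apply h
    rw [Finset.mem_range]
    zify
    rw [Int.toNat_of_nonneg h0]
    exact h1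


/-- The local factors. -/
def sp (N p : ℕ) : ℝ := if p ∣ N then (p : ℝ) / (p - 1) else 1 - 1 / ((p : ℝ) - 1) ^ 2

/-- The number of the residues `b` modulo `r` with `b` and `N - b` prime to `r`. -/
def cnt (r N : ℕ) : ℕ := ((range r).filter (fun b : ℕ => b.Coprime r ∧ Int.gcd ((N : ℤ) - b) r = 1)).card

theorem TK_cop (b r : ℕ) : (b % r).Coprime r ↔ b.Coprime r := by
  rw [← ZMod.isUnit_iff_coprime, ← ZMod.isUnit_iff_coprime, ZMod.natCast_mod]

theorem TK_gcd (x : ℤ) (r : ℕ) : Int.gcd x r = 1 ↔ IsUnit (x : ZMod r) := by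
  rw [ZMod.coe_int_isUnit_iff_isCoprime, Int.isCoprime_iff_gcd_eq_one, Int.gcd_comm]

theorem TK_cast (N b r : ℕ) : (((N : ℤ) - ((b % r : ℕ) : ℤ) : ℤ) : ZMod r) = (((N : ℤ) - (b : ℤ) : ℤ) : ZMod r) := by
  rw [Int.cast_sub, Int.cast_sub, Int.cast_natCast, Int.cast_natCast, Int.cast_natCast, ZMod.natCast_mod]

/-- The indicator function of `cnt`. -/
def TK_i (r N b : ℕ) : ℝ := if b.Coprime r ∧ Int.gcd ((N : ℤ) - b) r = 1 then 1 else 0

theorem TK_i_mod (r N b : ℕ) : TK_i r N (b % r) = TK_i r N b := by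
  unfold TK_i
  refine if_congr ?_ rfl rfl
  rw [TK_cop, TK_gcd, TK_gcd, TK_cast]

theorem TK_cnt (r N : ℕ) : (cnt r N : ℝ) = ∑ b ∈ range r, TK_i r N b := by
  unfold cnt TK_i
  rw [Finset.card_filter]
  push_cast
  rfl

theorem TK_cnt_mul (a b N : ℕ) (ha : a ≠ 0) (hb : b ≠ 0) (h : a.Coprime b) :
    (cnt (a * b) N : ℝ) = cnt a N * cnt b N := by
  rw [TK_cnt, TK_cnt, TK_cnt, ← TK_crt a b ha hb h _ _ (TK_i_mod a N) (TK_i_mod b N)]
  refine Finset.sum_congr rfl fun c _ => ?_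
  unfold TK_i
  have h1 : Int.gcd ((N : ℤ) - c) ((a * b : ℕ) : ℤ) = 1 ↔
      Int.gcd ((N : ℤ) - c) (a : ℤ) = 1 ∧ Int.gcd ((N : ℤ) - c) (b : ℤ) = 1 := by
    rw [← Int.isCoprime_iff_gcd_eq_one, ← Int.isCoprime_iff_gcd_eq_one, ← Int.isCoprime_iff_gcd_eq_one,
      Nat.cast_mul, IsCoprime.mul_right_iff]
  have h2 : c.Coprime (a * b) ↔ c.Coprime a ∧ c.Coprime b := Nat.coprime_mul_iff_right
  have h0 : (if c.Coprime (a * b) ∧ Int.gcd ((N : ℤ) - c) ((a * b : ℕ) : ℤ) = 1 then (1 : ℝ) else 0) =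
      if (c.Coprime a ∧ c.Coprime b) ∧ (Int.gcd ((N : ℤ) - c) (a : ℤ) = 1 ∧ Int.gcd ((N : ℤ) - c) (b : ℤ) = 1)
        then 1 else 0 := if_congr (by rw [h1, h2]) rfl rfl
  rw [h0]
  by_cases h3 : c.Coprime a ∧ Int.gcd ((N : ℤ) - c) a = 1
  · rw [if_pos h3, one_mul]
    by_cases h4 : c.Coprime b ∧ Int.gcd ((N : ℤ) - c) b = 1
    · rw [if_pos h4, if_pos ⟨⟨h3.1, h4.1⟩, ⟨h3.2, h4.2⟩⟩]
    · rw [if_neg h4, if_neg fun h5 => h4 ⟨h5.1.2, h5.2.2⟩]
  · rw [if_neg h3, zero_mul, if_neg fun h5 => h3 ⟨h5.1.1, h5.2.1⟩]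

theorem TK_cnt_prime (p n N : ℕ) (hp : p.Prime) :
    (cnt (p ^ (n + 1)) N : ℝ) = (p : ℝ) ^ n * ((p : ℝ) - 2 + if p ∣ N then 1 else 0) := by
  have h1 : ∀ b : ℕ, TK_i (p ^ (n + 1)) N b =
      1 - (if (p : ℤ) ∣ 0 - b then 1 else 0) - (if (p : ℤ) ∣ N - b then 1 else 0) +
        (if p ∣ N then 1 else 0) * (if (p : ℤ) ∣ 0 - b then 1 else 0) := by
    intro b
    unfold TK_i
    have e1 : b.Coprime (p ^ (n + 1)) ↔ ¬ (p : ℤ) ∣ 0 - b := by
      rw [Nat.coprime_pow_right_iff (by omega), Nat.coprime_comm, hp.coprime_iff_not_dvd, zero_sub,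
        Int.dvd_neg, Int.natCast_dvd_natCast]
    have e2 : Int.gcd ((N : ℤ) - b) ((p ^ (n + 1) : ℕ) : ℤ) = 1 ↔ ¬ (p : ℤ) ∣ N - b := by
      rw [← Int.isCoprime_iff_gcd_eq_one, Nat.cast_pow, IsCoprime.pow_right_iff (by omega), isCoprime_comm,
        Prime.coprime_iff_not_dvd (Nat.prime_iff_prime_int.1 hp)]
    have e0 : (if b.Coprime (p ^ (n + 1)) ∧ Int.gcd ((N : ℤ) - b) ((p ^ (n + 1) : ℕ) : ℤ) = 1 then (1 : ℝ) else 0) =
        if (¬ (p : ℤ) ∣ 0 - b) ∧ (¬ (p : ℤ) ∣ N - b) then 1 else 0 := if_congr (by rw [e1, e2]) rfl rfl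
    rw [e0]
    by_cases h2 : (p : ℤ) ∣ 0 - b
    · rw [if_neg fun h => h.1 h2, if_pos h2]
      have h3 : (p : ℤ) ∣ N - b ↔ p ∣ N := by
        rw [← Int.natCast_dvd_natCast]
        have h4 : (p : ℤ) ∣ b := by
          rw [zero_sub, Int.dvd_neg] at h2
          exact h2
        exact dvd_sub_left h4
      by_cases h4 : p ∣ N
      · rw [if_pos h4, if_pos (h3.2 h4)]
        ring
      · rw [if_neg h4, if_neg fun h5 => h4 (h3.1 h5)]
        ring
    · rw [if_neg h2]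
      by_cases h3 : (p : ℤ) ∣ N - b
      · rw [if_neg fun h => h.2 h3, if_pos h3]
        ring
      · rw [if_pos ⟨h2, h3⟩, if_neg h3]
        ring
  have h2 : ∀ b, TK_i (p ^ (n + 1)) N (b % p) = TK_i (p ^ (n + 1)) N b := by
    intro b
    rw [h1, h1]
    have h3 : ∀ x : ℤ, ((p : ℤ) ∣ x - ((b % p : ℕ) : ℤ)) ↔ ((p : ℤ) ∣ x - b) := by
      intro x
      rw [← ZMod.intCast_zmod_eq_zero_iff_dvd, ← ZMod.intCast_zmod_eq_zero_iff_dvd, Int.cast_sub, Int.cast_sub,
        Int.cast_natCast, Int.cast_natCast, ZMod.natCast_mod]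
    simp only [h3]
  have h3 := TK_per p (p ^ n) (TK_i (p ^ (n + 1)) N) h2
  rw [← pow_succ'] at h3
  rw [TK_cnt, h3]
  push_cast
  congr 1
  simp only [h1]
  rw [Finset.sum_add_distrib, Finset.sum_sub_distrib, Finset.sum_sub_distrib, ← Finset.mul_sum,
    TK_one p hp.ne_zero 0, TK_one p hp.ne_zero N]
  simp
  ring

/-- The number of pairs.

Proof. `cnt` is multiplicative in `r` (Chinese remainder theorem), and for `r = p ^ e` it is `p ^ (e - 1) (p - 1)` if `p ∣ N` and `p ^ (e - 1) (p - 2)` otherwise. `φ(r) ^ 2 / r = r ∏ (1 - 1/p) ^ 2`, and `(1 - 1/p) ^ 2 sp = 1 - 1/p` resp. `1 - 2/p`. (Or by the sieve formula `∑_{d ∣ rad r} μ(d) ...`.) -/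
theorem cnt_eq (r N : ℕ) (hr : 1 ≤ r) : (cnt r N : ℝ) * r = (r.totient : ℝ) ^ 2 * ∏ p ∈ r.primeFactors, sp N p := by
  induction r using Nat.recOnPosPrimePosCoprime with
  | prime_pow p n hp hn =>
    obtain ⟨m, rfl⟩ : ∃ m, n = m + 1 := ⟨n - 1, by omega⟩
    rw [TK_cnt_prime p m N hp, Nat.primeFactors_prime_pow (by omega) hp, Finset.prod_singleton,
      Nat.totient_prime_pow hp (by omega)]
    have hp1 : (1 : ℝ) < p := by exact_mod_cast hp.one_lt
    have hp2 : (p : ℝ) - 1 ≠ 0 := by linarith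
    rw [Nat.add_sub_cancel]
    push_cast [Nat.cast_sub hp.one_lt.le]
    unfold sp
    split_ifs
    · field_simp
      ring
    · field_simp
      ring
  | zero => omega
  | one =>
    have : cnt 1 N = 1 := by
      unfold cnt
      simp
    rw [this]
    simp
  | coprime a b ha hb hab iha ihb =>
    have h1 := iha (by omega)
    have h2 := ihb (by omega)
    rw [TK_cnt_mul a b N (by omega) (by omega) hab, Nat.totient_mul hab,
      Nat.Coprime.primeFactors_mul hab, Finset.prod_union (Nat.Coprime.disjoint_primeFactors hab)]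
    push_cast
    calc (cnt a N : ℝ) * cnt b N * (a * b) = (cnt a N * a) * (cnt b N * b) := by ring
      _ = _ := by
        rw [h1, h2]
        ring

/-- A form of primitivity. -/
def TK_P {r : ℕ} (χ : DirichletCharacter ℂ r) : Prop :=
  ∀ d : ℕ, ∀ hd : d ∣ r, d ≠ r → ∃ u : (ZMod r)ˣ, ZMod.castHom hd (ZMod d) u = 1 ∧ χ u ≠ 1

theorem TK_prim {r : ℕ} (hr : r ≠ 0) (χ : DirichletCharacter ℂ r) (hχ : χ.IsPrimitive) : TK_P χ := by
  intro d hd hdr
  have : NeZero r := ⟨hr⟩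
  by_contra hc
  push Not at hc
  have h1 : χ.FactorsThrough d := by
    rw [DirichletCharacter.factorsThrough_iff_ker_unitsMap hd]
    intro u hu
    rw [MonoidHom.mem_ker] at hu ⊢
    have h2 : ZMod.castHom hd (ZMod d) u = 1 := by
      have h3 := congrArg (fun v : (ZMod d)ˣ => (v : ZMod d)) hu
      simpa [ZMod.unitsMap_def] using h3
    have h4 := hc u h2
    ext
    rw [MulChar.coe_toUnitHom, h4, Units.val_one]
  have h2 : χ.conductor ∣ d := χ.conductor_dvd_of_mem_conductorSet h1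
  rw [(DirichletCharacter.isPrimitive_def χ).1 hχ] at h2
  exact hdr (Nat.dvd_antisymm hd h2)

theorem TK_van {r d : ℕ} [NeZero r] (χ : DirichletCharacter ℂ r) (hd : d ∣ r) (u : (ZMod r)ˣ)
    (hu : ZMod.castHom hd (ZMod d) u = 1) (hχ : χ u ≠ 1) (a : ZMod d) :
    ∑ x : ZMod r, (if ZMod.castHom hd (ZMod d) x = a then χ x else 0) = 0 := by
  have h1 : ∑ x : ZMod r, (if ZMod.castHom hd (ZMod d) x = a then χ x else 0) =
      χ u * ∑ x : ZMod r, (if ZMod.castHom hd (ZMod d) x = a then χ x else 0) := by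
    rw [Finset.mul_sum, ← Equiv.sum_comp (Units.mulLeft u)]
    refine Finset.sum_congr rfl fun x _ => ?_
    rw [Units.mulLeft_apply, map_mul, hu, one_mul, map_mul]
    split_ifs
    · rfl
    · rw [mul_zero]
  have h2 : (χ u - 1) * ∑ x : ZMod r, (if ZMod.castHom hd (ZMod d) x = a then χ x else 0) = 0 := by
    rw [sub_mul, one_mul, ← h1, sub_self]
  exact (mul_eq_zero.1 h2).resolve_left (sub_ne_zero.2 hχ)

/-- The conjugated form. -/
theorem TK_vanc {r d : ℕ} [NeZero r] (χ : DirichletCharacter ℂ r) (hχ : TK_P χ) (hd : d ∣ r) (hdr : d ≠ r)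
    (a : ZMod d) :
    ∑ x : ZMod r, (if ZMod.castHom hd (ZMod d) x = a then (starRingEnd ℂ) (χ x) else 0) = 0 := by
  obtain ⟨u, hu, hu2⟩ := hχ d hd hdr
  have h1 := congrArg (starRingEnd ℂ) (TK_van χ hd u hu hu2 a)
  rw [map_zero, map_sum] at h1
  refine Eq.trans (Finset.sum_congr rfl fun x _ => ?_) h1
  split_ifs
  · rfl
  · rw [map_zero]

theorem TK_iff {r d : ℕ} (hd : d ∣ r) (b : ℕ) (x : ℤ) :
    ZMod.castHom hd (ZMod d) (b : ZMod r) = (x : ZMod d) ↔ (d : ℤ) ∣ x - b := by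
  rw [map_natCast, ← ZMod.intCast_eq_intCast_iff_dvd_sub, Int.cast_natCast]

theorem TK_sh {r d : ℕ} (hr : r ≠ 0) (χ : DirichletCharacter ℂ r) (hχ : TK_P χ) (hd : d ∣ r) (hdr : d ≠ r)
    (x : ℤ) :
    ∑ b ∈ range r, (if (d : ℤ) ∣ x - b then (starRingEnd ℂ) (χ (b : ZMod r)) else 0) = 0 := by
  have : NeZero r := ⟨hr⟩
  have h1 := TK_vanc χ hχ hd hdr (x : ZMod d)
  rw [← TK_zmod] at h1
  refine Eq.trans (Finset.sum_congr rfl fun b _ => ?_) h1
  exact if_congr (TK_iff hd b x).symm rfl rfl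

theorem TK_sh2 {r d : ℕ} (hr : r ≠ 0) (χ : DirichletCharacter ℂ r) (hχ : TK_P χ) (hd : d ∣ r) (hdr : d ≠ r)
    (N : ℕ) :
    ∑ b ∈ range r, (if d ∣ b then (starRingEnd ℂ) (χ (((N : ℤ) - b : ℤ) : ZMod r)) else 0) = 0 := by
  have : NeZero r := ⟨hr⟩
  have h1 : ∑ x : ZMod r, (if ZMod.castHom hd (ZMod d) x = 0 then
      (starRingEnd ℂ) (χ ((N : ZMod r) - x)) else 0) = 0 := by
    rw [← Equiv.sum_comp (Equiv.subLeft (N : ZMod r))]
    refine Eq.trans (Finset.sum_congr rfl fun x _ => ?_) (TK_vanc χ hχ hd hdr (N : ZMod d))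
    rw [Equiv.subLeft_apply, sub_sub_cancel]
    refine if_congr ?_ rfl rfl
    rw [map_sub, map_natCast, sub_eq_zero]
    exact eq_comm
  rw [← TK_zmod] at h1
  refine Eq.trans (Finset.sum_congr rfl fun b _ => ?_) h1
  rw [Int.cast_sub, Int.cast_natCast, Int.cast_natCast]
  refine if_congr ?_ rfl rfl
  rw [map_natCast, ZMod.natCast_eq_zero_iff]

theorem TK_cR_one (x : ℤ) : cR 1 x = 1 := by
  unfold cR
  rw [Finset.sum_filter, Nat.divisors_one, Finset.sum_singleton]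
  simp

/-- The trivial second character. -/
theorem TK_triv_eq {r : ℕ} (hr : r ≠ 0) (χ : DirichletCharacter ℂ r) (hχ : TK_P χ) (N : ℕ) :
    ∑ b ∈ range r, (if b.Coprime r then (starRingEnd ℂ) (χ (((N : ℤ) - b : ℤ) : ZMod r)) else 0) =
      (ArithmeticFunction.moebius r : ℂ) * (starRingEnd ℂ) (χ (N : ZMod r)) := by
  have h1 : ∀ b ∈ range r, (if b.Coprime r then (starRingEnd ℂ) (χ (((N : ℤ) - b : ℤ) : ZMod r)) else 0) =
      ∑ d ∈ r.divisors, (ArithmeticFunction.moebius d : ℂ) *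
        (if d ∣ b then (starRingEnd ℂ) (χ (((N : ℤ) - b : ℤ) : ZMod r)) else 0) := by
    intro b _
    have h2 : (Nat.gcd b r).divisors = r.divisors.filter (fun d => d ∣ b) := by
      ext d
      rw [Nat.mem_divisors, Finset.mem_filter, Nat.mem_divisors, Nat.dvd_gcd_iff]
      have : Nat.gcd b r ≠ 0 := fun h => hr (Nat.eq_zero_of_gcd_eq_zero_right h)
      tauto
    have h3 := AR_moebius (Nat.gcd b r)
    rw [h2, Finset.sum_filter] at h3
    have h4 : ∑ d ∈ r.divisors, (ArithmeticFunction.moebius d : ℂ) *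
        (if d ∣ b then (starRingEnd ℂ) (χ (((N : ℤ) - b : ℤ) : ZMod r)) else 0) =
        (∑ d ∈ r.divisors, if d ∣ b then (ArithmeticFunction.moebius d : ℂ) else 0) *
          (starRingEnd ℂ) (χ (((N : ℤ) - b : ℤ) : ZMod r)) := by
      rw [Finset.sum_mul]
      refine Finset.sum_congr rfl fun d _ => ?_
      split_ifs
      · rfl
      · rw [zero_mul, mul_zero]
    rw [h4, h3]
    by_cases h5 : b.Coprime r
    · rw [if_pos h5, if_pos h5, one_mul]
    · rw [if_neg h5, if_neg h5, zero_mul]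
  rw [Finset.sum_congr rfl h1, Finset.sum_comm]
  simp only [← Finset.mul_sum]
  rw [Finset.sum_eq_single r]
  · congr 1
    rw [Finset.sum_eq_single 0]
    · simp
    · intro b hb hb0
      refine if_neg fun h => ?_
      exact absurd (Nat.le_of_dvd (Nat.pos_of_ne_zero hb0) h) (not_le.2 (Finset.mem_range.1 hb))
    · intro h
      exact absurd (Finset.mem_range.2 (Nat.pos_of_ne_zero hr)) h
  · intro d hd hdr
    rw [TK_sh2 hr χ hχ (Nat.mem_divisors.1 hd).1 hdr N, mul_zero]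
  · intro h
    exact absurd (Nat.mem_divisors_self r hr) h

/-- The first component of a character. -/
def TK_fst {g s : ℕ} (h : g.Coprime s) (ψ : DirichletCharacter ℂ (g * s)) : DirichletCharacter ℂ g where
  toFun x := ψ ((ZMod.chineseRemainder h).symm (x, 1))
  map_one' := by
    rw [show ((1 : ZMod g), (1 : ZMod s)) = 1 from rfl, map_one, map_one]
  map_mul' x y := by
    rw [← map_mul, ← map_mul, Prod.mk_mul_mk, one_mul]
  map_nonunit' x hx := by
    refine MulChar.map_nonunit ψ fun h1 => hx ?_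
    have h2 := h1.map (ZMod.chineseRemainder h)
    rw [RingEquiv.apply_symm_apply] at h2
    exact (Prod.isUnit_iff.1 h2).1

/-- The second component of a character. -/
def TK_snd {g s : ℕ} (h : g.Coprime s) (ψ : DirichletCharacter ℂ (g * s)) : DirichletCharacter ℂ s where
  toFun x := ψ ((ZMod.chineseRemainder h).symm (1, x))
  map_one' := by
    rw [show ((1 : ZMod g), (1 : ZMod s)) = 1 from rfl, map_one, map_one]
  map_mul' x y := by
    rw [← map_mul, ← map_mul, Prod.mk_mul_mk, one_mul]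
  map_nonunit' x hx := by
    refine MulChar.map_nonunit ψ fun h1 => hx ?_
    have h2 := h1.map (ZMod.chineseRemainder h)
    rw [RingEquiv.apply_symm_apply] at h2
    exact (Prod.isUnit_iff.1 h2).2

theorem TK_split {g s : ℕ} (h : g.Coprime s) (ψ : DirichletCharacter ℂ (g * s)) (x : ZMod (g * s)) :
    ψ x = TK_fst h ψ (ZMod.castHom (dvd_mul_right g s) (ZMod g) x) *
      TK_snd h ψ (ZMod.castHom (dvd_mul_left s g) (ZMod s) x) := by
  have h1 : (ZMod.chineseRemainder h x).1 = ZMod.castHom (dvd_mul_right g s) (ZMod g) x :=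
    RingHom.congr_fun (Subsingleton.elim ((RingHom.fst (ZMod g) (ZMod s)).comp
      (ZMod.chineseRemainder h).toRingHom) (ZMod.castHom (dvd_mul_right g s) (ZMod g))) x
  have h2 : (ZMod.chineseRemainder h x).2 = ZMod.castHom (dvd_mul_left s g) (ZMod s) x :=
    RingHom.congr_fun (Subsingleton.elim ((RingHom.snd (ZMod g) (ZMod s)).comp
      (ZMod.chineseRemainder h).toRingHom) (ZMod.castHom (dvd_mul_left s g) (ZMod s))) x
  rw [← h1, ← h2]
  show ψ x = ψ ((ZMod.chineseRemainder h).symm ((ZMod.chineseRemainder h x).1, 1)) *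
    ψ ((ZMod.chineseRemainder h).symm (1, (ZMod.chineseRemainder h x).2))
  rw [← map_mul, ← map_mul, Prod.mk_mul_mk, one_mul, mul_one, Prod.mk.eta, RingEquiv.symm_apply_apply]

theorem TK_split_nat {g s : ℕ} (h : g.Coprime s) (ψ : DirichletCharacter ℂ (g * s)) (b : ℕ) :
    ψ (b : ZMod (g * s)) = TK_fst h ψ (b : ZMod g) * TK_snd h ψ (b : ZMod s) := by
  rw [TK_split h ψ, map_natCast (ZMod.castHom _ (ZMod g)), map_natCast (ZMod.castHom _ (ZMod s))]

theorem TK_P_snd {g s : ℕ} (hg : g ≠ 0) (h : g.Coprime s) (ψ : DirichletCharacter ℂ (g * s)) (hψ : TK_P ψ) :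
    TK_P (TK_snd h ψ) := by
  intro d hd hds
  obtain ⟨u, hu, hu2⟩ := hψ (g * d) (Nat.mul_dvd_mul_left g hd)
    (fun h1 => hds (Nat.eq_of_mul_eq_mul_left (Nat.pos_of_ne_zero hg) h1))
  refine ⟨Units.map (ZMod.castHom (dvd_mul_left s g) (ZMod s)).toMonoidHom u, ?_, ?_⟩
  · have h1 : (ZMod.castHom hd (ZMod d)).comp (ZMod.castHom (dvd_mul_left s g) (ZMod s)) =
        (ZMod.castHom (dvd_mul_left d g) (ZMod d)).comp
          (ZMod.castHom (Nat.mul_dvd_mul_left g hd) (ZMod (g * d))) := Subsingleton.elim _ _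
    have h2 := RingHom.congr_fun h1 (u : ZMod (g * s))
    rw [RingHom.comp_apply, RingHom.comp_apply, hu, map_one] at h2
    exact h2
  · have h1 : (ZMod.castHom (dvd_mul_right g s) (ZMod g)) =
        (ZMod.castHom (dvd_mul_right g d) (ZMod g)).comp
          (ZMod.castHom (Nat.mul_dvd_mul_left g hd) (ZMod (g * d))) := Subsingleton.elim _ _
    have h2 := RingHom.congr_fun h1 (u : ZMod (g * s))
    rw [RingHom.comp_apply, hu, map_one] at h2
    rw [TK_split h ψ, h2, map_one, one_mul] at hu2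
    exact hu2

/-- The complete sum of the shifted Ramanujan sum. -/
def TK_W (k N : ℕ) : ℝ := ∑ b ∈ range k, if b.Coprime k then cR k ((N : ℤ) - b) else 0

theorem TK_cR_mod (k N b : ℕ) : cR k ((N : ℤ) - ((b % k : ℕ) : ℤ)) = cR k ((N : ℤ) - b) := by
  refine cR_congr k k dvd_rfl _ _ ?_
  have h : ((k : ℤ)) ∣ (b : ℤ) - ((b % k : ℕ) : ℤ) := by
    rw [Int.natCast_mod]
    exact Int.dvd_self_sub_emod
  have e : (N : ℤ) - ((b % k : ℕ) : ℤ) - ((N : ℤ) - b) = (b : ℤ) - ((b % k : ℕ) : ℤ) := by ring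
  rw [e]
  exact h

theorem TK_W_mul (k l N : ℕ) (hk : k ≠ 0) (hl : l ≠ 0) (h : k.Coprime l) : TK_W (k * l) N = TK_W k N * TK_W l N := by
  unfold TK_W
  rw [← TK_crt k l hk hl h (fun b => if b.Coprime k then cR k ((N : ℤ) - b) else 0)
    (fun b => if b.Coprime l then cR l ((N : ℤ) - b) else 0)]
  · refine Finset.sum_congr rfl fun b _ => ?_
    have h1 : (if b.Coprime (k * l) then cR (k * l) ((N : ℤ) - b) else 0) =
        if b.Coprime k ∧ b.Coprime l then cR (k * l) ((N : ℤ) - b) else 0 :=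
      if_congr Nat.coprime_mul_iff_right rfl rfl
    rw [h1, cR_mul k l h]
    by_cases h2 : b.Coprime k
    · by_cases h3 : b.Coprime l
      · rw [if_pos ⟨h2, h3⟩, if_pos h2, if_pos h3]
      · rw [if_neg fun h4 => h3 h4.2, if_neg h3, mul_zero]
    · rw [if_neg fun h4 => h2 h4.1, if_neg h2, zero_mul]
  · intro b
    rw [TK_cR_mod]
    exact if_congr (TK_cop b k) rfl rfl
  · intro b
    rw [TK_cR_mod]
    exact if_congr (TK_cop b l) rfl rfl

theorem TK_W_eq (k N : ℕ) (hk : Squarefree k) : TK_W k N = (ArithmeticFunction.moebius k : ℝ) * cR k N := by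
  induction k using Nat.recOnPosPrimePosCoprime with
  | prime_pow p n hp hn =>
    have h1 : n = 1 := ((Nat.squarefree_pow_iff hp.ne_one hn.ne').1 hk).2
    rw [h1, pow_one, ArithmeticFunction.moebius_apply_prime hp]
    have h2 : ∑ b ∈ range p, cR p ((N : ℤ) - b) = 0 := by
      have h3 : ∀ b : ℕ, cR p ((N : ℤ) - b) = (p : ℝ) * (if (p : ℤ) ∣ (N : ℤ) - b then 1 else 0) - 1 := by
        intro b
        rw [cR_prime p hp]
        split_ifs <;> ring
      simp only [h3]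
      rw [Finset.sum_sub_distrib, ← Finset.mul_sum, TK_one p hp.ne_zero N]
      simp
    have h3 : TK_W p N = ∑ b ∈ range p, cR p ((N : ℤ) - b) - ∑ b ∈ range p, (if b = 0 then cR p ((N : ℤ) - b) else 0) := by
      unfold TK_W
      rw [← Finset.sum_sub_distrib]
      refine Finset.sum_congr rfl fun b hb => ?_
      by_cases hb0 : b = 0
      · subst hb0
        rw [if_pos rfl, sub_self, if_neg]
        rw [Nat.coprime_zero_left]
        exact hp.ne_one
      · rw [if_neg hb0, sub_zero, if_pos]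
        rw [Nat.coprime_comm, hp.coprime_iff_not_dvd]
        intro h
        exact absurd (Nat.le_of_dvd (Nat.pos_of_ne_zero hb0) h) (not_le.2 (Finset.mem_range.1 hb))
    rw [h3, h2, Finset.sum_ite_eq', if_pos (Finset.mem_range.2 hp.pos)]
    simp
  | zero => exact absurd hk not_squarefree_zero
  | one =>
    unfold TK_W
    simp [TK_cR_one]
  | coprime a b ha hb hab iha ihb =>
    have h1 := iha (hk.of_mul_left)
    have h2 := ihb (hk.of_mul_right)
    rw [TK_W_mul a b N (by omega) (by omega) hab, h1, h2, cR_mul a b hab,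
      ArithmeticFunction.isMultiplicative_moebius.map_mul_of_coprime hab]
    push_cast
    ring

theorem TK_W_le (k N : ℕ) (hk : Squarefree k) : |TK_W k N| ≤ ((Nat.gcd k N).totient : ℝ) := by
  rw [TK_W_eq k N hk, abs_mul, cR_abs k hk, AR_gcd, Int.natAbs_natCast]
  have h1 : |(ArithmeticFunction.moebius k : ℝ)| ≤ 1 := by
    have := ArithmeticFunction.abs_moebius_le_one (n := k)
    exact_mod_cast this
  calc |(ArithmeticFunction.moebius k : ℝ)| * ((Nat.gcd k N).totient : ℝ) ≤ 1 * ((Nat.gcd k N).totient : ℝ) :=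
        mul_le_mul_of_nonneg_right h1 (Nat.cast_nonneg _)
    _ = _ := one_mul _

/-- The first factor. -/
def TK_F {r r₂ : ℕ} (χ : DirichletCharacter ℂ r) (ψ : DirichletCharacter ℂ r₂) (N b : ℕ) : ℂ :=
  if b.Coprime r then (starRingEnd ℂ) (χ (((N : ℤ) - b : ℤ) : ZMod r)) * (starRingEnd ℂ) (ψ (b : ZMod r₂)) else 0

theorem TK_F_mod {r r₂ : ℕ} (h : r₂ ∣ r) (χ : DirichletCharacter ℂ r) (ψ : DirichletCharacter ℂ r₂) (N b : ℕ) :
    TK_F χ ψ N (b % r) = TK_F χ ψ N b := by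
  unfold TK_F
  have h1 : ((b % r : ℕ) : ZMod r₂) = (b : ZMod r₂) :=
    (ZMod.natCast_eq_natCast_iff _ _ _).2 ((Nat.mod_modEq b r).of_dvd h)
  rw [TK_cast, h1]
  exact if_congr (TK_cop b r) rfl rfl

theorem TK_F_le {r r₂ : ℕ} (χ : DirichletCharacter ℂ r) (ψ : DirichletCharacter ℂ r₂) (N b : ℕ) :
    ‖TK_F χ ψ N b‖ ≤ TK_i r N b := by
  unfold TK_F TK_i
  by_cases h1 : b.Coprime r
  · rw [if_pos h1]
    by_cases h2 : Int.gcd ((N : ℤ) - b) r = 1
    · rw [if_pos ⟨h1, h2⟩, norm_mul, RCLike.norm_conj, RCLike.norm_conj]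
      exact mul_le_one₀ (DirichletCharacter.norm_le_one _ _) (norm_nonneg _) (DirichletCharacter.norm_le_one _ _)
    · rw [if_neg fun h => h2 h.2, MulChar.map_nonunit χ fun h => h2 ((TK_gcd _ _).2 h), map_zero, zero_mul,
        norm_zero]
  · rw [if_neg h1, if_neg fun h => h1 h.1, norm_zero]

theorem TK_F_sum {r r₂ : ℕ} (χ : DirichletCharacter ℂ r) (ψ : DirichletCharacter ℂ r₂) (N : ℕ) :
    ‖∑ b ∈ range r, TK_F χ ψ N b‖ ≤ (cnt r N : ℝ) := by
  rw [TK_cnt]
  exact (norm_sum_le _ _).trans (Finset.sum_le_sum fun b _ => TK_F_le χ ψ N b)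

theorem TK_Tk1 {r r₂ : ℕ} (χ : DirichletCharacter ℂ r) (ψ : DirichletCharacter ℂ r₂) (N : ℕ) :
    Tk 1 χ ψ N = ∑ b ∈ range r, TK_F χ ψ N b := by
  unfold Tk TK_F
  rw [Finset.sum_filter, mul_one]
  refine Finset.sum_congr rfl fun b _ => ?_
  rw [TK_cR_one, Complex.ofReal_one, mul_one]

/-- The second factor. -/
def TK_G {s : ℕ} (ψ : DirichletCharacter ℂ s) (N b : ℕ) : ℂ :=
  (cR s ((N : ℤ) - b) : ℂ) * (starRingEnd ℂ) (ψ (b : ZMod s))

theorem TK_G_mod {s : ℕ} (ψ : DirichletCharacter ℂ s) (N b : ℕ) : TK_G ψ N (b % s) = TK_G ψ N b := by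
  unfold TK_G
  rw [TK_cR_mod, ZMod.natCast_mod]

theorem TK_G_sum {s : ℕ} (hs : s ≠ 0) (ψ : DirichletCharacter ℂ s) (hψ : TK_P ψ) (N : ℕ) :
    ‖∑ b ∈ range s, TK_G ψ N b‖ ≤ (s : ℝ) := by
  have h1 : ∀ b : ℕ, TK_G ψ N b = ∑ d ∈ s.divisors, ((d : ℂ) * (ArithmeticFunction.moebius (s / d) : ℂ)) *
      (if (d : ℤ) ∣ (N : ℤ) - b then (starRingEnd ℂ) (ψ (b : ZMod s)) else 0) := by
    intro b
    unfold TK_G cR
    rw [Finset.sum_filter, Complex.ofReal_sum, Finset.sum_mul]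
    refine Finset.sum_congr rfl fun d _ => ?_
    split_ifs
    · push_cast
      rfl
    · rw [Complex.ofReal_zero, zero_mul, mul_zero]
  rw [Finset.sum_congr rfl fun b _ => h1 b, Finset.sum_comm]
  simp only [← Finset.mul_sum]
  rw [Finset.sum_eq_single s]
  · rw [Nat.div_self (Nat.pos_of_ne_zero hs), ArithmeticFunction.moebius_apply_one, Int.cast_one, mul_one, norm_mul,
      Complex.norm_natCast]
    have h2 : ‖∑ b ∈ range s, (if (s : ℤ) ∣ (N : ℤ) - b then (starRingEnd ℂ) (ψ (b : ZMod s)) else 0)‖ ≤ 1 := by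
      refine (norm_sum_le _ _).trans ?_
      rw [← TK_one s hs N]
      refine Finset.sum_le_sum fun b _ => ?_
      split_ifs
      · rw [RCLike.norm_conj]
        exact DirichletCharacter.norm_le_one _ _
      · rw [norm_zero]
    calc (s : ℝ) * ‖∑ b ∈ range s, (if (s : ℤ) ∣ (N : ℤ) - b then (starRingEnd ℂ) (ψ (b : ZMod s)) else 0)‖
        ≤ s * 1 := mul_le_mul_of_nonneg_left h2 (Nat.cast_nonneg _)
      _ = s := mul_one _
  · intro d hd hdr
    rw [TK_sh hs ψ hψ (Nat.mem_divisors.1 hd).1 hdr N, mul_zero]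
  · intro h
    exact absurd (Nat.mem_divisors_self s hs) h

/-- The third factor. -/
def TK_H (m N b : ℕ) : ℂ := if b.Coprime m then (cR m ((N : ℤ) - b) : ℂ) else 0

theorem TK_H_mod (m N b : ℕ) : TK_H m N (b % m) = TK_H m N b := by
  unfold TK_H
  rw [TK_cR_mod]
  exact if_congr (TK_cop b m) rfl rfl

theorem TK_H_sum (m N : ℕ) : ∑ b ∈ range m, TK_H m N b = (TK_W m N : ℂ) := by
  unfold TK_H TK_W
  rw [Complex.ofReal_sum]
  refine Finset.sum_congr rfl fun b _ => ?_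
  split_ifs
  · rfl
  · rw [Complex.ofReal_zero]



/-- Proof. `χ (N - b) = 0` unless `N - b` is prime to `r`; `ψ` has norm at most `1`; `cR 1 = 1`. -/
theorem Tk_one_le {r r₂ : ℕ} (hr : 1 ≤ r) (χ : DirichletCharacter ℂ r) (ψ : DirichletCharacter ℂ r₂) (N : ℕ) :
    ‖Tk 1 χ ψ N‖ ≤ (cnt r N : ℝ) := by
  rw [TK_Tk1]
  exact TK_F_sum χ ψ N

/-- **Conductor dividing `r`.**

Proof. By the Chinese remainder theorem the residues `b` prime to `r k` are the pairs `(b₁, b₂)`; `χ(N - b)` and `ψ(b)` depend on `b₁` only and `cR k (N - b)` on `b₂` only. So `Tk k = Tk 1 ∑_{b₂ mod k, (b₂, k) = 1} cR k (N - b₂)`, and the last sum is multiplicative in `k`; for a prime `p` it is `∑_{b ≠ 0} (p 1_{b = N} - 1)`, which is `1` if `p ∤ N` and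
`-(p - 1)` if `p ∣ N`, i.e. `μ(p) cR p N`. -/
theorem Tk_dvd {r r₂ : ℕ} (hr : 1 ≤ r) (h : r₂ ∣ r) (k : ℕ) (hk : Squarefree k) (hrk : k.Coprime r) (χ : DirichletCharacter ℂ r)
    (ψ : DirichletCharacter ℂ r₂) (N : ℕ) :
    Tk k χ ψ N = Tk 1 χ ψ N * ((ArithmeticFunction.moebius k : ℂ) * (cR k N : ℂ)) := by
  have hk0 : k ≠ 0 := hk.ne_zero
  rw [TK_Tk1, ← Complex.ofReal_intCast, ← Complex.ofReal_mul, ← TK_W_eq k N hk, ← TK_H_sum,
    ← TK_crt r k (by omega) hk0 hrk.symm _ _ (TK_F_mod h χ ψ N) (TK_H_mod k N)]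
  unfold Tk
  rw [Finset.sum_filter]
  refine Finset.sum_congr rfl fun b _ => ?_
  unfold TK_F TK_H
  by_cases h2 : b.Coprime r
  · by_cases h3 : b.Coprime k
    · rw [if_pos (Nat.Coprime.mul_right h2 h3), if_pos h2, if_pos h3]
      ring
    · rw [if_neg fun h4 => h3 (Nat.coprime_mul_iff_right.1 h4).2, if_neg h3, mul_zero]
  · rw [if_neg fun h4 => h2 (Nat.coprime_mul_iff_right.1 h4).1, if_neg h2, zero_mul]

/-- The trivial second character.

Proof. `∑_{(b, r) = 1} conj χ(N - b) = ∑_{d ∣ r} μ(d) ∑_{b mod r, d ∣ b} conj χ(N - b) = ∑_{d ∣ r} μ(d) ∑_{c mod r, c ≡ N (d)} conj χ(c)`, and for a primitive character the sum over a residue class modulo a proper divisor `d` of `r` vanishes (there is `u ≡ 1 mod d`, prime to `r`, with `χ(u) ≠ 1`). So it is `μ(r) conj χ(N)`. -/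
theorem Tk_triv {r : ℕ} (hr : 1 < r) (χ : DirichletCharacter ℂ r) (hχ : χ.IsPrimitive) (ψ : DirichletCharacter ℂ 1) (N : ℕ) :
    ‖Tk 1 χ ψ N‖ ≤ 1 := by
  have hr0 : r ≠ 0 := by omega
  have h1 : Tk 1 χ ψ N = (ArithmeticFunction.moebius r : ℂ) * (starRingEnd ℂ) (χ (N : ZMod r)) := by
    rw [TK_Tk1, ← TK_triv_eq hr0 χ (TK_prim hr0 χ hχ) N]
    refine Finset.sum_congr rfl fun b _ => ?_
    unfold TK_F
    have h2 : ψ (b : ZMod 1) = 1 := by
      rw [Subsingleton.elim (b : ZMod 1) 1, map_one]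
    rw [h2, map_one, mul_one]
  rw [h1, norm_mul, RCLike.norm_conj]
  have h2 : ‖(ArithmeticFunction.moebius r : ℂ)‖ ≤ 1 := by
    rw [Complex.norm_intCast]
    have := ArithmeticFunction.abs_moebius_le_one (n := r)
    exact_mod_cast this
  exact mul_le_one₀ h2 (norm_nonneg _) (DirichletCharacter.norm_le_one _ _)

/-- **The general bound.** `s = r₂ / gcd(r₂, r)`, a divisor of `k`.

Proof. Write `ψ` as a character modulo `r k` as the product of a character `ψ₁` modulo `r` and a character `ψ₂` modulo `k` (Chinese remainder theorem); since the conductor `r₂` is the product of those of `ψ₁` and `ψ₂`, the latter is `s`. `Tk k = (∑_{b₁ mod r}^* conj χ(N - b₁) conj ψ₁(b₁)) (∑_{b₂ mod k}^* cR k (N - b₂) conj ψ₂(b₂))`. The first factor is at most `cnt r N`.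
The second is, with `cR k x = ∑_{d ∣ k, d ∣ x} d μ(k / d)`, equal to `∑_{d ∣ k} d μ(k/d) ∑_{b ≡ N (d)}^* conj ψ₂(b)`, and the inner sum vanishes unless `s ∣ d` and `(d, N) = 1` (as `ψ₂` has conductor `s`, `k` squarefree), when it is of the form `(unit value) φ(k / d)`. So the second factor has norm at most
`|∑_{s ∣ d ∣ k, (d, N) = 1} d μ(k/d) φ(k/d)| = s ∏_{p ∣ k/s} |p [p ∤ N] - (p - 1)| = s φ(gcd(k / s, N))`. -/
theorem Tk_le {r r₂ : ℕ} (hr : 1 ≤ r) (k : ℕ) (hk : Squarefree k) (hrk : k.Coprime r) (h : r₂ ∣ r * k) (χ : DirichletCharacter ℂ r)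
    (ψ : DirichletCharacter ℂ r₂) (hψ : ψ.IsPrimitive) (N : ℕ) :
    r₂ / Nat.gcd r₂ r ∣ k ∧ ‖Tk k χ ψ N‖ ≤ (cnt r N : ℝ) *
      (((r₂ / Nat.gcd r₂ r : ℕ) : ℝ) * ((Nat.gcd (k / (r₂ / Nat.gcd r₂ r)) N).totient : ℝ)) := by
  have hr0 : r ≠ 0 := by omega
  have hk0 : k ≠ 0 := hk.ne_zero
  have hr₂ : r₂ ≠ 0 := by
    rintro rfl
    exact (mul_ne_zero hr0 hk0) (Nat.eq_zero_of_zero_dvd h)
  obtain ⟨g, hg⟩ : ∃ g, Nat.gcd r₂ r = g := ⟨_, rfl⟩
  obtain ⟨s, hs⟩ : ∃ s, r₂ = g * s := by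
    rw [← hg]
    exact Nat.gcd_dvd_left r₂ r
  subst hs
  have hg0 : g ≠ 0 := left_ne_zero_of_mul hr₂
  have hs0 : s ≠ 0 := right_ne_zero_of_mul hr₂
  rw [hg, Nat.mul_div_cancel_left s (Nat.pos_of_ne_zero hg0)]
  have hgr : g ∣ r := by
    rw [← hg]
    exact Nat.gcd_dvd_right _ _
  obtain ⟨r', rfl⟩ := hgr
  have hsr : s.Coprime r' := by
    rw [Nat.gcd_mul_left] at hg
    exact Nat.eq_of_mul_eq_mul_left (Nat.pos_of_ne_zero hg0) (by rw [hg, mul_one])
  have hsk : s ∣ k := by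
    rw [mul_assoc] at h
    exact hsr.dvd_of_dvd_mul_left (Nat.dvd_of_mul_dvd_mul_left (Nat.pos_of_ne_zero hg0) h)
  refine ⟨hsk, ?_⟩
  obtain ⟨m, rfl⟩ := hsk
  rw [Nat.mul_div_cancel_left m (Nat.pos_of_ne_zero hs0)]
  have hm0 : m ≠ 0 := right_ne_zero_of_mul hk0
  have hsm : s.Coprime m := Nat.coprime_of_squarefree_mul hk
  have hgs : g.Coprime s := (Nat.Coprime.coprime_dvd_left (dvd_mul_right s m)
    (Nat.Coprime.coprime_dvd_right (dvd_mul_right g r') hrk)).symm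
  have hP : TK_P (TK_snd hgs ψ) := TK_P_snd hg0 hgs ψ (TK_prim hr₂ ψ hψ)
  have hmain : Tk (s * m) χ ψ N = (∑ b ∈ range (g * r'), TK_F χ (TK_fst hgs ψ) N b) *
      ((∑ b ∈ range s, TK_G (TK_snd hgs ψ) N b) * (TK_W m N : ℂ)) := by
    rw [← TK_H_sum, ← TK_crt s m hs0 hm0 hsm _ _ (TK_G_mod _ N) (TK_H_mod m N),
      ← TK_crt (g * r') (s * m) hr0 hk0 hrk.symm _ _ (TK_F_mod (dvd_mul_right g r') χ _ N)]
    · unfold Tk
      rw [Finset.sum_filter]
      refine Finset.sum_congr rfl fun b _ => ?_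
      unfold TK_F TK_G TK_H
      by_cases h2 : b.Coprime (g * r')
      · by_cases h3 : b.Coprime m
        · by_cases h4 : b.Coprime s
          · rw [if_pos (Nat.Coprime.mul_right h2 (Nat.Coprime.mul_right h4 h3)), if_pos h2, if_pos h3,
              cR_mul s m hsm, TK_split_nat hgs ψ, map_mul]
            push_cast
            ring
          · rw [if_neg fun h5 => h4 (Nat.coprime_mul_iff_right.1 (Nat.coprime_mul_iff_right.1 h5).2).1,
              MulChar.map_nonunit (TK_snd hgs ψ) fun h5 => h4 ((ZMod.isUnit_iff_coprime b s).1 h5)]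
            simp
        · rw [if_neg fun h5 => h3 (Nat.coprime_mul_iff_right.1 (Nat.coprime_mul_iff_right.1 h5).2).2, if_neg h3]
          simp
      · rw [if_neg fun h4 => h2 (Nat.coprime_mul_iff_right.1 h4).1, if_neg h2, zero_mul]
    · intro b
      have e1 : ∀ c d : ℕ, (b % (c * d)) % c = b % c := fun c d => Nat.mod_mul_right_mod b c d
      have e2 : ∀ c d : ℕ, (b % (c * d)) % d = b % d := fun c d => Nat.mod_mul_left_mod b c d
      have e3 : TK_G (TK_snd hgs ψ) N (b % (s * m)) = TK_G (TK_snd hgs ψ) N b := by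
        rw [← TK_G_mod _ N (b % (s * m)), e1, TK_G_mod]
      have e4 : TK_H m N (b % (s * m)) = TK_H m N b := by
        rw [← TK_H_mod m N (b % (s * m)), e2, TK_H_mod]
      rw [e3, e4]
  rw [hmain, norm_mul, norm_mul, Complex.norm_real, Real.norm_eq_abs]
  refine mul_le_mul (TK_F_sum _ _ _) ?_ (by positivity) (Nat.cast_nonneg _)
  exact mul_le_mul (TK_G_sum hs0 _ hP N) (TK_W_le m N (hk.of_mul_right)) (abs_nonneg _) (Nat.cast_nonneg _)

end Pool.Agent.PSG
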