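import Pool.Agent.W_b58c63_h44.TRa
import Pool.Agent.W_b58c63_h44.Mel
import Pool.Agent.W_b58c63_h44.EIdef

/-!
# Sums over primes in short intervals as integrals
-/

set_option autoImplicit false

noncomputable section

open Finset Complex MeasureTheory

namespace Pool.Agent.PSG

theorem TRb_sqrt {X : ℝ} (hX : 64 ≤ X) : 8 * Real.sqrt X ≤ X := by
  have h1 : 8 ≤ Real.sqrt X := Real.le_sqrt_of_sq_le (by norm_num; exact hX)
  nlinarith [Real.mul_self_sqrt (by linarith : 0 ≤ X)]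

theorem TRb_supp {w : ℝ → ℂ} (h4 : ∀ x, x ∉ Set.Icc (1 : ℝ) 4 → w x = 0) {X N : ℝ} (hX : 64 ≤ X) (hN : X ≤ N)
    (hN2 : N ≤ 2 * X) (x : ℝ) (h : w ((N - x) / Real.sqrt X) ≠ 0) : X / 2 ≤ x ∧ x ≤ 2 * X ∧ x < N := by
  have h1 : (N - x) / Real.sqrt X ∈ Set.Icc (1 : ℝ) 4 := by
    by_contra h2
    exact h (h4 _ h2)
  have h2 : 0 < Real.sqrt X := Real.sqrt_pos.2 (by linarith)
  have h3 := TRb_sqrt hX
  obtain ⟨h5, h6⟩ := h1
  rw [le_div_iff₀ h2] at h5
  rw [div_le_iff₀ h2] at h6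
  refine ⟨by linarith, by linarith, by linarith⟩

theorem TRb_hatG_int {A B : ℝ} {w : ℝ → ℂ} (hB : 1 ≤ B) (hw : IsW 2 A B w) (h4 : ∀ x, x ∉ Set.Icc (1 : ℝ) 4 → w x = 0)
    {X N : ℝ} (hX : 64 ≤ X) (hN : X ≤ N) (hN2 : N ≤ 2 * X) : Integrable (hatG w X N) := by
  obtain ⟨C, hC, H⟩ := hatG_facts 2 (by norm_num)
  obtain ⟨h1, h2, h3⟩ := H A B w hB hw h4 X N hX hN hN2
  set M : ℝ := C * A * X ^ (-(1 / 2) : ℝ) with hM
  have hX0 : 0 < X := by linarith
  have hM0 : 0 ≤ M := (norm_nonneg _).trans (h2 0)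
  refine Integrable.mono' (integrable_inv_one_add_sq.const_mul (M + M * (X * B ^ 2))) h1.aestronglyMeasurable
    (Filter.Eventually.of_forall fun t => ?_)
  have h5 : 0 < 1 + t ^ 2 := by positivity
  rw [← div_eq_mul_inv, le_div_iff₀ h5]
  have h10 : 0 ≤ M * (X * B ^ 2) := by positivity
  by_cases ht : t = 0
  · rw [ht]
    have := h2 0
    linarith
  · have h6 := h3 t ht
    have h7 : (Real.sqrt X * B / |t|) ^ 2 = X * B ^ 2 / t ^ 2 := by
      rw [div_pow, mul_pow, Real.sq_sqrt hX0.le, sq_abs]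
    rw [h7] at h6
    have h8 : ‖hatG w X N t‖ * t ^ 2 ≤ M * (X * B ^ 2) := by
      have h9 : 0 < t ^ 2 := by positivity
      calc ‖hatG w X N t‖ * t ^ 2 ≤ M * (X * B ^ 2 / t ^ 2) * t ^ 2 := mul_le_mul_of_nonneg_right h6 h9.le
        _ = M * (X * B ^ 2) := by field_simp
    have h9 := h2 t
    linarith

theorem TRb_cpow {x : ℝ} (hx : 0 < x) (t : ℝ) : (x : ℂ) ^ (-(t * I)) = Complex.exp (((-(t * Real.log x) : ℝ) : ℂ) * I) := by
  rw [Complex.cpow_def_of_ne_zero (by exact_mod_cast hx.ne'), ← Complex.ofReal_log hx.le]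
  congr 1
  push_cast
  ring

theorem TRb_key {A B : ℝ} {w : ℝ → ℂ} (hB : 1 ≤ B) (hw : IsW 2 A B w) (h4 : ∀ x, x ∉ Set.Icc (1 : ℝ) 4 → w x = 0)
    {X N : ℝ} (hX : 64 ≤ X) (hN : X ≤ N) (hN2 : N ≤ 2 * X) (ρ : ℂ) :
    Integrable (fun t : ℝ => (X : ℂ) ^ (ρ - t * I) * mellin (fun x => (Wm x : ℂ)) (ρ - t * I) * hatG w X N t) ∧
    (1 / (2 * Real.pi) : ℂ) * ∫ t : ℝ, (X : ℂ) ^ (ρ - t * I) * mellin (fun x => (Wm x : ℂ)) (ρ - t * I) * hatG w X N t =
      ∫ v : ℝ, w (v / Real.sqrt X) * ((N - v : ℝ) : ℂ) ^ (ρ - 1) := by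
  have hX0 : 0 < X := by linarith
  have hXi : 0 < X⁻¹ := inv_pos.2 hX0
  obtain ⟨hW0, hW4, hW1, hWs⟩ := Wm_facts
  have hG := TRb_hatG_int hB hw h4 hX hN hN2
  let g : ℝ → ℂ := fun x => (x : ℂ) ^ (ρ - 1) * (Wm (X⁻¹ * x) : ℂ)
  have hg : IntegrableOn g (Set.Ioi 0) := by
    have h1 : MellinConvergent (fun x => (Wm x : ℂ)) ρ := by
      apply mel_conv
      · exact (Complex.continuous_ofReal.comp hWs.continuous)
      · intro x hx
        rw [hW4 x (fun h => hx ⟨h.1, h.2.trans (by norm_num)⟩)]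
        simp
    exact (MellinConvergent.comp_mul_left hXi).2 h1
  let F : ℝ → ℝ → ℂ := fun x t => g x * hatG w X N t * Complex.exp (((-(t * Real.log x) : ℝ) : ℂ) * I)
  have hF : Integrable (Function.uncurry F) ((volume.restrict (Set.Ioi 0)).prod volume) := by
    have h1 := Integrable.mul_prod hg hG
    refine Integrable.mul_bdd (c := 1) h1 ?_ ?_
    · apply Measurable.aestronglyMeasurable
      fun_prop
    · refine Filter.Eventually.of_forall fun z => ?_
      rw [Complex.norm_exp_ofReal_mul_I]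
  have ha : ∀ t : ℝ, ∫ x in Set.Ioi 0, F x t =
      (X : ℂ) ^ (ρ - t * I) * mellin (fun x => (Wm x : ℂ)) (ρ - t * I) * hatG w X N t := by
    intro t
    have h1 : (X : ℂ) ^ (ρ - t * I) * mellin (fun x => (Wm x : ℂ)) (ρ - t * I) =
        mellin (fun x => (Wm (X⁻¹ * x) : ℂ)) (ρ - t * I) := by
      rw [mellin_comp_mul_left (fun x => (Wm x : ℂ)) _ hXi, smul_eq_mul]
      congr 1
      rw [Complex.ofReal_inv, Complex.inv_cpow, Complex.cpow_neg, inv_inv]
      rw [Complex.arg_ofReal_of_nonneg hX0.le]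
      exact Real.pi_ne_zero.symm
    rw [h1, mellin, ← integral_mul_const]
    refine setIntegral_congr_fun measurableSet_Ioi fun x hx => ?_
    have hx0 : (0 : ℝ) < x := hx
    have h2 : (x : ℂ) ^ (ρ - t * I - 1) = (x : ℂ) ^ (ρ - 1) * Complex.exp (((-(t * Real.log x) : ℝ) : ℂ) * I) := by
      rw [← TRb_cpow hx0, ← Complex.cpow_add _ _ (by exact_mod_cast hx0.ne')]
      congr 1
      ring
    simp only [F, g, smul_eq_mul]
    rw [h2]
    ring
  have hb : ∀ x ∈ Set.Ioi (0 : ℝ), (1 / (2 * Real.pi) : ℂ) * ∫ t : ℝ, F x t = g x * w ((N - x) / Real.sqrt X) := by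
    intro x hx
    have h1 : ∀ t : ℝ, F x t = g x * ((x : ℂ) ^ (-(t * I)) * hatG w X N t) := by
      intro t
      rw [TRb_cpow hx]
      simp only [F]
      ring
    rw [integral_congr_ae (Filter.Eventually.of_forall h1), integral_const_mul,
      ← hatG_inv A B w hB hw h4 X N hX hN hN2 x hx]
    ring
  constructor
  · have h1 := hF.integral_prod_right
    refine h1.congr (Filter.Eventually.of_forall fun t => ?_)
    exact ha t
  · have h1 : ∫ t : ℝ, (X : ℂ) ^ (ρ - t * I) * mellin (fun x => (Wm x : ℂ)) (ρ - t * I) * hatG w X N t =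
        ∫ t : ℝ, ∫ x in Set.Ioi 0, F x t := integral_congr_ae (Filter.Eventually.of_forall fun t => (ha t).symm)
    rw [h1, ← integral_integral_swap hF, ← integral_const_mul, setIntegral_congr_fun measurableSet_Ioi hb]
    have h2 : ∫ x in Set.Ioi (0 : ℝ), g x * w ((N - x) / Real.sqrt X) =
        ∫ x in Set.Ioi (0 : ℝ), w ((N - x) / Real.sqrt X) * (x : ℂ) ^ (ρ - 1) := by
      refine setIntegral_congr_fun measurableSet_Ioi fun x _ => ?_
      simp only [g]
      by_cases h : w ((N - x) / Real.sqrt X) = 0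
      · rw [h]
        ring
      · obtain ⟨h5, h6, h7⟩ := TRb_supp h4 hX hN hN2 x h
        have h8 : Wm (X⁻¹ * x) = 1 := by
          rw [inv_mul_eq_div]
          apply hW1
          · rw [le_div_iff₀ hX0]
            linarith
          · rw [div_le_iff₀ hX0]
            linarith
        rw [h8, Complex.ofReal_one]
        ring
    rw [h2, setIntegral_eq_integral_of_forall_compl_eq_zero]
    · rw [← integral_sub_left_eq_self (fun x : ℝ => w ((N - x) / Real.sqrt X) * (x : ℂ) ^ (ρ - 1)) volume N]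
      refine integral_congr_ae (Filter.Eventually.of_forall fun v => ?_)
      simp only [sub_sub_cancel]
    · intro x hx
      have h : w ((N - x) / Real.sqrt X) = 0 := by
        by_contra h
        obtain ⟨h5, h6, h7⟩ := TRb_supp h4 hX hN hN2 x h
        apply hx
        rw [Set.mem_Ioi]
        linarith
      rw [h, zero_mul]

theorem TRb_JM_int {w : ℝ → ℂ} (hwc : Continuous w) (h4 : ∀ x, x ∉ Set.Icc (1 : ℝ) 4 → w x = 0)
    {X N : ℝ} (hX : 64 ≤ X) (hN : X ≤ N) (s : ℂ) :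
    Integrable (fun v : ℝ => w (v / Real.sqrt X) * ((N - v : ℝ) : ℂ) ^ s) := by
  have h2 : 0 < Real.sqrt X := Real.sqrt_pos.2 (by linarith)
  have h3 := TRb_sqrt hX
  have h1 : IntegrableOn (fun v : ℝ => w (v / Real.sqrt X) * ((N - v : ℝ) : ℂ) ^ s)
      (Set.Icc (Real.sqrt X) (4 * Real.sqrt X)) := by
    apply ContinuousOn.integrableOn_compact isCompact_Icc
    apply ContinuousOn.mul
    · exact (hwc.comp (continuous_id.div_const _)).continuousOn
    · apply ContinuousOn.cpow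
      · exact (Complex.continuous_ofReal.comp (continuous_const.sub continuous_id)).continuousOn
      · exact continuousOn_const
      · intro v hv
        rw [Complex.ofReal_mem_slitPlane]
        have := hv.2
        linarith
  refine h1.integrable_of_forall_notMem_eq_zero ?_
  intro v hv
  have h5 : w (v / Real.sqrt X) = 0 := by
    apply h4
    intro h
    apply hv
    obtain ⟨h6, h7⟩ := h
    rw [le_div_iff₀ h2] at h6
    rw [div_le_iff₀ h2] at h7
    exact ⟨by linarith, h7⟩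
  simp only [h5, zero_mul]

/-- The sum over primes and the main terms as integrals.

Proof. First: `hatG_inv` with `x = m` for every `1 ≤ m ≤ 16 X`; `w ((N - m) / √X) ≠ 0` needs `√X ≤ N - m ≤ 4 √X`, so `X / 2 ≤ m ≤ 2 X`, `m ≤ N`, and there `Wm (m / X) = 1`. (The integrals are absolutely convergent, `hatG_facts` with `J = 2`; finite sums.)
Second: `MM` is `∫_0^∞ Wm (x / X) x ^ (-i t) (dl - ∑ mz x ^ (ρ - 1)) dx` (definition of `mellin`, substitution), insert and exchange the integrals (Fubini: `Wm (x / X)` has compact support in `(0, ∞)`, `hatG` integrable), `hatG_inv` gives `∫ Wm (x / X) (dl - ∑ mz x ^ (ρ - 1)) w ((N - x) / √X) dx`, substitute `x = N - v`; `Wm (x / X) = 1` on the support.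
`Re ρ > 0` for `ρ ∈ ZR (EF χ) δ X`, `δ ≤ 1/16`. -/
theorem TR_ident (δ : ℝ) (hδ : 0 < δ) (hδ1 : δ ≤ 1 / 16) (A B : ℝ) (w : ℝ → ℂ) (hB : 1 ≤ B) (hw : IsW 2 A B w)
    (h4 : ∀ x, x ∉ Set.Icc (1 : ℝ) 4 → w x = 0) (X : ℝ) (hX : 64 ≤ X) (N : ℕ) (hN : X ≤ N) (hN2 : N ≤ 2 * X) {q : ℕ} [NeZero q] (χ : DirichletCharacter ℂ q) :
    (∑ m ∈ Icc 1 N, (ArithmeticFunction.vonMangoldt m : ℂ) * χ (m : ZMod q) * w ((N - m : ℝ) / Real.sqrt X) =
      (1 / (2 * Real.pi) : ℂ) * ∫ t : ℝ, DS χ (fun x => (Wm x : ℂ)) X t * hatG w X N t) ∧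
    JM δ X χ w N = (1 / (2 * Real.pi) : ℂ) * ∫ t : ℝ, MM δ X χ (fun x => (Wm x : ℂ)) X t * hatG w X N t := by
  have hX0 : 0 < X := by linarith
  have hG := TRb_hatG_int hB hw h4 hX hN hN2
  obtain ⟨hW0, hW4, hW1, hWs⟩ := Wm_facts
  constructor
  · have h1 : ∀ t : ℝ, DS χ (fun x => (Wm x : ℂ)) X t * hatG w X N t =
        ∑ n ∈ Icc 1 ⌊16 * X⌋₊, ((ArithmeticFunction.vonMangoldt n : ℂ) * χ (n : ZMod q) * (Wm (n / X) : ℂ)) *
          ((n : ℂ) ^ (-(t * I)) * hatG w X N t) := by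
      intro t
      rw [DS, Finset.sum_mul]
      refine Finset.sum_congr rfl fun n _ => ?_
      ring
    have h2 : ∀ n ∈ Icc 1 ⌊16 * X⌋₊, Integrable (fun t : ℝ => ((ArithmeticFunction.vonMangoldt n : ℂ) * χ (n : ZMod q) * (Wm (n / X) : ℂ)) *
          ((n : ℂ) ^ (-(t * I)) * hatG w X N t)) := by
      intro n hn
      have hn0 : (0 : ℝ) < n := by
        have := (Finset.mem_Icc.1 hn).1
        exact_mod_cast this
      apply Integrable.const_mul
      have h3 : ∀ t : ℝ, (n : ℂ) ^ (-(t * I)) = Complex.exp (((-(t * Real.log n) : ℝ) : ℂ) * I) := by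
        intro t
        have := TRb_cpow hn0 t
        rw [← this]
        simp
      simp only [h3]
      refine Integrable.bdd_mul (c := 1) hG ?_ ?_
      · apply Measurable.aestronglyMeasurable
        fun_prop
      · refine Filter.Eventually.of_forall fun z => ?_
        rw [Complex.norm_exp_ofReal_mul_I]
    rw [integral_congr_ae (Filter.Eventually.of_forall h1), integral_finsetSum _ h2, Finset.mul_sum]
    have h3 : ∀ n ∈ Icc 1 ⌊16 * X⌋₊, (1 / (2 * Real.pi) : ℂ) * ∫ t : ℝ, ((ArithmeticFunction.vonMangoldt n : ℂ) * χ (n : ZMod q) * (Wm (n / X) : ℂ)) *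
          ((n : ℂ) ^ (-(t * I)) * hatG w X N t) =
          (ArithmeticFunction.vonMangoldt n : ℂ) * χ (n : ZMod q) * w ((N - n : ℝ) / Real.sqrt X) := by
      intro n hn
      have hn0 : (0 : ℝ) < n := by
        have := (Finset.mem_Icc.1 hn).1
        exact_mod_cast this
      have h4' := hatG_inv A B w hB hw h4 X N hX hN hN2 n hn0
      rw [Complex.ofReal_natCast] at h4'
      rw [integral_const_mul]
      have h5 : (1 / (2 * Real.pi) : ℂ) * ((ArithmeticFunction.vonMangoldt n : ℂ) * χ (n : ZMod q) * (Wm (n / X) : ℂ) *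
          ∫ t : ℝ, (n : ℂ) ^ (-(t * I)) * hatG w X N t) =
          (ArithmeticFunction.vonMangoldt n : ℂ) * χ (n : ZMod q) * (Wm (n / X) : ℂ) * w ((N - n : ℝ) / Real.sqrt X) := by
        rw [← h4']
        ring
      rw [h5]
      by_cases h : w ((N - n : ℝ) / Real.sqrt X) = 0
      · rw [h]
        ring
      · obtain ⟨h5, h6, h7⟩ := TRb_supp h4 hX hN hN2 n h
        have h8 : Wm (n / X) = 1 := by
          apply hW1
          · rw [le_div_iff₀ hX0]
            linarith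
          · rw [div_le_iff₀ hX0]
            linarith
        rw [h8, Complex.ofReal_one]
        ring
    rw [Finset.sum_congr rfl h3]
    refine Finset.sum_subset ?_ ?_
    · apply Finset.Icc_subset_Icc_right
      apply Nat.le_floor
      linarith
    · intro n hn hn2
      have h5 : w ((N - n : ℝ) / Real.sqrt X) = 0 := by
        by_contra h
        obtain ⟨h5, h6, h7⟩ := TRb_supp h4 hX hN hN2 n h
        apply hn2
        rw [Finset.mem_Icc]
        refine ⟨(Finset.mem_Icc.1 hn).1, ?_⟩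
        have : n < N := by exact_mod_cast h7
        exact this.le
      rw [h5, mul_zero]
  · have hcont := hw.1.continuous
    have h1 : ∀ v : ℝ, w (v / Real.sqrt X) * ((dl χ : ℂ) - ∑ ρ ∈ ZR (EF χ) δ X, (mz (EF χ) ρ : ℂ) * ((N - v : ℝ) : ℂ) ^ (ρ - 1)) =
        (dl χ : ℂ) * (w (v / Real.sqrt X) * ((N - v : ℝ) : ℂ) ^ ((1 : ℂ) - 1)) -
        ∑ ρ ∈ ZR (EF χ) δ X, (mz (EF χ) ρ : ℂ) * (w (v / Real.sqrt X) * ((N - v : ℝ) : ℂ) ^ (ρ - 1)) := by
      intro v
      rw [sub_self, Complex.cpow_zero, mul_sub, Finset.mul_sum]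
      congr 1
      · ring
      · refine Finset.sum_congr rfl fun ρ _ => ?_
        ring
    have h2 : ∀ ρ : ℂ, Integrable (fun v : ℝ => w (v / Real.sqrt X) * ((N - v : ℝ) : ℂ) ^ (ρ - 1)) :=
      fun ρ => TRb_JM_int hcont h4 hX hN (ρ - 1)
    have h3 : JM δ X χ w N = (dl χ : ℂ) * (∫ v : ℝ, w (v / Real.sqrt X) * ((N - v : ℝ) : ℂ) ^ ((1 : ℂ) - 1)) -
        ∑ ρ ∈ ZR (EF χ) δ X, (mz (EF χ) ρ : ℂ) * ∫ v : ℝ, w (v / Real.sqrt X) * ((N - v : ℝ) : ℂ) ^ (ρ - 1) := by
      rw [JM, integral_congr_ae (Filter.Eventually.of_forall h1), integral_sub, integral_const_mul, integral_finsetSum]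
      · simp only [integral_const_mul]
      · intro ρ _
        exact (h2 ρ).const_mul _
      · exact (h2 1).const_mul _
      · apply integrable_finsetSum
        intro ρ _
        exact (h2 ρ).const_mul _
    have h5 : ∀ t : ℝ, MM δ X χ (fun x => (Wm x : ℂ)) X t * hatG w X N t =
        (dl χ : ℂ) * ((X : ℂ) ^ (1 - t * I) * mellin (fun x => (Wm x : ℂ)) (1 - t * I) * hatG w X N t) -
        ∑ ρ ∈ ZR (EF χ) δ X, (mz (EF χ) ρ : ℂ) * ((X : ℂ) ^ (ρ - t * I) * mellin (fun x => (Wm x : ℂ)) (ρ - t * I) * hatG w X N t) := by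
      intro t
      rw [MM, sub_mul, Finset.sum_mul]
      congr 1
      · ring
      · refine Finset.sum_congr rfl fun ρ _ => ?_
        ring
    have h6 := fun ρ : ℂ => TRb_key hB hw h4 hX hN hN2 ρ
    rw [h3, integral_congr_ae (Filter.Eventually.of_forall h5), integral_sub, integral_const_mul, integral_finsetSum,
      ← (h6 1).2]
    · simp only [integral_const_mul]
      rw [mul_sub, Finset.mul_sum]
      congr 1
      · ring
      · refine Finset.sum_congr rfl fun ρ _ => ?_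
        rw [← (h6 ρ).2]
        ring
    · intro ρ _
      exact (h6 ρ).1.const_mul _
    · exact (h6 1).1.const_mul _
    · apply integrable_finsetSum
      intro ρ _
      exact (h6 ρ).1.const_mul _

end Pool.Agent.PSG
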