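import Pool.Agent.W_b58c63_h44.KL

/-!
# The second difference test
-/

set_option autoImplicit false

noncomputable section

open Finset

namespace Pool.Agent.PSG

open Pool.Agent.Wb58c63 (ee)

/-- Linear bounds for a sequence with bounded steps. -/
theorem V2_lin (δ : ℕ → ℝ) (N : ℕ) (l u : ℝ) (h : ∀ n < N, l ≤ δ (n + 1) - δ n ∧ δ (n + 1) - δ n ≤ u)
    (i k : ℕ) (hk : i + k ≤ N) : l * k ≤ δ (i + k) - δ i ∧ δ (i + k) - δ i ≤ u * k := by
  induction k with
  | zero => simp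
  | succ k ih =>
    have h1 := ih (by omega)
    have h2 := h (i + k) (by omega)
    rw [show i + (k + 1) = i + k + 1 by ring]
    push_cast
    constructor
    · linarith [h1.1, h2.1]
    · linarith [h1.2, h2.2]

/-- Thresholds of a monotone sequence. -/
theorem V2_thr (δ : ℕ → ℝ) (N : ℕ) (hm : ∀ i j, i ≤ j → j ≤ N → δ i ≤ δ j) (c : ℝ) :
    ∃ a : ℕ, a ≤ N ∧ (∀ n < a, δ n < c) ∧ ∀ n < N, a ≤ n → c ≤ δ n := by
  classical
  have hex : ∃ n, N ≤ n ∨ c ≤ δ n := ⟨N, Or.inl le_rfl⟩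
  refine ⟨Nat.find hex, Nat.find_le (Or.inl le_rfl), ?_, ?_⟩
  · intro n hn
    have h1 := Nat.find_min hex hn
    push Not at h1
    exact h1.2
  · intro n hn han
    rcases Nat.find_spec hex with h1 | h1
    · omega
    · exact h1.trans (hm _ _ han hn.le)

theorem V2_kus (f : ℕ → ℝ) (a b : ℕ) (D : ℝ) (hD : 0 < D) (hD2 : D ≤ 1 / 2) (m : ℤ) (hab : a ≤ b)
    (hmono : ∀ n, a ≤ n → n < b → f (n + 1) - f n ≤ f (n + 2) - f (n + 1))
    (hb : ∀ n, a ≤ n → n < b → (m : ℝ) + D ≤ f (n + 1) - f n ∧ f (n + 1) - f n ≤ m + 1 - D) :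
    ‖∑ n ∈ range b, ee (f n) - ∑ n ∈ range a, ee (f n)‖ ≤ 2 / D := by
  obtain ⟨k, rfl⟩ := Nat.exists_eq_add_of_le hab
  rw [Finset.sum_range_add, add_sub_cancel_left]
  refine kusmin (fun n => f (a + n)) k D hD hD2 m ?_ ?_
  · intro n hn
    exact hmono (a + n) (by omega) (by omega)
  · intro n hn
    exact hb (a + n) (by omega) (by omega)

theorem V2_triv (f : ℕ → ℝ) (a b : ℕ) (hab : a ≤ b) :
    ‖∑ n ∈ range b, ee (f n) - ∑ n ∈ range a, ee (f n)‖ ≤ (b : ℝ) - a := by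
  obtain ⟨k, rfl⟩ := Nat.exists_eq_add_of_le hab
  rw [Finset.sum_range_add, add_sub_cancel_left]
  refine (norm_sum_le _ _).trans ?_
  simp only [Pool.Agent.Wb58c63.norm_ee, Finset.sum_const, Finset.card_range, nsmul_eq_mul, mul_one]
  push_cast
  linarith

/-- **The second difference test** (van der Corput).

Proof. `(fwdDiff 1)^[2] f n = f (n + 2) - 2 f (n + 1) + f n = δ (n + 1) - δ n` with `δ n = f (n + 1) - f n`. So `δ` is
strictly increasing on `[0, N]`, with steps in `[l, A l]`; the total increase is at most `A N l`. Let `D = √l / 2 ≤ 1 / 2`. For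
every integer `m` with `δ 0 - 1 ≤ m ≤ δ (N) + 1` (at most `A N l + 3` integers) the set of `n < N` with `|δ n - m| < D` is an
interval with at most `2 D / l + 1` elements (the steps are at least `l`), and the set of `n < N` with
`m + D ≤ δ n ≤ m + 1 - D` is an interval on which `kusmin` (for the shifted sequence, with one more end point,
which costs at most `1`) gives at most `2 / D + 1`. These intervals cover `[0, N)`. So the sum is at most
`(A N l + 3) (2 D / l + 1 + 2 / D + 1) ≤ (A N l + 3) (1 / √l + 4 / √l + 2) ≤ 7 (A N l + 3) / √l ≤ 21 A (N √l + 1 / √l)`.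
The covering can be done by induction on the number of integers `m`, or by writing
`range N` as the disjoint union over `m` of the sets `{n < N | ⌊δ n + 1/2⌋ = m}`, each of which is an interval
(`δ` is monotone) which splits in three intervals: `δ n < m - D`, `|δ n - m| ≤ D`, `δ n > m + D`. -/
theorem vdc2 (A : ℝ) (hA : 1 ≤ A) : ∃ C : ℝ, 0 < C ∧ ∀ (f : ℕ → ℝ) (N : ℕ) (l : ℝ), 0 < l → l ≤ 1 →
    (∀ n < N, l ≤ (fwdDiff (1 : ℕ))^[2] f n ∧ (fwdDiff (1 : ℕ))^[2] f n ≤ A * l) →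
    ‖∑ n ∈ range N, ee (f n)‖ ≤ C * (N * Real.sqrt l + 1 / Real.sqrt l) := by
  refine ⟨18 * A, by linarith, fun f N l hl hl1 h => ?_⟩
  obtain ⟨δ, hδ⟩ : ∃ δ : ℕ → ℝ, ∀ n, δ n = f (n + 1) - f n := ⟨_, fun _ => rfl⟩
  have hstep : ∀ n < N, l ≤ δ (n + 1) - δ n ∧ δ (n + 1) - δ n ≤ A * l := by
    intro n hn
    have h1 := h n hn
    have e : (fwdDiff (1 : ℕ))^[2] f n = δ (n + 1) - δ n := by
      simp only [Function.iterate_succ, Function.iterate_zero, Function.comp_apply, id_eq, fwdDiff,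
        hδ]
    rwa [e] at h1
  have hlin := V2_lin δ N l (A * l) hstep
  have hm : ∀ i j, i ≤ j → j ≤ N → δ i ≤ δ j := by
    intro i j hij hj
    obtain ⟨k, rfl⟩ := Nat.exists_eq_add_of_le hij
    have h1 := (hlin i k hj).1
    have h2 : 0 ≤ l * k := by positivity
    linarith
  set s := Real.sqrt l with hs
  have hs0 : 0 < s := Real.sqrt_pos.2 hl
  have hss : s * s = l := Real.mul_self_sqrt hl.le
  have hs1 : s ≤ 1 := by
    rw [hs]
    exact Real.sqrt_le_one.2 hl1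
  obtain ⟨D, hD⟩ : ∃ D : ℝ, D = s / 2 := ⟨_, rfl⟩
  have hD0 : 0 < D := by rw [hD]; positivity
  have hD2 : D ≤ 1 / 2 := by rw [hD]; linarith
  choose a haN ha1 ha2 using V2_thr δ N hm
  have hamono : ∀ c d : ℝ, c ≤ d → a c ≤ a d := by
    intro c d hcd
    by_contra hlt
    push Not at hlt
    have h1 := ha1 c (a d) hlt
    have h2 := ha2 d (a d) (lt_of_lt_of_le hlt (haN c)) le_rfl
    linarith
  set S : ℕ → ℂ := fun b => ∑ n ∈ range b, ee (f n) with hS
  have hB : ∀ m : ℤ, ‖S (a ((m : ℝ) + 1 - D)) - S (a ((m : ℝ) - D))‖ ≤ 6 / s := by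
    intro m
    have h1 : ‖S (a ((m : ℝ) + 1 - D)) - S (a ((m : ℝ) + D))‖ ≤ 2 / D := by
      refine V2_kus f _ _ D hD0 hD2 m (hamono _ _ (by linarith)) ?_ ?_
      · intro n _ hn
        have h3 := hstep n (lt_of_lt_of_le hn (haN _))
        rw [hδ, hδ] at h3
        have e : n + 1 + 1 = n + 2 := rfl
        rw [e] at h3
        linarith [h3.1]
      · intro n hn1 hn2
        have h3 := ha1 _ n hn2
        have h4 := ha2 _ n (lt_of_lt_of_le hn2 (haN _)) hn1
        rw [hδ] at h3 h4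
        exact ⟨h4, h3.le⟩
    have h2 : ‖S (a ((m : ℝ) + D)) - S (a ((m : ℝ) - D))‖ ≤ 2 * D / l + 1 := by
      refine (V2_triv f _ _ (hamono _ _ (by linarith))).trans ?_
      rcases Nat.lt_or_ge (a ((m : ℝ) - D)) (a ((m : ℝ) + D)) with hlt | hge
      · obtain ⟨k, hk⟩ : ∃ k, a ((m : ℝ) + D) = a ((m : ℝ) - D) + k + 1 :=
          ⟨a ((m : ℝ) + D) - a ((m : ℝ) - D) - 1, by omega⟩
        have h3 := ha1 ((m : ℝ) + D) (a ((m : ℝ) - D) + k) (by omega)
        have h4 := ha2 ((m : ℝ) - D) (a ((m : ℝ) - D)) (lt_of_lt_of_le hlt (haN _)) le_rfl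
        have h5 := (hlin (a ((m : ℝ) - D)) k (by have := haN ((m : ℝ) + D); omega)).1
        have h6 : (k : ℝ) ≤ 2 * D / l := by
          rw [le_div_iff₀ hl]
          linarith
        rw [hk]
        push_cast
        linarith
      · have h3 : (a ((m : ℝ) + D) : ℝ) ≤ a ((m : ℝ) - D) := by exact_mod_cast hge
        have h4 : 0 ≤ 2 * D / l := by positivity
        linarith
    have h3 := norm_add_le (S (a ((m : ℝ) + 1 - D)) - S (a ((m : ℝ) + D)))
      (S (a ((m : ℝ) + D)) - S (a ((m : ℝ) - D)))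
    rw [sub_add_sub_cancel] at h3
    have e1 : 2 / D = 4 / s := by
      rw [hD]
      field_simp
      norm_num
    have e2 : 2 * D / l = 1 / s := by
      rw [hD, ← hss]
      field_simp
    have e3 : (1 : ℝ) ≤ 1 / s := by
      rw [le_div_iff₀ hs0]
      linarith
    have e4 : 6 / s = 4 / s + 1 / s + 1 / s := by ring
    linarith
  obtain ⟨m0, hm0⟩ : ∃ m0 : ℤ, m0 = ⌊δ 0⌋ := ⟨_, rfl⟩
  obtain ⟨K, hK⟩ : ∃ K : ℕ, K = ⌈A * l * N⌉₊ + 2 := ⟨_, rfl⟩
  have hind : ∀ k : ℕ, ‖S (a (((m0 + k : ℤ) : ℝ) - D)) - S (a ((m0 : ℝ) - D))‖ ≤ k * (6 / s) := by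
    intro k
    induction k with
    | zero => simp
    | succ k ih =>
      have h1 := hB (m0 + k)
      have h2 := norm_add_le (S (a (((m0 + k : ℤ) : ℝ) + 1 - D)) - S (a (((m0 + k : ℤ) : ℝ) - D)))
        (S (a (((m0 + k : ℤ) : ℝ) - D)) - S (a ((m0 : ℝ) - D)))
      rw [sub_add_sub_cancel] at h2
      have e : ((m0 + (k + 1 : ℕ) : ℤ) : ℝ) - D = ((m0 + k : ℤ) : ℝ) + 1 - D := by
        push_cast
        ring
      rw [e]
      push_cast at *
      linarith
  have h0 : a ((m0 : ℝ) - D) = 0 := by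
    by_contra hne
    have h1 := ha1 ((m0 : ℝ) - D) 0 (Nat.pos_of_ne_zero hne)
    have h2 : (m0 : ℝ) ≤ δ 0 := by
      rw [hm0]
      exact Int.floor_le _
    linarith
  have hKN : a (((m0 + K : ℤ) : ℝ) - D) = N := by
    by_contra hne
    have hlt : a (((m0 + K : ℤ) : ℝ) - D) < N := lt_of_le_of_ne (haN _) hne
    have h1 := ha2 _ _ hlt le_rfl
    have h2 := (hlin 0 (a (((m0 + K : ℤ) : ℝ) - D)) (by omega)).2
    rw [zero_add] at h2
    have h3 : δ 0 < m0 + 1 := by
      rw [hm0]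
      exact Int.lt_floor_add_one _
    have h4 : A * l * (a (((m0 + K : ℤ) : ℝ) - D) : ℝ) ≤ A * l * N := by
      have : (a (((m0 + K : ℤ) : ℝ) - D) : ℝ) ≤ N := by exact_mod_cast hlt.le
      have hAl : 0 ≤ A * l := by positivity
      exact mul_le_mul_of_nonneg_left this hAl
    have h5 : A * l * N ≤ (⌈A * l * N⌉₊ : ℝ) := Nat.le_ceil _
    have h6 : (K : ℝ) = (⌈A * l * N⌉₊ : ℝ) + 2 := by
      rw [hK]
      push_cast
      ring
    have h7 : (((m0 + K : ℤ) : ℝ)) = m0 + K := by push_cast; ring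
    rw [h7] at h1 h2 h4
    linarith
  have hfin := hind K
  rw [h0, hKN] at hfin
  have hS0 : S 0 = 0 := by
    rw [hS]
    simp
  rw [hS0, sub_zero] at hfin
  refine hfin.trans ?_
  have hAlN : 0 ≤ A * l * N := by positivity
  have h5 : (⌈A * l * N⌉₊ : ℝ) < A * l * N + 1 := Nat.ceil_lt_add_one hAlN
  have h6 : (K : ℝ) ≤ A * l * N + 3 := by
    rw [hK]
    push_cast
    linarith
  have h7 : (0 : ℝ) ≤ 6 / s := by positivity
  refine (mul_le_mul_of_nonneg_right h6 h7).trans ?_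
  have e : (A * l * N + 3) * (6 / s) = 6 * A * (N * s) + 18 * (1 / s) := by
    rw [← hss]
    field_simp
    ring
  rw [e]
  have h8 : 0 ≤ A * (N * s) := by positivity
  have h9 : 0 ≤ 1 / s := by positivity
  nlinarith

end Pool.Agent.PSG
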