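import Pool.Agent.W_b58c63_h68.Vau
import Pool.Agent.W_b58c63_h68.LSa
import Pool.Agent.W_b58c63_h68.ArA

/-!
# The bound of Vinogradov: sums of type I and type II
-/

set_option autoImplicit false

noncomputable section

open Finset Complex ArithmeticFunction

namespace Pool.Agent.PSG

open Pool.Agent.Wb58c63 (ee dn vc vb)

theorem VNa_dn_nonneg (x : ℝ) : 0 ≤ dn x := abs_nonneg _

/-- Any integer is at least as far as the nearest one. -/
theorem VNa_dn_le (x : ℝ) (m : ℤ) : dn x ≤ |x - m| := by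
  unfold dn
  exact round_le x m

theorem VNa_dn_neg (x : ℝ) : dn (-x) = dn x := by
  have h : ∀ y : ℝ, dn (-y) ≤ dn y := by
    intro y
    have h1 := VNa_dn_le (-y) (-(round y))
    have h2 : -y - ((-(round y) : ℤ) : ℝ) = -(y - round y) := by
      push_cast
      ring
    rw [h2, abs_neg] at h1
    exact h1
  refine le_antisymm (h x) ?_
  have := h (-x)
  rwa [neg_neg] at this

/-- A number between two consecutive integers. -/
theorem VNa_dn_ge (x : ℝ) (m : ℤ) (u v : ℝ) (h1 : (m : ℝ) + u ≤ x) (h2 : x ≤ m + 1 - v) :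
    min u v ≤ dn x := by
  unfold dn
  rcases le_or_gt (round x) m with h | h
  · have h3 : ((round x : ℤ) : ℝ) ≤ m := by exact_mod_cast h
    refine (min_le_left _ _).trans ?_
    refine le_trans ?_ (le_abs_self _)
    linarith
  · have h3 : ((m : ℝ)) + 1 ≤ ((round x : ℤ) : ℝ) := by exact_mod_cast h
    refine (min_le_right _ _).trans ?_
    rw [abs_sub_comm]
    refine le_trans ?_ (le_abs_self _)
    linarith

/-- The truncated reciprocal distance. -/
def VNa_mh (H x : ℝ) : ℝ := if dn x = 0 then H else min H (1 / dn x)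

theorem VNa_mh_nonneg (H x : ℝ) (hH : 0 ≤ H) : 0 ≤ VNa_mh H x := by
  unfold VNa_mh
  split_ifs with h
  · exact hH
  · exact le_min hH (by have := VNa_dn_nonneg x; positivity)

theorem VNa_mh_le (H x : ℝ) : VNa_mh H x ≤ H := by
  unfold VNa_mh
  split_ifs with h
  · exact le_refl _
  · exact min_le_left _ _

theorem VNa_mh_le_div (H x d : ℝ) (hd : 0 < d) (h : d ≤ dn x) : VNa_mh H x ≤ 1 / d := by
  unfold VNa_mh
  have h0 : 0 < dn x := lt_of_lt_of_le hd h
  rw [if_neg h0.ne']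
  refine (min_le_right _ _).trans ?_
  exact one_div_le_one_div_of_le hd h

theorem VNa_mh_mono (H H' x : ℝ) (h : H ≤ H') : VNa_mh H x ≤ VNa_mh H' x := by
  unfold VNa_mh
  split_ifs with h1
  · exact h
  · exact min_le_min_right _ h

theorem VNa_mh_neg (H x : ℝ) : VNa_mh H (-x) = VNa_mh H x := by
  unfold VNa_mh
  rw [VNa_dn_neg]

theorem VNa_geom (K L : ℕ) (α : ℝ) (H : ℝ) (hH : ((L : ℝ) - K) ≤ H) (hH0 : 0 ≤ H) :
    ‖∑ n ∈ Ioc K L, ee (n * α)‖ ≤ VNa_mh H α := by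
  rcases le_or_gt L K with h | h
  · rw [Finset.Ioc_eq_empty (by omega), Finset.sum_empty, norm_zero]
    exact VNa_mh_nonneg H α hH0
  · have h1 : ∑ n ∈ Ioc K L, ee (n * α) = ee ((K + 1 : ℕ) * α) * ∑ j ∈ range (L - K), ee (j * α) := by
      have h2 : Ioc K L = Ico (K + 1) (L + 1) := by
        ext n
        simp only [Finset.mem_Ioc, Finset.mem_Ico]
        omega
      rw [h2, Finset.sum_Ico_eq_sum_range, Finset.mul_sum]
      have h3 : L + 1 - (K + 1) = L - K := by omega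
      rw [h3]
      refine Finset.sum_congr rfl fun j _ => ?_
      rw [← Pool.Agent.Wb58c63.ee_add]
      congr 1
      push_cast
      ring
    rw [h1, norm_mul, Pool.Agent.Wb58c63.norm_ee, one_mul]
    have h4 := Pool.Agent.Wb58c63.LSa_norm_sum (L - K) α
    have h5 : ((L - K : ℕ) : ℝ) ≤ H := by
      rw [Nat.cast_sub h.le]
      exact hH
    unfold VNa_mh
    split_ifs with h6
    · exact h4.trans h5
    · refine le_min (h4.trans h5) ?_
      have hd : 0 < dn α := lt_of_le_of_ne (VNa_dn_nonneg _) (Ne.symm h6)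
      have h7 := congrArg norm (Pool.Agent.Wb58c63.LSa_geom (L - K) α)
      rw [norm_mul] at h7
      have h8 : ‖ee ((L - K : ℕ) * α) - 1‖ ≤ 2 := by
        refine (norm_sub_le _ _).trans ?_
        rw [Pool.Agent.Wb58c63.norm_ee, norm_one]
        norm_num
      have h9 := Pool.Agent.Wb58c63.LSa_ee_sub α
      rw [le_div_iff₀ hd]
      have := mul_le_mul_of_nonneg_left h9 (norm_nonneg (∑ j ∈ range (L - K), ee (j * α)))
      nlinarith [mul_nonneg (norm_nonneg (∑ j ∈ range (L - K), ee (j * α))) hd.le]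

/-- Geometric sums over an interval.

Proof. At most `H` trivially, and at most `2 / |ee α - 1| ≤ 1 / (2 dn α)` (`LSa_geom`, `LSa_ee_sub`). -/
theorem geom_le (K L : ℕ) (α : ℝ) (H : ℝ) (hH : ((L : ℝ) - K) ≤ H) (hH0 : 0 ≤ H) :
    ‖∑ n ∈ Ioc K L, ee (n * α)‖ ≤ min H (1 / dn α) ∨ dn α = 0 ∧ ‖∑ n ∈ Ioc K L, ee (n * α)‖ ≤ H := by
  have h := VNa_geom K L α H hH hH0
  unfold VNa_mh at h
  split_ifs at h with h1
  · right
    exact ⟨h1, h⟩
  · left
    exact h

theorem VNa_harm (n : ℕ) (q : ℕ) (hn : n ≤ q) : ∑ s ∈ range n, (1 : ℝ) / (s + 1) ≤ 1 + Real.log q := by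
  have h := Pool.Agent.Wb58c63.ArA_harm q
  refine le_trans ?_ h
  have h1 : ∑ e ∈ Icc 1 q, (1 : ℝ) / e = ∑ s ∈ range q, (1 : ℝ) / (s + 1) := by
    have h2 : Icc 1 q = Ico 1 (q + 1) := by
      ext n
      simp only [Finset.mem_Icc, Finset.mem_Ico]
      omega
    rw [h2, Finset.sum_Ico_eq_sum_range]
    refine Finset.sum_congr (by simp) fun s _ => ?_
    push_cast
    ring
  rw [h1]
  refine Finset.sum_le_sum_of_subset_of_nonneg ?_ (fun _ _ _ => by positivity)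
  exact Finset.range_subset_range.2 hn

theorem VNa_inj (q : ℕ) (a b : ℤ) (hq : 1 ≤ q) (hg : Int.gcd a q = 1) :
    Set.InjOn (fun j : ℕ => ((b + j * a) % q).toNat) (range q : Finset ℕ) := by
  intro i hi j hj hij
  have hi' : i < q := by simpa using hi
  have hj' : j < q := by simpa using hj
  have hq0 : (0 : ℤ) < q := by exact_mod_cast hq
  have h1 : (b + i * a) % q = (b + j * a) % q := by
    have e1 := Int.emod_nonneg (b + i * a) hq0.ne'
    have e2 := Int.emod_nonneg (b + j * a) hq0.ne'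
    have h2 : (((b + i * a) % q).toNat : ℤ) = (((b + j * a) % q).toNat : ℤ) := by exact_mod_cast hij
    rwa [Int.toNat_of_nonneg e1, Int.toNat_of_nonneg e2] at h2
  have h3 : (q : ℤ) ∣ (i - j) * a := by
    have h4 := (Int.emod_emod_of_dvd (b + i * a) (dvd_refl (q : ℤ)))
    have h5 : (q : ℤ) ∣ (b + i * a) - (b + j * a) := Int.ModEq.dvd (h1.symm)
    have h6 : (b + i * a) - (b + j * a) = ((i : ℤ) - j) * a := by ring
    rwa [h6] at h5
  have h7 : IsCoprime (q : ℤ) a := by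
    rw [Int.isCoprime_iff_gcd_eq_one, Int.gcd_comm]
    exact hg
  have h8 : (q : ℤ) ∣ (i : ℤ) - j := h7.dvd_of_dvd_mul_right h3
  obtain ⟨k, hk⟩ := h8
  have h9 : k = 0 := by
    by_contra hk0
    rcases lt_or_gt_of_ne hk0 with h | h
    · have : (q : ℤ) * k ≤ -q := by nlinarith
      omega
    · have : (q : ℤ) * k ≥ q := by nlinarith
      omega
  rw [h9, mul_zero] at hk
  omega

theorem VNa_sum_inj (q : ℕ) (a b : ℤ) (hq : 1 ≤ q) (hg : Int.gcd a q = 1) (s : Finset ℕ) (hs : s ⊆ range q)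
    (F : ℕ → ℝ) (hF : ∀ r, 0 ≤ F r) :
    ∑ j ∈ s, F (((b + j * a) % q).toNat) ≤ ∑ r ∈ range q, F r := by
  have hq0 : (0 : ℤ) < q := by exact_mod_cast hq
  rw [← Finset.sum_image (s := s) (g := fun j : ℕ => ((b + j * a) % q).toNat) (f := F)]
  · refine Finset.sum_le_sum_of_subset_of_nonneg ?_ (fun r _ _ => hF r)
    intro r hr
    rw [Finset.mem_image] at hr
    obtain ⟨j, _, rfl⟩ := hr
    rw [Finset.mem_range]
    have e1 := Int.emod_nonneg (b + j * a) hq0.ne'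
    have e2 := Int.emod_lt_of_pos (b + j * a) hq0
    omega
  · intro i hi j hj hij
    exact VNa_inj q a b hq hg (hs hi) (hs hj) hij

theorem VNa_harm2 (q : ℕ) (c : ℝ) (hc : 0 ≤ c) :
    ∑ r ∈ range q, (if 2 ≤ r then c / ((r : ℝ) - 1) else 0) ≤ c * (1 + Real.log q) := by
  have hnn : ∀ r : ℕ, 0 ≤ (if 2 ≤ r then c / ((r : ℝ) - 1) else 0) := by
    intro r
    split_ifs with h
    · have : (2 : ℝ) ≤ r := by exact_mod_cast h
      have : (0 : ℝ) ≤ r - 1 := by linarith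
      positivity
    · exact le_refl _
  calc ∑ r ∈ range q, (if 2 ≤ r then c / ((r : ℝ) - 1) else 0)
      ≤ ∑ r ∈ range (q + 2), (if 2 ≤ r then c / ((r : ℝ) - 1) else 0) :=
        Finset.sum_le_sum_of_subset_of_nonneg (Finset.range_subset_range.2 (by omega)) (fun r _ _ => hnn r)
    _ = c * ∑ r ∈ range q, (1 : ℝ) / (r + 1) := by
        rw [Finset.sum_range_succ', Finset.sum_range_succ', Finset.mul_sum]
        rw [if_neg (by norm_num), if_neg (by norm_num), add_zero, add_zero]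
        refine Finset.sum_congr rfl fun r _ => ?_
        rw [if_pos (by omega)]
        push_cast
        rw [mul_one_div]
        congr 1
        ring
    _ ≤ c * (1 + Real.log q) := mul_le_mul_of_nonneg_left (VNa_harm q q le_rfl) hc

theorem VNa_harm1 (q : ℕ) (c : ℝ) (hc : 0 ≤ c) :
    ∑ r ∈ range q, (if 1 ≤ r then c / (r : ℝ) else 0) ≤ c * (1 + Real.log q) := by
  have hnn : ∀ r : ℕ, 0 ≤ (if 1 ≤ r then c / (r : ℝ) else 0) := by
    intro r
    split_ifs with h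
    · positivity
    · exact le_refl _
  calc ∑ r ∈ range q, (if 1 ≤ r then c / (r : ℝ) else 0)
      ≤ ∑ r ∈ range (q + 1), (if 1 ≤ r then c / (r : ℝ) else 0) :=
        Finset.sum_le_sum_of_subset_of_nonneg (Finset.range_subset_range.2 (by omega)) (fun r _ _ => hnn r)
    _ = c * ∑ r ∈ range q, (1 : ℝ) / (r + 1) := by
        rw [Finset.sum_range_succ', Finset.mul_sum]
        rw [if_neg (by norm_num), add_zero]
        refine Finset.sum_congr rfl fun r _ => ?_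
        rw [if_pos (by omega)]
        push_cast
        rw [mul_one_div]
    _ ≤ c * (1 + Real.log q) := mul_le_mul_of_nonneg_left (VNa_harm q q le_rfl) hc

theorem VNa_card4 (q : ℕ) (H : ℝ) (hH : 0 ≤ H) :
    ∑ r ∈ range q, (if r ≤ 1 ∨ q ≤ r + 2 then H else 0) ≤ 4 * H := by
  rw [← Finset.sum_filter, Finset.sum_const, nsmul_eq_mul]
  refine mul_le_mul_of_nonneg_right ?_ hH
  have h1 : (range q).filter (fun r => r ≤ 1 ∨ q ≤ r + 2) ⊆ ({0, 1, q - 1, q - 2} : Finset ℕ) := by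
    intro r hr
    rw [Finset.mem_filter, Finset.mem_range] at hr
    simp only [Finset.mem_insert, Finset.mem_singleton]
    omega
  have h2 := (Finset.card_le_card h1).trans Finset.card_le_four
  exact_mod_cast h2

/-- The common computation: position of `x` in terms of the residue. -/
theorem VNa_pos (q : ℕ) (hq : 1 ≤ q) (x : ℝ) (n : ℤ) (u v : ℝ) (h1 : (n : ℝ) - u ≤ q * x) (h2 : q * x ≤ n + v) :
    min ((((n % q).toNat : ℝ) - u) / q) ((q - ((n % q).toNat : ℝ) - v) / q) ≤ dn x := by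
  have hq0 : (0 : ℤ) < q := by exact_mod_cast hq
  have hq1 : (0 : ℝ) < q := by exact_mod_cast hq
  have e1 := Int.emod_nonneg n hq0.ne'
  have e2 := Int.emod_add_mul_ediv n q
  have e3 : (((n % q).toNat : ℝ)) + q * ((n / q : ℤ) : ℝ) = n := by
    have h3 : (((n % q).toNat : ℤ)) = n % q := Int.toNat_of_nonneg e1
    have h4 : (((n % q).toNat : ℤ)) + q * (n / q) = n := by rw [h3]; exact e2
    exact_mod_cast h4
  refine VNa_dn_ge x (n / q) _ _ ?_ ?_
  · have h5 : ((n / q : ℤ) : ℝ) + (((n % q).toNat : ℝ) - u) / q = (n - u) / q := by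
      rw [← e3]
      field_simp
      ring
    rw [h5, div_le_iff₀ hq1]
    linarith
  · have h5 : ((n / q : ℤ) : ℝ) + 1 - (q - ((n % q).toNat : ℝ) - v) / q = (n + v) / q := by
      rw [← e3]
      field_simp
      ring
    rw [h5, le_div_iff₀ hq1]
    linarith

theorem VNa_block (q : ℕ) (a : ℤ) (α : ℝ) (hq : 1 ≤ q) (hg : Int.gcd a q = 1) (hα : |α - a / q| ≤ 1 / (q : ℝ) ^ 2)
    (j₀ : ℝ) (H : ℝ) (hH : 0 ≤ H) :
    ∑ j ∈ range q, VNa_mh H ((j₀ + j) * α) ≤ 4 * H + 2 * (q * (1 + Real.log q)) := by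
  have hq1 : (0 : ℝ) < q := by exact_mod_cast hq
  set b : ℤ := ⌊(q : ℝ) * (j₀ * α)⌋ with hb
  set F : ℕ → ℝ := fun r => (if r ≤ 1 ∨ q ≤ r + 2 then H else 0) + (if 2 ≤ r then (q : ℝ) / ((r : ℝ) - 1) else 0) +
    (if 2 ≤ q - 1 - r then (q : ℝ) / (((q - 1 - r : ℕ) : ℝ) - 1) else 0) with hF
  have hF1 : ∀ r : ℕ, 0 ≤ (if 2 ≤ r then (q : ℝ) / ((r : ℝ) - 1) else 0) := by
    intro r
    split_ifs with h
    · have h3 : (2 : ℝ) ≤ r := by exact_mod_cast h
      have : (0 : ℝ) ≤ r - 1 := by linarith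
      positivity
    · exact le_refl _
  have hF0 : ∀ r, 0 ≤ F r := by
    intro r
    rw [hF]
    have h1 : 0 ≤ (if r ≤ 1 ∨ q ≤ r + 2 then H else 0) := by
      split_ifs
      · exact hH
      · exact le_refl _
    have h2 := hF1 r
    have h3 := hF1 (q - 1 - r)
    positivity
  have key : ∀ j ∈ range q, VNa_mh H ((j₀ + j) * α) ≤ F (((b + j * a) % q).toNat) := by
    intro j hj
    rw [Finset.mem_range] at hj
    set r := ((b + j * a) % q).toNat with hr
    have h1 : 0 ≤ (if r ≤ 1 ∨ q ≤ r + 2 then H else 0) := by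
      split_ifs
      · exact hH
      · exact le_refl _
    have h2 := hF1 r
    have h3 := hF1 (q - 1 - r)
    by_cases hc : r ≤ 1 ∨ q ≤ r + 2
    · refine (VNa_mh_le _ _).trans ?_
      rw [hF]
      simp only [if_pos hc]
      linarith
    · have hc1 : 2 ≤ r := by omega
      have hc2 : r + 3 ≤ q := by omega
      have hc3 : 2 ≤ q - 1 - r := by omega
      have hr2 : (2 : ℝ) ≤ r := by exact_mod_cast hc1
      have hr3 : (r : ℝ) + 3 ≤ q := by exact_mod_cast hc2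
      have hcast : ((q - 1 - r : ℕ) : ℝ) = q - 1 - r := by
        rw [Nat.cast_sub (by omega), Nat.cast_sub (by omega)]
        simp
      have hδ : |(j : ℝ) * (q * (α - a / q))| ≤ 1 := by
        rw [abs_mul, abs_mul, abs_of_nonneg (Nat.cast_nonneg j), abs_of_nonneg hq1.le]
        have hj1 : (j : ℝ) ≤ q := by exact_mod_cast hj.le
        calc (j : ℝ) * (q * |α - a / q|) ≤ q * (q * (1 / (q : ℝ) ^ 2)) := by gcongr
          _ = 1 := by field_simp
      have hfl1 := Int.floor_le ((q : ℝ) * (j₀ * α))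
      have hfl2 := Int.lt_floor_add_one ((q : ℝ) * (j₀ * α))
      rw [← hb] at hfl1 hfl2
      have hx : (q : ℝ) * ((j₀ + j) * α) = q * (j₀ * α) + j * a + j * (q * (α - a / q)) := by
        field_simp
        ring
      rw [abs_le] at hδ
      have hpos := VNa_pos q hq ((j₀ + j) * α) (b + j * a) 1 2 (by
        rw [hx]
        push_cast
        linarith) (by
        rw [hx]
        push_cast
        linarith)
      rw [← hr] at hpos
      have hmin : min (((r : ℝ) - 1) / q) (((q : ℝ) - r - 2) / q) ≤ dn ((j₀ + j) * α) := hpos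
      have hd1 : 0 < ((r : ℝ) - 1) / q := by
        have : (0 : ℝ) < r - 1 := by linarith
        positivity
      have hd2 : 0 < ((q : ℝ) - r - 2) / q := by
        have : (0 : ℝ) < q - r - 2 := by linarith
        positivity
      have h4 := VNa_mh_le_div H _ _ (lt_min hd1 hd2) hmin
      refine h4.trans ?_
      rw [hF]
      simp only [if_pos hc1, if_pos hc3, if_neg hc, hcast]
      have e1 : 1 / (((r : ℝ) - 1) / q) = q / (r - 1) := one_div_div _ _
      have e2 : 1 / (((q : ℝ) - r - 2) / q) = q / (q - 1 - r - 1) := by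
        rw [one_div_div]
        congr 1
        ring
      have p1 : (0 : ℝ) < q / (r - 1) := by
        have : (0 : ℝ) < r - 1 := by linarith
        positivity
      have p2 : (0 : ℝ) < q / (q - 1 - r - 1) := by
        have : (0 : ℝ) < q - 1 - r - 1 := by linarith
        positivity
      rcases min_choice (((r : ℝ) - 1) / q) (((q : ℝ) - r - 2) / q) with h | h
      · rw [h, e1]
        linarith
      · rw [h, e2]
        linarith
  calc ∑ j ∈ range q, VNa_mh H ((j₀ + j) * α)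
      ≤ ∑ j ∈ range q, F (((b + j * a) % q).toNat) := Finset.sum_le_sum key
    _ ≤ ∑ r ∈ range q, F r := VNa_sum_inj q a b hq hg _ (Finset.Subset.refl _) F hF0
    _ = ∑ r ∈ range q, (if r ≤ 1 ∨ q ≤ r + 2 then H else 0) +
        ∑ r ∈ range q, (if 2 ≤ r then (q : ℝ) / ((r : ℝ) - 1) else 0) +
        ∑ r ∈ range q, (if 2 ≤ q - 1 - r then (q : ℝ) / (((q - 1 - r : ℕ) : ℝ) - 1) else 0) := by
        rw [hF]
        simp only [Finset.sum_add_distrib]
    _ ≤ 4 * H + q * (1 + Real.log q) + q * (1 + Real.log q) := by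
        have h1 := VNa_card4 q H hH
        have h2 := VNa_harm2 q q hq1.le
        have h3 := Finset.sum_range_reflect (fun r => (if 2 ≤ r then (q : ℝ) / ((r : ℝ) - 1) else 0)) q
        have h3' : ∑ r ∈ range q, (if 2 ≤ q - 1 - r then (q : ℝ) / (((q - 1 - r : ℕ) : ℝ) - 1) else 0) =
          ∑ r ∈ range q, (if 2 ≤ r then (q : ℝ) / ((r : ℝ) - 1) else 0) := h3
        rw [h3']
        linarith
    _ = _ := by ring

/-- The terms before the first half period. -/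
theorem VNa_first (q : ℕ) (a : ℤ) (α : ℝ) (hq : 1 ≤ q) (hg : Int.gcd a q = 1) (hα : |α - a / q| ≤ 1 / (q : ℝ) ^ 2)
    (H : ℕ → ℝ) :
    ∑ j ∈ (range q).filter (fun j => 1 ≤ j ∧ 2 * j ≤ q), VNa_mh (H j) (j * α) ≤ 4 * (q * (1 + Real.log q)) := by
  have hq1 : (0 : ℝ) < q := by exact_mod_cast hq
  have hqz : (0 : ℤ) < q := by exact_mod_cast hq
  set F : ℕ → ℝ := fun r => (if 1 ≤ r then (2 * q : ℝ) / (r : ℝ) else 0) +
    (if 1 ≤ q - r then (2 * q : ℝ) / (((q - r : ℕ) : ℝ)) else 0) with hF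
  have hF1 : ∀ r : ℕ, 0 ≤ (if 1 ≤ r then (2 * q : ℝ) / (r : ℝ) else 0) := by
    intro r
    split_ifs with h
    · positivity
    · exact le_refl _
  have hF0 : ∀ r, 0 ≤ F r := by
    intro r
    rw [hF]
    have h2 := hF1 r
    have h3 := hF1 (q - r)
    positivity
  have key : ∀ j ∈ (range q).filter (fun j => 1 ≤ j ∧ 2 * j ≤ q), VNa_mh (H j) (j * α) ≤ F (((0 + j * a) % q).toNat) := by
    intro j hj
    rw [Finset.mem_filter, Finset.mem_range] at hj
    obtain ⟨hj1, hj2, hj3⟩ := hj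
    set r := (((0 : ℤ) + j * a) % q).toNat with hr
    have er0 := Int.emod_nonneg (0 + j * a) hqz.ne'
    have er1 := Int.emod_lt_of_pos (0 + j * a) hqz
    have hrq : r < q := by omega
    have hr1 : 1 ≤ r := by
      by_contra hr0
      have hr0' : r = 0 := by omega
      have h0 : (0 : ℕ) = j := by
        refine VNa_inj q a 0 hq hg (x₁ := 0) (x₂ := j) ?_ ?_ ?_
        · have : 0 < q := by omega
          simpa using this
        · simpa using hj1
        · show (((0 : ℤ) + ((0 : ℕ) : ℤ) * a) % q).toNat = (((0 : ℤ) + j * a) % q).toNat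
          rw [← hr, hr0']
          simp
      omega
    have hc3 : 1 ≤ q - r := by omega
    have hr2 : (1 : ℝ) ≤ r := by exact_mod_cast hr1
    have hr3 : (r : ℝ) + 1 ≤ q := by exact_mod_cast hrq
    have hcast : ((q - r : ℕ) : ℝ) = q - r := by
      rw [Nat.cast_sub (by omega)]
    have hδ : |(j : ℝ) * (q * (α - a / q))| ≤ 1 / 2 := by
      rw [abs_mul, abs_mul, abs_of_nonneg (Nat.cast_nonneg j), abs_of_nonneg hq1.le]
      have hj4 : (j : ℝ) ≤ q / 2 := by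
        have : ((2 * j : ℕ) : ℝ) ≤ q := by exact_mod_cast hj3
        push_cast at this
        linarith
      calc (j : ℝ) * (q * |α - a / q|) ≤ q / 2 * (q * (1 / (q : ℝ) ^ 2)) := by gcongr
        _ = 1 / 2 := by field_simp
    have hx : (q : ℝ) * (j * α) = j * a + j * (q * (α - a / q)) := by
      field_simp
      ring
    rw [abs_le] at hδ
    have hpos := VNa_pos q hq (j * α) (0 + j * a) (1 / 2) (1 / 2) (by
      rw [hx]
      push_cast
      linarith) (by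
      rw [hx]
      push_cast
      linarith)
    rw [← hr] at hpos
    have hd1 : (r : ℝ) / (2 * q) ≤ ((r : ℝ) - 1 / 2) / q := by
      rw [div_le_div_iff₀ (by positivity) hq1]
      nlinarith
    have hd2 : ((q : ℝ) - r) / (2 * q) ≤ ((q : ℝ) - r - 1 / 2) / q := by
      rw [div_le_div_iff₀ (by positivity) hq1]
      nlinarith
    have hmin : min ((r : ℝ) / (2 * q)) (((q : ℝ) - r) / (2 * q)) ≤ dn (j * α) := (min_le_min hd1 hd2).trans hpos
    have hp1 : 0 < (r : ℝ) / (2 * q) := by positivity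
    have hp2 : 0 < ((q : ℝ) - r) / (2 * q) := by
      have : (0 : ℝ) < q - r := by linarith
      positivity
    have h4 := VNa_mh_le_div (H j) _ _ (lt_min hp1 hp2) hmin
    refine h4.trans ?_
    rw [hF]
    simp only [if_pos hr1, if_pos hc3, hcast]
    have e1 : 1 / ((r : ℝ) / (2 * q)) = 2 * q / r := one_div_div _ _
    have e2 : 1 / (((q : ℝ) - r) / (2 * q)) = 2 * q / (q - r) := one_div_div _ _
    have p1 : (0 : ℝ) < 2 * q / r := by positivity
    have p2 : (0 : ℝ) < 2 * q / (q - r) := by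
      have : (0 : ℝ) < q - r := by linarith
      positivity
    rcases min_choice ((r : ℝ) / (2 * q)) (((q : ℝ) - r) / (2 * q)) with h | h
    · rw [h, e1]
      linarith
    · rw [h, e2]
      linarith
  calc ∑ j ∈ (range q).filter (fun j => 1 ≤ j ∧ 2 * j ≤ q), VNa_mh (H j) (j * α)
      ≤ ∑ j ∈ (range q).filter (fun j => 1 ≤ j ∧ 2 * j ≤ q), F (((0 + j * a) % q).toNat) := Finset.sum_le_sum key
    _ ≤ ∑ r ∈ range q, F r := VNa_sum_inj q a 0 hq hg _ (Finset.filter_subset _ _) F hF0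
    _ = ∑ r ∈ range q, (if 1 ≤ r then (2 * q : ℝ) / (r : ℝ) else 0) +
        ∑ r ∈ range q, (if 1 ≤ q - r then (2 * q : ℝ) / (((q - r : ℕ) : ℝ)) else 0) := by
        rw [hF]
        simp only [Finset.sum_add_distrib]
    _ ≤ 2 * q * (1 + Real.log q) + 2 * q * (1 + Real.log q) := by
        have h2 := VNa_harm1 q (2 * q) (by positivity)
        have h3 := Finset.sum_range_reflect (fun r => (2 * q : ℝ) / ((r : ℝ) + 1)) q
        have h3' : ∑ r ∈ range q, (if 1 ≤ q - r then (2 * q : ℝ) / (((q - r : ℕ) : ℝ)) else 0) =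
          ∑ r ∈ range q, (2 * q : ℝ) / ((r : ℝ) + 1) := by
          rw [← h3]
          refine Finset.sum_congr rfl fun r hr => ?_
          rw [Finset.mem_range] at hr
          rw [if_pos (by omega)]
          congr 1
          rw [Nat.cast_sub (by omega), Nat.cast_sub (by omega), Nat.cast_sub (by omega)]
          push_cast
          ring
        rw [h3']
        have h5 : ∑ r ∈ range q, (2 * q : ℝ) / ((r : ℝ) + 1) = 2 * q * ∑ r ∈ range q, (1 : ℝ) / ((r : ℝ) + 1) := by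
          rw [Finset.mul_sum]
          refine Finset.sum_congr rfl fun r _ => ?_
          rw [mul_one_div]
        rw [h5]
        have h6 := mul_le_mul_of_nonneg_left (VNa_harm q q le_rfl) (show (0 : ℝ) ≤ 2 * q by positivity)
        linarith
    _ = _ := by ring

theorem VNa_log_nonneg (q : ℕ) : 0 ≤ Real.log q := Real.log_natCast_nonneg q

theorem VNa_sum_min (q : ℕ) (a : ℤ) (α : ℝ) (hq : 1 ≤ q) (hg : Int.gcd a q = 1) (hα : |α - a / q| ≤ 1 / (q : ℝ) ^ 2)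
    (J : ℕ) (j₀ : ℝ) (H : ℝ) (hH : 0 ≤ H) :
    ∑ j ∈ range J, VNa_mh H ((j₀ + j) * α) ≤ 4 * ((J : ℝ) / q + 1) * (H + q * (1 + Real.log q)) := by
  have hq1 : (0 : ℝ) < q := by exact_mod_cast hq
  have hl := VNa_log_nonneg q
  have h1 : J ≤ (J / q + 1) * q := by
    have := Nat.div_add_mod J q
    have h2 := Nat.mod_lt J (show 0 < q by omega)
    nlinarith
  have h2 : ∀ B : ℕ, ∑ j ∈ range (B * q), VNa_mh H ((j₀ + j) * α) ≤ B * (4 * (H + q * (1 + Real.log q))) := by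
    intro B
    induction B with
    | zero => simp
    | succ n ih =>
      rw [Nat.add_mul, one_mul, Finset.sum_range_add]
      have h3 := VNa_block q a α hq hg hα (j₀ + (n * q : ℕ)) H hH
      have h4 : ∑ x ∈ range q, VNa_mh H ((j₀ + ((n * q + x : ℕ) : ℝ)) * α) =
          ∑ j ∈ range q, VNa_mh H ((j₀ + (n * q : ℕ) + j) * α) := by
        refine Finset.sum_congr rfl fun x _ => ?_
        congr 2
        push_cast
        ring
      rw [h4]
      push_cast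
      push_cast at h3 ih
      nlinarith [mul_nonneg hq1.le (add_nonneg zero_le_one hl)]
  calc ∑ j ∈ range J, VNa_mh H ((j₀ + j) * α) ≤ ∑ j ∈ range ((J / q + 1) * q), VNa_mh H ((j₀ + j) * α) :=
        Finset.sum_le_sum_of_subset_of_nonneg (Finset.range_subset_range.2 h1) (fun _ _ _ => VNa_mh_nonneg _ _ hH)
    _ ≤ ((J / q + 1 : ℕ) : ℝ) * (4 * (H + q * (1 + Real.log q))) := h2 _
    _ ≤ ((J : ℝ) / q + 1) * (4 * (H + q * (1 + Real.log q))) := by
        refine mul_le_mul_of_nonneg_right ?_ (by positivity)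
        push_cast
        have := @Nat.cast_div_le ℝ _ _ _ J q
        linarith
    _ = _ := by ring

/-- The standard lemma on sums of `min (H, 1 / ‖j α‖)`. (`mh H x = H` if `dn x = 0`.)

Proof. Among `q` consecutive `j` the numbers `j α + θ` modulo `1` are, up to `1 / q`, the numbers `m / q`, each residue `m` being taken once (`|α - a / q| ≤ 1 / q ^ 2`), so for at most `4` of them `dn < 1 / q`..., and the others have `dn ≥ c m / q`: the sum over a block is at most `4 H + C q (1 + log q)`. There are at most `J / q + 1` blocks. -/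
theorem sum_min : ∃ C : ℝ, 1 ≤ C ∧ ∀ (q : ℕ) (a : ℤ) (α : ℝ), 1 ≤ q → Int.gcd a q = 1 → |α - a / q| ≤ 1 / (q : ℝ) ^ 2 → ∀ (J : ℕ) (j₀ : ℤ) (H : ℝ), 0 ≤ H →
    ∑ j ∈ range J, (if dn ((j₀ + j : ℝ) * α) = 0 then H else min H (1 / dn ((j₀ + j : ℝ) * α))) ≤
      C * ((J : ℝ) / q + 1) * (H + q * (1 + Real.log q)) := by
  refine ⟨4, by norm_num, ?_⟩
  intro q a α hq hg hα J j₀ H hH
  exact VNa_sum_min q a α hq hg hα J j₀ H hH

theorem VNa_union (s t : Finset ℕ) (f : ℕ → ℝ) (hf : ∀ j, 0 ≤ f j) :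
    ∑ j ∈ s ∪ t, f j ≤ ∑ j ∈ s, f j + ∑ j ∈ t, f j := by
  rw [← Finset.sum_union_inter]
  have := Finset.sum_nonneg (s := s ∩ t) (fun j _ => hf j)
  linarith

theorem VNa_sum_min_div (q : ℕ) (a : ℤ) (α : ℝ) (hq : 1 ≤ q) (hg : Int.gcd a q = 1) (hα : |α - a / q| ≤ 1 / (q : ℝ) ^ 2)
    (J N : ℕ) :
    ∑ j ∈ Icc 1 J, VNa_mh ((N : ℝ) / j) ((j : ℝ) * α) ≤
      40 * ((N : ℝ) / q + J + q) * (1 + Real.log q) * (1 + Real.log (J + 1)) := by
  have hq1 : (0 : ℝ) < q := by exact_mod_cast hq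
  have hl := VNa_log_nonneg q
  have hN : (0 : ℝ) ≤ N := Nat.cast_nonneg N
  have hJ : (0 : ℝ) ≤ J := Nat.cast_nonneg J
  have hlJ : 0 ≤ Real.log ((J : ℝ) + 1) := Real.log_nonneg (by linarith)
  set f : ℕ → ℝ := fun j => VNa_mh ((N : ℝ) / j) ((j : ℝ) * α) with hf
  have hf0 : ∀ j, 0 ≤ f j := fun j => VNa_mh_nonneg _ _ (by positivity)
  -- the cover
  have hcov : ∑ j ∈ Icc 1 J, f j ≤ (∑ j ∈ (range q).filter (fun j => 1 ≤ j ∧ 2 * j ≤ q), f j +
      ∑ j ∈ (range (q + 1)).filter (fun j => 1 ≤ j ∧ q ≤ 2 * j), f j) +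
      ∑ i ∈ Icc 1 (J / q), ∑ l ∈ range q, f (i * q + 1 + l) := by
    have e1 : ∑ i ∈ Icc 1 (J / q), ∑ l ∈ range q, f (i * q + 1 + l) =
        ∑ p ∈ Icc 1 (J / q) ×ˢ range q, f (p.1 * q + 1 + p.2) := by
      rw [Finset.sum_product]
    have e2 : ∑ p ∈ Icc 1 (J / q) ×ˢ range q, f (p.1 * q + 1 + p.2) =
        ∑ j ∈ (Icc 1 (J / q) ×ˢ range q).image (fun p : ℕ × ℕ => p.1 * q + 1 + p.2), f j := by
      rw [Finset.sum_image]
      rintro ⟨i, l⟩ hp ⟨i', l'⟩ hp' h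
      simp only [Finset.coe_product, Set.mem_prod, Finset.mem_coe, Finset.mem_Icc, Finset.mem_range] at hp hp'
      simp only at h
      have h1 : i = i' := by
        by_contra hne
        rcases lt_or_gt_of_ne hne with h2 | h2
        · have : (i + 1) * q ≤ i' * q := Nat.mul_le_mul_right q h2
          nlinarith
        · have : (i' + 1) * q ≤ i * q := Nat.mul_le_mul_right q h2
          nlinarith
      subst h1
      have : l = l' := by omega
      rw [this]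
    rw [e1, e2]
    refine le_trans ?_ (add_le_add_left (VNa_union _ _ _ hf0) _)
    refine le_trans ?_ (VNa_union _ _ _ hf0)
    refine Finset.sum_le_sum_of_subset_of_nonneg ?_ (fun j _ _ => hf0 j)
    intro j hj
    rw [Finset.mem_Icc] at hj
    simp only [Finset.mem_union, Finset.mem_filter, Finset.mem_range, Finset.mem_image, Finset.mem_product,
      Finset.mem_Icc, Prod.exists]
    rcases le_or_gt j q with h | h
    · left
      rcases le_or_gt q (2 * j) with h2 | h2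
      · right
        exact ⟨by omega, by omega, h2⟩
      · left
        exact ⟨by omega, by omega, by omega⟩
    · right
      refine ⟨(j - 1) / q, (j - 1) % q, ⟨⟨?_, ?_⟩, Nat.mod_lt _ (by omega)⟩, ?_⟩
      · rw [Nat.le_div_iff_mul_le (by omega)]
        omega
      · exact Nat.div_le_div_right (by omega)
      · have := Nat.div_add_mod (j - 1) q
        rw [mul_comm] at this
        omega
  have hA := VNa_first q a α hq hg hα (fun j => (N : ℝ) / j)
  have hB : ∑ j ∈ (range (q + 1)).filter (fun j => 1 ≤ j ∧ q ≤ 2 * j), f j ≤ 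
      12 * (2 * N / q + q * (1 + Real.log q)) := by
    calc ∑ j ∈ (range (q + 1)).filter (fun j => 1 ≤ j ∧ q ≤ 2 * j), f j
        ≤ ∑ j ∈ (range (q + 1)).filter (fun j => 1 ≤ j ∧ q ≤ 2 * j), VNa_mh (2 * N / q) ((j : ℝ) * α) := by
          refine Finset.sum_le_sum fun j hj => ?_
          rw [Finset.mem_filter] at hj
          refine VNa_mh_mono _ _ _ ?_
          have hj1 : (1 : ℝ) ≤ j := by exact_mod_cast hj.2.1
          have hj2 : (q : ℝ) ≤ 2 * j := by exact_mod_cast hj.2.2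
          rw [div_le_div_iff₀ (by linarith) hq1]
          nlinarith
      _ ≤ ∑ j ∈ range (q + 1), VNa_mh (2 * N / q) ((j : ℝ) * α) :=
          Finset.sum_le_sum_of_subset_of_nonneg (Finset.filter_subset _ _)
            (fun _ _ _ => VNa_mh_nonneg _ _ (by positivity))
      _ = ∑ j ∈ range (q + 1), VNa_mh (2 * N / q) ((0 + (j : ℝ)) * α) := by simp
      _ ≤ 4 * (((q + 1 : ℕ) : ℝ) / q + 1) * (2 * N / q + q * (1 + Real.log q)) :=
          VNa_sum_min q a α hq hg hα (q + 1) 0 _ (by positivity)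
      _ ≤ 12 * (2 * N / q + q * (1 + Real.log q)) := by
          refine mul_le_mul_of_nonneg_right ?_ (by positivity)
          have : ((q + 1 : ℕ) : ℝ) / q ≤ 2 := by
            rw [div_le_iff₀ hq1]
            push_cast
            have : (1 : ℝ) ≤ q := by exact_mod_cast hq
            linarith
          linarith
  have hC : ∀ i ∈ Icc 1 (J / q), ∑ l ∈ range q, f (i * q + 1 + l) ≤
      8 * ((N / q) * (1 / (i : ℝ)) + q * (1 + Real.log q)) := by
    intro i hi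
    rw [Finset.mem_Icc] at hi
    have hi1 : (1 : ℝ) ≤ i := by exact_mod_cast hi.1
    calc ∑ l ∈ range q, f (i * q + 1 + l)
        ≤ ∑ l ∈ range q, VNa_mh ((N / q) * (1 / (i : ℝ))) (((i * q + 1 : ℝ) + (l : ℝ)) * α) := by
          refine Finset.sum_le_sum fun l _ => ?_
          rw [hf]
          simp only
          push_cast
          refine VNa_mh_mono _ _ _ ?_
          rw [div_mul_div_comm, mul_one]
          refine div_le_div_of_nonneg_left hN (by positivity) ?_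
          have : (0 : ℝ) ≤ l := Nat.cast_nonneg l
          nlinarith
      _ ≤ 4 * ((q : ℝ) / q + 1) * ((N / q) * (1 / (i : ℝ)) + q * (1 + Real.log q)) :=
          VNa_sum_min q a α hq hg hα q _ _ (by positivity)
      _ = _ := by
          rw [div_self hq1.ne']
          ring
  have hD : ∑ i ∈ Icc 1 (J / q), ∑ l ∈ range q, f (i * q + 1 + l) ≤
      8 * ((N / q) * (1 + Real.log (J + 1)) + J * (1 + Real.log q)) := by
    refine (Finset.sum_le_sum hC).trans ?_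
    rw [← Finset.mul_sum, Finset.sum_add_distrib, ← Finset.mul_sum, Finset.sum_const, nsmul_eq_mul]
    refine mul_le_mul_of_nonneg_left (add_le_add ?_ ?_) (by norm_num)
    · refine mul_le_mul_of_nonneg_left ?_ (by positivity)
      refine (Pool.Agent.Wb58c63.ArA_harm (J / q)).trans ?_
      rcases Nat.eq_zero_or_pos (J / q) with h0 | h0
      · rw [h0]
        simp
        exact hlJ
      · have h1 : Real.log ((J / q : ℕ) : ℝ) ≤ Real.log ((J : ℝ) + 1) := by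
          refine Real.log_le_log (by exact_mod_cast h0) ?_
          have : ((J / q : ℕ) : ℝ) ≤ J := by exact_mod_cast Nat.div_le_self J q
          linarith
        linarith
    · rw [Nat.card_Icc, Nat.add_sub_cancel, ← mul_assoc]
      refine mul_le_mul_of_nonneg_right ?_ (by linarith)
      have : ((J / q * q : ℕ) : ℝ) ≤ J := by exact_mod_cast Nat.div_mul_le_self J q
      push_cast at this
      exact this
  have hA' : ∑ j ∈ (range q).filter (fun j => 1 ≤ j ∧ 2 * j ≤ q), f j ≤ 4 * (q * (1 + Real.log q)) := hA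
  refine hcov.trans ((add_le_add (add_le_add hA' hB) hD).trans ?_)
  set A : ℝ := 1 + Real.log q with hAdef
  set B : ℝ := 1 + Real.log ((J : ℝ) + 1) with hBdef
  have hA1 : 1 ≤ A := by linarith
  have hB1 : 1 ≤ B := by linarith
  have hAB : A ≤ A * B := by nlinarith
  have hBA : B ≤ A * B := by nlinarith
  have h1AB : 1 ≤ A * B := by nlinarith
  have t1 : (q : ℝ) * A ≤ q * (A * B) := by gcongr
  have t2 : (N : ℝ) / q ≤ (N : ℝ) / q * (A * B) := by
    have : (0 : ℝ) ≤ N / q := by positivity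
    nlinarith
  have t3 : (N : ℝ) / q * B ≤ (N : ℝ) / q * (A * B) := by gcongr
  have t4 : (J : ℝ) * A ≤ J * (A * B) := by gcongr
  have e5 : 40 * ((N : ℝ) / q + J + q) * A * B = 40 * ((N : ℝ) / q * (A * B)) + 40 * (J * (A * B)) + 40 * (q * (A * B)) := by ring
  rw [e5]
  have e6 : 2 * (N : ℝ) / q = 2 * (N / q) := by ring
  rw [e6]
  have u1 : 0 ≤ (N : ℝ) / q * (A * B) := by positivity
  have u2 : 0 ≤ (J : ℝ) * (A * B) := by positivity
  have u3 : 0 ≤ (q : ℝ) * (A * B) := by positivity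
  linarith

/-- The same with `min (N / j, 1 / ‖j α‖)`.

Proof. For `j ≤ q / 2`: `dn (j α) ≥ 1 / (2 q)` and these `j α` are separated by `1 / (2 q)`, so their sum of `1 / dn` is at most `C q (1 + log q)`. The `j > q / 2` are divided into blocks of length `q`, `(i - 1/2) q < j ≤ (i + 1/2) q`, `i ≥ 1`, and `sum_min` with `H = 2 N / (i q)` gives `C (N / (i q) + q (1 + log q))` for each; sum over `i ≤ J / q + 1`. -/
theorem sum_min_div : ∃ C : ℝ, 1 ≤ C ∧ ∀ (q : ℕ) (a : ℤ) (α : ℝ), 1 ≤ q → Int.gcd a q = 1 → |α - a / q| ≤ 1 / (q : ℝ) ^ 2 → ∀ (J N : ℕ), 1 ≤ N →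
    ∑ j ∈ Icc 1 J, (if dn ((j : ℝ) * α) = 0 then (N : ℝ) / j else min ((N : ℝ) / j) (1 / dn ((j : ℝ) * α))) ≤
      C * ((N : ℝ) / q + J + q) * (1 + Real.log q) * (1 + Real.log (J + 1)) := by
  refine ⟨40, by norm_num, ?_⟩
  intro q a α hq hg hα J N _
  exact VNa_sum_min_div q a α hq hg hα J N

theorem VNa_abel (M : ℕ) (x B : ℝ) (hB : ∀ L ≤ M, ‖∑ h ∈ Ioc 0 L, ee (h * x)‖ ≤ B) :
    ‖∑ h ∈ Ioc 0 M, (Real.log h : ℂ) * ee (h * x) - (Real.log M : ℂ) * ∑ h ∈ Ioc 0 M, ee (h * x)‖ ≤ Real.log M * B := by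
  induction M with
  | zero => simp
  | succ n ih =>
    have ih' := ih (fun L hL => hB L (by omega))
    have h1 : Ioc 0 (n + 1) = insert (n + 1) (Ioc 0 n) := by
      ext k
      simp only [Finset.mem_Ioc, Finset.mem_insert]
      omega
    have h2 : (n + 1) ∉ Ioc 0 n := by simp
    rw [h1, Finset.sum_insert h2, Finset.sum_insert h2]
    have e : (Real.log ((n + 1 : ℕ) : ℝ) : ℂ) * ee ((n + 1 : ℕ) * x) + ∑ h ∈ Ioc 0 n, (Real.log h : ℂ) * ee (h * x) -
        (Real.log ((n + 1 : ℕ) : ℝ) : ℂ) * (ee ((n + 1 : ℕ) * x) + ∑ h ∈ Ioc 0 n, ee (h * x)) =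
        (∑ h ∈ Ioc 0 n, (Real.log h : ℂ) * ee (h * x) - (Real.log n : ℂ) * ∑ h ∈ Ioc 0 n, ee (h * x)) +
        ((Real.log n - Real.log ((n + 1 : ℕ) : ℝ) : ℝ) : ℂ) * ∑ h ∈ Ioc 0 n, ee (h * x) := by
      push_cast
      ring
    rw [e]
    refine (norm_add_le _ _).trans ?_
    rw [norm_mul, Complex.norm_real, Real.norm_eq_abs]
    have h3 : Real.log (n : ℝ) ≤ Real.log ((n + 1 : ℕ) : ℝ) := by
      rcases Nat.eq_zero_or_pos n with h | h
      · subst h
        simp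
      · exact Real.log_le_log (by exact_mod_cast h) (by exact_mod_cast Nat.le_succ n)
    rw [abs_of_nonpos (by linarith)]
    have h4 := hB n (by omega)
    have h5 : -(Real.log (n : ℝ) - Real.log ((n + 1 : ℕ) : ℝ)) * ‖∑ h ∈ Ioc 0 n, ee (h * x)‖ ≤
        -(Real.log (n : ℝ) - Real.log ((n + 1 : ℕ) : ℝ)) * B :=
      mul_le_mul_of_nonneg_left h4 (by linarith)
    linarith

theorem VNa_abel2 (M : ℕ) (x B : ℝ) (hB : ∀ L ≤ M, ‖∑ h ∈ Ioc 0 L, ee (h * x)‖ ≤ B) :
    ‖∑ h ∈ Ioc 0 M, (Real.log h : ℂ) * ee (h * x)‖ ≤ 2 * (Real.log M * B) := by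
  have h1 := VNa_abel M x B hB
  have h2 := hB M le_rfl
  have h3 : ‖(Real.log M : ℂ) * ∑ h ∈ Ioc 0 M, ee (h * x)‖ ≤ Real.log M * B := by
    rw [norm_mul, Complex.norm_real, Real.norm_eq_abs, abs_of_nonneg (Real.log_natCast_nonneg M)]
    exact mul_le_mul_of_nonneg_left h2 (Real.log_natCast_nonneg M)
  have h4 := norm_add_le (∑ h ∈ Ioc 0 M, (Real.log h : ℂ) * ee (h * x) - (Real.log M : ℂ) * ∑ h ∈ Ioc 0 M, ee (h * x))
    ((Real.log M : ℂ) * ∑ h ∈ Ioc 0 M, ee (h * x))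
  rw [sub_add_cancel] at h4
  linarith

theorem VNa_Icc (M : ℕ) : Icc 1 M = Ioc 0 M := by
  ext k
  simp only [Finset.mem_Icc, Finset.mem_Ioc]
  omega

theorem VNa_I1 (j N : ℕ) (α : ℝ) (L : ℕ) (hL : L ≤ N / j) :
    ‖∑ h ∈ Ioc 0 L, ee (h * ((j : ℝ) * α))‖ ≤ VNa_mh ((N : ℝ) / j) ((j : ℝ) * α) := by
  refine VNa_geom 0 L _ _ ?_ (by positivity)
  have h1 : (L : ℝ) ≤ ((N / j : ℕ) : ℝ) := by exact_mod_cast hL
  have h2 := @Nat.cast_div_le ℝ _ _ _ N j
  push_cast
  linarith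

/-- **Sums of type I.**

Proof. The sum over `h` of `ee (j h α)` is a geometric sum (`geom_le`), with the weight `log h` by partial summation (factor `2 log N`); then `sum_min_div`. -/
theorem type_I : ∃ C : ℝ, 1 ≤ C ∧ ∀ (q : ℕ) (a : ℤ) (α : ℝ), 1 ≤ q → Int.gcd a q = 1 → |α - a / q| ≤ 1 / (q : ℝ) ^ 2 → ∀ (J N : ℕ), 2 ≤ N → J ≤ N → q ≤ N →
    ∀ c : ℕ → ℂ, (∀ j ∈ Icc 1 J, ‖c j‖ ≤ 1 + Real.log N) →
    ‖∑ j ∈ Icc 1 J, c j * ∑ h ∈ Icc 1 (N / j), ee ((j * h : ℕ) * α)‖ ≤ C * ((N : ℝ) / q + J + q) * (1 + Real.log N) ^ 3 ∧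
    ‖∑ j ∈ Icc 1 J, c j * ∑ h ∈ Icc 1 (N / j), (Real.log h : ℂ) * ee ((j * h : ℕ) * α)‖ ≤ C * ((N : ℝ) / q + J + q) * (1 + Real.log N) ^ 4 := by
  refine ⟨160, by norm_num, ?_⟩
  intro q a α hq hg hα J N hN hJN hqN c hc
  have hq1 : (0 : ℝ) < q := by exact_mod_cast hq
  have hN2 : (2 : ℝ) ≤ N := by exact_mod_cast hN
  have hJN' : (J : ℝ) ≤ N := by exact_mod_cast hJN
  have hlq : Real.log q ≤ Real.log N := Real.log_le_log hq1 (by exact_mod_cast hqN)
  have hlq0 := VNa_log_nonneg q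
  have hlN0 := VNa_log_nonneg N
  have hlJ : Real.log ((J : ℝ) + 1) ≤ 2 * Real.log N := by
    have h1 : Real.log ((J : ℝ) + 1) ≤ Real.log ((N : ℝ) ^ 2) := by
      refine Real.log_le_log (by positivity) ?_
      nlinarith
    rw [Real.log_pow] at h1
    push_cast at h1
    exact h1
  have hlJ0 : 0 ≤ Real.log ((J : ℝ) + 1) := Real.log_nonneg (by have : (0 : ℝ) ≤ J := Nat.cast_nonneg J; linarith)
  set E : ℝ := (N : ℝ) / q + J + q with hE
  have hE0 : 0 ≤ E := by positivity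
  set Lg : ℝ := 1 + Real.log N with hLg
  have hLg1 : 1 ≤ Lg := by linarith
  have hS : ∑ j ∈ Icc 1 J, VNa_mh ((N : ℝ) / j) ((j : ℝ) * α) ≤ 80 * E * Lg ^ 2 := by
    refine (VNa_sum_min_div q a α hq hg hα J N).trans ?_
    rw [← hE]
    have h1 : 1 + Real.log q ≤ Lg := by linarith
    have h2 : 1 + Real.log ((J : ℝ) + 1) ≤ 2 * Lg := by linarith
    calc 40 * E * (1 + Real.log q) * (1 + Real.log ((J : ℝ) + 1)) ≤ 40 * E * Lg * (2 * Lg) := by gcongr
      _ = 80 * E * Lg ^ 2 := by ring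
  have hcast : ∀ j h : ℕ, ee ((j * h : ℕ) * α) = ee (h * ((j : ℝ) * α)) := by
    intro j h
    congr 1
    push_cast
    ring
  constructor
  · calc ‖∑ j ∈ Icc 1 J, c j * ∑ h ∈ Icc 1 (N / j), ee ((j * h : ℕ) * α)‖
        ≤ ∑ j ∈ Icc 1 J, Lg * VNa_mh ((N : ℝ) / j) ((j : ℝ) * α) := by
          refine (norm_sum_le _ _).trans (Finset.sum_le_sum fun j hj => ?_)
          rw [norm_mul, VNa_Icc, Finset.sum_congr rfl (fun h _ => hcast j h)]
          exact mul_le_mul (hc j hj) (VNa_I1 j N α _ le_rfl) (norm_nonneg _) (by linarith)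
      _ = Lg * ∑ j ∈ Icc 1 J, VNa_mh ((N : ℝ) / j) ((j : ℝ) * α) := by rw [← Finset.mul_sum]
      _ ≤ Lg * (80 * E * Lg ^ 2) := mul_le_mul_of_nonneg_left hS (by linarith)
      _ ≤ 160 * E * Lg ^ 3 := by
          have : 0 ≤ E * Lg ^ 3 := by positivity
          nlinarith
  · calc ‖∑ j ∈ Icc 1 J, c j * ∑ h ∈ Icc 1 (N / j), (Real.log h : ℂ) * ee ((j * h : ℕ) * α)‖
        ≤ ∑ j ∈ Icc 1 J, Lg * (2 * (Lg * VNa_mh ((N : ℝ) / j) ((j : ℝ) * α))) := by
          refine (norm_sum_le _ _).trans (Finset.sum_le_sum fun j hj => ?_)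
          rw [norm_mul, VNa_Icc, Finset.sum_congr rfl (fun h _ => by rw [hcast j h])]
          refine mul_le_mul (hc j hj) ?_ (norm_nonneg _) (by linarith)
          refine (VNa_abel2 (N / j) ((j : ℝ) * α) _ (fun L hL => VNa_I1 j N α L hL)).trans ?_
          refine mul_le_mul_of_nonneg_left ?_ (by norm_num)
          refine mul_le_mul_of_nonneg_right ?_ (VNa_mh_nonneg _ _ (by positivity))
          rw [Finset.mem_Icc] at hj
          have h1 : 0 < N / j := Nat.div_pos (by omega) (by omega)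
          have h2 : Real.log ((N / j : ℕ) : ℝ) ≤ Real.log N :=
            Real.log_le_log (by exact_mod_cast h1) (by exact_mod_cast Nat.div_le_self N j)
          linarith
      _ = 2 * Lg ^ 2 * ∑ j ∈ Icc 1 J, VNa_mh ((N : ℝ) / j) ((j : ℝ) * α) := by
          rw [Finset.mul_sum]
          refine Finset.sum_congr rfl fun j _ => ?_
          ring
      _ ≤ 2 * Lg ^ 2 * (80 * E * Lg ^ 2) := mul_le_mul_of_nonneg_left hS (by positivity)
      _ = 160 * E * Lg ^ 4 := by ring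

theorem VNa_lam (K N : ℕ) (hN : 2 ≤ N) (hK : 1 ≤ K) (hKN : K ≤ N) :
    ∑ k ∈ Ioc K (2 * K), (vonMangoldt k) ^ 2 ≤ 24 * (K * (1 + Real.log N)) := by
  have hN2 : (2 : ℝ) ≤ N := by exact_mod_cast hN
  have hlN0 := VNa_log_nonneg N
  have hpsi := Chebyshev.psi_le_const_mul_self (x := ((2 * K : ℕ) : ℝ)) (by positivity)
  have h1 : ∑ k ∈ Ioc K (2 * K), vonMangoldt k ≤ Chebyshev.psi ((2 * K : ℕ) : ℝ) := by
    unfold Chebyshev.psi
    rw [Nat.floor_natCast]
    refine Finset.sum_le_sum_of_subset_of_nonneg ?_ (fun _ _ _ => vonMangoldt_nonneg)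
    exact Finset.Ioc_subset_Ioc_left (by omega)
  have hlog4 : Real.log 4 ≤ 2 := by
    have h2 : Real.log 4 = 2 * Real.log 2 := by
      rw [show (4 : ℝ) = 2 ^ 2 by norm_num, Real.log_pow]
      norm_num
    have := Real.log_two_lt_d9
    linarith
  have hK0 : (0 : ℝ) ≤ K := Nat.cast_nonneg K
  have h2 : ∑ k ∈ Ioc K (2 * K), vonMangoldt k ≤ 12 * K := by
    refine h1.trans (hpsi.trans ?_)
    push_cast
    nlinarith
  have h3 : ∀ k ∈ Ioc K (2 * K), (vonMangoldt k) ^ 2 ≤ 2 * (1 + Real.log N) * vonMangoldt k := by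
    intro k hk
    rw [Finset.mem_Ioc] at hk
    have h4 : vonMangoldt k ≤ Real.log k := vonMangoldt_le_log
    have h5 : Real.log k ≤ Real.log ((2 * N : ℕ) : ℝ) := by
      refine Real.log_le_log ?_ ?_
      · exact_mod_cast (show 0 < k by omega)
      · exact_mod_cast (show k ≤ 2 * N by omega)
    have h6 : Real.log ((2 * N : ℕ) : ℝ) ≤ 2 * Real.log N := by
      have h7 : Real.log ((2 * N : ℕ) : ℝ) ≤ Real.log ((N : ℝ) ^ 2) := by
        refine Real.log_le_log (by positivity) ?_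
        push_cast
        nlinarith
      rw [Real.log_pow] at h7
      push_cast at h7 ⊢
      exact h7
    have h8 : 0 ≤ vonMangoldt k := vonMangoldt_nonneg
    rw [pow_two]
    refine mul_le_mul_of_nonneg_right ?_ h8
    linarith
  calc ∑ k ∈ Ioc K (2 * K), (vonMangoldt k) ^ 2 ≤ ∑ k ∈ Ioc K (2 * K), 2 * (1 + Real.log N) * vonMangoldt k :=
        Finset.sum_le_sum h3
    _ = 2 * (1 + Real.log N) * ∑ k ∈ Ioc K (2 * K), vonMangoldt k := by rw [← Finset.mul_sum]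
    _ ≤ 2 * (1 + Real.log N) * (12 * K) := mul_le_mul_of_nonneg_left h2 (by linarith)
    _ = _ := by ring

/-- Expanding the square. -/
theorem VNa_square (K N : ℕ) (hK : 1 ≤ K) (α : ℝ) (b : ℕ → ℂ) :
    ∑ k ∈ Ioc K (2 * K), ‖∑ m ∈ Icc 1 (N / k), b m * ee ((k * m : ℕ) * α)‖ ^ 2 ≤
      ∑ m₁ ∈ Icc 1 (N / K), ∑ m₂ ∈ Icc 1 (N / K), ‖b m₁‖ * ‖b m₂‖ * VNa_mh K (((m₁ : ℝ) - m₂) * α) := by
  have h1 : ∀ k ∈ Ioc K (2 * K), ((‖∑ m ∈ Icc 1 (N / k), b m * ee ((k * m : ℕ) * α)‖ ^ 2 : ℝ) : ℂ) =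
      ∑ m₁ ∈ Icc 1 (N / K), ∑ m₂ ∈ Icc 1 (N / K), (if m₁ ≤ N / k ∧ m₂ ≤ N / k then
        b m₁ * (starRingEnd ℂ) (b m₂) * ee (k * (((m₁ : ℝ) - m₂) * α)) else 0) := by
    intro k hk
    rw [Finset.mem_Ioc] at hk
    have h2 : ∑ m ∈ Icc 1 (N / k), b m * ee ((k * m : ℕ) * α) =
        ∑ m ∈ Icc 1 (N / K), (if m ≤ N / k then b m * ee ((k * m : ℕ) * α) else 0) := by
      rw [← Finset.sum_filter]
      refine Finset.sum_congr ?_ fun _ _ => rfl
      ext m
      have h3 : N / k ≤ N / K := Nat.div_le_div_left hk.1.le (by omega)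
      simp only [Finset.mem_Icc, Finset.mem_filter]
      omega
    rw [h2, Complex.ofReal_pow, ← Complex.mul_conj', map_sum, Finset.sum_mul_sum]
    refine Finset.sum_congr rfl fun m₁ _ => Finset.sum_congr rfl fun m₂ _ => ?_
    by_cases c1 : m₁ ≤ N / k
    · by_cases c2 : m₂ ≤ N / k
      · rw [if_pos c1, if_pos c2, if_pos ⟨c1, c2⟩, map_mul, Pool.Agent.Wb58c63.LSa_conj]
        have h4 : ee (k * (((m₁ : ℝ) - m₂) * α)) = ee ((k * m₁ : ℕ) * α) * ee (-((k * m₂ : ℕ) * α)) := by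
          rw [← Pool.Agent.Wb58c63.ee_add]
          congr 1
          push_cast
          ring
        rw [h4]
        ring
      · rw [if_neg c2, if_neg (show ¬(m₁ ≤ N / k ∧ m₂ ≤ N / k) from fun h => c2 h.2), _root_.map_zero, mul_zero]
    · rw [if_neg c1, if_neg (show ¬(m₁ ≤ N / k ∧ m₂ ≤ N / k) from fun h => c1 h.1), zero_mul]
  have h5 : ((∑ k ∈ Ioc K (2 * K), ‖∑ m ∈ Icc 1 (N / k), b m * ee ((k * m : ℕ) * α)‖ ^ 2 : ℝ) : ℂ) =
      ∑ m₁ ∈ Icc 1 (N / K), ∑ m₂ ∈ Icc 1 (N / K), b m₁ * (starRingEnd ℂ) (b m₂) *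
        ∑ k ∈ (Ioc K (2 * K)).filter (fun k => m₁ ≤ N / k ∧ m₂ ≤ N / k), ee (k * (((m₁ : ℝ) - m₂) * α)) := by
    rw [Complex.ofReal_sum, Finset.sum_congr rfl h1, Finset.sum_comm]
    refine Finset.sum_congr rfl fun m₁ _ => ?_
    rw [Finset.sum_comm]
    refine Finset.sum_congr rfl fun m₂ _ => ?_
    rw [Finset.mul_sum, Finset.sum_filter]
  have h6 : ∀ m₁ ∈ Icc 1 (N / K), ∀ m₂ ∈ Icc 1 (N / K),
      ‖∑ k ∈ (Ioc K (2 * K)).filter (fun k => m₁ ≤ N / k ∧ m₂ ≤ N / k), ee (k * (((m₁ : ℝ) - m₂) * α))‖ ≤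
        VNa_mh K (((m₁ : ℝ) - m₂) * α) := by
    intro m₁ hm₁ m₂ hm₂
    rw [Finset.mem_Icc] at hm₁ hm₂
    have h7 : (Ioc K (2 * K)).filter (fun k => m₁ ≤ N / k ∧ m₂ ≤ N / k) =
        Ioc K (min (2 * K) (min (N / m₁) (N / m₂))) := by
      ext k
      simp only [Finset.mem_filter, Finset.mem_Ioc, le_min_iff]
      constructor
      · rintro ⟨⟨c1, c2⟩, c3, c4⟩
        rw [Nat.le_div_iff_mul_le (by omega)] at c3 c4
        refine ⟨c1, c2, ?_, ?_⟩
        · rw [Nat.le_div_iff_mul_le (by omega), mul_comm]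
          exact c3
        · rw [Nat.le_div_iff_mul_le (by omega), mul_comm]
          exact c4
      · rintro ⟨c1, c2, c3, c4⟩
        rw [Nat.le_div_iff_mul_le (by omega)] at c3 c4
        refine ⟨⟨c1, c2⟩, ?_, ?_⟩
        · rw [Nat.le_div_iff_mul_le (by omega), mul_comm]
          exact c3
        · rw [Nat.le_div_iff_mul_le (by omega), mul_comm]
          exact c4
    rw [h7]
    refine VNa_geom K _ _ _ ?_ (Nat.cast_nonneg K)
    have h8 : ((min (2 * K) (min (N / m₁) (N / m₂)) : ℕ) : ℝ) ≤ ((2 * K : ℕ) : ℝ) := by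
      exact_mod_cast min_le_left _ _
    push_cast at h8 ⊢
    linarith
  have h9 : (∑ k ∈ Ioc K (2 * K), ‖∑ m ∈ Icc 1 (N / k), b m * ee ((k * m : ℕ) * α)‖ ^ 2 : ℝ) =
      ‖((∑ k ∈ Ioc K (2 * K), ‖∑ m ∈ Icc 1 (N / k), b m * ee ((k * m : ℕ) * α)‖ ^ 2 : ℝ) : ℂ)‖ := by
    rw [Complex.norm_real, Real.norm_eq_abs, abs_of_nonneg (Finset.sum_nonneg fun _ _ => by positivity)]
  rw [h9, h5]
  refine (norm_sum_le _ _).trans (Finset.sum_le_sum fun m₁ hm₁ => ?_)
  refine (norm_sum_le _ _).trans (Finset.sum_le_sum fun m₂ hm₂ => ?_)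
  rw [norm_mul, norm_mul, RCLike.norm_conj]
  exact mul_le_mul_of_nonneg_left (h6 m₁ hm₁ m₂ hm₂) (by positivity)

theorem VNa_half (M : ℕ) (w : ℤ → ℝ) (hw : ∀ z, 0 ≤ w z) (hws : ∀ z, w (-z) = w z) (c : ℕ → ℝ) (S : ℝ)
    (hS : ∀ m₂ : ℕ, ∑ m₁ ∈ Icc 1 M, w ((m₁ : ℤ) - m₂) ≤ S) :
    ∑ m₁ ∈ Icc 1 M, ∑ m₂ ∈ Icc 1 M, c m₁ * c m₂ * w ((m₁ : ℤ) - m₂) ≤ S * ∑ m ∈ Icc 1 M, c m ^ 2 := by
  have h1 : ∀ m₁ m₂ : ℕ, c m₁ * c m₂ * w ((m₁ : ℤ) - m₂) ≤
      (c m₁ ^ 2 * w ((m₁ : ℤ) - m₂)) / 2 + (c m₂ ^ 2 * w ((m₁ : ℤ) - m₂)) / 2 := by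
    intro m₁ m₂
    nlinarith [mul_nonneg (sq_nonneg (c m₁ - c m₂)) (hw ((m₁ : ℤ) - m₂))]
  have h2 : ∑ m₁ ∈ Icc 1 M, ∑ m₂ ∈ Icc 1 M, c m₁ ^ 2 * w ((m₁ : ℤ) - m₂) ≤ S * ∑ m ∈ Icc 1 M, c m ^ 2 := by
    rw [Finset.mul_sum]
    refine Finset.sum_le_sum fun m₁ _ => ?_
    rw [← Finset.mul_sum, mul_comm]
    refine mul_le_mul_of_nonneg_right ?_ (sq_nonneg _)
    refine le_trans (le_of_eq ?_) (hS m₁)
    refine Finset.sum_congr rfl fun m₂ _ => ?_
    rw [← hws]
    congr 1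
    ring
  have h3 : ∑ m₁ ∈ Icc 1 M, ∑ m₂ ∈ Icc 1 M, c m₂ ^ 2 * w ((m₁ : ℤ) - m₂) ≤ S * ∑ m ∈ Icc 1 M, c m ^ 2 := by
    rw [Finset.sum_comm, Finset.mul_sum]
    refine Finset.sum_le_sum fun m₂ _ => ?_
    rw [← Finset.mul_sum, mul_comm]
    exact mul_le_mul_of_nonneg_right (hS m₂) (sq_nonneg _)
  calc ∑ m₁ ∈ Icc 1 M, ∑ m₂ ∈ Icc 1 M, c m₁ * c m₂ * w ((m₁ : ℤ) - m₂)
      ≤ ∑ m₁ ∈ Icc 1 M, ∑ m₂ ∈ Icc 1 M, ((c m₁ ^ 2 * w ((m₁ : ℤ) - m₂)) / 2 + (c m₂ ^ 2 * w ((m₁ : ℤ) - m₂)) / 2) :=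
        Finset.sum_le_sum fun m₁ _ => Finset.sum_le_sum fun m₂ _ => h1 m₁ m₂
    _ = (∑ m₁ ∈ Icc 1 M, ∑ m₂ ∈ Icc 1 M, c m₁ ^ 2 * w ((m₁ : ℤ) - m₂)) / 2 +
        (∑ m₁ ∈ Icc 1 M, ∑ m₂ ∈ Icc 1 M, c m₂ ^ 2 * w ((m₁ : ℤ) - m₂)) / 2 := by
        simp only [Finset.sum_add_distrib, Finset.sum_div]
    _ ≤ _ := by linarith

/-- **A dyadic sum of type II.**

Proof. Cauchy-Schwarz over `k`: the square is at most `(∑_k Lg(k) ^ 2) ∑_k |∑_m b_m ee (k m α)| ^ 2 ≤ C K (1 + log N) ∑_{m₁, m₂ ≤ N / K} |b_{m₁} b_{m₂}| |∑_k ee (k (m₁ - m₂) α)|`, `k` in an interval of length at most `K`. With `|b_{m₁} b_{m₂}| ≤ (|b_{m₁}| ^ 2 + |b_{m₂}| ^ 2) / 2` and `sum_min` (`H = K`) over the other variable: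
`≤ C K (1 + log N) ∑_m d(m) ^ 2 (N / (K q) + 1) (K + q (1 + log q)) ≤ C N (1 + log N) ^ 4 (N / q + N / K + K + q) (1 + log N)` (`sum_tau_sq`). -/
theorem type_II : ∃ C : ℝ, 1 ≤ C ∧ ∀ (q : ℕ) (a : ℤ) (α : ℝ), 1 ≤ q → Int.gcd a q = 1 → |α - a / q| ≤ 1 / (q : ℝ) ^ 2 → ∀ (K N : ℕ), 2 ≤ N → 1 ≤ K → K ≤ N → q ≤ N →
    ∀ b : ℕ → ℂ, (∀ m, ‖b m‖ ≤ m.divisors.card) →
    ‖∑ k ∈ Ioc K (2 * K), (vonMangoldt k : ℂ) * ∑ m ∈ Icc 1 (N / k), b m * ee ((k * m : ℕ) * α)‖ ^ 2 ≤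
      C * N * ((N : ℝ) / q + N / K + K + q) * (1 + Real.log N) ^ 5 := by
  refine ⟨96, by norm_num, ?_⟩
  intro q a α hq hg hα K N hN hK hKN hqN b hb
  have hq1 : (0 : ℝ) < q := by exact_mod_cast hq
  have hq1' : (1 : ℝ) ≤ q := by exact_mod_cast hq
  have hK1 : (0 : ℝ) < K := by exact_mod_cast hK
  have hN2 : (2 : ℝ) ≤ N := by exact_mod_cast hN
  have hlq : Real.log q ≤ Real.log N := Real.log_le_log hq1 (by exact_mod_cast hqN)
  have hlq0 := VNa_log_nonneg q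
  have hlN0 := VNa_log_nonneg N
  set Lg : ℝ := 1 + Real.log N with hLg
  have hLg1 : 1 ≤ Lg := by linarith
  have hlq' : 1 + Real.log q ≤ Lg := by linarith
  have hM1 : 1 ≤ N / K := Nat.div_pos hKN (by omega)
  have hMle : ((N / K : ℕ) : ℝ) ≤ N / K := Nat.cast_div_le
  -- Cauchy-Schwarz
  have hcs : ‖∑ k ∈ Ioc K (2 * K), (vonMangoldt k : ℂ) * ∑ m ∈ Icc 1 (N / k), b m * ee ((k * m : ℕ) * α)‖ ^ 2 ≤
      (∑ k ∈ Ioc K (2 * K), (vonMangoldt k) ^ 2) *
        ∑ k ∈ Ioc K (2 * K), ‖∑ m ∈ Icc 1 (N / k), b m * ee ((k * m : ℕ) * α)‖ ^ 2 := by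
    have h1 : ‖∑ k ∈ Ioc K (2 * K), (vonMangoldt k : ℂ) * ∑ m ∈ Icc 1 (N / k), b m * ee ((k * m : ℕ) * α)‖ ≤
        ∑ k ∈ Ioc K (2 * K), vonMangoldt k * ‖∑ m ∈ Icc 1 (N / k), b m * ee ((k * m : ℕ) * α)‖ := by
      refine (norm_sum_le _ _).trans (Finset.sum_le_sum fun k _ => ?_)
      rw [norm_mul, Complex.norm_real, Real.norm_eq_abs, abs_of_nonneg vonMangoldt_nonneg]
    refine (pow_le_pow_left₀ (norm_nonneg _) h1 2).trans ?_
    exact Finset.sum_mul_sq_le_sq_mul_sq _ _ _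
  have hlam := VNa_lam K N hN hK hKN
  have hsq := VNa_square K N hK α b
  -- the bound of the row sums
  set S : ℝ := 4 * ((N / K : ℝ) / q + 1) * (K + q * Lg) with hSdef
  have hrow : ∀ m₂ : ℕ, ∑ m₁ ∈ Icc 1 (N / K), VNa_mh K ((((m₁ : ℤ) - m₂ : ℤ) : ℝ) * α) ≤ S := by
    intro m₂
    have h1 : ∑ m₁ ∈ Icc 1 (N / K), VNa_mh K ((((m₁ : ℤ) - m₂ : ℤ) : ℝ) * α) =
        ∑ j ∈ range (N / K), VNa_mh K (((1 - m₂ : ℝ) + j) * α) := by
      have h2 : Icc 1 (N / K) = Ico 1 (N / K + 1) := by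
        ext n
        simp only [Finset.mem_Icc, Finset.mem_Ico]
        omega
      rw [h2, Finset.sum_Ico_eq_sum_range]
      refine Finset.sum_congr (by simp) fun s _ => ?_
      congr 2
      push_cast
      ring
    rw [h1]
    refine (VNa_sum_min q a α hq hg hα (N / K) _ K hK1.le).trans ?_
    rw [hSdef]
    have h3 : ((N / K : ℕ) : ℝ) / q ≤ (N / K : ℝ) / q := by gcongr
    gcongr
  have hdouble : ∑ m₁ ∈ Icc 1 (N / K), ∑ m₂ ∈ Icc 1 (N / K), ‖b m₁‖ * ‖b m₂‖ * VNa_mh K (((m₁ : ℝ) - m₂) * α) ≤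
      S * ∑ m ∈ Icc 1 (N / K), ‖b m‖ ^ 2 := by
    have h := VNa_half (N / K) (fun z => VNa_mh K ((z : ℝ) * α)) (fun z => VNa_mh_nonneg _ _ hK1.le)
      (fun z => by
        show VNa_mh K (((-z : ℤ) : ℝ) * α) = VNa_mh K ((z : ℝ) * α)
        rw [Int.cast_neg, neg_mul, VNa_mh_neg]) (fun m => ‖b m‖) S hrow
    refine le_trans (le_of_eq ?_) h
    refine Finset.sum_congr rfl fun m₁ _ => Finset.sum_congr rfl fun m₂ _ => ?_
    simp only [Int.cast_sub, Int.cast_natCast]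
  have hb2 : ∑ m ∈ Icc 1 (N / K), ‖b m‖ ^ 2 ≤ (N / K : ℝ) * Lg ^ 3 := by
    calc ∑ m ∈ Icc 1 (N / K), ‖b m‖ ^ 2 ≤ ∑ m ∈ Icc 1 (N / K), (m.divisors.card : ℝ) ^ 2 :=
          Finset.sum_le_sum fun m _ => pow_le_pow_left₀ (norm_nonneg _) (hb m) 2
      _ ≤ ((N / K : ℕ) : ℝ) * (1 + Real.log ((N / K : ℕ) : ℝ)) ^ 3 := Pool.Agent.Wb58c63.sum_tau_sq _ hM1
      _ ≤ (N / K : ℝ) * Lg ^ 3 := by
          have h4 : Real.log ((N / K : ℕ) : ℝ) ≤ Real.log N :=
            Real.log_le_log (by exact_mod_cast hM1) (by exact_mod_cast Nat.div_le_self N K)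
          have h5 : 0 ≤ Real.log ((N / K : ℕ) : ℝ) := VNa_log_nonneg _
          gcongr
          linarith
  have hS0 : 0 ≤ S := by positivity
  calc ‖∑ k ∈ Ioc K (2 * K), (vonMangoldt k : ℂ) * ∑ m ∈ Icc 1 (N / k), b m * ee ((k * m : ℕ) * α)‖ ^ 2
      ≤ (24 * (K * Lg)) * (S * ((N / K : ℝ) * Lg ^ 3)) := by
        refine hcs.trans ?_
        refine mul_le_mul hlam ?_ (Finset.sum_nonneg fun _ _ => by positivity) (by positivity)
        exact hsq.trans (hdouble.trans (mul_le_mul_of_nonneg_left hb2 hS0))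
    _ = 96 * N * (((N / K : ℝ) / q + 1) * (K + q * Lg)) * Lg ^ 4 := by
        rw [hSdef]
        field_simp
        ring
    _ ≤ 96 * N * (((N : ℝ) / q + N / K + K + q) * Lg) * Lg ^ 4 := by
        have h6 : ((N / K : ℝ) / q + 1) * (K + q * Lg) ≤ ((N : ℝ) / q + N / K + K + q) * Lg := by
          have e1 : ((N / K : ℝ) / q + 1) * (K + q * Lg) = N / q + N / K * Lg + K + q * Lg := by
            field_simp
            ring
          rw [e1]
          have t1 : (N : ℝ) / q ≤ N / q * Lg := by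
            have : (0 : ℝ) ≤ N / q := by positivity
            nlinarith
          have t2 : (K : ℝ) ≤ K * Lg := by nlinarith
          nlinarith
        gcongr
    _ = _ := by ring

end Pool.Agent.PSG
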