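import Pool.Agent.W_b58c63_h44.Df

/-!
# The van der Corput inequality
-/

set_option autoImplicit false

noncomputable section

open Finset

namespace Pool.Agent.PSG

/-- Extension by zero. -/
def VdC_z (z : ℕ → ℂ) (N : ℕ) (k : ℤ) : ℂ := if 0 ≤ k ∧ k < N then z k.toNat else 0

theorem VdC_shift (g : ℤ → ℂ) (L : ℕ) (hg : ∀ k, k < 0 ∨ (L : ℤ) ≤ k → g k = 0) (a b j : ℤ)
    (h1 : a + j ≤ 0) (h2 : (L : ℤ) ≤ b + j) :
    ∑ m ∈ Ico a b, g (m + j) = ∑ n ∈ range L, g (n : ℤ) := by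
  symm
  refine Finset.sum_of_injOn (fun n : ℕ => (n : ℤ) - j) ?_ ?_ ?_ ?_
  · intro x _ y _ hxy
    have h3 : (x : ℤ) - j = (y : ℤ) - j := hxy
    omega
  · intro n hn
    rw [Finset.mem_coe, mem_range] at hn
    rw [Finset.mem_coe, mem_Ico]
    show a ≤ (n : ℤ) - j ∧ (n : ℤ) - j < b
    omega
  · intro m _ hm
    apply hg
    by_contra hcon
    push Not at hcon
    apply hm
    refine ⟨(m + j).toNat, ?_, ?_⟩
    · rw [Finset.mem_coe, mem_range]
      omega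
    · show (((m + j).toNat : ℕ) : ℤ) - j = m
      omega
  · intro n _
    show g (n : ℤ) = g ((n : ℤ) - j + j)
    rw [sub_add_cancel]

theorem VdC_z_nat (z : ℕ → ℂ) (N n : ℕ) (hn : n < N) : VdC_z z N (n : ℤ) = z n := by
  rw [VdC_z, if_pos ⟨by omega, by exact_mod_cast hn⟩, Int.toNat_natCast]

theorem VdC_z_zero (z : ℕ → ℂ) (N : ℕ) (k : ℤ) (hk : k < 0 ∨ (N : ℤ) ≤ k) : VdC_z z N k = 0 := by
  rw [VdC_z, if_neg (by omega)]

theorem VdC_sum (z : ℕ → ℂ) (N : ℕ) (a b j : ℤ) (h1 : a + j ≤ 0) (h2 : (N : ℤ) ≤ b + j) :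
    ∑ m ∈ Ico a b, VdC_z z N (m + j) = ∑ n ∈ range N, z n := by
  rw [VdC_shift (VdC_z z N) N (VdC_z_zero z N) a b j h1 h2]
  exact Finset.sum_congr rfl fun n hn => VdC_z_nat z N n (mem_range.1 hn)

/-- The norms of the correlations. -/
def VdC_c (z : ℕ → ℂ) (N h : ℕ) : ℝ := ‖∑ n ∈ range (N - h), z (n + h) * (starRingEnd ℂ) (z n)‖

theorem VdC_corr (z : ℕ → ℂ) (N h : ℕ) (hN : h ≤ N) (a b j : ℤ) (h1 : a + j ≤ 0)
    (h2 : (N : ℤ) ≤ b + j) :
    ∑ m ∈ Ico a b, VdC_z z N (m + j + h) * (starRingEnd ℂ) (VdC_z z N (m + j)) =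
      ∑ n ∈ range (N - h), z (n + h) * (starRingEnd ℂ) (z n) := by
  rw [VdC_shift (fun k : ℤ => VdC_z z N (k + h) * (starRingEnd ℂ) (VdC_z z N k)) (N - h) ?_ a b j h1
    (by omega)]
  · refine Finset.sum_congr rfl fun n hn => ?_
    rw [mem_range] at hn
    have h3 : (n : ℤ) + h = ((n + h : ℕ) : ℤ) := by push_cast; rfl
    rw [h3, VdC_z_nat z N (n + h) (by omega), VdC_z_nat z N n (by omega)]
  · intro k hk
    rcases hk with hk | hk
    · rw [VdC_z_zero z N k (Or.inl hk), map_zero, mul_zero]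
    · rw [VdC_z_zero z N (k + h) (Or.inr (by omega)), zero_mul]

theorem VdC_norm (z : ℕ → ℂ) (N H : ℕ) (hHN : H ≤ N) (j j' : ℕ) (hj : j < H) (hj' : j' < H) :
    ‖∑ m ∈ Ico (-(H : ℤ) + 1) (N : ℤ),
      VdC_z z N (m + j) * (starRingEnd ℂ) (VdC_z z N (m + j'))‖ =
      VdC_c z N ((j - j') + (j' - j)) := by
  rcases le_total j' j with h | h
  · obtain ⟨d, rfl⟩ := Nat.exists_eq_add_of_le h
    have h1 : (j' + d - j') + (j' - (j' + d)) = d := by omega
    rw [h1, VdC_c, ← VdC_corr z N d (by omega) (-(H : ℤ) + 1) N j' (by omega) (by omega)]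
    congr 1
    refine Finset.sum_congr rfl fun m _ => ?_
    have h2 : m + ((j' + d : ℕ) : ℤ) = m + j' + d := by
      push_cast
      ring
    rw [h2]
  · obtain ⟨d, rfl⟩ := Nat.exists_eq_add_of_le h
    have h1 : (j - (j + d)) + (j + d - j) = d := by omega
    rw [h1, VdC_c, ← VdC_corr z N d (by omega) (-(H : ℤ) + 1) N j (by omega) (by omega),
      ← Complex.norm_conj, map_sum]
    congr 1
    refine Finset.sum_congr rfl fun m _ => ?_
    have h2 : m + ((j + d : ℕ) : ℤ) = m + j + d := by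
      push_cast
      ring
    rw [h2, map_mul, Complex.conj_conj, mul_comm]

theorem VdC_row (c : ℕ → ℝ) (hc : ∀ h, 0 ≤ c h) (H j : ℕ) (hH : 1 ≤ H) (hj : j < H) :
    ∑ j' ∈ range H, c ((j - j') + (j' - j)) ≤ c 0 + 2 * ∑ h ∈ Ico 1 H, c h := by
  have h1 : ∀ j' ∈ range H, (j - j') + (j' - j) ∈ range H := by
    intro j' hj'
    rw [mem_range] at hj' ⊢
    omega
  rw [← Finset.sum_fiberwise_of_maps_to h1]
  have h2 : ∀ h ∈ range H, ∑ j' ∈ range H with (j - j') + (j' - j) = h,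
      c ((j - j') + (j' - j)) ≤ (if h = 0 then 1 else 2) * c h := by
    intro h _
    have h3 : ∑ j' ∈ range H with (j - j') + (j' - j) = h, c ((j - j') + (j' - j)) =
        (((range H).filter fun j' => (j - j') + (j' - j) = h).card : ℝ) * c h := by
      rw [← nsmul_eq_mul, ← Finset.sum_const]
      refine Finset.sum_congr rfl fun j' hj' => ?_
      rw [(mem_filter.1 hj').2]
    rw [h3]
    refine mul_le_mul_of_nonneg_right ?_ (hc h)
    split_ifs with h0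
    · have h4 : (range H).filter (fun j' => (j - j') + (j' - j) = h) ⊆ {j} := by
        intro j' hj'
        rw [mem_filter] at hj'
        rw [mem_singleton]
        omega
      have h5 := Finset.card_le_card h4
      rw [card_singleton] at h5
      exact_mod_cast h5
    · have h4 : (range H).filter (fun j' => (j - j') + (j' - j) = h) ⊆ {j - h, j + h} := by
        intro j' hj'
        rw [mem_filter] at hj'
        rw [mem_insert, mem_singleton]
        omega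
      have h5 := (Finset.card_le_card h4).trans Finset.card_le_two
      exact_mod_cast h5
  refine (Finset.sum_le_sum h2).trans (le_of_eq ?_)
  rw [Finset.range_eq_Ico, Finset.sum_eq_sum_Ico_succ_bot (by omega : 0 < H), if_pos rfl, one_mul,
    Finset.mul_sum]
  congr 1
  refine Finset.sum_congr rfl fun h hh => ?_
  rw [mem_Ico] at hh
  rw [if_neg (by omega)]

/-- **The van der Corput inequality.**

Proof. Extend `z` by `0` to the integers outside of `[0, N)`, call it `z'` (a function on `ℤ`). Then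
`H S = ∑_{m = -H + 1}^{N - 1} ∑_{j < H} z' (m + j)` with `S = ∑_{n < N} z n`, because every `z n` is counted for the
`H` pairs `m = n - j`. There are `N + H - 1 ≤ 2 N` values of `m`, so by Cauchy-Schwarz (`inner_mul_le_norm_mul_norm` or
`sq_sum_le_card_mul_sum_sq`) `H ^ 2 ‖S‖ ^ 2 ≤ 2 N ∑_m ‖∑_j z' (m + j)‖ ^ 2`. Expand the square:
`∑_m ‖∑_j z' (m + j)‖ ^ 2 = ∑_{j, j'} ∑_m z' (m + j) conj (z' (m + j'))`, and for fixed `j, j'` the inner sum is over all
the integers (the summand is zero outside), it depends only on `j - j'`, it is `∑ ‖z n‖ ^ 2 ≤ N` for `j = j'`, and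
for `h = |j - j'| > 0` its norm is `‖∑_{n < N - h} z (n + h) conj (z n)‖`. For every `h` with `1 ≤ h < H` there are
`2 (H - h) ≤ 2 H` pairs. So the total is at most `H N + 2 H ∑_{1 ≤ h < H} ‖...‖`. Divide by `H ^ 2`. -/
theorem vdc_ineq (z : ℕ → ℂ) (hz : ∀ n, ‖z n‖ ≤ 1) (N H : ℕ) (hH : 1 ≤ H) (hHN : H ≤ N) :
    ‖∑ n ∈ range N, z n‖ ^ 2 ≤ 2 * N / H *
      (N + 2 * ∑ h ∈ Ico 1 H, ‖∑ n ∈ range (N - h), z (n + h) * (starRingEnd ℂ) (z n)‖) := by
  have hH0 : (0 : ℝ) < H := by exact_mod_cast hH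
  set M : Finset ℤ := Ico (-(H : ℤ) + 1) (N : ℤ) with hM
  set T : ℤ → ℂ := fun m => ∑ j ∈ range H, VdC_z z N (m + j) with hT
  set S : ℂ := ∑ n ∈ range N, z n with hS
  set c : ℕ → ℝ := VdC_c z N with hc
  have hc0 : ∀ h, 0 ≤ c h := fun h => norm_nonneg _
  have hcN : c 0 ≤ N := by
    show ‖∑ n ∈ range (N - 0), z (n + 0) * (starRingEnd ℂ) (z n)‖ ≤ N
    refine (norm_sum_le _ _).trans ?_
    refine (Finset.sum_le_card_nsmul _ _ 1 fun n _ => ?_).trans ?_
    · rw [norm_mul, Complex.norm_conj, add_zero]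
      exact mul_le_one₀ (hz n) (norm_nonneg _) (hz n)
    · rw [card_range, nsmul_eq_mul, mul_one, Nat.sub_zero]
  have hcard : (M.card : ℝ) ≤ 2 * N := by
    have h1 : M.card = N + H - 1 := by
      rw [hM, Int.card_Ico]
      omega
    have h2 : M.card ≤ 2 * N := by omega
    exact_mod_cast h2
  have h1 : ∑ m ∈ M, T m = H * S := by
    rw [hT, Finset.sum_comm]
    have h2 : ∀ j ∈ range H, ∑ m ∈ M, VdC_z z N (m + j) = S := by
      intro j hj
      rw [mem_range] at hj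
      exact VdC_sum z N _ _ _ (by omega) (by omega)
    rw [Finset.sum_congr rfl h2, Finset.sum_const, card_range, nsmul_eq_mul]
  have h3 : (H * ‖S‖) ^ 2 ≤ 2 * N * ∑ m ∈ M, ‖T m‖ ^ 2 := by
    have h4 : (H : ℝ) * ‖S‖ ≤ ∑ m ∈ M, ‖T m‖ := by
      have h5 := norm_sum_le M T
      rwa [h1, norm_mul, Complex.norm_natCast] at h5
    calc (H * ‖S‖) ^ 2 ≤ (∑ m ∈ M, ‖T m‖) ^ 2 := pow_le_pow_left₀ (by positivity) h4 2
      _ ≤ M.card * ∑ m ∈ M, ‖T m‖ ^ 2 := sq_sum_le_card_mul_sum_sq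
      _ ≤ 2 * N * ∑ m ∈ M, ‖T m‖ ^ 2 :=
          mul_le_mul_of_nonneg_right hcard (Finset.sum_nonneg fun _ _ => by positivity)
  have h5 : ∑ m ∈ M, ‖T m‖ ^ 2 ≤ H * (N + 2 * ∑ h ∈ Ico 1 H, c h) := by
    have h6 : ((∑ m ∈ M, ‖T m‖ ^ 2 : ℝ) : ℂ) = ∑ j ∈ range H, ∑ j' ∈ range H,
        ∑ m ∈ M, VdC_z z N (m + j) * (starRingEnd ℂ) (VdC_z z N (m + j')) := by
      have h7 : ∀ m : ℤ, ((‖T m‖ ^ 2 : ℝ) : ℂ) = ∑ j ∈ range H, ∑ j' ∈ range H,
          VdC_z z N (m + j) * (starRingEnd ℂ) (VdC_z z N (m + j')) := by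
        intro m
        rw [← Complex.normSq_eq_norm_sq, ← Complex.mul_conj, hT, map_sum, Finset.sum_mul_sum]
      rw [Complex.ofReal_sum, Finset.sum_congr rfl fun m _ => h7 m, Finset.sum_comm]
      refine Finset.sum_congr rfl fun j _ => ?_
      rw [Finset.sum_comm]
    have h8 : ∑ m ∈ M, ‖T m‖ ^ 2 = ‖((∑ m ∈ M, ‖T m‖ ^ 2 : ℝ) : ℂ)‖ := by
      rw [Complex.norm_real, Real.norm_of_nonneg (Finset.sum_nonneg fun _ _ => by positivity)]
    rw [h8, h6]
    refine (norm_sum_le _ _).trans ?_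
    calc ∑ j ∈ range H, ‖∑ j' ∈ range H,
        ∑ m ∈ M, VdC_z z N (m + j) * (starRingEnd ℂ) (VdC_z z N (m + j'))‖
        ≤ ∑ j ∈ range H, (N + 2 * ∑ h ∈ Ico 1 H, c h) := by
          refine Finset.sum_le_sum fun j hj => ?_
          refine (norm_sum_le _ _).trans ?_
          have h9 : ∑ j' ∈ range H, ‖∑ m ∈ M, VdC_z z N (m + j) *
              (starRingEnd ℂ) (VdC_z z N (m + j'))‖ =
              ∑ j' ∈ range H, c ((j - j') + (j' - j)) :=
            Finset.sum_congr rfl fun j' hj' =>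
              VdC_norm z N H hHN j j' (mem_range.1 hj) (mem_range.1 hj')
          rw [h9]
          have h10 := VdC_row c hc0 H j hH (mem_range.1 hj)
          linarith
      _ = H * (N + 2 * ∑ h ∈ Ico 1 H, c h) := by
          rw [Finset.sum_const, card_range, nsmul_eq_mul]
  have h11 : (H * ‖S‖) ^ 2 ≤ 2 * N * (H * (N + 2 * ∑ h ∈ Ico 1 H, c h)) :=
    h3.trans (mul_le_mul_of_nonneg_left h5 (by positivity))
  show ‖S‖ ^ 2 ≤ 2 * N / H * (N + 2 * ∑ h ∈ Ico 1 H, c h)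
  rw [div_mul_eq_mul_div, le_div_iff₀ hH0]
  have h12 : H * (‖S‖ ^ 2 * H) ≤ H * (2 * N * (N + 2 * ∑ h ∈ Ico 1 H, c h)) := by
    calc H * (‖S‖ ^ 2 * H) = (H * ‖S‖) ^ 2 := by ring
      _ ≤ 2 * N * (H * (N + 2 * ∑ h ∈ Ico 1 H, c h)) := h11
      _ = _ := by ring
  exact le_of_mul_le_mul_left h12 hH0

end Pool.Agent.PSG
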