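import Pool.Agent.W_b58c63_h44.V2
import Pool.Agent.W_b58c63_h44.VdC

/-!
# The test with differences of order `k`
-/

set_option autoImplicit false

noncomputable section

open Finset

namespace Pool.Agent.PSG

open Pool.Agent.Wb58c63 (ee)

theorem Vk_iter (h : ℕ) (k : ℕ) : ∀ (f : ℕ → ℝ) (n : ℕ),
    (fwdDiff (1 : ℕ))^[k] (fun n => f (n + h) - f n) n =
      (fwdDiff (1 : ℕ))^[k] f (n + h) - (fwdDiff (1 : ℕ))^[k] f n := by
  induction k with
  | zero => intro f n; rfl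
  | succ k ih =>
    intro f n
    rw [Function.iterate_succ_apply, Function.iterate_succ_apply]
    have h1 : fwdDiff (1 : ℕ) (fun n => f (n + h) - f n) =
        fun n => (fwdDiff (1 : ℕ) f) (n + h) - (fwdDiff (1 : ℕ) f) n := by
      funext n
      unfold fwdDiff
      have h2 : n + 1 + h = n + h + 1 := by omega
      show f (n + 1 + h) - f (n + 1) - (f (n + h) - f n) =
        f (n + h + 1) - f (n + h) - (f (n + 1) - f n)
      rw [h2]
      ring
    rw [h1, ih]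

theorem Vk_step (k : ℕ) (f : ℕ → ℝ) (n : ℕ) :
    (fwdDiff (1 : ℕ))^[k + 1] f n =
      (fwdDiff (1 : ℕ))^[k] f (n + 1) - (fwdDiff (1 : ℕ))^[k] f n := by
  rw [Function.iterate_succ_apply']
  rfl

theorem Vk_sum (h k : ℕ) (f : ℕ → ℝ) (n : ℕ) :
    (fwdDiff (1 : ℕ))^[k] (fun n => f (n + h) - f n) n =
      ∑ j ∈ range h, (fwdDiff (1 : ℕ))^[k + 1] f (n + j) := by
  rw [Vk_iter]
  simp only [Vk_step]
  have h1 := Finset.sum_range_sub (fun j => (fwdDiff (1 : ℕ))^[k] f (n + j)) h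
  simp only [← add_assoc, add_zero] at h1
  rw [h1]

theorem Vk_triv (f : ℕ → ℝ) (N : ℕ) : ‖∑ n ∈ range N, ee (f n)‖ ≤ N := by
  refine (norm_sum_le _ _).trans ?_
  simp [Pool.Agent.Wb58c63.norm_ee]

theorem Vk_ee (x y : ℝ) : ee x * (starRingEnd ℂ) (ee y) = ee (x - y) := by
  unfold ee
  rw [← Complex.exp_conj, ← Complex.exp_add]
  congr 1
  simp only [map_mul, Complex.conj_ofReal, Complex.conj_I, map_ofNat]
  push_cast
  ring

/-- **The test with differences of order `k`.**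

Proof by induction on `k`. For `k = 2` use `vdc2 A`: `N √l ≤ N ^ (1 - κ / 2)` and `1 / √l ≤ N ^ (1 - κ / 2)`, so `c = κ / 2`
works with twice the constant (`l ≤ N ^ (-κ) ≤ 1`).

Step `k - 1 → k`, `k ≥ 3`. Take `c', C'` from the induction hypothesis for `κ / 2` and `A`. Let `N ≥ N₀ := max 4 (4 ^ (2 / κ))`
(for smaller `N` the sum is at most `N ≤ N₀ N ^ (1 - c)` for every `c ≤ 1`). Let `H = ⌊N ^ (κ / 2)⌋`, so `1 ≤ H ≤ N ^ (1/2) ≤ N / 2`
and `H ≥ N ^ (κ / 2) / 2`. For `1 ≤ h < H` put `f_h n = f (n + h) - f n` and `N' = N - h ≥ N / 2`. Then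
`(fwdDiff 1)^[k-1] f_h n = ∑_{j < h} (fwdDiff 1)^[k] f (n + j)` (telescoping, `fwdDiff` commutes with translations and is
additive), and for `n < N'` all the `n + j < N`, so this is in `[h l, A h l]`. Moreover `h l ≤ N ^ (κ / 2) N ^ (-κ) = N ^ (-κ / 2) ≤
N' ^ (-κ / 2)` and `h l ≥ l ≥ N ^ (-2 + κ) ≥ 4 N ^ (-2 + κ / 2) ≥ N' ^ (-2 + κ / 2)` as `N ^ (κ / 2) ≥ 4` and `N' ≥ N / 2`. By the induction
hypothesis `‖∑_{n < N'} ee (f_h n)‖ ≤ C' N ^ (1 - c')` (if `c' ≤ 1`), and `ee (f (n + h)) conj (ee (f n)) = ee (f_h n)`. By `vdc_ineq`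
`‖S‖ ^ 2 ≤ (2 N / H) (N + 2 H C' N ^ (1 - c')) ≤ 4 N ^ (2 - κ / 2) + 4 C' N ^ (2 - c')`. So `c = min (κ / 2) c' / 2`. -/
theorem vdck (k : ℕ) (hk : 2 ≤ k) : ∀ κ : ℝ, 0 < κ → κ < 1 → ∀ A : ℝ, 1 ≤ A → ∃ c C : ℝ, 0 < c ∧ c ≤ 1 ∧ 0 < C ∧
    ∀ (f : ℕ → ℝ) (N : ℕ) (l : ℝ), 1 ≤ N → (N : ℝ) ^ (-2 + κ) ≤ l → l ≤ (N : ℝ) ^ (-κ) →
    (∀ n < N, l ≤ (fwdDiff (1 : ℕ))^[k] f n ∧ (fwdDiff (1 : ℕ))^[k] f n ≤ A * l) →
    ‖∑ n ∈ range N, ee (f n)‖ ≤ C * (N : ℝ) ^ (1 - c) := by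
  induction k, hk using Nat.le_induction with
  | base =>
    intro κ hκ hκ1 A hA
    obtain ⟨C, hC, h⟩ := vdc2 A hA
    refine ⟨κ / 2, 2 * C, by linarith, by linarith, by linarith, fun f N l hN h1 h2 h3 => ?_⟩
    have hN1 : (1 : ℝ) ≤ N := by exact_mod_cast hN
    have hN0 : (0 : ℝ) < N := by linarith
    have hl : 0 < l := lt_of_lt_of_le (Real.rpow_pos_of_pos hN0 _) h1
    have hl1 : l ≤ 1 := h2.trans (Real.rpow_le_one_of_one_le_of_nonpos hN1 (by linarith))
    refine (h f N l hl hl1 h3).trans ?_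
    have h4 : Real.sqrt l ≤ (N : ℝ) ^ (-κ / 2) := by
      rw [Real.sqrt_eq_rpow]
      have h5 := Real.rpow_le_rpow hl.le h2 (by norm_num : (0 : ℝ) ≤ 1 / 2)
      rw [← Real.rpow_mul hN0.le] at h5
      have h6 : -κ * (1 / 2) = -κ / 2 := by ring
      rwa [h6] at h5
    have h5 : (N : ℝ) * Real.sqrt l ≤ (N : ℝ) ^ (1 - κ / 2) := by
      have h6 := mul_le_mul_of_nonneg_left h4 hN0.le
      have h7 : (N : ℝ) * (N : ℝ) ^ (-κ / 2) = (N : ℝ) ^ (1 - κ / 2) := by
        rw [← Real.rpow_one_add' hN0.le (by linarith)]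
        congr 1
        ring
      rwa [h7] at h6
    have h6 : 1 / Real.sqrt l ≤ (N : ℝ) ^ (1 - κ / 2) := by
      rw [div_le_iff₀ (Real.sqrt_pos.2 hl)]
      have h7 : (N : ℝ) ^ (-(1 - κ / 2)) ≤ Real.sqrt l := by
        rw [Real.sqrt_eq_rpow]
        have h8 := Real.rpow_le_rpow (Real.rpow_nonneg hN0.le _) h1
          (by norm_num : (0 : ℝ) ≤ 1 / 2)
        rw [← Real.rpow_mul hN0.le] at h8
        have h9 : (-2 + κ) * (1 / 2) = -(1 - κ / 2) := by ring
        rwa [h9] at h8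
      calc (1 : ℝ) = (N : ℝ) ^ (1 - κ / 2) * (N : ℝ) ^ (-(1 - κ / 2)) := by
            rw [← Real.rpow_add hN0, add_neg_cancel, Real.rpow_zero]
        _ ≤ _ := mul_le_mul_of_nonneg_left h7 (Real.rpow_nonneg hN0.le _)
    have h7 := mul_le_mul_of_nonneg_left (add_le_add h5 h6) hC.le
    linarith
  | succ k hk ih =>
    intro κ hκ hκ1 A hA
    obtain ⟨c', C', hc', hc'1, hC', hI⟩ := ih (κ / 2) (by linarith) (by linarith) A hA
    set c : ℝ := min (κ / 2) c' / 2 with hc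
    have hcp : 0 < c := by
      rw [hc]
      have : 0 < min (κ / 2) c' := lt_min (by linarith) hc'
      linarith
    have hc1 : 2 * c ≤ κ / 2 := by
      rw [hc]
      linarith [min_le_left (κ / 2) c']
    have hc2 : 2 * c ≤ c' := by
      rw [hc]
      linarith [min_le_right (κ / 2) c']
    set N₀ : ℝ := max 4 ((4 : ℝ) ^ (2 / κ)) with hN₀
    have hN₀4 : (4 : ℝ) ≤ N₀ := le_max_left _ _
    refine ⟨c, N₀ + 4 + 4 * C', hcp, by linarith, by linarith, fun f N l hN h1 h2 h3 => ?_⟩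
    have hN1 : (1 : ℝ) ≤ N := by exact_mod_cast hN
    have hN0 : (0 : ℝ) < N := by linarith
    have hP : (1 : ℝ) ≤ (N : ℝ) ^ (1 - c) := Real.one_le_rpow hN1 (by linarith)
    rcases lt_or_ge (N : ℝ) N₀ with hlt | hge
    · refine (Vk_triv f N).trans ?_
      nlinarith only [hcp, hκ1, hC', hP, hlt, hc1, hN₀4]
    have hN4 : (4 : ℝ) ≤ N := hN₀4.trans hge
    set Q : ℝ := (N : ℝ) ^ (κ / 2) with hQ
    have hQ4 : 4 ≤ Q := by
      have h4 : (4 : ℝ) ^ (2 / κ) ≤ N := (le_max_right _ _).trans hge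
      have h5 := Real.rpow_le_rpow (by positivity) h4 (by linarith : (0 : ℝ) ≤ κ / 2)
      rw [← Real.rpow_mul (by norm_num)] at h5
      have h6 : 2 / κ * (κ / 2) = 1 := by
        field_simp
      rwa [h6, Real.rpow_one] at h5
    have hQN : Q ≤ N / 2 := by
      have h4 : Q ≤ (N : ℝ) ^ (1 / 2 : ℝ) :=
        Real.rpow_le_rpow_of_exponent_le hN1 (by linarith)
      rw [← Real.sqrt_eq_rpow] at h4
      have h5 : 2 ≤ Real.sqrt N := by
        rw [show (2 : ℝ) = Real.sqrt 4 by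
          rw [show (4 : ℝ) = 2 ^ 2 by norm_num, Real.sqrt_sq (by norm_num)]]
        exact Real.sqrt_le_sqrt hN4
      have h6 := Real.mul_self_sqrt hN0.le
      nlinarith only [Real.sqrt_nonneg (N : ℝ), h4, hQ4, h6]
    set H : ℕ := ⌊Q⌋₊ with hH
    have hHQ : (H : ℝ) ≤ Q := Nat.floor_le (by linarith)
    have hHQ2 : Q / 2 ≤ H := by
      have := Nat.lt_floor_add_one Q
      linarith
    have hH0 : (0 : ℝ) < H := by linarith
    have hH1 : 1 ≤ H := by
      have : 0 < H := by exact_mod_cast hH0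
      omega
    have hHN2 : (H : ℝ) ≤ N / 2 := hHQ.trans hQN
    have hHN : H ≤ N := by
      have : (H : ℝ) ≤ N := by linarith
      exact_mod_cast this
    have hl : 0 < l := lt_of_lt_of_le (Real.rpow_pos_of_pos hN0 _) h1
    have hv := vdc_ineq (fun n => ee (f n)) (fun n => (Pool.Agent.Wb58c63.norm_ee _).le) N H hH1 hHN
    have hterm : ∀ h ∈ Ico 1 H, ‖∑ n ∈ range (N - h),
        (fun n => ee (f n)) (n + h) * (starRingEnd ℂ) ((fun n => ee (f n)) n)‖ ≤
        C' * (N : ℝ) ^ (1 - c') := by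
      intro h hh
      rw [mem_Ico] at hh
      have hhH : (h : ℝ) ≤ H := by exact_mod_cast hh.2.le
      have hh1 : (1 : ℝ) ≤ h := by exact_mod_cast hh.1
      have hhN : h ≤ N := by omega
      have hNh : ((N - h : ℕ) : ℝ) = N - h := by push_cast [Nat.cast_sub hhN]; ring
      have hNh2 : (N : ℝ) / 2 ≤ ((N - h : ℕ) : ℝ) := by rw [hNh]; linarith only [hhH, hQN, hHQ]
      have hNh1 : 1 ≤ N - h := by
        have : (0 : ℝ) < ((N - h : ℕ) : ℝ) := by linarith only [hcp, hκ1, hhH, hQ4, hQN, hNh, hHQ, hc1]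
        have : 0 < N - h := by exact_mod_cast this
        omega
      have hNhN : ((N - h : ℕ) : ℝ) ≤ N := by rw [hNh]; linarith only [hcp, hκ1, hh1, hc1]
      have hNhp : (0 : ℝ) < ((N - h : ℕ) : ℝ) := by linarith only [hcp, hκ1, hhH, hQ4, hQN, hNh, hHQ, hc1]
      have e1 : ∀ n, (fun n => ee (f n)) (n + h) * (starRingEnd ℂ) ((fun n => ee (f n)) n) =
          ee ((fun n => f (n + h) - f n) n) := fun n => Vk_ee _ _
      simp only [e1]
      have hlow : ((N - h : ℕ) : ℝ) ^ (-2 + κ / 2) ≤ h * l := by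
        have a1 : ((N - h : ℕ) : ℝ) ^ (-2 + κ / 2) ≤ ((N : ℝ) / 2) ^ (-2 + κ / 2) :=
          Real.rpow_le_rpow_of_nonpos (by linarith only [hcp, hκ1, hQ4, hQN, hc1]) hNh2 (by linarith only [hcp, hκ1, hc1])
        have a2 : ((N : ℝ) / 2) ^ (-2 + κ / 2) ≤ 4 * (N : ℝ) ^ (-2 + κ / 2) := by
          rw [Real.div_rpow hN0.le (by norm_num), div_le_iff₀ (Real.rpow_pos_of_pos (by norm_num) _)]
          have a3 : (1 : ℝ) / 4 ≤ (2 : ℝ) ^ (-2 + κ / 2) := by
            have a4 : (2 : ℝ) ^ (-2 : ℝ) ≤ (2 : ℝ) ^ (-2 + κ / 2) :=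
              Real.rpow_le_rpow_of_exponent_le (by norm_num) (by linarith only [hcp, hc1])
            have a5 : (2 : ℝ) ^ (-2 : ℝ) = 1 / 4 := by
              rw [Real.rpow_neg (by norm_num), show (2 : ℝ) = ((2 : ℕ) : ℝ) by norm_num,
                Real.rpow_natCast]
              norm_num
            rwa [a5] at a4
          have a6 : 0 ≤ (N : ℝ) ^ (-2 + κ / 2) := Real.rpow_nonneg hN0.le _
          nlinarith only [hcp, hκ1, a6, hc1, a3]
        have a3 : 4 * (N : ℝ) ^ (-2 + κ / 2) ≤ (N : ℝ) ^ (-2 + κ) := by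
          have a4 : (N : ℝ) ^ (-2 + κ) = Q * (N : ℝ) ^ (-2 + κ / 2) := by
            rw [hQ, ← Real.rpow_add hN0]
            congr 1
            ring
          rw [a4]
          exact mul_le_mul_of_nonneg_right hQ4 (Real.rpow_nonneg hN0.le _)
        have a4 : l ≤ h * l := by nlinarith only [hcp, hκ1, hh1, hc1, hl]
        linarith only [h1, a3, a4, a1, a2]
      have hup : (h : ℝ) * l ≤ ((N - h : ℕ) : ℝ) ^ (-(κ / 2)) := by
        have a1 : (h : ℝ) * l ≤ Q * (N : ℝ) ^ (-κ) :=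
          mul_le_mul (hhH.trans hHQ) h2 hl.le (by linarith only [hcp, hκ1, hQ4, hc1])
        have a2 : Q * (N : ℝ) ^ (-κ) = (N : ℝ) ^ (-(κ / 2)) := by
          rw [hQ, ← Real.rpow_add hN0]
          congr 1
          ring
        have a3 : (N : ℝ) ^ (-(κ / 2)) ≤ ((N - h : ℕ) : ℝ) ^ (-(κ / 2)) :=
          Real.rpow_le_rpow_of_nonpos hNhp hNhN (by linarith only [hcp, hc1])
        linarith only [a2, a3, a1]
      have hdiff : ∀ n < N - h, (h : ℝ) * l ≤ (fwdDiff (1 : ℕ))^[k] (fun n => f (n + h) - f n) n ∧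
          (fwdDiff (1 : ℕ))^[k] (fun n => f (n + h) - f n) n ≤ A * (h * l) := by
        intro n hn
        rw [Vk_sum]
        constructor
        · have a1 := Finset.card_nsmul_le_sum (range h)
            (fun j => (fwdDiff (1 : ℕ))^[k + 1] f (n + j)) l fun j hj => by
              rw [mem_range] at hj
              exact (h3 (n + j) (by omega)).1
          rwa [card_range, nsmul_eq_mul] at a1
        · have a1 := Finset.sum_le_card_nsmul (range h)
            (fun j => (fwdDiff (1 : ℕ))^[k + 1] f (n + j)) (A * l) fun j hj => by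
              rw [mem_range] at hj
              exact (h3 (n + j) (by omega)).2
          rw [card_range, nsmul_eq_mul] at a1
          linarith only [a1]
      have a1 := hI (fun n => f (n + h) - f n) (N - h) (h * l) hNh1 hlow hup hdiff
      refine a1.trans (mul_le_mul_of_nonneg_left ?_ hC'.le)
      exact Real.rpow_le_rpow hNhp.le hNhN (by linarith only [hc'1])
    have hsum : ∑ h ∈ Ico 1 H, ‖∑ n ∈ range (N - h),
        (fun n => ee (f n)) (n + h) * (starRingEnd ℂ) ((fun n => ee (f n)) n)‖ ≤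
        H * (C' * (N : ℝ) ^ (1 - c')) := by
      have a1 := Finset.sum_le_card_nsmul (Ico 1 H) _ _ hterm
      rw [Nat.card_Ico, nsmul_eq_mul] at a1
      refine a1.trans (mul_le_mul_of_nonneg_right ?_ (by positivity))
      have : H - 1 ≤ H := Nat.sub_le _ _
      exact_mod_cast this
    have hS : ‖∑ n ∈ range N, ee (f n)‖ ^ 2 ≤
        2 * N / H * (N + 2 * (H * (C' * (N : ℝ) ^ (1 - c')))) := by
      refine hv.trans (mul_le_mul_of_nonneg_left ?_ (by positivity))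
      linarith
    set R : ℝ := (N : ℝ) ^ (1 - c) with hR
    have hR2 : R ^ 2 = (N : ℝ) ^ (2 - 2 * c) := by
      rw [hR, ← Real.rpow_natCast, ← Real.rpow_mul hN0.le]
      congr 1
      push_cast
      ring
    have b1 : 2 * (N : ℝ) / H * N ≤ 4 * R ^ 2 := by
      have b2 : 2 * (N : ℝ) / H * N ≤ 4 * (N ^ 2 / Q) := by
        rw [div_mul_eq_mul_div, mul_div_assoc', div_le_div_iff₀ hH0 (by linarith only [hcp, hκ1, hQ4, hc1])]
        nlinarith only [mul_nonneg hN0.le hN0.le, hHQ2]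
      have b3 : (N : ℝ) ^ 2 / Q = (N : ℝ) ^ (2 - κ / 2) := by
        rw [hQ, ← Real.rpow_natCast (N : ℝ) 2, ← Real.rpow_sub hN0]
        norm_num
      have b4 : (N : ℝ) ^ (2 - κ / 2) ≤ R ^ 2 := by
        rw [hR2]
        exact Real.rpow_le_rpow_of_exponent_le hN1 (by linarith)
      rw [b3] at b2
      linarith only [b2, b4]
    have b2 : 2 * (N : ℝ) / H * (2 * (H * (C' * (N : ℝ) ^ (1 - c')))) ≤ 4 * C' * R ^ 2 := by
      have b3 : 2 * (N : ℝ) / H * (2 * (H * (C' * (N : ℝ) ^ (1 - c')))) =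
          4 * C' * ((N : ℝ) * (N : ℝ) ^ (1 - c')) := by
        field_simp
        ring
      have b4 : (N : ℝ) * (N : ℝ) ^ (1 - c') = (N : ℝ) ^ (2 - c') := by
        rw [← Real.rpow_one_add' hN0.le (by linarith only [hcp, hκ1, hc'1, hc1])]
        congr 1
        ring
      rw [b3, b4, hR2]
      refine mul_le_mul_of_nonneg_left ?_ (by positivity)
      exact Real.rpow_le_rpow_of_exponent_le hN1 (by linarith only [hc2])
    have b3 : ‖∑ n ∈ range N, ee (f n)‖ ^ 2 ≤ (4 + 4 * C') * R ^ 2 := by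
      have b4 : 2 * (N : ℝ) / H * (N + 2 * (H * (C' * (N : ℝ) ^ (1 - c')))) =
          2 * (N : ℝ) / H * N + 2 * (N : ℝ) / H * (2 * (H * (C' * (N : ℝ) ^ (1 - c')))) := by
        ring
      rw [b4] at hS
      linarith only [b1, hS, b2]
    refine (sq_le_sq₀ (norm_nonneg _) (by positivity)).1 ?_
    rw [mul_pow]
    refine b3.trans (mul_le_mul_of_nonneg_right ?_ (by positivity))
    nlinarith only [hcp, hκ1, hC', hc1, hN₀4]

end Pool.Agent.PSG
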