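import Pool.Agent.W_b58c63_h44.Vk
import Pool.Agent.W_b58c63_h44.FdLog

/-!
# One residue class, `t` large
-/

set_option autoImplicit false

noncomputable section

open Finset Complex

namespace Pool.Agent.PSG

open Pool.Agent.Wb58c63 (ee)

theorem WCl_term {x : ℝ} (hx : 0 < x) (t : ℝ) :
    ((x : ℝ) : ℂ) ^ (-(t * I)) = Complex.exp ((-(t * Real.log x) : ℝ) * I) := by
  rw [Complex.cpow_def_of_ne_zero (by exact_mod_cast hx.ne'), ← Complex.ofReal_log hx.le]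
  congr 1
  push_cast
  ring

theorem WCl_ee (y : ℝ) : ee y = Complex.exp ((2 * Real.pi * y : ℝ) * I) := by
  unfold Pool.Agent.Wb58c63.ee
  congr 1
  push_cast
  ring

theorem WCl_norm {x : ℝ} (hx : 0 < x) (t : ℝ) : ‖((x : ℝ) : ℂ) ^ (-(t * I))‖ = 1 := by
  rw [WCl_term hx, Complex.norm_exp_ofReal_mul_I]

theorem WCl_sum (g : ℕ → ℝ) (hg : ∀ m, 0 < g m) (t : ℝ) (k N : ℕ) :
    ‖∑ m ∈ range N, ((g m : ℝ) : ℂ) ^ (-(t * I))‖ =
      ‖∑ m ∈ range N, ee (|t| / (2 * Real.pi) * ((-1) ^ (k - 1) * Real.log (g m)))‖ := by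
  have hpi := Real.pi_pos
  have h0 : ∀ m, ee (|t| / (2 * Real.pi) * ((-1) ^ (k - 1) * Real.log (g m))) =
      Complex.exp ((((-1) ^ (k - 1) * |t|) * Real.log (g m) : ℝ) * I) := by
    intro m
    rw [WCl_ee]
    congr 2
    have h1 : 2 * Real.pi * (|t| / (2 * Real.pi) * ((-1) ^ (k - 1) * Real.log (g m))) =
        (-1) ^ (k - 1) * |t| * Real.log (g m) := by
      field_simp
    rw [h1]
  have hs : (-1 : ℝ) ^ (k - 1) * |t| = -t ∨ (-1 : ℝ) ^ (k - 1) * |t| = t := by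
    rcases neg_one_pow_eq_or ℝ (k - 1) with h | h <;> rcases abs_choice t with h' | h' <;>
      rw [h, h'] <;> simp
  rcases hs with hs | hs
  · congr 1
    refine Finset.sum_congr rfl fun m _ => ?_
    rw [h0, hs, WCl_term (hg m)]
    congr 2
    push_cast
    ring
  · have h2 : ∑ m ∈ range N, ee (|t| / (2 * Real.pi) * ((-1) ^ (k - 1) * Real.log (g m))) =
        (starRingEnd ℂ) (∑ m ∈ range N, ((g m : ℝ) : ℂ) ^ (-(t * I))) := by
      rw [map_sum]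
      refine Finset.sum_congr rfl fun m _ => ?_
      rw [h0, hs, WCl_term (hg m), ← Complex.exp_conj, map_mul, Complex.conj_ofReal,
        Complex.conj_I]
      congr 1
      push_cast
      ring
    rw [h2, RCLike.norm_conj]

theorem WCl_k {θ : ℝ} {K : ℕ} (hK : 1 / θ + 1 / 4 ≤ K) (hK2 : 2 ≤ K) {M t : ℝ}
    (hM : 1 ≤ M) (h1 : M ^ (1 / 2 : ℝ) ≤ |t|) (h2 : |t| ≤ M ^ (1 / θ)) :
    ∃ k : ℕ, 2 ≤ k ∧ k ≤ K ∧ M ^ ((k : ℝ) - 3 / 2) ≤ |t| ∧ |t| ≤ M ^ ((k : ℝ) - 1 / 4) := by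
  classical
  have hex : ∃ k : ℕ, 2 ≤ k ∧ |t| ≤ M ^ ((k : ℝ) - 1 / 4) :=
    ⟨K, hK2, h2.trans (Real.rpow_le_rpow_of_exponent_le hM (by linarith))⟩
  have hs := Nat.find_spec hex
  have hle : Nat.find hex ≤ K :=
    Nat.find_min' hex ⟨hK2, h2.trans (Real.rpow_le_rpow_of_exponent_le hM (by linarith))⟩
  obtain ⟨k, hk⟩ : ∃ k, k = Nat.find hex := ⟨_, rfl⟩
  rw [← hk] at hs hle
  refine ⟨k, hs.1, hle, ?_, hs.2⟩
  rcases Nat.lt_or_ge 2 k with h3 | h3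
  · have hm : k - 1 < Nat.find hex := by omega
    have h4 := Nat.find_min hex hm
    have h5 : M ^ (((k - 1 : ℕ) : ℝ) - 1 / 4) < |t| := by
      by_contra hcon
      push Not at hcon
      exact h4 ⟨by omega, hcon⟩
    refine le_trans (Real.rpow_le_rpow_of_exponent_le hM ?_) h5.le
    rw [Nat.cast_sub (by omega)]
    push_cast
    linarith only []
  · have h6 : k = 2 := le_antisymm h3 hs.1
    rw [h6]
    norm_num
    norm_num at h1
    exact h1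

/-- **Weyl bound in one residue class.**

Proof. Let `K = ⌈1 / θ⌉ + 2`. For every `k` with `2 ≤ k ≤ K` take the constants `c_k, C_k` of `vdck k` for `κ = 1 / 16` and `A = 4 ^ k`; let
`c = min (1 / 100) (min_k c_k / 2) / K`, small. For `M ≤ M₀` (a constant depending on `θ` only) the bound is trivial, as
`q N ≤ 2 M`. If `N ≤ M ^ (1 - c)` it is trivial too. Otherwise write `|t| = M ^ τ`, `1 / 2 ≤ τ ≤ 1 / θ` (as `M ^ (1/2) ≤ |t| ≤ X ≤ M ^ (1 / θ)`), and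
`k = max 2 ⌈τ + 1 / 4⌉ ≤ K`. Let `f m = ε (|t| / (2 π)) log (b + q m)` with the sign `ε = ± 1` such that the `k`-th
differences are positive (`fwdDiff_log`; `fwdDiff` is linear). Then `(b + q m) ^ (- i t) = ee (± f m)`
(`x ^ (- i t) = exp (- i t log x)` for `x > 0`), and a sum of conjugates is a conjugate, so it is enough to bound `∑_{m < N} ee (f m)`. For
`m < N`: `M ≤ b + q m` and `b + q (m + k) ≤ 3 M + q k ≤ 4 M` (`q ≤ M ^ c`, `M` large). So with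
`l = (|t| / (2 π)) (k - 1)! q ^ k / (4 M) ^ k` the hypothesis of `vdck` holds with `A = 4 ^ k`. Here
`l ≤ (k - 1)! M ^ (τ - k) q ^ k ≤ (k-1)! M ^ (-1/4 + 1/100) ≤ (2 M) ^ (-1/16) ≤ N ^ (-1/16)` for `M ≥ M₀`, since `τ - k ≤ -1 / 4` and
`q ^ k ≤ M ^ (c K) ≤ M ^ (1/100)`; and `l ≥ c' M ^ (τ - k) ≥ c' M ^ (-3 / 2)` (if `k = 2`: `τ ≥ 1/2`; if `k ≥ 3`: `k < τ + 5 / 4`), with
`c' = (k - 1)! / (2 π 4 ^ k) > 0`, which is at least `N ^ (-2 + 1/16)` since `N ≥ M ^ (1 - c) ≥ M ^ (99/100)` and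
`(99/100) (31/16) > 3/2`, `M ≥ M₀`. So the sum is at most `C_k N ^ (1 - c_k) ≤ C_k (2 M) ^ (1 - c_k) ≤ C M ^ (1 - c)`. -/
theorem weyl_class (θ : ℝ) (hθ : 0 < θ) (hθ1 : θ ≤ 1) : ∃ c C : ℝ, 0 < c ∧ c ≤ 1 / 4 ∧ 0 < C ∧
    ∀ X : ℝ, 1 ≤ X → ∀ t : ℝ, |t| ≤ X → ∀ M : ℝ, 1 ≤ M → X ^ θ ≤ M → M ^ (1 / 2 : ℝ) ≤ |t| →
    ∀ q : ℕ, 1 ≤ q → (q : ℝ) ≤ M ^ c → ∀ (b : ℝ) (N : ℕ), M ≤ b → b + q * N ≤ 3 * M →
    ‖∑ m ∈ range N, ((b + q * m : ℝ) : ℂ) ^ (-(t * I))‖ ≤ C * M ^ (1 - c) := by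
  have hpi := Real.pi_pos
  obtain ⟨K, hK, hK3⟩ : ∃ K : ℕ, 1 / θ + 1 / 4 ≤ K ∧ 3 ≤ K := by
    refine ⟨⌈1 / θ⌉₊ + 3, ?_, by omega⟩
    have := Nat.le_ceil (1 / θ)
    push_cast
    linarith
  have hK3' : (3 : ℝ) ≤ K := by exact_mod_cast hK3
  have hv : ∀ k : ℕ, 2 ≤ k → ∃ c C : ℝ, 0 < c ∧ c ≤ 1 ∧ 0 < C ∧
      ∀ (f : ℕ → ℝ) (N : ℕ) (l : ℝ), 1 ≤ N → (N : ℝ) ^ (-2 + (1 / 16 : ℝ)) ≤ l →
      l ≤ (N : ℝ) ^ (-(1 / 16 : ℝ)) →
      (∀ n < N, l ≤ (fwdDiff (1 : ℕ))^[k] f n ∧ (fwdDiff (1 : ℕ))^[k] f n ≤ (4 : ℝ) ^ k * l) →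
      ‖∑ n ∈ range N, ee (f n)‖ ≤ C * (N : ℝ) ^ (1 - c) := fun k hk =>
    vdck k hk (1 / 16) (by norm_num) (by norm_num) (4 ^ k) (one_le_pow₀ (by norm_num))
  choose! cf Cf hc0 hc1 hC0 hmain using hv
  obtain ⟨k0, hk0, hk0'⟩ := Finset.exists_min_image (Finset.Icc 2 K) cf
    ⟨2, Finset.mem_Icc.2 ⟨le_rfl, by omega⟩⟩
  obtain ⟨k1, hk1, hk1'⟩ := Finset.exists_max_image (Finset.Icc 2 K) Cf
    ⟨2, Finset.mem_Icc.2 ⟨le_rfl, by omega⟩⟩
  have hk0p := hc0 k0 (Finset.mem_Icc.1 hk0).1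
  have hk1p := hC0 k1 (Finset.mem_Icc.1 hk1).1
  obtain ⟨c, hcd⟩ : ∃ c : ℝ, c = min (1 / 100) (cf k0 / 2) / K := ⟨_, rfl⟩
  have hKp : (0 : ℝ) < K := by linarith
  have hc : 0 < c := by
    rw [hcd]
    exact div_pos (lt_min (by norm_num) (by linarith)) hKp
  have hcK : c * K = min (1 / 100) (cf k0 / 2) := by
    rw [hcd]
    field_simp
  have hcK1 : c * K ≤ 1 / 100 := by rw [hcK]; exact min_le_left _ _
  have hcK2 : c * K ≤ cf k0 / 2 := by rw [hcK]; exact min_le_right _ _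
  have hcc : c * 3 ≤ c * K := mul_le_mul_of_nonneg_left hK3' hc.le
  have hc100 : c ≤ 1 / 100 := by linarith
  have hcf : c ≤ cf k0 := by linarith
  obtain ⟨B, hBd⟩ : ∃ B : ℝ, B = 100 * 4 ^ K * (K.factorial : ℝ) := ⟨_, rfl⟩
  have hKf' : 1 ≤ K.factorial := Nat.factorial_pos K
  have hKf : (1 : ℝ) ≤ (K.factorial : ℝ) := by exact_mod_cast hKf'
  have h4K : (1 : ℝ) ≤ 4 ^ K := one_le_pow₀ (by norm_num)
  have hB1 : 1 ≤ B := by
    rw [hBd]
    nlinarith only [hKf, hc, h4K, hcK1, hcc]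
  have hB0 : 0 < B := by linarith
  refine ⟨c, 2 * B ^ 100 + 1 + 2 * Cf k1, hc, by linarith, by positivity, ?_⟩
  intro X hX t ht M hM hXM htM q hq hqM b N hMb hbN
  have hM0 : 0 < M := by linarith
  have hb0 : 0 < b := by linarith
  have hq1 : (1 : ℝ) ≤ q := by exact_mod_cast hq
  have hNn : (0 : ℝ) ≤ N := Nat.cast_nonneg N
  have hN2 : (N : ℝ) ≤ 2 * M := by nlinarith only [hq1, hbN, hMb]
  have hg : ∀ m : ℕ, 0 < b + q * (m : ℝ) := fun m => by positivity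
  have htriv : ‖∑ m ∈ range N, ((b + q * m : ℝ) : ℂ) ^ (-(t * I))‖ ≤ N := by
    refine (norm_sum_le _ _).trans ?_
    rw [Finset.sum_congr rfl fun m _ => WCl_norm (hg m) t]
    simp
  have hMc : 1 ≤ M ^ (1 - c) := Real.one_le_rpow hM (by linarith)
  have hB100 : (0 : ℝ) < B ^ 100 := by positivity
  rcases le_or_gt M (B ^ 100) with hMs | hMs
  · refine htriv.trans ?_
    have : 2 * B ^ 100 + 1 + 2 * Cf k1 ≤ (2 * B ^ 100 + 1 + 2 * Cf k1) * M ^ (1 - c) :=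
      le_mul_of_one_le_right (by positivity) hMc
    linarith
  rcases le_or_gt (N : ℝ) (M ^ (1 - c)) with hNs | hNs
  · refine htriv.trans ?_
    nlinarith only [hMc, hc, hB100, hNs, hk1p, hcK1, hcc]
  -- the main case
  have hBM : B ≤ M ^ (1 / 100 : ℝ) := by
    have h1 : (B ^ 100 : ℝ) ^ (1 / 100 : ℝ) = B := by
      rw [← Real.rpow_natCast B 100, ← Real.rpow_mul hB0.le]
      norm_num
    rw [← h1]
    exact Real.rpow_le_rpow hB100.le hMs.le (by norm_num)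
  have hN1 : 1 ≤ N := by
    have : (0 : ℝ) < N := by linarith
    exact_mod_cast this
  have hN1' : (1 : ℝ) ≤ N := by exact_mod_cast hN1
  have hN0 : (0 : ℝ) < N := by linarith
  have htX : |t| ≤ M ^ (1 / θ) := by
    refine ht.trans ?_
    have h1 : (X ^ θ) ^ (1 / θ) = X := by
      rw [← Real.rpow_mul (by linarith), mul_one_div_cancel hθ.ne', Real.rpow_one]
    rw [← h1]
    exact Real.rpow_le_rpow (by positivity) hXM (by positivity)
  obtain ⟨k, hk2, hkK, hkl, hku⟩ := WCl_k hK (by omega) hM htM htX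
  have hkmem : k ∈ Finset.Icc 2 K := Finset.mem_Icc.2 ⟨hk2, hkK⟩
  have hkK' : (k : ℝ) ≤ K := by exact_mod_cast hkK
  have hcq : (q : ℝ) ^ k ≤ M ^ (1 / 100 : ℝ) := by
    calc (q : ℝ) ^ k ≤ (M ^ c) ^ k := pow_le_pow_left₀ (by positivity) hqM k
      _ = M ^ (c * k) := by rw [Real.rpow_mul hM0.le, Real.rpow_natCast]
      _ ≤ M ^ (1 / 100 : ℝ) := by
        refine Real.rpow_le_rpow_of_exponent_le hM ?_
        have := mul_le_mul_of_nonneg_left hkK' hc.le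
        linarith
  have hq100 : (q : ℝ) ≤ M ^ (1 / 100 : ℝ) :=
    hqM.trans (Real.rpow_le_rpow_of_exponent_le hM hc100)
  have hKB : (K : ℝ) ≤ B := by
    have h1 : (K : ℝ) ≤ (K.factorial : ℝ) := by exact_mod_cast Nat.self_le_factorial K
    rw [hBd]
    nlinarith only [hK3', hc, h1, h4K, hcK1, hcc]
  have hqk : (q : ℝ) * k ≤ M := by
    have h1 : (k : ℝ) ≤ M ^ (1 / 100 : ℝ) := by linarith
    calc (q : ℝ) * k ≤ M ^ (1 / 100 : ℝ) * M ^ (1 / 100 : ℝ) :=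
          mul_le_mul hq100 h1 (by positivity) (by positivity)
      _ = M ^ (1 / 50 : ℝ) := by rw [← Real.rpow_add hM0]; norm_num
      _ ≤ M ^ (1 : ℝ) := Real.rpow_le_rpow_of_exponent_le hM (by norm_num)
      _ = M := Real.rpow_one M
  -- the parameter `l`
  obtain ⟨l, hl⟩ : ∃ l : ℝ, l = |t| / (2 * Real.pi) * (((k - 1).factorial : ℝ) * (q : ℝ) ^ k /
      (4 * M) ^ k) := ⟨_, rfl⟩
  have ht0 : 0 ≤ |t| / (2 * Real.pi) := by positivity
  have hfac : ((k - 1).factorial : ℝ) ≤ (K.factorial : ℝ) := by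
    exact_mod_cast Nat.factorial_le (by omega)
  have hfac1' : 1 ≤ (k - 1).factorial := Nat.factorial_pos _
  have hfac1 : (1 : ℝ) ≤ ((k - 1).factorial : ℝ) := by exact_mod_cast hfac1'
  have h4k : (1 : ℝ) ≤ 4 ^ k := one_le_pow₀ (by norm_num)
  have h4kK : (4 : ℝ) ^ k ≤ 4 ^ K := pow_le_pow_right₀ (by norm_num) hkK
  have hMk : M ^ k = M ^ (k : ℝ) := (Real.rpow_natCast M k).symm
  -- upper bound for `l`
  have hlu : l ≤ (N : ℝ) ^ (-(1 / 16 : ℝ)) := by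
    have h1 : |t| / (2 * Real.pi) ≤ M ^ ((k : ℝ) - 1 / 4) := by
      refine le_trans (div_le_self (abs_nonneg t) ?_) hku
      have := Real.pi_gt_three
      linarith
    have h2 : ((k - 1).factorial : ℝ) * (q : ℝ) ^ k / (4 * M) ^ k ≤
        (B / 2) * M ^ (1 / 100 : ℝ) / M ^ (k : ℝ) := by
      rw [← hMk]
      have h3 : M ^ k ≤ (4 * M) ^ k := by
        refine pow_le_pow_left₀ hM0.le ?_ k
        linarith only [hM, hc, hcK1, hcc]
      refine div_le_div₀ (by positivity) ?_ (by positivity) h3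
      refine mul_le_mul (hfac.trans ?_) hcq (by positivity) (by positivity)
      rw [hBd]
      nlinarith only [hK3', hc, h4K, hKB, hBd, hcK1, hcc]
    have h5 : l ≤ M ^ ((k : ℝ) - 1 / 4) * ((B / 2) * M ^ (1 / 100 : ℝ) / M ^ (k : ℝ)) := by
      rw [hl]
      exact mul_le_mul h1 h2 (by positivity) (by positivity)
    have h6 : M ^ ((k : ℝ) - 1 / 4) * ((B / 2) * M ^ (1 / 100 : ℝ) / M ^ (k : ℝ)) =
        (B / 2) * M ^ (-(6 / 25) : ℝ) := by
      have e1 : M ^ ((k : ℝ) - 1 / 4) * ((B / 2) * M ^ (1 / 100 : ℝ) / M ^ (k : ℝ)) =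
          (B / 2) * (M ^ ((k : ℝ) - 1 / 4) * M ^ (1 / 100 : ℝ) / M ^ (k : ℝ)) := by ring
      rw [e1, ← Real.rpow_add hM0, ← Real.rpow_sub hM0]
      congr 2
      ring
    have h7 : (B / 2) * M ^ (-(6 / 25) : ℝ) ≤ (1 / 2) * M ^ (-(1 / 16) : ℝ) := by
      calc (B / 2) * M ^ (-(6 / 25) : ℝ) ≤ (M ^ (1 / 100 : ℝ) / 2) * M ^ (-(6 / 25) : ℝ) := by
            refine mul_le_mul_of_nonneg_right (by linarith only [hBM]) (by positivity)
        _ = (1 / 2) * (M ^ (1 / 100 : ℝ) * M ^ (-(6 / 25) : ℝ)) := by ring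
        _ = (1 / 2) * M ^ (1 / 100 + -(6 / 25) : ℝ) := by rw [← Real.rpow_add hM0]
        _ ≤ (1 / 2) * M ^ (-(1 / 16) : ℝ) := by
          refine mul_le_mul_of_nonneg_left ?_ (by norm_num)
          exact Real.rpow_le_rpow_of_exponent_le hM (by norm_num)
    have h8 : (1 / 2) * M ^ (-(1 / 16) : ℝ) ≤ (N : ℝ) ^ (-(1 / 16 : ℝ)) := by
      have e1 : (2 * M) ^ (-(1 / 16) : ℝ) ≤ (N : ℝ) ^ (-(1 / 16 : ℝ)) :=
        Real.rpow_le_rpow_of_nonpos hN0 hN2 (by norm_num)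
      refine le_trans ?_ e1
      rw [Real.mul_rpow (by norm_num) hM0.le]
      refine mul_le_mul_of_nonneg_right ?_ (by positivity)
      have e2 : (2 : ℝ) ^ (-1 : ℝ) ≤ (2 : ℝ) ^ (-(1 / 16) : ℝ) :=
        Real.rpow_le_rpow_of_exponent_le (by norm_num) (by norm_num)
      refine le_trans (le_of_eq ?_) e2
      rw [Real.rpow_neg_one]
      norm_num
    linarith only [h6, h8, h7, h5]
  -- lower bound for `l`
  have hll : (N : ℝ) ^ (-2 + (1 / 16 : ℝ)) ≤ l := by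
    have h1 : M ^ ((k : ℝ) - 3 / 2) / (2 * Real.pi) ≤ |t| / (2 * Real.pi) :=
      div_le_div_of_nonneg_right hkl (by positivity)
    have h2 : 1 / (4 ^ K * M ^ (k : ℝ)) ≤
        ((k - 1).factorial : ℝ) * (q : ℝ) ^ k / (4 * M) ^ k := by
      rw [mul_pow, hMk]
      refine div_le_div₀ (by positivity) ?_ (by positivity) ?_
      · exact one_le_mul_of_one_le_of_one_le hfac1 (one_le_pow₀ hq1)
      · exact mul_le_mul_of_nonneg_right h4kK (by positivity)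
    have h3 : M ^ ((k : ℝ) - 3 / 2) / (2 * Real.pi) * (1 / (4 ^ K * M ^ (k : ℝ))) ≤ l := by
      rw [hl]
      exact mul_le_mul h1 h2 (by positivity) (by positivity)
    refine le_trans ?_ h3
    have h4 : M ^ ((k : ℝ) - 3 / 2) / (2 * Real.pi) * (1 / (4 ^ K * M ^ (k : ℝ))) =
        M ^ (-(3 / 2) : ℝ) / (2 * Real.pi * 4 ^ K) := by
      have e1 : M ^ ((k : ℝ) - 3 / 2) / (2 * Real.pi) * (1 / (4 ^ K * M ^ (k : ℝ))) =
          (M ^ ((k : ℝ) - 3 / 2) / M ^ (k : ℝ)) / (2 * Real.pi * 4 ^ K) := by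
        field_simp
      rw [e1, ← Real.rpow_sub hM0]
      congr 2
      ring
    rw [h4]
    have h5 : 2 * Real.pi * 4 ^ K ≤ M ^ (1 / 100 : ℝ) := by
      refine le_trans ?_ hBM
      rw [hBd]
      have := Real.pi_lt_four
      have e1 : 2 * Real.pi * 4 ^ K ≤ 100 * 4 ^ K :=
        mul_le_mul_of_nonneg_right (by linarith only [hc, this, hcK1, hcc]) (by positivity)
      have e2 : (100 * 4 ^ K : ℝ) ≤ 100 * 4 ^ K * (K.factorial : ℝ) :=
        le_mul_of_one_le_right (by positivity) hKf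
      linarith only [e2, e1]
    have h6 : M ^ (-(3 / 2) : ℝ) / M ^ (1 / 100 : ℝ) ≤
        M ^ (-(3 / 2) : ℝ) / (2 * Real.pi * 4 ^ K) :=
      div_le_div_of_nonneg_left (by positivity) (by positivity) h5
    refine le_trans ?_ h6
    rw [← Real.rpow_sub hM0]
    have h7 : (N : ℝ) ^ (-2 + (1 / 16 : ℝ)) ≤ (M ^ (1 - c)) ^ (-2 + (1 / 16 : ℝ)) :=
      Real.rpow_le_rpow_of_nonpos (by positivity) hNs.le (by norm_num)
    refine h7.trans ?_
    rw [← Real.rpow_mul hM0.le]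
    refine Real.rpow_le_rpow_of_exponent_le hM ?_
    linarith only [hc, hcK1, hcc]
  -- the differences
  have hdiff : ∀ m < N,
      l ≤ (fwdDiff (1 : ℕ))^[k]
        (fun m : ℕ => |t| / (2 * Real.pi) * ((-1) ^ (k - 1) * Real.log (b + q * (m : ℝ)))) m ∧
      (fwdDiff (1 : ℕ))^[k]
        (fun m : ℕ => |t| / (2 * Real.pi) * ((-1) ^ (k - 1) * Real.log (b + q * (m : ℝ)))) m ≤
        (4 : ℝ) ^ k * l := by
    intro m hm
    have hm' : (m : ℝ) ≤ N := by exact_mod_cast hm.le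
    have e1 : (fwdDiff (1 : ℕ))^[k]
        (fun m : ℕ => |t| / (2 * Real.pi) * ((-1) ^ (k - 1) * Real.log (b + q * (m : ℝ)))) m =
        |t| / (2 * Real.pi) * ((-1) ^ (k - 1) *
          (fwdDiff (1 : ℕ))^[k] (fun j : ℕ => Real.log (b + q * j)) m) := by
      have e2 : (fun m : ℕ => |t| / (2 * Real.pi) * ((-1) ^ (k - 1) *
          Real.log (b + q * (m : ℝ)))) = (|t| / (2 * Real.pi) * (-1) ^ (k - 1)) •
          (fun j : ℕ => Real.log (b + q * (j : ℝ))) := by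
        funext j
        simp only [Pi.smul_apply, smul_eq_mul]
        ring
      rw [e2, fwdDiff_iter_const_smul]
      simp only [Pi.smul_apply, smul_eq_mul]
      ring
    rw [e1]
    obtain ⟨g1, g2⟩ := fwdDiff_log b hb0 q hq k (by omega) m
    have hup : b + q * ((m : ℝ) + k) ≤ 4 * M := by
      have : (q : ℝ) * m ≤ q * N := mul_le_mul_of_nonneg_left hm' (by positivity)
      rw [mul_add]
      linarith only [hbN, hqk, this]
    have hlo : M ≤ b + q * (m : ℝ) := by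
      have : (0 : ℝ) ≤ q * m := by positivity
      linarith only [hMb, this]
    constructor
    · rw [hl]
      refine mul_le_mul_of_nonneg_left (le_trans ?_ g1) ht0
      refine div_le_div_of_nonneg_left (by positivity) (by positivity) ?_
      exact pow_le_pow_left₀ (by positivity) hup k
    · have e3 : (4 : ℝ) ^ k * l = |t| / (2 * Real.pi) *
          (((k - 1).factorial : ℝ) * (q : ℝ) ^ k / M ^ k) := by
        rw [hl, mul_pow]
        field_simp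
      rw [e3]
      refine mul_le_mul_of_nonneg_left (g2.trans ?_) ht0
      refine div_le_div_of_nonneg_left (by positivity) (by positivity) ?_
      exact pow_le_pow_left₀ hM0.le hlo k
  have hfin := hmain k hk2 _ N l hN1 hll hlu hdiff
  have hsum := WCl_sum (fun m : ℕ => b + q * (m : ℝ)) hg t k N
  rw [hsum]
  refine hfin.trans ?_
  have hck := hk0' k hkmem
  have hCk := hk1' k hkmem
  have hck1 := hc1 k hk2
  have h1 : (N : ℝ) ^ (1 - cf k) ≤ 2 * M ^ (1 - c) := by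
    calc (N : ℝ) ^ (1 - cf k) ≤ (2 * M) ^ (1 - cf k) :=
          Real.rpow_le_rpow hN0.le hN2 (by linarith only [hck1])
      _ = 2 ^ (1 - cf k) * M ^ (1 - cf k) := Real.mul_rpow (by norm_num) hM0.le
      _ ≤ 2 * M ^ (1 - c) := by
        refine mul_le_mul ?_ (Real.rpow_le_rpow_of_exponent_le hM (by linarith only [hcK2, hc, hck, hcc]))
          (by positivity) (by norm_num)
        have h2 := hc0 k hk2
        calc (2 : ℝ) ^ (1 - cf k) ≤ (2 : ℝ) ^ (1 : ℝ) :=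
              Real.rpow_le_rpow_of_exponent_le (by norm_num) (by linarith only [hcK2, hc, hck, hcc])
          _ = 2 := Real.rpow_one 2
  calc Cf k * (N : ℝ) ^ (1 - cf k) ≤ Cf k1 * (2 * M ^ (1 - c)) :=
        mul_le_mul hCk h1 (by positivity) hk1p.le
    _ = 2 * Cf k1 * M ^ (1 - c) := by ring
    _ ≤ (2 * B ^ 100 + 1 + 2 * Cf k1) * M ^ (1 - c) :=
        mul_le_mul_of_nonneg_right (by linarith only [hc, hB100, hcK1, hcc]) (by positivity)

end Pool.Agent.PSG
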