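import Pool.Agent.W_b58c63_h44.Df

/-!
# One residue class, `t` small
-/

set_option autoImplicit false

noncomputable section

open Finset Complex

namespace Pool.Agent.PSG

/-- The coefficients: the indicator of the residue class. -/
def WSm_c (q a : ℕ) (n : ℕ) : ℂ := if n % q = a % q then 1 else 0

theorem WSm_hasDeriv (t : ℝ) {x : ℝ} (hx : 0 < x) :
    HasDerivAt (fun y : ℝ => (y : ℂ) ^ (-(t * I))) (-(t * I) * (x : ℂ) ^ (-(t * I) - 1)) x := by
  have h1 : HasDerivAt (fun z : ℂ => z ^ (-(t * I))) (-(t * I) * (x : ℂ) ^ (-(t * I) - 1)) (x : ℂ) := by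
    have := (hasDerivAt_id (x : ℂ)).cpow_const (c := -(t * I)) (Or.inl (by simpa using hx))
    simpa using this
  exact h1.comp_ofReal

theorem WSm_norm_deriv (t : ℝ) {x : ℝ} (hx : 0 < x) :
    ‖-(t * I) * (x : ℂ) ^ (-(t * I) - 1)‖ = |t| * x⁻¹ := by
  rw [norm_mul, norm_neg, norm_mul, Complex.norm_I, mul_one, Complex.norm_real, Real.norm_eq_abs,
    Complex.norm_cpow_eq_rpow_re_of_pos hx]
  congr 1
  have : (-((t : ℂ) * I) - 1).re = -1 := by simp
  rw [this, Real.rpow_neg_one]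

theorem WSm_norm (t : ℝ) {x : ℝ} (hx : 0 < x) : ‖(x : ℂ) ^ (-(t * I))‖ = 1 := by
  rw [Complex.norm_cpow_eq_rpow_re_of_pos hx]
  have : (-((t : ℂ) * I)).re = 0 := by simp
  rw [this, Real.rpow_zero]

theorem WSm_count (q : ℕ) (hq : 1 ≤ q) (a : ℕ) (x : ℝ) (hx : 0 ≤ x) :
    ‖∑ k ∈ Icc 0 ⌊x⌋₊, WSm_c q a k - ((x / q : ℝ) : ℂ)‖ ≤ 1 := by
  have h1 : ∑ k ∈ Icc 0 ⌊x⌋₊, WSm_c q a k =
      (((⌊x⌋₊ + 1).count (· ≡ a [MOD q]) : ℕ) : ℂ) := by
    rw [Nat.count_eq_card_filter_range, Finset.card_filter]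
    push_cast
    refine Finset.sum_congr ?_ (fun k _ => rfl)
    ext k
    simp only [Finset.mem_Icc, Finset.mem_range]
    omega
  rw [h1, Nat.count_modEq_card _ (by omega)]
  set b : ℕ := ⌊x⌋₊ + 1 with hb
  have hq0 : (0 : ℝ) < q := by exact_mod_cast hq
  have hbx : x < b := by rw [hb]; push_cast; exact Nat.lt_floor_add_one x
  have hbx2 : (b : ℝ) - 1 ≤ x := by rw [hb]; push_cast; linarith [Nat.floor_le hx]
  have hdm : (b : ℝ) = q * (b / q : ℕ) + (b % q : ℕ) := by
    exact_mod_cast (Nat.div_add_mod b q).symm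
  have hR : ((b % q : ℕ) : ℝ) + 1 ≤ q := by exact_mod_cast Nat.mod_lt b hq
  have hR0 : (0 : ℝ) ≤ ((b % q : ℕ) : ℝ) := Nat.cast_nonneg _
  have h2 : ((((b / q + if a % q < b % q then 1 else 0 : ℕ)) : ℂ) - ((x / q : ℝ) : ℂ)) =
      ((((b / q : ℕ) : ℝ) + (if a % q < b % q then 1 else 0 : ℝ) - x / q : ℝ) : ℂ) := by
    split_ifs <;> push_cast <;> ring
  rw [h2, Complex.norm_real, Real.norm_eq_abs, abs_le]
  split_ifs with hlt
  · have hR1 : (1 : ℝ) ≤ ((b % q : ℕ) : ℝ) := by exact_mod_cast (by omega : 1 ≤ b % q)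
    constructor
    · have : x / q ≤ ((b / q : ℕ) : ℝ) + 1 := by
        rw [div_le_iff₀ hq0]
        nlinarith
      linarith
    · have : ((b / q : ℕ) : ℝ) ≤ x / q := by
        rw [le_div_iff₀ hq0]
        nlinarith
      linarith
  · constructor
    · have : x / q ≤ ((b / q : ℕ) : ℝ) + 1 := by
        rw [div_le_iff₀ hq0]
        nlinarith
      linarith
    · have : ((b / q : ℕ) : ℝ) - 1 ≤ x / q := by
        rw [le_div_iff₀ hq0]
        have : (1 : ℝ) ≤ q := by exact_mod_cast hq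
        nlinarith
      linarith

/-- Comparison of the sum over a residue class with the integral.

Proof. Let `g x = x ^ (- i t)`, `‖g x‖ = 1`, `‖g' x‖ = |t| / x` for `x > 0`. If `q > M` there is at most... at most two
elements of the class in `(M, 2 M]` and `(1 / q) ∫ ≤ 1`, so the left side is at most `3`. Let `q ≤ M`. For an element `n` of the class
in `(M, M']` with `n + q ≤ M'`: `‖q g n - ∫_n^{n+q} g‖ ≤ q ∫_n^{n+q} |t| / x dx`. Adding over the class, the sum of
`g n` differs from `(1 / q) ∫` over the union of the intervals `[n, n + q]` by at most `∫_M^{2 M} |t| / x dx = |t| log 2`. The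
remaining parts of `[M, M']` (before the first element and after the last one) have total length at most `2 q`, and contribute at most `2`;
the last element contributes at most `1`. Total at most `3 + |t|`. -/
theorem class_small (t : ℝ) (M M' : ℝ) (hM : 1 ≤ M) (h1 : M ≤ M') (h2 : M' ≤ 2 * M) (q : ℕ) (hq : 1 ≤ q) (a : ℕ) :
    ‖∑ n ∈ (Ioc ⌊M⌋₊ ⌊M'⌋₊).filter (fun n => n % q = a % q), (n : ℂ) ^ (-(t * I)) -
      (1 / (q : ℂ)) * ∫ x in M..M', (x : ℂ) ^ (-(t * I))‖ ≤ 4 * (1 + |t|) := by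
  set g : ℝ → ℂ := fun y : ℝ => (y : ℂ) ^ (-(t * I)) with hg
  set g' : ℝ → ℂ := fun x : ℝ => -(t * I) * (x : ℂ) ^ (-(t * I) - 1) with hg'
  have hM0 : 0 < M := by linarith
  have hpos : ∀ x ∈ Set.Icc M M', 0 < x := fun x hx => hM0.trans_le hx.1
  have hd : ∀ x ∈ Set.Icc M M', HasDerivAt g (g' x) x := fun x hx => WSm_hasDeriv t (hpos x hx)
  have hderiv : ∀ x ∈ Set.Icc M M', deriv g x = g' x := fun x hx => (hd x hx).deriv
  have hg'c : ContinuousOn g' (Set.Icc M M') := by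
    intro x hx
    have hx0 := hpos x hx
    refine ContinuousAt.continuousWithinAt ?_
    exact continuousAt_const.mul (Complex.continuousAt_ofReal_cpow_const _ _ (Or.inr hx0.ne'))
  have hgc : ContinuousOn g (Set.Icc M M') := fun x hx => (hd x hx).continuousAt.continuousWithinAt
  have hInt : MeasureTheory.IntegrableOn (deriv g) (Set.Icc M M') :=
    (hg'c.integrableOn_Icc).congr_fun (fun x hx => (hderiv x hx).symm) measurableSet_Icc
  set A : ℝ → ℂ := fun x => ∑ k ∈ Icc 0 ⌊x⌋₊, WSm_c q a k with hA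
  have habel := sum_mul_eq_sub_sub_integral_mul (WSm_c q a) hM0.le h1
    (fun x hx => (hd x hx).differentiableAt) hInt
  have hsum : ∑ n ∈ (Ioc ⌊M⌋₊ ⌊M'⌋₊).filter (fun n => n % q = a % q), (n : ℂ) ^ (-(t * I)) =
      ∑ k ∈ Ioc ⌊M⌋₊ ⌊M'⌋₊, g k * WSm_c q a k := by
    rw [Finset.sum_filter]
    refine Finset.sum_congr rfl (fun n _ => ?_)
    unfold WSm_c
    split_ifs
    · simp [hg]
    · simp
  have hAint : IntervalIntegrable (fun x => g' x * A x) MeasureTheory.volume M M' := by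
    rw [intervalIntegrable_iff_integrableOn_Icc_of_le h1]
    exact integrableOn_mul_sum_Icc (WSm_c q a) hM0.le hg'c.integrableOn_Icc
  have hBint : IntervalIntegrable (fun x : ℝ => g' x * ((x / q : ℝ) : ℂ)) MeasureTheory.volume M M' := by
    refine ContinuousOn.intervalIntegrable ?_
    rw [Set.uIcc_of_le h1]
    exact hg'c.mul (by fun_prop)
  have hgint : IntervalIntegrable g MeasureTheory.volume M M' := by
    refine ContinuousOn.intervalIntegrable ?_
    rw [Set.uIcc_of_le h1]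
    exact hgc
  have hparts : (1 / (q : ℂ)) * ∫ x in M..M', g x =
      g M' * ((M' / q : ℝ) : ℂ) - g M * ((M / q : ℝ) : ℂ) - ∫ x in M..M', g' x * ((x / q : ℝ) : ℂ) := by
    have hd2 : ∀ x ∈ Set.uIcc M M', HasDerivAt (fun y : ℝ => g y * ((y / q : ℝ) : ℂ))
        (g' x * ((x / q : ℝ) : ℂ) + g x * (1 / (q : ℂ))) x := by
      intro x hx
      rw [Set.uIcc_of_le h1] at hx
      have h3 : HasDerivAt (fun y : ℝ => ((y / q : ℝ) : ℂ)) (1 / (q : ℂ)) x := by
        have h4 : HasDerivAt (fun y : ℝ => y / (q : ℝ)) (1 / (q : ℝ)) x := (hasDerivAt_id x).div_const _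
        have h5 := h4.ofReal_comp
        simpa using h5
      exact (hd x hx).mul h3
    have h6 := intervalIntegral.integral_eq_sub_of_hasDerivAt hd2
      (hBint.add (hgint.mul_const _))
    rw [intervalIntegral.integral_add hBint (hgint.mul_const _), intervalIntegral.integral_mul_const] at h6
    linear_combination h6
  have hcongr : ∫ x in Set.Ioc M M', deriv g x * ∑ k ∈ Icc 0 ⌊x⌋₊, WSm_c q a k =
      ∫ x in M..M', g' x * A x := by
    rw [intervalIntegral.integral_of_le h1]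
    refine MeasureTheory.setIntegral_congr_fun measurableSet_Ioc (fun x hx => ?_)
    show deriv g x * _ = g' x * _
    rw [hderiv x (Set.Ioc_subset_Icc_self hx)]
  have hkey : ∑ n ∈ (Ioc ⌊M⌋₊ ⌊M'⌋₊).filter (fun n => n % q = a % q), (n : ℂ) ^ (-(t * I)) -
      (1 / (q : ℂ)) * ∫ x in M..M', g x =
      g M' * (A M' - ((M' / q : ℝ) : ℂ)) - g M * (A M - ((M / q : ℝ) : ℂ)) -
        ∫ x in M..M', g' x * (A x - ((x / q : ℝ) : ℂ)) := by
    have h7 : ∫ x in M..M', g' x * (A x - ((x / q : ℝ) : ℂ)) =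
        (∫ x in M..M', g' x * A x) - ∫ x in M..M', g' x * ((x / q : ℝ) : ℂ) := by
      rw [← intervalIntegral.integral_sub hAint hBint]
      refine intervalIntegral.integral_congr (fun x _ => ?_)
      show g' x * (A x - ((x / q : ℝ) : ℂ)) = g' x * A x - g' x * ((x / q : ℝ) : ℂ)
      ring
    rw [hsum, habel, hcongr, hparts, h7]
    ring
  have hAb : ∀ x : ℝ, 0 ≤ x → ‖A x - ((x / q : ℝ) : ℂ)‖ ≤ 1 := fun x hx => WSm_count q hq a x hx
  have hb1 : ‖g M' * (A M' - ((M' / q : ℝ) : ℂ))‖ ≤ 1 := by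
    rw [norm_mul, hg]
    simp only
    rw [WSm_norm t (by linarith), one_mul]
    exact hAb _ (by linarith)
  have hb2 : ‖g M * (A M - ((M / q : ℝ) : ℂ))‖ ≤ 1 := by
    rw [norm_mul, hg]
    simp only
    rw [WSm_norm t hM0, one_mul]
    exact hAb _ hM0.le
  have hb3 : ‖∫ x in M..M', g' x * (A x - ((x / q : ℝ) : ℂ))‖ ≤ |t| := by
    have h8 : ∀ x ∈ Set.uIoc M M', ‖g' x * (A x - ((x / q : ℝ) : ℂ))‖ ≤ |t| * M⁻¹ := by
      intro x hx
      rw [Set.uIoc_of_le h1] at hx
      have hx0 : 0 < x := hM0.trans hx.1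
      rw [norm_mul, hg']
      simp only
      rw [WSm_norm_deriv t hx0]
      calc |t| * x⁻¹ * ‖A x - ((x / q : ℝ) : ℂ)‖ ≤ |t| * M⁻¹ * 1 := by
            gcongr
            · exact hx.1.le
            · exact hAb x hx0.le
        _ = _ := mul_one _
    refine (intervalIntegral.norm_integral_le_of_norm_le_const h8).trans ?_
    rw [abs_of_nonneg (show 0 ≤ M' - M by linarith)]
    calc |t| * M⁻¹ * (M' - M) ≤ |t| * M⁻¹ * M := by
          gcongr
          linarith
      _ = |t| := by field_simp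
  rw [hkey]
  calc ‖g M' * (A M' - ((M' / q : ℝ) : ℂ)) - g M * (A M - ((M / q : ℝ) : ℂ)) -
        ∫ x in M..M', g' x * (A x - ((x / q : ℝ) : ℂ))‖
      ≤ ‖g M' * (A M' - ((M' / q : ℝ) : ℂ)) - g M * (A M - ((M / q : ℝ) : ℂ))‖ +
        ‖∫ x in M..M', g' x * (A x - ((x / q : ℝ) : ℂ))‖ := norm_sub_le _ _
    _ ≤ (1 + 1) + |t| := add_le_add ((norm_sub_le _ _).trans (add_le_add hb1 hb2)) hb3
    _ ≤ 4 * (1 + |t|) := by
        have := abs_nonneg t
        linarith

end Pool.Agent.PSG
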