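import Pool.Agent.W_b58c63_h44.WCl
import Pool.Agent.W_b58c63_h44.WSm

/-!
# The Weyl bound for periodic functions
-/

set_option autoImplicit false

noncomputable section

open Finset Complex

namespace Pool.Agent.PSG

theorem Weyl_param (q : ℕ) (hq : 1 ≤ q) (A B a : ℕ) (hAB : A ≤ B) : ∃ b N : ℕ, A < b ∧
    b + q * N ≤ B + q ∧ ∀ F : ℕ → ℂ,
      ∑ n ∈ (Ioc A B).filter (fun n => n % q = a % q), F n = ∑ m ∈ range N, F (b + q * m) := by
  obtain ⟨b, hb1, hb2, hb3⟩ : ∃ b, A < b ∧ b ≤ A + q ∧ b % q = a % q := by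
    refine ⟨A + 1 + (a + q * (A + 1) - (A + 1)) % q, by omega, ?_, ?_⟩
    · have := Nat.mod_lt (a + q * (A + 1) - (A + 1)) hq
      omega
    · have h1 : A + 1 ≤ q * (A + 1) := Nat.le_mul_of_pos_left _ hq
      rw [Nat.add_mod, Nat.mod_mod, ← Nat.add_mod,
        show A + 1 + (a + q * (A + 1) - (A + 1)) = a + q * (A + 1) by omega,
        Nat.add_mul_mod_self_left]
  refine ⟨b, (B + q - b) / q, hb1, ?_, fun F => ?_⟩
  · have := Nat.mul_div_le (B + q - b) q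
    omega
  · have hset : (Ioc A B).filter (fun n => n % q = a % q) =
        (range ((B + q - b) / q)).image (fun m => b + q * m) := by
      ext n
      rw [mem_filter, mem_Ioc, mem_image]
      constructor
      · rintro ⟨⟨h1, h2⟩, h3⟩
        have hmod : n % q = b % q := by rw [h3, hb3]
        have hbn : b ≤ n := by
          by_contra h4
          push Not at h4
          have h5 : q ∣ b - n := (Nat.modEq_iff_dvd' h4.le).1 hmod
          have h6 := Nat.le_of_dvd (by omega) h5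
          omega
        have h7 : q ∣ n - b := (Nat.modEq_iff_dvd' hbn).1 hmod.symm
        obtain ⟨m, hm⟩ := h7
        refine ⟨m, ?_, by omega⟩
        rw [mem_range, Nat.lt_iff_add_one_le, Nat.le_div_iff_mul_le hq]
        have h8 : (m + 1) * q = q * m + q := by ring
        omega
      · rintro ⟨m, hm, rfl⟩
        rw [mem_range, Nat.lt_iff_add_one_le, Nat.le_div_iff_mul_le hq] at hm
        have h8 : (m + 1) * q = q * m + q := by ring
        refine ⟨⟨by omega, by omega⟩, ?_⟩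
        rw [Nat.add_mul_mod_self_left, hb3]
    rw [hset, sum_image]
    intro m _ m' _ h
    have h1 : q * m = q * m' := by
      have h2 : b + q * m = b + q * m' := h
      omega
    exact Nat.eq_of_mul_eq_mul_left hq h1

theorem Weyl_re (t : ℝ) : (-((t : ℂ) * I)).re = 0 := by simp

theorem Weyl_norm (t : ℝ) {x : ℝ} (hx : 0 < x) : ‖(x : ℂ) ^ (-((t : ℂ) * I))‖ = 1 := by
  rw [Complex.norm_cpow_eq_rpow_re_of_pos hx, Weyl_re, Real.rpow_zero]

theorem Weyl_norm_nat (t : ℝ) {n : ℕ} (hn : 0 < n) : ‖(n : ℂ) ^ (-((t : ℂ) * I))‖ = 1 := by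
  have h := Weyl_norm t (x := (n : ℝ)) (by exact_mod_cast hn)
  rwa [Complex.ofReal_natCast] at h

theorem Weyl_int1 (t M M' : ℝ) (hM : 1 ≤ M) (h1 : M ≤ M') :
    ‖∫ x in M..M', (x : ℂ) ^ (-((t : ℂ) * I))‖ ≤ M' - M := by
  have h := intervalIntegral.norm_integral_le_of_norm_le_const (a := M) (b := M') (C := 1)
    (f := fun x : ℝ => (x : ℂ) ^ (-((t : ℂ) * I))) (fun x hx => by
      rw [Set.uIoc_of_le h1] at hx
      exact (Weyl_norm t (by linarith [hx.1])).le)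
  rwa [one_mul, abs_of_nonneg (by linarith)] at h

theorem Weyl_int2 (t M M' : ℝ) (hM : 1 ≤ M) (h1 : M ≤ M') (ht : 0 < |t|) :
    ‖∫ x in M..M', (x : ℂ) ^ (-((t : ℂ) * I))‖ ≤ (M' + M) / |t| := by
  rw [integral_cpow (Or.inl (by rw [Weyl_re]; norm_num)), norm_div]
  have hre : (-((t : ℂ) * I) + 1).re = 1 := by rw [Complex.add_re, Weyl_re, Complex.one_re, zero_add]
  have him : (-((t : ℂ) * I) + 1).im = -t := by simp
  have h2 : ‖(M' : ℂ) ^ (-((t : ℂ) * I) + 1) - (M : ℂ) ^ (-((t : ℂ) * I) + 1)‖ ≤ M' + M := by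
    refine (norm_sub_le _ _).trans ?_
    rw [Complex.norm_cpow_eq_rpow_re_of_pos (by linarith), hre, Real.rpow_one,
      Complex.norm_cpow_eq_rpow_re_of_pos (by linarith), hre, Real.rpow_one]
  have h3 : |t| ≤ ‖-((t : ℂ) * I) + 1‖ := by
    have := Complex.abs_im_le_norm (-((t : ℂ) * I) + 1)
    rwa [him, abs_neg] at this
  exact div_le_div₀ (by linarith) h2 ht h3

theorem Weyl_per {q : ℕ} {f : ℕ → ℂ} (hf : ∀ n, f (n + q) = f n) (n : ℕ) : f n = f (n % q) := by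
  have h : ∀ k r : ℕ, f (r + q * k) = f r := by
    intro k r
    induction k with
    | zero => rw [Nat.mul_zero, Nat.add_zero]
    | succ k ih => rw [Nat.mul_succ, ← Nat.add_assoc, hf, ih]
  conv_lhs => rw [← Nat.mod_add_div n q]
  exact h _ _

theorem Weyl_group {q : ℕ} (hq : 1 ≤ q) {f : ℕ → ℂ} (hf : ∀ n, f (n + q) = f n) (S : Finset ℕ)
    (g : ℕ → ℂ) (J : ℂ) : ∑ n ∈ S, f n * g n - mean q f * J =
      ∑ a ∈ range q, f a * (∑ n ∈ S.filter (fun n => n % q = a % q), g n - (1 / (q : ℂ)) * J) := by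
  have h1 : ∑ n ∈ S, f n * g n = ∑ a ∈ range q, f a * ∑ n ∈ S.filter (fun n => n % q = a % q), g n := by
    rw [← sum_fiberwise_of_maps_to (g := fun n => n % q) (t := range q)
      (fun n _ => mem_range.2 (Nat.mod_lt n hq))]
    refine sum_congr rfl fun a ha => ?_
    rw [mul_sum, Nat.mod_eq_of_lt (mem_range.1 ha)]
    refine sum_congr rfl fun n hn => ?_
    rw [Weyl_per hf n, (mem_filter.1 hn).2]
  have h2 : mean q f * J = ∑ a ∈ range q, f a * ((1 / (q : ℂ)) * J) := by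
    rw [← sum_mul]
    unfold mean
    ring
  rw [h1, h2, ← sum_sub_distrib]
  refine sum_congr rfl fun a _ => ?_
  ring

theorem Weyl_mean {q : ℕ} (hq : 1 ≤ q) {f : ℕ → ℂ} (hf : ∀ n, ‖f n‖ ≤ 1) : ‖mean q f‖ ≤ 1 := by
  unfold mean
  have hq0 : (0 : ℝ) < q := by exact_mod_cast hq
  rw [norm_div, Complex.norm_natCast, div_le_one hq0]
  refine (norm_sum_le _ _).trans ((sum_le_sum fun a _ => hf a).trans ?_)
  rw [sum_const, card_range, nsmul_eq_mul, mul_one]

/-- **The Weyl bound** for `∑ f(n) n ^ (-i t)`, `f` periodic, `|t| ≤ X`, length at least `X ^ θ`.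

Proof. Take `c, C₁` from `weyl_class θ`. There are at most `M + 1 ≤ 2 M` integers in `(M, M']`, so the left side is at most `3 M` always
(`‖mean q f‖ ≤ 1`, the integrand has norm `1`). If `q > M ^ c` this is at most `3 q M ^ (1 - c) ≤ 3 q ^ 2 M ^ (1 - c)`. Let `q ≤ M ^ c`. Group the
sum by the residue class `a` modulo `q`, `f n = f a` there (periodicity: `f n = f (n % q)`). If `|t| < M ^ (1/2)`, `class_small` for
each class gives the error `q 4 (1 + |t|) ≤ 8 q M ^ (1/2) ≤ 8 q ^ 2 M ^ (1 - c)`. If `|t| ≥ M ^ (1/2)`: the elements of a class in `(M, M']` are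
`b + q m`, `m < N` with `b > M` the first one, and `b + q N ≤ M' + q ≤ 3 M`, so `weyl_class` bounds every class sum by
`C₁ M ^ (1 - c)`, in total `q C₁ M ^ (1 - c)`, and the integral is `(M' ^ (1 - i t) - M ^ (1 - i t)) / (1 - i t)` (`integral_cpow`), of norm at most
`3 M / |t| ≤ 3 M ^ (1/2) ≤ 3 M ^ (1 - c)`. -/
theorem weyl (θ : ℝ) (hθ : 0 < θ) (hθ1 : θ ≤ 1) : ∃ c C : ℝ, 0 < c ∧ c ≤ 1 / 4 ∧ 0 < C ∧
    ∀ X : ℝ, 1 ≤ X → ∀ t : ℝ, |t| ≤ X → ∀ q : ℕ, 1 ≤ q → ∀ f : ℕ → ℂ, (∀ n, f (n + q) = f n) → (∀ n, ‖f n‖ ≤ 1) →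
    ∀ M M' : ℝ, 1 ≤ M → X ^ θ ≤ M → M ≤ M' → M' ≤ 2 * M →
    ‖∑ n ∈ Ioc ⌊M⌋₊ ⌊M'⌋₊, f n * (n : ℂ) ^ (-(t * I)) - mean q f * ∫ x in M..M', (x : ℂ) ^ (-(t * I))‖ ≤
      C * (q : ℝ) ^ 2 * M ^ (1 - c) := by
  obtain ⟨c, C₁, hc, hc4, hC₁, hW⟩ := weyl_class θ hθ hθ1
  refine ⟨c, C₁ + 11, hc, hc4, by linarith, ?_⟩
  intro X hX t ht q hq f hf hf1 M M' hM hXM hMM' hM'
  have hM0 : 0 < M := by linarith
  have hq1 : (1 : ℝ) ≤ q := by exact_mod_cast hq
  have hMc : 0 < M ^ (1 - c) := Real.rpow_pos_of_pos hM0 _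
  have hq2 : (q : ℝ) ≤ (q : ℝ) ^ 2 := by nlinarith
  have hhalf : M ^ (1 / 2 : ℝ) ≤ M ^ (1 - c) := Real.rpow_le_rpow_of_exponent_le hM (by linarith)
  have hsplit : M ^ c * M ^ (1 - c) = M := by
    rw [← Real.rpow_add hM0, add_sub_cancel, Real.rpow_one]
  have hAB : ⌊M⌋₊ ≤ ⌊M'⌋₊ := Nat.floor_le_floor hMM'
  by_cases hqc : (q : ℝ) ≤ M ^ c
  · rw [Weyl_group hq hf]
    by_cases htM : |t| < M ^ (1 / 2 : ℝ)
    · have hb : ∀ a ∈ range q, ‖f a * (∑ n ∈ (Ioc ⌊M⌋₊ ⌊M'⌋₊).filter (fun n => n % q = a % q),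
          (n : ℂ) ^ (-(t * I)) - (1 / (q : ℂ)) * ∫ x in M..M', (x : ℂ) ^ (-(t * I)))‖ ≤
          8 * M ^ (1 - c) := by
        intro a _
        rw [norm_mul]
        have h1 := class_small t M M' hM hMM' hM' q hq a
        have h2 : (1 : ℝ) ≤ M ^ (1 / 2 : ℝ) := Real.one_le_rpow hM (by norm_num)
        refine (mul_le_of_le_one_left (norm_nonneg _) (hf1 a)).trans (h1.trans ?_)
        linarith
      refine (norm_sum_le _ _).trans ((sum_le_sum hb).trans ?_)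
      rw [sum_const, card_range, nsmul_eq_mul]
      have h3 : (q : ℝ) * (8 * M ^ (1 - c)) ≤ (q : ℝ) ^ 2 * (8 * M ^ (1 - c)) :=
        mul_le_mul_of_nonneg_right hq2 (by positivity)
      refine h3.trans ?_
      have h4 : 0 ≤ (q : ℝ) ^ 2 * M ^ (1 - c) := by positivity
      nlinarith
    · push Not at htM
      have ht0 : 0 < |t| := lt_of_lt_of_le (Real.rpow_pos_of_pos hM0 _) htM
      have hI : ‖∫ x in M..M', (x : ℂ) ^ (-(t * I))‖ ≤ 3 * M ^ (1 - c) := by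
        refine (Weyl_int2 t M M' hM hMM' ht0).trans ?_
        rw [div_le_iff₀ ht0]
        have h5 : M ^ (1 / 2 : ℝ) * M ^ (1 / 2 : ℝ) = M := by
          rw [← Real.rpow_add hM0]
          norm_num
        have h6 : M ≤ M ^ (1 - c) * |t| := by
          calc M = M ^ (1 / 2 : ℝ) * M ^ (1 / 2 : ℝ) := h5.symm
            _ ≤ M ^ (1 - c) * |t| := mul_le_mul hhalf htM (by positivity) hMc.le
        nlinarith
      have hb : ∀ a ∈ range q, ‖f a * (∑ n ∈ (Ioc ⌊M⌋₊ ⌊M'⌋₊).filter (fun n => n % q = a % q),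
          (n : ℂ) ^ (-(t * I)) - (1 / (q : ℂ)) * ∫ x in M..M', (x : ℂ) ^ (-(t * I)))‖ ≤
          (C₁ + 3) * M ^ (1 - c) := by
        intro a _
        rw [norm_mul]
        refine (mul_le_of_le_one_left (norm_nonneg _) (hf1 a)).trans ?_
        refine (norm_sub_le _ _).trans ?_
        obtain ⟨b, N, hAb, hbN, hsum⟩ := Weyl_param q hq ⌊M⌋₊ ⌊M'⌋₊ a hAB
        rw [hsum fun n => (n : ℂ) ^ (-(t * I))]
        have hMb : M ≤ (b : ℝ) := by
          have h7 : M < (⌊M⌋₊ : ℝ) + 1 := Nat.lt_floor_add_one M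
          have h8 : ((⌊M⌋₊ + 1 : ℕ) : ℝ) ≤ b := by exact_mod_cast hAb
          push_cast at h8
          linarith
        have hMcM : M ^ c ≤ M := by
          conv_rhs => rw [← Real.rpow_one M]
          exact Real.rpow_le_rpow_of_exponent_le hM (by linarith)
        have hbN' : (b : ℝ) + q * N ≤ 3 * M := by
          have h9 : ((b + q * N : ℕ) : ℝ) ≤ ((⌊M'⌋₊ + q : ℕ) : ℝ) := by exact_mod_cast hbN
          push_cast at h9
          have h10 : (⌊M'⌋₊ : ℝ) ≤ M' := Nat.floor_le (by linarith)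
          linarith
        have h11 := hW X hX t ht M hM hXM htM q hq hqc b N hMb hbN'
        have h12 : ∑ m ∈ range N, ((b + q * m : ℕ) : ℂ) ^ (-((t : ℂ) * I)) =
            ∑ m ∈ range N, (((b : ℝ) + q * m : ℝ) : ℂ) ^ (-((t : ℂ) * I)) := by
          refine sum_congr rfl fun m _ => ?_
          congr 1
          push_cast
          rfl
        rw [h12]
        have h13 : ‖(1 / (q : ℂ)) * ∫ x in M..M', (x : ℂ) ^ (-((t : ℂ) * I))‖ ≤
            3 * M ^ (1 - c) := by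
          rw [norm_mul, norm_div, norm_one, Complex.norm_natCast]
          refine (mul_le_of_le_one_left (norm_nonneg _) ?_).trans hI
          rw [div_le_one (by linarith)]
          exact hq1
        linarith
      refine (norm_sum_le _ _).trans ((sum_le_sum hb).trans ?_)
      rw [sum_const, card_range, nsmul_eq_mul]
      have h3 : (q : ℝ) * ((C₁ + 3) * M ^ (1 - c)) ≤ (q : ℝ) ^ 2 * ((C₁ + 3) * M ^ (1 - c)) :=
        mul_le_mul_of_nonneg_right hq2 (by positivity)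
      refine h3.trans ?_
      have h4 : 0 ≤ (q : ℝ) ^ 2 * M ^ (1 - c) := by positivity
      nlinarith
  · push Not at hqc
    have h1 : ‖∑ n ∈ Ioc ⌊M⌋₊ ⌊M'⌋₊, f n * (n : ℂ) ^ (-((t : ℂ) * I))‖ ≤ 2 * M := by
      have h2 : ∀ n ∈ Ioc ⌊M⌋₊ ⌊M'⌋₊, ‖f n * (n : ℂ) ^ (-((t : ℂ) * I))‖ ≤ 1 := by
        intro n hn
        have hn0 : 0 < n := lt_of_le_of_lt (Nat.zero_le _) (mem_Ioc.1 hn).1
        rw [norm_mul, Weyl_norm_nat t hn0, mul_one]
        exact hf1 n
      refine (norm_sum_le _ _).trans ((sum_le_sum h2).trans ?_)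
      rw [sum_const, Nat.card_Ioc, nsmul_eq_mul, mul_one, Nat.cast_sub hAB]
      have h3 : (⌊M'⌋₊ : ℝ) ≤ M' := Nat.floor_le (by linarith)
      have h4 : M < (⌊M⌋₊ : ℝ) + 1 := Nat.lt_floor_add_one M
      linarith
    have h5 : ‖mean q f * ∫ x in M..M', (x : ℂ) ^ (-((t : ℂ) * I))‖ ≤ M := by
      rw [norm_mul]
      refine (mul_le_of_le_one_left (norm_nonneg _) (Weyl_mean hq hf1)).trans ?_
      refine (Weyl_int1 t M M' hM hMM').trans ?_
      linarith
    refine (norm_sub_le _ _).trans ?_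
    have h6 : M ≤ (q : ℝ) ^ 2 * M ^ (1 - c) := by
      calc M = M ^ c * M ^ (1 - c) := hsplit.symm
        _ ≤ (q : ℝ) ^ 2 * M ^ (1 - c) :=
          mul_le_mul_of_nonneg_right (hqc.le.trans hq2) hMc.le
    have h7 : 0 ≤ (q : ℝ) ^ 2 * M ^ (1 - c) := by positivity
    nlinarith

end Pool.Agent.PSG
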