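import Pool.Agent.W_b58c63_h44.Mel

/-!
# A fixed smooth cut-off
-/

set_option autoImplicit false

noncomputable section

open Finset Complex MeasureTheory

namespace Pool.Agent.PSG

/-- Existence of a nonnegative smooth function supported in `[1, 2]` with `∫ v(x) dx / x = 1`.

Proof. A smooth bump (`ContDiffBump` centred at `3/2` with radii `1/4, 1/2`) divided by the constant `∫ bump(x) dx / x > 0`. -/
theorem exists_vv : ∃ v : ℝ → ℝ, ContDiff ℝ (⊤ : ℕ∞) v ∧ (∀ x, 0 ≤ v x) ∧ (∀ x, x ∉ Set.Icc (1 : ℝ) 2 → v x = 0) ∧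
    ∫ x in Set.Ioi (0 : ℝ), v x / x = 1 := by
  let f : ContDiffBump (3 / 2 : ℝ) := ⟨1 / 4, 1 / 2, by norm_num, by norm_num⟩
  have hsm : ContDiff ℝ (⊤ : ℕ∞) (f : ℝ → ℝ) := f.contDiff
  have hz : ∀ x, x ∉ Set.Ioo (1 : ℝ) 2 → f x = 0 := by
    intro x hx
    apply f.zero_of_le_dist
    show (1 / 2 : ℝ) ≤ dist x (3 / 2)
    rw [Real.dist_eq]
    by_contra hcon
    rw [not_le, abs_lt] at hcon
    exact hx ⟨by linarith [hcon.1], by linarith [hcon.2]⟩
  have hp : ∀ x ∈ Set.Ioo (1 : ℝ) 2, 0 < f x := by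
    intro x hx
    apply f.pos_of_mem_ball
    show dist x (3 / 2) < 1 / 2
    rw [Real.dist_eq, abs_lt]
    constructor <;> linarith [hx.1, hx.2]
  have hcont : ContinuousOn (fun x : ℝ => f x / x) (Set.Icc 1 2) := by
    apply ContinuousOn.div hsm.continuous.continuousOn continuousOn_id
    intro x hx
    exact (lt_of_lt_of_le one_pos hx.1).ne'
  have hint : ∫ x in Set.Ioi (0 : ℝ), f x / x = ∫ x in (1 : ℝ)..2, f x / x := by
    rw [intervalIntegral.integral_of_le (by norm_num)]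
    apply setIntegral_eq_of_subset_of_forall_diff_eq_zero measurableSet_Ioi
    · intro x hx
      exact lt_trans one_pos hx.1
    · intro x hx
      rw [hz x (fun h => hx.2 ⟨h.1, h.2.le⟩), zero_div]
  have hpos : 0 < ∫ x in Set.Ioi (0 : ℝ), f x / x := by
    rw [hint]
    apply intervalIntegral.intervalIntegral_pos_of_pos_on
    · apply ContinuousOn.intervalIntegrable
      rw [Set.uIcc_of_le (by norm_num)]
      exact hcont
    · intro x hx
      exact div_pos (hp x hx) (lt_trans one_pos hx.1)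
    · norm_num
  refine ⟨fun x => (∫ x in Set.Ioi (0 : ℝ), f x / x)⁻¹ * f x, ?_, ?_, ?_, ?_⟩
  · exact contDiff_const.mul hsm
  · intro x
    exact mul_nonneg (inv_nonneg.mpr hpos.le) f.nonneg
  · intro x hx
    simp only
    rw [hz x (fun h => hx ⟨h.1.le, h.2.le⟩), mul_zero]
  · have e : (fun x : ℝ => (∫ x in Set.Ioi (0 : ℝ), f x / x)⁻¹ * f x / x) =
        fun x : ℝ => (∫ x in Set.Ioi (0 : ℝ), f x / x)⁻¹ * (f x / x) := by
      funext x
      ring
    rw [e, integral_const_mul, inv_mul_cancel₀ hpos.ne']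

/-- The function `v`. -/
def vv : ℝ → ℝ := Classical.choose exists_vv

theorem vv_spec : ContDiff ℝ (⊤ : ℕ∞) vv ∧ (∀ x, 0 ≤ vv x) ∧ (∀ x, x ∉ Set.Icc (1 : ℝ) 2 → vv x = 0) ∧
    ∫ x in Set.Ioi (0 : ℝ), vv x / x = 1 := Classical.choose_spec exists_vv

/-- The cut-off `w(x) = ∫_x^∞ v(u) du / u`: it is `1` for `x ≤ 1` and `0` for `x ≥ 2`. -/
def ww (x : ℝ) : ℝ := ∫ u in Set.Ioi (max x 0), vv u / u

/-- The Mellin transform of `v`. -/
def VV (z : ℂ) : ℂ := mellin (fun x : ℝ => (vv x : ℂ)) z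

theorem Wv_cont : Continuous vv := vv_spec.1.continuous

theorem Wv_nonneg (x : ℝ) : 0 ≤ vv x := vv_spec.2.1 x

theorem Wv_zero (x : ℝ) (hx : x ∉ Set.Ioo (1 : ℝ) 2) : vv x = 0 := by
  by_cases h : x ∈ Set.Icc (1 : ℝ) 2
  · have hcl : IsClosed {y : ℝ | vv y = 0} := isClosed_eq Wv_cont continuous_const
    have h2 : x ≤ 1 ∨ 2 ≤ x := by
      by_contra hcon
      push Not at hcon
      exact hx ⟨hcon.1, hcon.2⟩
    rcases h2 with h2 | h2
    · have h3 : Set.Iio (1 : ℝ) ⊆ {y : ℝ | vv y = 0} := by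
        intro y hy
        exact vv_spec.2.2.1 y (fun h => absurd h.1 (not_le.mpr hy))
      have h4 := closure_minimal h3 hcl
      rw [closure_Iio] at h4
      exact h4 h2
    · have h3 : Set.Ioi (2 : ℝ) ⊆ {y : ℝ | vv y = 0} := by
        intro y hy
        exact vv_spec.2.2.1 y (fun h => absurd h.2 (not_le.mpr hy))
      have h4 := closure_minimal h3 hcl
      rw [closure_Ioi] at h4
      exact h4 h2
  · exact vv_spec.2.2.1 x h

/-- Integrability of `vv` times a function continuous on `[1, 2]`. -/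
theorem Wv_int {E : Type*} [NormedAddCommGroup E] [NormedSpace ℝ E] (g : ℝ → E)
    (hg : ContinuousOn g (Set.Icc 1 2)) :
    IntegrableOn (fun x => vv x • g x) (Set.Ioi 0) := by
  have h1 : IntegrableOn (fun x => vv x • g x) (Set.Icc 1 2) :=
    (Wv_cont.continuousOn.smul hg).integrableOn_compact isCompact_Icc
  have h2 : Integrable (fun x => vv x • g x) := by
    refine (integrableOn_iff_integrable_of_support_subset ?_).mp h1
    intro x hx
    by_contra hcon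
    apply hx
    simp only
    rw [vv_spec.2.2.1 x hcon, zero_smul]
  exact h2.integrableOn

theorem Wv_int0 : IntegrableOn (fun x => vv x / x) (Set.Ioi 0) := by
  have h := Wv_int (fun x : ℝ => x⁻¹) (by
    apply ContinuousOn.inv₀ continuousOn_id
    intro x hx
    exact (lt_of_lt_of_le one_pos hx.1).ne')
  refine h.congr (Filter.Eventually.of_forall fun x => ?_)
  simp only [smul_eq_mul, div_eq_mul_inv]

/-- Proof. `vv` is supported in `[1, 2] ⊆ [1/4, 16]`; its derivatives are continuous with compact support, so bounded; take the maximum of the bounds of the first `J`. -/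
theorem vv_isW (J : ℕ) : ∃ A : ℝ, 1 ≤ A ∧ IsW J A 1 (fun x : ℝ => (vv x : ℂ)) := by
  have hsm : ContDiff ℝ (⊤ : ℕ∞) (fun x : ℝ => (vv x : ℂ)) :=
    Complex.ofRealCLM.contDiff.comp vv_spec.1
  have hcs : HasCompactSupport (fun x : ℝ => (vv x : ℂ)) := by
    apply HasCompactSupport.of_support_subset_isCompact (isCompact_Icc (a := (1 : ℝ)) (b := 2))
    intro x hx
    by_contra hcon
    apply hx
    simp only
    rw [vv_spec.2.2.1 x hcon, Complex.ofReal_zero]
  have hb : ∀ j : ℕ, ∃ C : ℝ, ∀ x, ‖iteratedDeriv j (fun x : ℝ => (vv x : ℂ)) x‖ ≤ C := by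
    intro j
    obtain ⟨C, hC⟩ := (hsm.continuous_iteratedFDeriv (m := j) (by
      exact_mod_cast le_top)).bounded_above_of_compact_support (hcs.iteratedFDeriv j)
    refine ⟨C, fun x => ?_⟩
    rw [← norm_iteratedFDeriv_eq_norm_iteratedDeriv]
    exact hC x
  choose C hC using hb
  refine ⟨1 + ∑ j ∈ range (J + 1), |C j|, ?_, hsm, ?_, ?_⟩
  · have : 0 ≤ ∑ j ∈ range (J + 1), |C j| := Finset.sum_nonneg fun j _ => abs_nonneg _
    linarith
  · intro x hx
    have h1 : x ∉ Set.Icc (1 : ℝ) 2 := fun h => hx ⟨by linarith [h.1], by linarith [h.2]⟩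
    simp only
    rw [vv_spec.2.2.1 x h1, Complex.ofReal_zero]
  · intro j hj x
    rw [one_pow, mul_one]
    have h1 : |C j| ≤ ∑ j ∈ range (J + 1), |C j| :=
      Finset.single_le_sum (f := fun j => |C j|) (fun j _ => abs_nonneg _)
        (Finset.mem_range.mpr (by omega))
    have h2 := hC j x
    have h3 := le_abs_self (C j)
    linarith

/-- Proof. Definition of `ww`; `v ≥ 0`, `∫ v dx / x = 1`, support in `[1, 2]`. -/
theorem ww_facts : (∀ x, 0 ≤ ww x ∧ ww x ≤ 1) ∧ (∀ x, x ≤ 1 → ww x = 1) ∧ (∀ x, 2 ≤ x → ww x = 0) := by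
  have hsub : ∀ x : ℝ, Set.Ioi (max x 0) ⊆ Set.Ioi 0 := fun x =>
    Set.Ioi_subset_Ioi (le_max_right x 0)
  have hnn : ∀ u ∈ Set.Ioi (0 : ℝ), 0 ≤ vv u / u := fun u hu =>
    div_nonneg (Wv_nonneg u) (le_of_lt hu)
  refine ⟨fun x => ⟨?_, ?_⟩, fun x hx => ?_, fun x hx => ?_⟩
  · exact setIntegral_nonneg measurableSet_Ioi fun u hu => hnn u (hsub x hu)
  · rw [← vv_spec.2.2.2]
    exact setIntegral_mono_set Wv_int0
      ((ae_restrict_iff' measurableSet_Ioi).mpr (Filter.Eventually.of_forall hnn))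
      (HasSubset.Subset.eventuallyLE (hsub x))
  · rw [← vv_spec.2.2.2]
    symm
    apply setIntegral_eq_of_subset_of_forall_diff_eq_zero measurableSet_Ioi (hsub x)
    intro u hu
    have h1 : u ≤ max x 0 := not_lt.mp hu.2
    have h2 : u ≤ 1 := h1.trans (max_le hx zero_le_one)
    rw [Wv_zero u (fun h => absurd h.1 (not_lt.mpr h2)), zero_div]
  · unfold ww
    apply setIntegral_eq_zero_of_forall_eq_zero
    intro u hu
    have h1 : x < u := lt_of_le_of_lt (le_max_left x 0) hu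
    rw [Wv_zero u (fun h => absurd h.2 (not_lt.mpr (by linarith))), zero_div]

theorem Wv_VV (z : ℂ) : VV z = ∫ t in Set.Ioi (0 : ℝ), (t : ℂ) ^ (z - 1) * (vv t : ℂ) := by
  unfold VV mellin
  rfl

theorem Wv_real (δ : ℝ) : VV (δ : ℂ) = ((∫ t in Set.Ioi (0 : ℝ), t ^ δ * (vv t / t) : ℝ) : ℂ) := by
  rw [Wv_VV, ← integral_complex_ofReal]
  apply setIntegral_congr_fun measurableSet_Ioi
  intro t ht
  have ht' : (0 : ℝ) < t := ht
  have h1 : ((δ : ℂ) - 1) = ((δ - 1 : ℝ) : ℂ) := by push_cast; rfl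
  simp only
  rw [h1, ← Complex.ofReal_cpow ht'.le, Real.rpow_sub_one ht'.ne', ← Complex.ofReal_mul]
  congr 1
  ring

theorem Wv_intδ (δ : ℝ) : IntegrableOn (fun t : ℝ => t ^ δ * (vv t / t)) (Set.Ioi 0) := by
  have h := Wv_int (fun x : ℝ => x ^ δ * x⁻¹) (by
    apply ContinuousOn.mul
    · intro x hx
      exact (Real.continuousAt_rpow_const x δ
        (Or.inl (lt_of_lt_of_le one_pos hx.1).ne')).continuousWithinAt
    · apply ContinuousOn.inv₀ continuousOn_id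
      intro x hx
      exact (lt_of_lt_of_le one_pos hx.1).ne')
  refine h.congr (Filter.Eventually.of_forall fun x => ?_)
  simp only [smul_eq_mul, div_eq_mul_inv]
  ring

theorem Wv_up (δ c : ℝ) (hc : ∀ t ∈ Set.Ioo (1 : ℝ) 2, t ^ δ ≤ c) :
    ∫ t in Set.Ioi (0 : ℝ), t ^ δ * (vv t / t) ≤ c := by
  have h1 : ∫ t in Set.Ioi (0 : ℝ), t ^ δ * (vv t / t) ≤
      ∫ t in Set.Ioi (0 : ℝ), c * (vv t / t) := by
    apply setIntegral_mono_on (Wv_intδ δ) (Wv_int0.const_mul c) measurableSet_Ioi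
    intro t ht
    by_cases h : t ∈ Set.Ioo (1 : ℝ) 2
    · exact mul_le_mul_of_nonneg_right (hc t h) (div_nonneg (Wv_nonneg t) (le_of_lt ht))
    · rw [Wv_zero t h]
      simp
  rw [integral_const_mul, vv_spec.2.2.2, mul_one] at h1
  exact h1

theorem Wv_low (δ : ℝ) (hδ : 0 ≤ δ) :
    1 ≤ ∫ t in Set.Ioi (0 : ℝ), t ^ δ * (vv t / t) := by
  have h1 : ∫ t in Set.Ioi (0 : ℝ), (vv t / t) ≤
      ∫ t in Set.Ioi (0 : ℝ), t ^ δ * (vv t / t) := by
    apply setIntegral_mono_on Wv_int0 (Wv_intδ δ) measurableSet_Ioi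
    intro t ht
    by_cases h : t ∈ Set.Ioo (1 : ℝ) 2
    · exact le_mul_of_one_le_left (div_nonneg (Wv_nonneg t) (le_of_lt ht))
        (Real.one_le_rpow h.1.le hδ)
    · rw [Wv_zero t h]
      simp
  rw [vv_spec.2.2.2] at h1
  exact h1

/-- Proof. `VV 0 = ∫ v(x) x ^ (-1) dx = 1`; `‖VV z‖ ≤ ∫ v(x) x ^ (Re z - 1) dx ≤ max (2 ^ Re z) 1 ≤ 2` for `0 ≤ Re z ≤ 1` and `≤ 1` for `Re z ≤ 0`, `≤ 4` for `Re z ≤ 2`;
for real `z = δ ≥ 0` the value is real and at least `1`. -/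
theorem VV_facts : VV 0 = 1 ∧ Differentiable ℂ VV ∧ (∀ z : ℂ, z.re ≤ 2 → ‖VV z‖ ≤ 4) ∧
    ∀ δ : ℝ, 0 ≤ δ → δ ≤ 1 → (VV (δ : ℂ)).im = 0 ∧ 1 ≤ (VV (δ : ℂ)).re ∧ (VV (δ : ℂ)).re ≤ 2 := by
  refine ⟨?_, ?_, ?_, ?_⟩
  · have h := Wv_real 0
    rw [Complex.ofReal_zero] at h
    rw [h]
    have e : (fun t : ℝ => t ^ (0 : ℝ) * (vv t / t)) = fun t : ℝ => vv t / t := by
      funext t
      rw [Real.rpow_zero, one_mul]
    rw [e, vv_spec.2.2.2, Complex.ofReal_one]
  · obtain ⟨A, _, hA⟩ := vv_isW 2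
    exact mellin_diff 2 A 1 _ hA
  · intro z hz
    rw [Wv_VV]
    have h1 : ‖∫ t in Set.Ioi (0 : ℝ), (t : ℂ) ^ (z - 1) * (vv t : ℂ)‖ ≤
        ∫ t in Set.Ioi (0 : ℝ), t ^ z.re * (vv t / t) := by
      apply norm_integral_le_of_norm_le (Wv_intδ z.re)
      refine (ae_restrict_iff' measurableSet_Ioi).mpr (Filter.Eventually.of_forall ?_)
      intro t ht
      have ht' : (0 : ℝ) < t := ht
      rw [norm_mul, Complex.norm_cpow_eq_rpow_re_of_pos ht', Complex.norm_real,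
        Real.norm_of_nonneg (Wv_nonneg t), Complex.sub_re, Complex.one_re,
        Real.rpow_sub_one ht'.ne']
      apply le_of_eq
      ring
    refine h1.trans (Wv_up z.re 4 ?_)
    intro t ht
    have h2 : t ^ z.re ≤ t ^ (2 : ℝ) := Real.rpow_le_rpow_of_exponent_le ht.1.le hz
    have h3 : t ^ (2 : ℝ) = t ^ 2 := Real.rpow_natCast t 2
    rw [h3] at h2
    have h4 : t ^ 2 ≤ 4 := by
      have := ht.1
      have := ht.2
      nlinarith
    exact h2.trans h4
  · intro δ hδ0 hδ1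
    rw [Wv_real δ]
    refine ⟨Complex.ofReal_im _, ?_, ?_⟩
    · rw [Complex.ofReal_re]
      exact Wv_low δ hδ0
    · rw [Complex.ofReal_re]
      apply Wv_up
      intro t ht
      have h2 : t ^ δ ≤ t ^ (1 : ℝ) := Real.rpow_le_rpow_of_exponent_le ht.1.le hδ1
      rw [Real.rpow_one] at h2
      exact h2.trans ht.2.le

/-- The representation of the cut-off, `c > 0`.

Proof. `mellin_pole` with `a = 0`, `w = vv`: the right side is `∫_1^∞ v(x / T) dx / x = ∫_{1/T}^∞ v(u) du / u = ww (1 / T)`. -/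
theorem ww_mellin (c : ℝ) (h0 : 0 < c) (h2 : c ≤ 2) (T : ℝ) (hT : 0 < T) :
    (1 / (2 * Real.pi) : ℂ) * ∫ y : ℝ, (T : ℂ) ^ ((c : ℂ) + y * I) * VV (c + y * I) / (c + y * I) = (ww (1 / T) : ℂ) := by
  obtain ⟨A, _, hA⟩ := vv_isW 2
  have h1 := mellin_pole A 1 _ hA c (by linarith) (by linarith) T hT 0 (by simpa using h0)
  simp only [sub_zero] at h1
  have h2 : (∫ y : ℝ, (T : ℂ) ^ ((c : ℂ) + y * I) * VV (c + y * I) / (c + y * I)) =
      ∫ y : ℝ, (T : ℂ) ^ ((c : ℂ) + y * I) *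
        mellin (fun x : ℝ => (vv x : ℂ)) (c + y * I) / (c + y * I) := rfl
  rw [h2, h1]
  have hT' : (0 : ℝ) < 1 / T := one_div_pos.mpr hT
  have h3 := integral_comp_mul_left_Ioi (fun x : ℝ => vv x / x) 1 hT'
  rw [mul_one] at h3
  have h4 : ∫ x in Set.Ioi (1 : ℝ), (x : ℂ) ^ ((0 : ℂ) - 1) * (vv (x / T) : ℂ) =
      ((∫ x in Set.Ioi (1 : ℝ), (1 / T) * (vv (1 / T * x) / (1 / T * x)) : ℝ) : ℂ) := by
    rw [← integral_complex_ofReal]
    apply setIntegral_congr_fun measurableSet_Ioi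
    intro x hx
    have hx0 : (0 : ℝ) < x := lt_trans one_pos hx
    have h5 : ((0 : ℂ) - 1) = ((-1 : ℝ) : ℂ) := by push_cast; ring
    simp only
    rw [h5, ← Complex.ofReal_cpow hx0.le, Real.rpow_neg_one, ← Complex.ofReal_mul]
    congr 1
    have h6 : 1 / T * x = x / T := by ring
    rw [h6]
    field_simp
  rw [h4, integral_const_mul, h3]
  congr 1
  unfold ww
  rw [max_eq_left hT'.le, smul_eq_mul, ← mul_assoc, mul_inv_cancel₀ hT'.ne', one_mul]

end Pool.Agent.PSG
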